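import Mathlib.Probability.ProductMeasure

/-!
The biased random walk on a bond percolation cluster of the lattice of dimension `D + 1`,
with bias along the coordinate `0`.
-/

set_option autoImplicit false

namespace Pool.Agent.MP_8c549f_pr

open MeasureTheory ProbabilityTheory Filter Topology

/-- sites of the lattice of dimension `D + 1` -/
abbrev V (D : ℕ) : Type := Fin (D + 1) → ℤ

/-- `(x, i)` is the edge between `x` and `x + e_i` -/
abbrev Edge (D : ℕ) : Type := V D × Fin (D + 1)

/-- a configuration says which edges are open -/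
abbrev Cfg (D : ℕ) : Type := Edge D → Bool

/-- `x` and `y` are the two ends of an open edge -/
def Opn {D : ℕ} (ω : Cfg D) (x y : V D) : Prop :=
  ∃ i, (y = x + Pi.single i 1 ∧ ω (x, i) = true) ∨ (x = y + Pi.single i 1 ∧ ω (y, i) = true)

/-- the law of one edge -/
noncomputable def ber (p : ℝ) : Measure Bool :=
  ENNReal.ofReal p • Measure.dirac true + ENNReal.ofReal (1 - p) • Measure.dirac false

/-- Bernoulli bond percolation -/
noncomputable def perc (D : ℕ) (p : ℝ) : Measure (Cfg D) :=
  Measure.infinitePi fun _ : Edge D => ber p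

/-- the origin lies in an infinite open cluster -/
def InfCl (D : ℕ) : Set (Cfg D) :=
  {ω | {y | Relation.ReflTransGen (Opn ω) 0 y}.Infinite}

open Classical in
/-- the conductance `exp (lam * (x + y) · e_0)` of an open edge, and `0` otherwise -/
noncomputable def cond {D : ℕ} (lam : ℝ) (ω : Cfg D) (x y : V D) : ℝ :=
  if Opn ω x y then Real.exp (lam * ((x 0 : ℝ) + (y 0 : ℝ))) else 0

/-- the transition probability `c(x,y) / ∑_z c(x,z)` -/
noncomputable def trans {D : ℕ} (lam : ℝ) (ω : Cfg D) (x y : V D) : ℝ :=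
  cond lam ω x y / ∑' z, cond lam ω x z

open Classical in
/-- `P` is the joint law of the configuration, conditioned on the origin being in an infinite
cluster, and of the walk started at the origin -/
def IsAnnealed (D : ℕ) (p lam : ℝ) (P : Measure (Cfg D × (ℕ → V D))) : Prop :=
  IsProbabilityMeasure P ∧ ∀ A : Set (Cfg D), MeasurableSet A → ∀ (n : ℕ) (γ : ℕ → V D),
    P {z | z.1 ∈ A ∧ ∀ i ≤ n, z.2 i = γ i} =
      ∫⁻ ω in A, ENNReal.ofReal (if γ 0 = 0 then
        ∏ i ∈ Finset.range n, trans lam ω (γ i) (γ (i + 1)) else 0) ∂((perc D p)[|InfCl D])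

/-- under the annealed law, `X_n · e_0 / n` tends to `v` almost surely -/
def HasSpeed (D : ℕ) (p lam v : ℝ) : Prop :=
  ∃ P, IsAnnealed D p lam P ∧
    ∀ᵐ z ∂P, Tendsto (fun n : ℕ => (z.2 n 0 : ℝ) / n) atTop (𝓝 v)

end Pool.Agent.MP_8c549f_pr
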