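import Mathlib.Topology.Sheaves.Presheaf
import Mathlib.Tactic.Monotonicity.Lemmas
import Mathlib.RingTheory.PiTensorProduct
import Mathlib.Order.CompletePartialOrder
import Pool.Agent.MP_8c549f_pr.Model

/-!
Working definitions: step lists, path weights, blocks, pieces, traps, finite chains.
-/

set_option autoImplicit false

namespace Pool.Agent.MP_8c549f_pr

open MeasureTheory Filter Topology
open scoped ENNReal NNReal

variable {D : ℕ}

/-! ### steps and weights -/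

/-- `(i, true)` is the step `+ e_i`, `(i, false)` is the step `- e_i` -/
abbrev Step (D : ℕ) : Type := Fin (D + 1) × Bool

def vec (s : Step D) : V D := if s.2 = true then Pi.single s.1 1 else -Pi.single s.1 1

/-- the edge crossed by the step `s` from `x` -/
def edge (x : V D) (s : Step D) : Edge D :=
  if s.2 = true then (x, s.1) else (x - Pi.single s.1 1, s.1)

def rev (s : Step D) : Step D := (s.1, !s.2)

def fwd (D : ℕ) : Step D := (0, true)

def bck (D : ℕ) : Step D := (0, false)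

noncomputable def wt (lam : ℝ) (s : Step D) : ℝ := Real.exp (lam * (vec s 0 : ℝ))

noncomputable def Zq (lam : ℝ) (ω : Cfg D) (x : V D) : ℝ :=
  ∑ s : Step D, if ω (edge x s) = true then wt lam s else 0

noncomputable def Zf (D : ℕ) (lam : ℝ) : ℝ := Real.exp lam + Real.exp (-lam) + 2 * D

/-- quenched probability of the step `s` from `x` -/
noncomputable def pr (lam : ℝ) (ω : Cfg D) (x : V D) (s : Step D) : ℝ :=
  if ω (edge x s) = true then wt lam s / Zq lam ω x else 0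

/-- quenched probability that the walk from `x` starts with the steps `l` -/
noncomputable def W (lam : ℝ) (ω : Cfg D) : V D → List (Step D) → ℝ≥0∞
  | _, [] => 1
  | x, s :: l => ENNReal.ofReal (pr lam ω x s) * W lam ω (x + vec s) l

def pos (l : List (Step D)) : V D := (l.map vec).sum

/-- displacement after `i` steps -/
def loc (l : List (Step D)) (i : ℕ) : V D := pos (l.take i)

/-- level after `i` steps -/
def H (l : List (Step D)) (i : ℕ) : ℤ := loc l i 0

def lev (l : List (Step D)) : ℤ := pos l 0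

/-- open the edge between `0` and `- e_0` -/
def plus (ω : Cfg D) : Cfg D := Function.update ω (edge 0 (bck D)) true

def cfg (b : Bool) (ω : Cfg D) : Cfg D := if b = true then plus ω else ω

def allOpen (D : ℕ) : Cfg D := fun _ => true

def shift (x : V D) (ω : Cfg D) : Cfg D := fun e => ω (e.1 + x, e.2)

/-- annealed weight of a list of steps from the origin; with `b = true` the back edge is open -/
noncomputable def wb (b : Bool) (p lam : ℝ) (l : List (Step D)) : ℝ≥0∞ :=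
  ∫⁻ ω, W lam (cfg b ω) 0 l ∂perc D p

noncomputable def Wf (lam : ℝ) (l : List (Step D)) : ℝ≥0∞ := W lam (allOpen D) 0 l

/-- sum of `f` over a set of lists -/
noncomputable def SS (A : Set (List (Step D))) (f : List (Step D) → ℝ≥0∞) : ℝ≥0∞ :=
  ∑' l, A.indicator f l

/-- no member of `A` is a proper initial segment of another -/
def Antich (A : Set (List (Step D))) : Prop := ∀ u ∈ A, ∀ l ∈ A, u <+: l → u = l

/-- `F` depends only on the edges in `S` -/
def Dep {β : Type} (F : Cfg D → β) (S : Set (Edge D)) : Prop :=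
  ∀ ω ω' : Cfg D, (∀ e ∈ S, ω e = ω' e) → F ω = F ω'

/-! ### cuts and blocks -/

def Stay (l : List (Step D)) : Prop := ∀ i ≤ l.length, 0 ≤ H l i

/-- the end of `l` is higher than everything before -/
def Rec (l : List (Step D)) : Prop := ∀ i < l.length, H l i < lev l

/-- step number `t` goes up from a site that is higher than everything before it -/
def Cand (l : List (Step D)) (t : ℕ) : Prop :=
  1 ≤ t ∧ t ≤ l.length ∧ H l t = H l (t - 1) + 1 ∧ ∀ i < t - 1, H l i < H l (t - 1)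

def Cut (l : List (Step D)) (t : ℕ) : Prop :=
  Cand l t ∧ ∀ i, t ≤ i → i ≤ l.length → H l t ≤ H l i

def Block (l : List (Step D)) : Prop :=
  Stay l ∧ Cand l l.length ∧ ∀ t < l.length, ¬ Cut l t

/-- sup norm of the lateral coordinates -/
def rad (x : V D) : ℕ := Finset.univ.sup fun j : Fin D => (x j.succ).natAbs

def ext (l : List (Step D)) : ℕ := (Finset.range (l.length + 1)).sup fun i => rad (loc l i)

def Piece (m r : ℕ) (l : List (Step D)) : Prop := Block l ∧ lev l = m ∧ ext l = r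

noncomputable def Box (D m r : ℕ) : Finset (V D) :=
  Fintype.piFinset fun i => if i = 0 then Finset.Ico (0 : ℤ) m else Finset.Icc (-(r : ℤ)) r

def NN (D m r : ℕ) : ℕ := 2 * (m + 1) ^ 3 * (2 * r + 1) ^ (D + 1)

/-- the edges with an end in `B` -/
noncomputable def near (B : Finset (V D)) : Finset (Edge D) :=
  (B ×ˢ (Finset.univ : Finset (Step D))).image fun q => edge q.1 q.2

noncomputable def Uq (lam : ℝ) (ω : Cfg D) (m r : ℕ) : ℝ≥0∞ :=
  SS {l | Piece m r l} (W lam ω 0)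

noncomputable def Tq (lam : ℝ) (ω : Cfg D) (m r : ℕ) : ℝ≥0∞ :=
  SS {l | Piece m r l} fun l => l.length * W lam ω 0 l

noncomputable def UU (D : ℕ) (p lam : ℝ) (m r : ℕ) : ℝ≥0∞ :=
  SS {l : List (Step D) | Piece m r l} (wb true p lam)

/-- mean duration of a block -/
noncomputable def AA (D : ℕ) (p lam : ℝ) : ℝ≥0∞ :=
  SS {l : List (Step D) | Block l} fun l => l.length * wb true p lam l

/-- mean height of a block -/
noncomputable def BB (D : ℕ) (p lam : ℝ) : ℝ≥0∞ :=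
  SS {l : List (Step D) | Block l} fun l => (lev l).toNat * wb true p lam l

noncomputable def AR (D : ℕ) (p lam : ℝ) : ℝ := (AA D p lam).toReal

noncomputable def BR (D : ℕ) (p lam : ℝ) : ℝ := (BB D p lam).toReal

/-- probability of never going below the starting level -/
noncomputable def qq (D : ℕ) (p lam : ℝ) : ℝ≥0∞ :=
  ⨅ n : ℕ, SS {l : List (Step D) | l.length = n ∧ Stay l} (wb true p lam)

/-- probability that the first step is not forward -/
noncomputable def uu (D : ℕ) (p lam : ℝ) : ℝ := 1 - (wb true p lam [fwd D]).toReal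

/-- first visit of level `-1`, after a highest level `i` -/
def RetSet (D i : ℕ) : Set (List (Step D)) :=
  {l | lev l = -1 ∧ (∀ k < l.length, 0 ≤ H l k ∧ H l k ≤ i) ∧ ∃ k < l.length, H l k = i}

noncomputable def Ret (D : ℕ) (p lam : ℝ) (i : ℕ) : ℝ≥0∞ := SS (RetSet D i) (wb true p lam)

/-- first visit of level `m`, with no cut so far -/
def ASet (D m : ℕ) : Set (List (Step D)) := {l | Rec l ∧ lev l = m ∧ ∀ t, ¬ Cut l t}

noncomputable def aa (D : ℕ) (p lam : ℝ) (m : ℕ) : ℝ≥0∞ := SS (ASet D m) (wb true p lam)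

/-- first time at lateral distance `r`, inside the levels `0 .. h` -/
def LatSet (D h r : ℕ) : Set (List (Step D)) :=
  {l | (∀ k ≤ l.length, 0 ≤ H l k ∧ H l k ≤ h) ∧ r ≤ rad (pos l) ∧
    ∀ k < l.length, rad (loc l k) < r}

noncomputable def Lat (D : ℕ) (p lam : ℝ) (h r : ℕ) : ℝ≥0∞ := SS (LatSet D h r) (wb true p lam)

/-! ### Green functions and traps -/

/-- the conductance of the edge crossed by `s` from `x` is `exp (lam * expo x s)` -/
def expo (x : V D) (s : Step D) : ℤ := 2 * x 0 + vec s 0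

/-- an open path inside `B` leads from `x` out of `B` through edges of exponent at least `t` -/
def Esc (ω : Cfg D) (B : Finset (V D)) (x : V D) (t : ℤ) : Prop :=
  ∃ l : List (Step D), l.length ≤ B.card ∧ x + pos l ∉ B ∧ ∀ (i : ℕ) (h : i < l.length),
    x + loc l i ∈ B ∧ ω (edge (x + loc l i) l[i]) = true ∧ t ≤ expo (x + loc l i) l[i]

/-- Green function of the walk killed outside `B` -/
noncomputable def Gb (lam : ℝ) (ω : Cfg D) (B : Finset (V D)) (x y : V D) : ℝ≥0∞ :=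
  SS {l | (∀ i ≤ l.length, x + loc l i ∈ B) ∧ x + pos l = y} (W lam ω x)

def Good (ω : Cfg D) (B : Finset (V D)) (j : ℕ) : Prop :=
  ∀ x ∈ B, Esc ω B x 0 → ∀ s, ω (edge x s) = true → Esc ω B x (expo x s - j)

/-- open cluster of `x` in the half space of levels at least `i` -/
def Up (ω : Cfg D) (i : ℤ) (x : V D) : Set (V D) :=
  {y | Relation.ReflTransGen (fun u v => Opn ω u v ∧ i ≤ u 0 ∧ i ≤ v 0) x y}

/-- the set `S` has index at least `j` above the level of `b` -/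
def Idx (S : Set (V D)) (b : V D) (j : ℕ) : Prop :=
  ∃ z ∈ S, (j : ℤ) ≤ 2 * (z 0 - b 0) + 1 ∨
    ∃ k : Fin D, z + Pi.single k.succ 1 ∈ S ∧ (j : ℤ) ≤ 2 * (z 0 - b 0) + 2

def Trap (ω : Cfg D) (b : V D) (j : ℕ) : Prop :=
  (Up ω (b 0) b).Finite ∧ Idx (Up ω (b 0) b) b j

def Adj (x y : V D) : Prop := ∃ s : Step D, y = x + vec s

/-- a finite connected set above the level of `b`, containing `b`, with connected complement -/
def Shape (b : V D) (S : Finset (V D)) : Prop :=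
  b ∈ S ∧ (∀ x ∈ S, b 0 ≤ x 0) ∧
    (∀ x ∈ S, Relation.ReflTransGen (fun u v => Adj u v ∧ v ∈ S) b x) ∧
    ∀ x ∉ S, ∀ y ∉ S, Relation.ReflTransGen (fun u v => Adj u v ∧ v ∉ S) x y

/-- the edges with exactly one end in `S` and both ends at the level of `b` or above -/
noncomputable def bdry (b : V D) (S : Finset (V D)) : Finset (Edge D) :=
  (near S).filter fun e => b 0 ≤ e.1 0 ∧ ¬ (e.1 ∈ S ↔ e.1 + Pi.single e.2 1 ∈ S)

/-- number of levels of `S` from the level of `b` on -/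
def ht (b : V D) (S : Finset (V D)) : ℕ := S.sup fun x => (x 0 - b 0).toNat + 1

/-! ### finite chains driven by steps -/

section chain

variable {σ : Type} [DecidableEq σ]

/-- weight of a run that stays in `S`, last state included -/
noncomputable def cw (δ : σ → Step D → σ) (S : Finset σ) (P : σ → Step D → ℝ) :
    σ → List (Step D) → ℝ≥0∞
  | z, [] => if z ∈ S then 1 else 0
  | z, s :: l => if z ∈ S then ENNReal.ofReal (P z s) * cw δ S P (δ z s) l else 0

/-- Green function of the chain -/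
noncomputable def CG (δ : σ → Step D → σ) (S : Finset σ) (P : σ → Step D → ℝ) (z y : σ) : ℝ≥0∞ :=
  ∑' l : List (Step D), if l.foldl δ z = y then cw δ S P z l else 0

/-- weight of a run whose steps start in `S`, times the reward of its last step -/
noncomputable def aw (δ : σ → Step D → σ) (S : Finset σ) (P : σ → Step D → ℝ)
    (r : σ → Step D → ℝ≥0) : σ → List (Step D) → ℝ≥0∞
  | _, [] => 0
  | z, s :: l => if z ∈ S then
      ENNReal.ofReal (P z s) * (if l = [] then (r z s : ℝ≥0∞) else aw δ S P r (δ z s) l) else 0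

/-- sum of the charges `c` along a run -/
noncomputable def cnt (δ : σ → Step D → σ) (c : σ → Step D → ℝ≥0) : σ → List (Step D) → ℝ≥0∞
  | _, [] => 0
  | z, s :: l => (c z s : ℝ≥0∞) + cnt δ c (δ z s) l

noncomputable def CU (δ : σ → Step D → σ) (S : Finset σ) (P : σ → Step D → ℝ)
    (r : σ → Step D → ℝ≥0) (z : σ) : ℝ≥0∞ := ∑' l, aw δ S P r z l

noncomputable def CT (δ : σ → Step D → σ) (S : Finset σ) (P : σ → Step D → ℝ)
    (c r : σ → Step D → ℝ≥0) (z : σ) : ℝ≥0∞ := ∑' l, cnt δ c z l * aw δ S P r z l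

end chain

/-- a rational function of `exp lam` without poles on `0 ≤ lam` -/
def IsRat (f : ℝ → ℝ) : Prop :=
  ∃ A B : Polynomial ℝ, ∀ lam : ℝ, 0 ≤ lam →
    B.eval (Real.exp lam) ≠ 0 ∧ f lam = A.eval (Real.exp lam) / B.eval (Real.exp lam)

/-- the walk starts with the steps `u` -/
def Cyl (u : List (Step D)) : Set (Cfg D × (ℕ → V D)) := {z | ∀ i ≤ u.length, z.2 i = loc u i}

end Pool.Agent.MP_8c549f_pr

/-!
Statements of the modules of the first part.
-/

set_option autoImplicit false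

namespace Pool.Agent.MP_8c549f_pr

open MeasureTheory Filter Topology Real
open scoped ENNReal NNReal

/-! ### FAC: independence and factorisation -/

def IndStmt : Prop := ∀ (D : ℕ) (p : ℝ), 0 ≤ p → p ≤ 1 →
  ∀ (F G : Cfg D → ℝ≥0∞) (S T : Set (Edge D)), Measurable F → Measurable G → Dep F S → Dep G T →
    Disjoint S T → ∫⁻ ω, F ω * G ω ∂perc D p = (∫⁻ ω, F ω ∂perc D p) * ∫⁻ ω, G ω ∂perc D p

def CylStmt : Prop := ∀ (D : ℕ) (p : ℝ), 0 ≤ p → p ≤ 1 → ∀ O K : Finset (Edge D), Disjoint O K →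
  perc D p {ω | (∀ e ∈ O, ω e = true) ∧ ∀ e ∈ K, ω e = false} =
    ENNReal.ofReal (p ^ O.card * (1 - p) ^ K.card)

def ShiftStmt : Prop := ∀ (D : ℕ) (p : ℝ), 0 ≤ p → p ≤ 1 → ∀ (F : Cfg D → ℝ≥0∞) (x : V D),
  Measurable F → ∫⁻ ω, F (shift x ω) ∂perc D p = ∫⁻ ω, F ω ∂perc D p

def FAStmt : Prop := ∀ (D : ℕ) (p lam : ℝ), 0 ≤ p → p ≤ 1 → ∀ (b : Bool) (l₁ l₂ : List (Step D)),
  Cand l₁ l₁.length → (∀ i < l₂.length, 0 ≤ H l₂ i) →
    wb b p lam (l₁ ++ l₂) = wb b p lam l₁ * wb true p lam l₂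

def FBStmt : Prop := ∀ (D : ℕ) (p lam : ℝ), 0 ≤ p → p ≤ 1 → ∀ (b : Bool) (l₁ : List (Step D))
  (s : Step D), Rec l₁ → (l₁ ≠ [] ∨ b = true) →
    wb b p lam (l₁ ++ [s]) = wb b p lam l₁ * wb true p lam [s]

def FLStmt : Prop := ∀ (D : ℕ) (p lam : ℝ), 0 ≤ p → p ≤ 1 → ∀ (b : Bool) (l₁ l₂ : List (Step D)),
  (∀ i < l₁.length, ∀ k ≤ l₂.length, loc l₁ i ≠ pos l₁ + loc l₂ k) →
    wb b p lam l₁ * (ENNReal.ofReal (p ^ l₂.length) * Wf lam l₂) ≤ wb b p lam (l₁ ++ l₂)

/-! ### FREE: the walk with all edges open -/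

def F1Stmt : Prop := ∀ (D : ℕ) (lam : ℝ) (j : Fin D) (g : ℤ), (g = 1 ∨ g = -1) → ∀ n : ℕ,
  ENNReal.ofReal (1 / ((n : ℝ) + 1)) ≤
    SS {l : List (Step D) | l.length = n ∧ ∀ k ≤ n, 0 ≤ g * loc l k j.succ} (Wf lam)

def F2Stmt : Prop := ∀ (D : ℕ) (lam : ℝ), 0 ≤ lam → ∀ (n : ℕ) (m : ℤ),
  SS {l : List (Step D) | l.length = n ∧ lev l ≤ m} (Wf lam) ≤
    ENNReal.ofReal (exp (lam * m) * ((2 * D + 2) / Zf D lam) ^ n)

def F3Stmt : Prop := ∀ (D : ℕ) (lam : ℝ), 0 ≤ lam → ∀ n : ℕ,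
  SS {l : List (Step D) | l.length = n ∧ ¬ Stay l} (Wf lam) ≤ ENNReal.ofReal (exp (-2 * lam))

def F4Stmt : Prop := ∀ (D : ℕ) (a : ℝ), 0 < a → ∃ c : ℝ, 0 < c ∧ ∀ lam, a ≤ lam →
  (2 * D + 2) / Zf D lam ≤ exp (-c * lam)

def F5Stmt : Prop := ∀ (D : ℕ) (a lam : ℝ), a < lam →
  (∀ t, a ≤ t → SS {l : List (Step D) | Block l} (wb true 1 t) = 1) → AA D 1 lam ≠ ∞ →
    BR D 1 lam * Zf D lam = AR D 1 lam * (exp lam - exp (-lam))

/-! ### RES: Green function bounds -/

def RESStmt : Prop := ∀ (D : ℕ) (lam : ℝ), 0 ≤ lam → ∀ (ω : Cfg D) (B : Finset (V D)) (x y : V D)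
  (s : Step D) (t : ℤ), Esc ω B x t →
    Gb lam ω B x y * ENNReal.ofReal (pr lam ω y s) ≤
      ENNReal.ofReal ((B.card : ℝ) ^ 2 * exp (lam * ((expo y s - t : ℤ) : ℝ)))

def VANStmt : Prop := ∀ (D : ℕ) (lam : ℝ), 0 ≤ lam → ∀ (ω : Cfg D) (B : Finset (V D)) (x : V D)
  (t : ℤ), Esc ω B x t →
    Tendsto (fun n : ℕ => SS {l | l.length = n ∧ ∀ i ≤ n, x + loc l i ∈ B} (W lam ω x)) atTop (𝓝 0)

/-! ### GEO: open paths and traps -/

def ESCStmt : Prop := ∀ (D : ℕ) (ω : Cfg D) (B : Finset (V D)) (x : V D) (t : ℤ)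
  (l : List (Step D)), x + pos l ∉ B →
    (∀ (i : ℕ) (h : i < l.length),
      ω (edge (x + loc l i) l[i]) = true ∧ t ≤ expo (x + loc l i) l[i]) → Esc ω B x t

def GEOStmt : Prop := ∀ (D : ℕ) (ω : Cfg D) (B : Finset (V D)) (x : V D) (s : Step D) (t₀ t : ℤ)
  (j : ℕ), Esc ω B x t₀ → ω (edge x s) = true → t + j ≤ expo x s → ¬ Esc ω B x t →
    ∃ b ∈ B, Trap ω b (j + 1)

def PLUSStmt : Prop := ∀ (D : ℕ) (ω : Cfg D) (b : V D) (j : ℕ), 0 ≤ b 0 →
  (Trap (plus ω) b j ↔ Trap ω b j)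

def FILLStmt : Prop := ∀ (D : ℕ), 1 ≤ D → ∀ (ω : Cfg D) (b : V D), (Up ω (b 0) b).Finite →
  ∃ S : Finset (V D), Shape b S ∧ Up ω (b 0) b ⊆ (S : Set (V D)) ∧ ∀ e ∈ bdry b S, ω e = false

/-! ### TRAP: counting of shapes -/

def ISO0Stmt : Prop := ∀ (D : ℕ) (b : V D) (S : Finset (V D)) (i : ℤ), b 0 ≤ i →
  (∃ x ∈ S, x 0 = i) → 2 * D ≤ ((bdry b S).filter fun e => e.2 ≠ 0 ∧ e.1 0 = i).card

def ISOStmt : Prop := ∀ (D : ℕ) (b : V D) (S : Finset (V D)), Shape b S →
  2 * D * ht b S + 1 ≤ (bdry b S).card ∧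
    ∀ z ∈ S, ∀ k : Fin D, z + Pi.single k.succ 1 ∈ S → z 0 - b 0 + 1 = ht b S →
      2 * D * ht b S + 2 * D ≤ (bdry b S).card

def ANIStmt : Prop := ∀ (D : ℕ), 1 ≤ D → ∃ C : ℕ, ∀ (b : V D) (n : ℕ),
  ∃ F : Finset (Finset (V D)), F.card ≤ C ^ n ∧ ∀ S, Shape b S → (bdry b S).card ≤ n → S ∈ F

def CMPRStmt : Prop := ∀ (D : ℕ), 1 ≤ D → ∃ C : ℝ, 1 ≤ C ∧ ∀ (t : ℝ), 0 < t → t ≤ 1 →
  ∀ (b : V D) (K e : ℕ), ∃ F : Finset (Finset (V D)), (F.card : ℝ) ≤ (1 + t) ^ K * (C / t) ^ e ∧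
    ∀ S, Shape b S → ht b S = K → (bdry b S).card = 2 * D * K + e → S ∈ F

def TRAPStmt : Prop := ∀ (D : ℕ), 1 ≤ D → ∀ η : ℝ, 0 < η → ∃ C e₀ : ℝ, 0 < C ∧ 0 < e₀ ∧
  ∀ p, 1 - e₀ ≤ p → p ≤ 1 → ∀ (b : V D) (j : ℕ), 1 ≤ j →
    perc D p {ω | Trap ω b j} ≤ ENNReal.ofReal (C * exp (η * j) * (1 - p) ^ (D * (j + 1) + 1))

/-! ### CHAIN: finite chains -/

def CH1Stmt : Prop := ∀ (D : ℕ) (σ : Type) [DecidableEq σ] (δ : σ → Step D → σ) (S : Finset σ)
  (P P' : σ → Step D → ℝ) (c r : σ → Step D → ℝ≥0) (κ : ℝ), 1 ≤ κ →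
    (∀ z s, 0 ≤ P z s) → (∀ z s, 0 ≤ P' z s) → (∀ z, ∑ s, P z s ≤ 1) →
    (∀ z, ∑ s, P' z s = ∑ s, P z s) → (∀ z s, P' z s ≤ κ * P z s) → (∀ z s, P z s ≤ κ * P' z s) →
    ∀ z, CU δ S P' r z ≤ ENNReal.ofReal (κ ^ (2 * S.card)) * CU δ S P r z ∧
      CT δ S P' c r z ≤ ENNReal.ofReal (κ ^ (4 * S.card + 1)) * CT δ S P c r z

def CH2Stmt : Prop := ∀ (D : ℕ) (σ : Type) [DecidableEq σ] (δ : σ → Step D → σ) (S : Finset σ)
  (P : σ → Step D → ℝ) (c r : σ → Step D → ℝ≥0) (Γ : ℝ≥0∞),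
    (∀ z s, 0 ≤ P z s) → (∀ z, ∑ s, P z s ≤ 1) → (∀ z s, c z s ≤ 1) →
    (∀ y ∈ S, ∀ s, c y s ≠ 0 → CU δ S P r (δ y s) ≠ 0 →
      CG δ S P (δ y s) y * ENNReal.ofReal (P y s) ≤ Γ) →
    ∀ (z : σ) (n : ℕ),
      ∑' l : List (Step D), (if n < l.length then cnt δ c z l * aw δ S P r z l else 0) ≤
        (n + S.card * (2 * D + 2) * (2 + Γ)) *
          ∑' l : List (Step D), (if n < l.length then aw δ S P r z l else 0)

def CH3Stmt : Prop := ∀ (D : ℕ) (σ : Type) [DecidableEq σ] (δ : σ → Step D → σ) (S : Finset σ)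
  (P : ℝ → σ → Step D → ℝ) (c r : σ → Step D → ℝ≥0),
    (∀ z s, IsRat fun lam => P lam z s) → (∀ lam, 0 ≤ lam → ∀ z s, 0 ≤ P lam z s) →
    (∀ lam, 0 ≤ lam → ∀ z, ∑ s, P lam z s ≤ 1) →
    (∀ lam, 0 ≤ lam → ∀ y ∈ S, CG δ S (P lam) y y ≠ ∞) →
    ∀ z, (∀ lam, 0 ≤ lam → CU δ S (P lam) r z ≠ ∞ ∧ CT δ S (P lam) c r z ≠ ∞) ∧
      IsRat (fun lam => (CU δ S (P lam) r z).toReal) ∧
      IsRat (fun lam => (CT δ S (P lam) c r z).toReal)

/-! ### RAT: bounded rational functions, Lipschitz sums -/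

def RATStmt : Prop := ∀ (f : ℝ → ℝ) (M : ℝ), IsRat f → (∀ lam, 0 ≤ lam → |f lam| ≤ M) →
  ∃ C : ℝ, 0 ≤ C ∧ (∀ x y, 0 ≤ x → x ≤ y → |f y - f x| ≤ C * (y - x) * exp (-x)) ∧
    ∀ x t, 0 ≤ x → 0 ≤ t → |f (x + 2 * t) - 2 * f (x + t) + f x| ≤ C * t ^ 2 * exp (-x)

def LIPStmt : Prop := ∀ (ι : Type) (f : ι → ℝ → ℝ≥0∞) (K : ι → ℝ) (α β M : ℝ), α ≤ β → 0 ≤ M →
  (∀ i, 0 ≤ K i) →
  (∀ i, ∀ x ∈ Set.Icc α β, ∀ y ∈ Set.Icc α β,
    f i y ≤ ENNReal.ofReal (exp (K i * |y - x|)) * f i x) →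
  (∀ x ∈ Set.Icc α β, ∑' i, ENNReal.ofReal (K i) * f i x ≤ ENNReal.ofReal M) →
  (∀ x ∈ Set.Icc α β, ∑' i, f i x ≠ ∞) →
    |(∑' i, f i β).toReal - (∑' i, f i α).toReal| ≤ 2 * M * (β - α)

/-! ### PIECE: the blocks of given height and width -/

def P1Stmt : Prop := ∀ (D : ℕ) (ω : Cfg D) (m r : ℕ) (x y : ℝ),
  Uq y ω m r ≤ ENNReal.ofReal (exp (10 * NN D m r * |y - x|)) * Uq x ω m r ∧
    Tq y ω m r ≤ ENNReal.ofReal (exp (10 * NN D m r * |y - x|)) * Tq x ω m r

def P2Stmt : Prop := ∀ (D : ℕ) (lam : ℝ), 0 ≤ lam → ∀ (ω : Cfg D) (m r j n : ℕ),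
  Good ω (Box D m r) j →
    SS {l | Piece m r l ∧ n < l.length} (fun l => l.length * W lam ω 0 l) ≤
      ENNReal.ofReal (n + (6 * D + 6) * (NN D m r : ℝ) ^ 3 * exp (lam * j)) *
        SS {l | Piece m r l ∧ n < l.length} (W lam ω 0)

def P3Stmt : Prop := ∀ (D : ℕ) (ω : Cfg D), ω (edge 0 (bck D)) = true → ∀ m r : ℕ,
  (∀ lam, 0 ≤ lam → Tq lam ω m r ≠ ∞) ∧ IsRat (fun lam => (Uq lam ω m r).toReal) ∧
    IsRat (fun lam => (Tq lam ω m r).toReal)

def P4Stmt : Prop := ∀ (D m r : ℕ),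
  (Box D m r).card ≤ NN D m r ∧ (near (Box D m r)).card ≤ (2 * D + 2) * NN D m r ∧
  (∀ lam, Dep (fun ω => Uq lam ω m r) (near (Box D m r) : Set (Edge D))) ∧
  (∀ lam, Dep (fun ω => Tq lam ω m r) (near (Box D m r) : Set (Edge D))) ∧
  (∀ j, Dep (fun ω => Good ω (Box D m r) j) (near (Box D m r) : Set (Edge D))) ∧
  (∀ (lam : ℝ) (ω : Cfg D), Uq lam ω m r ≤ 1 ∧ m * Uq lam ω m r ≤ Tq lam ω m r) ∧
  (∀ ω, Good ω (Box D m r) (2 * m)) ∧ Good (allOpen D) (Box D m r) 0 ∧
  (∀ ω j, Good ω (Box D m r) j → Good ω (Box D m r) (j + 1))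

def P5Stmt : Prop := ∀ (D m r : ℕ), ∃ C : ℝ, 0 ≤ C ∧ ∀ ω : Cfg D, ω (edge 0 (bck D)) = true →
  Good ω (Box D m r) 0 → ∀ x y, 0 ≤ x → x ≤ y →
    Tq x ω m r ≤ ENNReal.ofReal C ∧
    |(Tq y ω m r).toReal - (Tq x ω m r).toReal| ≤ C * (y - x) * exp (-x) ∧
    |(Uq y ω m r).toReal - (Uq x ω m r).toReal| ≤ C * (y - x) * exp (-x)

def SUMPStmt : Prop := ∀ (D : ℕ) (p lam : ℝ), 0 ≤ p → p ≤ 1 →
  (∀ m r, UU D p lam m r = ∫⁻ ω, Uq lam (plus ω) m r ∂perc D p) ∧
  AA D p lam = ∑' q : ℕ × ℕ, ∫⁻ ω, Tq lam (plus ω) q.1 q.2 ∂perc D p ∧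
  BB D p lam = ∑' q : ℕ × ℕ, q.1 * UU D p lam q.1 q.2 ∧
  (∀ m, ∑' r, UU D p lam m r = SS {l : List (Step D) | Block l ∧ lev l = m} (wb true p lam)) ∧
  (∀ r, UU D p lam 0 r = 0) ∧
  (∀ m r r', r' ≤ r → UU D p lam (m + 1) r ≤ Lat D p lam m r') ∧
  BB D p lam ≤ AA D p lam ∧ SS {l : List (Step D) | Block l} (wb true p lam) ≤ BB D p lam

/-! ### LAT, RET, heights -/

def LAT1Stmt : Prop := ∀ (D : ℕ), 1 ≤ D → ∀ a : ℝ, 0 < a → ∃ C : ℕ, 1 ≤ C ∧
  ∀ p lam, 0 ≤ p → p ≤ 1 → a ≤ lam → ∀ h J : ℕ,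
    Lat D p lam h (J * (C * (h + 1) + 1)) ≤
      ENNReal.ofReal (2 * D * exp (-(J * (p ^ (C * (h + 1)) / (2 * (C * (h + 1) + 1))))))

def LAT2Stmt : Prop := ∀ (D : ℕ), 1 ≤ D → ∀ p lam, 0 ≤ p → p ≤ 1 → ∀ h J : ℕ,
  Lat D p lam h (J * (h + 2)) ≤
    ENNReal.ofReal (2 * D * (1 - (p * exp lam / Zf D lam) ^ (h + 1)) ^ J)

def RETStmt : Prop := ∀ (D : ℕ), 1 ≤ D → ∀ a : ℝ, 0 < a → ∃ C e₀ : ℝ, 0 < C ∧ 0 < e₀ ∧
  ∀ p lam μ, 1 - e₀ ≤ p → p ≤ 1 → a ≤ μ → μ ≤ lam → 1 - p ≤ exp (-μ) → ∀ i : ℕ,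
    Ret D p lam i ≤ ENNReal.ofReal (C * exp (-μ * (i + 1) / 2))

def Q0Stmt : Prop := ∀ (D : ℕ), 1 ≤ D → ∀ a : ℝ, 0 < a → ∃ q₀ e₀ : ℝ, 0 < q₀ ∧ 0 < e₀ ∧
  ∀ p lam, 1 - e₀ ≤ p → p ≤ 1 → a ≤ lam → ∑' i, Ret D p lam i ≤ ENNReal.ofReal (1 - q₀)

def PHIStmt : Prop := ∀ (D : ℕ), 1 ≤ D → ∀ p lam, 0 ≤ p → p ≤ 1 → 0 ≤ lam →
  ENNReal.ofReal (p * exp lam / Zf D lam) ≤ wb true p lam [fwd D] ∧
  ∑ s : Step D, wb true p lam [s] = 1 ∧
  (1 - p) + p ^ (2 * D + 1) * (2 * D / Zf D lam) ≤ uu D p lam ∧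
  uu D p lam ≤ (1 - p) + (2 * D + exp (-lam)) * exp (-lam) ∧
  wb true p lam [bck D] ≤ ENNReal.ofReal (exp (-2 * lam) + (1 - p) * exp (-lam) + (1 - p) ^ 2)

def RECStmt : Prop := ∀ (D : ℕ) (p lam : ℝ), 0 ≤ p → p ≤ 1 →
  aa D p lam 0 ≤ 1 ∧
  (∀ m, aa D p lam (m + 1) ≤ (1 - wb true p lam [fwd D]) * aa D p lam m +
    wb true p lam [fwd D] * ∑ M ∈ Finset.range m, aa D p lam M * Ret D p lam (m - 1 - M)) ∧
  (∀ m : ℕ, SS {l : List (Step D) | Block l ∧ lev l = (m + 1 : ℕ)} (wb true p lam) ≤ aa D p lam m) ∧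
  ∀ n h : ℕ, SS {l : List (Step D) | l.length = n ∧ Stay l ∧ ∀ t, ¬ Cut l t} (wb true p lam) ≤
    SS {l : List (Step D) | l.length = n ∧ ∀ k ≤ n, 0 ≤ H l k ∧ H l k ≤ h} (wb true p lam) +
      aa D p lam (h + 1) + ∑ M ∈ Finset.range (h + 1), aa D p lam M * ∑' i, Ret D p lam (h - M + i)

def HTStmt : Prop := ∀ (D : ℕ), 1 ≤ D → ∀ a : ℝ, 0 < a → ∃ c e₀ : ℝ, 0 < c ∧ 0 < e₀ ∧
  ∀ p lam μ, 1 - e₀ ≤ p → p ≤ 1 → a ≤ μ → μ ≤ lam → 1 - p ≤ exp (-μ) → ∀ m : ℕ,
    aa D p lam m ≤ ENNReal.ofReal (exp (-c * μ * m))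

def ONEStmt : Prop := ∀ (D : ℕ), 1 ≤ D → ∀ a : ℝ, 0 < a → ∃ e₀ : ℝ, 0 < e₀ ∧
  ∀ p lam, 1 - e₀ ≤ p → p ≤ 1 → a ≤ lam →
    qq D p lam ≠ 0 ∧ SS {l : List (Step D) | Block l} (wb true p lam) = 1 ∧ BB D p lam ≠ ∞

/-! ### moments of the pieces -/

def MOMAStmt : Prop := ∀ (D : ℕ), 1 ≤ D → ∀ (a ζ : ℝ) (K : ℕ), 0 < a → 0 < ζ →
  ∃ (R : ℕ) (e₀ : ℝ), 0 < e₀ ∧ ∀ p lam, 1 - e₀ ≤ p → p ≤ 1 → a ≤ lam → (1 - p) ^ D * exp lam ≤ 2 →
    ∑' q : ℕ × ℕ, (if R < q.1 ∨ R < q.2 then (NN D q.1 q.2 : ℝ≥0∞) ^ K * UU D p lam q.1 q.2 else 0) ≤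
      ENNReal.ofReal (ζ * exp (-lam))

def MOMBStmt : Prop := ∀ (D : ℕ), 1 ≤ D → ∀ (a : ℝ) (K : ℕ), 0 < a →
  ∃ (C c : ℝ) (K' : ℕ), 0 < C ∧ 0 < c ∧ ∀ α p lam : ℝ, 0 < α → α ≤ 1 → 1 - c * α ≤ p → p ≤ 1 →
    a ≤ lam → ∑' q : ℕ × ℕ, (NN D q.1 q.2 : ℝ≥0∞) ^ K * UU D p lam q.1 q.2 ^ α ≤
      ENNReal.ofReal (C / α ^ K')

def TSUMStmt : Prop := ∀ (D : ℕ), 1 ≤ D → ∀ (a η ζ : ℝ) (K : ℕ), 0 < a → 0 < η → 0 < ζ →
  ∃ e₀ : ℝ, 0 < e₀ ∧ ∀ p lam, 1 - e₀ ≤ p → p ≤ 1 → a ≤ lam → (1 - p) ^ D * exp lam ≤ exp (-η) →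
    ∑' q : ℕ × ℕ, (NN D q.1 q.2 : ℝ≥0∞) ^ K *
      ∫⁻ ω in {ω | ¬ Good (plus ω) (Box D q.1 q.2) 0}, Tq lam (plus ω) q.1 q.2 ∂perc D p ≤
        ENNReal.ofReal (ζ * exp (-lam))

/-! ### comparison with the full lattice -/

def CMPStmt : Prop := ∀ (D : ℕ), 1 ≤ D → ∀ (a η ζ : ℝ), 0 < a → 0 < η → 0 < ζ →
  ∃ e₀ : ℝ, 0 < e₀ ∧ ∀ p x y, 1 - e₀ ≤ p → p ≤ 1 → a ≤ x → x ≤ y →
    (1 - p) ^ D * exp y ≤ exp (-η) →
      AA D p x ≠ ∞ ∧ AA D p y ≠ ∞ ∧ |AR D p x - AR D 1 x| ≤ ζ ∧ |BR D p x - BR D 1 x| ≤ ζ ∧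
      |(AR D p y - AR D 1 y) - (AR D p x - AR D 1 x)| ≤ ζ * (y - x) * exp (-x) ∧
      |(BR D p y - BR D 1 y) - (BR D p x - BR D 1 x)| ≤ ζ * (y - x) * exp (-x)

def CMP0Stmt : Prop := ∀ (D : ℕ), 1 ≤ D → ∀ a : ℝ, 0 < a → ∃ C : ℝ, 0 ≤ C ∧ ∀ x y, a ≤ x → x ≤ y →
  AA D 1 x ≠ ∞ ∧ AR D 1 x ≤ C ∧ |AR D 1 y - AR D 1 x| ≤ C * (y - x) * exp (-x) ∧
    |BR D 1 y - BR D 1 x| ≤ C * (y - x) * exp (-x)

def MONOStmt : Prop := ∀ (D : ℕ), 1 ≤ D → ∀ (a η : ℝ), 0 < a → 0 < η →
  ∃ e₀ : ℝ, 0 < e₀ ∧ ∀ p x y, 1 - e₀ ≤ p → p ≤ 1 → a ≤ x → x < y →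
    (1 - p) ^ D * exp y ≤ exp (-η) →
      AA D p x ≠ ∞ ∧ AA D p y ≠ ∞ ∧ BR D p x / AR D p x < BR D p y / AR D p y

def LOWStmt : Prop := ∀ (D : ℕ), 1 ≤ D → ∀ (η ζ : ℝ), 0 < η → 0 < ζ →
  ∃ C e₀ : ℝ, 0 ≤ C ∧ 0 < e₀ ∧ ∀ p lam, 1 - e₀ ≤ p → p ≤ 1 → 1 ≤ lam →
    (1 - p) ^ D * exp lam ≤ exp (-η) → AA D p lam ≠ ∞ ∧
      AR D p lam ≤ BR D p lam + uu D p lam + C * ((1 - p) + exp (-lam)) ^ 2 + ζ * exp (-lam)

def ZEROStmt : Prop := ∀ (D : ℕ), 1 ≤ D → ∀ η : ℝ, 0 < η → ∃ e₀ : ℝ, 0 < e₀ ∧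
  ∀ p lam, 1 - e₀ ≤ p → p < 1 → exp η ≤ (1 - p) ^ D * exp lam → AA D p lam = ∞

/-! ### the law of the walk -/

def LAWStmt : Prop := ∀ (D : ℕ) (p lam : ℝ), 0 ≤ p → p ≤ 1 →
  ∀ P : Measure (Cfg D × (ℕ → V D)), IsAnnealed D p lam P →
    MeasurableSet (InfCl D) ∧ perc D p (InfCl D) ≠ 0 ∧
    (∀ u : List (Step D), MeasurableSet (Cyl u) ∧
      P (Cyl u) = (perc D p (InfCl D))⁻¹ * ∫⁻ ω in InfCl D, W lam ω 0 u ∂perc D p) ∧
    ∀ᵐ z ∂P, ∀ n : ℕ, ∃ u : List (Step D), u.length = n ∧ z ∈ Cyl u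

/-- weak law of large numbers for a weight of total mass one on a countable type -/
def WLLNStmt : Prop := ∀ (ι : Type) [Countable ι] (w : ι → ℝ≥0∞) (f : ι → ℕ) (δ : ℝ), 0 < δ →
  ∑' i, w i = 1 → ∑' i, (f i : ℝ≥0∞) * w i ≠ ∞ →
    Tendsto (fun k : ℕ => ∑' b : Fin k → ι,
      if δ * k < |(∑ i, (f (b i) : ℝ)) - k * (∑' i, (f i : ℝ≥0∞) * w i).toReal|
        then ∏ i, w (b i) else 0) atTop (𝓝 0)

/-- after the first forward step and the blocks `b`, the walk never goes lower -/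
def Hev {D k : ℕ} (b : Fin k → List (Step D)) : Set (Cfg D × (ℕ → V D)) :=
  Cyl (fwd D :: (List.ofFn b).flatten) ∩
    {z | ∀ n, (fwd D :: (List.ofFn b).flatten).length ≤ n →
      lev (fwd D :: (List.ofFn b).flatten) ≤ z.2 n 0}

def HEVStmt : Prop := ∀ (D : ℕ) (p lam : ℝ), 0 < p → p ≤ 1 → 0 ≤ lam →
  ∀ P : Measure (Cfg D × (ℕ → V D)), IsAnnealed D p lam P → wb false p lam [fwd D] ≠ 0 ∧ ∀ k : ℕ,
    (∀ b : Fin k → List (Step D), (∀ i, Block (b i)) → MeasurableSet (Hev b) ∧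
      wb false p lam [fwd D] * qq D p lam * ∏ i, wb true p lam (b i) ≤ P (Hev b)) ∧
    ∀ b b' : Fin k → List (Step D), (∀ i, Block (b i)) → (∀ i, Block (b' i)) → b ≠ b' →
      Disjoint (Hev b) (Hev b')

def TRANSStmt : Prop := ∀ (D : ℕ) (p lam v : ℝ), 0 < p → p ≤ 1 → 0 ≤ lam → qq D p lam ≠ 0 →
  SS {l : List (Step D) | Block l} (wb true p lam) = 1 → BB D p lam ≠ ∞ → HasSpeed D p lam v →
    (AA D p lam ≠ ∞ → v = BR D p lam / AR D p lam) ∧ (AA D p lam = ∞ → v = 0)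

def UPStmt : Prop := ∀ (D : ℕ), 1 ≤ D → ∀ (p lam v : ℝ), 0 ≤ p → p ≤ 1 → 0 ≤ lam →
  HasSpeed D p lam v → v ≤ 1 / (1 + uu D p lam)

/-! ### final statements -/

def IncStmt : Prop := ∀ (D : ℕ), 1 ≤ D → ∀ a η : ℝ, 0 < a → 0 < η → ∃ p₀ : ℝ, p₀ < 1 ∧
  ∀ p, p₀ < p → p < 1 → ∀ x y vx vy : ℝ, a ≤ x → x < y → y ≤ D * log (1 / (1 - p)) - η →
    HasSpeed D p x vx → HasSpeed D p y vy → vx < vy

def MaxStmt : Prop := ∀ (D : ℕ), 1 ≤ D → ∀ η : ℝ, 0 < η → ∃ p₀ : ℝ, p₀ < 1 ∧
  ∀ p, p₀ < p → p < 1 → ∀ v : ℝ → ℝ, (∀ x, 0 < x → HasSpeed D p x (v x)) →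
    (∀ x, 0 < x → v x ≤ 1 - ((if D = 1 then 3 else 1) - η) * (1 - p)) ∧
    ∃ x, 0 < x ∧ |x - D * log (1 / (1 - p))| ≤ η ∧
      1 - ((if D = 1 then 3 else 1) + η) * (1 - p) ≤ v x ∧
      ∀ y, 0 < y → η < |y - D * log (1 / (1 - p))| → v y < v x

end Pool.Agent.MP_8c549f_pr

/-!
Basic lemmas on steps, weights and sums over lists.
-/

set_option autoImplicit false

namespace Pool.Agent.MP_8c549f_pr

open MeasureTheory Filter Topology Real
open scoped ENNReal NNReal

variable {D : ℕ}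

/-! ### steps -/

@[simp] theorem vec_true (i : Fin (D + 1)) : vec ((i, true) : Step D) = Pi.single i 1 := by
  simp [vec]

@[simp] theorem vec_false (i : Fin (D + 1)) : vec ((i, false) : Step D) = -Pi.single i 1 := by
  simp [vec]

@[simp] theorem edge_true (x : V D) (i : Fin (D + 1)) : edge x (i, true) = (x, i) := by simp [edge]

@[simp] theorem edge_false (x : V D) (i : Fin (D + 1)) :
    edge x (i, false) = (x - Pi.single i 1, i) := by simp [edge]

theorem vec_fwd : vec (fwd D) = Pi.single 0 1 := vec_true 0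

theorem vec_bck : vec (bck D) = -Pi.single 0 1 := vec_false 0

@[simp] theorem vec_fwd_zero : vec (fwd D) 0 = 1 := by simp [vec_fwd]

@[simp] theorem vec_bck_zero : vec (bck D) 0 = -1 := by simp [vec_bck]

theorem vec_side_zero (k : Fin D) (g : Bool) : vec ((k.succ, g) : Step D) 0 = 0 := by
  cases g <;> simp

theorem step_cases (s : Step D) : s = fwd D ∨ s = bck D ∨ ∃ (k : Fin D) (g : Bool), s = (k.succ, g) := by
  obtain ⟨i, g⟩ := s
  refine Fin.cases ?_ (fun k => Or.inr (Or.inr ⟨k, g, rfl⟩)) i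
  cases g
  · exact Or.inr (Or.inl rfl)
  · exact Or.inl rfl

theorem vec_zero_eq_one {s : Step D} : vec s 0 = 1 ↔ s = fwd D := by
  refine ⟨fun h => ?_, fun h => h ▸ vec_fwd_zero⟩
  rcases step_cases s with rfl | rfl | ⟨k, g, rfl⟩
  · rfl
  · simp at h
  · simp [vec_side_zero] at h

theorem vec_zero_eq_neg_one {s : Step D} : vec s 0 = -1 ↔ s = bck D := by
  refine ⟨fun h => ?_, fun h => h ▸ vec_bck_zero⟩
  rcases step_cases s with rfl | rfl | ⟨k, g, rfl⟩
  · simp at h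
  · rfl
  · simp [vec_side_zero] at h

theorem vec_bounds (s : Step D) (i : Fin (D + 1)) : -1 ≤ vec s i ∧ vec s i ≤ 1 := by
  obtain ⟨j, g⟩ := s
  by_cases h : i = j
  · subst h; cases g <;> simp
  · cases g <;> simp [Pi.single_eq_of_ne h]

@[simp] theorem rev_rev (s : Step D) : rev (rev s) = s := by simp [rev]

@[simp] theorem vec_rev (s : Step D) : vec (rev s) = -vec s := by
  obtain ⟨j, g⟩ := s
  cases g <;> simp [rev]

@[simp] theorem edge_rev (x : V D) (s : Step D) : edge (x + vec s) (rev s) = edge x s := by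
  obtain ⟨j, g⟩ := s
  cases g <;> simp [rev, sub_eq_add_neg]

@[simp] theorem expo_rev (x : V D) (s : Step D) : expo (x + vec s) (rev s) = expo x s := by
  simp only [expo, vec_rev, Pi.add_apply, Pi.neg_apply]; ring

theorem expo_eq (x : V D) (s : Step D) : expo x s = x 0 + (x + vec s) 0 := by
  simp only [expo, Pi.add_apply]; ring

theorem vec_injective : Function.Injective (vec : Step D → V D) := by
  rintro ⟨i, g⟩ ⟨j, h⟩ e
  have e1 := congrFun e i
  by_cases hij : i = j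
  · subst hij
    cases g <;> cases h <;> simp at e1 ⊢
  · cases g <;> cases h <;> simp [Pi.single_eq_of_ne hij] at e1

theorem vec_ne_zero (s : Step D) : vec s ≠ 0 := by
  obtain ⟨i, g⟩ := s
  intro e
  have e1 := congrFun e i
  cases g <;> simp at e1

/-- the two ends of `edge x s` are `x` and `x + vec s` -/
theorem edge_ends (x : V D) (s : Step D) :
    ((edge x s).1 = x ∧ (edge x s).1 + Pi.single (edge x s).2 1 = x + vec s) ∨
      ((edge x s).1 = x + vec s ∧ (edge x s).1 + Pi.single (edge x s).2 1 = x) := by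
  obtain ⟨i, g⟩ := s
  cases g <;> simp [sub_eq_add_neg]

theorem edge_eq_iff {x y : V D} {s t : Step D} :
    edge x s = edge y t ↔ (y = x ∧ t = s) ∨ (y = x + vec s ∧ t = rev s) := by
  constructor
  · intro h
    obtain ⟨i, g⟩ := s
    obtain ⟨j, k⟩ := t
    cases g <;> cases k <;> simp only [edge_true, edge_false, Prod.mk.injEq] at h <;>
      obtain ⟨h1, rfl⟩ := h
    · exact Or.inl ⟨(sub_left_injective h1).symm, rfl⟩
    · exact Or.inr ⟨by rw [← h1]; simp [sub_eq_add_neg], rfl⟩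
    · exact Or.inr ⟨by rw [h1]; simp, rfl⟩
    · exact Or.inl ⟨h1.symm, rfl⟩
  · rintro (⟨rfl, rfl⟩ | ⟨rfl, rfl⟩)
    · rfl
    · exact (edge_rev x s).symm

theorem edge_add (x y : V D) (s : Step D) : edge (y + x) s = ((edge y s).1 + x, (edge y s).2) := by
  obtain ⟨i, g⟩ := s
  cases g
  · simp only [edge_false]; congr 1; abel
  · simp

theorem opn_iff {ω : Cfg D} {x y : V D} :
    Opn ω x y ↔ ∃ s : Step D, y = x + vec s ∧ ω (edge x s) = true := by
  constructor
  · rintro ⟨i, ⟨rfl, h⟩ | ⟨rfl, h⟩⟩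
    · exact ⟨(i, true), by simp, by simpa using h⟩
    · exact ⟨(i, false), by simp, by simpa using h⟩
  · rintro ⟨⟨i, g⟩, rfl, h⟩
    cases g
    · exact ⟨i, Or.inr ⟨by simp, by simpa [sub_eq_add_neg] using h⟩⟩
    · exact ⟨i, Or.inl ⟨by simp, by simpa using h⟩⟩

theorem Opn.symm {ω : Cfg D} {x y : V D} (h : Opn ω x y) : Opn ω y x := by
  obtain ⟨i, h⟩ := h
  exact ⟨i, h.symm⟩

theorem Adj.symm {x y : V D} (h : Adj x y) : Adj y x := by
  obtain ⟨s, rfl⟩ := h
  exact ⟨rev s, by simp⟩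

theorem Opn.adj {ω : Cfg D} {x y : V D} (h : Opn ω x y) : Adj x y := by
  obtain ⟨s, h, _⟩ := opn_iff.1 h
  exact ⟨s, h⟩

theorem mem_near {B : Finset (V D)} {e : Edge D} : e ∈ near B ↔ ∃ x ∈ B, ∃ s, edge x s = e := by
  simp [near]

theorem mem_near' {B : Finset (V D)} {e : Edge D} :
    e ∈ near B ↔ e.1 ∈ B ∨ e.1 + Pi.single e.2 1 ∈ B := by
  rw [mem_near]
  constructor
  · rintro ⟨x, hx, s, rfl⟩
    rcases edge_ends x s with h | h
    · exact Or.inl (h.1.symm ▸ hx)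
    · exact Or.inr (h.2.symm ▸ hx)
  · rintro (h | h)
    · exact ⟨_, h, (e.2, true), by simp⟩
    · exact ⟨_, h, (e.2, false), by simp⟩

theorem mem_Box {m r : ℕ} {x : V D} : x ∈ Box D m r ↔ 0 ≤ x 0 ∧ x 0 < m ∧ rad x ≤ r := by
  simp only [Box, Fintype.mem_piFinset, rad, Finset.sup_le_iff, Finset.mem_univ, true_imp_iff]
  rw [Fin.forall_fin_succ]
  simp only [if_true, Fin.succ_ne_zero, if_false, Finset.mem_Ico, Finset.mem_Icc, and_assoc]
  refine and_congr_right fun _ => and_congr_right fun _ => forall_congr' fun j => ?_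
  omega

/-! ### one step probabilities -/

theorem wt_pos (lam : ℝ) (s : Step D) : 0 < wt lam s := exp_pos _

@[simp] theorem wt_fwd (lam : ℝ) : wt lam (fwd D) = exp lam := by simp [wt]

@[simp] theorem wt_bck (lam : ℝ) : wt lam (bck D) = exp (-lam) := by simp [wt]

theorem wt_side (lam : ℝ) (k : Fin D) (g : Bool) : wt lam ((k.succ, g) : Step D) = 1 := by
  simp [wt, vec_side_zero]

/-- a sum over the steps: forward, backward, lateral -/
theorem sum_step {M : Type} [AddCommMonoid M] (f : Step D → M) :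
    ∑ s, f s = f (fwd D) + f (bck D) + ∑ k : Fin D, (f (k.succ, true) + f (k.succ, false)) := by
  rw [Fintype.sum_prod_type, Fin.sum_univ_succ]
  simp only [Fintype.sum_bool]
  rfl

theorem sum_wt (lam : ℝ) : ∑ s : Step D, wt lam s = Zf D lam := by
  rw [sum_step]
  simp [wt_side, Zf]
  ring

theorem Zf_pos (D : ℕ) (lam : ℝ) : 0 < Zf D lam := by unfold Zf; positivity

theorem Zq_nonneg (lam : ℝ) (ω : Cfg D) (x : V D) : 0 ≤ Zq lam ω x :=
  Finset.sum_nonneg fun s _ => by split_ifs; exacts [(wt_pos lam s).le, le_rfl]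

theorem Zq_le_Zf (lam : ℝ) (ω : Cfg D) (x : V D) : Zq lam ω x ≤ Zf D lam := by
  rw [← sum_wt]
  exact Finset.sum_le_sum fun s _ => by split_ifs; exacts [le_rfl, (wt_pos lam s).le]

theorem wt_le_Zq (lam : ℝ) {ω : Cfg D} {x : V D} {s : Step D} (h : ω (edge x s) = true) :
    wt lam s ≤ Zq lam ω x := by
  have := Finset.single_le_sum (f := fun s => if ω (edge x s) = true then wt lam s else 0)
    (fun s _ => by split_ifs; exacts [(wt_pos lam s).le, le_rfl]) (Finset.mem_univ s)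
  simpa [h, Zq] using this

theorem Zq_pos (lam : ℝ) {ω : Cfg D} {x : V D} {s : Step D} (h : ω (edge x s) = true) :
    0 < Zq lam ω x := (wt_pos lam s).trans_le (wt_le_Zq lam h)

theorem Zq_allOpen (lam : ℝ) (x : V D) : Zq lam (allOpen D) x = Zf D lam := by
  simp [Zq, allOpen, sum_wt]

theorem pr_nonneg (lam : ℝ) (ω : Cfg D) (x : V D) (s : Step D) : 0 ≤ pr lam ω x s := by
  unfold pr
  split_ifs
  exacts [div_nonneg (wt_pos lam s).le (Zq_nonneg lam ω x), le_rfl]

theorem pr_of_open (lam : ℝ) {ω : Cfg D} {x : V D} {s : Step D} (h : ω (edge x s) = true) :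
    pr lam ω x s = wt lam s / Zq lam ω x := if_pos h

theorem pr_of_closed (lam : ℝ) {ω : Cfg D} {x : V D} {s : Step D} (h : ω (edge x s) = false) :
    pr lam ω x s = 0 := if_neg (by simp [h])

theorem open_of_pr_ne {lam : ℝ} {ω : Cfg D} {x : V D} {s : Step D} (h : pr lam ω x s ≠ 0) :
    ω (edge x s) = true := by
  by_contra hc
  exact h (if_neg hc)

theorem pr_pos (lam : ℝ) {ω : Cfg D} {x : V D} {s : Step D} (h : ω (edge x s) = true) :
    0 < pr lam ω x s := by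
  rw [pr_of_open lam h]; exact div_pos (wt_pos lam s) (Zq_pos lam h)

theorem pr_allOpen (lam : ℝ) (x : V D) (s : Step D) :
    pr lam (allOpen D) x s = wt lam s / Zf D lam := by
  rw [pr_of_open lam rfl, Zq_allOpen]

theorem free_le_pr (lam : ℝ) {ω : Cfg D} {x : V D} {s : Step D} (h : ω (edge x s) = true) :
    wt lam s / Zf D lam ≤ pr lam ω x s := by
  rw [pr_of_open lam h]
  exact div_le_div_of_nonneg_left (wt_pos lam s).le (Zq_pos lam h) (Zq_le_Zf lam ω x)

theorem sum_pr (lam : ℝ) (ω : Cfg D) (x : V D) : ∑ s, pr lam ω x s = Zq lam ω x / Zq lam ω x := by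
  conv_rhs => rw [Zq, Finset.sum_div]
  refine Finset.sum_congr rfl fun s _ => ?_
  unfold pr
  split_ifs
  · rfl
  · simp

theorem sum_pr_eq_one (lam : ℝ) {ω : Cfg D} {x : V D} {s : Step D} (h : ω (edge x s) = true) :
    ∑ s, pr lam ω x s = 1 := by rw [sum_pr, div_self (Zq_pos lam h).ne']

theorem sum_pr_le_one (lam : ℝ) (ω : Cfg D) (x : V D) : ∑ s, pr lam ω x s ≤ 1 := by
  rw [sum_pr]; exact div_self_le_one _

theorem pr_le_one (lam : ℝ) (ω : Cfg D) (x : V D) (s : Step D) : pr lam ω x s ≤ 1 :=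
  (Finset.single_le_sum (fun s _ => pr_nonneg lam ω x s) (Finset.mem_univ s)).trans
    (sum_pr_le_one lam ω x)

theorem sum_ofReal_pr_le_one (lam : ℝ) (ω : Cfg D) (x : V D) :
    ∑ s, ENNReal.ofReal (pr lam ω x s) ≤ 1 := by
  rw [← ENNReal.ofReal_sum_of_nonneg fun s _ => pr_nonneg lam ω x s]
  exact ENNReal.ofReal_le_one.2 (sum_pr_le_one lam ω x)

theorem sum_ofReal_pr_eq_one (lam : ℝ) {ω : Cfg D} {x : V D} {s : Step D}
    (h : ω (edge x s) = true) : ∑ s, ENNReal.ofReal (pr lam ω x s) = 1 := by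
  rw [← ENNReal.ofReal_sum_of_nonneg fun s _ => pr_nonneg lam ω x s, sum_pr_eq_one lam h,
    ENNReal.ofReal_one]

/-! ### positions -/

@[simp] theorem pos_nil : pos ([] : List (Step D)) = 0 := rfl

@[simp] theorem pos_cons (s : Step D) (l : List (Step D)) : pos (s :: l) = vec s + pos l := by
  simp [pos]

@[simp] theorem pos_append (u l : List (Step D)) : pos (u ++ l) = pos u + pos l := by simp [pos]

@[simp] theorem lev_nil : lev ([] : List (Step D)) = 0 := rfl

theorem lev_cons (s : Step D) (l : List (Step D)) : lev (s :: l) = vec s 0 + lev l := by simp [lev]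

theorem lev_append (u l : List (Step D)) : lev (u ++ l) = lev u + lev l := by simp [lev]

@[simp] theorem loc_zero (l : List (Step D)) : loc l 0 = 0 := by simp [loc]

@[simp] theorem loc_nil (i : ℕ) : loc ([] : List (Step D)) i = 0 := by simp [loc]

theorem loc_of_le {l : List (Step D)} {i : ℕ} (h : l.length ≤ i) : loc l i = pos l := by
  rw [loc, List.take_of_length_le h]

@[simp] theorem loc_length (l : List (Step D)) : loc l l.length = pos l := loc_of_le le_rfl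

@[simp] theorem loc_cons_succ (s : Step D) (l : List (Step D)) (i : ℕ) :
    loc (s :: l) (i + 1) = vec s + loc l i := by simp [loc]

theorem loc_succ {l : List (Step D)} {i : ℕ} (h : i < l.length) :
    loc l (i + 1) = loc l i + vec l[i] := by
  rw [loc, loc, List.take_succ_eq_append_getElem h, pos_append]; simp

theorem loc_append_left {u : List (Step D)} (l : List (Step D)) {i : ℕ} (h : i ≤ u.length) :
    loc (u ++ l) i = loc u i := by
  rw [loc, List.take_append_of_le_length h]; rfl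

theorem loc_append_right (u l : List (Step D)) (i : ℕ) :
    loc (u ++ l) (u.length + i) = pos u + loc l i := by
  rw [loc, List.take_length_add_append, pos_append]; rfl

theorem loc_take (l : List (Step D)) {i n : ℕ} (h : i ≤ n) : loc (l.take n) i = loc l i := by
  rw [loc, List.take_take, min_eq_left h]; rfl

theorem pos_take (l : List (Step D)) (n : ℕ) : pos (l.take n) = loc l n := rfl

theorem loc_drop (l : List (Step D)) (n i : ℕ) : loc l (n + i) = loc l n + loc (l.drop n) i := by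
  rw [loc, List.take_add, pos_append]; rfl

@[simp] theorem H_zero (l : List (Step D)) : H l 0 = 0 := by simp [H]

@[simp] theorem H_length (l : List (Step D)) : H l l.length = lev l := by simp [H, lev]

theorem H_of_le {l : List (Step D)} {i : ℕ} (h : l.length ≤ i) : H l i = lev l := by
  rw [H, loc_of_le h]; rfl

theorem H_cons_succ (s : Step D) (l : List (Step D)) (i : ℕ) :
    H (s :: l) (i + 1) = vec s 0 + H l i := by simp [H]

theorem H_succ {l : List (Step D)} {i : ℕ} (h : i < l.length) :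
    H l (i + 1) = H l i + vec l[i] 0 := by simp [H, loc_succ h]

theorem loc_step (l : List (Step D)) (i : ℕ) (j : Fin (D + 1)) :
    loc l i j - 1 ≤ loc l (i + 1) j ∧ loc l (i + 1) j ≤ loc l i j + 1 := by
  rcases lt_or_ge i l.length with h | h
  · have := vec_bounds l[i] j
    rw [loc_succ h, Pi.add_apply]; omega
  · rw [loc_of_le h, loc_of_le (h.trans (Nat.le_succ i))]; omega

theorem H_step (l : List (Step D)) (i : ℕ) : H l i - 1 ≤ H l (i + 1) ∧ H l (i + 1) ≤ H l i + 1 :=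
  loc_step l i 0

theorem H_append_left {u : List (Step D)} (l : List (Step D)) {i : ℕ} (h : i ≤ u.length) :
    H (u ++ l) i = H u i := by rw [H, loc_append_left l h]; rfl

theorem H_append_right (u l : List (Step D)) (i : ℕ) :
    H (u ++ l) (u.length + i) = lev u + H l i := by rw [H, loc_append_right]; rfl

theorem H_take (l : List (Step D)) {i n : ℕ} (h : i ≤ n) : H (l.take n) i = H l i := by
  rw [H, loc_take l h]; rfl

theorem lev_take (l : List (Step D)) (n : ℕ) : lev (l.take n) = H l n := rfl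

theorem H_drop (l : List (Step D)) (n i : ℕ) : H l (n + i) = H l n + H (l.drop n) i := by
  rw [H, loc_drop]; rfl

theorem abs_loc_le (l : List (Step D)) (j : Fin (D + 1)) (i : ℕ) :
    -(i : ℤ) ≤ loc l i j ∧ loc l i j ≤ i := by
  induction i with
  | zero => simp
  | succ i ih => have := loc_step l i j; push_cast; omega

theorem lev_le_length (l : List (Step D)) : lev l ≤ l.length := by
  have := (abs_loc_le l 0 l.length).2
  rwa [loc_length] at this

/-- discrete intermediate values: the first time a sequence with unit steps reaches `c` -/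
theorem exists_first_hit (f : ℕ → ℤ) (hf : ∀ i, f (i + 1) ≤ f i + 1) {c : ℤ} (h0 : f 0 ≤ c) {n : ℕ}
    (hn : c ≤ f n) : ∃ t ≤ n, f t = c ∧ ∀ i < t, f i < c := by
  classical
  have hex : ∃ t, c ≤ f t := ⟨n, hn⟩
  refine ⟨Nat.find hex, Nat.find_min' hex hn, ?_, fun i hi => not_le.1 (Nat.find_min hex hi)⟩
  have h1 := Nat.find_spec hex
  rcases h : Nat.find hex with _ | t
  · rw [h] at h1; omega
  · have h2 : ¬ c ≤ f t := Nat.find_min hex (by omega)
    have := hf t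
    rw [h] at h1; omega

theorem Block.lev_pos {l : List (Step D)} (h : Block l) : 1 ≤ lev l := by
  obtain ⟨hs, ⟨h1, _, h3, _⟩, _⟩ := h
  have := hs (l.length - 1) (by omega)
  rw [H_length] at h3; omega

/-! ### quenched weights -/

@[simp] theorem W_nil (lam : ℝ) (ω : Cfg D) (x : V D) : W lam ω x [] = 1 := rfl

theorem W_cons (lam : ℝ) (ω : Cfg D) (x : V D) (s : Step D) (l : List (Step D)) :
    W lam ω x (s :: l) = ENNReal.ofReal (pr lam ω x s) * W lam ω (x + vec s) l := rfl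

theorem W_append (lam : ℝ) (ω : Cfg D) (u l : List (Step D)) : ∀ x : V D,
    W lam ω x (u ++ l) = W lam ω x u * W lam ω (x + pos u) l := by
  induction u with
  | nil => intro x; simp
  | cons s u ih => intro x; rw [List.cons_append, W_cons, W_cons, ih, pos_cons, mul_assoc, add_assoc]

theorem W_single (lam : ℝ) (ω : Cfg D) (x : V D) (s : Step D) :
    W lam ω x [s] = ENNReal.ofReal (pr lam ω x s) := by rw [W_cons, W_nil, mul_one]

theorem W_le_one (lam : ℝ) (ω : Cfg D) (l : List (Step D)) : ∀ x : V D, W lam ω x l ≤ 1 := by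
  induction l with
  | nil => intro x; simp
  | cons s l ih =>
    intro x
    rw [W_cons]
    exact mul_le_one' (ENNReal.ofReal_le_one.2 (pr_le_one lam ω x s)) (ih _)

theorem W_ne_top (lam : ℝ) (ω : Cfg D) (x : V D) (l : List (Step D)) : W lam ω x l ≠ ∞ :=
  ne_top_of_le_ne_top ENNReal.one_ne_top (W_le_one lam ω l x)

/-- a property of all steps of `s :: l`, with the site from which they are made -/
theorem forall_steps_cons (Q : V D → Step D → Prop) (x : V D) (s : Step D) (l : List (Step D)) :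
    (∀ (i : ℕ) (h : i < (s :: l).length), Q (x + loc (s :: l) i) (s :: l)[i]) ↔
      Q x s ∧ ∀ (i : ℕ) (h : i < l.length), Q (x + vec s + loc l i) l[i] := by
  constructor
  · intro h
    refine ⟨?_, fun i hi => ?_⟩
    · have := h 0 (by simp)
      rw [loc_zero, add_zero] at this
      exact this
    · have := h (i + 1) (by simpa using hi)
      rw [loc_cons_succ, ← add_assoc] at this
      exact this
  · rintro ⟨h1, h2⟩ i hi
    cases i with
    | zero => rw [loc_zero, add_zero]; exact h1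
    | succ i => rw [loc_cons_succ, ← add_assoc]; exact h2 i (by simpa using hi)

/-- a list has non-zero weight exactly when all the edges it crosses are open -/
theorem W_ne_zero_iff (lam : ℝ) (ω : Cfg D) (l : List (Step D)) : ∀ x : V D,
    W lam ω x l ≠ 0 ↔ ∀ (i : ℕ) (h : i < l.length), ω (edge (x + loc l i) l[i]) = true := by
  induction l with
  | nil => intro x; simp
  | cons s l ih =>
    intro x
    rw [W_cons, mul_ne_zero_iff, ih, forall_steps_cons fun y t => ω (edge y t) = true]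
    refine and_congr_left fun _ => ⟨fun h1 => open_of_pr_ne (lam := lam) fun h => h1 ?_, fun h => ?_⟩
    · rw [h]; simp
    · simpa using pr_pos lam h

theorem W_eq_prod (lam : ℝ) (ω : Cfg D) (l : List (Step D)) : ∀ x : V D,
    W lam ω x l = ∏ i : Fin l.length, ENNReal.ofReal (pr lam ω (x + loc l i) l[i.1]) := by
  induction l with
  | nil => intro x; simp
  | cons s l ih =>
    intro x
    rw [W_cons, ih]
    simp only [List.length_cons]
    rw [Fin.prod_univ_succ]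
    simp [add_assoc]

theorem pr_congr (lam : ℝ) {ω ω' : Cfg D} {x : V D} (h : ∀ s, ω (edge x s) = ω' (edge x s))
    (s : Step D) : pr lam ω x s = pr lam ω' x s := by
  simp only [pr, Zq, h]

/-- the weight depends only on the edges at the sites from which a step is made -/
theorem W_congr (lam : ℝ) {ω ω' : Cfg D} (l : List (Step D)) (x : V D)
    (h : ∀ i < l.length, ∀ s, ω (edge (x + loc l i) s) = ω' (edge (x + loc l i) s)) :
    W lam ω x l = W lam ω' x l := by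
  rw [W_eq_prod, W_eq_prod]
  exact Finset.prod_congr rfl fun i _ => by rw [pr_congr lam (h i i.2)]

theorem dep_W (lam : ℝ) (x : V D) (l : List (Step D)) :
    Dep (fun ω => W lam ω x l) {e | ∃ i < l.length, ∃ s, edge (x + loc l i) s = e} :=
  fun _ _ h => W_congr lam l x fun i hi s => h _ ⟨i, hi, s, rfl⟩

theorem pr_shift (lam : ℝ) (ω : Cfg D) (x y : V D) (s : Step D) :
    pr lam (shift x ω) y s = pr lam ω (y + x) s := by
  simp only [pr, Zq, shift, edge_add]
  rfl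

theorem W_shift (lam : ℝ) (ω : Cfg D) (x : V D) (l : List (Step D)) : ∀ y : V D,
    W lam (shift x ω) y l = W lam ω (y + x) l := by
  induction l with
  | nil => intro y; rfl
  | cons s l ih => intro y; rw [W_cons, W_cons, ih, pr_shift, add_right_comm]

theorem W_allOpen (lam : ℝ) (x : V D) (l : List (Step D)) : W lam (allOpen D) x l = Wf lam l := by
  have := W_shift lam (allOpen D) x l 0
  rw [zero_add] at this
  exact this.symm

theorem Wf_cons (lam : ℝ) (s : Step D) (l : List (Step D)) :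
    Wf lam (s :: l) = ENNReal.ofReal (wt lam s / Zf D lam) * Wf lam l := by
  rw [Wf, W_cons, W_allOpen, pr_allOpen]

theorem Wf_eq (lam : ℝ) (l : List (Step D)) :
    Wf lam l = ENNReal.ofReal (exp (lam * lev l) / Zf D lam ^ l.length) := by
  induction l with
  | nil => simp [Wf]
  | cons s l ih =>
    rw [Wf_cons, ih, ← ENNReal.ofReal_mul (div_pos (wt_pos lam s) (Zf_pos D lam)).le, lev_cons]
    congr 1
    simp only [wt, List.length_cons]
    push_cast
    rw [mul_add, exp_add, pow_succ]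
    field_simp

theorem Wf_le_W (lam : ℝ) (ω : Cfg D) (l : List (Step D)) : ∀ x : V D,
    (∀ (i : ℕ) (h : i < l.length), ω (edge (x + loc l i) l[i]) = true) → Wf lam l ≤ W lam ω x l := by
  induction l with
  | nil => intro x _; simp [Wf]
  | cons s l ih =>
    intro x h
    rw [forall_steps_cons fun y t => ω (edge y t) = true] at h
    rw [Wf_cons, W_cons]
    exact mul_le_mul' (ENNReal.ofReal_le_ofReal (free_le_pr lam h.1)) (ih _ h.2)

/-! ### measurability -/

theorem Dep.mono {β : Type} {F : Cfg D → β} {S T : Set (Edge D)} (h : Dep F S) (hST : S ⊆ T) :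
    Dep F T := fun ω ω' e => h ω ω' fun x hx => e x (hST hx)

theorem Dep.measurable {β : Type} [MeasurableSpace β] {F : Cfg D → β} {S : Set (Edge D)}
    (h : Dep F S) (hS : S.Finite) : Measurable F := by
  classical
  have := hS.to_subtype
  let g : (S → Bool) → β := fun u => F fun e => if he : e ∈ S then u ⟨e, he⟩ else false
  have : F = g ∘ fun ω (e : S) => ω e := by
    funext ω
    exact h _ _ fun e he => by simp [he]
  rw [this]
  exact (measurable_of_countable g).comp (measurable_pi_lambda _ fun e => measurable_pi_apply _)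

theorem Dep.measurableSet {F : Cfg D → Prop} {S : Set (Edge D)} (h : Dep F S) (hS : S.Finite) :
    MeasurableSet {ω | F ω} := measurableSet_setOfPred.2 (h.measurable hS)

theorem measurable_W (lam : ℝ) (x : V D) (l : List (Step D)) :
    Measurable fun ω : Cfg D => W lam ω x l := by
  refine (dep_W lam x l).measurable ?_
  refine ((Set.finite_lt_nat l.length).prod (Set.finite_univ (α := Step D))).image
    (fun q => edge (x + loc l q.1) q.2) |>.subset ?_
  rintro e ⟨i, hi, s, rfl⟩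
  exact ⟨(i, s), ⟨hi, trivial⟩, rfl⟩

theorem measurable_plus : Measurable (plus : Cfg D → Cfg D) := measurable_update_left

theorem measurable_cfg (b : Bool) : Measurable (cfg b : Cfg D → Cfg D) := by
  cases b
  · exact measurable_id
  · exact measurable_plus

theorem measurable_shift (x : V D) : Measurable (shift x : Cfg D → Cfg D) :=
  measurable_pi_lambda _ fun _ => measurable_pi_apply _

@[simp] theorem cfg_true (ω : Cfg D) : cfg true ω = plus ω := rfl

@[simp] theorem cfg_false (ω : Cfg D) : cfg false ω = ω := rfl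

theorem plus_bck (ω : Cfg D) : plus ω (edge 0 (bck D)) = true := Function.update_self _ _ _

theorem plus_of_ne (ω : Cfg D) {e : Edge D} (h : e ≠ edge 0 (bck D)) : plus ω e = ω e :=
  Function.update_of_ne h _ _

theorem plus_of_open {ω : Cfg D} {e : Edge D} (h : ω e = true) : plus ω e = true := by
  by_cases he : e = edge 0 (bck D)
  · rw [he]; exact plus_bck ω
  · rw [plus_of_ne ω he, h]

theorem cfg_of_open (b : Bool) {ω : Cfg D} {e : Edge D} (h : ω e = true) : cfg b ω e = true := by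
  cases b
  exacts [h, plus_of_open h]

theorem plus_allOpen : plus (allOpen D) = allOpen D := funext fun _ => plus_of_open rfl

theorem Dep.comp_plus {β : Type} {F : Cfg D → β} {S : Set (Edge D)} (h : Dep F S) :
    Dep (fun ω => F (plus ω)) S := by
  intro ω ω' e
  refine h _ _ fun x hx => ?_
  by_cases he : x = edge 0 (bck D)
  · rw [he, plus_bck, plus_bck]
  · rw [plus_of_ne _ he, plus_of_ne _ he, e x hx]

theorem ber_prob {p : ℝ} (h0 : 0 ≤ p) (h1 : p ≤ 1) : IsProbabilityMeasure (ber p) := by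
  refine ⟨?_⟩
  simp only [ber, Measure.coe_add, Measure.coe_smul, Pi.add_apply, Pi.smul_apply, measure_univ,
    smul_eq_mul, mul_one]
  rw [← ENNReal.ofReal_add h0 (by linarith)]
  simp

theorem perc_prob (D : ℕ) {p : ℝ} (h0 : 0 ≤ p) (h1 : p ≤ 1) : IsProbabilityMeasure (perc D p) := by
  have := ber_prob h0 h1
  unfold perc
  infer_instance

theorem perc_edge {p : ℝ} (h0 : 0 ≤ p) (h1 : p ≤ 1) (e : Edge D) :
    perc D p {ω | ω e = false} = ENNReal.ofReal (1 - p) := by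
  have := ber_prob h0 h1
  have := (measurePreserving_eval_infinitePi (fun _ : Edge D => ber p) e).measure_preimage
    (s := {false}) (MeasurableSet.singleton false).nullMeasurableSet
  refine Eq.trans ?_ (this.trans ?_)
  · rfl
  · simp [ber]

theorem ae_allOpen : ∀ᵐ ω ∂perc D 1, ω = allOpen D := by
  have : ∀ᵐ ω ∂perc D 1, ∀ e, ω e = true := by
    rw [ae_all_iff]
    intro e
    rw [ae_iff]
    have := perc_edge (D := D) zero_le_one le_rfl e
    simpa using this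
  filter_upwards [this] with ω h using funext h

theorem lintegral_perc_one (F : Cfg D → ℝ≥0∞) : ∫⁻ ω, F ω ∂perc D 1 = F (allOpen D) := by
  have := perc_prob D zero_le_one le_rfl
  rw [lintegral_congr_ae (g := fun _ => F (allOpen D))
    (by filter_upwards [ae_allOpen] with ω h using by rw [h])]
  simp

theorem wb_one (b : Bool) (lam : ℝ) (l : List (Step D)) : wb b 1 lam l = Wf lam l := by
  rw [wb, lintegral_perc_one]
  cases b
  · rfl
  · rw [cfg_true, plus_allOpen]; rfl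

theorem measurable_W_cfg (b : Bool) (lam : ℝ) (l : List (Step D)) :
    Measurable fun ω : Cfg D => W lam (cfg b ω) 0 l :=
  (measurable_W lam 0 l).comp (measurable_cfg b)

theorem wb_nil (b : Bool) {p : ℝ} (h0 : 0 ≤ p) (h1 : p ≤ 1) (lam : ℝ) :
    wb b p lam ([] : List (Step D)) = 1 := by
  have := perc_prob D h0 h1
  simp [wb]

theorem wb_le_one (b : Bool) {p : ℝ} (h0 : 0 ≤ p) (h1 : p ≤ 1) (lam : ℝ) (l : List (Step D)) :
    wb b p lam l ≤ 1 := by
  have := perc_prob D h0 h1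
  exact (lintegral_mono fun ω => W_le_one lam _ l 0).trans (by simp)

/-! ### sums over sets of lists -/

theorem SS_mono {A B : Set (List (Step D))} {f g : List (Step D) → ℝ≥0∞} (h : A ⊆ B)
    (hfg : ∀ l ∈ A, f l ≤ g l) : SS A f ≤ SS B g := by
  refine ENNReal.tsum_le_tsum fun l => ?_
  by_cases hl : l ∈ A
  · rw [Set.indicator_of_mem hl, Set.indicator_of_mem (h hl)]; exact hfg l hl
  · rw [Set.indicator_of_notMem hl]; exact zero_le

/-- members of weight zero may be ignored -/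
theorem SS_mono' {A B : Set (List (Step D))} {f : List (Step D) → ℝ≥0∞}
    (h : ∀ l ∈ A, f l ≠ 0 → l ∈ B) : SS A f ≤ SS B f := by
  refine ENNReal.tsum_le_tsum fun l => ?_
  by_cases hl : l ∈ A
  · rw [Set.indicator_of_mem hl]
    by_cases h0 : f l = 0
    · rw [h0]; exact zero_le
    · rw [Set.indicator_of_mem (h l hl h0)]
  · rw [Set.indicator_of_notMem hl]; exact zero_le

theorem SS_congr {A : Set (List (Step D))} {f g : List (Step D) → ℝ≥0∞} (h : ∀ l ∈ A, f l = g l) :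
    SS A f = SS A g :=
  le_antisymm (SS_mono subset_rfl fun l hl => (h l hl).le) (SS_mono subset_rfl fun l hl => (h l hl).ge)

@[simp] theorem SS_empty (f : List (Step D) → ℝ≥0∞) : SS ∅ f = 0 := by simp [SS]

theorem SS_singleton (u : List (Step D)) (f : List (Step D) → ℝ≥0∞) : SS {u} f = f u := by
  rw [SS, tsum_eq_single u fun l hl => Set.indicator_of_notMem (by simpa using hl) _]
  simp

theorem le_SS {A : Set (List (Step D))} (f : List (Step D) → ℝ≥0∞) {u : List (Step D)}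
    (h : u ∈ A) : f u ≤ SS A f := by
  rw [← SS_singleton u f]; exact SS_mono (by simpa using h) fun _ _ => le_rfl

theorem SS_eq_tsum_subtype (A : Set (List (Step D))) (f : List (Step D) → ℝ≥0∞) :
    SS A f = ∑' l : A, f l := (tsum_subtype A f).symm

theorem SS_union {A B : Set (List (Step D))} (h : Disjoint A B) (f : List (Step D) → ℝ≥0∞) :
    SS (A ∪ B) f = SS A f + SS B f := by
  rw [SS, Set.indicator_union_of_disjoint h, ENNReal.tsum_add]; rfl

theorem SS_split (A B : Set (List (Step D))) (f : List (Step D) → ℝ≥0∞) :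
    SS A f = SS (A ∩ B) f + SS (A \ B) f := by
  rw [← SS_union (Set.disjoint_sdiff_right.mono_left Set.inter_subset_right), Set.inter_union_sdiff]

theorem SS_union_le (A B : Set (List (Step D))) (f : List (Step D) → ℝ≥0∞) :
    SS (A ∪ B) f ≤ SS A f + SS B f := by
  rw [SS_split (A ∪ B) A]
  exact add_le_add (SS_mono Set.inter_subset_right fun _ _ => le_rfl)
    (SS_mono (fun l hl => hl.1.resolve_left hl.2) fun _ _ => le_rfl)

theorem SS_iUnion_le {ι : Type} (A : ι → Set (List (Step D))) (f : List (Step D) → ℝ≥0∞) :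
    SS (⋃ i, A i) f ≤ ∑' i, SS (A i) f := by
  unfold SS
  rw [ENNReal.tsum_comm]
  refine ENNReal.tsum_le_tsum fun l => ?_
  by_cases hl : l ∈ ⋃ i, A i
  · obtain ⟨i, hi⟩ := Set.mem_iUnion.1 hl
    rw [Set.indicator_of_mem hl]
    exact le_trans (by rw [Set.indicator_of_mem hi]) (ENNReal.le_tsum i)
  · rw [Set.indicator_of_notMem hl]; exact zero_le

/-- a sum split along the fibres of a map -/
theorem SS_fiber {ι : Type} (A : Set (List (Step D))) (k : List (Step D) → ι)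
    (f : List (Step D) → ℝ≥0∞) : SS A f = ∑' i, SS {l | l ∈ A ∧ k l = i} f := by
  unfold SS
  rw [ENNReal.tsum_comm]
  refine tsum_congr fun l => ?_
  rw [tsum_eq_single (k l) fun i hi => Set.indicator_of_notMem (fun h => hi h.2.symm) _]
  by_cases hl : l ∈ A
  · rw [Set.indicator_of_mem hl, Set.indicator_of_mem (by exact ⟨hl, rfl⟩)]
  · rw [Set.indicator_of_notMem hl, Set.indicator_of_notMem fun h => hl h.1]

theorem SS_mul_left (A : Set (List (Step D))) (c : ℝ≥0∞) (f : List (Step D) → ℝ≥0∞) :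
    SS A (fun l => c * f l) = c * SS A f := by
  rw [SS, SS, ← ENNReal.tsum_mul_left]
  exact tsum_congr fun l => by by_cases h : l ∈ A <;> simp [h]

theorem SS_add (A : Set (List (Step D))) (f g : List (Step D) → ℝ≥0∞) :
    SS A (fun l => f l + g l) = SS A f + SS A g := by
  rw [SS, SS, SS, ← ENNReal.tsum_add]
  exact tsum_congr fun l => by by_cases h : l ∈ A <;> simp [h]

theorem SS_image {A : Set (List (Step D))} {g : List (Step D) → List (Step D)}
    (hg : Function.Injective g) (f : List (Step D) → ℝ≥0∞) :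
    SS (g '' A) f = SS A fun l => f (g l) := by
  rw [SS_eq_tsum_subtype, SS_eq_tsum_subtype, tsum_image f hg.injOn]

theorem tsum_list (f : List (Step D) → ℝ≥0∞) : ∑' l, f l = f [] + ∑ s, ∑' l, f (s :: l) := by
  classical
  rw [ENNReal.tsum_eq_add_tsum_ite ([] : List (Step D)),
    ← tsum_fintype (L := SummationFilter.unconditional _) fun s => ∑' l, f (s :: l),
    ← ENNReal.tsum_prod (f := fun s l => f (s :: l))]
  congr 1
  refine (Function.Injective.tsum_eq (g := fun q : Step D × List (Step D) => q.1 :: q.2)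
    (f := fun l => @ite _ (l = []) (Classical.propDecidable _) 0 (f l)) ?_ ?_).symm.trans (tsum_congr fun q => by simp)
  · rintro ⟨a, u⟩ ⟨b, v⟩ h
    simpa using h
  · intro l hl
    cases l with
    | nil => simp at hl
    | cons s l => exact ⟨(s, l), rfl⟩

/-- split a sum according to the first step -/
theorem SS_cons (A : Set (List (Step D))) (f : List (Step D) → ℝ≥0∞) :
    SS A f = A.indicator f [] + ∑ s, SS {l | s :: l ∈ A} fun l => f (s :: l) := by
  rw [SS, tsum_list]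
  congr 1

theorem SS_W_cons (lam : ℝ) (ω : Cfg D) (x : V D) (A : Set (List (Step D))) :
    SS A (W lam ω x) = A.indicator (W lam ω x) [] +
      ∑ s, ENNReal.ofReal (pr lam ω x s) * SS {l | s :: l ∈ A} (W lam ω (x + vec s)) := by
  rw [SS_cons]
  congr 1
  exact Finset.sum_congr rfl fun s _ => by rw [← SS_mul_left]; rfl

theorem SS_eq_iSup_length (A : Set (List (Step D))) (f : List (Step D) → ℝ≥0∞) :
    SS A f = ⨆ n : ℕ, SS {l | l ∈ A ∧ l.length ≤ n} f := by
  refine le_antisymm ?_ (iSup_le fun n => SS_mono (fun l hl => hl.1) fun _ _ => le_rfl)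
  rw [SS, ENNReal.tsum_eq_iSup_sum]
  refine iSup_le fun T => le_iSup_of_le (T.sup List.length) ?_
  refine le_trans (Finset.sum_le_sum fun l hl => ?_) (ENNReal.sum_le_tsum T)
  by_cases h : l ∈ A
  · rw [Set.indicator_of_mem h, Set.indicator_of_mem (by exact ⟨h, Finset.le_sup hl⟩)]
  · rw [Set.indicator_of_notMem h]; exact zero_le

theorem Antich.mono {A B : Set (List (Step D))} (h : Antich B) (hAB : A ⊆ B) : Antich A :=
  fun u hu l hl => h u (hAB hu) l (hAB hl)

theorem Antich.tail {A : Set (List (Step D))} (h : Antich A) (u : List (Step D)) :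
    Antich {l | u ++ l ∈ A} := fun _ ha _ hb hab =>
  List.append_cancel_left (h _ ha _ hb ((List.prefix_append_right_inj u).2 hab))

theorem antich_length (n : ℕ) : Antich {l : List (Step D) | l.length = n} :=
  fun _ hu _ hl h => h.eq_of_length (hu.trans hl.symm)

/-- disjoint events have total probability at most one -/
theorem kraft (lam : ℝ) (ω : Cfg D) {A : Set (List (Step D))} (hA : Antich A) (x : V D) :
    SS A (W lam ω x) ≤ 1 := by
  rw [SS_eq_iSup_length]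
  refine iSup_le fun n => ?_
  induction n generalizing A x with
  | zero =>
    refine (SS_mono (B := {[]}) (fun l hl => ?_) fun _ _ => le_rfl).trans (by simp [SS_singleton])
    simpa using hl.2
  | succ n ih =>
    by_cases h0 : [] ∈ A
    · refine (SS_mono (B := {[]}) (fun l hl => ?_) fun _ _ => le_rfl).trans (by simp [SS_singleton])
      exact (hA _ h0 _ hl.1 List.nil_prefix).symm
    · rw [SS_W_cons, Set.indicator_of_notMem (fun h => h0 h.1), zero_add]
      refine le_trans (Finset.sum_le_sum fun s _ => ?_) (sum_ofReal_pr_le_one lam ω x)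
      refine mul_le_of_le_one_right' (le_trans (SS_mono ?_ fun _ _ => le_rfl)
        (ih (hA.tail [s]) (x + vec s)))
      exact fun l hl => ⟨hl.1, by simpa using hl.2⟩

/-- disjoint continuations of `u` -/
theorem cont_q (lam : ℝ) (ω : Cfg D) {T : Set (List (Step D))} (hT : Antich T) (x : V D)
    (u : List (Step D)) : SS T (fun t => W lam ω x (u ++ t)) ≤ W lam ω x u := by
  simp only [W_append]
  rw [SS_mul_left]
  exact mul_le_of_le_one_right' (kraft lam ω hT _)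

/-- abstract covering lemma -/
theorem cover_of_cont {f : List (Step D) → ℝ≥0∞}
    (hf : ∀ T : Set (List (Step D)), Antich T → ∀ u, SS T (fun t => f (u ++ t)) ≤ f u)
    {L P : Set (List (Step D))} (hL : Antich L) (h : ∀ l ∈ L, f l ≠ 0 → ∃ u ∈ P, u <+: l) :
    SS L f ≤ SS P f := by
  calc SS L f ≤ SS (⋃ u : P, (fun t => u.1 ++ t) '' {t | u.1 ++ t ∈ L}) f := by
        refine SS_mono' fun l hl h0 => ?_
        obtain ⟨u, hu, t, rfl⟩ := h l hl h0
        exact Set.mem_iUnion.2 ⟨⟨u, hu⟩, t, hl, rfl⟩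
    _ ≤ ∑' u : P, SS ((fun t => u.1 ++ t) '' {t | u.1 ++ t ∈ L}) f := SS_iUnion_le _ _
    _ ≤ ∑' u : P, f u := ENNReal.tsum_le_tsum fun u => by
        rw [SS_image (List.append_right_injective u.1)]
        exact hf _ (hL.tail u.1) u.1
    _ = SS P f := (SS_eq_tsum_subtype P f).symm

theorem cover_q (lam : ℝ) (ω : Cfg D) (x : V D) {L P : Set (List (Step D))} (hL : Antich L)
    (h : ∀ l ∈ L, W lam ω x l ≠ 0 → ∃ u ∈ P, u <+: l) : SS L (W lam ω x) ≤ SS P (W lam ω x) :=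
  cover_of_cont (fun _ hT u => cont_q lam ω hT x u) hL h

/-- from a site with an open edge the total mass is conserved -/
theorem SS_length_eq_one (lam : ℝ) (ω : Cfg D) (n : ℕ) : ∀ (x : V D) (s : Step D),
    ω (edge x s) = true → SS {l | l.length = n} (W lam ω x) = 1 := by
  induction n with
  | zero =>
    intro x s _
    rw [show {l : List (Step D) | l.length = 0} = {[]} by ext l; simp, SS_singleton, W_nil]
  | succ n ih =>
    intro x s hs
    rw [SS_W_cons, Set.indicator_of_notMem (by simp), zero_add, ← sum_ofReal_pr_eq_one lam hs]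
    refine Finset.sum_congr rfl fun t _ => ?_
    by_cases ht : ω (edge x t) = true
    · rw [show {l : List (Step D) | t :: l ∈ {l : List (Step D) | l.length = n + 1}} =
        {l | l.length = n} by ext l; simp, ih _ (rev t) (by rwa [edge_rev]), mul_one]
    · rw [pr_of_closed lam (by simpa using ht)]; simp

theorem measurable_SS {A : Set (List (Step D))} {f : Cfg D → List (Step D) → ℝ≥0∞}
    (hf : ∀ l, Measurable fun ω => f ω l) : Measurable fun ω => SS A (f ω) := by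
  simp only [SS_eq_tsum_subtype]
  exact Measurable.tsum fun l => hf l

theorem lintegral_SS (μ : Measure (Cfg D)) (A : Set (List (Step D)))
    {f : Cfg D → List (Step D) → ℝ≥0∞} (hf : ∀ l, Measurable fun ω => f ω l) :
    ∫⁻ ω, SS A (f ω) ∂μ = SS A fun l => ∫⁻ ω, f ω l ∂μ := by
  simp only [SS_eq_tsum_subtype]
  exact lintegral_tsum fun l => (hf l).aemeasurable

theorem SS_wb (b : Bool) (p lam : ℝ) (A : Set (List (Step D))) :
    SS A (wb b p lam) = ∫⁻ ω, SS A (W lam (cfg b ω) 0) ∂perc D p :=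
  (lintegral_SS _ A (measurable_W_cfg b lam)).symm

theorem kraft_wb (b : Bool) {p : ℝ} (h0 : 0 ≤ p) (h1 : p ≤ 1) (lam : ℝ) {A : Set (List (Step D))}
    (hA : Antich A) : SS A (wb b p lam) ≤ 1 := by
  have := perc_prob D h0 h1
  rw [SS_wb]
  exact (lintegral_mono fun ω => kraft lam _ hA 0).trans (by simp)

theorem cont_wb (b : Bool) (p lam : ℝ) {T : Set (List (Step D))} (hT : Antich T)
    (u : List (Step D)) : SS T (fun t => wb b p lam (u ++ t)) ≤ wb b p lam u := by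
  unfold wb
  rw [← lintegral_SS _ T fun t => measurable_W_cfg b lam (u ++ t)]
  exact lintegral_mono fun ω => cont_q lam _ hT 0 u

theorem cover_wb (b : Bool) (p lam : ℝ) {L P : Set (List (Step D))} (hL : Antich L)
    (h : ∀ l ∈ L, ∃ u ∈ P, u <+: l) : SS L (wb b p lam) ≤ SS P (wb b p lam) :=
  cover_of_cont (fun _ hT u => cont_wb b p lam hT u) hL fun l hl _ => h l hl

theorem SS_length_wb {p : ℝ} (h0 : 0 ≤ p) (h1 : p ≤ 1) (lam : ℝ) (n : ℕ) :
    SS {l : List (Step D) | l.length = n} (wb true p lam) = 1 := by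
  have := perc_prob D h0 h1
  rw [SS_wb]
  simp only [cfg_true, SS_length_eq_one lam _ n 0 (bck D) (plus_bck _)]
  simp

theorem SS_length_Wf (lam : ℝ) (n : ℕ) : SS {l : List (Step D) | l.length = n} (Wf lam) = 1 :=
  SS_length_eq_one lam (allOpen D) n 0 (fwd D) rfl

/-! ### rational functions of `exp lam` -/

theorem IsRat.congr {f g : ℝ → ℝ} (hf : IsRat f) (h : ∀ x, 0 ≤ x → f x = g x) : IsRat g := by
  obtain ⟨A, B, hf⟩ := hf
  exact ⟨A, B, fun x hx => ⟨(hf x hx).1, (h x hx).symm.trans (hf x hx).2⟩⟩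

theorem isRat_const (c : ℝ) : IsRat fun _ => c :=
  ⟨Polynomial.C c, 1, fun _ _ => by simp⟩

theorem isRat_exp : IsRat fun x => exp x := ⟨Polynomial.X, 1, fun _ _ => by simp⟩

theorem IsRat.add {f g : ℝ → ℝ} (hf : IsRat f) (hg : IsRat g) : IsRat fun x => f x + g x := by
  obtain ⟨A, B, hf⟩ := hf
  obtain ⟨A', B', hg⟩ := hg
  refine ⟨A * B' + A' * B, B * B', fun x hx => ?_⟩
  have h1 := hf x hx
  have h2 := hg x hx
  simp only [Polynomial.eval_mul, Polynomial.eval_add]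
  refine ⟨mul_ne_zero h1.1 h2.1, ?_⟩
  rw [h1.2, h2.2, div_add_div _ _ h1.1 h2.1]
  ring

theorem IsRat.mul {f g : ℝ → ℝ} (hf : IsRat f) (hg : IsRat g) : IsRat fun x => f x * g x := by
  obtain ⟨A, B, hf⟩ := hf
  obtain ⟨A', B', hg⟩ := hg
  refine ⟨A * A', B * B', fun x hx => ?_⟩
  have h1 := hf x hx
  have h2 := hg x hx
  simp only [Polynomial.eval_mul]
  exact ⟨mul_ne_zero h1.1 h2.1, by rw [h1.2, h2.2, div_mul_div_comm]⟩

theorem IsRat.neg {f : ℝ → ℝ} (hf : IsRat f) : IsRat fun x => -f x :=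
  ((isRat_const (-1)).mul hf).congr fun _ _ => by ring

theorem IsRat.sub {f g : ℝ → ℝ} (hf : IsRat f) (hg : IsRat g) : IsRat fun x => f x - g x :=
  (hf.add hg.neg).congr fun _ _ => by ring

theorem IsRat.inv {f : ℝ → ℝ} (hf : IsRat f) (h : ∀ x, 0 ≤ x → f x ≠ 0) :
    IsRat fun x => (f x)⁻¹ := by
  obtain ⟨A, B, hf⟩ := hf
  refine ⟨B, A, fun x hx => ?_⟩
  have h1 := hf x hx
  refine ⟨fun h0 => h x hx (by rw [h1.2, h0, zero_div]), by simp only [h1.2, inv_div]⟩

theorem IsRat.div {f g : ℝ → ℝ} (hf : IsRat f) (hg : IsRat g) (h : ∀ x, 0 ≤ x → g x ≠ 0) :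
    IsRat fun x => f x / g x := (hf.mul (hg.inv h)).congr fun _ _ => (div_eq_mul_inv _ _).symm

theorem isRat_sum {ι : Type} (T : Finset ι) {f : ι → ℝ → ℝ} (h : ∀ i ∈ T, IsRat (f i)) :
    IsRat fun x => ∑ i ∈ T, f i x := by
  classical
  induction T using Finset.induction_on with
  | empty => simpa using isRat_const 0
  | insert i T hi ih =>
    simp only [Finset.sum_insert hi]
    exact (h i (by simp)).add (ih fun j hj => h j (by simp [hj]))

theorem isRat_prod {ι : Type} (T : Finset ι) {f : ι → ℝ → ℝ} (h : ∀ i ∈ T, IsRat (f i)) :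
    IsRat fun x => ∏ i ∈ T, f i x := by
  classical
  induction T using Finset.induction_on with
  | empty => simpa using isRat_const 1
  | insert i T hi ih =>
    simp only [Finset.prod_insert hi]
    exact (h i (by simp)).mul (ih fun j hj => h j (by simp [hj]))

theorem isRat_wt (s : Step D) : IsRat fun x => wt x s := by
  rcases step_cases s with rfl | rfl | ⟨k, g, rfl⟩
  · simpa using isRat_exp
  · exact (isRat_exp.inv fun x _ => (exp_pos x).ne').congr fun x _ => by simp [exp_neg]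
  · simpa [wt_side] using isRat_const 1

theorem isRat_pr (ω : Cfg D) (x : V D) (s : Step D) : IsRat fun lam => pr lam ω x s := by
  by_cases h : ω (edge x s) = true
  · simp only [pr_of_open _ h]
    refine (isRat_wt s).div (isRat_sum _ fun t _ => ?_) fun lam _ => (Zq_pos lam h).ne'
    by_cases ht : ω (edge x t) = true
    · simpa [ht] using isRat_wt t
    · simpa [ht] using isRat_const 0
  · simpa [pr, h] using isRat_const 0

end Pool.Agent.MP_8c549f_pr
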