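import Mathlib.Data.Int.Star
import Mathlib.Combinatorics.Matroid.Basic
import Mathlib.Data.List.GetD
import Mathlib.Analysis.SpecialFunctions.Log.Deriv
import Mathlib.Analysis.SpecialFunctions.Trigonometric.DerivHyp
import Mathlib.Probability.ProbabilityMassFunction.Basic
import Mathlib.Probability.Independence.InfinitePi
import Mathlib.Probability.StrongLaw
import Pool.Agent.MP_8c549f_pr.Base

/-!
Independence, cylinders, translations, and factorisation of the annealed weights.
-/

set_option autoImplicit false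

namespace Pool.Agent.MP_8c549f_pr

open MeasureTheory ProbabilityTheory Filter Topology Real
open scoped ENNReal NNReal

variable {D : ℕ}

namespace Fac

/-- the sigma-algebra of the edges in `S` -/
abbrev sig (S : Set (Edge D)) : MeasurableSpace (Cfg D) :=
  ⨆ e ∈ S, MeasurableSpace.comap (fun ω : Cfg D => ω e) inferInstance

theorem sig_le (S : Set (Edge D)) : sig S ≤ (MeasurableSpace.pi : MeasurableSpace (Cfg D)) :=
  iSup₂_le fun e _ => (measurable_pi_apply e).comap_le

theorem meas_sig {F : Cfg D → ℝ≥0∞} {S : Set (Edge D)} (hF : Measurable F) (h : Dep F S) :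
    Measurable[sig S] F := by
  classical
  have e : F = F ∘ fun (ω : Cfg D) e => if e ∈ S then ω e else false := by
    funext ω
    exact h _ _ fun e he => by simp [he]
  rw [e]
  refine hF.comp (@measurable_pi_lambda _ _ _ (sig S) _ _ fun e => ?_)
  by_cases he : e ∈ S
  · simp only [if_pos he]
    exact Measurable.of_comap_le (le_iSup₂_of_le e he le_rfl)
  · simp only [if_neg he]
    exact measurable_const

theorem dep_cfg (b : Bool) {β : Type} {F : Cfg D → β} {S : Set (Edge D)} (h : Dep F S) :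
    Dep (fun ω => F (cfg b ω)) S := by
  cases b
  · exact h
  · exact h.comp_plus

theorem cfg_of_ne (b : Bool) (ω : Cfg D) {e : Edge D} (h : e ≠ edge 0 (bck D)) :
    cfg b ω e = ω e := by
  cases b
  · rfl
  · exact plus_of_ne ω h

theorem edge_ne_bck {y : V D} (hy : 1 ≤ y 0) (s : Step D) : edge y s ≠ edge 0 (bck D) := by
  intro h
  rcases edge_eq_iff.1 h.symm with ⟨h1, -⟩ | ⟨h1, -⟩
  · rw [h1] at hy; simp at hy
  · rw [h1] at hy; simp at hy

theorem shift_edge (x y : V D) (s : Step D) (ω : Cfg D) :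
    shift x ω (edge y s) = ω (edge (y + x) s) := by
  rw [edge_add]; rfl

end Fac

open Fac

theorem ind : IndStmt := by
  intro D p h0 h1 F G S T hF hG dF dG hST
  have := ber_prob h0 h1
  have hi : iIndepFun (fun (e : Edge D) (ω : Cfg D) => ω e) (perc D p) :=
    iIndepFun_infinitePi (X := fun _ b => b) fun _ => measurable_id
  exact lintegral_mul_eq_lintegral_mul_lintegral_of_independent_measurableSpace (sig_le S)
    (sig_le T) (indep_iSup_of_disjoint (fun e => (measurable_pi_apply e).comap_le) hi.iIndep hST)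
    (meas_sig hF dF) (meas_sig hG dG)

theorem cyl : CylStmt := by
  intro D p h0 h1 O K hOK
  classical
  have := ber_prob h0 h1
  have e : {ω : Cfg D | (∀ e ∈ O, ω e = true) ∧ ∀ e ∈ K, ω e = false} =
      Set.pi ((O ∪ K : Finset (Edge D)) : Set (Edge D))
        fun e => if e ∈ O then {true} else {false} := by
    ext ω
    simp only [Set.mem_ofPred_eq, Set.mem_pi, Finset.mem_coe, Finset.mem_union]
    constructor
    · rintro ⟨a, b⟩ e he
      split_ifs with h
      · exact a e h
      · exact b e (he.resolve_left h)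
    · intro h
      refine ⟨fun e he => by simpa [he] using h e (Or.inl he), fun e he => ?_⟩
      have : e ∉ O := fun h' => Finset.disjoint_left.1 hOK h' he
      simpa [this] using h e (Or.inr he)
  rw [e, perc, Measure.infinitePi_pi _ fun _ _ => MeasurableSet.of_discrete,
    Finset.prod_union hOK]
  have a1 : ∏ e ∈ O, ber p (if e ∈ O then {true} else {false}) = ENNReal.ofReal p ^ O.card := by
    rw [← Finset.prod_const]
    exact Finset.prod_congr rfl fun e he => by simp [he, ber]
  have a2 : ∏ e ∈ K, ber p (if e ∈ O then {true} else {false}) =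
      ENNReal.ofReal (1 - p) ^ K.card := by
    rw [← Finset.prod_const]
    refine Finset.prod_congr rfl fun e he => ?_
    have : e ∉ O := fun h' => Finset.disjoint_left.1 hOK h' he
    simp [this, ber]
  rw [a1, a2, ENNReal.ofReal_mul (pow_nonneg h0 _), ENNReal.ofReal_pow h0,
    ENNReal.ofReal_pow (by linarith)]

theorem shft : ShiftStmt := by
  intro D p h0 h1 F x hF
  have := ber_prob h0 h1
  have hm : (perc D p).map (shift x) = perc D p :=
    Measure.map_infinitePi_infinitePi_of_inj (P := fun _ : Edge D => ber p)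
      (f := fun e : Edge D => (e.1 + x, e.2)) fun a b h => by
        simp only [Prod.mk.injEq, add_left_inj] at h
        exact Prod.ext h.1 h.2
  conv_rhs => rw [← hm]
  rw [lintegral_map hF (measurable_shift x)]

namespace Fac

theorem core {p : ℝ} (lam : ℝ) (h0 : 0 ≤ p) (h1 : p ≤ 1) (b : Bool) (l₁ l₂ : List (Step D))
    (n : ℕ) (hn : l₁.length = n + 1) (hup : H l₁ (n + 1) = H l₁ n + 1) (hlev : 1 ≤ lev l₁)
    (h2 : ∀ k < l₂.length, 0 ≤ H l₂ k)
    (hd : ∀ i < l₁.length, ∀ k < l₂.length, ∀ s t,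
      edge (loc l₁ i) s = edge (pos l₁ + loc l₂ k) t → edge (loc l₁ i) s = edge (pos l₁) (bck D)) :
    wb b p lam (l₁ ++ l₂) = wb b p lam l₁ * wb true p lam l₂ := by
  set x := pos l₁ with hx
  have hn' : n < l₁.length := by omega
  have hs : l₁[n] = fwd D := by
    rw [H_succ hn'] at hup
    exact vec_zero_eq_one.1 (by linarith)
  have hxe : edge (loc l₁ n) l₁[n] = edge x (bck D) := by
    have : x = loc l₁ n + vec l₁[n] := by rw [← loc_succ hn', ← hn, loc_length]
    rw [this, ← edge_rev, hs]
    rfl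
  have hx0 : 1 ≤ x 0 := hlev
  have hpt : ∀ ω : Cfg D, W lam (cfg b ω) 0 (l₁ ++ l₂) =
      W lam (cfg b ω) 0 l₁ * W lam (plus (shift x ω)) 0 l₂ := by
    intro ω
    rw [W_append, zero_add]
    by_cases hz : W lam (cfg b ω) 0 l₁ = 0
    · rw [hz, zero_mul, zero_mul]
    · congr 1
      have ho := (W_ne_zero_iff lam _ l₁ 0).1 hz n hn'
      rw [zero_add, hxe, cfg_of_ne b ω (edge_ne_bck hx0 _)] at ho
      have hp : plus (shift x ω) = shift x ω := by
        refine Function.update_eq_self_iff.2 ?_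
        rw [shift_edge, zero_add, ho]
      rw [hp, W_shift, zero_add]
      refine W_congr lam l₂ x fun k hk s => cfg_of_ne b ω (edge_ne_bck ?_ s)
      have := h2 k hk
      simp only [Pi.add_apply]
      unfold H at this
      omega
  have hG : Measurable fun ω : Cfg D => W lam (plus ω) 0 l₂ := measurable_W_cfg true lam l₂
  have dG : Dep (fun ω : Cfg D => W lam (plus (shift x ω)) 0 l₂)
      ({e | ∃ k < l₂.length, ∃ t, edge (x + loc l₂ k) t = e} \ {edge x (bck D)}) := by
    intro ω ω' h
    refine W_congr lam l₂ 0 fun k hk s => ?_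
    by_cases he : edge (0 + loc l₂ k) s = edge 0 (bck D)
    · rw [he, plus_bck, plus_bck]
    · rw [plus_of_ne _ he, plus_of_ne _ he, shift_edge, shift_edge]
      refine h _ ⟨⟨k, hk, s, by rw [zero_add, add_comm]⟩, fun h' => he ?_⟩
      have h3 : edge (0 + loc l₂ k + x) s = edge (0 + x) (bck D) := by rw [zero_add x]; exact h'
      rw [edge_add x, edge_add x, Prod.mk.injEq, add_left_inj] at h3
      exact Prod.ext h3.1 h3.2
  unfold wb
  simp only [hpt]
  have hG' : Measurable fun ω : Cfg D => W lam (plus (shift x ω)) 0 l₂ :=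
    hG.comp (measurable_shift x)
  rw [ind D p h0 h1 _ _ _ _ (measurable_W_cfg b lam l₁) hG'
    (dep_cfg b (dep_W lam 0 l₁)) dG ?_, shft D p h0 h1 _ x hG]
  · rfl
  · refine Set.disjoint_left.2 ?_
    rintro e ⟨i, hi, s, rfl⟩ ⟨⟨k, hk, t, h⟩, hne⟩
    rw [zero_add] at h hne
    exact hne (hd i hi k hk s t h.symm)

end Fac

theorem fa : FAStmt := by
  intro D p lam h0 h1 b l₁ l₂ hc h2
  obtain ⟨c1, -, c3, c4⟩ := hc
  obtain ⟨n, hn⟩ : ∃ n, l₁.length = n + 1 := ⟨l₁.length - 1, by omega⟩
  rw [hn, Nat.add_sub_cancel] at c3 c4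
  have hl : lev l₁ = H l₁ n + 1 := by rw [← c3, ← hn, H_length]
  have hn0 : 0 ≤ H l₁ n := by
    rcases Nat.eq_zero_or_pos n with rfl | h
    · simp
    · simpa using (c4 0 h).le
  refine core lam h0 h1 b l₁ l₂ n hn c3 (by omega) h2 fun i hi k hk s t h => ?_
  have hk0 := h2 k hk
  have hi0 : H l₁ i ≤ H l₁ n := by
    rcases (Nat.lt_succ_iff.1 (hn ▸ hi)).eq_or_lt with rfl | h'
    · exact le_rfl
    · exact (c4 i h').le
  have hs := vec_bounds s 0
  rcases edge_eq_iff.1 h with ⟨e1, -⟩ | ⟨e1, -⟩
  · have := congrFun e1 0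
    simp only [Pi.add_apply] at this
    unfold lev H at *
    omega
  · have e2 := congrFun e1 0
    simp only [Pi.add_apply] at e2
    have hin : i = n := by
      by_contra hne
      have := c4 i (by omega)
      unfold lev H at *
      omega
    subst hin
    have hsf : s = fwd D := vec_zero_eq_one.1 (by unfold lev H at *; omega)
    have hi' : l₁[i] = fwd D := by
      rw [H_succ hi] at c3
      exact vec_zero_eq_one.1 (by linarith)
    have : pos l₁ = loc l₁ i + vec s := by rw [hsf, ← hi', ← loc_succ hi, ← hn, loc_length]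
    rw [this, ← edge_rev, hsf]
    rfl

theorem fb : FBStmt := by
  intro D p lam h0 h1 b l₁ s hr hb
  rcases eq_or_ne l₁ [] with rfl | hne
  · obtain rfl : b = true := hb.resolve_left fun h => h rfl
    rw [wb_nil true h0 h1, one_mul, List.nil_append]
  obtain ⟨n, hn⟩ : ∃ n, l₁.length = n + 1 :=
    ⟨l₁.length - 1, by have := List.length_pos_iff.2 hne; omega⟩
  have hl : H l₁ (n + 1) = lev l₁ := by rw [← hn, H_length]
  have a1 := hr n (by omega)
  have a2 := H_step l₁ n
  have a3 := hr 0 (by omega)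
  rw [H_zero] at a3
  refine core lam h0 h1 b l₁ [s] n hn (by omega) (by omega) (fun k hk => ?_)
    fun i hi k hk u t h => ?_
  · obtain rfl : k = 0 := by simpa using hk
    simp
  · obtain rfl : k = 0 := by simpa using hk
    rw [loc_zero, add_zero] at h
    have a4 := hr i hi
    have hu := vec_bounds u 0
    rcases edge_eq_iff.1 h with ⟨e1, -⟩ | ⟨e1, -⟩
    · have := congrFun e1 0
      unfold lev H at *
      omega
    · have e2 := congrFun e1 0
      simp only [Pi.add_apply] at e2
      have hsf : u = fwd D := vec_zero_eq_one.1 (by unfold lev H at *; omega)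
      rw [e1, ← edge_rev, hsf]
      rfl

theorem fl : FLStmt := by
  intro D p lam h0 h1 b l₁ l₂ hd
  classical
  set O : Finset (Edge D) :=
    Finset.univ.image fun k : Fin l₂.length => edge (pos l₁ + loc l₂ k) l₂[k.1] with hO
  set A : Set (Cfg D) :=
    {ω | (∀ e ∈ O, ω e = true) ∧ ∀ e ∈ (∅ : Finset (Edge D)), ω e = false} with hA
  have dA : Dep (fun ω => A.indicator (fun _ => Wf lam l₂) ω) (O : Set (Edge D)) := by
    intro ω ω' h
    have : ω ∈ A ↔ ω' ∈ A := by
      simp only [hA, Set.mem_ofPred_eq]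
      exact and_congr (forall₂_congr fun e he => by rw [h e he]) (by simp)
    simp only [Set.indicator_apply, this]
  have mA : MeasurableSet A := by
    refine Dep.measurableSet (S := (O : Set (Edge D))) (fun ω ω' h => propext ?_) O.finite_toSet
    exact and_congr (forall₂_congr fun e he => by rw [h e he]) (by simp)
  have hdis : Disjoint {e | ∃ i < l₁.length, ∃ s, edge (0 + loc l₁ i) s = e}
      (O : Set (Edge D)) := by
    refine Set.disjoint_left.2 ?_
    rintro e ⟨i, hi, s, rfl⟩ he
    obtain ⟨k, -, hk⟩ := Finset.mem_image.1 he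
    rw [zero_add] at hk
    rcases edge_eq_iff.1 hk with ⟨e1, -⟩ | ⟨e1, -⟩
    · exact hd i hi k k.2.le e1
    · exact hd i hi (k + 1) k.2 (by rw [e1, loc_succ k.2, add_assoc])
  have h3 := ind D p h0 h1 _ _ _ _ (measurable_W_cfg b lam l₁) (measurable_const.indicator mA)
    (dep_cfg b (dep_W lam 0 l₁)) dA hdis
  rw [lintegral_indicator_const mA, cyl D p h0 h1 O ∅ (Finset.disjoint_empty_right _)] at h3
  have hc : O.card ≤ l₂.length := Finset.card_image_le.trans (by simp)
  calc wb b p lam l₁ * (ENNReal.ofReal (p ^ l₂.length) * Wf lam l₂)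
      ≤ wb b p lam l₁ * (Wf lam l₂ *
          ENNReal.ofReal (p ^ O.card * (1 - p) ^ (∅ : Finset (Edge D)).card)) := by
        rw [mul_comm (Wf lam l₂)]
        gcongr
        simpa using pow_le_pow_of_le_one h0 h1 hc
    _ ≤ wb b p lam (l₁ ++ l₂) := by
        unfold wb
        rw [← h3]
        refine lintegral_mono fun ω => ?_
        rw [W_append, zero_add]
        refine mul_le_mul' le_rfl ?_
        by_cases hω : ω ∈ A
        · rw [Set.indicator_of_mem hω]
          exact Wf_le_W lam _ l₂ _ fun k hk => cfg_of_open b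
            (hω.1 _ (Finset.mem_image.2 ⟨⟨k, hk⟩, Finset.mem_univ _, rfl⟩))
        · rw [Set.indicator_of_notMem hω]
          exact zero_le

end Pool.Agent.MP_8c549f_pr

/-!
The walk with all edges open.
-/

set_option autoImplicit false

namespace Pool.Agent.MP_8c549f_pr

open MeasureTheory Filter Topology Real
open scoped ENNReal NNReal

namespace Free

variable {D : ℕ}

theorem SS_Wf_cons (lam : ℝ) (A : Set (List (Step D))) (h : [] ∉ A) :
    SS A (Wf lam) = ∑ s, ENNReal.ofReal (wt lam s / Zf D lam) * SS {l | s :: l ∈ A} (Wf lam) := by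
  rw [SS_cons, Set.indicator_of_notMem h, zero_add]
  exact Finset.sum_congr rfl fun s _ => by rw [← SS_mul_left]; simp only [Wf_cons]

theorem p_nonneg (lam : ℝ) (s : Step D) : 0 ≤ wt lam s / Zf D lam :=
  (div_pos (wt_pos lam s) (Zf_pos D lam)).le

theorem sum_side (lam : ℝ) (j : Fin D) : ∑ s : Step D, wt lam s * (vec s j.succ : ℝ) = 0 := by
  rw [sum_step]
  simp [vec_fwd, vec_bck, wt_side]

theorem mart (lam : ℝ) (j : Fin D) {g : ℤ} (hg : g = 1 ∨ g = -1) {M : ℝ} (hM : 0 < M) (n : ℕ) :
    ∀ y : ℤ, (y : ℝ) + n + 1 ≤ M → ENNReal.ofReal ((y + 1) / M) ≤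
      SS {l : List (Step D) | l.length = n ∧ ∀ k ≤ n, 0 ≤ y + g * loc l k j.succ} (Wf lam) := by
  induction n with
  | zero =>
    intro y hy
    rcases lt_or_ge y 0 with h | h
    · have : (y : ℝ) + 1 ≤ 0 := by exact_mod_cast (show y + 1 ≤ 0 by omega)
      rw [ENNReal.ofReal_of_nonpos (div_nonpos_of_nonpos_of_nonneg this hM.le)]
      exact zero_le
    · refine le_trans ?_ (le_SS (Wf lam) (u := []) ⟨rfl, fun k _ => by simpa using h⟩)
      exact ENNReal.ofReal_le_one.2 ((div_le_one hM).2 (by simpa using hy))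
  | succ n ih =>
    intro y hy
    rcases lt_or_ge y 0 with h | h
    · have : (y : ℝ) + 1 ≤ 0 := by exact_mod_cast (show y + 1 ≤ 0 by omega)
      rw [ENNReal.ofReal_of_nonpos (div_nonpos_of_nonpos_of_nonneg this hM.le)]
      exact zero_le
    · have hb : ∀ s : Step D, -1 ≤ g * vec s j.succ ∧ g * vec s j.succ ≤ 1 := fun s => by
        have := vec_bounds s j.succ
        rcases hg with rfl | rfl <;> omega
      rw [SS_Wf_cons _ _ (by simp)]
      have e : ((y : ℝ) + 1) / M = ∑ s : Step D,
          wt lam s / Zf D lam * ((((y + g * vec s j.succ : ℤ) : ℝ) + 1) / M) := by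
        have : ∀ s : Step D, wt lam s / Zf D lam * ((((y + g * vec s j.succ : ℤ) : ℝ) + 1) / M) =
            (y + 1) / M / Zf D lam * wt lam s + g / M / Zf D lam * (wt lam s * (vec s j.succ : ℝ)) :=
          fun s => by push_cast; ring
        simp only [this]
        rw [Finset.sum_add_distrib, ← Finset.mul_sum, ← Finset.mul_sum, sum_side, sum_wt,
          div_mul_cancel₀ _ (Zf_pos D lam).ne']
        ring
      have hn : ∀ s : Step D, 0 ≤ (((y + g * vec s j.succ : ℤ) : ℝ) + 1) / M := fun s =>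
        div_nonneg (by exact_mod_cast (show 0 ≤ y + g * vec s j.succ + 1 by
          have := hb s; omega)) hM.le
      rw [e, ENNReal.ofReal_sum_of_nonneg fun s _ => mul_nonneg (p_nonneg lam s) (hn s)]
      refine Finset.sum_le_sum fun s _ => ?_
      rw [ENNReal.ofReal_mul (p_nonneg lam s)]
      refine mul_le_mul' le_rfl ((ih _ ?_).trans (SS_mono (fun l hl => ?_) fun _ _ => le_rfl))
      · have : ((y + g * vec s j.succ : ℤ) : ℝ) ≤ ((y + 1 : ℤ) : ℝ) := by
          exact_mod_cast (show y + g * vec s j.succ ≤ y + 1 by have := hb s; omega)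
        push_cast at this hy ⊢
        linarith
      · refine ⟨by simpa using hl.1, fun k hk => ?_⟩
        cases k with
        | zero => simpa using h
        | succ k =>
          have := hl.2 k (by omega)
          rw [loc_cons_succ, Pi.add_apply, mul_add, ← add_assoc]
          exact this

theorem harm {lam : ℝ} (h0 : 0 ≤ lam) (n : ℕ) : ∀ h : ℤ,
    SS {l : List (Step D) | l.length = n ∧ ¬ ∀ i ≤ n, 0 ≤ h + H l i} (Wf lam) ≤
      ENNReal.ofReal (exp (-2 * lam * (h + 1))) := by
  have neg : ∀ (n : ℕ) (h : ℤ), h < 0 →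
      SS {l : List (Step D) | l.length = n ∧ ¬ ∀ i ≤ n, 0 ≤ h + H l i} (Wf lam) ≤
        ENNReal.ofReal (exp (-2 * lam * (h + 1))) := by
    intro n h hh
    refine (SS_mono (B := {l | l.length = n}) (fun l hl => hl.1) fun _ _ => le_rfl).trans ?_
    rw [SS_length_Wf]
    have : (h : ℝ) + 1 ≤ 0 := by exact_mod_cast (show h + 1 ≤ 0 by omega)
    exact ENNReal.one_le_ofReal.2 (one_le_exp (by nlinarith))
  induction n with
  | zero =>
    intro h
    rcases lt_or_ge h 0 with hh | hh
    · exact neg 0 h hh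
    · refine (SS_mono (B := ∅) (fun l hl => hl.2 fun i hi => ?_) fun _ _ => le_rfl).trans (by simp)
      rw [Nat.le_zero.1 hi]; simpa using hh
  | succ n ih =>
    intro h
    rcases lt_or_ge h 0 with hh | hh
    · exact neg _ h hh
    · rw [SS_Wf_cons _ _ (by simp)]
      have e : exp (-2 * lam * (h + 1)) = ∑ s : Step D,
          wt lam s / Zf D lam * exp (-2 * lam * (((h + vec s 0 : ℤ) : ℝ) + 1)) := by
        have : ∀ s : Step D, wt lam s / Zf D lam * exp (-2 * lam * (((h + vec s 0 : ℤ) : ℝ) + 1)) =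
            exp (-2 * lam * (h + 1)) / Zf D lam * wt (-lam) s := fun s => by
          rw [div_mul_eq_mul_div, div_mul_eq_mul_div, wt, wt, ← exp_add, ← exp_add]
          congr 2; push_cast; ring
        simp only [this]
        have z : Zf D (-lam) = Zf D lam := by simp only [Zf, neg_neg]; ring
        rw [← Finset.mul_sum, sum_wt, z, div_mul_cancel₀ _ (Zf_pos D lam).ne']
      rw [e, ENNReal.ofReal_sum_of_nonneg fun s _ => mul_nonneg (p_nonneg lam s) (exp_pos _).le]
      refine Finset.sum_le_sum fun s _ => ?_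
      rw [ENNReal.ofReal_mul (p_nonneg lam s)]
      refine mul_le_mul' le_rfl ((SS_mono (fun l hl => ?_) fun _ _ => le_rfl).trans (ih _))
      refine ⟨by simpa using hl.1, fun k => hl.2 fun i hi => ?_⟩
      cases i with
      | zero => simpa using hh
      | succ i =>
        rw [H_cons_succ, ← add_assoc]
        exact k i (by omega)

theorem hasSum_SS {A : Set (List (Step D))} {f : List (Step D) → ℝ≥0∞} (h : SS A f ≠ ∞) :
    HasSum (fun l => (A.indicator f l).toReal) (SS A f).toReal := by
  rw [SS, ENNReal.tsum_toReal_eq fun l => ENNReal.ne_top_of_tsum_ne_top h l]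
  exact ENNReal.hasSum_toReal h

theorem Wf_toReal (lam : ℝ) (l : List (Step D)) :
    (Wf lam l).toReal = exp (lam * lev l - l.length * log (Zf D lam)) := by
  have := Zf_pos D lam
  rw [Wf_eq, ENNReal.toReal_ofReal (by positivity), exp_sub, ← log_pow, exp_log (by positivity)]

end Free

open Free

theorem f1 : F1Stmt := by
  intro D lam j g hg n
  have := mart lam j hg (M := (n : ℝ) + 1) (by positivity) n 0 (by simp)
  simpa using this

theorem f2 : F2Stmt := by
  intro D lam h0 n m
  have hZ := Zf_pos D lam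
  have z : Zf D 0 = 2 * D + 2 := by simp only [Zf, neg_zero, exp_zero]; ring
  calc SS {l : List (Step D) | l.length = n ∧ lev l ≤ m} (Wf lam)
      ≤ SS {l : List (Step D) | l.length = n} fun l =>
        ENNReal.ofReal (exp (lam * m) * ((2 * D + 2) / Zf D lam) ^ n) * Wf 0 l := by
        refine SS_mono (fun l hl => hl.1) fun l hl => ?_
        rw [Wf_eq, Wf_eq, ← ENNReal.ofReal_mul (by positivity), hl.1, z]
        refine ENNReal.ofReal_le_ofReal ?_
        have e : exp (lam * m) * ((2 * D + 2) / Zf D lam) ^ n *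
            (exp (0 * (lev l : ℝ)) / (2 * D + 2) ^ n) = exp (lam * m) / Zf D lam ^ n := by
          rw [zero_mul, exp_zero, div_pow]; field_simp
        rw [e]
        have : (lev l : ℝ) ≤ m := by exact_mod_cast hl.2
        gcongr
    _ = _ := by rw [SS_mul_left, SS_length_Wf, mul_one]

theorem f3 : F3Stmt := by
  intro D lam h0 n
  have := harm (D := D) h0 n 0
  simp only [Int.cast_zero, zero_add, mul_one] at this
  refine (SS_mono (fun l hl => ?_) fun _ _ => le_rfl).trans this
  exact ⟨hl.1, fun k => hl.2 fun i hi => k i (hl.1 ▸ hi)⟩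

theorem f4 : F4Stmt := by
  intro D a ha
  have zc : ∀ x, Zf D x = 2 * cosh x + 2 * D := fun x => by rw [cosh_eq, Zf]; ring
  have hN : (0 : ℝ) < 2 * D + 2 := by positivity
  have h1 : 2 * D + 2 < Zf D a := by
    have := one_lt_cosh.2 ha.ne'
    rw [zc]; linarith
  have h2 : 0 < log (Zf D a / (2 * D + 2)) := log_pos ((one_lt_div hN).2 h1)
  have h3 : 0 < log (2 * D + 2 : ℝ) := log_pos (by have : (0 : ℝ) ≤ D := Nat.cast_nonneg D; linarith)
  refine ⟨min (1 / 2) (log (Zf D a / (2 * D + 2)) / (2 * log (2 * D + 2))),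
    lt_min (by norm_num) (by positivity), fun lam hl => ?_⟩
  have hZ := Zf_pos D lam
  have l0 : 0 < lam := ha.trans_le hl
  rw [← log_le_iff_le_exp (by positivity), log_div hN.ne' hZ.ne']
  rcases le_total lam (2 * log (2 * D + 2)) with h | h
  · have k1 : Zf D a ≤ Zf D lam := by
      have := cosh_le_cosh.2 (show |a| ≤ |lam| by rwa [abs_of_pos ha, abs_of_pos l0])
      rw [zc, zc]; linarith
    have k2 := log_le_log (Zf_pos D a) k1
    have k3 := mul_le_mul (min_le_right (1 / 2 : ℝ)
      (log (Zf D a / (2 * D + 2)) / (2 * log (2 * D + 2)))) h l0.le (by positivity)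
    rw [div_mul_cancel₀ _ (by positivity), log_div (Zf_pos D a).ne' hN.ne'] at k3
    rw [log_div (Zf_pos D a).ne' hN.ne']
    linarith
  · have k1 : exp lam ≤ Zf D lam := by
      have := exp_pos (-lam)
      have : (0 : ℝ) ≤ D := Nat.cast_nonneg D
      unfold Zf; linarith
    have k2 := (le_log_iff_exp_le hZ).2 k1
    have k3 := mul_le_mul_of_nonneg_right (min_le_left (1 / 2 : ℝ)
      (log (Zf D a / (2 * D + 2)) / (2 * log (2 * D + 2)))) l0.le
    linarith

theorem f5 : F5Stmt := by
  intro D a lam hl h1 hA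
  have hB : BB D 1 lam ≠ ∞ := by
    refine ne_top_of_le_ne_top hA (SS_mono subset_rfl fun l _ => mul_le_mul' ?_ le_rfl)
    have := lev_le_length l
    exact_mod_cast (show (lev l).toNat ≤ l.length by omega)
  have s1 : ∀ t, a ≤ t → HasSum (fun l : List (Step D) =>
      (Set.indicator {l | Block l} (wb true 1 t) l).toReal) 1 := fun t ht => by
    have := hasSum_SS (A := {l : List (Step D) | Block l}) (f := wb true 1 t)
      (by rw [h1 t ht]; exact ENNReal.one_ne_top)
    rwa [h1 t ht, ENNReal.toReal_one] at this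
  have sA := hasSum_SS hA
  have sB := hasSum_SS hB
  have key : ∀ t, a ≤ lam + t →
      t * BR D 1 lam ≤ (log (Zf D (lam + t)) - log (Zf D lam)) * AR D 1 lam := by
    intro t ht
    have := hasSum_le (fun l => ?_) (((s1 lam hl.le).add (sB.mul_left t)).sub
      (sA.mul_left (log (Zf D (lam + t)) - log (Zf D lam)))) (s1 _ ht)
    · unfold BR AR BB AA; linarith
    · by_cases hb : l ∈ {l : List (Step D) | Block l}
      · simp only [Set.indicator_of_mem hb, wb_one, ENNReal.toReal_mul, ENNReal.toReal_natCast,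
          Wf_toReal]
        have e : (((lev l).toNat : ℕ) : ℝ) = lev l := by
          have := Block.lev_pos hb
          exact_mod_cast (show (((lev l).toNat : ℕ) : ℤ) = lev l by omega)
        have e2 : (lam + t) * lev l - l.length * log (Zf D (lam + t)) =
            (t * lev l - (log (Zf D (lam + t)) - log (Zf D lam)) * l.length) +
              (lam * lev l - l.length * log (Zf D lam)) := by ring
        rw [e, e2, exp_add]
        have := mul_le_mul_of_nonneg_right
          (add_one_le_exp (t * lev l - (log (Zf D (lam + t)) - log (Zf D lam)) * l.length))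
          (exp_pos (lam * lev l - l.length * log (Zf D lam))).le
        linarith
      · simp [Set.indicator_of_notMem hb]
  have hZ := Zf_pos D lam
  have d1 : HasDerivAt (fun t => Zf D (lam + t)) (exp lam - exp (-lam)) 0 := by
    have u : HasDerivAt (fun t : ℝ => lam + t) 1 0 := (hasDerivAt_id 0).const_add lam
    have := ((u.exp.add u.neg.exp).add_const (2 * D : ℝ))
    simp only [add_zero, mul_one, mul_neg, Pi.neg_apply] at this
    exact this
  have d2 := (((d1.log (by simpa using hZ.ne')).sub_const (log (Zf D lam))).mul_const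
    (AR D 1 lam)).sub ((hasDerivAt_id (0 : ℝ)).mul_const (BR D 1 lam))
  have m : IsLocalMin (fun t => (log (Zf D (lam + t)) - log (Zf D lam)) * AR D 1 lam -
      t * BR D 1 lam) 0 := by
    filter_upwards [Ioi_mem_nhds (show a - lam < 0 by linarith)] with t ht
    have := key t (by have : a - lam < t := ht; linarith)
    simp only [add_zero, sub_self, zero_mul]
    linarith
  have := m.hasDerivAt_eq_zero d2
  rw [add_zero] at this
  field_simp at this
  linarith

end Pool.Agent.MP_8c549f_pr

/-!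
The weak law of large numbers for a weight on a countable type.
-/

set_option autoImplicit false

namespace Pool.Agent.MP_8c549f_pr

open MeasureTheory ProbabilityTheory Filter Topology Real
open scoped ENNReal NNReal

theorem wlln : WLLNStmt := by
  intro ι _ w f δ hδ hw hf
  let _ : MeasurableSpace ι := ⊤
  have _ : DiscreteMeasurableSpace ι := ⟨fun _ => trivial⟩
  let q : PMF ι := ⟨w, hw ▸ ENNReal.summable.hasSum⟩
  let ν : Measure ι := q.toMeasure
  have hν : ∀ i, ν {i} = w i := fun i => q.toMeasure_apply_singleton i trivial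
  let μ : Measure (ℕ → ι) := Measure.infinitePi fun _ : ℕ => ν
  let g : ι → ℝ := fun i => f i
  have hg : Measurable g := measurable_of_countable g
  have hl : ∫⁻ i, ENNReal.ofReal (g i) ∂ν = ∑' i, (f i : ℝ≥0∞) * w i := by
    rw [lintegral_countable']
    exact tsum_congr fun i => by rw [hν, ENNReal.ofReal_natCast]
  have h0 : 0 ≤ᵐ[ν] g := Eventually.of_forall fun i => Nat.cast_nonneg _
  have hi : Integrable g ν :=
    ⟨hg.aestronglyMeasurable, (hasFiniteIntegral_iff_ofReal h0).2 (hl ▸ hf.lt_top)⟩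
  have ev := fun n => measurePreserving_eval_infinitePi (fun _ : ℕ => ν) n
  have hm : ∫ ω, g (ω 0) ∂μ = (∑' i, (f i : ℝ≥0∞) * w i).toReal := by
    rw [← hl, ← integral_eq_lintegral_of_nonneg_ae h0 hg.aestronglyMeasurable]
    exact (ev 0).hasLaw.integral_comp hg.aestronglyMeasurable
  have sl := strong_law_ae_real (μ := μ) (fun n ω => g (ω n))
    ((ev 0).integrable_comp_of_integrable hi)
    (fun i j hij => (iIndepFun_infinitePi (P := fun _ : ℕ => ν) (X := fun _ => g)
      fun _ => hg).indepFun hij)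
    (fun i => ((ev i).hasLaw.identDistrib (ev 0).hasLaw).comp hg)
  rw [hm] at sl
  have tm := tendstoInMeasure_iff_dist.1 (tendstoInMeasure_of_tendsto_ae (μ := μ)
    (f := fun n ω => (∑ i ∈ Finset.range n, g (ω i)) / n)
    (g := fun _ => (∑' i, (f i : ℝ≥0∞) * w i).toReal)
    (fun n => ((Finset.measurable_sum _ fun i _ =>
      hg.comp (measurable_pi_apply i)).div_const _).aestronglyMeasurable) sl) δ hδ
  refine tendsto_of_tendsto_of_tendsto_of_le_of_le' tendsto_const_nhds tm
    (Eventually.of_forall fun _ => zero_le) ?_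
  filter_upwards [eventually_gt_atTop 0] with k hk
  let C : (Fin k → ι) → Set (ℕ → ι) := fun b => Set.pi (Finset.range k : Set ℕ)
    fun n => if h : n < k then {b ⟨n, h⟩} else Set.univ
  have hC : ∀ b ω, ω ∈ C b ↔ ∀ i : Fin k, ω i = b i := fun b ω =>
    ⟨fun h i => by simpa [i.2] using h i (by simp), fun h n hn => by
      have hn' : n < k := by simpa using hn
      simpa [hn'] using h ⟨n, hn'⟩⟩
  have mC : ∀ b, MeasurableSet (C b) := fun b =>
    MeasurableSet.pi (Finset.countable_toSet _) fun _ _ => trivial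
  have pC : ∀ b, μ (C b) = ∏ i, w (b i) := fun b => by
    rw [Measure.infinitePi_pi _ fun _ _ => MeasurableSet.of_discrete, Finset.prod_range]
    exact Finset.prod_congr rfl fun i _ => by rw [dif_pos i.2, hν]
  let P : (Fin k → ι) → Prop := fun b =>
    δ * k < |(∑ i, (f (b i) : ℝ)) - k * (∑' i, (f i : ℝ≥0∞) * w i).toReal|
  classical
  calc ∑' b : Fin k → ι, (if P b then ∏ i, w (b i) else 0)
      = ∑' b : Fin k → ι, μ (if P b then C b else ∅) :=
        tsum_congr fun b => by split_ifs; exacts [(pC b).symm, measure_empty.symm]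
    _ = μ (⋃ b, if P b then C b else ∅) := by
        refine (measure_iUnion (fun b b' hb => Set.disjoint_left.2 fun ω h h' => hb ?_)
          fun b => ?_).symm
        · split_ifs at h h'
          · exact funext fun i => ((hC b ω).1 h i).symm.trans ((hC b' ω).1 h' i)
          all_goals simp at h h'
        · split_ifs; exacts [mC b, MeasurableSet.empty]
    _ ≤ _ := by
        refine measure_mono (Set.iUnion_subset fun b ω h => ?_)
        split_ifs at h with hp
        · have e : ∑ i ∈ Finset.range k, g (ω i) = ∑ i, (f (b i) : ℝ) := by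
            rw [Finset.sum_range]
            exact Finset.sum_congr rfl fun i _ => by rw [(hC b ω).1 h i]
          have k0 : (0 : ℝ) < k := Nat.cast_pos.2 hk
          show δ ≤ dist ((∑ i ∈ Finset.range k, g (ω i)) / k) _
          rw [e, Real.dist_eq, div_sub' k0.ne', abs_div, abs_of_pos k0, le_div_iff₀ k0]
          exact hp.le
        · exact h.elim

end Pool.Agent.MP_8c549f_pr

/-! The law of the walk on cylinder sets. -/

set_option autoImplicit false

namespace Pool.Agent.MP_8c549f_pr

open MeasureTheory ProbabilityTheory Filter Topology Real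
open scoped ENNReal NNReal

variable {D : ℕ}

namespace Law

theorem reach_iff (ω : Cfg D) (x y : V D) : Relation.ReflTransGen (Opn ω) x y ↔
    ∃ l : List (Step D), W 0 ω x l ≠ 0 ∧ x + pos l = y := by
  constructor
  · intro h
    induction h using Relation.ReflTransGen.head_induction_on with
    | refl => exact ⟨[], by simp, by simp⟩
    | head h _ ih =>
      obtain ⟨s, rfl, hs⟩ := opn_iff.1 h
      obtain ⟨l, h1, h2⟩ := ih
      refine ⟨s :: l, ?_, by rw [pos_cons, ← add_assoc, h2]⟩
      rw [W_cons]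
      exact mul_ne_zero (ENNReal.ofReal_pos.2 (pr_pos 0 hs)).ne' h1
  · rintro ⟨l, h1, h2⟩
    induction l generalizing x with
    | nil => rw [← h2]; simpa using Relation.ReflTransGen.refl
    | cons s l ih =>
      rw [W_cons, mul_ne_zero_iff] at h1
      refine .head (opn_iff.2 ⟨s, rfl, open_of_pr_ne (lam := 0) fun h => h1.1 ?_⟩)
        (ih _ h1.2 (by rw [← h2, pos_cons, add_assoc]))
      rw [h, ENNReal.ofReal_zero]

theorem meas_inf : MeasurableSet (InfCl D) := by
  have h : InfCl D = ⋂ T : Finset (V D), ⋃ l : List (Step D),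
      {ω | W 0 ω 0 l ≠ 0 ∧ 0 + pos l ∉ T} := by
    ext ω
    simp only [InfCl, Set.mem_ofPred_eq, Set.mem_iInter, Set.mem_iUnion, reach_iff]
    constructor
    · intro h T
      obtain ⟨y, ⟨l, h1, rfl⟩, h2⟩ := h.exists_notMem_finset T
      exact ⟨l, h1, h2⟩
    · intro h hf
      obtain ⟨l, h1, h2⟩ := h hf.toFinset
      exact h2 (hf.mem_toFinset.2 ⟨l, h1, rfl⟩)
  rw [h]
  refine MeasurableSet.iInter fun T => MeasurableSet.iUnion fun l => ?_
  exact ((measurable_W 0 0 l) (MeasurableSet.singleton 0).compl).inter (MeasurableSet.const _)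

theorem cond_step (lam : ℝ) (ω : Cfg D) (x : V D) (s : Step D) : cond lam ω x (x + vec s) =
    exp (lam * (2 * (x 0 : ℝ))) * if ω (edge x s) = true then wt lam s else 0 := by
  have h : Opn ω x (x + vec s) ↔ ω (edge x s) = true := by
    rw [opn_iff]
    exact ⟨fun ⟨t, h1, h2⟩ => vec_injective (add_left_cancel h1) ▸ h2, fun h => ⟨s, rfl, h⟩⟩
  unfold cond wt
  by_cases h1 : ω (edge x s) = true
  · rw [if_pos (h.2 h1), if_pos h1, ← exp_add, Pi.add_apply]
    push_cast
    ring_nf
  · rw [if_neg (mt h.1 h1), if_neg h1, mul_zero]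

theorem cond_zero (lam : ℝ) (ω : Cfg D) {x y : V D} (h : ¬ Adj x y) : cond lam ω x y = 0 :=
  if_neg fun h1 => h (Opn.adj h1)

theorem tsum_cond (lam : ℝ) (ω : Cfg D) (x : V D) :
    ∑' z, cond lam ω x z = exp (lam * (2 * (x 0 : ℝ))) * Zq lam ω x := by
  have hi : Function.Injective fun s : Step D => x + vec s :=
    fun _ _ h => vec_injective (add_left_cancel h)
  rw [← hi.tsum_eq (f := cond lam ω x) fun y hy => by
    by_contra h
    exact hy (cond_zero lam ω fun ⟨s, hs⟩ => h ⟨s, hs.symm⟩), tsum_fintype, Zq, Finset.mul_sum]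
  exact Finset.sum_congr rfl fun s _ => cond_step lam ω x s

theorem trans_step (lam : ℝ) (ω : Cfg D) (x : V D) (s : Step D) :
    trans lam ω x (x + vec s) = pr lam ω x s := by
  rw [trans, tsum_cond, cond_step, mul_div_mul_left _ _ (exp_pos _).ne', pr]
  split_ifs
  · rfl
  · exact zero_div _

theorem prod_trans (lam : ℝ) (ω : Cfg D) (u : List (Step D)) :
    ENNReal.ofReal (∏ i ∈ Finset.range u.length, trans lam ω (loc u i) (loc u (i + 1))) =
      W lam ω 0 u := by
  rw [W_eq_prod, ← Fin.prod_univ_eq_prod_range (fun i => trans lam ω (loc u i) (loc u (i + 1))),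
    ← ENNReal.ofReal_prod_of_nonneg fun i _ => pr_nonneg lam ω _ _]
  congr 1
  exact Finset.prod_congr rfl fun i _ => by rw [loc_succ i.2, trans_step, zero_add]

theorem meas_cyl (u : List (Step D)) : MeasurableSet (Cyl u) := by
  have h : Cyl u = ⋂ i, ⋂ _ : i ≤ u.length,
      (fun z : Cfg D × (ℕ → V D) => z.2 i) ⁻¹' {loc u i} := by
    ext z
    simp [Cyl]
  rw [h]
  exact MeasurableSet.iInter fun i => MeasurableSet.iInter fun _ =>
    ((measurable_pi_apply i).comp measurable_snd) (MeasurableSet.singleton _)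

end Law

open Law in
theorem law : LAWStmt := by
  intro D p lam h0 h1 P ⟨hP, h⟩
  have hu : ∀ (n : ℕ) (γ : ℕ → V D), P {z | ∀ i ≤ n, z.2 i = γ i} =
      ∫⁻ ω, ENNReal.ofReal (if γ 0 = 0 then
        ∏ i ∈ Finset.range n, trans lam ω (γ i) (γ (i + 1)) else 0) ∂((perc D p)[|InfCl D]) :=
    fun n γ => by simpa using h Set.univ MeasurableSet.univ n γ
  refine ⟨meas_inf, fun hz => ?_, fun u => ⟨meas_cyl u, ?_⟩, ?_⟩
  · have h2 : P (⋃ x : V D, {z | ∀ i ≤ 0, z.2 i = x}) = 0 :=
      measure_iUnion_null fun x => by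
        rw [hu 0 fun _ => x, cond_eq_zero.2 (Or.inr hz), lintegral_zero_measure]
    rw [Set.eq_univ_of_forall (s := ⋃ x : V D, {z : Cfg D × (ℕ → V D) | ∀ i ≤ 0, z.2 i = x})
      fun z => Set.mem_iUnion.2 ⟨z.2 0, fun i hi => by rw [Nat.le_zero.1 hi]⟩,
      measure_univ] at h2
    exact one_ne_zero h2
  · rw [Cyl, hu u.length (loc u), ProbabilityTheory.cond, lintegral_smul_measure, smul_eq_mul]
    simp only [loc_zero, if_true, prod_trans]
  · have h2 : ∀ᵐ z ∂P, ∀ (n : ℕ) (L : List (V D)), (∀ i ≤ n, z.2 i = L.getD i 0) →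
        L.getD 0 0 = 0 ∧ ∀ i < n, Adj (L.getD i 0) (L.getD (i + 1) 0) := by
      refine ae_all_iff.2 fun n => ae_all_iff.2 fun L => ?_
      by_cases hc : L.getD 0 0 = 0 ∧ ∀ i < n, Adj (L.getD i 0) (L.getD (i + 1) 0)
      · exact Eventually.of_forall fun _ _ => hc
      · refine measure_mono_null (t := {z | ∀ i ≤ n, z.2 i = L.getD i 0})
          (fun z hz => by_contra fun hn => hz fun h3 => absurd h3 hn) ?_
        rw [hu n fun i => L.getD i 0]
        refine (lintegral_congr fun ω => ?_).trans lintegral_zero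
        split_ifs with h3
        · obtain ⟨i, hi, h4⟩ : ∃ i < n, ¬ Adj (L.getD i 0) (L.getD (i + 1) 0) := by
            by_contra h5
            exact hc ⟨h3, fun i hi => by_contra fun h6 => h5 ⟨i, hi, h6⟩⟩
          rw [Finset.prod_eq_zero (Finset.mem_range.2 hi) (by
            rw [trans, cond_zero lam ω h4, zero_div]), ENNReal.ofReal_zero]
        · exact ENNReal.ofReal_zero
    filter_upwards [h2] with z hz n
    have h3 : ∀ m i, i ≤ m → z.2 i = ((List.range (m + 1)).map z.2).getD i 0 := fun m i hi => by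
      rw [List.getD_eq_getElem _ _ (by simpa using Nat.lt_succ_of_le hi)]
      simp
    have h4 : z.2 0 = 0 := (h3 0 0 le_rfl).trans (hz 0 _ (h3 0)).1
    have h5 : ∀ i, Adj (z.2 i) (z.2 (i + 1)) := fun i => by
      rw [h3 (i + 1) i i.le_succ, h3 (i + 1) (i + 1) le_rfl]
      exact (hz (i + 1) _ (h3 (i + 1))).2 i i.lt_succ_self
    choose s hs using h5
    refine ⟨(List.range n).map s, by simp, fun i hi => ?_⟩
    induction i with
    | zero => rw [h4, loc_zero]
    | succ i ih =>
      rw [loc_succ hi, ← ih (Nat.le_of_succ_le hi), hs i]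
      simp

end Pool.Agent.MP_8c549f_pr

/-!
# PROJECT BWALK, module UP: the upper bound `1 / (1 + uu)` for the speed
-/

set_option autoImplicit false

namespace Pool.Agent.MP_8c549f_pr

open MeasureTheory Filter Topology Real
open scoped ENNReal NNReal

namespace Upm

variable {D : ℕ}

/-- first visits of the level `N` -/
def T (D N : ℕ) : Set (List (Step D)) := {l | Rec l ∧ lev l = N}

theorem antich_T (N : ℕ) : Antich (T D N) := by
  rintro u ⟨_, hu⟩ l ⟨hl, hl'⟩ ⟨t, rfl⟩
  by_contra hne
  have ht : t ≠ [] := fun e => hne (by simp [e])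
  have h1 := hl u.length (by
    rw [List.length_append]; have := List.length_pos_iff.2 ht; omega)
  rw [H_append_left t le_rfl, H_length] at h1
  omega

/-- a list that reaches the level `N` has an initial segment in `T N` -/
theorem exists_prefix {l : List (Step D)} {N : ℕ} (h : (N : ℤ) ≤ lev l) :
    ∃ u ∈ T D N, u <+: l := by
  obtain ⟨t, ht, h1, h2⟩ := exists_first_hit (H l) (fun i => (H_step l i).2) (c := N) (n := l.length)
    (by simp) (by rwa [H_length])
  refine ⟨l.take t, ⟨fun i hi => ?_, h1⟩, List.take_prefix _ _⟩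
  have hi' : i < t := lt_of_lt_of_le hi (List.length_take_le _ _)
  rw [H_take l hi'.le, lev_take, h1]
  exact h2 i hi'

/-- the generating function of the first visit -/
noncomputable def g (D : ℕ) (p lam : ℝ) (θ : ℝ≥0∞) (N : ℕ) : ℝ≥0∞ :=
  SS (T D N) fun l => wb false p lam l * θ ^ l.length

theorem one_step (hFB : FBStmt) {p lam : ℝ} (h0 : 0 ≤ p) (h1 : p ≤ 1) {θ : ℝ≥0∞} (hθ : θ ≤ 1)
    {N : ℕ} (hN : 1 ≤ N) {u : List (Step D)} (hu : u ∈ T D N) (s : Step D) :
    SS {r | u ++ s :: r ∈ T D (N + 1)}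
        (fun r => wb false p lam (u ++ s :: r) * θ ^ (u ++ s :: r).length) ≤
      wb false p lam u * θ ^ u.length * (θ * (wb true p lam [s] * if s = fwd D then 1 else θ)) := by
  have hne : u ≠ [] := by
    rintro rfl
    have := hu.2
    simp [lev, pos] at this
    omega
  have hfb := hFB D p lam h0 h1 false u s hu.1 (Or.inl hne)
  have hA : Antich {r | (u ++ [s]) ++ r ∈ T D (N + 1)} := (antich_T (N + 1)).tail _
  have hc := cont_wb false p lam hA (u ++ [s])
  simp only [List.append_assoc, List.singleton_append] at hc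
  have key : ∀ r, u ++ s :: r ∈ T D (N + 1) →
      θ ^ (u ++ s :: r).length ≤ θ ^ u.length * (θ * if s = fwd D then 1 else θ) := by
    intro r hr
    split_ifs with hs
    · rw [mul_one, ← pow_succ]
      exact pow_le_pow_right_of_le_one' hθ (by simp)
    · rw [← mul_assoc, ← pow_succ, ← pow_succ]
      refine pow_le_pow_right_of_le_one' hθ ?_
      have hr' : r ≠ [] := by
        rintro rfl
        have h2 := hr.2
        rw [lev_append, lev_cons, hu.2] at h2
        have h3 : lev ([] : List (Step D)) = 0 := by simp [lev, pos]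
        exact hs (vec_zero_eq_one.1 (by push_cast at h2; omega))
      have := List.length_pos_iff.2 hr'
      simp only [List.length_append, List.length_cons]
      omega
  calc _ ≤ SS {r | u ++ s :: r ∈ T D (N + 1)} (fun r =>
        (θ ^ u.length * (θ * if s = fwd D then 1 else θ)) * wb false p lam (u ++ s :: r)) :=
        SS_mono subset_rfl fun r hr => by rw [mul_comm]; gcongr; exact key r hr
    _ ≤ (θ ^ u.length * (θ * if s = fwd D then 1 else θ)) * wb false p lam (u ++ [s]) := by
        rw [SS_mul_left]; gcongr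
    _ = _ := by rw [hfb]; ring

theorem g_succ (hFB : FBStmt) {p lam : ℝ} (h0 : 0 ≤ p) (h1 : p ≤ 1) {θ : ℝ≥0∞} (hθ : θ ≤ 1)
    {N : ℕ} (hN : 1 ≤ N) : g D p lam θ (N + 1) ≤
      g D p lam θ N * (θ * ∑ s : Step D, wb true p lam [s] * if s = fwd D then 1 else θ) := by
  have hsub : T D (N + 1) ⊆ ⋃ u : T D N, (fun t => (u : List (Step D)) ++ t) ''
      {t | (u : List (Step D)) ++ t ∈ T D (N + 1)} := by
    intro l hl
    obtain ⟨u, hu, t, rfl⟩ := exists_prefix (l := l) (N := N) (by rw [hl.2]; push_cast; omega)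
    exact Set.mem_iUnion.2 ⟨⟨u, hu⟩, t, hl, rfl⟩
  refine (SS_mono hsub fun _ _ => le_rfl).trans ((SS_iUnion_le _ _).trans ?_)
  rw [g, SS_eq_tsum_subtype, ← ENNReal.tsum_mul_right]
  refine ENNReal.tsum_le_tsum fun u => ?_
  rw [SS_image (List.append_right_injective _), SS_cons, Set.indicator_of_notMem, zero_add,
    Finset.mul_sum, Finset.mul_sum]
  · exact Finset.sum_le_sum fun s _ => one_step hFB h0 h1 hθ hN u.2 s
  · intro h
    have h2 : lev ((u : List (Step D)) ++ []) = (N + 1 : ℕ) := h.2
    rw [List.append_nil, u.2.2] at h2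
    omega

theorem g_le (hFB : FBStmt) {p lam : ℝ} (h0 : 0 ≤ p) (h1 : p ≤ 1) {θ ρ : ℝ≥0∞} (hθ : θ ≤ 1)
    (hρ : θ * ∑ s : Step D, (wb true p lam [s] * if s = fwd D then 1 else θ) ≤ ρ) (N : ℕ) :
    g D p lam θ (N + 1) ≤ ρ ^ N := by
  induction N with
  | zero =>
    rw [pow_zero]
    exact (SS_mono subset_rfl fun l _ => mul_le_of_le_one_right' (pow_le_one' hθ _)).trans
      (kraft_wb false h0 h1 lam (antich_T _))
  | succ N ih =>
    refine (g_succ hFB h0 h1 hθ (by omega)).trans ?_
    rw [pow_succ]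
    gcongr

theorem uu_nonneg {p lam : ℝ} (h0 : 0 ≤ p) (h1 : p ≤ 1) : 0 ≤ uu D p lam :=
  sub_nonneg.2 (ENNReal.toReal_le_of_le_ofReal zero_le_one
    (by simpa using wb_le_one true h0 h1 lam [fwd D]))

theorem rho_le {p lam t : ℝ} (h0 : 0 ≤ p) (h1 : p ≤ 1)
    (hs : ∑ s : Step D, wb true p lam [s] = 1) :
    ENNReal.ofReal (exp (-t)) * ∑ s : Step D,
      (wb true p lam [s] * if s = fwd D then 1 else ENNReal.ofReal (exp (-t))) ≤
      ENNReal.ofReal (exp (-(t + uu D p lam * (1 - exp (-t))))) := by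
  have hu := uu_nonneg (D := D) (lam := lam) h0 h1
  have hφ : wb true p lam [fwd D] ≠ ∞ := ne_top_of_le_ne_top ENNReal.one_ne_top
    (wb_le_one true h0 h1 lam _)
  have e1 : wb true p lam [fwd D] = ENNReal.ofReal (1 - uu D p lam) := by
    rw [uu, sub_sub_cancel, ENNReal.ofReal_toReal hφ]
  have hu1 : 0 ≤ 1 - uu D p lam := by rw [uu, sub_sub_cancel]; exact ENNReal.toReal_nonneg
  rw [← Finset.add_sum_erase _ _ (Finset.mem_univ (fwd D))] at hs
  have e2 : ∑ s ∈ Finset.univ.erase (fwd D), wb true p lam [s] = ENNReal.ofReal (uu D p lam) := by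
    rw [← ENNReal.add_right_inj hφ, hs, e1, ← ENNReal.ofReal_add hu1 hu]
    simp
  rw [← Finset.add_sum_erase _ _ (Finset.mem_univ (fwd D)), if_pos rfl, mul_one,
    Finset.sum_congr rfl fun s hs => by rw [if_neg (Finset.ne_of_mem_erase hs)],
    ← Finset.sum_mul, e2, e1, ← ENNReal.ofReal_mul hu,
    ← ENNReal.ofReal_add hu1 (by positivity), ← ENNReal.ofReal_mul (exp_pos _).le]
  refine ENNReal.ofReal_le_ofReal ?_
  rw [neg_add, exp_add]
  gcongr
  linarith [add_one_le_exp (-(uu D p lam * (1 - exp (-t))))]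

theorem reach_le (hFB : FBStmt) {p lam t : ℝ} (h0 : 0 ≤ p) (h1 : p ≤ 1) (ht : 0 ≤ t)
    (hs : ∑ s : Step D, wb true p lam [s] = 1) (n N : ℕ) :
    SS {l : List (Step D) | l.length = n ∧ ((N + 1 : ℕ) : ℤ) ≤ lev l} (wb false p lam) ≤
      ENNReal.ofReal (exp (t * n - (t + uu D p lam * (1 - exp (-t))) * N)) := by
  have hθ : ENNReal.ofReal (exp (-t)) ≤ 1 :=
    ENNReal.ofReal_le_one.2 (exp_le_one_iff.2 (by linarith))
  have h2 := g_le hFB h0 h1 hθ (rho_le (t := t) h0 h1 hs) N
  calc _ ≤ SS {l | l ∈ T D (N + 1) ∧ l.length ≤ n} (wb false p lam) :=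
        cover_wb false p lam ((antich_length n).mono fun _ h => h.1) fun l hl => by
          obtain ⟨u, hu, hp⟩ := exists_prefix hl.2
          exact ⟨u, ⟨hu, hl.1 ▸ hp.length_le⟩, hp⟩
    _ ≤ SS (T D (N + 1)) fun l => ENNReal.ofReal (exp (t * n)) *
          (wb false p lam l * ENNReal.ofReal (exp (-t)) ^ l.length) :=
        SS_mono (fun _ h => h.1) fun l hl => by
          rw [mul_left_comm, ← ENNReal.ofReal_pow (exp_pos _).le,
            ← ENNReal.ofReal_mul (exp_pos _).le, ← exp_nat_mul, ← exp_add]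
          refine le_mul_of_one_le_right' (ENNReal.one_le_ofReal.2 (one_le_exp ?_))
          have : (l.length : ℝ) ≤ n := by exact_mod_cast hl.2
          nlinarith
    _ ≤ ENNReal.ofReal (exp (t * n)) *
          ENNReal.ofReal (exp (-(t + uu D p lam * (1 - exp (-t))))) ^ N := by
        rw [SS_mul_left]; gcongr; exact h2
    _ = _ := by
        rw [← ENNReal.ofReal_pow (exp_pos _).le, ← ENNReal.ofReal_mul (exp_pos _).le,
          ← exp_nat_mul, ← exp_add]
        congr 2; ring

theorem prob_le (hL : LAWStmt) {p lam : ℝ} (h0 : 0 ≤ p) (h1 : p ≤ 1)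
    {P : Measure (Cfg D × (ℕ → V D))} (hP : IsAnnealed D p lam P) (n : ℕ) (N : ℤ) :
    P {z | N ≤ z.2 n 0} ≤ (perc D p (InfCl D))⁻¹ *
      SS {l : List (Step D) | l.length = n ∧ N ≤ lev l} (wb false p lam) := by
  obtain ⟨_, _, hc, hae⟩ := hL D p lam h0 h1 P hP
  calc P {z | N ≤ z.2 n 0}
      ≤ P (⋃ l : {l : List (Step D) | l.length = n ∧ N ≤ lev l}, Cyl (l : List (Step D))) := by
        refine measure_mono_ae ?_
        filter_upwards [hae] with z hz hN
        obtain ⟨u, hu, hz⟩ := hz n
        refine Set.mem_iUnion.2 ⟨⟨u, hu, ?_⟩, hz⟩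
        have := hz n hu.ge
        have h3 : N ≤ z.2 n 0 := hN
        rw [this, ← hu, loc_length] at h3
        exact h3
    _ ≤ ∑' l : {l : List (Step D) | l.length = n ∧ N ≤ lev l}, P (Cyl (l : List (Step D))) :=
        measure_iUnion_le _
    _ ≤ _ := by
        rw [SS_eq_tsum_subtype, ← ENNReal.tsum_mul_left]
        refine ENNReal.tsum_le_tsum fun l => ?_
        rw [(hc l).2]
        gcongr
        exact setLIntegral_le_lintegral _ _

theorem exists_t {r u : ℝ} (hr : 0 < r) (hu : 0 ≤ u) (h : 1 < r * (1 + u)) :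
    ∃ t : ℝ, 0 < t ∧ t < r * (t + u * (1 - exp (-t))) := by
  have hd : 0 < r * u + 1 := by positivity
  set t := (r * (1 + u) - 1) / (r * u + 1) with ht
  have h0 : 0 < t := div_pos (by linarith) hd
  have h1 : t * (r * u + 1) = r * (1 + u) - 1 := div_mul_cancel₀ _ hd.ne'
  refine ⟨t, h0, ?_⟩
  have h2 : exp (-t) ≤ 1 - t + t ^ 2 := by
    have h3 := add_one_le_exp t
    have h4 : exp (-t) * exp t = 1 := by rw [← exp_add]; simp
    have h5 : exp (-t) * (t + 1) ≤ 1 :=
      (mul_le_mul_of_nonneg_left h3 (exp_pos _).le).trans h4.le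
    have h6 : 1 ≤ (1 - t + t ^ 2) * (t + 1) := by nlinarith [pow_pos h0 3]
    exact le_of_mul_le_mul_right (h5.trans h6) (by linarith)
  have h7 : r * u * (t - t ^ 2) ≤ r * u * (1 - exp (-t)) :=
    mul_le_mul_of_nonneg_left (by linarith) (by positivity)
  nlinarith [mul_pos h0 h0]

end Upm

open Upm in
theorem up (hFB : FBStmt) (hP : PHIStmt) (hL : LAWStmt) : UPStmt := by
  rintro D hD p lam v h0 h1 hlam ⟨P, hA, hv⟩
  by_contra hc
  push Not at hc
  have hu := uu_nonneg (D := D) (lam := lam) h0 h1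
  obtain ⟨r, hr1, hr2⟩ := exists_between hc
  have hr : 0 < r := lt_trans (by positivity) hr1
  obtain ⟨t, ht, hβ⟩ := exists_t hr hu (by rwa [div_lt_iff₀ (by linarith)] at hr1)
  set a := t + uu D p lam * (1 - exp (-t)) with ha
  have ha0 : 0 < a := (mul_pos_iff_of_pos_left hr).1 (ht.trans hβ)
  have hs := (hP D hD p lam h0 h1 hlam).2.1
  have hne := (hL D p lam h0 h1 P hA).2.1
  have hb : ∀ n : ℕ, P {z | ((⌊r * n⌋₊ + 1 : ℕ) : ℤ) ≤ z.2 n 0} ≤
      ((perc D p (InfCl D))⁻¹ * ENNReal.ofReal (exp a)) * ENNReal.ofReal (exp (t - r * a)) ^ n := by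
    intro n
    refine (prob_le hL h0 h1 hA n _).trans ?_
    rw [mul_assoc]
    gcongr
    refine (reach_le hFB h0 h1 ht.le hs n _).trans ?_
    rw [← ENNReal.ofReal_pow (exp_pos _).le, ← ENNReal.ofReal_mul (exp_pos _).le,
      ← exp_nat_mul, ← exp_add]
    refine ENNReal.ofReal_le_ofReal (exp_le_exp.2 ?_)
    have := Nat.lt_floor_add_one (r * n)
    rw [← ha]
    nlinarith
  have hsum : ∑' n : ℕ, P {z | ((⌊r * n⌋₊ + 1 : ℕ) : ℤ) ≤ z.2 n 0} ≠ ∞ := by
    refine ne_top_of_le_ne_top ?_ (ENNReal.tsum_le_tsum hb)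
    rw [ENNReal.tsum_mul_left, ENNReal.tsum_geometric]
    refine ENNReal.mul_ne_top (ENNReal.mul_ne_top (ENNReal.inv_ne_top.2 hne)
      ENNReal.ofReal_ne_top) (ENNReal.inv_ne_top.2 (tsub_pos_of_lt ?_).ne')
    exact ENNReal.ofReal_lt_one.2 (exp_lt_one_iff.2 (by linarith))
  have := hA.1
  obtain ⟨z, hz1, hz2⟩ := ((ae_eventually_notMem hsum).and hv).exists
  obtain ⟨n, h2, h3, h4⟩ :=
    (hz1.and ((hz2.eventually (lt_mem_nhds hr2)).and (eventually_gt_atTop 0))).exists
  refine h2 ?_
  have hn : (0 : ℝ) < n := by exact_mod_cast h4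
  rw [lt_div_iff₀ hn] at h3
  have h5 : ((⌊r * n⌋₊ : ℤ) : ℝ) < z.2 n 0 :=
    lt_of_le_of_lt (by exact_mod_cast Nat.floor_le (by positivity)) h3
  have h6 : (⌊r * n⌋₊ : ℤ) < z.2 n 0 := by exact_mod_cast h5
  show ((⌊r * n⌋₊ + 1 : ℕ) : ℤ) ≤ z.2 n 0
  push_cast
  omega

end Pool.Agent.MP_8c549f_pr
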