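import Mathlib.Algebra.Ring.IsFormallyReal
import Mathlib.Analysis.Calculus.Deriv.Polynomial
import Mathlib.Analysis.Calculus.Deriv.Inv
import Mathlib.Analysis.SpecialFunctions.ExpDeriv
import Mathlib.Analysis.Polynomial.Basic
import Mathlib.Order.Interval.Finset.Box
import Mathlib.Data.Nat.Nth
import Pool.Agent.MP_8c549f_pr.Base
import Pool.Agent.MP_1479fb_pr.GeoTimar

/-!
Counting of shapes with a short boundary.
-/

set_option autoImplicit false

namespace Pool.Agent.MP_8c549f_pr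

open Relation

variable {D : ℕ}

namespace Ani

theorem adj_iff {x y : V D} : MP_1479fb_pr.Geo.Adj x y ↔ Adj x y := by
  constructor
  · intro h
    rcases h.upZ with h | h
    · obtain ⟨i, rfl⟩ := h.eq_add
      exact ⟨(i, true), by simp⟩
    · obtain ⟨i, rfl⟩ := h.eq_add
      exact ⟨(i, false), by simp⟩
  · rintro ⟨⟨i, g⟩, rfl⟩
    cases g
    · have := (MP_1479fb_pr.Geo.upZ_single (x + vec ((i, false) : Step D)) i).adj.symm
      simpa using this
    · simpa using (MP_1479fb_pr.Geo.upZ_single x i).adj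

/-- displacements with all coordinates between `-2` and `2` -/
noncomputable def N (D : ℕ) : Finset (V D) := Fintype.piFinset fun _ => Finset.Icc (-2 : ℤ) 2

theorem mem_N {v : V D} : v ∈ N D ↔ ∀ j, -2 ≤ v j ∧ v j ≤ 2 := by simp [N]

theorem card_N : (N D).card = 5 ^ (D + 1) := by simp [N]

/-- sets of the sites of the walks of length `k` from `x` with displacements in `N` -/
noncomputable def An : ℕ → V D → Finset (Finset (V D))
  | 0, x => {{x}}
  | k + 1, x => (N D).biUnion fun v => (An k (x + v)).image (insert x)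

theorem card_An (k : ℕ) : ∀ x : V D, (An k x).card ≤ (5 ^ (D + 1)) ^ k := by
  induction k with
  | zero => intro x; simp [An]
  | succ k ih =>
    intro x
    rw [An, pow_succ' _ k, ← card_N (D := D)]
    refine Finset.card_biUnion_le_card_mul _ _ _ fun v _ => Finset.card_image_le.trans ?_
    rw [card_N]
    exact ih _

theorem insert_mem_An {k : ℕ} {x y : V D} {A : Finset (V D)} (h : y - x ∈ N D) (hA : A ∈ An k y) :
    insert x A ∈ An (k + 1) x := by
  rw [An]
  exact Finset.mem_biUnion.2 ⟨y - x, h, Finset.mem_image_of_mem _ (by simpa using hA)⟩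

theorem self_mem {k : ℕ} {x : V D} {A : Finset (V D)} (hA : A ∈ An k x) : x ∈ A := by
  cases k with
  | zero => rw [An, Finset.mem_singleton] at hA; simp [hA]
  | succ k =>
    rw [An] at hA
    obtain ⟨v, _, hA⟩ := Finset.mem_biUnion.1 hA
    obtain ⟨A', _, rfl⟩ := Finset.mem_image.1 hA
    exact Finset.mem_insert_self _ _

theorem An_succ {k : ℕ} {x : V D} {A : Finset (V D)} (hA : A ∈ An k x) : A ∈ An (k + 1) x := by
  have := insert_mem_An (x := x) (by simp [mem_N]) hA
  rwa [Finset.insert_eq_of_mem (self_mem hA)] at this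

theorem An_mono {k m : ℕ} (h : k ≤ m) {x : V D} {A : Finset (V D)} (hA : A ∈ An k x) :
    A ∈ An m x := by
  induction h with
  | refl => exact hA
  | step _ ih => exact An_succ ih

theorem An_grow_self {k : ℕ} {x z : V D} {A : Finset (V D)} (hA : A ∈ An k x) (h : z - x ∈ N D) :
    insert z A ∈ An (k + 2) x := by
  have h' : x - z ∈ N D := by
    rw [mem_N] at h ⊢
    intro j
    have := h j
    simp only [Pi.sub_apply] at this ⊢
    omega
  have := insert_mem_An h (insert_mem_An h' hA)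
  rwa [Finset.insert_eq_of_mem (Finset.mem_insert_of_mem (self_mem hA))] at this

theorem An_grow (k : ℕ) : ∀ {x y z : V D} {A : Finset (V D)}, A ∈ An k x → y ∈ A → z - y ∈ N D →
    insert z A ∈ An (k + 2) x := by
  induction k with
  | zero =>
    intro x y z A hA hy h
    have : y = x := by
      rw [An, Finset.mem_singleton] at hA
      simpa [hA] using hy
    exact An_grow_self hA (this ▸ h)
  | succ k ih =>
    intro x y z A hA hy h
    by_cases hyx : y = x
    · exact An_grow_self hA (hyx ▸ h)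
    · rw [An] at hA
      obtain ⟨v, hv, hA⟩ := Finset.mem_biUnion.1 hA
      obtain ⟨A', hA', rfl⟩ := Finset.mem_image.1 hA
      have hy' : y ∈ A' := (Finset.mem_insert.1 hy).resolve_left hyx
      rw [Finset.insert_comm]
      exact insert_mem_An (by simpa using hv) (ih hA' hy' h)

theorem exit_step {α : Type} {r : α → α → Prop} {p : α → Prop} {a b : α} (h : ReflTransGen r a b)
    (ha : p a) (hb : ¬ p b) : ∃ y z, p y ∧ ¬ p z ∧ r y z := by
  induction h with
  | refl => exact absurd ha hb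
  | @tail u v _ h2 ih =>
    by_cases hu : p u
    · exact ⟨u, v, hu, hb, h2⟩
    · exact ih hu

theorem conn_mem_An {b : V D} {A : Finset (V D)} (hb : b ∈ A)
    (hA : ∀ x ∈ A, ReflTransGen (fun u v => v - u ∈ N D ∧ v ∈ A) b x) :
    A ∈ An (2 * A.card) b := by
  have key : ∀ j, j + 1 ≤ A.card → ∃ A' ⊆ A, A'.card = j + 1 ∧ A' ∈ An (2 * j) b := by
    intro j
    induction j with
    | zero => exact fun _ => ⟨{b}, by simpa using hb, by simp, by simp [An]⟩
    | succ j ih =>
      intro hj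
      obtain ⟨A', h1, h2, h3⟩ := ih (by omega)
      obtain ⟨w, hw, hw'⟩ := Finset.exists_mem_notMem_of_card_lt_card (s := A') (t := A) (by omega)
      obtain ⟨y, z, hy, hz, hr, hzA⟩ := exit_step (p := fun u => u ∈ A') (hA w hw) (self_mem h3) hw'
      exact ⟨insert z A', Finset.insert_subset hzA h1, by rw [Finset.card_insert_of_notMem hz, h2],
        An_grow _ h3 hy hr⟩
  have hpos : 0 < A.card := Finset.card_pos.2 ⟨b, hb⟩
  obtain ⟨A', h1, h2, h3⟩ := key (A.card - 1) (by omega)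
  rw [Finset.eq_of_subset_of_card_le h1 (by omega)] at h3
  exact An_mono (by omega) h3

/-- the sites of `S` with a neighbour outside `S` -/
noncomputable def inner (S : Finset (V D)) : Finset (V D) := S.filter fun x => ∃ s, x + vec s ∉ S

theorem mem_bdry {b : V D} {S : Finset (V D)} {x : V D} {s : Step D} (hx : x ∈ S)
    (hs : x + vec s ∉ S) (h1 : b 0 ≤ x 0) (h2 : b 0 ≤ (x + vec s) 0) : edge x s ∈ bdry b S := by
  refine Finset.mem_filter.2 ⟨mem_near.2 ⟨x, hx, s, rfl⟩, ?_⟩
  rcases edge_ends x s with h | h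
  · rw [h.2, h.1]
    exact ⟨h1, fun k => hs (k.1 hx)⟩
  · rw [h.2, h.1]
    exact ⟨h2, fun k => hs (k.2 hx)⟩

theorem card_inner {b : V D} {S : Finset (V D)} (hS : ∀ x ∈ S, b 0 ≤ x 0) :
    (inner S).card ≤ 2 * (bdry b S).card := by
  classical
  have hsub : inner S ⊆ (bdry b S).image (fun e => if e.1 ∈ S then e.1 else e.1 + Pi.single e.2 1) ∪
      (bdry b S).image (fun e => Function.update e.1 0 (b 0)) := by
    intro x hx
    obtain ⟨hx, s, hs⟩ := Finset.mem_filter.1 hx
    by_cases h2 : b 0 ≤ (x + vec s) 0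
    · refine Finset.mem_union_left _ (Finset.mem_image.2 ⟨_, mem_bdry hx hs (hS x hx) h2, ?_⟩)
      rcases edge_ends x s with h | h
      · rw [if_pos (h.1.symm ▸ hx), h.1]
      · rw [if_neg (h.1.symm ▸ hs), h.2]
    · have hx0 : x 0 = b 0 := by
        have := hS x hx
        have := vec_bounds s 0
        simp only [Pi.add_apply] at h2
        omega
      obtain ⟨y, hy, hmax⟩ := Finset.exists_max_image (S.filter fun y => ∀ j, j ≠ 0 → y j = x j)
        (fun y => y 0) ⟨x, Finset.mem_filter.2 ⟨hx, fun _ _ => rfl⟩⟩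
      obtain ⟨hy, hyx⟩ := Finset.mem_filter.1 hy
      have hy' : y + vec (fwd D) ∉ S := fun k => by
        have := hmax _ (Finset.mem_filter.2 ⟨k, fun j hj => by
          simp [vec_fwd, Pi.single_eq_of_ne hj, hyx j hj]⟩)
        simp at this
      have hby := hS y hy
      refine Finset.mem_union_right _ (Finset.mem_image.2
        ⟨_, mem_bdry hy hy' hby (by simp only [Pi.add_apply, vec_fwd_zero]; omega), ?_⟩)
      funext j
      by_cases hj : j = 0
      · subst hj; simp [hx0]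
      · simp [fwd, Function.update_of_ne hj, hyx j hj]
  have h1 := (Finset.card_le_card hsub).trans (Finset.card_union_le _ _)
  have h2 := Finset.card_image_le (s := bdry b S)
    (f := fun e => if e.1 ∈ S then e.1 else e.1 + Pi.single e.2 1)
  have h3 := Finset.card_image_le (s := bdry b S) (f := fun e => Function.update e.1 0 (b 0))
  omega

theorem inner_mem_An {b : V D} {S : Finset (V D)} (hS : Shape b S) :
    inner S ∈ An (2 * (inner S).card) b := by
  obtain ⟨hb, hlev, hin, hout⟩ := hS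
  have hb' : b + vec (bck D) ∉ S := fun k => by
    have := hlev _ k
    simp at this
  refine conn_mem_An (Finset.mem_filter.2 ⟨hb, _, hb'⟩) fun x hx => ?_
  obtain ⟨hx, s, hs⟩ := Finset.mem_filter.1 hx
  have := MP_1479fb_pr.Geo.timar (C := {v | v ∉ S}) (D := {v | v ∈ S}) (fun _ h => h)
    (fun _ _ _ h _ => h) (a := b) (a' := b + vec (bck D)) (c := x) (c' := x + vec s) hb hb'
    (adj_iff.2 ⟨_, rfl⟩) hx hs (adj_iff.2 ⟨_, rfl⟩)
    (ReflTransGen.mono (fun _ _ h => ⟨adj_iff.2 h.1, h.2⟩) _ _ (hin x hx))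
    (ReflTransGen.mono (fun _ _ h => ⟨adj_iff.2 h.1, h.2⟩) _ _ (hout _ hb' _ hs))
  refine ReflTransGen.mono (fun u v h => ⟨mem_N.2 fun j => ?_, ?_⟩) _ _ this
  · have h1 := (MP_1479fb_pr.Geo.abs_le_dist1 u v j).trans h.1
    rw [abs_le] at h1
    exact h1
  · obtain ⟨_, hv, w, hw, hvw⟩ := h
    obtain ⟨t, rfl⟩ := adj_iff.1 hvw
    exact Finset.mem_filter.2 ⟨hv, t, hw⟩

/-- the upper and lower ends of the columns of `S` -/
noncomputable def code (S : Finset (V D)) : Finset (V D) × Finset (V D) :=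
  (S.filter fun x => x + vec (fwd D) ∉ S, S.filter fun x => x + vec (bck D) ∉ S)

theorem mem_iff_code (S : Finset (V D)) (x : V D) :
    x ∈ S ↔ x ∈ (code S).1 ∨ (x + vec (fwd D) ∈ S ∧ x + vec (fwd D) ∉ (code S).2) := by
  have e : x + vec (fwd D) + vec (bck D) = x := by simp [vec_fwd, vec_bck]
  simp only [code, Finset.mem_filter, e]
  tauto

theorem code_injective : Function.Injective (code : Finset (V D) → _) := by
  intro S T h
  obtain ⟨M, hM⟩ := ((S ∪ T).image fun x => x 0).bddAbove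
  have hM' : ∀ x ∈ S ∪ T, x 0 ≤ M := fun x hx => hM (Finset.mem_image_of_mem _ hx)
  have key : ∀ k : ℕ, ∀ x : V D, M - k < x 0 → (x ∈ S ↔ x ∈ T) := by
    intro k
    induction k with
    | zero =>
      intro x hx
      have h1 : x ∉ S := fun k => by have := hM' x (Finset.mem_union_left _ k); omega
      have h2 : x ∉ T := fun k => by have := hM' x (Finset.mem_union_right _ k); omega
      simp [h1, h2]
    | succ k ih =>
      intro x hx
      rw [mem_iff_code S, mem_iff_code T, h,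
        ih (x + vec (fwd D)) (by simp only [Pi.add_apply, vec_fwd_zero]; omega)]
  ext x
  exact key (M - x 0 + 1).toNat x (by omega)

end Ani

open Ani in
theorem ani : ANIStmt := by
  classical
  intro D _
  refine ⟨(5 ^ (D + 1)) ^ 4 * 16, fun b n => ?_⟩
  let G : Finset (Finset (V D) × Finset (V D)) :=
    ((An (4 * n) b).filter fun A => A.card ≤ 2 * n).biUnion fun A => A.powerset ×ˢ A.powerset
  refine ⟨G.preimage code code_injective.injOn, ?_, fun S hS hn => ?_⟩
  · have h1 : (G.preimage code code_injective.injOn).card ≤ G.card :=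
      Finset.card_le_card_of_injOn code (fun S h => Finset.mem_preimage.1 h) code_injective.injOn
    have h2 : G.card ≤ ((An (4 * n) b).filter fun A => A.card ≤ 2 * n).card * 16 ^ n := by
      refine Finset.card_biUnion_le_card_mul _ _ _ fun A hA => ?_
      have hA' := (Finset.mem_filter.1 hA).2
      rw [Finset.card_product, Finset.card_powerset, ← pow_add, show 16 = 2 ^ 4 from rfl, ← pow_mul]
      exact Nat.pow_le_pow_right (by norm_num) (by omega)
    have h3 := (Finset.card_filter_le (An (4 * n) b) fun A => A.card ≤ 2 * n).trans (card_An _ b)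
    rw [mul_pow, ← pow_mul]
    exact h1.trans (h2.trans (Nat.mul_le_mul_right _ h3))
  · have h1 := card_inner hS.2.1
    refine Finset.mem_preimage.2 (Finset.mem_biUnion.2 ⟨inner S, Finset.mem_filter.2
      ⟨An_mono (by omega) (inner_mem_An hS), by omega⟩, Finset.mem_product.2 ⟨?_, ?_⟩⟩)
    · exact Finset.mem_powerset.2 fun x hx =>
        Finset.mem_filter.2 ⟨(Finset.mem_filter.1 hx).1, _, (Finset.mem_filter.1 hx).2⟩
    · exact Finset.mem_powerset.2 fun x hx =>
        Finset.mem_filter.2 ⟨(Finset.mem_filter.1 hx).1, _, (Finset.mem_filter.1 hx).2⟩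

end Pool.Agent.MP_8c549f_pr

/-!
Level compression: counting shapes by height and excess boundary.
-/

set_option autoImplicit false

namespace Pool.Agent.MP_8c549f_pr

namespace Cmpr

variable {D : ℕ}

/-- change of the level -/
def lv (g : ℤ → ℤ) (x : V D) : V D := Function.update x 0 (g (x 0))

theorem lv_zero (g : ℤ → ℤ) (x : V D) : lv g x 0 = g (x 0) := Function.update_self _ _ _

theorem lv_lv (g h : ℤ → ℤ) (x : V D) : lv g (lv h x) = lv (fun i => g (h i)) x := by
  simp [lv]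

theorem lv_id {g : ℤ → ℤ} {x : V D} (h : g (x 0) = x 0) : lv g x = x := by
  rw [lv, h, Function.update_eq_self]

theorem lv_side (g : ℤ → ℤ) (x v : V D) (hv : v 0 = 0) : lv g (x + v) = lv g x + v := by
  funext i
  by_cases h : i = 0
  · subst h; simp [lv, hv]
  · simp [lv, h]

theorem lv_up {g : ℤ → ℤ} {x : V D} {c : ℤ} (h : g (x 0 + 1) = g (x 0) + c) :
    lv g (x + Pi.single 0 1) = lv g x + Pi.single 0 c := by
  funext i
  by_cases hi : i = 0
  · subst hi; simp [lv, h]
  · simp [lv, hi]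

/-- `f` collapses some levels above `c`, and `g` is a section of `f`. -/
structure Col (c : ℤ) (f g : ℤ → ℤ) : Prop where
  step : ∀ i, f (i + 1) = f i + 0 ∨ f (i + 1) = f i + 1
  sec : ∀ j, f (g j) = j
  sec' : ∀ j, f (g j + 1) = j + 1
  base : f c = c
  mono : ∀ i, c ≤ f i ↔ c ≤ i

theorem Col.adj {c : ℤ} {f g : ℤ → ℤ} (h : Col c f g) {u v : V D} (huv : Adj u v) :
    lv f u = lv f v ∨ Adj (lv f u) (lv f v) := by
  have up : ∀ u : V D, lv f u = lv f (u + Pi.single 0 1) ∨
      Adj (lv f u) (lv f (u + Pi.single 0 1)) := fun u => by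
    rcases h.step (u 0) with e | e
    · left; rw [lv_up e]; simp
    · right; exact ⟨fwd D, by rw [lv_up e, vec_fwd]⟩
  obtain ⟨s, rfl⟩ := huv
  rcases step_cases s with rfl | rfl | ⟨k, b, rfl⟩
  · rw [vec_fwd]; exact up u
  · have := up (u + vec (bck D))
    rw [show u + vec (bck D) + Pi.single 0 1 = u by rw [vec_bck]; abel] at this
    exact this.imp Eq.symm Adj.symm
  · exact Or.inr ⟨_, lv_side f u _ (vec_side_zero k b)⟩

theorem Col.path {c : ℤ} {f g : ℤ → ℤ} (h : Col c f g) {P Q : V D → Prop}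
    (hPQ : ∀ v, P v → Q (lv f v)) {x y : V D}
    (hp : Relation.ReflTransGen (fun u v => Adj u v ∧ P v) x y) :
    Relation.ReflTransGen (fun u v => Adj u v ∧ Q v) (lv f x) (lv f y) := by
  induction hp with
  | refl => exact .refl
  | tail _ hs ih =>
    rcases h.adj hs.1 with e | e
    · rwa [← e]
    · exact ih.tail ⟨e, hPQ _ hs.2⟩

theorem Col.lv_sec {c : ℤ} {f g : ℤ → ℤ} (h : Col c f g) (y : V D) : lv f (lv g y) = y := by
  rw [lv_lv]; exact lv_id (h.sec _)

section image

variable {b : V D} {f g : ℤ → ℤ} {S : Finset (V D)}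

theorem mem_img (h : Col (b 0) f g) (hS : ∀ x, x ∈ S ↔ lv g (lv f x) ∈ S) (y : V D) :
    y ∈ S.image (lv f) ↔ lv g y ∈ S := by
  rw [Finset.mem_image]
  exact ⟨fun ⟨x, hx, e⟩ => e ▸ (hS x).1 hx, fun hy => ⟨_, hy, h.lv_sec y⟩⟩

theorem mem_img' (h : Col (b 0) f g) (hS : ∀ x, x ∈ S ↔ lv g (lv f x) ∈ S) (x : V D) :
    lv f x ∈ S.image (lv f) ↔ x ∈ S := (mem_img h hS _).trans (hS x).symm

theorem shape_img (h : Col (b 0) f g) (hS : ∀ x, x ∈ S ↔ lv g (lv f x) ∈ S) (hs : Shape b S) :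
    Shape b (S.image (lv f)) := by
  obtain ⟨h1, h2, h3, h4⟩ := hs
  have hb : lv f b = b := lv_id h.base
  refine ⟨hb ▸ Finset.mem_image_of_mem _ h1, fun y hy => ?_, fun y hy => ?_, fun x hx y hy => ?_⟩
  · obtain ⟨x, hx, rfl⟩ := Finset.mem_image.1 hy
    rw [lv_zero, h.mono]; exact h2 x hx
  · obtain ⟨x, hx, rfl⟩ := Finset.mem_image.1 hy
    have := h.path (Q := fun v => v ∈ S.image (lv f))
      (fun v hv => Finset.mem_image_of_mem _ hv) (h3 x hx)
    rwa [hb] at this
  · rw [mem_img h hS] at hx hy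
    have := h.path (Q := fun v => v ∉ S.image (lv f))
      (fun v hv => by rwa [mem_img' h hS]) (h4 _ hx _ hy)
    rwa [h.lv_sec, h.lv_sec] at this

theorem mem_bdry {e : Edge D} :
    e ∈ bdry b S ↔ b 0 ≤ e.1 0 ∧ ¬ (e.1 ∈ S ↔ e.1 + Pi.single e.2 1 ∈ S) := by
  rw [bdry, Finset.mem_filter, mem_near']
  tauto

theorem bdry_img (h : Col (b 0) f g) (hS : ∀ x, x ∈ S ↔ lv g (lv f x) ∈ S) {e : Edge D}
    (he : e ∈ bdry b (S.image (lv f))) : ((lv g e.1, e.2) : Edge D) ∈ bdry b S := by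
  obtain ⟨y, i⟩ := e
  rw [mem_bdry] at he ⊢
  have e1 : lv f (lv g y + Pi.single i 1) = y + Pi.single i 1 := by
    by_cases hi : i = 0
    · subst hi
      rw [lv_up (c := 1) (by rw [lv_zero, h.sec, h.sec']), h.lv_sec]
    · rw [lv_side _ _ _ (Pi.single_eq_of_ne (Ne.symm hi) _), h.lv_sec]
  refine ⟨?_, ?_⟩
  · simp only
    rw [← h.mono, lv_zero, h.sec]; exact he.1
  · simp only
    rw [← mem_img' h hS (lv g y + _), e1, ← mem_img h hS]
    exact he.2

end image

/-- all levels below the height are occupied -/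
theorem occupied {b : V D} {S : Finset (V D)} (hs : Shape b S) {i : ℕ} (hi : i < ht b S) :
    ∃ x ∈ S, x 0 = b 0 + i := by
  obtain ⟨h1, h2, h3, -⟩ := hs
  have key : ∀ x, Relation.ReflTransGen (fun u v => Adj u v ∧ v ∈ S) b x →
      ∀ j, b 0 ≤ j → j ≤ x 0 → ∃ y ∈ S, y 0 = j := by
    intro x hx
    induction hx with
    | refl => exact fun j a1 a2 => ⟨b, h1, le_antisymm a1 a2⟩
    | @tail u v _ hs ih =>
      intro j a1 a2
      obtain ⟨⟨s, e⟩, hv⟩ := hs
      have : v 0 ≤ u 0 + 1 := by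
        rw [e, Pi.add_apply]; linarith [(vec_bounds s 0).2]
      rcases le_or_gt j (u 0) with a3 | a3
      · exact ih j a1 a3
      · exact ⟨v, hv, by omega⟩
  obtain ⟨x, hx, hlt⟩ := Finset.lt_sup_iff.1 hi
  have := h2 x hx
  exact key x (h3 x hx) _ (by omega) (by omega)

theorem count_side (hiso : ISO0Stmt) {b : V D} {S : Finset (V D)} (hs : Shape b S)
    {L : Finset ℕ} (hL : L ⊆ Finset.range (ht b S)) {A : Finset (Edge D)} (hA : A ⊆ bdry b S)
    (hd : ∀ e ∈ A, e.2 ≠ 0 → ∀ i ∈ L, e.1 0 ≠ b 0 + i) :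
    A.card + 2 * D * L.card ≤ (bdry b S).card := by
  classical
  let T : ℕ → Finset (Edge D) := fun i =>
    (bdry b S).filter fun e => e.2 ≠ 0 ∧ e.1 0 = b 0 + i
  have h1 : (L.biUnion T).card = ∑ i ∈ L, (T i).card :=
    Finset.card_biUnion fun i _ j _ hij => Finset.disjoint_left.2 fun e h1 h2 => by
      have a1 := (Finset.mem_filter.1 h1).2.2
      have a2 := (Finset.mem_filter.1 h2).2.2
      exact hij (by omega)
  have h2 : L.card • (2 * D) ≤ ∑ i ∈ L, (T i).card :=
    Finset.card_nsmul_le_sum _ _ _ fun i hi =>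
      hiso D b S _ (by omega) (occupied hs (Finset.mem_range.1 (hL hi)))
  have h3 : Disjoint A (L.biUnion T) := Finset.disjoint_left.2 fun e h1 h2 => by
    obtain ⟨i, hi, he⟩ := Finset.mem_biUnion.1 h2
    exact hd e h1 (Finset.mem_filter.1 he).2.1 i hi (Finset.mem_filter.1 he).2.2
  have h4 := Finset.card_le_card (Finset.union_subset hA
    (Finset.biUnion_subset.2 fun i _ => Finset.filter_subset _ _ : L.biUnion T ⊆ bdry b S))
  rw [Finset.card_union_of_disjoint h3, h1] at h4
  rw [smul_eq_mul, mul_comm] at h2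
  omega

/-- the levels that are kept -/
def kp (I : Finset ℕ) (K : ℕ) (i : ℕ) : Prop := i ∈ I ∨ K ≤ i

instance (I : Finset ℕ) (K : ℕ) : DecidablePred (kp I K) := fun _ => instDecidableOr

theorem kp_inf (I : Finset ℕ) (K : ℕ) : {i | kp I K i}.Infinite :=
  (Set.Ici_infinite K).mono fun _ hi => Or.inr hi

def ff (c : ℤ) (I : Finset ℕ) (K : ℕ) (i : ℤ) : ℤ :=
  if i < c then i else c + Nat.count (kp I K) (i - c).toNat

noncomputable def gg (c : ℤ) (I : Finset ℕ) (K : ℕ) (i : ℤ) : ℤ :=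
  if i < c then i else c + Nat.nth (kp I K) (i - c).toNat

variable {c : ℤ} {I : Finset ℕ} {K : ℕ}

theorem ff_nat (n : ℕ) : ff c I K (c + n) = c + Nat.count (kp I K) n := by
  rw [ff, if_neg (by omega)]; simp

theorem gg_nat (n : ℕ) : gg c I K (c + n) = c + Nat.nth (kp I K) n := by
  rw [gg, if_neg (by omega)]; simp

theorem ff_le {i : ℤ} (h : i ≤ c) : ff c I K i = i := by
  rcases h.lt_or_eq with h | rfl
  · exact if_pos h
  · simpa using ff_nat (c := i) (I := I) (K := K) 0

theorem col (c : ℤ) (I : Finset ℕ) (K : ℕ) : Col c (ff c I K) (gg c I K) where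
  step i := by
    rcases lt_or_ge i c with h | h
    · right; rw [ff_le (by omega), ff_le h.le]
    · obtain ⟨n, rfl⟩ := Int.le.dest h
      rw [add_assoc, ← Nat.cast_succ, ff_nat, ff_nat, Nat.count_succ]
      split_ifs
      · right; push_cast; ring
      · left; simp
  sec j := by
    rcases lt_or_ge j c with h | h
    · rw [gg, if_pos h, ff_le h.le]
    · obtain ⟨n, rfl⟩ := Int.le.dest h
      rw [gg_nat, ff_nat, Nat.count_nth_of_infinite (kp_inf I K)]
  sec' j := by
    rcases lt_or_ge j c with h | h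
    · rw [gg, if_pos h, ff_le (by omega)]
    · obtain ⟨n, rfl⟩ := Int.le.dest h
      rw [gg_nat, add_assoc, ← Nat.cast_succ, ff_nat, Nat.count_succ,
        Nat.count_nth_of_infinite (kp_inf I K), if_pos (Nat.nth_mem_of_infinite (kp_inf I K) n)]
      push_cast; ring
  base := ff_le le_rfl
  mono i := by
    rcases lt_or_ge i c with h | h
    · rw [ff_le h.le]
    · obtain ⟨n, rfl⟩ := Int.le.dest h
      rw [ff_nat]; omega

open Classical in
/-- the levels whose slice differs from the next one -/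
noncomputable def chg (b : V D) (K : ℕ) (S : Finset (V D)) : Finset ℕ :=
  (Finset.range K).filter fun i => ∃ x : V D, x 0 = b 0 + i ∧ ¬ (x ∈ S ↔ x + Pi.single 0 1 ∈ S)

theorem chg_sub (b : V D) (K : ℕ) (S : Finset (V D)) : chg b K S ⊆ Finset.range K := by
  classical
  intro i hi
  simp only [chg, Finset.mem_filter] at hi
  exact hi.1

theorem inv (b : V D) (K : ℕ) (S : Finset (V D)) (x : V D) :
    x ∈ S ↔ lv (gg (b 0) (chg b K S) K) (lv (ff (b 0) (chg b K S) K) x) ∈ S := by
  rw [lv_lv]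
  rcases lt_or_ge (x 0) (b 0) with h | h
  · rw [lv_id (by rw [ff_le h.le, gg, if_pos h])]
  obtain ⟨n, hn⟩ := Int.le.dest h
  have key : ∀ m, n ≤ m → (∀ k, n ≤ k → k < m → ¬ kp (chg b K S) K k) →
      (x ∈ S ↔ Function.update x 0 (b 0 + m) ∈ S) := by
    intro m hm
    induction m, hm using Nat.le_induction with
    | base => intro _; rw [hn, Function.update_eq_self]
    | succ m hm ih =>
      intro hk
      rw [ih fun k a1 a2 => hk k a1 (by omega)]
      have h1 := hk m hm (by omega)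
      simp only [kp, chg, Finset.mem_filter, Finset.mem_range, not_or, not_and, not_exists,
        not_not, not_le] at h1
      rw [h1.1 h1.2 _ (Function.update_self _ _ _)]
      have : Function.update x 0 (b 0 + m) + Pi.single 0 1 =
          Function.update x 0 (b 0 + (m + 1 : ℕ)) := by
        funext i
        by_cases hi : i = 0
        · subst hi; simp [add_assoc]
        · simp [hi]
      rw [this]
  rw [lv, ← hn, ff_nat, gg_nat]
  refine key _ (Nat.le_nth_count (kp_inf _ _) n) fun k a1 a2 hk => ?_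
  have := Nat.nth_monotone (kp_inf (chg b K S) K) (Nat.count_monotone (kp (chg b K S) K) a1)
  rw [Nat.nth_count hk] at this
  exact absurd a2 (Nat.not_lt.2 this)

theorem card_chg (hiso : ISO0Stmt) {b : V D} {S : Finset (V D)} (hs : Shape b S) {K e : ℕ}
    (hK : ht b S = K) (he : (bdry b S).card = 2 * D * K + e) : (chg b K S).card ≤ e := by
  have h1 := count_side hiso hs subset_rfl (Finset.filter_subset (fun e => e.2 = 0) _)
    fun e he h => absurd (Finset.mem_filter.1 he).2 h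
  rw [Finset.card_range, hK, he] at h1
  have h2 : chg b K S ⊆ ((bdry b S).filter fun e => e.2 = 0).image
      fun e => (e.1 0 - b 0).toNat := fun i hi => by
    simp only [chg, Finset.mem_filter] at hi
    obtain ⟨-, x, hx, hx'⟩ := hi
    exact Finset.mem_image.2 ⟨(x, 0), Finset.mem_filter.2 ⟨mem_bdry.2 ⟨by simp only; omega, hx'⟩,
      rfl⟩, by simp only; omega⟩
  have := (Finset.card_le_card h2).trans Finset.card_image_le
  omega

theorem card_img (hiso : ISO0Stmt) {b : V D} {S : Finset (V D)} (hs : Shape b S) {K e : ℕ}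
    (hK : ht b S = K) (he : (bdry b S).card = 2 * D * K + e) :
    (bdry b (S.image (lv (ff (b 0) (chg b K S) K)))).card ≤ (2 * D + 1) * e := by
  have hc := col (b 0) (chg b K S) K
  have hsub : chg b K S ⊆ Finset.range K := chg_sub b K S
  have h1 := count_side hiso hs (L := Finset.range K \ chg b K S) (hK ▸ Finset.sdiff_subset)
    (A := (bdry b (S.image (lv (ff (b 0) (chg b K S) K)))).image
      fun e => ((lv (gg (b 0) (chg b K S) K) e.1, e.2) : Edge D))
    (Finset.image_subset_iff.2 fun e he => bdry_img hc (inv b K S) he) fun e he _ i hi => by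
      obtain ⟨e', he', rfl⟩ := Finset.mem_image.1 he
      obtain ⟨n, hn⟩ := Int.le.dest (mem_bdry.1 he').1
      simp only [lv_zero, ← hn, gg_nat]
      intro h
      have h2 := Nat.nth_mem_of_infinite (kp_inf (chg b K S) K) n
      rw [show Nat.nth (kp (chg b K S) K) n = i by omega] at h2
      obtain ⟨a1, a2⟩ := Finset.mem_sdiff.1 hi
      exact h2.elim a2 (Nat.not_le.2 (Finset.mem_range.1 a1))
  have hinj : Function.Injective
      fun e : Edge D => ((lv (gg (b 0) (chg b K S) K) e.1, e.2) : Edge D) := fun e e' h => by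
    obtain ⟨a1, a2⟩ := Prod.mk.inj h
    exact Prod.ext (by rw [← hc.lv_sec e.1, ← hc.lv_sec e'.1, a1]) a2
  rw [Finset.card_image_of_injective _ hinj, Finset.card_sdiff_of_subset hsub,
    Finset.card_range, he] at h1
  have h2 := card_chg hiso hs hK he
  have h3 := Finset.card_le_card hsub
  rw [Finset.card_range] at h3
  obtain ⟨m, hm⟩ := Nat.exists_eq_add_of_le h3
  have h4 : 2 * D * K = 2 * D * (chg b K S).card + 2 * D * (K - (chg b K S).card) := by
    rw [← mul_add]; congr 1; omega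
  nlinarith [Nat.mul_le_mul_left (2 * D) h2]

theorem card_small (K e : ℕ) {t : ℝ} (h0 : 0 < t) (h1 : t ≤ 1) :
    ((((Finset.range K).powerset.filter fun I => I.card ≤ e).card : ℕ) : ℝ) * t ^ e ≤
      (1 + t) ^ K := by
  have h := Finset.prod_one_add (f := fun _ : ℕ => t) (Finset.range K)
  simp only [Finset.prod_const, Finset.card_range] at h
  rw [h, ← nsmul_eq_mul]
  refine (Finset.card_nsmul_le_sum _ (fun I : Finset ℕ => t ^ I.card) _ fun I hI =>
    pow_le_pow_of_le_one h0.le h1 (Finset.mem_filter.1 hI).2).trans ?_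
  exact Finset.sum_le_sum_of_subset_of_nonneg (Finset.filter_subset _ _) fun _ _ _ => by positivity

end Cmpr

open Cmpr in
theorem cmpr (hiso : ISO0Stmt) (hani : ANIStmt) : CMPRStmt := by
  intro D hD
  obtain ⟨C, hC⟩ := hani D hD
  refine ⟨((C : ℝ) + 1) ^ (2 * D + 1), one_le_pow₀ (by linarith [Nat.cast_nonneg (α := ℝ) C]),
    fun t h0 h1 b K e => ?_⟩
  obtain ⟨A, hA, hA'⟩ := hC b ((2 * D + 1) * e)
  let P := (Finset.range K).powerset.filter fun I => I.card ≤ e
  let T : Set (Finset (V D)) := {S | Shape b S ∧ ht b S = K ∧ (bdry b S).card = 2 * D * K + e}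
  let φ : Finset (V D) → Finset ℕ × Finset (V D) := fun S =>
    (chg b K S, S.image (lv (ff (b 0) (chg b K S) K)))
  have hm : Set.MapsTo φ T (P ×ˢ A : Finset _) := fun S hS =>
    Finset.mem_coe.2 (Finset.mem_product.2 ⟨Finset.mem_filter.2
      ⟨Finset.mem_powerset.2 (chg_sub b K S), card_chg hiso hS.1 hS.2.1 hS.2.2⟩,
      hA' _ (shape_img (col _ _ _) (inv b K S) hS.1) (card_img hiso hS.1 hS.2.1 hS.2.2)⟩)
  have hi : Set.InjOn φ T := fun S _ S' _ h => by
    obtain ⟨e1, e2⟩ := Prod.mk.inj h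
    ext x
    rw [← mem_img' (col _ _ _) (inv b K S) x, ← mem_img' (col _ _ _) (inv b K S') x, e2, e1]
  have hf : T.Finite := Set.Finite.of_injOn hm hi (Finset.finite_toSet _)
  refine ⟨hf.toFinset, ?_, fun S a1 a2 a3 => hf.mem_toFinset.2 ⟨a1, a2, a3⟩⟩
  have h2 := Finset.card_le_card_of_injOn (s := hf.toFinset) (t := P ×ˢ A) φ
    (by rw [hf.coe_toFinset]; exact hm) (by rw [hf.coe_toFinset]; exact hi)
  rw [Finset.card_product] at h2
  have h3 : (A.card : ℝ) ≤ (((C : ℝ) + 1) ^ (2 * D + 1)) ^ e := by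
    rw [← pow_mul]
    exact le_trans (by exact_mod_cast hA) (pow_le_pow_left₀ (Nat.cast_nonneg C) (by linarith) _)
  have h4 := card_small K e h0 h1
  rw [div_pow, ← mul_div_assoc, le_div_iff₀ (pow_pos h0 e)]
  calc (hf.toFinset.card : ℝ) * t ^ e ≤ (P.card * A.card) * t ^ e :=
        mul_le_mul_of_nonneg_right (by exact_mod_cast h2) (by positivity)
    _ = (P.card * t ^ e) * A.card := by ring
    _ ≤ _ := mul_le_mul h4 h3 (Nat.cast_nonneg _) (by positivity)

end Pool.Agent.MP_8c549f_pr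

/-!
Increments of bounded rational functions of `exp lam`, and of sums of log-Lipschitz functions.
-/

set_option autoImplicit false

namespace Pool.Agent.MP_8c549f_pr

open Filter Topology Real Polynomial
open scoped ENNReal NNReal

namespace RatM

/-- a rational function of `exp (-x)` -/
noncomputable def g (P Q : ℝ[X]) (x : ℝ) : ℝ := P.eval (exp (-x)) / Q.eval (exp (-x))

theorem exp_mem {x : ℝ} (hx : 0 ≤ x) : exp (-x) ∈ Set.Icc (0 : ℝ) 1 :=
  ⟨(exp_pos _).le, exp_le_one_iff.mpr (by linarith)⟩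

theorem deriv_g (P Q : ℝ[X]) (hQ : ∀ u ∈ Set.Icc (0 : ℝ) 1, Q.eval u ≠ 0) {x : ℝ} (hx : 0 ≤ x) :
    HasDerivAt (g P Q) (g (X * (P * derivative Q - derivative P * Q)) (Q ^ 2) x) x := by
  have h0 : HasDerivAt (fun x => exp (-x)) (-exp (-x)) x := by
    simpa using (hasDerivAt_neg x).exp
  have h := hQ _ (exp_mem hx)
  refine (((P.hasDerivAt _).comp x h0).div ((Q.hasDerivAt _).comp x h0) h).congr_deriv ?_
  simp only [g, eval_mul, eval_sub, eval_X, eval_pow, Function.comp]
  congr 1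
  ring

theorem bound_g (P Q : ℝ[X]) (hQ : ∀ u ∈ Set.Icc (0 : ℝ) 1, Q.eval u ≠ 0) :
    ∃ C : ℝ, 0 ≤ C ∧ ∀ x, 0 ≤ x → |g (X * P) Q x| ≤ C * exp (-x) := by
  obtain ⟨C, hC⟩ := isCompact_Icc.exists_bound_of_continuousOn
    (P.continuousOn.div Q.continuousOn hQ)
  refine ⟨C, (norm_nonneg _).trans (hC 0 (by simp)), fun x hx => ?_⟩
  rw [g, eval_mul, eval_X, mul_div_assoc, abs_mul, abs_of_pos (exp_pos _), mul_comm]
  exact mul_le_mul_of_nonneg_right (hC _ (exp_mem hx)) (exp_pos _).le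

theorem incr {h h' : ℝ → ℝ} {C : ℝ} (hC : 0 ≤ C) (h1 : ∀ x, 0 ≤ x → HasDerivAt h (h' x) x)
    (h2 : ∀ x, 0 ≤ x → |h' x| ≤ C * exp (-x)) {x y : ℝ} (hx : 0 ≤ x) (hxy : x ≤ y) :
    |h y - h x| ≤ C * (y - x) * exp (-x) := by
  have := (convex_Icc x y).norm_image_sub_le_of_norm_hasDerivWithin_le (C := C * exp (-x))
    (fun z hz => (h1 z (hx.trans hz.1)).hasDerivWithinAt)
    (fun z hz => (h2 z (hx.trans hz.1)).trans (mul_le_mul_of_nonneg_left
      (exp_le_exp.mpr (neg_le_neg hz.1)) hC)) (Set.left_mem_Icc.mpr hxy) (Set.right_mem_Icc.mpr hxy)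
  rw [Real.norm_eq_abs, Real.norm_eq_abs, abs_of_nonneg (sub_nonneg.mpr hxy)] at this
  linarith

theorem exists_g {f : ℝ → ℝ} {M : ℝ} (hf : IsRat f) (hM : ∀ lam, 0 ≤ lam → |f lam| ≤ M) :
    ∃ P Q : ℝ[X], (∀ u ∈ Set.Icc (0 : ℝ) 1, Q.eval u ≠ 0) ∧ ∀ x, 0 ≤ x → f x = g P Q x := by
  obtain ⟨A, B, h⟩ := hf
  have hB : B ≠ 0 := by
    rintro rfl
    simpa using (h 0 le_rfl).1
  have hdeg : A.natDegree ≤ B.natDegree := by
    refine natDegree_le_natDegree (not_lt.mp fun hlt => ?_)
    obtain ⟨x, h1, h2⟩ := ((((abs_div_tendsto_atTop_atTop_of_degree_gt A B hlt hB).comp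
      tendsto_exp_atTop).eventually_gt_atTop M).and (eventually_ge_atTop 0)).exists
    exact absurd (hM x h2) (not_le.mpr (by rw [(h x h2).2]; exact h1))
  have key : ∀ (R : ℝ[X]) (x : ℝ), R.natDegree ≤ B.natDegree →
      (reflect B.natDegree R).eval (exp (-x)) * exp x ^ B.natDegree = R.eval (exp x) := by
    intro R x hR
    have _ := invertibleOfNonzero (exp_pos x).ne'
    have := eval₂_reflect_mul_pow (RingHom.id ℝ) (exp x) B.natDegree R hR
    rwa [invOf_eq_inv, ← exp_neg] at this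
  refine ⟨reflect B.natDegree A, reflect B.natDegree B, fun u hu => ?_, fun x hx => ?_⟩
  · rcases hu.1.eq_or_lt with rfl | h0
    · rw [← coeff_zero_eq_eval_zero, coeff_reflect, revAt_zero]
      exact leadingCoeff_ne_zero.mpr hB
    · intro e
      have := key B (-log u) le_rfl
      rw [neg_neg, exp_log h0, e, zero_mul] at this
      exact (h _ (neg_nonneg.mpr (log_nonpos hu.1 hu.2))).1 this.symm
  · rw [(h x hx).2, ← key A x hdeg, ← key B x le_rfl, mul_div_mul_right _ _ (by positivity), g]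

end RatM

open RatM in
theorem rat : RATStmt := by
  intro f M hf hM
  obtain ⟨P, Q, hQ, hfg⟩ := exists_g hf hM
  have hQ2 : ∀ u ∈ Set.Icc (0 : ℝ) 1, (Q ^ 2).eval u ≠ 0 := fun u hu => by simpa using hQ u hu
  have hQ4 : ∀ u ∈ Set.Icc (0 : ℝ) 1, ((Q ^ 2) ^ 2).eval u ≠ 0 := fun u hu => by
    simpa using hQ u hu
  obtain ⟨C1, a1, b1⟩ := bound_g (P * derivative Q - derivative P * Q) _ hQ2
  obtain ⟨C2, a2, b2⟩ := bound_g (X * (P * derivative Q - derivative P * Q) * derivative (Q ^ 2) -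
    derivative (X * (P * derivative Q - derivative P * Q)) * Q ^ 2) _ hQ4
  have c1 := fun x y => incr a1 (fun x hx => deriv_g P Q hQ hx) b1 (x := x) (y := y)
  have c2 := fun x y => incr a2 (fun x hx => deriv_g _ _ hQ2 hx) b2 (x := x) (y := y)
  refine ⟨C1 + C2, add_nonneg a1 a2, fun x y hx hxy => ?_, fun x t hx ht => ?_⟩
  · rw [hfg x hx, hfg y (hx.trans hxy)]
    refine (c1 x y hx hxy).trans ?_
    have := mul_nonneg (mul_nonneg a2 (sub_nonneg.mpr hxy)) (exp_pos (-x)).le
    linarith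
  · have h1 := incr (h := fun s => g P Q (s + t) - g P Q s) (mul_nonneg a2 ht)
      (fun s hs => ((deriv_g P Q hQ (add_nonneg hs ht)).comp_add_const s t).sub
        (deriv_g P Q hQ hs)) (fun s hs => by simpa using c2 s (s + t) hs (by linarith)) hx
      (le_add_of_nonneg_right ht)
    rw [hfg x hx, hfg _ (add_nonneg hx ht), hfg _ (by linarith),
      show x + 2 * t = x + t + t by ring]
    have := mul_nonneg (mul_nonneg a1 (sq_nonneg t)) (exp_pos (-x)).le
    refine (le_of_eq ?_).trans (h1.trans (by nlinarith))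
    congr 1
    ring

theorem lip : LIPStmt := by
  intro ι f K α β M hαβ hM hK h1 h2 h3
  have step : ∀ T : Finset ι, ∀ x ∈ Set.Icc α β, ∀ y ∈ Set.Icc α β,
      (∀ i ∈ T, K i * |y - x| ≤ 1) →
      ∑ i ∈ T, f i y ≤ ∑ i ∈ T, f i x + ENNReal.ofReal (2 * M * |y - x|) := by
    intro T x hx y hy h
    calc _ ≤ ∑ i ∈ T, (f i x + ENNReal.ofReal (2 * |y - x|) * (ENNReal.ofReal (K i) * f i x)) :=
          Finset.sum_le_sum fun i hi => by
            have a0 := mul_nonneg (hK i) (abs_nonneg (y - x))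
            have a1 := (abs_le.mp (abs_exp_sub_one_le (x := K i * |y - x|)
              (by rw [abs_of_nonneg a0]; exact h i hi))).2
            rw [abs_of_nonneg a0] at a1
            rw [← mul_assoc, ← ENNReal.ofReal_mul (by positivity), ← one_add_mul,
              ← ENNReal.ofReal_one, ← ENNReal.ofReal_add zero_le_one
                (mul_nonneg (by positivity) (hK i))]
            exact (h1 i x hx y hy).trans
              (mul_le_mul' (ENNReal.ofReal_le_ofReal (by linarith)) le_rfl)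
      _ ≤ _ := by
          rw [Finset.sum_add_distrib, ← Finset.mul_sum, mul_right_comm,
            ENNReal.ofReal_mul (p := 2 * |y - x|) (by positivity)]
          gcongr
          exact (ENNReal.sum_le_tsum T).trans (h2 x hx)
  have key : ∀ x ∈ Set.Icc α β, ∀ y ∈ Set.Icc α β,
      ∑' i, f i y ≤ ∑' i, f i x + ENNReal.ofReal (2 * M * |y - x|) := by
    intro x hx y hy
    rw [ENNReal.tsum_eq_iSup_sum (f := fun i => f i y)]
    refine iSup_le fun T => le_trans ?_ (add_le_add (ENNReal.sum_le_tsum T) le_rfl)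
    obtain ⟨N, hN⟩ := exists_nat_gt ((∑ i ∈ T, K i) * |y - x|)
    have hN0 : (0 : ℝ) < N :=
      lt_of_le_of_lt (mul_nonneg (Finset.sum_nonneg fun i _ => hK i) (abs_nonneg _)) hN
    have hz : ∀ j ≤ N, x + j / N * (y - x) ∈ Set.Icc α β := fun j hj =>
      (convex_Icc α β).add_smul_sub_mem hx hy
        ⟨by positivity, (div_le_one hN0).mpr (by exact_mod_cast hj)⟩
    have ind : ∀ j ≤ N, ∑ i ∈ T, f i (x + j / N * (y - x)) ≤
        ∑ i ∈ T, f i x + ENNReal.ofReal (2 * M * (j / N * |y - x|)) := fun j => by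
      induction j with
      | zero => simp
      | succ j ih =>
        intro hj
        have e : |x + (j + 1 : ℕ) / N * (y - x) - (x + j / N * (y - x))| = |y - x| / N := by
          rw [← abs_of_pos hN0, ← abs_div, abs_of_pos hN0]
          congr 1
          push_cast
          ring
        refine (step T _ (hz j (by omega)) _ (hz _ hj) fun i hi => ?_).trans ?_
        · rw [e, ← mul_div_assoc, div_le_one hN0]
          exact (mul_le_mul_of_nonneg_right (Finset.single_le_sum (fun i _ => hK i) hi)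
            (abs_nonneg _)).trans hN.le
        · refine (add_le_add (ih (by omega)) le_rfl).trans (le_of_eq ?_)
          rw [e, add_assoc, ← ENNReal.ofReal_add (by positivity) (by positivity)]
          congr 2
          push_cast
          ring
    simpa [div_self hN0.ne'] using ind N le_rfl
  have ha := Set.left_mem_Icc.mpr hαβ
  have hb := Set.right_mem_Icc.mpr hαβ
  have k1 := ENNReal.toReal_mono (ENNReal.add_ne_top.mpr ⟨h3 α ha, ENNReal.ofReal_ne_top⟩)
    (key α ha β hb)
  have k2 := ENNReal.toReal_mono (ENNReal.add_ne_top.mpr ⟨h3 β hb, ENNReal.ofReal_ne_top⟩)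
    (key β hb α ha)
  rw [ENNReal.toReal_add (h3 _ (by assumption)) ENNReal.ofReal_ne_top,
    ENNReal.toReal_ofReal (by positivity)] at k1 k2
  rw [abs_sub_comm α β] at k2
  rw [abs_of_nonneg (sub_nonneg.mpr hαβ)] at k1 k2
  rw [abs_le]
  constructor <;> linarith

end Pool.Agent.MP_8c549f_pr

/-!
The contribution of the boxes with a trap to the mean duration of a block.
-/

set_option autoImplicit false

namespace Pool.Agent.MP_8c549f_pr

open MeasureTheory Filter Topology Real
open scoped ENNReal NNReal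

namespace Tsum

variable {D : ℕ}

/-- the boxes that are not good at the index `j` -/
def Bad (D m r j : ℕ) : Set (Cfg D) := {ω | ¬ Good (plus ω) (Box D m r) j}

theorem meas_Bad (h4 : P4Stmt) (m r j : ℕ) : MeasurableSet (Bad D m r j) :=
  (measurable_plus (Dep.measurableSet ((h4 D m r).2.2.2.2.1 j) (Finset.finite_toSet _))).compl

theorem bad_le (hG : GEOStmt) (hP : PLUSStmt) (h4 : P4Stmt) (p : ℝ) (m r j : ℕ) {τ : ℝ≥0∞}
    (hτ : ∀ b : V D, perc D p {ω | Trap ω b (j + 1)} ≤ τ) :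
    perc D p (Bad D m r j) ≤ NN D m r * τ := by
  have h1 : Bad D m r j ⊆ ⋃ b ∈ Box D m r, {ω | Trap ω b (j + 1)} := by
    intro ω hω
    simp only [Bad, Good, Set.mem_ofPred_eq, not_forall] at hω
    obtain ⟨x, -, h0, s, hs, hn⟩ := hω
    obtain ⟨b, hb, ht⟩ := hG D _ _ x s 0 _ j h0 hs (by omega) hn
    exact Set.mem_biUnion hb ((hP D ω b _ (mem_Box.1 hb).1).1 ht)
  refine (measure_mono h1).trans ((measure_biUnion_finset_le _ _).trans ?_)
  refine (Finset.sum_le_card_nsmul _ _ τ fun b _ => hτ b).trans ?_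
  rw [nsmul_eq_mul]
  exact mul_le_mul_left (by exact_mod_cast (h4 D m r).1) _

theorem Tq_le (h2 : P2Stmt) {lam : ℝ} (hl : 0 ≤ lam) (ω : Cfg D) (m r j : ℕ)
    (h : Good ω (Box D m r) j) : Tq lam ω m r ≤
      ENNReal.ofReal ((6 * D + 6) * (NN D m r : ℝ) ^ 3 * exp (lam * j)) * Uq lam ω m r := by
  have h1 := h2 D lam hl ω m r j 0 h
  have h3 : {l : List (Step D) | Piece m r l ∧ 0 < l.length} = {l | Piece m r l} :=
    Set.ext fun l => ⟨fun k => k.1, fun k => ⟨k, k.1.2.1.1⟩⟩
  rw [h3] at h1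
  simpa [Tq, Uq] using h1

theorem le_geom {x a b : ℝ≥0∞} {α : ℝ} (h0 : 0 ≤ α) (h1 : α ≤ 1) (ha : x ≤ a) (hb : x ≤ b) :
    x ≤ a ^ α * b ^ (1 - α) := by
  have h : x = x ^ α * x ^ (1 - α) := by
    rw [← ENNReal.rpow_add_of_nonneg _ _ h0 (by linarith)]; simp
  exact h.le.trans (mul_le_mul' (ENNReal.rpow_le_rpow ha h0)
    (ENNReal.rpow_le_rpow hb (by linarith)))

theorem piece_le (hG : GEOStmt) (hP : PLUSStmt) (h2 : P2Stmt) (h4 : P4Stmt) (hS : SUMPStmt)
    {p lam α : ℝ} (h0 : 0 ≤ p) (h1 : p ≤ 1) (hl : 0 ≤ lam) (a0 : 0 ≤ α) (a1 : α ≤ 1) (m r : ℕ)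
    {τ : ℕ → ℝ≥0∞} (hτ : ∀ (j : ℕ) (b : V D), perc D p {ω | Trap ω b (j + 1)} ≤ τ j) :
    ∫⁻ ω in Bad D m r 0, Tq lam (plus ω) m r ∂perc D p ≤
      (NN D m r : ℝ≥0∞) ^ 4 * UU D p lam m r ^ α *
        ∑' j : ℕ, ENNReal.ofReal ((6 * D + 6) * exp (lam * (j + 1))) * τ j ^ (1 - α) := by
  have hU : Measurable fun ω : Cfg D => Uq lam (plus ω) m r :=
    (Dep.measurable ((h4 D m r).2.2.1 lam) (Finset.finite_toSet _)).comp measurable_plus
  let c : ℕ → ℝ≥0∞ := fun j =>
    ENNReal.ofReal ((6 * D + 6) * (NN D m r : ℝ) ^ 3 * exp (lam * (j + 1 : ℕ)))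
  have hN : (1 : ℝ≥0∞) ≤ NN D m r := by
    exact_mod_cast Nat.succ_le_of_lt (by unfold NN; positivity)
  calc ∫⁻ ω in Bad D m r 0, Tq lam (plus ω) m r ∂perc D p
      ≤ ∫⁻ ω, ∑' j, (Bad D m r j).indicator (fun ω => c j * Uq lam (plus ω) m r) ω ∂perc D p := by
        rw [← lintegral_indicator (meas_Bad h4 m r 0)]
        refine lintegral_mono fun ω => ?_
        by_cases hω : ω ∈ Bad D m r 0
        · classical
          have hex : ∃ j, Good (plus ω) (Box D m r) j := ⟨_, (h4 D m r).2.2.2.2.2.2.1 _⟩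
          obtain ⟨j, hj⟩ : ∃ j, Nat.find hex = j + 1 :=
            Nat.exists_eq_succ_of_ne_zero fun k => hω (k ▸ Nat.find_spec hex)
          rw [Set.indicator_of_mem hω]
          refine le_trans ?_ (ENNReal.le_tsum j)
          rw [Set.indicator_of_mem (show ω ∈ Bad D m r j from Nat.find_min hex (by omega))]
          exact Tq_le h2 hl _ m r _ (hj ▸ Nat.find_spec hex)
        · rw [Set.indicator_of_notMem hω]; exact zero_le
    _ = ∑' j, c j * ∫⁻ ω in Bad D m r j, Uq lam (plus ω) m r ∂perc D p := by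
        rw [lintegral_tsum fun j => ((hU.const_mul _).indicator (meas_Bad h4 m r j)).aemeasurable]
        exact tsum_congr fun j => by
          rw [lintegral_indicator (meas_Bad h4 m r j), lintegral_const_mul _ hU]
    _ ≤ _ := by
        rw [← ENNReal.tsum_mul_left]
        refine ENNReal.tsum_le_tsum fun j => ?_
        have b1 : ∫⁻ ω in Bad D m r j, Uq lam (plus ω) m r ∂perc D p ≤ UU D p lam m r := by
          rw [(hS D p lam h0 h1).1]; exact setLIntegral_le_lintegral _ _
        have b2 : ∫⁻ ω in Bad D m r j, Uq lam (plus ω) m r ∂perc D p ≤ NN D m r * τ j :=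
          (lintegral_mono fun ω => ((h4 D m r).2.2.2.2.2.1 lam _).1).trans
            (by simpa using bad_le hG hP h4 p m r j (hτ j))
        have b3 : ((NN D m r : ℝ≥0∞) * τ j) ^ (1 - α) ≤ NN D m r * τ j ^ (1 - α) := by
          rw [ENNReal.mul_rpow_of_nonneg _ _ (by linarith)]
          refine mul_le_mul_left ?_ _
          simpa using ENNReal.rpow_le_rpow_of_exponent_le hN (by linarith : 1 - α ≤ 1)
        have b4 : c j = (NN D m r : ℝ≥0∞) ^ 3 *
            ENNReal.ofReal ((6 * D + 6) * exp (lam * (j + 1))) := by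
          simp only [c]
          rw [mul_right_comm, ENNReal.ofReal_mul (by positivity), mul_comm,
            ENNReal.ofReal_pow (by positivity), ENNReal.ofReal_natCast]
          push_cast; rfl
        refine (mul_le_mul_right ((le_geom a0 a1 b1 b2).trans (mul_le_mul_right b3 _)) _).trans
          (le_of_eq ?_)
        rw [b4]; ring

theorem term_le {D j : ℕ} {C η ℓ lam : ℝ} (hC : 0 < C) (hη : 0 < η) (hℓ : 0 < ℓ)
    (h1 : η / (4 * (D + 1)) ≤ ℓ) (h : lam - D * ℓ ≤ -η) :
    exp (lam * (j + 1)) * (C * exp (η / 4 * (j + 1 : ℕ)) * exp (-ℓ) ^ (D * (j + 1 + 1) + 1)) ^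
      (1 - η / (4 * (D + 1)) / ℓ) ≤ (C + 1) * (exp (-ℓ) * exp (-lam)) * exp (-(η / 2)) ^ j := by
  obtain ⟨β, hβ⟩ : ∃ β, β = η / (4 * (D + 1)) := ⟨_, rfl⟩
  have hβ0 : 0 < β := by rw [hβ]; positivity
  have hβ1 : β * (D + 1) = η / 4 := by rw [hβ]; field_simp
  rw [← hβ] at h1 ⊢
  have a0 : 0 ≤ β / ℓ := by positivity
  have a1 : β / ℓ ≤ 1 := (div_le_one hℓ).2 h1
  have hj : (0 : ℝ) ≤ j := Nat.cast_nonneg _
  have hD : (0 : ℝ) ≤ D := Nat.cast_nonneg _
  have e1 : (C * exp (η / 4 * (j + 1 : ℕ))) ^ (1 - β / ℓ) ≤ (C + 1) * exp (η / 4 * (j + 1)) := by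
    have b1 : 1 ≤ exp (η / 4 * (j + 1)) := one_le_exp (by positivity)
    have b2 : 1 ≤ (C + 1) * exp (η / 4 * (j + 1)) := by nlinarith
    refine (rpow_le_rpow (by positivity) (y := (C + 1) * exp (η / 4 * (j + 1)))
      (by push_cast; gcongr; linarith) (by linarith)).trans ?_
    simpa using rpow_le_rpow_of_exponent_le b2 (by linarith : 1 - β / ℓ ≤ 1)
  rw [mul_rpow (by positivity) (by positivity), ← exp_nat_mul, ← exp_mul, ← exp_nat_mul]
  refine (mul_le_mul_of_nonneg_left (mul_le_mul_of_nonneg_right e1 (exp_pos _).le)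
    (exp_pos _).le).trans ?_
  rw [mul_assoc (C + 1), mul_assoc (C + 1), mul_left_comm, ← exp_add, ← exp_add,
    ← exp_add, ← exp_add]
  refine mul_le_mul_of_nonneg_left (exp_le_exp.2 ?_) (by positivity)
  have e2 : ((D * (j + 1 + 1) + 1 : ℕ) : ℝ) * -ℓ * (1 - β / ℓ) =
      (D * (j + 2) + 1) * β - (D * (j + 2) + 1) * ℓ := by
    push_cast; field_simp; ring
  have e3 := mul_le_mul_of_nonneg_left h (by positivity : (0 : ℝ) ≤ j + 2)
  have e4 : (D * (j + 2) + 1) * β ≤ (j + 2) * (η / 4) := by rw [← hβ1]; nlinarith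
  rw [e2]; nlinarith

end Tsum

open Tsum

theorem tsumt (hG : GEOStmt) (hP : PLUSStmt) (hT : TRAPStmt) (h2 : P2Stmt) (h4 : P4Stmt)
    (hS : SUMPStmt) (hM : MOMBStmt) : TSUMStmt := by
  intro D hD a η ζ K ha hη hζ
  obtain ⟨C, e0, hC, he0, hT⟩ := hT D hD (η / 4) (by positivity)
  obtain ⟨CM, c, K', hCM, hc, hM⟩ := hM D hD a (K + 4) ha
  obtain ⟨β, hβ⟩ : ∃ β, β = η / (4 * (D + 1)) := ⟨_, rfl⟩
  have hβ0 : 0 < β := by rw [hβ]; positivity
  have hq : exp (-(η / 2)) < 1 := exp_lt_one_iff.2 (by linarith)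
  obtain ⟨S, hS0, hS1⟩ : ∃ S : ℝ, 0 < S ∧ S = (1 - exp (-(η / 2)))⁻¹ :=
    ⟨_, inv_pos.2 (by linarith), rfl⟩
  obtain ⟨E, hE⟩ : ∃ E : ℝ, E = CM / β ^ K' * ((6 * D + 6) * (C + 1) * S) := ⟨_, rfl⟩
  have hE0 : 0 < E := by rw [hE]; positivity
  obtain ⟨ℓ0, hℓ0⟩ := eventually_atTop.1 ((eventually_ge_atTop β).and
    (((tendsto_pow_mul_exp_neg_atTop_nhds_zero 0).eventually_le_const he0).and
    (((tendsto_pow_mul_exp_neg_atTop_nhds_zero 1).eventually_le_const (mul_pos hc hβ0)).and
    ((tendsto_pow_mul_exp_neg_atTop_nhds_zero K').eventually_le_const (div_pos hζ hE0)))))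
  have hl0 : 0 < ℓ0 := hβ0.trans_le (hℓ0 ℓ0 le_rfl).1
  refine ⟨exp (-ℓ0), exp_pos _, fun p lam p0 p1 hl hb => ?_⟩
  have h0 : 0 ≤ p := by linarith [exp_le_one_iff.2 (by linarith : -ℓ0 ≤ 0)]
  rcases p1.eq_or_lt with rfl | p2
  · refine le_trans (le_of_eq (ENNReal.tsum_eq_zero.2 fun q => ?_)) zero_le
    have := bad_le hG hP h4 1 q.1 q.2 0 (τ := 0) fun b : V D => by
      simpa using hT 1 (by linarith) le_rfl b 1 le_rfl
    rw [setLIntegral_measure_zero _ _ (by simpa [Bad] using this), mul_zero]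
  obtain ⟨ℓ, hℓ⟩ : ∃ ℓ, 1 - p = exp (-ℓ) := ⟨-log (1 - p), by rw [neg_neg, exp_log (by linarith)]⟩
  have hℓ1 : ℓ0 ≤ ℓ := by
    have : exp (-ℓ) ≤ exp (-ℓ0) := by linarith
    linarith [exp_le_exp.1 this]
  obtain ⟨k1, k2, k3, k4⟩ := hℓ0 ℓ hℓ1
  have hℓ2 : 0 < ℓ := hl0.trans_le hℓ1
  have a0 : 0 < β / ℓ := by positivity
  have a1 : β / ℓ ≤ 1 := (div_le_one hℓ2).2 k1
  rw [hℓ, ← exp_nat_mul, ← exp_add, exp_le_exp] at hb
  have hm := hM (β / ℓ) p lam a0 a1 (by
    rw [pow_one, ← le_div_iff₀' hℓ2, mul_div_assoc] at k3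
    linarith) p1 hl
  have hsum : ∑' j : ℕ, ENNReal.ofReal ((6 * D + 6) * exp (lam * (j + 1))) *
      ENNReal.ofReal (C * exp (η / 4 * (j + 1 : ℕ)) * (1 - p) ^ (D * (j + 1 + 1) + 1)) ^
        (1 - β / ℓ) ≤
      ENNReal.ofReal ((6 * D + 6) * (C + 1) * (exp (-ℓ) * exp (-lam)) * S) := by
    rw [hS1, ← tsum_geometric_of_lt_one (exp_pos _).le hq, ← tsum_mul_left,
      ENNReal.ofReal_tsum_of_nonneg (fun j => by positivity)
        ((summable_geometric_of_lt_one (exp_pos _).le hq).mul_left _)]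
    refine ENNReal.tsum_le_tsum fun j => ?_
    rw [hℓ, ENNReal.ofReal_rpow_of_nonneg (by positivity) (by linarith),
      ← ENNReal.ofReal_mul (by positivity), mul_assoc, mul_assoc (6 * (D : ℝ) + 6),
      mul_assoc (6 * (D : ℝ) + 6)]
    refine ENNReal.ofReal_le_ofReal (mul_le_mul_of_nonneg_left ?_ (by positivity))
    rw [hβ] at k1 ⊢
    exact term_le hC hη hℓ2 k1 (by linarith)
  refine le_trans (ENNReal.tsum_le_tsum fun q => mul_le_mul_right
    ((piece_le hG hP h2 h4 hS h0 p1 (ha.le.trans hl) a0.le a1 q.1 q.2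
      fun j b => hT p (by simp at k2; linarith) p1 b (j + 1) (by omega)).trans
      (mul_le_mul_right hsum _)) _) ?_
  simp only [← mul_assoc, ← pow_add]
  rw [ENNReal.tsum_mul_right]
  refine (mul_le_mul_left hm _).trans ?_
  rw [← ENNReal.ofReal_mul (by positivity)]
  refine ENNReal.ofReal_le_ofReal ?_
  rw [le_div_iff₀ hE0] at k4
  refine le_trans (le_of_eq ?_) (mul_le_mul_of_nonneg_right k4 (exp_pos (-lam)).le)
  rw [hE, div_pow]; field_simp

end Pool.Agent.MP_8c549f_pr
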