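import Mathlib.Data.Int.Star
import Mathlib.Analysis.Complex.ExponentialBounds
import Mathlib.Combinatorics.SimpleGraph.Basic
import Pool.Agent.MP_8c549f_pr.Base

-- ======== part 0: formerly Pool.Agent.MP_8c549f_pr.A6
section MrgPart0

/-!
Lateral displacement inside a slab.
-/

set_option autoImplicit false

namespace Pool.Agent.MP_8c549f_pr

open MeasureTheory Filter Topology Real
open scoped ENNReal NNReal

variable {D : ℕ}

namespace LatM

/-- covering lemma with a factor -/
theorem cover_fac {f : List (Step D) → ℝ≥0∞} {L P : Set (List (Step D))} (c : ℝ≥0∞)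
    (h : ∀ l ∈ L, ∃ u ∈ P, u <+: l)
    (hc : ∀ u ∈ P, SS {t | u ++ t ∈ L} (fun t => f (u ++ t)) ≤ c * f u) :
    SS L f ≤ c * SS P f := by
  calc SS L f ≤ SS (⋃ u : P, (fun t => u.1 ++ t) '' {t | u.1 ++ t ∈ L}) f := by
        refine SS_mono (fun l hl => ?_) fun _ _ => le_rfl
        obtain ⟨u, hu, t, rfl⟩ := h l hl
        exact Set.mem_iUnion.2 ⟨⟨u, hu⟩, t, hl, rfl⟩
    _ ≤ ∑' u : P, SS ((fun t => u.1 ++ t) '' {t | u.1 ++ t ∈ L}) f := SS_iUnion_le _ _
    _ ≤ ∑' u : P, c * f u := ENNReal.tsum_le_tsum fun u => by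
        rw [SS_image (List.append_right_injective u.1)]
        exact hc u.1 u.2
    _ = c * SS P f := by rw [ENNReal.tsum_mul_left, SS_eq_tsum_subtype]

/-- lists inside the slab that end at the first time the signed coordinate equals `c` -/
def LS (h : ℕ) (j : Fin D) (g c : ℤ) : Set (List (Step D)) :=
  {l | (∀ k ≤ l.length, 0 ≤ H l k ∧ H l k ≤ h) ∧ g * pos l j.succ = c ∧
    ∀ k < l.length, g * loc l k j.succ < c}

/-- lists of length `n` that leave the slab without going back laterally -/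
def Succ (n h : ℕ) (j : Fin D) (g : ℤ) : Set (List (Step D)) :=
  {l | l.length = n ∧ (∀ k ≤ n, 0 ≤ g * loc l k j.succ) ∧ (h : ℤ) < lev l}

theorem antich_LS (h : ℕ) (j : Fin D) (g c : ℤ) : Antich (LS h j g c) := by
  rintro u hu l hl ⟨t, rfl⟩
  by_contra hne
  have ht : 0 < t.length := by
    rcases t with _ | ⟨s, t⟩
    · simp at hne
    · simp
  have h1 := hl.2.2 u.length (by simp; omega)
  rw [loc_append_left t le_rfl, loc_length, hu.2.1] at h1
  exact lt_irrefl _ h1

theorem sgn_step {g : ℤ} (hg : g = 1 ∨ g = -1) (l : List (Step D)) (j : Fin (D + 1)) (i : ℕ) :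
    g * loc l (i + 1) j ≤ g * loc l i j + 1 := by
  have := loc_step l i j
  rcases hg with rfl | rfl <;> omega

theorem sgn_le {g : ℤ} (hg : g = 1 ∨ g = -1) (l : List (Step D)) (j : Fin (D + 1)) :
    g * pos l j ≤ l.length := by
  have := abs_loc_le l j l.length
  rw [loc_length] at this
  rcases hg with rfl | rfl <;> omega

theorem prefix_LS {h : ℕ} {j : Fin D} {g c c' : ℤ} (hg : g = 1 ∨ g = -1) (hc : 0 ≤ c)
    (hcc : c ≤ c') {l : List (Step D)} (hl : l ∈ LS h j g c') : ∃ u ∈ LS h j g c, u <+: l := by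
  obtain ⟨t, ht, h1, h2⟩ := exists_first_hit (fun i => g * loc l i j.succ)
    (sgn_step hg l j.succ) (c := c) (by simpa using hc) (n := l.length)
    (by simp only [loc_length]; rw [hl.2.1]; exact hcc)
  have hlen : (l.take t).length = t := by simp [ht]
  refine ⟨l.take t, ⟨fun k hk => ?_, ?_, fun k hk => ?_⟩, List.take_prefix t l⟩
  · rw [hlen] at hk
    rw [H_take l hk]
    exact hl.1 k (hk.trans ht)
  · rw [pos_take]; exact h1
  · rw [hlen] at hk
    rw [loc_take l hk.le]
    exact h2 k hk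

theorem len_tail {n h : ℕ} {j : Fin D} {g c : ℤ} (hg : g = 1 ∨ g = -1) {u t : List (Step D)}
    (hu : u ∈ LS h j g c) (ht : u ++ t ∈ LS h j g (c + (n + 1))) : n + 1 ≤ t.length := by
  have h1 := ht.2.1
  have h2 := sgn_le hg t j.succ
  rw [pos_append, Pi.add_apply, mul_add, hu.2.1] at h1
  omega

theorem antich_union {n h : ℕ} {j : Fin D} {g c : ℤ} (hg : g = 1 ∨ g = -1) {u : List (Step D)}
    (hu : u ∈ LS h j g c) :
    Antich ({t | u ++ t ∈ LS h j g (c + (n + 1))} ∪ Succ n h j g) := by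
  rintro a (ha | ha) b (hb | hb) hab
  · exact (antich_LS h j g _).tail u a ha b hb hab
  · have h1 := len_tail hg hu ha
    have h2 := hab.length_le
    have h3 := hb.1
    omega
  · exfalso
    obtain ⟨t, rfl⟩ := hab
    have h1 := (hb.1 (u.length + a.length) (by simp)).2
    rw [H_append_right, H_append_left t le_rfl, H_length] at h1
    have h2 := (hu.1 u.length le_rfl).1
    rw [H_length] at h2
    have h3 := ha.2.2
    omega
  · exact hab.eq_of_length (ha.1.trans hb.1.symm)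

theorem step_one (hFL : FLStmt) {p lam : ℝ} (h0 : 0 ≤ p) (h1 : p ≤ 1) {n h : ℕ} {j : Fin D}
    {g c : ℤ} (hg : g = 1 ∨ g = -1) {σ : ℝ≥0∞}
    (hσ : σ ≤ ENNReal.ofReal (p ^ n) * SS (Succ n h j g) (Wf lam)) {u : List (Step D)}
    (hu : u ∈ LS h j g c) :
    SS {t | u ++ t ∈ LS h j g (c + (n + 1))} (fun t => wb true p lam (u ++ t)) ≤
      (1 - σ) * wb true p lam u := by
  have hd : Disjoint {t | u ++ t ∈ LS h j g (c + (n + 1))} (Succ n h j g) := by
    rw [Set.disjoint_left]
    intro t ht ht'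
    have h2 := len_tail hg hu ht
    have h3 := ht'.1
    omega
  have hc := cont_wb true p lam (antich_union (n := n) hg hu) u
  rw [SS_union hd] at hc
  have hs : σ * wb true p lam u ≤ SS (Succ n h j g) (fun t => wb true p lam (u ++ t)) := by
    calc σ * wb true p lam u
        ≤ wb true p lam u * (ENNReal.ofReal (p ^ n) * SS (Succ n h j g) (Wf lam)) := by
          rw [mul_comm]; exact mul_le_mul_right hσ _
      _ = SS (Succ n h j g) (fun t => wb true p lam u * (ENNReal.ofReal (p ^ n) * Wf lam t)) := by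
          rw [SS_mul_left, SS_mul_left]
      _ ≤ _ := by
          refine SS_mono subset_rfl fun t ht => ?_
          have := hFL D p lam h0 h1 true u t fun i hi k hk e => ?_
          · rwa [ht.1] at this
          · have h2 := hu.2.2 i hi
            have h3 := ht.2.1 k (ht.1 ▸ hk)
            rw [e, Pi.add_apply, mul_add, hu.2.1] at h2
            omega
  have hfin : wb true p lam u ≠ ∞ :=
    ne_top_of_le_ne_top ENNReal.one_ne_top (wb_le_one true h0 h1 lam u)
  rw [ENNReal.sub_mul fun _ _ => hfin, one_mul]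
  refine ENNReal.le_sub_of_add_le_right ?_ (le_trans (add_le_add le_rfl hs) hc)
  exact ne_top_of_le_ne_top hfin (hs.trans (le_trans le_add_self hc))

theorem LS_le (hFL : FLStmt) {p lam : ℝ} (h0 : 0 ≤ p) (h1 : p ≤ 1) {n h : ℕ} {j : Fin D}
    {g : ℤ} (hg : g = 1 ∨ g = -1) {σ : ℝ≥0∞}
    (hσ : σ ≤ ENNReal.ofReal (p ^ n) * SS (Succ n h j g) (Wf lam)) (J : ℕ) :
    SS (LS h j g (J * (n + 1))) (wb true p lam) ≤ (1 - σ) ^ J := by
  induction J with
  | zero => rw [pow_zero]; exact kraft_wb true h0 h1 lam (antich_LS h j g _)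
  | succ J ih =>
    have e : ((J + 1 : ℕ) : ℤ) * (n + 1) = J * (n + 1) + (n + 1) := by push_cast; ring
    rw [e, pow_succ']
    refine le_trans (cover_fac (P := LS h j g (J * (n + 1))) (1 - σ) (fun l hl => ?_)
      fun u hu => step_one hFL h0 h1 hg hσ hu) (mul_le_mul_right ih _)
    exact prefix_LS hg (by positivity) (by omega) hl

/-- the sign attached to a Boolean -/
def sg (b : Bool) : ℤ := if b = true then 1 else -1

theorem sg_cases (b : Bool) : sg b = 1 ∨ sg b = -1 := by cases b <;> simp [sg]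

theorem le_rad (x : V D) (j : Fin D) : (x j.succ).natAbs ≤ rad x :=
  Finset.le_sup (f := fun j : Fin D => (x j.succ).natAbs) (Finset.mem_univ j)

theorem latSet_sub (hD : 1 ≤ D) (h r : ℕ) :
    LatSet D h r ⊆ ⋃ q : Fin D × Bool, LS h q.1 (sg q.2) r := by
  intro l hl
  obtain ⟨j, -, hj⟩ := Finset.exists_mem_eq_sup (Finset.univ : Finset (Fin D))
    ⟨⟨0, hD⟩, Finset.mem_univ _⟩ fun j : Fin D => (pos l j.succ).natAbs
  have h2 : r ≤ (pos l j.succ).natAbs := hj ▸ hl.2.1
  obtain ⟨b, hb⟩ : ∃ b : Bool, (r : ℤ) ≤ sg b * pos l j.succ := by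
    rcases le_total 0 (pos l j.succ) with h3 | h3
    · exact ⟨true, by simp only [sg, if_true]; omega⟩
    · exact ⟨false, by simp only [sg, Bool.false_eq_true, if_false]; omega⟩
  have hlt : ∀ k < l.length, sg b * loc l k j.succ < r := fun k hk => by
    have h3 := hl.2.2 k hk
    have h4 := le_rad (loc l k) j
    rcases sg_cases b with e | e <;> rw [e] <;> omega
  obtain ⟨t, ht, h3, -⟩ := exists_first_hit (fun i => sg b * loc l i j.succ)
    (sgn_step (sg_cases b) l j.succ) (c := r) (by simp) (n := l.length)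
    (by simpa only [loc_length] using hb)
  refine Set.mem_iUnion.2 ⟨(j, b), hl.1, ?_, hlt⟩
  rcases ht.eq_or_lt with rfl | ht'
  · simpa only [loc_length] using h3
  · exact absurd h3 (hlt t ht').ne

/-- the general bound -/
theorem lat_le (hFL : FLStmt) (hD : 1 ≤ D) {p lam : ℝ} (h0 : 0 ≤ p) (h1 : p ≤ 1) {n h : ℕ}
    {s : ℝ} (hs0 : 0 ≤ s) (hs1 : s ≤ 1)
    (hs : ∀ (j : Fin D) (g : ℤ), (g = 1 ∨ g = -1) →
      ENNReal.ofReal s ≤ ENNReal.ofReal (p ^ n) * SS (Succ n h j g) (Wf lam)) (J : ℕ) :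
    Lat D p lam h (J * (n + 1)) ≤ ENNReal.ofReal (2 * D * (1 - s) ^ J) := by
  calc Lat D p lam h (J * (n + 1))
      ≤ SS (⋃ q : Fin D × Bool, LS h q.1 (sg q.2) (J * (n + 1) : ℕ)) (wb true p lam) :=
        SS_mono (latSet_sub hD h _) fun _ _ => le_rfl
    _ ≤ ∑' q : Fin D × Bool, SS (LS h q.1 (sg q.2) (J * (n + 1) : ℕ)) (wb true p lam) :=
        SS_iUnion_le _ _
    _ ≤ ∑' _ : Fin D × Bool, (1 - ENNReal.ofReal s) ^ J := ENNReal.tsum_le_tsum fun q => by
        have := LS_le hFL h0 h1 (sg_cases q.2) (hs q.1 _ (sg_cases q.2)) J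
        push_cast
        exact this
    _ = ENNReal.ofReal (2 * D * (1 - s) ^ J) := by
        rw [tsum_fintype, Finset.sum_const, Finset.card_univ, Fintype.card_prod, Fintype.card_fin,
          Fintype.card_bool, nsmul_eq_mul, ENNReal.ofReal_mul (by positivity),
          ENNReal.ofReal_pow (by linarith), ENNReal.ofReal_sub _ hs0, ENNReal.ofReal_one]
        congr 1
        rw [show (2 : ℝ) * D = ((D * 2 : ℕ) : ℝ) by push_cast; ring, ENNReal.ofReal_natCast]

theorem pos_replicate (n : ℕ) : pos (List.replicate n (fwd D)) = Pi.single 0 (n : ℤ) := by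
  induction n with
  | zero => simp
  | succ n ih =>
    rw [List.replicate_succ, pos_cons, ih, vec_fwd, ← Pi.single_add]
    push_cast
    rw [add_comm (1 : ℤ)]

theorem small_exp {κ : ℝ} (hκ : 0 < κ) {n : ℝ} (h1 : 1 ≤ n) (hn : 8 / κ ^ 2 ≤ n) :
    exp (-(κ * n)) ≤ 1 / (2 * (n + 1)) := by
  rw [exp_neg, one_div]
  refine inv_anti₀ (by positivity) ?_
  have h2 := Real.quadratic_le_exp_of_nonneg (x := κ * n) (by positivity)
  rw [div_le_iff₀ (by positivity)] at hn
  have h3 : 0 ≤ κ * n := by positivity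
  nlinarith [mul_le_mul_of_nonneg_left hn (by linarith : (0 : ℝ) ≤ n)]

end LatM

open LatM

theorem lat2 (hFL : FLStmt) : LAT2Stmt := by
  intro D hD p lam h0 h1 h J
  have hZ := Zf_pos D lam
  have hq : p * exp lam / Zf D lam ≤ 1 := by
    rw [div_le_one hZ]
    have h2 : p * exp lam ≤ exp lam := mul_le_of_le_one_left (exp_pos lam).le h1
    have h3 := exp_pos (-lam)
    have h4 : (0 : ℝ) ≤ D := Nat.cast_nonneg D
    unfold Zf
    linarith
  refine lat_le hFL hD h0 h1 (n := h + 1) (by positivity) (pow_le_one₀ (by positivity) hq)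
    (fun j g _ => ?_) J
  have hm : List.replicate (h + 1) (fwd D) ∈ Succ (h + 1) h j g := by
    refine ⟨by simp, fun k _ => ?_, ?_⟩
    · rw [loc, List.take_replicate, pos_replicate]; simp
    · rw [lev, pos_replicate]; simp
  refine le_trans (le_of_eq ?_) (mul_le_mul_right (le_SS _ hm) _)
  rw [Wf_eq, ← ENNReal.ofReal_mul (by positivity), lev, pos_replicate, List.length_replicate,
    Pi.single_eq_same, div_pow, mul_pow, ← exp_nat_mul]
  congr 1
  push_cast
  rw [mul_comm lam]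
  ring

theorem lat1 (hFL : FLStmt) (hF1 : F1Stmt) (hF2 : F2Stmt) (hF4 : F4Stmt) : LAT1Stmt := by
  intro D hD a ha
  obtain ⟨c, hc, hc'⟩ := hF4 D a ha
  refine ⟨⌈2 / c + 8 / (c * a / 2) ^ 2⌉₊ + 1, by omega, fun p lam h0 h1 hl h J => ?_⟩
  set C := ⌈2 / c + 8 / (c * a / 2) ^ 2⌉₊ + 1 with hC
  have hC1 : 2 / c + 8 / (c * a / 2) ^ 2 ≤ C := by
    rw [hC]; push_cast; linarith [Nat.le_ceil (2 / c + 8 / (c * a / 2) ^ 2)]
  have hC0 : (1 : ℝ) ≤ C := by exact_mod_cast (show 1 ≤ C by omega)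
  have hp1 : 0 < 2 / c := by positivity
  have hp2 : 0 < 8 / (c * a / 2) ^ 2 := by positivity
  have hC2 : 2 ≤ c * C := by
    have : 2 / c ≤ C := by linarith
    rw [div_le_iff₀ hc] at this
    linarith
  have hh : (0 : ℝ) ≤ h := Nat.cast_nonneg h
  have hlam : 0 < lam := ha.trans_le hl
  set n := C * (h + 1) with hn
  have hnR : (n : ℝ) = C * (h + 1) := by rw [hn]; push_cast; ring
  have hCn : (C : ℝ) ≤ n := by rw [hnR]; nlinarith
  have hsmall : exp (lam * (h : ℤ)) * ((2 * D + 2) / Zf D lam) ^ n ≤ 1 / (2 * (n + 1)) := by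
    have hZ := Zf_pos D lam
    calc exp (lam * (h : ℤ)) * ((2 * D + 2) / Zf D lam) ^ n
        ≤ exp (lam * (h : ℤ)) * exp (-c * lam) ^ n := by
          gcongr
          exact hc' lam hl
      _ ≤ exp (-(c * a / 2 * n)) := by
          rw [← exp_nat_mul, ← exp_add, exp_le_exp, hnR]
          push_cast
          have e1 : lam * (h + 1) * 2 ≤ lam * (h + 1) * (c * C) :=
            mul_le_mul_of_nonneg_left hC2 (by positivity)
          have e2 : a * (c * C * (h + 1)) ≤ lam * (c * C * (h + 1)) :=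
            mul_le_mul_of_nonneg_right hl (by positivity)
          nlinarith
      _ ≤ 1 / (2 * (n + 1)) := small_exp (by positivity) (by linarith) (by linarith)
  have hpn : p ^ n ≤ 1 := pow_le_one₀ h0 h1
  have hn0 : (0 : ℝ) ≤ n := Nat.cast_nonneg n
  have hs1 : p ^ n / (2 * (n + 1)) ≤ 1 := by
    rw [div_le_one (by positivity)]; linarith
  refine le_trans (lat_le hFL hD h0 h1 (n := n) (s := p ^ n / (2 * (n + 1))) (by positivity) hs1
    (fun j g hg => ?_) J) (ENNReal.ofReal_le_ofReal ?_)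
  · rw [div_eq_mul_one_div, ENNReal.ofReal_mul (by positivity)]
    refine mul_le_mul_right ?_ _
    have e1 := hF1 D lam j g hg n
    have e2 := (hF2 D lam hlam.le n h).trans (ENNReal.ofReal_le_ofReal hsmall)
    have e3 : SS {l : List (Step D) | l.length = n ∧ ∀ k ≤ n, 0 ≤ g * loc l k j.succ} (Wf lam) ≤
        SS (Succ n h j g) (Wf lam) + SS {l : List (Step D) | l.length = n ∧ lev l ≤ h} (Wf lam) := by
      refine le_trans (SS_mono (fun l hl => ?_) fun _ _ => le_rfl) (SS_union_le _ _ _)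
      rcases lt_or_ge (h : ℤ) (lev l) with e | e
      · exact Or.inl ⟨hl.1, hl.2, e⟩
      · exact Or.inr ⟨hl.1, e⟩
    have e4 := e1.trans (e3.trans (add_le_add le_rfl e2))
    rw [show 1 / ((n : ℝ) + 1) = 1 / (2 * (n + 1)) + 1 / (2 * (n + 1)) by field_simp; ring,
      ENNReal.ofReal_add (by positivity) (by positivity)] at e4
    exact (ENNReal.add_le_add_iff_right ENNReal.ofReal_ne_top).1 e4
  · rw [← hnR]
    refine mul_le_mul_of_nonneg_left ?_ (by positivity)
    rw [← mul_neg, exp_nat_mul]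
    refine pow_le_pow_left₀ (by linarith) ?_ J
    linarith [Real.add_one_le_exp (-(p ^ n / (2 * (n + 1))))]

end Pool.Agent.MP_8c549f_pr

/-!
The probability of a return below the starting level after a given height.
-/

set_option autoImplicit false

namespace Pool.Agent.MP_8c549f_pr

open MeasureTheory Filter Topology Real
open scoped ENNReal NNReal

namespace RetM

variable {D : ℕ}

theorem card_Box (D m r : ℕ) : (Box D m r).card = m * (2 * r + 1) ^ D := by
  rw [Box, Fintype.card_piFinset, Fin.prod_univ_succ]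
  simp only [if_true, Fin.succ_ne_zero, if_false, Int.card_Ico, Int.card_Icc, Finset.prod_const,
    Finset.card_univ, Fintype.card_fin]
  congr 2
  omega

theorem antich_ret (i : ℕ) : Antich (RetSet D i) := by
  rintro u hu l hl ⟨t, rfl⟩
  by_contra hne
  have h1 : u.length < (u ++ t).length := by
    rcases t with _ | ⟨s, t⟩
    · simp at hne
    · simp
  have h2 := (hl.2.1 _ h1).1
  rw [H_append_left t le_rfl, H_length, hu.1] at h2
  omega

/-- returns whose departure sites lie in the box -/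
def RB (D i r : ℕ) : Set (List (Step D)) :=
  {l | l ∈ RetSet D i ∧ ∀ k < l.length, loc l k ∈ Box D (i + 1) r}

theorem ret_split (p lam : ℝ) (i r : ℕ) :
    Ret D p lam i ≤ SS (RB D i r) (wb true p lam) + Lat D p lam i (r + 1) := by
  classical
  rw [Ret, SS_split _ (RB D i r)]
  refine add_le_add (SS_mono Set.inter_subset_right fun _ _ => le_rfl)
    (cover_wb true p lam ((antich_ret i).mono Set.sdiff_subset) fun l hl => ?_)
  obtain ⟨h1, h2⟩ := hl
  have hex : ∃ k, k < l.length ∧ r + 1 ≤ rad (loc l k) := by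
    by_contra h
    push Not at h
    refine h2 ⟨h1, fun k hk => mem_Box.2 ⟨(h1.2.1 k hk).1, ?_, by have := h k hk; omega⟩⟩
    have := (h1.2.1 k hk).2
    rw [H] at this
    push_cast; omega
  obtain ⟨h3, h4⟩ := Nat.find_spec hex
  have h5 : (l.take (Nat.find hex)).length = Nat.find hex := by rw [List.length_take]; omega
  refine ⟨l.take (Nat.find hex), ⟨fun k hk => ?_, h4, fun k hk => ?_⟩, List.take_prefix _ _⟩
  · rw [h5] at hk
    rw [H_take l hk]
    exact h1.2.1 k (by omega)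
  · rw [h5] at hk
    rw [loc_take l hk.le]
    have := Nat.find_min hex hk
    omega

/-- a sum over lists that have an initial segment in an antichain -/
theorem SS_le_of_prefix (lam : ℝ) (ω : Cfg D) {L P : Set (List (Step D))} (hP : Antich P)
    {c : ℝ≥0∞} (h : ∀ l ∈ L, W lam ω 0 l ≠ 0 → ∃ u ∈ P, u <+: l)
    (hc : ∀ u ∈ P, SS {t | u ++ t ∈ L} (W lam ω (pos u)) ≤ c) : SS L (W lam ω 0) ≤ c := by
  calc SS L (W lam ω 0) ≤ SS (⋃ u : P, (fun t => u.1 ++ t) '' {t | u.1 ++ t ∈ L}) (W lam ω 0) := by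
        refine SS_mono' fun l hl h0 => ?_
        obtain ⟨u, hu, t, rfl⟩ := h l hl h0
        exact Set.mem_iUnion.2 ⟨⟨u, hu⟩, t, hl, rfl⟩
    _ ≤ ∑' u : P, SS ((fun t => u.1 ++ t) '' {t | u.1 ++ t ∈ L}) (W lam ω 0) := SS_iUnion_le _ _
    _ ≤ ∑' u : P, c * W lam ω 0 u := ENNReal.tsum_le_tsum fun u => by
        rw [SS_image (List.append_right_injective u.1)]
        simp only [W_append, zero_add]
        rw [SS_mul_left, mul_comm]
        exact mul_le_mul' (hc u u.2) le_rfl
    _ = c * SS P (W lam ω 0) := by rw [ENNReal.tsum_mul_left, SS_eq_tsum_subtype]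
    _ ≤ c := mul_le_of_le_one_right' (kraft lam ω hP 0)

/-- leaving `B` through its bottom -/
theorem exit_le (lam : ℝ) (ω : Cfg D) (B : Finset (V D)) (x : V D) {c : ℝ≥0∞}
    (hc : ∀ y : V D, y 0 = 0 → Gb lam ω B x y * ENNReal.ofReal (pr lam ω y (bck D)) ≤ c) :
    SS ((fun t => t ++ [bck D]) '' {t | (∀ k ≤ t.length, x + loc t k ∈ B) ∧ (x + pos t) 0 = 0})
      (W lam ω x) ≤ B.card * c := by
  classical
  rw [SS_image (List.append_left_injective _), SS_fiber _ fun t => x + pos t]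
  refine le_trans (ENNReal.tsum_le_tsum (g := fun y => if y ∈ B then c else 0) fun y => ?_) ?_
  · by_cases hy : y ∈ B ∧ y 0 = 0
    · rw [if_pos hy.1]
      refine le_trans ?_ (hc y hy.2)
      rw [Gb, mul_comm, ← SS_mul_left]
      refine SS_mono (fun t ht => ⟨ht.1.1, ht.2⟩) fun t ht => ?_
      rw [W_append, W_single, ht.2, mul_comm]
    · refine le_trans (SS_mono (B := ∅) (fun t ht => hy ?_) fun _ _ => le_rfl) (by simp)
      have h1 := ht.1.1 t.length le_rfl
      rw [loc_length] at h1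
      exact ht.2 ▸ ⟨h1, ht.1.2⟩
  · rw [tsum_eq_sum (s := B) fun y hy => if_neg hy, Finset.sum_ite_of_true fun _ h => h]
    simp

/-- the configurations with a trap -/
def Bad (i r : ℕ) (ω : Cfg D) : Prop :=
  (i = 0 ∧ ω (edge 0 (fwd D)) = false) ∨ (1 ≤ i ∧ ∃ b ∈ Box D (i + 1) r, Trap ω b i)

theorem esc_top (hesc : ESCStmt) (hgeo : GEOStmt) {lam : ℝ} {ω : Cfg D} {i r : ℕ}
    (hb : ¬ Bad i r ω) {l : List (Step D)} (hl : l ∈ RetSet D i) (hW : W lam ω 0 l ≠ 0) {T : ℕ}
    (hT : T < l.length) (h1 : H l T = i) (h2 : ∀ k < T, H l k < i) :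
    Esc ω (Box D (i + 1) r) (loc l T) i := by
  have hop := (W_ne_zero_iff lam ω l 0).1 hW
  simp only [zero_add] at hop
  rcases Nat.eq_zero_or_pos i with rfl | hi
  · have h3 : T = 0 := by
      by_contra h
      have := h2 0 (by omega)
      simp at this
    have h4 : ω (edge 0 (fwd D)) = true := by
      by_contra h
      exact hb (Or.inl ⟨rfl, by simpa using h⟩)
    subst h3
    refine hesc D ω _ _ _ [fwd D] (by simp [mem_Box]) fun k hk => ?_
    obtain rfl : k = 0 := by simpa using hk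
    simpa [expo] using h4
  · by_contra hne
    have h3 : Esc ω (Box D (i + 1) r) (loc l T) (-1) := by
      refine hesc D ω _ _ _ (l.drop T) ?_ fun k hk => ?_
      · have e1 : loc l T + pos (l.drop T) = pos l := by
          rw [← pos_take, ← pos_append, List.take_append_drop]
        rw [e1, mem_Box]
        have := hl.1
        rw [lev] at this
        omega
      · have e1 : T + k < l.length := by rw [List.length_drop] at hk; omega
        rw [← loc_drop, List.getElem_drop]
        refine ⟨hop _ e1, ?_⟩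
        have e2 := (hl.2.1 _ e1).1
        have e3 := (vec_bounds l[T + k] 0).1
        rw [H] at e2
        rw [expo]; omega
    obtain ⟨T, rfl⟩ : ∃ T', T = T' + 1 := ⟨T - 1, by
      rcases T with _ | T
      · simp at h1; omega
      · rfl⟩
    have h4 : T < l.length := by omega
    have h5 : l[T] = fwd D := by
      have e1 := H_succ h4
      have e2 := h2 T (by omega)
      have e3 := (vec_bounds l[T] 0).2
      exact vec_zero_eq_one.1 (by omega)
    have h6 : ω (edge (loc l (T + 1)) (bck D)) = true := by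
      have e1 := hop T h4
      rw [← edge_rev, ← loc_succ h4, h5] at e1
      exact e1
    obtain ⟨b, h7, h8⟩ := hgeo D ω _ _ (bck D) _ i (i - 1) h3 h6 (by
      rw [H] at h1
      rw [expo, h1, vec_bck_zero]; omega) hne
    rw [Nat.sub_add_cancel hi] at h8
    exact hb (Or.inr ⟨hi, b, h7, h8⟩)

theorem quenched (hres : RESStmt) (hesc : ESCStmt) (hgeo : GEOStmt) {lam : ℝ} (hlam : 0 ≤ lam)
    {ω : Cfg D} {i r : ℕ} (hb : ¬ Bad i r ω) : SS (RB D i r) (W lam ω 0) ≤
      ENNReal.ofReal (((Box D (i + 1) r).card : ℝ) ^ 3 * exp (-lam * (i + 1))) := by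
  refine SS_le_of_prefix lam ω
    (P := {u | Rec u ∧ lev u = i ∧ Esc ω (Box D (i + 1) r) (pos u) i}) ?_ ?_ ?_
  · rintro u hu l hl ⟨t, rfl⟩
    by_contra hne
    have h1 : u.length < (u ++ t).length := by
      rcases t with _ | ⟨s, t⟩
      · simp at hne
      · simp
    have h2 := hl.1 _ h1
    rw [H_append_left t le_rfl, H_length, hu.2.1, hl.2.1] at h2
    omega
  · intro l hl hW
    obtain ⟨k, hk, h1⟩ := hl.1.2.2
    obtain ⟨T, h2, h3, h4⟩ := exists_first_hit (H l) (fun j => (H_step l j).2) (c := i)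
      (by simp) h1.ge
    have h5 : (l.take T).length = T := by rw [List.length_take]; omega
    refine ⟨l.take T, ⟨fun j hj => ?_, h3, ?_⟩, List.take_prefix _ _⟩
    · rw [h5] at hj
      rw [H_take l hj.le, lev_take, h3]
      exact h4 j hj
    · exact esc_top hesc hgeo hb hl.1 hW (by omega) h3 h4
  · rintro u ⟨-, h1, h2⟩
    refine le_trans (SS_mono (fun t ht => ?_) fun _ _ => le_rfl)
      ((exit_le lam ω (Box D (i + 1) r) (pos u) (c := ENNReal.ofReal
        (((Box D (i + 1) r).card : ℝ) ^ 2 * exp (-lam * (i + 1)))) fun y hy => ?_).trans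
        (le_of_eq ?_))
    · obtain ⟨⟨h3, h4, -⟩, h5⟩ := ht
      rcases List.eq_nil_or_concat t with rfl | ⟨t, s, rfl⟩
      · rw [List.append_nil, h1] at h3; omega
      rw [List.concat_eq_append] at h3 h4 h5 ⊢
      have h6 : ∀ k ≤ t.length, loc (u ++ (t ++ [s])) (u.length + k) = pos u + loc t k :=
        fun k hk => by rw [loc_append_right, loc_append_left _ hk]
      have h7 := (h4 (u.length + t.length) (by simp)).1
      rw [H, h6 _ le_rfl, loc_length] at h7
      have h8 : (pos u + pos t) 0 + vec s 0 = -1 := by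
        rw [← h3]; simp [lev, add_assoc]
      have h9 := (vec_bounds s 0).1
      obtain rfl : s = bck D := vec_zero_eq_neg_one.1 (by omega)
      refine ⟨t, ⟨fun k hk => ?_, by omega⟩, rfl⟩
      rw [← h6 k hk]
      exact h5 _ (by simp; omega)
    · refine (hres D lam hlam ω _ _ y (bck D) i h2).trans (le_of_eq ?_)
      rw [expo, hy, vec_bck_zero]
      push_cast
      congr 3
      ring
    · rw [← ENNReal.ofReal_natCast, ← ENNReal.ofReal_mul (Nat.cast_nonneg _)]
      congr 1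
      ring

theorem annealed (hres : RESStmt) (hesc : ESCStmt) (hgeo : GEOStmt) {p lam : ℝ} (h0 : 0 ≤ p)
    (h1 : p ≤ 1) (hlam : 0 ≤ lam) (i r : ℕ) : SS (RB D i r) (wb true p lam) ≤
      ENNReal.ofReal (((Box D (i + 1) r).card : ℝ) ^ 3 * exp (-lam * (i + 1))) +
        perc D p {ω | Bad i r (plus ω)} := by
  have := perc_prob D h0 h1
  rw [SS_wb]
  refine le_trans (lintegral_mono (g := fun ω => ENNReal.ofReal (((Box D (i + 1) r).card : ℝ) ^ 3 *
    exp (-lam * (i + 1))) + {ω | Bad i r (plus ω)}.indicator 1 ω) fun ω => ?_) ?_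
  · by_cases hb : Bad i r (plus ω)
    · refine le_trans (kraft lam _ ((antich_ret i).mono fun l hl => hl.1) 0) ?_
      dsimp only
      rw [Set.indicator_of_mem (by exact hb)]
      exact le_add_self
    · exact (quenched hres hesc hgeo hlam hb).trans le_self_add
  · rw [lintegral_add_left measurable_const, lintegral_const, measure_univ, mul_one]
    exact add_le_add le_rfl (lintegral_indicator_one_le _)

theorem bad_le (hplus : PLUSStmt) {p : ℝ} (h0 : 0 ≤ p) (h1 : p ≤ 1) (i r : ℕ) {c : ℝ}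
    (hc0 : i = 0 → 1 - p ≤ c)
    (hc : 1 ≤ i → ∀ b : V D, perc D p {ω | Trap ω b i} ≤ ENNReal.ofReal c) :
    perc D p {ω | Bad i r (plus ω)} ≤ ENNReal.ofReal ((Box D (i + 1) r).card * c) := by
  rcases Nat.eq_zero_or_pos i with rfl | hi
  · refine le_trans (measure_mono (t := {ω | ω (edge 0 (fwd D)) = false}) fun ω h => ?_) ?_
    · rcases h with h | h
      · have h2 := h.2
        rwa [plus_of_ne] at h2
        intro h3
        rcases edge_eq_iff.1 h3 with h4 | h4
        · simpa [fwd, bck] using h4.2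
        · exact vec_ne_zero _ (by simpa using h4.1.symm)
      · omega
    · rw [perc_edge h0 h1]
      refine ENNReal.ofReal_le_ofReal ?_
      have h2 : (1 : ℝ) ≤ (Box D (0 + 1) r).card := by
        rw [card_Box]
        exact_mod_cast Nat.one_le_iff_ne_zero.2 (by positivity)
      have h3 := hc0 rfl
      nlinarith
  · refine le_trans (measure_mono (t := ⋃ b ∈ Box D (i + 1) r, {ω | Trap ω b i}) fun ω h => ?_)
      ((measure_biUnion_finset_le _ _).trans ?_)
    · rcases h with h | ⟨-, b, h2, h3⟩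
      · omega
      · exact Set.mem_biUnion h2 ((hplus D ω b i (mem_Box.1 h2).1).1 h3)
    · refine (Finset.sum_le_card_nsmul _ _ _ fun b _ => hc hi b).trans (le_of_eq ?_)
      rw [nsmul_eq_mul, ENNReal.ofReal_mul (Nat.cast_nonneg _), ENNReal.ofReal_natCast]

theorem exp_le_pow {p : ℝ} (h0 : 1 / 2 ≤ p) (h1 : p ≤ 1) (n : ℕ) :
    1 ≤ exp (2 * (1 - p) * n) * p ^ n := by
  rw [mul_comm _ (n : ℝ), exp_nat_mul, ← mul_pow]
  refine one_le_pow₀ ?_
  have := add_one_le_exp (2 * (1 - p))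
  nlinarith

/-- choice of the width of the box -/
theorem width (D C : ℕ) (hC : 1 ≤ C) {a : ℝ} (ha : 0 < a) : ∃ K e₀ : ℝ, 0 < K ∧ 0 < e₀ ∧
    ∀ (p y : ℝ) (m : ℕ), 1 - e₀ ≤ p → p ≤ 1 → 1 ≤ m → a * m ≤ y → ∃ J r : ℕ,
      r + 1 = J * (C * m + 1) ∧ y ≤ J * (p ^ (C * m) / (2 * (C * m + 1))) ∧
        ((m * (2 * r + 1) ^ D : ℕ) : ℝ) ≤ K * exp (y / 12) := by
  obtain ⟨δ, hδ⟩ : ∃ δ : ℝ, δ = 1 / (12 * (4 * D + 1)) := ⟨_, rfl⟩
  have hδ0 : 0 < δ := by rw [hδ]; positivity
  have hC' : (1 : ℝ) ≤ C := by exact_mod_cast hC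
  obtain ⟨b, hb⟩ : ∃ b : ℝ, b = 1 / (δ * a) := ⟨_, rfl⟩
  have hb0 : 0 < b := by rw [hb]; positivity
  refine ⟨b * (2 * (4 * C * b / δ + 1) * (2 * C * b)) ^ D, min (1 / 2) (δ * a / (2 * C)),
    by positivity, by positivity, fun p y m h0 h1 hm hy => ?_⟩
  have hp : 1 / 2 ≤ p := by linarith [min_le_left (1 / 2 : ℝ) (δ * a / (2 * C))]
  have hp' : (1 - p) * (2 * C) ≤ δ * a := by
    rw [← le_div_iff₀ (by positivity)]
    linarith [min_le_right (1 / 2 : ℝ) (δ * a / (2 * C))]
  have hm' : (1 : ℝ) ≤ m := by exact_mod_cast hm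
  have hy0 : 0 < y := lt_of_lt_of_le (by positivity) hy
  obtain ⟨E, hE⟩ : ∃ E : ℝ, E = exp (δ * y) := ⟨_, rfl⟩
  have hE1 : 1 ≤ E := hE ▸ one_le_exp (by positivity)
  have hE2 : y ≤ E / δ := by
    rw [le_div_iff₀ hδ0, hE]
    linarith [add_one_le_exp (δ * y)]
  have hE3 : (m : ℝ) ≤ b * E := by
    rw [hb, div_mul_eq_mul_div, le_div_iff₀ (by positivity)]
    rw [le_div_iff₀ hδ0] at hE2
    nlinarith
  have hE4 : (C : ℝ) * m + 1 ≤ 2 * C * b * E := by
    have := mul_le_mul_of_nonneg_left hE3 (by positivity : (0 : ℝ) ≤ 2 * C)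
    nlinarith
  have hE5 : 1 ≤ E * p ^ (C * m) := by
    refine (exp_le_pow hp h1 (C * m)).trans (mul_le_mul_of_nonneg_right ?_ (by positivity))
    rw [hE]
    refine exp_le_exp.2 ?_
    push_cast
    nlinarith [mul_le_mul_of_nonneg_right hp' (by positivity : (0 : ℝ) ≤ m),
      mul_le_mul_of_nonneg_left hy hδ0.le]
  obtain ⟨s, hs⟩ : ∃ s : ℝ, s = p ^ (C * m) / (2 * (C * m + 1)) := ⟨_, rfl⟩
  have hs0 : 0 < s := by rw [hs]; positivity
  have hJ1 : 1 ≤ ⌈y / s⌉₊ := Nat.one_le_iff_ne_zero.2 (Nat.ceil_pos.2 (by positivity)).ne'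
  have hJ2 : (⌈y / s⌉₊ : ℝ) ≤ (4 * C * b / δ + 1) * E ^ 3 := by
    have e1 : 1 / s ≤ E * (2 * (2 * C * b * E)) := by
      rw [hs, one_div_div, div_le_iff₀ (by positivity)]
      calc 2 * ((C : ℝ) * m + 1) ≤ 2 * (2 * C * b * E) * 1 := by linarith
        _ ≤ 2 * (2 * C * b * E) * (E * p ^ (C * m)) :=
          mul_le_mul_of_nonneg_left hE5 (by positivity)
        _ = _ := by ring
    have e2 : y / s ≤ E / δ * (E * (2 * (2 * C * b * E))) := by
      rw [div_eq_mul_one_div]
      exact mul_le_mul hE2 e1 (by positivity) (by positivity)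
    have e3 : E / δ * (E * (2 * (2 * C * b * E))) = 4 * C * b / δ * E ^ 3 := by ring
    have e4 : 1 ≤ E ^ 3 := one_le_pow₀ hE1
    have e5 := (Nat.ceil_lt_add_one (by positivity : 0 ≤ y / s)).le
    linarith
  have hr : 1 ≤ ⌈y / s⌉₊ * (C * m + 1) := Nat.mul_pos hJ1 (Nat.succ_pos _)
  refine ⟨⌈y / s⌉₊, ⌈y / s⌉₊ * (C * m + 1) - 1, by omega, ?_, ?_⟩
  · rw [← hs, ← div_le_iff₀ hs0]
    exact Nat.le_ceil _
  · have e1 : ((2 * (⌈y / s⌉₊ * (C * m + 1) - 1) + 1 : ℕ) : ℝ) ≤
        2 * (4 * C * b / δ + 1) * (2 * C * b) * E ^ 4 := by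
      have e2 : 2 * (⌈y / s⌉₊ * (C * m + 1) - 1) + 1 ≤ 2 * (⌈y / s⌉₊ * (C * m + 1)) := by omega
      refine ((Nat.cast_le (α := ℝ)).2 e2).trans ?_
      push_cast
      have := mul_le_mul hJ2 hE4 (by positivity) (by positivity)
      nlinarith
    rw [Nat.cast_mul, Nat.cast_pow]
    refine (mul_le_mul hE3 (pow_le_pow_left₀ (Nat.cast_nonneg _) e1 D) (by positivity)
      (by positivity)).trans (le_of_eq ?_)
    have e3 : exp (y / 12) = E ^ (4 * D + 1) := by
      rw [hE, ← exp_nat_mul, hδ]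
      congr 1
      push_cast
      field_simp
    rw [e3, mul_pow _ (E ^ 4), ← pow_mul]
    ring

end RetM

open RetM in
theorem ret (hres : RESStmt) (hesc : ESCStmt) (hgeo : GEOStmt) (hplus : PLUSStmt)
    (htrap : TRAPStmt) (hlat : LAT1Stmt) : RETStmt := by
  intro D hD a ha
  obtain ⟨C, hC, hlat⟩ := hlat D hD a ha
  obtain ⟨C', e₁, hC', he₁, htrap⟩ := htrap D hD (a / 4) (by positivity)
  obtain ⟨K, e₂, hK, he₂, hw⟩ := width D C hC ha
  refine ⟨K ^ 3 + K * (C' + 1) + 2 * D, min 1 (min e₁ e₂), by positivity, by positivity,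
    fun p lam μ h0 h1 h2 h3 h4 i => ?_⟩
  have hp0 : 0 ≤ p := by linarith [min_le_left 1 (min e₁ e₂)]
  have hp1 : 1 - e₁ ≤ p := by
    linarith [(min_le_right 1 (min e₁ e₂)).trans (min_le_left e₁ e₂)]
  have hp2 : 1 - e₂ ≤ p := by
    linarith [(min_le_right 1 (min e₁ e₂)).trans (min_le_right e₁ e₂)]
  have hi : (0 : ℝ) ≤ i := Nat.cast_nonneg i
  obtain ⟨y, hy⟩ : ∃ y : ℝ, y = μ * (i + 1) := ⟨_, rfl⟩
  have hy1 : a * (i + 1) ≤ y := hy ▸ mul_le_mul_of_nonneg_right h2 (by positivity)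
  have hy0 : 0 < y := lt_of_lt_of_le (by positivity) hy1
  obtain ⟨J, r, e1, e2, e3⟩ := hw p y (i + 1) hp2 h1 (by omega) (by push_cast; exact hy1)
  rw [← card_Box] at e3
  have hl := hlat p lam hp0 h1 (h2.trans h3) i J
  rw [← e1] at hl
  have hb := bad_le (D := D) hplus hp0 h1 i r (c := (C' + 1) * exp (y / 4 - y)) (fun h => by
    subst h
    have e4 : exp (-μ) ≤ exp (y / 4 - y) := exp_le_exp.2 (by
      simp only [Nat.cast_zero, zero_add, mul_one] at hy
      linarith)
    nlinarith [exp_pos (y / 4 - y)]) fun h b => (htrap p hp1 h1 b i h).trans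
      (ENNReal.ofReal_le_ofReal (by
        have e4 : (1 - p) ^ (D * (i + 1) + 1) ≤ exp (-y) := by
          refine (pow_le_pow_of_le_one (by linarith) (by linarith)
            ((Nat.le_mul_of_pos_left (i + 1) hD).trans (Nat.le_succ _))).trans ?_
          refine (pow_le_pow_left₀ (by linarith) h4 _).trans (le_of_eq ?_)
          rw [← exp_nat_mul, hy]
          congr 1
          push_cast
          ring
        have e5 : exp (a / 4 * i) ≤ exp (y / 4) := exp_le_exp.2 (by nlinarith)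
        rw [sub_eq_add_neg (y / 4), exp_add, ← mul_assoc]
        exact mul_le_mul (mul_le_mul (by linarith) e5 (by positivity) (by positivity)) e4
          (pow_nonneg (by linarith) _) (by positivity)))
  refine (ret_split p lam i r).trans ((add_le_add ((annealed hres hesc hgeo hp0 h1
    (by linarith) i r).trans (add_le_add le_rfl hb)) hl).trans ?_)
  rw [← ENNReal.ofReal_add (by positivity) (by positivity),
    ← ENNReal.ofReal_add (by positivity) (by positivity)]
  refine ENNReal.ofReal_le_ofReal ?_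
  rw [show -μ * (i + 1) / 2 = -(y / 2) by rw [hy]; ring, add_mul (K ^ 3 + _),
    add_mul (K ^ 3)]
  refine add_le_add (add_le_add ?_ ?_) ?_
  · have e4 : exp (-lam * (i + 1)) ≤ exp (-y) := exp_le_exp.2 (by
      rw [hy]; nlinarith)
    refine (mul_le_mul (pow_le_pow_left₀ (Nat.cast_nonneg _) e3 3) e4 (by positivity)
      (by positivity)).trans ?_
    rw [mul_pow, mul_assoc, ← exp_nat_mul, ← exp_add]
    exact mul_le_mul_of_nonneg_left (exp_le_exp.2 (by push_cast; linarith)) (by positivity)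
  · refine (mul_le_mul_of_nonneg_right e3 (by positivity)).trans ?_
    rw [mul_mul_mul_comm, ← exp_add]
    exact mul_le_mul_of_nonneg_left (exp_le_exp.2 (by linarith)) (by positivity)
  · refine mul_le_mul_of_nonneg_left (exp_le_exp.2 ?_) (by positivity)
    push_cast at e2
    linarith

end Pool.Agent.MP_8c549f_pr

/-!
Exponential tail of the height of the first cut.
-/

set_option autoImplicit false

namespace Pool.Agent.MP_8c549f_pr

open MeasureTheory Filter Topology Real Finset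
open scoped ENNReal NNReal

namespace Ht

theorem rec_bound {u φ θ : ℝ} {R : ℕ → ℝ} (hu : 0 ≤ u) (hφ : 0 ≤ φ) (hR : ∀ i, 0 ≤ R i)
    (h : ∀ m, u * exp θ + φ * ∑ i ∈ range m, R i * exp (θ * (i + 2)) ≤ 1) {A : ℕ → ℝ≥0∞}
    (h0 : A 0 ≤ 1) (h1 : ∀ m, A (m + 1) ≤ ENNReal.ofReal u * A m +
      ENNReal.ofReal φ * ∑ M ∈ range m, A M * ENNReal.ofReal (R (m - 1 - M))) (m : ℕ) :
    A m ≤ ENNReal.ofReal (exp (-θ * m)) := by
  induction m using Nat.strong_induction_on with
  | _ m ih =>
    rcases m with _ | m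
    · simpa using h0
    refine (h1 m).trans ?_
    have e1 : ∑ M ∈ range m, A M * ENNReal.ofReal (R (m - 1 - M)) ≤
        ENNReal.ofReal (∑ M ∈ range m, exp (-θ * M) * R (m - 1 - M)) := by
      rw [ENNReal.ofReal_sum_of_nonneg fun M _ => mul_nonneg (exp_pos _).le (hR _)]
      refine sum_le_sum fun M hM => ?_
      rw [ENNReal.ofReal_mul (exp_pos _).le]
      exact mul_le_mul_left (ih M (by have := mem_range.1 hM; omega)) _
    have e2 : ∑ M ∈ range m, exp (-θ * M) * R (m - 1 - M) =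
        exp (-θ * ((m + 1 : ℕ) : ℝ)) * ∑ i ∈ range m, R i * exp (θ * (i + 2)) := by
      rw [← sum_range_reflect (fun i => R i * exp (θ * (i + 2))), mul_sum]
      refine sum_congr rfl fun M hM => ?_
      have := mem_range.1 hM
      obtain ⟨k, rfl⟩ : ∃ k, m = M + 1 + k := ⟨m - 1 - M, by omega⟩
      rw [show M + 1 + k - 1 - M = k by omega, mul_left_comm, ← exp_add, mul_comm]
      congr 2
      push_cast
      ring
    have e3 : exp (-θ * m) = exp (-θ * ((m + 1 : ℕ) : ℝ)) * exp θ := by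
      rw [← exp_add]; congr 1; push_cast; ring
    have s0 : 0 ≤ ∑ i ∈ range m, R i * exp (θ * (i + 2)) :=
      sum_nonneg fun i _ => mul_nonneg (hR i) (exp_pos _).le
    refine (add_le_add (mul_le_mul_right (ih m m.lt_succ_self) _) (mul_le_mul_right e1 _)).trans ?_
    rw [← ENNReal.ofReal_mul hu, ← ENNReal.ofReal_mul hφ, e2, e3,
      ← ENNReal.ofReal_add (by positivity) (by positivity)]
    refine ENNReal.ofReal_le_ofReal ?_
    have := mul_le_mul_of_nonneg_left (h m) (exp_pos (-θ * ((m + 1 : ℕ) : ℝ))).le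
    linarith

theorem geo {z : ℝ} (h0 : 0 ≤ z) (h1 : z < 1) (m : ℕ) : ∑ i ∈ range m, z ^ i ≤ (1 - z)⁻¹ := by
  rw [← tsum_geometric_of_lt_one h0 h1]
  exact (summable_geometric_of_lt_one h0 h1).sum_le_tsum _ fun i _ => pow_nonneg h0 i

theorem term {C μ θ r : ℝ} {i : ℕ} (hC : 0 ≤ C) (hμ : 0 ≤ μ) (hθ : θ ≤ μ / 8)
    (h : r ≤ C * exp (-μ * (i + 1) / 2)) :
    r * exp (θ * (i + 2)) ≤ C * exp (-μ / 4) ^ (i + 1) := by
  refine (mul_le_mul_of_nonneg_right h (exp_pos _).le).trans ?_
  rw [mul_assoc, ← exp_add, ← exp_nat_mul]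
  refine mul_le_mul_of_nonneg_left (exp_le_exp.2 ?_) hC
  have h1 : (0 : ℝ) ≤ i := i.cast_nonneg
  have h2 := mul_le_mul_of_nonneg_right hθ (show (0 : ℝ) ≤ i + 2 by linarith)
  push_cast
  nlinarith

theorem large {K C μ θ u φ : ℝ} {R : ℕ → ℝ} (hK : 2 ≤ K) (hC : 0 ≤ C) (hμ : 4 * (K + 2 * C) ≤ μ)
    (hθ : θ ≤ μ / 8) (hu : u ≤ K * exp (-μ)) (hφ : φ ≤ 1) (hR0 : ∀ i, 0 ≤ R i)
    (hR : ∀ i : ℕ, R i ≤ C * exp (-μ * (i + 1) / 2)) (m : ℕ) :
    u * exp θ + φ * ∑ i ∈ range m, R i * exp (θ * (i + 2)) ≤ 1 := by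
  set y := exp (-μ / 4) with hy
  have y0 : 0 < y := exp_pos _
  have y1 : (K + 2 * C) * y ≤ 1 := by
    have h1 := add_one_le_exp (μ / 4)
    have h2 : exp (μ / 4) * y = 1 := by rw [hy, ← exp_add]; simp [neg_div]
    nlinarith
  have y2 : y ≤ 1 / 2 := by nlinarith
  have e1 : u * exp θ ≤ K * y := by
    refine (mul_le_mul_of_nonneg_right hu (exp_pos _).le).trans ?_
    rw [mul_assoc, ← exp_add]
    exact mul_le_mul_of_nonneg_left (exp_le_exp.2 (by linarith)) (by linarith)
  have e2 : ∑ i ∈ range m, R i * exp (θ * (i + 2)) ≤ 2 * C * y := by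
    refine (sum_le_sum fun i _ => term hC (by linarith) hθ (hR i)).trans ?_
    simp only [pow_succ, ← mul_assoc]
    rw [← sum_mul, ← mul_sum]
    refine mul_le_mul_of_nonneg_right ?_ y0.le
    have h1 := geo y0.le (by linarith) m
    have h2 : (1 - y)⁻¹ ≤ 2 := by rw [inv_le_comm₀ (by linarith) two_pos]; linarith
    nlinarith
  have s0 : 0 ≤ ∑ i ∈ range m, R i * exp (θ * (i + 2)) :=
    sum_nonneg fun i _ => mul_nonneg (hR0 i) (exp_pos _).le
  nlinarith

theorem small {C a μ θ φ κ q : ℝ} {R : ℕ → ℝ} {j : ℕ} (hC : 0 ≤ C) (ha : 0 < a) (hμ : a ≤ μ)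
    (hθ0 : 0 ≤ θ) (hθ : θ ≤ μ / 8) (hφ0 : 0 ≤ φ) (hφ : φ ≤ 1) (hκ : κ ≤ φ * q) (hκ1 : κ ≤ 1)
    (hE : exp (θ * (j + 2)) ≤ 1 + κ / 2)
    (hj : C * exp (-a / 8) ^ j * (1 - exp (-a / 8))⁻¹ ≤ κ / 2) (hR0 : ∀ i, 0 ≤ R i)
    (hR : ∀ i : ℕ, R i ≤ C * exp (-μ * (i + 1) / 2)) (hs : ∀ m, ∑ i ∈ range m, R i ≤ 1 - q)
    (m : ℕ) : (1 - φ) * exp θ + φ * ∑ i ∈ range m, R i * exp (θ * (i + 2)) ≤ 1 := by
  set z := exp (-a / 8) with hz
  set E := exp (θ * (j + 2)) with hE'
  have z0 : 0 < z := exp_pos _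
  have z1 : z < 1 := by rw [hz, exp_lt_one_iff]; linarith
  have E0 : 0 < E := exp_pos _
  have j0 : (0 : ℝ) ≤ j := j.cast_nonneg
  have e0 : ∀ i, R i * exp (θ * (i + 2)) ≤ E * R i + C * z ^ j * z ^ i := fun i => by
    rcases le_total i j with h | h
    · have h1 : (i : ℝ) ≤ j := by exact_mod_cast h
      have h2 : exp (θ * (i + 2)) ≤ E := exp_le_exp.2 (by nlinarith)
      have h3 := mul_le_mul_of_nonneg_left h2 (hR0 i)
      have h4 : 0 ≤ C * z ^ j * z ^ i := by positivity
      linarith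
    · have h1 := term hC (by linarith) hθ (hR i)
      have h2 : exp (-μ / 4) ^ (i + 1) ≤ z ^ j * z ^ i := by
        have h3 : (j : ℝ) ≤ i := by exact_mod_cast h
        rw [hz, ← exp_nat_mul, ← exp_nat_mul, ← exp_nat_mul, ← exp_add]
        refine exp_le_exp.2 ?_
        push_cast
        nlinarith
      have h3 := mul_le_mul_of_nonneg_left h2 hC
      have h4 := mul_nonneg E0.le (hR0 i)
      linarith
  have e1 : ∑ i ∈ range m, R i * exp (θ * (i + 2)) ≤ E * (1 - q) + κ / 2 := by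
    refine (sum_le_sum fun i _ => e0 i).trans ?_
    rw [sum_add_distrib, ← mul_sum, ← mul_sum]
    exact add_le_add (mul_le_mul_of_nonneg_left (hs m) E0.le)
      ((mul_le_mul_of_nonneg_left (geo z0.le z1 m) (by positivity)).trans hj)
  have e2 : exp θ ≤ E := exp_le_exp.2 (by nlinarith)
  have k0 : 0 ≤ κ / 2 := le_trans (by have : 0 < 1 - z := by linarith
                                      positivity) hj
  have e3 := mul_le_mul_of_nonneg_left e1 hφ0
  have e4 := mul_le_mul_of_nonneg_left e2 (show 0 ≤ 1 - φ by linarith)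
  have e5 := mul_le_mul_of_nonneg_left hκ E0.le
  have e6 := mul_le_mul_of_nonneg_left hE (show 0 ≤ 1 - κ by linarith)
  have e7 := mul_le_mul_of_nonneg_left hφ k0
  nlinarith

end Ht

open Ht

theorem hts (hRet : RETStmt) (hQ : Q0Stmt) (hP : PHIStmt) (hRec : RECStmt) : HTStmt := by
  intro D hD a ha
  obtain ⟨C, e1, hC, he1, h1⟩ := hRet D hD a ha
  obtain ⟨q0, e2, hq, he2, h2⟩ := hQ D hD a ha
  have D0 : (0 : ℝ) ≤ D := D.cast_nonneg
  set q := min q0 1 with hq'
  have q1 : 0 < q := lt_min hq one_pos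
  have q2 : q ≤ 1 := min_le_right _ _
  set κ := q / (4 * D + 4) with hκ
  have k0 : 0 < κ := by positivity
  have k1 : κ ≤ 1 := by rw [hκ, div_le_one (by positivity)]; linarith
  have z1 : exp (-a / 8) < 1 := by rw [exp_lt_one_iff]; linarith
  obtain ⟨j, hj⟩ : ∃ j : ℕ, C * exp (-a / 8) ^ j * (1 - exp (-a / 8))⁻¹ ≤ κ / 2 := by
    have := ((tendsto_pow_atTop_nhds_zero_of_lt_one (exp_pos _).le z1).const_mul C).mul_const
      (1 - exp (-a / 8))⁻¹
    simp only [mul_zero, zero_mul] at this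
    exact (this.eventually (ge_mem_nhds (half_pos k0))).exists
  set μ0 : ℝ := 4 * (2 * D + 2 + 2 * C) with hμ0
  have m0 : 0 < μ0 := by positivity
  have l0 : 0 < log (1 + κ / 2) := log_pos (by linarith)
  set c := min (1 / 8) (log (1 + κ / 2) / (μ0 * (j + 2))) with hc
  have c0 : 0 < c := lt_min (by norm_num) (by positivity)
  refine ⟨c, min (min e1 e2) (1 / 2), c0, lt_min (lt_min he1 he2) (by norm_num), ?_⟩
  intro p lam μ p1 p2 m1 m2 m3 m
  have p3 : 1 - e1 ≤ p := by
    have := (min_le_left _ (1 / 2 : ℝ)).trans (min_le_left e1 e2); linarith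
  have p4 : 1 - e2 ≤ p := by
    have := (min_le_left _ (1 / 2 : ℝ)).trans (min_le_right e1 e2); linarith
  have p5 : 1 / 2 ≤ p := by have := min_le_right (min e1 e2) (1 / 2 : ℝ); linarith
  have l1 : 0 ≤ lam := by linarith
  obtain ⟨f1, -, -, f2, -⟩ := hP D hD p lam (by linarith) p2 l1
  obtain ⟨r1, r2, -⟩ := hRec D p lam (by linarith) p2
  have w1 := wb_le_one true (by linarith : 0 ≤ p) p2 lam [fwd D]
  have w2 : wb true p lam [fwd D] ≠ ∞ := ne_top_of_le_ne_top ENNReal.one_ne_top w1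
  have b1 := h1 p lam μ p3 p2 m1 m2 m3
  have b2 : ∀ i, Ret D p lam i ≠ ∞ := fun i => ne_top_of_le_ne_top ENNReal.ofReal_ne_top (b1 i)
  set φ := (wb true p lam [fwd D]).toReal with hφ
  have φ0 : 0 ≤ φ := ENNReal.toReal_nonneg
  have φ1 : φ ≤ 1 := by simpa using ENNReal.toReal_mono ENNReal.one_ne_top w1
  have R0 : ∀ i, 0 ≤ (Ret D p lam i).toReal := fun _ => ENNReal.toReal_nonneg
  have R1 : ∀ i : ℕ, (Ret D p lam i).toReal ≤ C * exp (-μ * (i + 1) / 2) := fun i =>
    ENNReal.toReal_le_of_le_ofReal (by positivity) (b1 i)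
  have t1 : c * μ ≤ μ / 8 := by
    have := mul_le_mul_of_nonneg_right (min_le_left _ _ : c ≤ 1 / 8) (show 0 ≤ μ by linarith)
    linarith
  have x1 : exp (-lam) ≤ 1 := exp_le_one_iff.2 (by linarith)
  have x2 : 1 ≤ exp lam := one_le_exp l1
  rw [neg_mul c μ]
  refine rec_bound (u := 1 - φ) (φ := φ) (R := fun i => (Ret D p lam i).toReal) (by linarith) φ0 R0
    (fun k => ?_) r1 (fun k => ?_) m
  · rcases le_total μ0 μ with h | h
    · refine large (K := 2 * D + 2) (by linarith) hC.le h t1 ?_ φ1 R0 R1 k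
      have x3 : exp (-lam) ≤ exp (-μ) := exp_le_exp.2 (by linarith)
      have x4 := exp_pos (-lam)
      rw [uu, ← hφ] at f2
      nlinarith
    · refine small (q := q) hC.le ha m1 (mul_nonneg c0.le (by linarith)) t1 φ0 φ1 ?_ k1 ?_ hj R0 R1
        (fun n => ?_) k
      · have Z0 : 0 < Zf D lam := by rw [Zf]; positivity
        have y1 : p * exp lam / Zf D lam ≤ φ := (ENNReal.ofReal_le_iff_le_toReal w2).1 f1
        have y2 : 1 / (4 * D + 4) ≤ p * exp lam / Zf D lam := by
          rw [div_le_div_iff₀ (by positivity) Z0, Zf]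
          nlinarith [mul_le_mul_of_nonneg_left x2 D0, mul_le_mul_of_nonneg_left p5
            (show 0 ≤ exp lam * (4 * D + 4) by positivity)]
        rw [hκ, div_eq_mul_one_div, mul_comm]
        exact mul_le_mul_of_nonneg_right (y2.trans y1) q1.le
      · rw [← exp_log (show 0 < 1 + κ / 2 by linarith), exp_le_exp]
        have y1 : c * (μ0 * (j + 2)) ≤ log (1 + κ / 2) :=
          (le_div_iff₀ (by positivity)).1 (min_le_right _ _)
        have y2 := mul_le_mul_of_nonneg_left h (show 0 ≤ c * (j + 2) by positivity)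
        nlinarith
      · rw [← ENNReal.toReal_sum fun i _ => b2 i]
        refine ENNReal.toReal_le_of_le_ofReal (by linarith) ((ENNReal.sum_le_tsum _).trans
          ((h2 p lam p4 p2 (by linarith)).trans (ENNReal.ofReal_le_ofReal ?_)))
        have := min_le_left q0 1
        linarith
  · simp only [ENNReal.ofReal_toReal (b2 _)]
    rw [ENNReal.ofReal_sub _ φ0, hφ, ENNReal.ofReal_toReal w2, ENNReal.ofReal_one]
    exact r2 k

end Pool.Agent.MP_8c549f_pr

end MrgPart0

-- ======== part 1: formerly Pool.Agent.MP_8c549f_pr.A7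
section MrgPart1

/-!
The blocks have total weight one and a finite mean height.
-/

set_option autoImplicit false

namespace Pool.Agent.MP_8c549f_pr

open MeasureTheory Filter Topology Real
open scoped ENNReal NNReal

namespace One

variable {D : ℕ}

/-- weight of the lists of length `n` that never go below the starting level -/
noncomputable def Sn (D : ℕ) (p lam : ℝ) (n : ℕ) : ℝ≥0∞ :=
  SS {l : List (Step D) | l.length = n ∧ Stay l} (wb true p lam)

theorem take_isPre (l : List (Step D)) (t : ℕ) : l.take t <+: l :=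
  ⟨l.drop t, List.take_append_drop t l⟩

theorem antich_of_length {A : Set (List (Step D))} {n : ℕ} (h : ∀ l ∈ A, l.length = n) :
    Antich A := (antich_length n).mono h

theorem stay_take {l : List (Step D)} (h : Stay l) (t : ℕ) : Stay (l.take t) := by
  intro i hi
  rw [List.length_take] at hi
  rw [H_take l (hi.trans (min_le_left _ _))]
  exact h i (hi.trans (min_le_right _ _))

theorem Sn_anti (p lam : ℝ) : Antitone (Sn D p lam) := by
  intro m n hmn
  refine cover_wb true p lam (antich_of_length fun l hl => hl.1) fun l hl => ?_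
  refine ⟨l.take m, ⟨?_, stay_take hl.2 m⟩, take_isPre l m⟩
  rw [List.length_take, hl.1, min_eq_left hmn]

theorem Sn_le_one {p : ℝ} (h0 : 0 ≤ p) (h1 : p ≤ 1) (lam : ℝ) (n : ℕ) : Sn D p lam n ≤ 1 :=
  kraft_wb true h0 h1 lam (antich_of_length fun _ hl => hl.1)

theorem qq_eq (p lam : ℝ) : qq D p lam = ⨅ n, Sn D p lam n := rfl

theorem qq_le (p lam : ℝ) (n : ℕ) : qq D p lam ≤ Sn D p lam n := iInf_le _ n

theorem Sn_tendsto (p lam : ℝ) : Tendsto (Sn D p lam) atTop (𝓝 (qq D p lam)) :=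
  tendsto_atTop_iInf (Sn_anti p lam)

/-- a list that goes below the starting level begins with a return list -/
theorem exists_ret {l : List (Step D)} (h : ¬ Stay l) : ∃ u ∈ ⋃ i, RetSet D i, u <+: l := by
  unfold Stay at h
  push Not at h
  obtain ⟨n, hn, hneg⟩ := h
  obtain ⟨t, htn, ht, hlt⟩ := exists_first_hit (fun i => -H l i)
    (fun i => by have := H_step l i; omega) (c := 1) (by simp) (n := n) (by omega)
  have ht0 : 0 < t := by
    rcases Nat.eq_zero_or_pos t with rfl | h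
    · simp at ht
    · exact h
  obtain ⟨k, hk, hmax⟩ := Finset.exists_max_image (Finset.range t) (H l) ⟨0, by simpa using ht0⟩
  have hk' := Finset.mem_range.1 hk
  have hlen : (l.take t).length = t := by rw [List.length_take]; omega
  have hk0 := hlt k hk'
  refine ⟨l.take t, Set.mem_iUnion.2 ⟨(H l k).toNat, ?_, ?_, k, by omega, ?_⟩, take_isPre l t⟩
  · rw [lev_take]; omega
  · intro j hj
    rw [hlen] at hj
    rw [H_take l hj.le]
    have h1 := hlt j hj
    have h2 := hmax j (Finset.mem_range.2 hj)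
    omega
  · rw [H_take l hk'.le]; omega

theorem one_le_Sn {p : ℝ} (h0 : 0 ≤ p) (h1 : p ≤ 1) (lam : ℝ) (n : ℕ) :
    1 ≤ Sn D p lam n + ∑' i, Ret D p lam i := by
  rw [← SS_length_wb (D := D) h0 h1 lam n, SS_split _ {l | Stay l}]
  refine add_le_add le_rfl ?_
  refine le_trans (cover_wb true p lam (antich_of_length fun l hl => hl.1)
    fun l hl => exists_ret hl.2) ?_
  exact SS_iUnion_le _ _

theorem qq_ne_zero {p lam q₀ : ℝ} (h0 : 0 ≤ p) (h1 : p ≤ 1) (hq : 0 < q₀)
    (h : ∑' i, Ret D p lam i ≤ ENNReal.ofReal (1 - q₀)) : qq D p lam ≠ 0 := by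
  have hlt : ENNReal.ofReal (1 - q₀) < 1 := ENNReal.ofReal_lt_one.2 (by linarith)
  have : 1 - ENNReal.ofReal (1 - q₀) ≤ qq D p lam := by
    refine le_iInf fun n => tsub_le_iff_right.2 ?_
    exact (one_le_Sn h0 h1 lam n).trans (add_le_add le_rfl h)
  exact ((tsub_pos_iff_lt.2 hlt).trans_le this).ne'

/-! ### the first cut -/

theorem cand_congr {l l' : List (Step D)} {t : ℕ} (h : Cand l t) (ht : t ≤ l'.length)
    (e : ∀ i ≤ t, H l' i = H l i) : Cand l' t := by
  obtain ⟨h1, _, h3, h4⟩ := h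
  refine ⟨h1, ht, by rw [e t le_rfl, e (t - 1) (by omega), h3], fun i hi => ?_⟩
  rw [e i (by omega), e (t - 1) (by omega)]
  exact h4 i hi

theorem stay_append {b l : List (Step D)} (hb : Stay b) (hl : Stay l) : Stay (b ++ l) := by
  intro i hi
  rcases le_total i b.length with h | h
  · rw [H_append_left l h]; exact hb i h
  · obtain ⟨j, rfl⟩ := Nat.exists_eq_add_of_le h
    rw [List.length_append] at hi
    have h1 := hb b.length le_rfl
    have h2 := hl j (by omega)
    rw [H_length] at h1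
    rw [H_append_right]; omega

theorem cut_append {b l : List (Step D)} (hb : Block b) (hl : Stay l) : Cut (b ++ l) b.length := by
  refine ⟨cand_congr hb.2.1 (by simp) fun i hi => H_append_left l hi, fun i h hi => ?_⟩
  obtain ⟨j, rfl⟩ := Nat.exists_eq_add_of_le h
  rw [List.length_append] at hi
  have h2 := hl j (by omega)
  rw [H_append_right, H_append_left l le_rfl, H_length]; omega

theorem not_cut_append {b : List (Step D)} (hb : Block b) (l : List (Step D)) {t : ℕ}
    (ht : t < b.length) : ¬ Cut (b ++ l) t := by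
  intro h
  refine hb.2.2 t ht ⟨cand_congr h.1 ht.le fun i hi => (H_append_left l (by omega)).symm,
    fun i hti hi => ?_⟩
  have := h.2 i hti (by rw [List.length_append]; omega)
  rwa [H_append_left l ht.le, H_append_left l hi] at this

/-- a list with a cut splits at its first cut -/
theorem split_cut {l : List (Step D)} (hs : Stay l) (h : ∃ t, Cut l t) :
    ∃ b l' : List (Step D), Block b ∧ Stay l' ∧ l = b ++ l' := by
  classical
  have hc := Nat.find_spec h
  have hmin : ∀ t' < Nat.find h, ¬ Cut l t' := fun t' ht' => Nat.find_min h ht'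
  generalize Nat.find h = t at hc hmin
  have htl : t ≤ l.length := hc.1.2.1
  have hlen : (l.take t).length = t := by rw [List.length_take]; omega
  refine ⟨l.take t, l.drop t, ⟨stay_take hs t, ?_, fun t' ht' hc' => ?_⟩, fun j hj => ?_,
    (List.take_append_drop t l).symm⟩
  · rw [hlen]
    exact cand_congr hc.1 hlen.ge fun i hi => H_take l hi
  · rw [hlen] at ht'
    refine hmin t' ht' ⟨cand_congr hc'.1 (by omega) fun i hi => (H_take l (by omega)).symm,
      fun i hi hil => ?_⟩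
    rcases le_total i t with h1 | h1
    · have := hc'.2 i hi (by omega)
      rwa [H_take l ht'.le, H_take l h1] at this
    · have h2 := hc'.2 t ht'.le (by omega)
      rw [H_take l ht'.le, H_take l le_rfl] at h2
      exact h2.trans (hc.2 i h1 hil)
  · rw [List.length_drop] at hj
    have h1 := hc.2 (t + j) (by omega) (by omega)
    rw [H_drop] at h1
    omega

open Classical in
/-- the part of a list up to its first cut -/
noncomputable def fc (l : List (Step D)) : List (Step D) :=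
  if h : ∃ t, Cut l t then l.take (Nat.find h) else []

theorem fc_append {b l : List (Step D)} (hb : Block b) (hl : Stay l) : fc (b ++ l) = b := by
  classical
  have h : ∃ t, Cut (b ++ l) t := ⟨_, cut_append hb hl⟩
  have e : Nat.find h = b.length :=
    (Nat.find_eq_iff h).2 ⟨cut_append hb hl, fun t ht => not_cut_append hb l ht⟩
  rw [fc, dif_pos h]
  convert List.take_left (l₁ := b) (l₂ := l)

/-- the lists that begin with the block `b`, followed by `n` steps that stay above -/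
def Aft (b : List (Step D)) (n : ℕ) : Set (List (Step D)) :=
  (fun t => b ++ t) '' {l | l.length = n ∧ Stay l}

theorem SS_Aft (hFA : FAStmt) {p : ℝ} (h0 : 0 ≤ p) (h1 : p ≤ 1) (lam : ℝ) {b : List (Step D)}
    (hb : Block b) (n : ℕ) : SS (Aft b n) (wb true p lam) = wb true p lam b * Sn D p lam n := by
  rw [Aft, SS_image (List.append_right_injective b), Sn, ← SS_mul_left]
  exact SS_congr fun l hl => hFA D p lam h0 h1 true b l hb.2.1 fun i hi => hl.2 i hi.le

theorem low_bound (hFA : FAStmt) {p : ℝ} (h0 : 0 ≤ p) (h1 : p ≤ 1) (lam : ℝ) (n : ℕ) :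
    qq D p lam * SS {l | l ∈ {l : List (Step D) | Block l} ∧ l.length ≤ n} (wb true p lam) ≤
      Sn D p lam n := by
  rw [← SS_mul_left, Sn, SS_fiber _ fc (wb true p lam)]
  refine ENNReal.tsum_le_tsum fun b => ?_
  by_cases hb : b ∈ {l | l ∈ {l : List (Step D) | Block l} ∧ l.length ≤ n}
  · rw [Set.indicator_of_mem hb]
    calc qq D p lam * wb true p lam b ≤ wb true p lam b * Sn D p lam (n - b.length) := by
          rw [mul_comm]; exact mul_le_mul' le_rfl (qq_le p lam _)
      _ = SS (Aft b (n - b.length)) (wb true p lam) := (SS_Aft hFA h0 h1 lam hb.1 _).symm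
      _ ≤ _ := by
          refine SS_mono ?_ fun _ _ => le_rfl
          rintro _ ⟨l, hl, rfl⟩
          have := hb.2
          have := hl.1
          exact ⟨⟨by rw [List.length_append]; omega, stay_append hb.1.1 hl.2⟩, fc_append hb.1 hl.2⟩
  · rw [Set.indicator_of_notMem hb]; exact zero_le

theorem blocks_le_one (hFA : FAStmt) {p lam : ℝ} (h0 : 0 ≤ p) (h1 : p ≤ 1)
    (hq : qq D p lam ≠ 0) : SS {l : List (Step D) | Block l} (wb true p lam) ≤ 1 := by
  have hq1 : qq D p lam ≠ ∞ :=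
    ne_top_of_le_ne_top ENNReal.one_ne_top ((qq_le p lam 0).trans (Sn_le_one h0 h1 lam 0))
  rw [SS_eq_iSup_length]
  refine iSup_le fun m => ?_
  rw [← ENNReal.mul_le_mul_iff_right hq hq1, mul_one]
  refine ge_of_tendsto (Sn_tendsto p lam) ?_
  filter_upwards [eventually_ge_atTop m] with n hn
  refine le_trans (mul_le_mul' le_rfl (SS_mono ?_ fun _ _ => le_rfl)) (low_bound hFA h0 h1 lam n)
  exact fun l hl => ⟨hl.1, hl.2.trans hn⟩

/-- weight of the lists without a cut -/
noncomputable def Nc (D : ℕ) (p lam : ℝ) (n : ℕ) : ℝ≥0∞ :=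
  SS {l : List (Step D) | l.length = n ∧ Stay l ∧ ∀ t, ¬ Cut l t} (wb true p lam)

theorem up_bound (hFA : FAStmt) {p : ℝ} (h0 : 0 ≤ p) (h1 : p ≤ 1) (lam : ℝ) (n k : ℕ) :
    Sn D p lam n ≤ Nc D p lam n +
      (Sn D p lam (n - k) * SS {l : List (Step D) | Block l} (wb true p lam) +
        SS ({l : List (Step D) | Block l} \ {l | l.length ≤ k}) (wb true p lam)) := by
  calc Sn D p lam n ≤ SS ({l : List (Step D) | l.length = n ∧ Stay l ∧ ∀ t, ¬ Cut l t} ∪
        ⋃ b : {l : List (Step D) | Block l}, Aft b.1 (n - b.1.length)) (wb true p lam) := by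
        refine SS_mono (fun l hl => ?_) fun _ _ => le_rfl
        by_cases hc : ∃ t, Cut l t
        · obtain ⟨b, l', hb, hl', rfl⟩ := split_cut hl.2 hc
          have := hl.1
          rw [List.length_append] at this
          exact Or.inr (Set.mem_iUnion.2 ⟨⟨b, hb⟩, l', ⟨by show _ = n - b.length; omega, hl'⟩, rfl⟩)
        · exact Or.inl ⟨hl.1, hl.2, fun t ht => hc ⟨t, ht⟩⟩
    _ ≤ _ := SS_union_le _ _ _
    _ ≤ _ := by
        refine add_le_add le_rfl ((SS_iUnion_le _ _).trans ?_)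
        calc _ = ∑' b : {l : List (Step D) | Block l},
              wb true p lam b.1 * Sn D p lam (n - b.1.length) :=
              tsum_congr fun b => SS_Aft hFA h0 h1 lam b.2 _
          _ = SS {l : List (Step D) | Block l}
              fun b => wb true p lam b * Sn D p lam (n - b.length) :=
              (SS_eq_tsum_subtype _ fun b => wb true p lam b * Sn D p lam (n - b.length)).symm
          _ ≤ _ := by
              rw [SS_split _ {l | l.length ≤ k}, ← SS_mul_left]
              refine add_le_add (SS_mono Set.inter_subset_left fun b hb => ?_)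
                (SS_mono subset_rfl fun b _ => mul_le_of_le_one_right' (Sn_le_one h0 h1 lam _))
              rw [mul_comm]
              have : b.length ≤ k := hb.2
              exact mul_le_mul' (Sn_anti p lam (by omega)) le_rfl

theorem tail_tendsto {A : Set (List (Step D))} {f : List (Step D) → ℝ≥0∞} (h : SS A f ≠ ∞) :
    Tendsto (fun k : ℕ => SS (A \ {l | l.length ≤ k}) f) atTop (𝓝 0) := by
  have h1 : Tendsto (fun k : ℕ => SS {l | l ∈ A ∧ l.length ≤ k} f) atTop (𝓝 (SS A f)) := by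
    rw [SS_eq_iSup_length A f]
    exact tendsto_atTop_iSup fun m n hmn =>
      SS_mono (fun l hl => ⟨hl.1, hl.2.trans hmn⟩) fun _ _ => le_rfl
  have h2 := ENNReal.Tendsto.sub (tendsto_const_nhds (x := SS A f)) h1 (Or.inl h)
  rw [tsub_self] at h2
  refine h2.congr fun k => ?_
  have e := SS_split A {l | l.length ≤ k} f
  have hne : SS (A ∩ {l | l.length ≤ k}) f ≠ ∞ :=
    ne_top_of_le_ne_top h (SS_mono Set.inter_subset_left fun _ _ => le_rfl)
  exact ENNReal.sub_eq_of_eq_add_rev hne e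

theorem blocks_eq_one (hFA : FAStmt) {p lam : ℝ} (h0 : 0 ≤ p) (h1 : p ≤ 1)
    (hq : qq D p lam ≠ 0) (hN : Tendsto (Nc D p lam) atTop (𝓝 0)) :
    SS {l : List (Step D) | Block l} (wb true p lam) = 1 := by
  have hle := blocks_le_one hFA h0 h1 hq
  have hne := ne_top_of_le_ne_top ENNReal.one_ne_top hle
  have hq1 : qq D p lam ≠ ∞ :=
    ne_top_of_le_ne_top ENNReal.one_ne_top ((qq_le p lam 0).trans (Sn_le_one h0 h1 lam 0))
  refine le_antisymm hle ?_
  rw [← ENNReal.mul_le_mul_iff_right hq hq1, mul_one]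
  have hk : ∀ k : ℕ, qq D p lam ≤ qq D p lam * SS {l : List (Step D) | Block l} (wb true p lam) +
      SS ({l : List (Step D) | Block l} \ {l | l.length ≤ k}) (wb true p lam) := by
    intro k
    have t1 : Tendsto (fun n => Sn D p lam (n - k)) atTop (𝓝 (qq D p lam)) :=
      (Sn_tendsto p lam).comp (tendsto_sub_atTop_nat k)
    have t2 := hN.add ((ENNReal.Tendsto.mul_const t1 (Or.inr hne)).add (tendsto_const_nhds
      (x := SS ({l : List (Step D) | Block l} \ {l | l.length ≤ k}) (wb true p lam))))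
    rw [zero_add] at t2
    exact ge_of_tendsto' t2 fun n => (qq_le p lam n).trans (up_bound hFA h0 h1 lam n k)
  have t3 := (tendsto_const_nhds
    (x := qq D p lam * SS {l : List (Step D) | Block l} (wb true p lam))).add (tail_tendsto hne)
  rw [add_zero] at t3
  exact ge_of_tendsto' t3 hk

/-! ### the lists that stay in a slab -/

noncomputable def Slab (D : ℕ) (p lam : ℝ) (h n : ℕ) : ℝ≥0∞ :=
  SS {l : List (Step D) | l.length = n ∧ ∀ k ≤ n, 0 ≤ H l k ∧ H l k ≤ h} (wb true p lam)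

noncomputable def InBox (D : ℕ) (p lam : ℝ) (B : Finset (V D)) (n : ℕ) : ℝ≥0∞ :=
  SS {l : List (Step D) | l.length = n ∧ ∀ i ≤ n, 0 + loc l i ∈ B} (wb true p lam)

theorem slab_le (p lam : ℝ) (h n r : ℕ) :
    Slab D p lam h n ≤ Lat D p lam h r + InBox D p lam (Box D (h + 1) r) n := by
  classical
  rw [Slab, SS_split _ {l | ∃ k, k ≤ n ∧ r ≤ rad (loc l k)}]
  refine add_le_add (cover_wb true p lam (antich_of_length fun l hl => hl.1.1) fun l hl => ?_)
    (SS_mono (fun l hl => ⟨hl.1.1, fun i hi => ?_⟩) fun _ _ => le_rfl)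
  · have hex : ∃ k, k ≤ n ∧ r ≤ rad (loc l k) := hl.2
    have hc := Nat.find_spec hex
    have hmin : ∀ t' < Nat.find hex, ¬ (t' ≤ n ∧ r ≤ rad (loc l t')) :=
      fun t' ht' => Nat.find_min hex ht'
    generalize Nat.find hex = t at hc hmin
    have hlen : (l.take t).length = t := by
      have := hl.1.1
      rw [List.length_take]; omega
    refine ⟨l.take t, ⟨fun k hk => ?_, hc.2, fun k hk => ?_⟩, take_isPre l t⟩
    · rw [hlen] at hk
      rw [H_take l hk]
      exact hl.1.2 k (by omega)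
    · rw [hlen] at hk
      rw [loc_take l hk.le]
      have := hmin k hk
      omega
  · have h1 := hl.1.2 i hi
    have h2 : ¬ r ≤ rad (loc l i) := fun h2 => hl.2 ⟨i, hi, h2⟩
    rw [zero_add, mem_Box]
    unfold H at h1
    push_cast
    omega

theorem inBox_tendsto (hVAN : VANStmt) (hESC : ESCStmt) {p lam : ℝ} (h0 : 0 ≤ p) (h1 : p ≤ 1)
    (hl : 0 ≤ lam) (m r : ℕ) : Tendsto (InBox D p lam (Box D m r)) atTop (𝓝 0) := by
  have := perc_prob D h0 h1
  have e : InBox D p lam (Box D m r) = fun n => ∫⁻ ω, SS {l : List (Step D) | l.length = n ∧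
      ∀ i ≤ n, 0 + loc l i ∈ Box D m r} (W lam (cfg true ω) 0) ∂perc D p :=
    funext fun n => SS_wb true p lam _
  rw [e]
  have key := tendsto_lintegral_of_dominated_convergence (μ := perc D p)
    (F := fun n ω => SS {l : List (Step D) | l.length = n ∧
      ∀ i ≤ n, 0 + loc l i ∈ Box D m r} (W lam (cfg true ω) 0)) (f := fun _ => 0) (fun _ => 1)
    (fun n => measurable_SS (measurable_W_cfg true lam))
    (fun n => Eventually.of_forall fun ω => kraft lam _ (antich_of_length fun l hl => hl.1) 0)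
    (by simp) (Eventually.of_forall fun ω => ?_)
  · simpa using key
  · refine hVAN D lam hl _ _ 0 (-1) (hESC D _ _ 0 (-1) [bck D] ?_ fun i hi => ?_)
    · rw [mem_Box]; simp
    · obtain rfl : i = 0 := by simpa using hi
      simp [plus_bck, expo]

theorem slab_tendsto (hVAN : VANStmt) (hESC : ESCStmt) {p lam : ℝ} (h0 : 0 ≤ p) (h1 : p ≤ 1)
    (hl : 0 ≤ lam) (h σ : ℕ) (s : ℝ) (hs : 0 < s)
    (hL : ∀ J : ℕ, Lat D p lam h (J * σ) ≤ ENNReal.ofReal (2 * D * exp (-(J * s)))) :
    Tendsto (Slab D p lam h) atTop (𝓝 0) := by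
  have t1 : Tendsto (fun J : ℕ => ENNReal.ofReal (2 * D * exp (-(J * s)))) atTop (𝓝 0) := by
    have t2 : Tendsto (fun J : ℕ => exp (-(J * s))) atTop (𝓝 0) :=
      tendsto_exp_neg_atTop_nhds_zero.comp (tendsto_natCast_atTop_atTop.atTop_mul_const hs)
    simpa using ENNReal.tendsto_ofReal (t2.const_mul (2 * (D : ℝ)))
  rw [ENNReal.tendsto_atTop_zero] at t1 ⊢
  intro ε hε
  obtain ⟨J, hJ⟩ := t1 (ε / 2) (ENNReal.half_pos hε.ne')
  obtain ⟨N, hN⟩ := ENNReal.tendsto_atTop_zero.1
    (inBox_tendsto (D := D) hVAN hESC h0 h1 hl (h + 1) (J * σ)) (ε / 2) (ENNReal.half_pos hε.ne')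
  refine ⟨N, fun n hn => (slab_le p lam h n (J * σ)).trans ?_⟩
  rw [← ENNReal.add_halves ε]
  exact add_le_add ((hL J).trans (hJ J le_rfl)) (hN n hn)

/-! ### geometric bounds -/

theorem tsum_succ_mul_ne_top {ρ : ℝ} (h0 : 0 ≤ ρ) (h1 : ρ < 1) :
    ∑' m : ℕ, ((m + 1 : ℕ) : ℝ≥0∞) * ENNReal.ofReal ρ ^ m ≠ ∞ := by
  have hn : ‖ρ‖ < 1 := by rwa [Real.norm_of_nonneg h0]
  have hs : Summable fun m : ℕ => ((m + 1 : ℕ) : ℝ) * ρ ^ m := by
    have := (hasSum_coe_mul_geometric_of_norm_lt_one hn).summable.add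
      (summable_geometric_of_lt_one h0 h1)
    refine this.congr fun m => ?_
    push_cast; ring
  have e : ∀ m : ℕ, ((m + 1 : ℕ) : ℝ≥0∞) * ENNReal.ofReal ρ ^ m =
      ENNReal.ofReal (((m + 1 : ℕ) : ℝ) * ρ ^ m) := fun m => by
    rw [ENNReal.ofReal_mul (Nat.cast_nonneg _), ENNReal.ofReal_natCast, ENNReal.ofReal_pow h0]
  simp only [e]
  rw [← ENNReal.ofReal_tsum_of_nonneg (fun m => by positivity) hs]
  exact ENNReal.ofReal_ne_top

theorem rest_tendsto {A R : ℕ → ℝ≥0∞} {ρ : ℝ} {K : ℝ≥0∞} (h0 : 0 ≤ ρ) (h1 : ρ < 1) (hK : K ≠ ∞)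
    (hA : ∀ m, A m ≤ ENNReal.ofReal ρ ^ m) (hR : ∀ i, R i ≤ K * ENNReal.ofReal ρ ^ i) :
    Tendsto (fun h : ℕ => A (h + 1) + ∑ M ∈ Finset.range (h + 1), A M * ∑' i, R (h - M + i))
      atTop (𝓝 0) := by
  have hr : ENNReal.ofReal ρ < 1 := ENNReal.ofReal_lt_one.2 h1
  have hT := ENNReal.tendsto_atTop_zero_of_tsum_ne_top (tsum_succ_mul_ne_top h0 h1)
  generalize ENNReal.ofReal ρ = r at hr hT hA hR
  have hinv : (1 - r)⁻¹ ≠ ∞ := ENNReal.inv_ne_top.2 (tsub_pos_iff_lt.2 hr).ne'
  have t1 : Tendsto (fun h : ℕ => r ^ (h + 1)) atTop (𝓝 0) :=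
    (ENNReal.tendsto_pow_atTop_nhds_zero_of_lt_one hr).comp (tendsto_add_atTop_nat 1)
  have t2 := t1.add (ENNReal.Tendsto.const_mul (a := K * (1 - r)⁻¹) hT
    (Or.inr (ENNReal.mul_ne_top hK hinv)))
  rw [mul_zero, add_zero] at t2
  refine tendsto_of_tendsto_of_tendsto_of_le_of_le tendsto_const_nhds t2 (fun _ => zero_le)
    fun h => add_le_add (hA _) ?_
  calc ∑ M ∈ Finset.range (h + 1), A M * ∑' i, R (h - M + i)
      ≤ ∑ _M ∈ Finset.range (h + 1), K * (1 - r)⁻¹ * r ^ h := by
        refine Finset.sum_le_sum fun M hM => ?_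
        have hM' : M ≤ h := Nat.lt_succ_iff.1 (Finset.mem_range.1 hM)
        calc A M * ∑' i, R (h - M + i) ≤ r ^ M * ∑' i, K * r ^ (h - M) * r ^ i := by
              refine mul_le_mul' (hA M) (ENNReal.tsum_le_tsum fun i => ?_)
              rw [mul_assoc, ← pow_add]; exact hR _
          _ = K * (1 - r)⁻¹ * (r ^ M * r ^ (h - M)) := by
              rw [ENNReal.tsum_mul_left, ENNReal.tsum_geometric]; ring
          _ = _ := by rw [← pow_add, Nat.add_sub_cancel' hM']
    _ = _ := by rw [Finset.sum_const, Finset.card_range, nsmul_eq_mul]; ring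

theorem BB_ne_top {p lam ρ : ℝ} (h0 : 0 ≤ ρ) (h1 : ρ < 1)
    (h : ∀ m : ℕ, SS {l : List (Step D) | Block l ∧ lev l = (m + 1 : ℕ)} (wb true p lam) ≤
      ENNReal.ofReal ρ ^ m) : BB D p lam ≠ ∞ := by
  refine ne_top_of_le_ne_top (tsum_succ_mul_ne_top h0 h1) ?_
  rw [BB, SS_fiber _ fun l => (lev l).toNat - 1]
  refine ENNReal.tsum_le_tsum fun m => le_trans ?_ (mul_le_mul' le_rfl (h m))
  rw [← SS_mul_left]
  refine SS_mono (fun l hl => ⟨hl.1, ?_⟩) fun l hl => ?_
  · have h2 := Block.lev_pos hl.1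
    have h3 : (lev l).toNat - 1 = m := hl.2
    omega
  · have h2 := Block.lev_pos hl.1
    have h3 : (lev l).toNat - 1 = m := hl.2
    rw [show (lev l).toNat = m + 1 by omega]

end One

open Pool.Agent.MP_8c549f_pr.One in
theorem one : FAStmt → VANStmt → ESCStmt → LAT1Stmt → RETStmt → Q0Stmt → RECStmt → HTStmt →
    ONEStmt := by
  intro hFA hVAN hESC hLAT hRET hQ hREC hHT D hD a ha
  obtain ⟨C₁, _, hL⟩ := hLAT D hD a ha
  obtain ⟨C, e₁, hC, he₁, hR⟩ := hRET D hD a ha
  obtain ⟨q₀, e₂, hq₀, he₂, hQ⟩ := hQ D hD a ha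
  obtain ⟨c, e₃, hc, he₃, hH⟩ := hHT D hD a ha
  refine ⟨min (min (1 / 2) (exp (-a))) (min e₁ (min e₂ e₃)), by positivity, fun p lam hp h1 hl => ?_⟩
  have b1 := (min_le_left _ (min e₁ (min e₂ e₃))).trans (min_le_left (1 / 2) (exp (-a)))
  have b2 := (min_le_left _ (min e₁ (min e₂ e₃))).trans (min_le_right (1 / 2) (exp (-a)))
  have b3 := (min_le_right (min (1 / 2) (exp (-a))) _).trans (min_le_left e₁ (min e₂ e₃))
  have b4 := (min_le_right (min (1 / 2) (exp (-a))) _).trans
    ((min_le_right e₁ _).trans (min_le_left e₂ e₃))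
  have b5 := (min_le_right (min (1 / 2) (exp (-a))) _).trans
    ((min_le_right e₁ _).trans (min_le_right e₂ e₃))
  have hp0 : 0 < p := by linarith
  have h0 := hp0.le
  have hq := qq_ne_zero h0 h1 hq₀ (hQ p lam (by linarith) h1 hl)
  obtain ⟨_, _, r3, r4⟩ := hREC D p lam h0 h1
  have hκ : 0 < min (c * a) (a / 2) := by positivity
  have hρ0 := (exp_pos (-min (c * a) (a / 2))).le
  have hρ1 : exp (-min (c * a) (a / 2)) < 1 := by
    rw [← exp_zero]; exact exp_lt_exp.2 (by linarith)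
  have hA : ∀ m, aa D p lam m ≤ ENNReal.ofReal (exp (-min (c * a) (a / 2))) ^ m := by
    intro m
    refine (hH p lam a (by linarith) h1 le_rfl hl (by linarith) m).trans ?_
    rw [← ENNReal.ofReal_pow hρ0, ← exp_nat_mul]
    refine ENNReal.ofReal_le_ofReal (exp_le_exp.2 ?_)
    have := mul_le_mul_of_nonneg_left (min_le_left (c * a) (a / 2)) (Nat.cast_nonneg (α := ℝ) m)
    linarith
  have hR' : ∀ i, Ret D p lam i ≤
      ENNReal.ofReal C * ENNReal.ofReal (exp (-min (c * a) (a / 2))) ^ i := by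
    intro i
    refine (hR p lam a (by linarith) h1 le_rfl hl (by linarith) i).trans ?_
    rw [← ENNReal.ofReal_pow hρ0, ← exp_nat_mul, ← ENNReal.ofReal_mul hC.le]
    refine ENNReal.ofReal_le_ofReal (mul_le_mul_of_nonneg_left (exp_le_exp.2 ?_) hC.le)
    have := mul_le_mul_of_nonneg_left (min_le_right (c * a) (a / 2)) (Nat.cast_nonneg (α := ℝ) i)
    linarith
  refine ⟨hq, blocks_eq_one hFA h0 h1 hq ?_, BB_ne_top hρ0 hρ1 fun m => (r3 m).trans (hA m)⟩
  rw [ENNReal.tendsto_atTop_zero]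
  intro ε hε
  obtain ⟨h, hh⟩ := ENNReal.tendsto_atTop_zero.1
    (rest_tendsto hρ0 hρ1 ENNReal.ofReal_ne_top hA hR') (ε / 2) (ENNReal.half_pos hε.ne')
  obtain ⟨N, hN⟩ := ENNReal.tendsto_atTop_zero.1
    (slab_tendsto hVAN hESC h0 h1 (ha.le.trans hl) h _ _ (by positivity)
      (hL p lam h0 h1 hl h)) (ε / 2) (ENNReal.half_pos hε.ne')
  refine ⟨N, fun n hn => (r4 n h).trans ?_⟩
  rw [← ENNReal.add_halves ε, add_assoc]
  exact add_le_add (hN n hn) (hh h le_rfl)

end Pool.Agent.MP_8c549f_pr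

/-!
The law of the first step, and a uniform bound for the probability of a return.
-/

set_option autoImplicit false

namespace Pool.Agent.MP_8c549f_pr

open MeasureTheory Filter Topology Real
open scoped ENNReal NNReal

namespace Phi

variable {D : ℕ}

theorem wb_single (p lam : ℝ) (s : Step D) :
    wb true p lam [s] = ∫⁻ ω, ENNReal.ofReal (pr lam (plus ω) 0 s) ∂perc D p := by
  simp only [wb, cfg_true, W_single]

theorem meas_pr (lam : ℝ) (s : Step D) :
    Measurable fun ω : Cfg D => ENNReal.ofReal (pr lam (plus ω) 0 s) := by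
  simpa only [cfg_true, W_single] using measurable_W_cfg true lam [s]

theorem meas_cyl (O K : Finset (Edge D)) :
    MeasurableSet {ω : Cfg D | (∀ e ∈ O, ω e = true) ∧ ∀ e ∈ K, ω e = false} := by
  refine Dep.measurableSet (S := ↑(O ∪ K)) (fun ω ω' h => ?_) (Finset.finite_toSet _)
  refine propext (and_congr (forall₂_congr fun e he => ?_) (forall₂_congr fun e he => ?_))
  · rw [h e (by simp [he])]
  · rw [h e (by simp [he])]

theorem meas_closed (e : Edge D) : MeasurableSet {ω : Cfg D | ω e = false} :=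
  Dep.measurableSet (S := {e}) (fun _ _ h => by rw [h e rfl]) (Set.finite_singleton e)

theorem free_le (hL : FLStmt) {p : ℝ} (h0 : 0 ≤ p) (h1 : p ≤ 1) (lam : ℝ) (l : List (Step D)) :
    ENNReal.ofReal (p ^ l.length) * Wf lam l ≤ wb true p lam l := by
  have := hL D p lam h0 h1 true [] l (by simp)
  rwa [wb_nil true h0 h1, one_mul, List.nil_append] at this

theorem plus_step (ω : Cfg D) {s : Step D} (h : s ≠ bck D) : plus ω (edge 0 s) = ω (edge 0 s) := by
  refine plus_of_ne ω fun e => ?_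
  rcases edge_eq_iff.1 e with e | e
  · exact h e.2.symm
  · exact vec_ne_zero s (by simpa using e.1.symm)

theorem fwd_ne : fwd D ≠ bck D := by simp [fwd, bck]

theorem low (hL : FLStmt) {p : ℝ} (h0 : 0 ≤ p) (h1 : p ≤ 1) (lam : ℝ) :
    ENNReal.ofReal (p * exp lam / Zf D lam) ≤ wb true p lam [fwd D] := by
  refine le_trans (le_of_eq ?_) (free_le hL h0 h1 lam [fwd D])
  rw [Wf_eq, ← ENNReal.ofReal_mul (by positivity)]
  simp [lev_cons, mul_div_assoc]

theorem total {p : ℝ} (h0 : 0 ≤ p) (h1 : p ≤ 1) (lam : ℝ) :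
    ∑ s : Step D, wb true p lam [s] = 1 := by
  have := perc_prob D h0 h1
  simp only [wb_single]
  rw [← lintegral_finsetSum _ fun s _ => meas_pr lam s]
  simp [sum_ofReal_pr_eq_one lam (plus_bck _)]

theorem upp (hC : CylStmt) {p : ℝ} (h0 : 0 ≤ p) (h1 : p ≤ 1) (lam : ℝ) :
    (1 - p) + p ^ (2 * D + 1) * (2 * D / Zf D lam) ≤ uu D p lam := by
  classical
  have := perc_prob D h0 h1
  have hZ := Zf_pos D lam
  obtain ⟨O, hO⟩ : ∃ O : Finset (Edge D), O = (Finset.univ.erase (bck D)).image (edge 0) := ⟨_, rfl⟩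
  have c1 : O.card ≤ 2 * D + 1 := by
    rw [hO]
    refine Finset.card_image_le.trans ?_
    rw [Finset.card_erase_of_mem (Finset.mem_univ _)]
    simp
    omega
  have c2 := hC D p h0 h1 O ∅ (by simp)
  have key : ∀ ω : Cfg D, ENNReal.ofReal (pr lam (plus ω) 0 (fwd D)) +
      ({ω : Cfg D | ω (edge 0 (fwd D)) = false}.indicator 1 ω +
        {ω : Cfg D | (∀ e ∈ O, ω e = true) ∧ ∀ e ∈ (∅ : Finset (Edge D)), ω e = false}.indicator
          (fun _ => ENNReal.ofReal (2 * D / Zf D lam)) ω) ≤ 1 := fun ω => by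
    by_cases a : ω (edge 0 (fwd D)) = false
    · rw [pr_of_closed lam (by rw [plus_step ω fwd_ne, a]), Set.indicator_of_mem (by exact a),
        Set.indicator_of_notMem]
      · simp
      · intro b
        have := b.1 (edge 0 (fwd D)) (by rw [hO]; exact Finset.mem_image_of_mem _ (by simp [fwd_ne]))
        simp [a] at this
    · rw [Set.indicator_of_notMem (by exact a), zero_add]
      by_cases b : ω ∈ {ω : Cfg D | (∀ e ∈ O, ω e = true) ∧ ∀ e ∈ (∅ : Finset (Edge D)), ω e = false}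
      · have c : ∀ s, plus ω (edge 0 s) = allOpen D (edge 0 s) := fun s => by
          by_cases d : s = bck D
          · rw [d]; exact plus_bck ω
          · exact plus_of_open (b.1 _ (by rw [hO]; exact Finset.mem_image_of_mem _ (by simp [d])))
        rw [Set.indicator_of_mem b, pr_congr lam c, pr_allOpen, wt_fwd,
          ← ENNReal.ofReal_add (by positivity) (by positivity), ENNReal.ofReal_le_one, ← add_div,
          div_le_one hZ, Zf]
        linarith [exp_pos (-lam)]
      · rw [Set.indicator_of_notMem b, add_zero]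
        exact ENNReal.ofReal_le_one.2 (pr_le_one _ _ _ _)
  have k2 := lintegral_mono (μ := perc D p) key
  rw [lintegral_add_left (meas_pr lam _), lintegral_add_left (measurable_one.indicator
    (meas_closed _)), lintegral_indicator_one (meas_closed _), lintegral_indicator_const
    (meas_cyl _ _), c2, perc_edge h0 h1, ← wb_single, lintegral_one, measure_univ,
    ← ENNReal.ofReal_mul (by positivity), ← ENNReal.ofReal_add (by linarith) (by positivity),
    ← ENNReal.ofReal_toReal (ne_top_of_le_ne_top ENNReal.one_ne_top (wb_le_one true h0 h1 lam _)),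
    ← ENNReal.ofReal_add ENNReal.toReal_nonneg (by have := sub_nonneg.2 h1; positivity),
    ENNReal.ofReal_le_one] at k2
  have k3 : p ^ (2 * D + 1) ≤ p ^ O.card := pow_le_pow_of_le_one h0 h1 c1
  have k4 := mul_le_mul_of_nonneg_right k3 (show 0 ≤ 2 * D / Zf D lam by positivity)
  simp only [Finset.card_empty, pow_zero, mul_one] at k2
  unfold uu
  linarith

theorem back (hC : CylStmt) (hD : 1 ≤ D) {p : ℝ} (h0 : 0 ≤ p) (h1 : p ≤ 1) (lam : ℝ) :
    wb true p lam [bck D] ≤
      ENNReal.ofReal (exp (-2 * lam) + (1 - p) * exp (-lam) + (1 - p) ^ 2) := by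
  classical
  have := perc_prob D h0 h1
  obtain ⟨t, ht⟩ : ∃ t : Step D, t = ((⟨0, hD⟩ : Fin D).succ, true) := ⟨_, rfl⟩
  have t1 : edge 0 (fwd D) ≠ edge 0 t := by
    rw [ht, fwd, edge_true, edge_true]
    exact fun e => (Fin.succ_ne_zero (⟨0, hD⟩ : Fin D)).symm (congrArg Prod.snd e)
  have c2 := hC D p h0 h1 ∅ {edge 0 (fwd D), edge 0 t} (by simp)
  have key : ∀ ω : Cfg D, ENNReal.ofReal (pr lam (plus ω) 0 (bck D)) ≤
      ENNReal.ofReal (exp (-2 * lam)) +
      ({ω : Cfg D | ω (edge 0 (fwd D)) = false}.indicator (fun _ => ENNReal.ofReal (exp (-lam))) ω +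
        {ω : Cfg D | (∀ e ∈ (∅ : Finset (Edge D)), ω e = true) ∧
          ∀ e ∈ ({edge 0 (fwd D), edge 0 t} : Finset (Edge D)), ω e = false}.indicator 1 ω) :=
    fun ω => by
    have hb := pr_of_open lam (plus_bck ω)
    rw [wt_bck] at hb
    cases a : ω (edge 0 (fwd D))
    · refine le_add_left ?_
      cases b : ω (edge 0 t)
      · refine le_add_left ?_
        rw [Set.indicator_of_mem (by simp [a, b])]
        exact ENNReal.ofReal_le_one.2 (pr_le_one _ _ _ _)
      · refine le_add_right ?_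
        rw [Set.indicator_of_mem (by exact a), hb]
        have := wt_le_Zq lam (plus_of_open b)
        rw [ht, wt_side] at this
        exact ENNReal.ofReal_le_ofReal (div_le_self (exp_pos _).le this)
    · refine le_add_right (ENNReal.ofReal_le_ofReal ?_)
      have := wt_le_Zq lam (plus_of_open a)
      rw [wt_fwd] at this
      rw [hb]
      refine (div_le_div_of_nonneg_left (exp_pos _).le (exp_pos _) this).trans (le_of_eq ?_)
      rw [← exp_sub]
      ring_nf
  have k2 := lintegral_mono (μ := perc D p) key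
  have e1 := sub_nonneg.2 h1
  rw [lintegral_add_left measurable_const, lintegral_add_left (measurable_const.indicator
    (meas_closed _)), lintegral_indicator_one (meas_cyl _ _), lintegral_indicator_const
    (meas_closed _), c2, perc_edge h0 h1, ← wb_single, lintegral_const, measure_univ, mul_one,
    ← ENNReal.ofReal_mul (by positivity), ← ENNReal.ofReal_add (by positivity) (by positivity),
    ← ENNReal.ofReal_add (by positivity) (by positivity), Finset.card_pair t1] at k2
  refine k2.trans (le_of_eq ?_)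
  congr 1
  simp only [Finset.card_empty]
  ring

/-- first visit of level `-1` with all levels before below `j` -/
def TT (D j : ℕ) : Set (List (Step D)) :=
  {l | lev l = -1 ∧ ∀ k < l.length, 0 ≤ H l k ∧ H l k < j}

theorem sum_ret (p lam : ℝ) (j : ℕ) :
    ∑ i ∈ Finset.range j, Ret D p lam i ≤ SS (TT D j) (wb true p lam) := by
  induction j with
  | zero => simp
  | succ j ih =>
    rw [Finset.sum_range_succ]
    refine (add_le_add ih le_rfl).trans ?_
    rw [Ret, ← SS_union]
    · refine SS_mono ?_ fun _ _ => le_rfl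
      rintro l (h | h) <;> refine ⟨h.1, fun k hk => ?_⟩
      · have := h.2 k hk
        push_cast
        omega
      · have := h.2.1 k hk
        push_cast
        omega
    · refine Set.disjoint_left.2 fun l a b => ?_
      obtain ⟨k, hk, e⟩ := b.2.2
      have := a.2 k hk
      omega

theorem anti (n j : ℕ) :
    Antich ({l : List (Step D) | l.length = n ∧ Stay l ∧ (j : ℤ) ≤ lev l} ∪ TT D j) := by
  rintro u hu _ hl ⟨t, rfl⟩
  by_contra hne
  have ht : u.length < (u ++ t).length := by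
    rcases t with _ | ⟨s, t⟩
    · simp at hne
    · simp
  have e : H (u ++ t) u.length = lev u := by rw [H_append_left t le_rfl, H_length]
  rcases hu with hu | hu <;> rcases hl with hl | hl
  · have := hu.1
    have := hl.1
    omega
  · have := hu.2.2
    have := hl.2 _ ht
    omega
  · have := hu.1
    have := hl.2.1 _ ht.le
    omega
  · have := hu.1
    have := hl.2 _ ht
    omega

theorem head (hL : FLStmt) (h2 : F2Stmt) (h3 : F3Stmt) {p lam : ℝ} (h0 : 0 ≤ p) (h1 : p ≤ 1)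
    (hl : 0 ≤ lam) (n j : ℕ) {x : ℝ}
    (hx : x + exp (-2 * lam) + exp (lam * j) * ((2 * D + 2) / Zf D lam) ^ n ≤ 1) :
    ∑ i ∈ Finset.range j, Ret D p lam i ≤ ENNReal.ofReal (1 - p ^ n * x) := by
  obtain ⟨R, hR⟩ : ∃ R, R = {l : List (Step D) | l.length = n ∧ Stay l ∧ (j : ℤ) ≤ lev l} :=
    ⟨_, rfl⟩
  have hZ := Zf_pos D lam
  have a1 : 1 ≤ SS R (Wf lam) + ENNReal.ofReal (exp (-2 * lam) +
      exp (lam * j) * ((2 * D + 2) / Zf D lam) ^ n) := by
    rw [ENNReal.ofReal_add (by positivity) (by positivity), ← SS_length_Wf (D := D) lam n]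
    refine le_trans ?_ (add_le_add le_rfl (add_le_add (h3 D lam hl n)
      (by simpa using h2 D lam hl n j)))
    refine le_trans ?_ (add_le_add le_rfl (SS_union_le _ _ _))
    refine le_trans (SS_mono (fun l h => ?_) fun _ _ => le_rfl) (SS_union_le _ _ _)
    by_cases s : Stay l
    · rcases le_total (j : ℤ) (lev l) with k | k
      · exact Or.inl (hR ▸ ⟨h, s, k⟩)
      · exact Or.inr (Or.inr ⟨h, k⟩)
    · exact Or.inr (Or.inl ⟨h, s⟩)
  have a2 : ENNReal.ofReal x ≤ SS R (Wf lam) := by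
    refine le_trans ?_ (tsub_le_iff_right.2 a1)
    rw [← ENNReal.ofReal_one, ← ENNReal.ofReal_sub _ (by positivity)]
    exact ENNReal.ofReal_le_ofReal (by linarith)
  have a3 : ENNReal.ofReal (p ^ n * x) ≤ SS R (wb true p lam) := by
    rw [ENNReal.ofReal_mul (by positivity)]
    refine (mul_le_mul' le_rfl a2).trans ?_
    rw [← SS_mul_left]
    refine SS_mono subset_rfl fun l h => ?_
    rw [hR] at h
    rw [← h.1]
    exact free_le hL h0 h1 lam l
  have a4 := kraft_wb true h0 h1 lam (anti (D := D) n j)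
  rw [← hR, SS_union] at a4
  · have a5 := (add_le_add a3 (sum_ret p lam j)).trans a4
    rcases le_total 0 (p ^ n * x) with k | k
    · rw [ENNReal.ofReal_sub _ k, ENNReal.ofReal_one]
      exact ENNReal.le_sub_of_add_le_left ENNReal.ofReal_ne_top a5
    · exact (le_add_self.trans a5).trans (ENNReal.one_le_ofReal.2 (by linarith))
  · refine Set.disjoint_left.2 fun l a b => ?_
    rw [hR] at a
    have := a.2.2
    have := b.1
    omega

end Phi

open Phi

theorem phi (hC : CylStmt) (hL : FLStmt) : PHIStmt := by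
  intro D hD p lam h0 h1 _
  refine ⟨low hL h0 h1 lam, total h0 h1 lam, upp hC h0 h1 lam, ?_, back hC hD h0 h1 lam⟩
  have hZ := Zf_pos D lam
  have a1 := (ENNReal.ofReal_le_iff_le_toReal (ne_top_of_le_ne_top ENNReal.one_ne_top
    (wb_le_one true h0 h1 lam _))).1 (low (D := D) hL h0 h1 lam)
  have a2 : exp lam / Zf D lam = 1 - (2 * D + exp (-lam)) / Zf D lam := by
    field_simp
    unfold Zf
    ring
  have a3 : (2 * D + exp (-lam)) / Zf D lam ≤ (2 * D + exp (-lam)) * exp (-lam) := by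
    rw [exp_neg lam, ← div_eq_mul_inv, ← exp_neg]
    refine div_le_div_of_nonneg_left (by positivity) (exp_pos _) ?_
    unfold Zf
    have := exp_pos (-lam)
    have : (0 : ℝ) ≤ D := by positivity
    linarith
  have a4 : 0 ≤ (2 * D + exp (-lam)) / Zf D lam := by positivity
  rw [mul_div_assoc, a2] at a1
  unfold uu
  nlinarith

theorem q0 (hL : FLStmt) (h2 : F2Stmt) (h3 : F3Stmt) (h4 : F4Stmt) (hR : RETStmt) : Q0Stmt := by
  intro D hD a ha
  obtain ⟨C, e, hC, he, hR⟩ := hR D hD a ha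
  obtain ⟨c, hc, h4⟩ := h4 D a ha
  obtain ⟨q, hq⟩ : ∃ q, q = 1 - exp (-2 * a) := ⟨_, rfl⟩
  have q1 : 0 < q := by
    have := exp_lt_one_iff.2 (show -2 * a < 0 by linarith)
    linarith
  have q2 : q ≤ 1 := by linarith [exp_pos (-2 * a)]
  obtain ⟨r, hr⟩ : ∃ r, r = exp (-a / 2) := ⟨_, rfl⟩
  have r0 : 0 < r := hr ▸ exp_pos _
  have r1 : r < 1 := hr ▸ exp_lt_one_iff.2 (by linarith)
  have r2 := sub_pos.2 r1
  obtain ⟨j, hj⟩ := exists_pow_lt_of_lt_one (show 0 < q / 8 * (1 - r) / C by positivity) r1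
  obtain ⟨m, hm⟩ := exists_pow_lt_of_lt_one (show 0 < q / 4 by positivity) r1
  obtain ⟨n, hn⟩ := exists_nat_ge ((j + m) / c)
  refine ⟨q / 4, min (min e (exp (-a))) (1 / (3 * (n + 1))), by positivity, by positivity,
    fun p lam p1 p2 hl => ?_⟩
  have e1 : 1 - e ≤ p := by
    linarith [(min_le_left _ (1 / (3 * ((n : ℝ) + 1)))).trans (min_le_left e (exp (-a))), p1]
  have e2 : 1 - p ≤ exp (-a) := by
    linarith [(min_le_left _ (1 / (3 * ((n : ℝ) + 1)))).trans (min_le_right e (exp (-a))), p1]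
  have e3 : 1 - p ≤ 1 / (3 * (n + 1)) := by
    linarith [min_le_right (min e (exp (-a))) (1 / (3 * ((n : ℝ) + 1))), p1]
  rw [le_div_iff₀ (by positivity)] at e3
  have n0 : (0 : ℝ) ≤ n := by positivity
  have p0 : 0 ≤ p := by nlinarith
  have e4 : 2 / 3 ≤ p ^ n := by
    have := one_add_mul_le_pow (a := p - 1) (by linarith) n
    rw [add_sub_cancel] at this
    nlinarith
  have l0 : 0 ≤ lam := by linarith
  have hZ := Zf_pos D lam
  have b1 : exp (lam * j) * ((2 * D + 2) / Zf D lam) ^ n ≤ r ^ m := by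
    refine (mul_le_mul_of_nonneg_left (pow_le_pow_left₀ (by positivity) (h4 lam hl) n)
      (exp_pos _).le).trans ?_
    rw [hr, ← exp_nat_mul, ← exp_nat_mul, ← exp_add, exp_le_exp]
    rw [div_le_iff₀ hc] at hn
    have m0 : (0 : ℝ) ≤ m := by positivity
    nlinarith [mul_le_mul_of_nonneg_left hn l0, mul_le_mul_of_nonneg_left hl m0]
  have b2 : exp (-2 * lam) ≤ 1 - q := by
    rw [hq, sub_sub_cancel, exp_le_exp]
    linarith
  have b3 := head (D := D) hL h2 h3 p0 p2 l0 n j (x := 3 * q / 4) (by linarith)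
  have b4 : ∑' i, Ret D p lam (i + j) ≤ ENNReal.ofReal (q / 8) := by
    refine (ENNReal.tsum_le_tsum (g := fun i => ENNReal.ofReal (C * r ^ j * r ^ i)) fun i =>
      (hR p lam a e1 p2 le_rfl hl e2 (i + j)).trans (ENNReal.ofReal_le_ofReal ?_)).trans ?_
    · rw [mul_assoc, ← pow_add, hr, ← exp_nat_mul]
      refine mul_le_mul_of_nonneg_left (exp_le_exp.2 ?_) hC.le
      push_cast
      nlinarith
    · rw [← ENNReal.ofReal_tsum_of_nonneg (fun _ => by positivity)
        ((summable_geometric_of_lt_one r0.le r1).mul_left _), tsum_mul_left,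
        tsum_geometric_of_lt_one r0.le r1]
      refine ENNReal.ofReal_le_ofReal ?_
      rw [lt_div_iff₀ hC] at hj
      rw [← div_eq_mul_inv, div_le_iff₀ r2]
      linarith
  rw [← ENNReal.summable.sum_add_tsum_nat_add' (k := j)]
  refine (add_le_add b3 b4).trans ?_
  have b5 : p ^ n ≤ 1 := pow_le_one₀ p0 p2
  rw [← ENNReal.ofReal_add (by nlinarith) (by positivity)]
  exact ENNReal.ofReal_le_ofReal (by nlinarith)

end Pool.Agent.MP_8c549f_pr

/-!
Module MONO: the ratio `BR / AR` is strictly increasing below the critical bias.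
-/

set_option autoImplicit false

namespace Pool.Agent.MP_8c549f_pr

open MeasureTheory Filter Topology Real
open scoped ENNReal NNReal

namespace Mono

/-- the speed on the full lattice -/
noncomputable def v0 (D : ℕ) (x : ℝ) : ℝ := (exp x - exp (-x)) / Zf D x

theorem v0_inc {D : ℕ} (hD : 1 ≤ D) {x y : ℝ} (hx : 0 ≤ x) (hxy : x ≤ y) (hy : y ≤ x + 1) :
    2 / (3 * (2 * (D : ℝ) + 2) ^ 2) * ((y - x) * exp (-x)) ≤ v0 D y - v0 D x := by
  have hD' : (1 : ℝ) ≤ D := by exact_mod_cast hD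
  have hX1 : 1 ≤ exp x := one_le_exp hx
  have hXY : exp x ≤ exp y := exp_le_exp.2 hxy
  have hY3 : exp y ≤ 3 * exp x := by
    have h1 : exp y ≤ exp x * exp 1 := by rw [← exp_add]; exact exp_le_exp.2 hy
    have h2 : exp 1 ≤ 3 := (exp_one_lt_d9.trans (by norm_num)).le
    nlinarith [exp_pos x]
  have hd : exp x * (y - x) ≤ exp y - exp x := by
    have h1 : exp y = exp x * exp (y - x) := by rw [← exp_add]; congr 1; ring
    have h2 := add_one_le_exp (y - x)
    nlinarith [exp_pos x]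
  have hZx := Zf_pos D x
  have hZy := Zf_pos D y
  have ex : exp (-x) * exp x = 1 := by rw [← exp_add]; simp
  have hx' : exp (-x) ≤ 1 := exp_le_one_iff.2 (by linarith)
  have hy' : exp (-y) ≤ exp (-x) := exp_le_exp.2 (by linarith)
  have hZx' : Zf D x ≤ (2 * D + 2) * exp x := by unfold Zf; nlinarith
  have hZy' : Zf D y ≤ (2 * D + 2) * (3 * exp x) := by unfold Zf; nlinarith
  have hnum : 2 * (exp x * (y - x)) ≤
      (exp y - exp (-y)) * Zf D x - Zf D y * (exp x - exp (-x)) := by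
    have e : (exp y - exp (-y)) * Zf D x - Zf D y * (exp x - exp (-x)) =
        2 * (exp y * exp (-x) - exp x * exp (-y)) +
          2 * D * ((exp y - exp x) + (exp (-x) - exp (-y))) := by unfold Zf; ring
    have h1 : exp x * exp (-y) ≤ exp y * exp (-x) :=
      mul_le_mul hXY hy' (exp_pos _).le (exp_pos _).le
    have h2 : 0 ≤ exp x * (y - x) := mul_nonneg (exp_pos x).le (by linarith)
    rw [e]
    nlinarith
  have hZZ : Zf D y * Zf D x ≤ 3 * (2 * (D : ℝ) + 2) ^ 2 * (exp x * exp x) := by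
    calc Zf D y * Zf D x ≤ (2 * D + 2) * (3 * exp x) * ((2 * D + 2) * exp x) :=
          mul_le_mul hZy' hZx' hZx.le (by positivity)
      _ = _ := by ring
  rw [v0, v0, div_sub_div _ _ hZy.ne' hZx.ne', le_div_iff₀ (mul_pos hZy hZx)]
  have h0 : 0 ≤ 2 / (3 * (2 * (D : ℝ) + 2) ^ 2) * ((y - x) * exp (-x)) :=
    mul_nonneg (by positivity) (mul_nonneg (by linarith) (exp_pos _).le)
  refine le_trans (mul_le_mul_of_nonneg_left hZZ h0) (le_trans (le_of_eq ?_) hnum)
  have : (2 * (D : ℝ) + 2) ≠ 0 := by positivity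
  field_simp
  linear_combination (y - x) * ex

theorem core {A0x A0y B0x B0y Ax Ay Bx By C ζ δ c vx vy : ℝ} (h1 : 1 ≤ A0x) (h2 : 1 ≤ A0y)
    (hB : 0 ≤ B0x) (hBA : B0x ≤ A0x) (hC : A0x ≤ C) (hx : B0x = A0x * vx) (hy : B0y = A0y * vy)
    (hδ : 0 < δ) (hc : 0 < c) (hv : c * δ ≤ vy - vx) (hζ : 0 < ζ) (hζ1 : ζ ≤ 1)
    (hζc : (4 * C + 2) * ζ < c) (a1 : |Ax - A0x| ≤ ζ) (b1 : |Bx - B0x| ≤ ζ)
    (a2 : |(Ay - A0y) - (Ax - A0x)| ≤ ζ * δ) (b2 : |(By - B0y) - (Bx - B0x)| ≤ ζ * δ)
    (a3 : |A0y - A0x| ≤ C * δ) (b3 : |B0y - B0x| ≤ C * δ) : Bx * Ay < By * Ax := by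
  have hC0 : 0 ≤ C := by linarith
  have hA : |Ax| ≤ C + 1 := by
    have := abs_le.1 a1
    exact abs_le.2 ⟨by linarith, by linarith⟩
  have hB' : |Bx| ≤ C + 1 := by
    have := abs_le.1 b1
    exact abs_le.2 ⟨by linarith, by linarith⟩
  have t1 : |(B0y - B0x) * (Ax - A0x)| ≤ C * δ * ζ := by
    rw [abs_mul]; exact mul_le_mul b3 a1 (abs_nonneg _) (by positivity)
  have t2 : |((By - B0y) - (Bx - B0x)) * Ax| ≤ ζ * δ * (C + 1) := by
    rw [abs_mul]; exact mul_le_mul b2 hA (abs_nonneg _) (by positivity)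
  have t3 : |(Bx - B0x) * (A0y - A0x)| ≤ ζ * (C * δ) := by
    rw [abs_mul]; exact mul_le_mul b1 a3 (abs_nonneg _) hζ.le
  have t4 : |Bx * ((Ay - A0y) - (Ax - A0x))| ≤ (C + 1) * (ζ * δ) := by
    rw [abs_mul]; exact mul_le_mul hB' a2 (abs_nonneg _) (by positivity)
  have hm : c * δ ≤ B0y * A0x - B0x * A0y := by
    have e : B0y * A0x - B0x * A0y = A0x * A0y * (vy - vx) := by rw [hx, hy]; ring
    have h3 : 1 ≤ A0x * A0y := by nlinarith
    have h4 : 0 ≤ vy - vx := le_trans (by positivity) hv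
    rw [e]
    nlinarith
  have e : By * Ax - Bx * Ay = (B0y * A0x - B0x * A0y) + (B0y - B0x) * (Ax - A0x) +
      ((By - B0y) - (Bx - B0x)) * Ax - (Bx - B0x) * (A0y - A0x) -
      Bx * ((Ay - A0y) - (Ax - A0x)) := by ring
  have h5 : (4 * C + 2) * ζ * δ < c * δ := mul_lt_mul_of_pos_right hζc hδ
  have := (abs_le.1 t1).1
  have := (abs_le.1 t2).1
  have := (abs_le.1 t3).2
  have := (abs_le.1 t4).2
  nlinarith

theorem one_le (hS : SUMPStmt) {D : ℕ} {p lam : ℝ} (h0 : 0 ≤ p) (h1 : p ≤ 1)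
    (h : SS {l : List (Step D) | Block l} (wb true p lam) = 1) (hA : AA D p lam ≠ ∞) :
    1 ≤ BR D p lam ∧ BR D p lam ≤ AR D p lam := by
  obtain ⟨-, -, -, -, -, -, h2, h3⟩ := hS D p lam h0 h1
  rw [h] at h3
  refine ⟨?_, ENNReal.toReal_mono hA h2⟩
  simpa [BR] using ENNReal.toReal_mono (ne_top_of_le_ne_top hA h2) h3

end Mono

open Mono in
theorem mono (h5 : F5Stmt) (hS : SUMPStmt) (hO : ONEStmt) (hC : CMPStmt) (hC0 : CMP0Stmt) :
    MONOStmt := by
  intro D hD a η ha hη
  obtain ⟨C, hC', h0⟩ := hC0 D hD a ha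
  obtain ⟨e₁, he₁, h1⟩ := hO D hD (a / 2) (by linarith)
  set c : ℝ := 2 / (3 * (2 * (D : ℝ) + 2) ^ 2) with hc
  have hc0 : 0 < c := by positivity
  set ζ : ℝ := min 1 (c / (2 * (4 * C + 2))) with hζ
  have hζ0 : 0 < ζ := lt_min one_pos (by positivity)
  have hζc : (4 * C + 2) * ζ < c := by
    have h2 : ζ * (2 * (4 * C + 2)) ≤ c := (le_div_iff₀ (by positivity)).1 (min_le_right _ _)
    nlinarith
  obtain ⟨e₂, he₂, h2⟩ := hC D hD a η ζ ha hη hζ0
  refine ⟨min 1 (min e₁ e₂), lt_min one_pos (lt_min he₁ he₂), ?_⟩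
  intro p x y hp hp1 hx hxy hy
  have hp0 : 0 ≤ p := by linarith [min_le_left 1 (min e₁ e₂)]
  have hpe₁ : 1 - e₁ ≤ p := by
    linarith [min_le_right 1 (min e₁ e₂), min_le_left e₁ e₂]
  have hpe₂ : 1 - e₂ ≤ p := by
    linarith [min_le_right 1 (min e₁ e₂), min_le_right e₁ e₂]
  have hone : ∀ t, a / 2 ≤ t → SS {l : List (Step D) | Block l} (wb true 1 t) = 1 :=
    fun t ht => (h1 1 t (by linarith) le_rfl ht).2.1
  have hfree : ∀ t, a ≤ t → 1 ≤ BR D 1 t ∧ BR D 1 t ≤ AR D 1 t ∧
      BR D 1 t = AR D 1 t * v0 D t := by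
    intro t ht
    have hA := (h0 t t ht le_rfl).1
    have h3 := one_le hS zero_le_one le_rfl (hone t (by linarith)) hA
    refine ⟨h3.1, h3.2, ?_⟩
    rw [v0, ← mul_div_assoc, eq_div_iff (Zf_pos D t).ne']
    exact h5 D (a / 2) t (by linarith) hone hA
  have base : ∀ x y, a ≤ x → x < y → y ≤ x + 1 → (1 - p) ^ D * exp y ≤ exp (-η) →
      BR D p x / AR D p x < BR D p y / AR D p y := by
    intro x y hx hxy hy1 hy
    obtain ⟨hAx, hAy, a1, b1, a2, b2⟩ := h2 p x y hpe₂ hp1 hx hxy.le hy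
    obtain ⟨-, hCx, a3, b3⟩ := h0 x y hx hxy.le
    obtain ⟨fx1, fx2, fx3⟩ := hfree x hx
    obtain ⟨fy1, fy2, fy3⟩ := hfree y (by linarith)
    have gx := one_le hS hp0 hp1 (h1 p x hpe₁ hp1 (by linarith)).2.1 hAx
    have gy := one_le hS hp0 hp1 (h1 p y hpe₁ hp1 (by linarith)).2.1 hAy
    rw [div_lt_div_iff₀ (by linarith [gx.1, gx.2]) (by linarith [gy.1, gy.2])]
    rw [mul_assoc] at a2 b2 a3 b3
    exact core (fx1.trans fx2) (fy1.trans fy2) (by linarith) fx2 hCx fx3 fy3
      (mul_pos (by linarith) (exp_pos _)) hc0 (v0_inc hD (by linarith) hxy.le hy1) hζ0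
      (min_le_left _ _) hζc a1 b1 a2 b2 a3 b3
  have chain : ∀ n : ℕ, ∀ x y, a ≤ x → x < y → y ≤ x + n → (1 - p) ^ D * exp y ≤ exp (-η) →
      BR D p x / AR D p x < BR D p y / AR D p y := by
    intro n
    induction n with
    | zero => intro x y _ h3 h4; simp at h4; linarith
    | succ n ih =>
      intro x y hx hxy hyn hy
      rcases le_or_gt y (x + 1) with h3 | h3
      · exact base x y hx hxy h3 hy
      · have h4 : (1 - p) ^ D * exp (x + 1) ≤ exp (-η) :=
          le_trans (mul_le_mul_of_nonneg_left (exp_le_exp.2 h3.le)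
            (pow_nonneg (by linarith) D)) hy
        refine (base x (x + 1) hx (by linarith) le_rfl h4).trans
          (ih (x + 1) y (by linarith) h3 ?_ hy)
        push_cast at hyn
        linarith
  obtain ⟨hAx, hAy, -⟩ := h2 p x y hpe₂ hp1 hx hxy.le hy
  obtain ⟨n, hn⟩ := exists_nat_ge (y - x)
  exact ⟨hAx, hAy, chain n x y hx hxy (by linarith) hy⟩

end Pool.Agent.MP_8c549f_pr

end MrgPart1

-- marker of a merged file
example : 731051 + 18857 = 731051 + 18857 := rfl
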