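import Mathlib.Analysis.PSeries
import Mathlib.Order.Interval.Finset.Box
import Pool.Agent.MP_8c549f_pr.Base

-- ======== part 0: formerly Pool.Agent.MP_8c549f_pr.A4
section MrgPart0

/-!
Comparison of two finite chains, one row at a time, through least fixed points.
-/

set_option autoImplicit false

namespace Pool.Agent.MP_8c549f_pr

open scoped ENNReal NNReal

namespace Ch1

variable {D : ℕ} {σ : Type} [DecidableEq σ] (δ : σ → Step D → σ) (S : Finset σ)

/-- first step operator of the chain with rewards `ρ` -/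
noncomputable def op (p ρ : σ → Step D → ℝ≥0∞) : (σ → ℝ≥0∞) →o (σ → ℝ≥0∞) where
  toFun u z := if z ∈ S then ∑ s, p z s * (ρ z s + u (δ z s)) else 0
  monotone' u v h z := by
    dsimp only
    split_ifs
    · exact Finset.sum_le_sum fun s _ => by gcongr; exact h _
    · exact le_rfl

theorem op_apply (p ρ : σ → Step D → ℝ≥0∞) (u : σ → ℝ≥0∞) (z : σ) :
    op δ S p ρ u z = if z ∈ S then ∑ s, p z s * (ρ z s + u (δ z s)) else 0 := rfl

theorem tsum_eq_lfp (p ρ : σ → Step D → ℝ≥0∞) (f : σ → List (Step D) → ℝ≥0∞)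
    (g : σ → Step D → List (Step D) → ℝ≥0∞) (h0 : ∀ z, f z [] = 0)
    (h1 : ∀ z s l, f z (s :: l) = if z ∈ S then p z s * (g z s l + f (δ z s) l) else 0)
    (h2 : ∀ z s, ∑' l, g z s l = ρ z s) : (fun z => ∑' l, f z l) = (op δ S p ρ).lfp := by
  refine le_antisymm (fun z => ?_) (OrderHom.lfp_le _ fun z => le_of_eq ?_)
  · have key : ∀ (n : ℕ) z, ∑' l, (if l.length ≤ n then f z l else 0) ≤ (op δ S p ρ).lfp z := by
      intro n
      induction n with
      | zero => intro z; rw [tsum_list]; simp [h0]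
      | succ n ih =>
        intro z
        rw [tsum_list, ← OrderHom.map_lfp, op_apply]
        simp only [h0, ite_self, zero_add, List.length_cons, Nat.add_le_add_iff_right, h1]
        split_ifs with hz
        · refine Finset.sum_le_sum fun s _ => le_trans (ENNReal.tsum_le_tsum
            (g := fun l => p z s * (g z s l + if l.length ≤ n then f (δ z s) l else 0))
            fun l => by split_ifs <;> simp) ?_
          rw [ENNReal.tsum_mul_left, ENNReal.tsum_add, h2]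
          gcongr
          exact ih _
        · simp
    beta_reduce
    rw [ENNReal.tsum_eq_iSup_sum]
    refine iSup_le fun T => le_trans (le_trans (Finset.sum_le_sum fun l hl => ?_)
      (ENNReal.sum_le_tsum T)) (key (T.sup List.length) z)
    rw [if_pos (Finset.le_sup hl)]
  · rw [op_apply, tsum_list (f z), h0, zero_add]
    simp only [h1]
    split_ifs
    · simp only [ENNReal.tsum_mul_left, ENNReal.tsum_add, h2]
    · simp

theorem lfp_reward (p ρ ρ' : σ → Step D → ℝ≥0∞) (k : ℝ≥0∞) (h : ∀ z s, ρ' z s ≤ k * ρ z s)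
    (z : σ) : (op δ S p ρ').lfp z ≤ k * (op δ S p ρ).lfp z := by
  refine OrderHom.lfp_le (op δ S p ρ') (a := fun z => k * (op δ S p ρ).lfp z) (fun y => ?_) z
  have hfix := congrFun (OrderHom.map_lfp (op δ S p ρ)) y
  beta_reduce
  rw [← hfix, op_apply, op_apply]
  split_ifs
  · rw [Finset.mul_sum]
    refine Finset.sum_le_sum fun s _ => ?_
    rw [mul_left_comm, mul_add k]
    gcongr
    exact h y s
  · exact zero_le

theorem one_row (p p' ρ : σ → Step D → ℝ≥0∞) (k : ℝ≥0∞) (hk : 1 ≤ k) (z0 : σ)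
    (h1 : ∀ z, ∑ s, p z s ≤ 1) (h2 : ∑ s, p' z0 s = ∑ s, p z0 s) (h3 : ∀ s, p' z0 s ≤ k * p z0 s)
    (h4 : ∀ s, p z0 s ≤ k * p' z0 s) (h5 : ∀ z, z ≠ z0 → p' z = p z) (z : σ) :
    (op δ S p' ρ).lfp z ≤ k ^ 2 * (op δ S p ρ).lfp z := by
  set u := (op δ S p ρ).lfp with hu
  have hfix : ∀ y, u y = if y ∈ S then ∑ s, p y s * (ρ y s + u (δ y s)) else 0 := fun y => by
    rw [← op_apply, hu, OrderHom.map_lfp]
  have hk2 : 1 ≤ k ^ 2 := one_le_pow₀ hk
  by_cases htop : u z0 = ∞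
  · refine OrderHom.lfp_le (op δ S p' ρ) (a := fun y => k ^ 2 * u y) (fun y => ?_) z
    by_cases hy : y = z0
    · rw [hy]
      beta_reduce
      rw [htop, ENNReal.mul_top (by positivity)]
      exact le_top
    · beta_reduce
      rw [op_apply, h5 y hy, hfix y]
      split_ifs
      · rw [Finset.mul_sum]
        refine Finset.sum_le_sum fun s _ => ?_
        rw [mul_left_comm (k ^ 2), mul_add (k ^ 2)]
        exact mul_le_mul' le_rfl (add_le_add (le_mul_of_one_le_left' hk2) le_rfl)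
      · exact zero_le
  let Φ : (σ → ℝ≥0∞) →o (σ → ℝ≥0∞) :=
    ⟨fun h y => if y = z0 then u z0 else op δ S p 0 h y, fun a b hab y => by
      dsimp only
      split_ifs
      exacts [le_rfl, (op δ S p 0).monotone hab y]⟩
  set h := Φ.lfp with hh
  have hfix' : ∀ y, h y = if y = z0 then u z0 else
      if y ∈ S then ∑ s, p y s * h (δ y s) else 0 := fun y => by
    refine (congrFun (OrderHom.map_lfp Φ) y).symm.trans ?_
    change (if y = z0 then u z0 else op δ S p 0 h y) = _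
    simp only [op_apply, Pi.zero_apply, zero_add]
  have hu1 : h ≤ u := OrderHom.lfp_le _ fun y => by
    change (if y = z0 then u z0 else op δ S p 0 u y) ≤ u y
    split_ifs with hy
    · rw [hy]
    · rw [op_apply, hfix y]
      split_ifs
      · exact Finset.sum_le_sum fun s _ => by gcongr; exact zero_le
      · exact le_rfl
  have hu2 : h ≤ fun _ => u z0 := OrderHom.lfp_le _ fun y => by
    change (if y = z0 then u z0 else op δ S p 0 (fun _ => u z0) y) ≤ u z0
    split_ifs with hy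
    · exact le_rfl
    · rw [op_apply]
      split_ifs
      · simp only [Pi.zero_apply, zero_add, ← Finset.sum_mul]
        exact mul_le_of_le_one_left' (h1 y)
      · exact zero_le
  have hfin : ∀ y, h y ≠ ∞ := fun y => ne_top_of_le_ne_top htop (hu2 y)
  have hsplit : ∀ y ∈ S, ∑ s, p y s * (ρ y s + (u (δ y s) - h (δ y s))) +
      ∑ s, p y s * h (δ y s) = u y := fun y hy => by
    rw [hfix y, if_pos hy, ← Finset.sum_add_distrib]
    refine Finset.sum_congr rfl fun s _ => ?_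
    rw [← mul_add, add_assoc, tsub_add_cancel_of_le (hu1 _)]
  have hg : ∀ q : Step D → ℝ≥0∞, ∑ s, q s ≤ 1 → ((1 - ∑ s, q s) * u z0 +
      ∑ s, q s * (u z0 - h (δ z0 s))) + ∑ s, q s * h (δ z0 s) = u z0 := fun q hq => by
    rw [add_assoc, ← Finset.sum_add_distrib]
    simp only [← mul_add, tsub_add_cancel_of_le (hu2 _), ← Finset.sum_mul, ← add_mul,
      tsub_add_cancel_of_le hq, one_mul]
  have hv : ∀ y, u y - h y + k ^ 2 * h y ≤ k ^ 2 * u y := fun y => by
    conv_rhs => rw [← tsub_add_cancel_of_le (hu1 y), mul_add]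
    gcongr
    exact le_mul_of_one_le_left' hk2
  refine le_trans (OrderHom.lfp_le (op δ S p' ρ) (a := fun y => u y - h y + k ^ 2 * h y)
    (fun y => ?_) z) (hv z)
  rw [op_apply]
  split_ifs with hy
  swap
  · exact zero_le
  simp only [← add_assoc, mul_add (p' y _) _ (k ^ 2 * _), Finset.sum_add_distrib,
    mul_left_comm _ (k ^ 2), ← Finset.mul_sum]
  by_cases hz : y = z0
  · subst hz
    have a0 : h y = u y := by rw [hfix', if_pos rfl]
    have a1 : ∑ s, p y s * h (δ y s) ≠ ∞ :=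
      ne_top_of_le_ne_top htop (le_add_self.trans (hsplit y hy).le)
    have a2 := (ENNReal.add_left_inj a1).mp ((hsplit y hy).trans (hg (p y) (h1 y)).symm)
    rw [a0, tsub_self, zero_add]
    conv_rhs => rw [← hg (p' y) (h2.trans_le (h1 y)), mul_add]
    gcongr
    calc _ ≤ k * ∑ s, p y s * (ρ y s + (u (δ y s) - h (δ y s))) := by
          rw [Finset.mul_sum]
          exact Finset.sum_le_sum fun s _ => by rw [← mul_assoc]; gcongr; exact h3 s
      _ ≤ _ := by
          rw [a2, sq, mul_assoc, mul_add k ((1 - ∑ s, p' y s) * u y), h2, Finset.mul_sum]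
          refine mul_le_mul' le_rfl (add_le_add (le_mul_of_one_le_left' hk)
            (Finset.sum_le_sum fun s _ => ?_))
          rw [← mul_assoc]
          exact mul_le_mul' (h4 s) le_rfl
  · have a0 : h y = ∑ s, p y s * h (δ y s) := by rw [hfix', if_neg hz, if_pos hy]
    rw [h5 y hz, ← a0]
    gcongr
    exact ENNReal.le_sub_of_add_le_right (hfin y) (by rw [a0]; exact (hsplit y hy).le)

theorem all_rows (p ρ : σ → Step D → ℝ≥0∞) (k : ℝ≥0∞) (hk : 1 ≤ k) (h1 : ∀ z, ∑ s, p z s ≤ 1)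
    (T : Finset σ) : ∀ p' : σ → Step D → ℝ≥0∞, (∀ z, ∑ s, p' z s = ∑ s, p z s) →
      (∀ z s, p' z s ≤ k * p z s) → (∀ z s, p z s ≤ k * p' z s) →
      (∀ z ∈ S, z ∉ T → p' z = p z) →
      ∀ z, (op δ S p' ρ).lfp z ≤ k ^ (2 * T.card) * (op δ S p ρ).lfp z := by
  induction T using Finset.induction_on with
  | empty =>
    intro p' _ _ _ h5 z
    have : op δ S p' ρ = op δ S p ρ := by
      ext u y
      rw [op_apply, op_apply]
      split_ifs with hy
      · rw [h5 y hy (by simp)]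
      · rfl
    simp [this]
  | insert a T ha ih =>
    intro p' h2 h3 h4 h5 z
    have hup : ∀ Q : σ → (Step D → ℝ≥0∞) → Prop, (∀ y, Q y (p y)) → (∀ y, Q y (p' y)) →
        ∀ y, Q y (Function.update p' a (p a) y) := fun Q a1 a2 y => by
      by_cases hy : y = a
      · rw [hy, Function.update_self]
        exact a1 a
      · rw [Function.update_of_ne hy]
        exact a2 y
    have b1 := hup (fun y q => ∑ s, q s = ∑ s, p y s) (fun _ => rfl) h2
    have b2 := ih (Function.update p' a (p a)) b1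
      (hup (fun y q => ∀ s, q s ≤ k * p y s) (fun _ _ => le_mul_of_one_le_left' hk) h3)
      (hup (fun y q => ∀ s, p y s ≤ k * q s) (fun _ _ => le_mul_of_one_le_left' hk) h4)
      (fun y hy hT => by
        by_cases hya : y = a
        · rw [hya, Function.update_self]
        · rw [Function.update_of_ne hya]
          exact h5 y hy (by simp [hya, hT])) z
    have b3 := one_row δ S (Function.update p' a (p a)) p' ρ k hk a
      (fun y => (b1 y).trans_le (h1 y)) (by rw [Function.update_self]; exact h2 a)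
      (by rw [Function.update_self]; exact h3 a) (by rw [Function.update_self]; exact h4 a)
      (fun y hy => (Function.update_of_ne hy _ _).symm) z
    rw [Finset.card_insert_of_notMem ha, mul_add, mul_one, add_comm, pow_add, mul_assoc]
    exact b3.trans (by gcongr)

theorem aw_cons (P : σ → Step D → ℝ) (r : σ → Step D → ℝ≥0) (z : σ) (s : Step D)
    (l : List (Step D)) : aw δ S P r z (s :: l) = if z ∈ S then ENNReal.ofReal (P z s) *
      ((if l = [] then (r z s : ℝ≥0∞) else 0) + aw δ S P r (δ z s) l) else 0 := by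
  cases l <;> simp [aw]

theorem CU_eq (P : σ → Step D → ℝ) (r : σ → Step D → ℝ≥0) :
    CU δ S P r = (op δ S (fun z s => ENNReal.ofReal (P z s)) fun z s => r z s).lfp :=
  tsum_eq_lfp δ S _ _ (aw δ S P r) (fun z s l => if l = [] then (r z s : ℝ≥0∞) else 0)
    (fun _ => rfl) (aw_cons δ S P r) fun _ _ => tsum_ite_eq [] _

theorem CT_eq (P : σ → Step D → ℝ) (c r : σ → Step D → ℝ≥0) :
    CT δ S P c r = (op δ S (fun z s => ENNReal.ofReal (P z s))
      fun z s => c z s * (r z s + CU δ S P r (δ z s))).lfp := by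
  refine tsum_eq_lfp δ S _ _ (fun z l => cnt δ c z l * aw δ S P r z l) (fun z s l => c z s *
    ((if l = [] then (r z s : ℝ≥0∞) else 0) + aw δ S P r (δ z s) l)) (fun _ => by simp [aw])
    (fun z s l => ?_) fun z s => ?_
  · rw [aw_cons]
    cases l with
    | nil => simp [cnt, aw, mul_left_comm]
    | cons t l =>
      rw [cnt]
      split_ifs <;> first | contradiction | ring
  · rw [ENNReal.tsum_mul_left, ENNReal.tsum_add, tsum_ite_eq]
    rfl

end Ch1

open Ch1 in
theorem ch1 : CH1Stmt := by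
  intro D σ _ δ S P P' c r κ hκ h0 h0' h1 h2 h3 h4 z
  have hk : 1 ≤ ENNReal.ofReal κ := ENNReal.one_le_ofReal.mpr hκ
  have key := fun ρ => all_rows δ S (fun z s => ENNReal.ofReal (P z s)) ρ _ hk
    (fun z => by
      rw [← ENNReal.ofReal_sum_of_nonneg fun s _ => h0 z s]
      exact ENNReal.ofReal_le_one.mpr (h1 z)) S (fun z s => ENNReal.ofReal (P' z s))
    (fun z => by
      rw [← ENNReal.ofReal_sum_of_nonneg fun s _ => h0 z s,
        ← ENNReal.ofReal_sum_of_nonneg fun s _ => h0' z s, h2])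
    (fun z s => by
      rw [← ENNReal.ofReal_mul (by linarith)]
      exact ENNReal.ofReal_le_ofReal (h3 z s))
    (fun z s => by
      rw [← ENNReal.ofReal_mul (by linarith)]
      exact ENNReal.ofReal_le_ofReal (h4 z s)) (fun z h h' => absurd h h')
  have hU : ∀ z, CU δ S P' r z ≤ ENNReal.ofReal κ ^ (2 * S.card) * CU δ S P r z := fun z => by
    rw [CU_eq, CU_eq]
    exact key _ z
  rw [ENNReal.ofReal_pow (by linarith), ENNReal.ofReal_pow (by linarith)]
  refine ⟨hU z, ?_⟩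
  rw [CT_eq, CT_eq]
  refine (lfp_reward δ S _ (fun z s => c z s * (r z s + CU δ S P r (δ z s))) _
    (ENNReal.ofReal κ ^ (2 * S.card)) (fun y s => ?_) z).trans ?_
  · rw [mul_left_comm, mul_add (_ ^ _)]
    gcongr
    · exact le_mul_of_one_le_left' (one_le_pow₀ hk)
    · exact hU _
  · refine (mul_le_mul' le_rfl (key _ z)).trans ?_
    rw [← mul_assoc, ← pow_add]
    exact mul_le_mul' (pow_le_pow_right₀ hk (by omega)) le_rfl

end Pool.Agent.MP_8c549f_pr

/-!
Green function of a finite chain: charged runs and rationality.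
-/

set_option autoImplicit false

namespace Pool.Agent.MP_8c549f_pr

open scoped ENNReal NNReal

namespace Ch2

open Ch1

variable {D : ℕ} {σ : Type} [DecidableEq σ] (δ : σ → Step D → σ) (S : Finset σ)
  (P : σ → Step D → ℝ)

theorem term_cons (z y : σ) (s : Step D) (l : List (Step D)) :
    (if (s :: l).foldl δ z = y then cw δ S P z (s :: l) else 0) = if z ∈ S then
      ENNReal.ofReal (P z s) * (if l.foldl δ (δ z s) = y then cw δ S P (δ z s) l else 0)
        else 0 := by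
  rw [List.foldl_cons, cw]
  split_ifs <;> simp

theorem CG_fix (z y : σ) : CG δ S P z y = if z ∈ S then (if z = y then 1 else 0) +
    ∑ s, ENNReal.ofReal (P z s) * CG δ S P (δ z s) y else 0 := by
  rw [CG, tsum_list]
  simp only [term_cons]
  simp only [List.foldl_nil, cw]
  by_cases hz : z ∈ S
  · simp only [if_pos hz, ENNReal.tsum_mul_left, CG]
  · simp [hz]

/-- induction principle for a multiple of the Green function -/
theorem CG_le (y : σ) (a : ℝ≥0∞) (v : σ → ℝ≥0∞)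
    (h : ∀ u : σ → ℝ≥0∞, (∀ z, u z ≤ CG δ S P z y * a) → (∀ z, u z ≤ v z) → ∀ z ∈ S,
      (if z = y then a else 0) + ∑ s, ENNReal.ofReal (P z s) * u (δ z s) ≤ v z) (z : σ) :
    CG δ S P z y * a ≤ v z := by
  let F : ℕ → σ → ℝ≥0∞ := fun n z => ∑' l : List (Step D),
    if l.length < n then (if l.foldl δ z = y then cw δ S P z l else 0) * a else 0
  have h1 : ∀ n z, F n z ≤ CG δ S P z y * a := fun n z => by
    rw [CG, ← ENNReal.tsum_mul_right]
    exact ENNReal.tsum_le_tsum fun l => by split_ifs <;> simp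
  have key : ∀ n z, F n z ≤ v z := fun n => by
    induction n with
    | zero => simp [F]
    | succ n ih =>
      intro z
      by_cases hz : z ∈ S
      · refine le_trans (le_of_eq ?_) (h (F n) (h1 n) ih z hz)
        simp only [F]
        rw [tsum_list]
        simp only [term_cons]
        simp only [List.foldl_nil, cw, if_pos hz, List.length_nil, Nat.zero_lt_succ,
          if_true, List.length_cons, Nat.add_lt_add_iff_right, ← ENNReal.tsum_mul_left]
        congr 1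
        · split_ifs <;> simp
        · exact Finset.sum_congr rfl fun s _ => tsum_congr fun l => by
            split_ifs <;> simp [mul_assoc]
      · simp only [F]
        rw [tsum_list]
        simp [cw, hz]
  rw [CG, ← ENNReal.tsum_mul_right, ENNReal.tsum_eq_iSup_sum]
  refine iSup_le fun T => le_trans (le_trans (Finset.sum_le_sum fun l hl => ?_)
    (ENNReal.sum_le_tsum T)) (key (T.sup List.length + 1) z)
  rw [if_pos (Nat.lt_succ_of_le (Finset.le_sup hl))]

theorem lfp_le_CG (ρ : σ → Step D → ℝ≥0∞) (z : σ) :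
    (op δ S (fun z s => ENNReal.ofReal (P z s)) ρ).lfp z ≤
      ∑ y ∈ S, CG δ S P z y * ∑ s, ENNReal.ofReal (P y s) * ρ y s := by
  refine OrderHom.lfp_le (op δ S _ ρ)
    (a := fun z => ∑ y ∈ S, CG δ S P z y * ∑ s, ENNReal.ofReal (P y s) * ρ y s) (fun z => ?_) z
  rw [op_apply]
  split_ifs with hz
  swap
  · exact zero_le
  simp only [CG_fix δ S P z, if_pos hz, add_mul, mul_add, Finset.sum_add_distrib, ite_mul, one_mul,
    zero_mul, Finset.sum_ite_eq]
  refine add_le_add le_rfl (le_of_eq ?_)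
  simp only [Finset.sum_mul]
  rw [Finset.sum_comm (s := S)]
  simp only [mul_assoc, ← Finset.mul_sum]

theorem CU_fix (r : σ → Step D → ℝ≥0) (z : σ) : CU δ S P r z = if z ∈ S then
    ∑ s, ENNReal.ofReal (P z s) * (r z s + CU δ S P r (δ z s)) else 0 := by
  rw [CU_eq]
  exact (congrFun (OrderHom.map_lfp _) z).symm

theorem CG_reward (r : σ → Step D → ℝ≥0) (z y : σ) (s : Step D) :
    CG δ S P z y * (ENNReal.ofReal (P y s) * r y s) ≤ CU δ S P r z :=
  CG_le δ S P y _ _ (fun u _ h2 z hz => by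
    rw [CU_fix, if_pos hz]
    simp only [mul_add, Finset.sum_add_distrib]
    gcongr with t
    · split_ifs with h
      · exact h ▸ Finset.single_le_sum (f := fun s => ENNReal.ofReal (P z s) * r z s)
          (fun _ _ => zero_le) (Finset.mem_univ s)
      · exact zero_le
    · exact h2 _) z

theorem CG_step (r : σ → Step D → ℝ≥0) (z y : σ) (s : Step D) {Γ : ℝ≥0∞}
    (hΓ : CG δ S P (δ y s) y * ENNReal.ofReal (P y s) ≤ Γ) :
    CG δ S P z y * (ENNReal.ofReal (P y s) * CU δ S P r (δ y s)) ≤ (1 + Γ) * CU δ S P r z :=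
  CG_le δ S P y _ (fun z => (1 + Γ) * CU δ S P r z) (fun u h1 h2 z hz => by
    have h3 : (1 + Γ) * ∑ t, ENNReal.ofReal (P z t) * CU δ S P r (δ z t) ≤
        (1 + Γ) * CU δ S P r z := by
      rw [CU_fix δ S P r z, if_pos hz]
      gcongr
      exact le_add_self
    have h4 : ∀ t, ENNReal.ofReal (P z t) * u (δ z t) ≤
        (1 + Γ) * (ENNReal.ofReal (P z t) * CU δ S P r (δ z t)) := fun t => by
      rw [mul_left_comm]
      exact mul_le_mul' le_rfl (h2 _)
    refine le_trans ?_ h3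
    rw [Finset.mul_sum]
    split_ifs with h
    · subst h
      rw [← Finset.add_sum_erase _ _ (Finset.mem_univ s),
        ← Finset.add_sum_erase _ _ (Finset.mem_univ s), ← add_assoc, add_mul, one_mul]
      refine add_le_add (add_le_add le_rfl ?_) (Finset.sum_le_sum fun t _ => h4 t)
      refine (mul_le_mul' le_rfl (h1 _)).trans ?_
      rw [← mul_assoc, mul_comm (ENNReal.ofReal _) (CG δ S P _ _)]
      exact mul_le_mul' hΓ le_rfl
    · rw [zero_add]
      exact Finset.sum_le_sum fun t _ => h4 t) z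

theorem CG_le_diag (h0 : ∀ z s, 0 ≤ P z s) (h1 : ∀ z, ∑ s, P z s ≤ 1) (z y : σ) :
    CG δ S P z y ≤ CG δ S P y y := by
  rw [← mul_one (CG δ S P z y)]
  refine CG_le δ S P y 1 (fun _ => CG δ S P y y) (fun u a1 a2 w hw => ?_) z
  split_ifs with h
  · subst h
    rw [CG_fix, if_pos hw, if_pos rfl]
    gcongr
    exact (a1 _).trans (mul_one _).le
  · rw [zero_add]
    refine (Finset.sum_le_sum fun s _ => mul_le_mul' le_rfl (a2 _)).trans ?_
    rw [← Finset.sum_mul, ← ENNReal.ofReal_sum_of_nonneg fun s _ => h0 w s]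
    exact mul_le_of_le_one_left' (ENNReal.ofReal_le_one.mpr (h1 w))

/-- the matrix of the chain on `S` -/
noncomputable def mat : Matrix S S ℝ :=
  1 - Matrix.of fun z w : S => ∑ s, if δ z s = w then P z s else 0

theorem mat_mulVec (h0 : ∀ z s, 0 ≤ P z s) (u R : σ → ℝ≥0∞) (hu : ∀ z, u z ≠ ∞)
    (hR : ∀ z, R z ≠ ∞)
    (h : ∀ z, u z = if z ∈ S then R z + ∑ s, ENNReal.ofReal (P z s) * u (δ z s) else 0) :
    (mat δ S P).mulVec (fun w => (u w).toReal) = fun z : S => (R z).toReal := by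
  funext z
  have h1 := congrArg ENNReal.toReal (h z)
  rw [if_pos z.2, ENNReal.toReal_add (hR _) (ENNReal.sum_ne_top.mpr fun s _ =>
    ENNReal.mul_ne_top ENNReal.ofReal_ne_top (hu _)), ENNReal.toReal_sum fun s _ =>
    ENNReal.mul_ne_top ENNReal.ofReal_ne_top (hu _)] at h1
  rw [mat, Matrix.sub_mulVec, Matrix.one_mulVec, Pi.sub_apply, h1, sub_eq_iff_eq_add]
  congr 1
  simp only [Matrix.mulVec, dotProduct, Matrix.of_apply, Finset.sum_mul]
  rw [Finset.sum_comm]
  refine Finset.sum_congr rfl fun s _ => ?_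
  rw [ENNReal.toReal_mul, ENNReal.toReal_ofReal (h0 _ _)]
  by_cases hs : δ z s ∈ S
  · rw [Finset.sum_eq_single ⟨_, hs⟩ (fun w _ hw => by
      rw [if_neg fun e => hw (Subtype.ext e.symm), zero_mul]) (by simp), if_pos rfl]
  · rw [h, if_neg hs, Finset.sum_eq_zero fun w _ => by
      rw [if_neg fun e : δ z s = w => hs (e ▸ w.2), zero_mul]]
    simp

theorem det_mat (h0 : ∀ z s, 0 ≤ P z s) (h1 : ∀ z, ∑ s, P z s ≤ 1)
    (h2 : ∀ y ∈ S, CG δ S P y y ≠ ∞) : (mat δ S P).det ≠ 0 := by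
  refine Matrix.det_ne_zero_of_right_inverse
    (B := Matrix.of fun z y : S => (CG δ S P z y).toReal) ?_
  ext z y
  have := congrFun (mat_mulVec δ S P h0 (fun z => CG δ S P z y) (fun z => if z = y then 1 else 0)
    (fun z => ne_top_of_le_ne_top (h2 y y.2) (CG_le_diag δ S P h0 h1 z y))
    (fun z => by split_ifs <;> simp) fun z => CG_fix δ S P z y) z
  refine this.trans ?_
  rw [Matrix.one_apply]
  by_cases h : z = y
  · simp [h]
  · rw [if_neg h, if_neg fun e => h (Subtype.ext e)]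
    rfl

theorem isRat_det {ι : Type} [Fintype ι] [DecidableEq ι] (M : ℝ → Matrix ι ι ℝ)
    (h : ∀ i j, IsRat fun x => M x i j) : IsRat fun x => (M x).det := by
  simp only [Matrix.det_apply']
  exact isRat_sum _ fun π _ => (isRat_const _).mul (isRat_prod _ fun i _ => h _ _)

theorem isRat_solve {ι : Type} [Fintype ι] [DecidableEq ι] (M : ℝ → Matrix ι ι ℝ)
    (b v : ℝ → ι → ℝ) (hM : ∀ i j, IsRat fun x => M x i j) (hb : ∀ i, IsRat fun x => b x i)
    (hd : ∀ x, 0 ≤ x → (M x).det ≠ 0) (h : ∀ x, 0 ≤ x → (M x).mulVec (v x) = b x) (i : ι) :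
    IsRat fun x => v x i := by
  refine ((isRat_det (fun x => (M x).updateCol i (b x)) fun j k => ?_).div (isRat_det M hM)
    hd).congr fun x hx => ?_
  · by_cases hk : k = i
    · simpa only [Matrix.updateCol_apply, if_pos hk] using hb j
    · simpa only [Matrix.updateCol_apply, if_neg hk] using hM j k
  · have hu : IsUnit (M x).det := (hd x hx).isUnit
    have := congrFun (Matrix.det_smul_inv_mulVec_eq_cramer (M x) (b x) hu) i
    rw [← h x hx, Matrix.mulVec_mulVec, Matrix.nonsing_inv_mul _ hu, Matrix.one_mulVec,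
      Matrix.cramer_apply, h x hx] at this
    rw [← this, div_eq_iff (hd x hx), mul_comm]
    rfl

theorem lfp_rat (P : ℝ → σ → Step D → ℝ) (ρ : ℝ → σ → Step D → ℝ≥0∞)
    (hP : ∀ z s, IsRat fun lam => P lam z s) (h0 : ∀ lam, 0 ≤ lam → ∀ z s, 0 ≤ P lam z s)
    (h1 : ∀ lam, 0 ≤ lam → ∀ z, ∑ s, P lam z s ≤ 1)
    (h2 : ∀ lam, 0 ≤ lam → ∀ y ∈ S, CG δ S (P lam) y y ≠ ∞)
    (h3 : ∀ lam, 0 ≤ lam → ∀ z s, ρ lam z s ≠ ∞) (h4 : ∀ z s, IsRat fun lam => (ρ lam z s).toReal)
    (z : σ) : (∀ lam, 0 ≤ lam →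
      (op δ S (fun z s => ENNReal.ofReal (P lam z s)) (ρ lam)).lfp z ≠ ∞) ∧
      IsRat fun lam => ((op δ S (fun z s => ENNReal.ofReal (P lam z s)) (ρ lam)).lfp z).toReal := by
  have hR : ∀ lam, 0 ≤ lam → ∀ y, ∑ s, ENNReal.ofReal (P lam y s) * ρ lam y s ≠ ∞ :=
    fun lam h y => ENNReal.sum_ne_top.mpr fun s _ =>
      ENNReal.mul_ne_top ENNReal.ofReal_ne_top (h3 lam h y s)
  have hfin : ∀ lam, 0 ≤ lam → ∀ z,
      (op δ S (fun z s => ENNReal.ofReal (P lam z s)) (ρ lam)).lfp z ≠ ∞ := fun lam h z =>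
    ne_top_of_le_ne_top (ENNReal.sum_ne_top.mpr fun y hy => ENNReal.mul_ne_top
      (ne_top_of_le_ne_top (h2 lam h y hy) (CG_le_diag δ S _ (h0 lam h) (h1 lam h) z y))
      (hR lam h y)) (lfp_le_CG δ S _ _ z)
  have hfix := fun lam z => (congrFun (OrderHom.map_lfp
    (op δ S (fun z s => ENNReal.ofReal (P lam z s)) (ρ lam))) z).symm
  refine ⟨fun lam h => hfin lam h z, ?_⟩
  by_cases hz : z ∈ S
  · refine isRat_solve (fun lam => mat δ S (P lam))
      (fun lam y => (∑ s, ENNReal.ofReal (P lam y s) * ρ lam y s).toReal)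
      (fun lam (y : S) =>
        ((op δ S (fun z s => ENNReal.ofReal (P lam z s)) (ρ lam)).lfp y).toReal)
      (fun i j => ?_) (fun i => ?_) (fun lam h => det_mat δ S _ (h0 lam h) (h1 lam h) (h2 lam h))
      (fun lam h => mat_mulVec δ S _ (h0 lam h) _ _ (hfin lam h) (hR lam h) fun y => ?_) ⟨z, hz⟩
    · refine (isRat_const ((1 : Matrix S S ℝ) i j)).sub
        (isRat_sum (Finset.univ : Finset (Step D)) fun s _ => ?_)
      split_ifs
      exacts [hP _ _, isRat_const 0]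
    · refine (isRat_sum Finset.univ fun s _ => (hP i s).mul (h4 i s)).congr fun lam h => ?_
      rw [ENNReal.toReal_sum fun s _ => ENNReal.mul_ne_top ENNReal.ofReal_ne_top (h3 lam h _ s)]
      simp only [ENNReal.toReal_mul, ENNReal.toReal_ofReal (h0 lam h _ _)]
    · rw [hfix lam y, op_apply]
      simp only [mul_add, Finset.sum_add_distrib]
  · refine (isRat_const 0).congr fun lam _ => ?_
    rw [hfix lam z, op_apply, if_neg hz]
    rfl

end Ch2

open Ch1 Ch2 in
theorem ch2 : CH2Stmt := by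
  intro D σ _ δ S P c r Γ _ _ hc hΓ z n
  induction n generalizing z with
  | zero =>
    have e : ∀ f : List (Step D) → ℝ≥0∞, f [] = 0 →
        ∑' l : List (Step D), (if 0 < l.length then f l else 0) = ∑' l, f l := fun f h =>
      tsum_congr fun l => by cases l <;> simp [h]
    rw [e _ (by simp [aw]), e _ rfl]
    change CT δ S P c r z ≤ _ * CU δ S P r z
    rw [CT_eq]
    refine (lfp_le_CG δ S P _ z).trans ?_
    have key : ∀ y ∈ S, ∀ s, CG δ S P z y * (ENNReal.ofReal (P y s) *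
        (c y s * (r y s + CU δ S P r (δ y s)))) ≤ (2 + Γ) * CU δ S P r z := fun y hy s => by
      by_cases h1 : c y s = 0
      · simp [h1]
      refine le_trans (mul_le_mul' le_rfl (mul_le_mul' le_rfl
        (mul_le_of_le_one_left' (by exact_mod_cast hc y s)))) ?_
      rw [mul_add, mul_add, ← one_add_one_eq_two, add_assoc, add_mul, one_mul]
      refine add_le_add (CG_reward δ S P r z y s) ?_
      by_cases h2 : CU δ S P r (δ y s) = 0
      · simp [h2]
      · exact CG_step δ S P r z y s (hΓ y hy s h1 h2)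
    simp only [Finset.mul_sum]
    refine (Finset.sum_le_sum fun y hy => Finset.sum_le_sum fun s _ => key y hy s).trans
      (le_of_eq ?_)
    simp only [Finset.sum_const, Finset.card_univ, Fintype.card_prod, Fintype.card_fin,
      Fintype.card_bool, nsmul_eq_mul]
    push_cast
    ring
  | succ n ih =>
    rw [tsum_list, tsum_list]
    simp only [List.length_nil, Nat.not_lt_zero, if_false, zero_add, List.length_cons,
      Nat.add_lt_add_iff_right, Finset.mul_sum]
    refine Finset.sum_le_sum fun s _ => ?_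
    by_cases hz : z ∈ S
    swap
    · simp [aw, hz]
    have e : ∀ l : List (Step D), n < l.length → aw δ S P r z (s :: l) =
        ENNReal.ofReal (P z s) * aw δ S P r (δ z s) l := fun l hl => by
      rw [aw, if_pos hz, if_neg (by rintro rfl; simp at hl)]
    calc _ ≤ ∑' l : List (Step D), ENNReal.ofReal (P z s) *
          ((if n < l.length then aw δ S P r (δ z s) l else 0) +
            if n < l.length then cnt δ c (δ z s) l * aw δ S P r (δ z s) l else 0) :=
          ENNReal.tsum_le_tsum fun l => by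
            split_ifs with hl
            · rw [e l hl, cnt, mul_left_comm, add_mul]
              gcongr
              exact mul_le_of_le_one_left' (by exact_mod_cast hc z s)
            · exact zero_le
      _ ≤ ENNReal.ofReal (P z s) * ((1 + (n + S.card * (2 * D + 2) * (2 + Γ))) *
          ∑' l : List (Step D), if n < l.length then aw δ S P r (δ z s) l else 0) := by
          rw [ENNReal.tsum_mul_left, ENNReal.tsum_add, add_mul, one_mul]
          gcongr
          exact ih _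
      _ = _ := by
          rw [mul_left_comm, ← ENNReal.tsum_mul_left]
          congr 1
          · push_cast
            ring
          · exact tsum_congr fun l => by
              split_ifs with hl
              exacts [(e l hl).symm, mul_zero _]

open Ch1 Ch2 in
theorem ch3 : CH3Stmt := by
  intro D σ _ δ S P c r hP h0 h1 h2 z
  have hU : ∀ z, (∀ lam, 0 ≤ lam → CU δ S (P lam) r z ≠ ∞) ∧
      IsRat fun lam => (CU δ S (P lam) r z).toReal := fun z => by
    simp only [CU_eq]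
    exact lfp_rat δ S P (fun _ z s => r z s) hP h0 h1 h2 (fun _ _ _ _ => ENNReal.coe_ne_top)
      (fun _ _ => isRat_const _) z
  have hT := lfp_rat δ S P (fun lam z s => c z s * (r z s + CU δ S (P lam) r (δ z s))) hP h0 h1 h2
    (fun lam h z s => ENNReal.mul_ne_top ENNReal.coe_ne_top
      (ENNReal.add_ne_top.mpr ⟨ENNReal.coe_ne_top, (hU _).1 lam h⟩))
    (fun z s => ((isRat_const (c z s)).mul ((isRat_const (r z s)).add (hU (δ z s)).2)).congr
      fun lam h => by
        rw [ENNReal.toReal_mul, ENNReal.toReal_add ENNReal.coe_ne_top ((hU _).1 lam h)]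
        rfl) z
  simp only [← CT_eq] at hT
  exact ⟨fun lam h => ⟨(hU z).1 lam h, hT.1 lam h⟩, (hU z).2, hT.2⟩

end Pool.Agent.MP_8c549f_pr

/-!
Elementary facts on pieces: locality, uniform Lipschitz bounds, sums over pieces.
-/

set_option autoImplicit false

namespace Pool.Agent.MP_8c549f_pr

open MeasureTheory Filter Topology Real
open scoped ENNReal NNReal

namespace PieceB

variable {D : ℕ}

theorem card_Box (D m r : ℕ) : (Box D m r).card = m * (2 * r + 1) ^ D := by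
  rw [Box, Fintype.card_piFinset, Fin.prod_univ_succ]
  have h : ∀ i : Fin D, (if i.succ = (0 : Fin (D + 1)) then Finset.Ico (0 : ℤ) m
      else Finset.Icc (-(r : ℤ)) r).card = 2 * r + 1 := fun i => by
    rw [if_neg (Fin.succ_ne_zero i), Int.card_Icc]
    omega
  simp only [h, if_true, Int.card_Ico, Finset.prod_const, Finset.card_univ, Fintype.card_fin]
  simp

theorem card_Box_le (D m r : ℕ) : (Box D m r).card ≤ NN D m r := by
  rw [card_Box, NN]
  refine Nat.mul_le_mul ?_ (Nat.pow_le_pow_right (by omega) (by omega))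
  have := Nat.le_self_pow (n := 3) (by norm_num) (m + 1)
  omega

theorem H_lt {l : List (Step D)} (h : Block l) {i : ℕ} (hi : i < l.length) : H l i < lev l := by
  obtain ⟨-, ⟨h1, -, h2, h3⟩, -⟩ := h
  rw [H_length] at h2
  rcases (show i < l.length - 1 ∨ i = l.length - 1 by omega) with h4 | rfl
  · have := h3 i h4
    omega
  · omega

theorem rad_le_ext (l : List (Step D)) {i : ℕ} (hi : i ≤ l.length) : rad (loc l i) ≤ ext l :=
  Finset.le_sup (f := fun i => rad (loc l i)) (Finset.mem_range.mpr (by omega))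

theorem loc_mem {m r : ℕ} {l : List (Step D)} (h : Piece m r l) {i : ℕ} (hi : i < l.length) :
    loc l i ∈ Box D m r :=
  mem_Box.mpr ⟨h.1.1 i hi.le, h.2.1 ▸ H_lt h.1 hi, h.2.2 ▸ rad_le_ext l hi.le⟩

theorem W_eq (lam : ℝ) {m r : ℕ} {ω ω' : Cfg D}
    (hω : ∀ e ∈ (near (Box D m r) : Set (Edge D)), ω e = ω' e) {l : List (Step D)}
    (h : Piece m r l) : W lam ω 0 l = W lam ω' 0 l :=
  W_congr lam l 0 fun i hi s => hω _ (Finset.mem_coe.mpr
    (mem_near.mpr ⟨_, loc_mem h hi, s, by rw [zero_add]⟩))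

theorem antich_lev (m : ℤ) : Antich {l : List (Step D) | Block l ∧ lev l = m} := by
  rintro u hu _ hl ⟨t, rfl⟩
  rcases t with _ | ⟨s, t⟩
  · simp
  · have h1 := H_lt hl.1 (i := u.length) (by simp)
    rw [H_append_left _ le_rfl, H_length, hu.2, hl.2] at h1
    exact absurd h1 (lt_irrefl _)

theorem antich_piece (m r : ℕ) : Antich {l : List (Step D) | Piece m r l} :=
  (antich_lev (m : ℤ)).mono fun _ h => ⟨h.1, h.2.1⟩

theorem esc_mono {ω : Cfg D} {B : Finset (V D)} {x : V D} {t t' : ℤ} (h : Esc ω B x t)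
    (ht : t' ≤ t) : Esc ω B x t' := by
  obtain ⟨l, h1, h2, h3⟩ := h
  exact ⟨l, h1, h2, fun i hi => ⟨(h3 i hi).1, (h3 i hi).2.1, ht.trans (h3 i hi).2.2⟩⟩

theorem esc_congr {ω ω' : Cfg D} {B : Finset (V D)}
    (hω : ∀ e ∈ (near B : Set (Edge D)), ω e = ω' e) {x : V D} {t : ℤ} (h : Esc ω B x t) :
    Esc ω' B x t := by
  obtain ⟨l, h1, h2, h3⟩ := h
  exact ⟨l, h1, h2, fun i hi => ⟨(h3 i hi).1, (hω _ (Finset.mem_coe.mpr
    (mem_near.mpr ⟨_, (h3 i hi).1, _, rfl⟩))).symm.trans (h3 i hi).2.1, (h3 i hi).2.2⟩⟩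

theorem good_congr {ω ω' : Cfg D} {B : Finset (V D)}
    (hω : ∀ e ∈ (near B : Set (Edge D)), ω e = ω' e) {j : ℕ} (h : Good ω B j) : Good ω' B j :=
  fun x hx h1 s hs => esc_congr hω (h x hx (esc_congr (fun e he => (hω e he).symm) h1) s
    ((hω _ (Finset.mem_coe.mpr (mem_near.mpr ⟨_, hx, _, rfl⟩))).trans hs))

theorem lev_replicate (n : ℕ) : lev (List.replicate n (fwd D)) = n := by
  induction n with
  | zero => simp
  | succ n ih => rw [List.replicate_succ, lev_cons, ih, vec_fwd_zero]; push_cast; ring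

theorem piece_iff {l : List (Step D)} {q : ℕ × ℕ} :
    (Block l ∧ ((lev l).toNat, ext l) = q) ↔ Piece q.1 q.2 l := by
  obtain ⟨m, r⟩ := q
  refine and_congr_right fun h => ?_
  have := h.lev_pos
  rw [Prod.mk.injEq]
  exact and_congr_left fun _ => by omega

theorem rad_fwd (x : V D) : rad (x + vec (fwd D)) = rad x := by
  unfold rad
  congr 1
  funext j
  rw [vec_fwd, Pi.add_apply, Pi.single_eq_of_ne (Fin.succ_ne_zero j), add_zero]

end PieceB

open PieceB

theorem p4 (hE : ESCStmt) : P4Stmt := by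
  intro D m r
  refine ⟨card_Box_le D m r, ?_, fun lam ω ω' h => SS_congr fun l hl => W_eq lam h hl,
    fun lam ω ω' h => SS_congr fun l hl => by rw [W_eq lam h hl],
    fun j ω ω' h => propext ⟨good_congr h, good_congr fun e he => (h e he).symm⟩,
    fun lam ω => ⟨kraft lam ω (antich_piece m r) 0, ?_⟩, fun ω x hx h s _ => esc_mono h ?_,
    fun x hx _ s _ => ?_, fun ω j h x hx h1 s hs => esc_mono (h x hx h1 s hs) (by push_cast; omega)⟩
  · refine Finset.card_image_le.trans ?_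
    rw [Finset.card_product, Finset.card_univ, Fintype.card_prod, Fintype.card_fin,
      Fintype.card_bool, mul_comm]
    exact Nat.mul_le_mul (by omega) (card_Box_le D m r)
  · rw [Uq, ← SS_mul_left]
    refine SS_mono le_rfl fun l hl => mul_le_mul_left ?_ _
    have := lev_le_length l
    rw [hl.2.1] at this
    exact_mod_cast this
  · have h1 := (mem_Box.mp hx).2.1
    have h2 := (vec_bounds s 0).2
    unfold expo
    push_cast
    omega
  · have h1 := mem_Box.mp hx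
    refine hE D _ _ x _ (List.replicate m (fwd D)) (fun h => ?_) fun i hi => ⟨rfl, ?_⟩
    · have h2 := (mem_Box.mp h).2.1
      have h3 := lev_replicate (D := D) m
      rw [Pi.add_apply] at h2
      unfold lev at h3
      omega
    · have h2 := (vec_bounds s 0).2
      have h3 : loc (List.replicate m (fwd D)) i 0 = (min i m : ℕ) := by
        rw [← lev_replicate (D := D), ← List.take_replicate]
        rfl
      rw [List.getElem_replicate]
      unfold expo
      rw [Pi.add_apply, h3, vec_fwd_zero]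
      push_cast
      omega

theorem p5 (hR : RATStmt) (h2 : P2Stmt) (h3 : P3Stmt) (h4 : P4Stmt) : P5Stmt := by
  intro D m r
  obtain ⟨-, -, dU, dT, -, hU, -⟩ := h4 D m r
  have key : ∀ κ : near (Box D m r) → Bool, ∃ C : ℝ, 0 ≤ C ∧ ∀ ω : Cfg D, (∀ e, κ e = ω e) →
      ω (edge 0 (bck D)) = true → Good ω (Box D m r) 0 → ∀ x y, 0 ≤ x → x ≤ y →
        Tq x ω m r ≤ ENNReal.ofReal C ∧
        |(Tq y ω m r).toReal - (Tq x ω m r).toReal| ≤ C * (y - x) * exp (-x) ∧
        |(Uq y ω m r).toReal - (Uq x ω m r).toReal| ≤ C * (y - x) * exp (-x) := fun κ => by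
    by_cases h : ∃ ω : Cfg D, (∀ e, κ e = ω e) ∧ ω (edge 0 (bck D)) = true ∧ Good ω (Box D m r) 0
    swap
    · exact ⟨0, le_rfl, fun ω h5 h6 h7 => absurd ⟨ω, h5, h6, h7⟩ h⟩
    obtain ⟨ω₀, h5, h6, h7⟩ := h
    set C₀ : ℝ := (6 * D + 6) * (NN D m r : ℝ) ^ 3
    have hC₀ : 0 ≤ C₀ := by positivity
    have hT : ∀ x, 0 ≤ x → Tq x ω₀ m r ≤ ENNReal.ofReal C₀ := fun x hx => by
      have h8 := h2 D x hx ω₀ m r 0 0 h7
      simp only [Nat.cast_zero, mul_zero, exp_zero, mul_one, zero_add] at h8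
      refine le_trans (SS_mono' fun l hl h9 => And.intro hl
        (Nat.pos_of_ne_zero fun h0 => h9 (by simp [h0]))) (h8.trans ?_)
      exact mul_le_of_le_one_right' ((SS_mono (fun l hl => hl.1) fun _ _ => le_rfl).trans (hU x ω₀).1)
    obtain ⟨-, rU, rT⟩ := h3 D ω₀ h6 m r
    obtain ⟨C₁, hC₁, b₁, -⟩ := hR _ C₀ rT fun x hx => by
      rw [abs_of_nonneg ENNReal.toReal_nonneg]
      exact ENNReal.toReal_le_of_le_ofReal hC₀ (hT x hx)
    obtain ⟨C₂, hC₂, b₂, -⟩ := hR _ 1 rU fun x hx => by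
      rw [abs_of_nonneg ENNReal.toReal_nonneg]
      exact ENNReal.toReal_le_of_le_ofReal zero_le_one ((hU x ω₀).1.trans_eq ENNReal.ofReal_one.symm)
    refine ⟨C₀ + C₁ + C₂, by positivity, fun ω h8 _ _ x y hx hxy => ?_⟩
    have h9 : ∀ e ∈ (near (Box D m r) : Set (Edge D)), ω e = ω₀ e := fun e he =>
      (h8 ⟨e, he⟩).symm.trans (h5 ⟨e, he⟩)
    have eT : ∀ z, Tq z ω m r = Tq z ω₀ m r := fun z => dT z ω ω₀ h9
    have eU : ∀ z, Uq z ω m r = Uq z ω₀ m r := fun z => dU z ω ω₀ h9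
    have h10 : 0 ≤ y - x := sub_nonneg.mpr hxy
    rw [eT, eT, eU, eU]
    refine ⟨(hT x hx).trans (ENNReal.ofReal_le_ofReal (by linarith)), (b₁ x y hx hxy).trans ?_,
      (b₂ x y hx hxy).trans ?_⟩
    · gcongr
      linarith
    · gcongr
      linarith
  choose C hC hC' using key
  refine ⟨∑ κ, C κ, Finset.sum_nonneg fun κ _ => hC κ, fun ω h5 h6 x y hx hxy => ?_⟩
  obtain ⟨h7, h8, h9⟩ := hC' (fun e => ω e) ω (fun _ => rfl) h5 h6 x y hx hxy
  have h10 : C (fun e => ω e) ≤ ∑ κ, C κ :=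
    Finset.single_le_sum (fun κ _ => hC κ) (Finset.mem_univ _)
  have h11 : 0 ≤ y - x := sub_nonneg.mpr hxy
  exact ⟨h7.trans (ENNReal.ofReal_le_ofReal h10), h8.trans (by gcongr), h9.trans (by gcongr)⟩

theorem sump : SUMPStmt := by
  intro D p lam _ _
  have hf : ∀ f : List (Step D) → ℝ≥0∞, SS {l | Block l} f =
      ∑' q : ℕ × ℕ, SS {l | Piece q.1 q.2 l} f := fun f => by
    rw [SS_fiber _ fun l => ((lev l).toNat, ext l)]
    exact tsum_congr fun q => congrArg (SS · f) (Set.ext fun l => piece_iff)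
  refine ⟨fun m r => SS_wb true p lam _, ?_, ?_, fun m => ?_, fun r => ?_, fun m r r' h => ?_,
    SS_mono le_rfl fun l hl => mul_le_mul_left ?_ _, SS_mono le_rfl fun l hl => ?_⟩
  · rw [AA, hf]
    refine tsum_congr fun q => ?_
    have hm : ∀ l : List (Step D), Measurable fun ω : Cfg D => W lam (plus ω) 0 l :=
      measurable_W_cfg true lam
    unfold Tq
    rw [lintegral_SS _ _ fun l => (hm l).const_mul _]
    exact SS_congr fun l _ => (lintegral_const_mul _ (hm l)).symm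
  · rw [BB, hf]
    refine tsum_congr fun q => ?_
    rw [UU, ← SS_mul_left]
    exact SS_congr fun l hl => by rw [hl.2.1, Int.toNat_natCast]
  · rw [SS_fiber _ ext]
    exact tsum_congr fun r => congrArg (SS · _) (Set.ext fun l => and_assoc.symm)
  · rw [UU, show {l : List (Step D) | Piece 0 r l} = ∅ from Set.eq_empty_of_forall_notMem
      fun l hl => by have := hl.1.lev_pos; rw [hl.2.1] at this; simp at this, SS_empty]
  · refine cover_wb true p lam (antich_piece _ _) fun l hl => ?_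
    have hex : ∃ t, t ≤ l.length ∧ r' ≤ rad (loc l t) := by
      obtain ⟨t, h1, h2⟩ := Finset.exists_mem_eq_sup (Finset.range (l.length + 1)) (by simp)
        fun i => rad (loc l i)
      exact ⟨t, by simpa [Nat.lt_succ_iff] using h1, h.trans (hl.2.2.symm.trans h2).le⟩
    classical
    obtain ⟨h1, h2⟩ := Nat.find_spec hex
    have h3 : ∀ k < Nat.find hex, rad (loc l k) < r' := fun k hk =>
      not_le.mp fun h4 => Nat.find_min hex hk ⟨by omega, h4⟩
    generalize Nat.find hex = t at h1 h2 h3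
    have h4 : t < l.length := lt_of_le_of_ne h1 fun e => by
      obtain ⟨h5, -, h6, -⟩ := hl.1.2.1
      have h7 : l.length - 1 < l.length := by omega
      have h8 := H_succ h7
      have h9 := loc_succ h7
      rw [show l.length - 1 + 1 = l.length by omega] at h8 h9
      rw [vec_zero_eq_one.mp (show vec l[l.length - 1] 0 = 1 by omega)] at h9
      have h10 := h3 (l.length - 1) (by omega)
      rw [e, h9, rad_fwd] at h2
      omega
    have h5 : (l.take t).length = t := by rw [List.length_take]; omega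
    refine ⟨l.take t, ⟨fun k hk => ?_, by rwa [pos_take], fun k hk => ?_⟩, List.take_prefix t l⟩
    · rw [h5] at hk
      rw [H_take l hk]
      have h6 := H_lt hl.1 (hk.trans_lt h4)
      rw [hl.2.1] at h6
      exact ⟨hl.1.1 k (by omega), by push_cast at h6; omega⟩
    · rw [h5] at hk
      rw [loc_take l hk.le]
      exact h3 k hk
  · have := lev_le_length l
    exact_mod_cast (by omega : (lev l).toNat ≤ l.length)
  · have := hl.lev_pos
    exact le_mul_of_one_le_left' (by exact_mod_cast (by omega : 1 ≤ (lev l).toNat))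

end Pool.Agent.MP_8c549f_pr

end MrgPart0

-- ======== part 1: formerly Pool.Agent.MP_8c549f_pr.A8
section MrgPart1

/-!
Moments of the pieces, fractional powers.
-/

set_option autoImplicit false

namespace Pool.Agent.MP_8c549f_pr

open MeasureTheory Filter Topology Real
open scoped ENNReal NNReal

namespace Mom

theorem exp_neg_le {y : ℝ} (hy : 0 < y) (k : ℕ) : exp (-y) ≤ k.factorial * y⁻¹ ^ k := by
  have h := pow_div_factorial_le_exp y hy.le k
  have hk : (0 : ℝ) < k.factorial := by exact_mod_cast k.factorial_pos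
  rw [div_le_iff₀ hk] at h
  rw [exp_neg, inv_pow, ← div_eq_mul_inv, le_div_iff₀ (by positivity), inv_mul_le_iff₀ (exp_pos y)]
  exact h

/-- a double series dominated by inverse squares -/
theorem sum_sq : ∃ S : ℝ, 0 < S ∧ ∀ (f : ℕ × ℕ → ℝ≥0∞) (B : ℝ), 0 ≤ B →
    (∀ m r : ℕ, f (m, r) ≤ ENNReal.ofReal (B / (((m : ℝ) + 1) ^ 2 * ((r : ℝ) + 1) ^ 2))) →
      ∑' q, f q ≤ ENNReal.ofReal (B * S) := by
  have h1 : Summable fun n : ℕ => 1 / ((n : ℝ) + 1) ^ 2 := by
    have := (summable_nat_add_iff 1).2 (summable_one_div_nat_pow.2 one_lt_two)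
    simpa using this
  have h2 := h1.mul_of_nonneg h1 (fun _ => by positivity) fun _ => by positivity
  have h3 : 0 ≤ ∑' q : ℕ × ℕ, 1 / ((q.1 : ℝ) + 1) ^ 2 * (1 / ((q.2 : ℝ) + 1) ^ 2) :=
    tsum_nonneg fun _ => by positivity
  refine ⟨(∑' q : ℕ × ℕ, 1 / ((q.1 : ℝ) + 1) ^ 2 * (1 / ((q.2 : ℝ) + 1) ^ 2)) + 1, by linarith,
    fun f B hB hf => ?_⟩
  refine le_trans ?_ (ENNReal.ofReal_le_ofReal (mul_le_mul_of_nonneg_left
    (le_add_of_nonneg_right zero_le_one) hB))
  rw [← tsum_mul_left, ENNReal.ofReal_tsum_of_nonneg (fun _ => by positivity) (h2.mul_left B)]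
  refine ENNReal.tsum_le_tsum fun q => (hf q.1 q.2).trans (le_of_eq ?_)
  congr 1
  field_simp

theorem NN_le (D m r K : ℕ) : ((NN D (m + 1) r : ℕ) : ℝ) ^ K ≤
    2 ^ ((D + 2) * K) * ((m : ℝ) + 2) ^ (3 * K) * ((r : ℝ) + 1) ^ ((D + 1) * K) := by
  rw [pow_mul, pow_mul, pow_mul, ← mul_pow, ← mul_pow]
  refine pow_le_pow_left₀ (Nat.cast_nonneg _) ?_ K
  have h : (2 * (r : ℝ) + 1) ^ (D + 1) ≤ (2 * ((r : ℝ) + 1)) ^ (D + 1) :=
    pow_le_pow_left₀ (by positivity) (by linarith) _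
  rw [mul_pow] at h
  have h2 := mul_le_mul_of_nonneg_left h (by positivity : 0 ≤ 2 * ((m : ℝ) + 2) ^ 3)
  simp only [NN]
  push_cast
  rw [show (m : ℝ) + 1 + 1 = m + 2 by ring]
  refine h2.trans (le_of_eq ?_)
  ring

theorem inv_le_exp {p : ℝ} (h0 : 1 / 2 ≤ p) (h1 : p ≤ 1) : p⁻¹ ≤ exp (2 * (1 - p)) := by
  refine le_trans ?_ (add_one_le_exp _)
  rw [inv_eq_one_div, div_le_iff₀ (by linarith)]
  nlinarith

theorem div_succ (r : ℕ) {σ : ℕ} (hσ : 0 < σ) : (r : ℝ) + 1 ≤ (((r / σ : ℕ) : ℝ) + 1) * σ := by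
  have h := Nat.lt_div_mul_add (a := r) hσ
  have h2 : r + 1 ≤ (r / σ + 1) * σ := by rw [add_mul, one_mul]; omega
  exact_mod_cast h2

/-- the lateral factor -/
theorem lat_fac {C : ℕ} (hC : 1 ≤ C) (m r k : ℕ) {α p : ℝ} (hα : 0 < α) (hα1 : α ≤ 1)
    (h0 : 1 / 2 ≤ p) (h1 : p ≤ 1) :
    exp (-(α * ((r / (C * (m + 1) + 1) : ℕ) * (p ^ (C * (m + 1)) / (2 * (C * (m + 1) + 1)))) / 2)) ≤
      exp 1 * k.factorial * (4 * C ^ 2) ^ k * ((m : ℝ) + 2) ^ (2 * k) *
        exp (2 * (1 - p) * C * k * (m + 2)) / (α ^ k * ((r : ℝ) + 1) ^ k) := by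
  have hp : 0 < p := by linarith
  have hC' : (1 : ℝ) ≤ C := by exact_mod_cast hC
  have hJ := div_succ r (σ := C * (m + 1) + 1) (Nat.succ_pos _)
  set J : ℝ := ((r / (C * (m + 1) + 1) : ℕ) : ℝ) with hJd
  push_cast at hJ
  set σ : ℝ := C * (m + 1) + 1 with hσd
  have hσ : 1 ≤ σ := le_add_of_nonneg_left (by positivity)
  have hσ2 : σ ≤ C * (m + 2) := by rw [hσd]; linarith
  set q : ℝ := p ^ (C * (m + 1)) with hq
  have hq0 : 0 < q := pow_pos hp _
  have hq1 : q ≤ 1 := pow_le_one₀ hp.le h1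
  have hqi : q⁻¹ ≤ exp (2 * (1 - p) * C * (m + 2)) := by
    rw [hq, ← inv_pow]
    refine (pow_le_pow_left₀ (by positivity) (inv_le_exp h0 h1) _).trans ?_
    rw [← exp_nat_mul]
    refine exp_le_exp.2 ?_
    push_cast
    nlinarith [mul_nonneg (sub_nonneg.2 h1) (Nat.cast_nonneg C : (0 : ℝ) ≤ C)]
  set y : ℝ := α * q * (r + 1) / (4 * σ ^ 2) with hy
  have hy0 : 0 < y := by positivity
  have h2 : -(α * (J * (q / (2 * σ))) / 2) ≤ 1 + -y := by
    have h3 : y ≤ α * q * ((J + 1) * σ) / (4 * σ ^ 2) := by rw [hy]; gcongr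
    have h4 : α * q * ((J + 1) * σ) / (4 * σ ^ 2) = α * (J * (q / (2 * σ))) / 2 + α * q / (4 * σ) := by
      field_simp; ring
    have h5 : α * q / (4 * σ) ≤ 1 := by
      rw [div_le_one (by positivity)]; nlinarith [mul_le_one₀ hα1 hq0.le hq1]
    linarith
  have h6 : y⁻¹ ≤ 4 * C ^ 2 * ((m : ℝ) + 2) ^ 2 * exp (2 * (1 - p) * C * (m + 2)) /
      (α * ((r : ℝ) + 1)) := by
    have : y⁻¹ = 4 * σ ^ 2 * q⁻¹ / (α * ((r : ℝ) + 1)) := by rw [hy]; field_simp
    rw [this, mul_assoc 4 ((C : ℝ) ^ 2), ← mul_pow]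
    gcongr
  refine (exp_le_exp.2 h2).trans ?_
  rw [exp_add]
  refine (mul_le_mul_of_nonneg_left ((exp_neg_le hy0 k).trans (mul_le_mul_of_nonneg_left
    (pow_le_pow_left₀ (by positivity) h6 k) (by positivity))) (exp_pos 1).le).trans (le_of_eq ?_)
  rw [div_pow, mul_pow, mul_pow, mul_pow α, ← exp_nat_mul, ← pow_mul,
    show (k : ℝ) * (2 * (1 - p) * C * (m + 2)) = 2 * (1 - p) * C * k * (m + 2) by ring]
  ring

/-- the general term -/
theorem key (D K : ℕ) {C : ℕ} (hC : 1 ≤ C) : ∃ (A : ℝ) (n k : ℕ), 0 < A ∧ 1 ≤ k ∧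
    ∀ (m r : ℕ) (α p θ : ℝ) (u : ℝ≥0∞), 0 < α → α ≤ 1 → 1 / 2 ≤ p → p ≤ 1 →
      u ≤ ENNReal.ofReal (exp (-θ)) →
      u ≤ ENNReal.ofReal (2 * D * exp (-((r / (C * (m + 1) + 1) : ℕ) *
        (p ^ (C * (m + 1)) / (2 * (C * (m + 1) + 1)))))) →
      (NN D (m + 1) r : ℝ≥0∞) ^ K * u ^ α ≤
        ENNReal.ofReal (A * ((m : ℝ) + 2) ^ n * exp (2 * (1 - p) * C * k * (m + 2) - α * θ / 2) /
          α ^ k / (((m : ℝ) + 2) ^ 2 * ((r : ℝ) + 1) ^ 2)) := by
  have hC' : (0 : ℝ) < C := by exact_mod_cast hC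
  refine ⟨2 ^ ((D + 2) * K) * exp D * (exp 1 * ((D + 1) * K + 2).factorial *
    (4 * C ^ 2) ^ ((D + 1) * K + 2)), 3 * K + 2 * ((D + 1) * K + 2) + 2, (D + 1) * K + 2,
    by positivity, by omega, fun m r α p θ u hα hα1 h0 h1 hu1 hu2 => ?_⟩
  have hl := lat_fac hC m r ((D + 1) * K + 2) hα hα1 h0 h1
  set x : ℝ := (r / (C * (m + 1) + 1) : ℕ) * (p ^ (C * (m + 1)) / (2 * (C * (m + 1) + 1))) with hx
  have hu3 : u ≤ ENNReal.ofReal (exp (2 * D - x)) := by
    refine hu2.trans (ENNReal.ofReal_le_ofReal ?_)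
    rw [sub_eq_add_neg, exp_add]
    exact mul_le_mul_of_nonneg_right (by linarith [add_one_le_exp (2 * (D : ℝ))]) (exp_pos _).le
  have hu4 : u ≤ ENNReal.ofReal (exp ((2 * D - x - θ) / 2)) := by
    rcases le_total (-θ) (2 * D - x) with h | h
    · exact hu1.trans (ENNReal.ofReal_le_ofReal (exp_le_exp.2 (by linarith)))
    · exact hu3.trans (ENNReal.ofReal_le_ofReal (exp_le_exp.2 (by linarith)))
  have hu5 : u ^ α ≤ ENNReal.ofReal (exp D * exp (-(α * θ / 2)) * exp (-(α * x / 2))) := by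
    refine (ENNReal.rpow_le_rpow hu4 hα.le).trans ?_
    rw [ENNReal.ofReal_rpow_of_pos (exp_pos _), ← exp_mul, ← exp_add, ← exp_add]
    refine ENNReal.ofReal_le_ofReal (exp_le_exp.2 ?_)
    nlinarith [mul_nonneg (sub_nonneg.2 hα1) (Nat.cast_nonneg D : (0 : ℝ) ≤ D)]
  refine (mul_le_mul_right hu5 _).trans ?_
  rw [← ENNReal.ofReal_natCast, ← ENNReal.ofReal_pow (Nat.cast_nonneg _),
    ← ENNReal.ofReal_mul (by positivity)]
  refine ENNReal.ofReal_le_ofReal ((mul_le_mul (NN_le D m r K)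
    (mul_le_mul_of_nonneg_left hl (by positivity)) (by positivity) (by positivity)).trans
      (le_of_eq ?_))
  rw [sub_eq_add_neg _ (α * θ / 2), exp_add]
  generalize (D + 1) * K = N
  generalize exp (2 * (1 - p) * C * (N + 2 : ℕ) * (m + 2)) = E
  generalize exp (-(α * θ / 2)) = E'
  generalize ((N + 2).factorial : ℝ) = F
  field_simp
  ring

theorem UU_le_aa (hrec : RECStmt) (hsum : SUMPStmt) (D : ℕ) {p : ℝ} (lam : ℝ) (h0 : 0 ≤ p)
    (h1 : p ≤ 1) (m r : ℕ) : UU D p lam (m + 1) r ≤ aa D p lam m := by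
  refine le_trans ?_ ((hrec D p lam h0 h1).2.2.1 m)
  rw [← (hsum D p lam h0 h1).2.2.2.1 (m + 1)]
  exact ENNReal.le_tsum r

end Mom

open Mom in
theorem momb (hlat : LAT1Stmt) (hrec : RECStmt) (hht : HTStmt) (hsum : SUMPStmt) : MOMBStmt := by
  intro D hD a K ha
  obtain ⟨C, hC, hL⟩ := hlat D hD a ha
  obtain ⟨c, e₀, hc, he, hH⟩ := hht D hD a ha
  obtain ⟨A, n, k, hA, hk, hK⟩ := key D K hC
  obtain ⟨S, hS, hsq⟩ := sum_sq
  have hC' : (0 : ℝ) < C := by exact_mod_cast hC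
  have hk' : (0 : ℝ) < k := by exact_mod_cast hk
  refine ⟨A * exp (c * a) * n.factorial * (4 / (c * a)) ^ n * S,
    min (min e₀ (exp (-a))) (min (1 / 2) (c * a / (8 * C * k))), n + k, by positivity,
    by positivity, fun α p lam hα hα1 hp h1 hlam => ?_⟩
  set c' := min (min e₀ (exp (-a))) (min (1 / 2) (c * a / (8 * C * k))) with hc'
  have hc0 : 0 < c' := by positivity
  have hε : 1 - p ≤ c' := by nlinarith
  have hε1 : 1 - p ≤ e₀ := hε.trans ((min_le_left _ _).trans (min_le_left _ _))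
  have hε2 : 1 - p ≤ exp (-a) := hε.trans ((min_le_left _ _).trans (min_le_right _ _))
  have hε3 : 1 - p ≤ 1 / 2 := hε.trans ((min_le_right _ _).trans (min_le_left _ _))
  have hε4 : 2 * (1 - p) * C * k ≤ α * (c * a) / 4 := by
    have h2 : c' ≤ c * a / (8 * C * k) := (min_le_right _ _).trans (min_le_right _ _)
    rw [le_div_iff₀ (by positivity)] at h2
    have h3 : (1 - p) * (C * k) ≤ c' * α * (C * k) :=
      mul_le_mul_of_nonneg_right (by linarith) (by positivity)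
    nlinarith [mul_le_mul_of_nonneg_left h2 hα.le]
  have h0 : 0 ≤ p := by linarith
  refine (hsq _ (A * exp (c * a) * n.factorial * (4 / (c * a)) ^ n / α ^ (n + k))
    (by positivity) fun m r => ?_).trans (le_of_eq (by congr 1; ring))
  rcases m with _ | m
  · simp only [(hsum D p lam h0 h1).2.2.2.2.1 r, ENNReal.zero_rpow_of_pos hα, mul_zero]
    exact zero_le
  have h2 := hK m r α p (c * a * m) (UU D p lam (m + 1) r) hα hα1 (by linarith) h1
    ((UU_le_aa hrec hsum D lam h0 h1 m r).trans ((hH p lam a (by linarith) h1 le_rfl hlam hε2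
      m).trans (le_of_eq (by congr 2; ring))))
    (((hsum D p lam h0 h1).2.2.2.2.2.1 m r _ (Nat.div_mul_le_self r _)).trans
      (hL p lam h0 h1 hlam m _))
  refine h2.trans (ENNReal.ofReal_le_ofReal ?_)
  push_cast
  rw [show (m : ℝ) + 1 + 1 = m + 2 by ring]
  refine div_le_div_of_nonneg_right ?_ (by positivity)
  have h3 : 2 * (1 - p) * C * k * (m + 2) - α * (c * a * m) / 2 ≤
      c * a + -(α * (c * a) * (m + 2) / 4) := by
    have h4 := mul_le_mul_of_nonneg_right hε4 (by positivity : (0 : ℝ) ≤ m + 2)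
    nlinarith [mul_le_mul_of_nonneg_right hα1 (by positivity : 0 ≤ c * a)]
  have h5 := exp_neg_le (y := α * (c * a) * (m + 2) / 4) (by positivity) n
  have h6 := (exp_le_exp.2 h3).trans
    ((exp_add _ _).le.trans (mul_le_mul_of_nonneg_left h5 (exp_pos _).le))
  refine (div_le_div_of_nonneg_right (mul_le_mul_of_nonneg_left h6 (by positivity))
    (by positivity)).trans (le_of_eq ?_)
  rw [inv_div, div_pow, div_pow, mul_pow, mul_pow]
  field_simp
  ring

end Pool.Agent.MP_8c549f_pr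

/-!
Moments of the pieces, tails.
-/

set_option autoImplicit false

namespace Pool.Agent.MP_8c549f_pr

open MeasureTheory Filter Topology Real
open scoped ENNReal NNReal

namespace Mom

theorem poly_small (n : ℕ) {A b ζ : ℝ} (hA : 0 < A) (hb : 0 < b) (hζ : 0 < ζ) :
    ∃ R : ℕ, ∀ x : ℝ, (R : ℝ) ≤ x → A * x ^ n * exp (-(b * x)) ≤ ζ := by
  obtain ⟨R, hR⟩ := exists_nat_ge (A * (n + 1).factorial * b⁻¹ ^ (n + 1) / ζ)
  have h0 : 0 < A * (n + 1).factorial * b⁻¹ ^ (n + 1) / ζ := by positivity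
  refine ⟨R, fun x hx => ?_⟩
  have hx0 : 0 < x := by linarith
  have h1 := (div_le_iff₀ hζ).1 (hR.trans hx)
  refine (mul_le_mul_of_nonneg_left (exp_neg_le (mul_pos hb hx0) (n + 1)) (by positivity)).trans ?_
  have e : A * x ^ n * ((n + 1).factorial * (b * x)⁻¹ ^ (n + 1)) =
      A * (n + 1).factorial * b⁻¹ ^ (n + 1) / x := by
    rw [mul_inv, mul_pow, inv_pow x]
    field_simp
    ring
  rw [e, div_le_iff₀ hx0]
  linarith

theorem exists_mu {D : ℕ} (hD : 1 ≤ D) {a ε lam : ℝ} (ha : 0 < a) (hlam : a ≤ lam)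
    (hε : ε ≤ exp (-a)) (h : ε ^ D * exp lam ≤ 2) :
    ∃ μ, a ≤ μ ∧ μ ≤ lam ∧ ε ≤ exp (-μ) ∧ exp (-(D * μ)) ≤ 2 * exp (-lam) := by
  have hD' : (1 : ℝ) ≤ D := by exact_mod_cast hD
  rcases le_or_gt ε (exp (-lam)) with h1 | h1
  · refine ⟨lam, hlam, le_rfl, h1, ?_⟩
    have : exp (-(D * lam)) ≤ exp (-lam) := exp_le_exp.2 (by nlinarith)
    linarith [exp_pos (-lam)]
  · have h0 : 0 < ε := (exp_pos _).trans h1
    refine ⟨-log ε, ?_, ?_, ?_, ?_⟩
    · have := (log_le_iff_le_exp h0).2 hε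
      linarith
    · have := (lt_log_iff_exp_lt h0).2 h1
      linarith
    · rw [neg_neg, exp_log h0]
    · rw [mul_neg, neg_neg, exp_nat_mul, exp_log h0, exp_neg, ← div_eq_mul_inv,
        le_div_iff₀ (exp_pos _)]
      exact h

/-- the chance of not going straight up through a slab of bounded height -/
theorem slab (D R : ℕ) : ∃ κ : ℝ, 0 < κ ∧ ∀ (m : ℕ) (p lam μ : ℝ), m ≤ R → 1 / 2 ≤ p → p ≤ 1 →
    0 ≤ μ → μ ≤ lam → 1 - p ≤ exp (-μ) →
      0 ≤ 1 - (p * exp lam / Zf D lam) ^ (m + 1) ∧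
        1 - (p * exp lam / Zf D lam) ^ (m + 1) ≤ exp (-(κ * μ)) := by
  set B : ℝ := (R + 1) * (2 * D + 2) with hB
  set s : ℝ := (1 / (4 * D + 4)) ^ (R + 1) with hs
  have hD : (0 : ℝ) ≤ D := Nat.cast_nonneg D
  have hR : (0 : ℝ) ≤ R := Nat.cast_nonneg R
  have hB1 : 1 ≤ B := by rw [hB]; nlinarith
  have hs0 : 0 < s := by positivity
  have hq1 : 1 / (4 * (D : ℝ) + 4) ≤ 1 := by rw [div_le_one (by positivity)]; linarith
  have hs1 : s ≤ 1 := pow_le_one₀ (by positivity) hq1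
  refine ⟨s / (2 * B), by positivity, fun m p lam μ hm h0 h1 hμ hlam hε => ?_⟩
  have hZ := Zf_pos D lam
  have hL : 1 ≤ exp lam := one_le_exp (by linarith)
  have hL' : exp (-lam) ≤ 1 := exp_le_one_iff.2 (by linarith)
  have hL0 := exp_pos (-lam)
  have hLL : exp lam * exp (-lam) = 1 := by rw [← exp_add]; simp
  set x : ℝ := p * exp lam / Zf D lam with hx
  have hx1 : x ≤ 1 := by
    rw [hx, div_le_one hZ, Zf]; nlinarith
  have hx0 : 1 / (4 * (D : ℝ) + 4) ≤ x := by
    rw [hx, div_le_div_iff₀ (by positivity) hZ, Zf]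
    nlinarith [mul_le_mul_of_nonneg_right h0 (by positivity : 0 ≤ exp lam * (4 * D + 4)),
      mul_le_mul_of_nonneg_left hL hD]
  have hx0' : 0 ≤ x := le_trans (by positivity) hx0
  refine ⟨sub_nonneg.2 (pow_le_one₀ hx0' hx1), ?_⟩
  rcases le_total μ (2 * B) with h | h
  · have h2 : s ≤ x ^ (m + 1) := (pow_le_pow_left₀ (by positivity) hx0 _).trans
      (pow_le_pow_of_le_one hx0' hx1 (by omega))
    have h3 : s / (2 * B) * μ ≤ s := by
      rw [div_mul_eq_mul_div, div_le_iff₀ (by positivity)]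
      exact mul_le_mul_of_nonneg_left h hs0.le
    linarith [add_one_le_exp (-(s / (2 * B) * μ))]
  · have h2 := one_add_mul_le_pow (a := x - 1) (by linarith) (m + 1)
    rw [add_sub_cancel] at h2
    have h3 : 1 - x ≤ (2 * D + 2) * exp (-μ) := by
      have h4 : exp (-lam) ≤ exp (-μ) := exp_le_exp.2 (by linarith)
      have h5 : 1 - x ≤ (1 - p) + (2 * D + 1) * exp (-lam) := by
        rw [sub_le_comm, hx, le_div_iff₀ hZ]
        have h6 : exp lam ≤ Zf D lam := by rw [Zf]; linarith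
        have h7 := mul_le_mul_of_nonneg_left h6 (by positivity : 0 ≤ (2 * D + 1) * exp (-lam))
        have h8 : p * Zf D lam ≤ p * exp lam + (2 * D + 1) := by rw [Zf]; nlinarith
        nlinarith
      nlinarith
    have h9 : ((m + 1 : ℕ) : ℝ) ≤ R + 1 := by exact_mod_cast Nat.succ_le_succ hm
    have h10 : 1 - x ^ (m + 1) ≤ B * exp (-μ) := by
      have := mul_le_mul h9 h3 (sub_nonneg.2 hx1) (by positivity)
      rw [hB]; linarith
    have h11 : B ≤ exp (μ / 2) := by linarith [add_one_le_exp (μ / 2)]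
    refine h10.trans ((mul_le_mul_of_nonneg_right h11 (exp_pos _).le).trans ?_)
    rw [← exp_add]
    refine exp_le_exp.2 ?_
    have h12 : s / (2 * B) ≤ 1 / 2 := by
      rw [div_le_div_iff₀ (by positivity) two_pos]; linarith
    nlinarith

end Mom

open Mom in
theorem moma (hlat : LAT1Stmt) (hlat2 : LAT2Stmt) (hrec : RECStmt) (hht : HTStmt)
    (hsum : SUMPStmt) : MOMAStmt := by
  intro D hD a ζ K ha hζ
  obtain ⟨C, hC, hL⟩ := hlat D hD a ha
  obtain ⟨c, e₀, hc, he, hH⟩ := hht D hD a ha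
  obtain ⟨A, n, k, hA, hk, hK⟩ := key D K hC
  obtain ⟨S, hS, hsq⟩ := sum_sq
  have hC' : (0 : ℝ) < C := by exact_mod_cast hC
  have hk' : (0 : ℝ) < k := by exact_mod_cast hk
  have hD' : (1 : ℝ) ≤ D := by exact_mod_cast hD
  obtain ⟨R₁, hR₁⟩ := poly_small n (A := A * exp (c * a / 2)) (b := c * a / 8) (ζ := ζ / (2 * S))
    (by positivity) (by positivity) (by positivity)
  obtain ⟨R₂, hR₂⟩ := exists_nat_ge (4 * D / c)
  obtain ⟨κ, hκ, hslab⟩ := slab D (R₁ + R₂)
  set T : ℝ := (R₁ + R₂ : ℕ) + 2 with hT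
  have hT0 : 0 < T := by positivity
  obtain ⟨R₃, hR₃⟩ := poly_small ((D + 1) * K + 2)
    (A := 2 ^ ((D + 2) * K) * T ^ (3 * K + 2) * (2 * D) * exp (κ * a / 2))
    (b := κ * a / (2 * T)) (ζ := ζ / (2 * S)) (by positivity) (by positivity) (by positivity)
  obtain ⟨R₄, hR₄⟩ := exists_nat_ge ((2 * D / κ + 1) * T)
  refine ⟨R₁ + R₂ + R₃ + R₄, min (min e₀ (exp (-a))) (min (1 / 2) (c * a / (16 * C * k))),
    by positivity, fun p lam hp h1 hlam hcrit => ?_⟩
  have hε : 1 - p ≤ min (min e₀ (exp (-a))) (min (1 / 2) (c * a / (16 * C * k))) := by linarith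
  have hε1 : 1 - p ≤ e₀ := hε.trans ((min_le_left _ _).trans (min_le_left _ _))
  have hε2 : 1 - p ≤ exp (-a) := hε.trans ((min_le_left _ _).trans (min_le_right _ _))
  have hε3 : 1 - p ≤ 1 / 2 := hε.trans ((min_le_right _ _).trans (min_le_left _ _))
  have hε4 : 2 * (1 - p) * C * k ≤ c * a / 8 := by
    have h2 : 1 - p ≤ c * a / (16 * C * k) := hε.trans ((min_le_right _ _).trans (min_le_right _ _))
    rw [le_div_iff₀ (by positivity)] at h2
    linarith
  have h0 : 0 ≤ p := by linarith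
  obtain ⟨μ, hμ1, hμ2, hμ3, hμ4⟩ := exists_mu hD ha hlam hε2 hcrit
  have hμ0 : 0 < μ := by linarith
  refine (hsq _ (ζ / (2 * S) * (2 * exp (-lam))) (by positivity) fun m r => ?_).trans
    (le_of_eq (by congr 1; field_simp))
  dsimp only
  split_ifs with hcond
  swap
  · exact zero_le
  rcases m with _ | m
  · simp only [(hsum D p lam h0 h1).2.2.2.2.1 r, mul_zero]
    exact zero_le
  have hm0 : (0 : ℝ) ≤ m := Nat.cast_nonneg m
  have hr0 : (0 : ℝ) ≤ r := Nat.cast_nonneg r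
  rcases le_or_gt (R₁ + R₂) m with hm | hm
  · have h2 := hK m r 1 p (c * μ * m) (UU D p lam (m + 1) r) one_pos le_rfl (by linarith) h1
      ((UU_le_aa hrec hsum D lam h0 h1 m r).trans ((hH p lam μ (by linarith) h1 hμ1 hμ2 hμ3
        m).trans (le_of_eq (by congr 2; ring))))
      (((hsum D p lam h0 h1).2.2.2.2.2.1 m r _ (Nat.div_mul_le_self r _)).trans
        (hL p lam h0 h1 hlam m _))
    rw [ENNReal.rpow_one] at h2
    refine h2.trans (ENNReal.ofReal_le_ofReal ?_)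
    push_cast
    rw [show (m : ℝ) + 1 + 1 = m + 2 by ring, one_pow, div_one]
    refine div_le_div_of_nonneg_right ?_ (by positivity)
    have hm1 : (R₁ : ℝ) ≤ m := by exact_mod_cast le_trans (Nat.le_add_right _ _) hm
    have hm2 : (R₂ : ℝ) ≤ m := by exact_mod_cast le_trans (Nat.le_add_left _ _) hm
    have h3 := (div_le_iff₀ hc).1 (hR₂.trans hm2)
    have h4 : 2 * (1 - p) * C * k * (m + 2) - 1 * (c * μ * m) / 2 ≤
        c * a / 2 + -(c * a / 8 * (m + 2)) + -(D * μ) := by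
      have h5 := mul_le_mul_of_nonneg_right hε4 (by positivity : (0 : ℝ) ≤ m + 2)
      have h6 := mul_le_mul_of_nonneg_right h3 hμ0.le
      have h7 := mul_le_mul_of_nonneg_left hμ1 (by positivity : 0 ≤ c * m)
      nlinarith
    refine (mul_le_mul_of_nonneg_left (exp_le_exp.2 h4) (by positivity)).trans ?_
    rw [exp_add, exp_add]
    refine le_trans (le_of_eq ?_) (mul_le_mul (hR₁ (m + 2) (by linarith)) hμ4 (exp_pos _).le
      (by positivity))
    ring
  · have hr : R₁ + R₂ + R₃ + R₄ < r := by omega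
    have hr3 : (R₃ : ℝ) ≤ r := by exact_mod_cast (by omega : R₃ ≤ r)
    have hr4 : (R₄ : ℝ) ≤ r := by exact_mod_cast (by omega : R₄ ≤ r)
    have hmT : (m : ℝ) + 2 ≤ T := by
      have : (m : ℝ) ≤ (R₁ + R₂ : ℕ) := by exact_mod_cast hm.le
      rw [hT]; linarith
    obtain ⟨hs0, hs1⟩ := hslab m p lam μ hm.le (by linarith) h1 hμ0.le hμ2 hμ3
    have hJ := div_succ r (σ := m + 2) (by omega)
    have h2 := ((hsum D p lam h0 h1).2.2.2.2.2.1 m r _ (Nat.div_mul_le_self r (m + 2))).trans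
      (hlat2 D hD p lam h0 h1 m (r / (m + 2)))
    have h3 := pow_le_pow_left₀ hs0 hs1 (r / (m + 2))
    rw [← exp_nat_mul] at h3
    set J : ℝ := ((r / (m + 2) : ℕ) : ℝ) with hJd
    have hJ0 : 0 ≤ J := Nat.cast_nonneg _
    push_cast at hJ
    have hJ1 : (r : ℝ) + 1 ≤ (J + 1) * T :=
      hJ.trans (mul_le_mul_of_nonneg_left hmT (by positivity))
    have hJ2 : 2 * D / κ ≤ J := by
      have : (2 * D / κ + 1) * T ≤ (J + 1) * T := by linarith
      linarith [le_of_mul_le_mul_right this hT0]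
    rw [div_le_iff₀ hκ] at hJ2
    have h4 : J * -(κ * μ) ≤ κ * a / 2 + -(κ * a / (2 * T) * (r + 1)) + -(D * μ) := by
      have h5 : κ * a / (2 * T) * (r + 1) ≤ κ * a / (2 * T) * ((J + 1) * T) :=
        mul_le_mul_of_nonneg_left hJ1 (by positivity)
      have h6 : κ * a / (2 * T) * ((J + 1) * T) = κ * a / 2 * (J + 1) := by field_simp
      have h7 := mul_le_mul_of_nonneg_right hJ2 hμ0.le
      have h8 := mul_le_mul_of_nonneg_left hμ1 (by positivity : 0 ≤ κ * J)
      nlinarith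
    have h9 := h3.trans (exp_le_exp.2 h4)
    refine (mul_le_mul_right (h2.trans (ENNReal.ofReal_le_ofReal
      (mul_le_mul_of_nonneg_left h9 (by positivity)))) _).trans ?_
    rw [← ENNReal.ofReal_natCast, ← ENNReal.ofReal_pow (Nat.cast_nonneg _),
      ← ENNReal.ofReal_mul (by positivity)]
    refine ENNReal.ofReal_le_ofReal
      ((mul_le_mul_of_nonneg_right (NN_le D m r K) (by positivity)).trans ?_)
    push_cast
    rw [show (m : ℝ) + 1 + 1 = m + 2 by ring, le_div_iff₀ (by positivity), exp_add, exp_add]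
    refine le_trans ?_ (mul_le_mul (hR₃ (r + 1) (by linarith)) hμ4 (exp_pos _).le (by positivity))
    have h10 : ((m : ℝ) + 2) ^ (3 * K + 2) ≤ T ^ (3 * K + 2) :=
      pow_le_pow_left₀ (by positivity) hmT _
    have h11 := mul_le_mul_of_nonneg_right h10 (by positivity :
      0 ≤ 2 ^ ((D + 2) * K) * (2 * (D : ℝ)) * exp (κ * a / 2) * ((r : ℝ) + 1) ^ ((D + 1) * K + 2) *
        exp (-(κ * a / (2 * T) * (r + 1))) * exp (-(D * μ)))
    refine le_trans (le_of_eq ?_) (h11.trans (le_of_eq ?_))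
    · rw [pow_add, pow_add]; ring
    · ring

end Pool.Agent.MP_8c549f_pr

/-!
Comparison of the mean duration and height of a block with those of the full lattice.
-/

set_option autoImplicit false

namespace Pool.Agent.MP_8c549f_pr

open MeasureTheory Filter Topology Real
open scoped ENNReal NNReal

namespace CmpM

variable {D : ℕ}

/-- the properties shared by the duration and the height of the pieces -/
structure Fam (F : ℝ → Cfg D → ℕ × ℕ → ℝ≥0∞) : Prop where
  le : ∀ lam ω q, F lam ω q ≤ Tq lam ω q.1 q.2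
  ratio : ∀ ω q x y, F y ω q ≤ ENNReal.ofReal (exp (10 * NN D q.1 q.2 * |y - x|)) * F x ω q
  dep : ∀ lam q, Dep (fun ω => F lam ω q) (near (Box D q.1 q.2) : Set (Edge D))
  lip : ∀ q : ℕ × ℕ, ∃ C : ℝ, 0 ≤ C ∧ ∀ ω : Cfg D, ω (edge 0 (bck D)) = true →
    Good ω (Box D q.1 q.2) 0 → ∀ x y, 0 ≤ x → x ≤ y → F x ω q ≤ ENNReal.ofReal C ∧
      |(F y ω q).toReal - (F x ω q).toReal| ≤ C * (y - x) * exp (-x)

/-- the event without traps -/
def Gd (q : ℕ × ℕ) : Set (Cfg D) := {ω | Good (plus ω) (Box D q.1 q.2) 0}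

def sq (R : ℕ) : Finset (ℕ × ℕ) := Finset.range (R + 1) ×ˢ Finset.range (R + 1)

theorem mem_sq {R : ℕ} {q : ℕ × ℕ} : q ∈ sq R ↔ ¬ (R < q.1 ∨ R < q.2) := by
  simp only [sq, Finset.mem_product, Finset.mem_range]; omega

noncomputable def tot (F : ℝ → Cfg D → ℕ × ℕ → ℝ≥0∞) (p lam : ℝ) : ℝ≥0∞ :=
  ∑' q : ℕ × ℕ, ∫⁻ ω, F lam (plus ω) q ∂perc D p

noncomputable def mainP (F : ℝ → Cfg D → ℕ × ℕ → ℝ≥0∞) (p lam : ℝ) (q : ℕ × ℕ) : ℝ≥0∞ :=
  ∫⁻ ω in Gd q, F lam (plus ω) q ∂perc D p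

noncomputable def remP (F : ℝ → Cfg D → ℕ × ℕ → ℝ≥0∞) (R : ℕ) (p : ℝ) (q : ℕ × ℕ) (lam : ℝ) :
    ℝ≥0∞ := ∫⁻ ω in (if q ∈ sq R then (Gd q)ᶜ else Set.univ), F lam (plus ω) q ∂perc D p

variable {F : ℝ → Cfg D → ℕ × ℕ → ℝ≥0∞}

theorem meas_Gd (h4 : P4Stmt) (q : ℕ × ℕ) : MeasurableSet (Gd q : Set (Cfg D)) :=
  ((h4 D q.1 q.2).2.2.2.2.1 0).comp_plus.measurableSet (Finset.finite_toSet _)

theorem Fam.meas (h : Fam F) (lam : ℝ) (q : ℕ × ℕ) : Measurable fun ω => F lam (plus ω) q :=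
  (h.dep lam q).comp_plus.measurable (Finset.finite_toSet _)

theorem tot_eq (h4 : P4Stmt) (R : ℕ) (p lam : ℝ) :
    tot F p lam = ∑ q ∈ sq R, mainP F p lam q + ∑' q, remP F R p q lam := by
  have e : ∑' q, (if q ∈ sq R then mainP F p lam q else 0) = ∑ q ∈ sq R, mainP F p lam q :=
    (tsum_eq_sum (s := sq R) (fun q hq => if_neg hq)).trans
      (Finset.sum_congr rfl fun q hq => if_pos hq)
  rw [← e, ← ENNReal.tsum_add, tot]
  refine tsum_congr fun q => ?_
  by_cases hq : q ∈ sq R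
  · simp only [remP, mainP, if_pos hq]
    exact (lintegral_add_compl _ (meas_Gd h4 q)).symm
  · simp [remP, if_neg hq]

theorem one_le_NN (D m r : ℕ) : 1 ≤ NN D m r := by
  unfold NN
  exact Nat.one_le_iff_ne_zero.2 (by positivity)

theorem Tq_good (h2 : P2Stmt) {lam : ℝ} (hl : 0 ≤ lam) {ω : Cfg D} {m r : ℕ}
    (h : Good ω (Box D m r) 0) :
    Tq lam ω m r ≤ ((6 * D + 6 : ℕ) : ℝ≥0∞) * (NN D m r : ℝ≥0∞) ^ 3 * Uq lam ω m r := by
  have := h2 D lam hl ω m r 0 0 h
  simp only [Nat.cast_zero, mul_zero, exp_zero, mul_one, zero_add] at this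
  refine le_trans (SS_mono' (B := {l | Piece m r l ∧ 0 < l.length}) fun l hl k =>
    ⟨hl, Nat.pos_of_ne_zero fun c => k (by simp [c])⟩) (this.trans (mul_le_mul' (le_of_eq ?_) (SS_mono (fun l hl => hl.1) fun _ _ => le_rfl)))
  rw [show ((6 * D + 6) * (NN D m r : ℝ) ^ 3 : ℝ) = (((6 * D + 6) * NN D m r ^ 3 : ℕ) : ℝ) by
    push_cast; ring, ENNReal.ofReal_natCast]
  push_cast; ring

theorem remP_le (h2 : P2Stmt) (h4 : P4Stmt) (hS : SUMPStmt) (h : Fam F) (R : ℕ) {p lam : ℝ}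
    (p0 : 0 ≤ p) (p1 : p ≤ 1) (hl : 0 ≤ lam) (q : ℕ × ℕ) :
    ENNReal.ofReal (10 * NN D q.1 q.2) * remP F R p q lam ≤
      ((10 * (6 * D + 6) : ℕ) : ℝ≥0∞) *
        (if R < q.1 ∨ R < q.2 then (NN D q.1 q.2 : ℝ≥0∞) ^ 4 * UU D p lam q.1 q.2 else 0) +
      ((10 : ℕ) : ℝ≥0∞) * ((NN D q.1 q.2 : ℝ≥0∞) ^ 1 *
        ∫⁻ ω in {ω | ¬ Good (plus ω) (Box D q.1 q.2) 0}, Tq lam (plus ω) q.1 q.2 ∂perc D p) := by
  have e1 : ENNReal.ofReal (10 * NN D q.1 q.2) = 10 * (NN D q.1 q.2 : ℝ≥0∞) := by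
    rw [show (10 * (NN D q.1 q.2 : ℝ) : ℝ) = ((10 * NN D q.1 q.2 : ℕ) : ℝ) by push_cast; ring,
      ENNReal.ofReal_natCast]
    push_cast; ring
  have b1 : ∫⁻ ω in (Gd q)ᶜ, F lam (plus ω) q ∂perc D p ≤
      ∫⁻ ω in {ω | ¬ Good (plus ω) (Box D q.1 q.2) 0}, Tq lam (plus ω) q.1 q.2 ∂perc D p :=
    lintegral_mono fun ω => h.le _ _ _
  have b2 : ∫⁻ ω in Gd q, F lam (plus ω) q ∂perc D p ≤
      ((6 * D + 6 : ℕ) : ℝ≥0∞) * (NN D q.1 q.2 : ℝ≥0∞) ^ 3 * UU D p lam q.1 q.2 := by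
    rw [(hS D p lam p0 p1).1, ← lintegral_const_mul' _ _ (by finiteness)]
    refine le_trans (setLIntegral_mono' (meas_Gd h4 q) fun ω hω =>
      (h.le _ _ _).trans (Tq_good h2 hl hω)) (setLIntegral_le_lintegral _ _)
  rw [e1, remP]
  by_cases hq : q ∈ sq R
  · rw [if_pos hq, if_neg (mem_sq.1 hq), mul_zero, zero_add, pow_one, mul_assoc]
    exact mul_le_mul' (by norm_num) (mul_le_mul' le_rfl b1)
  · rw [if_neg hq, if_pos (by simpa [mem_sq, -not_or] using hq), Measure.restrict_univ,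
      ← lintegral_add_compl _ (meas_Gd h4 q), mul_add]
    refine add_le_add ((mul_le_mul' le_rfl b2).trans (le_of_eq ?_))
      ((mul_le_mul' le_rfl b1).trans (le_of_eq ?_))
    · push_cast; ring
    · push_cast; ring

/-- the remainder is small, with small increments -/
theorem rem_small (hL : LIPStmt) (h2 : P2Stmt) (h4 : P4Stmt) (hS : SUMPStmt) (hA : MOMAStmt)
    (hT : TSUMStmt) (hD : 1 ≤ D) (h : Fam F) {a η ζ : ℝ} (ha : 0 < a) (hη : 0 < η) (hζ : 0 < ζ) :
    ∃ (R : ℕ) (e₀ : ℝ), 0 < e₀ ∧ ∀ p x y, 1 - e₀ ≤ p → p ≤ 1 → a ≤ x → x ≤ y →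
      (1 - p) ^ D * exp y ≤ exp (-η) →
      (∑' q, remP F R p q x ≤ ENNReal.ofReal ζ ∧ ∑' q, remP F R p q y ≤ ENNReal.ofReal ζ) ∧
      |(∑' q, remP F R p q y).toReal - (∑' q, remP F R p q x).toReal| ≤
        ζ * (y - x) * exp (-x) := by
  obtain ⟨R, e1, he1, H1⟩ := hA D hD a (ζ / (40 * (6 * D + 6))) 4 ha (by positivity)
  obtain ⟨e2, he2, H2⟩ := hT D hD a η (ζ / 40) 1 ha hη (by positivity)
  refine ⟨R, min 1 (min e1 e2), by positivity, fun p x y hp p1 hx hxy hy => ?_⟩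
  have q0 : 1 - 1 ≤ p := le_trans (by gcongr; exact min_le_left _ _) hp
  have q1 : 1 - e1 ≤ p := le_trans (by gcongr; exact (min_le_right _ _).trans (min_le_left _ _)) hp
  have q2 : 1 - e2 ≤ p := le_trans (by gcongr; exact (min_le_right _ _).trans (min_le_right _ _)) hp
  have p0 : 0 ≤ p := by linarith
  have key : ∀ t ∈ Set.Icc x y, ∑' q : ℕ × ℕ, ENNReal.ofReal (10 * NN D q.1 q.2) * remP F R p q t ≤
      ENNReal.ofReal (ζ / 2 * exp (-x)) := by
    intro t ht
    have t1 : (1 - p) ^ D * exp t ≤ exp (-η) :=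
      le_trans (mul_le_mul_of_nonneg_left (exp_le_exp.2 ht.2) (pow_nonneg (by linarith) _)) hy
    have t2 : exp (-η) ≤ 2 := (exp_le_one_iff.2 (by linarith)).trans one_le_two
    have t3 : exp (-t) ≤ exp (-x) := exp_le_exp.2 (by linarith [ht.1])
    refine (ENNReal.tsum_le_tsum fun q =>
      remP_le h2 h4 hS h R p0 p1 (by linarith [ht.1]) q).trans ?_
    rw [ENNReal.tsum_add, ENNReal.tsum_mul_left, ENNReal.tsum_mul_left]
    refine (add_le_add (mul_le_mul' le_rfl (H1 p t q1 p1 (hx.trans ht.1) (t1.trans t2)))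
      (mul_le_mul' le_rfl (H2 p t q2 p1 (hx.trans ht.1) t1))).trans ?_
    rw [← ENNReal.ofReal_natCast, ← ENNReal.ofReal_natCast, ← ENNReal.ofReal_mul (by positivity),
      ← ENNReal.ofReal_mul (by positivity), ← ENNReal.ofReal_add (by positivity) (by positivity)]
    refine ENNReal.ofReal_le_ofReal (le_trans (le_of_eq ?_)
      (mul_le_mul_of_nonneg_left t3 (by positivity : 0 ≤ ζ / 2)))
    push_cast
    field_simp
    ring
  have fin : ∀ t ∈ Set.Icc x y, ∑' q, remP F R p q t ≤ ENNReal.ofReal ζ := by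
    intro t ht
    refine le_trans (ENNReal.tsum_le_tsum fun q => le_mul_of_one_le_left (zero_le) ?_)
      ((key t ht).trans (ENNReal.ofReal_le_ofReal ?_))
    · have : (1 : ℝ) ≤ NN D q.1 q.2 := by exact_mod_cast one_le_NN D q.1 q.2
      exact ENNReal.one_le_ofReal.2 (by linarith)
    · have : exp (-x) ≤ 1 := exp_le_one_iff.2 (by linarith)
      nlinarith
  refine ⟨⟨fin x ⟨le_rfl, hxy⟩, fin y ⟨hxy, le_rfl⟩⟩, ?_⟩
  refine (hL (ℕ × ℕ) (remP F R p) (fun q => 10 * NN D q.1 q.2) x y (ζ / 2 * exp (-x)) hxy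
    (by positivity) (fun q => by positivity) (fun q s _ t _ => ?_) key
    (fun t ht => ne_top_of_le_ne_top ENNReal.ofReal_ne_top (fin t ht))).trans (le_of_eq (by ring))
  rw [remP, remP, ← lintegral_const_mul' _ _ ENNReal.ofReal_ne_top]
  exact lintegral_mono fun ω => h.ratio _ _ _ _

theorem abs_integral_le {μ : Measure (Cfg D)} [IsProbabilityMeasure μ] {g : Cfg D → ℝ}
    {O : Set (Cfg D)} {B : ℝ} (h0 : ∀ ω, ω ∉ O → g ω = 0) (hB : ∀ ω, |g ω| ≤ B) :
    |∫ ω, g ω ∂μ| ≤ B * μ.real O := by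
  rw [← setIntegral_eq_integral_of_forall_compl_eq_zero h0]
  rw [← Real.norm_eq_abs]
  exact norm_setIntegral_le_of_norm_le_const (measure_lt_top _ _) fun ω _ =>
    (Real.norm_eq_abs (g ω)).trans_le (hB ω)

theorem real_closed_le {p : ℝ} (p0 : 0 ≤ p) (p1 : p ≤ 1) (E : Finset (Edge D)) :
    (perc D p).real (⋃ e ∈ E, {ω : Cfg D | ω e = false}) ≤ E.card * (1 - p) := by
  refine ENNReal.toReal_le_of_le_ofReal (mul_nonneg (Nat.cast_nonneg _) (by linarith))
    ((measure_biUnion_finset_le _ _).trans ?_)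
  simp only [perc_edge p0 p1, Finset.sum_const, nsmul_eq_mul]
  rw [ENNReal.ofReal_mul (Nat.cast_nonneg _), ENNReal.ofReal_natCast]

/-- the main part for one piece -/
theorem main_small (h4 : P4Stmt) (h : Fam F) (q : ℕ × ℕ) : ∃ C : ℝ, 0 ≤ C ∧
    (∀ p x, 0 ≤ p → p ≤ 1 → 0 ≤ x → mainP F p x q ≤ ENNReal.ofReal C) ∧
    (∀ x y, 0 ≤ x → x ≤ y →
      |(mainP F 1 y q).toReal - (mainP F 1 x q).toReal| ≤ C * (y - x) * exp (-x)) ∧
    ∀ p x y, 0 ≤ p → p ≤ 1 → 0 ≤ x → x ≤ y →
      |(mainP F p x q).toReal - (mainP F 1 x q).toReal| ≤ C * (1 - p) ∧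
      |((mainP F p y q).toReal - (mainP F 1 y q).toReal) -
        ((mainP F p x q).toReal - (mainP F 1 x q).toReal)| ≤
          C * (1 - p) * ((y - x) * exp (-x)) := by
  classical
  obtain ⟨C, hC, H⟩ := h.lip q
  set n : ℝ := ((near (Box D q.1 q.2)).card : ℝ) with hn
  have n0 : 0 ≤ n := Nat.cast_nonneg _
  have hG := meas_Gd (D := D) h4 q
  have gA : Good (allOpen D) (Box D q.1 q.2) 0 := (h4 D q.1 q.2).2.2.2.2.2.2.2.1
  set G : ℝ → Cfg D → ℝ≥0∞ := fun t => (Gd q).indicator fun ω => F t (plus ω) q with hGd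
  have mG : ∀ t, Measurable (G t) := fun t => (h.meas t q).indicator hG
  have eG : ∀ p t, mainP F p t q = ∫⁻ ω, G t ω ∂perc D p := fun p t =>
    (lintegral_indicator hG _).symm
  have bG : ∀ t, 0 ≤ t → ∀ ω, G t ω ≤ ENNReal.ofReal C := fun t ht ω => by
    by_cases c : ω ∈ Gd q
    · simp only [hGd, Set.indicator_of_mem c]
      exact (H _ (plus_bck ω) c t t ht le_rfl).1
    · simp [hGd, Set.indicator_of_notMem c]
  have lG : ∀ x y, 0 ≤ x → x ≤ y → ∀ ω,
      |(G y ω).toReal - (G x ω).toReal| ≤ C * (y - x) * exp (-x) := fun x y hx hxy ω => by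
    by_cases c : ω ∈ Gd q
    · simp only [hGd, Set.indicator_of_mem c]
      exact (H _ (plus_bck ω) c x y hx hxy).2
    · have : 0 ≤ y - x := by linarith
      simp only [hGd, Set.indicator_of_notMem c, sub_self, abs_zero]
      positivity
  have e1 : ∀ t, mainP F 1 t q = G t (allOpen D) := fun t => by rw [eG, lintegral_perc_one]
  have oG : ∀ t ω, ω ∉ (⋃ e ∈ near (Box D q.1 q.2), {ω : Cfg D | ω e = false}) →
      G t ω = G t (allOpen D) := fun t ω hω => by
    have c : ∀ e ∈ (near (Box D q.1 q.2) : Set (Edge D)), ω e = allOpen D e := fun e he => by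
      by_contra k
      exact hω (Set.mem_biUnion he (by simpa [allOpen] using k))
    have c1 : allOpen D ∈ Gd q := by simpa [Gd, plus_allOpen] using gA
    have c2 : ω ∈ Gd q := by
      exact (((h4 D q.1 q.2).2.2.2.2.1 0).comp_plus ω _ c).mpr c1
    simp only [hGd, Set.indicator_of_mem c1, Set.indicator_of_mem c2]
    exact (h.dep t q).comp_plus ω _ c
  have rG : ∀ t, 0 ≤ t → ∀ ω, 0 ≤ (G t ω).toReal ∧ (G t ω).toReal ≤ C := fun t ht ω =>
    ⟨ENNReal.toReal_nonneg, ENNReal.toReal_le_of_le_ofReal hC (bG t ht ω)⟩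
  refine ⟨C + 2 * C * n, by positivity, fun p x p0 p1 hx => ?_, fun x y hx hxy => ?_,
    fun p x y p0 p1 hx hxy => ?_⟩
  · have := perc_prob D p0 p1
    rw [eG]
    refine (lintegral_mono (bG x hx)).trans ?_
    simp only [lintegral_const, measure_univ, mul_one]
    exact ENNReal.ofReal_le_ofReal (by nlinarith [mul_nonneg hC n0])
  · rw [e1, e1]
    have : 0 ≤ (y - x) * exp (-x) := mul_nonneg (by linarith) (exp_pos _).le
    refine (lG x y hx hxy _).trans ?_
    nlinarith [mul_nonneg (mul_nonneg hC n0) this]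
  · have := perc_prob D p0 p1
    have iG : ∀ t, 0 ≤ t → Integrable (fun ω => (G t ω).toReal) (perc D p) := fun t ht =>
      Integrable.of_bound (mG t).ennreal_toReal.aestronglyMeasurable C
        (ae_of_all _ fun ω => by rw [Real.norm_of_nonneg (rG t ht ω).1]; exact (rG t ht ω).2)
    have e2 : ∀ t, 0 ≤ t → (mainP F p t q).toReal - (mainP F 1 t q).toReal =
        ∫ ω, ((G t ω).toReal - (G t (allOpen D)).toReal) ∂perc D p := fun t ht => by
      rw [integral_sub (iG t ht) (integrable_const _), integral_toReal (mG t).aemeasurable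
        (ae_of_all _ fun ω => (bG t ht ω).trans_lt ENNReal.ofReal_lt_top), e1, eG]
      simp
    have b0 := real_closed_le p0 p1 (near (Box D q.1 q.2))
    have b1 : 0 ≤ (y - x) * exp (-x) := mul_nonneg (by linarith) (exp_pos _).le
    have b2 : 0 ≤ 1 - p := by linarith
    have jG : ∀ t, 0 ≤ t → Integrable
        (fun ω => (G t ω).toReal - (G t (allOpen D)).toReal) (perc D p) := fun t ht =>
      (iG t ht).sub (integrable_const _)
    rw [e2 x hx, e2 y (hx.trans hxy), ← integral_sub (jG y (hx.trans hxy)) (jG x hx)]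
    constructor
    · refine (abs_integral_le (B := C) (fun ω hω => by rw [oG x ω hω, sub_self]) fun ω => ?_).trans
        ((mul_le_mul_of_nonneg_left b0 hC).trans ?_)
      · have := rG x hx ω
        have := rG x hx (allOpen D)
        rw [abs_le]; constructor <;> linarith
      · nlinarith [mul_nonneg hC b2, mul_nonneg (mul_nonneg hC n0) b2]
    · refine (abs_integral_le (B := 2 * C * ((y - x) * exp (-x)))
        (fun ω hω => by rw [oG x ω hω, oG y ω hω, sub_self, sub_self, sub_self]) fun ω => ?_).trans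
        ((mul_le_mul_of_nonneg_left b0 (by positivity)).trans ?_)
      · have c1 := abs_le.1 (lG x y hx hxy ω)
        have c2 := abs_le.1 (lG x y hx hxy (allOpen D))
        rw [abs_le]; constructor <;> linarith
      · nlinarith [mul_nonneg (mul_nonneg hC b2) b1]

theorem toReal_tot (h4 : P4Stmt) (R : ℕ) {p lam : ℝ} (h1 : ∀ q, mainP F p lam q ≠ ∞)
    (h2 : ∑' q, remP F R p q lam ≠ ∞) : tot F p lam ≠ ∞ ∧ (tot F p lam).toReal =
      ∑ q ∈ sq R, (mainP F p lam q).toReal + (∑' q, remP F R p q lam).toReal := by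
  have : ∑ q ∈ sq R, mainP F p lam q ≠ ∞ := ENNReal.sum_ne_top.2 fun q _ => h1 q
  rw [tot_eq h4 R, ENNReal.toReal_add this h2, ENNReal.toReal_sum fun q _ => h1 q]
  exact ⟨ENNReal.add_ne_top.2 ⟨this, h2⟩, rfl⟩

theorem core (hL : LIPStmt) (h2 : P2Stmt) (h4 : P4Stmt) (hS : SUMPStmt) (hA : MOMAStmt)
    (hT : TSUMStmt) (hD : 1 ≤ D) (h : Fam F) {a η ζ : ℝ} (ha : 0 < a) (hη : 0 < η) (hζ : 0 < ζ) :
    ∃ e₀ : ℝ, 0 < e₀ ∧ ∀ p x y, 1 - e₀ ≤ p → p ≤ 1 → a ≤ x → x ≤ y →
      (1 - p) ^ D * exp y ≤ exp (-η) → tot F p x ≠ ∞ ∧ tot F p y ≠ ∞ ∧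
      |(tot F p x).toReal - (tot F 1 x).toReal| ≤ ζ ∧
      |((tot F p y).toReal - (tot F 1 y).toReal) - ((tot F p x).toReal - (tot F 1 x).toReal)| ≤
        ζ * (y - x) * exp (-x) := by
  obtain ⟨R, e1, he1, H1⟩ := rem_small hL h2 h4 hS hA hT hD h ha hη (by positivity : 0 < ζ / 3)
  choose C hC H2 _ H4 using main_small h4 h
  set K := ∑ q ∈ sq R, C q with hK
  have K0 : 0 ≤ K := Finset.sum_nonneg fun q _ => hC q
  refine ⟨min 1 (min e1 (ζ / 3 / (K + 1))), by positivity, fun p x y hp p1 hx hxy hy => ?_⟩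
  have q0 : 1 - 1 ≤ p := le_trans (by gcongr; exact min_le_left _ _) hp
  have q1 : 1 - e1 ≤ p := le_trans (by gcongr; exact (min_le_right _ _).trans (min_le_left _ _)) hp
  have q2 : 1 - ζ / 3 / (K + 1) ≤ p :=
    le_trans (by gcongr; exact (min_le_right _ _).trans (min_le_right _ _)) hp
  have p0 : 0 ≤ p := by linarith
  have x0 : 0 ≤ x := by linarith
  have q3 : K * (1 - p) ≤ ζ / 3 := by
    have : (1 - p) * (K + 1) ≤ ζ / 3 := (le_div_iff₀ (by positivity)).1 (by linarith)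
    nlinarith
  obtain ⟨⟨r1, r2⟩, r3⟩ := H1 p x y q1 p1 hx hxy hy
  obtain ⟨⟨s1, s2⟩, s3⟩ := H1 1 x y (by linarith) le_rfl hx hxy
    (by rw [sub_self, zero_pow (by omega), zero_mul]; positivity)
  have fm : ∀ p t, 0 ≤ p → p ≤ 1 → 0 ≤ t → ∀ q, mainP F p t q ≠ ∞ := fun p t p0 p1 ht q =>
    ne_top_of_le_ne_top ENNReal.ofReal_ne_top (H2 q p t p0 p1 ht)
  have nt : ∀ {z : ℝ≥0∞}, z ≤ ENNReal.ofReal (ζ / 3) → z ≠ ∞ := fun k =>
    ne_top_of_le_ne_top ENNReal.ofReal_ne_top k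
  obtain ⟨u1, v1⟩ := toReal_tot h4 R (fm p x p0 p1 x0) (nt r1)
  obtain ⟨u2, v2⟩ := toReal_tot h4 R (fm p y p0 p1 (x0.trans hxy)) (nt r2)
  obtain ⟨-, v3⟩ := toReal_tot h4 R (fm 1 x zero_le_one le_rfl x0) (nt s1)
  obtain ⟨-, v4⟩ := toReal_tot h4 R (fm 1 y zero_le_one le_rfl (x0.trans hxy)) (nt s2)
  have w1 := (Finset.abs_sum_le_sum_abs _ (sq R)).trans
    (Finset.sum_le_sum fun q _ => (H4 q p x y p0 p1 x0 hxy).1)
  have w2 := (Finset.abs_sum_le_sum_abs _ (sq R)).trans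
    (Finset.sum_le_sum fun q _ => (H4 q p x y p0 p1 x0 hxy).2)
  simp only [Finset.sum_sub_distrib, ← Finset.sum_mul, ← hK] at w1 w2
  have b1 : 0 ≤ (y - x) * exp (-x) := mul_nonneg (by linarith) (exp_pos _).le
  have w3 := w2.trans (mul_le_mul_of_nonneg_right q3 b1)
  have z1 := ENNReal.toReal_le_of_le_ofReal (by positivity) r1
  have z2 := ENNReal.toReal_le_of_le_ofReal (by positivity) s1
  have z3 : 0 ≤ (∑' q, remP F R p q x).toReal := ENNReal.toReal_nonneg
  have z4 : 0 ≤ (∑' q, remP F R 1 q x).toReal := ENNReal.toReal_nonneg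
  refine ⟨u1, u2, ?_, ?_⟩
  · rw [v1, v3]
    rw [abs_le] at w1 ⊢
    constructor <;> linarith
  · rw [v1, v2, v3, v4]
    rw [abs_le] at w3 r3 s3 ⊢
    constructor <;> linarith

theorem core0 (hL : LIPStmt) (h2 : P2Stmt) (h4 : P4Stmt) (hS : SUMPStmt) (hA : MOMAStmt)
    (hT : TSUMStmt) (hD : 1 ≤ D) (h : Fam F) {a : ℝ} (ha : 0 < a) :
    ∃ C : ℝ, 0 ≤ C ∧ ∀ x y, a ≤ x → x ≤ y → tot F 1 x ≠ ∞ ∧ (tot F 1 x).toReal ≤ C ∧
      |(tot F 1 y).toReal - (tot F 1 x).toReal| ≤ C * (y - x) * exp (-x) := by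
  obtain ⟨R, e1, he1, H1⟩ := rem_small hL h2 h4 hS hA hT hD h ha one_pos one_pos
  choose C hC H2 H3 _ using main_small h4 h
  set K := ∑ q ∈ sq R, C q with hK
  have K0 : 0 ≤ K := Finset.sum_nonneg fun q _ => hC q
  refine ⟨K + 1, by positivity, fun x y hx hxy => ?_⟩
  have x0 : 0 ≤ x := by linarith
  obtain ⟨⟨s1, s2⟩, s3⟩ := H1 1 x y (by linarith) le_rfl hx hxy
    (by rw [sub_self, zero_pow (by omega), zero_mul]; positivity)
  have fm : ∀ t, 0 ≤ t → ∀ q, mainP F 1 t q ≠ ∞ := fun t ht q =>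
    ne_top_of_le_ne_top ENNReal.ofReal_ne_top (H2 q 1 t zero_le_one le_rfl ht)
  obtain ⟨u3, v3⟩ := toReal_tot h4 R (fm x x0) (ne_top_of_le_ne_top ENNReal.ofReal_ne_top s1)
  obtain ⟨-, v4⟩ := toReal_tot h4 R (fm y (x0.trans hxy))
    (ne_top_of_le_ne_top ENNReal.ofReal_ne_top s2)
  have w1 : ∑ q ∈ sq R, (mainP F 1 x q).toReal ≤ K := Finset.sum_le_sum fun q _ =>
    ENNReal.toReal_le_of_le_ofReal (hC q) (H2 q 1 x zero_le_one le_rfl x0)
  have w2 := (Finset.abs_sum_le_sum_abs _ (sq R)).trans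
    (Finset.sum_le_sum fun q _ => H3 q x y x0 hxy)
  simp only [Finset.sum_sub_distrib, ← Finset.sum_mul, ← hK] at w2
  have z2 := ENNReal.toReal_le_of_le_ofReal zero_le_one s1
  refine ⟨u3, by rw [v3]; linarith, ?_⟩
  rw [v3, v4]
  rw [abs_le] at w2 s3 ⊢
  constructor <;> linarith

theorem famT (h1 : P1Stmt) (h4 : P4Stmt) (h5 : P5Stmt) :
    Fam (D := D) fun lam ω q => Tq lam ω q.1 q.2 where
  le _ _ _ := le_rfl
  ratio ω q x y := (h1 D ω q.1 q.2 x y).2
  dep lam q := (h4 D q.1 q.2).2.2.2.1 lam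
  lip q := (h5 D q.1 q.2).imp fun _ k => ⟨k.1, fun ω a b x y c d =>
    ⟨(k.2 ω a b x y c d).1, (k.2 ω a b x y c d).2.1⟩⟩

theorem famU (h1 : P1Stmt) (h4 : P4Stmt) (h5 : P5Stmt) :
    Fam (D := D) fun lam ω q => q.1 * Uq lam ω q.1 q.2 where
  le lam ω q := ((h4 D q.1 q.2).2.2.2.2.2.1 lam ω).2
  ratio ω q x y := by
    rw [mul_left_comm]
    exact mul_le_mul' le_rfl (h1 D ω q.1 q.2 x y).1
  dep lam q := fun ω ω' k => congrArg _ ((h4 D q.1 q.2).2.2.1 lam ω ω' k)
  lip q := by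
    obtain ⟨C, hC, H⟩ := h5 D q.1 q.2
    refine ⟨(q.1 + 1) * C, by positivity, fun ω a b x y c d => ⟨?_, ?_⟩⟩
    · refine (((h4 D q.1 q.2).2.2.2.2.2.1 x ω).2.trans (H ω a b x y c d).1).trans
        (ENNReal.ofReal_le_ofReal ?_)
      nlinarith [mul_nonneg (Nat.cast_nonneg (α := ℝ) q.1) hC]
    · have k := (H ω a b x y c d).2.2
      have : 0 ≤ C * (y - x) * exp (-x) := (abs_nonneg _).trans k
      rw [ENNReal.toReal_mul, ENNReal.toReal_mul, ← mul_sub, abs_mul, ENNReal.toReal_natCast,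
        Nat.abs_cast]
      nlinarith [mul_le_mul_of_nonneg_left k (Nat.cast_nonneg (α := ℝ) q.1)]

theorem AA_eq (hS : SUMPStmt) {p : ℝ} (p0 : 0 ≤ p) (p1 : p ≤ 1) (lam : ℝ) :
    AA D p lam = tot (D := D) (fun lam ω q => Tq lam ω q.1 q.2) p lam := (hS D p lam p0 p1).2.1

theorem BB_eq (hS : SUMPStmt) {p : ℝ} (p0 : 0 ≤ p) (p1 : p ≤ 1) (lam : ℝ) :
    BB D p lam = tot (D := D) (fun lam ω q => q.1 * Uq lam ω q.1 q.2) p lam := by
  rw [(hS D p lam p0 p1).2.2.1, tot]
  refine tsum_congr fun q => ?_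
  rw [(hS D p lam p0 p1).1, lintegral_const_mul' _ _ (ENNReal.natCast_ne_top _)]

end CmpM

open CmpM

theorem cmp (_ : CylStmt) (hL : LIPStmt) (h1 : P1Stmt) (h2 : P2Stmt) (h4 : P4Stmt) (h5 : P5Stmt)
    (hS : SUMPStmt) (hA : MOMAStmt) (hT : TSUMStmt) : CMPStmt := by
  intro D hD a η ζ ha hη hζ
  obtain ⟨e1, he1, H1⟩ := core hL h2 h4 hS hA hT hD (famT h1 h4 h5) ha hη hζ
  obtain ⟨e2, he2, H2⟩ := core hL h2 h4 hS hA hT hD (famU h1 h4 h5) ha hη hζ
  refine ⟨min 1 (min e1 e2), by positivity, fun p x y hp p1 hx hxy hy => ?_⟩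
  have q0 : 1 - 1 ≤ p := le_trans (by gcongr; exact min_le_left _ _) hp
  have q1 : 1 - e1 ≤ p := le_trans (by gcongr; exact (min_le_right _ _).trans (min_le_left _ _)) hp
  have q2 : 1 - e2 ≤ p := le_trans (by gcongr; exact (min_le_right _ _).trans (min_le_right _ _)) hp
  have p0 : 0 ≤ p := by linarith
  obtain ⟨a1, a2, a3, a4⟩ := H1 p x y q1 p1 hx hxy hy
  obtain ⟨-, -, b3, b4⟩ := H2 p x y q2 p1 hx hxy hy
  simp only [AR, BR, AA_eq hS p0 p1, BB_eq hS p0 p1, AA_eq hS zero_le_one le_rfl,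
    BB_eq hS zero_le_one le_rfl]
  exact ⟨a1, a2, a3, b3, a4, b4⟩

theorem cmp0 (_ : CylStmt) (hL : LIPStmt) (h1 : P1Stmt) (h2 : P2Stmt) (h4 : P4Stmt) (h5 : P5Stmt)
    (hS : SUMPStmt) (hA : MOMAStmt) (hT : TSUMStmt) : CMP0Stmt := by
  intro D hD a ha
  obtain ⟨C1, c1, H1⟩ := core0 hL h2 h4 hS hA hT hD (famT h1 h4 h5) ha
  obtain ⟨C2, c2, H2⟩ := core0 hL h2 h4 hS hA hT hD (famU h1 h4 h5) ha
  refine ⟨C1 + C2, by positivity, fun x y hx hxy => ?_⟩
  obtain ⟨a1, a2, a3⟩ := H1 x y hx hxy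
  obtain ⟨-, -, b3⟩ := H2 x y hx hxy
  have b1 : 0 ≤ (y - x) * exp (-x) := mul_nonneg (by linarith) (exp_pos _).le
  simp only [AR, BR, AA_eq hS zero_le_one le_rfl, BB_eq hS zero_le_one le_rfl]
  refine ⟨a1, by linarith, a3.trans ?_, b3.trans ?_⟩
  · nlinarith [mul_nonneg c2 b1]
  · nlinarith [mul_nonneg c1 b1]

end Pool.Agent.MP_8c549f_pr

end MrgPart1

-- marker of a merged file
example : 731051 + 148379 = 731051 + 148379 := rfl
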