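import Mathlib.Data.Int.Star
import Mathlib.Order.Interval.Finset.Box
import Mathlib.Topology.Separation.CompletelyRegular
import Mathlib.RingTheory.WittVector.IsPoly
import Mathlib.Tactic
import Pool.Agent.MP_8c549f_pr.Base

-- ======== part 0: formerly Pool.Agent.MP_8c549f_pr.A5
section MrgPart0

/-!
The blocks of given height and width are the language of a finite automaton.
-/

set_option autoImplicit false

namespace Pool.Agent.MP_8c549f_pr

open MeasureTheory Filter Topology Real
open scoped ENNReal NNReal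

variable {D : ℕ}

namespace PieceA

/-- site, record level, freshness of the record, level of the first cut, width -/
abbrev St (D : ℕ) : Type := V D × ℤ × Bool × ℤ × ℕ

def dl (z : St D) (s : Step D) : St D :=
  (z.1 + vec s, max z.2.1 ((z.1 + vec s) 0), decide (z.2.1 < (z.1 + vec s) 0),
    if z.2.2.2.1 ≠ 0 ∧ z.2.2.2.1 ≤ (z.1 + vec s) 0 then z.2.2.2.1
    else if z.2.2.1 = true ∧ s = fwd D then (z.1 + vec s) 0 else 0,
    max z.2.2.2.2 (rad (z.1 + vec s)))

def z0 (D : ℕ) : St D := (0, 0, true, 0, 0)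

theorem foldl_fst (l : List (Step D)) : ∀ z : St D, (l.foldl dl z).1 = z.1 + pos l := by
  induction l with
  | nil => intro z; simp
  | cons s l ih => intro z; rw [List.foldl_cons, ih, pos_cons, ← add_assoc]; rfl

theorem H_last (l : List (Step D)) (s : Step D) :
    H (l ++ [s]) (l.length + 1) = lev l + vec s 0 := by
  rw [H_of_le (by simp), lev_append, lev_cons, lev_nil, add_zero]

theorem cand_pos {l : List (Step D)} {t : ℕ} (h : Cand l t) : 1 ≤ H l t := by
  obtain ⟨h1, -, h3, h4⟩ := h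
  rcases Nat.eq_zero_or_pos (t - 1) with h | h
  · rw [h3, h]; simp
  · have := h4 0 h
    rw [H_zero] at this
    omega

theorem cand_old {l : List (Step D)} (s : Step D) {t : ℕ} (ht : t ≤ l.length) :
    Cand (l ++ [s]) t ↔ Cand l t := by
  unfold Cand
  rw [H_append_left _ ht, H_append_left _ (by omega : t - 1 ≤ l.length)]
  simp only [List.length_append, List.length_singleton]
  refine and_congr_right fun _ => and_congr (by omega) (and_congr_right fun _ => ?_)
  exact forall₂_congr fun i hi => by rw [H_append_left _ (by omega : i ≤ l.length)]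

theorem cand_new (l : List (Step D)) (s : Step D) :
    Cand (l ++ [s]) (l.length + 1) ↔ Rec l ∧ s = fwd D := by
  unfold Cand Rec
  rw [H_last, Nat.add_sub_cancel, H_append_left _ le_rfl, H_length, ← vec_zero_eq_one]
  simp only [List.length_append, List.length_singleton]
  constructor
  · rintro ⟨-, -, h3, h4⟩
    exact ⟨fun i hi => by rw [← H_append_left [s] hi.le]; exact h4 i hi, by omega⟩
  · rintro ⟨h1, h2⟩
    exact ⟨by omega, le_rfl, by omega, fun i hi => by rw [H_append_left _ hi.le]; exact h1 i hi⟩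

theorem cut_snoc (l : List (Step D)) (s : Step D) (t : ℕ) : Cut (l ++ [s]) t ↔
    (Cut l t ∧ H l t ≤ lev l + vec s 0) ∨ (t = l.length + 1 ∧ Rec l ∧ s = fwd D) := by
  constructor
  · rintro ⟨h1, h2⟩
    have ht : t ≤ l.length + 1 := by simpa using h1.2.1
    rcases ht.eq_or_lt with rfl | ht
    · exact Or.inr ⟨rfl, (cand_new l s).1 h1⟩
    · have ht' : t ≤ l.length := by omega
      rw [H_append_left _ ht'] at h2
      refine Or.inl ⟨⟨(cand_old s ht').1 h1, fun i hi hi' => ?_⟩, ?_⟩
      · rw [← H_append_left [s] hi']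
        exact h2 i hi (by simp; omega)
      · rw [← H_last]
        exact h2 _ ht.le (by simp)
  · rintro (⟨⟨h1, h2⟩, h3⟩ | ⟨rfl, h⟩)
    · have ht := h1.2.1
      refine ⟨(cand_old s ht).2 h1, fun i hi hi' => ?_⟩
      rw [H_append_left _ ht]
      have hi2 : i ≤ l.length + 1 := by simpa using hi'
      rcases hi2.eq_or_lt with rfl | hi2
      · rwa [H_last]
      · rw [H_append_left _ (by omega)]
        exact h2 i hi (by omega)
    · refine ⟨(cand_new l s).2 h, fun i hi hi' => ?_⟩
      have : i = l.length + 1 := by simp at hi'; omega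
      rw [this]

theorem rec_snoc (l : List (Step D)) (s : Step D) :
    Rec (l ++ [s]) ↔ ∀ i ≤ l.length, H l i < lev l + vec s 0 := by
  unfold Rec
  rw [← H_length, List.length_append, List.length_singleton, H_last]
  exact forall_congr' fun i => ⟨fun h hi => by
    rw [← H_append_left [s] hi]; exact h (by omega), fun h hi => by
    rw [H_append_left _ (by omega)]; exact h (by omega)⟩

theorem ext_snoc (l : List (Step D)) (s : Step D) :
    ext (l ++ [s]) = max (ext l) (rad (pos l + vec s)) := by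
  unfold ext
  rw [List.length_append, List.length_singleton, Finset.range_add_one, Finset.sup_insert,
    max_comm]
  congr 1
  · exact Finset.sup_congr rfl fun i hi => by
      rw [loc_append_left _ (Nat.lt_succ_iff.1 (Finset.mem_range.1 hi))]
  · rw [loc_of_le (by simp)]; simp

theorem rad_le_ext (l : List (Step D)) {i : ℕ} (hi : i ≤ l.length) : rad (loc l i) ≤ ext l :=
  Finset.le_sup (f := fun i => rad (loc l i)) (Finset.mem_range.2 (Nat.lt_succ_of_le hi))

theorem ext_take (l : List (Step D)) (n : ℕ) : ext (l.take n) ≤ ext l := by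
  refine Finset.sup_le fun i hi => ?_
  have : i ≤ min n l.length := by simpa [Nat.lt_succ_iff] using hi
  rw [loc_take l (by omega)]
  exact rad_le_ext l (by omega)

theorem rad_fwd (x : V D) : rad (x + vec (fwd D)) = rad x := by
  simp [rad, vec_fwd]

/-- the meaning of the state reached after `l` -/
def Inv (l : List (Step D)) (z : St D) : Prop :=
  z.1 = pos l ∧ (∀ i ≤ l.length, H l i ≤ z.2.1) ∧ (∃ i ≤ l.length, H l i = z.2.1) ∧
    (z.2.2.1 = true ↔ Rec l) ∧ (∀ t, Cut l t → z.2.2.2.1 ≠ 0 ∧ z.2.2.2.1 ≤ H l t) ∧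
    (z.2.2.2.1 ≠ 0 → ∃ t, Cut l t ∧ H l t = z.2.2.2.1) ∧ z.2.2.2.2 = ext l

theorem inv_snoc {l : List (Step D)} {z : St D} (h : Inv l z) (s : Step D) :
    Inv (l ++ [s]) (dl z s) := by
  obtain ⟨x, M, f, q, ρ⟩ := z
  obtain ⟨h1, h2, ⟨i0, hi0, h3⟩, h4, h5, h6, h7⟩ := h
  simp only at h1 h2 h3 h4 h5 h6 h7
  subst h1
  have e : (pos l + vec s) 0 = lev l + vec s 0 := rfl
  have hl : (l ++ [s]).length = l.length + 1 := by simp
  unfold Inv dl
  simp only [e]
  refine ⟨by simp, fun i hi => ?_, ?_, ?_, fun t ht => ?_, fun hq => ?_, ?_⟩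
  · rcases (hl ▸ hi : i ≤ l.length + 1).eq_or_lt with rfl | hi
    · rw [H_last]; exact le_max_right _ _
    · rw [H_append_left _ (by omega)]; exact (h2 i (by omega)).trans (le_max_left _ _)
  · rcases le_total M (lev l + vec s 0) with hM | hM
    · exact ⟨l.length + 1, hl.ge, by rw [H_last, max_eq_right hM]⟩
    · exact ⟨i0, by omega, by rw [H_append_left _ hi0, max_eq_left hM, h3]⟩
  · rw [rec_snoc, decide_eq_true_iff]
    exact ⟨fun h i hi => (h2 i hi).trans_lt h, fun h => h3 ▸ h i0 hi0⟩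
  · have hp := cand_pos ht.1
    rcases (cut_snoc l s t).1 ht with ⟨c1, c2⟩ | ⟨rfl, c1, c2⟩
    · have := h5 t c1
      rw [if_pos ⟨this.1, this.2.trans c2⟩, H_append_left _ c1.1.2.1]
      exact this
    · rw [H_last] at hp ⊢
      split_ifs with g1 g2
      · exact g1
      · exact ⟨by omega, le_rfl⟩
      · exact absurd ⟨h4.2 c1, c2⟩ g2
  · split_ifs at hq ⊢ with g1 g2
    · obtain ⟨t, c1, c2⟩ := h6 g1.1
      exact ⟨t, (cut_snoc l s t).2 (Or.inl ⟨c1, c2 ▸ g1.2⟩), by
        rw [H_append_left _ c1.1.2.1, c2]⟩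
    · exact ⟨l.length + 1, (cut_snoc l s _).2 (Or.inr ⟨rfl, h4.1 g2.1, g2.2⟩), H_last l s⟩
    · exact absurd rfl hq
  · rw [ext_snoc, h7]

theorem inv_st (l : List (Step D)) : Inv l (l.foldl dl (z0 D)) := by
  induction l using List.reverseRecOn with
  | nil =>
    refine ⟨rfl, fun i _ => by simp [H, z0], ⟨0, le_rfl, by simp [z0]⟩, ?_, fun t ht => ?_,
      fun h => absurd rfl h, ?_⟩
    · simp [z0, Rec]
    · have h1 := ht.1.1
      have h2 := ht.1.2.1
      simp at h2
      omega
    · simp only [z0, ext, rad, List.foldl_nil, loc_nil]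
      exact (Nat.le_zero.1 (Finset.sup_le fun _ _ => Finset.sup_le fun _ _ => by simp)).symm
  | append_singleton l s ih => rw [List.foldl_append]; exact inv_snoc ih s

/-- the allowed states -/
noncomputable def SB (D m r : ℕ) : Finset (St D) :=
  Box D m r ×ˢ Finset.Ico (0 : ℤ) m ×ˢ Finset.univ ×ˢ Finset.Ico (0 : ℤ) m ×ˢ Finset.range (r + 1)

theorem mem_SB {m r : ℕ} {z : St D} : z ∈ SB D m r ↔ z.1 ∈ Box D m r ∧ (0 ≤ z.2.1 ∧ z.2.1 < m) ∧
    (0 ≤ z.2.2.2.1 ∧ z.2.2.2.1 < m) ∧ z.2.2.2.2 ≤ r := by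
  simp [SB]

theorem card_Box (m r : ℕ) : (Box D m r).card = m * (2 * r + 1) ^ D := by
  rw [Box, Fintype.card_piFinset, Fin.prod_univ_succ]
  have : ((r : ℤ) + 1 + r).toNat = 2 * r + 1 := by omega
  simp [this]

theorem card_SB (m r : ℕ) : (SB D m r).card ≤ NN D m r := by
  simp only [SB, Finset.card_product, card_Box, Int.card_Ico, sub_zero, Int.toNat_natCast,
    Finset.card_univ, Fintype.card_bool, Finset.card_range, NN]
  calc m * (2 * r + 1) ^ D * (m * (2 * (m * (r + 1))))
      = 2 * m ^ 3 * ((2 * r + 1) ^ D * (r + 1)) := by ring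
    _ ≤ 2 * (m + 1) ^ 3 * ((2 * r + 1) ^ D * (2 * r + 1)) := by gcongr <;> omega
    _ = _ := by ring

theorem card_Box_le (m r : ℕ) : (Box D m r).card ≤ NN D m r := by
  rw [card_Box, NN]
  calc m * (2 * r + 1) ^ D = 1 * m ^ 1 * ((2 * r + 1) ^ D * 1) := by ring
    _ ≤ 2 * (m + 1) ^ 3 * ((2 * r + 1) ^ D * (2 * r + 1)) := by
      refine Nat.mul_le_mul (Nat.mul_le_mul (by omega) ?_) (Nat.mul_le_mul le_rfl (by omega))
      exact (Nat.pow_le_pow_left (Nat.le_succ m) 1).trans
        (Nat.pow_le_pow_right (by omega) (by omega))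
    _ = _ := by ring

theorem one_le_NN (m r : ℕ) : 1 ≤ NN D m r := Nat.succ_le_of_lt (by unfold NN; positivity)

/-- the accepting transitions -/
def Acc (m r : ℕ) (z : St D) (s : Step D) : Prop :=
  z.2.2.1 = true ∧ s = fwd D ∧ z.1 0 + 1 = m ∧ z.2.2.2.1 = 0 ∧ z.2.2.2.2 = r

open Classical in
noncomputable def rw (m r : ℕ) (z : St D) (s : Step D) : ℝ≥0 := if Acc m r z s then 1 else 0

theorem piece_iff (m r : ℕ) (l : List (Step D)) (s : Step D) : Piece m r (l ++ [s]) ↔
    (∀ i ≤ l.length, (l.take i).foldl dl (z0 D) ∈ SB D m r) ∧ Acc m r (l.foldl dl (z0 D)) s := by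
  obtain ⟨h1, h2, -, h4, h5, h6, h7⟩ := inv_st l
  have hl : (l ++ [s]).length = l.length + 1 := by simp
  have hlev : lev (l ++ [s]) = lev l + vec s 0 := by rw [← H_last, ← hl, H_length]
  unfold Piece Block Acc
  rw [hl, cand_new, h4, h1, h7, hlev, ext_snoc]
  constructor
  · rintro ⟨⟨a1, ⟨a2, rfl⟩, a3⟩, a4, a5⟩
    rw [vec_fwd_zero] at a4
    rw [rad_fwd, max_eq_left (by simpa using rad_le_ext l le_rfl)] at a5
    have hH : ∀ i ≤ l.length, 0 ≤ H l i ∧ H l i < m := by
      intro i hi
      refine ⟨by rw [← H_append_left [fwd D] hi]; exact a1 i (by omega), ?_⟩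
      rcases hi.eq_or_lt with rfl | hi
      · rw [H_length]; omega
      · have := a2 i hi; omega
    refine ⟨fun i hi => ?_, a2, rfl, a4, ?_, a5⟩
    · obtain ⟨g1, -, ⟨j, hj, g3⟩, -, -, g6, g7⟩ := inv_st (l.take i)
      have hli : (l.take i).length = i := by simp [hi]
      rw [mem_SB, g1, ← g3, g7, H_take l (by omega), pos_take, mem_Box]
      refine ⟨⟨(hH i hi).1, (hH i hi).2, a5 ▸ rad_le_ext l hi⟩, hH j (by omega), ?_,
        a5 ▸ ext_take l i⟩
      by_cases hq : ((l.take i).foldl dl (z0 D)).2.2.2.1 = 0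
      · have := hH i hi
        rw [hq]; omega
      · obtain ⟨t, c1, c2⟩ := g6 hq
        have := c1.1.2.1
        rw [← c2, H_take l (by omega)]
        exact hH t (by omega)
    · by_contra hq
      obtain ⟨t, c1, -⟩ := h6 hq
      have ht := c1.1.2.1
      refine a3 t (by omega) ((cut_snoc l _ t).2 (Or.inl ⟨c1, ?_⟩))
      have := (hH t ht).2
      rw [vec_fwd_zero]; omega
  · rintro ⟨a1, a2, rfl, a4, a5, a6⟩
    have hH : ∀ i ≤ l.length, 0 ≤ H l i := by
      intro i hi
      have := (mem_SB.1 (a1 i hi)).1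
      rw [(inv_st _).1, mem_Box] at this
      exact this.1
    refine ⟨⟨fun i hi => ?_, ⟨a2, rfl⟩, fun t ht hc => ?_⟩, by rw [vec_fwd_zero]; exact a4, ?_⟩
    · rcases (hl ▸ hi : i ≤ l.length + 1).eq_or_lt with rfl | hi
      · have := hH _ le_rfl
        rw [H_length] at this
        rw [H_last, vec_fwd_zero]; omega
      · rw [H_append_left _ (by omega)]; exact hH i (by omega)
    · rcases (cut_snoc l _ t).1 hc with ⟨c1, -⟩ | ⟨c1, -⟩
      · exact (h5 t c1).1 a5
      · omega
    · rw [rad_fwd, max_eq_left (by simpa using rad_le_ext l le_rfl), a6]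

/-- the transition weights of the automaton -/
noncomputable abbrev PP (lam : ℝ) (ω : Cfg D) : St D → Step D → ℝ := fun z s => pr lam ω z.1 s

open Classical in
theorem cw_eq (lam : ℝ) (ω : Cfg D) (S : Finset (St D)) (l : List (Step D)) : ∀ z : St D,
    cw dl S (PP lam ω) z l =
      if ∀ i ≤ l.length, (l.take i).foldl dl z ∈ S then W lam ω z.1 l else 0 := by
  induction l with
  | nil => intro z; simp [cw]
  | cons s l ih =>
    intro z
    have e : (∀ i ≤ (s :: l).length, ((s :: l).take i).foldl dl z ∈ S) ↔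
        z ∈ S ∧ ∀ i ≤ l.length, (l.take i).foldl dl (dl z s) ∈ S := by
      constructor
      · intro h
        exact ⟨h 0 (by simp), fun i hi => h (i + 1) (by simpa using hi)⟩
      · rintro ⟨h1, h2⟩ i hi
        cases i with
        | zero => exact h1
        | succ i => exact h2 i (by simpa using hi)
    rw [cw, ih, W_cons]
    simp only [e]
    by_cases h1 : z ∈ S
    · by_cases h2 : ∀ i ≤ l.length, (l.take i).foldl dl (dl z s) ∈ S
      · rw [if_pos h1, if_pos h2, if_pos ⟨h1, h2⟩]; rfl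
      · rw [if_pos h1, if_neg h2, if_neg fun h => h2 h.2, mul_zero]
    · rw [if_neg h1, if_neg fun h => h1 h.1]

theorem aw_snoc {σ : Type} [DecidableEq σ] (δ : σ → Step D → σ) (S : Finset σ)
    (P : σ → Step D → ℝ) (r : σ → Step D → ℝ≥0) (s : Step D) (l : List (Step D)) : ∀ z : σ,
    aw δ S P r z (l ++ [s]) =
      cw δ S P z l * (ENNReal.ofReal (P (l.foldl δ z) s) * r (l.foldl δ z) s) := by
  induction l with
  | nil => intro z; by_cases h : z ∈ S <;> simp [aw, cw, h]
  | cons t l ih =>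
    intro z
    rw [List.cons_append, aw, cw, if_neg (by simp : ¬ l ++ [s] = []), ih, List.foldl_cons]
    split_ifs
    · rw [mul_assoc]
    · rw [zero_mul]

theorem cnt_one {σ : Type} (δ : σ → Step D → σ) (l : List (Step D)) : ∀ z : σ,
    cnt δ (fun _ _ => 1) z l = l.length := by
  induction l with
  | nil => intro z; simp [cnt]
  | cons t l ih => intro z; rw [cnt, ih]; simp [add_comm]

open Classical in
theorem aw_eq (lam : ℝ) (ω : Cfg D) (m r : ℕ) (J : V D → Prop)
    (hJ : ∀ l, W lam ω 0 l ≠ 0 → J (pos l)) (l : List (Step D)) :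
    aw dl ((SB D m r).filter fun z => J z.1) (PP lam ω) (rw m r) (z0 D) l =
      {l | Piece m r l}.indicator (W lam ω 0) l := by
  rcases List.eq_nil_or_concat' l with rfl | ⟨l, s, rfl⟩
  · rw [Set.indicator_of_notMem]
    · rfl
    · intro h
      simpa using h.1.2.1.1
  rw [aw_snoc, cw_eq]
  have e0 : (z0 D).1 = 0 := rfl
  by_cases hp : Piece m r (l ++ [s])
  · rw [Set.indicator_of_mem (by exact hp), W_append, W_single]
    obtain ⟨h1, h2⟩ := (piece_iff m r l s).1 hp
    rw [rw, if_pos h2, ENNReal.coe_one, mul_one, PP, foldl_fst, e0]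
    by_cases hW : W lam ω 0 l = 0
    · rw [hW, ite_self]
    · rw [if_pos]
      intro i hi
      refine Finset.mem_filter.2 ⟨h1 i hi, ?_⟩
      rw [foldl_fst, e0, zero_add]
      refine hJ _ fun h => hW ?_
      rw [← List.take_append_drop i l, W_append, h, zero_mul]
  · rw [Set.indicator_of_notMem (by exact hp), rw]
    split_ifs with h1 h2
    · exact absurd ((piece_iff m r l s).2 ⟨fun i hi => (Finset.mem_filter.1 (h1 i hi)).1, h2⟩) hp
    · simp
    · simp
    · simp

theorem aw_eq' (lam : ℝ) (ω : Cfg D) (m r : ℕ) (l : List (Step D)) :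
    aw dl (SB D m r) (PP lam ω) (rw m r) (z0 D) l = {l | Piece m r l}.indicator (W lam ω 0) l := by
  have := aw_eq lam ω m r (fun _ => True) (fun _ _ => trivial) l
  simpa only [Finset.filter_true] using this

theorem CU_eq {lam : ℝ} {ω : Cfg D} {m r : ℕ} {S : Finset (St D)}
    (h : ∀ l, aw dl S (PP lam ω) (rw m r) (z0 D) l = {l | Piece m r l}.indicator (W lam ω 0) l) :
    CU dl S (PP lam ω) (rw m r) (z0 D) = Uq lam ω m r := tsum_congr h

theorem CT_eq {lam : ℝ} {ω : Cfg D} {m r : ℕ} {S : Finset (St D)}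
    (h : ∀ l, aw dl S (PP lam ω) (rw m r) (z0 D) l = {l | Piece m r l}.indicator (W lam ω 0) l) :
    CT dl S (PP lam ω) (fun _ _ => 1) (rw m r) (z0 D) = Tq lam ω m r := by
  refine tsum_congr fun l => ?_
  rw [h, cnt_one]
  by_cases hl : l ∈ {l : List (Step D) | Piece m r l} <;> simp [hl]

theorem CG_le (lam : ℝ) (ω : Cfg D) {B : Finset (V D)} {S : Finset (St D)}
    (hS : ∀ z ∈ S, z.1 ∈ B) (z y : St D) : CG dl S (PP lam ω) z y ≤ Gb lam ω B z.1 y.1 := by
  refine ENNReal.tsum_le_tsum fun l => ?_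
  rw [cw_eq]
  split_ifs with h1 h2
  · rw [Set.indicator_of_mem]
    refine ⟨fun i hi => ?_, by rw [← h1, foldl_fst]⟩
    have := hS _ (h2 i hi)
    rwa [foldl_fst] at this
  · exact zero_le
  · exact zero_le

theorem wt_le (x y : ℝ) (s : Step D) : wt y s ≤ exp |y - x| * wt x s := by
  rw [wt, wt, ← exp_add, exp_le_exp]
  have h := vec_bounds s 0
  have h1 : (-1 : ℝ) ≤ vec s 0 := by exact_mod_cast h.1
  have h2 : (vec s 0 : ℝ) ≤ 1 := by exact_mod_cast h.2
  have h3 := le_abs_self (y - x)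
  have h4 := neg_abs_le (y - x)
  nlinarith

theorem pr_le (x y : ℝ) (ω : Cfg D) (v : V D) (s : Step D) :
    pr y ω v s ≤ exp (2 * |y - x|) * pr x ω v s := by
  by_cases h : ω (edge v s) = true
  · rw [pr_of_open _ h, pr_of_open _ h, ← mul_div_assoc, div_le_div_iff₀ (Zq_pos y h) (Zq_pos x h)]
    have h1 : Zq x ω v ≤ exp |y - x| * Zq y ω v := by
      rw [Zq, Zq, Finset.mul_sum]
      refine Finset.sum_le_sum fun t _ => ?_
      split_ifs
      · rw [abs_sub_comm]; exact wt_le y x t
      · simp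
    calc wt y s * Zq x ω v ≤ exp |y - x| * wt x s * (exp |y - x| * Zq y ω v) :=
          mul_le_mul (wt_le x y s) h1 (Zq_nonneg _ _ _) (mul_pos (exp_pos _) (wt_pos x s)).le
      _ = _ := by rw [two_mul, exp_add]; ring
  · simp [pr, h]

theorem sum_pr_eq (x y : ℝ) (ω : Cfg D) (v : V D) : ∑ s, pr y ω v s = ∑ s, pr x ω v s := by
  by_cases h : ∃ s, ω (edge v s) = true
  · obtain ⟨s, h⟩ := h
    rw [sum_pr_eq_one y h, sum_pr_eq_one x h]
  · push Not at h
    simp [pr, h]

end PieceA

open PieceA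

theorem p1 (hC : CH1Stmt) : P1Stmt := by
  intro D ω m r x y
  have h := hC D (St D) dl (SB D m r) (PP x ω) (PP y ω) (fun _ _ => 1) (rw m r)
    (exp (2 * |y - x|)) (one_le_exp (by positivity)) (fun z s => pr_nonneg _ _ _ _)
    (fun z s => pr_nonneg _ _ _ _) (fun z => sum_pr_le_one _ _ _) (fun z => sum_pr_eq x y ω _)
    (fun z s => pr_le x y ω _ s) (fun z s => by rw [abs_sub_comm]; exact pr_le y x ω _ s) (z0 D)
  rw [CU_eq (aw_eq' y ω m r), CU_eq (aw_eq' x ω m r), CT_eq (aw_eq' y ω m r),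
    CT_eq (aw_eq' x ω m r), ← exp_nat_mul, ← exp_nat_mul] at h
  have h1 : ((SB D m r).card : ℝ) ≤ NN D m r := by exact_mod_cast card_SB m r
  have h2 : (1 : ℝ) ≤ NN D m r := by exact_mod_cast one_le_NN m r
  have h3 := abs_nonneg (y - x)
  refine ⟨h.1.trans ?_, h.2.trans ?_⟩ <;>
    refine mul_le_mul' (ENNReal.ofReal_le_ofReal (exp_le_exp.2 ?_)) le_rfl <;>
    push_cast <;> nlinarith

theorem p2 (hC : CH2Stmt) (hR : RESStmt) (hE : ESCStmt) : P2Stmt := by
  intro D lam hlam ω m r j n hG
  have h1 : ((SB D m r).card : ℝ) ≤ NN D m r := by exact_mod_cast card_SB m r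
  have h2 : (1 : ℝ) ≤ NN D m r := by exact_mod_cast one_le_NN m r
  have h3 : ((Box D m r).card : ℝ) ≤ NN D m r := by exact_mod_cast card_Box_le m r
  have h4 : 1 ≤ exp (lam * j) := one_le_exp (by positivity)
  have h := hC D (St D) dl (SB D m r) (PP lam ω) (fun _ _ => 1) (rw m r)
    (ENNReal.ofReal ((NN D m r : ℝ) ^ 2 * exp (lam * j))) (fun z s => pr_nonneg _ _ _ _)
    (fun z => sum_pr_le_one _ _ _) (fun _ _ => le_rfl) ?_ (z0 D) n
  · have e1 : ∀ f : List (Step D) → ℝ≥0∞, SS {l | Piece m r l ∧ n < l.length} f =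
        ∑' l : List (Step D), if n < l.length then {l | Piece m r l}.indicator f l else 0 := by
      intro f
      refine tsum_congr fun l => ?_
      by_cases a : Piece m r l <;> by_cases b : n < l.length <;> simp [a, b]
    have e2 : ∀ l : List (Step D), cnt dl (fun _ _ => 1) (z0 D) l *
        {l | Piece m r l}.indicator (W lam ω 0) l =
        {l | Piece m r l}.indicator (fun l => l.length * W lam ω 0 l) l := by
      intro l
      rw [cnt_one]
      by_cases hl : l ∈ {l : List (Step D) | Piece m r l} <;> simp [hl]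
    simp only [aw_eq', e2] at h
    rw [e1, e1]
    refine h.trans (mul_le_mul' ?_ le_rfl)
    have e3 : (n : ℝ≥0∞) + (SB D m r).card * (2 * D + 2) *
        (2 + ENNReal.ofReal ((NN D m r : ℝ) ^ 2 * exp (lam * j))) =
        ENNReal.ofReal (n + (SB D m r).card * (2 * D + 2) *
          (2 + (NN D m r : ℝ) ^ 2 * exp (lam * j))) := by
      have hX : 0 ≤ (NN D m r : ℝ) ^ 2 * exp (lam * j) := by positivity
      generalize (NN D m r : ℝ) ^ 2 * exp (lam * j) = X at hX
      rw [ENNReal.ofReal_add (by positivity) (by positivity), ENNReal.ofReal_mul (by positivity),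
        ENNReal.ofReal_mul (by positivity), ENNReal.ofReal_add (by positivity) (by positivity),
        ENNReal.ofReal_add (by positivity) hX, ENNReal.ofReal_mul (by positivity)]
      simp
    rw [e3]
    refine ENNReal.ofReal_le_ofReal ?_
    have h5 : 1 ≤ (NN D m r : ℝ) ^ 2 * exp (lam * j) := one_le_mul_of_one_le_of_one_le
      (one_le_pow₀ h2) h4
    calc (n : ℝ) + (SB D m r).card * (2 * D + 2) * (2 + (NN D m r : ℝ) ^ 2 * exp (lam * j))
        ≤ n + NN D m r * (2 * D + 2) * (3 * ((NN D m r : ℝ) ^ 2 * exp (lam * j))) := by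
          gcongr
          linarith
      _ = _ := by ring
  · intro y _ s _ hU
    by_cases ho : ω (edge y.1 s) = true
    swap
    · simp [pr, ho]
    obtain ⟨l, hl⟩ : ∃ l, aw dl (SB D m r) (PP lam ω) (rw m r) (dl y s) l ≠ 0 := by
      by_contra hc
      push Not at hc
      exact hU (ENNReal.tsum_eq_zero.2 hc)
    rcases List.eq_nil_or_concat' l with rfl | ⟨l, t, rfl⟩
    · exact absurd rfl hl
    rw [aw_snoc, cw_eq] at hl
    obtain ⟨a1, a2⟩ := mul_ne_zero_iff.1 hl
    obtain ⟨a2, a3⟩ := mul_ne_zero_iff.1 a2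
    have b1 : ∀ i ≤ l.length, (l.take i).foldl dl (dl y s) ∈ SB D m r := by
      by_contra hc
      exact a1 (if_neg hc)
    rw [if_pos b1] at a1
    have b3 : Acc m r (l.foldl dl (dl y s)) t := by
      by_contra hc
      exact a3 (by rw [rw, if_neg hc]; rfl)
    set x := (dl y s).1 with hx
    have b2 : ∀ i ≤ l.length, x + loc l i ∈ Box D m r := fun i hi => by
      have := (mem_SB.1 (b1 i hi)).1
      rwa [foldl_fst] at this
    obtain ⟨-, rfl, b4, -⟩ := b3
    rw [foldl_fst, ← hx] at b4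
    have hW : W lam ω x (l ++ [fwd D]) ≠ 0 := by
      rw [W_append, W_single]
      rw [PP, foldl_fst] at a2
      exact mul_ne_zero a1 a2
    have hend : (x + pos (l ++ [fwd D])) 0 = m := by
      rw [← b4]; simp [add_assoc]
    have hlev : ∀ i ≤ l.length + 1, 0 ≤ (x + loc (l ++ [fwd D]) i) 0 := by
      intro i hi
      rcases hi.eq_or_lt with rfl | hi
      · rw [loc_of_le (by simp), hend]; positivity
      · rw [loc_append_left _ (by omega)]
        exact (mem_Box.1 (b2 i (by omega))).1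
    have hesc : Esc ω (Box D m r) x 0 := by
      refine hE D ω _ x 0 (l ++ [fwd D]) (fun h => ?_) fun i hi =>
        ⟨(W_ne_zero_iff lam ω _ x).1 hW i hi, ?_⟩
      · have := (mem_Box.1 h).2.1
        omega
      · rw [expo_eq, add_assoc, ← loc_succ hi]
        have hi' : i < l.length + 1 := by simpa using hi
        exact add_nonneg (hlev i hi'.le) (hlev (i + 1) hi')
    have hx' : x = y.1 + vec s := rfl
    have hesc' := hG x (by simpa using b2 0 (Nat.zero_le _)) hesc (rev s)
      (by rw [hx', edge_rev]; exact ho)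
    rw [hx', expo_rev, ← hx'] at hesc'
    refine le_trans (mul_le_mul' (CG_le lam ω (fun z hz => (mem_SB.1 hz).1) _ _) le_rfl)
      ((hR D lam hlam ω _ x y.1 s _ hesc').trans (ENNReal.ofReal_le_ofReal ?_))
    rw [sub_sub_cancel, Int.cast_natCast]
    gcongr

theorem p3 (hC : CH3Stmt) (hR : RESStmt) (hE : ESCStmt) : P3Stmt := by
  intro D ω hω m r
  classical
  set J : V D → Prop := fun x => ∃ l, x + pos l ∉ Box D m r ∧ W 0 ω x l ≠ 0 with hJ
  have hJ' : ∀ lam l, W lam ω 0 l ≠ 0 → J (pos l) := by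
    intro lam l
    induction l using List.reverseRecOn with
    | nil =>
      intro _
      refine ⟨[bck D], fun h => ?_, ?_⟩
      · simpa using (mem_Box.1 h).1
      · rw [W_single]
        simpa using pr_pos 0 hω
    | append_singleton l s ih =>
      intro h
      rw [W_append, W_single, zero_add] at h
      obtain ⟨a1, a2⟩ := mul_ne_zero_iff.1 h
      obtain ⟨u, b1, b2⟩ := ih a1
      have ho : ω (edge (pos l) s) = true :=
        open_of_pr_ne (lam := lam) fun h => a2 (by rw [h]; simp)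
      have e : pos (l ++ [s]) = pos l + vec s := by simp
      refine ⟨rev s :: u, by simpa [add_assoc] using b1, ?_⟩
      rw [W_cons, e, vec_rev, add_neg_cancel_right]
      refine mul_ne_zero ?_ b2
      simpa using pr_pos 0 (x := pos l + vec s) (s := rev s) (by rw [edge_rev]; exact ho)
  have h := hC D (St D) dl ((SB D m r).filter fun z => J z.1) (fun lam => PP lam ω)
    (fun _ _ => 1) (rw m r) (fun z s => isRat_pr ω z.1 s) (fun lam _ z s => pr_nonneg _ _ _ _)
    (fun lam _ z => sum_pr_le_one _ _ _) ?_ (z0 D)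
  · simp only [fun lam => CU_eq (aw_eq lam ω m r J (hJ' lam)),
      fun lam => CT_eq (aw_eq lam ω m r J (hJ' lam))] at h
    exact ⟨fun lam hl => (h.1 lam hl).2, h.2⟩
  · intro lam hlam y hy
    obtain ⟨hy1, l, b1, b2⟩ := Finset.mem_filter.1 hy
    have hB := (mem_SB.1 hy1).1
    have ho := (W_ne_zero_iff 0 ω l y.1).1 b2
    have hesc : Esc ω (Box D m r) y.1 (2 * y.1 0 - 2 * l.length - 1) := by
      refine hE D ω _ _ _ l b1 fun i hi => ⟨ho i hi, ?_⟩
      have c1 := (abs_loc_le l 0 i).1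
      have c2 := (vec_bounds l[i] 0).1
      simp only [expo, Pi.add_apply]
      omega
    have hl : 0 < l.length := by
      rcases l with _ | ⟨s, l⟩
      · exact absurd hB (by simpa using b1)
      · simp
    have ho' := ho 0 hl
    rw [loc_zero, add_zero] at ho'
    refine ne_top_of_le_ne_top ?_
      (CG_le lam ω (fun z hz => (mem_SB.1 (Finset.mem_filter.1 hz).1).1) y y)
    rw [← mul_one (Gb _ _ _ _ _), ← sum_ofReal_pr_eq_one lam ho', Finset.mul_sum]
    exact ENNReal.sum_ne_top.2 fun s _ =>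
      ne_top_of_le_ne_top ENNReal.ofReal_ne_top (hR D lam hlam ω _ _ _ s _ hesc)

end Pool.Agent.MP_8c549f_pr

/-!
Combinatorics of cuts: the recursion for the first visits of a level without any cut.
-/

set_option autoImplicit false

namespace Pool.Agent.MP_8c549f_pr

open MeasureTheory Filter Topology Real
open scoped ENNReal NNReal

variable {D : ℕ}

namespace RecM

open PieceA

def cutF (f : ℕ → ℤ) (T t : ℕ) : Prop :=
  (1 ≤ t ∧ t ≤ T ∧ f t = f (t - 1) + 1 ∧ ∀ i < t - 1, f i < f (t - 1)) ∧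
    ∀ i, t ≤ i → i ≤ T → f t ≤ f i

theorem comb (f : ℕ → ℤ) (h0 : f 0 = 0) (hs : ∀ i, f i - 1 ≤ f (i + 1) ∧ f (i + 1) ≤ f i + 1)
    (n c : ℕ) {k : ℕ} (hk : k ≤ n) (hc : (c : ℤ) ≤ f k) (hn : ∀ t, ¬ cutF f n t) :
    ∃ (M T : ℕ), M ≤ c ∧ T ≤ n ∧ f T = M ∧ (∀ i < T, f i < f T) ∧ (∀ t, ¬ cutF f T t) ∧
      (M = c ∨ ∃ i j : ℕ, T + 1 + j ≤ n ∧ f (T + 1) = M + 1 ∧ f (T + 1 + j) = M ∧
        (∀ a < j, (M : ℤ) + 1 ≤ f (T + 1 + a) ∧ f (T + 1 + a) ≤ M + 1 + i) ∧
        (∃ a < j, f (T + 1 + a) = M + 1 + i) ∧ c < M + 2 + i) := by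
  classical
  set G : ℕ → Prop := fun j => ∃ T ≤ n, f T = j ∧ (∀ i < T, f i < f T) ∧ ∀ t, ¬ cutF f T t with hG
  have hG0 : G 0 := ⟨0, Nat.zero_le _, by simpa using h0, fun i hi => absurd hi (by omega),
    fun t ht => by have := ht.1.1; have := ht.1.2.1; omega⟩
  obtain ⟨T, hT, e1, e2, e3⟩ : G (Nat.findGreatest G c) := Nat.findGreatest_spec (Nat.zero_le c) hG0
  have hmax : ∀ j, Nat.findGreatest G c < j → j ≤ c → ¬ G j :=
    fun j a b => Nat.findGreatest_is_greatest a b
  have hMc := Nat.findGreatest_le (P := G) c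
  generalize Nat.findGreatest G c = M at *
  refine ⟨M, T, hMc, hT, e1, e2, e3, ?_⟩
  rcases hMc.eq_or_lt with h | hlt
  · exact Or.inl h
  right
  have hle : ∀ i ≤ T, f i ≤ M := fun i hi => by
    rcases hi.eq_or_lt with rfl | hi
    · exact e1.le
    · exact e1 ▸ (e2 i hi).le
  have hit : ∀ j : ℕ, M < j → j ≤ c → ∃ T' ≤ n, f T' = j ∧ (∀ i < T', f i < j) ∧
      ∃ t, T < t ∧ cutF f T' t := by
    intro j a b
    obtain ⟨T', a1, a2, a3⟩ := exists_first_hit f (fun i => (hs i).2) (c := j) (by omega)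
      (n := k) (by omega)
    refine ⟨T', by omega, a2, a3, ?_⟩
    by_contra hcon
    refine hmax j a b ⟨T', by omega, a2, fun i hi => a2 ▸ a3 i hi, fun t ht => ?_⟩
    have hTT : T ≤ T' := by
      by_contra h
      have := hle T' (by omega)
      omega
    by_cases htT : T < t
    · exact hcon ⟨t, htT, ht⟩
    · exact e3 t ⟨⟨ht.1.1, by omega, ht.1.2.2⟩, fun i b1 b2 => ht.2 i b1 (by omega)⟩
  have hge : ∀ T' t, T < t → cutF f T' t → (M : ℤ) ≤ f (t - 1) ∧ (T < t - 1 → (M : ℤ) < f (t - 1)) := by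
    intro T' t a b
    refine ⟨?_, fun h => e1 ▸ b.1.2.2.2 T h⟩
    rcases (by omega : T ≤ t - 1).eq_or_lt with h | h
    · rw [← h, e1]
    · exact (e1 ▸ b.1.2.2.2 T h).le
  have hup : f (T + 1) = M + 1 := by
    obtain ⟨T', a1, a2, a3, t, a4, a5⟩ := hit (M + 1) (by omega) hlt
    have b1 := a3 (t - 1) (by have := a5.1.1; have := a5.1.2.1; omega)
    have b2 := hge T' t a4 a5
    have b3 : t = T + 1 := by
      by_contra h
      have := b2.2 (by omega)
      push_cast at b1
      omega
    have := a5.1.2.2.1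
    rw [b3, Nat.add_sub_cancel, e1] at this
    exact this
  have hTn : T + 1 ≤ n := by
    by_contra h
    have := hle k (by omega)
    omega
  have hex : ∃ j, T + 1 + j ≤ n ∧ f (T + 1 + j) < M + 1 := by
    by_contra hcon
    push Not at hcon
    refine hn (T + 1) ⟨⟨by omega, hTn, by rw [Nat.add_sub_cancel, hup, e1], e2⟩, fun i a b => ?_⟩
    have := hcon (i - (T + 1)) (by omega)
    rw [show T + 1 + (i - (T + 1)) = i by omega] at this
    omega
  obtain ⟨j1, j2⟩ := Nat.find_spec hex
  have j3 : ∀ a < Nat.find hex, (M : ℤ) + 1 ≤ f (T + 1 + a) := fun a ha => by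
    have := Nat.find_min hex ha
    push Not at this
    exact this (by omega)
  generalize Nat.find hex = j at *
  have hj0 : 0 < j := by
    rcases Nat.eq_zero_or_pos j with rfl | h
    · rw [add_zero] at j2; omega
    · exact h
  have j4 : f (T + 1 + j) = M := by
    have a1 := j3 (j - 1) (by omega)
    have a2 := (hs (T + 1 + (j - 1))).1
    rw [show T + 1 + (j - 1) + 1 = T + 1 + j by omega] at a2
    omega
  obtain ⟨a, ha, hmx⟩ := Finset.exists_max_image (Finset.range j) (fun a => f (T + 1 + a))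
    ⟨0, Finset.mem_range.2 hj0⟩
  simp only [Finset.mem_range] at ha hmx
  obtain ⟨i, hi⟩ : ∃ i : ℕ, f (T + 1 + a) = M + 1 + i :=
    ⟨(f (T + 1 + a) - (M + 1)).toNat, by have := j3 a ha; omega⟩
  refine ⟨i, j, j1, hup, j4, fun b hb => ⟨j3 b hb, hi ▸ hmx b hb⟩, ⟨a, ha, hi⟩, ?_⟩
  by_contra hcon
  obtain ⟨T', a1, a2, a3, t, a4, a5⟩ := hit (M + 2 + i) (by omega) (by omega)
  push_cast at a2 a3
  have hT' : T + 1 + j < T' := by
    by_contra h
    rcases le_or_gt T' T with h1 | h1
    · have := hle T' h1; omega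
    · rcases (by omega : T' ≤ T + 1 + j).eq_or_lt with h2 | h2
      · rw [h2] at a2; omega
      · have := hmx (T' - (T + 1)) (by omega)
        rw [show T + 1 + (T' - (T + 1)) = T' by omega] at this
        omega
  have b2 := hge T' t a4 a5
  have b3 := a5.1.2.2.1
  rcases le_or_gt t (T + 1 + j) with h | h
  · have := a5.2 (T + 1 + j) h hT'.le
    omega
  · have c1 := a5.1.2.2.2 (T + 1 + a) (by omega)
    have c2 := a3 (t - 1) (by have := a5.1.2.1; omega)
    omega

theorem cut_take (l : List (Step D)) {T : ℕ} (hT : T ≤ l.length) (t : ℕ) :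
    Cut (l.take T) t ↔ cutF (H l) T t := by
  have e : (l.take T).length = T := by simp [hT]
  unfold Cut Cand cutF
  rw [e]
  by_cases ht : t ≤ T
  · rw [H_take l ht, H_take l (by omega : t - 1 ≤ T)]
    refine and_congr (and_congr_right fun _ => and_congr_right fun _ => and_congr_right fun _ =>
      forall₂_congr fun i hi => by rw [H_take l (by omega : i ≤ T)]) ?_
    exact forall₃_congr fun i _ hi => by rw [H_take l hi]
  · exact ⟨fun h => absurd h.1.2.1 ht, fun h => absurd h.1.2.1 ht⟩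

theorem antich_rec (m : ℤ) : Antich {l : List (Step D) | Rec l ∧ lev l = m} := by
  rintro u ⟨-, h2⟩ l ⟨h3, h4⟩ ⟨t, rfl⟩
  by_contra hne
  have ht : t ≠ [] := fun h => hne (by simp [h])
  have := h3 u.length (by have := List.length_pos_iff.2 ht; simp; omega)
  rw [H_append_left _ le_rfl, H_length] at this
  omega

/-- a record without cut, a forward step, an excursion back -/
def Exc (D M i : ℕ) : Set (List (Step D)) :=
  {l | ∃ u ∈ ASet D M, ∃ r ∈ RetSet D i, l = u ++ fwd D :: r}

theorem comb_list (l : List (Step D)) (c : ℕ) {k : ℕ} (hk : k ≤ l.length) (hc : (c : ℤ) ≤ H l k)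
    (hn : ∀ t, ¬ Cut l t) :
    (∃ T ≤ l.length, l.take T ∈ ASet D c) ∨ ∃ M < c, ∃ i, c < M + 2 + i ∧
      (∃ a < l.length, H l a = M + 1 + i) ∧ ∃ u ∈ Exc D M i, u <+: l := by
  obtain ⟨M, T, a1, a2, a3, a4, a5, a6⟩ := comb (H l) (H_zero l) (H_step l) l.length c hk hc
    fun t ht => hn t (by rw [← List.take_length (l := l)]; exact (cut_take l le_rfl t).2 ht)
  have hA : l.take T ∈ ASet D M := by
    refine ⟨fun i hi => ?_, by rw [lev_take, a3], fun t ht => a5 t ((cut_take l a2 t).1 ht)⟩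
    have : i < T := by simp at hi; omega
    rw [lev_take, H_take l this.le]
    exact a4 i this
  rcases a1.eq_or_lt with rfl | hlt
  · exact Or.inl ⟨T, a2, hA⟩
  obtain ⟨i, j, b1, b2, b3, b4, ⟨a, b5, b6⟩, b7⟩ := a6.resolve_left hlt.ne
  have hT : T < l.length := by omega
  have hs : l[T] = fwd D := by
    rw [H_succ hT, a3] at b2
    exact vec_zero_eq_one.1 (by linarith)
  have hj : ((l.drop (T + 1)).take j).length = j := by simp; omega
  have hH : ∀ b ≤ j, H ((l.drop (T + 1)).take j) b = H l (T + 1 + b) - (M + 1) := fun b hb => by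
    rw [H_take _ hb, H_drop, b2]; ring
  refine Or.inr ⟨M, hlt, i, b7, ⟨T + 1 + a, by omega, b6⟩, _,
    ⟨_, hA, (l.drop (T + 1)).take j, ⟨?_, fun b hb => ?_, a, by omega, ?_⟩, rfl⟩, ?_⟩
  · rw [← H_length, hj, hH j le_rfl, b3]; ring
  · rw [hj] at hb
    have := b4 b hb
    rw [hH b hb.le]
    omega
  · rw [hH a b5.le, b6]; ring
  · conv_rhs => rw [← List.take_append_drop T l, List.drop_eq_getElem_cons hT, hs]
    exact (List.prefix_append_right_inj _).2 ((List.prefix_cons_inj _).2 (List.take_prefix _ _))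

theorem SS_app (A B : Set (List (Step D))) (f : List (Step D) → ℝ≥0∞) :
    SS {l | ∃ u ∈ A, ∃ t ∈ B, l = u ++ t} f ≤ SS A fun u => SS B fun t => f (u ++ t) := by
  calc SS {l | ∃ u ∈ A, ∃ t ∈ B, l = u ++ t} f ≤ SS (⋃ u : A, (fun t => u.1 ++ t) '' B) f := by
        refine SS_mono ?_ fun _ _ => le_rfl
        rintro _ ⟨u, hu, t, ht, rfl⟩
        exact Set.mem_iUnion.2 ⟨⟨u, hu⟩, t, ht, rfl⟩
    _ ≤ ∑' u : A, SS ((fun t => u.1 ++ t) '' B) f := SS_iUnion_le _ _
    _ = _ := by
        rw [SS_eq_tsum_subtype]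
        exact tsum_congr fun u => SS_image (List.append_right_injective u.1) f

theorem SS_mul_right (A : Set (List (Step D))) (c : ℝ≥0∞) (f : List (Step D) → ℝ≥0∞) :
    SS A (fun l => f l * c) = SS A f * c := by
  rw [mul_comm, ← SS_mul_left]
  exact SS_congr fun _ _ => mul_comm _ _

theorem SS_biUnion_le (T : Finset ℕ) (A : ℕ → Set (List (Step D))) (f : List (Step D) → ℝ≥0∞) :
    SS (⋃ M ∈ T, A M) f ≤ ∑ M ∈ T, SS (A M) f := by
  induction T using Finset.induction_on with
  | empty => simp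
  | insert a T ha ih =>
    rw [Finset.set_biUnion_insert, Finset.sum_insert ha]
    exact (SS_union_le _ _ _).trans (add_le_add le_rfl ih)

theorem exc_le (hA : FAStmt) (hB : FBStmt) {p : ℝ} (lam : ℝ) (h0 : 0 ≤ p) (h1 : p ≤ 1) (M i : ℕ) :
    SS (Exc D M i) (wb true p lam) ≤
      wb true p lam [fwd D] * (aa D p lam M * Ret D p lam i) := by
  have e : Exc D M i = {l | ∃ u ∈ ASet D M, ∃ t ∈ (fun r => fwd D :: r) '' RetSet D i,
      l = u ++ t} := by
    ext l
    simp [Exc]
  rw [e]
  refine (SS_app _ _ _).trans (le_of_eq ?_)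
  rw [aa, ← SS_mul_right, ← SS_mul_left]
  refine SS_congr fun u hu => ?_
  rw [SS_image (List.cons_injective), Ret, ← mul_assoc, ← SS_mul_left]
  refine SS_congr fun r hr => ?_
  have hc : Cand (u ++ [fwd D]) (u ++ [fwd D]).length := by
    rw [List.length_append, List.length_singleton]
    exact (cand_new u _).2 ⟨hu.1, rfl⟩
  have := hA D p lam h0 h1 true (u ++ [fwd D]) r hc fun k hk => (hr.2.1 k hk).1
  rw [List.append_assoc, List.singleton_append, hB D p lam h0 h1 true u _ hu.1 (Or.inr rfl)] at this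
  rw [this, mul_comm (wb true p lam u)]

theorem side_eq {p : ℝ} (lam : ℝ) (h0 : 0 ≤ p) (h1 : p ≤ 1) :
    SS {t : List (Step D) | t.length = 1 ∧ t ≠ [fwd D]} (wb true p lam) =
      1 - wb true p lam [fwd D] := by
  have h := SS_length_wb (D := D) h0 h1 lam 1
  have e : {t : List (Step D) | t.length = 1} =
      {t : List (Step D) | t.length = 1 ∧ t ≠ [fwd D]} ∪ {[fwd D]} := by
    ext t
    by_cases ht : t = [fwd D] <;> simp [ht]
  rw [e, SS_union (Set.disjoint_left.2 fun t a b => a.2 b), SS_singleton] at h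
  exact ENNReal.eq_sub_of_add_eq
    (ne_top_of_le_ne_top ENNReal.one_ne_top (wb_le_one true h0 h1 lam _)) h

end RecM

open RecM PieceA

theorem recs (hA : FAStmt) (hB : FBStmt) : RECStmt := by
  intro D p lam h0 h1
  have hant : ∀ m : ℕ, Antich (ASet D m) := fun m =>
    (antich_rec m).mono fun l hl => ⟨hl.1, hl.2.1⟩
  refine ⟨kraft_wb true h0 h1 lam (hant 0), fun m => ?_, fun m => ?_, fun n h => ?_⟩
  · set P₁ : Set (List (Step D)) :=
      {l | ∃ u ∈ ASet D m, ∃ t ∈ {t : List (Step D) | t.length = 1 ∧ t ≠ [fwd D]}, l = u ++ t}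
    have hc : aa D p lam (m + 1) ≤
        SS (P₁ ∪ ⋃ M ∈ Finset.range m, Exc D M (m - 1 - M)) (wb true p lam) := by
      refine cover_wb true p lam (hant _) fun l hl => ?_
      obtain ⟨a1, a2, a3⟩ := hl
      push_cast at a2
      rcases comb_list l m le_rfl (by rw [H_length]; omega) a3 with
        ⟨T, b1, b2⟩ | ⟨M, b1, i, b2, ⟨a, b3, b4⟩, u, b5, b6⟩
      · have c1 : H l T = m := by rw [← lev_take]; exact b2.2.1
        have hT : T < l.length := by
          refine lt_of_le_of_ne b1 fun h => ?_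
          rw [h, H_length] at c1
          omega
        have e : l.take T ++ [l[T]] = l.take (T + 1) := (List.take_succ_eq_append_getElem hT).symm
        refine ⟨l.take T ++ [l[T]], Or.inl ⟨_, b2, _, ⟨rfl, fun h => ?_⟩, rfl⟩,
          e ▸ List.take_prefix _ _⟩
        have hs : l[T] = fwd D := by simpa using h
        have c2 : H l (T + 1) = m + 1 := by rw [H_succ hT, hs, c1, vec_fwd_zero]
        have c3 : T + 1 = l.length := by
          by_contra hne
          have := a1 (T + 1) (by omega)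
          omega
        have c4 : l = l.take T ++ [fwd D] := by rw [← hs, e, c3, List.take_length]
        refine a3 (T + 1) ?_
        rw [c4]
        exact (cut_snoc _ _ _).2 (Or.inr ⟨by simp [b1], b2.1, rfl⟩)
      · have := a1 a b3
        obtain rfl : i = m - 1 - M := by omega
        exact ⟨u, Or.inr (Set.mem_biUnion (Finset.mem_range.2 b1) b5), b6⟩
    refine hc.trans ((SS_union_le _ _ _).trans (add_le_add ?_ ?_))
    · refine (SS_app _ _ _).trans (le_of_eq ?_)
      rw [← side_eq lam h0 h1, mul_comm, aa, ← SS_mul_right]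
      refine SS_congr fun u hu => ?_
      rw [← SS_mul_left]
      refine SS_congr fun t ht => ?_
      obtain ⟨s, rfl⟩ := List.length_eq_one_iff.1 ht.1
      exact hB D p lam h0 h1 true u s hu.1 (Or.inr rfl)
    · rw [Finset.mul_sum]
      exact (SS_biUnion_le _ _ _).trans
        (Finset.sum_le_sum fun M _ => exc_le hA hB lam h0 h1 M _)
  · have key : ∀ l : List (Step D), Block l → lev l = (m + 1 : ℕ) →
        ∃ u ∈ ASet D m, l = u ++ [fwd D] := by
      intro l hb hl
      rcases List.eq_nil_or_concat' l with rfl | ⟨u, s, rfl⟩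
      · simpa using hb.2.1.1
      have e : (u ++ [s]).length = u.length + 1 := by simp
      obtain ⟨-, a2, a3⟩ := hb
      rw [e] at a2 a3
      obtain ⟨b1, rfl⟩ := (cand_new u s).1 a2
      rw [← H_length, e, H_last, vec_fwd_zero] at hl
      push_cast at hl
      refine ⟨u, ⟨b1, by omega, fun t ht => ?_⟩, rfl⟩
      have c1 := ht.1.2.1
      refine a3 t (by omega) ((cut_snoc u _ t).2 (Or.inl ⟨ht, ?_⟩))
      have := ht.2 u.length c1 le_rfl
      rw [H_length] at this
      rw [vec_fwd_zero]; omega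
    refine cover_wb true p lam ((antich_rec ((m + 1 : ℕ) : ℤ)).mono fun l hl => ⟨?_, hl.2⟩)
      fun l hl => ?_
    · obtain ⟨u, hu, rfl⟩ := key l hl.1 hl.2
      refine (rec_snoc u _).2 fun i hi => ?_
      rw [vec_fwd_zero]
      rcases hi.eq_or_lt with rfl | hi
      · rw [H_length]; omega
      · have := hu.1 i hi; omega
    · obtain ⟨u, hu, rfl⟩ := key l hl.1 hl.2
      exact ⟨u, hu, List.prefix_append _ _⟩
  · set L : Set (List (Step D)) := {l | l.length = n ∧ Stay l ∧ ∀ t, ¬ Cut l t}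
    set B : Set (List (Step D)) := {l | l.length = n ∧ ∀ k ≤ n, 0 ≤ H l k ∧ H l k ≤ h}
    rw [SS_split L B, add_assoc]
    refine add_le_add (SS_mono Set.inter_subset_right fun _ _ => le_rfl) ?_
    have hc : SS (L \ B) (wb true p lam) ≤ SS (ASet D (h + 1) ∪
        ⋃ M ∈ Finset.range (h + 1), ⋃ i, Exc D M (h - M + i)) (wb true p lam) := by
      refine cover_wb true p lam ((antich_length n).mono fun l hl => hl.1.1) fun l hl => ?_
      obtain ⟨⟨a1, a2, a3⟩, a4⟩ := hl
      obtain ⟨k, hk, hk'⟩ : ∃ k ≤ l.length, ((h + 1 : ℕ) : ℤ) ≤ H l k := by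
        by_contra hcon
        push Not at hcon
        refine a4 ⟨a1, fun k hk => ⟨a2 k (by omega), ?_⟩⟩
        have := hcon k (by omega)
        push_cast at this
        omega
      rcases comb_list l (h + 1) hk hk' a3 with ⟨T, -, b2⟩ | ⟨M, b1, i, b2, -, u, b5, b6⟩
      · exact ⟨_, Or.inl b2, List.take_prefix _ _⟩
      · refine ⟨u, Or.inr (Set.mem_biUnion (Finset.mem_range.2 b1)
          (Set.mem_iUnion.2 ⟨i - (h - M), ?_⟩)), b6⟩
        rwa [show h - M + (i - (h - M)) = i by omega]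
    refine hc.trans ((SS_union_le _ _ _).trans (add_le_add le_rfl ?_))
    refine (SS_biUnion_le _ _ _).trans (Finset.sum_le_sum fun M _ => ?_)
    rw [← ENNReal.tsum_mul_left]
    refine (SS_iUnion_le _ _).trans (ENNReal.tsum_le_tsum fun i => ?_)
    exact (exc_le hA hB lam h0 h1 M _).trans
      (mul_le_of_le_one_left' (wb_le_one true h0 h1 lam _))

end Pool.Agent.MP_8c549f_pr

end MrgPart0

-- ======== part 1: formerly Pool.Agent.MP_8c549f_pr.A9
section MrgPart1

/-!
Module HEV: the events that the walk starts with given blocks and never goes lower afterwards.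
-/

set_option autoImplicit false

namespace Pool.Agent.MP_8c549f_pr

open MeasureTheory Filter Topology Real
open scoped ENNReal NNReal

namespace HevM

variable {D : ℕ}

/-- the walk starts with `u` and stays at the level of the end of `u` or above for `n` steps -/
def GU (u : List (Step D)) (n : ℕ) : Set (Cfg D × (ℕ → V D)) :=
  Cyl u ∩ {z | ∀ m, u.length ≤ m → m ≤ u.length + n → lev u ≤ z.2 m 0}

/-- the walk starts with `u` and never goes lower afterwards -/
def HU (u : List (Step D)) : Set (Cfg D × (ℕ → V D)) :=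
  Cyl u ∩ {z | ∀ m, u.length ≤ m → lev u ≤ z.2 m 0}

theorem meas_le (c : ℤ) (m : ℕ) : MeasurableSet {z : Cfg D × (ℕ → V D) | c ≤ z.2 m 0} :=
  measurableSet_le measurable_const
    ((measurable_pi_apply 0).comp ((measurable_pi_apply m).comp measurable_snd))

theorem meas_GU {u : List (Step D)} (hu : MeasurableSet (Cyl u)) (n : ℕ) :
    MeasurableSet (GU u n) := by
  refine hu.inter ?_
  simp only [Set.ofPred_forall]
  exact MeasurableSet.iInter fun m => MeasurableSet.iInter fun _ => MeasurableSet.iInter fun _ =>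
    meas_le _ m

theorem meas_HU {u : List (Step D)} (hu : MeasurableSet (Cyl u)) : MeasurableSet (HU u) := by
  refine hu.inter ?_
  simp only [Set.ofPred_forall]
  exact MeasurableSet.iInter fun m => MeasurableSet.iInter fun _ => meas_le _ m

theorem GU_anti (u : List (Step D)) : Antitone (GU u) := fun _ _ h _ hz =>
  ⟨hz.1, fun m h1 h2 => hz.2 m h1 (by omega)⟩

theorem iInter_GU (u : List (Step D)) : ⋂ n, GU u n = HU u := by
  ext z
  simp only [Set.mem_iInter]
  exact ⟨fun h => ⟨(h 0).1, fun m hm => (h m).2 m hm (by omega)⟩,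
    fun h n => ⟨h.1, fun m hm _ => h.2 m hm⟩⟩

theorem Cyl_append (u l : List (Step D)) : Cyl (u ++ l) ⊆ Cyl u := fun z hz i hi => by
  rw [hz i (by simp only [List.length_append]; omega), loc_append_left l hi]

theorem level_append {u l : List (Step D)} {z : Cfg D × (ℕ → V D)} (hz : z ∈ Cyl (u ++ l)) {i : ℕ}
    (hi : i ≤ l.length) : z.2 (u.length + i) 0 = lev u + H l i := by
  rw [hz _ (by simp only [List.length_append]; omega)]
  exact H_append_right u l i

theorem prefix_of_Cyl {a b : List (Step D)} {z : Cfg D × (ℕ → V D)} (ha : z ∈ Cyl a)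
    (hb : z ∈ Cyl b) (h : a.length ≤ b.length) : a <+: b := by
  rw [List.prefix_iff_eq_take]
  refine List.ext_getElem (by simp [h]) fun i h1 h2 => ?_
  have h3 : i < b.length := by omega
  have e1 := loc_succ h1
  have e2 := loc_succ h3
  rw [← ha _ (by omega), ← ha _ h1.le] at e1
  rw [← hb _ (by omega), ← hb _ h3.le] at e2
  rw [List.getElem_take]
  exact vec_injective (add_left_cancel (e1.symm.trans e2))

theorem Cyl_sub_GU {u l : List (Step D)} (hl : Stay l) : Cyl (u ++ l) ⊆ GU u l.length :=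
  fun z hz => ⟨Cyl_append u l hz, fun m h1 h2 => by
    obtain ⟨i, rfl⟩ := Nat.exists_eq_add_of_le h1
    have := hl i (by omega)
    rw [level_append hz (by omega)]
    omega⟩

theorem HU_append {u l : List (Step D)} (hl : Stay l) : HU (u ++ l) ⊆ HU u :=
  fun z hz => ⟨Cyl_append u l hz.1, fun m h1 => by
    rcases le_total m (u.length + l.length) with h2 | h2
    · exact (Cyl_sub_GU hl hz.1).2 m h1 h2
    · have h3 := hz.2 m (by simpa using h2)
      have h4 := hl _ le_rfl
      rw [lev_append] at h3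
      rw [H_length] at h4
      omega⟩

theorem HU_flatten (L : List (List (Step D))) (hL : ∀ b ∈ L, Block b) :
    ∀ u : List (Step D), HU (u ++ L.flatten) ⊆ HU u := by
  induction L with
  | nil => intro u; simp
  | cons b L ih =>
    intro u
    rw [List.flatten_cons, ← List.append_assoc]
    exact (ih (fun c hc => hL c (List.mem_cons_of_mem _ hc)) _).trans
      (HU_append (hL b List.mem_cons_self).1)

theorem block_eq_of_le {u b b' : List (Step D)} {z : Cfg D × (ℕ → V D)} (hb : Block b)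
    (hb' : Block b') (h : z ∈ HU (u ++ b)) (h' : z ∈ HU (u ++ b')) (hl : b.length ≤ b'.length) :
    b = b' := by
  have h1 := prefix_of_Cyl h.1 h'.1 (by simpa using hl)
  obtain ⟨t, rfl⟩ := (List.prefix_append_right_inj u).1 h1
  by_contra hne
  have ht : b.length < (b ++ t).length := by
    rcases t with _ | ⟨s, t⟩
    · simp at hne
    · simp
  obtain ⟨-, ⟨c1, -, c3, c4⟩, -⟩ := hb
  refine hb'.2.2 _ ht ⟨⟨c1, ht.le, ?_, fun i hi => ?_⟩, fun i h2 h3 => ?_⟩
  · rw [H_append_left t le_rfl, H_append_left t (Nat.sub_le _ _), c3]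
  · rw [H_append_left t (by omega), H_append_left t (Nat.sub_le _ _)]
    exact c4 i hi
  · have h4 := h.2 (u.length + i) (by simpa using h2)
    rw [level_append h'.1 h3, lev_append] at h4
    rw [H_append_left t le_rfl, H_length]
    omega

theorem blocks_eq {z : Cfg D × (ℕ → V D)} (L : List (List (Step D))) (hL : ∀ b ∈ L, Block b) :
    ∀ (L' : List (List (Step D))) (u : List (Step D)), (∀ b ∈ L', Block b) →
      L.length = L'.length → z ∈ HU (u ++ L.flatten) → z ∈ HU (u ++ L'.flatten) → L = L' := by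
  induction L with
  | nil => intro L' u _ h _ _; exact (List.length_eq_zero_iff.1 h.symm).symm
  | cons b L ih =>
    intro L' u hL' hlen h h'
    rcases L' with _ | ⟨b', L'⟩
    · simp at hlen
    have t1 : ∀ c ∈ L, Block c := fun c hc => hL c (List.mem_cons_of_mem _ hc)
    have t2 : ∀ c ∈ L', Block c := fun c hc => hL' c (List.mem_cons_of_mem _ hc)
    have b1 := hL b List.mem_cons_self
    have b2 := hL' b' List.mem_cons_self
    rw [List.flatten_cons, ← List.append_assoc] at h h'
    have g := HU_flatten L t1 _ h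
    have g' := HU_flatten L' t2 _ h'
    have e : b = b' := by
      rcases le_total b.length b'.length with hl | hl
      · exact block_eq_of_le b1 b2 g g' hl
      · exact (block_eq_of_le b2 b1 g' g hl).symm
    subst e
    rw [ih t1 L' _ t2 (by simpa using hlen) h h']

theorem cand_append {u b : List (Step D)} (hu : Cand u u.length) (hb : Block b) :
    Cand (u ++ b) (u ++ b).length := by
  obtain ⟨hs, ⟨c1, -, c3, c4⟩, -⟩ := hb
  obtain ⟨d1, -, d3, d4⟩ := hu
  have e : (u ++ b).length - 1 = u.length + (b.length - 1) := by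
    rw [List.length_append]; omega
  refine ⟨by rw [List.length_append]; omega, le_rfl, ?_, fun i hi => ?_⟩
  · rw [e, List.length_append, H_append_right, H_append_right, c3, add_assoc]
  · rw [e] at hi ⊢
    rw [H_append_right]
    rcases lt_or_ge i u.length with h | h
    · have h1 := hs (b.length - 1) (Nat.sub_le _ _)
      rw [H_append_left b h.le]
      rw [H_length] at d3
      rcases lt_or_ge i (u.length - 1) with h2 | h2
      · have := d4 i h2
        omega
      · rw [show i = u.length - 1 by omega]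
        omega
    · obtain ⟨j, rfl⟩ := Nat.exists_eq_add_of_le h
      have := c4 j (by omega)
      rw [H_append_right]
      omega

theorem cand_fwd : Cand [fwd D] [fwd D].length :=
  ⟨le_rfl, le_rfl, by simp [H], fun i hi => by simp at hi⟩

theorem flatten_wb (hFA : FAStmt) {p : ℝ} (h0 : 0 ≤ p) (h1 : p ≤ 1) (lam : ℝ)
    (L : List (List (Step D))) (hL : ∀ b ∈ L, Block b) : ∀ u : List (Step D), Cand u u.length →
      Cand (u ++ L.flatten) (u ++ L.flatten).length ∧
        wb false p lam (u ++ L.flatten) = wb false p lam u * (L.map (wb true p lam)).prod := by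
  induction L with
  | nil => intro u hu; simpa using hu
  | cons b L ih =>
    intro u hu
    have b1 := hL b List.mem_cons_self
    obtain ⟨a1, a2⟩ := ih (fun c hc => hL c (List.mem_cons_of_mem _ hc)) _ (cand_append hu b1)
    rw [List.flatten_cons, ← List.append_assoc]
    refine ⟨a1, ?_⟩
    rw [a2, hFA D p lam h0 h1 false u b hu fun i hi => b1.1 i hi.le, List.map_cons, List.prod_cons,
      mul_assoc]

theorem reach {lam : ℝ} {ω : Cfg D} {x : V D} {l : List (Step D)} (h : W lam ω x l ≠ 0) :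
    ∀ i ≤ l.length, Relation.ReflTransGen (Opn ω) x (x + loc l i) := by
  rw [W_ne_zero_iff] at h
  intro i
  induction i with
  | zero => intro _; rw [loc_zero, add_zero]
  | succ i ih =>
    intro hi
    refine (ih (by omega)).tail (opn_iff.2 ⟨l[i], ?_, h i hi⟩)
    rw [loc_succ hi, add_assoc]

/-- in a finite cluster the walk does not stay above a level it has just climbed -/
theorem vanish (hV : VANStmt) (hE : ESCStmt) {lam : ℝ} (hlam : 0 ≤ lam) {ω : Cfg D}
    (hω : ω ∉ InfCl D) {u : List (Step D)} (hu : Cand u u.length) :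
    Tendsto (fun n : ℕ => SS {l : List (Step D) | l.length = n ∧ Stay l}
      fun l => W lam ω 0 (u ++ l)) atTop (𝓝 0) := by
  classical
  simp only [W_append, SS_mul_left, zero_add]
  by_cases h0 : W lam ω 0 u = 0
  · simp [h0]
  have hfin : {y | Relation.ReflTransGen (Opn ω) 0 y}.Finite := Set.not_infinite.1 hω
  set B : Finset (V D) := hfin.toFinset.filter fun y => lev u ≤ y 0 with hB
  have hmem : ∀ y, y ∈ B ↔ Relation.ReflTransGen (Opn ω) 0 y ∧ lev u ≤ y 0 := fun y => by
    simp [hB]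
  obtain ⟨d1, -, d3, -⟩ := hu
  have hlt : u.length - 1 < u.length := by omega
  have e1 := loc_succ hlt
  have e2 := H_succ hlt
  rw [show u.length - 1 + 1 = u.length by omega] at e1 e2
  have e3 : u[u.length - 1] = fwd D := vec_zero_eq_one.1 (by omega)
  have hop : ω (edge (pos u) (rev (fwd D))) = true := by
    have := (W_ne_zero_iff lam ω u 0).1 h0 _ hlt
    rw [zero_add, ← edge_rev, ← e1, loc_length, e3] at this
    exact this
  have hesc : Esc ω B (pos u) (expo (pos u) (rev (fwd D))) := by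
    refine hE D ω B _ _ [rev (fwd D)] (fun h => ?_) fun i hi => ?_
    · have := ((hmem _).1 h).2
      simp only [pos_cons, pos_nil, add_zero, vec_rev, Pi.add_apply, Pi.neg_apply,
        vec_fwd_zero, lev] at this
      omega
    · obtain rfl : i = 0 := by simpa using hi
      simpa using hop
  have hu0 : Relation.ReflTransGen (Opn ω) 0 (pos u) := by
    simpa using reach h0 _ le_rfl
  refine tendsto_of_tendsto_of_tendsto_of_le_of_le tendsto_const_nhds (hV D lam hlam ω B _ _ hesc)
    (fun _ => zero_le) fun n => ?_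
  refine (mul_le_of_le_one_left' (W_le_one lam ω u 0)).trans (SS_mono' fun l hl hW => ?_)
  refine ⟨hl.1, fun i hi => (hmem _).2 ⟨hu0.trans (reach hW i (hl.1 ▸ hi)), ?_⟩⟩
  have := hl.2 i (hl.1 ▸ hi)
  simp only [H, lev, Pi.add_apply] at this ⊢
  omega

theorem lower (hFA : FAStmt) (hV : VANStmt) (hE : ESCStmt) (hL : LAWStmt) {p lam : ℝ}
    (h0 : 0 ≤ p) (h1 : p ≤ 1) (hlam : 0 ≤ lam) {P : Measure (Cfg D × (ℕ → V D))}
    (hP : IsAnnealed D p lam P) {u : List (Step D)} (hu : Cand u u.length) :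
    wb false p lam u * qq D p lam ≤ P (HU u) := by
  obtain ⟨mI, -, hC, -⟩ := hL D p lam h0 h1 P hP
  have := hP.1
  have := perc_prob D h0 h1
  set F : ℕ → Cfg D → ℝ≥0∞ := fun n ω =>
    SS {l : List (Step D) | l.length = n ∧ Stay l} fun l => W lam ω 0 (u ++ l) with hF
  have mF : ∀ n, Measurable (F n) := fun n => measurable_SS fun l => measurable_W lam 0 (u ++ l)
  have bF : ∀ n ω, F n ω ≤ 1 := fun n ω =>
    (cont_q lam ω ((antich_length n).mono fun l hl => hl.1) 0 u).trans (W_le_one lam ω u 0)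
  have t1 : Tendsto (fun n => ∫⁻ ω in (InfCl D)ᶜ, F n ω ∂perc D p) atTop (𝓝 0) := by
    have := tendsto_lintegral_of_dominated_convergence (μ := (perc D p).restrict (InfCl D)ᶜ)
      (F := F) (f := fun _ => 0) (fun _ => 1) mF (fun n => Eventually.of_forall (bF n)) (by simp)
      ((ae_restrict_mem mI.compl).mono fun ω hω => vanish hV hE hlam hω hu)
    simpa using this
  have t2 : Tendsto (fun n => P (GU u n)) atTop (𝓝 (P (HU u))) := by
    rw [← iInter_GU]
    exact tendsto_measure_iInter_atTop (fun n => (meas_GU (hC u).1 n).nullMeasurableSet)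
      (GU_anti u) ⟨0, measure_ne_top _ _⟩
  have t3 := t2.add t1
  rw [add_zero] at t3
  refine ge_of_tendsto' t3 fun n => ?_
  have a1 : wb false p lam u * qq D p lam ≤ ∫⁻ ω, F n ω ∂perc D p := by
    rw [hF, lintegral_SS _ _ fun l => measurable_W lam 0 (u ++ l)]
    refine (mul_le_mul_right (iInf_le _ n) _).trans ?_
    rw [← SS_mul_left]
    exact SS_mono subset_rfl fun l hl =>
      (hFA D p lam h0 h1 false u l hu fun i hi => hl.2 i hi.le).ge
  have a2 : ∫⁻ ω in InfCl D, F n ω ∂perc D p ≤ P (GU u n) := by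
    rw [hF, lintegral_SS _ _ fun l => measurable_W lam 0 (u ++ l), SS_eq_tsum_subtype]
    calc ∑' l : {l : List (Step D) | l.length = n ∧ Stay l},
          ∫⁻ ω in InfCl D, W lam ω 0 (u ++ l) ∂perc D p
        ≤ ∑' l : {l : List (Step D) | l.length = n ∧ Stay l}, P (Cyl (u ++ l)) := by
          refine ENNReal.tsum_le_tsum fun l => ?_
          rw [(hC _).2]
          exact le_mul_of_one_le_left' (ENNReal.one_le_inv.2 prob_le_one)
      _ = P (⋃ l : {l : List (Step D) | l.length = n ∧ Stay l}, Cyl (u ++ l)) := by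
          refine (measure_iUnion (fun l l' hne => ?_) fun l => (hC _).1).symm
          refine Set.disjoint_left.2 fun z hz hz' => hne (Subtype.ext ?_)
          have hl : (u ++ l.1).length = (u ++ l'.1).length := by
            rw [List.length_append, List.length_append, l.2.1, l'.2.1]
          exact List.append_cancel_left ((prefix_of_Cyl hz hz' hl.le).eq_of_length hl)
      _ ≤ P (GU u n) := measure_mono (Set.iUnion_subset fun l => by
          have := Cyl_sub_GU (u := u) l.2.2
          rwa [l.2.1] at this)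
  rw [← lintegral_add_compl _ mI] at a1
  exact a1.trans (add_le_add_left a2 _)

end HevM

theorem hev (hFA : FAStmt) (hFL : FLStmt) (hV : VANStmt) (hE : ESCStmt) (hL : LAWStmt) :
    HEVStmt := by
  intro D p lam h0 h1 hlam P hP
  refine ⟨fun h => ?_, fun k => ⟨fun b hb => ?_, fun b b' hb hb' hne => ?_⟩⟩
  · have h2 := hFL D p lam h0.le h1 false [] [fwd D] fun i hi => by simp at hi
    rw [List.nil_append, h, wb_nil false h0.le h1, one_mul, Wf_eq, nonpos_iff_eq_zero,
      mul_eq_zero, ENNReal.ofReal_eq_zero, ENNReal.ofReal_eq_zero] at h2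
    have h3 := Zf_pos D lam
    rcases h2 with h2 | h2
    · exact absurd h2 (not_le.2 (by positivity))
    · exact absurd h2 (not_le.2 (by positivity))
  · have hB : ∀ c ∈ List.ofFn b, Block c := List.forall_mem_ofFn_iff.2 hb
    obtain ⟨a1, a2⟩ := HevM.flatten_wb hFA h0.le h1 lam _ hB _ HevM.cand_fwd
    refine ⟨HevM.meas_HU ((hL D p lam h0.le h1 P hP).2.2.1 _).1, ?_⟩
    have a3 := HevM.lower hFA hV hE hL h0.le h1 hlam hP a1
    rw [a2, List.map_ofFn, List.prod_ofFn, mul_right_comm] at a3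
    exact a3
  · refine Set.disjoint_left.2 fun z hz hz' => hne (List.ofFn_injective ?_)
    exact HevM.blocks_eq _ (List.forall_mem_ofFn_iff.2 hb) _ [fwd D]
      (List.forall_mem_ofFn_iff.2 hb') (by simp) hz hz'

end Pool.Agent.MP_8c549f_pr

/-!
Transfer of the law of large numbers for blocks to the speed.
-/

set_option autoImplicit false

namespace Pool.Agent.MP_8c549f_pr

open MeasureTheory Filter Topology
open scoped ENNReal NNReal

namespace TransM

variable {D : ℕ}

theorem tsum_prod_one {ι : Type} {w : ι → ℝ≥0∞} (h : ∑' i, w i = 1) (k : ℕ) :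
    ∑' b : Fin k → ι, ∏ i, w (b i) = 1 := by
  induction k with
  | zero => simp
  | succ k ih =>
    rw [← (Fin.consEquiv fun _ : Fin (k + 1) => ι).tsum_eq, ENNReal.tsum_prod']
    simp only [Fin.consEquiv_apply, Fin.prod_univ_succ, Fin.cons_zero, Fin.cons_succ,
      ENNReal.tsum_mul_left, ih, mul_one, h]

theorem lev_flatten (L : List (List (Step D))) : lev L.flatten = (L.map lev).sum := by
  induction L with
  | nil => simp [lev, pos]
  | cons l L ih => rw [List.flatten_cons, lev_append, ih, List.map_cons, List.sum_cons]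

theorem bad_tendsto {P : Measure (Cfg D × (ℕ → V D))} [IsProbabilityMeasure P] {v δ : ℝ}
    (hδ : 0 < δ) (h : ∀ᵐ z ∂P, Tendsto (fun n : ℕ => (z.2 n 0 : ℝ) / n) atTop (𝓝 v)) :
    Tendsto (fun k : ℕ => P {z | ∃ n, k ≤ n ∧ δ < |(z.2 n 0 : ℝ) / n - v|}) atTop (𝓝 0) := by
  have hm : ∀ k : ℕ, MeasurableSet
      {z : Cfg D × (ℕ → V D) | ∃ n, k ≤ n ∧ δ < |(z.2 n 0 : ℝ) / n - v|} := fun k => by
    rw [Set.ofPred_exists]
    refine MeasurableSet.iUnion fun n => (MeasurableSet.const _).inter ?_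
    have h1 : Measurable fun z : Cfg D × (ℕ → V D) => z.2 n 0 :=
      (measurable_pi_apply 0).comp ((measurable_pi_apply n).comp measurable_snd)
    exact h1 (MeasurableSet.of_discrete (s := {x : ℤ | δ < |(x : ℝ) / n - v|}))
  have h1 := tendsto_measure_iInter_atTop (μ := P) (fun k => (hm k).nullMeasurableSet)
    (fun k k' hk z hz => hz.imp fun n a => ⟨hk.trans a.1, a.2⟩) ⟨0, measure_ne_top _ _⟩
  have h2 : P (⋂ k : ℕ, {z | ∃ n, k ≤ n ∧ δ < |(z.2 n 0 : ℝ) / n - v|}) = 0 := by
    refine measure_mono_null (fun z hz => ?_) (ae_iff.1 h)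
    intro hz'
    obtain ⟨k, hk⟩ := Metric.tendsto_atTop.1 hz' δ hδ
    obtain ⟨n, a, b⟩ := Set.mem_iInter.1 hz k
    exact lt_asymm b (hk n a)
  rw [h2] at h1
  exact h1

/-- there are long sequences of blocks with typical sums whose ratio is close to the speed -/
theorem key (hW : WLLNStmt) (hH : HEVStmt) {p lam v : ℝ} (hp0 : 0 < p) (hp1 : p ≤ 1)
    (hl : 0 ≤ lam) (hq : qq D p lam ≠ 0)
    (h1 : SS {l : List (Step D) | Block l} (wb true p lam) = 1) (hs : HasSpeed D p lam v)
    (f g : List (Step D) → ℕ)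
    (hf : SS {l : List (Step D) | Block l} (fun l => f l * wb true p lam l) ≠ ∞)
    (hg : SS {l : List (Step D) | Block l} (fun l => g l * wb true p lam l) ≠ ∞)
    {δ : ℝ} (hδ : 0 < δ) : ∀ᶠ k : ℕ in atTop, ∃ b : Fin k → List (Step D),
      |(∑ i, (f (b i) : ℝ)) -
        k * (SS {l : List (Step D) | Block l} (fun l => f l * wb true p lam l)).toReal| ≤ δ * k ∧
      |(∑ i, (g (b i) : ℝ)) -
        k * (SS {l : List (Step D) | Block l} (fun l => g l * wb true p lam l)).toReal| ≤ δ * k ∧
      |(1 + ∑ i, ((lev (b i)).toNat : ℝ)) / (1 + ∑ i, ((b i).length : ℝ)) - v| ≤ δ := by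
  classical
  obtain ⟨P, hP, hv⟩ := hs
  have := hP.1
  obtain ⟨hc, hH⟩ := hH D p lam hp0 hp1 hl P hP
  obtain ⟨w, hw⟩ : ∃ w, w = {l : List (Step D) | Block l}.indicator (wb true p lam) := ⟨_, rfl⟩
  have e : ∀ f : List (Step D) → ℕ, SS {l : List (Step D) | Block l}
      (fun l => f l * wb true p lam l) = ∑' l, (f l : ℝ≥0∞) * w l := fun f => by
    rw [SS, hw]
    exact tsum_congr fun l => Set.indicator_mul_right _ (fun l => (f l : ℝ≥0∞)) _
  have w1 : ∑' l, w l = 1 := by rw [hw]; exact h1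
  rw [e] at hf hg
  rw [e, e]
  have c0 : 0 < wb false p lam [fwd D] * qq D p lam * 2⁻¹ :=
    pos_iff_ne_zero.2 (mul_ne_zero (mul_ne_zero hc hq) (by simp))
  have q0 : (0 : ℝ≥0∞) < 4⁻¹ := by simp
  filter_upwards [(hW _ w f δ hδ w1 hf).eventually (ge_mem_nhds q0),
    (hW _ w g δ hδ w1 hg).eventually (ge_mem_nhds q0),
    (bad_tendsto hδ hv).eventually (gt_mem_nhds c0)] with k k1 k2 k3
  obtain ⟨Gd, hGd⟩ : ∃ Gd : Set (Fin k → List (Step D)), Gd = {b | (∀ i, Block (b i)) ∧
    |(∑ i, (f (b i) : ℝ)) - k * (∑' l, (f l : ℝ≥0∞) * w l).toReal| ≤ δ * k ∧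
    |(∑ i, (g (b i) : ℝ)) - k * (∑' l, (g l : ℝ≥0∞) * w l).toReal| ≤ δ * k} := ⟨_, rfl⟩
  have m1 : 2⁻¹ ≤ ∑' b : Gd, ∏ i, wb true p lam (b.1 i) := by
    have a1 : (1 : ℝ≥0∞) ≤ ∑' b : Gd, ∏ i, wb true p lam (b.1 i) + (4⁻¹ + 4⁻¹) := by
      refine le_trans ?_ (add_le_add_right (add_le_add k1 k2) _)
      rw [← tsum_prod_one w1 k, tsum_subtype Gd (fun b => ∏ i, wb true p lam (b i)),
        ← ENNReal.tsum_add, ← ENNReal.tsum_add]
      refine ENNReal.tsum_le_tsum fun b => ?_
      by_cases hb : ∀ i, Block (b i)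
      · split_ifs with x y
        · exact le_add_left le_self_add
        · exact le_add_left le_self_add
        · exact le_add_left le_add_self
        · rw [Set.indicator_of_mem (by rw [hGd]; exact ⟨hb, not_lt.1 x, not_lt.1 ‹_›⟩)]
          refine le_add_right (le_of_eq (Finset.prod_congr rfl fun i _ => ?_))
          rw [hw]
          exact Set.indicator_of_mem (s := {l : List (Step D) | Block l}) (hb i) _
      · obtain ⟨i, hi⟩ := not_forall.1 hb
        rw [Finset.prod_eq_zero (Finset.mem_univ i) (by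
          rw [hw]; exact Set.indicator_of_notMem (s := {l : List (Step D) | Block l}) hi _)]
        exact zero_le
    have a2 : (4⁻¹ + 4⁻¹ : ℝ≥0∞) = 2⁻¹ := by
      rw [← two_mul, show (4 : ℝ≥0∞) = 2 * 2 by norm_num,
        ENNReal.mul_inv (Or.inl (by norm_num)) (Or.inl (by norm_num)), ← mul_assoc,
        ENNReal.mul_inv_cancel (by norm_num) (by norm_num), one_mul]
    rw [a2, ← ENNReal.inv_two_add_inv_two] at a1
    exact (ENNReal.add_le_add_iff_right (by simp)).1 a1
  have hB : ∀ b : Gd, ∀ i, Block (b.1 i) := fun b => (hGd.le b.2).1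
  have m2 : wb false p lam [fwd D] * qq D p lam * 2⁻¹ ≤ P (⋃ b : Gd, Hev b.1) := by
    rw [measure_iUnion (fun b b' hb => (hH k).2 _ _ (hB b) (hB b') fun e => hb (Subtype.ext e))
      fun b => ((hH k).1 _ (hB b)).1]
    refine (mul_le_mul_right m1 _).trans ?_
    rw [← ENNReal.tsum_mul_left]
    exact ENNReal.tsum_le_tsum fun b => ((hH k).1 _ (hB b)).2
  obtain ⟨z, hz, hz'⟩ := Set.not_subset.1 fun hs => (k3.trans_le m2).not_ge (measure_mono hs)
  obtain ⟨b, hb⟩ := Set.mem_iUnion.1 hz
  have hb2 := hGd.le b.2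
  refine ⟨b.1, hb2.2.1, hb2.2.2, ?_⟩
  have l1 : (fwd D :: (List.ofFn b.1).flatten).length = 1 + ∑ i, (b.1 i).length := by
    rw [List.length_cons, List.length_flatten, List.map_ofFn, List.sum_ofFn, add_comm]
    rfl
  have l2 : k ≤ (fwd D :: (List.ofFn b.1).flatten).length := by
    have := Finset.sum_le_sum (s := Finset.univ) fun i _ => (hB b i).2.1.1
    simp only [Finset.sum_const, Finset.card_univ, Fintype.card_fin, smul_eq_mul, mul_one] at this
    omega
  have l3 : z.2 (fwd D :: (List.ofFn b.1).flatten).length 0 =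
      (1 + ∑ i, (lev (b.1 i)).toNat : ℕ) := by
    rw [hb.1 _ le_rfl, loc_length]
    change lev _ = _
    rw [lev_cons, vec_fwd_zero, lev_flatten, List.map_ofFn, List.sum_ofFn]
    push_cast
    congr 1
    exact Finset.sum_congr rfl fun i _ =>
      (Int.toNat_of_nonneg (le_trans zero_le_one (hB b i).lev_pos)).symm
  have l4 := not_lt.1 fun a => hz' ⟨_, l2, a⟩
  rw [l3, l1] at l4
  rw [Int.cast_natCast] at l4
  simpa only [Nat.cast_add, Nat.cast_one, Nat.cast_sum] using l4

theorem SS_le {A : Set (List (Step D))} {f g : List (Step D) → ℝ≥0∞}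
    (h : ∀ l ∈ A, f l ≤ g l) : SS A f ≤ SS A g :=
  ENNReal.tsum_le_tsum fun l => Set.indicator_le_indicator' (h l)

theorem exists_trunc {A : Set (List (Step D))} {w : List (Step D) → ℝ≥0∞} (h1 : SS A w = 1)
    (h : SS A (fun l => l.length * w l) = ∞) (R : ℝ) : ∃ M : ℕ,
      SS A (fun l => (min l.length M : ℕ) * w l) ≠ ∞ ∧
        R ≤ (SS A (fun l => (min l.length M : ℕ) * w l)).toReal := by
  have fin : ∀ M : ℕ, SS A (fun l => (min l.length M : ℕ) * w l) ≠ ∞ := fun M => by
    have a1 : SS A (fun l => (min l.length M : ℕ) * w l) ≤ SS A (fun l => M * w l) :=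
      SS_le fun l _ => mul_le_mul_left (Nat.cast_le.2 (min_le_right _ _)) _
    have a2 : SS A (fun l => M * w l) = M * SS A w := by
      rw [SS, SS, ← ENNReal.tsum_mul_left]
      exact tsum_congr fun l => Set.indicator_mul_right _ (fun _ => (M : ℝ≥0∞)) _
    rw [a2, h1, mul_one] at a1
    exact ne_top_of_le_ne_top (ENNReal.natCast_ne_top M) a1
  have a3 : ENNReal.ofReal R < SS A (fun l => l.length * w l) := by rw [h]; simp
  rw [SS, ENNReal.tsum_eq_iSup_sum, lt_iSup_iff] at a3
  obtain ⟨s, hs⟩ := a3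
  refine ⟨s.sup List.length, fin _, ?_⟩
  rw [← ENNReal.ofReal_le_iff_le_toReal (fin _)]
  refine hs.le.trans (le_trans (le_of_eq (Finset.sum_congr rfl fun l hl => ?_))
    (ENNReal.sum_le_tsum s))
  by_cases a : l ∈ A
  · rw [Set.indicator_of_mem a, Set.indicator_of_mem a, min_eq_left (Finset.le_sup hl)]
  · rw [Set.indicator_of_notMem a, Set.indicator_of_notMem a]

theorem arith1 {A B S T v δ k : ℝ} (hA : 0 ≤ A) (hS : 0 ≤ S) (h0 : 0 < δ) (h1 : δ ≤ 1)
    (hk : 1 ≤ δ * k) (a : |S - k * A| ≤ δ * k) (b : |T - k * B| ≤ δ * k)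
    (c : |(1 + T) / (1 + S) - v| ≤ δ) : |B - v * A| ≤ δ * (2 * |v| + A + 4) := by
  have k1 : 1 ≤ k := by nlinarith
  have k0 : 0 < k := by linarith
  have s0 : 0 < 1 + S := by linarith
  have c1 : |1 + T - v * (1 + S)| ≤ δ * (1 + S) := by
    rw [show 1 + T - v * (1 + S) = ((1 + T) / (1 + S) - v) * (1 + S) by field_simp, abs_mul,
      abs_of_pos s0]
    exact mul_le_mul_of_nonneg_right c s0.le
  have c2 : 1 + S ≤ k * (A + 2) := by
    have := (abs_le.1 a).2
    nlinarith
  have c3 : |v * (S - k * A)| ≤ |v| * (δ * k) := by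
    rw [abs_mul]; exact mul_le_mul_of_nonneg_left a (abs_nonneg v)
  have c4 : |v| ≤ |v| * (δ * k) := le_mul_of_one_le_right (abs_nonneg v) hk
  have c5 : δ * (1 + S) ≤ δ * (k * (A + 2)) := mul_le_mul_of_nonneg_left c2 h0.le
  refine le_of_mul_le_mul_left ?_ k0
  rw [← abs_of_pos k0, ← abs_mul, abs_of_pos k0, abs_le]
  have d1 := abs_le.1 c1
  have d2 := abs_le.1 c3
  have d3 := abs_le.1 b
  have d4 := le_abs_self v
  have d5 := neg_abs_le v
  constructor <;> nlinarith

theorem arith2 {A B S S' T v δ k : ℝ} (hB : 0 ≤ B) (hT : 0 ≤ T) (hS : S' ≤ S) (h0 : 0 < δ)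
    (h1 : δ ≤ 1) (hk : 1 ≤ k) (hA : (B + 2) / δ + 1 ≤ A) (a : |S' - k * A| ≤ δ * k)
    (b : |T - k * B| ≤ δ * k) (c : |(1 + T) / (1 + S) - v| ≤ δ) : |v| ≤ 2 * δ := by
  have a1 := (abs_le.1 a).1
  have b1 := (abs_le.1 b).2
  have e1 : (B + 2) / δ * δ = B + 2 := div_mul_cancel₀ _ h0.ne'
  have e2 : 0 ≤ (B + 2) / δ := by positivity
  have e3 : k * ((B + 2) / δ) ≤ S := by nlinarith
  have e4 : 0 ≤ S := le_trans (by positivity) e3
  have e5 : (1 + T) / (1 + S) ≤ δ := by
    rw [div_le_iff₀ (by linarith)]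
    have := mul_le_mul_of_nonneg_right e3 h0.le
    rw [mul_assoc, e1] at this
    nlinarith
  have e6 : 0 ≤ (1 + T) / (1 + S) := by positivity
  have c1 := abs_le.1 c
  rw [abs_le]
  constructor <;> linarith [c1.1, c1.2]

theorem eq_zero_of_le {x C : ℝ} (hC : 0 < C) (h : ∀ δ, 0 < δ → δ ≤ 1 → |x| ≤ δ * C) : x = 0 := by
  refine abs_nonpos_iff.1 (le_of_forall_pos_le_add fun ε hε => ?_)
  refine (h (min 1 (ε / C)) (lt_min one_pos (div_pos hε hC)) (min_le_left _ _)).trans ?_
  rw [zero_add, ← le_div_iff₀ hC]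
  exact min_le_right _ _

end TransM

open TransM in
theorem transf (hW : WLLNStmt) (hH : HEVStmt) : TRANSStmt := by
  intro D p lam v hp0 hp1 hl hq h1 hB hs
  constructor
  · intro hA
    have a1 : 1 ≤ AR D p lam := by
      rw [AR, ← ENNReal.ofReal_le_iff_le_toReal hA, ENNReal.ofReal_one, ← h1]
      exact SS_le fun l hl => le_mul_of_one_le_left zero_le (Nat.one_le_cast.2 hl.2.1.1)
    have a0 : 0 < AR D p lam := by linarith
    have a2 : BR D p lam - v * AR D p lam = 0 := by
      refine eq_zero_of_le (C := 2 * |v| + AR D p lam + 4) (by positivity) fun δ h0 hδ => ?_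
      obtain ⟨k, ⟨b, b1, b2, b3⟩, hk⟩ := ((key hW hH hp0 hp1 hl hq h1 hs List.length
        (fun l => (lev l).toNat) hA hB h0).and
          (tendsto_natCast_atTop_atTop.eventually_ge_atTop (1 / δ : ℝ))).exists
      exact arith1 a0.le (Finset.sum_nonneg fun _ _ => Nat.cast_nonneg _) h0 hδ
        (by rwa [← div_le_iff₀' h0]) b1 b2 b3
    rw [eq_div_iff a0.ne']
    linarith
  · intro hA
    refine eq_zero_of_le (C := 2) two_pos fun δ h0 hδ => ?_
    obtain ⟨M, hM, hM'⟩ := exists_trunc h1 hA ((BR D p lam + 2) / δ + 1)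
    obtain ⟨k, ⟨b, b1, b2, b3⟩, hk⟩ := ((key hW hH hp0 hp1 hl hq h1 hs (fun l => min l.length M)
      (fun l => (lev l).toNat) hM hB h0).and
        (tendsto_natCast_atTop_atTop.eventually_ge_atTop (1 : ℝ))).exists
    rw [mul_comm]
    exact arith2 ENNReal.toReal_nonneg (Finset.sum_nonneg fun _ _ => Nat.cast_nonneg _)
      (Finset.sum_le_sum fun i _ => Nat.cast_le.2 (min_le_left _ _)) h0 hδ hk hM' b1 b2 b3

end Pool.Agent.MP_8c549f_pr

/-!
The mean duration of a block exceeds its mean height by little more than the probability that the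
first step is not forward.
-/

set_option autoImplicit false

namespace Pool.Agent.MP_8c549f_pr

open MeasureTheory Filter Topology Real
open scoped ENNReal NNReal

namespace Low

variable {D : ℕ}

theorem block_fwd : Block [fwd D] := by
  have h1 : H [fwd D] 1 = 1 := by simp [H_cons_succ]
  refine ⟨fun i hi => ?_, ⟨le_rfl, le_rfl, by simp [h1], fun i hi => by simp at hi⟩,
    fun t ht h => ?_⟩
  · have : i = 0 ∨ i = 1 := by simp at hi; omega
    rcases this with rfl | rfl
    · simp
    · omega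
  · have := h.1.1
    simp at ht; omega

theorem block_side (k : Fin D) (g : Bool) : Block [(k.succ, g), fwd D, fwd D] := by
  have h0 : H [(k.succ, g), fwd D, fwd D] 0 = 0 := H_zero _
  have h1 : H [(k.succ, g), fwd D, fwd D] 1 = 0 := by simp [H_cons_succ, vec_side_zero]
  have h2 : H [(k.succ, g), fwd D, fwd D] 2 = 1 := by simp [H_cons_succ, vec_side_zero]
  have h3 : H [(k.succ, g), fwd D, fwd D] 3 = 2 := by simp [H_cons_succ, vec_side_zero]
  refine ⟨fun i hi => ?_, ⟨by simp, le_rfl, by simp [h2, h3], fun i hi => ?_⟩, fun t ht h => ?_⟩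
  · have : i = 0 ∨ i = 1 ∨ i = 2 ∨ i = 3 := by simp at hi; omega
    rcases this with rfl | rfl | rfl | rfl <;> omega
  · have : i = 0 ∨ i = 1 := by simp at hi; omega
    change _ < H _ 2
    rcases this with rfl | rfl <;> omega
  · obtain ⟨a, -, b, c⟩ := h.1
    have : t = 1 ∨ t = 2 := by simp at ht; omega
    rcases this with rfl | rfl
    · change H _ 1 = H _ 0 + 1 at b
      omega
    · have := c 0 (by omega)
      change _ < H _ 1 at this
      omega

theorem two_le_lev {l : List (Step D)} (h : Block l) (hl : l ≠ [fwd D]) : 2 ≤ lev l := by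
  obtain ⟨-, ⟨h1, -, h3, h4⟩, -⟩ := h
  rw [H_length] at h3
  rcases Nat.lt_or_ge 1 l.length with k | k
  · have := h4 0 (by omega)
    rw [H_zero] at this
    omega
  · obtain ⟨s, rfl⟩ := List.length_eq_one_iff.1 (le_antisymm k h1)
    simp only [lev_cons, lev_nil, List.length_singleton, Nat.sub_self, H_zero] at h3
    exact absurd (by rw [vec_zero_eq_one.1 (by omega : vec s 0 = 1)]) hl

/-- the duration is split in the height, a unit for blocks with more than one step, and the
long blocks -/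
theorem AA_le (p lam : ℝ) : AA D p lam ≤ BB D p lam +
    SS ({l : List (Step D) | Block l} \ {[fwd D]}) (wb true p lam) +
    SS {l : List (Step D) | Block l ∧ 3 < l.length} fun l => l.length * wb true p lam l := by
  unfold AA BB SS
  rw [← ENNReal.tsum_add, ← ENNReal.tsum_add]
  refine ENNReal.tsum_le_tsum fun l => ?_
  by_cases hb : Block l
  swap
  · rw [Set.indicator_of_notMem (by exact hb)]; exact zero_le
  rw [Set.indicator_of_mem (by exact hb), Set.indicator_of_mem (by exact hb)]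
  by_cases h3 : 3 < l.length
  · rw [Set.indicator_of_mem (s := {l : List (Step D) | Block l ∧ 3 < l.length})
      (by exact ⟨hb, h3⟩)]
    exact le_add_self
  refine le_trans ?_ le_self_add
  by_cases hf : l = [fwd D]
  · subst hf
    refine le_trans (le_of_eq ?_) le_self_add
    simp [lev_cons]
  · rw [Set.indicator_of_mem (by exact ⟨hb, hf⟩), ← add_one_mul]
    have := two_le_lev hb hf
    have : l.length ≤ (lev l).toNat + 1 := by omega
    exact mul_le_mul_left (by exact_mod_cast this) _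

theorem fiber (f : List (Step D) → ℝ≥0∞) : SS {l : List (Step D) | Block l ∧ 3 < l.length} f =
    ∑' q : ℕ × ℕ, SS {l | Piece q.1 q.2 l ∧ 3 < l.length} f := by
  rw [SS_fiber _ fun l => ((lev l).toNat, ext l)]
  refine tsum_congr fun q => ?_
  congr 1
  ext l
  simp only [Set.mem_ofPred_eq, Piece, Prod.ext_iff]
  constructor
  · rintro ⟨⟨a, b⟩, c, d⟩
    have := a.lev_pos
    exact ⟨⟨a, by omega, d⟩, b⟩
  · rintro ⟨⟨a, c, d⟩, b⟩
    exact ⟨⟨a, b⟩, by omega, d⟩

/-- one piece: configurations without traps, and the others -/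
theorem piece_le (hP2 : P2Stmt) (p : ℝ) {lam : ℝ} (hl : 0 ≤ lam) (m r : ℕ) :
    SS {l : List (Step D) | Piece m r l ∧ 3 < l.length} (fun l => l.length * wb true p lam l) ≤
      ENNReal.ofReal (3 + (6 * D + 6) * (NN D m r : ℝ) ^ 3) *
          SS {l : List (Step D) | Piece m r l ∧ 3 < l.length} (wb true p lam) +
        ∫⁻ ω in {ω | ¬ Good (plus ω) (Box D m r) 0}, Tq lam (plus ω) m r ∂perc D p := by
  have hm := measurable_W_cfg (D := D) true lam
  have h1 : SS {l : List (Step D) | Piece m r l ∧ 3 < l.length}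
      (fun l => l.length * wb true p lam l) = ∫⁻ ω, SS {l | Piece m r l ∧ 3 < l.length}
        (fun l => l.length * W lam (plus ω) 0 l) ∂perc D p := by
    rw [lintegral_SS _ _ (f := fun ω l => l.length * W lam (plus ω) 0 l)
      fun l => (hm l).const_mul _]
    exact SS_congr fun l _ => (lintegral_const_mul _ (hm l)).symm
  rw [h1, SS_wb, ← lintegral_const_mul _ (measurable_SS hm)]
  refine le_trans ?_ (add_le_add_right (lintegral_indicator_le _ _) _)
  rw [← lintegral_add_left ((measurable_SS hm).const_mul _)]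
  refine lintegral_mono fun ω => ?_
  by_cases hg : Good (plus ω) (Box D m r) 0
  · have := hP2 D lam hl (plus ω) m r 0 3 hg
    simp only [Nat.cast_zero, mul_zero, exp_zero, mul_one, Nat.cast_ofNat] at this
    exact this.trans le_self_add
  · refine le_trans ?_ le_add_self
    rw [Set.indicator_of_mem (by exact hg)]
    exact SS_mono (fun l hl => hl.1) fun _ _ => le_rfl

theorem one_le_NN (m r : ℕ) : 1 ≤ NN D m r := by
  unfold NN
  exact Nat.succ_le_of_lt (by positivity)

theorem NN_mono {m r R : ℕ} (hm : m ≤ R) (hr : r ≤ R) : NN D m r ≤ NN D R R := by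
  unfold NN
  gcongr

/-- all long blocks -/
theorem long_le (hP2 : P2Stmt) (p : ℝ) {lam : ℝ} (hl : 0 ≤ lam) (R : ℕ) :
    SS {l : List (Step D) | Block l ∧ 3 < l.length} (fun l => l.length * wb true p lam l) ≤
      ENNReal.ofReal (3 + (6 * D + 6) * (NN D R R : ℝ) ^ 3) *
          SS {l : List (Step D) | Block l ∧ 3 < l.length} (wb true p lam) +
        ENNReal.ofReal (6 * D + 9) * (∑' q : ℕ × ℕ, if R < q.1 ∨ R < q.2 then
          (NN D q.1 q.2 : ℝ≥0∞) ^ 3 * UU D p lam q.1 q.2 else 0) +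
        ∑' q : ℕ × ℕ, (NN D q.1 q.2 : ℝ≥0∞) ^ 0 *
          ∫⁻ ω in {ω | ¬ Good (plus ω) (Box D q.1 q.2) 0}, Tq lam (plus ω) q.1 q.2 ∂perc D p := by
  rw [fiber, fiber, ← ENNReal.tsum_mul_left, ← ENNReal.tsum_mul_left, ← ENNReal.tsum_add,
    ← ENNReal.tsum_add]
  refine ENNReal.tsum_le_tsum fun q => (piece_le hP2 p hl q.1 q.2).trans ?_
  rw [pow_zero, one_mul]
  refine add_le_add_left ?_ _
  split_ifs with h
  · refine le_trans ?_ le_add_self
    rw [← mul_assoc]
    refine mul_le_mul' ?_ (SS_mono (fun l hl => hl.1) fun _ _ => le_rfl)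
    have h1 : (1 : ℝ) ≤ (NN D q.1 q.2 : ℝ) ^ 3 :=
      one_le_pow₀ (by exact_mod_cast one_le_NN q.1 q.2)
    rw [← ENNReal.ofReal_natCast (NN D q.1 q.2), ← ENNReal.ofReal_pow (by positivity),
      ← ENNReal.ofReal_mul (by positivity)]
    exact ENNReal.ofReal_le_ofReal (by nlinarith)
  · refine le_trans (mul_le_mul_left (ENNReal.ofReal_le_ofReal ?_) _) le_self_add
    have : (NN D q.1 q.2 : ℝ) ≤ NN D R R := by
      exact_mod_cast NN_mono (D := D) (m := q.1) (r := q.2) (by omega) (by omega)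
    gcongr

/-- the short blocks carry almost all the weight -/
theorem short_le (hFL : FLStmt) {p : ℝ} (h0 : 0 ≤ p) (h1 : p ≤ 1) (lam : ℝ) :
    wb true p lam [fwd D] + (∑ k : Fin D, (wb true p lam [((k.succ, true) : Step D)] +
        wb true p lam [((k.succ, false) : Step D)])) *
          ENNReal.ofReal ((p * exp lam / Zf D lam) ^ 2) +
      SS {l : List (Step D) | Block l ∧ 3 < l.length} (wb true p lam) ≤
        SS {l : List (Step D) | Block l} (wb true p lam) := by
  classical
  let T : Finset (List (Step D)) :=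
    Finset.univ.image fun q : Fin D × Bool => [(q.1.succ, q.2), fwd D, fwd D]
  have hT : ∀ l ∈ (T : Set (List (Step D))), Block l ∧ l.length = 3 := fun l hl => by
    obtain ⟨q, -, rfl⟩ := Finset.mem_image.1 (Finset.mem_coe.1 hl)
    exact ⟨block_side _ _, rfl⟩
  have e : ∀ (k : Fin D) (g : Bool), wb true p lam [((k.succ, g) : Step D)] *
      ENNReal.ofReal ((p * exp lam / Zf D lam) ^ 2) ≤
        wb true p lam [(k.succ, g), fwd D, fwd D] := fun k g => by
    have := hFL D p lam h0 h1 true [(k.succ, g)] [fwd D, fwd D] fun i hi j hj x => by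
      obtain rfl : i = 0 := by simpa using hi
      have y := congrFun x k.succ
      have : j = 0 ∨ j = 1 ∨ j = 2 := by simp at hj; omega
      rcases this with rfl | rfl | rfl <;> cases g <;> simp [vec_fwd] at y
    refine le_trans (le_of_eq ?_) this
    rw [Wf_eq, ← ENNReal.ofReal_mul (by positivity)]
    congr 2
    simp only [lev_cons, vec_fwd_zero, lev_nil, List.length_cons, List.length_nil]
    rw [show lam * ((1 + (1 + 0) : ℤ) : ℝ) = lam + lam by push_cast; ring, exp_add]
    ring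
  have h2 : (∑ k : Fin D, (wb true p lam [((k.succ, true) : Step D)] +
      wb true p lam [((k.succ, false) : Step D)])) *
        ENNReal.ofReal ((p * exp lam / Zf D lam) ^ 2) ≤ SS (T : Set (List (Step D))) (wb true p lam) := by
    rw [SS, ← sum_eq_tsum_indicator, Finset.sum_image (by
      rintro ⟨a, b⟩ - ⟨c, d⟩ - h
      simpa using h), Fintype.sum_prod_type, Finset.sum_mul]
    refine Finset.sum_le_sum fun k _ => ?_
    rw [Fintype.sum_bool, add_mul]
    exact add_le_add (e k true) (e k false)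
  refine le_trans (add_le_add_left (add_le_add_right h2 _) _) ?_
  rw [← SS_singleton [fwd D] (wb true p lam), ← SS_union, ← SS_union]
  · refine SS_mono ?_ fun _ _ => le_rfl
    rintro l ((rfl | hl) | hl)
    exacts [block_fwd, (hT l hl).1, hl.1]
  · rw [Set.disjoint_left]
    rintro l (rfl | hl) h
    · have := h.2; simp at this
    · have := h.2; have := (hT l hl).2; omega
  · rw [Set.disjoint_left]
    rintro l rfl hl
    have := (hT _ hl).2; simp at this

theorem one_sub_le {p lam : ℝ} (h0 : 0 ≤ p) (h1 : p ≤ 1) (hl : 0 ≤ lam) :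
    0 ≤ p * exp lam / Zf D lam ∧ p * exp lam / Zf D lam ≤ 1 ∧
      1 - p * exp lam / Zf D lam ≤ (2 * D + 1) * ((1 - p) + exp (-lam)) := by
  have hZ := Zf_pos D lam
  have hL := exp_pos lam
  have hM := exp_pos (-lam)
  have hD : (0 : ℝ) ≤ D := Nat.cast_nonneg D
  have hM1 : exp (-lam) ≤ 1 := exp_le_one_iff.2 (by linarith)
  have hLM : exp lam * exp (-lam) = 1 := by rw [← exp_add]; simp
  have hLZ : exp lam ≤ Zf D lam := by unfold Zf; linarith
  refine ⟨by positivity, (div_le_one hZ).2 (by nlinarith), ?_⟩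
  rw [one_sub_div hZ.ne', div_le_iff₀ hZ]
  have h2 : (2 * D + 1) * ((1 - p) + exp (-lam)) * exp lam ≤
      (2 * D + 1) * ((1 - p) + exp (-lam)) * Zf D lam :=
    mul_le_mul_of_nonneg_left hLZ (mul_nonneg (by positivity) (by linarith))
  refine le_trans ?_ h2
  unfold Zf
  nlinarith [mul_nonneg hD (mul_nonneg (sub_nonneg.2 h1) hL.le)]

theorem weight_le (hFL : FLStmt) (hPHI : PHIStmt) (hD : 1 ≤ D) {p lam : ℝ} (h0 : 0 ≤ p)
    (h1 : p ≤ 1) (hl : 0 ≤ lam) (hone : SS {l : List (Step D) | Block l} (wb true p lam) = 1) :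
    SS {l : List (Step D) | Block l ∧ 3 < l.length} (wb true p lam) ≤
      ENNReal.ofReal ((2 * (2 * D + 1) ^ 2 + 1) * ((1 - p) + exp (-lam)) ^ 2) := by
  obtain ⟨-, a2, -, a4, a5⟩ := hPHI D hD p lam h0 h1 hl
  obtain ⟨b1, b2, b3⟩ := one_sub_le (D := D) h0 h1 hl
  have c := short_le (D := D) hFL h0 h1 lam
  rw [hone] at c
  rw [sum_step] at a2
  unfold uu at a4
  generalize wb true p lam [fwd D] = φ at *
  generalize wb true p lam [bck D] = β at *
  generalize (∑ k : Fin D, (wb true p lam [((k.succ, true) : Step D)] +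
    wb true p lam [((k.succ, false) : Step D)])) = S at *
  generalize SS {l : List (Step D) | Block l ∧ 3 < l.length} (wb true p lam) = M at *
  generalize p * exp lam / Zf D lam = ρ at *
  have fin : ∀ x : ℝ≥0∞, x ≤ 1 → x ≠ ∞ := fun x hx => ne_top_of_le_ne_top ENNReal.one_ne_top hx
  lift φ to ℝ≥0 using fin _ (a2 ▸ le_self_add.trans le_self_add)
  lift β to ℝ≥0 using fin _ (a2 ▸ le_add_self.trans le_self_add)
  lift S to ℝ≥0 using fin _ (a2 ▸ le_add_self)
  lift M to ℝ≥0 using fin _ (le_add_self.trans c)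
  have hM := exp_pos (-lam)
  have hM1 : exp (-lam) ≤ 1 := exp_le_one_iff.2 (by linarith)
  have hD' : (0 : ℝ) ≤ D := Nat.cast_nonneg D
  have e2 : exp (-2 * lam) = exp (-lam) ^ 2 := by rw [← exp_nat_mul]; congr 1; push_cast; ring
  have d2 : (φ : ℝ) + β + S = 1 := by exact_mod_cast a2
  have d1 : (φ : ℝ) + S * ρ ^ 2 + M ≤ 1 := by
    have := ENNReal.toReal_mono ENNReal.one_ne_top c
    rw [ENNReal.toReal_add (by finiteness) (by finiteness),
      ENNReal.toReal_add (by finiteness) (by finiteness), ENNReal.toReal_mul,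
      ENNReal.toReal_ofReal (by positivity)] at this
    simpa using this
  have d5 : (β : ℝ) ≤ exp (-lam) ^ 2 + (1 - p) * exp (-lam) + (1 - p) ^ 2 := by
    rw [← e2]
    exact (ENNReal.le_ofReal_iff_toReal_le ENNReal.coe_ne_top (by
      have := sub_nonneg.2 h1
      positivity)).1 a5
  rw [ENNReal.coe_toReal] at a4
  refine (ENNReal.le_ofReal_iff_toReal_le ENNReal.coe_ne_top (by positivity)).2 ?_
  rw [ENNReal.coe_toReal]
  have hε := sub_nonneg.2 h1
  generalize 1 - p = ε at *
  generalize exp (-lam) = x at *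
  have f1 : (S : ℝ) ≤ (2 * D + 1) * (ε + x) := by
    nlinarith [β.2, mul_nonneg hD' hε, mul_le_mul_of_nonneg_right hM1 hM.le]
  have f2 : 1 - ρ ^ 2 ≤ 2 * ((2 * D + 1) * (ε + x)) := by nlinarith
  have f3 : (S : ℝ) * (1 - ρ ^ 2) ≤ (2 * D + 1) * (ε + x) * (2 * ((2 * D + 1) * (ε + x))) :=
    mul_le_mul f1 f2 (by nlinarith) (by positivity)
  nlinarith [mul_nonneg hε hM.le]

end Low

open Low

theorem low (hFL : FLStmt) (hP2 : P2Stmt) (_hP4 : P4Stmt) (_hS : SUMPStmt) (hPHI : PHIStmt)
    (hONE : ONEStmt) (hMOMA : MOMAStmt) (hTSUM : TSUMStmt) : LOWStmt := by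
  intro D hD η ζ hη hζ
  have hD' : (0 : ℝ) ≤ D := Nat.cast_nonneg D
  obtain ⟨e1, he1, h1⟩ := hONE D hD 1 one_pos
  obtain ⟨R, e2, he2, h2⟩ := hMOMA D hD 1 (ζ / 2 / (6 * D + 9)) 3 one_pos (by positivity)
  obtain ⟨e3, he3, h3⟩ := hTSUM D hD 1 η (ζ / 2) 0 one_pos hη (by positivity)
  refine ⟨(3 + (6 * D + 6) * (NN D R R : ℝ) ^ 3) * (2 * (2 * D + 1) ^ 2 + 1),
    min (min e1 e2) (min e3 1), by positivity, by positivity, fun p lam hp hp1 hl hpl => ?_⟩
  have m1 : min (min e1 e2) (min e3 1) ≤ e1 := (min_le_left _ _).trans (min_le_left _ _)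
  have m2 : min (min e1 e2) (min e3 1) ≤ e2 := (min_le_left _ _).trans (min_le_right _ _)
  have m3 : min (min e1 e2) (min e3 1) ≤ e3 := (min_le_right _ _).trans (min_le_left _ _)
  have m4 : min (min e1 e2) (min e3 1) ≤ 1 := (min_le_right _ _).trans (min_le_right _ _)
  have hp0 : 0 ≤ p := by linarith
  have hl0 : 0 ≤ lam := by linarith
  obtain ⟨-, a1, a2⟩ := h1 p lam (by linarith) hp1 hl
  have a3 := h2 p lam (by linarith) hp1 hl
    (hpl.trans ((exp_le_one_iff.2 (by linarith)).trans one_le_two))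
  have a4 := h3 p lam (by linarith) hp1 hl hpl
  have a5 := weight_le hFL hPHI hD hp0 hp1 hl0 a1
  have hM := exp_pos (-lam)
  have a6 : SS {l : List (Step D) | Block l ∧ 3 < l.length}
      (fun l => l.length * wb true p lam l) ≤ ENNReal.ofReal
        ((3 + (6 * D + 6) * (NN D R R : ℝ) ^ 3) * (2 * (2 * D + 1) ^ 2 + 1) *
          ((1 - p) + exp (-lam)) ^ 2 + ζ * exp (-lam)) := by
    refine (long_le hP2 p hl0 R).trans ((add_le_add (add_le_add (mul_le_mul_right a5 _)
      (mul_le_mul_right a3 _)) a4).trans (le_of_eq ?_))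
    rw [← ENNReal.ofReal_mul (by positivity), ← ENNReal.ofReal_mul (by positivity),
      ← ENNReal.ofReal_add (by positivity) (by positivity),
      ← ENNReal.ofReal_add (by positivity) (by positivity)]
    congr 1
    field_simp
    ring
  have a7 : wb true p lam [fwd D] +
      SS ({l : List (Step D) | Block l} \ {[fwd D]}) (wb true p lam) = 1 := by
    rw [← a1, SS_split {l : List (Step D) | Block l} {[fwd D]},
      Set.inter_eq_self_of_subset_right (s := {l : List (Step D) | Block l})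
        (Set.singleton_subset_iff.2 block_fwd), SS_singleton]
  have a8 : SS ({l : List (Step D) | Block l} \ {[fwd D]}) (wb true p lam) ≠ ∞ :=
    ne_top_of_le_ne_top ENNReal.one_ne_top (a7 ▸ le_add_self)
  have a9 : (SS ({l : List (Step D) | Block l} \ {[fwd D]}) (wb true p lam)).toReal =
      uu D p lam := by
    have := congrArg ENNReal.toReal a7
    rw [ENNReal.toReal_add
      (ne_top_of_le_ne_top ENNReal.one_ne_top (wb_le_one true hp0 hp1 lam _)) a8] at this
    simp only [ENNReal.toReal_one] at this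
    unfold uu; linarith
  have b := (AA_le (D := D) p lam).trans (add_le_add_right a6 _)
  have c := ENNReal.add_ne_top.2 ⟨ENNReal.add_ne_top.2 ⟨a2, a8⟩, ENNReal.ofReal_ne_top (r :=
    (3 + (6 * D + 6) * (NN D R R : ℝ) ^ 3) * (2 * (2 * D + 1) ^ 2 + 1) *
      ((1 - p) + exp (-lam)) ^ 2 + ζ * exp (-lam))⟩
  refine ⟨ne_top_of_le_ne_top c b, ?_⟩
  have d := ENNReal.toReal_mono c b
  rw [ENNReal.toReal_add (ENNReal.add_ne_top.2 ⟨a2, a8⟩) ENNReal.ofReal_ne_top,
    ENNReal.toReal_add a2 a8, a9, ENNReal.toReal_ofReal (by positivity)] at d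
  unfold AR BR
  linarith

end Pool.Agent.MP_8c549f_pr

end MrgPart1

-- marker of a merged file
example : 731051 + 342504 = 731051 + 342504 := rfl
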