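import Mathlib.Data.Int.Star
import Mathlib.Combinatorics.SimpleGraph.Basic
import Mathlib.Order.Interval.Finset.Box
import Mathlib.Data.Pi.Interval
import Mathlib.Topology.Separation.CompletelyRegular
import Pool.Agent.MP_8c549f_pr.Base
import Pool.Agent.MP_8c549f_pr.A1
import Pool.Agent.MP_8c549f_pr.A3
import Pool.Agent.MP_8c549f_pr.A8
import Pool.Agent.MP_8c549f_pr.A9
import Pool.Agent.MP_8c549f_pr.A7

-- ======== part 0: formerly Pool.Agent.MP_8c549f_pr.A2
section MrgPart0

/-!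
Energy estimate for the Green function and reversibility.
-/

set_option autoImplicit false

namespace Pool.Agent.MP_8c549f_pr

open Filter Topology Real
open scoped ENNReal NNReal

namespace Res

variable {D : ℕ} (lam : ℝ) (ω : Cfg D) (B : Finset (V D))

/-- conductance of the edge crossed by `s` from `x` -/
noncomputable def C (x : V D) (s : Step D) : ℝ :=
  if ω (edge x s) = true then exp (lam * (expo x s : ℝ)) else 0

/-- the reversible measure -/
noncomputable def pi (x : V D) : ℝ := exp (lam * (2 * x 0)) * Zq lam ω x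

theorem C_nonneg (x : V D) (s : Step D) : 0 ≤ C lam ω x s := by
  unfold C
  split_ifs
  exacts [(exp_pos _).le, le_rfl]

theorem C_le (x : V D) (s : Step D) : C lam ω x s ≤ exp (lam * (expo x s : ℝ)) := by
  unfold C
  split_ifs
  exacts [le_rfl, (exp_pos _).le]

theorem C_rev (x : V D) (s : Step D) : C lam ω (x + vec s) (rev s) = C lam ω x s := by
  simp only [C, edge_rev, expo_rev]

theorem pi_nonneg (x : V D) : 0 ≤ pi lam ω x := mul_nonneg (exp_pos _).le (Zq_nonneg lam ω x)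

theorem pi_pr (x : V D) (s : Step D) : pi lam ω x * pr lam ω x s = C lam ω x s := by
  unfold C
  split_ifs with h
  · have := (Zq_pos lam h).ne'
    rw [pr_of_open lam h, pi, wt, expo]
    push_cast
    rw [mul_add, exp_add]
    field_simp
  · rw [pr, if_neg h, mul_zero]

theorem sum_C (x : V D) : ∑ s, C lam ω x s = pi lam ω x := by
  simp only [← pi_pr, ← Finset.mul_sum, sum_pr, pi]
  by_cases h : Zq lam ω x = 0
  · simp [h]
  · rw [div_self h, mul_one]

theorem energy (x : V D) (u : V D → ℝ) (h0 : ∀ z, 0 ≤ u z) (h1 : ∀ z, z ∉ B → u z = 0)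
    (h2 : ∀ z ∈ B, u z ≤ (if z = x then 1 else 0) + ∑ s, pr lam ω z s * u (z + vec s))
    {y : V D} (hy : y ∈ B) (s : Step D) :
    C lam ω y s * (u y - u (y + vec s)) ^ 2 ≤ pi lam ω x * u x := by
  classical
  let ι : V D × Step D → V D × Step D := fun q => (q.1 + vec q.2, rev q.2)
  have hι : Function.Involutive ι := fun q => by simp [ι]
  let I : Finset (V D × Step D) := B ×ˢ Finset.univ
  let J := I ∪ I.image ι
  have hJ : ∀ q, q ∈ J ↔ q ∈ I ∨ ι q ∈ I := fun q => by
    simp only [J, Finset.mem_union, Finset.mem_image]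
    exact or_congr_right ⟨fun ⟨a, ha, e⟩ => by rwa [← e, hι], fun h => ⟨_, h, hι q⟩⟩
  let t : V D × Step D → ℝ := fun q => C lam ω q.1 q.2 * (u q.1 * (u q.1 - u (q.1 + vec q.2)))
  let d : V D × Step D → ℝ := fun q => C lam ω q.1 q.2 * (u q.1 - u (q.1 + vec q.2)) ^ 2
  have e1 : ∑ q ∈ I, t q = ∑ q ∈ J, t q := Finset.sum_subset Finset.subset_union_left
    fun q _ hq => by
      have : q.1 ∉ B := by simpa [I] using hq
      simp [t, h1 _ this]
  have e2 : ∑ q ∈ J, t (ι q) = ∑ q ∈ J, t q :=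
    Finset.sum_equiv hι.toPerm (fun q => by
      rw [Function.Involutive.coe_toPerm, hJ, hJ, hι, or_comm]) fun _ _ => rfl
  have e3 : ∑ q ∈ J, d q = 2 * ∑ q ∈ J, t q := by
    rw [two_mul]
    nth_rw 1 [← e2]
    rw [← Finset.sum_add_distrib]
    refine Finset.sum_congr rfl fun q _ => ?_
    simp only [d, t, ι, C_rev, vec_rev, add_neg_cancel_right]
    ring
  have e4 : d (y, s) + d (ι (y, s)) ≤ ∑ q ∈ J, d q :=
    Finset.add_le_sum (fun q _ => mul_nonneg (C_nonneg lam ω _ _) (sq_nonneg _))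
      ((hJ _).mpr (Or.inl (by simp [I, hy]))) ((hJ _).mpr (Or.inr (by simp [I, hι _, hy])))
      fun e => vec_ne_zero s (by simpa [ι] using congrArg Prod.fst e)
  have e5 : d (ι (y, s)) = d (y, s) := by
    simp only [d, ι, C_rev, vec_rev, add_neg_cancel_right]
    ring
  have e6 : ∑ q ∈ I, t q ≤ pi lam ω x * u x := by
    rw [Finset.sum_product]
    refine le_trans (Finset.sum_le_sum (g := fun z => if z = x then pi lam ω z * u z else 0)
      fun z hz => ?_) ?_
    · have a1 := mul_le_mul_of_nonneg_left (h2 z hz) (mul_nonneg (pi_nonneg lam ω z) (h0 z))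
      have a2 : ∑ s, t (z, s) = pi lam ω z * u z * u z -
          pi lam ω z * u z * ∑ s, pr lam ω z s * u (z + vec s) := by
        rw [Finset.mul_sum]
        nth_rw 1 [← sum_C]
        rw [Finset.sum_mul, Finset.sum_mul, ← Finset.sum_sub_distrib]
        refine Finset.sum_congr rfl fun s _ => ?_
        simp only [t, ← pi_pr]
        ring
      rw [a2]
      split_ifs at a1 ⊢ <;> linarith
    · rw [Finset.sum_ite_eq']
      split_ifs
      exacts [le_rfl, mul_nonneg (pi_nonneg lam ω x) (h0 x)]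
  change d (y, s) ≤ _
  linarith

theorem value_le (hlam : 0 ≤ lam) {x : V D} {t : ℤ} (hE : Esc ω B x t) (u : V D → ℝ)
    (h0 : ∀ z, 0 ≤ u z) (h1 : ∀ z, z ∉ B → u z = 0)
    (h2 : ∀ z ∈ B, u z ≤ (if z = x then 1 else 0) + ∑ s, pr lam ω z s * u (z + vec s)) :
    u x ≤ (B.card : ℝ) ^ 2 * pi lam ω x / exp (lam * t) := by
  obtain ⟨l, hl, hout, hp⟩ := hE
  have hκ := exp_pos (lam * t)
  have hE0 : 0 ≤ pi lam ω x * u x / exp (lam * t) :=
    div_nonneg (mul_nonneg (pi_nonneg lam ω x) (h0 x)) hκ.le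
  set δ := √(pi lam ω x * u x / exp (lam * t)) with hδ
  have key : ∀ i ≤ l.length, u x - i * δ ≤ u (x + loc l i) := fun i => by
    induction i with
    | zero => simp
    | succ i ih =>
      intro hi
      obtain ⟨a1, a2, a3⟩ := hp i hi
      have a4 := energy lam ω B x u h0 h1 h2 a1 l[i]
      rw [C, if_pos a2] at a4
      have a5 : exp (lam * t) ≤ exp (lam * (expo (x + loc l i) l[i] : ℝ)) :=
        exp_le_exp.mpr (mul_le_mul_of_nonneg_left (by exact_mod_cast a3) hlam)
      have a6 := le_sqrt_of_sq_le (x := u (x + loc l i) - u (x + loc l i + vec l[i]))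
        (y := pi lam ω x * u x / exp (lam * t)) (by
          rw [le_div_iff₀' hκ]
          exact (mul_le_mul_of_nonneg_right a5 (sq_nonneg _)).trans a4)
      rw [loc_succ hi, ← add_assoc]
      push_cast
      linarith [ih (by omega)]
  have h3 := key _ le_rfl
  rw [loc_length, h1 _ hout] at h3
  have h4 : u x ≤ B.card * δ := by
    have : (l.length : ℝ) * δ ≤ B.card * δ :=
      mul_le_mul_of_nonneg_right (by exact_mod_cast hl) (sqrt_nonneg _)
    linarith
  have h5 : u x ^ 2 ≤ (B.card : ℝ) ^ 2 * pi lam ω x / exp (lam * t) * u x := by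
    refine (pow_le_pow_left₀ (h0 x) h4 2).trans (le_of_eq ?_)
    rw [mul_pow, hδ, sq_sqrt hE0]
    ring
  rcases (h0 x).eq_or_lt with h | h
  · rw [← h]
    exact div_nonneg (mul_nonneg (sq_nonneg _) (pi_nonneg lam ω x)) hκ.le
  · exact le_of_mul_le_mul_right (by rwa [← sq]) h

/-- lists that stay in `B` and lead from `z` to `y` -/
def A (z y : V D) : Set (List (Step D)) := {l | (∀ i ≤ l.length, z + loc l i ∈ B) ∧ z + pos l = y}

theorem cons_mem {z y : V D} {s : Step D} {l : List (Step D)} :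
    s :: l ∈ A B z y ↔ z ∈ B ∧ l ∈ A B (z + vec s) y := by
  simp only [A, Set.mem_ofPred_eq, List.length_cons, pos_cons, add_assoc]
  refine ⟨fun ⟨h1, h2⟩ => ⟨by simpa using h1 0 (by omega), fun i hi => ?_, h2⟩,
    fun ⟨h1, h2, h3⟩ => ⟨fun i hi => ?_, h3⟩⟩
  · simpa using h1 (i + 1) (by omega)
  · cases i with
    | zero => simpa using h1
    | succ i => simpa using h2 i (by omega)

/-- truncated Green function -/
noncomputable def F (x : V D) (n : ℕ) (z : V D) : ℝ≥0∞ :=
  SS {l | l ∈ A B z x ∧ l.length < n} (W lam ω z)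

theorem F_succ (x : V D) (n : ℕ) (z : V D) : F lam ω B x (n + 1) z = if z ∈ B then
    (if z = x then 1 else 0) + ∑ s, ENNReal.ofReal (pr lam ω z s) * F lam ω B x n (z + vec s)
      else 0 := by
  rw [F, SS_W_cons]
  simp only [Set.mem_ofPred_eq, cons_mem, List.length_cons, Nat.add_lt_add_iff_right]
  split_ifs with h1 h2
  · rw [Set.indicator_of_mem (by simp [A, h2 ▸ h1, h2])]
    simp only [h1, true_and]
    rfl
  · rw [Set.indicator_of_notMem (by simp [A, h2])]
    simp only [h1, true_and]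
    rfl
  · rw [Set.indicator_of_notMem (by simp [A, h1])]
    simp [h1]

theorem F_zero (x z : V D) : F lam ω B x 0 z = 0 := by simp [F]

theorem F_ne_top (x : V D) : ∀ n z, F lam ω B x n z ≠ ∞
  | 0, z => by simp [F_zero]
  | n + 1, z => by
    rw [F_succ]
    split_ifs <;> simp [ENNReal.mul_ne_top ENNReal.ofReal_ne_top (F_ne_top x n _)]

theorem Gb_le {x z : V D} {c : ℝ≥0∞} (h : ∀ n, F lam ω B x n z ≤ c) : Gb lam ω B z x ≤ c := by
  rw [Gb, SS_eq_iSup_length]
  refine iSup_le fun n => le_trans ?_ (h (n + 1))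
  exact SS_mono (fun l hl => ⟨hl.1, Nat.lt_succ_of_le hl.2⟩) fun _ _ => le_rfl

theorem Gb_diag (hlam : 0 ≤ lam) {x : V D} {t : ℤ} (hE : Esc ω B x t) :
    Gb lam ω B x x ≤ ENNReal.ofReal ((B.card : ℝ) ^ 2 * pi lam ω x / exp (lam * t)) := by
  refine Gb_le lam ω B fun n => ?_
  rw [← ENNReal.ofReal_toReal (F_ne_top lam ω B x n x)]
  refine ENNReal.ofReal_le_ofReal (value_le lam ω B hlam hE (fun z => (F lam ω B x n z).toReal)
    (fun _ => ENNReal.toReal_nonneg) (fun z hz => ?_) fun z hz => ?_)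
  · cases n with
    | zero => simp [F_zero]
    | succ n => simp [F_succ, hz]
  · have h1 : F lam ω B x n z ≤ F lam ω B x (n + 1) z :=
      SS_mono (fun l hl => ⟨hl.1, Nat.lt_succ_of_lt hl.2⟩) fun _ _ => le_rfl
    have h2 := fun s => ENNReal.mul_ne_top (ENNReal.ofReal_ne_top (r := pr lam ω z s))
      (F_ne_top lam ω B x n (z + vec s))
    refine (ENNReal.toReal_mono (F_ne_top lam ω B x _ z) h1).trans (le_of_eq ?_)
    rw [F_succ, if_pos hz, ENNReal.toReal_add (by split_ifs <;> simp)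
      (ENNReal.sum_ne_top.mpr fun s _ => h2 s), ENNReal.toReal_sum fun s _ => h2 s]
    simp only [ENNReal.toReal_mul, ENNReal.toReal_ofReal (pr_nonneg lam ω z _)]
    split_ifs <;> simp

theorem Gb_le_diag (x y : V D) : Gb lam ω B y x ≤ Gb lam ω B x x := by
  refine Gb_le lam ω B fun n => ?_
  induction n generalizing y with
  | zero => simp [F_zero]
  | succ n ih =>
    by_cases h : y = x
    · rw [h]
      exact SS_mono (fun l hl => hl.1) fun _ _ => le_rfl
    · rw [F_succ, if_neg h, zero_add]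
      split_ifs
      · refine (Finset.sum_le_sum fun s _ => mul_le_mul' le_rfl (ih _)).trans ?_
        rw [← Finset.sum_mul]
        exact mul_le_of_le_one_left' (sum_ofReal_pr_le_one lam ω y)
      · exact zero_le

/-- the reversed list -/
def rv (l : List (Step D)) : List (Step D) := (l.map rev).reverse

theorem rv_cons (s : Step D) (l : List (Step D)) : rv (s :: l) = rv l ++ [rev s] := by simp [rv]

theorem pos_rv (l : List (Step D)) : pos (rv l) = -pos l := by
  induction l with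
  | nil => simp [rv]
  | cons s l ih => simp [rv_cons, ih]

theorem rv_inj : Function.Injective (rv : List (Step D) → List (Step D)) :=
  List.reverse_injective.comp (List.map_injective_iff.mpr
    (Function.Involutive.injective rev_rev))

theorem W_rv (l : List (Step D)) : ∀ x : V D, ENNReal.ofReal (pi lam ω x) * W lam ω x l =
    ENNReal.ofReal (pi lam ω (x + pos l)) * W lam ω (x + pos l) (rv l) := by
  induction l with
  | nil => simp [rv]
  | cons s l ih =>
    intro x
    rw [W_cons, rv_cons, W_append, W_single, pos_rv, pos_cons, ← add_assoc, add_neg_cancel_right,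
      ← mul_assoc, ← mul_assoc, ← ih, ← ENNReal.ofReal_mul (pi_nonneg lam ω x), pi_pr,
      mul_right_comm, ← ENNReal.ofReal_mul (pi_nonneg lam ω _), pi_pr, C_rev]

theorem rv_mem {x y : V D} {l : List (Step D)} (h : l ∈ A B x y) : rv l ∈ A B y x := by
  obtain ⟨h1, rfl⟩ := h
  refine ⟨fun i _ => ?_, by rw [pos_rv, add_neg_cancel_right]⟩
  have e1 : loc (rv l) i = -pos (l.drop (l.length - i)) := by
    rw [← pos_rv, loc, rv, rv, List.take_reverse, List.length_map, List.map_drop]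
  have e2 : pos l = loc l (l.length - i) + pos (l.drop (l.length - i)) := by
    rw [loc, ← pos_append, List.take_append_drop]
  rw [e1, e2, ← add_assoc, add_neg_cancel_right]
  exact h1 _ (by omega)

theorem Gb_rev (x y : V D) : ENNReal.ofReal (pi lam ω x) * Gb lam ω B x y ≤
    ENNReal.ofReal (pi lam ω y) * Gb lam ω B y x := by
  rw [Gb, Gb, ← SS_mul_left, ← SS_mul_left]
  refine le_trans (le_of_eq ?_) (SS_mono (A := rv '' A B x y)
    (by rintro _ ⟨l, hl, rfl⟩; exact rv_mem B hl) fun _ _ => le_rfl)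
  rw [SS_image rv_inj]
  exact SS_congr fun l hl => by rw [W_rv, hl.2]

theorem pi_pos {x : V D} {t : ℤ} (hE : Esc ω B x t) (hx : x ∈ B) : 0 < pi lam ω x := by
  obtain ⟨l, -, hout, hp⟩ := hE
  cases l with
  | nil => exact absurd hx (by simpa using hout)
  | cons s l => exact mul_pos (exp_pos _) (Zq_pos lam (by simpa using (hp 0 (by simp)).2.1))

theorem Gb_zero {x : V D} (hx : x ∉ B) (y : V D) : Gb lam ω B x y = 0 := by
  refine le_antisymm (le_trans (SS_mono' (B := ∅) fun l hl _ => hx ?_) (SS_empty _).le) zero_le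
  simpa using hl.1 0 (by omega)

end Res

open Res in
theorem res : RESStmt := by
  intro D lam hlam ω B x y s t hE
  by_cases hx : x ∈ B
  swap
  · simp [Gb_zero lam ω B hx]
  have hp := pi_pos lam ω B hE hx
  refine (ENNReal.mul_le_mul_iff_right (ENNReal.ofReal_pos.mpr hp).ne' ENNReal.ofReal_ne_top).mp ?_
  rw [← mul_assoc]
  refine (mul_le_mul' ((Gb_rev lam ω B x y).trans (mul_le_mul' le_rfl
    ((Gb_le_diag lam ω B x y).trans (Gb_diag lam ω B hlam hE)))) le_rfl).trans ?_
  rw [mul_right_comm, ← ENNReal.ofReal_mul (pi_nonneg lam ω y), pi_pr,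
    ← ENNReal.ofReal_mul (C_nonneg lam ω y s), ← ENNReal.ofReal_mul hp.le]
  refine ENNReal.ofReal_le_ofReal ((mul_le_mul_of_nonneg_right (C_le lam ω y s)
    (by positivity)).trans (le_of_eq ?_))
  push_cast
  rw [mul_sub, exp_sub]
  ring

open Res in
theorem van : VANStmt := by
  intro D lam hlam ω B x t hE
  have hG : ∀ y, Gb lam ω B x y ≠ ∞ := fun y => by
    by_cases hx : x ∈ B
    · intro h
      have := (Gb_rev lam ω B x y).trans (mul_le_mul' le_rfl
        ((Gb_le_diag lam ω B x y).trans (Gb_diag lam ω B hlam hE)))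
      rw [h, ENNReal.mul_top (ENNReal.ofReal_pos.mpr (pi_pos lam ω B hE hx)).ne'] at this
      exact ENNReal.mul_ne_top ENNReal.ofReal_ne_top ENNReal.ofReal_ne_top (top_le_iff.mp this)
    · simp [Gb_zero lam ω B hx]
  refine ENNReal.tendsto_atTop_zero_of_tsum_ne_top ?_
  have e1 := SS_fiber {l | ∀ i ≤ l.length, x + loc l i ∈ B} List.length (W lam ω x)
  have e2 := SS_fiber {l | ∀ i ≤ l.length, x + loc l i ∈ B} (fun l => x + pos l) (W lam ω x)
  have e3 : ∀ n : ℕ, {l : List (Step D) | l.length = n ∧ ∀ i ≤ n, x + loc l i ∈ B} =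
      {l | l ∈ {l : List (Step D) | ∀ i ≤ l.length, x + loc l i ∈ B} ∧ l.length = n} := fun n =>
    Set.ext fun l => ⟨by rintro ⟨rfl, h2⟩; exact ⟨h2, rfl⟩, by rintro ⟨h1, rfl⟩; exact ⟨rfl, h1⟩⟩
  simp only [e3]
  rw [← e1, e2, tsum_eq_sum (s := B) fun y hy => ?_]
  · exact ENNReal.sum_ne_top.mpr fun y _ => hG y
  · refine le_antisymm (le_trans (SS_mono' (B := ∅) fun l hl _ => hy ?_) (SS_empty _).le) zero_le
    rw [← hl.2, ← loc_length]
    exact hl.1 _ le_rfl

end Pool.Agent.MP_8c549f_pr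

/-!
Geometry of escape paths, traps and filled clusters.
-/

set_option autoImplicit false

namespace Pool.Agent.MP_8c549f_pr

open Relation

namespace Geo

variable {D : ℕ}

/-- an open step of exponent at least `t` -/
def R (ω : Cfg D) (t : ℤ) (u v : V D) : Prop :=
  ∃ s, v = u + vec s ∧ ω (edge u s) = true ∧ t ≤ expo u s

theorem rmono {α : Type} {r r' : α → α → Prop} {a c : α} (h : ReflTransGen r a c)
    (hr : ∀ u v, r u v → r' u v) : ReflTransGen r' a c := by
  induction h with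
  | refl => exact ReflTransGen.refl
  | tail _ h2 ih => exact ih.tail (hr _ _ h2)

theorem rsymm {α : Type} {r : α → α → Prop} {a c : α} (h : ReflTransGen r a c)
    (hr : ∀ u v, r u v → r v u) : ReflTransGen r c a := by
  induction h with
  | refl => exact ReflTransGen.refl
  | tail _ h2 ih => exact ih.head (hr _ _ h2)

theorem exit {α : Type} {r : α → α → Prop} {S : Set α} {a c : α} (h : ReflTransGen r a c)
    (ha : a ∈ S) (hc : c ∉ S) : ∃ b ∈ S, ∃ v ∉ S, r b v := by
  induction h with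
  | refl => exact absurd ha hc
  | @tail y z _ h2 ih =>
    by_cases hy : y ∈ S
    · exact ⟨y, hy, z, hc, h2⟩
    · exact ih hy

theorem first_exit {α : Type} {r : α → α → Prop} {B : Finset α} {x y : α}
    (h : ReflTransGen r x y) (hy : y ∉ B) :
    ∃ y ∉ B, ReflTransGen (fun u v => r u v ∧ u ∈ B) x y := by
  induction h using ReflTransGen.head_induction_on with
  | refl => exact ⟨y, hy, ReflTransGen.refl⟩
  | @head a c h1 _ ih =>
    by_cases ha : a ∈ B
    · obtain ⟨y, h2, h3⟩ := ih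
      exact ⟨y, h2, h3.head ⟨h1, ha⟩⟩
    · exact ⟨a, ha, ReflTransGen.refl⟩

theorem last_visit {α : Type} [DecidableEq α] {r : α → α → Prop} {B : Finset α} (x : α) {z y : α}
    (h : ReflTransGen (fun u v => r u v ∧ u ∈ B) z y) :
    ReflTransGen (fun u v => r u v ∧ u ∈ B.erase x) z y ∨
      ∃ x', r x x' ∧ ReflTransGen (fun u v => r u v ∧ u ∈ B.erase x) x' y := by
  induction h using ReflTransGen.head_induction_on with
  | refl => exact Or.inl ReflTransGen.refl
  | @head a c h1 _ ih =>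
    rcases ih with ih | ih
    · by_cases ha : a = x
      · exact Or.inr ⟨c, ha ▸ h1.1, ih⟩
      · exact Or.inl (ih.head ⟨h1.1, Finset.mem_erase.2 ⟨ha, h1.2⟩⟩)
    · exact Or.inr ih

theorem short (ω : Cfg D) (t : ℤ) (y : V D) (B : Finset (V D)) : y ∉ B → ∀ x,
    ReflTransGen (fun u v => R ω t u v ∧ u ∈ B) x y →
    ∃ l : List (Step D), l.length ≤ B.card ∧ x + pos l = y ∧ ∀ (i : ℕ) (h : i < l.length),
      x + loc l i ∈ B ∧ ω (edge (x + loc l i) l[i]) = true ∧ t ≤ expo (x + loc l i) l[i] := by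
  induction B using Finset.strongInduction with
  | H B ih =>
    intro hy x h
    rcases h.cases_head with rfl | ⟨_, ⟨-, hx⟩, -⟩
    · exact ⟨[], by simp, by simp, by simp⟩
    rcases last_visit x h with h1 | ⟨x', ⟨s, rfl, h2, h3⟩, h1⟩
    · rcases h1.cases_head with rfl | ⟨_, ⟨-, h2⟩, -⟩
      · exact absurd hx hy
      · exact absurd h2 (Finset.notMem_erase _ _)
    obtain ⟨l, h4, h5, h6⟩ := ih _ (Finset.erase_ssubset hx)
      (fun h => hy (Finset.mem_of_mem_erase h)) _ h1
    refine ⟨s :: l, ?_, by rw [pos_cons, ← add_assoc, h5], (forall_steps_cons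
      (fun z s => z ∈ B ∧ ω (edge z s) = true ∧ t ≤ expo z s) x s l).2 ⟨⟨hx, h2, h3⟩, fun i hi =>
        ⟨Finset.mem_of_mem_erase (h6 i hi).1, (h6 i hi).2⟩⟩⟩
    have := Finset.card_erase_add_one hx
    rw [List.length_cons]
    omega

theorem esc_of {ω : Cfg D} {t : ℤ} {B : Finset (V D)} {x y : V D}
    (h : ReflTransGen (R ω t) x y) (hy : y ∉ B) : Esc ω B x t := by
  obtain ⟨y, h1, h2⟩ := first_exit h hy
  obtain ⟨l, h3, h4, h5⟩ := short ω t y B h1 x h2
  exact ⟨l, h3, h4 ▸ h1, h5⟩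

theorem of_list {ω : Cfg D} {t : ℤ} (l : List (Step D)) : ∀ x : V D,
    (∀ (i : ℕ) (h : i < l.length),
      ω (edge (x + loc l i) l[i]) = true ∧ t ≤ expo (x + loc l i) l[i]) →
    ReflTransGen (R ω t) x (x + pos l) := by
  induction l with
  | nil => intro x _; simpa using ReflTransGen.refl
  | cons s l ih =>
    intro x h
    obtain ⟨h1, h2⟩ := (forall_steps_cons
      (fun z s => ω (edge z s) = true ∧ t ≤ expo z s) x s l).1 h
    rw [pos_cons, ← add_assoc]
    exact (ih _ h2).head ⟨s, rfl, h1⟩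

theorem up_level {ω : Cfg D} {i : ℤ} {z y : V D} (hz : i ≤ z 0) (hy : y ∈ Up ω i z) : i ≤ y 0 := by
  rcases ReflTransGen.cases_tail hy with rfl | ⟨_, -, h⟩
  · exact hz
  · exact h.2.2

theorem up_eq {ω : Cfg D} {i : ℤ} {z b : V D} (hb : b ∈ Up ω i z) : Up ω i b = Up ω i z := by
  ext y
  exact ⟨fun h => ReflTransGen.trans hb h,
    fun h => ReflTransGen.trans (rsymm hb fun _ _ h => ⟨h.1.symm, h.2.2, h.2.1⟩) h⟩

theorem core0 {ω : Cfg D} {B : Finset (V D)} {x z : V D} {t₀ t i : ℤ} (h0 : Esc ω B x t₀)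
    (h1 : ¬ Esc ω B x t) (hi : t ≤ 2 * i) (hz : i ≤ z 0) (hxz : ReflTransGen (R ω t) x z)
    (hzx : ReflTransGen (Opn ω) z x) :
    Up ω i z ⊆ B ∧ ∃ b ∈ Up ω i z, b 0 = i := by
  have hS : Up ω i z ⊆ B := fun y hy => by
    by_contra hB
    refine h1 (esc_of (hxz.trans (rmono hy fun u v h => ?_)) hB)
    obtain ⟨s, rfl, h2⟩ := opn_iff.1 h.1
    exact ⟨s, rfl, h2, by rw [expo_eq]; linarith [h.2.1, h.2.2]⟩
  obtain ⟨l, -, h2, h3⟩ := h0
  have h4 : ReflTransGen (Opn ω) x (x + pos l) :=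
    rmono (of_list l x fun i hi => (h3 i hi).2) fun u v ⟨s, h5, h6, _⟩ => opn_iff.2 ⟨s, h5, h6⟩
  obtain ⟨b, hb, v, hv, h5⟩ := exit (S := Up ω i z) (hzx.trans h4) ReflTransGen.refl
    fun h => h2 (hS h)
  have h6 := up_level hz hb
  have h7 : ¬ i ≤ v 0 := fun h => hv (ReflTransGen.tail hb ⟨h5, h6, h⟩)
  obtain ⟨s, rfl, -⟩ := opn_iff.1 h5
  have h8 := (vec_bounds s 0).1
  rw [Pi.add_apply] at h7
  exact ⟨hS, b, hb, by omega⟩

theorem core {ω : Cfg D} {B : Finset (V D)} {x z : V D} {t₀ t i : ℤ} (h0 : Esc ω B x t₀)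
    (h1 : ¬ Esc ω B x t) (hi : t ≤ 2 * i) (hz : i ≤ z 0) (hxz : ReflTransGen (R ω t) x z)
    (hzx : ReflTransGen (Opn ω) z x) :
    ∃ b ∈ B, b 0 = i ∧ Up ω (b 0) b = Up ω i z ∧ (Up ω i z).Finite := by
  obtain ⟨hS, b, hb, h9⟩ := core0 h0 h1 hi hz hxz hzx
  exact ⟨b, hS hb, h9, by rw [h9]; exact up_eq hb, B.finite_toSet.subset hS⟩

theorem line (P : V D → Prop) (x : V D) (i : Fin (D + 1)) (hP : ∀ a, P (Function.update x i a))
    (c : ℤ) : ReflTransGen (fun u v => Adj u v ∧ P u ∧ P v) x (Function.update x i c) := by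
  have key : ∀ a a' (g : Bool), a' = a + vec ((i, g) : Step D) i →
      Adj (Function.update x i a) (Function.update x i a') := fun a a' g h =>
    ⟨(i, g), funext fun j => by
      by_cases hj : j = i
      · subst hj; simpa using h
      · cases g <;> simp [Function.update_of_ne hj, Pi.single_eq_of_ne hj]⟩
  obtain ⟨n, rfl⟩ : ∃ n, c = x i + n := ⟨c - x i, by ring⟩
  induction n using Int.induction_on with
  | zero => simpa using ReflTransGen.refl
  | succ n ih => exact ih.tail ⟨key _ _ true (by simp; ring), hP _, hP _⟩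
  | pred n ih => exact ih.tail ⟨key _ _ false (by simp; ring), hP _, hP _⟩

/-- the outside of a cube is connected -/
theorem outside (hD : 1 ≤ D) (r : ℕ) {x : V D} (hx : ∃ j, (r : ℤ) < |x j|) :
    ReflTransGen (fun u v : V D => Adj u v ∧ (∃ j, (r : ℤ) < |u j|) ∧ ∃ j, (r : ℤ) < |v j|) x
      fun _ => r + 1 := by
  obtain ⟨i, hi⟩ := hx
  have : Nontrivial (Fin (D + 1)) := Fin.nontrivial_iff_two_le.2 (by omega)
  obtain ⟨k, hk⟩ := exists_ne i
  refine (line (fun u => ∃ j, (r : ℤ) < |u j|) x k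
    (fun a => ⟨i, by rwa [Function.update_of_ne hk.symm]⟩) (r + 1)).trans ?_
  have h1 : Function.update x k (r + 1 : ℤ) k = r + 1 := Function.update_self _ _ _
  generalize Function.update x k (r + 1 : ℤ) = y at h1
  have key : ∀ T : Finset (Fin (D + 1)), ReflTransGen
      (fun u v : V D => Adj u v ∧ (∃ j, (r : ℤ) < |u j|) ∧ ∃ j, (r : ℤ) < |v j|) y
      fun j => if j ∈ T then r + 1 else y j := by
    intro T
    induction T using Finset.induction_on with
    | empty => simpa using ReflTransGen.refl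
    | insert a T _ ih =>
      by_cases ha : a = k
      · convert ih using 2 with j
        by_cases hj : j = k <;> simp [ha, hj, h1]
      · convert ih.trans (line (fun u => ∃ j, (r : ℤ) < |u j|) _ a (fun c => ⟨k, by
          rw [Function.update_of_ne (Ne.symm ha), h1, ite_self]
          exact lt_of_lt_of_le (lt_add_one _) (le_abs_self _)⟩) (r + 1)) using 2 with j
        by_cases hj : j = a <;> simp [hj]
  simpa using key Finset.univ

end Geo

open Geo

theorem esc : ESCStmt := fun _ _ _ x _ l h1 h2 => esc_of (of_list l x h2) h1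

theorem geo2 {D : ℕ} {ω : Cfg D} {B : Finset (V D)} {x : V D} {t₀ t i : ℤ} (h0 : Esc ω B x t₀)
    (h1 : ¬ Esc ω B x t) (hx : i ≤ x 0) (hi : t ≤ 2 * i) :
    Up ω i x ⊆ (B : Set (V D)) ∧ ∃ b ∈ Up ω i x, b 0 = i :=
  core0 h0 h1 hi hx ReflTransGen.refl ReflTransGen.refl

theorem geo : GEOStmt := by
  intro D ω B x s t₀ t j h0 hs ht h1
  rcases step_cases s with rfl | rfl | ⟨k, g, rfl⟩
  · have h2 : expo x (fwd D) = 2 * (x + vec (fwd D)) 0 - 1 := by simp [expo]; ring
    obtain ⟨b, hb, h3, h4, h5⟩ := core (i := (t + 1) / 2) (z := x + vec (fwd D)) h0 h1 (by omega)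
      (by omega) (ReflTransGen.single ⟨_, rfl, hs, by omega⟩)
      (ReflTransGen.single (opn_iff.2 ⟨_, rfl, hs⟩).symm)
    exact ⟨b, hb, h4 ▸ h5, h4 ▸ ⟨_, ReflTransGen.refl, Or.inl (by push_cast; omega)⟩⟩
  · have h2 : expo x (bck D) = 2 * x 0 - 1 := by simp [expo]; ring
    obtain ⟨b, hb, h3, h4, h5⟩ := core (i := (t + 1) / 2) (z := x) h0 h1 (by omega)
      (by omega) ReflTransGen.refl ReflTransGen.refl
    exact ⟨b, hb, h4 ▸ h5, h4 ▸ ⟨_, ReflTransGen.refl, Or.inl (by push_cast; omega)⟩⟩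
  · have h2 : expo x (k.succ, g) = 2 * x 0 := by simp [expo, vec_side_zero]
    obtain ⟨b, hb, h3, h4, h5⟩ := core (i := (t + 1) / 2) (z := x) h0 h1 (by omega)
      (by omega) ReflTransGen.refl ReflTransGen.refl
    have h6 : (x + vec (k.succ, g)) 0 = x 0 := by simp [vec_side_zero]
    have h7 : x + vec (k.succ, g) ∈ Up ω ((t + 1) / 2) x :=
      ReflTransGen.single ⟨opn_iff.2 ⟨_, rfl, hs⟩, by omega, by omega⟩
    refine ⟨b, hb, h4 ▸ h5, h4 ▸ ?_⟩
    cases g
    · exact ⟨_, h7, Or.inr ⟨k, by simp only [vec_false, neg_add_cancel_right]; exact .refl,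
        by push_cast; omega⟩⟩
    · exact ⟨x, ReflTransGen.refl, Or.inr ⟨k, by simpa using h7, by push_cast; omega⟩⟩

theorem plusTrap : PLUSStmt := by
  intro D ω b j hb
  have h : (fun u v : V D => Opn (plus ω) u v ∧ b 0 ≤ u 0 ∧ b 0 ≤ v 0) =
      fun u v => Opn ω u v ∧ b 0 ≤ u 0 ∧ b 0 ≤ v 0 := by
    funext u v
    refine propext (and_congr_left fun h => ?_)
    simp only [opn_iff]
    refine exists_congr fun s => and_congr_right fun hv => ?_
    rw [plus_of_ne]
    intro he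
    rcases edge_eq_iff.1 he.symm with ⟨rfl, rfl⟩ | ⟨rfl, rfl⟩
    · have := h.2; simp [hv] at this; omega
    · have := h.1; simp at this; omega
  simp only [Trap, Up, h]

theorem fill2 {D : ℕ} (hD : 1 ≤ D) (ω : Cfg D) (b : V D) (hU : (Up ω (b 0) b).Finite) :
    ∃ S : Finset (V D), Shape b S ∧ Up ω (b 0) b ⊆ (S : Set (V D)) ∧
      (∀ e ∈ bdry b S, ω e = false) ∧ ∀ x ∈ S, ∀ s, x + vec s ∉ S → x ∈ Up ω (b 0) b := by
  obtain ⟨r, hr⟩ : ∃ r : ℕ, ∀ u ∈ Up ω (b 0) b, ∀ j, |u j| ≤ r := by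
    refine ⟨hU.toFinset.sup fun u => Finset.univ.sup fun j => (u j).natAbs, fun u hu j => ?_⟩
    rw [← Int.natCast_natAbs]
    exact Nat.cast_le.2 (le_trans (Finset.le_sup (f := fun j => (u j).natAbs) (Finset.mem_univ j))
      (Finset.le_sup (f := fun u : V D => Finset.univ.sup fun j => (u j).natAbs)
        (hU.mem_toFinset.2 hu)))
  have hlev : ∀ u ∈ Up ω (b 0) b, b 0 ≤ u 0 := fun u hu => up_level le_rfl hu
  have hstep : ∀ u ∈ Up ω (b 0) b, ∀ v, Opn ω u v → b 0 ≤ v 0 → v ∈ Up ω (b 0) b :=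
    fun u hu v h1 h2 => ReflTransGen.tail hu ⟨h1, hlev u hu, h2⟩
  have hconn : ∀ S : Set (V D), Up ω (b 0) b ⊆ S → ∀ u ∈ Up ω (b 0) b,
      ReflTransGen (fun u v => Adj u v ∧ v ∈ S) b u := fun S hS u hu => by
    induction hu with
    | refl => exact ReflTransGen.refl
    | tail h1 h2 ih => exact ih.tail ⟨h2.1.adj, hS (ReflTransGen.tail h1 h2)⟩
  have hb : b ∈ Up ω (b 0) b := ReflTransGen.refl
  generalize Up ω (b 0) b = U at *
  have hout : ∀ x : V D, (∃ j, (r : ℤ) < |x j|) → x ∉ U := fun x ⟨j, hj⟩ hx =>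
    absurd (hr x hx j) (not_le.2 hj)
  obtain ⟨C, hC⟩ : ∃ C : Set (V D), C =
    {x | ReflTransGen (fun u v => Adj u v ∧ u ∉ U ∧ v ∉ U) x fun _ => r + 1} := ⟨_, rfl⟩
  have c1 : ∀ x : V D, (∃ j, (r : ℤ) < |x j|) → x ∈ C := fun x hx =>
    hC ▸ rmono (outside hD r hx) fun u v h => ⟨h.1, hout u h.2.1, hout v h.2.2⟩
  have c2 : ∀ x ∈ C, x ∉ U := fun x hx => by
    rw [hC] at hx
    rcases ReflTransGen.cases_head hx with rfl | ⟨_, h, -⟩
    · exact hout _ ⟨0, lt_of_lt_of_le (lt_add_one _) (le_abs_self _)⟩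
    · exact h.2.1
  have c3 : ∀ x ∉ U, ∀ y ∈ C, Adj x y → x ∈ C := fun x hx y hy h => by
    have h1 := c2 y hy
    rw [hC] at hy ⊢
    exact ReflTransGen.head ⟨h, hx, h1⟩ hy
  have c4 : ∀ x ∈ C, ∀ y, ReflTransGen (fun u v => Adj u v ∧ u ∉ U ∧ v ∉ U) x y →
      y ∈ C ∧ ReflTransGen (fun u v => Adj u v ∧ v ∈ C) x y := fun x hx y h => by
    induction h with
    | refl => exact ⟨hx, ReflTransGen.refl⟩
    | tail _ h2 ih =>
      have := c3 _ h2.2.2 _ ih.1 h2.1.symm
      exact ⟨this, ih.2.tail ⟨h2.1, this⟩⟩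
  have hfin : Cᶜ.Finite := (Set.finite_Icc (fun _ => -(r : ℤ)) fun _ => (r : ℤ)).subset
    fun x hx => by
      have h1 : ∀ j, |x j| ≤ r := fun j => not_lt.1 fun h => hx (c1 x ⟨j, h⟩)
      exact ⟨fun j => (abs_le.1 (h1 j)).1, fun j => (abs_le.1 (h1 j)).2⟩
  have hS : ∀ x, x ∈ hfin.toFinset ↔ x ∉ C := fun x => hfin.mem_toFinset
  have hUS : U ⊆ hfin.toFinset := fun u hu => (hS u).2 fun h => c2 u h hu
  have c5 : ∀ n : ℕ, ∀ x : V D, x 0 < b 0 → x 0 + r < n → x ∈ C := by
    intro n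
    induction n with
    | zero => exact fun x _ h => c1 x ⟨0, lt_abs.2 (Or.inr (by omega))⟩
    | succ n ih =>
      intro x h1 h2
      have h3 : (x + vec (bck D)) 0 = x 0 - 1 := by simp; ring
      exact c3 x (fun h => absurd (hlev x h) (by omega)) _ (ih (x + vec (bck D)) (by omega) (by omega))
        ⟨_, rfl⟩
  have c6 : ∀ n : ℕ, ∀ x ∈ hfin.toFinset, r - x 0 < n →
      ReflTransGen (fun u v => Adj u v ∧ v ∈ hfin.toFinset) b x := by
    intro n
    induction n with
    | zero => exact fun x hx h => absurd (c1 x ⟨0, lt_abs.2 (Or.inl (by omega))⟩) ((hS x).1 hx)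
    | succ n ih =>
      intro x hx h
      by_cases hxU : x ∈ U
      · exact hconn _ hUS x hxU
      have h3 : (x + vec (fwd D)) 0 = x 0 + 1 := by simp
      have h4 : Adj x (x + vec (fwd D)) := ⟨_, rfl⟩
      exact (ih _ ((hS _).2 fun h5 => (hS x).1 hx (c3 x hxU _ h5 h4)) (by omega)).tail
        ⟨h4.symm, hx⟩
  have c7 : ∀ u v, u ∉ C → v ∈ C → Opn ω u v → ¬ b 0 ≤ v 0 := fun u v hu hv h1 h2 =>
    c2 v hv (hstep u (by_contra fun h => hu (c3 u h v hv h1.adj)) v h1 h2)
  refine ⟨hfin.toFinset, ⟨hUS hb, fun x hx => not_lt.1 fun h => (hS x).1 hx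
    (c5 (x 0 + r + 1).toNat x h (by omega)), fun x hx => c6 (r - x 0 + 1).toNat x hx (by omega),
    fun x hx y hy => ?_⟩, hUS, fun e he => ?_, fun x hx s hs => by_contra fun h =>
      (hS x).1 hx (c3 x h _ (by_contra fun h' => hs ((hS _).2 h')) ⟨s, rfl⟩)⟩
  · simp only [hS, not_not] at hx hy ⊢
    have h1 := hx
    have h2 := hy
    rw [hC] at h1 h2
    exact (c4 x hx y (ReflTransGen.trans h1
      (rsymm h2 fun _ _ h => ⟨h.1.symm, h.2.2, h.2.1⟩))).2
  · obtain ⟨-, h1, h2⟩ := Finset.mem_filter.1 he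
    by_contra h3
    have h4 : Opn ω e.1 (e.1 + Pi.single e.2 1) := ⟨e.2, Or.inl ⟨rfl, by simpa using h3⟩⟩
    have h5 : b 0 ≤ (e.1 + Pi.single e.2 1 : V D) 0 :=
      h1.trans (le_add_of_nonneg_right (by rw [Pi.single_apply]; split_ifs <;> omega))
    simp only [hS] at h2
    by_cases h6 : e.1 ∈ C
    · exact c7 _ _ (fun h => h2 (by simp [h, h6])) h6 h4.symm h1
    · exact c7 _ _ h6 (by_contra fun h => h2 (by simp [h, h6])) h4 h5

theorem fill : FILLStmt := fun _ hD ω b hU =>
  let ⟨S, h1, h2, h3, _⟩ := fill2 hD ω b hU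
  ⟨S, h1, h2, h3⟩

end Pool.Agent.MP_8c549f_pr

/-!
Isoperimetric bounds for shapes and the probability of a trap.
-/

set_option autoImplicit false

namespace Pool.Agent.MP_8c549f_pr

open MeasureTheory Filter Topology Real Finset
open scoped ENNReal NNReal

namespace Iso

variable {D : ℕ}

/-- the sites of `S` from which the step `s` leaves `S` -/
def ex (S : Finset (V D)) (s : Step D) : Finset (V D) := S.filter fun y => y + vec s ∉ S

theorem mem_ex {S : Finset (V D)} {s : Step D} {y : V D} :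
    y ∈ ex S s ↔ y ∈ S ∧ y + vec s ∉ S := mem_filter

theorem vec_of_ne {s : Step D} {i : Fin (D + 1)} (h : i ≠ s.1) : vec s i = 0 := by
  obtain ⟨j, g⟩ := s
  cases g <;> simp [Pi.single_eq_of_ne h]

/-- a straight line leaves a finite set -/
theorem exists_ex {S : Finset (V D)} {x : V D} (hx : x ∈ S) (s : Step D) :
    ∃ y ∈ ex S s, ∀ i, i ≠ s.1 → y i = x i := by
  by_contra h
  push Not at h
  have key : ∀ n : ℕ, x + (n : ℤ) • vec s ∈ S := by
    intro n
    induction n with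
    | zero => simpa using hx
    | succ n ih =>
      by_contra k
      obtain ⟨i, h1, h2⟩ := h (x + (n : ℤ) • vec s) (mem_ex.2 ⟨ih, by
        rw [Nat.cast_succ, add_smul, one_smul, ← add_assoc] at k; exact k⟩)
      exact h2 (by simp [vec_of_ne h1])
  refine Set.infinite_of_injective_forall_mem (s := (S : Set (V D)))
    (f := fun n : ℕ => x + (n : ℤ) • vec s) (fun m n k => ?_) key S.finite_toSet
  have := smul_left_injective ℤ (vec_ne_zero s) (add_left_cancel k)
  exact_mod_cast this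

theorem edge_snd (y : V D) (s : Step D) : (edge y s).2 = s.1 := by
  obtain ⟨j, g⟩ := s
  cases g <;> simp

theorem edge_lev_side (y : V D) (k : Fin D) (g : Bool) : (edge y (k.succ, g)).1 0 = y 0 := by
  cases g <;> simp

theorem edge_mem {b : V D} {S : Finset (V D)} {s : Step D} {y : V D} (hy : y ∈ ex S s)
    (h : b 0 ≤ (edge y s).1 0) : edge y s ∈ bdry b S := by
  obtain ⟨h1, h2⟩ := mem_ex.1 hy
  refine mem_filter.2 ⟨mem_near.2 ⟨y, h1, s, rfl⟩, h, ?_⟩
  rcases edge_ends y s with ⟨a, c⟩ | ⟨a, c⟩ <;> rw [c, a] <;> tauto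

theorem edge_inj {S : Finset (V D)} {s t : Step D} {y z : V D} (hy : y ∈ ex S s)
    (hz : z ∈ ex S t) (h : edge y s = edge z t) : z = y ∧ t = s :=
  (edge_eq_iff.1 h).resolve_right fun k => (mem_ex.1 hy).2 (k.1 ▸ (mem_ex.1 hz).1)

/-- the exits in all directions but one give different boundary edges -/
theorem sum_ex_le {b : V D} {S : Finset (V D)} (h : ∀ x ∈ S, b 0 ≤ x 0) :
    (ex S (fwd D)).card + ∑ k : Fin D, ((ex S (k.succ, true)).card + (ex S (k.succ, false)).card) ≤
      (bdry b S).card := by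
  classical
  let f : Step D → Finset (Edge D) := fun s =>
    if s = bck D then ∅ else (ex S s).image fun y => edge y s
  have hf : ∀ s, s ≠ bck D → (f s).card = (ex S s).card := fun s hs => by
    simp only [f, if_neg hs]
    exact card_image_of_injOn fun y hy z hz k => (edge_inj hy hz k).1.symm
  have hm : ∀ s, ∀ e ∈ f s, s ≠ bck D ∧ ∃ y ∈ ex S s, edge y s = e := fun s e he => by
    by_cases c : s = bck D
    · simp [f, c] at he
    · simp only [f, if_neg c] at he
      exact ⟨c, mem_image.1 he⟩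
  have h1 : (univ.biUnion f).card = ∑ s, (f s).card := card_biUnion fun s _ t _ hst => by
    refine disjoint_left.2 fun e a c => ?_
    obtain ⟨-, y, hy, rfl⟩ := hm s e a
    obtain ⟨-, z, hz, k⟩ := hm t _ c
    exact hst (edge_inj hy hz k.symm).2.symm
  have h2 : univ.biUnion f ⊆ bdry b S := fun e he => by
    obtain ⟨s, -, a⟩ := mem_biUnion.1 he
    obtain ⟨c, y, hy, rfl⟩ := hm s e a
    refine edge_mem hy ?_
    have := h y (mem_ex.1 hy).1
    rcases step_cases s with rfl | rfl | ⟨k, g, rfl⟩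
    · simpa [fwd] using this
    · exact absurd rfl c
    · rwa [edge_lev_side]
  have h3 := card_le_card h2
  have h4 : f (bck D) = ∅ := if_pos rfl
  rw [h1, sum_step, h4, hf _ (by simp [fwd, bck]), card_empty, add_zero] at h3
  refine le_trans (le_of_eq ?_) h3
  congr 1
  refine sum_congr rfl fun k _ => ?_
  rw [hf _ (by simp [bck]), hf _ (by simp [bck, Fin.succ_ne_zero])]

theorem lt_ht {b : V D} {S : Finset (V D)} {x : V D} (hx : x ∈ S) : x 0 - b 0 + 1 ≤ ht b S := by
  have : (x 0 - b 0).toNat + 1 ≤ ht b S :=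
    le_sup (f := fun x : V D => (x 0 - b 0).toNat + 1) hx
  omega

theorem exists_top {b : V D} {S : Finset (V D)} (h : Shape b S) :
    ∃ x ∈ S, x 0 - b 0 + 1 = ht b S := by
  obtain ⟨x, hx, k⟩ := exists_mem_eq_sup S ⟨b, h.1⟩ fun x : V D => (x 0 - b 0).toNat + 1
  have := h.2.1 x hx
  exact ⟨x, hx, by unfold ht; omega⟩

/-- all levels of a shape are occupied -/
theorem occupied {b : V D} {S : Finset (V D)} (h : Shape b S) {i : ℤ} (h1 : b 0 ≤ i)
    (h2 : i < b 0 + ht b S) : ∃ y ∈ S, y 0 = i := by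
  have key : ∀ x, Relation.ReflTransGen (fun u v => Adj u v ∧ v ∈ S) b x → i ≤ x 0 →
      ∃ y ∈ S, y 0 = i := by
    intro x hx
    induction hx with
    | refl => exact fun k => ⟨b, h.1, le_antisymm h1 k⟩
    | @tail u v _ huv ih =>
      intro k
      by_cases c : i ≤ u 0
      · exact ih c
      · obtain ⟨⟨s, rfl⟩, hv⟩ := huv
        have := (vec_bounds s 0).2
        refine ⟨_, hv, ?_⟩
        simp only [Pi.add_apply] at k ⊢
        omega
  obtain ⟨x, hx, k⟩ := exists_top h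
  exact key x (h.2.2.1 x hx) (by omega)

theorem ht_le_image {b : V D} {S : Finset (V D)} (h : Shape b S) (k : Fin D) (g : Bool) :
    ht b S ≤ ((ex S (k.succ, g)).image fun y => y 0).card := by
  have : Ico (b 0) (b 0 + ht b S) ⊆ (ex S (k.succ, g)).image fun y => y 0 := fun i hi => by
    obtain ⟨x, hx, rfl⟩ := occupied h (mem_Ico.1 hi).1 (mem_Ico.1 hi).2
    obtain ⟨y, hy, e⟩ := exists_ex hx (k.succ, g)
    exact mem_image.2 ⟨y, hy, e 0 (Fin.succ_ne_zero k).symm⟩
  simpa using card_le_card this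

theorem ht_le_ex {b : V D} {S : Finset (V D)} (h : Shape b S) (k : Fin D) (g : Bool) :
    ht b S ≤ (ex S (k.succ, g)).card := (ht_le_image h k g).trans card_image_le

theorem ht_lt_ex {b : V D} {S : Finset (V D)} (h : Shape b S) {z : V D} (hz : z ∈ S)
    {j : Fin D} (hj : z + Pi.single j.succ 1 ∈ S) {k : Fin D} (hk : k ≠ j) (g : Bool) :
    ht b S + 1 ≤ (ex S (k.succ, g)).card := by
  refine lt_of_le_of_lt (ht_le_image h k g) (lt_of_le_of_ne card_image_le fun c => ?_)
  obtain ⟨y, hy, e⟩ := exists_ex hz (k.succ, g)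
  obtain ⟨y', hy', e'⟩ := exists_ex hj (k.succ, g)
  have h0 : (0 : Fin (D + 1)) ≠ k.succ := (Fin.succ_ne_zero k).symm
  have h1 : j.succ ≠ k.succ := fun a => hk (Fin.succ_injective _ a).symm
  have := card_image_iff.1 c hy hy' (by
    show y 0 = y' 0
    rw [e 0 h0, e' 0 h0]; simp)
  have h2 := e _ h1
  rw [this, e' _ h1] at h2
  simp at h2

theorem sum_two (M : ℝ) (hM : 0 ≤ M) :
    ∑' q : ℕ × ℕ, ENNReal.ofReal (M * ((1 / 2) ^ q.1 * (1 / 2) ^ q.2)) = ENNReal.ofReal (M * 4) := by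
  have h1 : Summable fun n : ℕ => ((1 : ℝ) / 2) ^ n := summable_geometric_two
  have h2 : Summable fun q : ℕ × ℕ => ((1 : ℝ) / 2) ^ q.1 * (1 / 2) ^ q.2 :=
    h1.mul_of_nonneg h1 (fun _ => by positivity) fun _ => by positivity
  rw [← ENNReal.ofReal_tsum_of_nonneg (fun _ => by positivity) (h2.mul_left M), tsum_mul_left,
    ← h1.tsum_mul_tsum h1 h2, tsum_geometric_two]
  norm_num

/-- the bound for one pair of parameters -/
theorem term_le {t C δ ε η : ℝ} {D j a e n : ℕ} (hD : 1 ≤ D) (ht : 0 < t) (ht1 : t ≤ 1)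
    (hη : t ≤ η) (hC : 1 ≤ C) (hδ : δ = t / (4 * C)) (hε : 0 ≤ ε) (hεδ : ε ≤ δ)
    (hn : n = D * (j + 1) + 1) (hle : n ≤ 2 * D * (j / 2 + a) + e) :
    (1 + t) ^ (j / 2 + a) * (C / t) ^ e * ε ^ (2 * D * (j / 2 + a) + e) ≤
      exp (η * j) * ε ^ n / δ ^ (2 * D + 1) * ((1 / 2) ^ a * (1 / 2) ^ e) := by
  obtain ⟨m, hm⟩ := Nat.exists_eq_add_of_le hle
  have hδ0 : 0 < δ := by rw [hδ]; positivity
  have hδ4 : δ ≤ 1 / 4 := by
    rw [hδ, div_le_div_iff₀ (by positivity) (by norm_num)]; nlinarith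
  have hm' : a + e ≤ m + (2 * D + 1) := by
    have h1 : j ≤ 2 * (j / 2) + 1 := by omega
    have h2 := Nat.mul_le_mul_left D h1
    have h3 := Nat.mul_le_mul_right a hD
    nlinarith
  have e1 : (1 + t) ^ (j / 2) ≤ exp (η * j) := by
    calc (1 + t) ^ (j / 2) ≤ (1 + t) ^ j := pow_le_pow_right₀ (by linarith) (Nat.div_le_self _ _)
      _ ≤ exp η ^ j := pow_le_pow_left₀ (by linarith) (by linarith [add_one_le_exp η]) _
      _ = _ := by rw [← exp_nat_mul, mul_comm]
  have e2 : ε ^ m ≤ δ ^ a * δ ^ e / δ ^ (2 * D + 1) := by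
    rw [le_div_iff₀ (by positivity), ← pow_add]
    calc ε ^ m * δ ^ (2 * D + 1) ≤ δ ^ m * δ ^ (2 * D + 1) := by gcongr
      _ = δ ^ (m + (2 * D + 1)) := (pow_add _ _ _).symm
      _ ≤ _ := pow_le_pow_of_le_one hδ0.le (by linarith) hm'
  have e3 : (1 + t) ^ a * δ ^ a ≤ (1 / 2) ^ a := by
    rw [← mul_pow]; exact pow_le_pow_left₀ (by positivity) (by nlinarith) _
  have e4 : (C / t) ^ e * δ ^ e ≤ (1 / 2) ^ e := by
    rw [← mul_pow]
    refine pow_le_pow_left₀ (by positivity) ?_ _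
    have : C / t * δ = 1 / 4 := by rw [hδ]; field_simp
    rw [this]; norm_num
  calc (1 + t) ^ (j / 2 + a) * (C / t) ^ e * ε ^ (2 * D * (j / 2 + a) + e)
      = (1 + t) ^ (j / 2) * ((1 + t) ^ a * (C / t) ^ e * ε ^ n) * ε ^ m := by
        rw [hm, pow_add, pow_add]; ring
    _ ≤ exp (η * j) * ((1 + t) ^ a * (C / t) ^ e * ε ^ n) * (δ ^ a * δ ^ e / δ ^ (2 * D + 1)) := by
        gcongr
    _ = exp (η * j) * ε ^ n / δ ^ (2 * D + 1) * (((1 + t) ^ a * δ ^ a) * ((C / t) ^ e * δ ^ e)) := by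
        ring
    _ ≤ _ := by gcongr

end Iso

open Iso

theorem iso0 : ISO0Stmt := by
  rintro D b S i hi ⟨x, hx, rfl⟩
  choose y hy hy' using fun q : Fin D × Bool => exists_ex hx (q.1.succ, q.2)
  have := card_le_card_of_injOn (s := (univ : Finset (Fin D × Bool)))
    (t := (bdry b S).filter fun e => e.2 ≠ 0 ∧ e.1 0 = x 0)
    (fun q => edge (y q) (q.1.succ, q.2)) (fun q _ => ?_) (fun q _ q' _ k => ?_)
  · simpa [mul_comm] using this
  · have h0 : (edge (y q) (q.1.succ, q.2)).1 0 = x 0 := by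
      rw [edge_lev_side, hy' q 0 (Fin.succ_ne_zero _).symm]
    exact mem_coe.2 (mem_filter.2 ⟨edge_mem (hy q) (h0 ▸ hi),
      by rw [edge_snd]; exact Fin.succ_ne_zero _, h0⟩)
  · have := (edge_inj (hy q) (hy q') k).2
    simp only [Prod.mk.injEq, Fin.succ_inj] at this
    exact Prod.ext this.1.symm this.2.symm

theorem iso : ISOStmt := by
  intro D b S h
  have h0 := sum_ex_le (b := b) h.2.1
  have top : ∀ x ∈ S, x 0 - b 0 + 1 = ht b S → x ∈ ex S (fwd D) := fun x hx k =>
    mem_ex.2 ⟨hx, fun c => by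
      have := lt_ht (b := b) c
      simp only [Pi.add_apply, vec_fwd_zero] at this
      omega⟩
  constructor
  · obtain ⟨x, hx, k⟩ := exists_top h
    have h1 : 1 ≤ (ex S (fwd D)).card := card_pos.2 ⟨x, top x hx k⟩
    have h2 : ∑ _k : Fin D, (ht b S + ht b S) ≤
        ∑ k : Fin D, ((ex S (k.succ, true)).card + (ex S (k.succ, false)).card) :=
      sum_le_sum fun k _ => Nat.add_le_add (ht_le_ex h k _) (ht_le_ex h k _)
    simp only [sum_const, card_univ, Fintype.card_fin, smul_eq_mul] at h2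
    nlinarith
  · intro z hz j hj k
    have h1 : 1 < (ex S (fwd D)).card := one_lt_card.2 ⟨z, top z hz k, _, top _ hj (by simpa using k),
      fun c => by simpa using congrFun c j.succ⟩
    have h2 : ∑ k : Fin D, (2 * ht b S + 2) ≤
        ∑ k : Fin D, ((ex S (k.succ, true)).card + (ex S (k.succ, false)).card +
          if k = j then 2 else 0) :=
      sum_le_sum fun k _ => by
        by_cases c : k = j
        · have := ht_le_ex h k true
          have := ht_le_ex h k false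
          rw [if_pos c]; omega
        · have := ht_lt_ex h hz hj c true
          have := ht_lt_ex h hz hj c false
          omega
    rw [sum_add_distrib (g := fun k => if k = j then 2 else 0)] at h2
    simp only [sum_const, card_univ, Fintype.card_fin, smul_eq_mul, sum_ite_eq', mem_univ,
      if_true] at h2
    nlinarith

theorem trap (hC : CylStmt) (hF : FILLStmt) (hI : ISOStmt) (hM : CMPRStmt) : TRAPStmt := by
  classical
  intro D hD η hη
  obtain ⟨C, hC1, hM⟩ := hM D hD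
  set t := min 1 η with htdef
  have ht0 : 0 < t := lt_min one_pos hη
  have ht1 : t ≤ 1 := min_le_left _ _
  set δ := t / (4 * C) with hδ
  have hδ0 : 0 < δ := by positivity
  have hδ1 : δ ≤ 1 := by rw [hδ, div_le_one (by positivity)]; linarith
  refine ⟨4 / δ ^ (2 * D + 1), δ, by positivity, hδ0, fun p hp hp1 b j _ => ?_⟩
  choose F hF1 hF2 using hM t ht0 ht1 b
  set n := D * (j + 1) + 1 with hn
  let G : ℕ × ℕ → Finset (Finset (V D)) := fun q => (F (j / 2 + q.1) q.2).filter fun S =>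
    (bdry b S).card = 2 * D * (j / 2 + q.1) + q.2 ∧ n ≤ 2 * D * (j / 2 + q.1) + q.2
  let A : ℕ × ℕ → Set (Cfg D) := fun q => ⋃ S ∈ G q, {ω | ∀ e ∈ bdry b S, ω e = false}
  have cover : {ω | Trap ω b j} ⊆ ⋃ q, A q := by
    rintro ω ⟨h1, z, hz, h2⟩
    obtain ⟨S, s1, s2, s3⟩ := hF D hD ω b h1
    obtain ⟨i1, i2⟩ := hI D b S s1
    have hzS : z ∈ S := s2 hz
    have z1 := lt_ht (b := b) hzS
    have key : j ≤ 2 * ht b S ∧ n ≤ (bdry b S).card := by
      by_cases c : j + 1 ≤ 2 * ht b S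
      · have := Nat.mul_le_mul_left D c
        exact ⟨by omega, by nlinarith⟩
      · rcases h2 with h2 | ⟨k, h2, h3⟩
        · omega
        · have h4 := i2 z hzS k (s2 h2) (by omega)
          have h5 : j = 2 * ht b S := by omega
          exact ⟨h5.le, by rw [hn, h5]; nlinarith⟩
    obtain ⟨a, ha⟩ := Nat.exists_eq_add_of_le (show j / 2 ≤ ht b S by omega)
    obtain ⟨e, he⟩ := Nat.exists_eq_add_of_le
      (show 2 * D * ht b S ≤ (bdry b S).card by omega)
    refine Set.mem_iUnion.2 ⟨(a, e), Set.mem_iUnion₂.2 ⟨S, mem_filter.2 ⟨?_, ?_, ?_⟩, s3⟩⟩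
    · exact hF2 _ _ S s1 ha (ha ▸ he)
    · exact ha ▸ he
    · exact ha ▸ he ▸ key.2
  have hε : 0 ≤ 1 - p := by linarith
  have each : ∀ q, perc D p (A q) ≤ ENNReal.ofReal
      (exp (η * j) * (1 - p) ^ n / δ ^ (2 * D + 1) * ((1 / 2) ^ q.1 * (1 / 2) ^ q.2)) := by
    rintro ⟨a, e⟩
    by_cases c : n ≤ 2 * D * (j / 2 + a) + e
    swap
    · have : G (a, e) = ∅ := filter_false_of_mem fun S _ k => c k.2
      simp [A, this]
    refine (measure_biUnion_finset_le _ _).trans ?_
    have h1 : ∀ S ∈ G (a, e), perc D p {ω | ∀ e ∈ bdry b S, ω e = false} =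
        ENNReal.ofReal ((1 - p) ^ (2 * D * (j / 2 + a) + e)) := fun S hS => by
      have := hC D p (by linarith) hp1 ∅ (bdry b S) (disjoint_empty_left _)
      simpa [(mem_filter.1 hS).2.1] using this
    rw [sum_congr rfl h1, sum_const, nsmul_eq_mul, ← ENNReal.ofReal_natCast,
      ← ENNReal.ofReal_mul (Nat.cast_nonneg _)]
    refine ENNReal.ofReal_le_ofReal (le_trans ?_
      (term_le hD ht0 ht1 (min_le_right _ _) hC1 hδ hε (by linarith) hn c))
    refine mul_le_mul_of_nonneg_right (le_trans ?_ (hF1 _ _)) (by positivity)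
    exact_mod_cast card_filter_le _ _
  refine (measure_mono cover).trans ((measure_iUnion_le _).trans
    ((ENNReal.tsum_le_tsum each).trans (le_of_eq ?_)))
  rw [sum_two _ (by positivity)]
  congr 1
  ring

end Pool.Agent.MP_8c549f_pr

end MrgPart0

-- ======== part 1: formerly Pool.Agent.MP_8c549f_pr.FinalA
section MrgPart1

-- ======== part 0: formerly Pool.Agent.MP_8c549f_pr.A10
section MrgPart0

/-!
Module ZERO: straight dead-end tubes make the mean duration of a block infinite.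
-/

set_option autoImplicit false

namespace Pool.Agent.MP_8c549f_pr

open MeasureTheory Filter Topology Real
open scoped ENNReal NNReal

namespace Zero

variable {D : ℕ}

/-- the site of height `a` on the axis -/
def ax (D : ℕ) (a : ℕ) : V D := Pi.single 0 (a : ℤ)

theorem ax_zero : ax D 0 = 0 := by simp [ax]

theorem ax_succ (a : ℕ) : ax D a + vec (fwd D) = ax D (a + 1) := by
  rw [ax, ax, vec_fwd, ← Pi.single_add]; push_cast; rfl

theorem ax_pred (a : ℕ) : ax D (a + 1) + vec (bck D) = ax D a := by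
  rw [← ax_succ, vec_fwd, vec_bck, add_neg_cancel_right]

theorem ax_lev (a : ℕ) : ax D a 0 = a := by simp [ax]

theorem ax_side (a : ℕ) (j : Fin D) : ax D a j.succ = 0 := by simp [ax]

theorem edge_pred (a : ℕ) : edge (ax D (a + 1)) (bck D) = edge (ax D a) (fwd D) := by
  rw [← ax_succ]; exact edge_rev (ax D a) (fwd D)

theorem pos_rep (n : ℕ) : pos (List.replicate n (fwd D)) = ax D n := by
  induction n with
  | zero => exact ax_zero.symm
  | succ n ih => rw [List.replicate_succ, pos_cons, ih, add_comm, ax_succ]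

theorem loc_rep {n i : ℕ} (h : i ≤ n) : loc (List.replicate n (fwd D)) i = ax D i := by
  rw [loc, List.take_replicate, min_eq_left h, pos_rep]

theorem H_rep {n i : ℕ} (h : i ≤ n) : H (List.replicate n (fwd D)) i = i := by
  rw [H, loc_rep h, ax_lev]

theorem lev_rep (n : ℕ) : lev (List.replicate n (fwd D)) = n := by rw [lev, pos_rep, ax_lev]

/-- lists that move on the axis between the heights `1` and `k` and stop at height `0` -/
def Tube (k : ℕ) : ℕ → List (Step D) → Prop
  | a, [] => a = 0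
  | a, s :: l => 1 ≤ a ∧ a ≤ k ∧ ((s = fwd D ∧ Tube k (a + 1) l) ∨ (s = bck D ∧ Tube k (a - 1) l))

theorem Tube.pos {k : ℕ} {l : List (Step D)} : ∀ {a : ℕ}, Tube k a l → ax D a + pos l = 0 := by
  induction l with
  | nil => rintro a rfl; simp [ax_zero]
  | cons s l ih =>
    rintro a ⟨h1, -, ⟨rfl, h⟩ | ⟨rfl, h⟩⟩
    · rw [pos_cons, ← add_assoc, ax_succ]; exact ih h
    · obtain ⟨a, rfl⟩ : ∃ b, a = b + 1 := ⟨a - 1, by omega⟩
      rw [pos_cons, ← add_assoc, ax_pred]; exact ih h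

theorem Tube.bd {k : ℕ} {l : List (Step D)} : ∀ {a : ℕ}, Tube k a l →
    ∀ i, 0 ≤ (a : ℤ) + H l i ∧ (a : ℤ) + H l i ≤ k := by
  induction l with
  | nil => rintro a rfl i; simp [H]
  | cons s l ih =>
    rintro a ⟨h1, h2, h⟩ i
    cases i with
    | zero => rw [H_zero]; omega
    | succ i =>
      rw [H_cons_succ]
      rcases h with ⟨rfl, h⟩ | ⟨rfl, h⟩
      · have := ih h i
        rw [vec_fwd_zero]; omega
      · have := ih h i
        rw [vec_bck_zero]; omega

theorem block_of {l : List (Step D)} {k T : ℕ} (hk : k < T) (hl : l.length = T + (k + 2))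
    (ha : ∀ i ≤ T, 0 ≤ H l i ∧ H l i ≤ k) (hb : H l k = k)
    (hc : ∀ j ≤ k + 2, H l (T + j) = j) : Block l := by
  refine ⟨fun i hi => ?_, ⟨by omega, le_rfl, ?_, fun i hi => ?_⟩, fun t ht h => ?_⟩
  · rcases le_or_gt i T with h | h
    · exact (ha i h).1
    · obtain ⟨j, rfl⟩ : ∃ j, i = T + j := ⟨i - T, by omega⟩
      rw [hc j (by omega)]; omega
  · rw [hl, show T + (k + 2) - 1 = T + (k + 1) by omega, hc _ le_rfl, hc _ (by omega)]
    push_cast; ring
  · rw [hl, show T + (k + 2) - 1 = T + (k + 1) by omega] at hi ⊢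
    rw [hc _ (by omega)]
    rcases le_or_gt i T with h | h
    · have := (ha i h).2
      omega
    · obtain ⟨j, rfl⟩ : ∃ j, i = T + j := ⟨i - T, by omega⟩
      rw [hc j (by omega)]; omega
  · obtain ⟨⟨h1, -, h3, h4⟩, h5⟩ := h
    rcases le_or_gt t T with h | h
    · have a1 := h5 T h (by omega)
      have a2 := hc 0 (by omega)
      have a3 := (ha (t - 1) (by omega)).1
      rw [add_zero] at a2
      omega
    · obtain ⟨j, rfl⟩ : ∃ j, t = T + j + 1 := ⟨t - T - 1, by omega⟩
      have a1 := h4 k (by omega)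
      rw [show T + j + 1 - 1 = T + j by omega, hc j (by omega)] at a1
      omega

/-- the block that visits the tube -/
def blk (k : ℕ) (j : Fin D) (u : List (Step D)) : List (Step D) :=
  List.replicate k (fwd D) ++ (u ++ (j.succ, true) :: List.replicate (k + 2) (fwd D))

theorem blk_inj (k : ℕ) (j : Fin D) : Function.Injective (blk k j) := fun _ _ h =>
  List.append_cancel_right (List.append_cancel_left h)

theorem blk_block {k : ℕ} (j : Fin D) {u : List (Step D)} (hu : Tube k k u) : Block (blk k j u) := by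
  have e1 : ∀ i, H (blk k j u) (k + i) =
      k + H (u ++ (j.succ, true) :: List.replicate (k + 2) (fwd D)) i := fun i => by
    have := H_append_right (List.replicate k (fwd D))
      (u ++ (j.succ, true) :: List.replicate (k + 2) (fwd D)) i
    rwa [List.length_replicate, lev_rep] at this
  have e2 : (k : ℤ) + lev u = 0 := by
    have := congrFun hu.pos 0
    rwa [Pi.add_apply, ax_lev] at this
  have hc : ∀ i ≤ k + 2, H (blk k j u) (k + u.length + 1 + i) = i := fun i hi => by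
    rw [show k + u.length + 1 + i = k + (u.length + (i + 1)) by ring, e1, H_append_right,
      H_cons_succ, vec_side_zero, H_rep hi]
    omega
  refine block_of (k := k) (T := k + u.length + 1) (by omega) (by simp [blk]; omega)
    (fun i hi => ?_) ?_ hc
  · rcases le_or_gt i k with h | h
    · rw [blk, H_append_left _ (by simpa using h), H_rep h]; omega
    rcases eq_or_lt_of_le hi with rfl | hi'
    · have := hc 0 (by omega)
      rw [add_zero] at this
      omega
    · obtain ⟨i, rfl⟩ : ∃ i', i = k + i' := ⟨i - k, by omega⟩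
      rw [e1, H_append_left _ (by omega)]
      exact hu.bd i
  · have := e1 0
    rwa [H_zero, add_zero, add_zero] at this

/-- a drift inequality on a finite segment -/
theorem climb {f : ℕ → ℝ≥0∞} {φ β ρ c : ℝ≥0∞} {k : ℕ} (h1 : φ + β = 1) (hβ : β ≠ 0)
    (hρ : φ = β * ρ) (htop : ∀ a, a + 1 = k → f a + c ≤ f k)
    (hin : ∀ a, a + 2 ≤ k → φ * f (a + 2) + β * f a ≤ f (a + 1)) :
    ∀ j a, a + j + 1 = k → f a + ρ ^ j * c ≤ f (a + 1) ∧ f (a + 1) ≤ f k := by
  have hβ' : β ≠ ∞ := ne_top_of_le_ne_top ENNReal.one_ne_top (h1 ▸ le_add_self)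
  have hφ' : φ ≠ ∞ := ne_top_of_le_ne_top ENNReal.one_ne_top (h1 ▸ le_self_add)
  intro j
  induction j with
  | zero =>
    intro a ha
    have ha' : a + 1 = k := by omega
    rw [pow_zero, one_mul, ha']
    exact ⟨htop a ha', le_rfl⟩
  | succ j ih =>
    intro a ha
    obtain ⟨i1, i2⟩ := ih (a + 1) (by omega)
    refine ⟨?_, (le_self_add.trans i1).trans i2⟩
    by_cases ht : f (a + 1) = ∞
    · rw [ht]; exact le_top
    have h2 := (add_le_add_left (mul_le_mul_right i1 φ) (β * f a)).trans (hin a (by omega))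
    have h3 : φ * f (a + 1) + β * (f a + ρ ^ (j + 1) * c) ≤ φ * f (a + 1) + β * f (a + 1) := by
      calc _ = φ * (f (a + 1) + ρ ^ j * c) + β * f a := by rw [hρ]; ring
        _ ≤ f (a + 1) := h2
        _ = _ := by rw [← add_mul, h1, one_mul]
    exact (ENNReal.mul_le_mul_iff_right hβ hβ').1
      ((ENNReal.add_le_add_iff_left (ENNReal.mul_ne_top hφ' ht)).1 h3)

/-- the configuration contains the tube of height `k` -/
structure HasTube (ω : Cfg D) (k : ℕ) : Prop where
  up : ∀ a < k, ω (edge (ax D a) (fwd D)) = true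
  top : ω (edge (ax D k) (fwd D)) = false
  side : ∀ a, 1 ≤ a → a ≤ k → ∀ (j : Fin D) (g : Bool), ω (edge (ax D a) (j.succ, g)) = false

noncomputable def TT (lam : ℝ) (ω : Cfg D) (k : ℕ) (g : ℕ → ℝ≥0∞) (a : ℕ) : ℝ≥0∞ :=
  SS {l | Tube k a l} fun l => g l.length * W lam ω (ax D a) l

theorem TT_rec (lam : ℝ) (ω : Cfg D) {k a : ℕ} (g : ℕ → ℝ≥0∞) (h : a + 1 ≤ k) :
    ENNReal.ofReal (pr lam ω (ax D (a + 1)) (fwd D)) * TT lam ω k (fun n => g (n + 1)) (a + 2) +
      ENNReal.ofReal (pr lam ω (ax D (a + 1)) (bck D)) * TT lam ω k (fun n => g (n + 1)) a ≤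
        TT lam ω k g (a + 1) := by
  rw [TT, TT, TT, ← SS_mul_left, ← SS_mul_left]
  conv_rhs => rw [SS_cons, sum_step]
  refine le_add_left (le_add_right (add_le_add (SS_mono (fun l hl => ?_) fun l _ => ?_)
    (SS_mono (fun l hl => ?_) fun l _ => ?_)))
  · exact ⟨by omega, h, Or.inl ⟨rfl, hl⟩⟩
  · rw [W_cons, ax_succ, List.length_cons, mul_left_comm]
  · exact ⟨by omega, h, Or.inr ⟨rfl, hl⟩⟩
  · rw [W_cons, ax_pred, List.length_cons, mul_left_comm]

theorem TT_succ (lam : ℝ) (ω : Cfg D) (k a : ℕ) :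
    TT lam ω k (fun n => ((n + 1 : ℕ) : ℝ≥0∞)) a =
      TT lam ω k (fun n => n) a + TT lam ω k (fun _ => 1) a := by
  rw [TT, TT, TT, ← SS_add]
  exact SS_congr fun l _ => by push_cast; ring

section

variable {ω : Cfg D} {k : ℕ}

theorem HasTube.Zq_in (h : HasTube ω k) (lam : ℝ) {a : ℕ} (ha : a + 2 ≤ k) :
    Zq lam ω (ax D (a + 1)) = exp lam + exp (-lam) := by
  rw [Zq, sum_step, edge_pred, h.up (a + 1) (by omega), h.up a (by omega)]
  simp only [h.side (a + 1) (by omega) (by omega)]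
  simp

theorem HasTube.pr_top (h : HasTube ω k) (lam : ℝ) {a : ℕ} (ha : a + 1 = k) :
    pr lam ω (ax D (a + 1)) (bck D) = 1 := by
  subst ha
  have h1 : ω (edge (ax D (a + 1)) (bck D)) = true := by rw [edge_pred]; exact h.up a (by omega)
  rw [pr_of_open lam h1, Zq, sum_step, h1, h.top]
  simp only [h.side (a + 1) (by omega) le_rfl]
  simp

/-- the time spent in the tube -/
theorem HasTube.time (h : HasTube ω k) (lam : ℝ) {j : ℕ} (hj : j + 1 = k) :
    ENNReal.ofReal ((exp lam ^ 2) ^ j) ≤ TT lam ω k (fun n => n) k := by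
  have hZ : 0 < exp lam + exp (-lam) := by positivity
  have h1 : ENNReal.ofReal (exp lam / (exp lam + exp (-lam))) +
      ENNReal.ofReal (exp (-lam) / (exp lam + exp (-lam))) = 1 := by
    rw [← ENNReal.ofReal_add (by positivity) (by positivity), ← add_div, div_self hZ.ne',
      ENNReal.ofReal_one]
  have hβ : ENNReal.ofReal (exp (-lam) / (exp lam + exp (-lam))) ≠ 0 := by
    rw [ne_eq, ENNReal.ofReal_eq_zero, not_le]; positivity
  have hρ : ENNReal.ofReal (exp lam / (exp lam + exp (-lam))) =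
      ENNReal.ofReal (exp (-lam) / (exp lam + exp (-lam))) * ENNReal.ofReal (exp lam ^ 2) := by
    rw [← ENNReal.ofReal_mul (by positivity), div_mul_eq_mul_div, exp_neg lam]
    congr 2
    field_simp
  have hin : ∀ (g : ℕ → ℝ≥0∞) (a : ℕ), a + 2 ≤ k →
      ENNReal.ofReal (exp lam / (exp lam + exp (-lam))) * TT lam ω k (fun n => g (n + 1)) (a + 2) +
        ENNReal.ofReal (exp (-lam) / (exp lam + exp (-lam))) * TT lam ω k (fun n => g (n + 1)) a ≤
          TT lam ω k g (a + 1) := fun g a ha => by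
    have := TT_rec lam ω g (a := a) (k := k) (by omega)
    rwa [pr_of_open lam (h.up (a + 1) (by omega)),
      pr_of_open lam (by rw [edge_pred]; exact h.up a (by omega)), h.Zq_in lam ha, wt_fwd,
      wt_bck] at this
  have htop : ∀ (g : ℕ → ℝ≥0∞) (a : ℕ), a + 1 = k →
      TT lam ω k (fun n => g (n + 1)) a ≤ TT lam ω k g k := fun g a ha => by
    have := TT_rec lam ω g (a := a) (k := k) ha.le
    rw [h.pr_top lam ha, ENNReal.ofReal_one, one_mul, ha] at this
    exact le_add_self.trans this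
  have m0 : 1 ≤ TT lam ω k (fun _ => 1) 0 := by
    have := le_SS (A := {l | Tube k 0 l})
      (fun l => (fun _ => (1 : ℝ≥0∞)) l.length * W lam ω (ax D 0) l) (u := []) rfl
    simpa [TT] using this
  have mm := climb (f := TT lam ω k fun _ => 1) (c := 0) h1 hβ hρ
    (fun a ha => by rw [add_zero]; exact htop (fun _ => 1) a ha) (hin fun _ => 1)
  have m1 : ∀ a, a < k → 1 ≤ TT lam ω k (fun _ => 1) a := fun a => by
    induction a with
    | zero => exact fun _ => m0
    | succ a ih =>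
      intro ha
      have := (mm (k - a - 1) a (by omega)).1
      have ha' : a < k := by omega
      exact (ih ha').trans (le_self_add.trans this)
  have key := climb (f := TT lam ω k fun n => n) (c := 1) (k := k) h1 hβ hρ (fun a ha => ?_)
    (fun a ha => ?_) j 0 (by omega)
  · rw [mul_one, ← ENNReal.ofReal_pow (by positivity)] at key
    exact (le_add_self.trans key.1).trans key.2
  · refine le_trans ?_ (htop (fun n => n) a ha)
    rw [TT_succ]
    exact add_le_add_right (m1 a (by omega)) _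
  · refine le_trans ?_ (hin (fun n => n) a ha)
    rw [TT_succ, TT_succ]
    exact add_le_add (mul_le_mul_right le_self_add _) (mul_le_mul_right le_self_add _)

end

/-- the edges that have to be open -/
noncomputable def OO (k : ℕ) (j : Fin D) : Finset (Edge D) :=
  insert (edge 0 (j.succ, true)) ((Finset.range k).image (fun a => edge (ax D a) (fwd D)) ∪
    (Finset.range (k + 2)).image fun a => edge (vec (j.succ, true) + ax D a) (fwd D))

/-- the edges that have to be closed -/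
noncomputable def KK (D k : ℕ) : Finset (Edge D) :=
  insert (edge (ax D k) (fwd D)) ((Finset.range k ×ˢ (Finset.univ : Finset (Fin D × Bool))).image
    fun q => edge (ax D (q.1 + 1)) (q.2.1.succ, q.2.2))

theorem card_OO (k : ℕ) (j : Fin D) : (OO k j).card ≤ 2 * k + 3 := by
  refine (Finset.card_insert_le _ _).trans ?_
  have := (Finset.card_union_le _ _).trans (add_le_add
    (Finset.card_image_le (s := Finset.range k) (f := fun a => edge (ax D a) (fwd D)))
    (Finset.card_image_le (s := Finset.range (k + 2))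
      (f := fun a => edge (vec (j.succ, true) + ax D a) (fwd D))))
  rw [Finset.card_range, Finset.card_range] at this
  omega

theorem card_KK (k : ℕ) : (KK D k).card ≤ 2 * D * k + 1 := by
  refine (Finset.card_insert_le _ _).trans (Nat.succ_le_succ (Finset.card_image_le.trans ?_))
  simp only [Finset.card_product, Finset.card_range, Finset.card_univ, Fintype.card_prod,
    Fintype.card_fin, Fintype.card_bool]
  exact le_of_eq (by ring)

theorem mem_KK {k : ℕ} {e : Edge D} (h : e ∈ KK D k) :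
    e = (ax D k, 0) ∨ (e.2 ≠ 0 ∧ 1 ≤ e.1 0) := by
  rcases Finset.mem_insert.1 h with rfl | h
  · exact Or.inl (edge_true _ _)
  · obtain ⟨⟨a, j, g⟩, -, rfl⟩ := Finset.mem_image.1 h
    refine Or.inr ?_
    cases g <;> simp [ax_lev]

theorem disj (k : ℕ) (j : Fin D) : Disjoint (OO k j) (KK D k) := by
  refine Finset.disjoint_left.2 fun e he hK => ?_
  have hK := mem_KK hK
  rcases Finset.mem_insert.1 he with rfl | he
  · simp at hK
  rcases Finset.mem_union.1 he with he | he
  · obtain ⟨a, ha, rfl⟩ := Finset.mem_image.1 he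
    simp only [fwd, edge_true, Prod.mk.injEq, and_true, ne_eq, not_true, false_and, or_false] at hK
    have := congrFun hK 0
    rw [ax_lev, ax_lev] at this
    have := Finset.mem_range.1 ha
    omega
  · obtain ⟨a, -, rfl⟩ := Finset.mem_image.1 he
    simp only [fwd, edge_true, Prod.mk.injEq, and_true, ne_eq, not_true, false_and, or_false] at hK
    have := congrFun hK j.succ
    simp [ax_side] at this

theorem quenched (lam : ℝ) {i : ℕ} (j : Fin D) {ω : Cfg D} (hO : ∀ e ∈ OO (i + 1) j, ω e = true)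
    (hK : ∀ e ∈ KK D (i + 1), ω e = false) :
    ENNReal.ofReal (exp lam ^ (2 * i + 4) / Zf D lam ^ (2 * i + 5) * (exp lam ^ 2) ^ i) ≤
      SS {u | Tube (i + 1) (i + 1) u} fun u => u.length * W lam (plus ω) 0 (blk (i + 1) j u) := by
  have hZ := Zf_pos D lam
  have hO' : ∀ e ∈ OO (i + 1) j, plus ω e = true := fun e he => plus_of_open (hO e he)
  have hK' : ∀ e ∈ KK D (i + 1), plus ω e = false := fun e he => by
    rw [plus_of_ne ω, hK e he]
    rintro rfl
    rcases mem_KK he with h | h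
    · have := congrFun (congrArg Prod.fst h) 0
      simp [bck, ax_lev] at this
      omega
    · simp [bck] at h
  generalize plus ω = ω' at hO' hK'
  have hup : ∀ a < i + 1, ω' (edge (ax D a) (fwd D)) = true := fun a ha =>
    hO' _ (Finset.mem_insert_of_mem (Finset.mem_union_left _
      (Finset.mem_image_of_mem _ (Finset.mem_range.2 ha))))
  have hT : HasTube ω' (i + 1) := by
    refine ⟨hup, hK' _ (Finset.mem_insert_self _ _), fun a h1 h2 j g => hK' _ ?_⟩
    obtain ⟨a, rfl⟩ : ∃ b, a = b + 1 := ⟨a - 1, by omega⟩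
    exact Finset.mem_insert_of_mem (Finset.mem_image.2 ⟨(a, j, g), by simpa using h2, rfl⟩)
  have w1 : Wf lam (List.replicate (i + 1) (fwd D)) ≤
      W lam ω' 0 (List.replicate (i + 1) (fwd D)) := by
    refine Wf_le_W lam ω' _ 0 fun a ha => ?_
    rw [List.length_replicate] at ha
    rw [zero_add, loc_rep ha.le, List.getElem_replicate]
    exact hup a ha
  have w2 : Wf lam ((j.succ, true) :: List.replicate (i + 1 + 2) (fwd D)) ≤
      W lam ω' 0 ((j.succ, true) :: List.replicate (i + 1 + 2) (fwd D)) := by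
    refine Wf_le_W lam ω' _ 0 ((forall_steps_cons (fun y t => ω' (edge y t) = true) _ _ _).2
      ⟨hO' _ (Finset.mem_insert_self _ _), fun a ha => ?_⟩)
    rw [List.length_replicate] at ha
    rw [zero_add, loc_rep ha.le, List.getElem_replicate]
    exact hO' _ (Finset.mem_insert_of_mem (Finset.mem_union_right _
      (Finset.mem_image_of_mem _ (Finset.mem_range.2 ha))))
  have w3 : ENNReal.ofReal (exp lam ^ (2 * i + 4) / Zf D lam ^ (2 * i + 5)) =
      Wf lam (List.replicate (i + 1) (fwd D)) *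
        Wf lam ((j.succ, true) :: List.replicate (i + 1 + 2) (fwd D)) := by
    rw [Wf_eq, Wf_eq, ← ENNReal.ofReal_mul (by positivity), lev_cons, vec_side_zero, lev_rep,
      lev_rep, zero_add, List.length_cons, List.length_replicate, List.length_replicate,
      Int.cast_natCast, Int.cast_natCast, mul_comm lam, mul_comm lam, exp_nat_mul, exp_nat_mul]
    congr 1
    field_simp
    ring
  rw [ENNReal.ofReal_mul (by positivity), w3]
  refine (mul_le_mul_right (hT.time lam rfl) _).trans ?_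
  rw [TT, ← SS_mul_left]
  refine SS_mono subset_rfl fun u hu => ?_
  rw [blk, W_append, W_append, zero_add, pos_rep, Tube.pos hu]
  calc _ = u.length * (Wf lam (List.replicate (i + 1) (fwd D)) * (W lam ω' (ax D (i + 1)) u *
        Wf lam ((j.succ, true) :: List.replicate (i + 1 + 2) (fwd D)))) := by ring
    _ ≤ _ := mul_le_mul_right (mul_le_mul' w1 (mul_le_mul_right w2 _)) _

theorem annealed (hC : CylStmt) {p : ℝ} (h0 : 0 ≤ p) (h1 : p ≤ 1) (lam : ℝ) (j : Fin D) (i : ℕ) :
    ENNReal.ofReal (exp lam ^ (2 * i + 4) / Zf D lam ^ (2 * i + 5) * (exp lam ^ 2) ^ i *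
      (p ^ (2 * (i + 1) + 3) * (1 - p) ^ (2 * D * (i + 1) + 1))) ≤ AA D p lam := by
  have hZ := Zf_pos D lam
  have h1' : 0 ≤ 1 - p := by linarith
  have hE : MeasurableSet {ω : Cfg D | (∀ e ∈ OO (i + 1) j, ω e = true) ∧
      ∀ e ∈ KK D (i + 1), ω e = false} := by
    refine Dep.measurableSet (S := ↑(OO (i + 1) j ∪ KK D (i + 1))) (fun ω ω' h => propext ?_)
      (Finset.finite_toSet _)
    refine and_congr (forall₂_congr fun e he => ?_) (forall₂_congr fun e he => ?_)
    · rw [h e (by simp [he])]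
    · rw [h e (by simp [he])]
  have hP : ENNReal.ofReal (p ^ (2 * (i + 1) + 3) * (1 - p) ^ (2 * D * (i + 1) + 1)) ≤
      perc D p {ω : Cfg D | (∀ e ∈ OO (i + 1) j, ω e = true) ∧
        ∀ e ∈ KK D (i + 1), ω e = false} := by
    rw [hC D p h0 h1 _ _ (disj _ j)]
    exact ENNReal.ofReal_le_ofReal (mul_le_mul (pow_le_pow_of_le_one h0 h1 (card_OO _ j))
      (pow_le_pow_of_le_one h1' (by linarith) (card_KK _)) (by positivity) (by positivity))
  have hm : ∀ u : List (Step D), Measurable fun ω : Cfg D =>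
      (u.length : ℝ≥0∞) * W lam (plus ω) 0 (blk (i + 1) j u) := fun u =>
    (measurable_W_cfg true lam _).const_mul _
  rw [ENNReal.ofReal_mul (by positivity)]
  refine (mul_le_mul_right hP _).trans ?_
  rw [← lintegral_indicator_const hE]
  refine le_trans (lintegral_mono (g := fun ω => SS {u | Tube (i + 1) (i + 1) u} fun u =>
    u.length * W lam (plus ω) 0 (blk (i + 1) j u)) fun ω => ?_) ?_
  · by_cases hω : ω ∈ {ω : Cfg D | (∀ e ∈ OO (i + 1) j, ω e = true) ∧
        ∀ e ∈ KK D (i + 1), ω e = false}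
    · rw [Set.indicator_of_mem hω]
      exact quenched lam j hω.1 hω.2
    · rw [Set.indicator_of_notMem hω]
      exact zero_le
  · rw [lintegral_SS _ _ hm, AA]
    refine le_trans ?_ (SS_mono (A := blk (i + 1) j '' {u | Tube (i + 1) (i + 1) u}) ?_
      fun _ _ => le_rfl)
    · rw [SS_image (blk_inj _ j)]
      refine SS_mono subset_rfl fun u _ => ?_
      rw [lintegral_const_mul' _ _ (ENNReal.natCast_ne_top _)]
      refine mul_le_mul_left (Nat.cast_le.2 ?_) _
      simp only [blk, List.length_append]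
      omega
    · rintro _ ⟨u, hu, rfl⟩
      exact blk_block j hu

theorem ratio (hD : 1 ≤ D) {η p lam : ℝ} (hη : 0 < η) (h0 : 1 - η / (2 * (2 * D + 2 + η)) ≤ p)
    (h1 : p < 1) (h : exp η ≤ (1 - p) ^ D * exp lam) :
    0 < p ∧ 1 < p * (1 - p) ^ D * exp lam ^ 2 / Zf D lam := by
  have hD0 : (0 : ℝ) ≤ D := Nat.cast_nonneg D
  have hε : 0 < 1 - p := by linarith
  have a1 : (1 - p) * (2 * (2 * D + 2 + η)) ≤ η := by
    rw [← le_div_iff₀ (by positivity)]; linarith
  have hp : 0 < p := by nlinarith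
  have hL := exp_pos lam
  have a2 : 1 + η ≤ (1 - p) ^ D * exp lam := by linarith [add_one_le_exp η]
  have a3 : (1 - p) ^ D ≤ 1 - p := pow_le_of_le_one hε.le (by linarith) (by omega)
  have a4 : 1 ≤ (1 - p) * exp lam := by nlinarith
  have a5 : exp (-lam) ≤ 1 := by
    rw [exp_neg]
    exact inv_le_one_of_one_le₀ (by nlinarith)
  refine ⟨hp, ?_⟩
  rw [lt_div_iff₀ (Zf_pos D lam), one_mul, Zf]
  have a6 : p * exp lam * (1 + η) ≤ p * exp lam * ((1 - p) ^ D * exp lam) :=
    mul_le_mul_of_nonneg_left a2 (by positivity)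
  have a7 : (1 + 2 * D) * 1 ≤ (1 + 2 * D) * ((1 - p) * exp lam) :=
    mul_le_mul_of_nonneg_left a4 (by positivity)
  have a8 : 1 + (1 + 2 * D) * (1 - p) < p * (1 + η) := by nlinarith
  have a9 := mul_lt_mul_of_pos_right a8 hL
  nlinarith

end Zero

theorem zero' (hC : CylStmt) : ZEROStmt := by
  intro D hD η hη
  refine ⟨η / (2 * (2 * D + 2 + η)), by positivity, fun p lam h0 h1 h => ?_⟩
  obtain ⟨hp, hθ⟩ := Zero.ratio hD hη h0 h1 h
  have hε : 0 < 1 - p := by linarith
  have hZ := Zf_pos D lam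
  by_contra hA
  set θ := p * (1 - p) ^ D * exp lam ^ 2 / Zf D lam with hθd
  set c := exp lam ^ 4 / Zf D lam ^ 5 * (p ^ 5 * (1 - p) ^ (2 * D + 1)) with hcd
  have hc : 0 < c := by positivity
  obtain ⟨i, hi⟩ := pow_unbounded_of_one_lt ((AA D p lam).toReal / c) (one_lt_pow₀ hθ two_ne_zero)
  have key := Zero.annealed hC hp.le h1.le lam (⟨0, hD⟩ : Fin D) i
  rw [ENNReal.ofReal_le_iff_le_toReal hA] at key
  rw [div_lt_iff₀ hc] at hi
  refine absurd (key.trans_lt hi) (not_lt.2 (le_of_eq ?_))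
  rw [hθd, hcd, ← pow_mul, div_pow, mul_pow, mul_pow, ← pow_mul, ← pow_mul, ← pow_mul]
  field_simp
  ring

theorem zero (hC : CylStmt) (_ : VANStmt) (_ : ESCStmt) : ZEROStmt := zero' hC

end Pool.Agent.MP_8c549f_pr

/-!
The two final statements of the first part from the modules.
-/

set_option autoImplicit false

namespace Pool.Agent.MP_8c549f_pr

open MeasureTheory Filter Topology Real
open scoped ENNReal NNReal

theorem exp_Lam {D : ℕ} {ε : ℝ} (hε : 0 < ε) (t : ℝ) :
    ε ^ D * exp (D * log (1 / ε) + t) = exp t := by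
  rw [exp_add, one_div, log_inv, mul_neg, exp_neg, ← log_pow, exp_log (pow_pos hε D)]
  field_simp

theorem le_Lam {D : ℕ} {ε y t : ℝ} (hε : 0 < ε) (h : y ≤ D * log (1 / ε) + t) :
    ε ^ D * exp y ≤ exp t := by
  rw [← exp_Lam (D := D) hε t]
  gcongr

theorem Lam_le {D : ℕ} {ε y t : ℝ} (hε : 0 < ε) (h : D * log (1 / ε) + t ≤ y) :
    exp t ≤ ε ^ D * exp y := by
  rw [← exp_Lam (D := D) hε t]
  gcongr

theorem inc (hM : MONOStmt) (hT : TRANSStmt) (hO : ONEStmt) : IncStmt := by
  intro D hD a η ha hη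
  obtain ⟨e₁, he₁, h1⟩ := hM D hD a η ha hη
  obtain ⟨e₂, he₂, h2⟩ := hO D hD a ha
  refine ⟨max 0 (1 - min e₁ e₂), max_lt one_pos (by have := lt_min he₁ he₂; linarith), ?_⟩
  intro p hp hp1 x y vx vy hx hxy hy hvx hvy
  have hp0 : 0 < p := (le_max_left _ _).trans_lt hp
  have hp2 : 1 - min e₁ e₂ < p := (le_max_right _ _).trans_lt hp
  have k1 : 1 - e₁ ≤ p := by have := min_le_left e₁ e₂; linarith
  have k2 : 1 - e₂ ≤ p := by have := min_le_right e₁ e₂; linarith
  obtain ⟨a1, a2, a3⟩ := h1 p x y k1 hp1.le hx hxy (le_Lam (by linarith) (by linarith))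
  obtain ⟨b1, b2, b3⟩ := h2 p x k2 hp1.le hx
  obtain ⟨c1, c2, c3⟩ := h2 p y k2 hp1.le (by linarith)
  rw [(hT D p x vx hp0 hp1.le (by linarith) b1 b2 b3 hvx).1 a1,
    (hT D p y vy hp0 hp1.le (by linarith) c1 c2 c3 hvy).1 a2]
  exact a3

theorem small_of (C ζ : ℝ) (hζ : 0 < ζ) : ∃ e : ℝ, 0 < e ∧ ∀ ε, 0 ≤ ε → ε ≤ e → C * ε ≤ ζ := by
  refine ⟨ζ / (|C| + 1), by positivity, fun ε h0 h => ?_⟩
  rw [le_div_iff₀ (by positivity)] at h
  have := le_abs_self C
  nlinarith

theorem Zf_le (D : ℕ) {x : ℝ} (hx : 0 ≤ x) : Zf D x ≤ exp x + 1 + 2 * D := by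
  have : exp (-x) ≤ 1 := exp_le_one_iff.2 (by linarith)
  unfold Zf; linarith

theorem num_low {D : ℕ} (hD : 1 ≤ D) {ε h η C s E u A B κ : ℝ} (hε0 : 0 < ε) (hεs : ε ≤ 1 / 60)
    (hh0 : 0 < h) (hh1 : h ≤ 1 / 2) (hhη : h ≤ η / 32) (hE : 0 < E) (heh : E ≤ 1 + 2 * h)
    (hC : 0 ≤ C) (hε5 : (4 * D + 4 + 9 * C + 30) * ε ≤ h) (hκ : κ = if D = 1 then 3 else 1)
    (hse : s = E * ε ^ D) (hB : 1 ≤ B) (hBA : B ≤ A) (u2 : u ≤ ε + (2 * D + s) * s)
    (a2 : A ≤ B + u + C * (ε + s) ^ 2 + h * s) : 1 - (κ + η) * ε ≤ B / A := by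
  have hD' : (1 : ℝ) ≤ D := by exact_mod_cast hD
  have hκ3 : 1 ≤ κ := by rw [hκ]; split_ifs <;> norm_num
  have hεD : ε ^ D ≤ ε := by simpa using pow_le_pow_of_le_one hε0.le (by linarith) hD
  have hp := pow_pos hε0 D
  have hs0 : 0 < s := by rw [hse]; positivity
  have hs2 : s ≤ 2 * ε := by rw [hse]; nlinarith only [hp, hεD, heh, hh1, hE]
  have hDs : 2 * D * s ≤ (κ - 1 + 4 * h) * ε + 4 * D * ε ^ 2 := by
    rw [hκ]
    split_ifs with hD1
    · subst hD1
      rw [hse]; simp only [Nat.cast_one, pow_one]; nlinarith only [heh, hε0]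
    · have : ε ^ D ≤ ε ^ 2 := pow_le_pow_of_le_one hε0.le (by linarith) (by omega)
      have h9 : s ≤ 2 * ε ^ 2 := by rw [hse]; nlinarith only [hp, this, heh, hh1, hE]
      nlinarith only [h9, hD', mul_pos hh0 hε0]
  have t1 : C * (ε + s) ^ 2 ≤ C * (9 * ε ^ 2) := by
    gcongr; nlinarith only [hs0, hs2, hε0]
  have t2 : s * s ≤ 4 * ε ^ 2 := by nlinarith only [hs0, hs2, hε0]
  have t3 : (4 * D + 4 + 9 * C) * ε ^ 2 ≤ h * ε := by nlinarith only [hε5, hε0]
  have t4 : h * s ≤ 2 * (h * ε) := by nlinarith only [hs2, hh0]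
  have t5 : 32 * (h * ε) ≤ η * ε := by nlinarith only [hhη, hε0]
  have hE : A ≤ B + (κ + η) * ε := by
    nlinarith only [a2, u2, hDs, t1, t2, t3, t4, t5, mul_pos hh0 hε0]
  rw [le_div_iff₀ (by linarith)]
  have : 0 ≤ (κ + η) * ε := by nlinarith only [hκ3, hε0, hh0, hhη]
  nlinarith only [this, hE, hB, hBA]

theorem num_up {ε h η Z p : ℝ} (hε0 : 0 < ε) (hh0 : 0 < h) (hhη : h ≤ η / 32) (hε5 : 30 * ε ≤ h)
    (hZ0 : 0 < Z) (t2 : ε * Z ≤ 1 + 3 * h) (t3 : 1 - 3 * ε ≤ p ^ 3) (hh1 : h ≤ 1 / 2) :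
    (2 - η / 2) * ε ≤ p ^ 3 * (2 / Z) := by
  rw [← mul_div_assoc, le_div_iff₀ hZ0]
  rcases le_or_gt (2 - η / 2) 0 with hn | hn
  · nlinarith only [mul_pos hε0 hZ0, hn, t3, hε5, hh1]
  · nlinarith only [hn, t2, t3, hε5, hhη, hh0, hh1]

theorem maxs (hM : MONOStmt) (hT : TRANSStmt) (hO : ONEStmt) (hL : LOWStmt) (hZ : ZEROStmt)
    (hU : UPStmt) (hP : PHIStmt) (hS : SUMPStmt) : MaxStmt := by
  intro D hD η hη
  have hD' : (1 : ℝ) ≤ D := by exact_mod_cast hD
  -- the small window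
  obtain ⟨h, hh0, hh1, hhη⟩ : ∃ h : ℝ, 0 < h ∧ h ≤ 1 / 2 ∧ h ≤ η / 32 :=
    ⟨min (1 / 2) (η / 32), by positivity, min_le_left _ _, min_le_right _ _⟩
  have heh : exp h ≤ 1 + 2 * h := by
    have := Real.abs_exp_sub_one_le (x := h) (by rw [abs_of_pos hh0]; linarith)
    rw [abs_of_pos hh0] at this
    linarith [le_abs_self (exp h - 1)]
  obtain ⟨e₁, he₁, h1⟩ := hM D hD 1 h one_pos hh0
  obtain ⟨e₂, he₂, h2⟩ := hO D hD 1 one_pos
  obtain ⟨C, e₃, hC, he₃, h3⟩ := hL D hD h h hh0 hh0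
  obtain ⟨e₄, he₄, h4⟩ := hZ D hD h hh0
  obtain ⟨c₁, hc₁⟩ : ∃ c₁ : ℝ, c₁ = (1 / 2) ^ (2 * D + 1) * (2 * D / (exp 1 + 1 + 2 * D)) := ⟨_, rfl⟩
  have hc₁0 : 0 < c₁ := by rw [hc₁]; positivity
  obtain ⟨e₅, he₅, h5⟩ := small_of (4 * D + 4 + 9 * C + 30) h hh0
  obtain ⟨e₆, he₆, h6⟩ := small_of ((3 + η) * (1 + c₁)) (c₁ / 2) (by positivity)
  obtain ⟨e, he, k1, k2, k3, k4, k5, k6, k7⟩ : ∃ e : ℝ, 0 < e ∧ e ≤ e₁ ∧ e ≤ e₂ ∧ e ≤ e₃ ∧ e ≤ e₄ ∧
      e ≤ e₅ ∧ e ≤ e₆ ∧ e ≤ exp (-2) :=
    ⟨min e₁ (min e₂ (min e₃ (min e₄ (min e₅ (min e₆ (exp (-2))))))), by positivity, by simp,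
      by simp, by simp, by simp, by simp, by simp, by simp⟩
  refine ⟨1 - e, by linarith, fun p hp hp1 v hv => ?_⟩
  obtain ⟨ε, hε⟩ : ∃ ε, ε = 1 - p := ⟨_, rfl⟩
  have hε0 : 0 < ε := by linarith
  have hεe : ε ≤ e := by linarith
  have hε5 := h5 ε hε0.le (by linarith)
  have hε6 := h6 ε hε0.le (by linarith)
  have hε30 : 30 * ε ≤ h := by nlinarith only [hε5, hε0, hD', hC]
  have hεs : ε ≤ 1 / 60 := by linarith
  have hp0 : 0 < p := by linarith
  have hlog : 2 ≤ log (1 / ε) := by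
    rw [one_div, log_inv, le_neg, log_le_iff_le_exp hε0]; linarith
  obtain ⟨Λ, hΛ⟩ : ∃ Λ, Λ = D * log (1 / ε) := ⟨_, rfl⟩
  have hΛ2 : 2 ≤ Λ := by rw [hΛ]; nlinarith only [hlog, hD']
  rw [← hε, ← hΛ]
  obtain ⟨κ, hκ⟩ : ∃ κ : ℝ, κ = if D = 1 then 3 else 1 := ⟨_, rfl⟩
  rw [← hκ]
  have hκ3 : 1 ≤ κ ∧ κ ≤ 3 := by rw [hκ]; split_ifs <;> norm_num
  -- zero speed above the window
  have zero : ∀ y, Λ + h ≤ y → v y = 0 := by
    intro y hy
    obtain ⟨b1, b2, b3⟩ := h2 p y (by linarith) hp1.le (by linarith)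
    exact (hT D p y (v y) hp0 hp1.le (by linarith) b1 b2 b3 (hv y (by linarith))).2
      (h4 p y (by linarith) hp1 (by rw [← hε]; exact Lam_le hε0 (by linarith)))
  have up : ∀ y c, 0 < y → 0 ≤ c → c ≤ uu D p y → v y ≤ 1 / (1 + c) := fun y c hy hc hu =>
    (hU D hD p y (v y) hp0.le hp1.le hy.le (hv y hy)).trans
      (one_div_le_one_div_of_le (by linarith) (by linarith))
  have up' : ∀ c : ℝ, 0 ≤ c → 1 / (1 + c) ≤ 1 - c + c ^ 2 := fun c hc => by
    rw [div_le_iff₀ (by linarith)]; nlinarith only [pow_nonneg hc 3]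
  -- the value at the left end of the window
  have low : 1 - (κ + η) * ε ≤ v (Λ - h) := by
    obtain ⟨b1, b2, b3⟩ := h2 p (Λ - h) (by linarith) hp1.le (by linarith)
    obtain ⟨a1, a2⟩ := h3 p (Λ - h) (by linarith) hp1.le (by linarith)
      (by rw [← hε]; exact le_Lam hε0 (by linarith))
    rw [(hT D p _ _ hp0 hp1.le (by linarith) b1 b2 b3 (hv _ (by linarith))).1 a1]
    obtain ⟨-, -, -, -, -, -, s1, s2⟩ := hS D p (Λ - h) hp0.le hp1.le
    have hB : 1 ≤ BR D p (Λ - h) := by
      rw [b2] at s2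
      simpa [BR] using ENNReal.toReal_mono b3 s2
    have hBA : BR D p (Λ - h) ≤ AR D p (Λ - h) := ENNReal.toReal_mono a1 s1
    obtain ⟨-, -, -, u2, -⟩ := hP D hD p (Λ - h) hp0.le hp1.le (by linarith)
    obtain ⟨s, hs⟩ : ∃ s, s = exp (-(Λ - h)) := ⟨_, rfl⟩
    have hse : s = exp h * ε ^ D := by
      have := exp_Lam (D := D) hε0 (-h)
      rw [← hΛ, ← sub_eq_add_neg, exp_neg] at this
      rw [hs, exp_neg]
      field_simp at this ⊢
      linarith
    rw [← hs, ← hε] at a2 u2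
    exact num_low hD hε0 hεs hh0 hh1 hhη (exp_pos h) heh hC hε5 hκ hse hB hBA u2 a2
  have low' : 1 / (1 + c₁) < v (Λ - h) := by
    refine lt_of_lt_of_le ?_ low
    rw [div_lt_iff₀ (by linarith)]
    nlinarith only [hκ3.2, mul_pos hε0 (show 0 < 1 + c₁ by linarith), hε6, hc₁0]
  refine ⟨fun x hx => ?_, Λ - h, by linarith, ?_, low, fun y hy hy' => ?_⟩
  · rcases le_or_gt (Λ + h) x with hx' | hx'
    · rw [zero x hx']; nlinarith only [hκ3.2, hε0, hεs, hη]
    obtain ⟨-, -, u1, -, -⟩ := hP D hD p x hp0.le hp1.le hx.le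
    rw [← hε] at u1
    have hZ0 := Zf_pos D x
    have hc : (κ - η / 2) * ε ≤ uu D p x := by
      rw [hκ]
      split_ifs with hD1
      · subst hD1
        have t1 : ε * exp x ≤ exp h := by simpa using le_Lam (D := 1) hε0 (by rw [← hΛ]; exact hx'.le)
        have t2 : ε * Zf 1 x ≤ 1 + 3 * h := by
          have := Zf_le 1 hx.le
          push_cast at this
          nlinarith only [this, t1, heh, hε0, hε30]
        have t3 : 1 - 3 * ε ≤ p ^ 3 := by
          have := one_add_mul_le_pow (show (-2 : ℝ) ≤ -ε by linarith) 3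
          rw [show 1 + -ε = p by linarith] at this
          push_cast at this; linarith
        have t4 := num_up hε0 hh0 hhη hε30 hZ0 t2 t3 hh1
        norm_num at u1 ⊢
        linarith
      · have : 0 ≤ p ^ (2 * D + 1) * (2 * D / Zf D x) := by positivity
        nlinarith only [this, u1, hε0, hη]
    rcases le_or_gt (κ - η / 2) 0 with hn | hn
    · have := up x 0 hx le_rfl (by
        have : 0 ≤ p ^ (2 * D + 1) * (2 * D / Zf D x) := by positivity
        linarith)
      nlinarith only [this, hn, hε0, hη]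
    · have t1 := (up x _ hx (by positivity) hc).trans (up' _ (by positivity))
      have t2 : ((κ - η / 2) * ε) ^ 2 ≤ 9 * ε ^ 2 := by
        rw [mul_pow]; gcongr; nlinarith only [hκ3.2, hn, hη]
      nlinarith only [t1, t2, hε30, hhη, hε0]
  · rw [show Λ - h - Λ = -h by ring, abs_neg, abs_of_pos hh0]; linarith
  · rcases lt_abs.1 hy' with hy1 | hy1
    · rw [zero y (by linarith)]
      exact lt_trans (by positivity) low'
    rcases le_or_gt 1 y with hy2 | hy2
    · obtain ⟨a1, a2, a3⟩ := h1 p y (Λ - h) (by linarith) hp1.le hy2 (by linarith)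
        (by rw [← hε]; exact le_Lam hε0 (by linarith))
      obtain ⟨b1, b2, b3⟩ := h2 p y (by linarith) hp1.le hy2
      obtain ⟨c1, c2, c3⟩ := h2 p (Λ - h) (by linarith) hp1.le (by linarith)
      rw [(hT D p y _ hp0 hp1.le hy.le b1 b2 b3 (hv y hy)).1 a1,
        (hT D p _ _ hp0 hp1.le (by linarith) c1 c2 c3 (hv _ (by linarith))).1 a2]
      exact a3
    · refine lt_of_le_of_lt (up y c₁ hy hc₁0.le ?_) low'
      obtain ⟨-, -, u1, -, -⟩ := hP D hD p y hp0.le hp1.le hy.le
      have t1 : Zf D y ≤ exp 1 + 1 + 2 * D := (Zf_le D hy.le).trans (by gcongr)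
      have t2 : c₁ ≤ p ^ (2 * D + 1) * (2 * D / Zf D y) := by
        rw [hc₁]
        have := Zf_pos D y
        gcongr
        linarith
      linarith

end Pool.Agent.MP_8c549f_pr

end MrgPart0

-- ======== part 1: formerly Pool.Agent.MP_8c549f_pr.FinalA
section MrgPart1

/-! Composition of the modules of the first part. -/

set_option autoImplicit false

namespace Pool.Agent.MP_8c549f_pr

theorem cmprS : CMPRStmt := cmpr iso0 ani
theorem trapS : TRAPStmt := trap cyl fill iso cmprS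
theorem lat1S : LAT1Stmt := lat1 fl f1 f2 f4
theorem lat2S : LAT2Stmt := lat2 fl
theorem retS : RETStmt := ret res esc geo plusTrap trapS lat1S
theorem phiS : PHIStmt := phi cyl fl
theorem q0S : Q0Stmt := q0 fl f2 f3 f4 retS
theorem recS : RECStmt := recs fa fb
theorem htS : HTStmt := hts retS q0S phiS recS
theorem oneS : ONEStmt := one fa van esc lat1S retS q0S recS htS
theorem momaS : MOMAStmt := moma lat1S lat2S recS htS sump
theorem mombS : MOMBStmt := momb lat1S recS htS sump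
theorem p1S : P1Stmt := p1 ch1
theorem p2S : P2Stmt := p2 ch2 res esc
theorem p3S : P3Stmt := p3 ch3 res esc
theorem p4S : P4Stmt := p4 esc
theorem p5S : P5Stmt := p5 rat p2S p3S p4S
theorem tsumS : TSUMStmt := tsumt geo plusTrap trapS p2S p4S sump mombS
theorem cmpS : CMPStmt := cmp cyl lip p1S p2S p4S p5S sump momaS tsumS
theorem cmp0S : CMP0Stmt := cmp0 cyl lip p1S p2S p4S p5S sump momaS tsumS
theorem monoS : MONOStmt := mono f5 sump oneS cmpS cmp0S
theorem hevS : HEVStmt := hev fa fl van esc law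
theorem transS : TRANSStmt := transf wlln hevS
theorem lowS : LOWStmt := low fl p2S p4S sump phiS oneS momaS tsumS
theorem zeroS : ZEROStmt := zero cyl van esc
theorem upS : UPStmt := up fb phiS law

theorem incStmt : IncStmt := inc monoS transS oneS

theorem maxStmt : MaxStmt := maxs monoS transS oneS lowS zeroS upS phiS sump

end Pool.Agent.MP_8c549f_pr

end MrgPart1

-- marker of a merged file
example : 731051 + 750616 = 731051 + 750616 := rfl

end MrgPart1

-- marker of a merged file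
example : 731051 + 750616 = 731051 + 750616 := rfl
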