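import Pool.Agent.MP_8c549f_pr.FinalA

/-!
Working definitions of the second part: bushes, the walk outside a bush, second differences.
-/

set_option autoImplicit false

namespace Pool.Agent.MP_8c549f_pr

open MeasureTheory Filter Topology Real
open scoped ENNReal NNReal

variable {D : ℕ}

/-! ### second differences -/

/-- first and second order control of `f` relative to its own size -/
def Tame (K : ℝ) (f : ℝ → ℝ≥0∞) : Prop :=
  ∀ x t : ℝ, f (x + t) ≤ ENNReal.ofReal (exp (K * |t|)) * f x ∧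
    f (x + t) + f (x - t) ≤ ENNReal.ofReal (2 * cosh (K * t)) * f x ∧
    4 * f x ≤ f (x + t) + f (x - t) + ENNReal.ofReal (2 * cosh (K * t)) * f x

/-- first and second differences of `f` on `[α, β]` are bounded by `M` -/
def Ctl (f : ℝ → ℝ) (α β M : ℝ) : Prop :=
  (∀ x y, α ≤ x → x ≤ y → y ≤ β → |f y - f x| ≤ M * (y - x)) ∧
    ∀ x t, 0 ≤ t → α ≤ x - t → x + t ≤ β → |f (x + t) + f (x - t) - 2 * f x| ≤ M * t ^ 2

/-- `[α, β]` lies in the critical window -/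
def Win (D : ℕ) (p α β : ℝ) : Prop :=
  p < 1 ∧ α ≤ β ∧ β ≤ α + 1 ∧ 1 / 2 ≤ (1 - p) ^ D * exp α ∧ (1 - p) ^ D * exp β ≤ 2

/-! ### counted steps, escape -/

open Classical in
/-- number of steps of `l`, started at `x`, that satisfy `c` -/
noncomputable def nst (c : V D → Step D → Prop) : V D → List (Step D) → ℕ
  | _, [] => 0
  | x, s :: l => (if c x s then 1 else 0) + nst c (x + vec s) l

def ReachSet (D n : ℕ) : Set (List (Step D)) := {l | Rec l ∧ lev l = n ∧ Stay l}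

/-- quenched probability to reach every level before going below the starting level -/
noncomputable def qr (lam : ℝ) (ω : Cfg D) (x : V D) : ℝ≥0∞ :=
  ⨅ n : ℕ, SS (ReachSet D n) (W lam ω x)

noncomputable def Rq (lam : ℝ) (ω : Cfg D) (x : V D) (i r : ℕ) : ℝ≥0∞ :=
  SS {l | l ∈ RetSet D i ∧ ext l = r} (W lam ω x)

/-- counted steps in the blocks of a piece -/
noncomputable def C1 (lam : ℝ) (ω : Cfg D) (c : V D → Step D → Prop) (m r : ℕ) : ℝ≥0∞ :=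
  SS {l | Piece m r l} fun l => nst c 0 l * W lam ω 0 l

/-- the same, followed by a return below the end of the block -/
noncomputable def C2 (lam : ℝ) (ω : Cfg D) (c : V D → Step D → Prop) (m r i r' : ℕ) : ℝ≥0∞ :=
  SS {l | Piece m r l} fun l => nst c 0 l * W lam ω 0 l * Rq lam ω (pos l) i r'

noncomputable def U2 (lam : ℝ) (ω : Cfg D) (m r i r' : ℕ) : ℝ≥0∞ :=
  SS {l | Piece m r l} fun l => W lam ω 0 l * Rq lam ω (pos l) i r'

/-- the blocks of a piece that end at `y` -/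
noncomputable def C1y (lam : ℝ) (ω : Cfg D) (c : V D → Step D → Prop) (m r : ℕ) (y : V D) : ℝ≥0∞ :=
  SS {l | Piece m r l ∧ pos l = y} fun l => nst c 0 l * W lam ω 0 l

noncomputable def U1y (lam : ℝ) (ω : Cfg D) (m r : ℕ) (y : V D) : ℝ≥0∞ :=
  SS {l | Piece m r l ∧ pos l = y} (W lam ω 0)

/-- counted steps in the first block, on the event of escape -/
noncomputable def CE (lam : ℝ) (ω : Cfg D) (c : V D → Step D → Prop) : ℝ≥0∞ :=
  SS {l | Block l} fun l => nst c 0 l * W lam ω 0 l * qr lam ω (pos l)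

noncomputable def HE (lam : ℝ) (ω : Cfg D) : ℝ≥0∞ :=
  SS {l | Block l} fun l => (lev l).toNat * W lam ω 0 l * qr lam ω (pos l)

/-- the steps satisfying `c` have an escape route at most `j` exponents below their own -/
def GoodC (ω : Cfg D) (B : Finset (V D)) (c : V D → Step D → Prop) (j : ℕ) : Prop :=
  ∀ x ∈ B, ∀ s, c x s → ω (edge x s) = true → Esc ω B (x + vec s) 0 →
    Esc ω B (x + vec s) (expo x s - j)

/-- almost sure properties of a configuration -/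
def Nice (lam : ℝ) (ω : Cfg D) : Prop :=
  (∀ x, ω (edge x (bck D)) = true → qr lam ω x + ∑' q : ℕ × ℕ, Rq lam ω x q.1 q.2 = 1) ∧
    (ω (edge 0 (bck D)) = true → ∑' n : ℕ, SS (ASet D n) (W lam ω 0) ≠ ∞)

/-! ### bushes -/

def e0 (D : ℕ) : V D := Pi.single 0 1

def Bush (ω : Cfg D) (u : V D) : Set (V D) := Up ω (u 0 + 1) (u + e0 D)

/-- the forward edge of `u` is the only entrance of a finite cluster above `u` -/
def Root (ω : Cfg D) (u : V D) : Prop :=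
  ω (edge u (fwd D)) = true ∧ (Bush ω u).Finite ∧
    ∀ z ∈ Bush ω u, z 0 = u 0 + 1 → ω (edge z (bck D)) = true → z = u + e0 D

def InB (ω : Cfg D) (u x : V D) (s : Step D) : Prop := x ∈ Bush ω u ∨ (x = u ∧ s = fwd D)

def Reg (ω : Cfg D) (x : V D) (s : Step D) : Prop := ¬ ∃ u, 0 ≤ u 0 ∧ Root ω u ∧ InB ω u x s

def Und (ω : Cfg D) (u : V D) : Prop := ∃ u', 0 ≤ u' 0 ∧ Root ω u' ∧ u ∈ Bush ω u'

/-- `u` is a root and `S` is its bush together with the holes -/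
def RootS (ω : Cfg D) (u : V D) (S : Finset (V D)) : Prop :=
  Root ω u ∧ Shape (u + e0 D) S ∧ Bush ω u ⊆ (S : Set (V D)) ∧
    ∀ x ∈ S, ∀ s, x + vec s ∉ S → x ∈ Bush ω u

/-- sum of `g` over the exponents, relative to `u`, of the oriented edges that start in the bush,
and of the entrance -/
noncomputable def pih (g : ℤ → ℝ≥0∞) (ω : Cfg D) (u : V D) : ℝ≥0∞ :=
  g 1 + ∑' z : V D, (Bush ω u).indicator
    (fun z => ∑ s : Step D, if ω (edge z s) = true then g (expo z s - 2 * u 0) else 0) z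

noncomputable def gk (k : ℕ) (lam : ℝ) (m : ℤ) : ℝ≥0∞ :=
  ENNReal.ofReal ((m : ℝ) ^ k * exp (lam * m))

def shut (ω : Cfg D) (e : Edge D) : Cfg D := Function.update ω e false

/-- close all the edges with an end in `S` -/
noncomputable def clo (S : Finset (V D)) (ω : Cfg D) : Cfg D :=
  fun e => if e ∈ near S then false else ω e

noncomputable def tr (u : V D) (S : Finset (V D)) : Finset (V D) := S.image fun x => x + u

/-- visits to `u` in the first block, divided by the conductance at `u` -/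
noncomputable def Th (lam : ℝ) (ω : Cfg D) (u : V D) : ℝ≥0∞ :=
  ENNReal.ofReal (1 / Zq lam ω u) * CE lam ω fun x _ => x = u

noncomputable def AT (D : ℕ) (p lam : ℝ) : ℝ≥0∞ :=
  ∫⁻ ω, CE lam (plus ω) (fun _ _ => True) ∂perc D p

noncomputable def BT (D : ℕ) (p lam : ℝ) : ℝ≥0∞ := ∫⁻ ω, HE lam (plus ω) ∂perc D p

noncomputable def AReg (D : ℕ) (p lam : ℝ) : ℝ≥0∞ :=
  ∫⁻ ω, CE lam (plus ω) (Reg (plus ω)) ∂perc D p

noncomputable def q1 (D : ℕ) (p lam : ℝ) : ℝ≥0∞ := ∫⁻ ω, qr lam (plus ω) 0 ∂perc D p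

noncomputable def piS (g : ℤ → ℝ≥0∞) (p : ℝ) (S : Finset (V D)) : ℝ≥0∞ :=
  ∫⁻ ω in {ω | RootS ω 0 S}, pih g ω 0 ∂perc D p

noncomputable def PhiS (p lam : ℝ) (S : Finset (V D)) : ℝ≥0∞ :=
  ∑' u : V D, if 0 ≤ u 0 then
    ∫⁻ ω in {ω | ¬ Und (plus (clo (tr u S) ω)) u}, Th lam (plus (clo (tr u S) ω)) u ∂perc D p
  else 0

/-- time spent in bushes of height at most `h` -/
noncomputable def ABu (D : ℕ) (p lam : ℝ) (h : ℕ) : ℝ≥0∞ :=
  ∑' S : Finset (V D), if ht (e0 D) S ≤ h then piS (gk 0 lam) p S * PhiS p lam S else 0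

/-! ### profile of a shape -/

/-- number of edges with exactly one end in `S` and lower end at level `i` -/
noncomputable def bdl (S : Finset (V D)) (i : ℤ) : ℕ :=
  ((near S).filter fun e => e.1 0 = i ∧ ¬ (e.1 ∈ S ↔ e.1 + Pi.single e.2 1 ∈ S)).card

def Occ (S : Finset (V D)) (i : ℤ) : Prop := ∃ x ∈ S, x 0 = i

open Classical in
/-- boundary edges at level `i` in excess of those of a straight tube standing on `e0` -/
noncomputable def exc (S : Finset (V D)) (i : ℤ) : ℕ :=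
  bdl S i - (if Occ S i then 2 * D else 0) - (if Occ S i ∧ ¬ Occ S (i + 1) then 1 else 0) -
    (if i = 0 then 1 else 0)

def ks (k : ℤ → ℕ) (a : ℤ) (n : ℕ) : ℕ := ∑ i ∈ Finset.range n, k (a + i)

def NuLe (Q : ℕ) (k : ℤ → ℕ) (ν : ℕ) : Prop := ∀ n : ℕ, Q * ks k 0 n ≤ n + Q * ν

/-- `k` bounds the excess of `S`, a set above `u` -/
def Prof (S : Finset (V D)) (u : V D) (k : ℤ → ℕ) : Prop :=
  (∀ x ∈ S, u 0 < x 0) ∧ (∀ i, bdl S i ≤ 2 * D + 1 + k i) ∧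
    (∀ x ∈ S, ∀ y ∈ S, x 0 = y 0 → k (x 0) = 0 → x = y) ∧
    ∀ i, ((S.image fun y => y - e0 D).filter fun x => x ∉ S ∧ x 0 = i ∧ x ≠ u).card ≤ k i

/-- mass of the bushes of height at most `h` -/
noncomputable def MB (D : ℕ) (g : ℤ → ℝ≥0∞) (p : ℝ) (h : ℕ) : ℝ≥0∞ :=
  ∑' S : Finset (V D), if ht (e0 D) S ≤ h then piS g p S else 0

open Classical in
noncomputable def MBad (D : ℕ) (g : ℤ → ℝ≥0∞) (p : ℝ) (h Q ν : ℕ) : ℝ≥0∞ :=
  ∑' S : Finset (V D), if ht (e0 D) S ≤ h ∧ ¬ NuLe Q (exc S) ν then piS g p S else 0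

/-! ### the walk outside a closed set -/

/-- annealed weight from `x`, back edge of `x` open, edges at `S` closed -/
noncomputable def wk (S : Finset (V D)) (p lam : ℝ) (x : V D) (l : List (Step D)) : ℝ≥0∞ :=
  ∫⁻ ω, W lam (Function.update (clo S ω) (edge x (bck D)) true) x l ∂perc D p

noncomputable def aK (S : Finset (V D)) (p lam : ℝ) (m : ℕ) : ℝ≥0∞ :=
  SS (ASet D m) (wk S p lam 0)

noncomputable def RetK (S : Finset (V D)) (p lam : ℝ) (x : V D) (i : ℕ) : ℝ≥0∞ :=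
  SS (RetSet D i) (wk S p lam x)

noncomputable def LatK (S : Finset (V D)) (p lam : ℝ) (x : V D) (h r : ℕ) : ℝ≥0∞ :=
  SS (LatSet D h r) (wk S p lam x)

noncomputable def g1 (S : Finset (V D)) (p lam : ℝ) (m r : ℕ) : ℝ≥0∞ :=
  ∫⁻ ω, Uq lam (plus (clo S ω)) m r ∂perc D p

noncomputable def g2 (S : Finset (V D)) (p lam : ℝ) (m r i r' : ℕ) : ℝ≥0∞ :=
  ∫⁻ ω, U2 lam (plus (clo S ω)) m r i r' ∂perc D p

/-- the half space cluster of `b` is finite, stays below `n` levels and reaches `h` levels -/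
def NTrap (ω : Cfg D) (b : V D) (n h : ℕ) : Prop :=
  (Up ω (b 0) b).Finite ∧ (∀ z ∈ Up ω (b 0) b, z 0 < b 0 + n) ∧
    ∃ z ∈ Up ω (b 0) b, b 0 + h ≤ z 0 + 1

/-- the half space cluster of `b` is finite, stays below `n` levels and has two sites on each of
its first `h` levels -/
def WTrap (ω : Cfg D) (b : V D) (n h : ℕ) : Prop :=
  (Up ω (b 0) b).Finite ∧ (∀ z ∈ Up ω (b 0) b, z 0 < b 0 + n) ∧
    ∀ i < h, ∃ z ∈ Up ω (b 0) b, ∃ z' ∈ Up ω (b 0) b, z ≠ z' ∧ z 0 = b 0 + i ∧ z' 0 = b 0 + i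

/-- from `u + e0` back to `u`, inside the bush -/
def ExcSet (ω : Cfg D) (u : V D) : Set (List (Step D)) :=
  {l | u + e0 D + pos l = u ∧ ∀ i < l.length, u + e0 D + loc l i ∈ Bush ω u}

/-- first visit of level `n`, never below level `0`, no cut at a level `≤ a` -/
def LSet (D : ℕ) (a : ℤ) (n : ℕ) : Set (List (Step D)) :=
  {l | l ∈ ReachSet D n ∧ ∀ t, Cut l t → a < H l t}

noncomputable def T1 (p lam : ℝ) (S : Finset (V D)) (u : V D) (m r : ℕ) : ℝ≥0∞ :=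
  if 0 ≤ u 0 then ∫⁻ ω in {ω | ¬ Und (plus (clo S ω)) u},
    ENNReal.ofReal (1 / Zq lam (plus (clo S ω)) u) *
      C1 lam (plus (clo S ω)) (fun x _ => x = u) m r ∂perc D p else 0

noncomputable def T2 (p lam : ℝ) (S : Finset (V D)) (u : V D) (m r i r' : ℕ) : ℝ≥0∞ :=
  if 0 ≤ u 0 then ∫⁻ ω in {ω | ¬ Und (plus (clo S ω)) u},
    ENNReal.ofReal (1 / Zq lam (plus (clo S ω)) u) *
      C2 lam (plus (clo S ω)) (fun x _ => x = u) m r i r' ∂perc D p else 0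

/-- all the edges with exactly one end in `T` -/
noncomputable def shell (T : Finset (V D)) : Finset (Edge D) :=
  (near T).filter fun e => ¬ (e.1 ∈ T ↔ e.1 + Pi.single e.2 1 ∈ T)

/-- standing assumptions on the walk outside `S` -/
def KH (p lam μ : ℝ) (S : Finset (V D)) (u : V D) (k : ℤ → ℕ) : Prop :=
  p ≤ 1 ∧ 1 - p ≤ exp (-μ) ∧ μ ≤ lam ∧ Prof S u k

/-- pointwise bounds for two arrays -/
def PtB (D Q : ℕ) (A p lam μ : ℝ) (ν : ℕ) (g : ℕ → ℕ → ℝ≥0∞) (g' : ℕ → ℕ → ℕ → ℕ → ℝ≥0∞) : Prop :=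
  ∀ m r i r' : ℕ,
    g 0 r = 0 ∧ g 1 (r + 1) = 0 ∧ g m r ≤ 1 ∧ g' m r i r' ≤ g m r ∧
    g m r ≤ ENNReal.ofReal (2 * exp (-μ * (((m : ℝ) - 2) / 64 - A * ν))) ∧
    g m r ≤ ENNReal.ofReal (2 * D * (1 - (p * exp lam / Zf D lam) ^ m) ^ (r - (1 + ν + m / Q))) ∧
    g' m r i r' ≤ ENNReal.ofReal (2 * exp (-μ * (((m : ℝ) + i + 2) / 64 - A * ν))) ∧
    g' m r i r' ≤ ENNReal.ofReal
      (2 * D * (1 - (p * exp lam / Zf D lam) ^ (i + 1)) ^ (r' - (1 + ν + (m + i + 1) / Q)))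

/-- moments and tails of two arrays -/
def MomB (D K R : ℕ) (α C₀ C M μ : ℝ) (ν : ℕ) (g : ℕ → ℕ → ℝ≥0∞)
    (g' : ℕ → ℕ → ℕ → ℕ → ℝ≥0∞) : Prop :=
  ∑' q : ℕ × ℕ, ENNReal.ofReal ((NN D q.1 q.2 : ℝ) ^ K * C₀ ^ q.1) * g q.1 q.2 ^ α ≤
    ENNReal.ofReal (C ^ (ν + 1)) ∧
  ∑' q : (ℕ × ℕ) × ℕ × ℕ,
    ENNReal.ofReal (((NN D q.1.1 q.1.2 : ℝ) * NN D (q.2.1 + 1) q.2.2) ^ K * C₀ ^ q.1.1) *
      g' q.1.1 q.1.2 q.2.1 q.2.2 ^ α ≤ ENNReal.ofReal (C ^ (ν + 1)) ∧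
  (ν = 0 →
    ∑' q : ℕ × ℕ, (if R < q.1 ∨ R < q.2 then
      ENNReal.ofReal ((NN D q.1 q.2 : ℝ) ^ K) * g q.1 q.2 ^ α else 0) ≤
        ENNReal.ofReal (exp (-M * μ)) ∧
    ∑' q : (ℕ × ℕ) × ℕ × ℕ, (if R < q.1.1 ∨ R < q.1.2 ∨ R < q.2.1 ∨ R < q.2.2 then
      ENNReal.ofReal (((NN D q.1.1 q.1.2 : ℝ) * NN D (q.2.1 + 1) q.2.2) ^ K) *
        g' q.1.1 q.1.2 q.2.1 q.2.2 ^ α else 0) ≤ ENNReal.ofReal (exp (-M * μ)))

end Pool.Agent.MP_8c549f_pr

/-!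
Statements of the modules of the second part.
-/

set_option autoImplicit false

namespace Pool.Agent.MP_8c549f_pr

open MeasureTheory Filter Topology Real
open scoped ENNReal NNReal

/-! ### analysis -/

def SCHWStmt : Prop := ∀ (g : ℝ → ℝ) (α β δ : ℝ), 0 < δ → ContinuousOn g (Set.Icc α β) →
  (∀ x t, 0 ≤ t → t ≤ δ → α ≤ x - t → x + t ≤ β → 2 * g x ≤ g (x + t) + g (x - t)) →
    ConvexOn ℝ (Set.Icc α β) g

def LIP2Stmt : Prop := ∀ (ι : Type) (f : ι → ℝ → ℝ≥0∞) (K : ι → ℝ) (α β M : ℝ), 0 ≤ M →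
  (∀ i, 1 ≤ K i) → (∀ i, Tame (K i) (f i)) →
  (∀ x ∈ Set.Icc α β, ∑' i, ENNReal.ofReal (K i ^ 2) * f i x ≤ ENNReal.ofReal M) →
    (∀ x ∈ Set.Icc α β, ∑' i, f i x ≤ ENNReal.ofReal M) ∧
      Ctl (fun x => (∑' i, f i x).toReal) α β (4 * M)

def CH4Stmt : Prop := ∀ (D : ℕ) (σ : Type) [DecidableEq σ] (δ : σ → Step D → σ) (S : Finset σ)
  (o : σ → Step D → Bool) (k : σ → Step D → ℝ) (c r : σ → Step D → ℝ≥0)
  (P : ℝ → σ → Step D → ℝ), (∀ z s, |k z s| ≤ 1) →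
    (∀ x z s, P x z s = if o z s = true then
      exp (x * k z s) / ∑ s', (if o z s' = true then exp (x * k z s') else 0) else 0) →
    ∀ z, Tame (2 * S.card) (fun x => CU δ S (P x) r z) ∧
      Tame (4 * S.card + 2) (fun x => CT δ S (P x) c r z)

/-- comparison of a sum of expectations with a sum of reference values -/
def ABSStmt : Prop := ∀ (D : ℕ) (ι : Type) [Countable ι] [DecidableEq ι] (P : Measure (Cfg D))
  [IsProbabilityMeasure P] (F : ι → ℝ → Cfg D → ℝ≥0∞) (F₀ : ι → ℝ → ℝ≥0∞) (K : ι → ℝ)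
  (I : Finset ι) (O G : ι → Set (Cfg D)) (α β C M τ θ : ℝ), 0 ≤ C → 0 ≤ M → 0 ≤ τ → 0 ≤ θ →
    (∀ q, 1 ≤ K q) → (∀ q ω, Tame (K q) fun x => F q x ω) → (∀ q, Tame (K q) (F₀ q)) →
    (∀ q x, Measurable (F q x)) → (∀ q, MeasurableSet (O q) ∧ MeasurableSet (G q)) →
    (∀ q ∈ I, P (O q)ᶜ ≤ ENNReal.ofReal θ ∧ O q ⊆ G q ∧ (∀ ω ∈ O q, ∀ x, F q x ω = F₀ q x) ∧
      (∀ ω ∈ G q, (∀ x ∈ Set.Icc α β, F q x ω ≤ ENNReal.ofReal C) ∧
        Ctl (fun x => (F q x ω).toReal) α β M) ∧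
      (∀ x ∈ Set.Icc α β, F₀ q x ≤ ENNReal.ofReal C) ∧ Ctl (fun x => (F₀ q x).toReal) α β M) →
    (∀ x ∈ Set.Icc α β, ∑' q, ENNReal.ofReal (K q ^ 2) *
      ∫⁻ ω in (if q ∈ I then (G q)ᶜ else Set.univ), F q x ω ∂P ≤ ENNReal.ofReal τ) →
    (∀ x ∈ Set.Icc α β, ∑' q, (if q ∈ I then 0 else ENNReal.ofReal (K q ^ 2) * F₀ q x) ≤
      ENNReal.ofReal τ) →
    (∀ x ∈ Set.Icc α β, ∑' q, ∫⁻ ω, F q x ω ∂P ≠ ∞ ∧ ∑' q, F₀ q x ≠ ∞ ∧
      (∑' q, F₀ q x).toReal ≤ I.card * C + τ ∧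
      |(∑' q, ∫⁻ ω, F q x ω ∂P).toReal - (∑' q, F₀ q x).toReal| ≤ 2 * I.card * C * θ + 2 * τ) ∧
    Ctl (fun x => (∑' q, ∫⁻ ω, F q x ω ∂P).toReal - (∑' q, F₀ q x).toReal) α β
      (2 * I.card * M * θ + 8 * τ) ∧
    Ctl (fun x => (∑' q, F₀ q x).toReal) α β (I.card * M + 4 * τ)

/-! ### complements to the first part -/

def SYMStmt : Prop := ∀ (D : ℕ) (lam : ℝ) (ω : Cfg D) (B : Finset (V D)) (x y : V D),
  ENNReal.ofReal (exp (2 * lam * x 0) * Zq lam ω x) * Gb lam ω B x y =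
    ENNReal.ofReal (exp (2 * lam * y 0) * Zq lam ω y) * Gb lam ω B y x

def RESLStmt : Prop := ∀ (D : ℕ) (lam : ℝ), 0 ≤ lam → ∀ (ω : Cfg D) (B : Finset (V D)) (x y : V D)
  (s : Step D) (t : ℤ) (l : List (Step D)), x + pos l ∉ B →
    (∀ (i : ℕ) (h : i < l.length),
      ω (edge (x + loc l i) l[i]) = true ∧ t ≤ expo (x + loc l i) l[i]) →
    Gb lam ω B x y * ENNReal.ofReal (pr lam ω y s) ≤
      ENNReal.ofReal ((l.length : ℝ) ^ 2 * exp (lam * ((expo y s - t : ℤ) : ℝ)))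

def FILL2Stmt : Prop := ∀ (D : ℕ), 1 ≤ D → ∀ (ω : Cfg D) (b : V D), (Up ω (b 0) b).Finite →
  ∃ S : Finset (V D), Shape b S ∧ Up ω (b 0) b ⊆ (S : Set (V D)) ∧
    ∀ x ∈ S, ∀ s, x + vec s ∉ S → x ∈ Up ω (b 0) b

def GEO2Stmt : Prop := ∀ (D : ℕ) (ω : Cfg D) (B : Finset (V D)) (x : V D) (t₀ t i : ℤ),
  Esc ω B x t₀ → ¬ Esc ω B x t → i ≤ x 0 → t ≤ 2 * i →
    Up ω i x ⊆ (B : Set (V D)) ∧ ∃ b ∈ Up ω i x, b 0 = i ∧ ω (edge b (bck D)) = true

/-! ### pieces with counted steps -/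

def PEStmt : Prop := ∀ (D : ℕ) (ω : Cfg D) (c : V D → Step D → Prop) (m r : ℕ) (y : V D),
  Tame (10 * NN D m r) (fun x => C1y x ω c m r y) ∧ Tame (10 * NN D m r) (fun x => U1y x ω m r y) ∧
  (∀ lam, 0 ≤ lam → ∀ j : ℕ, GoodC ω (Box D m r) c j → C1y lam ω c m r y ≤
    ENNReal.ofReal ((6 * D + 6) * (NN D m r : ℝ) ^ 3 * exp (lam * j)) * U1y lam ω m r y) ∧
  (ω (edge 0 (bck D)) = true → (∀ lam, 0 ≤ lam → C1y lam ω c m r y ≠ ∞) ∧
    IsRat (fun x => (C1y x ω c m r y).toReal) ∧ IsRat (fun x => (U1y x ω m r y).toReal))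

def RQStmt : Prop := ∀ (D : ℕ) (ω : Cfg D) (y : V D) (i r : ℕ),
  Tame (10 * NN D (i + 1) r) (fun x => Rq x ω y i r) ∧ (∀ lam, Rq lam ω y i r ≤ 1) ∧
  (ω (edge y (bck D)) = true → IsRat fun x => (Rq x ω y i r).toReal)

def PTStmt : Prop := ∀ (D : ℕ) (ω : Cfg D) (c : V D → Step D → Prop) (m r i r' : ℕ),
  Tame (10 * NN D m r) (fun x => C1 x ω c m r) ∧ Tame (10 * NN D m r) (fun x => Uq x ω m r) ∧
  Tame (10 * (NN D m r + NN D (i + 1) r')) (fun x => C2 x ω c m r i r') ∧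
  Tame (10 * (NN D m r + NN D (i + 1) r')) (fun x => U2 x ω m r i r')

def PBStmt : Prop := ∀ (D : ℕ) (lam : ℝ), 0 ≤ lam → ∀ (ω : Cfg D) (c : V D → Step D → Prop)
  (m r i r' j : ℕ), GoodC ω (Box D m r) c j →
    C1 lam ω c m r ≤ ENNReal.ofReal ((6 * D + 6) * (NN D m r : ℝ) ^ 3 * exp (lam * j)) *
      Uq lam ω m r ∧
    C2 lam ω c m r i r' ≤ ENNReal.ofReal ((6 * D + 6) * (NN D m r : ℝ) ^ 3 * exp (lam * j)) *
      U2 lam ω m r i r'

def PRStmt : Prop := ∀ (D : ℕ) (ω : Cfg D), ω (edge 0 (bck D)) = true →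
  ∀ (c : V D → Step D → Prop) (m r i r' : ℕ), (∀ lam, 0 ≤ lam → C1 lam ω c m r ≠ ∞) ∧
    IsRat (fun x => (C1 x ω c m r).toReal) ∧ IsRat (fun x => (C2 x ω c m r i r').toReal) ∧
    IsRat (fun x => (U2 x ω m r i r').toReal)

def PDStmt : Prop := ∀ (D m r i r' : ℕ) (lam : ℝ),
  (∀ (ω ω' : Cfg D) (c c' : V D → Step D → Prop),
    (∀ e ∈ near (Box D (m + i + 1) (r + r')), ω e = ω' e) →
    (∀ x ∈ Box D m r, ∀ s, c x s ↔ c' x s) →
      C1 lam ω c m r = C1 lam ω' c' m r ∧ C2 lam ω c m r i r' = C2 lam ω' c' m r i r' ∧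
      U2 lam ω m r i r' = U2 lam ω' m r i r' ∧
      ∀ j, (GoodC ω (Box D m r) c j ↔ GoodC ω' (Box D m r) c' j)) ∧
  ∀ (ω : Cfg D) (c : V D → Step D → Prop),
    C2 lam ω c m r i r' ≤ C1 lam ω c m r ∧ U2 lam ω m r i r' ≤ Uq lam ω m r ∧
    m * Uq lam ω m r ≤ C1 lam ω (fun _ _ => True) m r ∧
    GoodC ω (Box D m r) c (2 * m) ∧ GoodC (allOpen D) (Box D m r) c 0 ∧
    (∀ j, GoodC ω (Box D m r) c j → GoodC ω (Box D m r) c (j + 1)) ∧
    ((∀ x ∈ Box D m r, ∀ s, ¬ c x s) → C1 lam ω c m r = 0)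

def P6Stmt : Prop := ∀ (D m r i r' : ℕ), ∃ C : ℝ, 0 ≤ C ∧ ∀ ω : Cfg D,
  ω (edge 0 (bck D)) = true → ∀ α β : ℝ, 0 ≤ α →
    Ctl (fun x => (Uq x ω m r).toReal) α β (C * exp (-α)) ∧
    Ctl (fun x => (U2 x ω m r i r').toReal) α β (C * exp (-α)) ∧
    ∀ c : V D → Step D → Prop, GoodC ω (Box D m r) c 0 →
      (∀ x, 0 ≤ x → C1 x ω c m r ≤ ENNReal.ofReal C) ∧
      Ctl (fun x => (C1 x ω c m r).toReal) α β (C * exp (-α)) ∧
      Ctl (fun x => (C2 x ω c m r i r').toReal) α β (C * exp (-α)) ∧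
      ∀ u ∈ Box D m r, (∀ x, 0 ≤ x → 1 ≤ Zq x ω u) →
        Ctl (fun x => (ENNReal.ofReal (1 / Zq x ω u) * C1 x ω c m r).toReal) α β (C * exp (-α))

/-- expansion of the escape probability -/
def EXPStmt : Prop := ∀ (D : ℕ) (lam : ℝ) (ω : Cfg D), Nice lam ω → ∀ c : V D → Step D → Prop,
  CE lam ω c + ∑' q : (ℕ × ℕ) × ℕ × ℕ, C2 lam ω c q.1.1 q.1.2 q.2.1 q.2.2 =
    ∑' q : ℕ × ℕ, C1 lam ω c q.1 q.2 ∧
  HE lam ω + ∑' q : (ℕ × ℕ) × ℕ × ℕ, q.1.1 * U2 lam ω q.1.1 q.1.2 q.2.1 q.2.2 =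
    ∑' q : ℕ × ℕ, q.1 * Uq lam ω q.1 q.2

/-! ### almost sure properties -/

def NICEStmt : Prop := ∀ (D : ℕ), 1 ≤ D → ∀ a : ℝ, 0 < a → ∃ e₀ : ℝ, 0 < e₀ ∧
  ∀ p lam, 1 - e₀ ≤ p → p ≤ 1 → a ≤ lam → (∀ᵐ ω ∂perc D p, Nice lam (plus ω)) ∧
    (p < 1 → (∀ᵐ ω ∂perc D p, ∀ u, Nice lam (shut (plus ω) (edge u (fwd D)))) ∧
      ∀ S : Finset (V D), ∀ᵐ ω ∂perc D p, Nice lam (plus (clo S ω)))

def QRStmt : Prop := ∀ (D : ℕ) (p lam : ℝ), 0 ≤ p → p ≤ 1 →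
  AA D p lam * q1 D p lam = AT D p lam ∧ BB D p lam * q1 D p lam = BT D p lam ∧ q1 D p lam ≤ 1 ∧
    ((∀ᵐ ω ∂perc D p, Nice lam (plus ω)) → 1 ≤ q1 D p lam + ∑' i, Ret D p lam i)

def MEASStmt : Prop := ∀ (D : ℕ) (lam : ℝ),
  (∀ (i : ℤ) (x y : V D), MeasurableSet {ω : Cfg D | y ∈ Up ω i x}) ∧
  (∀ u : V D, MeasurableSet {ω : Cfg D | Root ω u} ∧ MeasurableSet {ω : Cfg D | Und ω u}) ∧
  (∀ (u x : V D) (s : Step D), MeasurableSet {ω : Cfg D | Reg ω x s} ∧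
    MeasurableSet {ω : Cfg D | InB ω u x s}) ∧
  (∀ (g : ℤ → ℝ≥0∞) (u : V D), Measurable fun ω : Cfg D => pih g ω u) ∧
  (∀ (x : V D) (i r : ℕ), (Measurable fun ω : Cfg D => qr lam ω x) ∧
    Measurable fun ω : Cfg D => Rq lam ω x i r) ∧
  (∀ u : V D, (Measurable fun ω : Cfg D => Zq lam ω u) ∧ Measurable fun ω : Cfg D => Th lam ω u) ∧
  Measurable (fun ω : Cfg D => HE lam ω) ∧
  (∀ m r i r', (Measurable fun ω : Cfg D => Uq lam ω m r) ∧
    Measurable fun ω : Cfg D => U2 lam ω m r i r') ∧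
  ∀ c : Cfg D → V D → Step D → Prop, (∀ x s, MeasurableSet {ω | c ω x s}) →
    (Measurable fun ω => CE lam ω (c ω)) ∧ ∀ m r i r' j,
      (Measurable fun ω => C1 lam ω (c ω) m r) ∧ (Measurable fun ω => C2 lam ω (c ω) m r i r') ∧
      MeasurableSet {ω | GoodC ω (Box D m r) (c ω) j}

/-! ### bushes -/

open Classical in
def RT1Stmt : Prop := ∀ (D : ℕ) (ω : Cfg D) (l : List (Step D)), Stay l →
  (l.length : ℝ≥0∞) = nst (Reg ω) 0 l +
    ∑' u : V D, if 0 ≤ u 0 ∧ Root ω u ∧ ¬ Und ω u then (nst (InB ω u) 0 l : ℝ≥0∞) else 0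

open Classical in
def RT2Stmt : Prop := ∀ (D : ℕ), 1 ≤ D → ∀ u : V D,
  (∀ ω, Root ω u → ∃ S, RootS ω u (tr u S)) ∧
  (∀ ω S S', RootS ω u (tr u S) → RootS ω u (tr u S') → S = S') ∧
  (∀ S, Dep (fun ω => RootS ω u S) (near S : Set (Edge D))) ∧
  (∀ S g, Dep (fun ω => if RootS ω u S then pih g ω u else 0) (near S : Set (Edge D))) ∧
  (∀ ω S, RootS ω u (tr u S) ↔ RootS (shift u ω) 0 S) ∧
  (∀ ω g, pih g ω u = pih g (shift u ω) 0) ∧
  ∀ ω S (h : ℕ), RootS ω u (tr u S) → (ht (e0 D) S ≤ h ↔ ∀ z ∈ Bush ω u, z 0 ≤ u 0 + h)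

def RT3Stmt : Prop := ∀ (D : ℕ) (lam : ℝ) (ω : Cfg D) (u : V D) (S : Finset (V D)), 0 ≤ u 0 →
  (RootS (plus ω) u S ↔ RootS ω u S) ∧ (∀ g, pih g (plus ω) u = pih g ω u) ∧
  (RootS ω u S → (Und (plus ω) u ↔ Und (plus (clo S ω)) u) ∧
    Th lam (shut (plus ω) (edge u (fwd D))) u = Th lam (plus (clo S ω)) u)

def EXCStmt : Prop := ∀ (D : ℕ) (lam : ℝ), 0 ≤ lam → ∀ (ω : Cfg D) (u : V D), Root ω u →
  SS (ExcSet ω u) (W lam ω (u + e0 D)) = 1 ∧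
  ENNReal.ofReal (pr lam ω u (fwd D)) *
      SS (ExcSet ω u) (fun l => (l.length + 1) * W lam ω (u + e0 D) l) =
    ENNReal.ofReal (1 / Zq lam ω u) * pih (gk 0 lam) ω u ∧ pih (gk 0 lam) ω u ≠ ∞

def TRAStmt : Prop := ∀ (D : ℕ) (lam : ℝ), 0 ≤ lam → ∀ (ω : Cfg D) (u : V D)
  (A : Set (List (Step D))), Root ω u → (0 : V D) ∉ Bush ω u →
    0 < Zq lam (shut ω (edge u (fwd D))) u → Antich A →
    (∀ l₁ l₂ e, pos l₁ = u → e ∈ ExcSet ω u → (l₁ ++ fwd D :: e ++ l₂ ∈ A ↔ l₁ ++ l₂ ∈ A)) →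
    (∀ l ∈ A, pos l ∉ Bush ω u ∧ pos l ≠ u) →
    SS A (fun l => nst (InB ω u) 0 l * W lam ω 0 l) =
      pih (gk 0 lam) ω u * (ENNReal.ofReal (1 / Zq lam (shut ω (edge u (fwd D))) u) *
        SS A fun l => nst (fun x _ => x = u) 0 l * W lam (shut ω (edge u (fwd D))) 0 l)

def LIMStmt : Prop := ∀ (D : ℕ) (lam : ℝ), 0 ≤ lam → ∀ (ω : Cfg D) (c : V D → Step D → Prop)
  (T : Finset (V D)) (a n₀ : ℤ), ω (edge 0 (bck D)) = true → Nice lam ω →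
    (∀ x s, c x s → x ∈ T ∧ a ≤ x 0) →
    (∀ (y : V D) (l : List (Step D)), a < y 0 → Stay l → W lam ω y l ≠ 0 → n₀ ≤ y 0 + lev l →
      nst c y l = 0) →
    Tendsto (fun n => SS (LSet D a n) fun l => nst c 0 l * W lam ω 0 l) atTop (𝓝 (CE lam ω c))

def TRBStmt : Prop := ∀ (D : ℕ) (lam : ℝ), 0 ≤ lam → ∀ (ω : Cfg D) (u : V D), Root ω u → 0 ≤ u 0 →
  ω (edge 0 (bck D)) = true → Nice lam ω → Nice lam (shut ω (edge u (fwd D))) →
    CE lam ω (InB ω u) = pih (gk 0 lam) ω u * Th lam (shut ω (edge u (fwd D))) u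

def SPLITStmt : Prop := ∀ (D : ℕ), 1 ≤ D → ∃ e₀ : ℝ, 0 < e₀ ∧ ∀ p lam, 1 - e₀ ≤ p → p < 1 →
  1 ≤ lam → AT D p lam = AReg D p lam + ⨆ h, ABu D p lam h

/-! ### geometry of traps next to a closed set -/

def ISO2Stmt : Prop := ∀ (D : ℕ) (b : V D) (S : Finset (V D)) (x y : V D), x ∈ S → y ∈ S →
  x ≠ y → x 0 = y 0 → b 0 ≤ x 0 →
    4 * D ≤ ((bdry b S).filter fun e => e.2 ≠ 0 ∧ e.1 0 = x 0).card + 2

def PROFStmt : Prop := ∀ (D : ℕ), 2 ≤ D → (∀ u : V D, Prof ∅ u fun _ => 0) ∧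
  ∀ S : Finset (V D), Shape (e0 D) S → (∀ Q, 1 ≤ Q → ∃ ν, NuLe Q (exc S) ν) ∧ ∀ u : V D,
    Prof (tr u S) u (fun i => exc S (i - u 0)) ∧ edge u (fwd D) ∈ near (tr u S) ∧
    (0 ≤ u 0 → (0 : V D) ∉ tr u S ∧
      ∀ Q ν, NuLe Q (exc S) ν → NuLe Q (fun i => exc S (i - u 0)) ν)

def KTRAPStmt : Prop := ∀ (D : ℕ), 2 ≤ D → ∃ C : ℝ, 1 ≤ C ∧ ∀ p, p ≤ 1 → C * (1 - p) ≤ 1 / 2 →
  ∀ (S : Finset (V D)) (u : V D) (k : ℤ → ℕ), Prof S u k → ∀ (b : V D) (n h : ℕ),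
    (b ∉ S → perc D p {ω | NTrap (clo S ω) b n h} ≤ ENNReal.ofReal
      (C ^ (1 + ks k (b 0) n) * (C * (1 - p)) ^ (D * (h - ks k (b 0) n)))) ∧
    (b 0 + h ≤ u 0 + 1 → perc D p {ω | WTrap (clo S ω) b n h} ≤ ENNReal.ofReal
      (C ^ (1 + ks k (b 0) n) * (C * (1 - p)) ^ ((2 * D + 2) * h)))

def WGEOStmt : Prop := ∀ (D : ℕ) (ω : Cfg D) (m r j : ℕ),
  (¬ GoodC ω (Box D m r) (Reg ω) j → ∃ b ∈ Box D m r, Trap ω b (j + 1) ∧
    ∃ n h : ℕ, b 0 + n = m ∧ j + 1 ≤ 2 * h ∧ WTrap ω b n h) ∧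
  ∀ u : V D, 0 ≤ u 0 → ω (edge u (fwd D)) = false → ¬ Und ω u →
    (¬ GoodC ω (Box D m r) (fun x _ => x = u) j → ∃ b ∈ Box D m r,
      ∃ n h : ℕ, b 0 + n = m ∧ j + 1 ≤ 2 * h ∧ b 0 + h ≤ u 0 + 1 ∧ WTrap ω b n h) ∧
    ∀ lam, C1 lam ω (fun x _ => x = u) m r ≠ 0 → ∀ x, 1 ≤ Zq x ω u

/-! ### the walk outside a closed set -/

def KFACStmt : Prop := ∀ (D : ℕ) (p lam : ℝ), 0 ≤ p → p ≤ 1 → ∀ (S : Finset (V D)) (x : V D),
  (∀ l₁ l₂ : List (Step D), Cand l₁ l₁.length → (∀ i < l₂.length, 0 ≤ H l₂ i) →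
    wk S p lam x (l₁ ++ l₂) = wk S p lam x l₁ * wk S p lam (x + pos l₁) l₂) ∧
  (∀ (l₁ : List (Step D)) (s : Step D), Rec l₁ →
    wk S p lam x (l₁ ++ [s]) = wk S p lam x l₁ * wk S p lam (x + pos l₁) [s]) ∧
  (∀ l₁ l₂ : List (Step D), (∀ i < l₁.length, ∀ k ≤ l₂.length, loc l₁ i ≠ pos l₁ + loc l₂ k) →
    (∀ k ≤ l₂.length, x + pos l₁ + loc l₂ k ∉ S) →
    wk S p lam x l₁ * (ENNReal.ofReal (p ^ l₂.length) * Wf lam l₂) ≤ wk S p lam x (l₁ ++ l₂)) ∧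
  (∀ l : List (Step D), x ∉ S → 0 ≤ lev l → wk S p lam x l ≠ 0 → x + pos l ∉ S) ∧
  ∑ s : Step D, wk S p lam x [s] = 1 ∧
  (∀ (u : List (Step D)) (T : Set (List (Step D))), Antich T →
    SS T (fun t => wk S p lam x (u ++ t)) ≤ wk S p lam x u) ∧
  (∀ L P : Set (List (Step D)), Antich L → (∀ l ∈ L, ∃ u ∈ P, u <+: l) →
    SS L (wk S p lam x) ≤ SS P (wk S p lam x)) ∧
  wk S p lam x [] = 1 ∧
  (∀ m r, g1 S p lam m r = SS {l | Piece m r l} (wk S p lam 0)) ∧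
  ∀ m r i r', g2 S p lam m r i r' = SS {l | Piece m r l} fun l =>
    wk S p lam 0 l * SS {t | t ∈ RetSet D i ∧ ext t = r'} (wk S p lam (pos l))

def KLATStmt : Prop := ∀ (D : ℕ), 1 ≤ D → ∀ p lam, 0 ≤ p → p ≤ 1 → ∀ (S : Finset (V D)) (u : V D)
  (k : ℤ → ℕ), Prof S u k → ∀ x ∉ S, ∀ h J : ℕ, LatK S p lam x h J ≤ ENNReal.ofReal
    (2 * D * (1 - (p * exp lam / Zf D lam) ^ (h + 1)) ^ (J - (1 + ks k (x 0) (h + 1))))

def KRETStmt : Prop := ∀ (D : ℕ), 2 ≤ D → ∃ A μ₀ : ℝ, 1 ≤ A ∧ 1 ≤ μ₀ ∧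
  ∀ (p lam μ : ℝ) (S : Finset (V D)) (u : V D) (k : ℤ → ℕ), μ₀ ≤ μ → KH p lam μ S u k →
    ∀ x ∉ S, ∀ i : ℕ, RetK S p lam x i ≤
      ENNReal.ofReal (exp (-μ * ((i + 1) / 8 - A * ks k (x 0) (i + 1))))

def KRECStmt : Prop := ∀ (D : ℕ) (p lam : ℝ), 0 ≤ p → p ≤ 1 → ∀ (S : Finset (V D)), (0 : V D) ∉ S →
  ∀ (a : ℕ → ℝ≥0∞) (ρ : ℕ → ℕ → ℝ≥0∞),
    (∀ (m : ℕ) (x : V D), x ∉ S → x 0 = m → (m = 0 → x = 0) →
      ∑ s ∈ Finset.univ.erase (fwd D), wk S p lam x [s] ≤ a m) →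
    (∀ (m i : ℕ) (x : V D), x ∉ S → x 0 = m → RetK S p lam x i ≤ ρ m i) →
    aK S p lam 0 ≤ 1 ∧
    (∀ m, aK S p lam (m + 1) ≤ a m * aK S p lam m +
      ∑ M ∈ Finset.range m, aK S p lam M * ρ (M + 1) (m - 1 - M)) ∧
    ∀ m : ℕ, SS {l : List (Step D) | Block l ∧ lev l = (m + 1 : ℕ)} (wk S p lam 0) ≤ aK S p lam m

def KPTStmt : Prop := ∀ (D : ℕ), 2 ≤ D → ∃ (Q : ℕ) (A μ₀ : ℝ), 4 ≤ Q ∧ 0 ≤ A ∧ 1 ≤ μ₀ ∧
  ∀ (p lam μ : ℝ) (S : Finset (V D)) (u : V D) (k : ℤ → ℕ) (ν : ℕ), μ₀ ≤ μ → KH p lam μ S u k →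
    (0 : V D) ∉ S → NuLe Q k ν → PtB D Q A p lam μ ν (g1 S p lam) (g2 S p lam) ∧
      (u ≠ 0 → ν = 0 → ∀ r, g1 S p lam 2 r ≤ ENNReal.ofReal (exp (-μ / 64)))

def KMOMStmt : Prop := ∀ (D Q K : ℕ) (A α C₀ M : ℝ), 1 ≤ D → 1 ≤ Q → 0 ≤ A → 0 < α → α ≤ 1 →
  1 ≤ C₀ → ∃ (R : ℕ) (C μ₁ : ℝ), 1 ≤ C ∧ ∀ (p lam μ : ℝ) (ν : ℕ) (g : ℕ → ℕ → ℝ≥0∞)
    (g' : ℕ → ℕ → ℕ → ℕ → ℝ≥0∞), μ₁ ≤ μ → p ≤ 1 → 1 - p ≤ exp (-μ) → μ ≤ lam →
      PtB D Q A p lam μ ν g g' → MomB D K R α C₀ C M μ ν g g'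

def KAStmt : Prop := ∀ (D : ℕ), 1 ≤ D → ∃ e₀ : ℝ, 0 < e₀ ∧ ∀ p, 1 - e₀ ≤ p → p < 1 →
  ∀ S : Finset (V D),
    (∀ lam, 1 ≤ lam → PhiS p lam S + ∑' q : V D × (ℕ × ℕ) × ℕ × ℕ,
        T2 p lam (tr q.1 S) q.1 q.2.1.1 q.2.1.2 q.2.2.1 q.2.2.2 =
      ∑' q : V D × ℕ × ℕ, T1 p lam (tr q.1 S) q.1 q.2.1 q.2.2) ∧
    ∀ (u : V D) (m r i r' : ℕ), Tame (10 * NN D m r + 1) (fun x => T1 p x S u m r) ∧
      Tame (10 * (NN D m r + NN D (i + 1) r') + 1) (fun x => T2 p x S u m r i r') ∧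
      (u ∉ Box D m r → ∀ x, T1 p x S u m r = 0 ∧ T2 p x S u m r i r' = 0)

def KBStmt : Prop := ∀ (D : ℕ), 2 ≤ D → ∃ C e₀ : ℝ, 1 ≤ C ∧ 0 < e₀ ∧ ∀ p lam, 1 - e₀ ≤ p → p ≤ 1 →
  0 ≤ lam → (1 - p) ^ D * exp lam ≤ 2 → ∀ (S : Finset (V D)) (u : V D) (k : ℤ → ℕ), Prof S u k →
    edge u (fwd D) ∈ near S → ∀ m r i r' : ℕ,
      T1 p lam S u m r ≤ ENNReal.ofReal (C * (NN D m r : ℝ) ^ 4) * (g1 S p lam m r +
        ENNReal.ofReal ((1 - p) * C ^ ks k 0 m) * g1 S p lam m r ^ (1 / (2 * D + 2) : ℝ)) ∧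
      T2 p lam S u m r i r' ≤ ENNReal.ofReal (C * (NN D m r : ℝ) ^ 4) * (g2 S p lam m r i r' +
        ENNReal.ofReal ((1 - p) * C ^ ks k 0 m) * g2 S p lam m r i r' ^ (1 / (2 * D + 2) : ℝ))

/-- the main term for a bush that starts as a straight tube -/
def KCStmt : Prop := ∀ (D : ℕ), 2 ≤ D → ∃ c : ℝ, 0 < c ∧ ∀ ζ : ℝ, 0 < ζ → ∃ e₀ : ℝ, 0 < e₀ ∧
  ∀ p α β, 1 - e₀ ≤ p → Win D p α β → ∀ S : Finset (V D), Shape (e0 D) S →
    exc S 0 = 0 → exc S 1 = 0 → exc S 2 = 0 →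
      (∀ x ∈ Set.Icc α β, ENNReal.ofReal c ≤ T1 p x S 0 2 1 ∧ T1 p x S 0 1 0 = 0 ∧
        T1 p x S 0 2 0 = 0) ∧ Ctl (fun x => (T1 p x S 0 2 1).toReal) α β ζ

def KOUTStmt : Prop := ∀ (D : ℕ), 2 ≤ D → ∃ (Q : ℕ) (c C : ℝ), 1 ≤ Q ∧ 0 < c ∧ 1 ≤ C ∧
  ∀ ζ : ℝ, 0 < ζ → ∃ e₀ : ℝ, 0 < e₀ ∧ ∀ p α β, 1 - e₀ ≤ p → Win D p α β →
    ∀ S : Finset (V D), Shape (e0 D) S → ∀ ν, NuLe Q (exc S) ν →
      (∀ x ∈ Set.Icc α β, PhiS p x S ≤ ENNReal.ofReal (C ^ (ν + 1))) ∧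
      Ctl (fun x => (PhiS p x S).toReal) α β (C ^ (ν + 1)) ∧
      (ν = 0 → (∀ x ∈ Set.Icc α β, ENNReal.ofReal c ≤ PhiS p x S) ∧
        Ctl (fun x => (PhiS p x S).toReal) α β ζ)

/-! ### mass of the irregular bushes -/

def CUTStmt : Prop := ∀ (D : ℕ), 2 ≤ D → ∀ (Q ν : ℕ), 1 ≤ Q → ∀ (ω : Cfg D) (S : Finset (V D)),
  RootS ω 0 S → ¬ NuLe Q (exc S) ν → ∃ (T : Finset (V D)) (n e : ℕ), Shape (e0 D) T ∧
    ν + 1 ≤ e ∧ 1 ≤ n ∧ n ≤ (Q + 2) * e ∧ (∀ x ∈ T, x 0 ≤ n) ∧ T.card ≤ n * (e + 1) ∧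
    (bdry (e0 D) T).card ≤ 2 * D * n + e + 1 ∧
    ((∃ u ∈ T, u 0 = n ∧ Root ω u ∧ Bush ω 0 ⊆ (T : Set (V D)) ∪ Bush ω u ∧ Bush ω u ⊆ Bush ω 0 ∧
        (∀ x ∈ T, x 0 = n → x = u) ∧
        (∀ f ∈ ((shell T).erase (edge 0 (fwd D))).erase (edge u (fwd D)), ω f = false) ∧
        2 * D * n + e ≤ (((shell T).erase (edge 0 (fwd D))).erase (edge u (fwd D))).card) ∨
      (Bush ω 0 ⊆ (T : Set (V D)) ∧ (∀ f ∈ (shell T).erase (edge 0 (fwd D)), ω f = false) ∧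
        2 * D * n + e + 1 ≤ ((shell T).erase (edge 0 (fwd D))).card ∧
        ((∀ x ∈ T, ∀ y ∈ T, x 0 = n → y 0 = n → x = y) ∨ 2 * D ≤ e + 1)))

def PISStmt : Prop := ∀ (D : ℕ) (p : ℝ) (S : Finset (V D)) (g g' : ℤ → ℝ≥0∞),
  piS (fun m => g m + g' m) p S = piS g p S + piS g' p S ∧
  (∀ c : ℝ≥0∞, piS (fun m => c * g m) p S = c * piS g p S) ∧
  (∀ h : ℕ, ht (e0 D) S ≤ h → (∀ m : ℤ, 1 ≤ m → m ≤ 2 * h + 1 → g m ≤ g' m) →
    piS g p S ≤ piS g' p S) ∧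
  (¬ Shape (e0 D) S → piS g p S = 0)

def MBEStmt : Prop := ∀ (D : ℕ), 1 ≤ D → ∀ p, 0 ≤ p → p ≤ 1 → ∀ (g : ℤ → ℝ≥0∞) (u : V D) (h : ℕ),
  ∫⁻ ω in {ω | Root ω u ∧ ∀ z ∈ Bush ω u, z 0 ≤ u 0 + h}, pih g ω u ∂perc D p = MB D g p h

def MFINStmt : Prop := ∀ (D : ℕ), 1 ≤ D → ∃ e₀ : ℝ, 0 < e₀ ∧ ∀ p lam, 1 - e₀ ≤ p → p ≤ 1 →
  0 ≤ lam → ∀ k h : ℕ, MB D (gk k lam) p h ≠ ∞

def NASTStmt : Prop := ∀ (D : ℕ), 2 ≤ D → ∀ Q : ℕ, 1 ≤ Q → ∃ C e₀ : ℝ, 1 ≤ C ∧ 0 < e₀ ∧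
  ∀ p lam, 1 - e₀ ≤ p → p ≤ 1 → 0 ≤ lam → (1 - p) ^ D * exp lam ≤ 2 → ∀ k ≤ 2, ∀ h ν : ℕ,
    MBad D (gk k lam) p h Q ν ≤ ENNReal.ofReal ((C * √(1 - p)) ^ (ν + 1)) *
      (MB D (gk k lam) p h + ENNReal.ofReal (exp (-lam)))

/-! ### the window -/

def BUSHStmt : Prop := ∀ (D : ℕ), 2 ≤ D → ∃ c : ℝ, 0 < c ∧ ∀ ζ : ℝ, 0 < ζ → ∃ e₀ : ℝ, 0 < e₀ ∧
  ∀ p α β, 1 - e₀ ≤ p → Win D p α β → ∀ h : ℕ,
    (∀ x ∈ Set.Icc α β, ABu D p x h ≠ ∞) ∧
    ContinuousOn (fun x => (ABu D p x h).toReal) (Set.Icc α β) ∧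
    (∃ δ : ℝ, 0 < δ ∧ ∀ x t, 0 ≤ t → t ≤ δ → α ≤ x - t → x + t ≤ β →
      2 * (ABu D p x h).toReal ≤ (ABu D p (x + t) h).toReal + (ABu D p (x - t) h).toReal +
        ζ * exp (-α) * t ^ 2) ∧
    ∀ x y, α ≤ x → x ≤ y → y ≤ β →
      (y - x) * (c * (ABu D p x h).toReal - ζ * exp (-α)) ≤
        (ABu D p y h).toReal - (ABu D p x h).toReal

def TS2Stmt : Prop := ∀ (D : ℕ), 2 ≤ D → ∀ (K : ℕ) (ζ : ℝ), 0 < ζ → ∃ e₀ : ℝ, 0 < e₀ ∧
  ∀ p lam, 1 - e₀ ≤ p → p < 1 → 1 / 2 ≤ (1 - p) ^ D * exp lam → (1 - p) ^ D * exp lam ≤ 2 →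
    ∑' q : ℕ × ℕ, (NN D q.1 q.2 : ℝ≥0∞) ^ K *
      ∫⁻ ω in {ω | ¬ GoodC (plus ω) (Box D q.1 q.2) (Reg (plus ω)) 0},
        C1 lam (plus ω) (Reg (plus ω)) q.1 q.2 ∂perc D p ≤ ENNReal.ofReal (ζ * exp (-lam)) ∧
    ∑' q : (ℕ × ℕ) × ℕ × ℕ, ((NN D q.1.1 q.1.2 : ℝ≥0∞) * NN D (q.2.1 + 1) q.2.2) ^ K *
      ∫⁻ ω in {ω | ¬ GoodC (plus ω) (Box D q.1.1 q.1.2) (Reg (plus ω)) 0},
        C2 lam (plus ω) (Reg (plus ω)) q.1.1 q.1.2 q.2.1 q.2.2 ∂perc D p ≤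
      ENNReal.ofReal (ζ * exp (-lam))

def REGAStmt : Prop := ∀ (D : ℕ), 2 ≤ D → ∀ ζ : ℝ, 0 < ζ → ∃ e₀ : ℝ, 0 < e₀ ∧
  ∀ p α β, 1 - e₀ ≤ p → Win D p α β →
    (∀ x ∈ Set.Icc α β, AReg D p x ≠ ∞ ∧ AT D 1 x ≠ ∞ ∧
      |(AReg D p x).toReal - (AT D 1 x).toReal| ≤ ζ) ∧
    Ctl (fun x => (AReg D p x).toReal - (AT D 1 x).toReal) α β (ζ * exp (-α))

def REGBStmt : Prop := ∀ (D : ℕ), 2 ≤ D → ∃ C : ℝ, 1 ≤ C ∧ ∀ ζ : ℝ, 0 < ζ → ∃ e₀ : ℝ, 0 < e₀ ∧
  ∀ p α β, 1 - e₀ ≤ p → Win D p α β →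
    (∀ x ∈ Set.Icc α β, BT D p x ≠ ∞ ∧ BT D 1 x ≠ ∞ ∧ (BT D 1 x).toReal ≤ C ∧
      |(BT D p x).toReal - (BT D 1 x).toReal| ≤ ζ) ∧
    Ctl (fun x => (BT D p x).toReal - (BT D 1 x).toReal) α β (ζ * exp (-α)) ∧
    Ctl (fun x => (BT D 1 x).toReal) α β (C * exp (-α))

def REG0Stmt : Prop := ∀ (D : ℕ), 1 ≤ D → ∃ x₀ : ℝ, ∀ x, x₀ ≤ x → AT D 1 x ≠ ∞ → BT D 1 x ≠ ∞ →
  1 / 2 ≤ (BT D 1 x).toReal ∧
    (AT D 1 x).toReal * (exp x - exp (-x)) = (BT D 1 x).toReal * Zf D x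

/-- real variable form of the last step -/
def QCStmt : Prop := ∀ (D : ℕ), 1 ≤ D → ∀ c C : ℝ, 0 < c → 1 ≤ C → ∃ ζ x₀ : ℝ, 0 < ζ ∧
  ∀ (α β : ℝ) (f : ℕ → ℝ → ℝ) (a b a₀ b₀ : ℝ → ℝ), x₀ ≤ α → β ≤ α + 1 →
    (∀ h, ∀ x ∈ Set.Icc α β, 0 ≤ f h x ∧ f h x ≤ f (h + 1) x) →
    (∀ h, ContinuousOn (f h) (Set.Icc α β)) →
    (∀ h, ∃ δ : ℝ, 0 < δ ∧ ∀ x t, 0 ≤ t → t ≤ δ → α ≤ x - t → x + t ≤ β →
      2 * f h x ≤ f h (x + t) + f h (x - t) + ζ * exp (-α) * t ^ 2) →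
    (∀ h x y, α ≤ x → x ≤ y → y ≤ β → (y - x) * (c * f h x - ζ * exp (-α)) ≤ f h y - f h x) →
    (∀ x ∈ Set.Icc α β, 1 / 2 ≤ b₀ x ∧ b₀ x ≤ C ∧ a₀ x * (exp x - exp (-x)) = b₀ x * Zf D x ∧
      |a x - a₀ x| ≤ ζ ∧ |b x - b₀ x| ≤ ζ) →
    Ctl (fun x => a x - a₀ x) α β (ζ * exp (-α)) → Ctl (fun x => b x - b₀ x) α β (ζ * exp (-α)) →
    Ctl b₀ α β (C * exp (-α)) →
    ∀ x y z κ, α ≤ x → x < y → y < z → z ≤ β → (∀ h, a x + f h x ≤ κ * b x) →
      (∀ h, a z + f h z ≤ κ * b z) → ∀ h, a y + f h y ≤ κ * b y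

def WINStmt : Prop := ∀ (D : ℕ), 2 ≤ D → ∃ e₀ : ℝ, 0 < e₀ ∧ ∀ p α β, 1 - e₀ ≤ p → Win D p α β →
  ∀ x y z, α ≤ x → x < y → y < z → z ≤ β →
    min (BR D p x / AR D p x) (BR D p z / AR D p z) ≤ BR D p y / AR D p y

def UniStmt : Prop := ∀ (D : ℕ), 2 ≤ D → ∀ a : ℝ, 0 < a → ∃ p₀ : ℝ, p₀ < 1 ∧
  ∀ p, p₀ < p → p < 1 → ∀ x y z vx vy vz : ℝ, a ≤ x → x < y → y < z →
    HasSpeed D p x vx → HasSpeed D p y vy → HasSpeed D p z vz → min vx vz ≤ vy

end Pool.Agent.MP_8c549f_pr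

/-!
Basic lemmas of the second part: closure properties of `Tame` and `Ctl`, counted steps,
closed sets, half space clusters.
-/

set_option autoImplicit false

namespace Pool.Agent.MP_8c549f_pr

open MeasureTheory Filter Topology Real
open scoped ENNReal NNReal

variable {D : ℕ}

/-! ### Tame -/

theorem Tame.congr {K : ℝ} {f g : ℝ → ℝ≥0∞} (h : Tame K f) (e : ∀ x, f x = g x) : Tame K g := by
  obtain rfl : f = g := funext e
  exact h

theorem Tame.mono {K K' : ℝ} {f : ℝ → ℝ≥0∞} (h : Tame K f) (h0 : 0 ≤ K) (hK : K ≤ K') :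
    Tame K' f := by
  intro x t
  obtain ⟨a, b, c⟩ := h x t
  have e : ENNReal.ofReal (2 * cosh (K * t)) ≤ ENNReal.ofReal (2 * cosh (K' * t)) := by
    refine ENNReal.ofReal_le_ofReal (mul_le_mul_of_nonneg_left (cosh_le_cosh.2 ?_) (by norm_num))
    rw [abs_mul, abs_mul, abs_of_nonneg h0, abs_of_nonneg (h0.trans hK)]
    exact mul_le_mul_of_nonneg_right hK (abs_nonneg _)
  refine ⟨a.trans (mul_le_mul' (ENNReal.ofReal_le_ofReal (exp_le_exp.2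
    (mul_le_mul_of_nonneg_right hK (abs_nonneg _)))) le_rfl), b.trans (mul_le_mul' e le_rfl),
    c.trans (add_le_add le_rfl (mul_le_mul' e le_rfl))⟩

theorem two_le_cosh (y : ℝ) : (2 : ℝ≥0∞) ≤ ENNReal.ofReal (2 * cosh y) := by
  rw [show (2 : ℝ≥0∞) = ENNReal.ofReal 2 by simp]
  exact ENNReal.ofReal_le_ofReal (by linarith [one_le_cosh y])

theorem tame_const {K : ℝ} (hK : 0 ≤ K) (c : ℝ≥0∞) : Tame K fun _ => c := by
  intro x t
  refine ⟨le_mul_of_one_le_left' (ENNReal.one_le_ofReal.2 (one_le_exp (by positivity))), ?_, ?_⟩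
  · rw [← two_mul]
    exact mul_le_mul' (two_le_cosh _) le_rfl
  · calc 4 * c = c + c + 2 * c := by ring
      _ ≤ _ := add_le_add le_rfl (mul_le_mul' (two_le_cosh _) le_rfl)

theorem Tame.const_mul {K : ℝ} {f : ℝ → ℝ≥0∞} (h : Tame K f) (c : ℝ≥0∞) :
    Tame K fun x => c * f x := by
  intro x t
  obtain ⟨a, b, d⟩ := h x t
  refine ⟨?_, ?_, ?_⟩
  · rw [mul_left_comm]; exact mul_le_mul' le_rfl a
  · rw [mul_left_comm, ← mul_add]; exact mul_le_mul' le_rfl b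
  · rw [mul_left_comm, mul_left_comm _ c, ← mul_add, ← mul_add]; exact mul_le_mul' le_rfl d

theorem Tame.mul_const {K : ℝ} {f : ℝ → ℝ≥0∞} (h : Tame K f) (c : ℝ≥0∞) :
    Tame K fun x => f x * c := (h.const_mul c).congr fun _ => mul_comm _ _

theorem tame_tsum {ι : Type} {K : ℝ} {f : ι → ℝ → ℝ≥0∞} (h : ∀ i, Tame K (f i)) :
    Tame K fun x => ∑' i, f i x := by
  intro x t
  simp only [← ENNReal.tsum_add, ← ENNReal.tsum_mul_left]
  exact ⟨ENNReal.tsum_le_tsum fun i => (h i x t).1, ENNReal.tsum_le_tsum fun i => (h i x t).2.1,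
    ENNReal.tsum_le_tsum fun i => (h i x t).2.2⟩

theorem tame_sum {ι : Type} {K : ℝ} (T : Finset ι) {f : ι → ℝ → ℝ≥0∞} (h : ∀ i ∈ T, Tame K (f i)) :
    Tame K fun x => ∑ i ∈ T, f i x := by
  intro x t
  simp only [← Finset.sum_add_distrib, Finset.mul_sum]
  exact ⟨Finset.sum_le_sum fun i hi => (h i hi x t).1, Finset.sum_le_sum fun i hi => (h i hi x t).2.1,
    Finset.sum_le_sum fun i hi => (h i hi x t).2.2⟩

theorem Tame.add {K : ℝ} {f g : ℝ → ℝ≥0∞} (h : Tame K f) (h' : Tame K g) :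
    Tame K fun x => f x + g x := by
  have := tame_sum (K := K) (Finset.univ : Finset Bool) (f := fun b => if b then f else g)
    (fun b _ => by cases b <;> simpa)
  exact this.congr fun x => by simp

theorem Tame.ite {K : ℝ} {f : ℝ → ℝ≥0∞} (hK : 0 ≤ K) (P : Prop) [Decidable P] (h : P → Tame K f) :
    Tame K fun x => if P then f x else 0 := by
  split_ifs with hP
  exacts [h hP, tame_const hK 0]

theorem tame_lintegral {Ω : Type} [MeasurableSpace Ω] (μ : Measure Ω) {K : ℝ}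
    {F : ℝ → Ω → ℝ≥0∞} (hm : ∀ x, Measurable (F x)) (h : ∀ ω, Tame K fun x => F x ω) :
    Tame K fun x => ∫⁻ ω, F x ω ∂μ := by
  intro x t
  simp only []
  rw [← lintegral_add_left (hm _), ← lintegral_const_mul _ (hm _), ← lintegral_const_mul _ (hm _),
    ← lintegral_const_mul _ (hm _), ← lintegral_add_left ((hm (x + t)).fun_add (hm (x - t)))]
  exact ⟨lintegral_mono fun ω => (h ω x t).1, lintegral_mono fun ω => (h ω x t).2.1,
    lintegral_mono fun ω => (h ω x t).2.2⟩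

theorem tame_iSup {K : ℝ} {f : ℕ → ℝ → ℝ≥0∞} (hm : ∀ x, Monotone fun n => f n x)
    (h : ∀ n, Tame K (f n)) : Tame K fun x => ⨆ n, f n x := by
  intro x t
  have le : ∀ n y, f n y ≤ ⨆ n, f n y := fun n y => le_iSup (fun n => f n y) n
  refine ⟨iSup_le fun n => (h n x t).1.trans (mul_le_mul' le_rfl (le n x)), ?_, ?_⟩
  · simp only []
    rw [ENNReal.iSup_add_iSup_of_monotone (hm _) (hm _)]
    exact iSup_le fun n => (h n x t).2.1.trans (mul_le_mul' le_rfl (le n x))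
  · simp only []
    rw [ENNReal.mul_iSup]
    exact iSup_le fun n => (h n x t).2.2.trans
      (add_le_add (add_le_add (le n _) (le n _)) (mul_le_mul' le_rfl (le n x)))

/-- real form of `Tame` -/
theorem tame_ofReal {K : ℝ} {f : ℝ → ℝ} (h0 : ∀ x, 0 ≤ f x) :
    Tame K (fun x => ENNReal.ofReal (f x)) ↔ ∀ x t, f (x + t) ≤ exp (K * |t|) * f x ∧
      f (x + t) + f (x - t) ≤ 2 * cosh (K * t) * f x ∧
      4 * f x ≤ f (x + t) + f (x - t) + 2 * cosh (K * t) * f x := by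
  refine forall_congr' fun x => forall_congr' fun t => ?_
  have hc : 0 ≤ 2 * cosh (K * t) := by linarith [one_le_cosh (K * t)]
  have h4 : (4 : ℝ≥0∞) = ENNReal.ofReal 4 := by simp
  have a := h0 x
  have b := h0 (x + t)
  have c := h0 (x - t)
  simp only []
  rw [← ENNReal.ofReal_mul (exp_pos _).le, ← ENNReal.ofReal_mul hc, ← ENNReal.ofReal_add b c, h4,
    ← ENNReal.ofReal_mul (by norm_num), ← ENNReal.ofReal_add (by positivity) (by positivity),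
    ENNReal.ofReal_le_ofReal_iff (by positivity), ENNReal.ofReal_le_ofReal_iff (by positivity),
    ENNReal.ofReal_le_ofReal_iff (by positivity)]

theorem Tame.ratio {K : ℝ} {f : ℝ → ℝ≥0∞} (h : Tame K f) (x y : ℝ) :
    f y ≤ ENNReal.ofReal (exp (K * |y - x|)) * f x := by
  simpa using (h x (y - x)).1

theorem Tame.ne_top {K : ℝ} {f : ℝ → ℝ≥0∞} (h : Tame K f) {x : ℝ} (hx : f x ≠ ∞) (y : ℝ) :
    f y ≠ ∞ := ne_top_of_le_ne_top (ENNReal.mul_ne_top ENNReal.ofReal_ne_top hx) (h.ratio x y)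

theorem Tame.eq_zero {K : ℝ} {f : ℝ → ℝ≥0∞} (h : Tame K f) {x : ℝ} (hx : f x = 0) (y : ℝ) :
    f y = 0 := by simpa [hx] using h.ratio x y

theorem tame_mul_real {K L : ℝ} (hK : 0 ≤ K) (hL : 0 ≤ L) {f g : ℝ → ℝ} (f0 : ∀ x, 0 ≤ f x)
    (g0 : ∀ x, 0 ≤ g x) (hf : Tame K fun x => ENNReal.ofReal (f x))
    (hg : Tame L fun x => ENNReal.ofReal (g x)) :
    Tame (K + L) fun x => ENNReal.ofReal (f x * g x) := by
  rw [tame_ofReal f0] at hf
  rw [tame_ofReal g0] at hg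
  rw [tame_ofReal fun x => mul_nonneg (f0 x) (g0 x)]
  intro x t
  have key : ∀ {K : ℝ} {f : ℝ → ℝ}, (∀ x, 0 ≤ f x) → (∀ x t, f (x + t) ≤ exp (K * |t|) * f x) →
      |f (x + t) - f (x - t)| ≤ 2 * sinh (K * |t|) * f x := by
    intro K f f0 h
    have e : ∀ s, |s| = |t| → exp (-(K * |t|)) * f x ≤ f (x + s) := fun s hs => by
      have := h (x + s) (-s)
      rw [abs_neg, hs, add_neg_cancel_right] at this
      rw [exp_neg, inv_mul_le_iff₀ (exp_pos _)]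
      exact this
    have a := h x t
    have b := h x (-t)
    have c := e t rfl
    have d := e (-t) (abs_neg t)
    rw [abs_neg, ← sub_eq_add_neg] at b
    rw [← sub_eq_add_neg] at d
    rw [sinh_eq, abs_le]
    constructor <;> linarith
  have s1 := key f0 fun x t => (hf x t).1
  have s2 := key g0 fun x t => (hg x t).1
  obtain ⟨a1, a2, a3⟩ := hf x t
  obtain ⟨b1, b2, b3⟩ := hg x t
  have hc : cosh ((K + L) * t) =
      cosh (K * t) * cosh (L * t) + sinh (K * |t|) * sinh (L * |t|) := by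
    have e : ∀ {M : ℝ}, 0 ≤ M → cosh (M * t) = cosh (M * |t|) := fun {M} hM => by
      rw [← cosh_abs, abs_mul, abs_of_nonneg hM]
    rw [e (add_nonneg hK hL), e hK, e hL, add_mul, cosh_add]
  have hs : |(f (x + t) - f (x - t)) * (g (x + t) - g (x - t))| ≤
      (2 * sinh (K * |t|) * f x) * (2 * sinh (L * |t|) * g x) := by
    rw [abs_mul]
    exact mul_le_mul s1 s2 (abs_nonneg _) ((abs_nonneg _).trans s1)
  rw [abs_le] at hs
  have c1 := one_le_cosh (K * t)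
  have c2 := one_le_cosh (L * t)
  have p1 := f0 x
  have p2 := g0 x
  have p3 := add_nonneg (f0 (x + t)) (f0 (x - t))
  have p4 := add_nonneg (g0 (x + t)) (g0 (x - t))
  have p5 := mul_nonneg p1 p2
  rw [hc]
  generalize cosh (K * t) = c at *
  generalize cosh (L * t) = d at *
  refine ⟨?_, ?_, ?_⟩
  · rw [add_mul, exp_add, mul_mul_mul_comm]
    exact mul_le_mul a1 b1 (g0 _) (by positivity)
  · have := mul_le_mul a2 b2 p4 (p3.trans a2)
    nlinarith only [this, hs.2]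
  · have h : (8 - 4 * (c * d)) * (f x * g x) ≤
        (f (x + t) + f (x - t)) * (g (x + t) + g (x - t)) := by
      by_cases h2 : c ≤ 2 ∧ d ≤ 2
      · have := mul_le_mul (show (4 - 2 * c) * f x ≤ f (x + t) + f (x - t) by linarith)
          (show (4 - 2 * d) * g x ≤ g (x + t) + g (x - t) by linarith)
          (mul_nonneg (by linarith [h2.2]) p2) p3
        have e := mul_nonneg (mul_nonneg (sub_nonneg.2 c1) (sub_nonneg.2 c2)) p5
        nlinarith only [this, e]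
      · have : 2 ≤ c * d := by
          rcases not_and_or.1 h2 with h | h <;> nlinarith only [h, c1, c2]
        exact (mul_nonpos_of_nonpos_of_nonneg (by linarith) p5).trans (mul_nonneg p3 p4)
    nlinarith only [h, hs.1]

theorem Tame.mul {K L : ℝ} {f g : ℝ → ℝ≥0∞} (hf : Tame K f) (hg : Tame L g) (hK : 0 ≤ K)
    (hL : 0 ≤ L) : Tame (K + L) fun x => f x * g x := by
  have hKL := add_nonneg hK hL
  by_cases f0 : f 0 = 0
  · exact (tame_const hKL 0).congr fun x => by simp [hf.eq_zero f0 x]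
  by_cases g0 : g 0 = 0
  · exact (tame_const hKL 0).congr fun x => by simp [hg.eq_zero g0 x]
  by_cases f1 : f 0 = ∞
  · refine (tame_const hKL ∞).congr fun x => ?_
    have a : f x = ∞ := by_contra fun h => hf.ne_top h 0 f1
    rw [a, ENNReal.top_mul fun h => g0 (hg.eq_zero h 0)]
  by_cases g1 : g 0 = ∞
  · refine (tame_const hKL ∞).congr fun x => ?_
    have a : g x = ∞ := by_contra fun h => hg.ne_top h 0 g1
    rw [a, ENNReal.mul_top fun h => f0 (hf.eq_zero h 0)]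
  have ef : ∀ x, f x = ENNReal.ofReal (f x).toReal := fun x =>
    (ENNReal.ofReal_toReal (hf.ne_top f1 x)).symm
  have eg : ∀ x, g x = ENNReal.ofReal (g x).toReal := fun x =>
    (ENNReal.ofReal_toReal (hg.ne_top g1 x)).symm
  refine (tame_mul_real hK hL (fun _ => ENNReal.toReal_nonneg) (fun _ => ENNReal.toReal_nonneg)
    (hf.congr ef) (hg.congr eg)).congr fun x => ?_
  rw [ENNReal.ofReal_mul ENNReal.toReal_nonneg, ← ef, ← eg]

theorem tame_exp {K a : ℝ} (h : |a| ≤ K) : Tame K fun x => ENNReal.ofReal (exp (x * a)) := by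
  rw [tame_ofReal fun x => (exp_pos _).le]
  intro x t
  have hK : 0 ≤ K := (abs_nonneg a).trans h
  have e1 : exp ((x + t) * a) = exp (t * a) * exp (x * a) := by rw [← exp_add]; ring_nf
  have e2 : exp ((x + t) * a) + exp ((x - t) * a) = 2 * cosh (t * a) * exp (x * a) := by
    rw [cosh_eq, e1, show (x - t) * a = -(t * a) + x * a by ring, exp_add]; ring
  have e3 : |t * a| ≤ K * |t| := by
    rw [abs_mul, mul_comm]; exact mul_le_mul_of_nonneg_right h (abs_nonneg t)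
  have e4 : cosh (t * a) ≤ cosh (K * t) := cosh_le_cosh.2 (by rwa [abs_mul K, abs_of_nonneg hK])
  have p := exp_pos (x * a)
  have c1 := one_le_cosh (t * a)
  rw [e2]
  refine ⟨?_, by nlinarith, by nlinarith⟩
  rw [e1]
  exact mul_le_mul_of_nonneg_right (exp_le_exp.2 ((le_abs_self _).trans e3)) p.le

/-- a positive exponential sum -/
theorem tame_expsum {ι : Type} (T : Finset ι) {K : ℝ} {c a : ι → ℝ} (hc : ∀ i ∈ T, 0 ≤ c i)
    (ha : ∀ i ∈ T, |a i| ≤ K) : Tame K fun x => ENNReal.ofReal (∑ i ∈ T, c i * exp (x * a i)) := by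
  refine (tame_sum T fun i hi => (tame_exp (ha i hi)).const_mul (ENNReal.ofReal (c i))).congr
    fun x => ?_
  rw [ENNReal.ofReal_sum_of_nonneg fun i hi => mul_nonneg (hc i hi) (exp_pos _).le]
  exact Finset.sum_congr rfl fun i hi => (ENNReal.ofReal_mul (hc i hi)).symm

/-- the inverse of a positive exponential sum -/
theorem tame_inv_expsum {ι : Type} (T : Finset ι) {K : ℝ} (hK : 0 ≤ K) {c a : ι → ℝ}
    (hc : ∀ i ∈ T, 0 ≤ c i) (ha : ∀ i ∈ T, |a i| ≤ K) :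
    Tame K fun x => ENNReal.ofReal (1 / ∑ i ∈ T, c i * exp (x * a i)) := by
  set E : ℝ → ℝ := fun x => ∑ i ∈ T, c i * exp (x * a i) with hE
  have E0 : ∀ x, 0 ≤ E x := fun x =>
    Finset.sum_nonneg fun i hi => mul_nonneg (hc i hi) (exp_pos _).le
  have hT := tame_expsum T hc ha
  by_cases h0 : E 0 = 0
  · refine (tame_const hK 0).congr fun x => ?_
    have := hT.eq_zero (x := 0) (ENNReal.ofReal_eq_zero.2 h0.le) x
    have e : E x = 0 := le_antisymm (ENNReal.ofReal_eq_zero.1 this) (E0 x)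
    show 0 = ENNReal.ofReal (1 / E x)
    simp [e]
  have Ep : ∀ x, 0 < E x := fun x => (E0 x).lt_of_ne fun h => h0 (le_antisymm
    (ENNReal.ofReal_eq_zero.1 (hT.eq_zero (x := x) (ENNReal.ofReal_eq_zero.2 h.ge) 0)) (E0 0))
  have hr := (tame_ofReal E0).1 hT
  have cs : ∀ x t, E x ^ 2 ≤ E (x + t) * E (x - t) := fun x t => by
    refine Finset.sum_sq_le_sum_mul_sum_of_sq_le_mul T
      (fun i hi => mul_nonneg (hc i hi) (exp_pos _).le)
      (fun i hi => mul_nonneg (hc i hi) (exp_pos _).le) fun i _ => le_of_eq ?_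
    rw [mul_mul_mul_comm, ← exp_add, mul_pow, ← exp_nat_mul]
    ring_nf
  show Tame K fun x => ENNReal.ofReal (1 / E x)
  rw [tame_ofReal fun x => (one_div_pos.2 (Ep x)).le]
  intro x t
  have p0 := Ep x
  have p1 := Ep (x + t)
  have p2 := Ep (x - t)
  obtain ⟨-, a2, -⟩ := hr x t
  refine ⟨?_, ?_, ?_⟩
  · have := (hr (x + t) (-t)).1
    rw [abs_neg, add_neg_cancel_right] at this
    rw [mul_one_div, div_le_div_iff₀ p1 p0]
    linarith
  · rw [mul_one_div, div_add_div _ _ p1.ne' p2.ne', div_le_div_iff₀ (mul_pos p1 p2) p0]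
    have c1 := one_le_cosh (K * t)
    have := cs x t
    nlinarith [mul_le_mul_of_nonneg_right a2 p0.le,
      mul_le_mul_of_nonneg_left this (show 0 ≤ 2 * cosh (K * t) by linarith)]
  · have k : ∀ y, 0 < y → 2 / E x - y / E x ^ 2 ≤ 1 / y := fun y hy => by
      rw [div_sub_div _ _ p0.ne' (by positivity), div_le_div_iff₀ (by positivity) hy]
      nlinarith [mul_nonneg p0.le (sq_nonneg (E x - y))]
    have k1 := k _ p1
    have k2 := k _ p2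
    have k3 : (E (x + t) + E (x - t)) / E x ^ 2 ≤ 2 * cosh (K * t) * (1 / E x) := by
      rw [div_le_iff₀ (by positivity)]
      calc _ ≤ _ := a2
        _ = _ := by field_simp
    rw [add_div] at k3
    have : 4 * (1 / E x) = 2 / E x + 2 / E x := by ring
    linarith

theorem tame_inv_Zq (ω : Cfg D) (u : V D) : Tame 1 fun x => ENNReal.ofReal (1 / Zq x ω u) := by
  refine (tame_inv_expsum (Finset.univ : Finset (Step D)) zero_le_one
    (c := fun s => if ω (edge u s) = true then 1 else 0) (a := fun s => (vec s 0 : ℝ))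
    (fun s _ => by split_ifs <;> norm_num) fun s _ => ?_).congr fun x => ?_
  · have := vec_bounds s 0
    rw [abs_le]
    exact ⟨by exact_mod_cast this.1, by exact_mod_cast this.2⟩
  · simp only [Zq, wt, ite_mul, one_mul, zero_mul]

/-! ### Ctl -/

theorem Ctl.mono {f : ℝ → ℝ} {α β M M' : ℝ} (h : Ctl f α β M) (hM : M ≤ M') : Ctl f α β M' :=
  ⟨fun x y a b c => (h.1 x y a b c).trans (mul_le_mul_of_nonneg_right hM (sub_nonneg.2 b)),
    fun x t a b c => (h.2 x t a b c).trans (mul_le_mul_of_nonneg_right hM (sq_nonneg t))⟩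

theorem Ctl.congr {f g : ℝ → ℝ} {α β M : ℝ} (h : Ctl f α β M) (e : ∀ x ∈ Set.Icc α β, f x = g x) :
    Ctl g α β M := by
  refine ⟨fun x y a b c => ?_, fun x t a b c => ?_⟩
  · rw [← e x ⟨a, b.trans c⟩, ← e y ⟨a.trans b, c⟩]; exact h.1 x y a b c
  · rw [← e x ⟨by linarith, by linarith⟩, ← e (x + t) ⟨by linarith, c⟩,
      ← e (x - t) ⟨b, by linarith⟩]
    exact h.2 x t a b c

theorem ctl_const (c α β : ℝ) : Ctl (fun _ => c) α β 0 :=
  ⟨fun _ _ _ _ _ => by simp, fun _ _ _ _ _ => by simp [two_mul]⟩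

theorem Ctl.add {f g : ℝ → ℝ} {α β M M' : ℝ} (h : Ctl f α β M) (h' : Ctl g α β M') :
    Ctl (fun x => f x + g x) α β (M + M') := by
  refine ⟨fun x y a b c => ?_, fun x t a b c => ?_⟩
  · have := abs_le.1 (h.1 x y a b c)
    have := abs_le.1 (h'.1 x y a b c)
    rw [abs_le]; constructor <;> linarith
  · have := abs_le.1 (h.2 x t a b c)
    have := abs_le.1 (h'.2 x t a b c)
    rw [abs_le]; constructor <;> linarith

theorem Ctl.const_mul {f : ℝ → ℝ} {α β M : ℝ} (h : Ctl f α β M) (c : ℝ) :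
    Ctl (fun x => c * f x) α β (|c| * M) := by
  refine ⟨fun x y a b d => ?_, fun x t a b d => ?_⟩
  · rw [← mul_sub, abs_mul, mul_assoc]
    exact mul_le_mul_of_nonneg_left (h.1 x y a b d) (abs_nonneg c)
  · rw [show c * f (x + t) + c * f (x - t) - 2 * (c * f x) =
      c * (f (x + t) + f (x - t) - 2 * f x) by ring, abs_mul, mul_assoc]
    exact mul_le_mul_of_nonneg_left (h.2 x t a b d) (abs_nonneg c)

theorem Ctl.neg {f : ℝ → ℝ} {α β M : ℝ} (h : Ctl f α β M) : Ctl (fun x => -f x) α β M := by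
  simpa using h.const_mul (-1)

theorem Ctl.sub {f g : ℝ → ℝ} {α β M M' : ℝ} (h : Ctl f α β M) (h' : Ctl g α β M') :
    Ctl (fun x => f x - g x) α β (M + M') := by
  simpa [sub_eq_add_neg] using h.add h'.neg

theorem ctl_sum {ι : Type} (T : Finset ι) {f : ι → ℝ → ℝ} {M : ι → ℝ} {α β : ℝ}
    (h : ∀ i ∈ T, Ctl (f i) α β (M i)) : Ctl (fun x => ∑ i ∈ T, f i x) α β (∑ i ∈ T, M i) := by
  classical
  induction T using Finset.induction_on with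
  | empty => simpa using ctl_const 0 α β
  | insert a T ha ih =>
    simp only [Finset.sum_insert ha]
    exact (h a (Finset.mem_insert_self _ _)).add (ih fun i hi => h i (Finset.mem_insert_of_mem hi))

theorem Ctl.continuousOn {f : ℝ → ℝ} {α β M : ℝ} (h : Ctl f α β M) :
    ContinuousOn f (Set.Icc α β) := by
  refine (LipschitzOnWith.of_dist_le_mul (K := ⟨|M|, abs_nonneg M⟩) fun x hx y hy => ?_).continuousOn
  have k : ∀ x ∈ Set.Icc α β, ∀ y ∈ Set.Icc α β, x ≤ y → |f y - f x| ≤ |M| * |y - x| :=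
    fun x hx y hy e => (h.1 x y hx.1 e hy.2).trans ((le_abs_self _).trans (abs_mul _ _).le)
  rw [Real.dist_eq, Real.dist_eq]
  rcases le_total x y with e | e
  · rw [abs_sub_comm, abs_sub_comm x]; exact k x hx y hy e
  · exact k y hy x hx e

/-- integration of `Ctl` over a set -/
theorem ctl_lintegral {Ω : Type} [MeasurableSpace Ω] (μ : Measure Ω) [IsFiniteMeasure μ]
    {F : ℝ → Ω → ℝ≥0∞} {α β M : ℝ} {C : ℝ≥0∞} (hC : C ≠ ∞) {A : Set Ω} (hA : MeasurableSet A)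
    (hm : ∀ x, Measurable (F x)) (hb : ∀ x ∈ Set.Icc α β, ∀ ω ∈ A, F x ω ≤ C)
    (h : ∀ ω ∈ A, Ctl (fun x => (F x ω).toReal) α β M) :
    Ctl (fun x => (∫⁻ ω in A, F x ω ∂μ).toReal) α β (M * μ.real A) := by
  have hi : ∀ x ∈ Set.Icc α β, Integrable (fun ω => (F x ω).toReal) (μ.restrict A) := fun x hx => by
    refine Integrable.of_bound (hm x).ennreal_toReal.aestronglyMeasurable C.toReal ?_
    refine (ae_restrict_iff' hA).2 (ae_of_all _ fun ω hω => ?_)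
    rw [Real.norm_of_nonneg ENNReal.toReal_nonneg]
    exact ENNReal.toReal_mono hC (hb x hx ω hω)
  have he : ∀ x ∈ Set.Icc α β, ∫ ω in A, (F x ω).toReal ∂μ = (∫⁻ ω in A, F x ω ∂μ).toReal :=
    fun x hx => integral_toReal (hm x).aemeasurable
      ((ae_restrict_iff' hA).2 (ae_of_all _ fun ω hω => (hb x hx ω hω).trans_lt hC.lt_top))
  refine Ctl.congr ⟨fun x y a b c => ?_, fun x t a b c => ?_⟩ he
  · rw [← integral_sub (hi y ⟨a.trans b, c⟩) (hi x ⟨a, b.trans c⟩), mul_right_comm,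
      ← Real.norm_eq_abs]
    exact norm_setIntegral_le_of_norm_le_const (measure_lt_top _ _) fun ω hω => (h ω hω).1 x y a b c
  · have i1 := hi (x + t) ⟨by linarith, c⟩
    have i2 := hi (x - t) ⟨b, by linarith⟩
    have i3 := hi x ⟨by linarith, by linarith⟩
    rw [← integral_add i1 i2, ← integral_const_mul, ← integral_sub (i1.fun_add i2) (i3.const_mul 2),
      mul_right_comm, ← Real.norm_eq_abs]
    exact norm_setIntegral_le_of_norm_le_const (measure_lt_top _ _) fun ω hω => (h ω hω).2 x t a b c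

/-! ### counted steps -/

@[simp] theorem nst_nil (c : V D → Step D → Prop) (x : V D) : nst c x [] = 0 := rfl

open Classical in
theorem nst_cons (c : V D → Step D → Prop) (x : V D) (s : Step D) (l : List (Step D)) :
    nst c x (s :: l) = (if c x s then 1 else 0) + nst c (x + vec s) l := rfl

theorem nst_append (c : V D → Step D → Prop) (u l : List (Step D)) : ∀ x : V D,
    nst c x (u ++ l) = nst c x u + nst c (x + pos u) l := by
  induction u with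
  | nil => simp
  | cons s u ih => intro x; simp [nst_cons, ih, add_assoc]

theorem nst_true (l : List (Step D)) : ∀ x : V D, nst (fun _ _ => True) x l = l.length := by
  induction l with
  | nil => simp
  | cons s l ih => intro x; simp [nst_cons, ih, add_comm]

theorem nst_mono {c c' : V D → Step D → Prop} (l : List (Step D)) : ∀ x : V D,
    (∀ (i : ℕ) (h : i < l.length), c (x + loc l i) l[i] → c' (x + loc l i) l[i]) →
      nst c x l ≤ nst c' x l := by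
  induction l with
  | nil => simp
  | cons s l ih =>
    intro x h
    rw [forall_steps_cons fun y t => c y t → c' y t] at h
    rw [nst_cons, nst_cons]
    refine add_le_add ?_ (ih _ h.2)
    split_ifs with a b
    exacts [le_rfl, absurd (h.1 a) b, zero_le_one, le_rfl]

theorem nst_congr {c c' : V D → Step D → Prop} {l : List (Step D)} {x : V D}
    (h : ∀ (i : ℕ) (h : i < l.length), c (x + loc l i) l[i] ↔ c' (x + loc l i) l[i]) :
    nst c x l = nst c' x l :=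
  le_antisymm (nst_mono l x fun i hi => (h i hi).1) (nst_mono l x fun i hi => (h i hi).2)

theorem nst_le_length (c : V D → Step D → Prop) (x : V D) (l : List (Step D)) :
    nst c x l ≤ l.length := (nst_mono l x fun _ _ _ => trivial).trans_eq (nst_true l x)

theorem nst_eq_zero_iff (c : V D → Step D → Prop) (l : List (Step D)) : ∀ x : V D,
    nst c x l = 0 ↔ ∀ (i : ℕ) (h : i < l.length), ¬ c (x + loc l i) l[i] := by
  induction l with
  | nil => simp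
  | cons s l ih =>
    intro x
    rw [forall_steps_cons fun y t => ¬ c y t, nst_cons, Nat.add_eq_zero_iff, ih]
    simp

open Classical in
theorem nst_eq_sum (c : V D → Step D → Prop) (l : List (Step D)) : ∀ x : V D,
    nst c x l = ∑ i : Fin l.length, if c (x + loc l i) l[i] then 1 else 0 := by
  induction l with
  | nil => simp
  | cons s l ih =>
    intro x
    rw [nst_cons, ih]
    exact (Fin.sum_univ_succ (n := l.length)
      fun i => if c (x + loc (s :: l) i) (s :: l)[i] then 1 else 0).symm ▸ by simp [add_assoc]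

/-! ### closed sets -/

@[simp] theorem e0_zero : e0 D 0 = 1 := by simp [e0]

theorem vec_fwd_e0 : vec (fwd D) = e0 D := vec_fwd

theorem vec_bck_e0 : vec (bck D) = -e0 D := vec_bck

theorem edge_fwd_eq (u : V D) : edge (u + e0 D) (bck D) = edge u (fwd D) := by
  simp [edge, bck, fwd, e0]

theorem edge_lev (x : V D) (s : Step D) : (edge x s).1 0 = min (x 0) ((x + vec s) 0) := by
  rcases step_cases s with rfl | rfl | ⟨k, g, rfl⟩
  · simp [edge, fwd, vec]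
  · simp [edge, bck, vec, sub_eq_add_neg]
  · cases g <;> simp [edge, vec]

theorem edge_mem_near {S : Finset (V D)} {x : V D} {s : Step D} :
    edge x s ∈ near S ↔ x ∈ S ∨ x + vec s ∈ S := by
  rw [mem_near]
  constructor
  · rintro ⟨y, hy, t, h⟩
    rcases edge_eq_iff.1 h with h | h
    · exact Or.inl (by rw [h.1]; exact hy)
    · refine Or.inr ?_
      rw [h.1, h.2]
      simpa using hy
  · rintro (h | h)
    exacts [⟨x, h, s, rfl⟩, ⟨x + vec s, h, rev s, by simp⟩]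

theorem clo_of_mem {S : Finset (V D)} (ω : Cfg D) {e : Edge D} (h : e ∈ near S) :
    clo S ω e = false := if_pos h

theorem clo_of_not_mem {S : Finset (V D)} (ω : Cfg D) {e : Edge D} (h : e ∉ near S) :
    clo S ω e = ω e := if_neg h

theorem clo_eq_true {S : Finset (V D)} {ω : Cfg D} {e : Edge D} :
    clo S ω e = true ↔ e ∉ near S ∧ ω e = true := by
  unfold clo
  split_ifs with h <;> simp [h]

@[simp] theorem clo_empty (ω : Cfg D) : clo ∅ ω = ω := by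
  funext e
  simp [clo, near]

theorem measurable_clo (S : Finset (V D)) : Measurable (clo S : Cfg D → Cfg D) := by
  refine measurable_pi_lambda _ fun e => ?_
  unfold clo
  split_ifs
  exacts [measurable_const, measurable_pi_apply e]

theorem dep_clo {β : Type} (S : Finset (V D)) (F : Cfg D → β) :
    Dep (fun ω => F (clo S ω)) (near S : Set (Edge D))ᶜ := by
  intro ω ω' h
  have : clo S ω = clo S ω' := funext fun e => by
    unfold clo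
    split_ifs with he
    exacts [rfl, h e he]
  simp only [this]

theorem measurable_shut (e : Edge D) : Measurable fun ω : Cfg D => shut ω e :=
  measurable_update_left

theorem shut_self (ω : Cfg D) (e : Edge D) : shut ω e e = false := Function.update_self _ _ _

theorem shut_of_ne (ω : Cfg D) {e f : Edge D} (h : f ≠ e) : shut ω e f = ω f :=
  Function.update_of_ne h _ _

theorem mem_tr {u x : V D} {S : Finset (V D)} : x ∈ tr u S ↔ x - u ∈ S := by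
  simp only [tr, Finset.mem_image]
  exact ⟨fun ⟨y, hy, e⟩ => by simpa [← e] using hy, fun h => ⟨_, h, by simp⟩⟩

@[simp] theorem tr_zero (S : Finset (V D)) : tr 0 S = S := by
  ext x
  simp [mem_tr]

theorem tr_tr (u v : V D) (S : Finset (V D)) : tr u (tr v S) = tr (v + u) S := by
  ext x
  simp [mem_tr, sub_sub, add_comm]

theorem tr_injective (u : V D) : Function.Injective (tr u : Finset (V D) → Finset (V D)) :=
  fun S T h => by simpa [tr_tr] using congrArg (tr (-u)) h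

/-! ### half space clusters -/

theorem self_mem_Up (ω : Cfg D) (i : ℤ) (x : V D) : x ∈ Up ω i x := Relation.ReflTransGen.refl

theorem Up_step {ω : Cfg D} {i : ℤ} {x y : V D} {s : Step D} (hx : i ≤ x 0) (hy : y ∈ Up ω i x)
    (hs : ω (edge y s) = true) (h : i ≤ (y + vec s) 0) : y + vec s ∈ Up ω i x :=
  Relation.ReflTransGen.tail hy ⟨opn_iff.2 ⟨s, rfl, hs⟩, Geo.up_level hx hy, h⟩

/-- induction principle: a set closed under the open steps inside the half space -/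
theorem Up_subset {ω : Cfg D} {i : ℤ} {x : V D} {X : Set (V D)} (hx : x ∈ X)
    (h : ∀ y ∈ X, ∀ s, y ∈ Up ω i x → ω (edge y s) = true → i ≤ y 0 → i ≤ (y + vec s) 0 →
      y + vec s ∈ X) : Up ω i x ⊆ X := by
  intro z hz
  induction hz with
  | refl => exact hx
  | tail a b ih =>
    obtain ⟨s, rfl, hs⟩ := opn_iff.1 b.1
    exact h _ ih s a hs b.2.1 b.2.2

theorem Up_mono {ω ω' : Cfg D} {i i' : ℤ} (x : V D) (hi : i' ≤ i)
    (h : ∀ e : Edge D, i ≤ e.1 0 → ω e = true → ω' e = true) : Up ω i x ⊆ Up ω' i' x := by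
  intro z hz
  refine Geo.rmono hz fun u v ⟨a, b, c⟩ => ⟨?_, hi.trans b, hi.trans c⟩
  obtain ⟨s, rfl, hs⟩ := opn_iff.1 a
  exact opn_iff.2 ⟨s, rfl, h _ (by rw [edge_lev]; exact le_min b c) hs⟩

theorem Up_congr {ω ω' : Cfg D} {i : ℤ} (x : V D) (h : ∀ e : Edge D, i ≤ e.1 0 → ω e = ω' e) :
    Up ω i x = Up ω' i x :=
  (Up_mono x le_rfl fun e a b => (h e a).symm.trans b).antisymm
    (Up_mono x le_rfl fun e a b => (h e a).trans b)

theorem Up_update_bck (ω : Cfg D) {i : ℤ} {y : V D} (hy : y 0 ≤ i) (b : Bool) (x : V D) :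
    Up (Function.update ω (edge y (bck D)) b) i x = Up ω i x := by
  refine Up_congr x fun e he => Function.update_of_ne (fun h => ?_) _ _
  rw [h, edge_lev] at he
  have := he.trans (min_le_right _ _)
  simp [vec_bck] at this
  omega

theorem Up_plus (ω : Cfg D) {i : ℤ} (hi : 0 ≤ i) (x : V D) : Up (plus ω) i x = Up ω i x :=
  Up_update_bck ω (y := 0) hi true x

theorem Bush_level {ω : Cfg D} {u z : V D} (h : z ∈ Bush ω u) : u 0 + 1 ≤ z 0 :=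
  Geo.up_level (by simp) h

/-- the only open step out of the bush is the back step to the root -/
theorem Root.exit {ω : Cfg D} {u z : V D} {s : Step D} (h : Root ω u) (hz : z ∈ Bush ω u)
    (hs : ω (edge z s) = true) (hn : z + vec s ∉ Bush ω u) : z = u + e0 D ∧ s = bck D := by
  have l := Bush_level hz
  have a : ¬ u 0 + 1 ≤ (z + vec s) 0 := fun k => hn (Up_step (by simp) hz hs k)
  have b := vec_bounds s 0
  simp only [Pi.add_apply] at a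
  have e : s = bck D := vec_zero_eq_neg_one.1 (by omega)
  subst e
  exact ⟨h.2.2 z hz (by omega) hs, rfl⟩

/-- the only open step into the bush is the forward step from the root -/
theorem Root.entry {ω : Cfg D} {u z : V D} {s : Step D} (h : Root ω u) (hz : z ∉ Bush ω u)
    (hs : ω (edge z s) = true) (hn : z + vec s ∈ Bush ω u) : z = u ∧ s = fwd D := by
  have := h.exit (s := rev s) hn (by simpa using hs) (by simpa using hz)
  have e : s = fwd D := by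
    have := congrArg rev this.2
    simpa [rev, bck, fwd] using this
  subst e
  exact ⟨add_right_cancel (this.1.trans (by rw [vec_fwd_e0])), rfl⟩

/-- the bush, the root property and the mass depend only on the edges above `u` -/
theorem bush_congr {ω ω' : Cfg D} (u : V D)
    (h : ∀ e : Edge D, (u 0 + 1 ≤ e.1 0 ∨ (e.1 0 = u 0 ∧ e.2 = 0)) → ω e = ω' e) :
    Bush ω u = Bush ω' u ∧ (Root ω u ↔ Root ω' u) ∧ ∀ g, pih g ω u = pih g ω' u := by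
  have hB : Bush ω u = Bush ω' u := Up_congr _ fun e he => h e (Or.inl he)
  have hE : ∀ z : V D, u 0 + 1 ≤ z 0 → ∀ s, ω (edge z s) = ω' (edge z s) := fun z hz s => by
    refine h _ ?_
    rw [edge_lev, Iso.edge_snd]
    rcases step_cases s with rfl | rfl | ⟨k, g, rfl⟩
    · left; simp [vec_fwd]; omega
    · simp [vec_bck, bck]; omega
    · left; simp [vec_side_zero]; omega
  have hF : ω (edge u (fwd D)) = ω' (edge u (fwd D)) := h _ (Or.inr (by simp [edge, fwd]))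
  refine ⟨hB, ?_, fun g => ?_⟩
  · unfold Root
    rw [hB, hF]
    refine and_congr_right fun _ => and_congr_right fun _ => forall₂_congr fun z _ =>
      forall_congr' fun hz => ?_
    rw [hE z hz.ge]
  · unfold pih
    rw [hB]
    congr 1
    refine tsum_congr fun z => ?_
    by_cases hz : z ∈ Bush ω' u
    · simp only [Set.indicator_of_mem hz, hE z (Bush_level hz)]
    · simp only [Set.indicator_of_notMem hz]

/-! ### the window -/

/-- the parameter `μ = log (1 / (1 - p))` in the window -/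
theorem win_mu (hD : 2 ≤ D) (μ₁ : ℝ) : ∃ e₀ : ℝ, 0 < e₀ ∧ ∀ p x : ℝ, 1 - e₀ ≤ p → p < 1 →
    1 / 2 ≤ (1 - p) ^ D * exp x → (1 - p) ^ D * exp x ≤ 2 →
      ∃ μ, μ₁ ≤ μ ∧ 1 - p = exp (-μ) ∧ 1 / 2 ≤ p ∧ μ ≤ x ∧ exp (-x) ≤ 2 * exp (-(D * μ)) ∧
        exp (-(D * μ)) ≤ 2 * exp (-x) := by
  refine ⟨min (exp (-μ₁)) (1 / 2), by positivity, fun p x h0 h1 h2 h3 => ?_⟩
  have e : exp (-(-log (1 - p))) = 1 - p := by rw [neg_neg, exp_log (by linarith)]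
  have a : 1 - p ≤ exp (-μ₁) := by linarith [min_le_left (exp (-μ₁)) (1 / 2)]
  have b : 1 - p ≤ 1 / 2 := by linarith [min_le_right (exp (-μ₁)) (1 / 2)]
  have c : exp (-(D * -log (1 - p))) = (1 - p) ^ D := by
    rw [← mul_neg, exp_nat_mul, e]
  have hx := exp_pos x
  refine ⟨-log (1 - p), ?_, e.symm, by linarith, ?_, ?_, ?_⟩
  · rw [← e] at a
    linarith [exp_le_exp.1 a]
  · obtain ⟨k, rfl⟩ : ∃ k, D = k + 2 := ⟨D - 2, by omega⟩
    have d : (1 - p) ^ (k + 2) ≤ (1 - p) ^ 2 :=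
      pow_le_pow_of_le_one (by linarith) (by linarith) (by omega)
    have f : 1 ≤ (1 - p) * exp x := by
      nlinarith [mul_le_mul_of_nonneg_right d hx.le, mul_pos (sub_pos.2 h1) hx]
    rw [← e, ← exp_add, one_le_exp_iff] at f
    linarith
  · rw [c, exp_neg, inv_le_iff_one_le_mul₀ hx]
    linarith
  · rw [c, exp_neg, ← div_eq_mul_inv, le_div_iff₀ hx]
    exact h3

theorem Win.mem {p α β x : ℝ} (h : Win D p α β) (hx : x ∈ Set.Icc α β) :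
    1 / 2 ≤ (1 - p) ^ D * exp x ∧ (1 - p) ^ D * exp x ≤ 2 := by
  have a : 0 ≤ (1 - p) ^ D := pow_nonneg (sub_nonneg.2 h.1.le) D
  exact ⟨h.2.2.2.1.trans (mul_le_mul_of_nonneg_left (exp_le_exp.2 hx.1) a),
    (mul_le_mul_of_nonneg_left (exp_le_exp.2 hx.2) a).trans h.2.2.2.2⟩

/-- the probability of a free forward step is close to one -/
theorem phi_bounds {p lam μ : ℝ} (h0 : 0 ≤ p) (h1 : p ≤ 1) (hμ : 0 ≤ μ) (h2 : 1 - p ≤ exp (-μ))
    (h3 : μ ≤ lam) : 0 ≤ p * exp lam / Zf D lam ∧ p * exp lam / Zf D lam ≤ 1 ∧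
      1 - p * exp lam / Zf D lam ≤ (2 * D + 2) * exp (-μ) := by
  have hZ := Zf_pos D lam
  have hL := exp_pos lam
  have a : exp lam ≤ Zf D lam := by unfold Zf; linarith [exp_pos (-lam), (Nat.cast_nonneg D : (0 : ℝ) ≤ D)]
  have b : exp (-lam) ≤ 1 := exp_le_one_iff.2 (by linarith)
  have c : 1 ≤ exp (-μ) * exp lam := by rw [← exp_add, one_le_exp_iff]; linarith
  have hD : (0 : ℝ) ≤ D := Nat.cast_nonneg D
  refine ⟨by positivity, (div_le_one hZ).2 (by nlinarith), ?_⟩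
  rw [one_sub_div hZ.ne', div_le_iff₀ hZ]
  have d := mul_le_mul_of_nonneg_left a (show 0 ≤ (2 * D + 2) * exp (-μ) by positivity)
  have e : Zf D lam = exp lam + exp (-lam) + 2 * D := rfl
  nlinarith [mul_le_mul_of_nonneg_right h2 hL.le, mul_le_mul_of_nonneg_left c hD]

/-! ### profiles -/

theorem ks_mono (k : ℤ → ℕ) {a b : ℤ} {n m : ℕ} (h1 : b ≤ a) (h2 : a + n ≤ b + m) :
    ks k a n ≤ ks k b m := by
  obtain ⟨d, rfl⟩ : ∃ d : ℕ, a = b + d := ⟨(a - b).toNat, by omega⟩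
  obtain ⟨e, rfl⟩ : ∃ e : ℕ, m = d + n + e := ⟨m - (d + n), by omega⟩
  unfold ks
  rw [Finset.sum_range_add, Finset.sum_range_add]
  simp only [Nat.cast_add, add_assoc]
  omega

theorem ks_add (k : ℤ → ℕ) (a : ℤ) (n m : ℕ) : ks k a (n + m) = ks k a n + ks k (a + n) m := by
  unfold ks
  rw [Finset.sum_range_add]
  simp only [Nat.cast_add, add_assoc]

theorem NuLe.le {Q ν : ℕ} {k : ℤ → ℕ} (h : NuLe Q k ν) (hQ : 1 ≤ Q) (n : ℕ) :
    ks k 0 n ≤ ν + n / Q := by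
  have := Nat.div_le_div_right (c := Q) (h n)
  rwa [Nat.mul_div_cancel_left _ hQ, Nat.add_mul_div_left _ _ hQ, add_comm] at this

theorem NuLe.mono {Q ν ν' : ℕ} {k : ℤ → ℕ} (h : NuLe Q k ν) (hν : ν ≤ ν') : NuLe Q k ν' :=
  fun n => (h n).trans (Nat.add_le_add_left (Nat.mul_le_mul_left _ hν) _)

theorem two_le_NN (D m r : ℕ) : 2 ≤ NN D m r :=
  Nat.le_mul_of_pos_right 2 (by positivity) |>.trans_eq (mul_assoc _ _ _).symm

end Pool.Agent.MP_8c549f_pr
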