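import Mathlib.RingTheory.Flat.TorsionFree
import Mathlib.Analysis.SpecialFunctions.Trigonometric.Series
import Mathlib.RingTheory.TotallySplit
import Mathlib.RingTheory.Etale.Weakly
import Pool.Agent.MP_8c549f_pr.Base2

-- ======== part 0: formerly Pool.Agent.MP_8c549f_pr.B1
section MrgPart0

/-!
Local midpoint convexity gives convexity; second differences of a sum of tame functions.
-/

set_option autoImplicit false

namespace Pool.Agent.MP_8c549f_pr

open MeasureTheory Filter Topology Real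
open scoped ENNReal NNReal

namespace AnaM

theorem max_le {h : ℝ → ℝ} {x z δ : ℝ} (hδ : 0 < δ) (hc : ContinuousOn h (Set.Icc x z))
    (hm : ∀ y t, 0 ≤ t → t ≤ δ → x ≤ y - t → y + t ≤ z → 2 * h y ≤ h (y + t) + h (y - t))
    (h1 : h x ≤ 0) (h2 : h z ≤ 0) {w : ℝ} (hw : w ∈ Set.Icc x z) : h w ≤ 0 := by
  obtain ⟨y₀, hy₀, hmax⟩ := isCompact_Icc.exists_isMaxOn ⟨w, hw⟩ hc
  have hE : IsCompact (Set.Icc x z ∩ h ⁻¹' {h y₀}) :=
    isCompact_Icc.of_isClosed_subset
      (hc.preimage_isClosed_of_isClosed isClosed_Icc isClosed_singleton) Set.inter_subset_left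
  obtain ⟨y, ⟨hy, e⟩, hl⟩ := hE.exists_isLeast ⟨y₀, hy₀, rfl⟩
  have e' : h y = h y₀ := e
  by_contra hpos
  have p0 : 0 < h y := by
    have : h w ≤ h y₀ := hmax hw
    linarith [not_le.1 hpos]
  have a1 : x < y := hy.1.lt_of_ne fun a => by rw [← a] at p0; linarith
  have a2 : y < z := hy.2.lt_of_ne fun a => by rw [a] at p0; linarith
  obtain ⟨t, ht⟩ : ∃ t, t = min δ (min (y - x) (z - y)) := ⟨_, rfl⟩
  have t0 : 0 < t := by rw [ht]; exact lt_min hδ (lt_min (by linarith) (by linarith))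
  have t1 : t ≤ δ := ht ▸ min_le_left _ _
  have t2 : t ≤ y - x := ht ▸ (min_le_right _ _).trans (min_le_left _ _)
  have t3 : t ≤ z - y := ht ▸ (min_le_right _ _).trans (min_le_right _ _)
  have b1 : h (y + t) ≤ h y₀ := hmax (show y + t ∈ Set.Icc x z from ⟨by linarith, by linarith⟩)
  have m2 : y - t ∈ Set.Icc x z := ⟨by linarith, by linarith⟩
  have b2 : h (y - t) ≤ h y₀ := hmax m2
  have b3 := hm y t t0.le t1 (by linarith) (by linarith)
  have := hl (show y - t ∈ Set.Icc x z ∩ h ⁻¹' {h y₀} from ⟨m2, show h (y - t) = h y₀ by linarith⟩)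
  linarith

end AnaM

theorem schw : SCHWStmt := by
  intro g α β δ hδ hc hm
  refine LinearOrder.convexOn_of_lt (convex_Icc α β) fun x hx z hz hxz a b ha hb hab => ?_
  obtain ⟨s, hs⟩ : ∃ s, s * (z - x) = g z - g x :=
    ⟨(g z - g x) / (z - x), div_mul_cancel₀ _ (sub_pos.2 hxz).ne'⟩
  obtain rfl : a = 1 - b := by linarith
  have := AnaM.max_le (h := fun y => g y - g x - s * (y - x)) (x := x) (z := z) hδ
    (((hc.mono (Set.Icc_subset_Icc hx.1 hz.2)).sub continuousOn_const).sub (by fun_prop))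
    (fun y t t0 t1 t2 t3 => by
      have := hm y t t0 t1 (hx.1.trans t2) (t3.trans hz.2)
      linarith) (by simp) (by linarith) (w := (1 - b) * x + b * z) ⟨by nlinarith, by nlinarith⟩
  simp only [smul_eq_mul]
  have e : s * ((1 - b) * x + b * z - x) = b * (g z - g x) := by rw [← hs]; ring
  linarith

namespace AnaM

variable {ι : Type} {f : ι → ℝ → ℝ≥0∞} {K : ι → ℝ} {α β M : ℝ}

theorem tot_le (h1 : ∀ i, 1 ≤ K i) {x : ℝ}
    (h : ∑' i, ENNReal.ofReal (K i ^ 2) * f i x ≤ ENNReal.ofReal M) :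
    ∑' i, f i x ≤ ENNReal.ofReal M :=
  (ENNReal.tsum_le_tsum fun i => le_mul_of_one_le_left zero_le
    (ENNReal.one_le_ofReal.2 (one_le_pow₀ (h1 i)))).trans h

theorem first (hM : 0 ≤ M) (h1 : ∀ i, 1 ≤ K i) (hT : ∀ i, Tame (K i) (f i))
    (h : ∀ x ∈ Set.Icc α β, ∑' i, ENNReal.ofReal (K i ^ 2) * f i x ≤ ENNReal.ofReal M)
    {x y : ℝ} (hx : α ≤ x) (hxy : x ≤ y) (hy : y ≤ β) :
    |(∑' i, f i y).toReal - (∑' i, f i x).toReal| ≤ 2 * M * (y - x) :=
  lip ι f K x y M hxy hM (fun i => by linarith [h1 i]) (fun i u _ v _ => (hT i).ratio u v)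
    (fun u hu => (ENNReal.tsum_le_tsum fun i => mul_le_mul' (ENNReal.ofReal_le_ofReal
      (by nlinarith [h1 i])) le_rfl).trans (h u (Set.Icc_subset_Icc hx hy hu)))
    fun u hu => ne_top_of_le_ne_top ENNReal.ofReal_ne_top
      (tot_le h1 (h u (Set.Icc_subset_Icc hx hy hu)))

theorem cosh_le {y : ℝ} (h : |y| ≤ 1) : cosh y ≤ 1 + y ^ 2 := by
  have h1 : y ^ 2 ≤ 1 := by rw [← sq_abs]; exact pow_le_one₀ (abs_nonneg y) h
  have h2 : |y ^ 2 / 2| = y ^ 2 / 2 := abs_of_nonneg (by positivity)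
  have h3 := Real.abs_exp_sub_one_le (x := y ^ 2 / 2) (by rw [h2]; linarith)
  have h4 := Real.cosh_le_exp_half_sq y
  rw [h2] at h3
  linarith [le_abs_self (exp (y ^ 2 / 2) - 1)]

theorem loc2 (hM : 0 ≤ M) (h1 : ∀ i, 1 ≤ K i) (hT : ∀ i, Tame (K i) (f i))
    (h : ∀ x ∈ Set.Icc α β, ∑' i, ENNReal.ofReal (K i ^ 2) * f i x ≤ ENNReal.ofReal M)
    {x t : ℝ} (t0 : 0 ≤ t) (t1 : ∀ i, K i * t ≤ 1) (hx : α ≤ x - t) (hy : x + t ≤ β) :
    |(∑' i, f i (x + t)).toReal + (∑' i, f i (x - t)).toReal - 2 * (∑' i, f i x).toReal| ≤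
      2 * M * t ^ 2 := by
  have m0 : x ∈ Set.Icc α β := ⟨by linarith, by linarith⟩
  have fin : ∀ y ∈ Set.Icc α β, ∑' i, f i y ≠ ∞ := fun y hy =>
    ne_top_of_le_ne_top ENNReal.ofReal_ne_top (tot_le h1 (h y hy))
  have n0 := fin x m0
  have n1 := fin (x + t) ⟨by linarith, hy⟩
  have n2 := fin (x - t) ⟨hx, by linarith⟩
  have c : ∑' i, ENNReal.ofReal (2 * cosh (K i * t)) * f i x ≤
      2 * ∑' i, f i x + ENNReal.ofReal (2 * M * t ^ 2) := by
    refine le_trans ?_ (add_le_add le_rfl ((mul_le_mul' (le_refl (ENNReal.ofReal (2 * t ^ 2)))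
      (h x m0)).trans (le_of_eq ?_)))
    · rw [← ENNReal.tsum_mul_left, ← ENNReal.tsum_mul_left, ← ENNReal.tsum_add]
      refine ENNReal.tsum_le_tsum fun i => ?_
      rw [← mul_assoc, ← add_mul, ← ENNReal.ofReal_mul (by positivity), ← ENNReal.ofReal_ofNat 2,
        ← ENNReal.ofReal_add (by positivity) (by positivity)]
      refine mul_le_mul' (ENNReal.ofReal_le_ofReal ?_) le_rfl
      have := cosh_le (y := K i * t)
        (by rw [abs_of_nonneg (mul_nonneg (by linarith [h1 i]) t0)]; exact t1 i)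
      nlinarith
    · rw [← ENNReal.ofReal_mul (by positivity)]
      congr 1
      ring
  have n3 : 2 * ∑' i, f i x + ENNReal.ofReal (2 * M * t ^ 2) ≠ ∞ := by finiteness
  have a1 : ∑' i, f i (x + t) + ∑' i, f i (x - t) ≤
      2 * ∑' i, f i x + ENNReal.ofReal (2 * M * t ^ 2) := by
    rw [← ENNReal.tsum_add]
    exact (ENNReal.tsum_le_tsum fun i => (hT i x t).2.1).trans c
  have a2 : 4 * ∑' i, f i x ≤ ∑' i, f i (x + t) + ∑' i, f i (x - t) +
      (2 * ∑' i, f i x + ENNReal.ofReal (2 * M * t ^ 2)) := by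
    refine le_trans ?_ (add_le_add le_rfl c)
    rw [← ENNReal.tsum_add, ← ENNReal.tsum_add, ← ENNReal.tsum_mul_left]
    exact ENNReal.tsum_le_tsum fun i => (hT i x t).2.2
  have b1 := ENNReal.toReal_mono n3 a1
  have b2 := ENNReal.toReal_mono (by finiteness) a2
  rw [ENNReal.toReal_add (by finiteness) n3] at b2
  rw [ENNReal.toReal_add n1 n2, ENNReal.toReal_add (by finiteness) (by finiteness),
    ENNReal.toReal_ofReal (by positivity)] at b1 b2
  simp only [ENNReal.toReal_mul, ENNReal.toReal_ofNat] at b1 b2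
  rw [abs_le]
  constructor <;> linarith

theorem glob (hM : 0 ≤ M) (h1 : ∀ i, 1 ≤ K i) (hT : ∀ i, Tame (K i) (f i))
    (h : ∀ x ∈ Set.Icc α β, ∑' i, ENNReal.ofReal (K i ^ 2) * f i x ≤ ENNReal.ofReal M)
    {B : ℝ} (hB0 : 0 < B) (hB : ∀ i, K i ≤ B) {x t : ℝ} (t0 : 0 ≤ t) (hx : α ≤ x - t)
    (hy : x + t ≤ β) :
    |(∑' i, f i (x + t)).toReal + (∑' i, f i (x - t)).toReal - 2 * (∑' i, f i x).toReal| ≤
      2 * M * t ^ 2 := by
  obtain ⟨F, hF⟩ : ∃ F : ℝ → ℝ, ∀ y, (∑' i, f i y).toReal = F y := ⟨_, fun _ => rfl⟩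
  have c : ContinuousOn F (Set.Icc α β) := by
    refine (LipschitzOnWith.of_dist_le_mul (K := ⟨2 * M, by positivity⟩)
      fun u hu v hv => ?_).continuousOn
    show |F u - F v| ≤ 2 * M * |u - v|
    rcases le_total u v with k | k
    · rw [abs_sub_comm, abs_sub_comm u, abs_of_nonneg (sub_nonneg.2 k), ← hF, ← hF]
      exact first hM h1 hT h hu.1 k hv.2
    · rw [abs_of_nonneg (sub_nonneg.2 k), ← hF, ← hF]
      exact first hM h1 hT h hv.1 k hu.2
  have key : ∀ s : ℝ, (s = 1 ∨ s = -1) →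
      2 * (s * F x) ≤ s * F (x + t) + s * F (x - t) + 2 * M * t ^ 2 := fun s hs => by
    have cv := schw (fun y => s * F y + M * y ^ 2) α β (1 / B) (by positivity)
      ((continuousOn_const.mul c).add (by fun_prop)) fun y u u0 u1 u2 u3 => by
        have := loc2 hM h1 hT h u0 (fun i => ((mul_le_mul_of_nonneg_right (hB i) u0).trans
          (by rwa [le_div_iff₀' hB0] at u1))) u2 u3
        rw [hF, hF, hF, abs_le] at this
        rcases hs with rfl | rfl <;> nlinarith [this.1, this.2]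
    have := cv.2 (show x + t ∈ Set.Icc α β from ⟨by linarith, hy⟩)
      (show x - t ∈ Set.Icc α β from ⟨hx, by linarith⟩) (show (0 : ℝ) ≤ 1 / 2 by norm_num)
      (show (0 : ℝ) ≤ 1 / 2 by norm_num) (by norm_num)
    simp only [smul_eq_mul] at this
    rw [show 1 / 2 * (x + t) + 1 / 2 * (x - t) = x by ring] at this
    nlinarith
  have k1 := key 1 (Or.inl rfl)
  have k2 := key (-1) (Or.inr rfl)
  rw [hF, hF, hF, abs_le]
  constructor <;> linarith

end AnaM

open AnaM in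
theorem lip2 : LIP2Stmt := by
  intro ι f K α β M hM h1 hT h
  refine ⟨fun x hx => tot_le h1 (h x hx), fun x y hx hxy hy => ?_, fun x t t0 hx hy => ?_⟩
  · have := first hM h1 hT h hx hxy hy
    nlinarith [mul_nonneg hM (sub_nonneg.2 hxy)]
  · have lim : ∀ y ∈ Set.Icc α β, Tendsto (fun T : Finset ι => (∑' i : T, f i y).toReal) atTop
        (𝓝 (∑' i, f i y).toReal) := fun y hy => by
      refine (ENNReal.tendsto_toReal (ne_top_of_le_ne_top ENNReal.ofReal_ne_top
        (tot_le h1 (h y hy)))).comp ?_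
      simp only [Finset.tsum_subtype _ fun i => f i y]
      exact ENNReal.summable.hasSum
    refine le_trans (le_of_tendsto' (((lim (x + t) ⟨by linarith, hy⟩).add
      (lim (x - t) ⟨hx, by linarith⟩)).sub
        ((lim x ⟨by linarith, by linarith⟩).const_mul 2)).abs (b := 2 * M * t ^ 2) fun T => ?_)
      (by nlinarith [mul_nonneg hM (sq_nonneg t)])
    have k0 : ∀ i ∈ T, 0 ≤ K i := fun i _ => by linarith [h1 i]
    refine glob (f := fun i : T => f i) (K := fun i : T => K i) hM (fun i => h1 i) (fun i => hT i)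
      (fun y hy => (ENNReal.tsum_comp_le_tsum_of_injective Subtype.val_injective
        fun i => ENNReal.ofReal (K i ^ 2) * f i y).trans (h y hy)) (B := 1 + ∑ i ∈ T, K i)
      (by linarith [Finset.sum_nonneg k0]) (fun i => ?_) t0 hx hy
    linarith [Finset.single_le_sum k0 i.2]

end Pool.Agent.MP_8c549f_pr

/-!
Comparison of an annealed series with its value at a fixed configuration.
-/

set_option autoImplicit false

namespace Pool.Agent.MP_8c549f_pr

open MeasureTheory Filter Topology Real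
open scoped ENNReal NNReal

namespace AbsM

theorem tsum_split {ι : Type} [DecidableEq ι] (I : Finset ι) {f g h : ι → ℝ≥0∞}
    (h1 : ∀ q ∈ I, f q = g q + h q) (h2 : ∀ q ∉ I, f q = h q) :
    ∑' q, f q = ∑ q ∈ I, g q + ∑' q, h q := by
  have e : ∀ q, f q = (if q ∈ I then g q else 0) + h q := fun q => by
    split_ifs with hq
    · exact h1 q hq
    · rw [zero_add, h2 q hq]
  rw [tsum_congr e, ENNReal.tsum_add, tsum_eq_sum (s := I) fun q hq => if_neg hq,
    Finset.sum_congr rfl fun q hq => if_pos hq]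

/-- one term on the good event -/
theorem one {Ω : Type} [MeasurableSpace Ω] (P : Measure Ω) [IsProbabilityMeasure P]
    {F : ℝ → Ω → ℝ≥0∞} {F₀ : ℝ → ℝ≥0∞} {O G : Set Ω} {α β C M θ : ℝ} (hC : 0 ≤ C) (hM : 0 ≤ M)
    (hθ : 0 ≤ θ) (hm : ∀ x, Measurable (F x)) (hO : MeasurableSet O) (hG : MeasurableSet G)
    (h1 : P Oᶜ ≤ ENNReal.ofReal θ) (h2 : O ⊆ G) (h3 : ∀ ω ∈ O, ∀ x, F x ω = F₀ x)
    (h4 : ∀ ω ∈ G, (∀ x ∈ Set.Icc α β, F x ω ≤ ENNReal.ofReal C) ∧
      Ctl (fun x => (F x ω).toReal) α β M)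
    (h5 : ∀ x ∈ Set.Icc α β, F₀ x ≤ ENNReal.ofReal C) (h6 : Ctl (fun x => (F₀ x).toReal) α β M) :
    (∀ x ∈ Set.Icc α β, ∫⁻ ω in G, F x ω ∂P ≠ ∞ ∧
      |(∫⁻ ω in G, F x ω ∂P).toReal - (F₀ x).toReal| ≤ 2 * C * θ) ∧
    Ctl (fun x => (∫⁻ ω in G, F x ω ∂P).toReal - (F₀ x).toReal) α β (2 * M * θ) := by
  have a1 : P.real Oᶜ ≤ θ := ENNReal.toReal_le_of_le_ofReal hθ h1
  have a2 : P.real (G \ O) ≤ θ :=
    (measureReal_mono (fun ω hω => hω.2) (measure_ne_top _ _)).trans a1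
  have a0 : 0 ≤ P.real Oᶜ := measureReal_nonneg
  have b1 : ∀ x ∈ Set.Icc α β, ∫⁻ ω in G \ O, F x ω ∂P ≤ ENNReal.ofReal C * P (G \ O) :=
    fun x hx => by
      rw [← setLIntegral_const]
      exact setLIntegral_mono' (hG.diff hO) fun ω hω => (h4 ω hω.1).1 x hx
  have b2 : ∀ x, ∫⁻ ω in G, F x ω ∂P = F₀ x * P O + ∫⁻ ω in G \ O, F x ω ∂P := fun x => by
    rw [← lintegral_inter_add_sdiff (F x) G hO, Set.inter_eq_right.2 h2,
      setLIntegral_congr_fun hO fun ω hω => h3 ω hω x, setLIntegral_const]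
  have c0 : ∀ x ∈ Set.Icc α β, F₀ x * P O ≠ ∞ := fun x hx =>
    ENNReal.mul_ne_top (ne_top_of_le_ne_top ENNReal.ofReal_ne_top (h5 x hx)) (measure_ne_top _ _)
  have c1 : ∀ x ∈ Set.Icc α β, ∫⁻ ω in G \ O, F x ω ∂P ≠ ∞ := fun x hx => ne_top_of_le_ne_top
    (ENNReal.mul_ne_top ENNReal.ofReal_ne_top (measure_ne_top _ _)) (b1 x hx)
  have e : ∀ x ∈ Set.Icc α β, (∫⁻ ω in G \ O, F x ω ∂P).toReal - P.real Oᶜ * (F₀ x).toReal =
      (∫⁻ ω in G, F x ω ∂P).toReal - (F₀ x).toReal := fun x hx => by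
    rw [b2, ENNReal.toReal_add (c0 x hx) (c1 x hx), ENNReal.toReal_mul, probReal_compl_eq_one_sub hO,
      measureReal_def]
    ring
  refine ⟨fun x hx => ⟨?_, ?_⟩, ?_⟩
  · rw [b2]; exact ENNReal.add_ne_top.2 ⟨c0 x hx, c1 x hx⟩
  · have d1 : (∫⁻ ω in G \ O, F x ω ∂P).toReal ≤ C * θ := by
      refine (ENNReal.toReal_mono (ENNReal.mul_ne_top ENNReal.ofReal_ne_top (measure_ne_top _ _))
        (b1 x hx)).trans ?_
      rw [ENNReal.toReal_mul, ENNReal.toReal_ofReal hC]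
      exact mul_le_mul_of_nonneg_left a2 hC
    have d2 : P.real Oᶜ * (F₀ x).toReal ≤ θ * C :=
      mul_le_mul a1 (ENNReal.toReal_le_of_le_ofReal hC (h5 x hx)) ENNReal.toReal_nonneg hθ
    have d3 : 0 ≤ P.real Oᶜ * (F₀ x).toReal := mul_nonneg a0 ENNReal.toReal_nonneg
    have d4 : 0 ≤ (∫⁻ ω in G \ O, F x ω ∂P).toReal := ENNReal.toReal_nonneg
    rw [← e x hx, abs_le]
    constructor <;> nlinarith
  · refine Ctl.congr (((ctl_lintegral P ENNReal.ofReal_ne_top (hG.diff hO) hm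
      (fun x hx ω hω => (h4 ω hω.1).1 x hx) fun ω hω => (h4 ω hω.1).2).sub
      (h6.const_mul (P.real Oᶜ))).mono ?_) e
    rw [abs_of_nonneg a0]
    nlinarith [mul_le_mul_of_nonneg_left a1 hM, mul_le_mul_of_nonneg_left a2 hM]

end AbsM

open AbsM in
theorem abs2 (hL : LIP2Stmt) : ABSStmt := by
  intro D ι _ _ P _ F F₀ K I O G α β C M τ θ hC hM hτ hθ hK hF hF₀ hm hOG hI h1 h0
  obtain ⟨r1, R1⟩ := hL ι
    (fun q x => ∫⁻ ω in (if q ∈ I then (G q)ᶜ else Set.univ), F q x ω ∂P) K α β τ hτ hK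
    (fun q => tame_lintegral _ (hm q) (hF q)) h1
  obtain ⟨r0, R0⟩ := hL ι (fun q x => if q ∈ I then 0 else F₀ q x) K α β τ hτ hK
    (fun q => by
      split_ifs
      · exact tame_const (zero_le_one.trans (hK q)) 0
      · exact hF₀ q)
    (fun x hx => by simpa only [mul_ite, mul_zero] using h0 x hx)
  have ho := fun q (hq : q ∈ I) => AbsM.one P hC hM hθ (hm q) (hOG q).1 (hOG q).2 (hI q hq).1
    (hI q hq).2.1 (hI q hq).2.2.1 (hI q hq).2.2.2.1 (hI q hq).2.2.2.2.1 (hI q hq).2.2.2.2.2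
  have t1 : ∀ x, ∑' q, ∫⁻ ω, F q x ω ∂P = ∑ q ∈ I, ∫⁻ ω in G q, F q x ω ∂P +
      ∑' q, ∫⁻ ω in (if q ∈ I then (G q)ᶜ else Set.univ), F q x ω ∂P := fun x =>
    tsum_split I (fun q hq => by rw [if_pos hq, lintegral_add_compl _ (hOG q).2])
      fun q hq => by rw [if_neg hq, Measure.restrict_univ]
  have t0 : ∀ x, ∑' q, F₀ q x = ∑ q ∈ I, F₀ q x + ∑' q, if q ∈ I then 0 else F₀ q x := fun x =>
    tsum_split I (fun q hq => by rw [if_pos hq, add_zero]) fun q hq => by rw [if_neg hq]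
  have n0 : ∀ x ∈ Set.Icc α β, ∀ q ∈ I, F₀ q x ≠ ∞ := fun x hx q hq =>
    ne_top_of_le_ne_top ENNReal.ofReal_ne_top ((hI q hq).2.2.2.2.1 x hx)
  have n1 : ∀ x ∈ Set.Icc α β, ∀ q ∈ I, ∫⁻ ω in G q, F q x ω ∂P ≠ ∞ := fun x hx q hq =>
    ((ho q hq).1 x hx).1
  have m0 := fun x hx => ne_top_of_le_ne_top ENNReal.ofReal_ne_top (r0 x hx)
  have m1 := fun x hx => ne_top_of_le_ne_top ENNReal.ofReal_ne_top (r1 x hx)
  have e0 : ∀ x ∈ Set.Icc α β, ∑ q ∈ I, (F₀ q x).toReal +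
      (∑' q, if q ∈ I then 0 else F₀ q x).toReal = (∑' q, F₀ q x).toReal := fun x hx => by
    rw [t0, ENNReal.toReal_add (ENNReal.sum_ne_top.2 (n0 x hx)) (m0 x hx),
      ENNReal.toReal_sum (n0 x hx)]
  have e1 : ∀ x ∈ Set.Icc α β,
      ∑ q ∈ I, ((∫⁻ ω in G q, F q x ω ∂P).toReal - (F₀ q x).toReal) +
      ((∑' q, ∫⁻ ω in (if q ∈ I then (G q)ᶜ else Set.univ), F q x ω ∂P).toReal -
        (∑' q, if q ∈ I then 0 else F₀ q x).toReal) =
      (∑' q, ∫⁻ ω, F q x ω ∂P).toReal - (∑' q, F₀ q x).toReal := fun x hx => by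
    rw [← e0 x hx, t1, ENNReal.toReal_add (ENNReal.sum_ne_top.2 (n1 x hx)) (m1 x hx),
      ENNReal.toReal_sum (n1 x hx), Finset.sum_sub_distrib]
    ring
  refine ⟨fun x hx => ⟨?_, ?_, ?_, ?_⟩, ?_, ?_⟩
  · rw [t1]; exact ENNReal.add_ne_top.2 ⟨ENNReal.sum_ne_top.2 (n1 x hx), m1 x hx⟩
  · rw [t0]; exact ENNReal.add_ne_top.2 ⟨ENNReal.sum_ne_top.2 (n0 x hx), m0 x hx⟩
  · rw [← e0 x hx]
    refine add_le_add ?_ (ENNReal.toReal_le_of_le_ofReal hτ (r0 x hx))
    rw [← nsmul_eq_mul]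
    exact Finset.sum_le_card_nsmul _ _ _ fun q hq =>
      ENNReal.toReal_le_of_le_ofReal hC ((hI q hq).2.2.2.2.1 x hx)
  · rw [← e1 x hx]
    refine (abs_add_le _ _).trans (add_le_add ((Finset.abs_sum_le_sum_abs _ _).trans ?_) ?_)
    · refine (Finset.sum_le_card_nsmul _ _ _ fun q hq => ((ho q hq).1 x hx).2).trans (le_of_eq ?_)
      rw [nsmul_eq_mul]; ring
    · have a := ENNReal.toReal_le_of_le_ofReal hτ (r0 x hx)
      have b := ENNReal.toReal_le_of_le_ofReal hτ (r1 x hx)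
      refine (abs_sub _ _).trans ?_
      rw [abs_of_nonneg ENNReal.toReal_nonneg, abs_of_nonneg ENNReal.toReal_nonneg]
      linarith
  · refine Ctl.congr (((ctl_sum I fun q hq => (ho q hq).2).add (R1.sub R0)).mono (le_of_eq ?_)) e1
    rw [Finset.sum_const, nsmul_eq_mul]; ring
  · refine Ctl.congr (((ctl_sum I fun q hq => (hI q hq).2.2.2.2.2).add R0).mono (le_of_eq ?_)) e0
    rw [Finset.sum_const, nsmul_eq_mul]

end Pool.Agent.MP_8c549f_pr

/-!
Quasi-concavity from second differences: the purely real part of the argument.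
-/

set_option autoImplicit false

namespace Pool.Agent.MP_8c549f_pr

open Real

namespace QcM

noncomputable def G (D u : ℝ) : ℝ := (2 * u ^ 2 + 2 * D * u) / (1 - u ^ 2)

noncomputable def H (D u : ℝ) : ℝ := 2 * u ^ 2 * (1 + D * u) / (1 - u ^ 2)

theorem den {u : ℝ} (h0 : 0 ≤ u) (h : u ≤ 1 / 2) : 3 / 4 ≤ 1 - u ^ 2 := by nlinarith

theorem G_sub {D u v : ℝ} (hD : 1 ≤ D) (hv : 0 ≤ v) (huv : v ≤ u) (hu : u ≤ 1 / 2) :
    0 ≤ G D u - G D v ∧ G D u - G D v ≤ 8 * D * (u - v) := by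
  have h1 := den (hv.trans huv) hu
  have h2 := den hv (huv.trans hu)
  have hu0 : 0 ≤ u := hv.trans huv
  have hd : 9 / 16 ≤ (1 - u ^ 2) * (1 - v ^ 2) := by nlinarith
  have e : G D u - G D v =
      (u - v) * (2 * (u + v) + 2 * D + 2 * D * (u * v)) / ((1 - u ^ 2) * (1 - v ^ 2)) := by
    unfold G
    have a : 1 - u ^ 2 ≠ 0 := by linarith
    have b : 1 - v ^ 2 ≠ 0 := by linarith
    field_simp
    ring
  have huv' : 0 ≤ u - v := sub_nonneg.2 huv
  have hp : 0 ≤ u * v := mul_nonneg hu0 hv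
  have hq : u * v ≤ 1 / 4 := by nlinarith
  have hn0 : 0 ≤ 2 * (u + v) + 2 * D + 2 * D * (u * v) := by positivity
  have hn1 : 2 * (u + v) + 2 * D + 2 * D * (u * v) ≤ 9 / 2 * D := by nlinarith
  rw [e]
  refine ⟨div_nonneg (mul_nonneg huv' hn0) (by linarith), ?_⟩
  rw [div_le_iff₀ (by linarith)]
  have k1 : (u - v) * (2 * (u + v) + 2 * D + 2 * D * (u * v)) ≤ (u - v) * (9 / 2 * D) :=
    mul_le_mul_of_nonneg_left hn1 huv'
  have k2 : 8 * D * (u - v) * (9 / 16) ≤ 8 * D * (u - v) * ((1 - u ^ 2) * (1 - v ^ 2)) :=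
    mul_le_mul_of_nonneg_left hd (by positivity)
  linarith

theorem G_zero (D : ℝ) : G D 0 = 0 := by simp [G]

theorem G_eq {D u : ℝ} (h0 : 0 ≤ u) (h : u ≤ 1 / 2) : G D u = 2 * D * u + H D u := by
  have h1 := den h0 h
  unfold G H
  have a : 1 - u ^ 2 ≠ 0 := by linarith
  field_simp
  ring

theorem H_nonneg {D u : ℝ} (hD : 0 ≤ D) (h0 : 0 ≤ u) (h : u ≤ 1 / 2) : 0 ≤ H D u := by
  have h1 := den h0 h
  exact div_nonneg (by positivity) (by linarith)

theorem H_mid {D u p q : ℝ} (hD : 0 ≤ D) (hu : 0 ≤ u) (hp : 0 ≤ p) (hq : 0 ≤ q)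
    (hu' : u ≤ 1 / 2) (hp' : p ≤ 1 / 2) (hq' : q ≤ 1 / 2) (h : p * q = u ^ 2) :
    2 * H D u ≤ H D p + H D q := by
  have h1 := den hu hu'
  have h2 := den hp hp'
  have h3 := den hq hq'
  have s1 : 2 * u ≤ p + q := by
    refine abs_le_of_sq_le_sq' ?_ (by positivity) |>.2
    nlinarith [sq_nonneg (p - q)]
  have s2 : (1 + D * u) ^ 2 ≤ (1 + D * p) * (1 + D * q) := by
    have : (1 + D * p) * (1 + D * q) = 1 + D * (p + q) + D ^ 2 * (p * q) := by ring
    rw [this, h]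
    nlinarith [mul_le_mul_of_nonneg_left s1 hD]
  have s3 : (1 - p ^ 2) * (1 - q ^ 2) ≤ (1 - u ^ 2) ^ 2 := by
    have : (1 - p ^ 2) * (1 - q ^ 2) = 1 - (p ^ 2 + q ^ 2) + (p * q) ^ 2 := by ring
    rw [this, h]
    nlinarith [sq_nonneg (p - q)]
  have s4 : H D u ^ 2 ≤ H D p * H D q := by
    unfold H
    rw [div_pow, div_mul_div_comm]
    have e : 2 * p ^ 2 * (1 + D * p) * (2 * q ^ 2 * (1 + D * q)) =
        4 * (p * q) ^ 2 * ((1 + D * p) * (1 + D * q)) := by ring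
    rw [e, h]
    refine div_le_div₀ (by positivity) ?_ (mul_pos (by linarith) (by linarith)) s3
    have e' : (2 * u ^ 2 * (1 + D * u)) ^ 2 = 4 * (u ^ 2) ^ 2 * (1 + D * u) ^ 2 := by ring
    rw [e']
    exact mul_le_mul_of_nonneg_left s2 (by positivity)
  refine (abs_le_of_sq_le_sq' ?_ (add_nonneg (H_nonneg hD hp hp') (H_nonneg hD hq hq'))).2
  nlinarith [sq_nonneg (H D p - H D q)]

theorem cosh_lb {t : ℝ} (ht : 0 ≤ t) : t ^ 2 ≤ exp t + exp (-t) - 2 := by
  have h1 : t / 2 ≤ sinh (t / 2) := self_le_sinh_iff.2 (by linarith)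
  have h2 : exp t + exp (-t) - 2 = (2 * sinh (t / 2)) ^ 2 := by
    have a : exp t = exp (t / 2) * exp (t / 2) := by rw [← exp_add]; congr 1; ring
    have b : exp (-t) = exp (-(t / 2)) * exp (-(t / 2)) := by rw [← exp_add]; congr 1; ring
    have d : exp (t / 2) * exp (-(t / 2)) = 1 := by rw [← exp_add]; simp
    rw [sinh_eq, a, b]
    nlinarith
  rw [h2]
  exact pow_le_pow_left₀ ht (by linarith) 2

/-- the ratio at `p = 1` -/
noncomputable def F (D x : ℝ) : ℝ := 1 + G D (exp (-x))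

variable {D α : ℝ}

theorem F_bd (hD : 1 ≤ D) (hE : exp (-α) ≤ 1 / 2) {x : ℝ} (hx : α ≤ x) :
    1 ≤ F D x ∧ F D x ≤ 1 + 8 * D * exp (-α) := by
  have h1 : exp (-x) ≤ exp (-α) := exp_le_exp.2 (by linarith)
  have h := G_sub hD le_rfl (exp_pos (-x)).le (h1.trans hE)
  rw [G_zero] at h
  have h2 : 8 * D * exp (-x) ≤ 8 * D * exp (-α) := mul_le_mul_of_nonneg_left h1 (by linarith)
  unfold F
  constructor <;> linarith [h.1, h.2]

theorem F_lip (hD : 1 ≤ D) (hE : exp (-α) ≤ 1 / 2) {x y : ℝ} (hx : α ≤ x) (hxy : x ≤ y) :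
    |F D y - F D x| ≤ 8 * D * exp (-α) * (y - x) := by
  have h1 : exp (-x) ≤ exp (-α) := exp_le_exp.2 (by linarith)
  have h0 : exp (-y) ≤ exp (-x) := exp_le_exp.2 (by linarith)
  have h := G_sub hD (exp_pos (-y)).le h0 (h1.trans hE)
  have e : exp (-y) = exp (-x) * exp (-(y - x)) := by rw [← exp_add]; congr 1; ring
  have h3 : exp (-x) - exp (-y) ≤ exp (-α) * (y - x) := by
    have a := add_one_le_exp (-(y - x))
    have b : exp (-x) * (1 - (y - x)) ≤ exp (-x) * exp (-(y - x)) :=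
      mul_le_mul_of_nonneg_left (by linarith) (exp_pos _).le
    have d : exp (-x) * (y - x) ≤ exp (-α) * (y - x) :=
      mul_le_mul_of_nonneg_right h1 (by linarith)
    rw [e]; linarith
  have h4 : 8 * D * (exp (-x) - exp (-y)) ≤ 8 * D * (exp (-α) * (y - x)) :=
    mul_le_mul_of_nonneg_left h3 (by linarith)
  unfold F
  rw [abs_sub_comm, abs_of_nonneg (by linarith [h.1])]
  linarith [h.2]

theorem F_two (hD : 1 ≤ D) (hE : exp (-α) ≤ 1 / 2) {x t : ℝ} (ht : 0 ≤ t) (hx : α ≤ x - t)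
    (hx' : x ≤ α + 1) : 2 / 3 * exp (-α) * t ^ 2 ≤ F D (x + t) + F D (x - t) - 2 * F D x := by
  have k : ∀ w, α ≤ w → exp (-w) ≤ 1 / 2 := fun w hw =>
    (exp_le_exp.2 (by linarith)).trans hE
  have a1 := k x (by linarith)
  have a2 := k (x + t) (by linarith)
  have a3 := k (x - t) hx
  have m : exp (-(x + t)) * exp (-(x - t)) = exp (-x) ^ 2 := by
    rw [sq, ← exp_add, ← exp_add]; congr 1; ring
  have h := H_mid (D := D) (by linarith) (exp_pos _).le (exp_pos _).le (exp_pos _).le a1 a2 a3 m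
  have e1 : exp (-(x + t)) = exp (-x) * exp (-t) := by rw [← exp_add]; congr 1; ring
  have e2 : exp (-(x - t)) = exp (-x) * exp t := by rw [← exp_add]; congr 1; ring
  have b1 : exp (-α) ≤ 3 * exp (-x) := by
    have c1 : exp (-α) ≤ exp (-x) * exp 1 := by
      rw [← exp_add]; exact exp_le_exp.2 (by linarith)
    have c2 : exp 1 ≤ 3 := exp_one_lt_d9.le.trans (by norm_num)
    have c3 := mul_le_mul_of_nonneg_left c2 (exp_pos (-x)).le
    linarith
  have b2 : exp (-x) * t ^ 2 ≤ exp (-(x + t)) + exp (-(x - t)) - 2 * exp (-x) := by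
    have := mul_le_mul_of_nonneg_left (cosh_lb ht) (exp_pos (-x)).le
    rw [e1, e2]; linarith
  have b3 : exp (-α) * t ^ 2 ≤ 3 * exp (-x) * t ^ 2 := mul_le_mul_of_nonneg_right b1 (sq_nonneg t)
  have b4 : 0 ≤ exp (-x) * t ^ 2 := by positivity
  have b5 : 1 * (exp (-(x + t)) + exp (-(x - t)) - 2 * exp (-x)) ≤
      D * (exp (-(x + t)) + exp (-(x - t)) - 2 * exp (-x)) :=
    mul_le_mul_of_nonneg_right hD (by linarith)
  unfold F
  rw [G_eq (exp_pos _).le a1, G_eq (exp_pos _).le a2, G_eq (exp_pos _).le a3]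
  linarith

theorem F_cont (hE : exp (-α) ≤ 1 / 2) (β : ℝ) : ContinuousOn (F D) (Set.Icc α β) := by
  unfold F G
  refine continuousOn_const.add (ContinuousOn.div (by fun_prop) (by fun_prop) fun x hx => ?_)
  have h1 : exp (-x) ≤ exp (-α) := exp_le_exp.2 (by linarith [hx.1])
  have := den (exp_pos (-x)).le (h1.trans hE)
  linarith

theorem F_eq {n : ℕ} (hE : exp (-α) ≤ 1 / 2) {x a₀ b₀ : ℝ} (hx : α ≤ x)
    (h : a₀ * (exp x - exp (-x)) = b₀ * Zf n x) : a₀ = b₀ * F n x := by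
  have h1 : exp (-x) ≤ exp (-α) := exp_le_exp.2 (by linarith)
  have h2 := den (exp_pos (-x)).le (h1.trans hE)
  have h3 : exp x * exp (-x) = 1 := by rw [← exp_add]; simp
  have h4 : 1 - exp (-x) ^ 2 ≠ 0 := by linarith
  unfold Zf at h
  unfold F G
  generalize exp (-x) = u at *
  generalize exp x = L at *
  have h5 : a₀ * (1 - u ^ 2) = b₀ * (1 + u ^ 2 + 2 * n * u) := by
    have : a₀ * (L - u) * u = b₀ * (L + u + 2 * n) * u := by rw [h]
    linear_combination this + (b₀ - a₀) * h3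
  field_simp
  linear_combination h5

theorem abs_mul_le {a b A B : ℝ} (ha : |a| ≤ A) (hb : |b| ≤ B) : -(A * B) ≤ a * b := by
  have : |a * b| ≤ A * B := by
    rw [abs_mul]; exact mul_le_mul ha hb (abs_nonneg _) ((abs_nonneg _).trans ha)
  exact (abs_le.1 this).1

end QcM

open QcM in
theorem qc (hS : SCHWStmt) : QCStmt := by
  intro n hn c C hc hC
  have hD : (1 : ℝ) ≤ n := by exact_mod_cast hn
  obtain ⟨c₀, hc₀, hc₀C⟩ : ∃ c₀ : ℝ, 0 < c₀ ∧ c₀ * C = 1 / 30 :=
    ⟨1 / (30 * C), by positivity, by field_simp⟩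
  have hc1 : c₀ ≤ 1 / 30 := hc₀C ▸ le_mul_of_one_le_right hc₀.le hC
  obtain ⟨ε, hε, hε1, hε2, hε3⟩ : ∃ ε : ℝ, 0 < ε ∧ ε ≤ 1 / 2 ∧ 16 * n * ε ≤ c₀ ∧
      ε * (3 + 8 * n * C + C) ≤ c * c₀ / 16 := by
    refine ⟨min (1 / 2) (min (c₀ / (16 * n)) (c * c₀ / 16 / (3 + 8 * n * C + C))),
      by positivity, min_le_left _ _, ?_, ?_⟩
    · rw [mul_comm, ← le_div_iff₀ (by positivity)]
      exact (min_le_right _ _).trans (min_le_left _ _)
    · rw [← le_div_iff₀ (by positivity)]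
      exact (min_le_right _ _).trans (min_le_right _ _)
  refine ⟨c₀ / 32, -log ε, by positivity, ?_⟩
  intro α β f a b a₀ b₀ hα hβ hf0 hfc hf2 hf1 hb hA hB hB0 x y z κ hx hxy hyz hz gx gz h
  have hEε : exp (-α) ≤ ε := by
    rw [← exp_log hε]; exact exp_le_exp.2 (by linarith)
  have hE : exp (-α) ≤ 1 / 2 := hEε.trans hε1
  have hE0 : 0 < exp (-α) := exp_pos _
  have hE2 : 16 * n * exp (-α) ≤ c₀ := (mul_le_mul_of_nonneg_left hEε (by positivity)).trans hε2
  have hE3 : exp (-α) * (3 + 8 * n * C + C) ≤ c * c₀ / 16 :=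
    (mul_le_mul_of_nonneg_right hEε (by positivity)).trans hε3
  have mx : x ∈ Set.Icc α β := ⟨hx, hxy.le.trans (hyz.le.trans hz)⟩
  have my : y ∈ Set.Icc α β := ⟨hx.trans hxy.le, hyz.le.trans hz⟩
  have mz : z ∈ Set.Icc α β := ⟨my.1.trans hyz.le, hz⟩
  have Fb : ∀ w ∈ Set.Icc α β, 1 ≤ F n w ∧ F n w ≤ 1 + c₀ / 2 := fun w hw =>
    ⟨(F_bd hD hE hw.1).1, by linarith only [(F_bd hD hE hw.1).2, hE2]⟩
  have Fe : ∀ w ∈ Set.Icc α β, a₀ w = b₀ w * F n w := fun w hw =>
    F_eq hE hw.1 (hb w hw).2.2.1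
  obtain ⟨g, hg⟩ : ∃ g : ℝ → ℝ, ∀ w, g w =
      f h w + (a w - a₀ w) - κ * (b w - b₀ w) + b₀ w * (F n w - κ) := ⟨_, fun _ => rfl⟩
  have ge : ∀ w ∈ Set.Icc α β, g w = a w + f h w - κ * b w := fun w hw => by
    rw [hg, Fe w hw]; ring
  have gx' : g x ≤ 0 := by rw [ge x mx]; exact sub_nonpos.2 (gx h)
  have gz' : g z ≤ 0 := by rw [ge z mz]; exact sub_nonpos.2 (gz h)
  suffices k : g y ≤ 0 by rw [ge y my] at k; exact sub_nonpos.1 k
  have hκ : 1 - c₀ / 8 ≤ κ := by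
    obtain ⟨b1, -, -, b3, b4⟩ := hb x mx
    have b5 := abs_le.1 b3
    have b6 := abs_le.1 b4
    have b7 : b₀ x * 1 ≤ b₀ x * F n x := mul_le_mul_of_nonneg_left (Fb x mx).1 (by linarith only [b1])
    have b8 := Fe x mx
    have b9 := gx h
    have b10 := (hf0 h x mx).1
    by_contra hlt
    push Not at hlt
    have b11 : κ * b x ≤ (1 - c₀ / 8) * b x := mul_le_mul_of_nonneg_right hlt.le (by linarith only [b1, b6.1, hc1])
    have b12 : (1 - c₀ / 8) * b x ≤ (1 - c₀ / 8) * (b₀ x + c₀ / 32) :=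
      mul_le_mul_of_nonneg_left (by linarith only [b6.2]) (by linarith only [hc1])
    have b13 : c₀ * (1 / 2) ≤ c₀ * b₀ x := mul_le_mul_of_nonneg_left b1 hc₀.le
    have b14 : 0 < c₀ * c₀ := mul_pos hc₀ hc₀
    linarith only [b5.1, b7, b8, b9, b10, b11, b12, b13, b14]
  rcases le_or_gt κ (1 + c₀) with hk | hk
  · obtain ⟨δ, hδ, hf2⟩ := hf2 h
    have gc : ContinuousOn g (Set.Icc α β) := by
      rw [show g = fun w => f h w + (a w - a₀ w) - κ * (b w - b₀ w) + b₀ w * (F n w - κ) from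
        funext hg]
      exact (((hfc h).add hA.continuousOn).sub (continuousOn_const.mul hB.continuousOn)).add
        (hB0.continuousOn.mul ((F_cont hE β).sub continuousOn_const))
    have cv : ConvexOn ℝ (Set.Icc α β) g := by
      refine hS g α β δ hδ gc fun w t ht htδ h1 h2 => ?_
      have mw : w ∈ Set.Icc α β := ⟨by linarith only [h1, ht], by linarith only [h2, ht]⟩
      have e1 := hf2 w t ht htδ h1 h2
      have e2 := (abs_le.1 (hA.2 w t ht h1 h2)).1
      have e3 : |-κ| ≤ 2 := by rw [abs_le]; constructor <;> linarith only [hk, hκ, hc1]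
      have e4 := abs_mul_le e3 (hB.2 w t ht h1 h2)
      have e5 : |F n w - κ| ≤ c₀ := by
        rw [abs_le]; constructor <;> linarith only [(Fb w mw).1, (Fb w mw).2, hk, hκ, hc₀]
      have e6 := abs_mul_le e5 (hB0.2 w t ht h1 h2)
      have e7 := abs_mul_le (hB0.1 w (w + t) mw.1 (le_add_of_nonneg_right ht) h2)
        (F_lip hD hE mw.1 (le_add_of_nonneg_right ht))
      have e8 := abs_mul_le (hB0.1 (w - t) w h1 (sub_le_self w ht) mw.2)
        (F_lip hD hE h1 (sub_le_self w ht))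
      have e9 := F_two hD hE ht h1 (mw.2.trans hβ)
      have p0 : 0 ≤ exp (-α) * t ^ 2 := by positivity
      have e10 : 1 / 2 * (2 / 3 * exp (-α) * t ^ 2) ≤
          b₀ w * (F n (w + t) + F n (w - t) - 2 * F n w) :=
        mul_le_mul (hb w mw).1 e9 (by positivity) (by linarith only [(hb w mw).1])
      rw [show w + t - w = t by ring] at e7
      rw [show w - (w - t) = t by ring] at e8
      have q1 : c₀ * (C * exp (-α) * t ^ 2) = 1 / 30 * (exp (-α) * t ^ 2) := by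
        rw [← hc₀C]; ring
      have q2 : 16 * n * exp (-α) * (C * (exp (-α) * t ^ 2)) ≤ c₀ * (C * (exp (-α) * t ^ 2)) :=
        mul_le_mul_of_nonneg_right hE2 (by positivity)
      have q3 : c₀ * (exp (-α) * t ^ 2) ≤ 1 / 30 * (exp (-α) * t ^ 2) :=
        mul_le_mul_of_nonneg_right hc1 p0
      rw [hg, hg, hg]
      linarith only [e1, e2, e4, e6, e7, e8, e10, p0, q1, q2, q3]
    exact (cv.le_max_of_mem_Icc mx mz ⟨hxy.le, hyz.le⟩).trans (max_le gx' gz')
  · by_contra hy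
    push Not at hy
    obtain ⟨b1, b2, -, b3, b4⟩ := hb y my
    have b5 := abs_le.1 b3
    have hκ1 : 1 ≤ κ := by linarith only [hk, hc₀]
    have hκ0 : 0 ≤ κ := zero_le_one.trans hκ1
    have e3 : |-κ| ≤ κ := by rw [abs_neg, abs_of_nonneg hκ0]
    have b6 := abs_mul_le (a := κ) (A := κ) (abs_of_nonneg hκ0).le b4
    have k1 : κ * c₀ / 4 ≤ κ - F n y := by
      have := (Fb y my).2
      have t1 : (κ - (1 + c₀)) * c₀ ≤ (κ - (1 + c₀)) * (1 / 30) :=
        mul_le_mul_of_nonneg_left hc1 (sub_nonneg.2 hk.le)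
      have t2 : c₀ * c₀ ≤ c₀ * (1 / 30) := mul_le_mul_of_nonneg_left hc1 hc₀.le
      linarith only [this, t1, t2, hk, hc₀]
    have k0 : 0 ≤ κ * c₀ := by positivity
    have k2 : 1 / 2 * (κ * c₀ / 4) ≤ b₀ y * (κ - F n y) :=
      mul_le_mul b1 k1 (by positivity) (by linarith only [b1])
    have k3 : κ * c₀ / 16 ≤ f h y := by
      have t1 : 1 * c₀ ≤ κ * c₀ := mul_le_mul_of_nonneg_right hκ1 hc₀.le
      rw [hg] at hy
      linarith only [hy, t1, k2, b5.2, b6]
    have hs : 0 ≤ z - y := sub_nonneg.2 hyz.le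
    have e1 := hf1 h y z my.1 hyz.le hz
    have e2 := (abs_le.1 (hA.1 y z my.1 hyz.le hz)).1
    have e4 := abs_mul_le e3 (hB.1 y z my.1 hyz.le hz)
    have e5 : |F n y - κ| ≤ κ := by
      rw [abs_le]; constructor <;> linarith only [(Fb y my).1, k1, k0, hκ0]
    have e6 := abs_mul_le e5 (hB0.1 y z my.1 hyz.le hz)
    have e7 : |b₀ z| ≤ C := by
      rw [abs_of_nonneg (by linarith only [(hb z mz).1])]; exact (hb z mz).2.1
    have e8 := abs_mul_le e7 (F_lip hD hE my.1 hyz.le)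
    have p0 : 0 ≤ exp (-α) * (z - y) := by positivity
    have q1 : (z - y) * (c * (κ * c₀ / 16)) ≤ (z - y) * (c * f h y) :=
      mul_le_mul_of_nonneg_left (mul_le_mul_of_nonneg_left k3 hc.le) hs
    have q2 : κ * (z - y) * (exp (-α) * (3 + 8 * n * C + C)) ≤ κ * (z - y) * (c * c₀ / 16) :=
      mul_le_mul_of_nonneg_left hE3 (by positivity)
    have q3 : 1 * (exp (-α) * (z - y)) ≤ κ * (exp (-α) * (z - y)) :=
      mul_le_mul_of_nonneg_right hκ1 p0
    have q4 : c₀ * (exp (-α) * (z - y)) ≤ 1 / 30 * (exp (-α) * (z - y)) :=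
      mul_le_mul_of_nonneg_right hc1 p0
    have q5 : c₀ * (κ * (exp (-α) * (z - y))) ≤ 1 / 30 * (κ * (exp (-α) * (z - y))) :=
      mul_le_mul_of_nonneg_right hc1 (by positivity)
    have q6 : 1 * (8 * n * C * (exp (-α) * (z - y))) ≤ κ * (8 * n * C * (exp (-α) * (z - y))) :=
      mul_le_mul_of_nonneg_right hκ1 (by positivity)
    have : g y ≤ g z := by
      rw [hg, hg]
      linarith only [e1, e2, e4, e6, e8, p0, q1, q2, q3, q4, q5, q6]
    linarith only [this, hy, gz']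

end Pool.Agent.MP_8c549f_pr

/-!
The final statement of the second part from the modules.
-/

set_option autoImplicit false

namespace Pool.Agent.MP_8c549f_pr

open MeasureTheory Filter Topology Real
open scoped ENNReal NNReal

theorem ABu_mono (D : ℕ) (p lam : ℝ) (h : ℕ) : ABu D p lam h ≤ ABu D p lam (h + 1) := by
  refine ENNReal.tsum_le_tsum fun S => ?_
  by_cases a : ht (e0 D) S ≤ h
  · rw [if_pos a, if_pos (a.trans (Nat.le_succ h))]
  · rw [if_neg a]; exact zero_le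

theorem win (hN : NICEStmt) (hQ : QRStmt) (hS : SPLITStmt) (hB : BUSHStmt) (hA : REGAStmt)
    (hR : REGBStmt) (h0 : REG0Stmt) (hC : QCStmt) : WINStmt := by
  intro D hD
  have hD1 : 1 ≤ D := by omega
  obtain ⟨c, hc, hB⟩ := hB D hD
  obtain ⟨C, hC1, hR⟩ := hR D hD
  obtain ⟨ζ, x₀, hζ, hC⟩ := hC D hD1 c C hc hC1
  obtain ⟨x₁, h0⟩ := h0 D hD1
  obtain ⟨e1, he1, hB⟩ := hB ζ hζ
  obtain ⟨e2, he2, hR⟩ := hR ζ hζ
  obtain ⟨e3, he3, hA⟩ := hA D hD ζ hζ
  obtain ⟨e4, he4, hS⟩ := hS D hD1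
  obtain ⟨e5, he5, hN⟩ := hN D hD1 1 one_pos
  obtain ⟨q₀, e6, hq, he6, hq0⟩ := q0S D hD1 1 one_pos
  obtain ⟨e7, he7, hO⟩ := oneS D hD1 1 one_pos
  obtain ⟨e8, he8, hW⟩ := win_mu hD (max 1 (max x₀ x₁))
  refine ⟨min (min (min e1 e2) (min e3 e4)) (min (min e5 e6) (min e7 e8)), by positivity, ?_⟩
  intro p α β hp hw x y z hx hxy hyz hz
  have k : ∀ {e : ℝ}, min (min (min e1 e2) (min e3 e4)) (min (min e5 e6) (min e7 e8)) ≤ e →
      1 - e ≤ p := fun h => by linarith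
  have p1 := hw.1
  have hαβ := hw.2.1
  obtain ⟨μ, m1, -, p0, m2, -⟩ := hW p α (k (by simp)) p1 (hw.mem ⟨le_rfl, hαβ⟩).1
    (hw.mem ⟨le_rfl, hαβ⟩).2
  have a1 : 1 ≤ α := (le_max_left _ _).trans (m1.trans m2)
  have a2 : x₀ ≤ α := ((le_max_left _ _).trans (le_max_right _ _)).trans (m1.trans m2)
  have a3 : x₁ ≤ α := ((le_max_right _ _).trans (le_max_right _ _)).trans (m1.trans m2)
  replace hB := hB p α β (k (by simp)) hw
  obtain ⟨R1, R2, R3⟩ := hR p α β (k (by simp)) hw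
  obtain ⟨A1, A2⟩ := hA p α β (k (by simp)) hw
  have hp0 : 0 ≤ p := by linarith
  have key : ∀ w ∈ Set.Icc α β, 0 < (BT D p w).toReal ∧ BT D p w ≤ AT D p w ∧
      BR D p w / AR D p w = (BT D p w).toReal / (AT D p w).toReal ∧
      AT D p w = AReg D p w + ⨆ h, ABu D p w h := fun w hw => by
    have w1 : 1 ≤ w := a1.trans hw.1
    obtain ⟨b1, b2, b3, b4⟩ := hQ D p w hp0 p1.le
    have q1ne : q1 D p w ≠ 0 := fun h => by
      have := (b4 (hN p w (k (by simp)) p1.le w1).1).trans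
        (add_le_add le_rfl (hq0 p w (k (by simp)) p1.le w1))
      rw [h, zero_add, ENNReal.one_le_ofReal] at this
      linarith
    have q1top : q1 D p w ≠ ∞ := ne_top_of_le_ne_top ENNReal.one_ne_top b3
    obtain ⟨-, o2, o3⟩ := hO p w (k (by simp)) p1.le w1
    obtain ⟨-, -, -, -, -, -, s1, s2⟩ := sump D p w hp0 p1.le
    have qp := ENNReal.toReal_pos q1ne q1top
    refine ⟨ENNReal.toReal_pos ?_ (R1 w hw).1, ?_, ?_, hS p w (k (by simp)) p1 w1⟩
    · rw [← b2]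
      exact mul_ne_zero (fun h => by simp [h, o2] at s2) q1ne
    · rw [← b1, ← b2]; exact mul_le_mul' s1 le_rfl
    · rw [← b1, ← b2, ENNReal.toReal_mul, ENNReal.toReal_mul, mul_div_mul_right _ _ qp.ne']
      rfl
  have mx : x ∈ Set.Icc α β := ⟨hx, by linarith⟩
  have my : y ∈ Set.Icc α β := ⟨by linarith, by linarith⟩
  have mz : z ∈ Set.Icc α β := ⟨by linarith, hz⟩
  obtain ⟨x1, x2, x3, x4⟩ := key x mx
  obtain ⟨y1, y2, y3, y4⟩ := key y my
  obtain ⟨z1, z2, z3, z4⟩ := key z mz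
  rw [x3, y3, z3]
  have y0 : 0 ≤ (BT D p y).toReal / (AT D p y).toReal := by positivity
  by_cases hxt : AT D p x = ∞
  · exact (min_le_left _ _).trans (by simpa [hxt] using y0)
  by_cases hzt : AT D p z = ∞
  · exact (min_le_right _ _).trans (by simpa [hzt] using y0)
  have up : ∀ w ∈ Set.Icc α β, AT D p w ≠ ∞ → ∀ κ, (AT D p w).toReal / (BT D p w).toReal ≤ κ →
      ∀ h, (AReg D p w).toReal + (ABu D p w h).toReal ≤ κ * (BT D p w).toReal :=
    fun w hw ht κ hκ h => by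
      obtain ⟨w1, -, -, w4⟩ := key w hw
      rw [← ENNReal.toReal_add (A1 w hw).1 ((hB h).1 w hw)]
      refine (ENNReal.toReal_mono ht ?_).trans ((div_le_iff₀ w1).1 hκ)
      rw [w4]
      exact add_le_add le_rfl (le_iSup (fun h => ABu D p w h) h)
  set κ := max ((AT D p x).toReal / (BT D p x).toReal) ((AT D p z).toReal / (BT D p z).toReal)
    with hκ
  have fin := hC α β (fun h w => (ABu D p w h).toReal) (fun w => (AReg D p w).toReal)
    (fun w => (BT D p w).toReal) (fun w => (AT D 1 w).toReal) (fun w => (BT D 1 w).toReal)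
    a2 hw.2.2.1
    (fun h w hw => ⟨ENNReal.toReal_nonneg,
      ENNReal.toReal_mono ((hB (h + 1)).1 w hw) (ABu_mono D p w h)⟩)
    (fun h => (hB h).2.1) (fun h => (hB h).2.2.1) (fun h => (hB h).2.2.2)
    (fun w hw => by
      obtain ⟨r1, r2⟩ := h0 w (a3.trans hw.1) (A1 w hw).2.1 (R1 w hw).2.1
      exact ⟨r1, (R1 w hw).2.2.1, r2, (A1 w hw).2.2, (R1 w hw).2.2.2⟩)
    A2 R2 R3 x y z κ hx hxy hyz hz (up x mx hxt κ (le_max_left _ _))
    (up z mz hzt κ (le_max_right _ _))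
  have hle : AT D p y ≤ ENNReal.ofReal (κ * (BT D p y).toReal) := by
    rw [y4, ENNReal.add_iSup]
    refine iSup_le fun h => ?_
    rw [← ENNReal.ofReal_toReal (A1 y my).1, ← ENNReal.ofReal_toReal ((hB h).1 y my),
      ← ENNReal.ofReal_add ENNReal.toReal_nonneg ENNReal.toReal_nonneg]
    exact ENNReal.ofReal_le_ofReal (fin h)
  have hyt : AT D p y ≠ ∞ := ne_top_of_le_ne_top ENNReal.ofReal_ne_top hle
  have ya : 0 < (AT D p y).toReal := y1.trans_le (ENNReal.toReal_mono hyt y2)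
  have xa : 0 < (AT D p x).toReal := x1.trans_le (ENNReal.toReal_mono hxt x2)
  have κ0 : 0 < κ := (div_pos xa x1).trans_le (le_max_left _ _)
  have hy : (AT D p y).toReal ≤ κ * (BT D p y).toReal :=
    ENNReal.toReal_le_of_le_ofReal (by positivity) hle
  refine le_trans (b := κ⁻¹) ?_ ?_
  · rcases max_choice ((AT D p x).toReal / (BT D p x).toReal)
      ((AT D p z).toReal / (BT D p z).toReal) with h | h
    · rw [hκ, h, inv_div]; exact min_le_left _ _
    · rw [hκ, h, inv_div]; exact min_le_right _ _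
  · rw [le_div_iff₀ ya, inv_mul_le_iff₀ κ0]
    exact hy

theorem uni (hW : WINStmt) : UniStmt := by
  intro D hD a ha
  have hD1 : 1 ≤ D := by omega
  obtain ⟨e1, he1, h1⟩ := monoS D hD1 a (1 / 4) ha (by norm_num)
  obtain ⟨e2, he2, h2⟩ := oneS D hD1 a ha
  obtain ⟨e3, he3, h3⟩ := zeroS D hD1 (1 / 4) (by norm_num)
  obtain ⟨e4, he4, h4⟩ := hW D hD
  have he : 0 < min (min e1 e2) (min e3 e4) := by positivity
  refine ⟨max 0 (1 - min (min e1 e2) (min e3 e4)), max_lt one_pos (by linarith), ?_⟩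
  intro p hp hp1 x y z vx vy vz hx hxy hyz hvx hvy hvz
  have hp0 : 0 < p := (le_max_left _ _).trans_lt hp
  have hp2 := (le_max_right _ _).trans_lt hp
  have k : ∀ {e : ℝ}, min (min e1 e2) (min e3 e4) ≤ e → 1 - e ≤ p := fun h => by linarith
  have hε : 0 < 1 - p := by linarith
  have sp : ∀ w v, a ≤ w → HasSpeed D p w v → v = BR D p w / AR D p w := fun w v hw hv => by
    obtain ⟨b1, b2, b3⟩ := h2 p w (k (by simp)) hp1.le hw
    obtain ⟨t1, t2⟩ := transS D p w v hp0 hp1.le (by linarith) b1 b2 b3 hv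
    by_cases h : AA D p w = ∞
    · rw [t2 h, AR, h]; simp
    · exact t1 h
  rw [sp x vx hx hvx, sp y vy (by linarith) hvy, sp z vz (by linarith) hvz]
  set Λ := D * log (1 / (1 - p)) with hΛ
  have mono : ∀ s t, a ≤ s → s < t → t ≤ Λ - 1 / 4 → BR D p s / AR D p s < BR D p t / AR D p t :=
    fun s t hs hst ht => (h1 p s t (k (by simp)) hp1.le hs hst (le_Lam hε (by linarith))).2.2
  by_cases c1 : Λ + 1 / 4 ≤ z
  · refine (min_le_right _ _).trans ?_
    rw [AR, h3 p z (k (by simp)) hp1 (Lam_le hε c1)]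
    simp only [ENNReal.toReal_top, div_zero]
    exact div_nonneg ENNReal.toReal_nonneg ENNReal.toReal_nonneg
  by_cases c2 : y ≤ Λ - 1 / 4
  · exact (min_le_left _ _).trans (mono x y hx hxy c2).le
  have hw : Win D p (Λ - 1 / 4) (Λ + 1 / 4) := by
    refine ⟨hp1, by linarith, by linarith, ?_, ?_⟩
    · rw [sub_eq_add_neg Λ, exp_Lam hε]
      linarith [add_one_le_exp (-(1 / 4 : ℝ))]
    · rw [exp_Lam hε]
      have := add_one_le_exp (-(1 / 4 : ℝ))
      rw [exp_neg, le_inv_comm₀ (by norm_num) (exp_pos _)] at this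
      linarith
  push Not at c1 c2
  by_cases c3 : Λ - 1 / 4 ≤ x
  · exact h4 p _ _ (k (by simp)) hw x y z c3 hxy hyz c1.le
  · push Not at c3
    exact (min_le_min_right _ (mono x _ hx c3 le_rfl).le).trans
      (h4 p _ _ (k (by simp)) hw _ y z le_rfl c2 hyz c1.le)

end Pool.Agent.MP_8c549f_pr

end MrgPart0

-- ======== part 1: formerly Pool.Agent.MP_8c549f_pr.B11
section MrgPart1

/-! The value of a finite chain is a quotient of two positive exponential sums. -/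

set_option autoImplicit false

namespace Pool.Agent.MP_8c549f_pr

open Filter Topology Real Finset
open scoped ENNReal NNReal

namespace Ch4M

section Core

variable {ι A : Type} [Fintype ι] [DecidableEq ι] [Fintype A]

theorem det_rows (w : ι → A → ℝ) (v : ι → A → ι → ℝ) :
    (Matrix.of fun z => ∑ a, w z a • v z a).det =
      ∑ f : ι → A, (∏ z, w z (f z)) * (Matrix.of fun z => v z (f z)).det :=
  ((Matrix.detRowAlternating (R := ℝ) (n := ι)).toMultilinearMap.map_sum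
    fun z a => w z a • v z a).trans (sum_congr rfl fun _ _ => MultilinearMap.map_smul_univ _ _ _)

theorem maxp (Q : Matrix ι ι ℝ) (h0 : ∀ i j, 0 ≤ Q i j) (h1 : ∀ i, ∑ j, Q i j < 1) (y : ι → ℝ)
    (h : ∀ i, 0 ≤ (1 - Q).mulVec y i) (i : ι) : 0 ≤ y i := by
  obtain ⟨j, -, hj⟩ := exists_min_image univ y ⟨i, mem_univ i⟩
  refine le_trans ?_ (hj i (mem_univ i))
  have h2 := h j
  rw [Matrix.sub_mulVec, Matrix.one_mulVec, Pi.sub_apply] at h2
  have h3 : (∑ k, Q j k) * y j ≤ Q.mulVec y j := by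
    rw [sum_mul]
    exact sum_le_sum fun k _ => mul_le_mul_of_nonneg_left (hj k (mem_univ k)) (h0 j k)
  by_contra h4
  nlinarith [h1 j]

theorem det_ne (Q : Matrix ι ι ℝ) (h0 : ∀ i j, 0 ≤ Q i j) (h1 : ∀ i, ∑ j, Q i j < 1) :
    (1 - Q).det ≠ 0 := fun h => by
  obtain ⟨y, hy, h2⟩ := Matrix.exists_mulVec_eq_zero_iff.2 h
  exact hy (funext fun i => le_antisymm
    (neg_nonneg.1 (maxp Q h0 h1 (-y) (fun _ => by rw [Matrix.mulVec_neg, h2]; simp) i))
    (maxp Q h0 h1 y (fun _ => by rw [h2]; simp) i))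

theorem det_pos (Q : Matrix ι ι ℝ) (h0 : ∀ i j, 0 ≤ Q i j) (h1 : ∀ i, ∑ j, Q i j < 1) :
    0 < (1 - Q).det := by
  by_contra h
  have hc : Continuous fun t : ℝ => (1 - t • Q).det :=
    (continuous_const.sub (continuous_id.smul continuous_const)).matrix_det
  obtain ⟨t, ht, h2⟩ := intermediate_value_Icc' zero_le_one hc.continuousOn
    (show (0 : ℝ) ∈ _ from ⟨by simpa using h, by simp⟩)
  refine det_ne (t • Q) (fun i j => mul_nonneg ht.1 (h0 i j)) (fun i => ?_) h2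
  exact (sum_le_sum fun j _ => mul_le_of_le_one_left (h0 i j) ht.2).trans_lt (h1 i)

theorem cram (M : Matrix ι ι ℝ) (y : ι → ℝ) (i : ι) :
    (M.updateCol i (M.mulVec y)).det = M.det * y i := by
  rw [← Matrix.cramer_apply, Matrix.cramer_eq_adjugate_mulVec, Matrix.mulVec_mulVec,
    Matrix.adjugate_mul, Matrix.smul_mulVec, Matrix.one_mulVec]
  rfl

theorem det_upd (Q : Matrix ι ι ℝ) (h0 : ∀ i j, 0 ≤ Q i j) (h1 : ∀ i, ∑ j, Q i j < 1) (b : ι → ℝ)
    (hb : ∀ i, 0 ≤ b i) (i : ι) : 0 ≤ ((1 - Q).updateCol i b).det := by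
  have h : (1 - Q).mulVec ((1 - Q)⁻¹.mulVec b) = b := by
    rw [Matrix.mulVec_mulVec, Matrix.mul_nonsing_inv _ (det_ne Q h0 h1).isUnit, Matrix.one_mulVec]
  rw [← h, cram]
  exact mul_nonneg (det_pos Q h0 h1).le (maxp Q h0 h1 _ (fun j => by rw [h]; exact hb j) i)

theorem core (c κ b : ι → A → ℝ) (q : ι → A → ι → ℝ) (hc : ∀ z a, 0 ≤ c z a)
    (hκ : ∀ z a, |κ z a| ≤ 1) (hb : ∀ z a, 0 ≤ b z a) (hp : ∀ z, ∃ a, 0 < c z a)
    (h0 : ∀ z a j, 0 ≤ q z a j) (h1 : ∀ z a, ∑ j, q z a j < 1) (u : ℝ → ι → ℝ)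
    (hu : ∀ x z, ∑ a, c z a * exp (x * κ z a) * (u x z - ∑ j, q z a j * u x j) =
      ∑ a, c z a * exp (x * κ z a) * b z a) (i : ι) :
    Tame (2 * Fintype.card ι) fun x => ENNReal.ofReal (u x i) := by
  classical
  let v : ι → A → ι → ℝ := fun z a j => (if z = j then 1 else 0) - q z a j
  have hv : ∀ f : ι → A, (Matrix.of fun z => v z (f z)) = 1 - Matrix.of fun z => q z (f z) :=
    fun f => by ext z j; simp [v, Matrix.one_apply]
  have hw : ∀ (x : ℝ) (f : ι → A) (y : ℝ), (∏ z, c z (f z) * exp (x * κ z (f z))) * y =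
      (∏ z, c z (f z)) * y * exp (x * ∑ z, κ z (f z)) := fun x f y => by
    rw [prod_mul_distrib, mul_sum, exp_sum, mul_right_comm]
  have hK : ∀ f ∈ (univ : Finset (ι → A)), |∑ z, κ z (f z)| ≤ Fintype.card ι := fun f _ =>
    (abs_sum_le_sum_abs _ _).trans ((sum_le_sum fun z _ => hκ z (f z)).trans (by simp))
  have hpc : ∀ f : ι → A, 0 ≤ ∏ z, c z (f z) := fun f => prod_nonneg fun z _ => hc z _
  have d0 := fun f : ι → A => det_pos (Matrix.of fun z => q z (f z)) (fun _ _ => h0 _ _ _)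
    fun _ => h1 _ _
  have d1 := fun f : ι → A => det_upd (Matrix.of fun z => q z (f z)) (fun _ _ => h0 _ _ _)
    (fun _ => h1 _ _) (fun z => b z (f z)) (fun _ => hb _ _) i
  have e0 := fun f (_ : f ∈ (univ : Finset (ι → A))) => mul_nonneg (hpc f) (d0 f).le
  have e1 := fun f (_ : f ∈ (univ : Finset (ι → A))) => mul_nonneg (hpc f) (d1 f)
  have n0 : (0 : ℝ) ≤ Fintype.card ι := Nat.cast_nonneg _
  rw [two_mul]
  refine (tame_mul_real n0 n0
    (fun x => sum_nonneg fun f hf => mul_nonneg (e1 f hf) (exp_pos _).le)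
    (fun x => one_div_nonneg.2 (sum_nonneg fun f hf => mul_nonneg (e0 f hf) (exp_pos _).le))
    (tame_expsum univ e1 hK) (tame_inv_expsum univ n0 e0 hK)).congr fun x => congrArg _ ?_
  let M : Matrix ι ι ℝ := Matrix.of fun z => ∑ a, (c z a * exp (x * κ z a)) • v z a
  have m0 : M.det = ∑ f : ι → A, (∏ z, c z (f z)) * (1 - Matrix.of fun z => q z (f z)).det *
      exp (x * ∑ z, κ z (f z)) := by
    rw [det_rows]
    exact sum_congr rfl fun f _ => by rw [hw, hv]
  have m1 : M.updateCol i (M.mulVec (u x)) = Matrix.of fun z =>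
      ∑ a, (c z a * exp (x * κ z a)) • Function.update (v z a) i (b z a) := by
    ext z j
    rw [Matrix.updateCol_apply, Matrix.of_apply, Finset.sum_apply]
    split_ifs with h
    · subst h
      simp only [Pi.smul_apply, Function.update_self, smul_eq_mul]
      rw [← hu]
      simp only [M, Matrix.mulVec, dotProduct, Matrix.of_apply, Finset.sum_apply, Pi.smul_apply,
        smul_eq_mul, sum_mul]
      rw [sum_comm]
      refine sum_congr rfl fun a _ => ?_
      simp only [mul_assoc, ← mul_sum, v, sub_mul, sum_sub_distrib, ite_mul, one_mul, zero_mul,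
        sum_ite_eq, mem_univ, if_true]
    · simp only [M, Matrix.of_apply, Finset.sum_apply, Pi.smul_apply, Function.update_of_ne h]
  have m2 := cram M (u x) i
  rw [m1, det_rows] at m2
  have m3 : 0 < M.det := by
    choose f hf using hp
    rw [m0]
    exact sum_pos' (fun g hg => mul_nonneg (e0 g hg) (exp_pos _).le) ⟨f, mem_univ f,
      mul_pos (mul_pos (prod_pos fun z _ => hf z) (d0 f)) (exp_pos _)⟩
  rw [← m0, mul_one_div, div_eq_iff m3.ne', mul_comm, ← m2]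
  refine sum_congr rfl fun f _ => ?_
  rw [hw, ← hv]
  rfl

end Core

open Ch1

variable {D : ℕ} {σ : Type} [DecidableEq σ] (δ : σ → Step D → σ) (S : Finset σ)

/-- weight of a run times the reward of its last step -/
noncomputable def rw (p ρ : σ → Step D → ℝ≥0∞) : σ → List (Step D) → ℝ≥0∞
  | _, [] => 0
  | z, s :: l => if z ∈ S then p z s * ((if l = [] then ρ z s else 0) + rw p ρ (δ z s) l) else 0

theorem lfp_eq (p ρ : σ → Step D → ℝ≥0∞) (z : σ) :
    (op δ S p ρ).lfp z = ∑' l, rw δ S p ρ z l :=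
  (congrFun (tsum_eq_lfp δ S p ρ (rw δ S p ρ) (fun z s l => if l = [] then ρ z s else 0)
    (fun _ => rfl) (fun _ _ _ => rfl) fun _ _ => tsum_ite_eq [] _) z).symm

theorem rw_smul (θ : ℝ≥0∞) (p ρ : σ → Step D → ℝ≥0∞) (l : List (Step D)) : ∀ z,
    rw δ S (fun z s => θ * p z s) ρ z l = θ ^ l.length * rw δ S p ρ z l := by
  induction l with
  | nil => exact fun _ => (mul_zero _).symm
  | cons s l ih =>
    intro z
    rw [rw, rw, ih, List.length_cons]
    cases l with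
    | nil => simp [rw, mul_assoc]
    | cons t l => simp only [reduceCtorEq, if_false, zero_add]; split_ifs <;> ring

theorem rw_lin (p ρ : σ → Step D → ℝ≥0∞) (l : List (Step D)) : ∀ z, rw δ S p ρ z l =
    ∑ y ∈ S ×ˢ univ, ρ y.1 y.2 * rw δ S p (fun z s => if (z, s) = y then 1 else 0) z l := by
  induction l with
  | nil => intro z; simp [rw]
  | cons s l ih =>
    intro z
    simp only [rw]
    split_ifs with h1 h2
    · simp only [mul_left_comm _ (p z s), ← mul_sum, mul_add, sum_add_distrib, ← ih]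
      simp [h1]
    · simp only [mul_left_comm _ (p z s), ← mul_sum, zero_add, ← ih]
    · simp

theorem lfp_lin (p ρ : σ → Step D → ℝ≥0∞) (z : σ) : (op δ S p ρ).lfp z =
    ∑ y ∈ S ×ˢ univ, ρ y.1 y.2 * (op δ S p fun z s => if (z, s) = y then 1 else 0).lfp z := by
  simp only [lfp_eq, ← ENNReal.tsum_mul_left]
  rw [← Summable.tsum_finsetSum fun _ _ => ENNReal.summable]
  exact tsum_congr fun l => rw_lin δ S p ρ l z

theorem th_mono : Monotone fun n : ℕ => ENNReal.ofReal (1 - 1 / ((n : ℝ) + 1)) := fun a b h =>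
  ENNReal.ofReal_le_ofReal (by gcongr)

theorem lfp_sup (p ρ : σ → Step D → ℝ≥0∞) (z : σ) : (op δ S p ρ).lfp z =
    ⨆ n : ℕ, (op δ S (fun z s => ENNReal.ofReal (1 - 1 / ((n : ℝ) + 1)) * p z s) ρ).lfp z := by
  have h : ∀ k : ℕ, ⨆ n : ℕ, ENNReal.ofReal (1 - 1 / ((n : ℝ) + 1)) ^ k = 1 := fun k => by
    refine iSup_eq_of_tendsto (fun a b h => pow_le_pow_left' (th_mono h) k) ?_
    have := ENNReal.Tendsto.pow (n := k) (ENNReal.tendsto_ofReal
      ((tendsto_one_div_add_atTop_nhds_zero_nat (𝕜 := ℝ)).const_sub 1))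
    simpa using this
  simp only [lfp_eq, rw_smul, ENNReal.tsum_eq_iSup_sum]
  rw [iSup_comm]
  refine iSup_congr fun T => ?_
  refine Eq.trans ?_ (ENNReal.finsetSum_iSup_of_monotone fun l a b hab =>
    mul_le_mul' (pow_le_pow_left' (th_mono hab) _) le_rfl)
  exact sum_congr rfl fun l _ => by rw [← ENNReal.iSup_mul, h, one_mul]

variable (o : σ → Step D → Bool) (k : σ → Step D → ℝ) (P : ℝ → σ → Step D → ℝ)
  (hk : ∀ z s, |k z s| ≤ 1) (hP : ∀ x z s, P x z s = if o z s = true then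
    exp (x * k z s) / ∑ s', (if o z s' = true then exp (x * k z s') else 0) else 0)

include hk hP in
theorem disc (θ : ℝ) (t0 : 0 ≤ θ) (t1 : θ < 1) (ρ : σ → Step D → ℝ≥0) (z : σ) :
    Tame (2 * S.card) fun x => (op δ S (fun z s => ENNReal.ofReal θ * ENNReal.ofReal (P x z s))
      fun z s => ρ z s).lfp z := by
  set U := fun x => (op δ S (fun z s => ENNReal.ofReal θ * ENNReal.ofReal (P x z s))
    fun z s => ρ z s).lfp with hU
  have fix : ∀ x z, U x z = if z ∈ S then ∑ s, ENNReal.ofReal θ * ENNReal.ofReal (P x z s) *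
      (ρ z s + U x (δ z s)) else 0 := fun x z => (congrFun (OrderHom.map_lfp _) z).symm
  have Z0 : ∀ x z, 0 ≤ ∑ s', (if o z s' = true then exp (x * k z s') else 0) := fun x z =>
    sum_nonneg fun s _ => by split_ifs; exacts [(exp_pos _).le, le_rfl]
  have P0 : ∀ x z s, 0 ≤ P x z s := fun x z s => by
    rw [hP]
    split_ifs
    exacts [div_nonneg (exp_pos _).le (Z0 x z), le_rfl]
  have P1 : ∀ x z, ∑ s, P x z s ≤ 1 := fun x z => by
    refine le_trans (le_of_eq ?_) (div_self_le_one (∑ s', if o z s' = true then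
      exp (x * k z s') else 0))
    rw [sum_div]
    exact sum_congr rfl fun s _ => by rw [hP, ite_div, zero_div]
  have fin : ∀ x z, U x z ≠ ∞ := fun x z => by
    set R : ℝ := ∑ y ∈ S ×ˢ univ, (ρ y.1 y.2 : ℝ) with hR
    have R0 : 0 ≤ R := sum_nonneg fun _ _ => NNReal.coe_nonneg _
    have K0 : 0 ≤ R / (1 - θ) := div_nonneg R0 (by linarith)
    refine ne_top_of_le_ne_top ENNReal.ofReal_ne_top (OrderHom.lfp_le _
      (a := fun _ => ENNReal.ofReal (R / (1 - θ))) (fun y => ?_) z)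
    rw [op_apply]
    split_ifs with hy
    swap
    · exact zero_le
    calc _ ≤ ∑ s, ENNReal.ofReal (P x y s * (θ * (R + R / (1 - θ)))) := by
          refine sum_le_sum fun s _ => ?_
          rw [ENNReal.ofReal_mul (P0 x y s), ENNReal.ofReal_mul t0, ENNReal.ofReal_add R0 K0,
            mul_left_comm, ← mul_assoc]
          gcongr
          rw [← ENNReal.ofReal_coe_nnreal]
          exact ENNReal.ofReal_le_ofReal (single_le_sum (f := fun y : σ × Step D => (ρ y.1 y.2 : ℝ))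
            (fun _ _ => NNReal.coe_nonneg _) (mem_product.2 ⟨hy, mem_univ s⟩ : (y, s) ∈ _))
      _ ≤ _ := by
          rw [← ENNReal.ofReal_sum_of_nonneg fun s _ => mul_nonneg (P0 x y s) (by positivity),
            ← sum_mul]
          refine ENNReal.ofReal_le_ofReal ((mul_le_of_le_one_left (by positivity) (P1 x y)).trans ?_)
          have : R = R / (1 - θ) * (1 - θ) := (div_mul_cancel₀ _ (by linarith)).symm
          nlinarith
  by_cases hz : z ∈ S
  swap
  · exact (tame_const (mul_nonneg zero_le_two (Nat.cast_nonneg _)) 0).congr fun x =>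
      ((fix x z).trans (if_neg hz)).symm
  have hq : ∀ x (y : σ), ∑ j : S, (if y = j then θ else 0) * (U x j).toReal =
      θ * (U x y).toReal := fun x y => by
    by_cases hs : y ∈ S
    · rw [sum_eq_single ⟨_, hs⟩ (fun w _ hw => by
        rw [if_neg fun e => hw (Subtype.ext e.symm), zero_mul]) (by simp), if_pos rfl]
    · rw [fix x y, if_neg hs, sum_eq_zero fun w _ => by
        rw [if_neg fun e : y = w => hs (e ▸ w.2), zero_mul]]
      simp
  have := core (ι := S) (A := Option (Step D))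
    (fun z a => a.elim (if ∀ s, o z s = false then 1 else 0) fun s => if o z s = true then 1 else 0)
    (fun z a => a.elim 0 (k z)) (fun z a => a.elim 0 fun s => θ * ρ z s)
    (fun z a j => a.elim 0 fun s => if δ z s = j then θ else 0)
    (fun z a => by cases a <;> simp only [Option.elim] <;> split_ifs <;> norm_num)
    (fun z a => by cases a <;> simp [hk]) (fun z a => by cases a <;> simp only [Option.elim] <;>
      positivity)
    (fun z => by
      by_cases h : ∀ s, o z s = false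
      · exact ⟨none, by simp [h]⟩
      · obtain ⟨s, hs⟩ := not_forall.1 h
        exact ⟨some s, by simp [Bool.not_eq_false _ ▸ hs]⟩)
    (fun z a j => by cases a <;> simp only [Option.elim] <;> positivity)
    (fun z a => by
      cases a with
      | none => simp
      | some s =>
        refine lt_of_le_of_lt ?_ t1
        by_cases hs : δ z s ∈ S
        · exact (sum_eq_single ⟨_, hs⟩ (fun w _ hw => if_neg fun e => hw (Subtype.ext e.symm))
            (by simp)).trans_le (if_pos rfl).le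
        · exact (sum_eq_zero fun (w : S) _ => if_neg fun e : δ z s = w =>
            hs (e ▸ w.2)).trans_le t0)
    (fun x z => (U x z).toReal) (fun x z => by
      have h1 := congrArg ENNReal.toReal (fix x z)
      rw [if_pos z.2, ENNReal.toReal_sum fun s _ => ENNReal.mul_ne_top (ENNReal.mul_ne_top
        ENNReal.ofReal_ne_top ENNReal.ofReal_ne_top)
          (ENNReal.add_ne_top.2 ⟨ENNReal.coe_ne_top, fin _ _⟩)] at h1
      simp only [ENNReal.toReal_mul, ENNReal.toReal_ofReal t0, ENNReal.toReal_ofReal (P0 _ _ _),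
        ENNReal.toReal_add ENNReal.coe_ne_top (fin _ _), ENNReal.coe_toReal] at h1
      simp only [Fintype.sum_option, Option.elim, hq]
      simp only [zero_mul, sum_const_zero, mul_zero, sub_zero,
        exp_zero, mul_one, zero_add, ite_mul, one_mul]
      by_cases h : ∀ s, o z s = false
      · rw [h1]
        simp [h, hP]
      · obtain ⟨s, hs⟩ := not_forall.1 h
        have Zp : 0 < ∑ s', (if o z s' = true then exp (x * k z s') else 0) :=
          sum_pos' (fun s _ => by split_ifs; exacts [(exp_pos _).le, le_rfl])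
            ⟨s, mem_univ s, by rw [if_pos (by simpa using hs)]; exact exp_pos _⟩
        have h2 : (∑ s', (if o z s' = true then exp (x * k z s') else 0)) * (U x z).toReal =
            ∑ s, if o z s = true then exp (x * k z s) * (θ * (ρ z s + (U x (δ z s)).toReal))
              else 0 := by
          conv_lhs => rw [h1, mul_sum]
          refine sum_congr rfl fun s _ => ?_
          rw [hP]
          split_ifs
          · field_simp
          · simp
        rw [if_neg h, zero_add, ← sub_eq_zero, ← sub_eq_zero.2 h2, sum_mul, ← sum_sub_distrib,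
          ← sum_sub_distrib]
        refine sum_congr rfl fun s _ => ?_
        split_ifs <;> ring) ⟨z, hz⟩
  rw [Fintype.card_coe] at this
  exact this.congr fun x => ENNReal.ofReal_toReal (fin x z)

include hk hP in
theorem lfp_tame (ρ : σ → Step D → ℝ≥0) (z : σ) : Tame (2 * S.card) fun x =>
    (op δ S (fun z s => ENNReal.ofReal (P x z s)) fun z s => ρ z s).lfp z := by
  refine (tame_iSup (fun x a b h => ?_) fun n => disc δ S o k P hk hP (1 - 1 / ((n : ℝ) + 1))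
    (sub_nonneg.2 ((div_le_one (by positivity)).2 (by simp)))
    (sub_lt_self _ (by positivity)) ρ z).congr fun x => (lfp_sup δ S _ _ z).symm
  simp only [lfp_eq, rw_smul]
  exact ENNReal.tsum_le_tsum fun l => mul_le_mul' (pow_le_pow_left' (th_mono h) _) le_rfl

end Ch4M

open Ch1 Ch4M in
theorem ch4 : CH4Stmt := by
  intro D σ _ δ S o k c r P hk hP z
  have n0 : (0 : ℝ) ≤ 2 * S.card := by positivity
  have hU : ∀ z, Tame (2 * S.card) fun x => CU δ S (P x) r z := fun z =>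
    (lfp_tame δ S o k P hk hP r z).congr fun x => by rw [CU_eq]
  refine ⟨hU z, ?_⟩
  refine ((tame_sum (S ×ˢ univ) fun y _ => Tame.mul
    (((tame_const n0 (r y.1 y.2)).add (hU (δ y.1 y.2))).const_mul (c y.1 y.2))
    (lfp_tame δ S o k P hk hP (fun z s => if (z, s) = y then 1 else 0) z) n0 n0).mono
    (add_nonneg n0 n0) (by linarith)).congr fun x => ?_
  rw [CT_eq, lfp_lin]
  simp only [apply_ite ((↑) : ℝ≥0 → ℝ≥0∞), ENNReal.coe_one, ENNReal.coe_zero]

end Pool.Agent.MP_8c549f_pr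

/-!
Module KOUT: the visits to the root of a bush, summed over the position of the root.
-/

set_option autoImplicit false

namespace Pool.Agent.MP_8c549f_pr

open MeasureTheory Filter Topology Real
open scoped ENNReal NNReal

variable {D : ℕ}

namespace KoutM

theorem sum_box {κ : Type} (B : κ → Finset (V D)) (T : V D × κ → ℝ≥0∞) (w : κ → ℝ≥0∞)
    (h0 : ∀ q, q.1 ∉ B q.2 → T q = 0) (h1 : ∀ q, T q ≤ w q.2) :
    ∑' q, T q ≤ ∑' k, ((B k).card : ℝ≥0∞) * w k := by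
  rw [ENNReal.tsum_prod', ENNReal.tsum_comm]
  refine ENNReal.tsum_le_tsum fun k => ?_
  rw [tsum_eq_sum (s := B k) fun u hu => h0 (u, k) hu, ← nsmul_eq_mul]
  exact Finset.sum_le_card_nsmul _ _ _ fun u _ => h1 (u, k)

theorem tot {κ : Type} (B : κ → Finset (V D)) (T : V D × κ → ℝ≥0∞) (K N W E : κ → ℝ)
    (G : κ → ℝ≥0∞) {b M : ℝ} (hb : 0 ≤ b) (h0 : ∀ q, q.1 ∉ B q.2 → T q = 0)
    (h1 : ∀ q, T q ≤ ENNReal.ofReal (b * (N q.2 ^ 4 * E q.2)) * G q.2)
    (hc : ∀ k, ((B k).card : ℝ) ≤ W k) (hN : ∀ k, 0 ≤ N k ∧ N k ≤ W k)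
    (hK : ∀ k, 0 ≤ K k ∧ K k ≤ 11 * W k) (hE : ∀ k, 0 ≤ E k)
    (hM : ∑' k, ENNReal.ofReal (W k ^ 7 * E k) * G k ≤ ENNReal.ofReal M) :
    ∑' q : V D × κ, ENNReal.ofReal (K q.2 ^ 2) * T q ≤ ENNReal.ofReal (121 * b * M) := by
  refine (sum_box B _ (fun k => ENNReal.ofReal (K k ^ 2) *
    (ENNReal.ofReal (b * (N k ^ 4 * E k)) * G k)) (fun q hq => by simp [h0 q hq])
    fun q => mul_le_mul' le_rfl (h1 q)).trans ?_
  rw [ENNReal.ofReal_mul (by positivity)]
  refine le_trans ?_ (mul_le_mul' le_rfl hM)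
  rw [← ENNReal.tsum_mul_left]
  refine ENNReal.tsum_le_tsum fun k => ?_
  have a := (hN k).1
  have c := (hK k).1
  have d := hE k
  have e : (0 : ℝ) ≤ W k := a.trans (hN k).2
  rw [← mul_assoc (ENNReal.ofReal (121 * b)), ← mul_assoc (ENNReal.ofReal (K k ^ 2)), ← mul_assoc,
    ← ENNReal.ofReal_natCast, ← ENNReal.ofReal_mul (by positivity),
    ← ENNReal.ofReal_mul (by positivity), ← ENNReal.ofReal_mul (by positivity)]
  refine mul_le_mul' (ENNReal.ofReal_le_ofReal ?_) le_rfl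
  calc _ ≤ W k * ((11 * W k) ^ 2 * (b * (W k ^ 4 * E k))) := by
        gcongr
        exacts [hc k, (hK k).2, (hN k).2]
    _ = _ := by ring

theorem one {T g G : ℝ≥0∞} {C s ε a N : ℝ} {k ν m : ℕ} (hC : 1 ≤ C) (ha : 0 ≤ a) (hε0 : 0 ≤ ε)
    (hε : ε ≤ s) (hk : k ≤ ν + m) (hG : g ≤ G) (hg : g ≤ ENNReal.ofReal s * G ^ a)
    (hT : T ≤ ENNReal.ofReal (C * N ^ 4) * (g + ENNReal.ofReal (ε * C ^ k) * g ^ a)) :
    T ≤ ENNReal.ofReal (2 * s * C ^ (ν + 1) * (N ^ 4 * C ^ m)) * G ^ a := by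
  have hs : 0 ≤ s := hε0.trans hε
  have h1 : 1 ≤ C ^ (ν + m) := one_le_pow₀ hC
  have h2 : C ^ k ≤ C ^ (ν + m) := pow_le_pow_right₀ hC hk
  refine hT.trans ((mul_le_mul' le_rfl (add_le_add hg
    (mul_le_mul' le_rfl (ENNReal.rpow_le_rpow hG ha)))).trans ?_)
  rw [← add_mul, ← mul_assoc, ← ENNReal.ofReal_add hs (by positivity),
    ← ENNReal.ofReal_mul (by positivity)]
  refine mul_le_mul' (ENNReal.ofReal_le_ofReal ?_) le_rfl
  calc C * N ^ 4 * (s + ε * C ^ k) ≤ C * N ^ 4 * (s * C ^ (ν + m) + s * C ^ (ν + m)) := by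
        gcongr
        exact le_mul_of_one_le_right hs h1
    _ = _ := by ring

theorem half {g G : ℝ≥0∞} {s a : ℝ} (hs : 0 ≤ s) (ha : a ≤ 1 / 2) (hG : g ≤ G) (h1 : G ≤ 1)
    (hg : g ≤ ENNReal.ofReal (s ^ 2)) : g ≤ ENNReal.ofReal s * G ^ a := by
  have e : g = g ^ (1 / 2 : ℝ) * g ^ (1 / 2 : ℝ) := by
    rw [← ENNReal.rpow_add_of_nonneg _ _ (by norm_num) (by norm_num)]
    norm_num
  rw [e]
  refine mul_le_mul' ((ENNReal.rpow_le_rpow hg (by norm_num)).trans_eq ?_)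
    ((ENNReal.rpow_le_rpow hG (by norm_num)).trans (ENNReal.rpow_le_rpow_of_exponent_ge h1 ha))
  rw [ENNReal.ofReal_rpow_of_nonneg (by positivity) (by norm_num), ← Real.sqrt_eq_rpow,
    Real.sqrt_sq hs]

/-- suprema over the position of the root -/
noncomputable def G1 (S : Finset (V D)) (p lam : ℝ) (m r : ℕ) : ℝ≥0∞ :=
  ⨆ u : {u : V D // 0 ≤ u 0}, g1 (tr u S) p lam m r

noncomputable def G2 (S : Finset (V D)) (p lam : ℝ) (m r i r' : ℕ) : ℝ≥0∞ :=
  ⨆ u : {u : V D // 0 ≤ u 0}, g2 (tr u S) p lam m r i r'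

theorem ptb_sup {Q ν : ℕ} {A p lam μ : ℝ} {S : Finset (V D)}
    (h : ∀ u : V D, 0 ≤ u 0 → PtB D Q A p lam μ ν (g1 (tr u S) p lam) (g2 (tr u S) p lam)) :
    PtB D Q A p lam μ ν (G1 S p lam) (G2 S p lam) := by
  intro m r i r'
  have k := fun u : {u : V D // 0 ≤ u 0} => h u u.2 m r i r'
  refine ⟨le_antisymm (iSup_le fun u => (k u).1.le) zero_le,
    le_antisymm (iSup_le fun u => (k u).2.1.le) zero_le, iSup_le fun u => (k u).2.2.1,
    iSup_mono fun u => (k u).2.2.2.1, iSup_le fun u => (k u).2.2.2.2.1,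
    iSup_le fun u => (k u).2.2.2.2.2.1, iSup_le fun u => (k u).2.2.2.2.2.2.1,
    iSup_le fun u => (k u).2.2.2.2.2.2.2⟩

theorem NN_bounds (D m r : ℕ) : (2 : ℝ) ≤ NN D m r := by exact_mod_cast two_le_NN D m r

/-- the data at a point of the window -/
structure Pt (D Q : ℕ) (A CB CM p x μ : ℝ) (S : Finset (V D)) (ν : ℕ) : Prop where
  ptb : ∀ u : V D, 0 ≤ u 0 → PtB D Q A p x μ ν (g1 (tr u S) p x) (g2 (tr u S) p x)
  two : ∀ u : V D, 0 ≤ u 0 → u ≠ 0 → ν = 0 → ∀ r,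
    g1 (tr u S) p x 2 r ≤ ENNReal.ofReal (exp (-μ / 64))
  mom1 : ∑' q : ℕ × ℕ, ENNReal.ofReal ((NN D q.1 q.2 : ℝ) ^ 7 * CB ^ q.1) *
    G1 S p x q.1 q.2 ^ (1 / (2 * D + 2) : ℝ) ≤ ENNReal.ofReal (CM ^ (ν + 1))
  mom2 : ∑' q : (ℕ × ℕ) × ℕ × ℕ,
    ENNReal.ofReal (((NN D q.1.1 q.1.2 : ℝ) * NN D (q.2.1 + 1) q.2.2) ^ 7 * CB ^ q.1.1) *
      G2 S p x q.1.1 q.1.2 q.2.1 q.2.2 ^ (1 / (2 * D + 2) : ℝ) ≤ ENNReal.ofReal (CM ^ (ν + 1))
  kb : ∀ u : V D, 0 ≤ u 0 → ∀ m r i r' : ℕ, ∃ k ≤ ν + m,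
    T1 p x (tr u S) u m r ≤ ENNReal.ofReal (CB * (NN D m r : ℝ) ^ 4) * (g1 (tr u S) p x m r +
      ENNReal.ofReal ((1 - p) * CB ^ k) * g1 (tr u S) p x m r ^ (1 / (2 * D + 2) : ℝ)) ∧
    T2 p x (tr u S) u m r i r' ≤ ENNReal.ofReal (CB * (NN D m r : ℝ) ^ 4) *
      (g2 (tr u S) p x m r i r' + ENNReal.ofReal ((1 - p) * CB ^ k) *
        g2 (tr u S) p x m r i r' ^ (1 / (2 * D + 2) : ℝ))
  out : ∀ (u : V D) (m r i r' : ℕ), u ∉ Box D m r →
    T1 p x (tr u S) u m r = 0 ∧ T2 p x (tr u S) u m r i r' = 0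
  p0 : 0 ≤ p
  p1 : p ≤ 1
  eps : 1 - p = exp (-μ)
  mu : 1 ≤ μ
  le : μ ≤ x

theorem T1_neg {p x : ℝ} {S : Finset (V D)} {u : V D} (h : ¬ 0 ≤ u 0) (m r : ℕ) :
    T1 p x S u m r = 0 := if_neg h

theorem T2_neg {p x : ℝ} {S : Finset (V D)} {u : V D} (h : ¬ 0 ≤ u 0) (m r i r' : ℕ) :
    T2 p x S u m r i r' = 0 := if_neg h

attribute [local irreducible] T1 T2 g1 g2 NN Box tr PhiS

theorem le_G1 (S : Finset (V D)) (p x : ℝ) {u : V D} (h : 0 ≤ u 0) (m r : ℕ) :
    g1 (tr u S) p x m r ≤ G1 S p x m r := by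
  unfold G1
  exact le_iSup (fun u : {u : V D // 0 ≤ u 0} => g1 (tr u S) p x m r) ⟨u, h⟩

theorem le_G2 (S : Finset (V D)) (p x : ℝ) {u : V D} (h : 0 ≤ u 0) (m r i r' : ℕ) :
    g2 (tr u S) p x m r i r' ≤ G2 S p x m r i r' := by
  unfold G2
  exact le_iSup (fun u : {u : V D // 0 ≤ u 0} => g2 (tr u S) p x m r i r') ⟨u, h⟩

attribute [local irreducible] G1 G2

theorem al_le (D : ℕ) : 0 ≤ (1 / (2 * D + 2) : ℝ) ∧ (1 / (2 * D + 2) : ℝ) ≤ 1 / 2 :=
  ⟨by positivity, one_div_le_one_div_of_le (by norm_num)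
    (by linarith [(Nat.cast_nonneg D : (0 : ℝ) ≤ D)])⟩

section pt
variable {Q ν : ℕ} {A CB CM p x μ s : ℝ} {S : Finset (V D)}

open Classical in
theorem Pt.s1 (h : Pt D Q A CB CM p x μ S ν) (hC : 1 ≤ CB) (hs : 1 - p ≤ s)
    (X : V D × ℕ × ℕ → Prop)
    (hX : ∀ q, X q → 0 ≤ q.1 0 → T1 p x (tr q.1 S) q.1 q.2.1 q.2.2 = 0 ∨
      g1 (tr q.1 S) p x q.2.1 q.2.2 ≤ ENNReal.ofReal (s ^ 2)) :
    ∑' q : V D × ℕ × ℕ, ENNReal.ofReal ((10 * NN D q.2.1 q.2.2 + 1) ^ 2) *
      (if X q then T1 p x (tr q.1 S) q.1 q.2.1 q.2.2 else 0) ≤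
      ENNReal.ofReal (121 * (2 * s * CB ^ (ν + 1)) * CM ^ (ν + 1)) := by
  have e0 : 0 ≤ 1 - p := sub_nonneg.2 h.p1
  have s0 : 0 ≤ s := e0.trans hs
  refine tot (fun k : ℕ × ℕ => Box D k.1 k.2) _ (fun k => 10 * NN D k.1 k.2 + 1)
    (fun k => NN D k.1 k.2) (fun k => NN D k.1 k.2) (fun k => CB ^ k.1)
    (fun k => G1 S p x k.1 k.2 ^ (1 / (2 * D + 2) : ℝ)) (by positivity)
    (fun q hq => by simp [(h.out q.1 q.2.1 q.2.2 0 0 hq).1]) (fun q => ?_)
    (fun k => by exact_mod_cast PieceB.card_Box_le D k.1 k.2) (fun k => ⟨by positivity, le_rfl⟩)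
    (fun k => ⟨by positivity, by linarith [NN_bounds D k.1 k.2]⟩) (fun k => by positivity) h.mom1
  split_ifs with hq
  swap
  · exact zero_le
  by_cases hu : 0 ≤ q.1 0
  swap
  · rw [T1_neg hu]; exact zero_le
  rcases hX q hq hu with e | e
  · rw [e]; exact zero_le
  obtain ⟨k, hk, b, -⟩ := h.kb q.1 hu q.2.1 q.2.2 0 0
  have l := le_G1 S p x hu q.2.1 q.2.2
  exact one hC (al_le D).1 e0 hs hk l
    (half s0 (al_le D).2 l (ptb_sup h.ptb q.2.1 q.2.2 0 0).2.2.1 e) b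

theorem Pt.s2 (h : Pt D Q A CB CM p x μ S ν) (hC : 1 ≤ CB) (hs : 1 - p ≤ s)
    (hX : ∀ u : V D, 0 ≤ u 0 → ∀ m r i r', g2 (tr u S) p x m r i r' ≤ ENNReal.ofReal (s ^ 2)) :
    ∑' q : V D × (ℕ × ℕ) × ℕ × ℕ,
      ENNReal.ofReal ((10 * (NN D q.2.1.1 q.2.1.2 + NN D (q.2.2.1 + 1) q.2.2.2) + 1) ^ 2) *
        T2 p x (tr q.1 S) q.1 q.2.1.1 q.2.1.2 q.2.2.1 q.2.2.2 ≤
      ENNReal.ofReal (121 * (2 * s * CB ^ (ν + 1)) * CM ^ (ν + 1)) := by
  have e0 : 0 ≤ 1 - p := sub_nonneg.2 h.p1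
  have s0 : 0 ≤ s := e0.trans hs
  have w : ∀ k : (ℕ × ℕ) × ℕ × ℕ,
      (NN D k.1.1 k.1.2 : ℝ) ≤ NN D k.1.1 k.1.2 * NN D (k.2.1 + 1) k.2.2 := fun k =>
    le_mul_of_one_le_right (by positivity) (by linarith [NN_bounds D (k.2.1 + 1) k.2.2])
  refine tot (fun k : (ℕ × ℕ) × ℕ × ℕ => Box D k.1.1 k.1.2) _
    (fun k => 10 * (NN D k.1.1 k.1.2 + NN D (k.2.1 + 1) k.2.2) + 1)
    (fun k => NN D k.1.1 k.1.2) (fun k => NN D k.1.1 k.1.2 * NN D (k.2.1 + 1) k.2.2)
    (fun k => CB ^ k.1.1)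
    (fun k => G2 S p x k.1.1 k.1.2 k.2.1 k.2.2 ^ (1 / (2 * D + 2) : ℝ)) (by positivity)
    (fun q hq => (h.out q.1 _ _ _ _ hq).2) (fun q => ?_)
    (fun k => le_trans (by exact_mod_cast PieceB.card_Box_le D k.1.1 k.1.2) (w k))
    (fun k => ⟨by positivity, w k⟩)
    (fun k => ⟨by positivity, by
      nlinarith [NN_bounds D k.1.1 k.1.2, NN_bounds D (k.2.1 + 1) k.2.2]⟩)
    (fun k => by positivity) h.mom2
  by_cases hu : 0 ≤ q.1 0
  swap
  · rw [T2_neg hu]; exact zero_le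
  obtain ⟨k, hk, -, b⟩ := h.kb q.1 hu q.2.1.1 q.2.1.2 q.2.2.1 q.2.2.2
  have l := le_G2 S p x hu q.2.1.1 q.2.1.2 q.2.2.1 q.2.2.2
  have k := ptb_sup h.ptb q.2.1.1 q.2.1.2 q.2.2.1 q.2.2.2
  exact one hC (al_le D).1 e0 hs hk l
    (half s0 (al_le D).2 l (k.2.2.2.1.trans k.2.2.1) (hX _ hu _ _ _ _)) b

theorem box_one {u : V D} (h : u ∈ Box D 1 0) : u = 0 := by
  rw [mem_Box] at h
  funext j
  refine Fin.cases ?_ (fun k => ?_) j
  · have := h.1
    have := h.2.1
    simp only [Pi.zero_apply]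
    omega
  · have := (Finset.le_sup (f := fun j : Fin D => (u j.succ).natAbs) (Finset.mem_univ k)).trans h.2.2
    simpa using this

/-- all terms but the main one are small -/
theorem Pt.small (h : Pt D Q A CB CM p x μ S 0) (hD : 2 ≤ D) (hQ : 4 ≤ Q)
    (hs : 8 * D * (D + 1) * exp (-μ / 64) ≤ s ^ 2)
    (h1 : T1 p x S 0 1 0 = 0) (h2 : T1 p x S 0 2 0 = 0) :
    (∀ q : V D × ℕ × ℕ, q ≠ (0, 2, 1) → 0 ≤ q.1 0 → T1 p x (tr q.1 S) q.1 q.2.1 q.2.2 = 0 ∨
      g1 (tr q.1 S) p x q.2.1 q.2.2 ≤ ENNReal.ofReal (s ^ 2)) ∧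
    ∀ u : V D, 0 ≤ u 0 → ∀ m r i r', g2 (tr u S) p x m r i r' ≤ ENNReal.ofReal (s ^ 2) := by
  have hD' : (2 : ℝ) ≤ D := by exact_mod_cast hD
  have hμ := h.mu
  have he := exp_pos (-μ / 64)
  have k2 : 2 * exp (-μ / 64) ≤ s ^ 2 :=
    le_trans (mul_le_mul_of_nonneg_right (by nlinarith) he.le) hs
  have vert : ∀ y : ℝ, 1 ≤ y → 2 * exp (-μ * (y / 64 - A * (0 : ℕ))) ≤ s ^ 2 := fun y hy =>
    le_trans (mul_le_mul_of_nonneg_left (exp_le_exp.2 (by push_cast; nlinarith)) (by norm_num)) k2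
  refine ⟨?_, fun u hu m r i r' => (h.ptb u hu m r i r').2.2.2.2.2.2.1.trans
    (ENNReal.ofReal_le_ofReal (vert _ (by
      linarith [(Nat.cast_nonneg m : (0 : ℝ) ≤ m), (Nat.cast_nonneg i : (0 : ℝ) ≤ i)])))⟩
  rintro ⟨u, m, r⟩ hq hu
  simp only at hu ⊢
  have k := fun r => h.ptb u hu m r 0 0
  rcases m with _ | _ | _ | m
  · right; rw [(k r).1]; exact zero_le
  · rcases r with _ | r
    · left
      by_cases hb : u ∈ Box D 1 0
      · rw [box_one hb, tr_zero]; exact h1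
      · exact (h.out u _ _ 0 0 hb).1
    · right
      exact (k r).2.1.le.trans zero_le
  · by_cases h0 : u = 0
    swap
    · exact Or.inr ((h.two u hu h0 rfl r).trans (ENNReal.ofReal_le_ofReal (by linarith)))
    subst h0
    rcases r with _ | _ | r
    · left; rw [tr_zero]; exact h2
    · exact absurd rfl hq
    · right
      refine (k _).2.2.2.2.2.1.trans (ENNReal.ofReal_le_ofReal (le_trans ?_ hs))
      obtain ⟨a, b, c⟩ := phi_bounds (D := D) h.p0 h.p1 (by linarith) h.eps.le h.le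
      generalize p * exp x / Zf D x = φ at a b c
      have q0 : (0 + 1 + 1) / Q = 0 := Nat.div_eq_of_lt (by omega)
      have f0 : 0 ≤ 1 - φ ^ (0 + 1 + 1) := sub_nonneg.2 (pow_le_one₀ a b)
      have f1 : 1 - φ ^ (0 + 1 + 1) ≤ 1 := sub_le_self _ (by positivity)
      have f2 : (1 - φ ^ (0 + 1 + 1)) ^ (r + 1 + 1 - (1 + 0 + (0 + 1 + 1) / Q)) ≤
          1 - φ ^ (0 + 1 + 1) := pow_le_of_le_one f0 f1 (by omega)
      have f3 : 1 - φ ^ (0 + 1 + 1) ≤ 2 * (1 - φ) := by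
        norm_num
        nlinarith [sq_nonneg (1 - φ)]
      have f4 : exp (-μ) ≤ exp (-μ / 64) := exp_le_exp.2 (by linarith)
      calc _ ≤ 2 * D * (2 * ((2 * D + 2) * exp (-μ / 64))) := by
            refine mul_le_mul_of_nonneg_left (f2.trans (f3.trans ?_)) (by positivity)
            exact mul_le_mul_of_nonneg_left (c.trans
              (mul_le_mul_of_nonneg_left f4 (by positivity))) (by norm_num)
        _ = _ := by ring
  · right
    refine (k r).2.2.2.2.1.trans (ENNReal.ofReal_le_ofReal (vert _ ?_))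
    push_cast
    linarith [(Nat.cast_nonneg m : (0 : ℝ) ≤ m)]

end pt

open Classical in
theorem lip1 (hL : LIP2Stmt) {p α β M : ℝ} {S : Finset (V D)} (X : V D × ℕ × ℕ → Prop)
    (hT : ∀ (u : V D) (m r : ℕ), Tame (10 * NN D m r + 1) fun x => T1 p x (tr u S) u m r)
    (h0 : 0 ≤ M) (h : ∀ x ∈ Set.Icc α β,
      ∑' q : V D × ℕ × ℕ, ENNReal.ofReal ((10 * NN D q.2.1 q.2.2 + 1) ^ 2) *
        (if X q then T1 p x (tr q.1 S) q.1 q.2.1 q.2.2 else 0) ≤ ENNReal.ofReal M) :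
    (∀ x ∈ Set.Icc α β, ∑' q : V D × ℕ × ℕ,
      (if X q then T1 p x (tr q.1 S) q.1 q.2.1 q.2.2 else 0) ≤ ENNReal.ofReal M) ∧
    Ctl (fun x => (∑' q : V D × ℕ × ℕ,
      if X q then T1 p x (tr q.1 S) q.1 q.2.1 q.2.2 else 0).toReal) α β (4 * M) :=
  hL (V D × ℕ × ℕ) (fun q x => if X q then T1 p x (tr q.1 S) q.1 q.2.1 q.2.2 else 0)
    (fun q => 10 * NN D q.2.1 q.2.2 + 1) α β M h0
    (fun q => le_add_of_nonneg_left (by positivity))
    (fun q => Tame.ite (by positivity) _ fun _ => hT q.1 q.2.1 q.2.2) h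

theorem lip2' (hL : LIP2Stmt) {p α β M : ℝ} {S : Finset (V D)}
    (hT : ∀ (u : V D) (m r i r' : ℕ), Tame (10 * (NN D m r + NN D (i + 1) r') + 1)
      fun x => T2 p x (tr u S) u m r i r')
    (h0 : 0 ≤ M) (h : ∀ x ∈ Set.Icc α β, ∑' q : V D × (ℕ × ℕ) × ℕ × ℕ,
      ENNReal.ofReal ((10 * (NN D q.2.1.1 q.2.1.2 + NN D (q.2.2.1 + 1) q.2.2.2) + 1) ^ 2) *
        T2 p x (tr q.1 S) q.1 q.2.1.1 q.2.1.2 q.2.2.1 q.2.2.2 ≤ ENNReal.ofReal M) :
    (∀ x ∈ Set.Icc α β, ∑' q : V D × (ℕ × ℕ) × ℕ × ℕ,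
      T2 p x (tr q.1 S) q.1 q.2.1.1 q.2.1.2 q.2.2.1 q.2.2.2 ≤ ENNReal.ofReal M) ∧
    Ctl (fun x => (∑' q : V D × (ℕ × ℕ) × ℕ × ℕ,
      T2 p x (tr q.1 S) q.1 q.2.1.1 q.2.1.2 q.2.2.1 q.2.2.2).toReal) α β (4 * M) :=
  hL (V D × (ℕ × ℕ) × ℕ × ℕ) (fun q x => T2 p x (tr q.1 S) q.1 q.2.1.1 q.2.1.2 q.2.2.1 q.2.2.2)
    (fun q => 10 * (NN D q.2.1.1 q.2.1.2 + NN D (q.2.2.1 + 1) q.2.2.2) + 1) α β M h0
    (fun q => le_add_of_nonneg_left (by positivity))
    (fun q => hT q.1 q.2.1.1 q.2.1.2 q.2.2.1 q.2.2.2) h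

theorem split {ι : Type} (f : ι → ℝ≥0∞) (b : ι) :
    ∑' q, f q = f b + ∑' q, @ite _ (q ≠ b) (Classical.propDecidable _) (f q) 0 := by
  rw [ENNReal.tsum_eq_add_tsum_ite b]
  congr 2
  funext q
  by_cases h : q = b <;> simp [h]

theorem le_of_lip {a b c : ℝ≥0∞} {M : ℝ} (h : a + b = c) (hc : c ≤ ENNReal.ofReal M) :
    a ≤ ENNReal.ofReal M ∧ a.toReal = c.toReal - b.toReal := by
  have c0 : c ≠ ∞ := ne_top_of_le_ne_top ENNReal.ofReal_ne_top hc
  have k := ENNReal.add_ne_top.1 (h ▸ c0)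
  refine ⟨(h ▸ le_self_add : a ≤ c).trans hc, ?_⟩
  rw [← h, ENNReal.toReal_add k.1 k.2, add_sub_cancel_right]

end KoutM

attribute [local irreducible] T1 T2 g1 g2 NN Box tr PhiS KoutM.G1 KoutM.G2

open KoutM in
theorem kout (hL : LIP2Stmt) (hP : PROFStmt) (hK : KPTStmt) (hM : KMOMStmt) (hA : KAStmt)
    (hB : KBStmt) (hC : KCStmt) : KOUTStmt := by
  classical
  intro D hD
  have hD1 : 1 ≤ D := by omega
  obtain ⟨Q, A, μ₀, hQ, hA0, hμ₀, hK⟩ := hK D hD
  obtain ⟨CB, eB, hCB, heB, hB⟩ := hB D hD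
  obtain ⟨eA, heA, hA⟩ := hA D hD1
  obtain ⟨c, hc, hC⟩ := hC D hD
  obtain ⟨R, CM, μ₁, hCM, hM⟩ := hM D Q 7 A (1 / (2 * D + 2)) CB 0 hD1 (by omega) hA0
    (by positivity) ((al_le D).2.trans (by norm_num)) hCB
  have hCC : 1 ≤ CB * CM := one_le_mul_of_one_le_of_one_le hCB hCM
  refine ⟨Q, c / 2, 1936 * (CB * CM), by omega, by positivity, by linarith, fun ζ hζ => ?_⟩
  obtain ⟨eC, heC, hC⟩ := hC (ζ / 2) (by positivity)
  obtain ⟨s, hs0, hs1, hs2, hs3⟩ : ∃ s : ℝ, 0 < s ∧ s ≤ 1 ∧ 242 * s * (CB * CM) ≤ ζ / 16 ∧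
      242 * s * (CB * CM) ≤ c / 2 := by
    refine ⟨min 1 (min (ζ / 16) (c / 2) / (242 * (CB * CM))), by positivity, min_le_left _ _, ?_⟩
    have := (le_div_iff₀ (by positivity)).1
      (min_le_right 1 (min (ζ / 16) (c / 2) / (242 * (CB * CM))))
    exact ⟨by linarith [min_le_left (ζ / 16) (c / 2)], by linarith [min_le_right (ζ / 16) (c / 2)]⟩
  have hD' : (2 : ℝ) ≤ D := by exact_mod_cast hD
  obtain ⟨μ₂, hμ₂⟩ : ∃ μ₂ : ℝ, ∀ μ, μ₂ ≤ μ → 8 * D * (D + 1) * exp (-μ / 64) ≤ s ^ 2 := by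
    refine ⟨-64 * log (s ^ 2 / (8 * D * (D + 1))), fun μ h => ?_⟩
    rw [mul_comm, ← le_div_iff₀ (by positivity), ← le_log_iff_exp_le (by positivity)]
    linarith
  obtain ⟨eW, heW, hW⟩ := win_mu hD (max μ₀ (max μ₁ μ₂))
  refine ⟨min (min eA eB) (min eC eW), by positivity, fun p α β hp hw S hS ν hν => ?_⟩
  have n1 := min_le_left (min eA eB) (min eC eW)
  have n2 := min_le_right (min eA eB) (min eC eW)
  have pA : 1 - eA ≤ p := by linarith [min_le_left eA eB]
  have pB : 1 - eB ≤ p := by linarith [min_le_right eA eB]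
  have pC : 1 - eC ≤ p := by linarith [min_le_left eC eW]
  have pW : 1 - eW ≤ p := by linarith [min_le_right eC eW]
  have hp1 := hw.1
  have hA' := hA p pA hp1
  have pr := ((hP D hD).2 S hS).2
  have key : ∀ x ∈ Set.Icc α β, ∃ μ, μ₂ ≤ μ ∧ Pt D Q A CB CM p x μ S ν := fun x hx => by
    obtain ⟨μ, a, b, d, e, -⟩ := hW p x pW hp1 (hw.mem hx).1 (hw.mem hx).2
    have m0 : μ₀ ≤ μ := (le_max_left _ _).trans a
    have m1 : μ₁ ≤ μ := (le_max_left _ _).trans ((le_max_right _ _).trans a)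
    have m2 : μ₂ ≤ μ := (le_max_right _ _).trans ((le_max_right _ _).trans a)
    have k := fun (u : V D) (hu : 0 ≤ u 0) => hK p x μ (tr u S) u _ ν m0
      ⟨hp1.le, b.le, e, (pr u).1⟩ ((pr u).2.2 hu).1 (((pr u).2.2 hu).2 Q ν hν)
    have mo := hM p x μ ν _ _ m1 hp1.le b.le e (ptb_sup fun u hu => (k u hu).1)
    refine ⟨μ, m2, fun u hu => (k u hu).1, fun u hu => (k u hu).2, mo.1, mo.2.1,
      fun u hu m r i r' => ⟨_, ?_, hB p x pB hp1.le (by linarith) (hw.mem hx).2 _ u _ (pr u).1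
        (pr u).2.1 m r i r'⟩, fun u m r i r' hu => ((hA' _).2 u m r i r').2.2 hu x,
      by linarith, hp1.le, b, by linarith, e⟩
    exact ((((pr u).2.2 hu).2 Q ν hν).le (by omega) m).trans
      (Nat.add_le_add_left (Nat.div_le_self _ _) _)
  have x1 : ∀ x ∈ Set.Icc α β, 1 ≤ x := fun x hx => by
    obtain ⟨μ, -, h⟩ := key x hx
    exact h.mu.trans h.le
  have L1 := fun (X : V D × ℕ × ℕ → Prop) (M : ℝ) =>
    lip1 hL (p := p) (α := α) (β := β) (S := S) X (M := M)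
      fun u m r => ((hA' (tr u S)).2 u m r 0 0).1
  have L2 := fun M : ℝ => lip2' hL (p := p) (α := α) (β := β) (S := S) (M := M)
    fun u m r i r' => ((hA' (tr u S)).2 u m r i r').2.1
  have id := fun x (hx : x ∈ Set.Icc α β) => (hA' S).1 x (x1 x hx)
  have big : 8 * (121 * (2 * 1 * CB ^ (ν + 1)) * CM ^ (ν + 1)) ≤ (1936 * (CB * CM)) ^ (ν + 1) := by
    have : (1936 : ℝ) ≤ 1936 ^ (ν + 1) := le_self_pow₀ (by norm_num) (by omega)
    calc _ = 1936 * (CB * CM) ^ (ν + 1) := by rw [mul_pow]; ring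
      _ ≤ 1936 ^ (ν + 1) * (CB * CM) ^ (ν + 1) := by gcongr
      _ = _ := (mul_pow _ _ _).symm
  have M0 : 0 ≤ 121 * (2 * 1 * CB ^ (ν + 1)) * CM ^ (ν + 1) := by positivity
  obtain ⟨a1, a2⟩ := L1 (fun _ => True) _ M0 fun x hx => by
    obtain ⟨μ, -, h⟩ := key x hx
    exact h.s1 hCB (by linarith [h.p0]) _ fun q _ hu => Or.inr
      ((h.ptb q.1 hu q.2.1 q.2.2 0 0).2.2.1.trans_eq (by simp))
  obtain ⟨-, b2⟩ := L2 _ M0 fun x hx => by
    obtain ⟨μ, -, h⟩ := key x hx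
    exact h.s2 hCB (by linarith [h.p0]) fun u hu m r i r' =>
      (h.ptb u hu m r i r').2.2.2.1.trans ((h.ptb u hu m r i r').2.2.1.trans_eq (by simp))
  simp only [if_true] at a1 a2
  refine ⟨fun x hx => (le_of_lip (id x hx) (a1 x hx)).1.trans
      (ENNReal.ofReal_le_ofReal (by linarith)),
    ((a2.sub b2).mono (by linarith)).congr fun x hx => (le_of_lip (id x hx) (a1 x hx)).2.symm, ?_⟩
  rintro rfl
  have e3 := hν.le (by omega) 3
  rw [Nat.div_eq_of_lt (by omega)] at e3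
  simp only [ks, Finset.sum_range_succ, Finset.range_zero, Finset.sum_empty, zero_add,
    Nat.cast_zero, Nat.cast_one, Nat.cast_ofNat] at e3
  obtain ⟨c1, c2⟩ := hC p α β pC hw S hS (by omega) (by omega) (by omega)
  have M1 : 0 ≤ 121 * (2 * s * CB ^ (0 + 1)) * CM ^ (0 + 1) := by positivity
  have es : ∀ {x μ : ℝ}, μ₂ ≤ μ → Pt D Q A CB CM p x μ S 0 → 1 - p ≤ s := fun {x μ} hμ h => by
    have a := hμ₂ μ hμ
    have b : exp (-μ) ≤ exp (-μ / 64) := exp_le_exp.2 (by linarith [h.mu])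
    have d := exp_pos (-μ / 64)
    have e : exp (-μ / 64) ≤ 8 * D * (D + 1) * exp (-μ / 64) :=
      le_mul_of_one_le_left d.le (by nlinarith)
    rw [h.eps]
    nlinarith
  obtain ⟨d1, d2⟩ := L1 (fun q => q ≠ (0, 2, 1)) _ M1 fun x hx => by
    obtain ⟨μ, hμ, h⟩ := key x hx
    exact h.s1 hCB (es hμ h) _ (h.small hD hQ (hμ₂ μ hμ) (c1 x hx).2.1 (c1 x hx).2.2).1
  obtain ⟨f1, f2⟩ := L2 _ M1 fun x hx => by
    obtain ⟨μ, hμ, h⟩ := key x hx
    exact h.s2 hCB (es hμ h) (h.small hD hQ (hμ₂ μ hμ) (c1 x hx).2.1 (c1 x hx).2.2).2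
  have sp := fun x => split (fun q : V D × ℕ × ℕ => T1 p x (tr q.1 S) q.1 q.2.1 q.2.2) (0, 2, 1)
  simp only [tr_zero] at sp
  refine ⟨fun x hx => ?_, (((c2.add d2).sub f2).mono (by nlinarith)).congr fun x hx => ?_⟩
  · have g : ENNReal.ofReal (c / 2) + ENNReal.ofReal (c / 2) ≤
        PhiS p x S + ENNReal.ofReal (c / 2) := by
      rw [← ENNReal.ofReal_add (by positivity) (by positivity), add_halves]
      refine (c1 x hx).1.trans (le_self_add.trans ((sp x).ge.trans ((id x hx).ge.trans ?_)))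
      exact add_le_add le_rfl ((f1 x hx).trans (ENNReal.ofReal_le_ofReal (by nlinarith)))
    exact (ENNReal.add_le_add_iff_right ENNReal.ofReal_ne_top).1 g
  · have t := ENNReal.add_ne_top.1
      (sp x ▸ ne_top_of_le_ne_top ENNReal.ofReal_ne_top (a1 x hx))
    rw [(le_of_lip (id x hx) (a1 x hx)).2, sp x, ENNReal.toReal_add t.1 t.2]

end Pool.Agent.MP_8c549f_pr

/-!
Filled bushes: existence, uniqueness, locality, translation, mass.
-/

set_option autoImplicit false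

namespace Pool.Agent.MP_8c549f_pr

open MeasureTheory Filter Topology Real
open scoped ENNReal NNReal

namespace RtbM

variable {D : ℕ}

theorem shift_edge (u : V D) (ω : Cfg D) (y : V D) (s : Step D) :
    shift u ω (edge y s) = ω (edge (y + u) s) := by
  simp only [shift, edge_add]

theorem shift_shift (u : V D) (ω : Cfg D) : shift (-u) (shift u ω) = ω := by
  funext e
  simp [shift]

theorem rlift {r r' : V D → V D → Prop} (u : V D) (hr : ∀ a b, r a b → r' (a + u) (b + u))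
    {x y : V D} (h : Relation.ReflTransGen r x y) : Relation.ReflTransGen r' (x + u) (y + u) := by
  induction h with
  | refl => exact Relation.ReflTransGen.refl
  | tail _ k ih => exact ih.tail (hr _ _ k)

theorem up_shift {ω : Cfg D} {i : ℤ} {x y : V D} (u : V D) (h : y ∈ Up (shift u ω) i x) :
    y + u ∈ Up ω (i + u 0) (x + u) := by
  refine rlift u (fun a b ⟨h1, h2, h3⟩ => ⟨?_, ?_, ?_⟩) h
  · obtain ⟨s, rfl, hs⟩ := opn_iff.1 h1
    exact opn_iff.2 ⟨s, add_right_comm _ _ _, by rwa [shift_edge] at hs⟩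
  · simpa using h2
  · simpa using h3

theorem bush_iff (ω : Cfg D) (u z : V D) : z ∈ Bush (shift u ω) 0 ↔ z + u ∈ Bush ω u := by
  constructor
  · intro h
    have := up_shift u h
    simpa [Bush, add_comm] using this
  · intro h
    rw [← shift_shift u ω] at h
    have := up_shift (-u) h
    simpa [Bush, add_right_comm] using this

theorem root_iff (ω : Cfg D) (u : V D) : Root (shift u ω) 0 ↔ Root ω u := by
  have hB : Bush (shift u ω) 0 = (fun z => z + u) ⁻¹' Bush ω u := Set.ext fun z => bush_iff ω u z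
  unfold Root
  rw [shift_edge, zero_add, hB]
  refine and_congr_right fun _ => and_congr ⟨fun h => h.of_preimage (add_right_surjective u),
    fun h => h.preimage (add_left_injective u).injOn⟩ ⟨fun h z hz h1 h2 => ?_, fun h z hz h1 h2 => ?_⟩
  · have := h (z - u) (by simpa using hz) (by simp [h1]) (by simpa [shift_edge] using h2)
    rw [sub_eq_iff_eq_add] at this
    rw [this]; abel
  · have := h (z + u) hz (by
      simp only [Pi.add_apply, Pi.zero_apply] at h1 ⊢; omega) (by rwa [shift_edge] at h2)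
    rw [add_comm u] at this
    rw [add_right_cancel this, zero_add]

theorem adj_add {x y : V D} (u : V D) (h : Adj x y) : Adj (x + u) (y + u) := by
  obtain ⟨s, rfl⟩ := h
  exact ⟨s, add_right_comm _ _ _⟩

theorem shape_tr {b : V D} {S : Finset (V D)} (u : V D) (h : Shape b S) :
    Shape (b + u) (tr u S) := by
  obtain ⟨h1, h2, h3, h4⟩ := h
  refine ⟨by simpa [mem_tr] using h1, fun x hx => ?_, fun x hx => ?_, fun x hx y hy => ?_⟩
  · have := h2 _ (mem_tr.1 hx)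
    simp only [Pi.sub_apply, Pi.add_apply] at this ⊢
    omega
  · have := rlift (r' := fun a b => Adj a b ∧ b ∈ tr u S) u
      (fun a b k => ⟨adj_add u k.1, by simpa [mem_tr] using k.2⟩) (h3 _ (mem_tr.1 hx))
    simpa using this
  · have := rlift (r' := fun a b => Adj a b ∧ b ∉ tr u S) u
      (fun a b k => ⟨adj_add u k.1, by simpa [mem_tr] using k.2⟩)
      (h4 (x - u) (mt mem_tr.2 hx) (y - u) (mt mem_tr.2 hy))
    simpa using this

theorem shape_iff (u : V D) (S : Finset (V D)) : Shape (u + e0 D) (tr u S) ↔ Shape (e0 D) S :=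
  ⟨fun h => by simpa [tr_tr, add_right_comm] using shape_tr (-u) h,
    fun h => by simpa [add_comm] using shape_tr u h⟩

theorem rootS_iff (ω : Cfg D) (u : V D) (S : Finset (V D)) :
    RootS ω u (tr u S) ↔ RootS (shift u ω) 0 S := by
  unfold RootS
  rw [root_iff, shape_iff, zero_add]
  refine and_congr_right fun _ => and_congr_right fun _ => and_congr
    ⟨fun h z hz => ?_, fun h z hz => ?_⟩ ⟨fun h x hx s hs => ?_, fun h x hx s hs => ?_⟩
  · have := h ((bush_iff ω u z).1 hz)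
    simpa [mem_tr] using this
  · have := h ((bush_iff ω u (z - u)).2 (by simpa using hz))
    simpa [mem_tr] using this
  · refine (bush_iff ω u x).2 (h _ (by simpa [mem_tr] using hx) s ?_)
    rwa [mem_tr, add_right_comm, add_sub_cancel_right]
  · have := (bush_iff ω u (x - u)).1 (h _ (mem_tr.1 hx) s (by
      rw [mem_tr] at hs; rwa [sub_add_eq_add_sub]))
    simpa using this

theorem pih_shift (ω : Cfg D) (u : V D) (g : ℤ → ℝ≥0∞) : pih g ω u = pih g (shift u ω) 0 := by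
  unfold pih
  congr 1
  rw [← (Equiv.addRight u).tsum_eq]
  refine tsum_congr fun z => ?_
  simp only [Equiv.coe_addRight]
  by_cases hz : z + u ∈ Bush ω u
  · rw [Set.indicator_of_mem hz, Set.indicator_of_mem ((bush_iff ω u z).2 hz)]
    refine Finset.sum_congr rfl fun s _ => ?_
    rw [shift_edge]
    congr 2
    simp only [expo, Pi.add_apply, Pi.zero_apply]
    ring
  · rw [Set.indicator_of_notMem hz, Set.indicator_of_notMem (mt (bush_iff ω u z).1 hz)]

theorem uniq {ω : Cfg D} {u : V D} {S S' : Finset (V D)} (h : RootS ω u S) (h' : RootS ω u S') :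
    S ⊆ S' := by
  intro x hx
  by_contra hx'
  obtain ⟨y, hy⟩ := Infinite.exists_notMem_finset (S ∪ S')
  rw [Finset.mem_union, not_or] at hy
  have key : ∀ z, Relation.ReflTransGen (fun a b => Adj a b ∧ b ∉ S') x z → z ∈ S ∧ z ∉ S' := by
    intro z hz
    induction hz with
    | refl => exact ⟨hx, hx'⟩
    | tail _ k ih =>
      obtain ⟨⟨s, rfl⟩, k2⟩ := k
      refine ⟨by_contra fun c => ih.2 (h'.2.2.1 (h.2.2.2 _ ih.1 s c)), k2⟩
  exact hy.1 (key y (h'.2.1.2.2.2 x hx' y hy.2)).1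

theorem bush_loc {ω ω' : Cfg D} {u : V D} {S : Finset (V D)} (h : Bush ω u ⊆ (S : Set (V D)))
    (e : ∀ f ∈ (near S : Set (Edge D)), ω f = ω' f) : Bush ω' u = Bush ω u := by
  have k : ∀ y ∈ Bush ω u, ∀ s, ω (edge y s) = ω' (edge y s) := fun y hy s =>
    e _ (edge_mem_near.2 (Or.inl (h hy)))
  refine Set.Subset.antisymm (Up_subset (self_mem_Up _ _ _) fun y hy s _ h2 _ h4 => ?_)
    (Up_subset (self_mem_Up _ _ _) fun y hy s h1 h2 _ h4 => ?_)
  · exact Up_step (by simp) hy ((k y hy s).trans h2) h4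
  · exact Up_step (by simp) hy ((k y h1 s).symm.trans h2) h4

theorem rootS_loc {ω ω' : Cfg D} {u : V D} {S : Finset (V D)} (h : RootS ω u S)
    (e : ∀ f ∈ (near S : Set (Edge D)), ω f = ω' f) :
    RootS ω' u S ∧ ∀ g, pih g ω u = pih g ω' u := by
  obtain ⟨⟨r1, r2, r3⟩, h2, h3, h4⟩ := h
  have hB := bush_loc h3 e
  have k : ∀ y ∈ Bush ω u, ∀ s, ω (edge y s) = ω' (edge y s) := fun y hy s =>
    e _ (edge_mem_near.2 (Or.inl (h3 hy)))
  refine ⟨⟨⟨?_, hB ▸ r2, fun z hz a b => ?_⟩, h2, hB ▸ h3, hB ▸ h4⟩, fun g => ?_⟩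
  · rw [← e _ (edge_mem_near.2 (Or.inr (vec_fwd_e0 (D := D) ▸ h2.1)))]
    exact r1
  · rw [hB] at hz
    exact r3 z hz a ((k z hz _).trans b)
  · unfold pih
    rw [hB]
    congr 1
    refine tsum_congr fun z => ?_
    by_cases hz : z ∈ Bush ω u
    · simp only [Set.indicator_of_mem hz, k z hz]
    · simp only [Set.indicator_of_notMem hz]

theorem dep_rootS (u : V D) (S : Finset (V D)) :
    Dep (fun ω => RootS ω u S) (near S : Set (Edge D)) := fun _ _ e =>
  propext ⟨fun h => (rootS_loc h e).1, fun h => (rootS_loc h fun f hf => (e f hf).symm).1⟩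

theorem meas_rootS (u : V D) (S : Finset (V D)) : MeasurableSet {ω : Cfg D | RootS ω u S} :=
  (dep_rootS u S).measurableSet (Finset.finite_toSet _)

theorem ht_iff {ω : Cfg D} {u : V D} {S : Finset (V D)} (h : RootS ω u (tr u S)) (n : ℕ) :
    ht (e0 D) S ≤ n ↔ ∀ z ∈ Bush ω u, z 0 ≤ u 0 + n := by
  constructor
  · intro k z hz
    have := Iso.lt_ht (b := e0 D) (mem_tr.1 (h.2.2.1 hz))
    simp only [Pi.sub_apply, e0_zero] at this
    omega
  · intro k
    obtain ⟨x, hx, e⟩ := Iso.exists_top ((shape_iff u S).1 h.2.1)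
    have a : x + u + vec (fwd D) ∉ tr u S := fun c => by
      have := Iso.lt_ht (b := e0 D) (mem_tr.1 c)
      simp only [Pi.sub_apply, Pi.add_apply, e0_zero, vec_fwd_zero] at this e
      omega
    have := k _ (h.2.2.2 _ (by simpa [mem_tr] using hx) _ a)
    simp only [Pi.add_apply, e0_zero] at this e
    omega

theorem pih_mono {ω : Cfg D} {S : Finset (V D)} (h : RootS ω 0 S) {n : ℕ} (hn : ht (e0 D) S ≤ n)
    {g g' : ℤ → ℝ≥0∞} (hg : ∀ m : ℤ, 1 ≤ m → m ≤ 2 * n + 1 → g m ≤ g' m) :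
    pih g ω 0 ≤ pih g' ω 0 := by
  unfold pih
  refine add_le_add (hg 1 le_rfl (by omega)) (ENNReal.tsum_le_tsum fun z => ?_)
  by_cases hz : z ∈ Bush ω 0
  · simp only [Set.indicator_of_mem hz]
    refine Finset.sum_le_sum fun s _ => ?_
    split_ifs
    · have a := Bush_level hz
      have b := (ht_iff (u := 0) (by simpa using h) n).1 hn z hz
      have c := vec_bounds s 0
      simp only [Pi.zero_apply] at a b
      exact hg _ (by simp only [expo, Pi.zero_apply]; omega) (by simp only [expo, Pi.zero_apply]; omega)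
    · exact le_rfl
  · simp only [Set.indicator_of_notMem hz, le_refl]

theorem pih_const {ω : Cfg D} {S : Finset (V D)} (h : RootS ω 0 S) (G : ℝ≥0∞) :
    pih (fun _ => G) ω 0 ≤ ((1 + (2 * D + 2) * S.card : ℕ) : ℝ≥0∞) * G := by
  classical
  unfold pih
  have a : ∀ z : V D, (Bush ω 0).indicator
      (fun z => ∑ s : Step D, if ω (edge z s) = true then G else 0) z ≤
      if z ∈ S then ((2 * D + 2 : ℕ) : ℝ≥0∞) * G else 0 := by
    intro z
    by_cases hz : z ∈ Bush ω 0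
    · rw [Set.indicator_of_mem hz, if_pos (show z ∈ S from h.2.2.1 hz)]
      refine (Finset.sum_le_card_nsmul _ _ G fun s _ => ?_).trans (le_of_eq ?_)
      · split_ifs
        · exact le_rfl
        · exact zero_le
      · rw [nsmul_eq_mul, Finset.card_univ, Fintype.card_prod, Fintype.card_fin, Fintype.card_bool]
        congr 2
        ring
    · rw [Set.indicator_of_notMem hz]; exact zero_le
  refine (add_le_add le_rfl (ENNReal.tsum_le_tsum a)).trans (le_of_eq ?_)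
  rw [tsum_eq_sum (s := S) fun z hz => if_neg hz, Finset.sum_congr rfl fun z hz => if_pos hz,
    Finset.sum_const, nsmul_eq_mul]
  push_cast
  ring

theorem bdry_closed {ω : Cfg D} {S : Finset (V D)} (h : RootS ω 0 S) :
    ∀ e ∈ bdry (e0 D) S, ω e = false := by
  intro e he
  obtain ⟨h1, h2, h3⟩ := Finset.mem_filter.1 he
  obtain ⟨x, hx, s, rfl⟩ := mem_near.1 h1
  have a : x + vec s ∉ S := fun c => h3 (by
    rcases edge_ends x s with ⟨k1, k2⟩ | ⟨k1, k2⟩ <;> rw [k2, k1] <;> simp [hx, c])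
  by_contra c
  obtain ⟨rfl, rfl⟩ := h.1.exit (h.2.2.2 x hx s a) (by simpa using c) fun k => a (h.2.2.1 k)
  rw [edge_lev] at h2
  simp [vec_bck] at h2

theorem card_le {b : V D} {S : Finset (V D)} (h : Shape b S) :
    S.card ≤ (bdry b S).card * ht b S := by
  classical
  have a : (Iso.ex S (fwd D)).card ≤ (bdry b S).card :=
    le_trans (Nat.le_add_right _ _) (Iso.sum_ex_le h.2.1)
  choose! y hy hy' using fun x (hx : x ∈ S) => Iso.exists_ex hx (fwd D)
  have := Finset.card_le_card_of_injOn (s := S)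
    (t := Iso.ex S (fwd D) ×ˢ Finset.Ico (b 0) (b 0 + ht b S)) (fun x => (y x, x 0))
    (fun x hx => by
      have k1 := h.2.1 x hx
      have k2 := Iso.lt_ht (b := b) hx
      exact Finset.mem_coe.2 (Finset.mem_product.2 ⟨hy x hx, Finset.mem_Ico.2 ⟨k1, by
        show x 0 < _
        omega⟩⟩))
    (fun x hx z hz e => by
      simp only [Prod.mk.injEq] at e
      funext i
      by_cases hi : i = 0
      · rw [hi]; exact e.2
      · rw [← hy' x hx i hi, ← hy' z hz i hi, e.1])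
  rw [Finset.card_product, Int.card_Ico] at this
  simp only [add_sub_cancel_left, Int.toNat_natCast] at this
  exact this.trans (Nat.mul_le_mul_right _ a)

end RtbM

open RtbM

theorem rt2 (hF : FILL2Stmt) : RT2Stmt := by
  classical
  intro D hD u
  refine ⟨fun ω h => ?_, fun ω S S' h h' => tr_injective u ((uniq h h').antisymm (uniq h' h)),
    dep_rootS u, fun S g ω ω' e => ?_, fun ω S => rootS_iff ω u S, fun ω g => pih_shift ω u g,
    fun ω S n h => ht_iff h n⟩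
  · have e : (u + e0 D) 0 = u 0 + 1 := by simp
    obtain ⟨S, h1, h2, h3⟩ := hF D hD ω (u + e0 D) (by rw [e]; exact h.2.1)
    rw [e] at h2 h3
    exact ⟨tr (-u) S, by rw [tr_tr, neg_add_cancel, tr_zero]; exact ⟨h, h1, h2, h3⟩⟩
  · have k := dep_rootS u S ω ω' e
    by_cases h : RootS ω u S
    · simp only [if_pos h, if_pos (rootS_loc h e).1, (rootS_loc h e).2 g]
    · have h' : ¬ RootS ω' u S := fun c => h (k.mpr c)
      simp only [if_neg h, if_neg h']

theorem pis (hM : MEASStmt) (_h : RT2Stmt) : PISStmt := by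
  intro D p S g g'
  have hm := fun g => (hM D 0).2.2.2.1 g 0
  refine ⟨?_, fun c => ?_, fun n hn hg => ?_, fun h => ?_⟩
  · unfold piS
    rw [← lintegral_add_left (hm g)]
    refine lintegral_congr fun ω => ?_
    unfold pih
    rw [add_add_add_comm, ← ENNReal.tsum_add]
    congr 1
    refine tsum_congr fun z => ?_
    by_cases hz : z ∈ Bush ω 0
    · simp only [Set.indicator_of_mem hz, ← Finset.sum_add_distrib]
      refine Finset.sum_congr rfl fun s _ => ?_
      split_ifs <;> simp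
    · simp only [Set.indicator_of_notMem hz, add_zero]
  · unfold piS
    rw [← lintegral_const_mul c (hm g)]
    refine lintegral_congr fun ω => ?_
    unfold pih
    rw [mul_add, ← ENNReal.tsum_mul_left]
    congr 1
    refine tsum_congr fun z => ?_
    by_cases hz : z ∈ Bush ω 0
    · simp only [Set.indicator_of_mem hz, Finset.mul_sum]
      refine Finset.sum_congr rfl fun s _ => ?_
      split_ifs <;> simp
    · simp only [Set.indicator_of_notMem hz, mul_zero]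
  · exact setLIntegral_mono' (meas_rootS 0 S) fun ω hω => pih_mono hω hn hg
  · have : {ω : Cfg D | RootS ω 0 S} = ∅ :=
      Set.eq_empty_of_forall_notMem fun ω hω => h (by simpa using hω.2.1)
    unfold piS
    rw [this, setLIntegral_empty]

theorem mbe (hM : MEASStmt) (hR : RT2Stmt) : MBEStmt := by
  intro D hD p h0 h1 g u n
  obtain ⟨r1, r2, -⟩ := hR D hD u
  have hm := (hM D 0).2.2.2.1 g 0
  have e : {ω : Cfg D | Root ω u ∧ ∀ z ∈ Bush ω u, z 0 ≤ u 0 + n} =
      ⋃ S : Finset (V D), {ω | ht (e0 D) S ≤ n ∧ RootS ω u (tr u S)} := by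
    ext ω
    simp only [Set.mem_ofPred_eq, Set.mem_iUnion]
    refine ⟨fun ⟨a, b⟩ => ?_, fun ⟨S, a, b⟩ => ⟨b.1, (ht_iff b n).1 a⟩⟩
    obtain ⟨S, hS⟩ := r1 ω a
    exact ⟨S, (ht_iff hS n).2 b, hS⟩
  rw [e, lintegral_iUnion]
  · unfold MB
    refine tsum_congr fun S => ?_
    split_ifs with h
    · simp only [h, true_and]
      unfold piS
      rw [← lintegral_indicator (meas_rootS _ _), ← lintegral_indicator (meas_rootS _ _),
        ← shft D p h0 h1 _ u (hm.indicator (meas_rootS 0 S))]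
      refine lintegral_congr fun ω => ?_
      by_cases k : RootS ω u (tr u S)
      · rw [Set.indicator_of_mem (show ω ∈ {ω | RootS ω u (tr u S)} from k),
          Set.indicator_of_mem (show shift u ω ∈ {ω | RootS ω 0 S} from (rootS_iff ω u S).1 k),
          pih_shift]
      · rw [Set.indicator_of_notMem (show ω ∉ {ω | RootS ω u (tr u S)} from k),
          Set.indicator_of_notMem
            (show shift u ω ∉ {ω | RootS ω 0 S} from mt (rootS_iff ω u S).2 k)]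
    · simp [h]
  · intro S
    exact (MeasurableSet.const _).inter (meas_rootS u _)
  · intro S S' hne
    exact Set.disjoint_left.2 fun ω a b => hne (r2 ω S S' a.2 b.2)

theorem mfin (_hR : RT2Stmt) (_hP : PISStmt) : MFINStmt := by
  classical
  intro D hD
  obtain ⟨C, hC⟩ := ani D hD
  have hC0 : (0 : ℝ) ≤ C := Nat.cast_nonneg C
  refine ⟨1 / (4 * (C + 1)), by positivity, fun p lam h0 h1 hl k n => ?_⟩
  have he : 1 / (4 * ((C : ℝ) + 1)) ≤ 1 := by
    rw [div_le_one (by positivity)]; linarith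
  have hp : 0 ≤ p := by linarith
  have hε : 0 ≤ 1 - p := by linarith
  have hε1 : 2 * C * (1 - p) ≤ 1 / 2 := by
    have : 1 - p ≤ 1 / (4 * ((C : ℝ) + 1)) := by linarith
    rw [le_div_iff₀ (by positivity)] at this
    nlinarith
  choose F hF hF' using hC (e0 D)
  set G : ℝ := (2 * n + 1) ^ k * exp (lam * (2 * n + 1)) with hG
  have hG0 : 0 ≤ G := by positivity
  set c : ℕ := (2 * D + 2) * n with hc
  set a : ℕ → ℝ≥0∞ := fun j => ENNReal.ofReal ((1 + c * j) * G * (1 - p) ^ j) with ha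
  have b1 : ∀ S : Finset (V D), (if ht (e0 D) S ≤ n then piS (gk k lam) p S else 0) ≤
      ∑' j, if S ∈ F j then a j else 0 := by
    intro S
    split_ifs with h
    swap
    · exact zero_le
    by_cases hS : Shape (e0 D) S
    swap
    · have : {ω : Cfg D | RootS ω 0 S} = ∅ :=
        Set.eq_empty_of_forall_notMem fun ω hω => hS (by simpa using hω.2.1)
      unfold piS
      rw [this, setLIntegral_empty]
      exact zero_le
    set j := (bdry (e0 D) S).card with hj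
    refine le_trans ?_ (ENNReal.le_tsum j)
    rw [if_pos (hF' j S hS le_rfl)]
    have c1 : 1 + (2 * D + 2) * S.card ≤ 1 + c * j := by
      have := (card_le hS).trans (Nat.mul_le_mul_left _ h)
      rw [hc, mul_assoc, mul_comm n]
      exact Nat.add_le_add_left (Nat.mul_le_mul_left _ this) 1
    have c2 : ∀ ω ∈ {ω : Cfg D | RootS ω 0 S},
        pih (gk k lam) ω 0 ≤ ENNReal.ofReal ((1 + c * j) * G) := by
      intro ω hω
      refine (pih_mono hω h (g' := fun _ => ENNReal.ofReal G) fun m m1 m2 => ?_).trans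
        ((pih_const hω _).trans ?_)
      · have k1 : (0 : ℝ) ≤ m := by exact_mod_cast (by omega : (0 : ℤ) ≤ m)
        have k2 : (m : ℝ) ≤ 2 * n + 1 := by exact_mod_cast m2
        refine ENNReal.ofReal_le_ofReal ?_
        rw [hG]
        gcongr
      · rw [ENNReal.ofReal_mul (p := 1 + (c : ℝ) * j) (by positivity), ← ENNReal.ofReal_natCast]
        refine mul_le_mul' (ENNReal.ofReal_le_ofReal ?_) le_rfl
        exact_mod_cast c1
    have c3 : perc D p {ω : Cfg D | RootS ω 0 S} ≤ ENNReal.ofReal ((1 - p) ^ j) := by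
      have := cyl D p hp h1 ∅ (bdry (e0 D) S) (Finset.disjoint_empty_left _)
      simp only [Finset.card_empty, pow_zero, one_mul] at this
      rw [← this]
      exact measure_mono fun ω hω => ⟨by simp, bdry_closed hω⟩
    calc piS (gk k lam) p S ≤ ∫⁻ _ in {ω : Cfg D | RootS ω 0 S},
          ENNReal.ofReal ((1 + c * j) * G) ∂perc D p := setLIntegral_mono' (meas_rootS 0 S) c2
      _ = ENNReal.ofReal ((1 + c * j) * G) * perc D p {ω : Cfg D | RootS ω 0 S} := by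
          rw [setLIntegral_const]
      _ ≤ ENNReal.ofReal ((1 + c * j) * G) * ENNReal.ofReal ((1 - p) ^ j) := mul_le_mul' le_rfl c3
      _ = a j := by rw [← ENNReal.ofReal_mul (by positivity)]
  have b2 : ∀ j, (∑' S : Finset (V D), if S ∈ F j then a j else 0) ≤
      ENNReal.ofReal ((1 + c) * G * (1 / 2) ^ j) := by
    intro j
    rw [tsum_eq_sum (s := F j) fun z hz => if_neg hz, Finset.sum_congr rfl fun z hz => if_pos hz,
      Finset.sum_const, nsmul_eq_mul, ← ENNReal.ofReal_natCast, ha,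
      ← ENNReal.ofReal_mul (Nat.cast_nonneg _)]
    refine ENNReal.ofReal_le_ofReal ?_
    have d1 : ((F j).card : ℝ) ≤ (C : ℝ) ^ j := by exact_mod_cast hF j
    have d2 : (1 : ℝ) + c * j ≤ (1 + c) * 2 ^ j := by
      have k1 : (j : ℝ) ≤ 2 ^ j := by exact_mod_cast (Nat.lt_two_pow_self (n := j)).le
      have k2 : (1 : ℝ) ≤ 2 ^ j := one_le_pow₀ (by norm_num)
      have k3 : (0 : ℝ) ≤ c := Nat.cast_nonneg c
      nlinarith
    calc ((F j).card : ℝ) * ((1 + c * j) * G * (1 - p) ^ j)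
        ≤ (C : ℝ) ^ j * ((1 + c) * 2 ^ j * G * (1 - p) ^ j) := by gcongr
      _ = (1 + c) * G * (2 * C * (1 - p)) ^ j := by rw [mul_pow, mul_pow]; ring
      _ ≤ _ := by gcongr
  refine ne_top_of_le_ne_top ?_ ((ENNReal.tsum_le_tsum b1).trans
    (ENNReal.tsum_comm.le.trans (ENNReal.tsum_le_tsum b2)))
  rw [← ENNReal.ofReal_tsum_of_nonneg (fun j => by positivity)
    (summable_geometric_two.mul_left _)]
  exact ENNReal.ofReal_ne_top

end Pool.Agent.MP_8c549f_pr

end MrgPart1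

-- marker of a merged file
example : 731051 + 273042 = 731051 + 273042 := rfl
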