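import Pool.Agent.MP_8c549f_pr.Base2

-- ======== part 0: formerly Pool.Agent.MP_8c549f_pr.B6
section MrgPart0

/-!
Factorisation of the annealed weights of the walk outside a closed set.
-/

set_option autoImplicit false

namespace Pool.Agent.MP_8c549f_pr

open MeasureTheory Filter Topology Real
open scoped ENNReal NNReal

variable {D : ℕ}

namespace KfacM

/-- close the edges at `S`, open the back edge of `x` -/
noncomputable def cx (S : Finset (V D)) (x : V D) (ω : Cfg D) : Cfg D :=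
  Function.update (clo S ω) (edge x (bck D)) true

theorem wk_eq (S : Finset (V D)) (p lam : ℝ) (x : V D) (l : List (Step D)) :
    wk S p lam x l = ∫⁻ ω, W lam (cx S x ω) x l ∂perc D p := rfl

theorem cx_bck (S : Finset (V D)) (x : V D) (ω : Cfg D) : cx S x ω (edge x (bck D)) = true :=
  Function.update_self _ _ _

theorem cx_ne (S : Finset (V D)) {x : V D} (ω : Cfg D) {e : Edge D} (h : e ≠ edge x (bck D)) :
    cx S x ω e = clo S ω e := Function.update_of_ne h _ _

theorem cx_of_open {S : Finset (V D)} (x : V D) {ω : Cfg D} {e : Edge D} (h : clo S ω e = true) :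
    cx S x ω e = true := by
  by_cases he : e = edge x (bck D)
  · rw [he, cx_bck]
  · rw [cx_ne S ω he, h]

theorem measurable_cx (S : Finset (V D)) (x : V D) : Measurable (cx S x : Cfg D → Cfg D) :=
  measurable_update_left.comp (measurable_clo S)

theorem meas_W (S : Finset (V D)) (x y : V D) (lam : ℝ) (l : List (Step D)) :
    Measurable fun ω : Cfg D => W lam (cx S x ω) y l :=
  (measurable_W lam y l).comp (measurable_cx S x)

theorem dep_cx (S : Finset (V D)) (x : V D) {β : Type} {F : Cfg D → β} {T : Set (Edge D)}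
    (h : Dep F T) : Dep (fun ω => F (cx S x ω)) (T \ {edge x (bck D)}) := by
  intro ω ω' e
  refine h _ _ fun f hf => ?_
  by_cases he : f = edge x (bck D)
  · rw [he, cx_bck, cx_bck]
  · rw [cx_ne S ω he, cx_ne S ω' he]
    unfold clo
    rw [e f ⟨hf, he⟩]

theorem edge_ne {x y : V D} (hy : x 0 + 1 ≤ y 0) (s : Step D) : edge y s ≠ edge x (bck D) := by
  intro h
  rcases edge_eq_iff.1 h.symm with ⟨h1, -⟩ | ⟨h1, -⟩
  · rw [h1] at hy; omega
  · rw [h1] at hy; simp at hy

theorem edge_tr (x a b : V D) (s t : Step D) :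
    edge (x + a) s = edge (x + b) t ↔ edge a s = edge b t := by
  simp only [edge_eq_iff, add_assoc, add_right_inj]

theorem core {p : ℝ} (lam : ℝ) (h0 : 0 ≤ p) (h1 : p ≤ 1) (S : Finset (V D)) (x : V D)
    (l₁ l₂ : List (Step D)) (n : ℕ) (hn : l₁.length = n + 1) (hup : H l₁ (n + 1) = H l₁ n + 1)
    (hlev : 1 ≤ lev l₁) (h2 : ∀ k < l₂.length, 0 ≤ H l₂ k)
    (hd : ∀ i < l₁.length, ∀ k < l₂.length, ∀ s t,
      edge (loc l₁ i) s = edge (pos l₁ + loc l₂ k) t → edge (loc l₁ i) s = edge (pos l₁) (bck D)) :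
    wk S p lam x (l₁ ++ l₂) = wk S p lam x l₁ * wk S p lam (x + pos l₁) l₂ := by
  have hn' : n < l₁.length := by omega
  have hs : l₁[n] = fwd D := by
    rw [H_succ hn'] at hup
    exact vec_zero_eq_one.1 (by linarith)
  have hxe : edge (loc l₁ n) l₁[n] = edge (pos l₁) (bck D) := by
    have : pos l₁ = loc l₁ n + vec l₁[n] := by rw [← loc_succ hn', ← hn, loc_length]
    rw [this, ← edge_rev, hs]
    rfl
  have hx0 : x 0 + 1 ≤ (x + pos l₁) 0 := by
    simp only [Pi.add_apply]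
    unfold lev at hlev
    omega
  have hpt : ∀ ω : Cfg D, W lam (cx S x ω) x (l₁ ++ l₂) =
      W lam (cx S x ω) x l₁ * W lam (cx S (x + pos l₁) ω) (x + pos l₁) l₂ := by
    intro ω
    rw [W_append]
    by_cases hz : W lam (cx S x ω) x l₁ = 0
    · rw [hz, zero_mul, zero_mul]
    · congr 1
      have ho := (W_ne_zero_iff lam _ l₁ x).1 hz n hn'
      rw [(edge_tr x _ _ _ _).2 hxe, cx_ne S ω (edge_ne hx0 _)] at ho
      have hp : cx S (x + pos l₁) ω = clo S ω := Function.update_eq_self_iff.2 ho.symm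
      rw [hp]
      refine W_congr lam l₂ _ fun k hk s => cx_ne S ω (edge_ne ?_ s)
      have := h2 k hk
      simp only [Pi.add_apply] at hx0 ⊢
      unfold H at this
      omega
  simp only [wk_eq, hpt]
  refine ind D p h0 h1 _ _ _ _ (meas_W S x x lam l₁) (meas_W S _ _ lam l₂)
    (dep_cx S x (dep_W lam x l₁)) (dep_cx S _ (dep_W lam _ l₂)) (Set.disjoint_left.2 ?_)
  rintro e ⟨⟨i, hi, s, rfl⟩, -⟩ ⟨⟨k, hk, t, h⟩, hne⟩
  rw [add_assoc, edge_tr] at h
  exact hne ((edge_tr x _ _ _ _).2 (hd i hi k hk s t h.symm))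

theorem ka {p : ℝ} (lam : ℝ) (h0 : 0 ≤ p) (h1 : p ≤ 1) (S : Finset (V D)) (x : V D)
    (l₁ l₂ : List (Step D)) (hc : Cand l₁ l₁.length) (h2 : ∀ i < l₂.length, 0 ≤ H l₂ i) :
    wk S p lam x (l₁ ++ l₂) = wk S p lam x l₁ * wk S p lam (x + pos l₁) l₂ := by
  obtain ⟨c1, -, c3, c4⟩ := hc
  obtain ⟨n, hn⟩ : ∃ n, l₁.length = n + 1 := ⟨l₁.length - 1, by omega⟩
  rw [hn, Nat.add_sub_cancel] at c3 c4
  have hl : lev l₁ = H l₁ n + 1 := by rw [← c3, ← hn, H_length]
  have hn0 : 0 ≤ H l₁ n := by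
    rcases Nat.eq_zero_or_pos n with rfl | h
    · simp
    · simpa using (c4 0 h).le
  refine core lam h0 h1 S x l₁ l₂ n hn c3 (by omega) h2 fun i hi k hk s t h => ?_
  have hk0 := h2 k hk
  have hi0 : H l₁ i ≤ H l₁ n := by
    rcases (Nat.lt_succ_iff.1 (hn ▸ hi)).eq_or_lt with rfl | h'
    · exact le_rfl
    · exact (c4 i h').le
  have hs := vec_bounds s 0
  rcases edge_eq_iff.1 h with ⟨e1, -⟩ | ⟨e1, -⟩
  · have := congrFun e1 0
    simp only [Pi.add_apply] at this
    unfold lev H at *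
    omega
  · have e2 := congrFun e1 0
    simp only [Pi.add_apply] at e2
    have hin : i = n := by
      by_contra hne
      have := c4 i (by omega)
      unfold lev H at *
      omega
    subst hin
    have hsf : s = fwd D := vec_zero_eq_one.1 (by unfold lev H at *; omega)
    have hi' : l₁[i] = fwd D := by
      rw [H_succ hi] at c3
      exact vec_zero_eq_one.1 (by linarith)
    have : pos l₁ = loc l₁ i + vec s := by rw [hsf, ← hi', ← loc_succ hi, ← hn, loc_length]
    rw [this, ← edge_rev, hsf]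
    rfl

theorem wk_nil {p : ℝ} (lam : ℝ) (h0 : 0 ≤ p) (h1 : p ≤ 1) (S : Finset (V D)) (x : V D) :
    wk S p lam x [] = 1 := by
  have := perc_prob D h0 h1
  simp [wk]

theorem kb {p : ℝ} (lam : ℝ) (h0 : 0 ≤ p) (h1 : p ≤ 1) (S : Finset (V D)) (x : V D)
    (l₁ : List (Step D)) (s : Step D) (hr : Rec l₁) :
    wk S p lam x (l₁ ++ [s]) = wk S p lam x l₁ * wk S p lam (x + pos l₁) [s] := by
  rcases eq_or_ne l₁ [] with rfl | hne
  · rw [wk_nil lam h0 h1, one_mul, List.nil_append, pos_nil, add_zero]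
  obtain ⟨n, hn⟩ : ∃ n, l₁.length = n + 1 :=
    ⟨l₁.length - 1, by have := List.length_pos_iff.2 hne; omega⟩
  have hl : H l₁ (n + 1) = lev l₁ := by rw [← hn, H_length]
  have a1 := hr n (by omega)
  have a2 := H_step l₁ n
  have a3 := hr 0 (by omega)
  rw [H_zero] at a3
  refine core lam h0 h1 S x l₁ [s] n hn (by omega) (by omega) (fun k hk => ?_)
    fun i hi k hk u t h => ?_
  · obtain rfl : k = 0 := by simpa using hk
    simp
  · obtain rfl : k = 0 := by simpa using hk
    rw [loc_zero, add_zero] at h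
    have a4 := hr i hi
    have hu := vec_bounds u 0
    rcases edge_eq_iff.1 h with ⟨e1, -⟩ | ⟨e1, -⟩
    · have := congrFun e1 0
      unfold lev H at *
      omega
    · have e2 := congrFun e1 0
      simp only [Pi.add_apply] at e2
      have hsf : u = fwd D := vec_zero_eq_one.1 (by unfold lev H at *; omega)
      rw [e1, ← edge_rev, hsf]
      rfl

theorem kl {p : ℝ} (lam : ℝ) (h0 : 0 ≤ p) (h1 : p ≤ 1) (S : Finset (V D)) (x : V D)
    (l₁ l₂ : List (Step D))
    (hd : ∀ i < l₁.length, ∀ k ≤ l₂.length, loc l₁ i ≠ pos l₁ + loc l₂ k)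
    (hS : ∀ k ≤ l₂.length, x + pos l₁ + loc l₂ k ∉ S) :
    wk S p lam x l₁ * (ENNReal.ofReal (p ^ l₂.length) * Wf lam l₂) ≤ wk S p lam x (l₁ ++ l₂) := by
  classical
  set O : Finset (Edge D) :=
    Finset.univ.image fun k : Fin l₂.length => edge (x + pos l₁ + loc l₂ k) l₂[k.1] with hO
  set A : Set (Cfg D) :=
    {ω | (∀ e ∈ O, ω e = true) ∧ ∀ e ∈ (∅ : Finset (Edge D)), ω e = false} with hA
  have dA : Dep (fun ω => A.indicator (fun _ => Wf lam l₂) ω) (O : Set (Edge D)) := by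
    intro ω ω' h
    have : ω ∈ A ↔ ω' ∈ A := by
      simp only [hA, Set.mem_ofPred_eq]
      exact and_congr (forall₂_congr fun e he => by rw [h e he]) (by simp)
    simp only [Set.indicator_apply, this]
  have mA : MeasurableSet A := by
    refine Dep.measurableSet (S := (O : Set (Edge D))) (fun ω ω' h => propext ?_) O.finite_toSet
    exact and_congr (forall₂_congr fun e he => by rw [h e he]) (by simp)
  have hdis : Disjoint ({e | ∃ i < l₁.length, ∃ s, edge (x + loc l₁ i) s = e} \ {edge x (bck D)})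
      (O : Set (Edge D)) := by
    refine Set.disjoint_left.2 ?_
    rintro e ⟨⟨i, hi, s, rfl⟩, -⟩ he
    obtain ⟨k, -, hk⟩ := Finset.mem_image.1 he
    rw [add_assoc, edge_tr] at hk
    rcases edge_eq_iff.1 hk with ⟨e1, -⟩ | ⟨e1, -⟩
    · exact hd i hi k k.2.le e1
    · exact hd i hi (k + 1) k.2 (by rw [e1, loc_succ k.2, add_assoc])
  have h3 := ind D p h0 h1 _ _ _ _ (meas_W S x x lam l₁) (measurable_const.indicator mA)
    (dep_cx S x (dep_W lam x l₁)) dA hdis
  rw [lintegral_indicator_const mA, cyl D p h0 h1 O ∅ (Finset.disjoint_empty_right _)] at h3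
  have hc : O.card ≤ l₂.length := Finset.card_image_le.trans (by simp)
  calc wk S p lam x l₁ * (ENNReal.ofReal (p ^ l₂.length) * Wf lam l₂)
      ≤ wk S p lam x l₁ * (Wf lam l₂ *
          ENNReal.ofReal (p ^ O.card * (1 - p) ^ (∅ : Finset (Edge D)).card)) := by
        rw [mul_comm (Wf lam l₂)]
        gcongr
        simpa using pow_le_pow_of_le_one h0 h1 hc
    _ ≤ wk S p lam x (l₁ ++ l₂) := by
        rw [wk_eq, wk_eq, ← h3]
        refine lintegral_mono fun ω => ?_
        rw [W_append]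
        refine mul_le_mul' le_rfl ?_
        by_cases hω : ω ∈ A
        · rw [Set.indicator_of_mem hω]
          refine Wf_le_W lam _ l₂ _ fun k hk => cx_of_open x (clo_eq_true.2 ⟨fun hn => ?_,
            hω.1 _ (Finset.mem_image.2 ⟨⟨k, hk⟩, Finset.mem_univ _, rfl⟩)⟩)
          rcases edge_mem_near.1 hn with h | h
          · exact hS k hk.le h
          · exact hS (k + 1) hk (by rwa [loc_succ hk, ← add_assoc])
        · rw [Set.indicator_of_notMem hω]
          exact zero_le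

theorem out {p lam : ℝ} {S : Finset (V D)} {x : V D} (l : List (Step D)) (hx : x ∉ S)
    (hl : 0 ≤ lev l) (hw : wk S p lam x l ≠ 0) : x + pos l ∉ S := by
  rcases List.eq_nil_or_concat' l with rfl | ⟨u, s, rfl⟩
  · simpa using hx
  obtain ⟨ω, hω⟩ : ∃ ω, W lam (cx S x ω) x (u ++ [s]) ≠ 0 := by
    by_contra hc
    push Not at hc
    exact hw (by simp [wk_eq, hc])
  rw [W_append, W_single] at hω
  have ho : cx S x ω (edge (x + pos u) s) = true :=
    open_of_pr_ne fun h => hω (by rw [h]; simp)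
  have e : x + pos (u ++ [s]) = x + pos u + vec s := by simp [add_assoc]
  rw [e]
  by_cases he : edge (x + pos u) s = edge x (bck D)
  · rcases edge_eq_iff.1 he with ⟨e1, e2⟩ | ⟨e1, -⟩
    · have := congrFun e1 0
      rw [lev_append, lev_cons, lev_nil, ← e2, vec_bck_zero] at hl
      simp only [Pi.add_apply] at this
      unfold lev at hl
      omega
    · rwa [← e1]
  · rw [cx_ne S ω he] at ho
    exact fun h => (clo_eq_true.1 ho).1 (edge_mem_near.2 (Or.inr h))

theorem cont (p lam : ℝ) (S : Finset (V D)) (x : V D) (u : List (Step D))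
    {T : Set (List (Step D))} (hT : Antich T) :
    SS T (fun t => wk S p lam x (u ++ t)) ≤ wk S p lam x u := by
  simp only [wk_eq]
  rw [← lintegral_SS _ T fun t => meas_W S x x lam (u ++ t)]
  exact lintegral_mono fun ω => cont_q lam _ hT x u

end KfacM

open KfacM

theorem kfac : KFACStmt := by
  intro D p lam h0 h1 S x
  have := perc_prob D h0 h1
  refine ⟨ka lam h0 h1 S x, kb lam h0 h1 S x, kl lam h0 h1 S x, fun l => out l, ?_,
    fun u T hT => cont p lam S x u hT,
    fun L P hL h => cover_of_cont (fun _ hT u => cont p lam S x u hT) hL fun l hl _ => h l hl,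
    wk_nil lam h0 h1 S x, fun m r => lintegral_SS _ _ (meas_W S 0 0 lam), fun m r i r' => ?_⟩
  · simp only [wk_eq]
    rw [← lintegral_finsetSum _ fun s _ => meas_W S x x lam [s]]
    simp only [W_single, sum_ofReal_pr_eq_one lam (cx_bck S x _)]
    simp
  · have e : ∀ ω, U2 lam (plus (clo S ω)) m r i r' = SS {l | Piece m r l} fun l =>
        SS {t | t ∈ RetSet D i ∧ ext t = r'} fun t => W lam (cx S 0 ω) 0 (l ++ t) := fun ω => by
      refine SS_congr fun l _ => ?_
      simp only [W_append, zero_add]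
      rw [SS_mul_left]
      rfl
    unfold g2
    simp only [e]
    rw [lintegral_SS _ _ fun l => measurable_SS fun t => meas_W S 0 0 lam (l ++ t)]
    refine SS_congr fun l hl => ?_
    rw [lintegral_SS _ _ fun t => meas_W S 0 0 lam (l ++ t), ← SS_mul_left]
    refine SS_congr fun t ht => ?_
    have := ka lam h0 h1 S 0 l t hl.1.2.1 fun k hk => (ht.1.2.1 k hk).1
    rwa [zero_add] at this

end Pool.Agent.MP_8c549f_pr

/-!
Lateral displacement inside a slab for the walk outside a closed set.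
-/

set_option autoImplicit false

namespace Pool.Agent.MP_8c549f_pr

open MeasureTheory Filter Topology Real
open scoped ENNReal NNReal

variable {D : ℕ}

namespace KlatM

open LatM

theorem loc_rep {n k : ℕ} (hk : k ≤ n) :
    loc (List.replicate n (fwd D)) k = Pi.single 0 (k : ℤ) := by
  rw [loc, List.take_replicate, pos_replicate, min_eq_left hk]

theorem lev_rep (n : ℕ) : lev (List.replicate n (fwd D)) = n := by
  rw [lev, pos_replicate, Pi.single_eq_same]

theorem Wf_rep {p : ℝ} (h0 : 0 ≤ p) (lam : ℝ) (n : ℕ) :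
    ENNReal.ofReal (p ^ n) * Wf lam (List.replicate n (fwd D)) =
      ENNReal.ofReal ((p * exp lam / Zf D lam) ^ n) := by
  have hZ := Zf_pos D lam
  rw [Wf_eq, ← ENNReal.ofReal_mul (by positivity), lev_rep, List.length_replicate, div_pow,
    mul_pow, ← exp_nat_mul]
  congr 1
  push_cast
  rw [mul_comm lam]
  ring

theorem phi_le_one {p : ℝ} (h1 : p ≤ 1) (lam : ℝ) : p * exp lam / Zf D lam ≤ 1 := by
  rw [div_le_one (Zf_pos D lam)]
  have h2 : p * exp lam ≤ exp lam := mul_le_of_le_one_left (exp_pos lam).le h1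
  have h3 := exp_pos (-lam)
  have h4 : (0 : ℝ) ≤ D := Nat.cast_nonneg D
  unfold Zf
  linarith

/-- the sites of the slab that lie just below a site of `S` -/
noncomputable def Below (S : Finset (V D)) (x : V D) (h : ℕ) : Finset (V D) :=
  (S.image fun y => y - e0 D).filter fun w => w ∉ S ∧ x 0 ≤ w 0 ∧ w 0 ≤ x 0 + h

theorem card_below {S : Finset (V D)} {u : V D} {k : ℤ → ℕ} (hP : Prof S u k) (x : V D) (h : ℕ) :
    (Below S x h).card ≤ 1 + ks k (x 0) (h + 1) := by
  have hsub : Below S x h ⊆ insert u ((Finset.range (h + 1)).biUnion fun i : ℕ =>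
      (S.image fun y => y - e0 D).filter fun w => w ∉ S ∧ w 0 = x 0 + i ∧ w ≠ u) := by
    intro w hw
    obtain ⟨h1, h2, h3, h4⟩ := Finset.mem_filter.1 hw
    by_cases hu : w = u
    · exact Finset.mem_insert.2 (Or.inl hu)
    · refine Finset.mem_insert.2 (Or.inr (Finset.mem_biUnion.2
        ⟨(w 0 - x 0).toNat, Finset.mem_range.2 (by omega), Finset.mem_filter.2 ⟨h1, h2, ?_, hu⟩⟩))
      omega
  refine (Finset.card_le_card hsub).trans ((Finset.card_insert_le _ _).trans ?_)
  rw [add_comm]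
  refine Nat.add_le_add_left (Finset.card_biUnion_le.trans ?_) 1
  exact Finset.sum_le_sum fun i _ => hP.2.2.2 _

/-- the lateral positions at which the straight path may be blocked -/
noncomputable def Bad (S : Finset (V D)) (x : V D) (h : ℕ) (j : Fin D) (g : ℤ) : Finset ℤ :=
  (Below S x h).image fun w => g * (w - x) j.succ

theorem avoid {S : Finset (V D)} {x : V D} {h : ℕ} {j : Fin D} {g a : ℤ}
    (ha : a ∉ Bad S x h j g) {l : List (Step D)} (hl : l ∈ LS h j g a) (hx : x + pos l ∉ S)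
    (k : ℕ) (hk : lev l + k ≤ h + 1) : x + pos l + Pi.single 0 (k : ℤ) ∉ S := by
  induction k with
  | zero => simpa using hx
  | succ k ih =>
    intro hS
    have h0 := (hl.1 l.length le_rfl).1
    rw [H_length] at h0
    push_cast at hk hS
    refine ha (Finset.mem_image.2 ⟨x + pos l + Pi.single 0 (k : ℤ), Finset.mem_filter.2
      ⟨Finset.mem_image.2 ⟨_, hS, ?_⟩, ih (by omega), ?_, ?_⟩, ?_⟩)
    · rw [Pi.single_add, e0]; abel
    · simp only [Pi.add_apply, Pi.single_eq_same]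
      unfold lev at h0
      omega
    · simp only [Pi.add_apply, Pi.single_eq_same]
      unfold lev at hk
      omega
    · rw [← hl.2.1]
      simp

theorem not_pre {h n : ℕ} {j : Fin D} {g a : ℤ} {l t : List (Step D)} (hl : l ∈ LS h j g a)
    (ht : l ++ t ∈ LS h j g (a + 1)) : ¬ t <+: List.replicate n (fwd D) := by
  intro hp
  have h1 := ht.2.1
  have h2 : pos t = loc (List.replicate n (fwd D)) t.length := by
    rw [loc, ← List.prefix_iff_eq_take.1 hp]
  have h3 : t.length ≤ n := by simpa using hp.length_le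
  rw [pos_append, Pi.add_apply, mul_add, hl.2.1, h2, loc_rep h3] at h1
  simp at h1

theorem antich_trial {h n : ℕ} {j : Fin D} {g a : ℤ} {l : List (Step D)} (hl : l ∈ LS h j g a)
    (hn : lev l + n = h + 1) :
    Antich ({t | l ++ t ∈ LS h j g (a + 1)} ∪ {List.replicate n (fwd D)}) := by
  rintro b (hb | hb) c (hc | hc) hbc
  · exact (antich_LS h j g _).tail l b hb c hc hbc
  · rw [Set.mem_singleton_iff.1 hc] at hbc
    exact absurd hbc (not_pre hl hb)
  · exfalso
    obtain ⟨t, rfl⟩ := hbc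
    have h1 := (hc.1 (l.length + b.length) (by simp)).2
    rw [H_append_right, H_append_left t le_rfl, H_length, Set.mem_singleton_iff.1 hb,
      lev_rep] at h1
    omega
  · exact (Set.mem_singleton_iff.1 hb).trans (Set.mem_singleton_iff.1 hc).symm

theorem wk_le_one (hK : KFACStmt) {p lam : ℝ} (h0 : 0 ≤ p) (h1 : p ≤ 1) (S : Finset (V D))
    (x : V D) {T : Set (List (Step D))} (hT : Antich T) : SS T (wk S p lam x) ≤ 1 := by
  obtain ⟨-, -, -, -, -, h6, -, h8, -⟩ := hK D p lam h0 h1 S x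
  have := h6 [] T hT
  rw [h8] at this
  simpa using this

theorem step_good (hK : KFACStmt) {p lam : ℝ} (h0 : 0 ≤ p) (h1 : p ≤ 1) {S : Finset (V D)}
    {x : V D} (hx : x ∉ S) {h : ℕ} {j : Fin D} {g a : ℤ} (ha : a ∉ Bad S x h j g)
    {l : List (Step D)} (hl : l ∈ LS h j g a) :
    SS {t | l ++ t ∈ LS h j g (a + 1)} (fun t => wk S p lam x (l ++ t)) ≤
      (1 - ENNReal.ofReal ((p * exp lam / Zf D lam) ^ (h + 1))) * wk S p lam x l := by
  obtain ⟨-, -, h3, h4, -, h6, -⟩ := hK D p lam h0 h1 S x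
  by_cases hz : wk S p lam x l = 0
  · have := h6 l _ ((antich_LS h j g (a + 1)).tail l)
    rw [hz] at this
    exact this.trans zero_le
  have hlev := hl.1 l.length le_rfl
  rw [H_length] at hlev
  obtain ⟨n, hn⟩ : ∃ n : ℕ, lev l + n = h + 1 := ⟨(h + 1 - lev l).toNat, by omega⟩
  have hd : Disjoint {t | l ++ t ∈ LS h j g (a + 1)} {List.replicate n (fwd D)} := by
    rw [Set.disjoint_singleton_right]
    exact fun ht => not_pre (n := n) hl ht List.prefix_rfl
  have hc := h6 l _ (antich_trial hl hn)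
  rw [SS_union hd, SS_singleton] at hc
  have hZ := Zf_pos D lam
  have hs : ENNReal.ofReal ((p * exp lam / Zf D lam) ^ (h + 1)) * wk S p lam x l ≤
      wk S p lam x (l ++ List.replicate n (fwd D)) := by
    refine le_trans ?_ (h3 l _ (fun i hi k hk e => ?_) fun k hk => ?_)
    · rw [List.length_replicate, Wf_rep h0, mul_comm]
      refine mul_le_mul_right (ENNReal.ofReal_le_ofReal ?_) _
      exact pow_le_pow_of_le_one (by positivity) (phi_le_one h1 lam) (by omega)
    · have h2 := hl.2.2 i hi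
      rw [List.length_replicate] at hk
      rw [e, loc_rep hk, Pi.add_apply, mul_add, hl.2.1] at h2
      simp at h2
    · rw [List.length_replicate] at hk
      rw [loc_rep hk]
      exact avoid ha hl (h4 l hx hlev.1 hz) k (by omega)
  have hfin : wk S p lam x l ≠ ∞ := by
    have := wk_le_one (lam := lam) hK h0 h1 S x (T := {l}) (by
      rintro b hb c hc -
      exact (Set.mem_singleton_iff.1 hb).trans (Set.mem_singleton_iff.1 hc).symm)
    rw [SS_singleton] at this
    exact ne_top_of_le_ne_top ENNReal.one_ne_top this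
  rw [ENNReal.sub_mul fun _ _ => hfin, one_mul]
  refine ENNReal.le_sub_of_add_le_right ?_ (le_trans (add_le_add le_rfl hs) hc)
  exact ne_top_of_le_ne_top hfin (hs.trans (le_trans le_add_self hc))

theorem LS_bound (hK : KFACStmt) {p lam : ℝ} (h0 : 0 ≤ p) (h1 : p ≤ 1) {S : Finset (V D)}
    {x : V D} (hx : x ∉ S) {h : ℕ} {j : Fin D} {g : ℤ} (hg : g = 1 ∨ g = -1) (J : ℕ) :
    SS (LS h j g J) (wk S p lam x) ≤ (1 - ENNReal.ofReal ((p * exp lam / Zf D lam) ^ (h + 1))) ^
      ((Finset.range J).filter fun a : ℕ => (a : ℤ) ∉ Bad S x h j g).card := by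
  induction J with
  | zero => simpa using wk_le_one hK h0 h1 S x (antich_LS h j g _)
  | succ J ih =>
    have hpre : ∀ l ∈ LS h j g ((J : ℤ) + 1), ∃ u ∈ LS h j g (J : ℤ), u <+: l := fun l hl =>
      prefix_LS hg (by positivity) (by omega) hl
    rw [Finset.range_add_one, Finset.filter_insert]
    push_cast
    split_ifs with hb
    · refine le_trans (cover_fac 1 hpre fun u _ => ?_) (by rw [one_mul]; exact ih)
      rw [one_mul]
      exact (hK D p lam h0 h1 S x).2.2.2.2.2.1 u _ ((antich_LS h j g _).tail u)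
    · rw [Finset.card_insert_of_notMem (by simp), pow_succ']
      exact le_trans (cover_fac _ hpre fun u hu => step_good hK h0 h1 hx hb hu)
        (mul_le_mul_right ih _)

theorem card_good (B : Finset ℤ) (J : ℕ) :
    J - B.card ≤ ((Finset.range J).filter fun a : ℕ => (a : ℤ) ∉ B).card := by
  have h1 := Finset.card_filter_add_card_filter_not (s := Finset.range J)
    (fun a : ℕ => (a : ℤ) ∈ B)
  have h2 : ((Finset.range J).filter fun a : ℕ => (a : ℤ) ∈ B).card ≤ B.card :=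
    Finset.card_le_card_of_injOn (fun a : ℕ => (a : ℤ))
      (fun a ha => (Finset.mem_filter.1 (Finset.mem_coe.1 ha)).2)
      fun a _ b _ e => Int.ofNat_injective e
  rw [Finset.card_range] at h1
  omega

end KlatM

open LatM KlatM

theorem klat (hK : KFACStmt) : KLATStmt := by
  intro D hD p lam h0 h1 S u k hP x hx h J
  have hZ := Zf_pos D lam
  have hs0 : 0 ≤ (p * exp lam / Zf D lam) ^ (h + 1) := by positivity
  have hs1 : (p * exp lam / Zf D lam) ^ (h + 1) ≤ 1 :=
    pow_le_one₀ (by positivity) (phi_le_one h1 lam)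
  have key : ∀ q : Fin D × Bool, SS (LS h q.1 (sg q.2) J) (wk S p lam x) ≤
      (1 - ENNReal.ofReal ((p * exp lam / Zf D lam) ^ (h + 1))) ^
        (J - (1 + ks k (x 0) (h + 1))) := fun q => by
    refine (LS_bound hK h0 h1 hx (sg_cases q.2) J).trans
      (pow_le_pow_right_of_le_one' tsub_le_self ?_)
    have h2 := card_good (Bad S x h q.1 (sg q.2)) J
    have h3 : (Bad S x h q.1 (sg q.2)).card ≤ 1 + ks k (x 0) (h + 1) :=
      Finset.card_image_le.trans (card_below hP x h)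
    omega
  generalize (p * exp lam / Zf D lam) ^ (h + 1) = s at hs0 hs1 key
  generalize J - (1 + ks k (x 0) (h + 1)) = m at key
  calc LatK S p lam x h J
      ≤ SS (⋃ q : Fin D × Bool, LS h q.1 (sg q.2) J) (wk S p lam x) :=
        SS_mono (latSet_sub hD h _) fun _ _ => le_rfl
    _ ≤ ∑' q : Fin D × Bool, SS (LS h q.1 (sg q.2) J) (wk S p lam x) := SS_iUnion_le _ _
    _ ≤ ∑' _ : Fin D × Bool, (1 - ENNReal.ofReal s) ^ m := ENNReal.tsum_le_tsum key
    _ = ENNReal.ofReal (2 * D * (1 - s) ^ m) := by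
        rw [tsum_fintype, Finset.sum_const, Finset.card_univ, Fintype.card_prod, Fintype.card_fin,
          Fintype.card_bool, nsmul_eq_mul, ENNReal.ofReal_mul (by positivity),
          ENNReal.ofReal_pow (by linarith), ENNReal.ofReal_sub _ hs0, ENNReal.ofReal_one]
        congr 1
        rw [show (2 : ℝ) * D = ((D * 2 : ℕ) : ℝ) by push_cast; ring, ENNReal.ofReal_natCast]

end Pool.Agent.MP_8c549f_pr

/-!
The renewal inequality for the walk outside a closed set.
-/

set_option autoImplicit false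

namespace Pool.Agent.MP_8c549f_pr

open MeasureTheory Filter Topology Real
open scoped ENNReal NNReal

variable {D : ℕ}

namespace KrecM

open RecM PieceA

theorem SS_one (f : List (Step D) → ℝ≥0∞) :
    SS {t : List (Step D) | t.length = 1 ∧ t ≠ [fwd D]} f =
      ∑ s ∈ Finset.univ.erase (fwd D), f [s] := by
  have e : {t : List (Step D) | t.length = 1 ∧ t ≠ [fwd D]} =
      (fun s => [s]) '' ((Finset.univ.erase (fwd D) : Finset (Step D)) : Set (Step D)) := by
    ext t
    simp only [Set.mem_ofPred_eq, List.length_eq_one_iff, Set.mem_image, Finset.mem_coe,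
      Finset.mem_erase, Finset.mem_univ, and_true]
    constructor
    · rintro ⟨⟨s, rfl⟩, h⟩
      exact ⟨s, fun hs => h (by rw [hs]), rfl⟩
    · rintro ⟨s, h, rfl⟩
      exact ⟨⟨s, rfl⟩, fun hs => h (by simpa using hs)⟩
  rw [e, SS_eq_tsum_subtype, tsum_image f fun a _ b _ h => by simpa using h]
  exact Finset.tsum_subtype' _ fun s => f [s]

theorem rec_zero {u : List (Step D)} (h : Rec u) (h0 : lev u = 0) : u = [] := by
  by_contra hne
  have := h 0 (List.length_pos_iff.2 hne)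
  rw [H_zero] at this
  omega

theorem exc_le (hF : KFACStmt) {p : ℝ} (lam : ℝ) (h0 : 0 ≤ p) (h1 : p ≤ 1) {S : Finset (V D)}
    (hS : (0 : V D) ∉ S) {ρ : ℕ → ℕ → ℝ≥0∞}
    (hρ : ∀ (m i : ℕ) (x : V D), x ∉ S → x 0 = m → RetK S p lam x i ≤ ρ m i) (M i : ℕ) :
    SS (Exc D M i) (wk S p lam 0) ≤ aK S p lam M * ρ (M + 1) i := by
  obtain ⟨fA, -, -, fO, -, fC, -⟩ := hF D p lam h0 h1 S 0
  have e : Exc D M i = {l | ∃ u ∈ ASet D M, ∃ t ∈ (fun r => fwd D :: r) '' RetSet D i,
      l = u ++ t} := by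
    ext l
    simp [Exc]
  rw [e]
  refine (SS_app _ _ _).trans ?_
  rw [aK, ← SS_mul_right]
  refine SS_mono subset_rfl fun u hu => ?_
  have hc : Cand (u ++ [fwd D]) (u ++ [fwd D]).length := by
    rw [List.length_append, List.length_singleton]
    exact (cand_new u _).2 ⟨hu.1, rfl⟩
  have hl : lev (u ++ [fwd D]) = (M + 1 : ℕ) := by
    rw [lev_append, lev_cons, lev_nil, hu.2.1, vec_fwd_zero]
    push_cast
    ring
  have h2 : SS ((fun r => fwd D :: r) '' RetSet D i) (fun t => wk S p lam 0 (u ++ t)) =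
      wk S p lam 0 (u ++ [fwd D]) * RetK S p lam (0 + pos (u ++ [fwd D])) i := by
    rw [SS_image (List.cons_injective), RetK, ← SS_mul_left]
    refine SS_congr fun r hr => ?_
    rw [← fA (u ++ [fwd D]) r hc fun k hk => (hr.2.1 k hk).1, List.append_assoc,
      List.singleton_append]
  rw [h2]
  by_cases hz : wk S p lam 0 (u ++ [fwd D]) = 0
  · rw [hz, zero_mul]
    exact zero_le
  · refine mul_le_mul' ?_ (hρ _ _ _ (fO _ hS (by omega) hz) (by rw [zero_add]; exact hl))
    have := fC u {[fwd D]} fun a ha b hb _ => ha.trans hb.symm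
    rwa [SS_singleton] at this

end KrecM

open KrecM RecM PieceA

theorem krec (hF : KFACStmt) : KRECStmt := by
  intro D p lam h0 h1 S hS a ρ ha hρ
  obtain ⟨-, fB, -, fO, -, fC, fV, fN, -⟩ := hF D p lam h0 h1 S 0
  have hant : ∀ m : ℕ, Antich (ASet D m) := fun m =>
    (antich_rec m).mono fun l hl => ⟨hl.1, hl.2.1⟩
  refine ⟨(fC [] _ (hant 0)).trans_eq fN, fun m => ?_, fun m => ?_⟩
  · set P₁ : Set (List (Step D)) :=
      {l | ∃ u ∈ ASet D m, ∃ t ∈ {t : List (Step D) | t.length = 1 ∧ t ≠ [fwd D]}, l = u ++ t}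
    have hc : aK S p lam (m + 1) ≤
        SS (P₁ ∪ ⋃ M ∈ Finset.range m, Exc D M (m - 1 - M)) (wk S p lam 0) := by
      refine fV _ _ (hant _) fun l hl => ?_
      obtain ⟨a1, a2, a3⟩ := hl
      push_cast at a2
      rcases comb_list l m le_rfl (by rw [H_length]; omega) a3 with
        ⟨T, b1, b2⟩ | ⟨M, b1, i, b2, ⟨a, b3, b4⟩, u, b5, b6⟩
      · have c1 : H l T = m := by rw [← lev_take]; exact b2.2.1
        have hT : T < l.length := by
          refine lt_of_le_of_ne b1 fun h => ?_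
          rw [h, H_length] at c1
          omega
        have e : l.take T ++ [l[T]] = l.take (T + 1) := (List.take_succ_eq_append_getElem hT).symm
        refine ⟨l.take T ++ [l[T]], Or.inl ⟨_, b2, _, ⟨rfl, fun h => ?_⟩, rfl⟩,
          e ▸ List.take_prefix _ _⟩
        have hs : l[T] = fwd D := by simpa using h
        have c2 : H l (T + 1) = m + 1 := by rw [H_succ hT, hs, c1, vec_fwd_zero]
        have c3 : T + 1 = l.length := by
          by_contra hne
          have := a1 (T + 1) (by omega)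
          omega
        have c4 : l = l.take T ++ [fwd D] := by rw [← hs, e, c3, List.take_length]
        refine a3 (T + 1) ?_
        rw [c4]
        exact (cut_snoc _ _ _).2 (Or.inr ⟨by simp [b1], b2.1, rfl⟩)
      · have := a1 a b3
        obtain rfl : i = m - 1 - M := by omega
        exact ⟨u, Or.inr (Set.mem_biUnion (Finset.mem_range.2 b1) b5), b6⟩
    refine hc.trans ((SS_union_le _ _ _).trans (add_le_add ?_ ?_))
    · refine (SS_app _ _ _).trans ?_
      rw [aK, ← SS_mul_left]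
      refine SS_mono subset_rfl fun u hu => ?_
      rw [SS_one]
      simp only [fB u _ hu.1]
      rw [← Finset.mul_sum, mul_comm]
      by_cases hz : wk S p lam 0 u = 0
      · rw [hz, mul_zero]
        exact zero_le
      · refine mul_le_mul' (ha m _ (fO u hS (by rw [hu.2.1]; omega) hz)
          (by rw [zero_add]; exact hu.2.1) fun hm => ?_) le_rfl
        rw [rec_zero hu.1 (by rw [hu.2.1, hm]; rfl), pos_nil, add_zero]
    · exact (SS_biUnion_le _ _ _).trans
        (Finset.sum_le_sum fun M _ => exc_le hF lam h0 h1 hS hρ M _)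
  · have key : ∀ l : List (Step D), Block l → lev l = (m + 1 : ℕ) →
        ∃ u ∈ ASet D m, l = u ++ [fwd D] := by
      intro l hb hl
      rcases List.eq_nil_or_concat' l with rfl | ⟨u, s, rfl⟩
      · simpa using hb.2.1.1
      have e : (u ++ [s]).length = u.length + 1 := by simp
      obtain ⟨-, a2, a3⟩ := hb
      rw [e] at a2 a3
      obtain ⟨b1, rfl⟩ := (cand_new u s).1 a2
      rw [← H_length, e, H_last, vec_fwd_zero] at hl
      push_cast at hl
      refine ⟨u, ⟨b1, by omega, fun t ht => ?_⟩, rfl⟩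
      have c1 := ht.1.2.1
      refine a3 t (by omega) ((cut_snoc u _ t).2 (Or.inl ⟨ht, ?_⟩))
      have := ht.2 u.length c1 le_rfl
      rw [H_length] at this
      rw [vec_fwd_zero]; omega
    refine fV _ _ ((antich_rec ((m + 1 : ℕ) : ℤ)).mono fun l hl => ⟨?_, hl.2⟩) fun l hl => ?_
    · obtain ⟨u, hu, rfl⟩ := key l hl.1 hl.2
      refine (rec_snoc u _).2 fun i hi => ?_
      rw [vec_fwd_zero]
      rcases hi.eq_or_lt with rfl | hi
      · rw [H_length]; omega
      · have := hu.1 i hi; omega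
    · obtain ⟨u, hu, rfl⟩ := key l hl.1 hl.2
      exact ⟨u, hu, List.prefix_append _ _⟩

end Pool.Agent.MP_8c549f_pr

/-!
Probability of a trap of the walk outside a closed set.
-/

set_option autoImplicit false

namespace Pool.Agent.MP_8c549f_pr

open MeasureTheory Filter Topology Real Finset
open scoped ENNReal NNReal

namespace KtrapM

variable {D : ℕ}

/-- the boundary edges of `T` that have no end in `S` -/
noncomputable def paid (S : Finset (V D)) (b : V D) (T : Finset (V D)) : Finset (Edge D) :=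
  bdry b T \ near S

/-- a half line leaves a finite set -/
theorem exists_ex_ray {T : Finset (V D)} {x : V D} (hx : x ∈ T) (s : Step D) :
    ∃ n : ℕ, x + (n : ℤ) • vec s ∈ Iso.ex T s := by
  by_contra h
  push Not at h
  have key : ∀ n : ℕ, x + (n : ℤ) • vec s ∈ T := by
    intro n
    induction n with
    | zero => simpa using hx
    | succ n ih =>
      by_contra k
      exact h n (Iso.mem_ex.2 ⟨ih, by
        rw [Nat.cast_succ, add_smul, one_smul, ← add_assoc] at k; exact k⟩)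
  refine Set.infinite_of_injective_forall_mem (s := (T : Set (V D)))
    (f := fun n : ℕ => x + (n : ℤ) • vec s) (fun m n k => ?_) key T.finite_toSet
  have := smul_left_injective ℤ (vec_ne_zero s) (add_left_cancel k)
  exact_mod_cast this

theorem single_zero_nonneg (i : Fin (D + 1)) : 0 ≤ (Pi.single i 1 : V D) 0 := by
  have := (vec_bounds ((i, true) : Step D) 0)
  by_cases h : i = 0
  · subst h; simp
  · rw [Pi.single_eq_of_ne (Ne.symm h)]

/-- the levels of the boundary edges -/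
theorem bdry_lev {b : V D} {T : Finset (V D)} {e : Edge D} (he : e ∈ bdry b T) :
    b 0 ≤ e.1 0 ∧ e.1 0 < b 0 + ht b T := by
  obtain ⟨h1, h2⟩ := Cmpr.mem_bdry.1 he
  refine ⟨h1, ?_⟩
  by_cases c : e.1 ∈ T
  · have := Iso.lt_ht (b := b) c
    omega
  · have c' : e.1 + Pi.single e.2 1 ∈ T := by tauto
    have := Iso.lt_ht (b := b) c'
    have h3 := single_zero_nonneg e.2
    simp only [Pi.add_apply] at this
    omega

/-- sum over the levels -/
theorem sum_lev_le (P : Finset (Edge D)) (a : ℤ) (K : ℕ) :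
    ∑ i ∈ range K, (P.filter fun e => e.1 0 = a + i).card ≤ P.card := by
  classical
  rw [← card_biUnion]
  · exact card_le_card (biUnion_subset.2 fun i _ => filter_subset _ _)
  · intro i _ j _ hij
    refine disjoint_left.2 fun e h1 h2 => hij ?_
    have := (mem_filter.1 h1).2.symm.trans (mem_filter.1 h2).2
    omega

/-- the data extracted from a finite cluster outside `S` -/
structure Fl (S : Finset (V D)) (b : V D) (T : Finset (V D)) : Prop where
  sh : Shape b T
  out : ∀ x ∈ T, ∀ s, x + vec s ∉ T → x ∉ S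

theorem Fl.free_le {S T : Finset (V D)} {b u : V D} {k : ℤ → ℕ} (h : Fl S b T) (hP : Prof S u k) :
    (bdry b T).card ≤ (paid S b T).card + ((2 * D + 1) * ht b T + ks k (b 0) (ht b T)) := by
  classical
  have h1 : bdry b T ⊆ paid S b T ∪ (range (ht b T)).biUnion fun i =>
      (near S).filter fun e => e.1 0 = b 0 + i ∧ ¬ (e.1 ∈ S ↔ e.1 + Pi.single e.2 1 ∈ S) := by
    intro e he
    by_cases c : e ∈ near S
    swap
    · exact mem_union_left _ (mem_sdiff.2 ⟨he, c⟩)
    refine mem_union_right _ (mem_biUnion.2 ⟨(e.1 0 - b 0).toNat, ?_, mem_filter.2 ⟨c, ?_, ?_⟩⟩)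
    · have := bdry_lev he
      exact mem_range.2 (by omega)
    · have := bdry_lev he
      omega
    · obtain ⟨-, h2⟩ := Cmpr.mem_bdry.1 he
      have c' := mem_near'.1 c
      by_cases d : e.1 ∈ T
      · have d' : e.1 + Pi.single e.2 1 ∉ T := by tauto
        have := h.out _ d (e.2, true) (by simpa using d')
        tauto
      · have d' : e.1 + Pi.single e.2 1 ∈ T := by tauto
        have := h.out _ d' (e.2, false) (by simpa using d)
        tauto
  refine (card_le_card h1).trans ((card_union_le _ _).trans (Nat.add_le_add_left ?_ _))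
  refine card_biUnion_le.trans ?_
  calc _ ≤ ∑ i ∈ range (ht b T), (2 * D + 1 + k (b 0 + i)) :=
        sum_le_sum fun i _ => hP.2.1 (b 0 + i)
    _ = _ := by rw [sum_add_distrib, sum_const, card_range, smul_eq_mul, mul_comm]; rfl

/-- on a level without excess at least `D` lateral boundary edges are paid -/
theorem Fl.paid_level {S T : Finset (V D)} {b u : V D} {k : ℤ → ℕ} (h : Fl S b T)
    (hP : Prof S u k) {i : ℤ} (h1 : b 0 ≤ i) (h2 : i < b 0 + ht b T) (hk : k i = 0) :
    D ≤ ((paid S b T).filter fun e => e.1 0 = i).card := by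
  classical
  obtain ⟨x, hx, rfl⟩ := Iso.occupied h.sh h1 h2
  have key : ∀ j : Fin D, ∃ e ∈ (paid S b T).filter fun e => e.1 0 = x 0, e.2 = j.succ := by
    intro j
    have one : ∀ g : Bool, ∃ n : ℕ,
        (∃ e ∈ (paid S b T).filter fun e => e.1 0 = x 0, e.2 = j.succ) ∨
          x + ((n : ℤ) + 1) • vec ((j.succ, g) : Step D) ∈ S := by
      intro g
      obtain ⟨n, hn⟩ := exists_ex_ray hx (j.succ, g)
      have l : (x + (n : ℤ) • vec ((j.succ, g) : Step D)) 0 = x 0 := by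
        simp [vec_side_zero]
      have l' := (Iso.edge_lev_side (x + (n : ℤ) • vec ((j.succ, g) : Step D)) j g).trans l
      refine ⟨n, ?_⟩
      by_cases c : edge (x + (n : ℤ) • vec ((j.succ, g) : Step D)) (j.succ, g) ∈ near S
      · right
        have := (edge_mem_near.1 c).resolve_left
          (h.out _ (Iso.mem_ex.1 hn).1 _ (Iso.mem_ex.1 hn).2)
        rwa [add_smul, one_smul, ← add_assoc]
      · exact Or.inl ⟨_, mem_filter.2 ⟨mem_sdiff.2 ⟨Iso.edge_mem hn (l' ▸ h1), c⟩, l'⟩,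
          Iso.edge_snd _ _⟩
    obtain ⟨n, hn | hn⟩ := one true
    · exact hn
    obtain ⟨m, hm | hm⟩ := one false
    · exact hm
    have := hP.2.2.1 _ hn _ hm (by simp) (by simpa using hk)
    have e := congrFun this j.succ
    simp at e
    omega
  choose f hf hf' using key
  have := card_le_card_of_injOn (s := (univ : Finset (Fin D))) f (fun j _ => hf j)
    fun j _ j' _ e => Fin.succ_injective _ (by rw [← hf' j, ← hf' j', e])
  simpa using this

/-- the two counting inequalities -/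
theorem Fl.count {S T : Finset (V D)} {b u : V D} {k : ℤ → ℕ} (hD : 1 ≤ D) (h : Fl S b T)
    (hP : Prof S u k) {n : ℕ} (hn : ht b T ≤ n) :
    D * (ht b T - ks k (b 0) n) ≤ (paid S b T).card ∧
      (bdry b T).card ≤ 4 * (paid S b T).card + (2 * D + 2) * ks k (b 0) n := by
  have h1 : ks k (b 0) (ht b T) ≤ ks k (b 0) n := ks_mono k le_rfl (by omega)
  have h2 : D * ht b T ≤ (paid S b T).card + D * ks k (b 0) (ht b T) := by
    calc D * ht b T = ∑ _i ∈ range (ht b T), D := by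
          rw [sum_const, card_range, smul_eq_mul, mul_comm]
      _ ≤ ∑ i ∈ range (ht b T),
          (((paid S b T).filter fun e => e.1 0 = b 0 + i).card + D * k (b 0 + i)) := by
          refine sum_le_sum fun i hi => ?_
          have hi' := mem_range.1 hi
          rcases Nat.eq_zero_or_pos (k (b 0 + i)) with c | c
          · exact (h.paid_level hP (by omega) (by omega) c).trans (Nat.le_add_right _ _)
          · exact (Nat.le_mul_of_pos_right D c).trans (Nat.le_add_left _ _)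
      _ ≤ _ := by
          rw [sum_add_distrib, ← mul_sum]
          exact Nat.add_le_add_right (sum_lev_le _ _ _) _
  have h3 := h.free_le hP
  generalize ks k (b 0) (ht b T) = κ' at h1 h2 h3
  generalize ks k (b 0) n = κ at h1
  generalize ht b T = K at h2 h3
  generalize (paid S b T).card = j at h2 h3
  have h4 : D * (K - κ) ≤ j := by
    rw [Nat.mul_sub]
    have := Nat.mul_le_mul_left D h1
    omega
  refine ⟨h4, ?_⟩
  have h5 : K ≤ (K - κ) + κ := by omega
  generalize K - κ = z at h4 h5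
  have h6 : z ≤ D * z := Nat.le_mul_of_pos_left z hD
  have h7 := Nat.mul_le_mul_left (2 * D + 1) h5
  nlinarith

/-- filling of the cluster -/
theorem exists_fl (hF : FILL2Stmt) (hD : 1 ≤ D) {S : Finset (V D)} {b : V D} (hb : b ∉ S)
    {ω : Cfg D} {n : ℕ} (h1 : (Up (clo S ω) (b 0) b).Finite)
    (h2 : ∀ z ∈ Up (clo S ω) (b 0) b, z 0 < b 0 + n) :
    ∃ T, Fl S b T ∧ Up (clo S ω) (b 0) b ⊆ (T : Set (V D)) ∧ ht b T ≤ n ∧
      ∀ e ∈ paid S b T, ω e = false := by
  obtain ⟨T, t1, t2, t3⟩ := hF D hD (clo S ω) b h1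
  have hU : Up (clo S ω) (b 0) b ⊆ {x | x ∉ S} :=
    Up_subset hb fun y _ s _ hs _ _ c => (clo_eq_true.1 hs).1 (edge_mem_near.2 (Or.inr c))
  refine ⟨T, ⟨t1, fun x hx s hs => hU (t3 x hx s hs)⟩, t2, ?_, fun e he => ?_⟩
  · obtain ⟨x, hx, e⟩ := Iso.exists_top t1
    have := h2 x (t3 x hx (fwd D) fun c => by
      have := Iso.lt_ht (b := b) c
      simp only [Pi.add_apply, vec_fwd_zero] at this
      omega)
    omega
  · obtain ⟨e1, e2⟩ := mem_sdiff.1 he
    obtain ⟨l, h3⟩ := Cmpr.mem_bdry.1 e1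
    by_contra c
    have o : clo S ω e = true := clo_eq_true.2 ⟨e2, by simpa using c⟩
    have p := single_zero_nonneg e.2
    by_cases d : e.1 ∈ T
    · have d' : e.1 + Pi.single e.2 1 ∉ T := by tauto
      have m := t3 _ d (e.2, true) (by simpa using d')
      have := t2 (Up_step (s := (e.2, true)) le_rfl m (by simpa using o)
        (by simp only [vec_true, Pi.add_apply]; omega))
      exact d' (by simpa using this)
    · have d' : e.1 + Pi.single e.2 1 ∈ T := by tauto
      have m := t3 _ d' (e.2, false) (by simpa using d)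
      have := t2 (Up_step (s := (e.2, false)) le_rfl m (by simpa using o) (by simpa using l))
      exact d (by simpa using this)

theorem sum_half (M : ℝ) (hM : 0 ≤ M) :
    ∑' a : ℕ, ENNReal.ofReal (M * (1 / 2) ^ a) = ENNReal.ofReal (M * 2) := by
  have h1 : Summable fun n : ℕ => ((1 : ℝ) / 2) ^ n := summable_geometric_two
  rw [← ENNReal.ofReal_tsum_of_nonneg (fun _ => by positivity) (h1.mul_left M), tsum_mul_left,
    tsum_geometric_two]

/-- the union bound -/
theorem union_bound {C₀ : ℕ} {C p : ℝ} (hA : ∀ (b : V D) (n : ℕ), ∃ F : Finset (Finset (V D)),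
      F.card ≤ C₀ ^ n ∧ ∀ T, Shape b T → (bdry b T).card ≤ n → T ∈ F)
    (c1 : 2 ≤ C) (c2 : (C₀ : ℝ) ^ 4 ≤ C) (c3 : (C₀ : ℝ) ^ (2 * D + 2) ≤ C) (hp : p ≤ 1)
    (hC : C * (1 - p) ≤ 1 / 2) (S : Finset (V D)) (b : V D) (κ m : ℕ) (E : Set (Cfg D))
    (hE : ∀ ω ∈ E, ∃ T, Shape b T ∧ m ≤ (paid S b T).card ∧
      (bdry b T).card ≤ 4 * (paid S b T).card + (2 * D + 2) * κ ∧
      ∀ e ∈ paid S b T, ω e = false) :
    perc D p E ≤ ENNReal.ofReal (C ^ (1 + κ) * (C * (1 - p)) ^ m) := by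
  classical
  have hε : 0 ≤ 1 - p := by linarith
  have hp0 : 0 ≤ p := by nlinarith
  choose F hF1 hF2 using hA b
  let G : ℕ → Finset (Finset (V D)) := fun a =>
    (F (4 * (m + a) + (2 * D + 2) * κ)).filter fun T => (paid S b T).card = m + a
  let A : ℕ → Set (Cfg D) := fun a => ⋃ T ∈ G a, {ω | ∀ e ∈ paid S b T, ω e = false}
  have cover : E ⊆ ⋃ a, A a := by
    intro ω hω
    obtain ⟨T, t1, t2, t3, t4⟩ := hE ω hω
    obtain ⟨a, ha⟩ := Nat.exists_eq_add_of_le t2
    exact Set.mem_iUnion.2 ⟨a, Set.mem_iUnion₂.2 ⟨T, mem_filter.2 ⟨hF2 _ T t1 (ha ▸ t3), ha⟩, t4⟩⟩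
  have each : ∀ a, perc D p (A a) ≤
      ENNReal.ofReal (C ^ κ * (C * (1 - p)) ^ m * (1 / 2) ^ a) := by
    intro a
    refine (measure_biUnion_finset_le _ _).trans ?_
    have h1 : ∀ T ∈ G a, perc D p {ω | ∀ e ∈ paid S b T, ω e = false} =
        ENNReal.ofReal ((1 - p) ^ (m + a)) := fun T hT => by
      have := cyl D p hp0 hp ∅ (paid S b T) (disjoint_empty_left _)
      simpa [(mem_filter.1 hT).2] using this
    rw [sum_congr rfl h1, sum_const, nsmul_eq_mul, ← ENNReal.ofReal_natCast,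
      ← ENNReal.ofReal_mul (Nat.cast_nonneg _)]
    refine ENNReal.ofReal_le_ofReal ?_
    have h2 : ((G a).card : ℝ) ≤ C ^ (m + a) * C ^ κ := by
      calc ((G a).card : ℝ) ≤ ((C₀ ^ (4 * (m + a) + (2 * D + 2) * κ) : ℕ) : ℝ) :=
            Nat.cast_le.2 ((card_filter_le _ _).trans (hF1 _))
        _ = ((C₀ : ℝ) ^ 4) ^ (m + a) * ((C₀ : ℝ) ^ (2 * D + 2)) ^ κ := by
            rw [Nat.cast_pow, pow_add, pow_mul, pow_mul]
        _ ≤ _ := by gcongr
    calc ((G a).card : ℝ) * (1 - p) ^ (m + a) ≤ C ^ (m + a) * C ^ κ * (1 - p) ^ (m + a) := by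
          gcongr
      _ = C ^ κ * (C * (1 - p)) ^ m * (C * (1 - p)) ^ a := by
          rw [mul_pow, mul_pow, pow_add, pow_add]; ring
      _ ≤ _ := by gcongr
  refine (measure_mono cover).trans ((measure_iUnion_le _).trans
    ((ENNReal.tsum_le_tsum each).trans ?_))
  rw [sum_half _ (by positivity)]
  refine ENNReal.ofReal_le_ofReal ?_
  rw [pow_add, pow_one]
  have : 0 ≤ C ^ κ * (C * (1 - p)) ^ m := by positivity
  nlinarith

end KtrapM

open KtrapM

theorem ktrap (hF : FILL2Stmt) (hI : ISO2Stmt) : KTRAPStmt := by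
  classical
  intro D hD
  have hD1 : 1 ≤ D := by omega
  obtain ⟨C₀, hA⟩ := ani D hD1
  set C : ℝ := max 2 (max ((C₀ : ℝ) ^ 4) ((C₀ : ℝ) ^ (2 * D + 2))) with hCdef
  have c1 : 2 ≤ C := le_max_left _ _
  have c2 : (C₀ : ℝ) ^ 4 ≤ C := (le_max_left _ _).trans (le_max_right _ _)
  have c3 : (C₀ : ℝ) ^ (2 * D + 2) ≤ C := (le_max_right _ _).trans (le_max_right _ _)
  refine ⟨C, by linarith, fun p hp hC S u k hP b n h => ⟨fun hb => ?_, fun hb => ?_⟩⟩
  · refine union_bound hA c1 c2 c3 hp hC S b _ _ _ ?_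
    rintro ω ⟨h1, h2, z, hz, h3⟩
    obtain ⟨T, t1, t2, t3, t4⟩ := exists_fl hF hD1 hb h1 h2
    obtain ⟨a1, a2⟩ := t1.count hD1 hP t3
    have := Iso.lt_ht (b := b) (t2 hz)
    exact ⟨T, t1.sh, (Nat.mul_le_mul_left D (by omega)).trans a1, a2, t4⟩
  · rcases Nat.eq_zero_or_pos h with rfl | h0
    · have hp0 : 0 ≤ p := by nlinarith
      have := perc_prob D hp0 hp
      refine prob_le_one.trans ?_
      rw [mul_zero, pow_zero, mul_one]
      exact ENNReal.one_le_ofReal.2 (one_le_pow₀ (by linarith))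
    have hbS : b ∉ S := fun c => by
      have := hP.1 b c
      omega
    refine union_bound hA c1 c2 c3 hp hC S b _ _ _ ?_
    rintro ω ⟨h1, h2, h3⟩
    obtain ⟨T, t1, t2, t3, t4⟩ := exists_fl hF hD1 hbS h1 h2
    refine ⟨T, t1.sh, ?_, (t1.count hD1 hP t3).2, t4⟩
    calc (2 * D + 2) * h = ∑ _i ∈ range h, (2 * D + 2) := by
          rw [sum_const, card_range, smul_eq_mul, mul_comm]
      _ ≤ ∑ i ∈ range h, ((paid S b T).filter fun e => e.1 0 = b 0 + i).card := by
          refine sum_le_sum fun i hi => ?_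
          have hi' := mem_range.1 hi
          obtain ⟨z, hz, z', hz', ne, l, l'⟩ := h3 i hi'
          have a := hI D b T z z' (t2 hz) (t2 hz') ne (l.trans l'.symm) (by omega)
          have s : ((bdry b T).filter fun e => e.2 ≠ 0 ∧ e.1 0 = z 0) ⊆
              (paid S b T).filter fun e => e.1 0 = b 0 + i := fun e he => by
            obtain ⟨e1, e2, e3⟩ := mem_filter.1 he
            refine mem_filter.2 ⟨mem_sdiff.2 ⟨e1, fun c => ?_⟩, e3.trans l⟩
            rcases mem_near'.1 c with c | c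
            · have := hP.1 _ c
              omega
            · have := hP.1 _ c
              simp only [Pi.add_apply, Pi.single_eq_of_ne (Ne.symm e2)] at this
              omega
          have := card_le_card s
          omega
      _ ≤ _ := sum_lev_le _ _ _

end Pool.Agent.MP_8c549f_pr

end MrgPart0

-- ======== part 1: formerly Pool.Agent.MP_8c549f_pr.B12
section MrgPart1

/-!
Pointwise bounds for the pieces of the walk outside a closed set.
-/

set_option autoImplicit false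

namespace Pool.Agent.MP_8c549f_pr

open MeasureTheory Filter Topology Real
open scoped ENNReal NNReal

namespace KptM

variable {D : ℕ}

theorem rad_vert (x : V D) {s : Step D} (h : vec s 0 ≠ 0) : rad (x + vec s) = rad x := by
  unfold rad
  congr 1
  funext j
  rcases step_cases s with rfl | rfl | ⟨k, g, rfl⟩
  · simp [vec_fwd]
  · simp [vec_bck]
  · exact absurd (vec_side_zero k g) h

/-- a list whose last step is vertical reaches its lateral extent inside the slab -/
theorem lat_pre {h r : ℕ} {l : List (Step D)} (hl : 1 ≤ l.length)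
    (hH : ∀ k < l.length, 0 ≤ H l k ∧ H l k ≤ h) (hv : lev l ≠ H l (l.length - 1))
    (hr : r ≤ ext l) : ∃ u ∈ LatSet D h r, u <+: l := by
  have hex : ∃ t, t ≤ l.length ∧ r ≤ rad (loc l t) := by
    obtain ⟨t, h1, h2⟩ := Finset.exists_mem_eq_sup (Finset.range (l.length + 1)) (by simp)
      fun i => rad (loc l i)
    exact ⟨t, by simpa [Nat.lt_succ_iff] using h1, hr.trans h2.le⟩
  classical
  obtain ⟨h1, h2⟩ := Nat.find_spec hex
  have h3 : ∀ k < Nat.find hex, rad (loc l k) < r := fun k hk =>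
    not_le.mp fun h4 => Nat.find_min hex hk ⟨by omega, h4⟩
  generalize Nat.find hex = t at h1 h2 h3
  have h4 : t < l.length := lt_of_le_of_ne h1 fun e => by
    have h7 : l.length - 1 < l.length := by omega
    have h8 := H_succ h7
    have h9 := loc_succ h7
    rw [show l.length - 1 + 1 = l.length by omega] at h8 h9
    rw [H_length] at h8
    have h10 := h3 (l.length - 1) (by omega)
    rw [e, h9, rad_vert _ (by omega)] at h2
    omega
  have h5 : (l.take t).length = t := by rw [List.length_take]; omega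
  refine ⟨l.take t, ⟨fun k hk => ?_, by rwa [pos_take], fun k hk => ?_⟩, List.take_prefix t l⟩
  · rw [h5] at hk
    rw [H_take l hk]
    exact hH k (by omega)
  · rw [h5] at hk
    rw [loc_take l hk.le]
    exact h3 k hk

theorem piece_pre {m r : ℕ} {l : List (Step D)} (hl : Piece (m + 1) r l) :
    ∃ u ∈ LatSet D m r, u <+: l := by
  have h1 := hl.1.2.1.1
  refine lat_pre h1 (fun k hk => ⟨hl.1.1 k hk.le, ?_⟩) (PieceB.H_lt hl.1 (by omega)).ne'
    hl.2.2.ge
  have := PieceB.H_lt hl.1 hk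
  rw [hl.2.1] at this
  push_cast at this
  omega

theorem ret_pre {i r : ℕ} {l : List (Step D)} (hl : l ∈ RetSet D i ∧ ext l = r) :
    ∃ u ∈ LatSet D i r, u <+: l := by
  obtain ⟨⟨h1, h2, k, h3, -⟩, h4⟩ := hl
  refine lat_pre (by omega) h2 ?_ h4.ge
  have := (h2 (l.length - 1) (by omega)).1
  omega

theorem piece_zero (r : ℕ) : {l : List (Step D) | Piece 0 r l} = ∅ :=
  Set.eq_empty_of_forall_notMem fun l hl => by
    have := hl.1.lev_pos
    rw [hl.2.1] at this
    simp at this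

theorem piece_one (r : ℕ) : {l : List (Step D) | Piece 1 (r + 1) l} = ∅ :=
  Set.eq_empty_of_forall_notMem fun l hl => by
    obtain ⟨⟨-, ⟨h1, -, h2, h3⟩, -⟩, h4, h5⟩ := hl
    rw [H_length, h4] at h2
    have h6 : l.length = 1 := by
      by_contra h
      have := h3 0 (by omega)
      rw [H_zero] at this
      push_cast at h2
      omega
    obtain ⟨s, rfl⟩ := List.length_eq_one_iff.1 h6
    have h7 : rad (0 + vec s) = rad (0 : V D) := rad_vert _ (by
      rw [lev_cons, lev_nil] at h4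
      push_cast at h4
      omega)
    have h8 : rad (0 : V D) = 0 := by simp [rad]
    have h9 : ext [s] ≤ 0 := Finset.sup_le fun i hi => by
      rcases i with _ | i
      · simp [h8]
      · rw [loc_cons_succ, loc_nil, add_comm, h7, h8]
    omega

theorem rec_le {f : ℕ → ℝ≥0∞} {α b : ℕ → ℝ} {ϱ : ℕ → ℕ → ℝ} (hα : ∀ m, 0 ≤ α m)
    (hb : ∀ m, 0 ≤ b m) (hϱ : ∀ M i, 0 ≤ ϱ M i) (h0 : f 0 ≤ ENNReal.ofReal (b 0))
    (hf : ∀ m, f (m + 1) ≤ ENNReal.ofReal (α m) * f m +
      ∑ M ∈ Finset.range m, f M * ENNReal.ofReal (ϱ (M + 1) (m - 1 - M)))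
    (hs : ∀ m, α m * b m + ∑ M ∈ Finset.range m, b M * ϱ (M + 1) (m - 1 - M) ≤ b (m + 1))
    (m : ℕ) : f m ≤ ENNReal.ofReal (b m) := by
  induction m using Nat.strong_induction_on with
  | _ m ih =>
    rcases m with _ | m
    · exact h0
    · refine (hf m).trans (le_trans ?_ (ENNReal.ofReal_le_ofReal (hs m)))
      rw [ENNReal.ofReal_add (mul_nonneg (hα m) (hb m))
        (Finset.sum_nonneg fun M _ => mul_nonneg (hb M) (hϱ _ _)), ENNReal.ofReal_mul (hα m),
        ENNReal.ofReal_sum_of_nonneg fun M _ => mul_nonneg (hb M) (hϱ _ _)]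
      refine add_le_add (mul_le_mul_right (ih m (by omega)) _) (Finset.sum_le_sum fun M hM => ?_)
      rw [ENNReal.ofReal_mul (hb M)]
      exact mul_le_mul_left (ih M (by have := Finset.mem_range.1 hM; omega)) _

theorem div_le {A : ℝ} {Q n : ℕ} (hQ : 128 * A ≤ Q) (hQ' : 2 ≤ Q) (hn : 1 ≤ n) :
    A * (n / Q : ℕ) ≤ ((n : ℝ) - 1) / 64 := by
  have h1 : (1 : ℝ) ≤ n := by exact_mod_cast hn
  rcases Nat.eq_zero_or_pos (n / Q) with h | h
  · rw [h, Nat.cast_zero, mul_zero]; linarith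
  · have h2 : (2 : ℝ) ≤ n := by
      exact_mod_cast hQ'.trans (by simpa using (Nat.le_div_iff_mul_le (by omega)).1 h)
    have h3 : ((n / Q : ℕ) : ℝ) * Q ≤ n := by exact_mod_cast Nat.div_mul_le_self n Q
    linarith [mul_le_mul_of_nonneg_left hQ (Nat.cast_nonneg (n / Q) : (0 : ℝ) ≤ _)]

/-- the real inequality behind the bound on the first visits -/
theorem step {μ A₀ δ : ℝ} (hμ : 32 ≤ μ) (hA : 1 ≤ A₀) (hδ : δ ≤ exp (-μ / 32) / 2) (k : ℤ → ℕ)
    (u₀ : ℤ) {α : ℕ → ℝ} (h1 : ∀ m, α m ≤ 1) (h2 : ∀ m : ℕ, k m = 0 → (m : ℤ) ≠ u₀ → α m ≤ δ)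
    (c : ℕ → ℝ) (hc : c = fun m : ℕ => if (m : ℤ) ≤ u₀ then 1 else 2 * exp (μ / 32)) (m : ℕ) :
    α m * (c m * exp (-μ * (m / 32 - (A₀ + 1) * ks k 0 m))) +
      ∑ M ∈ Finset.range m, c M * exp (-μ * (M / 32 - (A₀ + 1) * ks k 0 M)) *
        exp (-μ * ((((m - 1 - M : ℕ) : ℝ) + 1) / 8 - A₀ * ks k (M + 1 : ℕ) (m - 1 - M + 1))) ≤
      c (m + 1) * exp (-μ * ((m + 1 : ℕ) / 32 - (A₀ + 1) * ks k 0 (m + 1))) := by
  have e1 : 2 ≤ exp (μ / 32) := by linarith [add_one_le_exp (μ / 32)]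
  have c1 : ∀ m, 1 ≤ c m := fun m => by
    rw [hc]; dsimp only; split_ifs <;> linarith
  have c2 : ∀ M ≤ m + 1, c M ≤ c (m + 1) := fun M hM => by
    have := c1 (m + 1)
    rw [hc] at this ⊢
    dsimp only at this ⊢
    split_ifs with a b b
    exacts [le_rfl, by linarith, absurd (le_trans (by exact_mod_cast hM) b) a, le_rfl]
  have hk : (ks k 0 (m + 1) : ℝ) = ks k 0 m + k m := by
    rw [ks, Finset.sum_range_succ, zero_add, Nat.cast_add]; rfl
  generalize hB : c (m + 1) * exp (-μ * ((m + 1 : ℕ) / 32 - (A₀ + 1) * ks k 0 (m + 1))) = B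
  have hB0 : 0 ≤ B := by rw [← hB]; exact mul_nonneg (by linarith [c1 (m + 1)]) (exp_pos _).le
  have s1 : α m * (c m * exp (-μ * (m / 32 - (A₀ + 1) * ks k 0 m))) ≤ B / 2 := by
    have hE := exp_pos (-μ * (m / 32 - (A₀ + 1) * ks k 0 m))
    have e2 : exp (-μ * ((m + 1 : ℕ) / 32 - (A₀ + 1) * ks k 0 (m + 1))) =
        exp (-μ * (m / 32 - (A₀ + 1) * ks k 0 m)) * exp (μ * ((A₀ + 1) * k m - 1 / 32)) := by
      rw [← exp_add, hk]; congr 1; push_cast; ring
    rw [← hB, e2]
    generalize exp (-μ * (m / 32 - (A₀ + 1) * ks k 0 m)) = E at hE ⊢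
    have key : α m * c m ≤ c (m + 1) * exp (μ * ((A₀ + 1) * k m - 1 / 32)) / 2 := by
      have c3 := c2 m (by omega)
      have c4 := c1 m
      rcases Nat.eq_zero_or_pos (k m) with h | h
      · rw [h, show μ * ((A₀ + 1) * (0 : ℕ) - 1 / 32) = -μ / 32 by push_cast; ring]
        by_cases hu : (m : ℤ) = u₀
        · have e3 : exp (μ / 32) * exp (-μ / 32) = 1 := by rw [← exp_add]; simp [neg_div]
          have c5 : c m = 1 := by rw [hc]; exact if_pos hu.le
          have c6 : c (m + 1) = 2 * exp (μ / 32) := by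
            rw [hc]; exact if_neg (by push_cast; omega)
          rw [c5, c6]
          linarith [h1 m]
        · have := mul_le_mul ((h2 m h hu).trans hδ) c3 (by linarith) (by positivity)
          linarith
      · have h3 : (1 : ℝ) ≤ k m := by exact_mod_cast h
        have h4 : 2 ≤ exp (μ * ((A₀ + 1) * k m - 1 / 32)) := by
          refine e1.trans (exp_le_exp.2 ?_)
          have : 1 / 32 ≤ (A₀ + 1) * k m - 1 / 32 := by nlinarith
          linarith [mul_le_mul_of_nonneg_left this (by linarith : 0 ≤ μ)]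
        have := mul_le_mul (h1 m) c3 (by linarith) zero_le_one
        nlinarith
    linarith [mul_le_mul_of_nonneg_right key hE.le]
  have s2 : ∀ M ∈ Finset.range m, c M * exp (-μ * (M / 32 - (A₀ + 1) * ks k 0 M)) *
      exp (-μ * ((((m - 1 - M : ℕ) : ℝ) + 1) / 8 - A₀ * ks k (M + 1 : ℕ) (m - 1 - M + 1))) ≤
        B / 4 * (1 / 2) ^ (m - 1 - M) := fun M hM => by
    obtain ⟨j, rfl⟩ : ∃ j, m = M + 1 + j := ⟨m - 1 - M, by have := Finset.mem_range.1 hM; omega⟩
    rw [show M + 1 + j - 1 - M = j by omega, mul_assoc, ← exp_add, ← hB]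
    have h3 : (ks k 0 M : ℝ) + ks k (M + 1 : ℕ) (j + 1) ≤ ks k 0 (M + 1 + j + 1) := by
      have a := ks_add k 0 (M + 1) (j + 1)
      have b := ks_mono k (a := 0) (b := 0) (n := M) (m := M + 1) le_rfl (by push_cast; omega)
      rw [zero_add] at a
      exact_mod_cast (by rw [add_assoc (M + 1), a]; omega :
        ks k 0 M + ks k (M + 1 : ℕ) (j + 1) ≤ ks k 0 (M + 1 + j + 1))
    have h4 : exp (-μ / 32) ^ (j + 2) ≤ (1 / 2) ^ (j + 2) :=
      pow_le_pow_left₀ (exp_pos _).le (by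
        rw [neg_div, exp_neg, one_div]; exact inv_anti₀ (by norm_num) e1) _
    rw [← exp_nat_mul] at h4
    have h5 : (0 : ℝ) ≤ ks k (M + 1 : ℕ) (j + 1) := Nat.cast_nonneg _
    have h6 : (0 : ℝ) ≤ j := Nat.cast_nonneg _
    calc _ ≤ c (M + 1 + j + 1) * (exp (-μ * ((M + 1 + j + 1 : ℕ) / 32 -
          (A₀ + 1) * ks k 0 (M + 1 + j + 1))) * exp ((j + 2 : ℕ) * (-μ / 32))) := by
          refine mul_le_mul (c2 M (by omega)) ?_ (exp_pos _).le (by linarith [c1 (M + 1 + j + 1)])
          rw [← exp_add, exp_le_exp]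
          have h7 := mul_le_mul_of_nonneg_left h3 (by positivity : 0 ≤ μ * (A₀ + 1))
          have h8 : 0 ≤ μ * j := by positivity
          have h9 := mul_nonneg (by linarith : 0 ≤ μ) h5
          push_cast at h7 h9 ⊢
          linarith
      _ ≤ _ := by
          rw [← mul_assoc, hB]
          exact (mul_le_mul_of_nonneg_left h4 hB0).trans (le_of_eq (by ring))
  have s3 := Finset.sum_le_sum s2
  rw [← Finset.mul_sum, Finset.sum_range_reflect (fun j => (1 / 2 : ℝ) ^ j) m] at s3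
  linarith [mul_le_mul_of_nonneg_left (sum_geometric_two_le m) (by linarith : 0 ≤ B / 4)]

end KptM

open KptM

theorem kpt (hF : KFACStmt) (hL : KLATStmt) (hR : KRETStmt) (hC : KRECStmt) : KPTStmt := by
  intro D hD
  obtain ⟨A₀, μ₀, hA, hμ₀, hR⟩ := hR D hD
  have hD0 : (0 : ℝ) ≤ D := Nat.cast_nonneg D
  have hQ := Nat.le_ceil (128 * (A₀ + 1))
  have hQ4 : 4 ≤ ⌈128 * (A₀ + 1)⌉₊ := by
    have : (4 : ℝ) ≤ ⌈128 * (A₀ + 1)⌉₊ := by linarith
    exact_mod_cast this
  generalize ⌈128 * (A₀ + 1)⌉₊ = Q at hQ hQ4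
  refine ⟨Q, A₀ + 1, μ₀ + 8 * D + 32, hQ4, by linarith, by linarith, ?_⟩
  intro p lam μ S u k ν hμ hK hS hν
  have hμ0 : 0 ≤ μ := by linarith
  have h1 : p ≤ 1 := hK.1
  have h0 : 0 ≤ p := by linarith [hK.2.1, exp_le_one_iff.2 (neg_nonpos.2 hμ0)]
  obtain ⟨φ0, φ1, φ2⟩ := phi_bounds (D := D) h0 h1 hμ0 hK.2.1 hK.2.2.1
  replace hF := hF D p lam h0 h1 S
  replace hL := hL D (by omega) p lam h0 h1 S u k hK.2.2.2
  replace hR := hR p lam μ S u k (by linarith) hK
  have hδ : (2 * D + 2) * exp (-μ) ≤ exp (-μ / 32) / 2 := by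
    have e : exp (-μ / 32) = exp (31 * μ / 32) * exp (-μ) := by rw [← exp_add]; congr 1; ring
    have := mul_le_mul_of_nonneg_right (add_one_le_exp (31 * μ / 32)) (exp_pos (-μ)).le
    have := mul_le_mul_of_nonneg_right (show 4 * D + 4 ≤ 31 * μ / 32 + 1 by linarith)
      (exp_pos (-μ)).le
    linarith
  have hθ : exp (-μ / 32) ≤ 1 := exp_le_one_iff.2 (by linarith)
  have kr : ∀ (x : V D) (T : Set (List (Step D))), Antich T → SS T (wk S p lam x) ≤ 1 :=
    fun x T hT => ((hF x).2.2.2.2.2.1 [] T hT).trans_eq (hF x).2.2.2.2.2.2.2.1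
  classical
  obtain ⟨α, hα⟩ : ∃ α : ℕ → ℝ, α = fun m : ℕ =>
    if k m = 0 ∧ ((m : ℤ) ≠ u 0 ∨ (m = 0 ∧ u ≠ 0)) then (2 * D + 2) * exp (-μ) else 1 := ⟨_, rfl⟩
  have α0 : ∀ m, 0 ≤ α m := fun m => by rw [hα]; dsimp only; split_ifs <;> positivity
  obtain ⟨r0, r1, r2⟩ := hC D p lam h0 h1 S hS (fun m => ENNReal.ofReal (α m))
    (fun m i => ENNReal.ofReal (exp (-μ * ((i + 1) / 8 - A₀ * ks k m (i + 1)))))
    (fun m x hx hm hz => by
      have e := (hF x).2.2.2.2.1
      rw [← Finset.add_sum_erase _ _ (Finset.mem_univ (fwd D))] at e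
      rw [hα]; dsimp only
      split_ifs with h
      · have hxu : x ≠ u := fun e => h.2.elim (fun a => a (e ▸ hm.symm))
          fun a => a.2 (e ▸ hz a.1)
        have hxe : x + e0 D ∉ S := fun a => by
          have := hK.2.2.2.2.2.2 m
          rw [h.1, Nat.le_zero, Finset.card_eq_zero, Finset.filter_eq_empty_iff] at this
          exact this (Finset.mem_image.2 ⟨_, a, add_sub_cancel_right _ _⟩) ⟨hx, hm, hxu⟩
        have b := (hF x).2.2.1 [] [fwd D] (by simp) fun j _ => by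
          rcases j with _ | j
          · simpa using hx
          · simpa [vec_fwd_e0] using hxe
        rw [(hF x).2.2.2.2.2.2.2.1, one_mul, Wf_eq, ← ENNReal.ofReal_mul (by positivity)] at b
        simp only [List.length_singleton, pow_one, lev_cons, lev_nil, vec_fwd_zero, add_zero,
          Int.cast_one, mul_one, List.nil_append, ← mul_div_assoc] at b
        refine le_trans ?_ (ENNReal.ofReal_le_ofReal φ2)
        rw [ENNReal.ofReal_sub _ φ0, ENNReal.ofReal_one]
        exact ENNReal.le_sub_of_add_le_left ENNReal.ofReal_ne_top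
          ((add_le_add_left b _).trans e.le)
      · rw [ENNReal.ofReal_one, ← e]; exact le_add_self)
    fun m i x hx hm => hm ▸ hR x hx i
  obtain ⟨c, hc⟩ : ∃ c : ℕ → ℝ, c = fun m : ℕ =>
    if (m : ℤ) ≤ u 0 then 1 else 2 * exp (μ / 32) := ⟨_, rfl⟩
  have e1 : 1 ≤ exp (μ / 32) := one_le_exp (by linarith)
  have c1 : ∀ m, 1 ≤ c m ∧ c m ≤ 2 * exp (μ / 32) := fun m => by
    rw [hc]; dsimp only; split_ifs <;> constructor <;> linarith
  have ha : ∀ m, aK S p lam m ≤
      ENNReal.ofReal (2 * exp (-μ * ((m - 1) / 32 - (A₀ + 1) * ks k 0 m))) := fun m => by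
    refine (rec_le (b := fun m => c m * exp (-μ * (m / 32 - (A₀ + 1) * ks k 0 m)))
      (ϱ := fun m i => exp (-μ * ((i + 1) / 8 - A₀ * ks k m (i + 1)))) α0
      (fun m => mul_nonneg (by linarith [(c1 m).1]) (exp_pos _).le) (fun _ _ => (exp_pos _).le)
      (r0.trans (by simpa [ks] using (c1 0).1)) r1 (step (by linarith) hA hδ k (u 0)
        (fun m => ?_) (fun m a b => ?_) c hc) m).trans (ENNReal.ofReal_le_ofReal ?_)
    · rw [hα]; dsimp only; split_ifs <;> linarith
    · rw [hα]; exact (if_pos ⟨a, Or.inl b⟩).le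
    · refine (mul_le_mul_of_nonneg_right (c1 m).2 (exp_pos _).le).trans (le_of_eq ?_)
      rw [mul_assoc, ← exp_add]; congr 2; ring
  have hk : ∀ n, 1 ≤ n → (A₀ + 1) * ks k 0 n ≤ (A₀ + 1) * ν + ((n : ℝ) - 1) / 64 := fun n hn => by
    have a : (ks k 0 n : ℝ) ≤ ν + (n / Q : ℕ) := by exact_mod_cast hν.le (by omega) n
    linarith [div_le hQ (by omega) hn, mul_le_mul_of_nonneg_left a (by linarith : 0 ≤ A₀ + 1)]
  have g1e := (hF 0).2.2.2.2.2.2.2.2.1
  have g1a : ∀ m r, g1 S p lam (m + 1) r ≤ aK S p lam m := fun m r => by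
    rw [g1e]
    exact le_trans (SS_mono (fun l hl => And.intro hl.1 hl.2.1) fun _ _ => le_rfl) (r2 m)
  have g10 : ∀ r, g1 S p lam 0 r = 0 := fun r => by rw [g1e, piece_zero, SS_empty]
  have g11 : ∀ m r, g1 S p lam m r ≤ 1 := fun m r => by
    rw [g1e]; exact kr _ _ (PieceB.antich_piece m r)
  have g2a : ∀ (m r i r' : ℕ) (b : ℝ≥0∞), (∀ x ∉ S, x 0 = m →
      SS {t | t ∈ RetSet D i ∧ ext t = r'} (wk S p lam x) ≤ b) →
      g2 S p lam m r i r' ≤ b * g1 S p lam m r := fun m r i r' b hb => by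
    rw [(hF 0).2.2.2.2.2.2.2.2.2, g1e, ← SS_mul_left]
    refine SS_mono subset_rfl fun l hl => ?_
    by_cases h : wk S p lam 0 l = 0
    · simp [h]
    · have := (hF 0).2.2.2.1 l hS (by rw [hl.2.1]; positivity) h
      rw [zero_add] at this
      rw [mul_comm]
      exact mul_le_mul_left (hb _ this hl.2.1) _
  have ar : ∀ i r', Antich {t | t ∈ RetSet D i ∧ ext t = r'} := fun i r' =>
    (RetM.antich_ret i).mono fun _ h => h.1
  have lat : ∀ {h a b : ℕ}, a ≤ b → ∀ r : ℕ,
      ENNReal.ofReal (2 * D * (1 - (p * exp lam / Zf D lam) ^ h) ^ (r - (1 + a))) ≤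
      ENNReal.ofReal (2 * D * (1 - (p * exp lam / Zf D lam) ^ h) ^ (r - (1 + b))) :=
    fun {h a b} hab r => ENNReal.ofReal_le_ofReal (mul_le_mul_of_nonneg_left
      (pow_le_pow_of_le_one (sub_nonneg.2 (pow_le_one₀ φ0 φ1))
        (sub_le_self _ (pow_nonneg φ0 _)) (by omega)) (by positivity))
  have hAν : 0 ≤ (A₀ + 1) * ν := by positivity
  refine ⟨fun m r i r' => ⟨g10 r, by rw [g1e, piece_one, SS_empty], g11 m r, ?_, ?_, ?_, ?_, ?_⟩,
    fun hu hν0 r => ?_⟩
  · exact (g2a m r i r' 1 fun x _ _ => kr _ _ (ar i r')).trans_eq (one_mul _)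
  · rcases m with _ | _ | m
    · rw [g10]; exact zero_le
    · refine (g11 _ r).trans (ENNReal.one_le_ofReal.2 ?_)
      have : 1 ≤ exp (-μ * ((((0 + 1 : ℕ) : ℝ) - 2) / 64 - (A₀ + 1) * ν)) := one_le_exp
        (mul_nonneg_of_nonpos_of_nonpos (by linarith) (by push_cast; linarith))
      linarith
    · refine (g1a _ r).trans ((ha _).trans (ENNReal.ofReal_le_ofReal (mul_le_mul_of_nonneg_left
        (exp_le_exp.2 (mul_le_mul_of_nonpos_left ?_ (by linarith))) zero_le_two)))
      have := hk (m + 1) (by omega)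
      push_cast at this ⊢
      linarith
  · rcases m with _ | m
    · rw [g10]; exact zero_le
    · rw [g1e, add_assoc]
      exact ((hF 0).2.2.2.2.2.2.1 _ _ (PieceB.antich_piece _ _) fun l hl => piece_pre hl).trans
        ((hL 0 hS m r).trans (lat (hν.le (by omega) _) r))
  · rcases m with _ | m
    · exact (g2a 0 r i r' 1 fun x _ _ => kr _ _ (ar i r')).trans (by simp [g10])
    · refine (g2a _ r i r' _ fun x hx hm => (SS_mono (fun _ h => h.1) fun _ _ => le_rfl).trans
        (hm ▸ hR x hx i)).trans ((mul_le_mul_right ((g1a m r).trans (ha m)) _).trans ?_)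
      rw [← ENNReal.ofReal_mul (exp_pos _).le, mul_left_comm, ← exp_add, ← mul_add]
      refine ENNReal.ofReal_le_ofReal (mul_le_mul_of_nonneg_left
        (exp_le_exp.2 (mul_le_mul_of_nonpos_left ?_ (by linarith))) zero_le_two)
      have a := hk (m + 1 + (i + 1)) (by omega)
      have b : (ks k 0 m : ℝ) + ks k (m + 1 : ℕ) (i + 1) ≤ ks k 0 (m + 1 + (i + 1)) := by
        have a := ks_add k 0 (m + 1) (i + 1)
        have b := ks_mono k (a := 0) (b := 0) (n := m) (m := m + 1) le_rfl (by push_cast; omega)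
        rw [zero_add] at a
        exact_mod_cast (by omega :
          ks k 0 m + ks k (m + 1 : ℕ) (i + 1) ≤ ks k 0 (m + 1 + (i + 1)))
      have d := mul_le_mul_of_nonneg_left b (by linarith : 0 ≤ A₀ + 1)
      have e : (0 : ℝ) ≤ ks k (m + 1 : ℕ) (i + 1) := Nat.cast_nonneg _
      have f : (0 : ℝ) ≤ i := Nat.cast_nonneg _
      push_cast at a d e ⊢
      linarith
  · refine (g2a m r i r' _ fun x hx hm => ?_).trans (mul_le_of_le_one_right' (g11 m r))
    rw [add_assoc]
    refine ((hF x).2.2.2.2.2.2.1 _ _ (ar i r') fun l hl => ret_pre hl).trans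
      ((hL x hx i r').trans (lat (le_trans (ks_mono k ?_ ?_) (hν.le (by omega) _)) r'))
    · rw [hm]; positivity
    · rw [hm]; push_cast; omega
  · have a := hν.le (by omega) 1
    rw [hν0, Nat.div_eq_of_lt (by omega)] at a
    have b : k (0 : ℕ) = 0 := by simpa [ks] using a
    refine (g1a 1 r).trans ((r1 0).trans ?_)
    rw [Finset.range_zero, Finset.sum_empty, add_zero]
    refine (mul_le_of_le_one_right' r0).trans (ENNReal.ofReal_le_ofReal ?_)
    have d : α 0 = (2 * D + 2) * exp (-μ) := by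
      rw [hα]
      refine if_pos ⟨b, ?_⟩
      exact Or.inr ⟨rfl, hu⟩
    have e : exp (-μ / 32) ≤ exp (-μ / 64) := exp_le_exp.2 (by linarith)
    linarith [exp_pos (-μ / 32)]

end Pool.Agent.MP_8c549f_pr

/-!
The mean height of the first block on the event of escape, compared with the full lattice.
-/

set_option autoImplicit false

namespace Pool.Agent.MP_8c549f_pr

open MeasureTheory Filter Topology Real
open scoped ENNReal NNReal

namespace RegbM

variable {D : ℕ}

noncomputable def tot {ι : Type} (U : ι → ℝ → Cfg D → ℝ≥0∞) (m : ι → ℕ) (p x : ℝ) : ℝ≥0∞ :=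
  ∑' q, ∫⁻ ω, m q * U q x (plus ω) ∂perc D p

theorem tot_one {ι : Type} (U : ι → ℝ → Cfg D → ℝ≥0∞) (m : ι → ℕ) (x : ℝ) :
    tot U m 1 x = ∑' q, m q * U q x (allOpen D) := by
  simp only [tot, lintegral_perc_one, plus_allOpen]

/-- the conclusion for one family -/
def Out (f : ℝ → ℝ → ℝ≥0∞) (B p α β : ℝ) : Prop :=
  (∀ x ∈ Set.Icc α β, f p x ≠ ∞ ∧ f 1 x ≠ ∞ ∧ (f 1 x).toReal ≤ B ∧
    |(f p x).toReal - (f 1 x).toReal| ≤ B * (1 - p)) ∧
  Ctl (fun x => (f p x).toReal - (f 1 x).toReal) α β (B * (1 - p) * exp (-α)) ∧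
  Ctl (fun x => (f 1 x).toReal) α β (B * exp (-α))

theorem gen (hA : ABSStmt) {ι : Type} [Countable ι] [DecidableEq ι]
    (U : ι → ℝ → Cfg D → ℝ≥0∞) (m : ι → ℕ) (n K : ι → ℝ) (E : ι → Finset (Edge D)) (I : Finset ι)
    (K1 : ∀ q, 1 ≤ K q) (hK : ∀ q, K q ^ 2 * m q ≤ 100 * n q ^ 3)
    (hT : ∀ q ω, Tame (K q) fun x => U q x ω)
    (hE : ∀ q x, Dep (U q x) (E q : Set (Edge D))) (h1 : ∀ q x ω, U q x ω ≤ 1)
    (h6 : ∀ q, ∃ C : ℝ, 0 ≤ C ∧ ∀ ω : Cfg D, ω (edge 0 (bck D)) = true → ∀ α β : ℝ, 0 ≤ α →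
      Ctl (fun x => (U q x ω).toReal) α β (C * exp (-α))) :
    ∃ B : ℝ, 1 ≤ B ∧ ∀ p α β, 0 ≤ p → p ≤ 1 → 0 ≤ α →
      (∀ x ∈ Set.Icc α β, ∀ p', p' = p ∨ p' = 1 →
        ∑' q, (if q ∈ I then 0 else
          ENNReal.ofReal (n q ^ 3) * ∫⁻ ω, U q x (plus ω) ∂perc D p') ≤
          ENNReal.ofReal (2 * (1 - p) * exp (-α))) → Out (tot U m) B p α β := by
  choose C C0 hC using h6
  obtain ⟨A, A0, hA1⟩ : ∃ A : ℝ, 0 ≤ A ∧ ∀ q ∈ I, (m q : ℝ) ≤ A ∧ m q * C q ≤ A ∧
      ((E q).card : ℝ) ≤ A := by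
    refine ⟨∑ q ∈ I, ((m q : ℝ) + m q * C q + (E q).card),
      Finset.sum_nonneg fun q _ => by have := C0 q; positivity, fun q hq => ?_⟩
    have := Finset.single_le_sum (f := fun q => (m q : ℝ) + m q * C q + (E q).card)
      (fun q _ => by have := C0 q; positivity) hq
    have a1 : (0 : ℝ) ≤ m q := Nat.cast_nonneg _
    have a2 : (0 : ℝ) ≤ m q * C q := mul_nonneg a1 (C0 q)
    have a3 : (0 : ℝ) ≤ (E q).card := Nat.cast_nonneg _
    exact ⟨by linarith, by linarith, by linarith⟩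
  have c0 : (0 : ℝ) ≤ I.card := Nat.cast_nonneg _
  have c1 : 0 ≤ I.card * A := mul_nonneg c0 A0
  have c2 : 0 ≤ I.card * A * A := mul_nonneg c1 A0
  refine ⟨2 * (I.card * A * A) + I.card * A + 1600, by linarith, fun p α β p0 p1 α0 ht => ?_⟩
  have := perc_prob D p0 p1
  have e0 : 0 < exp (-α) := exp_pos _
  have e1 : exp (-α) ≤ 1 := exp_le_one_iff.2 (by linarith)
  have q0 : 0 ≤ 1 - p := by linarith
  have mU : ∀ q x, Measurable fun ω => U q x (plus ω) := fun q x =>
    (hE q x).comp_plus.measurable (Finset.finite_toSet _)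
  have bd : ∀ q ∈ I, ∀ ω : Cfg D, ω (edge 0 (bck D)) = true →
      (∀ x ∈ Set.Icc α β, m q * U q x ω ≤ ENNReal.ofReal A) ∧
      Ctl (fun x => (m q * U q x ω).toReal) α β (A * exp (-α)) := fun q hq ω hω => by
    refine ⟨fun x _ => (mul_le_of_le_one_right' (h1 q x ω)).trans ?_, ?_⟩
    · rw [← ENNReal.ofReal_natCast]
      exact ENNReal.ofReal_le_ofReal (hA1 q hq).1
    · refine (((hC q ω hω α β α0).const_mul (m q)).mono ?_).congr fun x _ => by simp
      rw [abs_of_nonneg (Nat.cast_nonneg _), ← mul_assoc]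
      exact mul_le_mul_of_nonneg_right (hA1 q hq).2.1 e0.le
  have tl : ∀ x ∈ Set.Icc α β, ∀ p', p' = p ∨ p' = 1 → ∑' q, (if q ∈ I then 0 else
      ENNReal.ofReal (K q ^ 2) * ∫⁻ ω, m q * U q x (plus ω) ∂perc D p') ≤
      ENNReal.ofReal (200 * (1 - p) * exp (-α)) := fun x hx p' hp' => by
    calc _ ≤ ∑' q, ENNReal.ofReal 100 * (if q ∈ I then 0 else
          ENNReal.ofReal (n q ^ 3) * ∫⁻ ω, U q x (plus ω) ∂perc D p') := by
          refine ENNReal.tsum_le_tsum fun q => ?_
          split_ifs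
          · exact zero_le
          · rw [lintegral_const_mul _ (mU q x), ← mul_assoc, ← mul_assoc, ← ENNReal.ofReal_natCast,
              ← ENNReal.ofReal_mul (sq_nonneg _), ← ENNReal.ofReal_mul (by norm_num)]
            exact mul_le_mul' (ENNReal.ofReal_le_ofReal (hK q)) le_rfl
      _ ≤ ENNReal.ofReal 100 * ENNReal.ofReal (2 * (1 - p) * exp (-α)) := by
          rw [ENNReal.tsum_mul_left]
          exact mul_le_mul' le_rfl (ht x hx p' hp')
      _ = _ := by rw [← ENNReal.ofReal_mul (by norm_num)]; congr 1; ring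
  have mO : ∀ q, MeasurableSet (⋃ e ∈ E q, {ω : Cfg D | ω e = false}) := fun q =>
    Finset.measurableSet_biUnion _ fun e _ =>
      measurable_pi_apply (X := fun _ : Edge D => Bool) e (measurableSet_singleton false)
  obtain ⟨r1, r2, r3⟩ := hA D ι (perc D p) (fun q x ω => m q * U q x (plus ω))
    (fun q x => m q * U q x (allOpen D)) K I (fun q => (⋃ e ∈ E q, {ω : Cfg D | ω e = false})ᶜ)
    (fun _ => Set.univ) α β A (A * exp (-α)) (200 * (1 - p) * exp (-α)) (A * (1 - p)) A0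
    (by positivity) (by positivity) (by positivity) K1 (fun q ω => (hT q _).const_mul _)
    (fun q => (hT q _).const_mul _) (fun q x => (mU q x).const_mul _)
    (fun q => ⟨(mO q).compl, MeasurableSet.univ⟩)
    (fun q hq => ⟨by
      rw [compl_compl]
      refine (measure_biUnion_finset_le _ _).trans ?_
      simp only [perc_edge p0 p1, Finset.sum_const, nsmul_eq_mul]
      rw [← ENNReal.ofReal_natCast, ← ENNReal.ofReal_mul (Nat.cast_nonneg _)]
      exact ENNReal.ofReal_le_ofReal (mul_le_mul_of_nonneg_right (hA1 q hq).2.2 q0),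
      Set.subset_univ _, fun ω hω x => by
        rw [hE q x (plus ω) (allOpen D) fun e he => plus_of_open ?_]
        by_contra k
        exact hω (Set.mem_biUnion he (by simpa using k)),
      fun ω _ => bd q hq _ (plus_bck ω), bd q hq _ rfl⟩)
    (fun x hx => le_trans (ENNReal.tsum_le_tsum fun q => by split_ifs <;> simp)
      (tl x hx p (Or.inl rfl)))
    (fun x hx => by
      simpa only [lintegral_perc_one, plus_allOpen] using tl x hx 1 (Or.inr rfl))
  have t0 : 0 ≤ (1 - p) * exp (-α) := by positivity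
  have t1 : (1 - p) * exp (-α) ≤ 1 - p := mul_le_of_le_one_right q0 e1
  have t2 : (1 - p) * exp (-α) ≤ exp (-α) := mul_le_of_le_one_left e0.le (by linarith)
  simp only [Out, tot_one]
  refine ⟨fun x hx => ⟨(r1 x hx).1, (r1 x hx).2.1, (r1 x hx).2.2.1.trans (by linarith),
    (r1 x hx).2.2.2.trans ?_⟩, r2.mono ?_, r3.mono ?_⟩
  · nlinarith [mul_nonneg c1 q0]
  · nlinarith [mul_nonneg c1 t0]
  · nlinarith [mul_nonneg c2 e0.le]

theorem le_NN (D m r : ℕ) : (m : ℝ) ≤ NN D m r := by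
  have a : m + 1 ≤ (m + 1) ^ 3 := Nat.le_self_pow (by norm_num) _
  have b : 2 * (m + 1) ^ 3 ≤ NN D m r := Nat.le_mul_of_pos_right _ (by positivity)
  exact_mod_cast (show m ≤ NN D m r by omega)

theorem two_le (D m r : ℕ) : (2 : ℝ) ≤ NN D m r := by exact_mod_cast two_le_NN D m r

/-- the expansion of the escape probability, integrated -/
theorem expand (hM : MEASStmt) (hX : EXPStmt) {p x : ℝ}
    (h : ∀ᵐ ω ∂perc D p, Nice x (plus ω)) :
    BT D p x + tot (D := D) (fun (q : (ℕ × ℕ) × ℕ × ℕ) x ω => U2 x ω q.1.1 q.1.2 q.2.1 q.2.2)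
      (fun q => q.1.1) p x =
      tot (D := D) (fun (q : ℕ × ℕ) x ω => Uq x ω q.1 q.2) (fun q => q.1) p x := by
  obtain ⟨-, -, -, -, -, -, m1, m2, -⟩ := hM D x
  have n1 : Measurable fun ω : Cfg D => HE x (plus ω) := m1.comp measurable_plus
  have n2 : ∀ q : ℕ × ℕ, AEMeasurable (fun ω : Cfg D => q.1 * Uq x (plus ω) q.1 q.2) (perc D p) :=
    fun q => (((m2 q.1 q.2 0 0).1.comp measurable_plus).const_mul _).aemeasurable
  have n3 : ∀ q : (ℕ × ℕ) × ℕ × ℕ, AEMeasurable
      (fun ω : Cfg D => q.1.1 * U2 x (plus ω) q.1.1 q.1.2 q.2.1 q.2.2) (perc D p) :=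
    fun q => (((m2 q.1.1 q.1.2 q.2.1 q.2.2).2.comp measurable_plus).const_mul _).aemeasurable
  simp only [BT, tot]
  rw [← lintegral_tsum n2, ← lintegral_tsum n3, ← lintegral_add_left n1]
  exact lintegral_congr_ae (h.mono fun ω hω => (hX D x _ hω fun _ _ => True).2)

theorem split {a b c : ℝ≥0∞} (h : a + b = c) (hc : c ≠ ∞) :
    a ≠ ∞ ∧ a.toReal = c.toReal - b.toReal := by
  subst h
  obtain ⟨h1, h2⟩ := ENNReal.add_ne_top.1 hc
  exact ⟨h1, by rw [ENNReal.toReal_add h1 h2]; ring⟩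

end RegbM

open RegbM

theorem regb (hA : ABSStmt) (hN : NICEStmt) (hM : MEASStmt) (hX : EXPStmt) (hT : PTStmt)
    (hD : PDStmt) (h6 : P6Stmt) (hP : PROFStmt) (hK : KPTStmt) (hO : KMOMStmt) : REGBStmt := by
  intro D D2
  obtain ⟨Q, A, μ₀, Q4, A0, -, HK⟩ := hK D D2
  obtain ⟨R, C₁, μ₁, -, HO⟩ := hO D Q 3 A 1 1 (D + 1) (by omega) (by omega) A0 one_pos le_rfl le_rfl
  obtain ⟨e1, he1, HN⟩ := hN D (by omega) 1 one_pos
  obtain ⟨e2, he2, HW⟩ := win_mu D2 (max 1 (max μ₀ μ₁))
  obtain ⟨B1, b1, H1⟩ := gen (D := D) hA (fun (q : ℕ × ℕ) x ω => Uq x ω q.1 q.2) (fun q => q.1)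
    (fun q => NN D q.1 q.2) (fun q => 10 * NN D q.1 q.2) (fun q => near (Box D q.1 q.2))
    (CmpM.sq R) (fun q => by linarith [two_le D q.1 q.2])
    (fun q => by
      have := mul_le_mul_of_nonneg_left (le_NN D q.1 q.2) (sq_nonneg (10 * (NN D q.1 q.2 : ℝ)))
      linarith)
    (fun q ω => (hT D ω (fun _ _ => True) q.1 q.2 0 0).2.1)
    (fun q x => (p4S D q.1 q.2).2.2.1 x) (fun q x ω => ((p4S D q.1 q.2).2.2.2.2.2.1 x ω).1)
    (fun q => (h6 D q.1 q.2 0 0).imp fun C h => ⟨h.1, fun ω hω α β hα => (h.2 ω hω α β hα).1⟩)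
  obtain ⟨B2, b2, H2⟩ := gen (D := D) hA
    (fun (q : (ℕ × ℕ) × ℕ × ℕ) x ω => U2 x ω q.1.1 q.1.2 q.2.1 q.2.2) (fun q => q.1.1)
    (fun q => (NN D q.1.1 q.1.2 : ℝ) * NN D (q.2.1 + 1) q.2.2)
    (fun q => 10 * (NN D q.1.1 q.1.2 + NN D (q.2.1 + 1) q.2.2))
    (fun q => near (Box D (q.1.1 + q.2.1 + 1) (q.1.2 + q.2.2))) (CmpM.sq R ×ˢ CmpM.sq R)
    (fun q => by linarith [two_le D q.1.1 q.1.2, two_le D (q.2.1 + 1) q.2.2])
    (fun q => by
      have a1 := two_le D q.1.1 q.1.2
      have a2 := two_le D (q.2.1 + 1) q.2.2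
      have a3 := le_NN D q.1.1 q.1.2
      have a4 : (0 : ℝ) ≤ q.1.1 := Nat.cast_nonneg _
      generalize (NN D q.1.1 q.1.2 : ℝ) = a at *
      generalize (NN D (q.2.1 + 1) q.2.2 : ℝ) = b at *
      have a5 : a + b ≤ a * b := by nlinarith
      calc (10 * (a + b)) ^ 2 * (q.1.1 : ℝ) ≤ (10 * (a * b)) ^ 2 * (a * b) := by
            gcongr
            linarith
        _ = _ := by ring)
    (fun q ω => (hT D ω (fun _ _ => True) q.1.1 q.1.2 q.2.1 q.2.2).2.2.2)
    (fun q x ω ω' h => ((hD D q.1.1 q.1.2 q.2.1 q.2.2 x).1 ω ω' (fun _ _ => True) (fun _ _ => True)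
      h fun _ _ _ => Iff.rfl).2.2.1)
    (fun q x ω => ((hD D q.1.1 q.1.2 q.2.1 q.2.2 x).2 ω fun _ _ => True).2.1.trans
      ((p4S D q.1.1 q.1.2).2.2.2.2.2.1 x ω).1)
    (fun q => (h6 D q.1.1 q.1.2 q.2.1 q.2.2).imp fun C h =>
      ⟨h.1, fun ω hω α β hα => (h.2 ω hω α β hα).2.1⟩)
  refine ⟨B1 + B2, by linarith, fun ζ hζ => ⟨min (min e1 e2) (ζ / (B1 + B2)), by positivity,
    fun p α β hp hW => ?_⟩⟩
  have p1 : p < 1 := hW.1
  have q1 : 1 - e1 ≤ p := le_trans (by gcongr; exact (min_le_left _ _).trans (min_le_left _ _)) hp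
  have q2 : 1 - e2 ≤ p := le_trans (by gcongr; exact (min_le_left _ _).trans (min_le_right _ _)) hp
  have q3 : (B1 + B2) * (1 - p) ≤ ζ := by
    have : 1 - ζ / (B1 + B2) ≤ p := le_trans (by gcongr; exact min_le_right _ _) hp
    rw [mul_comm, ← le_div_iff₀ (by positivity)]
    linarith
  have hw := fun x (hx : x ∈ Set.Icc α β) => HW p x q2 p1 (hW.mem hx).1 (hW.mem hx).2
  have x1 : ∀ x ∈ Set.Icc α β, 1 ≤ x := fun x hx => by
    obtain ⟨μ, a, -, -, b, -⟩ := hw x hx
    exact (le_of_max_le_left a).trans b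
  have α1 : 1 ≤ α := x1 α ⟨le_rfl, hW.2.1⟩
  have p0 : 0 ≤ p := by
    obtain ⟨μ, -, -, b, -⟩ := hw α ⟨le_rfl, hW.2.1⟩
    linarith
  have tl : ∀ x ∈ Set.Icc α β, ∀ p', p' = p ∨ p' = 1 → ∃ μ,
      MomB D 3 R 1 1 C₁ (D + 1) μ 0 (g1 ∅ p' x) (g2 ∅ p' x) ∧
        exp (-(D + 1) * μ) ≤ 2 * (1 - p) * exp (-α) := fun x hx p' hp' => by
    obtain ⟨μ, a, b, -, c, -, d⟩ := hw x hx
    have a1 : p' ≤ 1 := by rcases hp' with h | h <;> linarith
    have a2 : 1 - p' ≤ exp (-μ) := by
      rcases hp' with h | h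
      · rw [h, b]
      · rw [h, sub_self]; exact (exp_pos _).le
    refine ⟨μ, HO p' x μ 0 _ _ (le_of_max_le_right (le_of_max_le_right a)) a1 a2 c
      (HK p' x μ ∅ 0 (fun _ => 0) 0 (le_of_max_le_left (le_of_max_le_right a))
        ⟨a1, a2, c, (hP D D2).1 0⟩ (Finset.notMem_empty _) fun n => by simp [ks]).1, ?_⟩
    rw [show -((D : ℝ) + 1) * μ = -μ + -(D * μ) by ring, exp_add, ← b]
    have a3 : exp (-x) ≤ exp (-α) := exp_le_exp.2 (by linarith [hx.1])
    nlinarith [mul_le_mul_of_nonneg_left (d.trans (mul_le_mul_of_nonneg_left a3 zero_le_two))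
      (show 0 ≤ 1 - p by linarith)]
  obtain ⟨r1, r2, r3⟩ := H1 p α β p0 p1.le (by linarith) fun x hx p' hp' => by
    obtain ⟨μ, a, b⟩ := tl x hx p' hp'
    refine le_trans (le_of_eq (tsum_congr fun q => ?_))
      ((a.2.2 rfl).1.trans (ENNReal.ofReal_le_ofReal b))
    simp only [CmpM.mem_sq, ite_not, g1, clo_empty, ENNReal.rpow_one]
  obtain ⟨s1, s2, s3⟩ := H2 p α β p0 p1.le (by linarith) fun x hx p' hp' => by
    obtain ⟨μ, a, b⟩ := tl x hx p' hp'
    refine le_trans (le_of_eq (tsum_congr fun q => ?_))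
      ((a.2.2 rfl).2.trans (ENNReal.ofReal_le_ofReal b))
    simp only [Finset.mem_product, CmpM.mem_sq, ← not_or, or_assoc, ite_not, g2, clo_empty,
      ENNReal.rpow_one]
  have E1 := fun x (hx : x ∈ Set.Icc α β) =>
    split (expand hM hX (HN p x q1 p1.le (x1 x hx)).1) (r1 x hx).1
  have E2 := fun x (hx : x ∈ Set.Icc α β) =>
    split (expand hM hX (HN 1 x (by linarith) le_rfl (x1 x hx)).1) (r1 x hx).2.1
  have e0 := exp_pos (-α)
  refine ⟨fun x hx => ⟨(E1 x hx).1, (E2 x hx).1, ?_, ?_⟩,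
    ((r2.sub s2).mono ?_).congr fun x hx => ?_, ((r3.sub s3).mono (le_of_eq (by ring))).congr
      fun x hx => (E2 x hx).2.symm⟩
  · rw [(E2 x hx).2]
    exact (sub_le_self _ ENNReal.toReal_nonneg).trans ((r1 x hx).2.2.1.trans (by linarith))
  · rw [(E1 x hx).2, (E2 x hx).2]
    have a1 := abs_le.1 (r1 x hx).2.2.2
    have a2 := abs_le.1 (s1 x hx).2.2.2
    rw [abs_le]
    constructor <;> linarith
  · have := mul_le_mul_of_nonneg_right q3 e0.le
    linarith
  · rw [(E1 x hx).2, (E2 x hx).2]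
    ring

theorem reg0 (hN : NICEStmt) (hQ : QRStmt) : REG0Stmt := by
  intro D D1
  obtain ⟨e1, he1, HN⟩ := hN D D1 1 one_pos
  obtain ⟨e2, he2, H1⟩ := oneS D D1 1 one_pos
  obtain ⟨C, e3, C0, he3, HR⟩ := retS D D1 1 one_pos
  refine ⟨2 * (4 * C + 2), fun x hx hA hB => ?_⟩
  have x1 : 1 < x := by linarith
  obtain ⟨a1, a2, a3, a4⟩ := hQ D 1 x zero_le_one le_rfl
  have a5 := a4 (HN 1 x (by linarith) le_rfl x1.le).1
  have r0 := exp_pos (-(x / 2))
  have r1 : exp (-(x / 2)) * (4 * C + 2) ≤ 1 := by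
    rw [exp_neg, inv_mul_le_iff₀ (exp_pos _)]
    linarith [add_one_le_exp (x / 2)]
  have r2 : exp (-(x / 2)) ≤ 1 / 2 := by nlinarith
  have r3 : C * exp (-(x / 2)) ≤ 1 / 4 := by nlinarith
  have b1 : ∑' i, Ret D 1 x i ≤ ENNReal.ofReal (1 / 2) := by
    calc ∑' i, Ret D 1 x i ≤ ∑' i : ℕ, ENNReal.ofReal (1 / 4 * (1 / 2) ^ i) := by
          refine ENNReal.tsum_le_tsum fun i => (HR 1 x x (by linarith) le_rfl x1.le le_rfl
            (by rw [sub_self]; exact (exp_pos _).le) i).trans (ENNReal.ofReal_le_ofReal ?_)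
          rw [show -x * ((i : ℝ) + 1) / 2 = -(x / 2) + i * -(x / 2) by ring, exp_add, exp_nat_mul,
            ← mul_assoc]
          gcongr
      _ = _ := by
          rw [← ENNReal.ofReal_tsum_of_nonneg (fun i => by positivity)
            (summable_geometric_two.mul_left _), tsum_mul_left, tsum_geometric_two]
          norm_num
  have b2 : ENNReal.ofReal (1 / 2) ≤ q1 D 1 x := by
    have : ENNReal.ofReal (1 / 2) + ENNReal.ofReal (1 / 2) = 1 := by
      rw [← ENNReal.ofReal_add (by norm_num) (by norm_num)]; norm_num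
    exact (ENNReal.add_le_add_iff_right ENNReal.ofReal_ne_top).1
      (this.trans_le (a5.trans (add_le_add le_rfl b1)))
  have b3 : q1 D 1 x ≠ 0 := fun h => by
    rw [h] at b2
    norm_num at b2
  have b4 : 1 ≤ BB D 1 x := (H1 1 x (by linarith) le_rfl x1.le).2.1.ge.trans
    (sump D 1 x zero_le_one le_rfl).2.2.2.2.2.2.2
  have b5 : AA D 1 x ≠ ∞ := fun h => hA (by rw [← a1, h, ENNReal.top_mul b3])
  have b6 := f5 D 1 x x1 (fun t ht => (H1 1 t (by linarith) le_rfl ht).2.1) b5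
  refine ⟨(ENNReal.ofReal_le_iff_le_toReal hB).1 ?_, ?_⟩
  · rw [← a2]
    exact b2.trans (le_mul_of_one_le_left' b4)
  · rw [← a1, ← a2, ENNReal.toReal_mul, ENNReal.toReal_mul]
    unfold BR AR at b6
    linear_combination -(q1 D 1 x).toReal * b6

end Pool.Agent.MP_8c549f_pr

/-!
Bushes with a large excess carry little mass.
-/

set_option autoImplicit false

namespace Pool.Agent.MP_8c549f_pr

open MeasureTheory Filter Topology Real
open scoped ENNReal NNReal

namespace NastM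

variable {D : ℕ}

theorem pih_le {ω : Cfg D} {T : Finset (V D)} {G : ℝ≥0∞} {g : ℤ → ℝ≥0∞} (X : V D → ℝ≥0∞)
    (h1 : g 1 ≤ G) (h2 : ∀ z ∈ Bush ω 0,
      (z ∈ T ∧ ∀ s, ω (edge z s) = true → g (expo z s) ≤ G) ∨
      (∑ s : Step D, if ω (edge z s) = true then g (expo z s) else 0) ≤ X z) :
    pih g ω 0 ≤ ((1 + (2 * D + 2) * T.card : ℕ) : ℝ≥0∞) * G + ∑' z, X z := by
  classical
  unfold pih
  have a : ∀ z : V D, (Bush ω 0).indicator (fun z => ∑ s : Step D,
      if ω (edge z s) = true then g (expo z s - 2 * (0 : V D) 0) else 0) z ≤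
      (if z ∈ T then ((2 * D + 2 : ℕ) : ℝ≥0∞) * G else 0) + X z := by
    intro z
    by_cases hz : z ∈ Bush ω 0
    · rw [Set.indicator_of_mem hz]
      simp only [Pi.zero_apply, mul_zero, sub_zero]
      rcases h2 z hz with ⟨k1, k2⟩ | k
      · refine le_trans ?_ le_self_add
        rw [if_pos k1]
        refine (Finset.sum_le_card_nsmul _ _ G fun s _ => ?_).trans (le_of_eq ?_)
        · split_ifs with h
          exacts [k2 s h, zero_le]
        · rw [nsmul_eq_mul, Finset.card_univ, Fintype.card_prod, Fintype.card_fin,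
            Fintype.card_bool]
          congr 2
          ring
      · exact k.trans le_add_self
    · rw [Set.indicator_of_notMem hz]; exact zero_le
  refine (add_le_add h1 (ENNReal.tsum_le_tsum a)).trans (le_of_eq ?_)
  rw [ENNReal.tsum_add, tsum_eq_sum (s := T) fun z hz => if_neg hz,
    Finset.sum_congr rfl fun z hz => if_pos hz, Finset.sum_const, nsmul_eq_mul]
  push_cast
  ring

theorem gk_le {k : ℕ} (hk : k ≤ 2) {lam : ℝ} (hl : 0 ≤ lam) {m j : ℤ} {n : ℕ} (h1 : 1 ≤ m)
    (h2 : m ≤ 2 * n + 1) (h3 : m ≤ j) :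
    gk k lam m ≤ ENNReal.ofReal ((2 * n + 1) ^ 2 * exp (lam * j)) := by
  have k1 : (1 : ℝ) ≤ m := by exact_mod_cast h1
  have k2 : (m : ℝ) ≤ 2 * n + 1 := by exact_mod_cast h2
  have k3 : (m : ℝ) ≤ j := by exact_mod_cast h3
  refine ENNReal.ofReal_le_ofReal (mul_le_mul ((pow_le_pow_right₀ k1 hk).trans ?_) ?_
    (exp_pos _).le (by positivity)) <;> gcongr

theorem gk_shift {k : ℕ} (hk : k ≤ 2) (lam : ℝ) {m : ℤ} (n : ℕ) (h1 : 1 ≤ m) :
    gk k lam (m + 2 * n) ≤ ENNReal.ofReal ((2 * n + 1) ^ 2 * exp (lam * (2 * n))) * gk k lam m := by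
  have k1 : (1 : ℝ) ≤ m := by exact_mod_cast h1
  have k0 : (0 : ℝ) ≤ n := Nat.cast_nonneg n
  unfold gk
  rw [← ENNReal.ofReal_mul (by positivity)]
  refine ENNReal.ofReal_le_ofReal ?_
  push_cast
  have a : ((m : ℝ) + 2 * n) ^ k ≤ (2 * n + 1) ^ 2 * (m : ℝ) ^ k := by
    calc ((m : ℝ) + 2 * n) ^ k ≤ ((2 * n + 1) * m) ^ k := by gcongr; nlinarith
      _ = (2 * n + 1) ^ k * (m : ℝ) ^ k := mul_pow _ _ _
      _ ≤ _ := by gcongr; linarith
  calc ((m : ℝ) + 2 * n) ^ k * exp (lam * (m + 2 * n))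
      ≤ (2 * n + 1) ^ 2 * (m : ℝ) ^ k * exp (lam * (m + 2 * n)) := by gcongr
    _ = _ := by rw [mul_add lam, exp_add]; ring

/-- polynomial loss -/
noncomputable def cc (D n e : ℕ) : ℝ := (1 + (2 * D + 2) * (n * (e + 1))) * (2 * n + 1) ^ 2

theorem cc_nonneg (D n e : ℕ) : 0 ≤ cc D n e := by unfold cc; positivity

theorem card_mul {T : Finset (V D)} {n e : ℕ} (hT : T.card ≤ n * (e + 1)) {y : ℝ} :
    ((1 + (2 * D + 2) * T.card : ℕ) : ℝ≥0∞) * ENNReal.ofReal ((2 * n + 1) ^ 2 * y) ≤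
      ENNReal.ofReal (cc D n e * y) := by
  rw [cc, mul_assoc, ENNReal.ofReal_mul (p := 1 + _) (by positivity), ← ENNReal.ofReal_natCast]
  refine mul_le_mul' (ENNReal.ofReal_le_ofReal ?_) le_rfl
  exact_mod_cast Nat.add_le_add_left (Nat.mul_le_mul_left _ hT) 1

theorem pih_A {k : ℕ} (hk : k ≤ 2) {lam : ℝ} (hl : 0 ≤ lam) {ω : Cfg D} {T : Finset (V D)}
    {n e : ℕ} {u : V D} (hT : T.card ≤ n * (e + 1)) (hn : ∀ x ∈ T, x 0 ≤ n) (hu : u 0 = n)
    (hB : Bush ω 0 ⊆ (T : Set (V D)) ∪ Bush ω u) :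
    pih (gk k lam) ω 0 ≤ ENNReal.ofReal (cc D n e * exp (lam * (2 * n))) * pih (gk k lam) ω u := by
  set c := ENNReal.ofReal ((2 * n + 1) ^ 2 * exp (lam * (2 * n))) with hc
  have a : ∀ m : ℤ, 1 ≤ m → m ≤ 2 * n + 1 → gk k lam m ≤ c * gk k lam 1 := fun m m1 m2 => by
    refine (gk_le hk hl m1 m2 m2).trans (le_of_eq ?_)
    rw [hc, gk, ← ENNReal.ofReal_mul (by positivity)]
    congr 1
    push_cast
    rw [mul_add lam, exp_add]
    ring
  refine (pih_le (T := T) (G := c * gk k lam 1) (fun z => c * (Bush ω u).indicator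
    (fun z => ∑ s : Step D, if ω (edge z s) = true then gk k lam (expo z s - 2 * u 0) else 0) z)
    (a 1 le_rfl (by omega)) fun z hz => ?_).trans ?_
  · have l := Bush_level hz
    simp only [Pi.zero_apply] at l
    rcases hB hz with h | h
    · have := hn z h
      refine Or.inl ⟨h, fun s _ => a _ ?_ ?_⟩ <;> have := vec_bounds s 0 <;> unfold expo <;> omega
    · right
      have l' := Bush_level h
      rw [Set.indicator_of_mem h, Finset.mul_sum]
      refine Finset.sum_le_sum fun s _ => ?_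
      split_ifs
      · have b := vec_bounds s 0
        have := gk_shift hk lam (m := expo z s - 2 * u 0) n (by unfold expo; omega)
        rwa [show expo z s - 2 * u 0 + 2 * n = expo z s by omega] at this
      · exact zero_le
  · rw [ENNReal.tsum_mul_left, ← mul_assoc]
    refine le_trans ?_ (mul_le_mul' (card_mul hT) le_rfl)
    rw [pih, mul_add, ← hc]
    refine add_le_add le_rfl (mul_le_mul' (le_mul_of_one_le_left' ?_) le_rfl)
    exact_mod_cast Nat.le_add_right 1 _

/-- the largest exponent in a closed bush -/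
def tp (D n e : ℕ) : ℤ := if 2 * D ≤ e + 1 then 2 * n else 2 * n - 1

theorem pih_B {k : ℕ} (hk : k ≤ 2) {lam : ℝ} (hl : 0 ≤ lam) {ω : Cfg D} {T : Finset (V D)}
    {n e : ℕ} (hR : Root ω 0) (h1 : 1 ≤ n) (hT : T.card ≤ n * (e + 1)) (hn : ∀ x ∈ T, x 0 ≤ n)
    (hB : Bush ω 0 ⊆ (T : Set (V D)))
    (ht : (∀ x ∈ T, ∀ y ∈ T, x 0 = n → y 0 = n → x = y) ∨ 2 * D ≤ e + 1) :
    pih (gk k lam) ω 0 ≤ ENNReal.ofReal (cc D n e * exp (lam * tp D n e)) := by
  have t1 : 2 * (n : ℤ) - 1 ≤ tp D n e := by unfold tp; split_ifs <;> omega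
  refine (pih_le (T := T) (fun _ => 0) (gk_le (n := n) (j := tp D n e) hk hl le_rfl (by omega)
    (by omega)) fun z hz => Or.inl ⟨hB hz, fun s hs => ?_⟩).trans ?_
  · have l := Bush_level hz
    simp only [Pi.zero_apply] at l
    have b := vec_bounds s 0
    have z1 := hn z (hB hz)
    refine gk_le hk hl (by unfold expo; omega) (by unfold expo; omega) ?_
    by_cases hz' : z + vec s ∈ Bush ω 0
    · have z2 := hn _ (hB hz')
      simp only [Pi.add_apply] at z2
      rcases ht with h | h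
      · have : ¬ (z 0 = n ∧ (z + vec s) 0 = n) := fun c =>
          vec_ne_zero s (by simpa using (h z (hB hz) _ (hB hz') c.1 c.2))
        simp only [Pi.add_apply] at this
        unfold expo
        omega
      · unfold tp expo
        rw [if_pos h]
        omega
    · obtain ⟨rfl, rfl⟩ := hR.exit hz hs hz'
      simp only [expo, Pi.add_apply, Pi.zero_apply, e0_zero, vec_bck_zero]
      omega
  · rw [tsum_zero, add_zero]
    exact card_mul hT

noncomputable def shB (T : Finset (V D)) : Finset (Edge D) := (shell T).erase (edge 0 (fwd D))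

noncomputable def shA (T : Finset (V D)) (u : V D) : Finset (Edge D) :=
  (shB T).erase (edge u (fwd D))

def Cl (E : Finset (Edge D)) : Set (Cfg D) := {ω | ∀ f ∈ E, ω f = false}

theorem dep_Cl (E : Finset (Edge D)) : Dep (fun ω => ω ∈ Cl E) (E : Set (Edge D)) :=
  fun _ _ h => propext (forall₂_congr fun f hf => by rw [h f hf])

theorem meas_Cl (E : Finset (Edge D)) : MeasurableSet (Cl E) :=
  (dep_Cl E).measurableSet E.finite_toSet

theorem perc_Cl {p : ℝ} (h0 : 0 ≤ p) (h1 : p ≤ 1) {E : Finset (Edge D)} {j : ℕ} (h : j ≤ E.card) :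
    perc D p (Cl E) ≤ ENNReal.ofReal ((1 - p) ^ j) := by
  have := cyl D p h0 h1 ∅ E (Finset.disjoint_empty_left _)
  simp only [Finset.card_empty, pow_zero, one_mul, Finset.notMem_empty, false_imp_iff,
    implies_true, true_and] at this
  exact this.le.trans (ENNReal.ofReal_le_ofReal
    (pow_le_pow_of_le_one (by linarith) (by linarith) h))

def RH (u : V D) (h : ℕ) : Set (Cfg D) := {ω | Root ω u ∧ ∀ z ∈ Bush ω u, z 0 ≤ u 0 + h}

theorem meas_RH (hM : MEASStmt) (u : V D) (h : ℕ) : MeasurableSet (RH u h) := by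
  have e : RH u h = {ω | Root ω u} ∩ ⋂ z : V D, ({ω | z ∈ Up ω (u 0 + 1) (u + e0 D)}ᶜ ∪
      {_ω | z 0 ≤ u 0 + h}) := by
    ext ω
    simp only [RH, Bush, Set.mem_ofPred_eq, Set.mem_inter_iff, Set.mem_iInter, Set.mem_union,
      Set.mem_compl_iff, imp_iff_not_or]
  rw [e]
  exact ((hM D 0).2.1 u).1.inter (MeasurableSet.iInter fun z =>
    ((hM D 0).1 _ _ _).compl.union (MeasurableSet.const _))

def StA (T : Finset (V D)) (n e : ℕ) (u : V D) : Prop :=
  u 0 = n ∧ (∀ x ∈ T, x 0 ≤ n) ∧ (∀ x ∈ T, x 0 = n → x = u) ∧ 2 * D * n + e ≤ (shA T u).card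

open Classical in
noncomputable def FA (g : ℤ → ℝ≥0∞) (lam : ℝ) (h n e : ℕ) (T : Finset (V D)) (u : V D)
    (ω : Cfg D) : ℝ≥0∞ :=
  if StA T n e u then ENNReal.ofReal (cc D n e * exp (lam * (2 * n))) *
    ((Cl (shA T u)).indicator 1 ω * (RH u h).indicator (fun ω => pih g ω u) ω) else 0

noncomputable def FB (lam : ℝ) (n e : ℕ) (T : Finset (V D)) (ω : Cfg D) : ℝ≥0∞ :=
  if 2 * D * n + e + 1 ≤ (shB T).card then ENNReal.ofReal (cc D n e * exp (lam * tp D n e)) *
    (Cl (shB T)).indicator 1 ω else 0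

theorem meas_FA (hM : MEASStmt) (g : ℤ → ℝ≥0∞) (lam : ℝ) (h n e : ℕ) (T : Finset (V D))
    (u : V D) : Measurable (FA g lam h n e T u) := by
  unfold FA
  split_ifs
  · exact ((measurable_one.indicator (meas_Cl _)).mul
      (((hM D 0).2.2.2.1 g u).indicator (meas_RH hM u h))).const_mul _
  · exact measurable_const

theorem meas_FB (lam : ℝ) (n e : ℕ) (T : Finset (V D)) : Measurable (FB lam n e T) := by
  unfold FB
  split_ifs
  · exact (measurable_one.indicator (meas_Cl _)).const_mul _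
  · exact measurable_const

theorem pow_bound {ε lam : ℝ} (h0 : 0 ≤ ε) (h : ε ^ D * exp lam ≤ 2) (n : ℕ) :
    exp (lam * (2 * n)) * ε ^ (2 * D * n) ≤ 4 ^ n := by
  have e : exp (lam * (2 * n)) * ε ^ (2 * D * n) = ((ε ^ D * exp lam) ^ 2) ^ n := by
    rw [← pow_mul, mul_pow, ← pow_mul, ← exp_nat_mul, mul_comm]
    congr 2
    · ring
    · push_cast; ring
  rw [e]
  have : 0 ≤ ε ^ D * exp lam := by positivity
  gcongr
  nlinarith

theorem pow_sqrt {ε : ℝ} (h0 : 0 ≤ ε) (h1 : ε ≤ 1) {a e : ℕ} (h : e ≤ 2 * a) : ε ^ a ≤ √ε ^ e := by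
  calc ε ^ a = √ε ^ (2 * a) := by rw [pow_mul, sq_sqrt h0]
    _ ≤ _ := pow_le_pow_of_le_one (sqrt_nonneg _) (sqrt_le_one.2 h1) h

theorem int_FA (hM : MEASStmt) (hE : MBEStmt) (hD : 1 ≤ D) {p lam : ℝ} (h0 : 0 ≤ p) (h1 : p ≤ 1)
    (hw : (1 - p) ^ D * exp lam ≤ 2) (g : ℤ → ℝ≥0∞) (h n e : ℕ) (T : Finset (V D)) (u : V D) :
    ∫⁻ ω, FA g lam h n e T u ω ∂perc D p ≤
      ENNReal.ofReal (cc D n e * 4 ^ n * √(1 - p) ^ e) * MB D g p h := by
  unfold FA
  split_ifs with hs
  swap
  · simp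
  obtain ⟨s1, s2, s3, s4⟩ := hs
  have m1 : Measurable ((Cl (shA T u)).indicator (1 : Cfg D → ℝ≥0∞)) :=
    measurable_one.indicator (meas_Cl _)
  have m2 := ((hM D 0).2.2.2.1 g u).indicator (meas_RH hM u h)
  rw [lintegral_const_mul' _ _ ENNReal.ofReal_ne_top, ind D p h0 h1 _ _ (shA T u)
    {f | u 0 + 1 ≤ f.1 0 ∨ (f.1 0 = u 0 ∧ f.2 = 0)} m1 m2, lintegral_indicator_one (meas_Cl _),
    lintegral_indicator (meas_RH hM u h), RH, hE D hD p h0 h1, ← mul_assoc]
  · refine mul_le_mul' ((mul_le_mul' le_rfl (perc_Cl h0 h1 s4)).trans ?_) le_rfl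
    have := cc_nonneg D n e
    rw [← ENNReal.ofReal_mul (by positivity)]
    refine ENNReal.ofReal_le_ofReal ?_
    have a := pow_bound (D := D) (by linarith) hw n
    have b := pow_sqrt (ε := 1 - p) (by linarith) (by linarith) (a := e) (e := e) (by omega)
    have c : 0 ≤ (1 - p) ^ e := pow_nonneg (by linarith) _
    calc _ = cc D n e * (exp (lam * (2 * n)) * (1 - p) ^ (2 * D * n)) * (1 - p) ^ e := by
          rw [pow_add]; ring
      _ ≤ _ := by gcongr
  · intro ω ω' k
    have : ω ∈ Cl (shA T u) ↔ ω' ∈ Cl (shA T u) := iff_of_eq (dep_Cl (shA T u) ω ω' k)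
    by_cases c : ω ∈ Cl (shA T u)
    · rw [Set.indicator_of_mem c, Set.indicator_of_mem (this.1 c), Pi.one_apply, Pi.one_apply]
    · rw [Set.indicator_of_notMem c, Set.indicator_of_notMem (mt this.2 c)]
  · intro ω ω' k
    obtain ⟨k1, k2, k3⟩ := bush_congr u k
    have : ω ∈ RH u h ↔ ω' ∈ RH u h := by simp only [RH, Set.mem_ofPred_eq, k1, k2]
    by_cases c : ω ∈ RH u h
    · rw [Set.indicator_of_mem c, Set.indicator_of_mem (this.1 c), k3]
    · rw [Set.indicator_of_notMem c, Set.indicator_of_notMem (mt this.2 c)]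
  · refine Set.disjoint_left.2 fun f hf hf' => ?_
    obtain ⟨f1, f2⟩ := Finset.mem_erase.1 hf
    obtain ⟨f3, f4⟩ := Finset.mem_filter.1 (Finset.mem_of_mem_erase f2)
    have pos : (0 : ℤ) ≤ (Pi.single f.2 1 : V D) 0 := by
      rw [Pi.single_apply]; split_ifs <;> norm_num
    rcases hf' with c | ⟨c1, c2⟩
    · rcases mem_near'.1 f3 with d | d <;> have := s2 _ d
      · omega
      · simp only [Pi.add_apply] at this
        omega
    · rcases mem_near'.1 f3 with d | d
      · exact f1 (Prod.ext (by simpa [edge, fwd] using s3 _ d (c1.trans s1))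
          (by simpa [edge, fwd] using c2))
      · have := s2 _ d
        simp only [Pi.add_apply, c2, Pi.single_eq_same] at this
        omega

theorem int_FB {p lam : ℝ} (h0 : 0 ≤ p) (h1 : p ≤ 1)
    (hw : (1 - p) ^ D * exp lam ≤ 2) (n e : ℕ) (T : Finset (V D)) :
    ∫⁻ ω, FB lam n e T ω ∂perc D p ≤
      ENNReal.ofReal (2 * cc D n e * 4 ^ n * √(1 - p) ^ e) * ENNReal.ofReal (exp (-lam)) := by
  unfold FB
  split_ifs with hs
  swap
  · simp
  have hc := cc_nonneg D n e
  rw [lintegral_const_mul _ (measurable_one.indicator (meas_Cl _)),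
    lintegral_indicator_one (meas_Cl _)]
  refine (mul_le_mul' le_rfl (perc_Cl h0 h1 hs)).trans ?_
  rw [← ENNReal.ofReal_mul (by positivity), ← ENNReal.ofReal_mul (by positivity)]
  refine ENNReal.ofReal_le_ofReal ?_
  have hε : 0 ≤ 1 - p := by linarith
  have a := pow_bound (D := D) hε hw n
  unfold tp
  split_ifs with ht
  · obtain ⟨j, hj⟩ : ∃ j, e + 1 = D + j := ⟨e + 1 - D, by omega⟩
    have b := pow_sqrt (ε := 1 - p) hε (by linarith) (a := j) (e := e) (by omega)
    have c : (1 - p) ^ D ≤ 2 * exp (-lam) := by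
      rw [exp_neg, ← div_eq_mul_inv, le_div_iff₀ (exp_pos _)]; exact hw
    calc _ = cc D n e * (exp (lam * (2 * n)) * (1 - p) ^ (2 * D * n)) * (1 - p) ^ j *
          (1 - p) ^ D := by
          rw [add_assoc, hj, pow_add, pow_add]; push_cast; ring
      _ ≤ cc D n e * 4 ^ n * √(1 - p) ^ e * (2 * exp (-lam)) := by gcongr
      _ = _ := by ring
  · have b := pow_sqrt (ε := 1 - p) hε (by linarith) (a := e + 1) (e := e) (by omega)
    calc _ = cc D n e * (exp (lam * (2 * n)) * (1 - p) ^ (2 * D * n)) * (1 - p) ^ (e + 1) *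
          (1 * exp (-lam)) := by
          rw [add_assoc, pow_add]; push_cast
          rw [mul_sub, mul_one, sub_eq_add_neg (lam * _), exp_add]; ring
      _ ≤ cc D n e * 4 ^ n * √(1 - p) ^ e * (2 * exp (-lam)) := by gcongr; norm_num
      _ = _ := by ring

theorem count_nat (D C Q : ℕ) : ∃ K : ℕ, 1 ≤ K ∧ ∀ n e : ℕ, 1 ≤ e → n ≤ Q * e →
    (Q * e + 1) * (C ^ (2 * D * n + e + 1) * ((n * (e + 1) + 2) *
      ((1 + (2 * D + 2) * (n * (e + 1))) * (2 * n + 1) ^ 2 * 4 ^ n))) ≤ K ^ e := by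
  refine ⟨2 ^ Q * ((C + 1) ^ (2 * D * Q + 2) * ((3 * (2 ^ Q * 2)) *
    (((2 * D + 3) * (2 ^ Q * 2)) * (4 ^ Q) ^ 2 * 4 ^ Q))), Nat.one_le_iff_ne_zero.2 (by positivity),
    fun n e he hn => ?_⟩
  have a0 : ∀ a : ℕ, 1 ≤ a → a ≤ a ^ e := fun a ha => Nat.le_self_pow (by omega) a
  have a1 : n * (e + 1) ≤ (2 ^ Q * 2) ^ e := by
    rw [mul_pow, ← pow_mul]
    exact Nat.mul_le_mul (hn.trans Nat.lt_two_pow_self.le) Nat.lt_two_pow_self
  have a2 : 1 ≤ (2 ^ Q * 2) ^ e := Nat.one_le_iff_ne_zero.2 (by positivity)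
  have a3 : 4 ^ n ≤ (4 ^ Q) ^ e := by
    rw [← pow_mul]; exact Nat.pow_le_pow_right (by norm_num) hn
  have a4 : 2 * n + 1 ≤ 4 ^ n := by
    rw [show 4 = 2 ^ 2 from rfl, ← pow_mul]; exact Nat.lt_two_pow_self
  simp only [mul_pow (2 ^ Q) ((C + 1) ^ _ * _), mul_pow ((C + 1) ^ _), mul_pow (3 * _),
    mul_pow (_ * (4 ^ Q) ^ 2), mul_pow ((2 * D + 3) * _), mul_pow 3, mul_pow (2 * D + 3)]
  refine Nat.mul_le_mul ?_ (Nat.mul_le_mul ?_ (Nat.mul_le_mul ?_ (Nat.mul_le_mul
    (Nat.mul_le_mul ?_ ?_) a3)))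
  · rw [← pow_mul]; exact Nat.lt_two_pow_self
  · rw [← pow_mul]
    refine (Nat.pow_le_pow_left (Nat.le_succ C) _).trans (Nat.pow_le_pow_right (by omega) ?_)
    nlinarith [Nat.mul_le_mul_left (2 * D) hn]
  · nlinarith [Nat.mul_le_mul_right ((2 ^ Q * 2) ^ e) (a0 3 (by norm_num))]
  · nlinarith [Nat.mul_le_mul_right ((2 ^ Q * 2) ^ e) (a0 (2 * D + 3) (by omega)),
      Nat.mul_le_mul_left (2 * D + 2) a1]
  · rw [← pow_mul, mul_comm 2 e, pow_mul]
    exact Nat.pow_le_pow_left (a4.trans a3) 2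

end NastM

open NastM

theorem nast (hM : MEASStmt) (hR : RT2Stmt) (hC : CUTStmt) (hE : MBEStmt) : NASTStmt := by
  classical
  intro D hD Q hQ
  obtain ⟨C, hA⟩ := ani D (by omega)
  choose F hF hF' using hA (e0 D)
  obtain ⟨K, hK1, hK⟩ := count_nat D C (Q + 2)
  have K1 : (1 : ℝ) ≤ K := by exact_mod_cast hK1
  refine ⟨2 * K, (1 / (2 * K)) ^ 2, by linarith, by positivity,
    fun p lam h0 h1 hl hw k hk h ν => ?_⟩
  have hs : K * √(1 - p) ≤ 1 / 2 := by
    have : √(1 - p) ≤ 1 / (2 * K) := sqrt_le_iff.2 ⟨by positivity, by linarith⟩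
    rw [le_div_iff₀ (by positivity)] at this
    linarith
  have hp : 0 ≤ p := by
    have : (1 / (2 * (K : ℝ))) ^ 2 ≤ 1 :=
      pow_le_one₀ (by positivity) (by rw [div_le_one (by positivity)]; linarith)
    linarith
  set g := gk k lam with hg
  set X := MB D g p h + ENNReal.ofReal (exp (-lam)) with hX
  set G : ℕ → Cfg D → ℝ≥0∞ := fun e ω => ∑ n ∈ Finset.range ((Q + 2) * e + 1),
    ∑ T ∈ (F (2 * D * n + e + 1)).filter (fun T => T.card ≤ n * (e + 1)),
      (∑ u ∈ T, FA g lam h n e T u ω + FB lam n e T ω) with hG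
  have mT : ∀ n e (T : Finset (V D)),
      Measurable fun ω => ∑ u ∈ T, FA g lam h n e T u ω + FB lam n e T ω := fun n e T =>
    (Finset.measurable_sum _ fun u _ => meas_FA hM g lam h n e T u).add (meas_FB lam n e T)
  have mG : ∀ e, Measurable (G e) := fun e =>
    Finset.measurable_sum _ fun n _ => Finset.measurable_sum _ fun T _ => mT n e T
  have iG : ∀ e, 1 ≤ e → ∫⁻ ω, G e ω ∂perc D p ≤ ENNReal.ofReal ((K * √(1 - p)) ^ e) * X := by
    intro e he
    have b : ∀ n ∈ Finset.range ((Q + 2) * e + 1), ∫⁻ ω, ∑ T ∈ (F (2 * D * n + e + 1)).filter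
        (fun T => T.card ≤ n * (e + 1)), (∑ u ∈ T, FA g lam h n e T u ω + FB lam n e T ω)
          ∂perc D p ≤
        ENNReal.ofReal ((K * √(1 - p)) ^ e / ((Q + 2) * e + 1 : ℕ)) * X := by
      intro n hn
      have hc := cc_nonneg D n e
      rw [lintegral_finsetSum _ fun T _ => mT n e T]
      refine (Finset.sum_le_card_nsmul _ _ (ENNReal.ofReal (((n * (e + 1) + 2 : ℕ) : ℝ) *
        (cc D n e * 4 ^ n * √(1 - p) ^ e)) * X) fun T hT => ?_).trans ?_
      · have hT' := (Finset.mem_filter.1 hT).2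
        rw [lintegral_add_right _ (meas_FB lam n e T),
          lintegral_finsetSum _ fun u _ => meas_FA hM g lam h n e T u, hX, mul_add]
        refine add_le_add ((Finset.sum_le_card_nsmul _ _ _ fun u _ =>
          int_FA hM hE (by omega) hp h1 hw g h n e T u).trans ?_)
          ((int_FB hp h1 hw n e T).trans ?_)
        · rw [nsmul_eq_mul, ← mul_assoc, ← ENNReal.ofReal_natCast,
            ← ENNReal.ofReal_mul (Nat.cast_nonneg _)]
          refine mul_le_mul' (ENNReal.ofReal_le_ofReal ?_) le_rfl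
          gcongr
          exact hT'.trans (Nat.le_add_right _ _)
        · refine mul_le_mul' (ENNReal.ofReal_le_ofReal ?_) le_rfl
          rw [mul_assoc 2, mul_assoc 2]
          gcongr
          exact_mod_cast Nat.le_add_left _ _
      · rw [nsmul_eq_mul, ← mul_assoc, ← ENNReal.ofReal_natCast,
          ← ENNReal.ofReal_mul (Nat.cast_nonneg _)]
        refine mul_le_mul' (ENNReal.ofReal_le_ofReal ?_) le_rfl
        have c1 : (((F (2 * D * n + e + 1)).filter (fun T => T.card ≤ n * (e + 1))).card : ℝ) ≤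
            (C ^ (2 * D * n + e + 1) : ℕ) := by
          exact_mod_cast (Finset.card_filter_le _ _).trans (hF _)
        have c2 := (Nat.cast_le (α := ℝ)).2 (hK n e he (Nat.lt_succ_iff.1 (Finset.mem_range.1 hn)))
        rw [le_div_iff₀ (by positivity), mul_pow, ← Nat.cast_pow]
        refine le_trans ?_ (mul_le_mul_of_nonneg_right c2 (by positivity))
        refine (mul_le_mul_of_nonneg_right (mul_le_mul_of_nonneg_right c1 (by positivity))
          (by positivity)).trans (le_of_eq ?_)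
        unfold cc
        push_cast
        ring
    rw [hG, lintegral_finsetSum _ fun n _ => Finset.measurable_sum _ fun T _ => mT n e T]
    refine (Finset.sum_le_card_nsmul _ _ _ b).trans (le_of_eq ?_)
    rw [Finset.card_range, nsmul_eq_mul, ← mul_assoc, ← ENNReal.ofReal_natCast,
      ← ENNReal.ofReal_mul (Nat.cast_nonneg _), mul_div_cancel₀ _ (by positivity)]
  obtain ⟨-, r2, r3, -⟩ := hR D (by omega) 0
  have mS : ∀ S : Finset (V D), MeasurableSet
      {ω : Cfg D | (ht (e0 D) S ≤ h ∧ ¬ NuLe Q (exc S) ν) ∧ RootS ω 0 S} := fun S =>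
    (MeasurableSet.const _).inter ((r3 S).measurableSet (Finset.finite_toSet _))
  have e1 : MBad D g p h Q ν = ∫⁻ ω in ⋃ S : Finset (V D),
      {ω : Cfg D | (ht (e0 D) S ≤ h ∧ ¬ NuLe Q (exc S) ν) ∧ RootS ω 0 S}, pih g ω 0 ∂perc D p := by
    rw [lintegral_iUnion mS fun S S' hne => Set.disjoint_left.2 fun ω a b =>
      hne (r2 ω S S' (by simpa using a.2) (by simpa using b.2))]
    refine tsum_congr fun S => ?_
    split_ifs with c
    · simp only [c, not_false_eq_true, true_and, and_self]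
      rfl
    · simp [c]
  have pt : ∀ ω ∈ ⋃ S : Finset (V D),
      {ω : Cfg D | (ht (e0 D) S ≤ h ∧ ¬ NuLe Q (exc S) ν) ∧ RootS ω 0 S},
      pih g ω 0 ≤ ∑' j, G (ν + 1 + j) ω := by
    intro ω hω
    obtain ⟨S, ⟨s1, s2⟩, s3⟩ := Set.mem_iUnion.1 hω
    obtain ⟨T, n, e, t1, t2, t3, t4, t5, t6, t7, t8⟩ := hC D hD Q ν hQ ω S s3 s2
    obtain ⟨j, rfl⟩ := Nat.exists_eq_add_of_le t2
    refine le_trans ?_ (ENNReal.le_tsum j)
    refine le_trans ?_ (Finset.single_le_sum (f := fun n =>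
      ∑ T ∈ (F (2 * D * n + (ν + 1 + j) + 1)).filter (fun T => T.card ≤ n * (ν + 1 + j + 1)),
        (∑ u ∈ T, FA g lam h n (ν + 1 + j) T u ω + FB lam n (ν + 1 + j) T ω))
      (fun _ _ => zero_le) (Finset.mem_range.2 (Nat.lt_succ_of_le t4)))
    refine le_trans ?_ (Finset.single_le_sum (f := fun T => ∑ u ∈ T,
      FA g lam h n (ν + 1 + j) T u ω + FB lam n (ν + 1 + j) T ω) (fun _ _ => zero_le)
      (Finset.mem_filter.2 ⟨hF' _ T t1 t7, t6⟩))
    rcases t8 with ⟨u, u1, u2, u3, u4, u5, u6, u7, u8⟩ | ⟨v1, v2, v3, v4⟩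
    · refine le_trans ?_ le_self_add
      refine le_trans ?_ (Finset.single_le_sum (f := fun u => FA g lam h n (ν + 1 + j) T u ω)
        (fun _ _ => zero_le) u1)
      have hh := ((hR D (by omega) 0).2.2.2.2.2.2 ω S h (by simpa using s3)).1 s1
      have : ω ∈ RH u h := ⟨u3, fun z hz => by
        have := hh z (u5 hz)
        simp only [Pi.zero_apply] at this
        omega⟩
      rw [FA, if_pos ⟨u2, t5, u6, u8⟩, Set.indicator_of_mem this,
        Set.indicator_of_mem (show ω ∈ Cl (shA T u) from u7), Pi.one_apply, one_mul]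
      exact pih_A hk hl t6 t5 u2 u4
    · refine le_trans ?_ le_add_self
      rw [FB, if_pos (show _ ≤ (shB T).card from v3),
        Set.indicator_of_mem (show ω ∈ Cl (shB T) from v2), Pi.one_apply, mul_one]
      exact pih_B hk hl s3.1 t3 t6 t5 v1 v4
  have s0 : 0 ≤ K * √(1 - p) := by positivity
  calc MBad D g p h Q ν ≤ ∫⁻ ω, ∑' j, G (ν + 1 + j) ω ∂perc D p := by
        rw [e1]
        exact (setLIntegral_mono' (MeasurableSet.iUnion mS) pt).trans
          (setLIntegral_le_lintegral _ _)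
    _ = ∑' j, ∫⁻ ω, G (ν + 1 + j) ω ∂perc D p := lintegral_tsum fun j => (mG _).aemeasurable
    _ ≤ ∑' j : ℕ, ENNReal.ofReal ((K * √(1 - p)) ^ (ν + 1) * (1 / 2) ^ j) * X :=
        ENNReal.tsum_le_tsum fun j => (iG _ (by omega)).trans (mul_le_mul'
          (ENNReal.ofReal_le_ofReal (by rw [pow_add]; gcongr)) le_rfl)
    _ ≤ _ := by
        rw [ENNReal.tsum_mul_right, ← ENNReal.ofReal_tsum_of_nonneg (fun j => by positivity)
          (summable_geometric_two.mul_left _), tsum_mul_left, tsum_geometric_two]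
        refine mul_le_mul' (ENNReal.ofReal_le_ofReal ?_) le_rfl
        rw [mul_assoc 2, mul_pow 2, mul_comm]
        gcongr
        exact le_self_pow₀ (by norm_num) (by omega)

end Pool.Agent.MP_8c549f_pr

end MrgPart1

-- marker of a merged file
example : 731051 + 610972 = 731051 + 610972 := rfl
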