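import Pool.Agent.MP_8c549f_pr.Base2

-- ======== part 0: formerly Pool.Agent.MP_8c549f_pr.B2
section MrgPart0

/-!
Module BUSH: the time spent in bushes is almost convex and grows in the critical window.
-/

set_option autoImplicit false

namespace Pool.Agent.MP_8c549f_pr

open MeasureTheory Filter Topology Real
open scoped ENNReal NNReal

namespace BushM

variable {D : ℕ}

/-! ### weighted sums of the masses -/

noncomputable def Ee (k : ℕ) (x : ℝ) (m : ℤ) : ℝ := (m : ℝ) ^ k * exp (x * m)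

noncomputable def Pp (p : ℝ) (h k : ℕ) (x : ℝ) (S : Finset (V D)) : ℝ≥0∞ :=
  if ht (e0 D) S ≤ h then piS (gk k x) p S else 0

noncomputable def Sm (p : ℝ) (h : ℕ) (u : Finset (V D) → ℝ) (k : ℕ) (x : ℝ) : ℝ≥0∞ :=
  ∑' S : Finset (V D), ENNReal.ofReal (u S) * Pp p h k x S

theorem Ee_nonneg (k : ℕ) (x : ℝ) {m : ℤ} (hm : 1 ≤ m) : 0 ≤ Ee k x m := by
  have : (0 : ℝ) ≤ m := by exact_mod_cast (by omega : (0 : ℤ) ≤ m)
  unfold Ee
  positivity

theorem Pp_shape (hP : PISStmt) (p : ℝ) (h k : ℕ) (x : ℝ) {S : Finset (V D)}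
    (hS : ¬ Shape (e0 D) S) : Pp p h k x S = 0 := by
  unfold Pp
  split_ifs
  exacts [(hP D p S (gk k x) (gk k x)).2.2.2 hS, rfl]

theorem comb (hP : PISStmt) (p : ℝ) (h : ℕ) (S : Finset (V D)) {a₁ a₂ a₃ a₄ a₅ : ℝ}
    (h₁ : 0 ≤ a₁) (h₂ : 0 ≤ a₂) (h₃ : 0 ≤ a₃) (h₄ : 0 ≤ a₄) (h₅ : 0 ≤ a₅) {k₁ k₂ k₃ k₄ k₅ : ℕ}
    {x₁ x₂ x₃ x₄ x₅ : ℝ}
    (H : ∀ m : ℤ, 1 ≤ m → m ≤ 2 * h + 1 → a₁ * Ee k₁ x₁ m + a₂ * Ee k₂ x₂ m ≤
      a₃ * Ee k₃ x₃ m + a₄ * Ee k₄ x₄ m + a₅ * Ee k₅ x₅ m) :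
    ENNReal.ofReal a₁ * Pp p h k₁ x₁ S + ENNReal.ofReal a₂ * Pp p h k₂ x₂ S ≤
      ENNReal.ofReal a₃ * Pp p h k₃ x₃ S + ENNReal.ofReal a₄ * Pp p h k₄ x₄ S +
        ENNReal.ofReal a₅ * Pp p h k₅ x₅ S := by
  unfold Pp
  split_ifs with hh
  · have A := fun g g' => (hP D p S g g').1
    have M := fun g => (hP D p S g g).2.1
    rw [← M, ← M, ← M, ← M, ← M, ← A, ← A, ← A]
    refine (hP D p S _ _).2.2.1 h hh fun m m1 m2 => ?_
    have e : ∀ (a : ℝ) (k : ℕ) (x : ℝ), 0 ≤ a →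
        ENNReal.ofReal a * gk k x m = ENNReal.ofReal (a * Ee k x m) := fun a k x ha => by
      rw [ENNReal.ofReal_mul ha]; rfl
    have n : ∀ (a : ℝ) (k : ℕ) (x : ℝ), 0 ≤ a → 0 ≤ a * Ee k x m := fun a k x ha =>
      mul_nonneg ha (Ee_nonneg k x m1)
    rw [e _ _ _ h₁, e _ _ _ h₂, e _ _ _ h₃, e _ _ _ h₄, e _ _ _ h₅,
      ← ENNReal.ofReal_add (n _ _ _ h₁) (n _ _ _ h₂), ← ENNReal.ofReal_add (n _ _ _ h₃) (n _ _ _ h₄),
      ← ENNReal.ofReal_add (add_nonneg (n _ _ _ h₃) (n _ _ _ h₄)) (n _ _ _ h₅)]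
    exact ENNReal.ofReal_le_ofReal (H m m1 m2)
  · simp

theorem sum_le (hP : PISStmt) (p : ℝ) (h : ℕ) {u₁ u₂ u₃ u₄ u₅ : Finset (V D) → ℝ}
    (h₁ : ∀ S, 0 ≤ u₁ S) (h₂ : ∀ S, 0 ≤ u₂ S) (h₃ : ∀ S, 0 ≤ u₃ S) (h₄ : ∀ S, 0 ≤ u₄ S)
    (h₅ : ∀ S, 0 ≤ u₅ S) {k₁ k₂ k₃ k₄ k₅ : ℕ} {x₁ x₂ x₃ x₄ x₅ : ℝ}
    (H : ∀ S, Shape (e0 D) S → ∀ m : ℤ, 1 ≤ m → m ≤ 2 * h + 1 →
      u₁ S * Ee k₁ x₁ m + u₂ S * Ee k₂ x₂ m ≤
        u₃ S * Ee k₃ x₃ m + u₄ S * Ee k₄ x₄ m + u₅ S * Ee k₅ x₅ m) :
    Sm p h u₁ k₁ x₁ + Sm p h u₂ k₂ x₂ ≤ Sm p h u₃ k₃ x₃ + Sm p h u₄ k₄ x₄ + Sm p h u₅ k₅ x₅ := by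
  unfold Sm
  rw [← ENNReal.tsum_add, ← ENNReal.tsum_add, ← ENNReal.tsum_add]
  refine ENNReal.tsum_le_tsum fun S => ?_
  by_cases hS : Shape (e0 D) S
  · exact comb hP p h S (h₁ S) (h₂ S) (h₃ S) (h₄ S) (h₅ S) (H S hS)
  · simp [Pp_shape hP p h _ _ hS]

theorem Sm_mul (p : ℝ) (h : ℕ) {r : ℝ} (hr : 0 ≤ r) (u : Finset (V D) → ℝ) (k : ℕ) (x : ℝ) :
    Sm p h (fun S => r * u S) k x = ENNReal.ofReal r * Sm p h u k x := by
  unfold Sm
  rw [← ENNReal.tsum_mul_left]
  exact tsum_congr fun S => by rw [ENNReal.ofReal_mul hr, mul_assoc]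

/-- the real form, with scalar factors -/
theorem sum_le_real (hP : PISStmt) (p : ℝ) (h : ℕ) {u₁ u₂ u₃ u₄ u₅ : Finset (V D) → ℝ}
    (h₁ : ∀ S, 0 ≤ u₁ S) (h₂ : ∀ S, 0 ≤ u₂ S) (h₃ : ∀ S, 0 ≤ u₃ S) (h₄ : ∀ S, 0 ≤ u₄ S)
    (h₅ : ∀ S, 0 ≤ u₅ S) {r₁ r₂ r₃ r₄ r₅ : ℝ} (g₁ : 0 ≤ r₁) (g₂ : 0 ≤ r₂) (g₃ : 0 ≤ r₃)
    (g₄ : 0 ≤ r₄) (g₅ : 0 ≤ r₅) {k₁ k₂ k₃ k₄ k₅ : ℕ} {x₁ x₂ x₃ x₄ x₅ : ℝ}
    (f₁ : Sm p h u₁ k₁ x₁ ≠ ∞) (f₂ : Sm p h u₂ k₂ x₂ ≠ ∞) (f₃ : Sm p h u₃ k₃ x₃ ≠ ∞)
    (f₄ : Sm p h u₄ k₄ x₄ ≠ ∞) (f₅ : Sm p h u₅ k₅ x₅ ≠ ∞)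
    (H : ∀ S, Shape (e0 D) S → ∀ m : ℤ, 1 ≤ m → m ≤ 2 * h + 1 →
      r₁ * u₁ S * Ee k₁ x₁ m + r₂ * u₂ S * Ee k₂ x₂ m ≤
        r₃ * u₃ S * Ee k₃ x₃ m + r₄ * u₄ S * Ee k₄ x₄ m + r₅ * u₅ S * Ee k₅ x₅ m) :
    r₁ * (Sm p h u₁ k₁ x₁).toReal + r₂ * (Sm p h u₂ k₂ x₂).toReal ≤
      r₃ * (Sm p h u₃ k₃ x₃).toReal + r₄ * (Sm p h u₄ k₄ x₄).toReal +
        r₅ * (Sm p h u₅ k₅ x₅).toReal := by
  have K := sum_le hP p h (fun S => mul_nonneg g₁ (h₁ S)) (fun S => mul_nonneg g₂ (h₂ S))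
    (fun S => mul_nonneg g₃ (h₃ S)) (fun S => mul_nonneg g₄ (h₄ S))
    (fun S => mul_nonneg g₅ (h₅ S)) H
  rw [Sm_mul p h g₁, Sm_mul p h g₂, Sm_mul p h g₃, Sm_mul p h g₄, Sm_mul p h g₅] at K
  have t : ∀ (r : ℝ) {a : ℝ≥0∞}, a ≠ ∞ → ENNReal.ofReal r * a ≠ ∞ := fun r a ha =>
    ENNReal.mul_ne_top ENNReal.ofReal_ne_top ha
  have K' := ENNReal.toReal_mono
    (ENNReal.add_ne_top.2 ⟨ENNReal.add_ne_top.2 ⟨t _ f₃, t _ f₄⟩, t _ f₅⟩) K
  rw [ENNReal.toReal_add (t _ f₁) (t _ f₂),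
    ENNReal.toReal_add (ENNReal.add_ne_top.2 ⟨t _ f₃, t _ f₄⟩) (t _ f₅),
    ENNReal.toReal_add (t _ f₃) (t _ f₄)] at K'
  simpa only [ENNReal.toReal_mul, ENNReal.toReal_ofReal g₁, ENNReal.toReal_ofReal g₂,
    ENNReal.toReal_ofReal g₃, ENNReal.toReal_ofReal g₄, ENNReal.toReal_ofReal g₅] using K'

theorem Sm_one (p : ℝ) (h k : ℕ) (x : ℝ) :
    Sm (D := D) p h (fun _ => 1) k x = MB D (gk k x) p h := by
  simp [Sm, MB, Pp]

/-! ### the index of a shape -/

open Classical in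
noncomputable def nu (Q : ℕ) (S : Finset (V D)) : ℕ :=
  if h : ∃ ν, NuLe Q (exc S) ν then Nat.find h else 0

theorem nu_spec {Q : ℕ} {S : Finset (V D)} (h : ∃ ν, NuLe Q (exc S) ν) :
    NuLe Q (exc S) (nu Q S) := by
  classical
  unfold nu
  rw [dif_pos h]
  exact Nat.find_spec h

theorem nu_min {Q ν : ℕ} {S : Finset (V D)} (h : ν < nu Q S) : ¬ NuLe Q (exc S) ν := by
  classical
  unfold nu at h
  split_ifs at h with e
  · exact Nat.find_min e h
  · omega

noncomputable def ni (Q : ℕ) (S : Finset (V D)) : ℝ := if nu Q S = 0 then 1 else 0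

noncomputable def bw (Q : ℕ) (C : ℝ) (S : Finset (V D)) : ℝ :=
  if nu Q S = 0 then 0 else C ^ (nu Q S + 1)

theorem ni_nonneg (Q : ℕ) (S : Finset (V D)) : 0 ≤ ni Q S := by
  unfold ni; split_ifs <;> norm_num

theorem bw_nonneg (Q : ℕ) {C : ℝ} (hC : 1 ≤ C) (S : Finset (V D)) : 0 ≤ bw Q C S := by
  unfold bw
  split_ifs
  exacts [le_rfl, pow_nonneg (by linarith) _]

theorem geom {r : ℝ} (h0 : 0 ≤ r) (h1 : r ≤ 1 / 2) :
    ∑' ν : ℕ, ENNReal.ofReal (r ^ (ν + 1)) ≤ ENNReal.ofReal (2 * r) := by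
  have s : Summable fun ν : ℕ => r ^ (ν + 1) := by
    simpa only [pow_succ] using (summable_geometric_of_lt_one h0 (by linarith)).mul_right r
  rw [← ENNReal.ofReal_tsum_of_nonneg (fun ν => pow_nonneg h0 _) s]
  refine ENNReal.ofReal_le_ofReal ?_
  simp only [pow_succ]
  rw [tsum_mul_right, tsum_geometric_of_lt_one h0 (by linarith), inv_mul_le_iff₀ (by linarith)]
  nlinarith

/-- the weighted mass of the irregular shapes -/
theorem bad_le {p x C r : ℝ} {h k Q : ℕ} (hC : 1 ≤ C) (h0 : 0 ≤ r) (h1 : C * r ≤ 1 / 2)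
    {Y : ℝ≥0∞} (H : ∀ ν, MBad D (gk k x) p h Q ν ≤ ENNReal.ofReal (r ^ (ν + 1)) * Y) :
    Sm (D := D) p h (bw Q C) k x ≤ ENNReal.ofReal (2 * C ^ 2 * r) * Y := by
  classical
  have C0 : 0 ≤ C := by linarith
  calc Sm (D := D) p h (bw Q C) k x
      ≤ ∑' S : Finset (V D), ∑' ν : ℕ, ENNReal.ofReal (C ^ (ν + 2)) *
          (if ht (e0 D) S ≤ h ∧ ¬ NuLe Q (exc S) ν then piS (gk k x) p S else 0) := by
        refine ENNReal.tsum_le_tsum fun S => ?_
        unfold bw Pp
        by_cases a : nu Q S = 0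
        · simp [a]
        by_cases b : ht (e0 D) S ≤ h
        · obtain ⟨ν, e⟩ : ∃ ν, nu Q S = ν + 1 := ⟨nu Q S - 1, by omega⟩
          refine le_trans (le_of_eq ?_) (ENNReal.le_tsum ν)
          rw [if_neg a, if_pos b, if_pos ⟨b, nu_min (by omega)⟩, e]
        · simp [b]
    _ = ∑' ν : ℕ, ENNReal.ofReal (C ^ (ν + 2)) * MBad D (gk k x) p h Q ν := by
        rw [ENNReal.tsum_comm]
        exact tsum_congr fun ν => ENNReal.tsum_mul_left
    _ ≤ ∑' ν : ℕ, ENNReal.ofReal C * ENNReal.ofReal ((C * r) ^ (ν + 1)) * Y := by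
        refine ENNReal.tsum_le_tsum fun ν => (mul_le_mul_right (H ν) _).trans_eq ?_
        rw [← mul_assoc, ← ENNReal.ofReal_mul (pow_nonneg C0 _), ← ENNReal.ofReal_mul C0]
        congr 2
        ring
    _ ≤ ENNReal.ofReal (2 * C ^ 2 * r) * Y := by
        rw [ENNReal.tsum_mul_right, ENNReal.tsum_mul_left]
        refine mul_le_mul_left ((mul_le_mul_right (geom (mul_nonneg C0 h0) h1) _).trans_eq ?_) _
        rw [← ENNReal.ofReal_mul C0]
        congr 1
        ring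

/-! ### inequalities for one exponent -/

theorem second {m t F Fp Fm M : ℝ} (hm : 1 ≤ m) (ht : 0 ≤ t) (h1 : t * m ≤ 1) (hF : 0 ≤ F)
    (hM : 0 ≤ M) (a : |Fp + Fm - 2 * F| ≤ M * t ^ 2) (b : |Fp - Fm| ≤ M * (2 * t)) :
    2 * F + t ^ 2 * m ^ 2 * F ≤ Fp * exp (t * m) + Fm * exp (-(t * m)) + 6 * M * t ^ 2 * m ^ 2 := by
  set s := t * m with hs
  have s0 : 0 ≤ s := mul_nonneg ht (by linarith)
  have u1 : |exp s - 1 - s| ≤ s ^ 2 := abs_exp_sub_one_sub_id_le (by rwa [abs_of_nonneg s0])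
  have u2 : |exp (-s) - 1 - -s| ≤ (-s) ^ 2 :=
    abs_exp_sub_one_sub_id_le (by rwa [abs_neg, abs_of_nonneg s0])
  have c1 : 2 + s ^ 2 ≤ exp s + exp (-s) := by
    have := Real.cosh_eq s
    have k : 1 + s ^ 2 / 2 ≤ cosh s := by
      have q := Real.cosh_two_mul (s / 2)
      have q' := Real.cosh_sq (s / 2)
      have q'' : s / 2 ≤ sinh (s / 2) := Real.self_le_sinh_iff.2 (by linarith)
      rw [show 2 * (s / 2) = s by ring] at q
      nlinarith
    linarith
  have c2 : exp s + exp (-s) ≤ 4 := by nlinarith [abs_le.1 u1, abs_le.1 u2]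
  have c3 : exp s - exp (-s) ≤ 4 * s := by nlinarith [abs_le.1 u1, abs_le.1 u2]
  have c4 : 0 ≤ exp s - exp (-s) := sub_nonneg.2 (exp_le_exp.2 (by linarith))
  have a' := (abs_le.1 a).1
  have b' := (abs_le.1 b).1
  have e1 : -(4 * (M * t ^ 2)) ≤ (exp s + exp (-s)) * (Fp + Fm - 2 * F) := by
    have := mul_le_mul_of_nonneg_left a' (show 0 ≤ exp s + exp (-s) by positivity)
    nlinarith [mul_nonneg hM (sq_nonneg t)]
  have e2 : -(4 * s * (M * (2 * t))) ≤ (exp s - exp (-s)) * (Fp - Fm) := by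
    have := mul_le_mul_of_nonneg_left b' c4
    nlinarith [mul_nonneg hM ht]
  have e3 : (2 + s ^ 2) * F ≤ (exp s + exp (-s)) * F := mul_le_mul_of_nonneg_right c1 hF
  have e4 : M * t ^ 2 ≤ M * t ^ 2 * m ^ 2 :=
    le_mul_of_one_le_right (mul_nonneg hM (sq_nonneg t)) (one_le_pow₀ hm)
  have e5 : M * t ^ 2 * m ≤ M * t ^ 2 * m ^ 2 :=
    mul_le_mul_of_nonneg_left (by nlinarith) (mul_nonneg hM (sq_nonneg t))
  have e6 : s * (M * t) = M * t ^ 2 * m := by rw [hs]; ring
  have e7 : s ^ 2 = t ^ 2 * m ^ 2 := by rw [hs]; ring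
  rw [e7] at e3
  nlinarith

theorem first {m t F G M : ℝ} (hm : 1 ≤ m) (ht : 0 ≤ t) (h1 : t ≤ 1) (hG : 0 ≤ G) (hM : 0 ≤ M)
    (a : |G - F| ≤ M * t) : (1 + t) * F ≤ G * exp (t * m) + 2 * M * t := by
  have e1 : 1 + t ≤ exp (t * m) := by nlinarith [add_one_le_exp (t * m)]
  have e2 := mul_le_mul_of_nonneg_left e1 hG
  have e3 := mul_le_mul_of_nonneg_left (abs_le.1 a).1 (show 0 ≤ 1 + t by linarith)
  nlinarith [mul_nonneg hM ht]

theorem lips {m N x y β F G M : ℝ} (hm : 1 ≤ m) (hN : m ≤ N) (hy : y ≤ β)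
    (hF : 0 ≤ F) (hM : F ≤ M) (a : |G - F| ≤ M * |y - x|) :
    G * exp (y * m) ≤ F * exp (x * m) + |y - x| * (N + 1) * M * exp (β * m) := by
  have m0 : 0 ≤ m := by linarith
  have M0 : 0 ≤ M := hF.trans hM
  have d0 := abs_nonneg (y - x)
  have b1 : exp (y * m) ≤ exp (β * m) := exp_le_exp.2 (mul_le_mul_of_nonneg_right hy m0)
  have b2 : exp (y * m) - exp (x * m) ≤ |y - x| * N * exp (β * m) := by
    have k : exp (x * m) = exp (y * m) * exp ((x - y) * m) := by rw [← exp_add]; congr 1; ring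
    have l := add_one_le_exp ((x - y) * m)
    have l' : -((x - y) * m) ≤ |y - x| * N :=
      calc -((x - y) * m) = (y - x) * m := by ring
        _ ≤ |y - x| * m := mul_le_mul_of_nonneg_right (le_abs_self _) m0
        _ ≤ |y - x| * N := mul_le_mul_of_nonneg_left hN d0
    have l'' : 0 ≤ |y - x| * N := mul_nonneg d0 (by linarith)
    have p1 := exp_pos (y * m)
    rw [k]
    nlinarith [mul_le_mul_of_nonneg_left b1 l'', mul_le_mul_of_nonneg_left l p1.le,
      mul_le_mul_of_nonneg_left l' p1.le]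
  have c1 : (G - F) * exp (y * m) ≤ M * |y - x| * exp (β * m) :=
    mul_le_mul ((le_abs_self _).trans a) b1 (exp_pos _).le (mul_nonneg M0 d0)
  have c2 : F * (exp (y * m) - exp (x * m)) ≤ M * (|y - x| * N * exp (β * m)) :=
    (mul_le_mul_of_nonneg_left b2 hF).trans (mul_le_mul_of_nonneg_right hM
      (mul_nonneg (mul_nonneg d0 (by linarith)) (exp_pos _).le))
  nlinarith

theorem ctl_abs {f : ℝ → ℝ} {α β M x y : ℝ} (h : Ctl f α β M) (hx : x ∈ Set.Icc α β)
    (hy : y ∈ Set.Icc α β) : |f y - f x| ≤ M * |y - x| := by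
  rcases le_total x y with e | e
  · rw [abs_of_nonneg (sub_nonneg.2 e)]; exact h.1 x y hx.1 e hy.2
  · rw [abs_sub_comm, abs_sub_comm y, abs_of_nonneg (sub_nonneg.2 e)]; exact h.1 y x hy.1 e hx.2

/-! ### one window, one height -/

/-- the hypotheses for a fixed window -/
structure Hy (D Q : ℕ) (p α β c C σ : ℝ) (h : ℕ) : Prop where
  c0 : 0 < c
  C1 : 1 ≤ C
  s0 : 0 ≤ σ
  s1 : σ ≤ 1 / 2
  ab : β ≤ α + 1
  out : ∀ S : Finset (V D), Shape (e0 D) S →
    (∀ x ∈ Set.Icc α β, PhiS p x S ≤ ENNReal.ofReal (C ^ (nu Q S + 1))) ∧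
    Ctl (fun x => (PhiS p x S).toReal) α β (C ^ (nu Q S + 1)) ∧
    (nu Q S = 0 → (∀ x ∈ Set.Icc α β, ENNReal.ofReal c ≤ PhiS p x S) ∧
      Ctl (fun x => (PhiS p x S).toReal) α β (c / 12))
  fin : ∀ x ∈ Set.Icc α β, ∀ k, MB D (gk k x) p h ≠ ∞
  bad : ∀ x ∈ Set.Icc α β, ∀ k ≤ 2, Sm (D := D) p h (bw Q C) k x ≤
    ENNReal.ofReal σ * (MB D (gk k x) p h + ENNReal.ofReal (exp (-x)))

noncomputable def Ph (p x : ℝ) (S : Finset (V D)) : ℝ := (PhiS p x S).toReal

theorem Ph_nonneg (p x : ℝ) (S : Finset (V D)) : 0 ≤ Ph p x S := ENNReal.toReal_nonneg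

variable {Q h : ℕ} {p α β c C σ : ℝ}

theorem Hy.le (H : Hy D Q p α β c C σ h) {S : Finset (V D)} (hS : Shape (e0 D) S) {x : ℝ}
    (hx : x ∈ Set.Icc α β) : Ph p x S ≤ C ^ (nu Q S + 1) :=
  ENNReal.toReal_le_of_le_ofReal (pow_nonneg (by linarith [H.C1]) _) ((H.out S hS).1 x hx)

theorem Hy.ge (H : Hy D Q p α β c C σ h) {S : Finset (V D)} (hS : Shape (e0 D) S)
    (h0 : nu Q S = 0) {x : ℝ} (hx : x ∈ Set.Icc α β) : c ≤ Ph p x S :=
  (ENNReal.ofReal_le_iff_le_toReal
    (ne_top_of_le_ne_top ENNReal.ofReal_ne_top ((H.out S hS).1 x hx))).1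
    (((H.out S hS).2.2 h0).1 x hx)

theorem Hy.abu (hP : PISStmt) (H : Hy D Q p α β c C σ h) {x : ℝ} (hx : x ∈ Set.Icc α β) :
    ABu D p x h = Sm (D := D) p h (Ph p x) 0 x := by
  refine tsum_congr fun S => ?_
  by_cases hS : Shape (e0 D) S
  · unfold Pp Ph
    rw [ENNReal.ofReal_toReal (ne_top_of_le_ne_top ENNReal.ofReal_ne_top ((H.out S hS).1 x hx))]
    split_ifs
    exacts [mul_comm _ _, (mul_zero _).symm]
  · rw [Pp_shape hP p h _ _ hS, (hP D p S _ (gk 0 x)).2.2.2 hS]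
    simp

theorem Hy.fin_bw (H : Hy D Q p α β c C σ h) {x : ℝ} (hx : x ∈ Set.Icc α β) {k : ℕ} (hk : k ≤ 2) :
    Sm (D := D) p h (bw Q C) k x ≠ ∞ :=
  ne_top_of_le_ne_top (ENNReal.mul_ne_top ENNReal.ofReal_ne_top
    (ENNReal.add_ne_top.2 ⟨H.fin x hx k, ENNReal.ofReal_ne_top⟩)) (H.bad x hx k hk)

theorem Hy.fin_of (hP : PISStmt) (H : Hy D Q p α β c C σ h) {x : ℝ} (hx : x ∈ Set.Icc α β) {k : ℕ}
    (hk : k ≤ 2) {u : Finset (V D) → ℝ} (u0 : ∀ S, 0 ≤ u S)
    (u1 : ∀ S, Shape (e0 D) S → u S ≤ C ^ (nu Q S + 1)) : Sm p h u k x ≠ ∞ := by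
  have C0 : 0 ≤ C := by linarith [H.C1]
  have K := sum_le hP p h (u₂ := fun S => 0 * 1) (u₃ := fun S => C * 1) (u₅ := fun S => 0 * 1)
    u0 (by simp) (by simpa using C0) (bw_nonneg Q H.C1) (by simp)
    (k₁ := k) (k₂ := k) (k₃ := k) (k₄ := k) (k₅ := k)
    (x₁ := x) (x₂ := x) (x₃ := x) (x₄ := x) (x₅ := x) fun S hS m m1 _ => by
      have e := mul_le_mul_of_nonneg_right (u1 S hS) (Ee_nonneg k x m1)
      have n := Ee_nonneg k x m1
      unfold bw
      split_ifs with a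
      · rw [a] at e; simpa using e
      · nlinarith
  rw [Sm_mul p h le_rfl, Sm_mul p h C0, Sm_one] at K
  simp only [ENNReal.ofReal_zero, zero_mul, add_zero] at K
  exact ne_top_of_le_ne_top (ENNReal.add_ne_top.2
    ⟨ENNReal.mul_ne_top ENNReal.ofReal_ne_top (H.fin x hx k), H.fin_bw hx hk⟩) K

theorem Hy.fin_ni (hP : PISStmt) (H : Hy D Q p α β c C σ h) {x : ℝ} (hx : x ∈ Set.Icc α β) {k : ℕ}
    (hk : k ≤ 2) : Sm (D := D) p h (ni Q) k x ≠ ∞ :=
  H.fin_of hP hx hk (ni_nonneg Q) fun S _ => by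
    have := one_le_pow₀ (n := nu Q S + 1) H.C1
    unfold ni
    split_ifs <;> linarith

theorem Hy.fin_ph (hP : PISStmt) (H : Hy D Q p α β c C σ h) {x : ℝ} (hx : x ∈ Set.Icc α β) :
    Sm (D := D) p h (Ph p x) 0 x ≠ ∞ :=
  H.fin_of hP hx (by norm_num) (Ph_nonneg p x) fun _ hS => H.le hS hx

/-- the irregular shapes are dominated by the regular ones -/
theorem Hy.dom (hP : PISStmt) (H : Hy D Q p α β c C σ h) {x : ℝ} (hx : x ∈ Set.Icc α β) {k : ℕ}
    (hk : k ≤ 2) : (Sm (D := D) p h (bw Q C) k x).toReal ≤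
      2 * σ * ((Sm (D := D) p h (ni Q) k x).toReal + exp (-α)) := by
  have f1 : Sm (D := D) p h (fun _ => 1) k x ≠ ∞ := by rw [Sm_one]; exact H.fin x hx k
  have A := sum_le_real hP p h (u₁ := fun _ => 1) (u₂ := fun _ => 1) (u₅ := fun _ => 1)
    (by simp) (by simp) (ni_nonneg Q) (bw_nonneg Q H.C1) (by simp) zero_le_one le_rfl zero_le_one
    zero_le_one le_rfl f1 f1 (H.fin_ni hP hx hk) (H.fin_bw hx hk) f1 fun S _ m m1 _ => by
      have n := Ee_nonneg k x m1
      have := mul_le_mul_of_nonneg_right (one_le_pow₀ (n := nu Q S + 1) H.C1) n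
      unfold ni bw
      split_ifs <;> linarith
  have B := ENNReal.toReal_mono (ENNReal.mul_ne_top ENNReal.ofReal_ne_top
    (ENNReal.add_ne_top.2 ⟨H.fin x hx k, ENNReal.ofReal_ne_top⟩)) (H.bad x hx k hk)
  rw [ENNReal.toReal_mul, ENNReal.toReal_add (H.fin x hx k) ENNReal.ofReal_ne_top,
    ENNReal.toReal_ofReal H.s0, ENNReal.toReal_ofReal (exp_pos _).le, ← Sm_one] at B
  have e : exp (-x) ≤ exp (-α) := exp_le_exp.2 (by linarith [hx.1])
  have n : 0 ≤ (Sm (D := D) p h (bw Q C) k x).toReal := ENNReal.toReal_nonneg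
  nlinarith [mul_le_mul_of_nonneg_left A H.s0, mul_le_mul_of_nonneg_left e H.s0,
    mul_le_mul_of_nonneg_right H.s1 n]

theorem Ee_zero (x : ℝ) (m : ℤ) : Ee 0 x m = exp (x * m) := by simp [Ee]

theorem Hy.conv (hP : PISStmt) (H : Hy D Q p α β c C σ h) {ζ : ℝ} (h1 : 24 * σ ≤ c)
    (h2 : 12 * σ ≤ ζ) {x t : ℝ} (t0 : 0 ≤ t) (t1 : t ≤ 1 / (2 * h + 1)) (a : α ≤ x - t)
    (b : x + t ≤ β) :
    2 * (ABu D p x h).toReal ≤ (ABu D p (x + t) h).toReal + (ABu D p (x - t) h).toReal +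
      ζ * exp (-α) * t ^ 2 := by
  have hx : x ∈ Set.Icc α β := ⟨by linarith, by linarith⟩
  have hp : x + t ∈ Set.Icc α β := ⟨by linarith, b⟩
  have hm : x - t ∈ Set.Icc α β := ⟨a, by linarith⟩
  have c0 := H.c0
  have t2 := sq_nonneg t
  rw [H.abu hP hx, H.abu hP hp, H.abu hP hm]
  have A := sum_le_real hP p h (Ph_nonneg p x) (ni_nonneg Q) (Ph_nonneg p (x + t))
    (Ph_nonneg p (x - t)) (bw_nonneg Q H.C1) zero_le_two
    (show 0 ≤ c / 2 * t ^ 2 by positivity) zero_le_one zero_le_one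
    (show 0 ≤ 6 * t ^ 2 by positivity) (H.fin_ph hP hx) (H.fin_ni hP hx le_rfl) (H.fin_ph hP hp)
    (H.fin_ph hP hm) (H.fin_bw hx le_rfl) fun S hS m m1 m2 => by
      have m1' : (1 : ℝ) ≤ m := by exact_mod_cast m1
      have m2' : (m : ℝ) ≤ 2 * h + 1 := by exact_mod_cast m2
      have tm : t * m ≤ 1 := by
        rw [le_div_iff₀ (by positivity)] at t1
        nlinarith
      have key : ∀ M, 0 ≤ M → Ctl (fun x => (PhiS p x S).toReal) α β M →
          2 * Ph p x S + t ^ 2 * m ^ 2 * Ph p x S ≤ Ph p (x + t) S * exp (t * m) +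
            Ph p (x - t) S * exp (-(t * m)) + 6 * M * t ^ 2 * m ^ 2 := fun M M0 hc =>
        second m1' t0 tm (Ph_nonneg p x S) M0 (hc.2 x t t0 a b) (by
          have := hc.1 (x - t) (x + t) a (by linarith) b
          rwa [show x + t - (x - t) = 2 * t by ring] at this)
      have e1 : exp ((x + t) * m) = exp (x * m) * exp (t * m) := by rw [← exp_add, add_mul]
      have e2 : exp ((x - t) * m) = exp (x * m) * exp (-(t * m)) := by
        rw [← exp_add, sub_mul, sub_eq_add_neg]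
      have X := exp_pos (x * m)
      have tm2 : 0 ≤ t ^ 2 * (m : ℝ) ^ 2 := by positivity
      rw [Ee_zero, Ee_zero, Ee_zero, e1, e2]
      unfold Ee ni bw
      split_ifs with z
      · have k := key _ (by positivity) ((H.out S hS).2.2 z).2
        have l := mul_le_mul_of_nonneg_left (H.ge hS z hx) tm2
        have k' : 2 * Ph p x S + c / 2 * t ^ 2 * m ^ 2 ≤ Ph p (x + t) S * exp (t * m) +
            Ph p (x - t) S * exp (-(t * m)) := by nlinarith
        nlinarith [mul_le_mul_of_nonneg_left k' X.le]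
      · have k := key _ (pow_nonneg (by linarith [H.C1]) _) (H.out S hS).2.1
        have l := mul_nonneg tm2 (Ph_nonneg p x S)
        have k' : 2 * Ph p x S ≤ Ph p (x + t) S * exp (t * m) +
            Ph p (x - t) S * exp (-(t * m)) + 6 * C ^ (nu Q S + 1) * t ^ 2 * m ^ 2 := by linarith
        nlinarith [mul_le_mul_of_nonneg_left k' X.le]
  have B := mul_le_mul_of_nonneg_left (H.dom hP hx le_rfl) (show 0 ≤ 6 * t ^ 2 by positivity)
  have n : 0 ≤ (Sm (D := D) p h (ni Q) 2 x).toReal := ENNReal.toReal_nonneg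
  have i1 := mul_le_mul_of_nonneg_right h1 (mul_nonneg t2 n)
  have i2 := mul_le_mul_of_nonneg_right h2 (mul_nonneg t2 (exp_pos (-α)).le)
  nlinarith

theorem Hy.grow (hP : PISStmt) (H : Hy D Q p α β c C σ h) {ζ : ℝ} (h1 : 24 * σ ≤ c)
    (h2 : 12 * σ ≤ ζ) {x y : ℝ} (a : α ≤ x) (xy : x ≤ y) (b : y ≤ β) :
    (y - x) * (1 / 2 * (ABu D p x h).toReal - ζ * exp (-α)) ≤
      (ABu D p y h).toReal - (ABu D p x h).toReal := by
  have hx : x ∈ Set.Icc α β := ⟨a, by linarith⟩
  have hy : y ∈ Set.Icc α β := ⟨by linarith, b⟩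
  have c0 := H.c0
  obtain ⟨t, rfl⟩ : ∃ t, y = x + t := ⟨y - x, by ring⟩
  have t0 : 0 ≤ t := by linarith
  have t1 : t ≤ 1 := by linarith [H.ab]
  rw [H.abu hP hx, H.abu hP hy]
  have A := sum_le_real hP p h (Ph_nonneg p x) (ni_nonneg Q) (Ph_nonneg p (x + t))
    (Ph_nonneg p x) (bw_nonneg Q H.C1) (show 0 ≤ 1 + t / 2 by positivity)
    (show 0 ≤ c / 3 * t by positivity) zero_le_one le_rfl
    (show 0 ≤ 2 * t by positivity) (H.fin_ph hP hx) (H.fin_ni hP hx (Nat.zero_le 2))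
    (H.fin_ph hP hy) (H.fin_ph hP hx) (H.fin_bw hx (Nat.zero_le 2)) fun S hS m m1 _ => by
      have m1' : (1 : ℝ) ≤ m := by exact_mod_cast m1
      have key : ∀ M, 0 ≤ M → Ctl (fun x => (PhiS p x S).toReal) α β M →
          (1 + t) * Ph p x S ≤ Ph p (x + t) S * exp (t * m) + 2 * M * t := fun M M0 hc =>
        first m1' t0 t1 (Ph_nonneg p _ S) M0 (by
          have := hc.1 x (x + t) a xy b
          rwa [add_sub_cancel_left] at this)
      have e1 : exp ((x + t) * m) = exp (x * m) * exp (t * m) := by rw [← exp_add, add_mul]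
      have X := exp_pos (x * m)
      rw [Ee_zero, Ee_zero, e1]
      unfold ni bw
      split_ifs with z
      · have k := key _ (by positivity) ((H.out S hS).2.2 z).2
        have l := mul_le_mul_of_nonneg_left (H.ge hS z hx) t0
        have k' : (1 + t / 2) * Ph p x S + c / 3 * t ≤ Ph p (x + t) S * exp (t * m) := by
          nlinarith
        nlinarith [mul_le_mul_of_nonneg_left k' X.le]
      · have k := key _ (pow_nonneg (by linarith [H.C1]) _) (H.out S hS).2.1
        have l := mul_nonneg t0 (Ph_nonneg p x S)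
        have k' : (1 + t / 2) * Ph p x S ≤ Ph p (x + t) S * exp (t * m) +
            2 * C ^ (nu Q S + 1) * t := by linarith
        nlinarith [mul_le_mul_of_nonneg_left k' X.le]
  have B := mul_le_mul_of_nonneg_left (H.dom hP hx (Nat.zero_le 2)) (show 0 ≤ 2 * t by positivity)
  have n : 0 ≤ (Sm (D := D) p h (ni Q) 0 x).toReal := ENNReal.toReal_nonneg
  have i1 := mul_le_mul_of_nonneg_right h1 (mul_nonneg t0 n)
  have i2 := mul_le_mul_of_nonneg_right h2 (mul_nonneg t0 (exp_pos (-α)).le)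
  have i3 := mul_nonneg H.s0 (mul_nonneg t0 (exp_pos (-α)).le)
  have i4 := mul_nonneg c0.le (mul_nonneg t0 n)
  rw [add_sub_cancel_left]
  nlinarith

theorem Hy.cont (hP : PISStmt) (H : Hy D Q p α β c C σ h) (hab : α ≤ β) :
    ContinuousOn (fun x => (ABu D p x h).toReal) (Set.Icc α β) := by
  have hb : β ∈ Set.Icc α β := ⟨hab, le_rfl⟩
  have T0 : ∀ S : Finset (V D), 0 ≤ C ^ (nu Q S + 1) := fun S => pow_nonneg (by linarith [H.C1]) _
  have fT := H.fin_of hP hb (Nat.zero_le 2) T0 fun _ _ => le_rfl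
  set L := (2 * h + 1 + 1) * (Sm (D := D) p h (fun S => C ^ (nu Q S + 1)) 0 β).toReal with hL
  have L0 : 0 ≤ L := mul_nonneg (by positivity) ENNReal.toReal_nonneg
  have key : ∀ x ∈ Set.Icc α β, ∀ y ∈ Set.Icc α β,
      (ABu D p y h).toReal - (ABu D p x h).toReal ≤ L * |y - x| := fun x hx y hy => by
    rw [H.abu hP hx, H.abu hP hy]
    have A := sum_le_real hP p h (Ph_nonneg p y) (Ph_nonneg p y) (Ph_nonneg p x)
      (Ph_nonneg p x) T0 zero_le_one le_rfl zero_le_one le_rfl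
      (show 0 ≤ |y - x| * (2 * h + 1 + 1) by positivity) (H.fin_ph hP hy) (H.fin_ph hP hy)
      (H.fin_ph hP hx) (H.fin_ph hP hx) fT fun S hS m m1 m2 => by
        have m1' : (1 : ℝ) ≤ m := by exact_mod_cast m1
        have m2' : (m : ℝ) ≤ 2 * h + 1 := by exact_mod_cast m2
        have := lips m1' m2' hy.2 (Ph_nonneg p x S) (H.le hS hx)
          (ctl_abs (H.out S hS).2.1 hx hy)
        rw [Ee_zero, Ee_zero, Ee_zero]
        unfold Ph at this ⊢
        linarith
    rw [hL]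
    linarith
  refine (LipschitzOnWith.of_dist_le_mul (K := ⟨L, L0⟩) fun x hx y hy => ?_).continuousOn
  rw [Real.dist_eq, Real.dist_eq]
  refine abs_le.2 ⟨?_, key y hy x hx⟩
  have := key x hx y hy
  rw [abs_sub_comm] at this
  change -(L * |x - y|) ≤ _
  linarith

end BushM

open BushM in
theorem bush (hP : PISStmt) (hF : PROFStmt) (hK : KOUTStmt) (hM : MFINStmt) (hN : NASTStmt) :
    BUSHStmt := by
  intro D hD
  obtain ⟨Q, c, C, Q1, c0, C1, hK⟩ := hK D hD
  obtain ⟨C', e₁, C1', e1, hN⟩ := hN D hD Q Q1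
  obtain ⟨e₂, e2, hM⟩ := hM D (by omega)
  obtain ⟨e₃, e3, hK⟩ := hK (c / 12) (by positivity)
  obtain ⟨e₄, e4, hW⟩ := win_mu hD 0
  refine ⟨1 / 2, by norm_num, fun ζ z0 => ?_⟩
  set σ : ℝ := min (1 / 2) (min (c / 24) (ζ / 12)) with hσ
  have s0 : 0 < σ := by positivity
  have s1 : σ ≤ 1 / 2 := min_le_left _ _
  have s2 : σ ≤ c / 24 := (min_le_right _ _).trans (min_le_left _ _)
  have s3 : σ ≤ ζ / 12 := (min_le_right _ _).trans (min_le_right _ _)
  set η : ℝ := σ / (2 * C ^ 2 * C') with hη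
  have η0 : 0 < η := by positivity
  refine ⟨min (min e₁ e₂) (min (min e₃ e₄) (η ^ 2)), by positivity, fun p α β hp W h => ?_⟩
  have q' := min_le_left (min e₁ e₂) (min (min e₃ e₄) (η ^ 2))
  have p1 : 1 - e₁ ≤ p := by linarith [q'.trans (min_le_left e₁ e₂)]
  have p2 : 1 - e₂ ≤ p := by linarith [q'.trans (min_le_right e₁ e₂)]
  have q := min_le_right (min e₁ e₂) (min (min e₃ e₄) (η ^ 2))
  have p3 : 1 - e₃ ≤ p := by linarith [q.trans ((min_le_left _ _).trans (min_le_left e₃ e₄))]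
  have p4 : 1 - e₄ ≤ p := by linarith [q.trans ((min_le_left _ _).trans (min_le_right e₃ e₄))]
  have p5 : √(1 - p) ≤ η := by
    rw [Real.sqrt_le_left η0.le]
    linarith [q.trans (min_le_right _ _)]
  have x0 : ∀ x ∈ Set.Icc α β, 0 ≤ x := fun x hx => by
    obtain ⟨μ, m0, -, -, m1, -⟩ := hW p x p4 W.1 (W.mem hx).1 (W.mem hx).2
    linarith
  have r0 : 0 ≤ C' * √(1 - p) := by positivity
  have r1 : 2 * C ^ 2 * (C' * √(1 - p)) ≤ σ := by
    have := mul_le_mul_of_nonneg_left p5 (show 0 ≤ 2 * C ^ 2 * C' by positivity)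
    rw [hη, mul_div_cancel₀ _ (by positivity)] at this
    linarith
  have r2 : C * (C' * √(1 - p)) ≤ 1 / 2 := by nlinarith [mul_nonneg (sub_nonneg.2 C1) r0]
  have H : Hy D Q p α β c C σ h :=
    ⟨c0, C1, s0.le, s1, W.2.2.1, fun S hS => hK p α β p3 W S hS _ (nu_spec (((hF D hD).2 S hS).1 Q Q1)),
      fun x hx k => hM p x p2 W.1.le (x0 x hx) k h, fun x hx k hk =>
        (bad_le C1 r0 r2 fun ν => hN p x p1 W.1.le (x0 x hx) (W.mem hx).2 k hk h ν).trans
          (mul_le_mul_left (ENNReal.ofReal_le_ofReal r1) _)⟩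
  refine ⟨fun x hx => ?_, H.cont hP W.2.1, ⟨1 / (2 * h + 1), by positivity, fun x t a b c d =>
    H.conv hP (by linarith) (by linarith) a b c d⟩, fun x y a b c =>
    H.grow hP (by linarith) (by linarith) a b c⟩
  rw [H.abu hP hx]
  exact H.fin_ph hP hx

end Pool.Agent.MP_8c549f_pr

/-!
Complements to the first part: reversibility, the energy bound along a given path, filled
clusters, exits through a backward edge, and the lateral boundary of a level with two sites.
-/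

set_option autoImplicit false

namespace Pool.Agent.MP_8c549f_pr

open Filter Topology Real Relation Finset
open scoped ENNReal NNReal

namespace CompM

open Res

variable {D : ℕ} (lam : ℝ) (ω : Cfg D) (B : Finset (V D))

theorem value_le (hlam : 0 ≤ lam) {x : V D} {t : ℤ} {l : List (Step D)} (hout : x + pos l ∉ B)
    (hp : ∀ (i : ℕ) (h : i < l.length),
      ω (edge (x + loc l i) l[i]) = true ∧ t ≤ expo (x + loc l i) l[i]) (u : V D → ℝ)
    (h0 : ∀ z, 0 ≤ u z) (h1 : ∀ z, z ∉ B → u z = 0)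
    (h2 : ∀ z ∈ B, u z ≤ (if z = x then 1 else 0) + ∑ s, pr lam ω z s * u (z + vec s)) :
    u x ≤ (l.length : ℝ) ^ 2 * Res.pi lam ω x / exp (lam * t) := by
  have hκ := exp_pos (lam * t)
  have hE0 : 0 ≤ Res.pi lam ω x * u x / exp (lam * t) :=
    div_nonneg (mul_nonneg (pi_nonneg lam ω x) (h0 x)) hκ.le
  set δ := √(Res.pi lam ω x * u x / exp (lam * t)) with hδ
  have hδ0 : 0 ≤ δ := sqrt_nonneg _
  have key : ∀ i ≤ l.length, u x - i * δ ≤ u (x + loc l i) := fun i => by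
    induction i with
    | zero => simp
    | succ i ih =>
      intro hi
      obtain ⟨a2, a3⟩ := hp i hi
      have a6 : u (x + loc l i) - u (x + loc l i + vec l[i]) ≤ δ := by
        by_cases a1 : x + loc l i ∈ B
        · have a4 := energy lam ω B x u h0 h1 h2 a1 l[i]
          rw [Res.C, if_pos a2] at a4
          have a5 : exp (lam * t) ≤ exp (lam * (expo (x + loc l i) l[i] : ℝ)) :=
            exp_le_exp.mpr (mul_le_mul_of_nonneg_left (by exact_mod_cast a3) hlam)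
          exact le_sqrt_of_sq_le (by
            rw [le_div_iff₀' hκ]
            exact (mul_le_mul_of_nonneg_right a5 (sq_nonneg _)).trans a4)
        · rw [h1 _ a1]
          linarith [h0 (x + loc l i + vec l[i])]
      rw [loc_succ hi, ← add_assoc]
      push_cast
      linarith [ih (by omega)]
  have h3 := key _ le_rfl
  rw [loc_length, h1 _ hout] at h3
  have h4 : u x ≤ l.length * δ := by linarith
  have h5 : u x ^ 2 ≤ (l.length : ℝ) ^ 2 * Res.pi lam ω x / exp (lam * t) * u x := by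
    refine (pow_le_pow_left₀ (h0 x) h4 2).trans (le_of_eq ?_)
    rw [mul_pow, hδ, sq_sqrt hE0]
    ring
  rcases (h0 x).eq_or_lt with h | h
  · rw [← h]
    exact div_nonneg (mul_nonneg (sq_nonneg _) (pi_nonneg lam ω x)) hκ.le
  · exact le_of_mul_le_mul_right (by rwa [← sq]) h

theorem Gb_diag (hlam : 0 ≤ lam) {x : V D} {t : ℤ} {l : List (Step D)} (hout : x + pos l ∉ B)
    (hp : ∀ (i : ℕ) (h : i < l.length),
      ω (edge (x + loc l i) l[i]) = true ∧ t ≤ expo (x + loc l i) l[i]) :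
    Gb lam ω B x x ≤ ENNReal.ofReal ((l.length : ℝ) ^ 2 * Res.pi lam ω x / exp (lam * t)) := by
  refine Gb_le lam ω B fun n => ?_
  rw [← ENNReal.ofReal_toReal (F_ne_top lam ω B x n x)]
  refine ENNReal.ofReal_le_ofReal (value_le lam ω B hlam hout hp
    (fun z => (F lam ω B x n z).toReal) (fun _ => ENNReal.toReal_nonneg) (fun z hz => ?_)
    fun z hz => ?_)
  · cases n with
    | zero => simp [F_zero]
    | succ n => simp [F_succ, hz]
  · have h1 : F lam ω B x n z ≤ F lam ω B x (n + 1) z :=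
      SS_mono (fun l hl => ⟨hl.1, Nat.lt_succ_of_lt hl.2⟩) fun _ _ => le_rfl
    have h2 := fun s => ENNReal.mul_ne_top (ENNReal.ofReal_ne_top (r := pr lam ω z s))
      (F_ne_top lam ω B x n (z + vec s))
    refine (ENNReal.toReal_mono (F_ne_top lam ω B x _ z) h1).trans (le_of_eq ?_)
    rw [F_succ, if_pos hz, ENNReal.toReal_add (by split_ifs <;> simp)
      (ENNReal.sum_ne_top.mpr fun s _ => h2 s), ENNReal.toReal_sum fun s _ => h2 s]
    simp only [ENNReal.toReal_mul, ENNReal.toReal_ofReal (pr_nonneg lam ω z _)]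
    split_ifs <;> simp

theorem pi_pos {x : V D} {t : ℤ} {l : List (Step D)} (hout : x + pos l ∉ B)
    (hp : ∀ (i : ℕ) (h : i < l.length),
      ω (edge (x + loc l i) l[i]) = true ∧ t ≤ expo (x + loc l i) l[i]) (hx : x ∈ B) :
    0 < Res.pi lam ω x := by
  cases l with
  | nil => exact absurd hx (by simpa using hout)
  | cons s l => exact mul_pos (exp_pos _) (Zq_pos lam (by simpa using (hp 0 (by simp)).1))

end CompM

theorem sym : SYMStmt := by
  intro D lam ω B x y
  have e : ∀ z : V D, exp (2 * lam * z 0) * Zq lam ω z = Res.pi lam ω z := fun z => by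
    rw [Res.pi, show lam * (2 * (z 0 : ℝ)) = 2 * lam * z 0 by ring]
  rw [e, e]
  exact le_antisymm (Res.Gb_rev lam ω B x y) (Res.Gb_rev lam ω B y x)

theorem resl : RESLStmt := by
  intro D lam hlam ω B x y s t l hout hp
  by_cases hx : x ∈ B
  swap
  · simp [Res.Gb_zero lam ω B hx]
  have hq := CompM.pi_pos lam ω B hout hp hx
  refine (ENNReal.mul_le_mul_iff_right (ENNReal.ofReal_pos.mpr hq).ne' ENNReal.ofReal_ne_top).mp ?_
  rw [← mul_assoc]
  refine (mul_le_mul' ((Res.Gb_rev lam ω B x y).trans (mul_le_mul' le_rfl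
    ((Res.Gb_le_diag lam ω B x y).trans (CompM.Gb_diag lam ω B hlam hout hp)))) le_rfl).trans ?_
  rw [mul_right_comm, ← ENNReal.ofReal_mul (Res.pi_nonneg lam ω y), Res.pi_pr,
    ← ENNReal.ofReal_mul (Res.C_nonneg lam ω y s), ← ENNReal.ofReal_mul hq.le]
  refine ENNReal.ofReal_le_ofReal ((mul_le_mul_of_nonneg_right (Res.C_le lam ω y s)
    (by positivity)).trans (le_of_eq ?_))
  push_cast
  rw [mul_sub, exp_sub]
  ring

theorem fill2s : FILL2Stmt := fun _ hD ω b hU =>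
  let ⟨S, h1, h2, _, h4⟩ := fill2 hD ω b hU
  ⟨S, h1, h2, h4⟩

theorem geo2s : GEO2Stmt := by
  intro D ω B x t₀ t i h0 h1 hx hi
  have hS := (geo2 h0 h1 hx hi).1
  refine ⟨hS, ?_⟩
  obtain ⟨l, -, h2, h3⟩ := h0
  have h4 : ReflTransGen (Opn ω) x (x + pos l) :=
    Geo.rmono (Geo.of_list l x fun i hi => (h3 i hi).2)
      fun u v ⟨s, h5, h6, _⟩ => opn_iff.2 ⟨s, h5, h6⟩
  obtain ⟨b, hb, v, hv, h5⟩ := Geo.exit (S := Up ω i x) h4 ReflTransGen.refl
    fun h => h2 (hS h)
  have h6 := Geo.up_level hx hb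
  have h7 : ¬ i ≤ v 0 := fun h => hv (ReflTransGen.tail hb ⟨h5, h6, h⟩)
  obtain ⟨s, rfl, h9⟩ := opn_iff.1 h5
  have h8 := (vec_bounds s 0).1
  rw [Pi.add_apply] at h7
  refine ⟨b, hb, by omega, ?_⟩
  rcases step_cases s with rfl | rfl | ⟨k, g, rfl⟩
  · rw [vec_fwd_zero] at h7
    omega
  · exact h9
  · rw [vec_side_zero] at h7
    omega

open Iso in
theorem iso2 : ISO2Stmt := by
  classical
  intro D b S x y hx hy hne h0 hb
  obtain ⟨j', hj'⟩ := Function.ne_iff.1 hne
  obtain ⟨j, rfl⟩ : ∃ j : Fin D, j' = j.succ := by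
    rcases Fin.eq_zero_or_eq_succ j' with rfl | h
    · exact absurd h0 hj'
    · exact h
  choose a ha ha' using fun q : Fin D × Bool => exists_ex hx (q.1.succ, q.2)
  choose c hc hc' using fun q : Fin D × Bool => exists_ex hy (q.1.succ, q.2)
  set T := (bdry b S).filter fun e => e.2 ≠ 0 ∧ e.1 0 = x 0 with hT
  have mem : ∀ (z : V D) (q : Fin D × Bool), z ∈ ex S (q.1.succ, q.2) → z 0 = x 0 →
      edge z (q.1.succ, q.2) ∈ T := fun z q hz e => by
    have h1 : (edge z (q.1.succ, q.2)).1 0 = x 0 := by rw [edge_lev_side, e]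
    exact mem_filter.2 ⟨edge_mem hz (h1 ▸ hb), by rw [edge_snd]; exact Fin.succ_ne_zero _, h1⟩
  have inj : ∀ (f : Fin D × Bool → V D), (∀ q, f q ∈ ex S (q.1.succ, q.2)) →
      Function.Injective fun q : Fin D × Bool => edge (f q) (q.1.succ, q.2) := fun f hf q q' k => by
    have := (edge_inj (hf q) (hf q') k).2
    simp only [Prod.mk.injEq, Fin.succ_inj] at this
    exact Prod.ext this.1.symm this.2.symm
  let P := (univ : Finset (Fin D × Bool)).image fun q => edge (a q) (q.1.succ, q.2)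
  let Q := ((univ.erase j) ×ˢ (univ : Finset Bool)).image fun q => edge (c q) (q.1.succ, q.2)
  have hP : P.card = 2 * D := by
    rw [card_image_of_injective _ (inj a ha)]
    simp [mul_comm]
  have hQ : Q.card + 2 = 2 * D := by
    rw [card_image_of_injective _ (inj c hc), card_product, card_erase_of_mem (mem_univ j)]
    have : 0 < D := j.pos
    simp only [card_univ, Fintype.card_fin, Fintype.card_bool]
    omega
  have hd : Disjoint P Q := disjoint_left.2 fun e h1 h2 => by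
    obtain ⟨q, -, rfl⟩ := mem_image.1 h1
    obtain ⟨q', hq', k⟩ := mem_image.1 h2
    obtain ⟨k1, k2⟩ := edge_inj (hc q') (ha q) k
    have hj : q'.1 ≠ j := (mem_erase.1 (mem_product.1 hq').1).1
    have e1 : j.succ ≠ q'.1.succ := fun h => hj (Fin.succ_injective _ h).symm
    have e2 : q.1.succ = q'.1.succ := congrArg Prod.fst k2
    refine hj' ?_
    rw [← ha' q j.succ (by rw [e2]; exact e1), ← hc' q' j.succ e1, k1]
  have hsub : P ∪ Q ⊆ T := union_subset
    (fun e h => by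
      obtain ⟨q, -, rfl⟩ := mem_image.1 h
      exact mem _ q (ha q) (ha' q 0 (Fin.succ_ne_zero _).symm))
    fun e h => by
      obtain ⟨q, -, rfl⟩ := mem_image.1 h
      exact mem _ q (hc q) ((hc' q 0 (Fin.succ_ne_zero _).symm).trans h0.symm)
  have := card_le_card hsub
  rw [card_union_of_disjoint hd] at this
  omega

end Pool.Agent.MP_8c549f_pr

/-!
Uniform second order control of the pieces, and the expansion of the escape probability.
-/

set_option autoImplicit false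

namespace Pool.Agent.MP_8c549f_pr

open MeasureTheory Filter Topology Real
open scoped ENNReal NNReal

namespace PsixM

variable {D : ℕ}

/-- control with a constant that decays exponentially -/
def Fine (C : ℝ) (f : ℝ → ℝ) : Prop := ∀ α β : ℝ, 0 ≤ α → Ctl f α β (C * exp (-α))

theorem Fine.mono {C C' : ℝ} {f : ℝ → ℝ} (h : Fine C f) (k : C ≤ C') : Fine C' f :=
  fun α β hα => (h α β hα).mono (mul_le_mul_of_nonneg_right k (exp_pos _).le)

theorem fine_of_rat {f : ℝ → ℝ} {M : ℝ} (hf : IsRat f) (hM : ∀ x, 0 ≤ x → |f x| ≤ M) :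
    ∃ C, 0 ≤ C ∧ Fine C f := by
  obtain ⟨C, hC, h1, h2⟩ := rat f M hf hM
  refine ⟨C, hC, fun α β hα => ⟨fun x y a b _ => ?_, fun x t a b _ => ?_⟩⟩
  · refine (h1 x y (hα.trans a) b).trans ?_
    have e : exp (-x) ≤ exp (-α) := exp_le_exp.2 (by linarith)
    have := mul_le_mul_of_nonneg_left e (mul_nonneg hC (sub_nonneg.2 b))
    linarith
  · have h3 := h2 (x - t) t (hα.trans b) a
    rw [show x - t + 2 * t = x + t by ring, sub_add_cancel] at h3
    rw [show f (x + t) + f (x - t) - 2 * f x = f (x + t) - 2 * f x + f (x - t) by ring]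
    refine h3.trans ?_
    have e : exp (-(x - t)) ≤ exp (-α) := exp_le_exp.2 (by linarith)
    have := mul_le_mul_of_nonneg_left e (mul_nonneg hC (sq_nonneg t))
    linarith

theorem fine_of_le {f : ℝ → ℝ≥0∞} {M : ℝ} (hf : IsRat fun x => (f x).toReal) (h0 : 0 ≤ M)
    (hM : ∀ x, 0 ≤ x → f x ≤ ENNReal.ofReal M) : ∃ C, 0 ≤ C ∧ Fine C fun x => (f x).toReal :=
  fine_of_rat hf fun x hx => by
    rw [abs_of_nonneg ENNReal.toReal_nonneg]
    exact ENNReal.toReal_le_of_le_ofReal h0 (hM x hx)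

/-- finitely many classes give one constant -/
theorem unif {ι κ : Type} [Finite κ] (k : ι → κ) (F : ι → ℝ → ℝ) (P : ι → Prop)
    (hk : ∀ a b, k a = k b → F a = F b) (h : ∀ a, P a → ∃ C, 0 ≤ C ∧ Fine C (F a)) :
    ∃ C, 0 ≤ C ∧ ∀ a, P a → Fine C (F a) := by
  have key : ∀ z : κ, ∃ C, 0 ≤ C ∧ ∀ a, k a = z → P a → Fine C (F a) := fun z => by
    by_cases e : ∃ a, k a = z ∧ P a
    · obtain ⟨a₀, e1, e2⟩ := e
      obtain ⟨C, hC, hF⟩ := h a₀ e2
      exact ⟨C, hC, fun a e3 _ => by rw [hk a a₀ (e3.trans e1.symm)]; exact hF⟩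
    · exact ⟨0, le_rfl, fun a e1 e2 => absurd ⟨a, e1, e2⟩ e⟩
  choose C hC hC' using key
  have := Fintype.ofFinite κ
  exact ⟨∑ z, C z, Finset.sum_nonneg fun z _ => hC z, fun a ha => (hC' _ a rfl ha).mono
    (Finset.single_le_sum (fun z _ => hC z) (Finset.mem_univ _))⟩

theorem isRat_Zq (ω : Cfg D) (u : V D) : IsRat fun x => Zq x ω u := by
  refine isRat_sum _ fun t _ => ?_
  by_cases ht : ω (edge u t) = true
  · simpa [ht] using isRat_wt t
  · simpa [ht] using isRat_const 0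

/-- the data on which a piece and the following return depend -/
def cl (B B' : Finset (V D)) (a : Cfg D × (V D → Step D → Prop)) :
    (near B' → Bool) × (B → Step D → Prop) :=
  (fun e => a.1 e, fun x s => a.2 x s)

theorem cl_eq {B B' : Finset (V D)} {a b : Cfg D × (V D → Step D → Prop)}
    (h : cl B B' a = cl B B' b) :
    (∀ e ∈ near B', a.1 e = b.1 e) ∧ ∀ x ∈ B, ∀ s, a.2 x s ↔ b.2 x s :=
  ⟨fun e he => congrFun (congrArg Prod.fst h) ⟨e, he⟩,
    fun x hx s => iff_of_eq (congrFun (congrFun (congrArg Prod.snd h) ⟨x, hx⟩) s)⟩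

/-- the last step of a block of non-zero weight opens the back edge of its end -/
theorem back_open {lam : ℝ} {ω : Cfg D} {l : List (Step D)} (h : Block l)
    (hW : W lam ω 0 l ≠ 0) : ω (edge (pos l) (bck D)) = true := by
  obtain ⟨h5, -, h6, -⟩ := h.2.1
  have h7 : l.length - 1 < l.length := by omega
  have h8 := H_succ h7
  have h9 := loc_succ h7
  have h10 := (W_ne_zero_iff lam ω l 0).1 hW _ h7
  rw [show l.length - 1 + 1 = l.length by omega] at h8 h9
  rw [vec_zero_eq_one.mp (show vec l[l.length - 1] 0 = 1 by omega)] at h9 h10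
  rw [show pos l = loc l l.length by simp, h9, vec_fwd_e0, edge_fwd_eq]
  simpa using h10

theorem SS_tsum {ι : Type} (A : Set (List (Step D))) (f : ι → List (Step D) → ℝ≥0∞) :
    ∑' i, SS A (f i) = SS A fun l => ∑' i, f i l := by
  unfold SS
  rw [ENNReal.tsum_comm]
  exact tsum_congr fun l => by by_cases h : l ∈ A <;> simp [h]

theorem SS_block (f : List (Step D) → ℝ≥0∞) :
    SS {l | Block l} f = ∑' q : ℕ × ℕ, SS {l | Piece q.1 q.2 l} f := by
  rw [SS_fiber _ fun l => ((lev l).toNat, ext l)]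
  exact tsum_congr fun q => congrArg (SS · f) (Set.ext fun l => PieceB.piece_iff)

theorem expand {lam : ℝ} {ω : Cfg D} (h : Nice lam ω) (g : List (Step D) → ℝ≥0∞) :
    SS {l | Block l} (fun l => g l * W lam ω 0 l * qr lam ω (pos l)) +
      ∑' q : (ℕ × ℕ) × ℕ × ℕ, SS {l | Piece q.1.1 q.1.2 l}
        (fun l => g l * W lam ω 0 l * Rq lam ω (pos l) q.2.1 q.2.2) =
      ∑' q : ℕ × ℕ, SS {l | Piece q.1 q.2 l} fun l => g l * W lam ω 0 l := by
  rw [ENNReal.tsum_prod']
  simp only [SS_tsum, ENNReal.tsum_mul_left]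
  rw [← SS_block, ← SS_block, ← SS_add]
  refine SS_congr fun l hl => ?_
  by_cases hW : W lam ω 0 l = 0
  · simp [hW]
  · rw [← mul_add, h.1 _ (back_open hl hW), mul_one]

end PsixM

open PsixM

theorem exps : EXPStmt := by
  intro D lam ω h c
  refine ⟨expand h fun l => nst c 0 l, ?_⟩
  have h1 := expand h fun l => (lev l).toNat
  have h2 : ∀ q : (ℕ × ℕ) × ℕ × ℕ, q.1.1 * U2 lam ω q.1.1 q.1.2 q.2.1 q.2.2 =
      SS {l | Piece q.1.1 q.1.2 l}
        (fun l => (lev l).toNat * W lam ω 0 l * Rq lam ω (pos l) q.2.1 q.2.2) := fun q => by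
    rw [U2, ← SS_mul_left]
    exact SS_congr fun l hl => by rw [hl.2.1, Int.toNat_natCast, mul_assoc]
  have h3 : ∀ q : ℕ × ℕ, q.1 * Uq lam ω q.1 q.2 =
      SS {l | Piece q.1 q.2 l} (fun l => (lev l).toNat * W lam ω 0 l) := fun q => by
    rw [Uq, ← SS_mul_left]
    exact SS_congr fun l hl => by rw [hl.2.1, Int.toNat_natCast]
  simp only [h2, h3]
  exact h1

theorem p6 (hB : PBStmt) (hR : PRStmt) (hD : PDStmt) : P6Stmt := by
  intro D m r i r'
  obtain ⟨-, -, dU, -, -, hU, -⟩ := p4S D m r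
  obtain ⟨C₀, e₀⟩ : ∃ C₀ : ℝ, C₀ = (6 * D + 6) * (NN D m r : ℝ) ^ 3 := ⟨_, rfl⟩
  have hC₀ : 0 ≤ C₀ := by rw [e₀]; positivity
  have bU : ∀ x (ω : Cfg D), Uq x ω m r ≤ ENNReal.ofReal 1 := fun x ω =>
    (hU x ω).1.trans_eq ENNReal.ofReal_one.symm
  have b1 : ∀ (ω : Cfg D) c, GoodC ω (Box D m r) c 0 → ∀ x, 0 ≤ x →
      C1 x ω c m r ≤ ENNReal.ofReal C₀ := fun ω c h x hx => by
    have := (hB D x hx ω c m r i r' 0 h).1
    simp only [Nat.cast_zero, mul_zero, exp_zero, mul_one, ← e₀] at this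
    exact this.trans (mul_le_of_le_one_right' (hU x ω).1)
  obtain ⟨K₁, p₁, k₁⟩ := unif (fun (ω : Cfg D) (e : near (Box D m r)) => ω e)
    (fun ω x => (Uq x ω m r).toReal) (fun ω => ω (edge 0 (bck D)) = true)
    (fun a b h => funext fun x => congrArg ENNReal.toReal
      (dU x a b fun e he => congrFun h ⟨e, he⟩))
    fun ω h => fine_of_le (p3S D ω h m r).2.1 zero_le_one fun x _ => bU x ω
  obtain ⟨K₂, p₂, k₂⟩ := unif (fun (ω : Cfg D) (e : near (Box D (m + i + 1) (r + r'))) => ω e)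
    (fun ω x => (U2 x ω m r i r').toReal) (fun ω => ω (edge 0 (bck D)) = true)
    (fun a b h => funext fun x => congrArg ENNReal.toReal
      ((hD D m r i r' x).1 a b (fun _ _ => True) (fun _ _ => True)
        (fun e he => congrFun h ⟨e, he⟩) fun _ _ _ => Iff.rfl).2.2.1)
    fun ω h => fine_of_le (hR D ω h (fun _ _ => True) m r i r').2.2.2 zero_le_one fun x _ =>
      ((hD D m r i r' x).2 ω fun _ _ => True).2.1.trans (bU x ω)
  obtain ⟨K₃, p₃, k₃⟩ := unif (cl (Box D m r) (Box D (m + i + 1) (r + r')))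
    (fun a x => (C1 x a.1 a.2 m r).toReal)
    (fun a => a.1 (edge 0 (bck D)) = true ∧ GoodC a.1 (Box D m r) a.2 0)
    (fun a b h => funext fun x => congrArg ENNReal.toReal
      ((hD D m r i r' x).1 a.1 b.1 a.2 b.2 (cl_eq h).1 (cl_eq h).2).1)
    fun a h => fine_of_le (hR D a.1 h.1 a.2 m r i r').2.1 hC₀ (b1 a.1 a.2 h.2)
  obtain ⟨K₄, p₄, k₄⟩ := unif (cl (Box D m r) (Box D (m + i + 1) (r + r')))
    (fun a x => (C2 x a.1 a.2 m r i r').toReal)
    (fun a => a.1 (edge 0 (bck D)) = true ∧ GoodC a.1 (Box D m r) a.2 0)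
    (fun a b h => funext fun x => congrArg ENNReal.toReal
      ((hD D m r i r' x).1 a.1 b.1 a.2 b.2 (cl_eq h).1 (cl_eq h).2).2.1)
    fun a h => fine_of_le (hR D a.1 h.1 a.2 m r i r').2.2.1 hC₀ fun x hx =>
      ((hD D m r i r' x).2 a.1 a.2).1.trans (b1 a.1 a.2 h.2 x hx)
  obtain ⟨K₅, p₅, k₅⟩ := unif
    (fun a : (Cfg D × (V D → Step D → Prop)) × Box D m r =>
      (cl (Box D m r) (Box D (m + i + 1) (r + r')) a.1, a.2))
    (fun a x => (ENNReal.ofReal (1 / Zq x a.1.1 a.2) * C1 x a.1.1 a.1.2 m r).toReal)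
    (fun a => (a.1.1 (edge 0 (bck D)) = true ∧ GoodC a.1.1 (Box D m r) a.1.2 0) ∧
      ∀ x, 0 ≤ x → 1 ≤ Zq x a.1.1 a.2)
    (fun a b h => funext fun x => by
      have h1 := cl_eq (congrArg Prod.fst h)
      have h2 : a.2 = b.2 := (Prod.ext_iff.1 h).2
      have h3 : Zq x a.1.1 a.2 = Zq x b.1.1 a.2 := by
        have h4 := mem_Box.1 a.2.2
        have h5 : (a.2 : V D) ∈ Box D (m + i + 1) (r + r') :=
          mem_Box.2 ⟨h4.1, by have := h4.2.1; push_cast; omega, by have := h4.2.2; omega⟩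
        unfold Zq
        exact Finset.sum_congr rfl fun s _ => by rw [h1.1 _ (edge_mem_near.2 (Or.inl h5))]
      rw [← h2, h3, ((hD D m r i r' x).1 a.1.1 b.1.1 a.1.2 b.1.2 h1.1 h1.2).1])
    fun a h => by
      refine fine_of_le ?_ hC₀ fun x hx => ?_
      · refine (((isRat_Zq a.1.1 a.2).inv fun x hx => by linarith [h.2 x hx]).mul
          (hR D a.1.1 h.1.1 a.1.2 m r i r').2.1).congr fun x _ => ?_
        rw [ENNReal.toReal_mul, ENNReal.toReal_ofReal (one_div_nonneg.2 (Zq_nonneg _ _ _)),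
          one_div]
      · refine le_trans (mul_le_of_le_one_left' ?_) (b1 a.1.1 a.1.2 h.1.2 x hx)
        exact ENNReal.ofReal_le_one.2 (div_le_one_of_le₀ (h.2 x hx) (Zq_nonneg _ _ _))
  refine ⟨C₀ + K₁ + K₂ + K₃ + K₄ + K₅, by positivity, fun ω h α β hα =>
    ⟨(k₁ ω h).mono (by linarith) α β hα, (k₂ ω h).mono (by linarith) α β hα, fun c hc =>
      ⟨fun x hx => (b1 ω c hc x hx).trans (ENNReal.ofReal_le_ofReal (by linarith)),
        (k₃ (ω, c) ⟨h, hc⟩).mono (by linarith) α β hα,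
        (k₄ (ω, c) ⟨h, hc⟩).mono (by linarith) α β hα, fun u hu hZ =>
        (k₅ ((ω, c), ⟨u, hu⟩) ⟨⟨h, hc⟩, hZ⟩).mono (by linarith) α β hα⟩⟩⟩

end Pool.Agent.MP_8c549f_pr

end MrgPart0

-- ======== part 1: formerly Pool.Agent.MP_8c549f_pr.B4
section MrgPart1

/-!
Excursions in a bush: total mass and mean duration.
-/

set_option autoImplicit false

namespace Pool.Agent.MP_8c549f_pr

open MeasureTheory Filter Topology Real
open scoped ENNReal NNReal

namespace ExcM

variable {D : ℕ}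

/-- from `y` to `u`, inside the bush -/
def Ex (ω : Cfg D) (u y : V D) : Set (List (Step D)) :=
  {l | y + pos l = u ∧ ∀ i < l.length, y + loc l i ∈ Bush ω u}

/-- lists of length `n` that stay in `B` -/
def St (B : Finset (V D)) (y : V D) (n : ℕ) : Set (List (Step D)) :=
  {l | l.length = n ∧ ∀ i ≤ n, y + loc l i ∈ B}

theorem root_not_mem (ω : Cfg D) (u : V D) : u ∉ Bush ω u := fun h => by
  have := Bush_level h
  omega

theorem lt_cons (X : Set (V D)) (y : V D) (s : Step D) (l : List (Step D)) (n : ℕ) :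
    (∀ i < n + 1, y + loc (s :: l) i ∈ X) ↔ y ∈ X ∧ ∀ i < n, y + vec s + loc l i ∈ X := by
  constructor
  · intro h
    refine ⟨by simpa using h 0 (by omega), fun i hi => ?_⟩
    have := h (i + 1) (by omega)
    rwa [loc_cons_succ, ← add_assoc] at this
  · rintro ⟨h1, h2⟩ i hi
    cases i with
    | zero => simpa using h1
    | succ i => rw [loc_cons_succ, ← add_assoc]; exact h2 i (by omega)

theorem cons_Ex {ω : Cfg D} {u y : V D} (s : Step D) (l : List (Step D)) :
    s :: l ∈ Ex ω u y ↔ y ∈ Bush ω u ∧ l ∈ Ex ω u (y + vec s) := by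
  simp only [Ex, Set.mem_ofPred_eq, List.length_cons, lt_cons, pos_cons, add_assoc]
  tauto

theorem cons_St {B : Finset (V D)} {y : V D} (s : Step D) (l : List (Step D)) (n : ℕ) :
    s :: l ∈ St B y (n + 1) ↔ y ∈ B ∧ l ∈ St B (y + vec s) n := by
  have := lt_cons (B : Set (V D)) y s l (n + 1)
  simp only [Finset.mem_coe, Nat.lt_succ_iff] at this
  simp only [St, Set.mem_ofPred_eq, List.length_cons, this, Nat.add_right_cancel_iff]
  tauto

theorem Ex_self (ω : Cfg D) (u : V D) : Ex ω u u = {[]} := by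
  ext l
  cases l with
  | nil => simp [Ex]
  | cons s l => simp [cons_Ex, root_not_mem]

theorem St_zero {B : Finset (V D)} {y : V D} (h : y ∈ B) : St B y 0 = {[]} := by
  ext l
  cases l with
  | nil => simp [St, h]
  | cons s l => simp [St]

theorem St_out {B : Finset (V D)} {y : V D} (h : y ∉ B) (n : ℕ) : St B y n = ∅ :=
  Set.eq_empty_of_forall_notMem fun _ hl => h (by simpa using hl.2 0 (Nat.zero_le n))

theorem antich_Ex (ω : Cfg D) (u y : V D) : Antich (Ex ω u y) := by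
  rintro v hv l hl ⟨t, rfl⟩
  cases t with
  | nil => simp
  | cons s t =>
    have := hl.2 v.length (by simp)
    rw [loc_append_left _ le_rfl, loc_length, hv.1] at this
    exact absurd this (root_not_mem ω u)

/-- an open path from a site of the bush to the root -/
theorem path {ω : Cfg D} {u : V D} (h : Root ω u) {y : V D} (hy : y ∈ Bush ω u) :
    ∃ l : List (Step D), l ≠ [] ∧ y + pos l = u ∧ ∀ (i : ℕ) (hi : i < l.length),
      ω (edge (y + loc l i) l[i]) = true ∧ 2 * u 0 ≤ expo (y + loc l i) l[i] := by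
  refine Up_subset (X := {y | ∃ l : List (Step D), l ≠ [] ∧ y + pos l = u ∧
    ∀ (i : ℕ) (hi : i < l.length),
      ω (edge (y + loc l i) l[i]) = true ∧ 2 * u 0 ≤ expo (y + loc l i) l[i]}) ?_ ?_ hy
  · refine ⟨[bck D], by simp, by simp [vec_bck_e0], ?_⟩
    rw [forall_steps_cons fun y t => ω (edge y t) = true ∧ 2 * u 0 ≤ expo y t]
    refine ⟨⟨by rw [edge_fwd_eq]; exact h.1, ?_⟩, by simp⟩
    simp only [expo, Pi.add_apply, e0_zero, vec_bck_zero]
    omega
  · rintro y ⟨l, -, h1, h2⟩ s - hs a b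
    refine ⟨rev s :: l, by simp, by simpa [add_assoc] using h1, ?_⟩
    rw [forall_steps_cons fun y t => ω (edge y t) = true ∧ 2 * u 0 ≤ expo y t]
    refine ⟨⟨by rwa [edge_rev], ?_⟩, by simpa using h2⟩
    rw [expo_rev, expo_eq]
    omega

theorem has_open {ω : Cfg D} {u : V D} (h : Root ω u) {y : V D} (hy : y ∈ Bush ω u) :
    ∃ s, ω (edge y s) = true := by
  obtain ⟨l, h0, -, h2⟩ := path h hy
  have := (h2 0 (List.length_pos_iff.2 h0)).1
  rw [loc_zero, add_zero] at this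
  exact ⟨_, this⟩

section

variable {lam : ℝ} {ω : Cfg D} {u : V D} {B : Finset (V D)}

theorem one_le (h : Root ω u) (hB : ∀ z, z ∈ B ↔ z ∈ Bush ω u) (n : ℕ) :
    ∀ y, y ∈ Bush ω u ∨ y = u →
      1 ≤ SS (Ex ω u y) (W lam ω y) + SS (St B y n) (W lam ω y) := by
  have hu : 1 ≤ SS (Ex ω u u) (W lam ω u) := by rw [Ex_self, SS_singleton, W_nil]
  induction n with
  | zero =>
    rintro y (hy | rfl)
    · rw [St_zero ((hB y).2 hy), SS_singleton, W_nil]; exact le_add_self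
    · exact hu.trans le_self_add
  | succ n ih =>
    rintro y (hy | rfl)
    · obtain ⟨s₀, hs₀⟩ := has_open h hy
      rw [SS_W_cons lam ω y (Ex ω u y), SS_W_cons lam ω y (St B y (n + 1)), add_add_add_comm,
        ← Finset.sum_add_distrib, ← sum_ofReal_pr_eq_one lam hs₀]
      refine le_trans (Finset.sum_le_sum fun s _ => ?_) le_add_self
      by_cases hs : ω (edge y s) = true
      · rw [← mul_add]
        refine le_mul_of_one_le_right' ?_
        simp only [cons_Ex, cons_St, hy, (hB y).2 hy, true_and, Set.ofPred_mem_eq]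
        refine ih _ ?_
        by_cases hn : y + vec s ∈ Bush ω u
        · exact Or.inl hn
        · obtain ⟨rfl, rfl⟩ := h.exit hy hs hn
          exact Or.inr (by simp [vec_bck_e0])
      · rw [pr_of_closed lam (by simpa using hs)]; simp
    · exact hu.trans le_self_add

/-- the walk leaves the bush -/
theorem mass (hl : 0 ≤ lam) (h : Root ω u) (hB : ∀ z, z ∈ B ↔ z ∈ Bush ω u) {y : V D}
    (hy : y ∈ Bush ω u) : SS (Ex ω u y) (W lam ω y) = 1 := by
  refine le_antisymm (kraft lam ω (antich_Ex ω u y) y) ?_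
  obtain ⟨l, -, h1, h2⟩ := path h hy
  have hE : Esc ω B y (2 * u 0) :=
    esc D ω B y _ l (by rw [h1, hB]; exact root_not_mem ω u) h2
  have hT := (van D lam hl ω B y _ hE).const_add (SS (Ex ω u y) (W lam ω y))
  rw [add_zero] at hT
  exact ge_of_tendsto' hT fun n => one_le h hB n y (Or.inl hy)

theorem tail_eq (hl : 0 ≤ lam) (h : Root ω u) (hB : ∀ z, z ∈ B ↔ z ∈ Bush ω u) (n : ℕ) :
    ∀ y, SS {l | l ∈ Ex ω u y ∧ n < l.length} (W lam ω y) = SS (St B y n) (W lam ω y) := by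
  have out : ∀ n y, y ∉ Bush ω u →
      SS {l | l ∈ Ex ω u y ∧ n < l.length} (W lam ω y) = SS (St B y n) (W lam ω y) := by
    intro n y hy
    rw [St_out (by rwa [hB]), Set.eq_empty_of_forall_notMem (s := {l | l ∈ Ex ω u y ∧ n < l.length})
      fun l hl => hy (by simpa using hl.1.2 0 (by have := hl.2; omega))]
  induction n with
  | zero =>
    intro y
    by_cases hy : y ∈ Bush ω u
    · rw [St_zero ((hB y).2 hy), SS_singleton, W_nil, ← mass hl h hB hy]
      congr 1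
      ext l
      refine ⟨fun a => a.1, fun a => ⟨a, List.length_pos_iff.2 ?_⟩⟩
      rintro rfl
      have := a.1
      rw [pos_nil, add_zero] at this
      exact root_not_mem ω u (this ▸ hy)
    · exact out _ y hy
  | succ n ih =>
    intro y
    by_cases hy : y ∈ Bush ω u
    · rw [SS_W_cons, SS_W_cons lam ω y (St B y (n + 1)), Set.indicator_of_notMem (by simp),
        Set.indicator_of_notMem (by simp [St])]
      congr 1
      refine Finset.sum_congr rfl fun s _ => ?_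
      simp only [Set.mem_ofPred_eq, cons_Ex, cons_St, hy, (hB y).2 hy, true_and, Set.ofPred_mem_eq,
        List.length_cons, Nat.add_lt_add_iff_right, ih]
    · exact out _ y hy

theorem len_eq (A : Set (List (Step D))) (f : List (Step D) → ℝ≥0∞) :
    SS A (fun l => l.length * f l) = ∑' n : ℕ, SS {l | l ∈ A ∧ n < l.length} f := by
  unfold SS
  rw [ENNReal.tsum_comm]
  refine tsum_congr fun l => ?_
  by_cases hl : l ∈ A
  · rw [Set.indicator_of_mem hl, tsum_eq_sum (s := Finset.range l.length) fun n hn =>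
      Set.indicator_of_notMem (fun a => hn (Finset.mem_range.2 a.2)) _,
      Finset.sum_congr rfl fun n hn =>
        Set.indicator_of_mem (by exact ⟨hl, Finset.mem_range.1 hn⟩) f]
    simp
  · rw [Set.indicator_of_notMem hl]
    simp only [Set.indicator_of_notMem (fun a : l ∈ {l | l ∈ A ∧ _ < List.length l} => hl a.1),
      tsum_zero]

/-- mean duration as a sum of Green functions -/
theorem dur (hl : 0 ≤ lam) (h : Root ω u) (hB : ∀ z, z ∈ B ↔ z ∈ Bush ω u) (y : V D) :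
    SS (Ex ω u y) (fun l => l.length * W lam ω y l) = ∑' z, Gb lam ω B y z := by
  rw [len_eq]
  simp only [tail_eq hl h hB]
  have a := SS_fiber {l : List (Step D) | ∀ i ≤ l.length, y + loc l i ∈ B} List.length (W lam ω y)
  have b := SS_fiber {l : List (Step D) | ∀ i ≤ l.length, y + loc l i ∈ B} (fun l => y + pos l)
    (W lam ω y)
  refine Eq.trans (tsum_congr fun n => ?_) (a.symm.trans b)
  congr 1
  ext l
  constructor
  · rintro ⟨rfl, a⟩
    exact ⟨a, rfl⟩
  · rintro ⟨a, rfl⟩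
    exact ⟨rfl, a⟩

/-- the last step of an excursion -/
theorem last (hB : ∀ z, z ∈ B ↔ z ∈ Bush ω u) {y : V D} (hy : y ∈ Bush ω u) :
    SS (Ex ω u y) (W lam ω y) =
      ENNReal.ofReal (pr lam ω (u + e0 D) (bck D)) * Gb lam ω B y (u + e0 D) := by
  have e : Ex ω u y = (fun l => l ++ [bck D]) ''
      {l | (∀ i ≤ l.length, y + loc l i ∈ B) ∧ y + pos l = u + e0 D} := by
    ext l
    constructor
    · intro hl
      rcases List.eq_nil_or_concat l with rfl | ⟨v, s, rfl⟩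
      · have := hl.1
        rw [pos_nil, add_zero] at this
        exact absurd (this ▸ hy) (root_not_mem ω u)
      · rw [List.concat_eq_append] at hl ⊢
        have a : ∀ i ≤ v.length, y + loc v i ∈ Bush ω u := fun i hi => by
          have := hl.2 i (by simp; omega)
          rwa [loc_append_left _ hi] at this
        have b := hl.1
        rw [pos_append, pos_cons, pos_nil, add_zero, ← add_assoc] at b
        have c := Bush_level (a _ le_rfl)
        rw [loc_length] at c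
        have d := congrFun b 0
        have f := vec_bounds s 0
        rw [Pi.add_apply] at d
        have g : s = bck D := vec_zero_eq_neg_one.1 (by omega)
        subst g
        refine ⟨v, ⟨fun i hi => (hB _).2 (a i hi), ?_⟩, rfl⟩
        rw [← b, vec_bck_e0]
        abel
    · rintro ⟨v, ⟨a, b⟩, rfl⟩
      refine ⟨?_, fun i hi => ?_⟩
      · rw [pos_append, ← add_assoc, b]
        simp [vec_bck_e0]
      · have : i ≤ v.length := by simp at hi; omega
        rw [loc_append_left _ this]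
        exact (hB _).1 (a i this)
  rw [e, SS_image (List.append_left_injective _), Gb, ← SS_mul_left]
  refine SS_congr fun l hl => ?_
  rw [W_append, W_single, hl.2, mul_comm]

theorem green (hS : SYMStmt) (hl : 0 ≤ lam) (h : Root ω u) (hB : ∀ z, z ∈ B ↔ z ∈ Bush ω u)
    (z : V D) : ENNReal.ofReal (exp lam) * Gb lam ω B (u + e0 D) z = (Bush ω u).indicator
      (fun z => ∑ s : Step D, if ω (edge z s) = true then gk 0 lam (expo z s - 2 * u 0) else 0)
        z := by
  by_cases hz : z ∈ Bush ω u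
  · rw [Set.indicator_of_mem hz]
    have a := (last (lam := lam) hB hz).symm.trans (mass hl h hB hz)
    have b := hS D lam ω B (u + e0 D) z
    have ho : ω (edge (u + e0 D) (bck D)) = true := by rw [edge_fwd_eq]; exact h.1
    have hZ := Zq_pos lam ho
    have c : ENNReal.ofReal (exp lam) = ENNReal.ofReal (exp (-(2 * lam * u 0))) *
        ENNReal.ofReal (pr lam ω (u + e0 D) (bck D)) *
          ENNReal.ofReal (exp (2 * lam * (u + e0 D) 0) * Zq lam ω (u + e0 D)) := by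
      rw [← ENNReal.ofReal_mul (exp_pos _).le,
        ← ENNReal.ofReal_mul (mul_nonneg (exp_pos _).le (pr_nonneg _ _ _ _)), pr_of_open lam ho,
        wt_bck]
      congr 1
      have : exp lam = exp (-(2 * lam * u 0)) * exp (-lam) * exp (2 * lam * (u + e0 D) 0) := by
        rw [← exp_add, ← exp_add]
        congr 1
        simp only [Pi.add_apply, e0_zero]
        push_cast
        ring
      rw [this]
      field_simp
    rw [c, mul_assoc, b, mul_mul_mul_comm, a, mul_one, ← ENNReal.ofReal_mul (exp_pos _).le, Zq,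
      Finset.mul_sum, Finset.mul_sum, ENNReal.ofReal_sum_of_nonneg fun s _ => by
        have := wt_pos lam s
        split_ifs <;> positivity]
    refine Finset.sum_congr rfl fun s _ => ?_
    split_ifs
    · rw [gk, wt, ← exp_add, ← exp_add, pow_zero, one_mul]
      congr 2
      simp only [expo]
      push_cast
      ring
    · simp
  · rw [Set.indicator_of_notMem hz, Gb, Set.eq_empty_of_forall_notMem (s := {l | _ ∧ _ = z})
      fun l hl => hz ?_, SS_empty, mul_zero]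
    have := hl.1 _ le_rfl
    rwa [loc_length, hl.2, hB] at this

end

end ExcM

open ExcM in
theorem excs (hS : SYMStmt) : EXCStmt := by
  intro D lam hl ω u h
  have hB : ∀ z, z ∈ h.2.1.toFinset ↔ z ∈ Bush ω u := fun z => Set.Finite.mem_toFinset _
  have hx : u + e0 D ∈ Bush ω u := self_mem_Up _ _ _
  have a : SS (ExcSet ω u) (W lam ω (u + e0 D)) = 1 := mass hl h hB hx
  have b : SS (ExcSet ω u) (fun l => l.length * W lam ω (u + e0 D) l) =
      ∑' z, Gb lam ω h.2.1.toFinset (u + e0 D) z := dur hl h hB _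
  refine ⟨a, ?_, ?_⟩
  · simp only [add_mul, one_mul]
    rw [SS_add, a, b, pr_of_open lam h.1, wt_fwd, div_eq_mul_one_div, mul_comm (exp lam),
      ENNReal.ofReal_mul (one_div_pos.2 (Zq_pos lam h.1)).le, mul_assoc, mul_add,
      ← ENNReal.tsum_mul_left, pih, add_comm]
    simp only [green hS hl h hB]
    simp [gk]
  · rw [pih, tsum_eq_sum (s := h.2.1.toFinset) fun z hz =>
      Set.indicator_of_notMem (by rwa [hB] at hz) _]
    refine ENNReal.add_ne_top.2 ⟨ENNReal.ofReal_ne_top, ENNReal.sum_ne_top.2 fun z hz => ?_⟩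
    rw [Set.indicator_of_mem ((hB z).1 hz)]
    refine ENNReal.sum_ne_top.2 fun s _ => ?_
    split_ifs
    exacts [ENNReal.ofReal_ne_top, ENNReal.zero_ne_top]

end Pool.Agent.MP_8c549f_pr

/-!
The walk watched outside a bush is the walk with the entrance of the bush shut.
-/

set_option autoImplicit false

namespace Pool.Agent.MP_8c549f_pr

open MeasureTheory Filter Topology Real
open scoped ENNReal NNReal

variable {D : ℕ}

namespace TraM

/-- split a sum along an antichain of initial segments -/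
theorem SS_dec {P T : Set (List (Step D))} (hP : Antich P) (f : List (Step D) → ℝ≥0∞)
    (h : ∀ t ∈ T, f t ≠ 0 → ∃ e ∈ P, e <+: t) :
    SS T f = SS P fun e => SS {t | e ++ t ∈ T} fun t => f (e ++ t) := by
  have e1 : SS P (fun e => SS {t | e ++ t ∈ T} fun t => f (e ++ t)) =
      ∑' e : P, SS ((fun t => e.1 ++ t) '' {t | e.1 ++ t ∈ T}) f := by
    rw [SS_eq_tsum_subtype]
    exact tsum_congr fun e => (SS_image (List.append_right_injective e.1) f).symm
  rw [e1]
  unfold SS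
  rw [ENNReal.tsum_comm]
  refine tsum_congr fun l => ?_
  by_cases hl : l ∈ T ∧ f l ≠ 0
  · obtain ⟨e, he, t, rfl⟩ := h l hl.1 hl.2
    rw [tsum_eq_single ⟨e, he⟩, Set.indicator_of_mem hl.1,
      Set.indicator_of_mem (by exact ⟨t, hl.1, rfl⟩)]
    intro e' hne
    refine Set.indicator_of_notMem ?_ _
    rintro ⟨t', -, ht'⟩
    refine hne (Subtype.ext ?_)
    have p1 : e'.1 <+: e ++ t := ⟨t', ht'⟩
    rcases List.prefix_or_prefix_of_prefix p1 (List.prefix_append e t) with k | k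
    exacts [hP _ e'.2 _ he k, (hP _ he _ e'.2 k).symm]
  · have z : ∀ S : Set (List (Step D)), S ⊆ T → S.indicator f l = 0 := fun S hS => by
      by_cases k : l ∈ S
      · rw [Set.indicator_of_mem k]
        exact by_contra fun k' => hl ⟨hS k, k'⟩
      · exact Set.indicator_of_notMem k _
    rw [z T subset_rfl, ENNReal.tsum_eq_zero.2 fun e => z _ ?_]
    rintro _ ⟨t, ht, rfl⟩
    exact ht

def tl (s : Step D) (A : Set (List (Step D))) : Set (List (Step D)) := {l | s :: l ∈ A}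

def cut (n : ℕ) (A : Set (List (Step D))) : Set (List (Step D)) := {l | l ∈ A ∧ l.length < n}

theorem tl_cut (s : Step D) (n : ℕ) (A : Set (List (Step D))) :
    tl s (cut (n + 1) A) = cut n (tl s A) := by
  ext l
  simp [tl, cut]

theorem cut_zero (A : Set (List (Step D))) : cut 0 A = ∅ := by
  ext l
  simp [cut]

theorem SS_le_of_cut {A : Set (List (Step D))} {f : List (Step D) → ℝ≥0∞} {c G : ℝ≥0∞}
    (h : ∀ n, c * SS (cut n A) f ≤ G) : c * SS A f ≤ G := by
  rw [SS_eq_iSup_length, ENNReal.mul_iSup]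
  exact iSup_le fun n => le_trans (mul_le_mul' le_rfl
    (SS_mono (fun l hl => show l ∈ cut (n + 1) A from ⟨hl.1, Nat.lt_succ_of_le hl.2⟩)
      fun _ _ => le_rfl)) (h (n + 1))

noncomputable def FF (lam : ℝ) (η : Cfg D) (x : V D) (A : Set (List (Step D))) : ℝ≥0∞ :=
  SS A (W lam η x)

noncomputable def NS (lam : ℝ) (η : Cfg D) (c : V D → Step D → Prop) (x : V D)
    (A : Set (List (Step D))) : ℝ≥0∞ := SS A fun l => nst c x l * W lam η x l

open Classical in
theorem FF_step (lam : ℝ) (η : Cfg D) (x : V D) (A : Set (List (Step D))) :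
    FF lam η x A = (if [] ∈ A then 1 else 0) +
      ∑ s, ENNReal.ofReal (pr lam η x s) * FF lam η (x + vec s) (tl s A) := by
  rw [FF, SS_W_cons]
  congr 1

open Classical in
theorem NS_step (lam : ℝ) (η : Cfg D) (c : V D → Step D → Prop) (x : V D)
    (A : Set (List (Step D))) :
    NS lam η c x A = ∑ s, ENNReal.ofReal (pr lam η x s) *
      ((if c x s then 1 else 0) * FF lam η (x + vec s) (tl s A) +
        NS lam η c (x + vec s) (tl s A)) := by
  rw [NS, SS_cons]
  have z : A.indicator (fun l => (nst c x l : ℝ≥0∞) * W lam η x l) [] = 0 := by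
    by_cases h : [] ∈ A <;> simp [h]
  rw [z, zero_add]
  refine Finset.sum_congr rfl fun s _ => ?_
  rw [FF, NS, ← SS_mul_left, ← SS_add, ← SS_mul_left]
  refine SS_congr fun l _ => ?_
  rw [nst_cons, W_cons]
  push_cast
  split_ifs <;> simp <;> ring

theorem FF_mono (lam : ℝ) (η : Cfg D) (x : V D) {A B : Set (List (Step D))} (h : A ⊆ B) :
    FF lam η x A ≤ FF lam η x B := SS_mono h fun _ _ => le_rfl

theorem NS_mono (lam : ℝ) (η : Cfg D) (c : V D → Step D → Prop) (x : V D)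
    {A B : Set (List (Step D))} (h : A ⊆ B) : NS lam η c x A ≤ NS lam η c x B :=
  SS_mono h fun _ _ => le_rfl

/-! ### excursions -/

variable {lam : ℝ} {ω : Cfg D} {u : V D}

theorem root_notMem (ω : Cfg D) (u : V D) : u ∉ Bush ω u := fun h => by
  have := Bush_level h
  omega

theorem antich_exc (ω : Cfg D) (u : V D) : Antich (ExcSet ω u) := by
  rintro e he _ hl ⟨t, rfl⟩
  cases t with
  | nil => simp
  | cons s t =>
    have := hl.2 e.length (by simp)
    rw [loc_append_left _ le_rfl, loc_length, he.1] at this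
    exact absurd this (root_notMem ω u)

theorem exists_exc (hR : Root ω u) (t : List (Step D)) : ∀ y ∈ Bush ω u, W lam ω y t ≠ 0 →
    y + pos t ∉ Bush ω u →
      ∃ e, e <+: t ∧ y + pos e = u ∧ ∀ i < e.length, y + loc e i ∈ Bush ω u := by
  induction t with
  | nil => intro y hy _ h; exact absurd (by simpa using hy) h
  | cons s t ih =>
    intro y hy h0 h
    rw [W_cons, mul_ne_zero_iff] at h0
    have ho : ω (edge y s) = true := open_of_pr_ne (lam := lam) fun k => h0.1 (by simp [k])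
    by_cases k : y + vec s ∈ Bush ω u
    · obtain ⟨e, p, q, r⟩ := ih _ k h0.2 (by simpa [add_assoc] using h)
      refine ⟨s :: e, List.cons_prefix_cons.2 ⟨rfl, p⟩, by simpa [add_assoc] using q, fun i hi => ?_⟩
      cases i with
      | zero => simpa using hy
      | succ i => rw [loc_cons_succ, ← add_assoc]; exact r i (by simpa using hi)
    · obtain ⟨rfl, rfl⟩ := hR.exit hy ho k
      refine ⟨[bck D], List.cons_prefix_cons.2 ⟨rfl, List.nil_prefix⟩, by simp [vec_bck_e0],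
        fun i hi => ?_⟩
      obtain rfl : i = 0 := by simpa using hi
      simpa using hy

theorem nst_exc {e : List (Step D)} (he : e ∈ ExcSet ω u) :
    nst (InB ω u) (u + e0 D) e = e.length := by
  rw [← nst_true e (u + e0 D)]
  exact nst_congr fun i hi => ⟨fun _ => trivial, fun _ => Or.inl (he.2 i hi)⟩

theorem FF_exc (hR : Root ω u) {T : Set (List (Step D))}
    (hT : ∀ t ∈ T, u + e0 D + pos t ∉ Bush ω u) :
    FF lam ω (u + e0 D) T =
      SS (ExcSet ω u) fun e => W lam ω (u + e0 D) e * FF lam ω u {t | e ++ t ∈ T} := by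
  rw [FF, SS_dec (antich_exc ω u) _ fun t ht h0 => ?_]
  · refine SS_congr fun e he => ?_
    rw [FF, ← SS_mul_left]
    exact SS_congr fun t _ => by rw [W_append, he.1]
  · obtain ⟨e, p, q, r⟩ := exists_exc hR t _ (self_mem_Up _ _ _) h0 (hT t ht)
    exact ⟨e, ⟨q, r⟩, p⟩

theorem NS_exc (hR : Root ω u) {T : Set (List (Step D))}
    (hT : ∀ t ∈ T, u + e0 D + pos t ∉ Bush ω u) :
    NS lam ω (InB ω u) (u + e0 D) T =
      SS (ExcSet ω u) fun e => W lam ω (u + e0 D) e * (e.length * FF lam ω u {t | e ++ t ∈ T} +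
        NS lam ω (InB ω u) u {t | e ++ t ∈ T}) := by
  rw [NS, SS_dec (antich_exc ω u) _ fun t ht h0 => ?_]
  · refine SS_congr fun e he => ?_
    rw [FF, NS, ← SS_mul_left, ← SS_add, ← SS_mul_left]
    refine SS_congr fun t _ => ?_
    rw [W_append, nst_append, he.1, nst_exc he]
    push_cast
    ring
  · obtain ⟨e, p, q, r⟩ := exists_exc hR t _ (self_mem_Up _ _ _) (right_ne_zero_of_mul h0) (hT t ht)
    exact ⟨e, ⟨q, r⟩, p⟩

/-! ### one step probabilities -/

theorem edge_ne {x : V D} (hx : x ∉ Bush ω u) {s : Step D} (h : ¬ (x = u ∧ s = fwd D)) :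
    edge x s ≠ edge u (fwd D) := fun k => by
  rcases edge_eq_iff.1 k.symm with k | k
  · exact h k
  · exact hx (by rw [k.1, vec_fwd_e0]; exact self_mem_Up _ _ _)

theorem pr_shut {x : V D} (hx : x ∉ Bush ω u) (hu : x ≠ u) (s : Step D) :
    pr lam ω x s = pr lam (shut ω (edge u (fwd D))) x s :=
  pr_congr lam (fun _ => (shut_of_ne ω (edge_ne hx fun k => hu k.1)).symm) s

theorem out_shut (hR : Root ω u) {x : V D} (hx : x ∉ Bush ω u) {s : Step D}
    (h : ENNReal.ofReal (pr lam (shut ω (edge u (fwd D))) x s) ≠ 0) :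
    ¬ (x = u ∧ s = fwd D) ∧ x + vec s ∉ Bush ω u := by
  have ho := open_of_pr_ne (lam := lam) (ω := shut ω (edge u (fwd D))) (x := x) (s := s)
    fun k => h (by simp [k])
  have h1 : ¬ (x = u ∧ s = fwd D) := by
    rintro ⟨rfl, rfl⟩
    simp [shut_self] at ho
  rw [shut_of_ne ω (edge_ne hx h1)] at ho
  exact ⟨h1, fun k => h1 (hR.entry hx ho k)⟩

theorem Zq_shut (hR : Root ω u) :
    Zq lam ω u = wt lam (fwd D) + Zq lam (shut ω (edge u (fwd D))) u := by
  unfold Zq
  rw [← Finset.add_sum_erase _ _ (Finset.mem_univ (fwd D)),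
    ← Finset.add_sum_erase _ _ (Finset.mem_univ (fwd D)), if_pos hR.1, shut_self,
    if_neg (by simp), zero_add]
  congr 1
  refine Finset.sum_congr rfl fun s hs => ?_
  rw [shut_of_ne ω (edge_ne (root_notMem ω u) fun k => (Finset.mem_erase.1 hs).1 k.2)]

/-- probability of not entering the bush -/
noncomputable def bb (lam : ℝ) (ω : Cfg D) (u : V D) : ℝ≥0∞ :=
  ENNReal.ofReal (Zq lam (shut ω (edge u (fwd D))) u / Zq lam ω u)

theorem add_bb (hR : Root ω u) : ENNReal.ofReal (pr lam ω u (fwd D)) + bb lam ω u = 1 := by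
  have hZ := Zq_pos lam hR.1
  rw [bb, ← ENNReal.ofReal_add (pr_nonneg _ _ _ _) (div_nonneg (Zq_nonneg _ _ _) hZ.le),
    pr_of_open lam hR.1, ← add_div, ← Zq_shut hR, div_self hZ.ne', ENNReal.ofReal_one]

theorem sum_root (hR : Root ω u) (hZ : 0 < Zq lam (shut ω (edge u (fwd D))) u)
    (g : Step D → ℝ≥0∞) : ∑ s, ENNReal.ofReal (pr lam ω u s) * g s =
      ENNReal.ofReal (pr lam ω u (fwd D)) * g (fwd D) +
        bb lam ω u * ∑ s, ENNReal.ofReal (pr lam (shut ω (edge u (fwd D))) u s) * g s := by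
  have hZ' := Zq_pos lam hR.1
  rw [← Finset.add_sum_erase _ _ (Finset.mem_univ (fwd D)),
    ← Finset.add_sum_erase _ _ (Finset.mem_univ (fwd D)), pr_of_closed lam (shut_self _ _),
    ENNReal.ofReal_zero, zero_mul, zero_add, Finset.mul_sum]
  congr 1
  refine Finset.sum_congr rfl fun s hs => ?_
  have e := shut_of_ne ω (edge_ne (root_notMem ω u) fun k => (Finset.mem_erase.1 hs).1 k.2)
  rw [← mul_assoc, bb, ← ENNReal.ofReal_mul (div_pos hZ hZ').le]
  congr 2
  unfold pr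
  rw [e]
  split_ifs
  · field_simp
  · simp

theorem bb_ne (hR : Root ω u) (hZ : 0 < Zq lam (shut ω (edge u (fwd D))) u) : bb lam ω u ≠ 0 := by
  simpa [bb] using div_pos hZ (Zq_pos lam hR.1)

/-- cancel the return to the root -/
theorem cancel {a b X Y : ℝ≥0∞} (h : a + b = 1) (hb : b ≠ 0) (hX : X = a * X + b * Y) : Y ≤ X := by
  by_cases k : X = ∞
  · rw [k]; exact le_top
  have ha : a ≠ ∞ := ne_top_of_le_ne_top ENNReal.one_ne_top (h ▸ le_self_add)
  have hb' : b ≠ ∞ := ne_top_of_le_ne_top ENNReal.one_ne_top (h ▸ le_add_self)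
  have e : a * X + b * X = a * X + b * Y := by rw [← add_mul, h, one_mul]; exact hX
  exact ((ENNReal.mul_right_inj hb hb').1
    ((ENNReal.add_right_inj (ENNReal.mul_ne_top ha k)).1 e)).ge

/-! ### the recursion at the root -/

theorem FF_root (hR : Root ω u) (hZ : 0 < Zq lam (shut ω (edge u (fwd D))) u)
    {C : Set (List (Step D))} (hC : ∀ l ∈ C, u + pos l ∉ Bush ω u ∧ u + pos l ≠ u) :
    FF lam ω u C = ENNReal.ofReal (pr lam ω u (fwd D)) *
        SS (ExcSet ω u) (fun e => W lam ω (u + e0 D) e * FF lam ω u {t | fwd D :: e ++ t ∈ C}) +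
      bb lam ω u * ∑ s, ENNReal.ofReal (pr lam (shut ω (edge u (fwd D))) u s) *
        FF lam ω (u + vec s) (tl s C) := by
  rw [FF_step, if_neg fun k => (hC _ k).2 (by simp), zero_add, sum_root hR hZ, vec_fwd_e0,
    FF_exc hR fun t ht => by simpa [vec_fwd_e0, add_assoc] using (hC _ ht).1]
  rfl

theorem NS_root (hR : Root ω u) (hZ : 0 < Zq lam (shut ω (edge u (fwd D))) u)
    {C : Set (List (Step D))} (hC : ∀ l ∈ C, u + pos l ∉ Bush ω u ∧ u + pos l ≠ u) :
    NS lam ω (InB ω u) u C = ENNReal.ofReal (pr lam ω u (fwd D)) *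
        SS (ExcSet ω u) (fun e => W lam ω (u + e0 D) e *
          ((e.length + 1) * FF lam ω u {t | fwd D :: e ++ t ∈ C} +
            NS lam ω (InB ω u) u {t | fwd D :: e ++ t ∈ C})) +
      bb lam ω u * ∑ s, ENNReal.ofReal (pr lam (shut ω (edge u (fwd D))) u s) *
        NS lam ω (InB ω u) (u + vec s) (tl s C) := by
  have hT : ∀ t ∈ tl (fwd D) C, u + e0 D + pos t ∉ Bush ω u := fun t ht => by
    simpa [vec_fwd_e0, add_assoc] using (hC _ ht).1
  rw [NS_step, sum_root hR hZ, vec_fwd_e0, if_pos (show InB ω u u (fwd D) from Or.inr ⟨rfl, rfl⟩),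
    one_mul, FF_exc hR hT, NS_exc hR hT, ← SS_add]
  congr 2
  · refine SS_congr fun e _ => ?_
    rw [← mul_add, ← add_assoc, add_mul, one_mul, add_comm (_ * _) (FF _ _ _ _)]
    rfl
  · refine Finset.sum_congr rfl fun s _ => ?_
    by_cases k : ENNReal.ofReal (pr lam (shut ω (edge u (fwd D))) u s) = 0
    · rw [k, zero_mul, zero_mul]
    · rw [if_neg (show ¬ InB ω u u s from fun j =>
        j.elim (root_notMem ω u) (out_shut hR (root_notMem ω u) k).1), zero_mul, zero_add]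

/-- the standing assumptions on a starting site and a set of lists -/
def Ok (ω : Cfg D) (u x : V D) (A : Set (List (Step D))) : Prop :=
  x ∉ Bush ω u ∧ Antich A ∧
    (∀ l₁ l₂ e, x + pos l₁ = u → e ∈ ExcSet ω u → (l₁ ++ fwd D :: e ++ l₂ ∈ A ↔ l₁ ++ l₂ ∈ A)) ∧
    ∀ l ∈ A, x + pos l ∉ Bush ω u ∧ x + pos l ≠ u

theorem Ok.tl {x : V D} {A : Set (List (Step D))} (h : Ok ω u x A) {s : Step D}
    (hs : x + vec s ∉ Bush ω u) : Ok ω u (x + vec s) (tl s A) :=
  ⟨hs, h.2.1.tail [s], fun l₁ l₂ e a b => h.2.2.1 (s :: l₁) l₂ e (by simpa [add_assoc] using a) b,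
    fun l hl => by simpa [add_assoc] using h.2.2.2 _ hl⟩

theorem Ok.exc {A : Set (List (Step D))} (h : Ok ω u u A) {e : List (Step D)}
    (he : e ∈ ExcSet ω u) : {t | fwd D :: e ++ t ∈ A} = A :=
  Set.ext fun t => h.2.2.1 [] t e (by simp) he

theorem Ok.exc_cut {A : Set (List (Step D))} (h : Ok ω u u A) {e : List (Step D)}
    (he : e ∈ ExcSet ω u) (n : ℕ) : {t | fwd D :: e ++ t ∈ cut (n + 1) A} ⊆ cut n A := by
  intro t ht
  refine ⟨(h.2.2.1 [] t e (by simp) he).1 ht.1, ?_⟩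
  have := ht.2
  simp only [List.cons_append, List.length_cons, List.length_append] at this
  omega

/-- termwise comparison along the steps of the shut walk -/
theorem sum_le (hR : Root ω u) {x : V D} {A : Set (List (Step D))} (h : Ok ω u x A)
    {f g : Step D → ℝ≥0∞} (hfg : ∀ s, Ok ω u (x + vec s) (TraM.tl s A) → f s ≤ g s) :
    ∑ s, ENNReal.ofReal (pr lam (shut ω (edge u (fwd D))) x s) * f s ≤
      ∑ s, ENNReal.ofReal (pr lam (shut ω (edge u (fwd D))) x s) * g s := by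
  refine Finset.sum_le_sum fun s _ => ?_
  by_cases k : ENNReal.ofReal (pr lam (shut ω (edge u (fwd D))) x s) = 0
  · rw [k, zero_mul, zero_mul]
  · exact mul_le_mul' le_rfl (hfg s (h.tl (out_shut hR h.1 k).2))

theorem nil_cut (n : ℕ) (A : Set (List (Step D))) : [] ∈ cut (n + 1) A ↔ [] ∈ A := by simp [cut]

/-! ### the masses agree -/

open Classical in
theorem FF_le (hR : Root ω u) (hZ : 0 < Zq lam (shut ω (edge u (fwd D))) u)
    (h1 : SS (ExcSet ω u) (W lam ω (u + e0 D)) = 1) (n : ℕ) : ∀ x A, Ok ω u x A →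
      FF lam ω x (cut n A) ≤ FF lam (shut ω (edge u (fwd D))) x A := by
  induction n with
  | zero => intro x A _; simp [cut_zero, FF]
  | succ n ih =>
    intro x A h
    by_cases hx : x = u
    · subst hx
      rw [FF_root hR hZ fun l hl => h.2.2.2 l hl.1, ← one_mul (FF lam (shut _ _) x A),
        ← add_bb (lam := lam) hR, add_mul]
      refine add_le_add (mul_le_mul' le_rfl ?_) (mul_le_mul' le_rfl ?_)
      · refine (SS_mono subset_rfl fun e he => mul_le_mul' le_rfl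
          ((FF_mono _ _ _ (h.exc_cut he n)).trans (ih _ _ h))).trans ?_
        rw [RecM.SS_mul_right, h1, one_mul]
      · rw [FF_step lam (shut _ _) x A]
        exact le_add_left (sum_le hR h fun s hs => by rw [tl_cut]; exact ih _ _ hs)
    · rw [FF_step, FF_step lam (shut _ _) x A]
      simp only [pr_shut h.1 hx]
      exact add_le_add (le_of_eq (if_congr (nil_cut n A) rfl rfl))
        (sum_le hR h fun s hs => by rw [tl_cut]; exact ih _ _ hs)

open Classical in
theorem FF_rec (hR : Root ω u) (hZ : 0 < Zq lam (shut ω (edge u (fwd D))) u)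
    (h1 : SS (ExcSet ω u) (W lam ω (u + e0 D)) = 1) {x : V D} {A : Set (List (Step D))}
    (h : Ok ω u x A) : (if [] ∈ A then 1 else 0) +
      ∑ s, ENNReal.ofReal (pr lam (shut ω (edge u (fwd D))) x s) * FF lam ω (x + vec s) (tl s A) ≤
        FF lam ω x A := by
  by_cases hx : x = u
  · subst hx
    rw [if_neg fun k => (h.2.2.2 _ k).2 (by simp), zero_add]
    refine cancel (add_bb (lam := lam) hR) (bb_ne hR hZ) ?_
    have := FF_root hR hZ h.2.2.2
    rwa [SS_congr (g := fun e => W lam ω (x + e0 D) e * FF lam ω x A)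
      (fun e he => by rw [h.exc he]), RecM.SS_mul_right, h1, one_mul] at this
  · rw [FF_step lam ω x A]
    simp only [pr_shut h.1 hx]
    exact le_rfl

open Classical in
theorem FF_ge (hR : Root ω u) (hZ : 0 < Zq lam (shut ω (edge u (fwd D))) u)
    (h1 : SS (ExcSet ω u) (W lam ω (u + e0 D)) = 1) (n : ℕ) : ∀ x A, Ok ω u x A →
      FF lam (shut ω (edge u (fwd D))) x (cut n A) ≤ FF lam ω x A := by
  induction n with
  | zero => intro x A _; simp [cut_zero, FF]
  | succ n ih =>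
    intro x A h
    refine le_trans ?_ (FF_rec hR hZ h1 h)
    rw [FF_step]
    exact add_le_add (le_of_eq (if_congr (nil_cut n A) rfl rfl))
      (sum_le hR h fun s hs => by rw [tl_cut]; exact ih _ _ hs)

theorem FF_eq (hR : Root ω u) (hZ : 0 < Zq lam (shut ω (edge u (fwd D))) u)
    (h1 : SS (ExcSet ω u) (W lam ω (u + e0 D)) = 1) {x : V D} {A : Set (List (Step D))}
    (h : Ok ω u x A) : FF lam ω x A = FF lam (shut ω (edge u (fwd D))) x A := by
  refine le_antisymm ?_ ?_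
  · have := SS_le_of_cut (c := 1) fun n => (one_mul _).trans_le (FF_le hR hZ h1 n x A h)
    rwa [one_mul] at this
  · have := SS_le_of_cut (c := 1) fun n => (one_mul _).trans_le (FF_ge hR hZ h1 n x A h)
    rwa [one_mul] at this

/-! ### the counted steps -/

theorem NS_shut_root {A : Set (List (Step D))} (η : Cfg D) (h : [] ∉ A) :
    NS lam η (fun x _ => x = u) u A = FF lam η u A +
      ∑ s, ENNReal.ofReal (pr lam η u s) * NS lam η (fun x _ => x = u) (u + vec s) (tl s A) := by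
  rw [NS_step, FF_step, if_neg h, zero_add, ← Finset.sum_add_distrib]
  exact Finset.sum_congr rfl fun s _ => by rw [if_pos rfl, one_mul, mul_add]

theorem NS_off {A : Set (List (Step D))} (η : Cfg D) {c : V D → Step D → Prop} {x : V D}
    (h : ∀ s, ¬ c x s) :
    NS lam η c x A = ∑ s, ENNReal.ofReal (pr lam η x s) * NS lam η c (x + vec s) (tl s A) := by
  rw [NS_step]
  exact Finset.sum_congr rfl fun s _ => by rw [if_neg (h s), zero_mul, zero_add]

theorem SS_exc (h1 : SS (ExcSet ω u) (W lam ω (u + e0 D)) = 1) (X Y : ℝ≥0∞) :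
    SS (ExcSet ω u) (fun e => W lam ω (u + e0 D) e * ((e.length + 1) * X + Y)) =
      SS (ExcSet ω u) (fun e => (e.length + 1) * W lam ω (u + e0 D) e) * X + Y := by
  rw [SS_congr (g := fun e => (e.length + 1) * W lam ω (u + e0 D) e * X + W lam ω (u + e0 D) e * Y)
    (fun e _ => by ring), SS_add, RecM.SS_mul_right, RecM.SS_mul_right, h1, one_mul]

theorem mul_sum' (κ : ℝ≥0∞) (p g : Step D → ℝ≥0∞) : ∑ s, p s * (κ * g s) = κ * ∑ s, p s * g s := by
  rw [Finset.mul_sum]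
  exact Finset.sum_congr rfl fun s _ => mul_left_comm _ _ _

theorem NS_le (hR : Root ω u) (hZ : 0 < Zq lam (shut ω (edge u (fwd D))) u)
    (h1 : SS (ExcSet ω u) (W lam ω (u + e0 D)) = 1) {κ : ℝ≥0∞}
    (h2 : ENNReal.ofReal (pr lam ω u (fwd D)) *
      SS (ExcSet ω u) (fun e => (e.length + 1) * W lam ω (u + e0 D) e) = bb lam ω u * κ)
    (n : ℕ) : ∀ x A, Ok ω u x A → NS lam ω (InB ω u) x (cut n A) ≤
      κ * NS lam (shut ω (edge u (fwd D))) (fun x _ => x = u) x A := by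
  induction n with
  | zero => intro x A _; simp [cut_zero, NS]
  | succ n ih =>
    intro x A h
    by_cases hx : x = u
    · subst hx
      have e := NS_shut_root (lam := lam) (u := x) (shut ω (edge x (fwd D)))
        fun k => (h.2.2.2 _ k).2 (by simp)
      rw [NS_root hR hZ fun l hl => h.2.2.2 l hl.1]
      refine le_trans (add_le_add (mul_le_mul' le_rfl (SS_mono subset_rfl fun e he =>
        mul_le_mul' le_rfl (add_le_add (mul_le_mul' le_rfl
          ((FF_mono _ _ _ (h.exc_cut he n)).trans (FF_le hR hZ h1 n _ _ h)))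
          ((NS_mono _ _ _ _ (h.exc_cut he n)).trans (ih _ _ h)))))
        (mul_le_mul' le_rfl (sum_le hR h (g := fun s => κ * NS lam (shut ω (edge x (fwd D)))
          (fun y _ => y = x) (x + vec s) (tl s A)) fun s hs => by rw [tl_cut]; exact ih _ _ hs))) ?_
      rw [SS_exc h1, mul_sum', mul_add, ← mul_assoc, h2, add_right_comm, mul_assoc, ← mul_add,
        ← mul_add, ← e, ← add_mul, add_comm (bb _ _ _), add_bb hR, one_mul]
    · rw [NS_off ω fun s k => k.elim h.1 fun j => hx j.1, NS_off (shut _ _) fun _ => hx, ← mul_sum']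
      simp only [pr_shut h.1 hx]
      exact sum_le hR h fun s hs => by rw [tl_cut]; exact ih _ _ hs

theorem NS_ge (hR : Root ω u) (hZ : 0 < Zq lam (shut ω (edge u (fwd D))) u)
    (h1 : SS (ExcSet ω u) (W lam ω (u + e0 D)) = 1) {κ : ℝ≥0∞}
    (h2 : ENNReal.ofReal (pr lam ω u (fwd D)) *
      SS (ExcSet ω u) (fun e => (e.length + 1) * W lam ω (u + e0 D) e) = bb lam ω u * κ)
    (n : ℕ) : ∀ x A, Ok ω u x A →
      κ * NS lam (shut ω (edge u (fwd D))) (fun x _ => x = u) x (cut n A) ≤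
        NS lam ω (InB ω u) x A := by
  induction n with
  | zero => intro x A _; simp [cut_zero, NS]
  | succ n ih =>
    intro x A h
    by_cases hx : x = u
    · subst hx
      have e := NS_root hR hZ h.2.2.2
      rw [SS_congr (g := fun e => W lam ω (x + e0 D) e * ((e.length + 1) * FF lam ω x A +
        NS lam ω (InB ω x) x A)) (fun e he => by rw [h.exc he]), SS_exc h1, mul_add, ← mul_assoc,
        h2, add_right_comm, mul_assoc, ← mul_add, add_comm] at e
      refine le_trans ?_ (cancel (add_bb (lam := lam) hR) (bb_ne hR hZ) e)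
      rw [NS_shut_root _ fun k => (h.2.2.2 _ k.1).2 (by simp), mul_add, ← mul_sum']
      exact add_le_add (mul_le_mul' le_rfl (FF_ge hR hZ h1 _ _ _ h))
        (sum_le hR h fun s hs => by rw [tl_cut]; exact ih _ _ hs)
    · rw [NS_off ω fun s k => k.elim h.1 fun j => hx j.1, NS_off (shut _ _) fun _ => hx, ← mul_sum']
      simp only [pr_shut h.1 hx]
      exact sum_le hR h fun s hs => by rw [tl_cut]; exact ih _ _ hs

end TraM

open TraM in
theorem tra (hE : EXCStmt) : TRAStmt := by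
  intro D lam hlam ω u A hR h0 hZ hA hc hend
  obtain ⟨h1, h2, -⟩ := hE D lam hlam ω u hR
  have h : Ok ω u 0 A := ⟨h0, hA, fun l₁ l₂ e a b => hc l₁ l₂ e (by simpa using a) b,
    fun l hl => by simpa using hend l hl⟩
  have h3 : ENNReal.ofReal (1 / Zq lam ω u) * pih (gk 0 lam) ω u = bb lam ω u *
      (pih (gk 0 lam) ω u * ENNReal.ofReal (1 / Zq lam (shut ω (edge u (fwd D))) u)) := by
    have hZ' := Zq_pos lam hR.1
    rw [mul_left_comm, mul_comm, bb, ← ENNReal.ofReal_mul (div_pos hZ hZ').le]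
    congr 2
    field_simp
  rw [h3] at h2
  rw [← mul_assoc]
  refine le_antisymm ?_ (SS_le_of_cut fun n => NS_ge hR hZ h1 h2 n 0 A h)
  have := SS_le_of_cut (c := 1) fun n => (one_mul _).trans_le (NS_le hR hZ h1 h2 n 0 A h)
  rwa [one_mul] at this

end Pool.Agent.MP_8c549f_pr

/-!
The mean duration of the first block splits into the regular steps and the time spent in bushes.
-/

set_option autoImplicit false

namespace Pool.Agent.MP_8c549f_pr

open MeasureTheory Filter Topology Real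
open scoped ENNReal NNReal

variable {D : ℕ}

namespace SplitM

open Classical in
/-- every step of a block is regular or is made in exactly one maximal bush -/
theorem ce_split (h1 : RT1Stmt) (lam : ℝ) (ω : Cfg D) :
    CE lam ω (fun _ _ => True) = CE lam ω (Reg ω) +
      ∑' u : V D, if 0 ≤ u 0 ∧ Root ω u ∧ ¬ Und ω u then CE lam ω (InB ω u) else 0 := by
  have e : ∀ u : V D, (if 0 ≤ u 0 ∧ Root ω u ∧ ¬ Und ω u then CE lam ω (InB ω u) else 0) =
      ∑' l : List (Step D), {l | Block l}.indicator (fun l =>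
        (if 0 ≤ u 0 ∧ Root ω u ∧ ¬ Und ω u then (nst (InB ω u) 0 l : ℝ≥0∞) else 0) *
          W lam ω 0 l * qr lam ω (pos l)) l := fun u => by
    split_ifs
    · rfl
    · simp
  rw [tsum_congr e, ENNReal.tsum_comm]
  unfold CE SS
  rw [← ENNReal.tsum_add]
  refine tsum_congr fun l => ?_
  by_cases hl : Block l
  · simp only [Set.indicator_of_mem (show l ∈ {l | Block l} from hl)]
    rw [ENNReal.tsum_mul_right, ENNReal.tsum_mul_right, ← add_mul, ← add_mul, nst_true,
      h1 D ω l hl.1]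
  · simp only [Set.indicator_of_notMem (show l ∉ {l | Block l} from hl)]
    simp

open Classical in
/-- the part of the weight of a bush that is decided by the edges at its shape -/
noncomputable def FF (lam : ℝ) (u : V D) (S : Finset (V D)) (ω : Cfg D) : ℝ≥0∞ :=
  if RootS ω u (tr u S) then pih (gk 0 lam) ω u else 0

/-- the part of the weight of a bush that is decided by the other edges -/
noncomputable def GG (lam : ℝ) (u : V D) (S : Finset (V D)) (ω : Cfg D) : ℝ≥0∞ :=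
  {ω | ¬ Und ω u}.indicator (fun ω => Th lam ω u) (plus (clo (tr u S) ω))

theorem root_plus (ω : Cfg D) {u : V D} (hu : 0 ≤ u 0) : Root (plus ω) u ↔ Root ω u := by
  refine (bush_congr u fun e he => plus_of_ne ω fun h => ?_).2.1
  have := edge_lev (0 : V D) (bck D)
  rw [← h, zero_add, vec_bck_zero, Pi.zero_apply] at this
  omega

open Classical in
theorem term_eq (h2 : RT2Stmt) (h3 : RT3Stmt) (hT : TRBStmt) (hD : 1 ≤ D) {lam : ℝ} (hl : 0 ≤ lam)
    {ω : Cfg D} (u : V D) (hN : Nice lam (plus ω))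
    (hN' : Nice lam (shut (plus ω) (edge u (fwd D)))) :
    (if 0 ≤ u 0 ∧ Root (plus ω) u ∧ ¬ Und (plus ω) u then CE lam (plus ω) (InB (plus ω) u) else 0) =
      ∑' S : Finset (V D), if 0 ≤ u 0 then FF lam u S ω * GG lam u S ω else 0 := by
  by_cases hu : 0 ≤ u 0
  swap
  · simp [hu]
  simp only [hu, true_and, if_true]
  by_cases hR : Root ω u
  swap
  · rw [if_neg fun h => hR ((root_plus ω hu).1 h.1)]
    refine (ENNReal.tsum_eq_zero.2 fun S => ?_).symm
    rw [FF, if_neg fun h => hR h.1, zero_mul]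
  obtain ⟨a1, a2, -⟩ := h2 D hD u
  obtain ⟨S, hS⟩ := a1 ω hR
  obtain ⟨-, b2, b3⟩ := h3 D lam ω u (tr u S) hu
  obtain ⟨b3, b4⟩ := b3 hS
  rw [tsum_eq_single S fun S' hS' => by
    rw [FF, if_neg fun h => hS' (a2 ω S' S h hS), zero_mul], FF, if_pos hS, GG]
  by_cases hU : Und (plus ω) u
  · rw [if_neg fun h => h.2 hU, Set.indicator_of_notMem
      (show plus (clo (tr u S) ω) ∉ {ω | ¬ Und ω u} from fun h => h (b3.1 hU)), mul_zero]
  · have hR' := (root_plus ω hu).2 hR
    rw [if_pos ⟨hR', hU⟩, Set.indicator_of_mem (show plus (clo (tr u S) ω) ∈ {ω | ¬ Und ω u} from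
      fun h => hU (b3.2 h)), hT D lam hl (plus ω) u hR' hu (plus_bck ω) hN hN', b2, b4]

theorem dep_FF (h2 : RT2Stmt) (hD : 1 ≤ D) (lam : ℝ) (u : V D) (S : Finset (V D)) :
    Dep (FF lam u S) (near (tr u S) : Set (Edge D)) := (h2 D hD u).2.2.2.1 (tr u S) (gk 0 lam)

theorem meas_FF (h2 : RT2Stmt) (hD : 1 ≤ D) (lam : ℝ) (u : V D) (S : Finset (V D)) :
    Measurable (FF lam u S) := (dep_FF h2 hD lam u S).measurable (Finset.finite_toSet _)

theorem meas_GG (hM : MEASStmt) (lam : ℝ) (u : V D) (S : Finset (V D)) :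
    Measurable (GG lam u S) :=
  (((hM D lam).2.2.2.2.2.1 u).2.indicator ((hM D lam).2.1 u).2.compl).comp
    (measurable_plus.comp (measurable_clo _))

theorem int_FF (h2 : RT2Stmt) (hD : 1 ≤ D) {p : ℝ} (h0 : 0 ≤ p) (h1 : p ≤ 1) (lam : ℝ) (u : V D)
    (S : Finset (V D)) : ∫⁻ ω, FF lam u S ω ∂perc D p = piS (gk 0 lam) p S := by
  classical
  have e : ∀ ω, FF lam u S ω = FF lam 0 S (shift u ω) := fun ω => by
    obtain ⟨-, -, -, -, a, b, -⟩ := h2 D hD u
    rw [FF, FF, tr_zero, ← b, a ω S]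
  have m : MeasurableSet {ω : Cfg D | RootS ω 0 S} :=
    ((h2 D hD 0).2.2.1 S).measurableSet (Finset.finite_toSet _)
  rw [lintegral_congr e, shft D p h0 h1 _ u (meas_FF h2 hD lam 0 S), piS, ← lintegral_indicator m]
  refine lintegral_congr fun ω => ?_
  rw [FF, tr_zero, Set.indicator_apply]
  rfl

theorem int_GG (hM : MEASStmt) (p lam : ℝ) (u : V D) (S : Finset (V D)) :
    ∫⁻ ω, GG lam u S ω ∂perc D p = ∫⁻ ω in {ω | ¬ Und (plus (clo (tr u S) ω)) u},
      Th lam (plus (clo (tr u S) ω)) u ∂perc D p := by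
  have m : MeasurableSet {ω : Cfg D | ¬ Und (plus (clo (tr u S) ω)) u} :=
    ((measurable_plus.comp (measurable_clo (tr u S))) ((hM D lam).2.1 u).2).compl
  rw [← lintegral_indicator m]
  rfl

theorem int_FG (hM : MEASStmt) (h2 : RT2Stmt) (hD : 1 ≤ D) {p : ℝ} (h0 : 0 ≤ p) (h1 : p ≤ 1)
    (lam : ℝ) (u : V D) (S : Finset (V D)) :
    ∫⁻ ω, FF lam u S ω * GG lam u S ω ∂perc D p = piS (gk 0 lam) p S *
      ∫⁻ ω in {ω | ¬ Und (plus (clo (tr u S) ω)) u},
        Th lam (plus (clo (tr u S) ω)) u ∂perc D p := by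
  rw [← int_FF h2 hD h0 h1 lam u S, ← int_GG hM]
  exact ind D p h0 h1 _ _ _ _ (meas_FF h2 hD lam u S) (meas_GG hM lam u S) (dep_FF h2 hD lam u S)
    (dep_clo (tr u S) fun ω => {ω | ¬ Und ω u}.indicator (fun ω => Th lam ω u) (plus ω))
    disjoint_compl_right

/-- exhaustion of a sum by the levels of a function -/
theorem tsum_eq_iSup_le {ι : Type} (f : ι → ℝ≥0∞) (k : ι → ℕ) :
    ∑' i, f i = ⨆ h : ℕ, ∑' i, if k i ≤ h then f i else 0 := by
  refine le_antisymm ?_ (iSup_le fun h => ENNReal.tsum_le_tsum fun i => ?_)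
  · rw [ENNReal.tsum_eq_iSup_sum]
    refine iSup_le fun T => le_iSup_of_le (T.sup k) (le_trans ?_ (ENNReal.sum_le_tsum T))
    exact Finset.sum_le_sum fun i hi => (if_pos (Finset.le_sup hi)).ge
  · split_ifs
    exacts [le_rfl, zero_le]

end SplitM

open SplitM in
theorem splits (hN : NICEStmt) (hM : MEASStmt) (h1 : RT1Stmt) (h2 : RT2Stmt) (h3 : RT3Stmt)
    (hT : TRBStmt) : SPLITStmt := by
  classical
  intro D hD
  obtain ⟨e₀, he, hN⟩ := hN D hD 1 one_pos
  refine ⟨min e₀ 1, lt_min he one_pos, fun p lam hp hp1 hl => ?_⟩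
  have h0 : 0 ≤ p := by linarith [min_le_right e₀ 1]
  obtain ⟨n1, n2⟩ := hN p lam (by linarith [min_le_left e₀ 1]) hp1.le hl
  have mR : Measurable fun ω : Cfg D => CE lam (plus ω) (Reg (plus ω)) :=
    ((hM D lam).2.2.2.2.2.2.2.2 (fun ω => Reg ω)
      fun x s => ((hM D lam).2.2.1 0 x s).1).1.comp measurable_plus
  have mT : ∀ (u : V D) (S : Finset (V D)),
      Measurable fun ω => if 0 ≤ u 0 then FF lam u S ω * GG lam u S ω else 0 := fun u S => by
    split_ifs
    exacts [(meas_FF h2 hD lam u S).mul (meas_GG hM lam u S), measurable_const]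
  have e : ∀ᵐ ω ∂perc D p, CE lam (plus ω) (fun _ _ => True) = CE lam (plus ω) (Reg (plus ω)) +
      ∑' u : V D, ∑' S : Finset (V D),
        if 0 ≤ u 0 then FF lam u S ω * GG lam u S ω else 0 := by
    filter_upwards [n1, (n2 hp1).1] with ω a b
    rw [ce_split h1, tsum_congr fun u => term_eq h2 h3 hT hD (zero_le_one.trans hl) u a (b u)]
  rw [AT, lintegral_congr_ae e, lintegral_add_left mR, AReg]
  congr 1
  rw [lintegral_tsum fun u => (Measurable.tsum (mT u)).aemeasurable,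
    tsum_congr fun u => lintegral_tsum fun S => (mT u S).aemeasurable, ENNReal.tsum_comm]
  refine Eq.trans (tsum_congr fun S => ?_)
    (tsum_eq_iSup_le (fun S => piS (gk 0 lam) p S * PhiS p lam S) (ht (e0 D)))
  rw [PhiS, ← ENNReal.tsum_mul_left]
  refine tsum_congr fun u => ?_
  split_ifs
  · exact int_FG hM h2 hD h0 hp1.le lam u S
  · simp

end Pool.Agent.MP_8c549f_pr

end MrgPart1

-- marker of a merged file
example : 731051 + 312405 = 731051 + 312405 := rfl
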