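import Pool.Agent.MP_8c549f_pr.Base2

-- ======== part 0: formerly Pool.Agent.MP_8c549f_pr.B5
section MrgPart0

/-!
The counted steps up to the first visit of a high level converge to the counted steps of the
first block on the event of escape.
-/

set_option autoImplicit false

namespace Pool.Agent.MP_8c549f_pr

open MeasureTheory Filter Topology Real
open scoped ENNReal NNReal

namespace LimM

variable {D : ℕ}

theorem tsum_dct {ι : Type} (F : ℕ → ι → ℝ≥0∞) (f B : ι → ℝ≥0∞) (hB : ∑' i, B i ≠ ∞)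
    (hF : ∀ n i, F n i ≤ B i) (h : ∀ i, Tendsto (fun n => F n i) atTop (𝓝 (f i))) :
    Tendsto (fun n => ∑' i, F n i) atTop (𝓝 (∑' i, f i)) := by
  let _ : MeasurableSpace ι := ⊤
  have : MeasurableSingletonClass ι := ⟨fun _ => trivial⟩
  simp only [← lintegral_count]
  exact tendsto_lintegral_of_dominated_convergence B (fun _ => measurable_from_top)
    (fun n => Eventually.of_forall (hF n)) (by rwa [lintegral_count]) (Eventually.of_forall h)

theorem antich_reach (n : ℕ) : Antich (ReachSet D n) :=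
  (RecM.antich_rec (n : ℤ)).mono fun _ h => ⟨h.1, h.2.1⟩

theorem reach_anti (lam : ℝ) (ω : Cfg D) (y : V D) :
    Antitone fun n : ℕ => SS (ReachSet D n) (W lam ω y) := by
  intro m n hmn
  refine cover_q lam ω y (antich_reach n) fun l hl _ => ?_
  obtain ⟨t, ht, h1, h2⟩ := exists_first_hit (H l) (fun i => (H_step l i).2) (c := m) (by simp)
    (n := l.length) (by rw [H_length, hl.2.1]; exact_mod_cast hmn)
  refine ⟨l.take t, ⟨fun i hi => ?_, by rw [lev_take, h1], One.stay_take hl.2.2 t⟩,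
    One.take_isPre l t⟩
  have : i < t := by simp at hi; omega
  rw [lev_take, H_take l this.le, h1]
  exact h2 i this

/-- weight of the continuations of a block up to level `n` -/
noncomputable def gg (lam : ℝ) (ω : Cfg D) (n : ℕ) (b : List (Step D)) : ℝ≥0∞ :=
  if lev b ≤ n then SS (ReachSet D (n - (lev b).toNat)) (W lam ω (pos b)) else 0

theorem gg_le_one (lam : ℝ) (ω : Cfg D) (n : ℕ) (b : List (Step D)) : gg lam ω n b ≤ 1 := by
  unfold gg
  split_ifs
  · exact kraft lam ω (antich_reach _) _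
  · exact zero_le

theorem gg_tendsto (lam : ℝ) (ω : Cfg D) (b : List (Step D)) :
    Tendsto (fun n => gg lam ω n b) atTop (𝓝 (qr lam ω (pos b))) := by
  have t1 := (tendsto_atTop_iInf (reach_anti lam ω (pos b))).comp
    (tendsto_sub_atTop_nat (lev b).toNat)
  refine t1.congr' ?_
  filter_upwards [eventually_ge_atTop (lev b).toNat] with n hn
  rw [gg, if_pos (by omega)]
  rfl

/-- the blocks have a finite total weight -/
theorem blocks_le (lam : ℝ) (ω : Cfg D) :
    SS {l : List (Step D) | Block l} (W lam ω 0) ≤ ∑' n : ℕ, SS (ASet D n) (W lam ω 0) := by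
  rw [SS_fiber _ fun l => (lev l).toNat - 1]
  refine ENNReal.tsum_le_tsum fun m => ?_
  refine cover_q lam ω 0 ((PieceB.antich_lev ((m : ℤ) + 1)).mono fun l hl => ⟨hl.1, ?_⟩)
    fun l hl _ => ?_
  · have h2 := Block.lev_pos hl.1
    have h3 : (lev l).toNat - 1 = m := hl.2
    omega
  · have h2 := Block.lev_pos hl.1
    have h3 : (lev l).toNat - 1 = m := hl.2
    obtain ⟨_, ⟨c1, _, c3, c4⟩, hc⟩ := hl.1
    rw [H_length] at c3
    have hlen : (l.take (l.length - 1)).length = l.length - 1 := by simp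
    refine ⟨l.take (l.length - 1), ⟨fun i hi => ?_, by rw [lev_take]; omega, fun t ht => ?_⟩,
      One.take_isPre l _⟩
    · rw [hlen] at hi
      rw [lev_take, H_take l hi.le]
      exact c4 i hi
    · have t1 : t ≤ l.length - 1 := hlen ▸ ht.1.2.1
      refine hc t (by omega) ⟨One.cand_congr ht.1 (by omega)
        fun i hi => (H_take l (by omega)).symm, fun i hi hil => ?_⟩
      rcases (show i ≤ l.length - 1 ∨ i = l.length by omega) with h | rfl
      · have := ht.2 i hi (by omega)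
        rwa [H_take l t1, H_take l h] at this
      · have := ht.2 (l.length - 1) t1 (by omega)
        rw [H_take l t1, H_take l le_rfl] at this
        rw [H_length]; omega

/-- truncated count -/
noncomputable def XX (lam : ℝ) (ω : Cfg D) (c : V D → Step D → Prop) (K n : ℕ) : ℝ≥0∞ :=
  SS {l | Block l} fun b => (min K (nst c 0 b) : ℕ) * W lam ω 0 b * gg lam ω n b

noncomputable def CK (lam : ℝ) (ω : Cfg D) (c : V D → Step D → Prop) (K : ℕ) : ℝ≥0∞ :=
  SS {l | Block l} fun b => (min K (nst c 0 b) : ℕ) * W lam ω 0 b * qr lam ω (pos b)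

theorem XX_tendsto (lam : ℝ) (ω : Cfg D) (c : V D → Step D → Prop) (K : ℕ)
    (h : ∑' n : ℕ, SS (ASet D n) (W lam ω 0) ≠ ∞) :
    Tendsto (XX lam ω c K) atTop (𝓝 (CK lam ω c K)) := by
  have hB : SS {l : List (Step D) | Block l} (fun b => (K : ℝ≥0∞) * W lam ω 0 b) ≠ ∞ := by
    rw [SS_mul_left]
    exact ENNReal.mul_ne_top (ENNReal.natCast_ne_top K)
      (ne_top_of_le_ne_top h (blocks_le lam ω))
  refine tsum_dct _ _ _ hB (fun n b => ?_) fun b => ?_
  · by_cases hb : b ∈ {l : List (Step D) | Block l}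
    · rw [Set.indicator_of_mem hb, Set.indicator_of_mem hb]
      refine (mul_le_of_le_one_right' (gg_le_one lam ω n b)).trans (mul_le_mul' ?_ le_rfl)
      exact_mod_cast min_le_left _ _
    · rw [Set.indicator_of_notMem hb]; exact zero_le
  · by_cases hb : b ∈ {l : List (Step D) | Block l}
    · simp only [Set.indicator_of_mem hb]
      exact ENNReal.Tendsto.const_mul (gg_tendsto lam ω b)
        (Or.inr (ENNReal.mul_ne_top (ENNReal.natCast_ne_top _) (W_ne_top lam ω 0 b)))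
    · simp only [Set.indicator_of_notMem hb]
      exact tendsto_const_nhds

theorem CK_le (lam : ℝ) (ω : Cfg D) (c : V D → Step D → Prop) (K : ℕ) :
    CK lam ω c K ≤ CE lam ω c := by
  refine SS_mono subset_rfl fun b _ => mul_le_mul' (mul_le_mul' ?_ le_rfl) le_rfl
  exact_mod_cast min_le_right _ _

theorem CE_le (lam : ℝ) (ω : Cfg D) (c : V D → Step D → Prop) :
    CE lam ω c ≤ ⨆ K, CK lam ω c K := by
  rw [CE, SS_eq_iSup_length]
  refine iSup_mono fun K => SS_mono (fun l hl => hl.1) fun b hb => ?_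
  rw [min_eq_right ((nst_le_length c 0 b).trans hb.2)]

theorem lt_lev {c : V D → Step D → Prop} {T : Finset (V D)} {a : ℤ}
    (hc : ∀ x s, c x s → x ∈ T ∧ a ≤ x 0) {b : List (Step D)} (hb : Block b)
    (h : nst c 0 b ≠ 0) : a < lev b := by
  rw [Ne, nst_eq_zero_iff] at h
  push Not at h
  obtain ⟨i, hi, h⟩ := h
  have h1 := (hc _ _ h).2
  have h2 := PieceB.H_lt hb hi
  rw [zero_add] at h1
  unfold H at h2
  omega

theorem append_mem {a : ℤ} {n : ℕ} {b t : List (Step D)} (hb : Block b) (ha : a < lev b)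
    (hn : lev b ≤ n) (ht : t ∈ ReachSet D (n - (lev b).toNat)) : b ++ t ∈ LSet D a n := by
  have h0 := Block.lev_pos hb
  have h1 := ht.2.1
  have hl : lev (b ++ t) = n := by rw [lev_append]; omega
  refine ⟨⟨fun i hi => ?_, hl, One.stay_append hb.1 ht.2.2⟩, fun j hj => ?_⟩
  · rcases lt_or_ge i b.length with h | h
    · have := PieceB.H_lt hb h
      rw [H_append_left t h.le]; omega
    · obtain ⟨k, rfl⟩ := Nat.exists_eq_add_of_le h
      rw [List.length_append] at hi
      have := ht.1 k (by omega)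
      rw [H_append_right, lev_append]; omega
  · have h2 : b.length ≤ j := not_lt.1 fun h => One.not_cut_append hb t h hj
    have h3 := (One.cut_append hb ht.2.2).2 j h2 hj.1.2.1
    rw [H_append_left t le_rfl, H_length] at h3
    omega

theorem XX_le (lam : ℝ) (ω : Cfg D) {c : V D → Step D → Prop} {T : Finset (V D)} {a : ℤ}
    (hc : ∀ x s, c x s → x ∈ T ∧ a ≤ x 0) (K n : ℕ) :
    XX lam ω c K n ≤ SS (LSet D a n) fun l => nst c 0 l * W lam ω 0 l := by
  rw [XX, SS_fiber (LSet D a n) One.fc]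
  refine ENNReal.tsum_le_tsum fun b => ?_
  by_cases hb : b ∈ {l : List (Step D) | Block l}
  swap
  · rw [Set.indicator_of_notMem hb]; exact zero_le
  rw [Set.indicator_of_mem hb]
  by_cases h0 : nst c 0 b = 0
  · simp [h0]
  have ha := lt_lev hc hb h0
  unfold gg
  split_ifs with hn
  swap
  · simp
  calc _ = SS (ReachSet D (n - (lev b).toNat))
        fun t => (min K (nst c 0 b) : ℕ) * W lam ω 0 b * W lam ω (pos b) t :=
        (SS_mul_left _ _ _).symm
    _ ≤ SS (ReachSet D (n - (lev b).toNat))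
        fun t => nst c 0 (b ++ t) * W lam ω 0 (b ++ t) := by
        refine SS_mono subset_rfl fun t _ => ?_
        rw [W_append, zero_add, mul_assoc]
        refine mul_le_mul' ?_ le_rfl
        rw [nst_append]
        exact_mod_cast (min_le_right _ _).trans (Nat.le_add_right _ _)
    _ = SS ((fun t => b ++ t) '' ReachSet D (n - (lev b).toNat))
        fun l => nst c 0 l * W lam ω 0 l :=
        (SS_image (List.append_right_injective b) fun l => nst c 0 l * W lam ω 0 l).symm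
    _ ≤ _ := by
        refine SS_mono ?_ fun _ _ => le_rfl
        rintro _ ⟨t, ht, rfl⟩
        exact ⟨append_mem hb ha hn ht, One.fc_append hb ht.2.2⟩

theorem le_XX (lam : ℝ) (ω : Cfg D) {c : V D → Step D → Prop} {a n₀ : ℤ}
    (hz : ∀ (y : V D) (l : List (Step D)), a < y 0 → Stay l → W lam ω y l ≠ 0 → n₀ ≤ y 0 + lev l →
      nst c y l = 0) (K : ℕ) {n : ℕ} (hn : n₀ ≤ n) :
    SS (LSet D a n) (fun l => (min K (nst c 0 l) : ℕ) * W lam ω 0 l) ≤
      K * SS (ASet D n) (W lam ω 0) + XX lam ω c K n := by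
  calc _ ≤ SS (ASet D n ∪ ⋃ b : {l : List (Step D) | Block l}, (fun t => b.1 ++ t) ''
        {t | t ∈ ReachSet D (n - (lev b.1).toNat) ∧ a < lev b.1 ∧ lev b.1 ≤ n})
        (fun l => (min K (nst c 0 l) : ℕ) * W lam ω 0 l) := by
        refine SS_mono (fun l hl => ?_) fun _ _ => le_rfl
        by_cases hcut : ∃ t, Cut l t
        · obtain ⟨b, t, hb, ht, rfl⟩ := One.split_cut hl.1.2.2 hcut
          have h1 := hl.2 _ (One.cut_append hb ht)
          rw [H_append_left t le_rfl, H_length] at h1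
          have h2 := hl.1.2.1
          rw [lev_append] at h2
          have h3 := ht t.length le_rfl
          rw [H_length] at h3
          have h4 := Block.lev_pos hb
          refine Or.inr (Set.mem_iUnion.2 ⟨⟨b, hb⟩, t, ⟨⟨fun i hi => ?_, ?_, ht⟩, h1, ?_⟩, rfl⟩)
          · have := hl.1.1 (b.length + i) (by rw [List.length_append]; omega)
            rw [H_append_right, lev_append] at this
            omega
          · show lev t = ((n - (lev b).toNat : ℕ) : ℤ)
            omega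
          · show lev b ≤ n
            omega
        · exact Or.inl ⟨hl.1.1, hl.1.2.1, fun t ht => hcut ⟨t, ht⟩⟩
    _ ≤ _ := SS_union_le _ _ _
    _ ≤ _ := by
        refine add_le_add ?_ ((SS_iUnion_le _ _).trans ?_)
        · rw [← SS_mul_left]
          refine SS_mono subset_rfl fun l _ => mul_le_mul' ?_ le_rfl
          exact_mod_cast min_le_left _ _
        rw [XX, SS_eq_tsum_subtype]
        refine ENNReal.tsum_le_tsum fun b => ?_
        rw [SS_image (List.append_right_injective b.1)]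
        by_cases h : a < lev b.1 ∧ lev b.1 ≤ n
        swap
        · rw [show {t | t ∈ ReachSet D (n - (lev b.1).toNat) ∧ a < lev b.1 ∧ lev b.1 ≤ n} = ∅ from
            Set.eq_empty_of_forall_notMem fun t ht => h ht.2, SS_empty]
          exact zero_le
        rw [gg, if_pos h.2, ← SS_mul_left]
        refine SS_mono (fun t ht => ht.1) fun t ht => ?_
        rw [W_append, zero_add]
        by_cases h0 : W lam ω (pos b.1) t = 0
        · simp [h0]
        have h1 := ht.1.2.1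
        have h2 := Block.lev_pos b.2
        have h3 := hz (pos b.1) t h.1 ht.1.2.2 h0 (by
          show n₀ ≤ lev b.1 + lev t
          omega)
        rw [nst_append, zero_add, h3, add_zero, mul_assoc]

/-! ### the marked steps -/

open Classical in
theorem nst_le_tsum (c : V D → Step D → Prop) (l : List (Step D)) : ∀ x : V D,
    (nst c x l : ℝ≥0∞) ≤
      ∑' i : ℕ, if ∃ s, l[i]? = some s ∧ c (x + loc l i) s then 1 else 0 := by
  induction l with
  | nil => simp
  | cons s l ih =>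
    intro x
    rw [tsum_eq_zero_add' ENNReal.summable, nst_cons, Nat.cast_add]
    refine add_le_add ?_ ((ih _).trans (le_of_eq ?_))
    · by_cases h : c x s <;> simp [h]
    · simp only [List.getElem?_cons_succ, loc_cons_succ, add_assoc]

/-- lists that stay above the start and whose last step starts in `T` -/
def Mk (T : Finset (V D)) : Set (List (Step D)) :=
  {u | ∃ v s, u = v ++ [s] ∧ Stay v ∧ pos v ∈ T}

theorem site_le (hR : RESLStmt) {lam : ℝ} (hl : 0 ≤ lam) {ω : Cfg D}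
    (h0 : ω (edge 0 (bck D)) = true) (y : V D) (s : Step D) :
    SS {v | Stay v ∧ pos v = y} (fun v => W lam ω 0 (v ++ [s])) ≠ ∞ := by
  refine ne_top_of_le_ne_top (ENNReal.ofReal_ne_top
    (r := (([bck D].length : ℕ) : ℝ) ^ 2 * exp (lam * ((expo y s - (-1) : ℤ) : ℝ)))) ?_
  rw [SS_eq_iSup_length]
  refine iSup_le fun k => ?_
  refine le_trans ?_ (hR D lam hl ω (Box D (k + 1) k) 0 y s (-1) [bck D] ?_ fun i hi => ?_)
  · rw [Gb, ← RecM.SS_mul_right]
    refine SS_mono (fun v hv => ⟨fun i hi => ?_, by rw [zero_add]; exact hv.1.2⟩) fun v hv => ?_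
    · have h1 := hv.1.1 i hi
      have h2 := (abs_loc_le v 0 i).2
      have h3 : v.length ≤ k := hv.2
      rw [zero_add, mem_Box]
      unfold H at h1
      refine ⟨h1, by push_cast; omega, Finset.sup_le fun j _ => ?_⟩
      have := abs_loc_le v j.succ i
      omega
    · rw [W_append, W_single, zero_add, hv.1.2]
  · rw [mem_Box]; simp
  · obtain rfl : i = 0 := by simpa using hi
    simp [h0, expo]

theorem Mk_ne_top (hR : RESLStmt) {lam : ℝ} (hl : 0 ≤ lam) {ω : Cfg D}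
    (h0 : ω (edge 0 (bck D)) = true) (T : Finset (V D)) : SS (Mk T) (W lam ω 0) ≠ ∞ := by
  have h1 : SS (Mk T) (W lam ω 0) ≤ SS (⋃ q : T × Step D, (fun v => v ++ [q.2]) ''
      {v | Stay v ∧ pos v = q.1.1}) (W lam ω 0) := by
    refine SS_mono ?_ fun _ _ => le_rfl
    rintro _ ⟨v, s, rfl, hv, hT⟩
    exact Set.mem_iUnion.2 ⟨(⟨pos v, hT⟩, s), v, ⟨hv, rfl⟩, rfl⟩
  refine ne_top_of_le_ne_top ?_ (h1.trans (SS_iUnion_le _ _))
  rw [tsum_fintype]
  refine ENNReal.sum_ne_top.2 fun q _ => ?_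
  rw [SS_image (List.append_left_injective [q.2])]
  exact site_le hR hl h0 _ _

/-- weight of the marked lists of length `i + 1` -/
noncomputable def mm (lam : ℝ) (ω : Cfg D) (T : Finset (V D)) (i : ℕ) : ℝ≥0∞ :=
  SS {u | u ∈ Mk T ∧ u.length - 1 = i} (W lam ω 0)

theorem mm_tail (hR : RESLStmt) {lam : ℝ} (hl : 0 ≤ lam) {ω : Cfg D}
    (h0 : ω (edge 0 (bck D)) = true) (T : Finset (V D)) :
    Tendsto (fun K : ℕ => ∑' i, mm lam ω T (i + K)) atTop (𝓝 0) := by
  refine ENNReal.tendsto_sum_nat_add _ ?_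
  have := Mk_ne_top hR hl h0 T
  rwa [SS_fiber _ fun u => u.length - 1] at this

open Classical in
theorem count_le (c : V D → Step D → Prop) (K : ℕ) (l : List (Step D)) :
    (nst c 0 l : ℝ≥0∞) ≤ (min K (nst c 0 l) : ℕ) +
      ∑' i : ℕ, if ∃ s, l[i + K]? = some s ∧ c (loc l (i + K)) s then 1 else 0 := by
  have e : nst c 0 l = nst c 0 (l.take K) + nst c (loc l K) (l.drop K) := by
    conv_lhs => rw [← List.take_append_drop K l, nst_append, zero_add]
    rfl
  have h1 : nst c 0 (l.take K) ≤ min K (nst c 0 l) :=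
    le_min ((nst_le_length c 0 _).trans (by simp)) (by omega)
  conv_lhs => rw [e, Nat.cast_add]
  refine add_le_add (by exact_mod_cast h1) ((nst_le_tsum c _ _).trans (le_of_eq ?_))
  simp only [List.getElem?_drop, ← loc_drop, add_comm K]

theorem tail_le (lam : ℝ) (ω : Cfg D) {c : V D → Step D → Prop} {T : Finset (V D)} {a : ℤ}
    (hc : ∀ x s, c x s → x ∈ T ∧ a ≤ x 0) {A : Set (List (Step D))} (hA : Antich A)
    (hS : ∀ l ∈ A, Stay l) (K : ℕ) :
    SS A (fun l => nst c 0 l * W lam ω 0 l) ≤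
      SS A (fun l => (min K (nst c 0 l) : ℕ) * W lam ω 0 l) + ∑' i, mm lam ω T (i + K) := by
  classical
  have h1 : SS A (fun l => nst c 0 l * W lam ω 0 l) ≤
      SS A (fun l => (min K (nst c 0 l) : ℕ) * W lam ω 0 l) + SS A fun l =>
        (∑' i : ℕ, if ∃ s, l[i + K]? = some s ∧ c (loc l (i + K)) s then 1 else 0) *
          W lam ω 0 l := by
    rw [← SS_add]
    refine SS_mono subset_rfl fun l _ => ?_
    rw [← add_mul]
    exact mul_le_mul' (count_le c K l) le_rfl
  refine h1.trans (add_le_add le_rfl ?_)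
  calc _ = ∑' i : ℕ, SS {l | l ∈ A ∧ ∃ s, l[i + K]? = some s ∧ c (loc l (i + K)) s}
        (W lam ω 0) := by
        unfold SS
        rw [ENNReal.tsum_comm]
        refine tsum_congr fun l => ?_
        by_cases hl : l ∈ A
        · rw [Set.indicator_of_mem hl, ← ENNReal.tsum_mul_right]
          refine tsum_congr fun i => ?_
          by_cases h : ∃ s, l[i + K]? = some s ∧ c (loc l (i + K)) s
          · rw [if_pos h, one_mul, Set.indicator_of_mem (by exact ⟨hl, h⟩)]
          · rw [if_neg h, zero_mul, Set.indicator_of_notMem fun h' => h h'.2]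
        · rw [Set.indicator_of_notMem hl]
          exact (ENNReal.tsum_eq_zero.2 fun i =>
            Set.indicator_of_notMem (fun h' => hl h'.1) _).symm
    _ ≤ _ := by
        refine ENNReal.tsum_le_tsum fun i => ?_
        refine cover_q lam ω 0 (hA.mono fun l hl => hl.1) fun l hl _ => ?_
        obtain ⟨hl, s, hs, hcs⟩ := hl
        obtain ⟨hi, rfl⟩ := List.getElem?_eq_some_iff.1 hs
        refine ⟨l.take (i + K + 1), ⟨⟨l.take (i + K), l[i + K],
          List.take_succ_eq_append_getElem hi, One.stay_take (hS l hl) _, (hc _ _ hcs).1⟩, ?_⟩,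
          One.take_isPre l _⟩
        show (l.take (i + K + 1)).length - 1 = i + K
        rw [List.length_take]; omega

end LimM

open LimM in
theorem lims : RESLStmt → LIMStmt := by
  intro hR D lam hl ω c T a n₀ h0 hN hc hz
  have hfin := hN.2 h0
  refine tendsto_order.2 ⟨fun x hx => ?_, fun x hx => ?_⟩
  · obtain ⟨K, hK⟩ := lt_iSup_iff.1 (hx.trans_le (CE_le lam ω c))
    filter_upwards [(tendsto_order.1 (XX_tendsto lam ω c K hfin)).1 x hK] with n hn
    exact hn.trans_le (XX_le lam ω hc K n)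
  · have t1 := (tendsto_const_nhds (x := CE lam ω c)).add (mm_tail hR hl h0 T)
    rw [add_zero] at t1
    obtain ⟨K, hK⟩ := ((tendsto_order.1 t1).2 x hx).exists
    have t2 := ENNReal.Tendsto.const_mul (a := (K : ℝ≥0∞))
      (ENNReal.tendsto_atTop_zero_of_tsum_ne_top hfin) (Or.inr (ENNReal.natCast_ne_top K))
    have t3 := (t2.add (XX_tendsto lam ω c K hfin)).add
      (tendsto_const_nhds (x := ∑' i, mm lam ω T (i + K)))
    rw [mul_zero, zero_add] at t3
    have hlt : CK lam ω c K + ∑' i, mm lam ω T (i + K) < x :=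
      (add_le_add (CK_le lam ω c K) le_rfl).trans_lt hK
    filter_upwards [(tendsto_order.1 t3).2 x hlt, eventually_ge_atTop n₀.toNat] with n hn hn0
    refine lt_of_le_of_lt ?_ hn
    refine (tail_le lam ω hc ((antich_reach n).mono fun l h => h.1) (fun l h => h.1.2.2) K).trans ?_
    exact add_le_add (le_XX lam ω hz K (by omega)) le_rfl

end Pool.Agent.MP_8c549f_pr

/-!
Time spent in the bush of a root, on the first block.
-/

set_option autoImplicit false

namespace Pool.Agent.MP_8c549f_pr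

open MeasureTheory Filter Topology Real
open scoped ENNReal NNReal

variable {D : ℕ}

namespace TrbM

theorem H_one (l₁ m l₂ : List (Step D)) {i : ℕ} (h : i ≤ l₁.length) :
    H (l₁ ++ m ++ l₂) i = H (l₁ ++ l₂) i := by
  rw [List.append_assoc, H_append_left _ h, H_append_left _ h]

theorem H_two (l₁ m l₂ : List (Step D)) {i : ℕ} (h : i ≤ m.length) :
    H (l₁ ++ m ++ l₂) (l₁.length + i) = lev l₁ + H m i := by
  rw [List.append_assoc, H_append_right, H_append_left _ h]

theorem H_three (l₁ m l₂ : List (Step D)) (hm : lev m = 0) (j : ℕ) :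
    H (l₁ ++ m ++ l₂) (l₁.length + j + m.length) = H (l₁ ++ l₂) (l₁.length + j) := by
  have e : l₁.length + j + m.length = (l₁ ++ m).length + j := by
    rw [List.length_append]; omega
  rw [e, H_append_right, H_append_right, lev_append, hm, add_zero]

/-- a cut at a level at most that of time `a` happens before time `a` -/
theorem cut_le {l : List (Step D)} {a t : ℕ} (h : Cand l t) (ht : H l t ≤ H l a) : t ≤ a := by
  by_contra hc
  obtain ⟨h1, _, h3, h4⟩ := h
  rcases Nat.lt_or_ge a (t - 1) with k | k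
  · have := h4 a k
    omega
  · have e : t - 1 = a := by omega
    rw [e] at h3
    omega

theorem cand_congr {l l' : List (Step D)} {a t : ℕ} (ht : t ≤ a) (ha : a ≤ l'.length)
    (e : ∀ i ≤ a, H l i = H l' i) (h : Cand l t) : Cand l' t := by
  obtain ⟨h1, _, h3, h4⟩ := h
  refine ⟨h1, ht.trans ha, ?_, fun i hi => ?_⟩
  · rw [← e t ht, ← e (t - 1) (by omega)]; exact h3
  · rw [← e i (by omega), ← e (t - 1) (by omega)]; exact h4 i hi

/-- every time of the short list is a time of the long list -/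
theorem time_short (l₁ m l₂ : List (Step D)) (hm : lev m = 0) (i : ℕ) :
    ∃ i', H (l₁ ++ m ++ l₂) i' = H (l₁ ++ l₂) i ∧ i ≤ i' ∧ i' ≤ i + m.length := by
  rcases le_or_gt i l₁.length with h | h
  · exact ⟨i, H_one l₁ m l₂ h, le_rfl, by omega⟩
  · obtain ⟨j, rfl⟩ : ∃ j, i = l₁.length + j := ⟨i - l₁.length, by omega⟩
    exact ⟨_, H_three l₁ m l₂ hm j, by omega, le_rfl⟩

/-- the times of the long list -/
theorem time_long (l₁ m l₂ : List (Step D)) (hm : lev m = 0) (i : ℕ) :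
    (i ≤ l₁.length ∧ H (l₁ ++ m ++ l₂) i = H (l₁ ++ l₂) i) ∨
      (∃ k ≤ m.length, H (l₁ ++ m ++ l₂) i = lev l₁ + H m k) ∨
      ∃ j, i = l₁.length + j + m.length ∧
        H (l₁ ++ m ++ l₂) i = H (l₁ ++ l₂) (l₁.length + j) := by
  rcases le_or_gt i l₁.length with h | h
  · exact Or.inl ⟨h, H_one l₁ m l₂ h⟩
  · rcases le_or_gt i (l₁.length + m.length) with h' | h'
    · obtain ⟨k, rfl⟩ : ∃ k, i = l₁.length + k := ⟨i - l₁.length, by omega⟩
      exact Or.inr (Or.inl ⟨k, by omega, H_two l₁ m l₂ (by omega)⟩)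
    · obtain ⟨j, rfl⟩ : ∃ j, i = l₁.length + j + m.length :=
        ⟨i - l₁.length - m.length, by omega⟩
      exact Or.inr (Or.inr ⟨j, rfl, H_three l₁ m l₂ hm j⟩)

/-- inserting a loop that stays between the level of its start and level `n` -/
theorem loop_iff (l₁ m l₂ : List (Step D)) (n : ℕ) (hm : lev m = 0) (h0 : 0 ≤ lev l₁)
    (hb : ∀ k ≤ m.length, 0 ≤ H m k ∧ lev l₁ + H m k < n) :
    l₁ ++ m ++ l₂ ∈ LSet D (lev l₁) n ↔ l₁ ++ l₂ ∈ LSet D (lev l₁) n := by
  have hlev : lev (l₁ ++ m ++ l₂) = lev (l₁ ++ l₂) := by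
    simp only [lev_append, hm, add_zero]
  have hlen : (l₁ ++ m ++ l₂).length = (l₁ ++ l₂).length + m.length := by
    simp only [List.length_append]; omega
  have hlen' : (l₁ ++ l₂).length = l₁.length + l₂.length := List.length_append
  have ha : H (l₁ ++ l₂) l₁.length = lev l₁ := by rw [H_append_left _ le_rfl, H_length]
  have ha' : H (l₁ ++ m ++ l₂) l₁.length = lev l₁ := by rw [H_one l₁ m l₂ le_rfl, ha]
  have hn : lev l₁ < n := by simpa using (hb 0 (Nat.zero_le _)).2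
  constructor
  · rintro ⟨⟨r1, r2, r3⟩, r4⟩
    refine ⟨⟨fun i hi => ?_, hlev ▸ r2, fun i hi => ?_⟩, fun t ht => ?_⟩
    · obtain ⟨i', e, _, h2⟩ := time_short l₁ m l₂ hm i
      rw [← e, ← hlev]
      exact r1 i' (by omega)
    · obtain ⟨i', e, _, h2⟩ := time_short l₁ m l₂ hm i
      rw [← e]
      exact r3 i' (by omega)
    · by_contra hc
      have hc' := not_lt.1 hc
      have hta : t ≤ l₁.length := cut_le ht.1 (ha.symm ▸ hc')
      have hcut : Cut (l₁ ++ m ++ l₂) t := by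
        refine ⟨cand_congr hta (by omega) (fun i hi => (H_one l₁ m l₂ hi).symm) ht.1,
          fun i h1 h2 => ?_⟩
        rw [H_one l₁ m l₂ hta]
        rcases time_long l₁ m l₂ hm i with ⟨k1, k2⟩ | ⟨k, k1, k2⟩ | ⟨j, k1, k2⟩
        · rw [k2]; exact ht.2 i h1 (by omega)
        · rw [k2]; have := (hb k k1).1; omega
        · rw [k2]; exact ht.2 _ (by omega) (by omega)
      have := r4 t hcut
      rw [H_one l₁ m l₂ hta] at this
      exact hc this
  · rintro ⟨⟨r1, r2, r3⟩, r4⟩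
    refine ⟨⟨fun i hi => ?_, hlev ▸ r2, fun i hi => ?_⟩, fun t ht => ?_⟩
    · rw [hlev]
      rcases time_long l₁ m l₂ hm i with ⟨k1, k2⟩ | ⟨k, k1, k2⟩ | ⟨j, k1, k2⟩
      · rw [k2]
        rcases Nat.lt_or_ge i (l₁ ++ l₂).length with k3 | k3
        · exact r1 i k3
        · have e : i = l₁.length := by omega
          rw [e, ha, r2]; exact hn
      · rw [k2, r2]; exact (hb k k1).2
      · rw [k2]; exact r1 _ (by omega)
    · rcases time_long l₁ m l₂ hm i with ⟨k1, k2⟩ | ⟨k, k1, k2⟩ | ⟨j, k1, k2⟩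
      · rw [k2]; exact r3 i (by omega)
      · rw [k2]; have := (hb k k1).1; omega
      · rw [k2]; exact r3 _ (by omega)
    · by_contra hc
      have hc' := not_lt.1 hc
      have hta : t ≤ l₁.length := cut_le ht.1 (ha'.symm ▸ hc')
      have hcut : Cut (l₁ ++ l₂) t := by
        refine ⟨cand_congr hta (by omega) (fun i hi => H_one l₁ m l₂ hi) ht.1,
          fun i h1 h2 => ?_⟩
        obtain ⟨i', e, k1, k2⟩ := time_short l₁ m l₂ hm i
        rw [← e, ← H_one l₁ m l₂ hta]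
        exact ht.2 i' (by omega) (by omega)
      have := r4 t hcut
      rw [← H_one l₁ m l₂ hta] at this
      exact hc this

theorem e0_zero : e0 D 0 = 1 := by simp [e0]

theorem exc_iff {ω : Cfg D} {u : V D} {n : ℕ} (h0 : 0 ≤ u 0) (hn : u 0 < n)
    (hB : ∀ z ∈ Bush ω u, z 0 < n) (l₁ l₂ e : List (Step D)) (h1 : pos l₁ = u)
    (he : e ∈ ExcSet ω u) :
    l₁ ++ fwd D :: e ++ l₂ ∈ LSet D (u 0) n ↔ l₁ ++ l₂ ∈ LSet D (u 0) n := by
  have hu : lev l₁ = u 0 := by rw [lev, h1]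
  have he0 : 1 + lev e = 0 := by
    have := congrFun he.1 0
    simp only [Pi.add_apply, e0_zero] at this
    unfold lev
    omega
  have hm : lev (fwd D :: e) = 0 := by rw [lev_cons, vec_fwd_zero, he0]
  rw [← hu]
  refine loop_iff l₁ (fwd D :: e) l₂ n hm (hu ▸ h0) fun k hk => ?_
  rw [hu]
  rcases k with _ | k
  · simpa using hn
  · rw [H_cons_succ, vec_fwd_zero]
    rcases Nat.lt_or_ge k e.length with k1 | k1
    · have a := hB _ (he.2 k k1)
      have b := Bush_level (he.2 k k1)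
      simp only [Pi.add_apply, e0_zero] at a b
      unfold H
      omega
    · rw [H_of_le k1]
      omega

/-- a walk that stays above the root level never leaves the bush -/
theorem stay_bush {lam : ℝ} {ω : Cfg D} {u y : V D} {l : List (Step D)} (hy : u 0 < y 0)
    (hs : Stay l) (hW : W lam ω y l ≠ 0) {i : ℕ} (hi : y + loc l i ∈ Bush ω u) :
    ∀ j, i + j ≤ l.length → y + loc l (i + j) ∈ Bush ω u := by
  intro j
  induction j with
  | zero => exact fun _ => hi
  | succ j ih =>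
    intro hj
    have h1 : i + j < l.length := by omega
    have h2 := hs (i + j + 1) (by omega)
    have h3 := loc_succ h1
    rw [← add_assoc, h3, ← add_assoc]
    refine Up_step (by simp [e0]) (ih h1.le) ((W_ne_zero_iff lam ω l y).1 hW _ h1) ?_
    rw [add_assoc, ← h3]
    unfold H at h2
    simp only [Pi.add_apply]
    omega

theorem ne_of_stay {u y : V D} {l : List (Step D)} (hy : u 0 < y 0) (hs : Stay l) {i : ℕ}
    (hi : i ≤ l.length) : y + loc l i ≠ u := by
  intro e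
  have h1 := congrFun e 0
  have h2 := hs i hi
  unfold H at h2
  simp only [Pi.add_apply] at h1
  omega

theorem bck_ne {u : V D} (h0 : 0 ≤ u 0) : edge (0 : V D) (bck D) ≠ edge u (fwd D) := by
  intro e
  have h1 := edge_lev (0 : V D) (bck D)
  have h2 := edge_lev u (fwd D)
  rw [e, h2] at h1
  simp only [Pi.add_apply, vec_fwd_zero, vec_bck_zero, Pi.zero_apply] at h1
  omega

/-- if the root has no other open edge, the root and its bush are never reached -/
theorem never {lam : ℝ} {ω : Cfg D} {u : V D} (hR : Root ω u) (h0 : 0 ≤ u 0)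
    (hb : ω (edge 0 (bck D)) = true) (hZ : ¬ 0 < Zq lam (shut ω (edge u (fwd D))) u)
    {l : List (Step D)} (hW : W lam ω 0 l ≠ 0) :
    ∀ i ≤ l.length, 0 + loc l i ∉ Bush ω u ∧ 0 + loc l i ≠ u := by
  intro i
  induction i with
  | zero =>
    intro _
    rw [loc_zero, add_zero]
    refine ⟨fun h => ?_, fun h => hZ ?_⟩
    · have := Bush_level h
      simp only [Pi.zero_apply] at this
      omega
    · refine Zq_pos lam (s := bck D) ?_
      have h1 := bck_ne (D := D) h0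
      rw [← h] at h1 ⊢
      rw [shut_of_ne ω h1]
      exact hb
  | succ i ih =>
    intro hi
    have h1 : i < l.length := hi
    obtain ⟨k1, k2⟩ := ih h1.le
    have ho := (W_ne_zero_iff lam ω l 0).1 hW i h1
    rw [loc_succ h1, ← add_assoc]
    refine ⟨fun h => k2 (hR.entry k1 ho h).1, fun h => ?_⟩
    have ho' : ω (edge u (rev l[i])) = true := by
      rw [← h, edge_rev]; exact ho
    by_cases hs : rev l[i] = fwd D
    · refine k1 ?_
      have e : 0 + loc l i = u + e0 D := by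
        rw [← vec_fwd_e0, ← hs, vec_rev, ← h, add_neg_cancel_right]
      rw [e]
      exact self_mem_Up _ _ _
    · refine hZ (Zq_pos lam (s := rev l[i]) ?_)
      rw [shut_of_ne ω fun e => ?_]
      · exact ho'
      · rcases edge_eq_iff.1 e with ⟨_, e2⟩ | ⟨e1, _⟩
        · exact hs e2.symm
        · exact vec_ne_zero _ (left_eq_add.1 e1)

end TrbM

open TrbM

theorem trb (hE : EXCStmt) (hT : TRAStmt) (hL : LIMStmt) : TRBStmt := by
  classical
  intro D lam hl ω u hR h0 hb hN hN'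
  by_cases hZ : 0 < Zq lam (shut ω (edge u (fwd D))) u
  · obtain ⟨N, hN1⟩ : ∃ N : ℕ, ∀ z ∈ Bush ω u, z 0 < N := by
      obtain ⟨M, hM⟩ := (hR.2.1.image fun z => z 0).bddAbove
      refine ⟨(M + 1).toNat, fun z hz => ?_⟩
      have := hM ⟨z, hz, rfl⟩
      simp only at this
      omega
    have hu : u 0 + 1 < N := by
      have := hN1 _ (self_mem_Up ω (u 0 + 1) (u + e0 D))
      simpa only [Pi.add_apply, e0_zero] using this
    have hz : (0 : V D) ∉ Bush ω u := fun h => by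
      have := Bush_level h
      simp only [Pi.zero_apply] at this
      omega
    have t1 := hL D lam hl ω (InB ω u) (insert u hR.2.1.toFinset) (u 0) N hb hN
      (fun x s hx => by
        rcases hx with hx | ⟨rfl, _⟩
        · have := Bush_level hx
          exact ⟨Finset.mem_insert_of_mem (hR.2.1.mem_toFinset.2 hx), by omega⟩
        · exact ⟨Finset.mem_insert_self _ _, le_rfl⟩)
      (fun y l hy hs hW hn => (nst_eq_zero_iff _ l y).2 fun i hi hc => by
        rcases hc with hc | ⟨hc, _⟩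
        · have k := stay_bush hy hs hW hc (l.length - i) (by omega)
          rw [show i + (l.length - i) = l.length by omega, loc_length] at k
          have := hN1 _ k
          unfold lev at hn
          simp only [Pi.add_apply] at this
          omega
        · exact ne_of_stay hy hs hi.le hc)
    have t2 := hL D lam hl (shut ω (edge u (fwd D))) (fun x _ => x = u) {u} (u 0) 0
      (by rw [shut_of_ne ω (bck_ne h0)]; exact hb) hN'
      (fun x s hx => by rw [hx]; exact ⟨Finset.mem_singleton_self _, le_rfl⟩)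
      (fun y l hy hs _ _ => (nst_eq_zero_iff _ l y).2 fun i hi hc => ne_of_stay hy hs hi.le hc)
    have t3 := ENNReal.Tendsto.const_mul (a := pih (gk 0 lam) ω u)
      (ENNReal.Tendsto.const_mul
        (a := ENNReal.ofReal (1 / Zq lam (shut ω (edge u (fwd D))) u)) t2
        (Or.inr ENNReal.ofReal_ne_top)) (Or.inr (hE D lam hl ω u hR).2.2)
    refine tendsto_nhds_unique (t1.congr' ?_) t3
    filter_upwards [eventually_ge_atTop N] with n hn
    have hn' : (N : ℤ) ≤ n := by exact_mod_cast hn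
    refine hT D lam hl ω u (LSet D (u 0) n) hR hz hZ
      ((RecM.antich_rec (n : ℤ)).mono fun l h => ⟨h.1.1, h.1.2.1⟩)
      (fun l₁ l₂ e h1 he => exc_iff h0 (by omega) (fun z hz => (hN1 z hz).trans_le hn') l₁ l₂ e h1 he)
      fun l h => ?_
    have e : pos l 0 = n := h.1.2.1
    refine ⟨fun k => ?_, fun k => ?_⟩
    · have := hN1 _ k
      omega
    · rw [k] at e
      omega
  · have hz : Zq lam (shut ω (edge u (fwd D))) u = 0 :=
      le_antisymm (not_lt.1 hZ) (Zq_nonneg _ _ _)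
    have e1 : Th lam (shut ω (edge u (fwd D))) u = 0 := by simp [Th, hz]
    rw [e1, mul_zero, CE, SS_congr (g := fun _ => 0) fun l _ => ?_]
    · simp [SS]
    · by_cases hW : W lam ω 0 l = 0
      · simp [hW]
      · have : nst (InB ω u) 0 l = 0 := (nst_eq_zero_iff _ l 0).2 fun i hi hc => by
          obtain ⟨k1, k2⟩ := never hR h0 hb hZ hW i hi.le
          rcases hc with hc | ⟨hc, _⟩
          exacts [k1 hc, k2 hc]
        simp [this]

end Pool.Agent.MP_8c549f_pr

/-!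
Nested bushes: every step outside the regular ones belongs to exactly one outermost bush,
and closing the edges at a filled bush does not change what happens outside.
-/

set_option autoImplicit false

namespace Pool.Agent.MP_8c549f_pr

open MeasureTheory Filter Topology Real
open scoped ENNReal NNReal

variable {D : ℕ}

namespace RtM

/-! ### nesting -/

theorem bush_sub {ω : Cfg D} {u u' : V D} (h : ω (edge u (fwd D)) = true) (hu : u ∈ Bush ω u') :
    Bush ω u ⊆ Bush ω u' := by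
  have l := Bush_level hu
  have a : u + e0 D ∈ Bush ω u' := by
    rw [← vec_fwd_e0]
    exact Up_step (by simp) hu h (by simp; omega)
  intro z hz
  have b : z ∈ Up ω (u' 0 + 1) (u + e0 D) := Up_mono _ (by omega) (fun _ _ k => k) hz
  rwa [Geo.up_eq a] at b

theorem inB_of_mem {ω : Cfg D} {u u' x : V D} {s : Step D} (h : Root ω u) (hu : u ∈ Bush ω u')
    (hx : InB ω u x s) : InB ω u' x s := by
  rcases hx with hx | ⟨rfl, -⟩
  exacts [Or.inl (bush_sub h.1 hu hx), Or.inl hu]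

theorem eq_of_level {ω : Cfg D} {u u' x : V D} {s : Step D} (h : Root ω u) (h' : Root ω u')
    (e : u 0 = u' 0) (hx : InB ω u x s) (hx' : InB ω u' x s) : u = u' := by
  rcases hx with hx | ⟨rfl, -⟩ <;> rcases hx' with hx' | ⟨k, -⟩
  · have a : Bush ω u = Bush ω u' := by
      have b := Geo.up_eq hx
      have c := Geo.up_eq hx'
      unfold Bush
      rw [← b, ← c, e]
    have b : u' + e0 D ∈ Bush ω u := by
      rw [a]
      exact self_mem_Up _ _ _
    have c := h.2.2 _ b (by simp [e]) (by rw [edge_fwd_eq]; exact h'.1)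
    exact (add_right_cancel c).symm
  · have := Bush_level hx
    rw [k] at this
    omega
  · have := Bush_level hx'
    omega
  · exact k

theorem mem_of_lt {ω : Cfg D} {u u' x : V D} {s : Step D} (h : Root ω u) (e : u' 0 < u 0)
    (hx : InB ω u x s) (hx' : InB ω u' x s) : u ∈ Bush ω u' := by
  rcases hx with hx | ⟨rfl, -⟩ <;> rcases hx' with hx' | ⟨k, -⟩
  · have a : u + e0 D ∈ Up ω (u 0 + 1) x := by
      rw [Geo.up_eq hx]
      exact self_mem_Up _ _ _
    have b : u + e0 D ∈ Up ω (u' 0 + 1) x := Up_mono _ (by omega) (fun _ _ k => k) a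
    rw [Geo.up_eq hx'] at b
    have c := Up_step (s := bck D) (by simp) b (by rw [edge_fwd_eq]; exact h.1)
      (by simp [vec_bck_e0]; omega)
    simpa [vec_bck_e0, Bush] using c
  · have := Bush_level hx
    rw [k] at this
    omega
  · exact hx'
  · rw [k] at e
    omega

theorem exists_unique {ω : Cfg D} {x : V D} {s : Step D} (h : ¬ Reg ω x s) :
    ∃ u, ((0 ≤ u 0 ∧ Root ω u ∧ ¬ Und ω u) ∧ InB ω u x s) ∧
      ∀ u', (0 ≤ u' 0 ∧ Root ω u' ∧ ¬ Und ω u') → InB ω u' x s → u' = u := by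
  classical
  have hex : ∃ n : ℕ, ∃ u : V D, u 0 = n ∧ Root ω u ∧ InB ω u x s := by
    obtain ⟨u, a, b, c⟩ := not_not.1 h
    exact ⟨(u 0).toNat, u, by omega, b, c⟩
  obtain ⟨u, a, b, c⟩ := Nat.find_spec hex
  have hU : ¬ Und ω u := by
    rintro ⟨u', a', b', c'⟩
    have l := Bush_level c'
    exact Nat.find_min hex (m := (u' 0).toNat) (by omega) ⟨u', by omega, b', inB_of_mem b c' c⟩
  refine ⟨u, ⟨⟨by omega, b, hU⟩, c⟩, fun u' h' c' => ?_⟩
  rcases lt_trichotomy (u' 0) (u 0) with l | l | l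
  · exact absurd ⟨u', h'.1, h'.2.1, mem_of_lt b l c c'⟩ hU
  · exact eq_of_level h'.2.1 b l c' c
  · exact absurd ⟨u, by omega, b, mem_of_lt h'.2.1 l c' c⟩ h'.2.2

open Classical in
theorem one_step (ω : Cfg D) (x : V D) (s : Step D) :
    (1 : ℝ≥0∞) = (if Reg ω x s then 1 else 0) +
      ∑' u : V D, if 0 ≤ u 0 ∧ Root ω u ∧ ¬ Und ω u then
        (if InB ω u x s then (1 : ℝ≥0∞) else 0) else 0 := by
  by_cases h : Reg ω x s
  · rw [if_pos h, ENNReal.tsum_eq_zero.2 fun u => ?_, add_zero]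
    split_ifs with a b
    exacts [absurd ⟨u, a.1, a.2.1, b⟩ h, rfl, rfl]
  · obtain ⟨u, ⟨a, b⟩, c⟩ := exists_unique h
    rw [if_neg h, zero_add, tsum_eq_single u fun u' hu => ?_, if_pos a, if_pos b]
    split_ifs with a' b'
    exacts [absurd (c u' a' b') hu, rfl, rfl]

open Classical in
theorem all_steps (ω : Cfg D) (l : List (Step D)) : ∀ x : V D,
    (l.length : ℝ≥0∞) = nst (Reg ω) x l +
      ∑' u : V D, if 0 ≤ u 0 ∧ Root ω u ∧ ¬ Und ω u then (nst (InB ω u) x l : ℝ≥0∞) else 0 := by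
  induction l with
  | nil => simp
  | cons s l ih =>
    intro x
    have e : ∀ u : V D, (if 0 ≤ u 0 ∧ Root ω u ∧ ¬ Und ω u then
        (nst (InB ω u) x (s :: l) : ℝ≥0∞) else 0) =
        (if 0 ≤ u 0 ∧ Root ω u ∧ ¬ Und ω u then (if InB ω u x s then (1 : ℝ≥0∞) else 0) else 0) +
          if 0 ≤ u 0 ∧ Root ω u ∧ ¬ Und ω u then (nst (InB ω u) (x + vec s) l : ℝ≥0∞) else 0 := by
      intro u
      rw [nst_cons]
      split_ifs <;> simp
    rw [tsum_congr e, ENNReal.tsum_add, nst_cons, List.length_cons, Nat.cast_add, Nat.cast_add,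
      Nat.cast_one, ih (x + vec s), Nat.cast_ite, Nat.cast_one, Nat.cast_zero,
      add_add_add_comm, ← one_step, add_comm]

/-! ### closing a filled bush -/

theorem plus_congr (ω : Cfg D) {u : V D} (hu : 0 ≤ u 0) (e : Edge D)
    (h : u 0 + 1 ≤ e.1 0 ∨ (e.1 0 = u 0 ∧ e.2 = 0)) : plus ω e = ω e := by
  refine plus_of_ne ω fun k => ?_
  have : e.1 0 = -1 := by
    rw [k, edge_lev]
    simp
  omega

section close

variable {ω : Cfg D} {u : V D} {S : Finset (V D)}

theorem level_of_mem (h : RootS ω u S) {x : V D} (hx : x ∈ S) : u 0 + 1 ≤ x 0 := by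
  simpa using h.2.1.2.1 x hx

theorem not_mem_of_le (h : RootS ω u S) {x : V D} (hx : x 0 ≤ u 0) : x ∉ S := fun k => by
  have := level_of_mem h k
  omega

theorem bck_not_near (hu : 0 ≤ u 0) (h : RootS ω u S) : edge 0 (bck D) ∉ near S := by
  rw [edge_mem_near, not_or]
  exact ⟨not_mem_of_le h (by simpa using hu), not_mem_of_le h (by simp; omega)⟩

theorem closed_near (hu : 0 ≤ u 0) (h : RootS ω u S) {e : Edge D} (he : e ∈ near S) :
    plus (clo S ω) e = false := by
  rw [plus_of_ne _ fun k => bck_not_near hu h (k ▸ he), clo_of_mem ω he]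

theorem same_far (ω : Cfg D) {e : Edge D} (he : e ∉ near S) : plus (clo S ω) e = plus ω e := by
  by_cases k : e = edge 0 (bck D)
  · rw [k, plus_bck, plus_bck]
  · rw [plus_of_ne _ k, plus_of_ne _ k, clo_of_not_mem ω he]

theorem open_mono {e : Edge D} (he : plus (clo S ω) e = true) : plus ω e = true := by
  by_cases k : e = edge 0 (bck D)
  · rw [k, plus_bck]
  · rw [plus_of_ne _ k] at he
    exact plus_of_open (clo_eq_true.1 he).2

/-- the only open step into `S` -/
theorem entry (hu : 0 ≤ u 0) (h : RootS ω u S) {x : V D} {s : Step D} (hx : x ∉ S)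
    (hn : x + vec s ∈ S) (hs : plus ω (edge x s) = true) : x = u ∧ s = fwd D := by
  have a : edge x s ≠ edge 0 (bck D) := fun k =>
    bck_not_near hu h (k ▸ edge_mem_near.2 (Or.inr hn))
  rw [plus_of_ne _ a] at hs
  exact h.1.entry (fun k => hx (h.2.2.1 k)) hs (h.2.2.2 _ hn (rev s) (by simpa using hx))

theorem bush_mono (u' : V D) : Bush (plus (clo S ω)) u' ⊆ Bush (plus ω) u' :=
  Up_mono _ le_rfl fun _ _ k => open_mono k

theorem bush_cover (hu : 0 ≤ u 0) (h : RootS ω u S) {u' : V D} (hl : u' 0 + 1 ≤ u 0) :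
    Bush (plus ω) u' ⊆ {z | (z ∉ S ∧ z ∈ Bush (plus (clo S ω)) u') ∨
      (z ∈ S ∧ u ∈ Bush (plus (clo S ω)) u')} := by
  refine Up_subset (Or.inl ⟨not_mem_of_le h (by simpa using hl), self_mem_Up _ _ _⟩) ?_
  rintro y (⟨a, b⟩ | ⟨a, b⟩) s - hs - l
  · by_cases k : y + vec s ∈ S
    · exact Or.inr ⟨k, (entry hu h a k hs).1 ▸ b⟩
    · refine Or.inl ⟨k, Up_step (by simp) b ?_ l⟩
      rw [same_far ω (by rw [edge_mem_near]; exact not_or.2 ⟨a, k⟩), hs]
  · by_cases k : y + vec s ∈ S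
    · exact Or.inr ⟨k, b⟩
    · have := (entry hu h (s := rev s) k (by simpa using a) (by simpa using hs)).1
      exact Or.inl ⟨k, this ▸ b⟩

theorem und_iff (hu : 0 ≤ u 0) (h : RootS ω u S) :
    Und (plus ω) u ↔ Und (plus (clo S ω)) u := by
  constructor
  · rintro ⟨u', a, b, c⟩
    have l := Bush_level c
    refine ⟨u', a, ⟨?_, b.2.1.subset (bush_mono u'), fun z hz e k =>
      b.2.2 z (bush_mono u' hz) e (open_mono k)⟩, ?_⟩
    · rw [same_far ω, b.1]
      rw [edge_mem_near, not_or]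
      exact ⟨not_mem_of_le h (by omega), not_mem_of_le h (by simpa using l)⟩
    · rcases bush_cover hu h l c with k | k
      exacts [k.2, k.2]
  · rintro ⟨u', a, b, c⟩
    have l := Bush_level c
    refine ⟨u', a, ⟨open_mono b.1, (b.2.1.union S.finite_toSet).subset fun z hz => ?_,
      fun z hz e k => ?_⟩, bush_mono u' c⟩
    · rcases bush_cover hu h l hz with k | k
      exacts [Or.inl k.2, Or.inr k.1]
    · have n : z ∉ S := not_mem_of_le h (by omega)
      rcases bush_cover hu h l hz with k' | k'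
      · refine b.2.2 z k'.2 e ?_
        rw [same_far ω, k]
        rw [edge_mem_near, not_or]
        exact ⟨n, not_mem_of_le h (by simp; omega)⟩
      · exact absurd k'.1 n

theorem same_out (hu : 0 ≤ u 0) (h : RootS ω u S) {x : V D} (hx : x ∉ S) (s : Step D) :
    shut (plus ω) (edge u (fwd D)) (edge x s) = plus (clo S ω) (edge x s) := by
  have a : edge u (fwd D) ∈ near S := edge_mem_near.2 (Or.inr (vec_fwd_e0 (D := D) ▸ h.2.1.1))
  by_cases k : x + vec s ∈ S
  · rw [closed_near hu h (edge_mem_near.2 (Or.inr k))]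
    by_cases e : edge x s = edge u (fwd D)
    · rw [e, shut_self]
    · rw [shut_of_ne _ e, ← Bool.not_eq_true]
      intro hs
      obtain ⟨rfl, rfl⟩ := entry hu h hx k hs
      exact e rfl
  · have n : edge x s ∉ near S := by
      rw [edge_mem_near]
      exact not_or.2 ⟨hx, k⟩
    rw [same_far ω n, shut_of_ne]
    intro e
    exact n (e ▸ a)

theorem W_same (hu : 0 ≤ u 0) (h : RootS ω u S) (lam : ℝ) (l : List (Step D)) : ∀ x ∉ S,
    W lam (shut (plus ω) (edge u (fwd D))) x l = W lam (plus (clo S ω)) x l ∧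
      (W lam (plus (clo S ω)) x l ≠ 0 → x + pos l ∉ S) := by
  induction l with
  | nil => intro x hx; simpa using hx
  | cons s l ih =>
    intro x hx
    rw [W_cons, W_cons, pr_congr lam (same_out hu h hx)]
    by_cases k : x + vec s ∈ S
    · rw [pr_of_closed lam (closed_near hu h (edge_mem_near.2 (Or.inr k)))]
      simp
    · refine ⟨by rw [(ih _ k).1], fun n => ?_⟩
      have := (ih _ k).2 (right_ne_zero_of_mul n)
      simpa [add_assoc] using this

theorem qr_same (hu : 0 ≤ u 0) (h : RootS ω u S) (lam : ℝ) {x : V D} (hx : x ∉ S) :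
    qr lam (shut (plus ω) (edge u (fwd D))) x = qr lam (plus (clo S ω)) x :=
  iInf_congr fun _ => SS_congr fun l _ => (W_same hu h lam l x hx).1

theorem Th_same (hu : 0 ≤ u 0) (h : RootS ω u S) (lam : ℝ) :
    Th lam (shut (plus ω) (edge u (fwd D))) u = Th lam (plus (clo S ω)) u := by
  have n : (0 : V D) ∉ S := not_mem_of_le h (by simpa using hu)
  unfold Th CE
  congr 1
  · simp only [Zq, same_out hu h (not_mem_of_le h le_rfl)]
  · refine SS_congr fun l _ => ?_
    obtain ⟨a, b⟩ := W_same hu h lam l 0 n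
    rw [a]
    by_cases k : W lam (plus (clo S ω)) 0 l = 0
    · simp [k]
    · rw [qr_same hu h lam (by simpa using b k)]

end close

end RtM

theorem rt1 : RT1Stmt := fun _ ω l _ => RtM.all_steps ω l 0

theorem rt3 : RT3Stmt := by
  intro D lam ω u S hu
  obtain ⟨a, b, c⟩ := bush_congr u (RtM.plus_congr ω hu)
  refine ⟨?_, c, fun h => ⟨RtM.und_iff hu h, RtM.Th_same hu h lam⟩⟩
  unfold RootS
  rw [a, b]

end Pool.Agent.MP_8c549f_pr

end MrgPart0

-- ======== part 1: formerly Pool.Agent.MP_8c549f_pr.B8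
section MrgPart1

/-!
Expansion of the weight of a closed set, and the main term for a bush that starts as a tube.
-/

set_option autoImplicit false

namespace Pool.Agent.MP_8c549f_pr

open MeasureTheory Filter Topology Real
open scoped ENNReal NNReal

variable {D : ℕ}

namespace KaM

theorem meas_cfg (S : Finset (V D)) : Measurable fun ω : Cfg D => plus (clo S ω) :=
  measurable_plus.comp (measurable_clo S)

theorem meas_z (hM : MEASStmt) (lam : ℝ) (S : Finset (V D)) (u : V D) :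
    Measurable fun ω : Cfg D => ENNReal.ofReal (1 / Zq lam (plus (clo S ω)) u) :=
  (measurable_const.div (((hM D lam).2.2.2.2.2.1 u).1.comp (meas_cfg S))).ennreal_ofReal

theorem meas_C (hM : MEASStmt) (lam : ℝ) (S : Finset (V D)) (u : V D) (m r i r' : ℕ) :
    (Measurable fun ω : Cfg D => C1 lam (plus (clo S ω)) (fun x _ => x = u) m r) ∧
      Measurable fun ω : Cfg D => C2 lam (plus (clo S ω)) (fun x _ => x = u) m r i r' := by
  have h := ((hM D lam).2.2.2.2.2.2.2.2 (fun _ x _ => x = u)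
    fun x _ => MeasurableSet.const (x = u)).2 m r i r' 0
  exact ⟨h.1.comp (meas_cfg S), h.2.1.comp (meas_cfg S)⟩

theorem meas_CE (hM : MEASStmt) (lam : ℝ) (S : Finset (V D)) (u : V D) :
    Measurable fun ω : Cfg D => CE lam (plus (clo S ω)) (fun x _ => x = u) :=
  ((hM D lam).2.2.2.2.2.2.2.2 (fun _ x _ => x = u)
    fun x _ => MeasurableSet.const (x = u)).1.comp (meas_cfg S)

theorem meas_A (hM : MEASStmt) (S : Finset (V D)) (u : V D) :
    MeasurableSet {ω : Cfg D | ¬ Und (plus (clo S ω)) u} :=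
  ((meas_cfg S) ((hM D 0).2.1 u).2).compl

/-- the expansion for one root -/
theorem oneRoot (hM : MEASStmt) (hE : EXPStmt) {p lam : ℝ} (S : Finset (V D)) (u : V D)
    (hN : ∀ᵐ ω ∂perc D p, Nice lam (plus (clo S ω))) :
    (if 0 ≤ u 0 then
      ∫⁻ ω in {ω | ¬ Und (plus (clo S ω)) u}, Th lam (plus (clo S ω)) u ∂perc D p else 0) +
      ∑' q : (ℕ × ℕ) × ℕ × ℕ, T2 p lam S u q.1.1 q.1.2 q.2.1 q.2.2 =
      ∑' q : ℕ × ℕ, T1 p lam S u q.1 q.2 := by
  unfold T1 T2
  split_ifs with h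
  swap
  · simp
  rw [← lintegral_tsum fun q : (ℕ × ℕ) × ℕ × ℕ =>
      ((meas_z hM lam S u).fun_mul (meas_C hM lam S u q.1.1 q.1.2 q.2.1 q.2.2).2).aemeasurable,
    ← lintegral_tsum fun q : ℕ × ℕ =>
      ((meas_z hM lam S u).fun_mul (meas_C hM lam S u q.1 q.2 0 0).1).aemeasurable]
  unfold Th
  rw [← lintegral_add_left ((meas_z hM lam S u).fun_mul (meas_CE hM lam S u))]
  refine lintegral_congr_ae (ae_restrict_of_ae (hN.mono fun ω hω => ?_))
  simp only []
  rw [ENNReal.tsum_mul_left, ENNReal.tsum_mul_left, ← mul_add, (hE D lam _ hω _).1]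

theorem not_und (ω : Cfg D) : ¬ Und ω 0 := by
  rintro ⟨u, h0, -, h⟩
  have := Bush_level h
  simp only [Pi.zero_apply] at this
  omega

theorem fwd_closed {S : Finset (V D)} (hS : e0 D ∈ S) (ω : Cfg D) :
    plus (clo S ω) (edge 0 (fwd D)) = false := by
  rw [plus_of_ne]
  · exact clo_of_mem ω (edge_mem_near.2 (Or.inr (by rwa [zero_add, vec_fwd_e0])))
  · intro h
    have := congrArg (fun e : Edge D => e.1 0) h
    simp [edge, fwd, bck] at this

theorem goodC {ω : Cfg D} (h : ω (edge 0 (fwd D)) = false) (m r : ℕ) :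
    GoodC ω (Box D m r) (fun x _ => x = 0) 0 := by
  rintro x - s rfl hs hE
  rcases step_cases s with rfl | rfl | ⟨k, g, rfl⟩
  · rw [h] at hs
    exact absurd hs (by simp)
  · refine ⟨[], by simp, fun hm => ?_, fun i hi => absurd hi (by simp)⟩
    have := (mem_Box.1 hm).1
    simp at this
  · simpa [expo, vec_side_zero] using hE

theorem rad_side (k : Fin D) (g : Bool) : rad (vec ((k.succ, g) : Step D)) = 1 := by
  refine le_antisymm (Finset.sup_le fun j _ => ?_) ?_
  · have := vec_bounds ((k.succ, g) : Step D) j.succ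
    omega
  · refine le_trans ?_ (Finset.le_sup (f := fun j : Fin D =>
      (vec ((k.succ, g) : Step D) j.succ).natAbs) (Finset.mem_univ k))
    cases g <;> simp

/-- a block without lateral extension starts with the forward step -/
theorem C1_zero {ω : Cfg D} (h : ω (edge 0 (fwd D)) = false) (lam : ℝ)
    (c : V D → Step D → Prop) (m : ℕ) : C1 lam ω c m 0 = 0 := by
  refine le_antisymm ((SS_mono' (B := ∅) fun l hl h0 => ?_).trans (by simp)) zero_le
  exfalso
  rcases l with _ | ⟨s, l⟩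
  · have := hl.1.lev_pos
    simp at this
  have hW := (W_ne_zero_iff lam ω _ 0).1 (right_ne_zero_of_mul h0) 0 (by simp)
  simp only [loc_zero, add_zero, List.getElem_cons_zero] at hW
  rcases step_cases s with rfl | rfl | ⟨k, g, rfl⟩
  · rw [h] at hW
    exact absurd hW (by simp)
  · have := hl.1.1 1 (by simp)
    simp [H] at this
  · have := PieceB.rad_le_ext ((k.succ, g) :: l) (i := 1) (by simp)
    rw [hl.2.2, loc_cons_succ, loc_zero, add_zero, rad_side] at this
    omega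

/-- the list `side, forward, forward` -/
def l0 (k : Fin D) : List (Step D) := [(k.succ, true), fwd D, fwd D]

theorem H_l0 (k : Fin D) : H (l0 k) 1 = 0 ∧ H (l0 k) 2 = 1 ∧ H (l0 k) 3 = 2 := by
  have := vec_side_zero k true
  refine ⟨?_, ?_, ?_⟩ <;>
    simp only [H, l0, loc_cons_succ, loc_zero, Pi.add_apply, this, vec_fwd_zero, Pi.zero_apply] <;>
    norm_num

theorem piece_l0 (k : Fin D) : Piece 2 1 (l0 k) := by
  obtain ⟨h1, h2, h3⟩ := H_l0 k
  have h0 := H_zero (l0 k)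
  have hl : (l0 k).length = 3 := rfl
  refine ⟨⟨fun i hi => ?_, ⟨by omega, le_rfl, ?_, fun i hi => ?_⟩, fun t ht hc => ?_⟩, ?_, ?_⟩
  · rw [hl] at hi
    interval_cases i <;> omega
  · rw [hl, h3, h2]; rfl
  · rw [hl] at hi ⊢
    interval_cases i <;> simp only [Nat.add_one_sub_one] <;> omega
  · obtain ⟨⟨a, -, b, c⟩, -⟩ := hc
    rw [hl] at ht
    interval_cases t
    · simp only [Nat.sub_self] at b
      omega
    · have := c 0 (by norm_num)
      simp only [Nat.add_one_sub_one] at this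
      omega
  · rw [← H_length, hl, h3]; rfl
  · have a : rad (0 : V D) = 0 := by simp [rad]
    have b := rad_side k true
    have c := PieceB.rad_fwd (vec ((k.succ, true) : Step D))
    have d := PieceB.rad_fwd (vec ((k.succ, true) : Step D) + vec (fwd D))
    simp only [ext, hl, Finset.range_add_one, Finset.sup_insert, Finset.range_zero,
      Finset.sup_empty]
    simp only [l0, loc_cons_succ, loc_zero, add_zero, ← add_assoc, a, b, c, d]
    rfl

/-- the sites of `l0` avoid a set that starts as a tube -/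
theorem avoid {S : Finset (V D)} (hS : Shape (e0 D) S) (h0 : exc S 0 = 0) (h1 : exc S 1 = 0)
    {a : V D} (ha : a 0 = 0) (hne : a ≠ 0) :
    (0 : V D) ∉ S ∧ a ∉ S ∧ a + e0 D ∉ S ∧ a + e0 D + e0 D ∉ S := by
  classical
  have lo : ∀ x : V D, x 0 = 0 → x ∉ S := fun x hx hm => by
    have := hS.2.1 x hm
    rw [e0_zero] at this
    omega
  have vert : ∀ x : V D, x ∉ S → x + e0 D ∈ S → (x, (0 : Fin (D + 1))) ∈ (near S).filter
      fun e => e.1 0 = x 0 ∧ ¬ (e.1 ∈ S ↔ e.1 + Pi.single e.2 1 ∈ S) := fun x a b =>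
    Finset.mem_filter.2 ⟨mem_near'.2 (Or.inr b), rfl, fun h => a (h.2 b)⟩
  have k1 : a + e0 D ∉ S := fun hm => by
    have c : 1 < bdl S 0 := by
      refine Finset.one_lt_card.2 ⟨(a, 0), ?_, _, vert 0 (lo 0 rfl) (by simpa using hS.1),
        fun h => hne (congrArg Prod.fst h)⟩
      have := vert a (lo a ha) hm
      rwa [ha] at this
    have d : ¬ Occ S 0 := fun ⟨x, hx, e⟩ => lo x e hx
    simp only [exc, d, false_and, if_false, if_true] at h0
    omega
  refine ⟨lo 0 rfl, lo a ha, k1, fun hm => ?_⟩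
  have lv : (a + e0 D) 0 = 1 := by simp [ha]
  have c := iso0 D (e0 D) S 1 (by simp) ⟨_, hS.1, e0_zero⟩
  have v := vert _ k1 hm
  rw [lv] at v
  have d : ((bdry (e0 D) S).filter fun e => e.2 ≠ 0 ∧ e.1 0 = 1).card < bdl S 1 := by
    refine Finset.card_lt_card ⟨fun e he => ?_, fun h => ?_⟩
    · simp only [bdry, Finset.mem_filter] at he ⊢
      exact ⟨he.1.1, he.2.2, he.1.2.2⟩
    · exact (Finset.mem_filter.1 (h v)).2.1 rfl
  have o1 : Occ S 1 := ⟨_, hS.1, e0_zero⟩
  have o2 : Occ S (1 + 1) := ⟨_, hm, by simp [ha]⟩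
  simp only [exc, o1, o2, not_true, and_false, if_false, if_true, one_ne_zero] at h1
  omega

theorem Zq_le {ω : Cfg D} (h : ω (edge 0 (fwd D)) = false) {lam : ℝ} (hl : 0 ≤ lam) :
    Zq lam ω 0 ≤ 2 * D + 2 := by
  have a : ∀ s : Step D, vec s 0 ≤ 0 → (if ω (edge 0 s) = true then wt lam s else 0) ≤ 1 := by
    intro s hs
    split_ifs
    · exact exp_le_one_iff.2 (mul_nonpos_of_nonneg_of_nonpos hl (by exact_mod_cast hs))
    · exact zero_le_one
  calc Zq lam ω 0 ≤ ∑ _s : Step D, (1 : ℝ) := by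
        refine Finset.sum_le_sum fun s _ => ?_
        by_cases hs : s = fwd D
        · simp [hs, h]
        · refine a s ?_
          have := vec_bounds s 0
          have := mt vec_zero_eq_one.1 hs
          omega
    _ = _ := by simp; ring

theorem pr_fwd {ω : Cfg D} {x : V D} (h : ω (edge x (fwd D)) = true) {lam : ℝ} (hl : 0 ≤ lam) :
    1 / (2 * D + 2) ≤ pr lam ω x (fwd D) := by
  refine le_trans ?_ (free_le_pr lam h)
  rw [wt_fwd, div_le_div_iff₀ (by positivity) (Zf_pos D lam), Zf]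
  have a : 1 ≤ exp lam := one_le_exp hl
  have b : exp (-lam) ≤ 1 := exp_le_one_iff.2 (by linarith)
  have c : (0 : ℝ) ≤ D := Nat.cast_nonneg D
  nlinarith [mul_le_mul_of_nonneg_left a c]

/-- quenched lower bound when the three edges of `l0` are open -/
theorem quench {ω : Cfg D} (h : ω (edge 0 (fwd D)) = false) {lam : ℝ} (hl : 0 ≤ lam) (k : Fin D)
    (h1 : ω (edge 0 (k.succ, true)) = true)
    (h2 : ω (edge (vec (k.succ, true)) (fwd D)) = true)
    (h3 : ω (edge (vec (k.succ, true) + vec (fwd D)) (fwd D)) = true) :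
    ENNReal.ofReal ((1 / (2 * D + 2)) ^ 4) ≤
      ENNReal.ofReal (1 / Zq lam ω 0) * C1 lam ω (fun x _ => x = 0) 2 1 := by
  have z : 1 / (2 * (D : ℝ) + 2) ≤ 1 / Zq lam ω 0 :=
    one_div_le_one_div_of_le (Zq_pos lam h1) (Zq_le h hl)
  have p1 : 1 / (2 * (D : ℝ) + 2) ≤ pr lam ω 0 (k.succ, true) := by
    rw [pr_of_open lam h1, wt_side]; exact z
  have n : (1 : ℝ≥0∞) ≤ (nst (fun x _ => x = 0) 0 (l0 k) : ℕ) := by
    rw [l0, nst_cons, if_pos rfl]
    exact_mod_cast Nat.le_add_right 1 _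
  have w : ENNReal.ofReal (1 / (2 * (D : ℝ) + 2)) ^ 3 ≤ W lam ω 0 (l0 k) := by
    rw [l0, W_cons, W_cons, W_cons, W_nil, mul_one, zero_add, pow_three]
    exact mul_le_mul' (ENNReal.ofReal_le_ofReal p1) (mul_le_mul'
      (ENNReal.ofReal_le_ofReal (pr_fwd h2 hl)) (ENNReal.ofReal_le_ofReal (pr_fwd h3 hl)))
  rw [ENNReal.ofReal_pow (by positivity), pow_succ']
  refine mul_le_mul' (ENNReal.ofReal_le_ofReal z) (le_trans ?_
    (le_SS (fun l => nst (fun x _ => x = 0) 0 l * W lam ω 0 l) (piece_l0 k)))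
  exact w.trans (le_mul_of_one_le_left' n)

theorem lower {S : Finset (V D)} (hD : 1 ≤ D) (hS : Shape (e0 D) S) (h0 : exc S 0 = 0)
    (h1 : exc S 1 = 0) {p lam : ℝ} (hp : 1 / 2 ≤ p) (hp1 : p ≤ 1) (hl : 0 ≤ lam) :
    ENNReal.ofReal ((1 / (2 * D + 2)) ^ 4 * (1 / 2) ^ 3) ≤ T1 p lam S 0 2 1 := by
  classical
  set k : Fin D := ⟨0, hD⟩
  set a : V D := vec (k.succ, true) with ha
  obtain ⟨a0, a1, a2, a3⟩ := avoid hS h0 h1 (a := a) (vec_side_zero k true) (vec_ne_zero _)
  rw [← vec_fwd_e0] at a2 a3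
  set O : Finset (Edge D) :=
    {edge 0 (k.succ, true), edge a (fwd D), edge (a + vec (fwd D)) (fwd D)} with hO
  have hc : O.card ≤ 3 := Finset.card_le_three
  have hP := cyl D p (by linarith) hp1 O ∅ (by simp)
  have hm : MeasurableSet {ω : Cfg D | (∀ e ∈ O, ω e = true) ∧ ∀ e ∈ (∅ : Finset (Edge D)),
      ω e = false} := by
    refine Dep.measurableSet (S := (O : Set (Edge D))) (fun ω ω' h => ?_) O.finite_toSet
    simp only [Finset.notMem_empty, false_imp_iff, implies_true, and_true, eq_iff_iff]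
    exact forall₂_congr fun e he => by rw [h e he]
  have op : ∀ {ω : Cfg D} {x : V D} {s : Step D}, x ∉ S → x + vec s ∉ S → ω (edge x s) = true →
      plus (clo S ω) (edge x s) = true := fun b c d =>
    plus_of_open (clo_eq_true.2 ⟨fun h => (edge_mem_near.1 h).elim b c, d⟩)
  rw [T1, if_pos (by simp)]
  simp only [not_und, not_false_eq_true, Set.ofPred_true, Measure.restrict_univ]
  refine le_trans ?_ ((setLIntegral_mono' hm fun ω hω => quench (fwd_closed hS.1 ω) hl k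
    (op a0 (by rwa [zero_add]) (hω.1 _ (by simp [hO])))
    (op a1 a2 (hω.1 _ (by simp [hO, ha])))
    (op a2 a3 (hω.1 _ (by simp [hO, ha])))).trans (setLIntegral_le_lintegral _ _))
  rw [setLIntegral_const, hP, ← ENNReal.ofReal_mul (by positivity)]
  refine ENNReal.ofReal_le_ofReal (mul_le_mul_of_nonneg_left ?_ (by positivity))
  rw [Finset.card_empty, pow_zero, mul_one]
  exact (pow_le_pow_left₀ (by norm_num) hp 3).trans
    (pow_le_pow_of_le_one (by linarith) hp1 hc)

theorem small {C ζ μ x : ℝ} {D : ℕ} (hD : 1 ≤ D) (hC : 0 ≤ C) (hζ : 0 < ζ) (h1 : 2 * C / ζ ≤ μ)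
    (h2 : exp (-x) ≤ 2 * exp (-(D * μ))) : C * exp (-x) ≤ ζ := by
  have a : 0 ≤ μ := le_trans (by positivity) h1
  have b : μ ≤ D * μ := le_mul_of_one_le_left a (by exact_mod_cast hD)
  have c : exp (-(D * μ)) ≤ exp (-μ) := exp_le_exp.2 (by linarith)
  have d : μ * exp (-μ) ≤ 1 := by
    rw [exp_neg, ← div_eq_mul_inv, div_le_one (exp_pos μ)]
    linarith [add_one_le_exp μ]
  rw [div_le_iff₀ hζ] at h1
  have e := mul_le_mul_of_nonneg_right h1 (exp_pos (-μ)).le
  have f := mul_le_mul_of_nonneg_left d hζ.le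
  have g := mul_le_mul_of_nonneg_left (h2.trans (mul_le_mul_of_nonneg_left c zero_le_two)) hC
  linarith

end KaM

open KaM

theorem ka (hN : NICEStmt) (hM : MEASStmt) (hE : EXPStmt) (hT : PTStmt) (hP : PDStmt) :
    KAStmt := by
  intro D hD
  obtain ⟨e₀, he, hN⟩ := hN D hD 1 one_pos
  refine ⟨e₀, he, fun p h0 h1 S => ⟨fun lam hl => ?_, fun u m r i r' => ⟨?_, ?_, fun hu x => ?_⟩⟩⟩
  · rw [PhiS, ENNReal.tsum_prod', ENNReal.tsum_prod' (f := fun q : V D × ℕ × ℕ =>
      T1 p lam (tr q.1 S) q.1 q.2.1 q.2.2), ← ENNReal.tsum_add]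
    exact tsum_congr fun u => oneRoot hM hE (tr u S) u (((hN p lam h0 h1.le hl).2 h1).2 (tr u S))
  · refine Tame.ite (by positivity) _ fun _ => tame_lintegral _
      (fun x => (meas_z hM x S u).fun_mul (meas_C hM x S u m r i r').1) fun ω => ?_
    rw [add_comm]
    exact (tame_inv_Zq _ u).mul (hT D _ _ m r i r').1 zero_le_one (by positivity)
  · refine Tame.ite (by positivity) _ fun _ => tame_lintegral _
      (fun x => (meas_z hM x S u).fun_mul (meas_C hM x S u m r i r').2) fun ω => ?_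
    rw [add_comm]
    exact (tame_inv_Zq _ u).mul (hT D _ _ m r i r').2.2.1 zero_le_one (by positivity)
  · have a : ∀ ω : Cfg D, C1 x ω (fun y _ => y = u) m r = 0 := fun ω =>
      ((hP D m r i r' x).2 ω _).2.2.2.2.2.2 fun y hy _ e => hu (e ▸ hy)
    have b : ∀ ω : Cfg D, C2 x ω (fun y _ => y = u) m r i r' = 0 := fun ω =>
      le_antisymm (((hP D m r i r' x).2 ω _).1.trans_eq (a ω)) zero_le
    simp [T1, T2, a, b]

theorem kc (hM : MEASStmt) (hW : WGEOStmt) (h6 : P6Stmt) : KCStmt := by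
  intro D hD
  refine ⟨(1 / (2 * D + 2)) ^ 4 * (1 / 2) ^ 3, by positivity, fun ζ hζ => ?_⟩
  obtain ⟨C, hC, h6⟩ := h6 D 2 1 0 0
  obtain ⟨e₀, he, hμ⟩ := win_mu hD (2 * C / ζ)
  refine ⟨e₀, he, fun p α β h0 hw S hS e0' e1 _ => ?_⟩
  have hα := hw.mem (x := α) ⟨le_rfl, hw.2.1⟩
  obtain ⟨μ, m1, -, m2, m3, m4, -⟩ := hμ p α h0 hw.1 hα.1 hα.2
  have α0 : 0 ≤ α := le_trans (le_trans (by positivity) m1) m3
  have cl := fwd_closed hS.1
  refine ⟨fun x hx => ⟨lower (by omega) hS e0' e1 m2 hw.1.le (α0.trans hx.1), ?_, ?_⟩, ?_⟩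
  · simp [T1, C1_zero (cl _)]
  · simp [T1, C1_zero (cl _)]
  have := perc_prob D (p := p) (by linarith) hw.1.le
  have hz : ∀ (ω : Cfg D) (lam : ℝ), C1 lam (plus (clo S ω)) (fun x _ => x = 0) 2 1 ≠ 0 →
      ∀ x, 1 ≤ Zq x (plus (clo S ω)) 0 := fun ω =>
    ((hW D _ 2 1 0).2 0 le_rfl (cl ω) (not_und _)).2
  have h7 := fun ω : Cfg D =>
    (h6 (plus (clo S ω)) (plus_bck _) α β α0).2.2 _ (goodC (cl ω) 2 1)
  have key := ctl_lintegral (perc D p) (α := α) (β := β) (M := C * exp (-α))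
    (C := ENNReal.ofReal C) ENNReal.ofReal_ne_top (meas_A hM S 0)
    (fun x => (meas_z hM x S 0).fun_mul (meas_C hM x S 0 2 1 0 0).1) (fun x hx ω _ => ?_)
    fun ω _ => ?_
  · simp only [T1, Pi.zero_apply, le_refl, if_true]
    refine key.mono (le_trans ?_ (small (by omega) hC hζ m1 m4))
    exact mul_le_of_le_one_right (by positivity) measureReal_le_one
  · by_cases c : C1 x (plus (clo S ω)) (fun x _ => x = 0) 2 1 = 0
    · simp [c]
    · refine le_trans (mul_le_of_le_one_left' (ENNReal.ofReal_le_one.2 ?_))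
        ((h7 ω).1 x (α0.trans hx.1))
      exact (div_le_one (lt_of_lt_of_le one_pos (hz ω x c x))).2 (hz ω x c x)
  · by_cases c : ∀ x, C1 x (plus (clo S ω)) (fun x _ => x = 0) 2 1 = 0
    · simp only [c, mul_zero]
      exact (ctl_const _ α β).mono (by positivity)
    · obtain ⟨y, hy⟩ := not_forall.1 c
      exact (h7 ω).2.2.2 0 (mem_Box.2 ⟨le_rfl, by simp, by simp [rad]⟩) fun x _ => hz ω y hy x

end Pool.Agent.MP_8c549f_pr

/-!
Visits to the foot of a bush in one piece: comparison with the weight of the piece.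
-/

set_option autoImplicit false

namespace Pool.Agent.MP_8c549f_pr

open MeasureTheory Filter Topology Real
open scoped ENNReal NNReal

namespace KbM

variable {D : ℕ}

theorem core {Ω : Type} [MeasurableSpace Ω] (μ : Measure Ω) {A : Set Ω} (hA : MeasurableSet A)
    {G : ℕ → Set Ω} (hG : ∀ j, MeasurableSet (G j)) {F U : Ω → ℝ≥0∞} (hU : Measurable U)
    (hU1 : ∀ ω, U ω ≤ 1) (hex : ∀ ω, ∃ j, ω ∈ G j) {c τ : ℕ → ℝ≥0∞}
    (hF : ∀ ω ∈ A, ∀ j, ω ∈ G j → F ω ≤ c j * U ω) (hτ : ∀ j, μ (A \ G j) ≤ τ j) {α : ℝ}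
    (a0 : 0 ≤ α) (a1 : α ≤ 1) :
    ∫⁻ ω in A, F ω ∂μ ≤ c 0 * ∫⁻ ω, U ω ∂μ +
      (∑' j, c (j + 1) * τ j ^ (1 - α)) * (∫⁻ ω, U ω ∂μ) ^ α := by
  have hB : ∀ j, MeasurableSet (A \ G j) := fun j => hA.diff (hG j)
  calc ∫⁻ ω in A, F ω ∂μ
      ≤ ∫⁻ ω, (c 0 * U ω + ∑' j, (A \ G j).indicator (fun ω => c (j + 1) * U ω) ω) ∂μ := by
        rw [← lintegral_indicator hA]
        refine lintegral_mono fun ω => ?_
        by_cases hω : ω ∈ A
        · classical
          rw [Set.indicator_of_mem hω]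
          have hs := Nat.find_spec (hex ω)
          rcases hn : Nat.find (hex ω) with _ | j
          · exact (hF ω hω 0 (hn ▸ hs)).trans le_self_add
          · refine le_trans (le_trans ?_ (ENNReal.le_tsum j)) le_add_self
            rw [Set.indicator_of_mem
              (show ω ∈ A \ G j from ⟨hω, Nat.find_min (hex ω) (by omega)⟩)]
            exact hF ω hω _ (hn ▸ hs)
        · rw [Set.indicator_of_notMem hω]; exact zero_le
    _ = c 0 * ∫⁻ ω, U ω ∂μ + ∑' j, c (j + 1) * ∫⁻ ω in A \ G j, U ω ∂μ := by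
        rw [lintegral_add_left (hU.const_mul _), lintegral_const_mul _ hU,
          lintegral_tsum fun j => ((hU.const_mul _).indicator (hB j)).aemeasurable]
        congr 1
        exact tsum_congr fun j => by rw [lintegral_indicator (hB j), lintegral_const_mul _ hU]
    _ ≤ _ := by
        rw [← ENNReal.tsum_mul_right]
        refine add_le_add_right (ENNReal.tsum_le_tsum fun j => ?_) _
        have b2 : ∫⁻ ω in A \ G j, U ω ∂μ ≤ τ j :=
          (lintegral_mono hU1).trans (by simpa using hτ j)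
        rw [mul_assoc, mul_comm (τ j ^ (1 - α))]
        exact mul_le_mul_right (Tsum.le_geom a0 a1 (setLIntegral_le_lintegral _ _) b2) _

theorem wtrap_of {ω : Cfg D} {b : V D} {n h h' : ℕ} (hb : 0 ≤ b 0) (hh : h ≤ h')
    (H : WTrap (plus ω) b n h') : WTrap ω b n h := by
  unfold WTrap at H ⊢
  rw [Up_plus ω hb] at H
  exact ⟨H.1, H.2.1, fun i hi => H.2.2 i (by omega)⟩

theorem closed {S : Finset (V D)} {u : V D} (hu : 0 ≤ u 0) (he : edge u (fwd D) ∈ near S)
    (ω : Cfg D) : plus (clo S ω) (edge u (fwd D)) = false := by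
  rw [plus_of_ne, clo_of_mem _ he]
  intro h
  have h1 := congrArg (fun e : Edge D => e.1 0) h
  simp [edge, fwd, bck] at h1
  omega

theorem bad_le (hW : WGEOStmt) {S : Finset (V D)} {u : V D} (hu : 0 ≤ u 0)
    (he : edge u (fwd D) ∈ near S) (p : ℝ) (m r j : ℕ) {τ : ℝ≥0∞}
    (hτ : ∀ (b : V D) (n : ℕ), 0 ≤ b 0 → b 0 + n = m → b 0 + (j / 2 + 1 : ℕ) ≤ u 0 + 1 →
      perc D p {ω | WTrap (clo S ω) b n (j / 2 + 1)} ≤ τ) :
    perc D p ({ω | ¬ Und (plus (clo S ω)) u} \
      {ω | GoodC (plus (clo S ω)) (Box D m r) (fun x _ => x = u) j}) ≤ NN D m r * τ := by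
  classical
  have h1 : {ω | ¬ Und (plus (clo S ω)) u} \
      {ω | GoodC (plus (clo S ω)) (Box D m r) (fun x _ => x = u) j} ⊆
      ⋃ b ∈ (Box D m r).filter fun b => b 0 + (j / 2 + 1 : ℕ) ≤ u 0 + 1,
        {ω | WTrap (clo S ω) b (m - b 0).toNat (j / 2 + 1)} := by
    rintro ω ⟨h1, h2⟩
    obtain ⟨b, hb, n, h, e1, e2, e3, e4⟩ :=
      ((hW D _ m r j).2 u hu (closed hu he ω) h1).1 h2
    refine Set.mem_biUnion (x := b) (Finset.mem_coe.2 (Finset.mem_filter.2 ⟨hb, by omega⟩)) ?_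
    rw [show (m - b 0).toNat = n by omega]
    exact wtrap_of (mem_Box.1 hb).1 (by omega) e4
  refine (measure_mono h1).trans ((measure_biUnion_finset_le _ _).trans ?_)
  refine (Finset.sum_le_card_nsmul _ _ τ fun b hb => ?_).trans ?_
  · obtain ⟨hb, e⟩ := Finset.mem_filter.1 hb
    have := mem_Box.1 hb
    exact hτ b _ this.1 (by omega) e
  · rw [nsmul_eq_mul]
    exact mul_le_mul_left (by
      exact_mod_cast (Finset.card_filter_le _ _).trans (p4S D m r).1) _

theorem rpow_le {M y : ℝ} (hM : 1 ≤ M) (hy : 0 ≤ y) :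
    (M * y ^ (2 * D + 2)) ^ (1 - 1 / (2 * D + 2) : ℝ) ≤ M * y ^ (2 * D + 1) := by
  have e : ((2 * D + 2 : ℕ) : ℝ) * (1 - 1 / (2 * D + 2)) = ((2 * D + 1 : ℕ) : ℝ) := by
    push_cast; field_simp; ring
  have h : (0 : ℝ) ≤ 1 / (2 * D + 2) := by positivity
  rw [mul_rpow (by linarith) (by positivity), ← rpow_natCast y, ← rpow_mul hy, e, rpow_natCast]
  refine mul_le_mul_of_nonneg_right ?_ (by positivity)
  simpa using rpow_le_rpow_of_exponent_le hM (show (1 - 1 / (2 * D + 2) : ℝ) ≤ 1 by linarith)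

theorem term_le {C ε lam : ℝ} (hC : 1 ≤ C) (hε : 0 ≤ ε) (hl : 0 ≤ lam)
    (h1 : ε ^ D * exp lam ≤ 2) (h2 : 4 * C ^ (2 * D + 1) * ε ≤ 1 / 4) (j : ℕ) :
    exp (lam * (j + 1 : ℕ)) * ((C * ε) ^ (j / 2 + 1)) ^ (2 * D + 1) ≤
      8 * C ^ (2 * D + 1) * ε * (1 / 2) ^ j := by
  obtain ⟨h, hh⟩ : ∃ h, h = j / 2 := ⟨_, rfl⟩
  rw [← hh]
  have e1 : exp (lam * (j + 1 : ℕ)) ≤ (exp lam ^ 2) ^ (h + 1) := by
    rw [← pow_mul, ← exp_nat_mul, mul_comm]
    refine exp_le_exp.2 (mul_le_mul_of_nonneg_right ?_ hl)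
    exact_mod_cast (by omega : j + 1 ≤ 2 * (h + 1))
  have e2 : exp lam ^ 2 * (C * ε) ^ (2 * D + 1) ≤ 4 * C ^ (2 * D + 1) * ε := by
    have : (ε ^ D * exp lam) ^ 2 ≤ 2 ^ 2 := pow_le_pow_left₀ (by positivity) h1 2
    calc exp lam ^ 2 * (C * ε) ^ (2 * D + 1)
        = (ε ^ D * exp lam) ^ 2 * (C ^ (2 * D + 1) * ε) := by ring
      _ ≤ 2 ^ 2 * (C ^ (2 * D + 1) * ε) := mul_le_mul_of_nonneg_right this (by positivity)
      _ = _ := by ring
  have e3 : (4 * C ^ (2 * D + 1) * ε) ^ h ≤ 2 * (1 / 2) ^ j := by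
    refine (pow_le_pow_left₀ (by positivity) h2 h).trans ?_
    have : ((1 : ℝ) / 2) ^ (2 * h + 1) ≤ (1 / 2) ^ j :=
      pow_le_pow_of_le_one (by norm_num) (by norm_num) (by omega)
    calc ((1 : ℝ) / 4) ^ h = 2 * (1 / 2) ^ (2 * h + 1) := by
          rw [pow_succ, pow_mul]; norm_num; ring
      _ ≤ _ := by linarith
  calc exp (lam * (j + 1 : ℕ)) * ((C * ε) ^ (h + 1)) ^ (2 * D + 1)
      ≤ (exp lam ^ 2) ^ (h + 1) * ((C * ε) ^ (h + 1)) ^ (2 * D + 1) :=
        mul_le_mul_of_nonneg_right e1 (by positivity)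
    _ = (exp lam ^ 2 * (C * ε) ^ (2 * D + 1)) ^ (h + 1) := by
        rw [mul_pow (exp lam ^ 2), ← pow_mul (C * ε), ← pow_mul (C * ε), mul_comm (h + 1)]
    _ ≤ (4 * C ^ (2 * D + 1) * ε) ^ (h + 1) := pow_le_pow_left₀ (by positivity) e2 _
    _ ≤ 2 * (1 / 2) ^ j * (4 * C ^ (2 * D + 1) * ε) := by
        rw [pow_succ]; exact mul_le_mul_of_nonneg_right e3 (by positivity)
    _ = _ := by ring

theorem sum_le {C ε lam N : ℝ} (hC : 1 ≤ C) (hε : 0 ≤ ε) (hl : 0 ≤ lam) (hN : 1 ≤ N)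
    (h1 : ε ^ D * exp lam ≤ 2) (h2 : 4 * C ^ (2 * D + 1) * ε ≤ 1 / 4) (K : ℕ) :
    ∑' j : ℕ, ENNReal.ofReal ((6 * D + 6) * N ^ 3 * exp (lam * (j + 1 : ℕ))) *
      ENNReal.ofReal (N * C ^ (1 + K) * ((C * ε) ^ (j / 2 + 1)) ^ (2 * D + 2)) ^
        (1 - 1 / (2 * D + 2) : ℝ) ≤
      ENNReal.ofReal (16 * (6 * D + 6) * C ^ (2 * D + 2) * N ^ 4 * (ε * C ^ K)) := by
  have hM : 1 ≤ N * C ^ (1 + K) := one_le_mul_of_one_le_of_one_le hN (one_le_pow₀ hC)
  have h : (1 : ℝ) / (2 * D + 2) ≤ 1 := by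
    rw [div_le_one (by positivity)]; linarith [(Nat.cast_nonneg D : (0 : ℝ) ≤ D)]
  have e : 16 * (6 * D + 6) * C ^ (2 * D + 2) * N ^ 4 * (ε * C ^ K) =
      ∑' j : ℕ, 8 * (6 * D + 6) * C ^ (2 * D + 2) * N ^ 4 * (ε * C ^ K) * (1 / 2) ^ j := by
    rw [tsum_mul_left, tsum_geometric_two]; ring
  rw [e, ENNReal.ofReal_tsum_of_nonneg (fun j => by positivity)
    (summable_geometric_two.mul_left _)]
  refine ENNReal.tsum_le_tsum fun j => ?_
  rw [ENNReal.ofReal_rpow_of_nonneg (by positivity) (by linarith),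
    ← ENNReal.ofReal_mul (by positivity)]
  refine ENNReal.ofReal_le_ofReal ?_
  refine (mul_le_mul_of_nonneg_left (rpow_le hM (by positivity)) (by positivity)).trans ?_
  calc _ = (6 * D + 6) * N ^ 4 * C ^ (1 + K) *
        (exp (lam * (j + 1 : ℕ)) * ((C * ε) ^ (j / 2 + 1)) ^ (2 * D + 1)) := by ring
    _ ≤ (6 * D + 6) * N ^ 4 * C ^ (1 + K) * (8 * C ^ (2 * D + 1) * ε * (1 / 2) ^ j) :=
        mul_le_mul_of_nonneg_left (term_le hC hε hl h1 h2 j) (by positivity)
    _ = _ := by ring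

end KbM

open KbM

theorem kb (hM : MEASStmt) (hB : PBStmt) (hD : PDStmt) (hW : WGEOStmt) (hK : KTRAPStmt) :
    KBStmt := by
  intro D h2
  obtain ⟨C, hC, hK⟩ := hK D h2
  obtain ⟨C', hC'⟩ : ∃ C' : ℝ, C' = 16 * (6 * D + 6) * C ^ (2 * D + 2) := ⟨_, rfl⟩
  have hD0 : (0 : ℝ) ≤ D := Nat.cast_nonneg D
  have c1 : C ≤ C ^ (2 * D + 1) := le_self_pow₀ hC (by omega)
  have c2 : C ≤ C ^ (2 * D + 2) := le_self_pow₀ hC (by omega)
  have c3 : C ≤ C' := by rw [hC']; nlinarith
  have c4 : 6 * D + 6 ≤ C' := by rw [hC']; nlinarith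
  refine ⟨C', 1 / (16 * C ^ (2 * D + 1)), hC.trans c3, by positivity,
    fun p lam p0 p1 hl hb S u k hP he m r i r' => ?_⟩
  have hε : 0 ≤ 1 - p := by linarith
  have e1 : 4 * C ^ (2 * D + 1) * (1 - p) ≤ 1 / 4 := by
    have : 1 - p ≤ 1 / (16 * C ^ (2 * D + 1)) := by linarith
    rw [le_div_iff₀ (by positivity)] at this
    linarith
  have e2 : C * (1 - p) ≤ 1 / 2 := by nlinarith
  have hN : (1 : ℝ) ≤ NN D m r := by exact_mod_cast (two_le_NN D m r).trans' one_le_two
  by_cases hu : 0 ≤ u 0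
  swap
  · simp only [T1, T2, if_neg hu, zero_le, and_self]
  have hm : Measurable fun ω : Cfg D => plus (clo S ω) := measurable_plus.comp (measurable_clo S)
  obtain ⟨-, m1, -, -, -, -, -, m2, m3⟩ := hM D lam
  have hA : MeasurableSet {ω | ¬ Und (plus (clo S ω)) u} := (hm (m1 u).2).compl
  have hG : ∀ j, MeasurableSet {ω | GoodC (plus (clo S ω)) (Box D m r) (fun x _ => x = u) j} :=
    fun j => hm ((m3 (fun _ x _ => x = u) fun x _ => MeasurableSet.const _).2 m r i r' j).2.2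
  have hτ : ∀ j, perc D p ({ω | ¬ Und (plus (clo S ω)) u} \
      {ω | GoodC (plus (clo S ω)) (Box D m r) (fun x _ => x = u) j}) ≤ ENNReal.ofReal
        (NN D m r * C ^ (1 + ks k 0 m) * ((C * (1 - p)) ^ (j / 2 + 1)) ^ (2 * D + 2)) := by
    intro j
    rw [mul_assoc, ENNReal.ofReal_mul (by positivity), ENNReal.ofReal_natCast]
    refine bad_le hW hu he p m r j fun b n b0 b1 b2 => ?_
    refine ((hK p p1 e2 S u k hP b n _).2 b2).trans (ENNReal.ofReal_le_ofReal ?_)
    rw [← pow_mul, mul_comm (j / 2 + 1)]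
    exact mul_le_mul_of_nonneg_right (pow_le_pow_right₀ hC
      (Nat.add_le_add_left (ks_mono k b0 (by omega)) 1)) (by positivity)
  have hZ : ∀ ω, ¬ Und (plus (clo S ω)) u → ∀ x : ℝ≥0∞,
      x ≤ C1 lam (plus (clo S ω)) (fun x _ => x = u) m r →
      ENNReal.ofReal (1 / Zq lam (plus (clo S ω)) u) * x ≤ x := by
    intro ω hω x hx
    by_cases h0 : C1 lam (plus (clo S ω)) (fun x _ => x = u) m r = 0
    · rw [h0, nonpos_iff_eq_zero] at hx
      rw [hx, mul_zero]
    · have := ((hW D _ m r 0).2 u hu (closed hu he ω) hω).2 lam h0 lam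
      exact mul_le_of_le_one_left' (ENNReal.ofReal_le_one.2 ((div_le_one (by linarith)).2 this))
  have key : ∀ (F U : Cfg D → ℝ≥0∞), Measurable U → (∀ ω, U ω ≤ 1) →
      (∀ ω, F ω ≤ C1 lam ω (fun x _ => x = u) m r) →
      (∀ ω j, GoodC ω (Box D m r) (fun x _ => x = u) j → F ω ≤
        ENNReal.ofReal ((6 * D + 6) * (NN D m r : ℝ) ^ 3 * exp (lam * j)) * U ω) →
      ∫⁻ ω in {ω | ¬ Und (plus (clo S ω)) u},
        ENNReal.ofReal (1 / Zq lam (plus (clo S ω)) u) * F (plus (clo S ω)) ∂perc D p ≤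
      ENNReal.ofReal (C' * (NN D m r : ℝ) ^ 4) * (∫⁻ ω, U (plus (clo S ω)) ∂perc D p +
        ENNReal.ofReal ((1 - p) * C' ^ ks k 0 m) *
          (∫⁻ ω, U (plus (clo S ω)) ∂perc D p) ^ (1 / (2 * D + 2) : ℝ)) := by
    intro F U hU hU1 hF1 hF
    have a1 : (1 : ℝ) / (2 * D + 2) ≤ 1 := by rw [div_le_one (by positivity)]; linarith
    refine (core (perc D p) hA hG (U := fun ω => U (plus (clo S ω))) (hU.comp hm)
      (fun ω => hU1 _) (fun ω => ⟨2 * m, ((hD D m r i r' lam).2 _ _).2.2.2.1⟩)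
      (c := fun j => ENNReal.ofReal ((6 * D + 6) * (NN D m r : ℝ) ^ 3 * exp (lam * j)))
      (fun ω hω j hj => (hZ ω hω _ (hF1 _)).trans (hF _ j hj)) hτ
      (α := 1 / (2 * D + 2)) (by positivity) a1).trans ?_
    rw [mul_add, ← mul_assoc, ← ENNReal.ofReal_mul (by rw [hC']; positivity)]
    refine add_le_add (mul_le_mul_left (ENNReal.ofReal_le_ofReal ?_) _)
      (mul_le_mul_left ((sum_le hC hε hl hN hb e1 _).trans (ENNReal.ofReal_le_ofReal ?_)) _)
    · rw [Nat.cast_zero, mul_zero, exp_zero, mul_one]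
      exact mul_le_mul c4 (pow_le_pow_right₀ hN (by omega)) (by positivity) (by linarith)
    · rw [← hC']
      exact mul_le_mul_of_nonneg_left (mul_le_mul_of_nonneg_left
        (pow_le_pow_left₀ (by linarith) c3 _) hε) (by rw [hC']; positivity)
  simp only [T1, T2, if_pos hu, g1, g2]
  exact ⟨key (fun ω => C1 lam ω (fun x _ => x = u) m r) (fun ω => Uq lam ω m r)
      (m2 m r i r').1 (fun ω => ((p4S D m r).2.2.2.2.2.1 lam ω).1) (fun ω => le_rfl)
      fun ω j hj => (hB D lam hl ω _ m r i r' j hj).1,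
    key (fun ω => C2 lam ω (fun x _ => x = u) m r i r') (fun ω => U2 lam ω m r i r')
      (m2 m r i r').2 (fun ω => ((hD D m r i r' lam).2 ω fun _ _ => True).2.1.trans
        ((p4S D m r).2.2.2.2.2.1 lam ω).1) (fun ω => ((hD D m r i r' lam).2 ω _).1)
      fun ω j hj => (hB D lam hl ω _ m r i r' j hj).2⟩

end Pool.Agent.MP_8c549f_pr

/-!
The regular steps in the boxes with a wide trap contribute little in the window.
-/

set_option autoImplicit false

namespace Pool.Agent.MP_8c549f_pr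

open MeasureTheory Filter Topology Real
open scoped ENNReal NNReal

namespace Ts2M

variable {D : ℕ}

/-- the boxes that are not good for the regular steps at the index `j` -/
def Bad (D m r j : ℕ) : Set (Cfg D) := {ω | ¬ GoodC (plus ω) (Box D m r) (Reg (plus ω)) j}

theorem meas_Bad (hM : MEASStmt) (m r j : ℕ) : MeasurableSet (Bad D m r j) :=
  (measurable_plus (((hM D 0).2.2.2.2.2.2.2.2 (fun ω => Reg ω)
    (fun x s => ((hM D 0).2.2.1 0 x s).1)).2 m r 0 0 j).2.2).compl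

theorem union_le (p : ℝ) (m r : ℕ) {A : Set (Cfg D)} {T : V D → Set (Cfg D)} {τ : ℝ≥0∞}
    (h : A ⊆ ⋃ b ∈ Box D m r, T b) (hτ : ∀ b, perc D p (T b) ≤ τ) :
    perc D p A ≤ NN D m r * τ := by
  refine (measure_mono h).trans ((measure_biUnion_finset_le _ _).trans ?_)
  refine (Finset.sum_le_card_nsmul _ _ τ fun b _ => hτ b).trans ?_
  rw [nsmul_eq_mul]
  exact mul_le_mul_left (by exact_mod_cast (p4S D m r).1) _

theorem bad_trap (hW : WGEOStmt) (p : ℝ) (m r j : ℕ) {τ : ℝ≥0∞}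
    (hτ : ∀ b : V D, perc D p {ω | Trap ω b (j + 1)} ≤ τ) :
    perc D p (Bad D m r j) ≤ NN D m r * τ := by
  refine union_le p m r (fun ω hω => ?_) hτ
  obtain ⟨b, hb, ht, -⟩ := (hW D (plus ω) m r j).1 hω
  exact Set.mem_biUnion hb ((plusTrap D ω b _ (mem_Box.1 hb).1).1 ht)

theorem bad_wtrap (hW : WGEOStmt) (p : ℝ) (m r j : ℕ) {τ : ℝ≥0∞}
    (hτ : ∀ (b : V D) (n : ℕ), perc D p {ω | WTrap ω b n ((j + 2) / 2)} ≤ τ) :
    perc D p (Bad D m r j) ≤ NN D m r * τ := by
  refine union_le p m r (T := fun b => {ω | WTrap ω b ((m : ℤ) - b 0).toNat ((j + 2) / 2)})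
    (fun ω hω => ?_) fun b => hτ b _
  obtain ⟨b, hb, -, n, h, h1, h2, h3⟩ := (hW D (plus ω) m r j).1 hω
  refine Set.mem_biUnion hb ?_
  have e : ((m : ℤ) - b 0).toNat = n := by omega
  unfold WTrap at h3
  rw [Up_plus ω (mem_Box.1 hb).1] at h3
  show WTrap ω b ((m : ℤ) - b 0).toNat ((j + 2) / 2)
  rw [e]
  exact ⟨h3.1, h3.2.1, fun i hi => h3.2.2 i (by omega)⟩

/-- decomposition according to the first good index -/
theorem split_le (hM : MEASStmt) (hP : PDStmt) (p : ℝ) (m r : ℕ) {F U : Cfg D → ℝ≥0∞}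
    (hU : Measurable U) {c : ℕ → ℝ≥0∞}
    (hF : ∀ ω j, GoodC (plus ω) (Box D m r) (Reg (plus ω)) j → F ω ≤ c j * U ω) :
    ∫⁻ ω in Bad D m r 0, F ω ∂perc D p ≤
      ∑' j : ℕ, c (j + 1) * ∫⁻ ω in Bad D m r j, U ω ∂perc D p := by
  calc ∫⁻ ω in Bad D m r 0, F ω ∂perc D p
      ≤ ∫⁻ ω, ∑' j, (Bad D m r j).indicator (fun ω => c (j + 1) * U ω) ω ∂perc D p := by
        rw [← lintegral_indicator (meas_Bad hM m r 0)]
        refine lintegral_mono fun ω => ?_
        by_cases hω : ω ∈ Bad D m r 0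
        · classical
          have hex : ∃ j, GoodC (plus ω) (Box D m r) (Reg (plus ω)) j :=
            ⟨_, ((hP D m r 0 0 0).2 _ _).2.2.2.1⟩
          obtain ⟨j, hj⟩ : ∃ j, Nat.find hex = j + 1 :=
            Nat.exists_eq_succ_of_ne_zero fun k => hω (k ▸ Nat.find_spec hex)
          rw [Set.indicator_of_mem hω]
          refine le_trans ?_ (ENNReal.le_tsum j)
          rw [Set.indicator_of_mem (show ω ∈ Bad D m r j from Nat.find_min hex (by omega))]
          exact hF ω _ (hj ▸ Nat.find_spec hex)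
        · rw [Set.indicator_of_notMem hω]; exact zero_le
    _ = _ := by
        rw [lintegral_tsum fun j => ((hU.const_mul _).indicator (meas_Bad hM m r j)).aemeasurable]
        exact tsum_congr fun j => by
          rw [lintegral_indicator (meas_Bad hM m r j), lintegral_const_mul _ hU]

/-- the classes of large index -/
theorem high_le {C ε lam : ℝ} {j : ℕ} (hC : 1 ≤ C) (h0 : 0 ≤ ε) (hl : 0 ≤ lam)
    (hw : ε ^ D * exp lam ≤ 2) (hy : 4 * C ^ (2 * D + 1) * ε ≤ 1 / 4) (hj : 2 * D ≤ j) :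
    exp (lam * (j + 1 : ℕ)) * (C * (C * ε) ^ ((2 * D + 2) * ((j + 2) / 2))) ^
      (1 - 1 / (2 * D + 2) : ℝ) ≤
      C * 2 ^ (2 * D + 1) * (4 * C ^ (2 * D + 1) * ε) ^ (D + 1) * (1 / 2) ^ j := by
  obtain ⟨t, ht⟩ : ∃ t, (j + 2) / 2 = D + 1 + t := ⟨(j + 2) / 2 - (D + 1), by omega⟩
  have hj2 : j ≤ 2 * D + 1 + 2 * t := by omega
  rw [ht]
  obtain ⟨h, hh⟩ : ∃ h, h = D + 1 + t := ⟨_, rfl⟩
  obtain ⟨y, hy0⟩ : ∃ y, y = 4 * C ^ (2 * D + 1) * ε := ⟨_, rfl⟩
  have hC0 : 0 ≤ C := by linarith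
  have hD : (0 : ℝ) < 2 * D + 2 := by positivity
  have y0 : 0 ≤ y := by rw [hy0]; positivity
  have e1 : (C * (C * ε) ^ ((2 * D + 2) * h)) ^ (1 - 1 / (2 * D + 2) : ℝ) ≤
      C * (C * ε) ^ ((2 * D + 1) * h) := by
    rw [mul_rpow hC0 (by positivity), ← rpow_natCast (C * ε), ← rpow_mul (by positivity),
      ← rpow_natCast (C * ε)]
    have : (((2 * D + 2) * h : ℕ) : ℝ) * (1 - 1 / (2 * D + 2)) = (((2 * D + 1) * h : ℕ) : ℝ) := by
      push_cast; field_simp; ring
    rw [this]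
    refine mul_le_mul_of_nonneg_right ?_ (by positivity)
    have := rpow_le_rpow_of_exponent_le hC
      (show (1 - 1 / (2 * D + 2) : ℝ) ≤ 1 by linarith [one_div_pos.2 hD])
    simpa using this
  have e2 : exp (lam * (j + 1 : ℕ)) ≤ exp lam ^ (2 * h) := by
    rw [← exp_nat_mul, mul_comm]
    exact exp_le_exp.2 (mul_le_mul_of_nonneg_right (by exact_mod_cast (by omega)) hl)
  have e3 : exp lam ^ (2 * h) * (C * ε) ^ ((2 * D + 1) * h) ≤ y ^ h := by
    rw [pow_mul, pow_mul, ← mul_pow]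
    refine pow_le_pow_left₀ (by positivity) ?_ _
    have a1 : (ε ^ D * exp lam) ^ 2 ≤ 2 ^ 2 := pow_le_pow_left₀ (by positivity) hw 2
    have a2 : exp lam ^ 2 * (C * ε) ^ (2 * D + 1) =
        (ε ^ D * exp lam) ^ 2 * (C ^ (2 * D + 1) * ε) := by ring
    rw [a2, hy0, mul_assoc]
    exact mul_le_mul_of_nonneg_right (by linarith) (by positivity)
  have e4 : y ^ t ≤ 2 ^ (2 * D + 1) * (1 / 2) ^ j := by
    refine (pow_le_pow_left₀ y0 (hy0 ▸ hy) t).trans ?_
    have a1 : ((1 : ℝ) / 2) ^ (2 * D + 1 + 2 * t) ≤ (1 / 2) ^ j :=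
      pow_le_pow_of_le_one (by norm_num) (by norm_num) hj2
    refine le_trans (le_of_eq ?_) (mul_le_mul_of_nonneg_left a1 (by positivity))
    rw [pow_add (1 / 2 : ℝ), ← mul_assoc, ← mul_pow, pow_mul]
    norm_num
  rw [← hh, ← hy0]
  calc _ ≤ exp lam ^ (2 * h) * (C * (C * ε) ^ ((2 * D + 1) * h)) :=
        mul_le_mul e2 e1 (by positivity) (by positivity)
    _ = C * (exp lam ^ (2 * h) * (C * ε) ^ ((2 * D + 1) * h)) := by ring
    _ ≤ C * (y ^ (D + 1) * y ^ t) := by
        rw [← pow_add, ← hh]; exact mul_le_mul_of_nonneg_left e3 hC0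
    _ ≤ C * (y ^ (D + 1) * (2 ^ (2 * D + 1) * (1 / 2) ^ j)) := by gcongr
    _ = _ := by ring

/-- the classes of small index -/
theorem low_le {C ε lam : ℝ} {j : ℕ} (hC : 0 < C) (h0 : 0 ≤ ε)
    (hw : ε ^ D * exp lam ≤ 2) (hj : j < 2 * D) :
    exp (lam * (j + 1 : ℕ)) * (C * exp (1 * (j + 1 : ℕ)) * ε ^ (D * (j + 1 + 1) + 1)) ≤
      C * exp (2 * D) * 2 ^ (2 * D + 1) * (ε * exp (-lam)) := by
  have e1 : exp (1 * ((j + 1 : ℕ) : ℝ)) ≤ exp (2 * D) := by
    rw [one_mul]
    exact exp_le_exp.2 (by exact_mod_cast (by omega))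
  have e2 : (ε ^ D * exp lam) ^ (j + 2) ≤ 2 ^ (2 * D + 1) :=
    (pow_le_pow_left₀ (by positivity) hw _).trans (pow_le_pow_right₀ one_le_two (by omega))
  have e3 : exp (lam * (j + 1 : ℕ)) = exp lam ^ (j + 2) * exp (-lam) := by
    rw [← exp_nat_mul, ← exp_add]; congr 1; push_cast; ring
  calc _ = C * exp (1 * (j + 1 : ℕ)) * (ε ^ D * exp lam) ^ (j + 2) * (ε * exp (-lam)) := by
        rw [e3]; ring
    _ ≤ _ := by gcongr

theorem one_le_NN (D m r : ℕ) : (1 : ℝ≥0∞) ≤ NN D m r := by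
  exact_mod_cast one_le_two.trans (two_le_NN D m r)

theorem piece_le (hM : MEASStmt) (hP : PDStmt) (hW : WGEOStmt) {C p lam : ℝ} (hC : 1 ≤ C)
    (h1 : p ≤ 1) (hl : 0 ≤ lam) (hw : (1 - p) ^ D * exp lam ≤ 2)
    (hy : 4 * C ^ (2 * D + 1) * (1 - p) ≤ 1 / 4)
    (hK : ∀ (b : V D) (n h : ℕ), perc D p {ω | WTrap ω b n h} ≤
      ENNReal.ofReal (C * (C * (1 - p)) ^ ((2 * D + 2) * h)))
    (m r : ℕ) {F U : Cfg D → ℝ≥0∞} (hU : Measurable U) (hU1 : ∀ ω, U ω ≤ 1)
    (hF : ∀ ω j, GoodC (plus ω) (Box D m r) (Reg (plus ω)) j →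
      F ω ≤ ENNReal.ofReal ((6 * D + 6) * (NN D m r : ℝ) ^ 3 * exp (lam * j)) * U ω)
    {x : ℝ≥0∞} (hx : ∀ j < 2 * D, ENNReal.ofReal (exp (lam * (j + 1 : ℕ))) *
      ∫⁻ ω in Bad D m r j, U ω ∂perc D p ≤ NN D m r * x) :
    ∫⁻ ω in Bad D m r 0, F ω ∂perc D p ≤ (NN D m r : ℝ≥0∞) ^ 4 * (ENNReal.ofReal (6 * D + 6) *
      (ENNReal.ofReal (C * 2 ^ (2 * D + 2) * (4 * C ^ (2 * D + 1) * (1 - p)) ^ (D + 1)) *
        (∫⁻ ω, U ω ∂perc D p) ^ (1 / (2 * D + 2) : ℝ) + (2 * D : ℕ) * x)) := by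
  have hε : 0 ≤ 1 - p := by linarith
  have hC0 : 0 ≤ C := by linarith
  obtain ⟨α, hα⟩ : ∃ α : ℝ, α = 1 / (2 * D + 2) := ⟨_, rfl⟩
  have a0 : 0 ≤ α := by rw [hα]; positivity
  have a1 : α ≤ 1 := by
    rw [hα, div_le_one (by positivity)]; linarith [(Nat.cast_nonneg D : (0 : ℝ) ≤ D)]
  obtain ⟨a, ha⟩ : ∃ a : ℝ,
      a = C * 2 ^ (2 * D + 1) * (4 * C ^ (2 * D + 1) * (1 - p)) ^ (D + 1) := ⟨_, rfl⟩
  have ha0 : 0 ≤ a := by rw [ha]; positivity
  obtain ⟨g, hg⟩ : ∃ g, g = ∫⁻ ω, U ω ∂perc D p := ⟨_, rfl⟩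
  have hN := one_le_NN D m r
  have key : ∀ j : ℕ, ENNReal.ofReal (exp (lam * (j + 1 : ℕ))) *
      ∫⁻ ω in Bad D m r j, U ω ∂perc D p ≤
      NN D m r * (g ^ α * ENNReal.ofReal (a * (1 / 2) ^ j) + if j < 2 * D then x else 0) := by
    intro j
    split_ifs with hj
    · exact (hx j hj).trans (mul_le_mul_right le_add_self _)
    · rw [add_zero]
      obtain ⟨τ, hτ⟩ : ∃ τ : ℝ, τ = C * (C * (1 - p)) ^ ((2 * D + 2) * ((j + 2) / 2)) := ⟨_, rfl⟩
      have τ0 : 0 ≤ τ := by rw [hτ]; positivity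
      have b1 : ∫⁻ ω in Bad D m r j, U ω ∂perc D p ≤ g := by
        rw [hg]; exact setLIntegral_le_lintegral _ _
      have b2 : ∫⁻ ω in Bad D m r j, U ω ∂perc D p ≤ NN D m r * ENNReal.ofReal τ :=
        (lintegral_mono hU1).trans
          (by simpa using bad_wtrap hW p m r j fun b n => hτ ▸ hK b n _)
      have b3 : ((NN D m r : ℝ≥0∞) * ENNReal.ofReal τ) ^ (1 - α) ≤
          NN D m r * ENNReal.ofReal (τ ^ (1 - α)) := by
        rw [ENNReal.mul_rpow_of_nonneg _ _ (by linarith),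
          ENNReal.ofReal_rpow_of_nonneg τ0 (by linarith)]
        refine mul_le_mul_left ?_ _
        simpa using ENNReal.rpow_le_rpow_of_exponent_le hN (by linarith : 1 - α ≤ 1)
      have b4 : ENNReal.ofReal (exp (lam * (j + 1 : ℕ))) * ENNReal.ofReal (τ ^ (1 - α)) ≤
          ENNReal.ofReal (a * (1 / 2) ^ j) := by
        rw [← ENNReal.ofReal_mul (exp_pos _).le, hτ, hα, ha]
        exact ENNReal.ofReal_le_ofReal (high_le hC hε hl hw hy (by omega))
      calc _ ≤ ENNReal.ofReal (exp (lam * (j + 1 : ℕ))) *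
            (g ^ α * (NN D m r * ENNReal.ofReal (τ ^ (1 - α)))) :=
            mul_le_mul_right ((Tsum.le_geom a0 a1 b1 b2).trans (mul_le_mul_right b3 _)) _
        _ = NN D m r * (g ^ α * (ENNReal.ofReal (exp (lam * (j + 1 : ℕ))) *
            ENNReal.ofReal (τ ^ (1 - α)))) := by ring
        _ ≤ _ := mul_le_mul_right (mul_le_mul_right b4 _) _
  have s1 : ∑' j : ℕ, ENNReal.ofReal (a * (1 / 2) ^ j) = ENNReal.ofReal (2 * a) := by
    rw [← ENNReal.ofReal_tsum_of_nonneg (fun j => by positivity)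
      (summable_geometric_two.mul_left a), tsum_mul_left, tsum_geometric_two, mul_comm]
  have s2 : ∑' j : ℕ, (if j < 2 * D then x else 0) = (2 * D : ℕ) * x := by
    rw [tsum_eq_sum (s := Finset.range (2 * D)) fun j hj => if_neg (by simpa using hj),
      Finset.sum_congr rfl fun j hj => if_pos (Finset.mem_range.1 hj), Finset.sum_const,
      Finset.card_range, nsmul_eq_mul]
  refine (split_le hM hP p m r hU hF).trans ?_
  have b5 : ∀ j : ℕ,
      ENNReal.ofReal ((6 * D + 6) * (NN D m r : ℝ) ^ 3 * exp (lam * (j + 1 : ℕ))) =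
        (NN D m r : ℝ≥0∞) ^ 3 * ENNReal.ofReal (6 * D + 6) *
          ENNReal.ofReal (exp (lam * (j + 1 : ℕ))) := fun j => by
    rw [ENNReal.ofReal_mul (by positivity), ENNReal.ofReal_mul (by positivity),
      ENNReal.ofReal_pow (by positivity), ENNReal.ofReal_natCast, mul_comm (ENNReal.ofReal _)]
  simp only [b5]
  simp only [mul_assoc]
  rw [ENNReal.tsum_mul_left, ENNReal.tsum_mul_left]
  refine (mul_le_mul_right (mul_le_mul_right (ENNReal.tsum_le_tsum key) _) _).trans (le_of_eq ?_)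
  rw [ENNReal.tsum_mul_left, ENNReal.tsum_add, ENNReal.tsum_mul_left, s1, s2, ← hg, ← hα,
    show C * (2 ^ (2 * D + 2) * (4 * (C ^ (2 * D + 1) * (1 - p))) ^ (D + 1)) = 2 * a by
      rw [ha]; ring]
  ring

theorem core {ι : Type} {w T g : ι → ℝ≥0∞} {P : ι → Prop} [DecidablePred P]
    {E a b c n M τ S : ℝ≥0∞}
    (hT : ∀ q, T q ≤ w q * (E * (a * g q + n * if P q then c * g q else b)))
    (h1 : ∑' q, w q * g q ≤ M) (h2 : ∑' q, (if P q then w q * g q else 0) ≤ τ)
    (h3 : ∑' q, (if P q then 0 else w q) ≤ S) :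
    ∑' q, T q ≤ E * (a * M + n * (c * τ + b * S)) := by
  have e : ∀ q, w q * (E * (a * g q + n * if P q then c * g q else b)) =
      E * (a * (w q * g q) + n * (c * (if P q then w q * g q else 0) +
        b * if P q then 0 else w q)) := fun q => by
    split_ifs <;> ring
  refine (ENNReal.tsum_le_tsum hT).trans ?_
  simp only [e, ENNReal.tsum_mul_left, ENNReal.tsum_add]
  gcongr

theorem box_fin {ι : Type} {P : ι → Prop} [DecidablePred P] {w : ι → ℝ}
    (h : {q | ¬ P q}.Finite) :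
    ∃ S : ℝ, 0 ≤ S ∧ ∑' q, (if P q then 0 else ENNReal.ofReal (w q)) ≤ ENNReal.ofReal S := by
  refine ⟨_, ENNReal.toReal_nonneg, (ENNReal.ofReal_toReal ?_).ge⟩
  rw [tsum_eq_sum (s := h.toFinset) fun q hq => if_pos (by simpa using hq)]
  exact ENNReal.sum_ne_top.2 fun q _ => by split_ifs <;> simp

theorem final_le {C C0 M S ε lam ζ : ℝ} (hC : 1 ≤ C) (hC0 : 0 < C0) (hM : 0 ≤ M) (hS : 0 ≤ S)
    (h0 : 0 ≤ ε) (hw : ε ^ D * exp lam ≤ 2)
    (hζ : (6 * D + 6) * (C * 2 ^ (2 * D + 2) * (4 * C ^ (2 * D + 1)) ^ (D + 1) * 2 * M +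
      2 * D * (2 ^ (2 * D + 1) + C0 * exp (2 * D) * 2 ^ (2 * D + 1) * S)) * ε ≤ ζ) :
    ENNReal.ofReal (6 * D + 6) *
      (ENNReal.ofReal (C * 2 ^ (2 * D + 2) * (4 * C ^ (2 * D + 1) * ε) ^ (D + 1)) *
        ENNReal.ofReal M + (2 * D : ℕ) * (ENNReal.ofReal (exp lam ^ (2 * D)) *
          ENNReal.ofReal (ε ^ (D * (2 * D + 1) + 1)) +
          ENNReal.ofReal (C0 * exp (2 * D) * 2 ^ (2 * D + 1) * (ε * exp (-lam))) *
            ENNReal.ofReal S)) ≤ ENNReal.ofReal (ζ * exp (-lam)) := by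
  have hC1 : 0 ≤ C := by linarith
  rw [← ENNReal.ofReal_natCast, ← ENNReal.ofReal_mul (by positivity),
    ← ENNReal.ofReal_mul (by positivity), ← ENNReal.ofReal_mul (by positivity),
    ← ENNReal.ofReal_add (by positivity) (by positivity), ← ENNReal.ofReal_mul (by positivity),
    ← ENNReal.ofReal_add (by positivity) (by positivity), ← ENNReal.ofReal_mul (by positivity)]
  refine ENNReal.ofReal_le_ofReal (le_trans ?_ (mul_le_mul_of_nonneg_right hζ (exp_pos _).le))
  have hL : exp lam * exp (-lam) = 1 := by rw [← exp_add]; simp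
  have e1 : ε ^ (D + 1) ≤ 2 * (ε * exp (-lam)) := by
    have : ε ^ (D + 1) = ε ^ D * exp lam * (ε * exp (-lam)) := by
      rw [pow_succ]; linear_combination (-(ε ^ D * ε)) * hL
    rw [this]; gcongr
  have e2 : exp lam ^ (2 * D) * ε ^ (D * (2 * D + 1) + 1) ≤
      2 ^ (2 * D + 1) * (ε * exp (-lam)) := by
    have : exp lam ^ (2 * D) * ε ^ (D * (2 * D + 1) + 1) =
        (ε ^ D * exp lam) ^ (2 * D + 1) * (ε * exp (-lam)) := by
      rw [mul_pow, ← pow_mul, pow_succ (exp lam), pow_succ ε]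
      linear_combination (-(ε ^ (D * (2 * D + 1)) * exp lam ^ (2 * D) * ε)) * hL
    rw [this]; gcongr
  rw [mul_pow (4 * C ^ (2 * D + 1))]
  calc _ ≤ (6 * D + 6) * (C * 2 ^ (2 * D + 2) * ((4 * C ^ (2 * D + 1)) ^ (D + 1) *
        (2 * (ε * exp (-lam)))) * M + ((2 * D : ℕ) : ℝ) * (2 ^ (2 * D + 1) * (ε * exp (-lam)) +
          C0 * exp (2 * D) * 2 ^ (2 * D + 1) * (ε * exp (-lam)) * S)) := by gcongr
    _ = _ := by push_cast; ring

/-- one term of the sums, with the two bounds for the classes of small index -/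
theorem term_le (hM : MEASStmt) (hP : PDStmt) (hW : WGEOStmt) {C C0 p lam : ℝ} (hC : 1 ≤ C)
    (hC0 : 0 < C0) (h0 : 0 ≤ p) (h1 : p ≤ 1) (hl : 0 ≤ lam) (hw : (1 - p) ^ D * exp lam ≤ 2)
    (hy : 4 * C ^ (2 * D + 1) * (1 - p) ≤ 1 / 4)
    (hK : ∀ (b : V D) (n h : ℕ), perc D p {ω | WTrap ω b n h} ≤
      ENNReal.ofReal (C * (C * (1 - p)) ^ ((2 * D + 2) * h)))
    (hT : ∀ (b : V D) (j : ℕ), 1 ≤ j → perc D p {ω | Trap ω b j} ≤
      ENNReal.ofReal (C0 * exp (1 * j) * (1 - p) ^ (D * (j + 1) + 1)))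
    (m r : ℕ) {F U : Cfg D → ℝ≥0∞} (hU : Measurable U) (hU1 : ∀ ω, U ω ≤ 1)
    (hF : ∀ ω j, GoodC (plus ω) (Box D m r) (Reg (plus ω)) j →
      F ω ≤ ENNReal.ofReal ((6 * D + 6) * (NN D m r : ℝ) ^ 3 * exp (lam * j)) * U ω)
    (P : Prop) [Decidable P] :
    ∫⁻ ω in Bad D m r 0, F ω ∂perc D p ≤ (NN D m r : ℝ≥0∞) ^ 4 * (ENNReal.ofReal (6 * D + 6) *
      (ENNReal.ofReal (C * 2 ^ (2 * D + 2) * (4 * C ^ (2 * D + 1) * (1 - p)) ^ (D + 1)) *
        (∫⁻ ω, U ω ∂perc D p) ^ (1 / (2 * D + 2) : ℝ) + (2 * D : ℕ) *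
        if P then ENNReal.ofReal (exp lam ^ (2 * D)) *
          (∫⁻ ω, U ω ∂perc D p) ^ (1 / (2 * D + 2) : ℝ)
        else ENNReal.ofReal (C0 * exp (2 * D) * 2 ^ (2 * D + 1) * ((1 - p) * exp (-lam))))) := by
  refine piece_le hM hP hW hC h1 hl hw hy hK m r hU hU1 hF fun j hj => ?_
  have := perc_prob D h0 h1
  split_ifs
  · refine le_trans (mul_le_mul' (ENNReal.ofReal_le_ofReal ?_)
      ((setLIntegral_le_lintegral _ _).trans ?_)) (le_mul_of_one_le_left' (one_le_NN D m r))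
    · rw [← exp_nat_mul, mul_comm]
      exact exp_le_exp.2 (mul_le_mul_of_nonneg_right (by exact_mod_cast (by omega)) hl)
    · have g1 : ∫⁻ ω, U ω ∂perc D p ≤ 1 := (lintegral_mono hU1).trans (by simp)
      have a1 : (1 / (2 * D + 2) : ℝ) ≤ 1 := by
        rw [div_le_one (by positivity)]; linarith [(Nat.cast_nonneg D : (0 : ℝ) ≤ D)]
      simpa using ENNReal.rpow_le_rpow_of_exponent_ge g1 a1
  · have b2 : ∫⁻ ω in Bad D m r j, U ω ∂perc D p ≤ NN D m r * ENNReal.ofReal
        (C0 * exp (1 * (j + 1 : ℕ)) * (1 - p) ^ (D * (j + 1 + 1) + 1)) :=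
      (lintegral_mono hU1).trans (by
        rw [setLIntegral_one]; exact bad_trap hW p m r j fun b => hT b (j + 1) (by omega))
    refine (mul_le_mul_right b2 _).trans ?_
    rw [mul_left_comm, ← ENNReal.ofReal_mul (exp_pos _).le]
    exact mul_le_mul_right (ENNReal.ofReal_le_ofReal (low_le hC0 (by linarith) hw hj)) _

end Ts2M

open Ts2M

theorem ts2 (hM : MEASStmt) (hB : PBStmt) (hP : PDStmt) (hW : WGEOStmt) (hF : PROFStmt)
    (hK : KTRAPStmt) (hT : KPTStmt) (hO : KMOMStmt) : TS2Stmt := by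
  intro D hD K ζ hζ
  obtain ⟨C, hC, hK⟩ := hK D hD
  obtain ⟨C0, e1, hC0, he1, hTr⟩ := trapS D (by omega) 1 one_pos
  obtain ⟨Q, A, μ₀, hQ, hA, hμ₀, hT⟩ := hT D hD
  have a1 : (1 / (2 * D + 2) : ℝ) ≤ 1 := by
    rw [div_le_one (by positivity)]; linarith [(Nat.cast_nonneg D : (0 : ℝ) ≤ D)]
  obtain ⟨R, CM, μ₁, hCM, hO⟩ := hO D Q (K + 4) A (1 / (2 * D + 2)) 1
    ((D * (2 * D + 1) + 1 : ℕ) : ℝ) (by omega) (by omega) hA (by positivity) a1 le_rfl
  obtain ⟨S1, hS1, hb1⟩ := box_fin (P := fun q : ℕ × ℕ => R < q.1 ∨ R < q.2)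
    (w := fun q => (NN D q.1 q.2 : ℝ) ^ (K + 4))
    (((Set.finite_Iic R).prod (Set.finite_Iic R)).subset fun q hq => by
      simpa [not_or, Prod.le_def] using hq)
  obtain ⟨S2, hS2, hb2⟩ := box_fin
    (P := fun q : (ℕ × ℕ) × ℕ × ℕ => R < q.1.1 ∨ R < q.1.2 ∨ R < q.2.1 ∨ R < q.2.2)
    (w := fun q => ((NN D q.1.1 q.1.2 : ℝ) * NN D (q.2.1 + 1) q.2.2) ^ (K + 4))
    ((((Set.finite_Iic R).prod (Set.finite_Iic R)).prod
      ((Set.finite_Iic R).prod (Set.finite_Iic R))).subset fun q hq => by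
      simpa [not_or, and_assoc, Prod.le_def] using hq)
  have hC1 : 0 < C := by linarith
  have hCM0 : 0 ≤ CM := by linarith
  obtain ⟨G, hG⟩ : ∃ G : ℝ, G = (6 * D + 6) *
      (C * 2 ^ (2 * D + 2) * (4 * C ^ (2 * D + 1)) ^ (D + 1) * 2 * CM +
      2 * D * (2 ^ (2 * D + 1) + C0 * exp (2 * D) * 2 ^ (2 * D + 1) * (S1 + S2))) := ⟨_, rfl⟩
  have hG0 : 0 < G := by
    have : 0 < CM := by linarith
    rw [hG]; positivity
  obtain ⟨e2, he2, hwin⟩ := win_mu hD (max μ₀ μ₁)
  refine ⟨min (min e1 e2) (min (ζ / G) (1 / (16 * C ^ (2 * D + 1)))), by positivity,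
    fun p lam p0 p1 w1 w2 => ?_⟩
  have k0 : 1 - p ≤ min (min e1 e2) (min (ζ / G) (1 / (16 * C ^ (2 * D + 1)))) := by linarith
  simp only [le_min_iff] at k0
  obtain ⟨⟨k1, k2⟩, k3, k4⟩ := k0
  obtain ⟨μ, m1, m2, m3, m4, -⟩ := hwin p lam (by linarith) p1 w1 w2
  rw [max_le_iff] at m1
  have h0 : 0 ≤ p := by linarith
  have hε : 0 ≤ 1 - p := by linarith
  have hl : 0 ≤ lam := by linarith [m1.1]
  have hy : 4 * C ^ (2 * D + 1) * (1 - p) ≤ 1 / 4 := by
    rw [le_div_iff₀ (by positivity)] at k4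
    linarith
  have hy2 : C * (1 - p) ≤ 1 / 2 := by
    have : C * (1 - p) ≤ C ^ (2 * D + 1) * (1 - p) :=
      mul_le_mul_of_nonneg_right (le_self_pow₀ hC (by omega)) hε
    linarith
  have hK' : ∀ (b : V D) (n h : ℕ), perc D p {ω | WTrap ω b n h} ≤
      ENNReal.ofReal (C * (C * (1 - p)) ^ ((2 * D + 2) * h)) := fun b n h => by
    have := (hK p p1.le hy2 ∅ (fun _ => b 0 + h) (fun _ => 0) ((hF D hD).1 _) b n h).2 (by omega)
    simpa [ks] using this
  have hmom := hO p lam μ 0 _ _ m1.2 p1.le m2.le m4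
    (hT p lam μ ∅ 0 (fun _ => 0) 0 m1.1 ⟨p1.le, m2.le, m4, (hF D hD).1 _⟩ (by simp)
      fun n => by simp [ks]).1
  obtain ⟨o1, o2, o3⟩ := hmom
  obtain ⟨o3, o4⟩ := o3 rfl
  have em : exp (-((D * (2 * D + 1) + 1 : ℕ) : ℝ) * μ) = (1 - p) ^ (D * (2 * D + 1) + 1) := by
    rw [m2, ← exp_nat_mul]; congr 1; ring
  simp only [one_pow, mul_one, zero_add, pow_one, g1, g2, clo_empty, em] at o1 o2 o3 o4
  have hfin := final_le (D := D) (lam := lam) (ζ := ζ) hC hC0 hCM0 (add_nonneg hS1 hS2) hε w2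
    (by rw [← hG, mul_comm]; exact (le_div_iff₀ hG0).1 k3)
  have hTr' := hTr p (by linarith) p1.le
  constructor
  · refine le_trans (core (fun q => ?_) o1 o3
      (hb1.trans (ENNReal.ofReal_le_ofReal (le_add_of_nonneg_right hS2)))) hfin
    rw [ENNReal.ofReal_pow (Nat.cast_nonneg _), ENNReal.ofReal_natCast, pow_add, mul_assoc]
    exact mul_le_mul_right (term_le hM hP hW hC hC0 h0 p1.le hl w2 hy hK' hTr' q.1 q.2
      (((hM D lam).2.2.2.2.2.2.2.1 q.1 q.2 0 0).1.comp measurable_plus)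
      (fun ω => ((p4S D q.1 q.2).2.2.2.2.2.1 lam _).1)
      (fun ω j h => (hB D lam hl _ _ q.1 q.2 0 0 j h).1) _) _
  · refine le_trans (core (fun q => ?_) o2 o4
      (hb2.trans (ENNReal.ofReal_le_ofReal (le_add_of_nonneg_left hS1)))) hfin
    rw [ENNReal.ofReal_pow (by positivity), ENNReal.ofReal_mul (Nat.cast_nonneg _),
      ENNReal.ofReal_natCast, ENNReal.ofReal_natCast, pow_add, mul_assoc]
    refine mul_le_mul_right ((term_le hM hP hW hC hC0 h0 p1.le hl w2 hy hK' hTr' q.1.1 q.1.2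
      (((hM D lam).2.2.2.2.2.2.2.1 q.1.1 q.1.2 q.2.1 q.2.2).2.comp measurable_plus)
      (fun ω => ((hP D q.1.1 q.1.2 q.2.1 q.2.2 lam).2 _ fun _ _ => True).2.1.trans
        ((p4S D q.1.1 q.1.2).2.2.2.2.2.1 lam _).1)
      (fun ω j h => (hB D lam hl _ _ q.1.1 q.1.2 q.2.1 q.2.2 j h).2) _).trans
      (mul_le_mul_left (pow_le_pow_left' (le_mul_of_one_le_right' (one_le_NN _ _ _)) 4) _)) _

end Pool.Agent.MP_8c549f_pr

end MrgPart1

-- marker of a merged file
example : 731051 + 687642 = 731051 + 687642 := rfl
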