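import Pool.Agent.MP_8c549f_pr.Base2

-- ======== part 0: formerly Pool.Agent.MP_8c549f_pr.B7
section MrgPart0

/-!
Moments and tails of two arrays from pointwise bounds.
-/

set_option autoImplicit false

namespace Pool.Agent.MP_8c549f_pr

open MeasureTheory Filter Topology Real
open scoped ENNReal NNReal

namespace KmomM

theorem NNb (D m r K : ℕ) : ((NN D m r : ℕ) : ℝ) ^ K ≤
    2 ^ ((D + 2) * K) * ((m : ℝ) + 1) ^ (3 * K) * ((r : ℝ) + 1) ^ ((D + 1) * K) := by
  rw [pow_mul, pow_mul, pow_mul, ← mul_pow, ← mul_pow]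
  refine pow_le_pow_left₀ (Nat.cast_nonneg _) ?_ K
  have h : (2 * (r : ℝ) + 1) ^ (D + 1) ≤ (2 * ((r : ℝ) + 1)) ^ (D + 1) :=
    pow_le_pow_left₀ (by positivity) (by linarith) _
  rw [mul_pow] at h
  unfold NN
  push_cast
  calc 2 * ((m : ℝ) + 1) ^ 3 * (2 * (r : ℝ) + 1) ^ (D + 1)
      ≤ 2 * ((m : ℝ) + 1) ^ 3 * (2 ^ (D + 1) * ((r : ℝ) + 1) ^ (D + 1)) := by gcongr
    _ = _ := by ring

/-- the lateral factor -/
theorem latb (k h r r0 : ℕ) {β s x c : ℝ} (hβ : 0 < β) (hβ1 : β ≤ 1) (hs : exp (-(h : ℝ)) ≤ s)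
    (hs1 : s ≤ 1) (hx0 : 0 ≤ x) (hc : 1 ≤ c) (hx : x ≤ c * (1 - s) ^ (r - r0)) :
    ((r : ℝ) + 1) ^ k * x ^ β ≤
      c * exp 1 * k.factorial * β⁻¹ ^ k * (((r0 : ℝ) + 1) * exp h) ^ k := by
  set j := r - r0 with hj
  have hs0 : 0 < s := (exp_pos _).trans_le hs
  have h1 : (r : ℝ) + 1 ≤ ((r0 : ℝ) + 1) * ((j : ℝ) + 1) := by
    have : r + 1 ≤ (r0 + 1) * (j + 1) := by
      have : r ≤ r0 + j := by omega
      nlinarith [Nat.zero_le (r0 * j)]
    exact_mod_cast this
  have h2 : x ≤ c * exp (-(s * j)) := by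
    refine hx.trans (mul_le_mul_of_nonneg_left ?_ (by linarith))
    rw [show -(s * j) = (j : ℝ) * (-s) by ring, exp_nat_mul]
    exact pow_le_pow_left₀ (by linarith) (by linarith [add_one_le_exp (-s)]) j
  have h3 : x ^ β ≤ c * exp (-(s * β * j)) := by
    refine (rpow_le_rpow hx0 h2 hβ.le).trans ?_
    rw [mul_rpow (by linarith) (exp_pos _).le, ← exp_mul]
    refine mul_le_mul ?_ (le_of_eq (by congr 1; ring)) (exp_pos _).le (by linarith)
    calc c ^ β ≤ c ^ (1 : ℝ) := rpow_le_rpow_of_exponent_le hc hβ1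
      _ = c := rpow_one c
  have hsb : s * β ≤ 1 := by nlinarith
  have h4 : exp (-(s * β * j)) ≤ exp 1 * exp (-(s * β * (j + 1))) := by
    rw [← exp_add]; exact exp_le_exp.2 (by nlinarith)
  have hy : 0 < s * β * ((j : ℝ) + 1) := by positivity
  have h5 := Mom.exp_neg_le hy k
  have h6 : s⁻¹ ≤ exp h := by
    rw [inv_le_comm₀ hs0 (exp_pos _), ← exp_neg]; exact hs
  have hj0 : (0 : ℝ) < (j : ℝ) + 1 := by positivity
  calc ((r : ℝ) + 1) ^ k * x ^ β
      ≤ (((r0 : ℝ) + 1) * ((j : ℝ) + 1)) ^ k *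
          (c * (exp 1 * (k.factorial * (s * β * ((j : ℝ) + 1))⁻¹ ^ k))) := by
        refine mul_le_mul (pow_le_pow_left₀ (by positivity) h1 k) (h3.trans ?_)
          (rpow_nonneg hx0 _) (by positivity)
        exact mul_le_mul_of_nonneg_left (h4.trans
          (mul_le_mul_of_nonneg_left h5 (exp_pos _).le)) (by linarith)
    _ = c * exp 1 * k.factorial * β⁻¹ ^ k * (((r0 : ℝ) + 1) * s⁻¹) ^ k := by
        have e : ((r0 : ℝ) + 1) * ((j : ℝ) + 1) * (s * β * ((j : ℝ) + 1))⁻¹ =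
            β⁻¹ * (((r0 : ℝ) + 1) * s⁻¹) := by field_simp
        calc _ = c * exp 1 * k.factorial * (((r0 : ℝ) + 1) * ((j : ℝ) + 1) *
              (s * β * ((j : ℝ) + 1))⁻¹) ^ k := by rw [mul_pow _ (_⁻¹)]; ring
          _ = _ := by rw [e, mul_pow]; ring
    _ ≤ _ := by
        have : 0 ≤ c := by linarith
        gcongr

/-- the vertical factor -/
theorem verb {β μ μ₁ x y : ℝ} (hβ : 0 < β) (hβ1 : β ≤ 1) (h0 : 0 ≤ μ₁) (h1 : μ₁ ≤ μ)
    (hx0 : 0 ≤ x) (hx1 : x ≤ 1) (hx : x ≤ 2 * exp (-μ * y)) :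
    x ^ β ≤ 2 * exp (-(β * μ₁ * y)) := by
  have h2 : x ≤ 2 * exp (-μ₁ * y) := by
    rcases le_total 0 y with hy | hy
    · exact hx.trans (mul_le_mul_of_nonneg_left (exp_le_exp.2 (by nlinarith)) (by norm_num))
    · have : 1 ≤ exp (-μ₁ * y) := one_le_exp (by nlinarith)
      linarith
  refine (rpow_le_rpow hx0 h2 hβ.le).trans ?_
  rw [mul_rpow (by norm_num) (exp_pos _).le, ← exp_mul]
  refine mul_le_mul ?_ (le_of_eq (by congr 1; ring)) (exp_pos _).le (by norm_num)
  calc (2 : ℝ) ^ β ≤ 2 ^ (1 : ℝ) := rpow_le_rpow_of_exponent_le (by norm_num) hβ1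
    _ = 2 := rpow_one 2

theorem succ_le_exp {a n : ℕ} (h : a ≤ n) : (a : ℝ) + 1 ≤ exp n := by
  have : (a : ℝ) ≤ n := by exact_mod_cast h
  linarith [add_one_le_exp (n : ℝ)]

theorem r0_le {ν a n Q : ℕ} (h : a ≤ n) :
    ((1 + ν + a / Q : ℕ) : ℝ) + 1 ≤ exp (ν + 1) * exp n := by
  have h1 : 1 + ν + a / Q + 1 ≤ (ν + 1 + 1) * (n + 1) := by
    have := Nat.div_le_self a Q
    nlinarith [Nat.zero_le (ν * n)]
  have h2 : ((1 + ν + a / Q : ℕ) : ℝ) + 1 ≤ ((ν : ℝ) + 1 + 1) * ((n : ℝ) + 1) := by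
    exact_mod_cast h1
  exact h2.trans (mul_le_mul (add_one_le_exp _) (add_one_le_exp _) (by positivity) (exp_pos _).le)

/-- the lateral factor in exponential form -/
theorem late (k h r ν a n Q : ℕ) {β φ x c : ℝ} (hβ : 0 < β) (hβ1 : β ≤ 1) (hφ : exp (-1) ≤ φ)
    (hφ1 : φ ≤ 1) (hx0 : 0 ≤ x) (hc : 1 ≤ c) (hh : h ≤ n) (ha : a ≤ n)
    (hx : x ≤ c * (1 - φ ^ h) ^ (r - (1 + ν + a / Q))) :
    ((r : ℝ) + 1) ^ k * x ^ β ≤
      c * exp 1 * k.factorial * β⁻¹ ^ k * exp (k * (ν + 1) + 2 * k * n) := by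
  have hφ0 : 0 ≤ φ := (exp_pos _).le.trans hφ
  have h1 : exp (-(h : ℝ)) ≤ φ ^ h := by
    rw [show -(h : ℝ) = (h : ℝ) * (-1) by ring, exp_nat_mul]
    exact pow_le_pow_left₀ (exp_pos _).le hφ h
  refine (latb k h r _ hβ hβ1 h1 (pow_le_one₀ hφ0 hφ1) hx0 hc hx).trans ?_
  refine mul_le_mul_of_nonneg_left ?_ (by positivity)
  rw [show (k : ℝ) * (ν + 1) + 2 * k * n = k * ((ν + 1) + n + n) by ring, exp_nat_mul]
  refine pow_le_pow_left₀ (by positivity) ?_ k
  rw [exp_add, exp_add]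
  exact mul_le_mul (r0_le ha) (exp_le_exp.2 (by exact_mod_cast hh)) (exp_pos _).le (by positivity)

theorem pw_le {a n : ℕ} (h : a ≤ n) (j : ℕ) : ((a : ℝ) + 1) ^ j ≤ exp (j * n) := by
  rw [exp_nat_mul]
  exact pow_le_pow_left₀ (by positivity) (succ_le_exp h) j

theorem C0_le {C₀ : ℝ} (h : 1 ≤ C₀) {m n : ℕ} (hm : m ≤ n) : C₀ ^ m ≤ exp (log C₀ * n) := by
  rw [mul_comm, exp_nat_mul, exp_log (by linarith)]
  exact pow_le_pow_right₀ h hm

theorem split3 {α x : ℝ} (hα : 0 < α) (hx0 : 0 ≤ x) :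
    x ^ α = x ^ (α / 3) * x ^ (α / 3) * x ^ (α / 3) := by
  rw [← rpow_add' hx0 (by positivity), ← rpow_add' hx0 (by positivity)]
  congr 1; ring

/-- pointwise bound, two indices -/
theorem pt1 (D Q K m r ν : ℕ) {A α C₀ φ μ μ₁ x W : ℝ} (hD : 1 ≤ D) (hA : 0 ≤ A) (hα : 0 < α)
    (hα1 : α ≤ 1) (hC : 1 ≤ C₀) (hφ : exp (-1) ≤ φ) (hφ1 : φ ≤ 1) (hμ : μ₁ ≤ μ)
    (hW : α / 3 * μ₁ = 64 * W)
    (hW1 : (3 * K + 2 : ℕ) + log C₀ + 2 * ((D + 1) * K + 2 : ℕ) ≤ W)
    (hx0 : 0 ≤ x) (hx1 : x ≤ 1) (hv : x ≤ 2 * exp (-μ * (((m : ℝ) - 2) / 64 - A * ν)))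
    (hl : x ≤ 2 * D * (1 - φ ^ m) ^ (r - (1 + ν + m / Q))) :
    (NN D m r : ℝ) ^ K * C₀ ^ m * x ^ α * (((m : ℝ) + 1) ^ 2 * ((r : ℝ) + 1) ^ 2) ≤
      2 ^ ((D + 2) * K) * (2 * D * exp 1 * ((D + 1) * K + 2).factorial *
        (α / 3)⁻¹ ^ ((D + 1) * K + 2)) * 2 *
        exp ((((D + 1) * K + 2 : ℕ) + 2 * W + 64 * W * A) * (ν + 1)) := by
  set k := (D + 1) * K + 2 with hk
  have hβ : 0 < α / 3 := by positivity
  have hβ1 : α / 3 ≤ 1 := by linarith
  have hD' : (1 : ℝ) ≤ D := by exact_mod_cast hD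
  have hL : 0 ≤ log C₀ := log_nonneg hC
  have hW0 : 0 ≤ W := le_trans (by positivity) hW1
  have hμ0 : 0 ≤ μ₁ := by
    by_contra h
    have := mul_neg_of_pos_of_neg hβ (not_le.1 h)
    linarith
  have a1 := NNb D m r K
  have a2 := late k m r ν m m Q hβ hβ1 hφ hφ1 hx0 (by linarith : (1 : ℝ) ≤ 2 * D) le_rfl le_rfl hl
  have a3 := verb hβ hβ1 hμ0 hμ hx0 hx1 hv
  have a4 := pw_le (le_refl m) (3 * K + 2)
  have a5 := C0_le hC (le_refl m)
  have a6 : x ^ (α / 3) ≤ 1 := rpow_le_one hx0 hx1 hβ.le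
  have a7 : 0 ≤ x ^ (α / 3) := rpow_nonneg hx0 _
  have hm : (0 : ℝ) ≤ m := Nat.cast_nonneg m
  have hν : (0 : ℝ) ≤ ν := Nat.cast_nonneg ν
  set c2 : ℝ := 2 * D * exp 1 * k.factorial * (α / 3)⁻¹ ^ k with hc2
  have hc2' : 0 ≤ c2 := by positivity
  calc (NN D m r : ℝ) ^ K * C₀ ^ m * x ^ α * (((m : ℝ) + 1) ^ 2 * ((r : ℝ) + 1) ^ 2)
      ≤ (2 ^ ((D + 2) * K) * ((m : ℝ) + 1) ^ (3 * K) * ((r : ℝ) + 1) ^ ((D + 1) * K)) * C₀ ^ m *
          (x ^ (α / 3) * x ^ (α / 3) * 1) * (((m : ℝ) + 1) ^ 2 * ((r : ℝ) + 1) ^ 2) := by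
        rw [split3 hα hx0]; gcongr
    _ = 2 ^ ((D + 2) * K) * (((r : ℝ) + 1) ^ k * x ^ (α / 3)) * x ^ (α / 3) *
          ((m : ℝ) + 1) ^ (3 * K + 2) * C₀ ^ m := by rw [hk]; ring
    _ ≤ 2 ^ ((D + 2) * K) * (c2 * exp (k * (ν + 1) + 2 * k * m)) *
          (2 * exp (-(α / 3 * μ₁ * (((m : ℝ) - 2) / 64 - A * ν)))) *
          exp ((3 * K + 2 : ℕ) * m) * exp (log C₀ * m) := by gcongr
    _ = 2 ^ ((D + 2) * K) * c2 * 2 * exp (k * (ν + 1) + 2 * k * m +
          -(α / 3 * μ₁ * (((m : ℝ) - 2) / 64 - A * ν)) + (3 * K + 2 : ℕ) * m + log C₀ * m) := by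
        simp only [exp_add]; ring
    _ ≤ _ := by
        refine mul_le_mul_of_nonneg_left (exp_le_exp.2 ?_) (by positivity)
        rw [hW]
        have b1 := mul_le_mul_of_nonneg_right hW1 hm
        have b2 : 0 ≤ W * A := by positivity
        have b3 : 0 ≤ W * ν := by positivity
        nlinarith

/-- pointwise bound, four indices -/
theorem pt2 (D Q K m r i r' ν : ℕ) {A α C₀ φ μ μ₁ x W : ℝ} (hD : 1 ≤ D) (hA : 0 ≤ A) (hα : 0 < α)
    (hα1 : α ≤ 1) (hC : 1 ≤ C₀) (hφ : exp (-1) ≤ φ) (hφ1 : φ ≤ 1) (hμ : μ₁ ≤ μ)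
    (hW : α / 3 * μ₁ = 64 * W)
    (hW1 : 2 * (3 * K + 2 : ℕ) + log C₀ + 4 * ((D + 1) * K + 2 : ℕ) ≤ W)
    (hx0 : 0 ≤ x) (hx1 : x ≤ 1) (hv : x ≤ 2 * exp (-μ * (((m : ℝ) + i + 2) / 64 - A * ν)))
    (hl : x ≤ 2 * D * (1 - φ ^ m) ^ (r - (1 + ν + m / Q)))
    (hl' : x ≤ 2 * D * (1 - φ ^ (i + 1)) ^ (r' - (1 + ν + (m + i + 1) / Q))) :
    ((NN D m r : ℝ) * NN D (i + 1) r') ^ K * C₀ ^ m * x ^ α *
        ((((m : ℝ) + 1) ^ 2 * ((r : ℝ) + 1) ^ 2) * (((i : ℝ) + 1) ^ 2 * ((r' : ℝ) + 1) ^ 2)) ≤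
      (2 ^ ((D + 2) * K) * (2 * D * exp 1 * ((D + 1) * K + 2).factorial *
        (α / 3)⁻¹ ^ ((D + 1) * K + 2))) ^ 2 * 2 *
        exp ((2 * ((D + 1) * K + 2 : ℕ) + 2 * W + 64 * W * A) * (ν + 1)) := by
  set k := (D + 1) * K + 2 with hk
  set n := m + i + 1 with hn
  have hβ : 0 < α / 3 := by positivity
  have hβ1 : α / 3 ≤ 1 := by linarith
  have hD' : (1 : ℝ) ≤ D := by exact_mod_cast hD
  have hL : 0 ≤ log C₀ := log_nonneg hC
  have hW0 : 0 ≤ W := le_trans (by positivity) hW1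
  have hμ0 : 0 ≤ μ₁ := by
    by_contra h
    have := mul_neg_of_pos_of_neg hβ (not_le.1 h)
    linarith
  have a1 := NNb D m r K
  have a1' := NNb D (i + 1) r' K
  have a2 := late k m r ν m n Q hβ hβ1 hφ hφ1 hx0 (by linarith : (1 : ℝ) ≤ 2 * D)
    (by omega) (by omega) hl
  have a2' := late k (i + 1) r' ν n n Q hβ hβ1 hφ hφ1 hx0 (by linarith : (1 : ℝ) ≤ 2 * D)
    (by omega) le_rfl hl'
  have a3 := verb hβ hβ1 hμ0 hμ hx0 hx1 hv
  have a4 := pw_le (show m ≤ n by omega) (3 * K + 2)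
  have a4' := pw_le (show i + 1 ≤ n by omega) (3 * K + 2)
  have a5 := C0_le hC (show m ≤ n by omega)
  have a7 : 0 ≤ x ^ (α / 3) := rpow_nonneg hx0 _
  have hν : (0 : ℝ) ≤ ν := Nat.cast_nonneg ν
  have hn0 : (0 : ℝ) ≤ n := Nat.cast_nonneg n
  have hnn : (m : ℝ) + i + 2 = n + 1 := by rw [hn]; push_cast; ring
  have hi : (i : ℝ) + 1 ≤ ((i + 1 : ℕ) : ℝ) + 1 := by push_cast; linarith
  set c2 : ℝ := 2 * D * exp 1 * k.factorial * (α / 3)⁻¹ ^ k with hc2
  have hc2' : 0 ≤ c2 := by positivity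
  calc ((NN D m r : ℝ) * NN D (i + 1) r') ^ K * C₀ ^ m * x ^ α *
        ((((m : ℝ) + 1) ^ 2 * ((r : ℝ) + 1) ^ 2) * (((i : ℝ) + 1) ^ 2 * ((r' : ℝ) + 1) ^ 2))
      ≤ ((2 ^ ((D + 2) * K) * ((m : ℝ) + 1) ^ (3 * K) * ((r : ℝ) + 1) ^ ((D + 1) * K)) *
          (2 ^ ((D + 2) * K) * (((i + 1 : ℕ) : ℝ) + 1) ^ (3 * K) *
            ((r' : ℝ) + 1) ^ ((D + 1) * K))) * C₀ ^ m *
          (x ^ (α / 3) * x ^ (α / 3) * x ^ (α / 3)) *
          ((((m : ℝ) + 1) ^ 2 * ((r : ℝ) + 1) ^ 2) *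
            ((((i + 1 : ℕ) : ℝ) + 1) ^ 2 * ((r' : ℝ) + 1) ^ 2)) := by
        rw [split3 hα hx0, mul_pow]; gcongr
    _ = (2 ^ ((D + 2) * K)) ^ 2 * (((r : ℝ) + 1) ^ k * x ^ (α / 3)) *
          (((r' : ℝ) + 1) ^ k * x ^ (α / 3)) * x ^ (α / 3) *
          ((m : ℝ) + 1) ^ (3 * K + 2) * (((i + 1 : ℕ) : ℝ) + 1) ^ (3 * K + 2) * C₀ ^ m := by
        rw [hk]; ring
    _ ≤ (2 ^ ((D + 2) * K)) ^ 2 * (c2 * exp (k * (ν + 1) + 2 * k * n)) *
          (c2 * exp (k * (ν + 1) + 2 * k * n)) *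
          (2 * exp (-(α / 3 * μ₁ * (((m : ℝ) + i + 2) / 64 - A * ν)))) *
          exp ((3 * K + 2 : ℕ) * n) * exp ((3 * K + 2 : ℕ) * n) * exp (log C₀ * n) := by gcongr
    _ = (2 ^ ((D + 2) * K) * c2) ^ 2 * 2 * exp (k * (ν + 1) + 2 * k * n +
          (k * (ν + 1) + 2 * k * n) + -(α / 3 * μ₁ * (((m : ℝ) + i + 2) / 64 - A * ν)) +
          (3 * K + 2 : ℕ) * n + (3 * K + 2 : ℕ) * n + log C₀ * n) := by
        simp only [exp_add]; ring
    _ ≤ _ := by
        refine mul_le_mul_of_nonneg_left (exp_le_exp.2 ?_) (by positivity)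
        rw [hW, hnn]
        have b1 := mul_le_mul_of_nonneg_right hW1 hn0
        have b2 : 0 ≤ W * A := by positivity
        have b3 : 0 ≤ W * ν := by positivity
        nlinarith

theorem conv {u : ℝ≥0∞} (hu : u ≤ 1) : ∃ x : ℝ, 0 ≤ x ∧ x ≤ 1 ∧ u = ENNReal.ofReal x :=
  ⟨u.toReal, ENNReal.toReal_nonneg, ENNReal.toReal_le_of_le_ofReal zero_le_one (by simpa using hu),
    (ENNReal.ofReal_toReal (ne_top_of_le_ne_top ENNReal.one_ne_top hu)).symm⟩

theorem term_le {a x α P B : ℝ} (ha : 0 ≤ a) (hx : 0 ≤ x) (hα : 0 < α) (hP : 0 < P)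
    (h : a * x ^ α * P ≤ B) :
    ENNReal.ofReal a * ENNReal.ofReal x ^ α ≤ ENNReal.ofReal (B / P) := by
  rw [ENNReal.ofReal_rpow_of_nonneg hx hα.le, ← ENNReal.ofReal_mul ha]
  exact ENNReal.ofReal_le_ofReal ((le_div_iff₀ hP).2 h)

theorem delta_small (B : ℝ) : ∃ μ₀ : ℝ, 1 ≤ μ₀ ∧ ∀ μ, μ₀ ≤ μ → B ≤ exp (μ / 2) := by
  refine ⟨max 1 (2 * B), le_max_left _ _, fun μ hμ => ?_⟩
  have := (le_max_right _ _).trans hμ
  linarith [add_one_le_exp (μ / 2)]

theorem phi_ok (D : ℕ) {p lam μ B : ℝ} (hB : 1 ≤ B) (hμ : 1 ≤ μ)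
    (hb : B * (2 * D + 2) ≤ exp (μ / 2)) (h1 : p ≤ 1) (h2 : 1 - p ≤ exp (-μ)) (h3 : μ ≤ lam) :
    0 ≤ p * exp lam / Zf D lam ∧ p * exp lam / Zf D lam ≤ 1 ∧
      B * (1 - p * exp lam / Zf D lam) ≤ exp (-(μ / 2)) := by
  have h0 : 0 ≤ p := by
    have : exp (-μ) ≤ 1 := exp_le_one_iff.2 (by linarith)
    linarith
  obtain ⟨a, b, c⟩ := phi_bounds (D := D) h0 h1 (by linarith) h2 h3
  refine ⟨a, b, ?_⟩
  calc B * (1 - p * exp lam / Zf D lam) ≤ B * ((2 * D + 2) * exp (-μ)) :=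
        mul_le_mul_of_nonneg_left c (by linarith)
    _ = B * (2 * D + 2) * exp (-μ) := by ring
    _ ≤ exp (μ / 2) * exp (-μ) := mul_le_mul_of_nonneg_right hb (exp_pos _).le
    _ = exp (-(μ / 2)) := by rw [← exp_add]; congr 1; ring

/-- the two moments -/
theorem mom (D Q K : ℕ) {A α C₀ : ℝ} (hD : 1 ≤ D) (hA : 0 ≤ A) (hα : 0 < α) (hα1 : α ≤ 1)
    (hC : 1 ≤ C₀) : ∃ C μ₁ : ℝ, 1 ≤ C ∧ ∀ (p lam μ : ℝ) (ν : ℕ) (g : ℕ → ℕ → ℝ≥0∞)
    (g' : ℕ → ℕ → ℕ → ℕ → ℝ≥0∞), μ₁ ≤ μ → p ≤ 1 → 1 - p ≤ exp (-μ) → μ ≤ lam →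
      PtB D Q A p lam μ ν g g' →
      ∑' q : ℕ × ℕ, ENNReal.ofReal ((NN D q.1 q.2 : ℝ) ^ K * C₀ ^ q.1) * g q.1 q.2 ^ α ≤
        ENNReal.ofReal (C ^ (ν + 1)) ∧
      ∑' q : (ℕ × ℕ) × ℕ × ℕ,
        ENNReal.ofReal (((NN D q.1.1 q.1.2 : ℝ) * NN D (q.2.1 + 1) q.2.2) ^ K * C₀ ^ q.1.1) *
          g' q.1.1 q.1.2 q.2.1 q.2.2 ^ α ≤ ENNReal.ofReal (C ^ (ν + 1)) := by
  obtain ⟨S, hS, hsq⟩ := Mom.sum_sq
  obtain ⟨μ₀, hμ₀, hd⟩ := delta_small (2 * (2 * D + 2))
  set k := (D + 1) * K + 2 with hk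
  set W₀ : ℝ := 2 * (3 * K + 2 : ℕ) + log C₀ + 4 * k with hW₀
  set μ₁ : ℝ := max μ₀ (64 * W₀ / (α / 3)) with hμ₁
  set W : ℝ := α / 3 * μ₁ / 64 with hWd
  have hβ : 0 < α / 3 := by positivity
  have hL : 0 ≤ log C₀ := log_nonneg hC
  have hW : α / 3 * μ₁ = 64 * W := by rw [hWd]; ring
  have hW2 : W₀ ≤ W := by
    have : 64 * W₀ / (α / 3) ≤ μ₁ := le_max_right _ _
    rw [div_le_iff₀ hβ] at this
    rw [hWd]; linarith
  have hk0 : (0 : ℝ) ≤ k := Nat.cast_nonneg k
  have hK0 : (0 : ℝ) ≤ (3 * K + 2 : ℕ) := Nat.cast_nonneg _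
  have hW1 : (3 * K + 2 : ℕ) + log C₀ + 2 * k ≤ W := by linarith
  have hW0 : 0 ≤ W := by linarith
  set c : ℝ := 2 ^ ((D + 2) * K) * (2 * D * exp 1 * k.factorial * (α / 3)⁻¹ ^ k) with hc
  have hc0 : 0 ≤ c := by positivity
  set G : ℝ := 2 * k + 2 * W + 64 * W * A with hG
  have hG0 : 0 ≤ G := by positivity
  set C₁ : ℝ := 1 + c * 2 * S + c ^ 2 * 2 * S * S with hC₁
  have e1 : 0 ≤ c * 2 * S := by positivity
  have e2 : 0 ≤ c ^ 2 * 2 * S * S := by positivity
  have hC1 : 1 ≤ C₁ := by linarith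
  have hfin : ∀ (ν : ℕ) (b : ℝ), b ≤ C₁ → b * exp (G * (ν + 1)) ≤ (C₁ * exp G) ^ (ν + 1) := by
    intro ν b hb
    rw [mul_pow, ← exp_nat_mul, mul_comm G]
    push_cast
    exact mul_le_mul_of_nonneg_right (hb.trans (le_self_pow₀ hC1 (by omega))) (exp_pos _).le
  refine ⟨C₁ * exp G, μ₁, one_le_mul_of_one_le_of_one_le hC1 (one_le_exp hG0), ?_⟩
  intro p lam μ ν g g' hμ h1 h2 h3 hP
  have hμ' : μ₀ ≤ μ := (le_max_left _ _).trans hμ
  obtain ⟨f0, f1, f2⟩ := phi_ok D (B := 2) (by norm_num) (hμ₀.trans hμ') (hd μ hμ') h1 h2 h3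
  set φ := p * exp lam / Zf D lam with hφd
  have hφ : exp (-1) ≤ φ := by
    have a : exp (-(μ / 2)) ≤ 1 := exp_le_one_iff.2 (by linarith)
    have b : exp (-1 : ℝ) ≤ 1 / 2 := by
      rw [exp_neg, inv_le_comm₀ (exp_pos _) (by norm_num)]
      linarith [add_one_le_exp (1 : ℝ)]
    linarith
  have hlat : ∀ h j : ℕ, 0 ≤ 2 * (D : ℝ) * (1 - φ ^ h) ^ j := fun h j =>
    mul_nonneg (by positivity) (pow_nonneg (by linarith [pow_le_one₀ (n := h) f0 f1]) j)
  have hν : (0 : ℝ) ≤ ν := Nat.cast_nonneg ν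
  constructor
  · refine (hsq _ (c * 2 * exp (G * (ν + 1))) (by positivity) fun m r => ?_).trans
      (ENNReal.ofReal_le_ofReal ?_)
    · obtain ⟨-, -, a1, -, a2, a3, -, -⟩ := hP m r 0 0
      obtain ⟨x, hx0, hx1, hx⟩ := conv a1
      rw [hx, ENNReal.ofReal_le_ofReal_iff (by positivity)] at a2
      rw [hx, ENNReal.ofReal_le_ofReal_iff (hlat _ _)] at a3
      simp only [hx]
      refine term_le (by positivity) hx0 hα (by positivity) ?_
      refine (pt1 D Q K m r ν hD hA hα hα1 hC hφ f1 hμ hW hW1 hx0 hx1 a2 a3).trans ?_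
      refine mul_le_mul_of_nonneg_left (exp_le_exp.2 ?_) (by positivity)
      exact mul_le_mul_of_nonneg_right (by rw [hG]; linarith) (by linarith)
    · calc c * 2 * exp (G * (ν + 1)) * S = c * 2 * S * exp (G * (ν + 1)) := by ring
        _ ≤ _ := hfin ν _ (by linarith)
  · rw [ENNReal.tsum_prod']
    refine (hsq _ (c ^ 2 * 2 * exp (G * (ν + 1)) * S) (by positivity) fun m r => ?_).trans
      (ENNReal.ofReal_le_ofReal ?_)
    · refine (hsq _ (c ^ 2 * 2 * exp (G * (ν + 1)) / (((m : ℝ) + 1) ^ 2 * ((r : ℝ) + 1) ^ 2))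
        (by positivity) fun i r' => ?_).trans (le_of_eq (by congr 1; ring))
      obtain ⟨-, -, a1, a0, -, a3, a2, a4⟩ := hP m r i r'
      obtain ⟨x, hx0, hx1, hx⟩ := conv (a0.trans a1)
      replace a3 := a0.trans a3
      rw [hx, ENNReal.ofReal_le_ofReal_iff (by positivity)] at a2
      rw [hx, ENNReal.ofReal_le_ofReal_iff (hlat _ _)] at a3 a4
      simp only [hx]
      rw [div_div]
      refine term_le (by positivity) hx0 hα (by positivity) ?_
      exact pt2 D Q K m r i r' ν hD hA hα hα1 hC hφ f1 hμ hW hW2 hx0 hx1 a2 a3 a4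
    · calc c ^ 2 * 2 * exp (G * (ν + 1)) * S * S = c ^ 2 * 2 * S * S * exp (G * (ν + 1)) := by
            ring
        _ ≤ _ := hfin ν _ (by linarith)

/-- pointwise bounds in the tail -/
theorem tailpt (D Q T : ℕ) (A : ℝ) : ∃ (R : ℕ) (μ₁ : ℝ), 1 ≤ μ₁ ∧ ∀ (p lam μ : ℝ)
    (g : ℕ → ℕ → ℝ≥0∞) (g' : ℕ → ℕ → ℕ → ℕ → ℝ≥0∞), μ₁ ≤ μ → p ≤ 1 → 1 - p ≤ exp (-μ) →
      μ ≤ lam → PtB D Q A p lam μ 0 g g' →
      (∀ m r, R < m ∨ R < r → g m r ≤ ENNReal.ofReal (exp (-(T * μ)))) ∧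
      ∀ m r i r', R < m ∨ R < r ∨ R < i ∨ R < r' →
        g' m r i r' ≤ ENNReal.ofReal (exp (-(T * μ))) := by
  set R₁ := 64 * (T + 1) + 2 with hR₁
  obtain ⟨μ₀, hμ₀, hd⟩ := delta_small (((R₁ : ℝ) + 1) * (2 * D + 2))
  refine ⟨2 * R₁ + 1 + 2 * (T + 1), μ₀, hμ₀, ?_⟩
  intro p lam μ g g' hμ h1 h2 h3 hP
  have hμ1 : 1 ≤ μ := hμ₀.trans hμ
  have hR0 : (0 : ℝ) ≤ R₁ := Nat.cast_nonneg _
  have hD0 : (0 : ℝ) ≤ D := Nat.cast_nonneg _
  have hT0 : (0 : ℝ) ≤ T := Nat.cast_nonneg _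
  have hb := hd μ hμ
  obtain ⟨f0, f1, f2⟩ := phi_ok D (B := (R₁ : ℝ) + 1) (by linarith) hμ1 hb h1 h2 h3
  set φ := p * exp lam / Zf D lam with hφd
  have hE : 2 * (D : ℝ) + 2 ≤ exp μ := by
    have : exp (μ / 2) ≤ exp μ := exp_le_exp.2 (by linarith)
    nlinarith
  have fin : ∀ c : ℝ, c ≤ 2 * D + 2 → c * exp (-((T + 1) * μ)) ≤ exp (-(T * μ)) := by
    intro c hc
    calc c * exp (-((T + 1) * μ)) ≤ exp μ * exp (-((T + 1) * μ)) :=
          mul_le_mul_of_nonneg_right (hc.trans hE) (exp_pos _).le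
      _ = _ := by rw [← exp_add]; congr 1; ring
  have ver : ∀ y : ℝ, T + 1 ≤ y → 2 * exp (-μ * (y - A * (0 : ℕ))) ≤ exp (-(T * μ)) := by
    intro y hy
    refine le_trans (mul_le_mul_of_nonneg_left (exp_le_exp.2 ?_) (by norm_num)) (fin 2 (by linarith))
    simp only [Nat.cast_zero, mul_zero, sub_zero]
    nlinarith
  have lat : ∀ h j : ℕ, h ≤ R₁ + 1 → 2 * (T + 1) ≤ j →
      2 * (D : ℝ) * (1 - φ ^ h) ^ j ≤ exp (-(T * μ)) := by
    intro h j hh hj
    have b0 : 0 ≤ 1 - φ ^ h := by linarith [pow_le_one₀ (n := h) f0 f1]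
    have b1 : 1 - φ ^ h ≤ exp (-(μ / 2)) := by
      have := one_add_mul_le_pow (a := φ - 1) (by linarith) h
      rw [show 1 + (φ - 1) = φ by ring] at this
      have hh' : (h : ℝ) ≤ R₁ + 1 := by exact_mod_cast hh
      nlinarith
    have b2 : exp (-(μ / 2)) ≤ 1 := exp_le_one_iff.2 (by linarith)
    refine le_trans (mul_le_mul_of_nonneg_left ?_ (by positivity)) (fin (2 * D) (by linarith))
    calc (1 - φ ^ h) ^ j ≤ exp (-(μ / 2)) ^ j := pow_le_pow_left₀ b0 b1 j
      _ ≤ exp (-(μ / 2)) ^ (2 * (T + 1)) := pow_le_pow_of_le_one (exp_pos _).le b2 hj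
      _ = _ := by rw [← exp_nat_mul]; congr 1; push_cast; ring
  have hRr : (R₁ : ℝ) = 64 * (T + 1) + 2 := by rw [hR₁]; push_cast; ring
  have one : ∀ m r, 2 * R₁ + 1 + 2 * (T + 1) < m ∨ 2 * R₁ + 1 + 2 * (T + 1) < r →
      g m r ≤ ENNReal.ofReal (exp (-(T * μ))) := by
    intro m r hmr
    obtain ⟨-, -, -, -, a2, a3, -, -⟩ := hP m r 0 0
    rcases le_or_gt m R₁ with hm | hm
    · refine a3.trans (ENNReal.ofReal_le_ofReal (lat _ _ (by omega) ?_))
      have := Nat.div_le_self m Q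
      omega
    · refine a2.trans (ENNReal.ofReal_le_ofReal (ver _ ?_))
      have : (R₁ : ℝ) ≤ m := by exact_mod_cast hm.le
      linarith
  refine ⟨one, fun m r i r' h => ?_⟩
  obtain ⟨-, -, -, a0, -, -, a2, a4⟩ := hP m r i r'
  by_cases hmi : m ≤ R₁ ∧ i ≤ R₁
  · rcases h with h | h | h | h
    · omega
    · exact a0.trans (one m r (Or.inr h))
    · omega
    · refine a4.trans (ENNReal.ofReal_le_ofReal (lat _ _ (by omega) ?_))
      have := Nat.div_le_self (m + i + 1) Q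
      omega
  · refine a2.trans (ENNReal.ofReal_le_ofReal (ver _ ?_))
    have : R₁ ≤ m + i := by omega
    have : (R₁ : ℝ) ≤ m + i := by exact_mod_cast this
    linarith

/-- tail from a pointwise bound and a moment -/
theorem tail_le {ι : Type} (a : ι → ℝ) (u : ι → ℝ≥0∞) (P : ι → Prop) [DecidablePred P]
    {α y C z : ℝ} (hα : 0 < α) (hu : ∀ q, P q → u q ≤ ENNReal.ofReal (exp y))
    (hm : ∑' q, ENNReal.ofReal (a q) * u q ^ (α / 2) ≤ ENNReal.ofReal C)
    (hz : exp (y * (α / 2)) * C ≤ z) :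
    ∑' q, (if P q then ENNReal.ofReal (a q) * u q ^ α else 0) ≤ ENNReal.ofReal z := by
  have h2 : 0 ≤ α / 2 := by linarith
  calc ∑' q, (if P q then ENNReal.ofReal (a q) * u q ^ α else 0)
      ≤ ∑' q, ENNReal.ofReal (exp (y * (α / 2))) * (ENNReal.ofReal (a q) * u q ^ (α / 2)) := by
        refine ENNReal.tsum_le_tsum fun q => ?_
        split_ifs with h
        · have e : u q ^ α = u q ^ (α / 2) * u q ^ (α / 2) := by
            rw [← ENNReal.rpow_add_of_nonneg _ _ h2 h2]; congr 1; ring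
          have b : u q ^ (α / 2) ≤ ENNReal.ofReal (exp (y * (α / 2))) := by
            rw [exp_mul, ← ENNReal.ofReal_rpow_of_nonneg (exp_pos _).le h2]
            exact ENNReal.rpow_le_rpow (hu q h) h2
          rw [e, mul_left_comm]
          exact mul_le_mul' b le_rfl
        · exact zero_le
    _ ≤ ENNReal.ofReal (exp (y * (α / 2))) * ENNReal.ofReal C := by
        rw [ENNReal.tsum_mul_left]; exact mul_le_mul' le_rfl hm
    _ ≤ _ := by
        rw [← ENNReal.ofReal_mul (exp_pos _).le]; exact ENNReal.ofReal_le_ofReal hz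

end KmomM

open KmomM in
theorem kmom : KMOMStmt := by
  intro D Q K A α C₀ M hD _ hA hα hα1 hC
  obtain ⟨C, μ₁, hC1, h1⟩ := mom D Q K hD hA hα hα1 hC
  obtain ⟨C', μ₂, hC2, h2⟩ := mom D Q K (α := α / 2) (C₀ := 1) hD hA (by positivity)
    (by linarith) le_rfl
  obtain ⟨T, hT⟩ := exists_nat_ge ((M + 1) / (α / 2))
  obtain ⟨R, μ₃, hμ₃, h3⟩ := tailpt D Q T A
  refine ⟨R, C, max (max μ₁ μ₂) (max μ₃ C'), hC1, ?_⟩
  intro p lam μ ν g g' hμ a1 a2 a3 hP
  simp only [max_le_iff] at hμ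
  obtain ⟨⟨m1, m2⟩, m3, m4⟩ := hμ
  obtain ⟨b1, b2⟩ := h1 p lam μ ν g g' m1 a1 a2 a3 hP
  refine ⟨b1, b2, ?_⟩
  rintro rfl
  obtain ⟨c1, c2⟩ := h2 p lam μ 0 g g' m2 a1 a2 a3 hP
  obtain ⟨d1, d2⟩ := h3 p lam μ g g' m3 a1 a2 a3 hP
  simp only [one_pow, mul_one, zero_add, pow_one] at c1 c2
  have hz : exp (-(T * μ) * (α / 2)) * C' ≤ exp (-M * μ) := by
    rw [div_le_iff₀ (by positivity)] at hT
    calc exp (-(T * μ) * (α / 2)) * C' ≤ exp (-(T * μ) * (α / 2)) * exp μ :=
          mul_le_mul_of_nonneg_left (by linarith [add_one_le_exp μ]) (exp_pos _).le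
      _ ≤ _ := by
          rw [← exp_add]
          refine exp_le_exp.2 ?_
          have := mul_le_mul_of_nonneg_right hT (show 0 ≤ μ by linarith)
          linarith
  exact ⟨tail_le _ (fun q : ℕ × ℕ => g q.1 q.2) _ hα (fun q h => d1 _ _ h) c1 hz,
    tail_le _ (fun q : (ℕ × ℕ) × ℕ × ℕ => g' q.1.1 q.1.2 q.2.1 q.2.2) _ hα
      (fun q h => d2 _ _ _ _ h) c2 hz⟩

end Pool.Agent.MP_8c549f_pr

/-!
The probability of a return below the starting level, for the walk outside a closed set.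
-/

set_option autoImplicit false

namespace Pool.Agent.MP_8c549f_pr

open MeasureTheory Filter Topology Real
open scoped ENNReal NNReal

namespace KretM

open RetM

variable {D : ℕ}

theorem split_pre {i r : ℕ} {l : List (Step D)} (hl : l ∈ RetSet D i \ RB D i r) :
    ∃ u ∈ LatSet D i (r + 1), u <+: l := by
  classical
  obtain ⟨h1, h2⟩ := hl
  have hex : ∃ k, k < l.length ∧ r + 1 ≤ rad (loc l k) := by
    by_contra h
    push Not at h
    refine h2 ⟨h1, fun k hk => mem_Box.2 ⟨(h1.2.1 k hk).1, ?_, by have := h k hk; omega⟩⟩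
    have := (h1.2.1 k hk).2
    rw [H] at this
    push_cast; omega
  obtain ⟨h3, h4⟩ := Nat.find_spec hex
  have h5 : (l.take (Nat.find hex)).length = Nat.find hex := by rw [List.length_take]; omega
  refine ⟨l.take (Nat.find hex), ⟨fun k hk => ?_, h4, fun k hk => ?_⟩, List.take_prefix _ _⟩
  · rw [h5] at hk
    rw [H_take l hk]
    exact h1.2.1 k (by omega)
  · rw [h5] at hk
    rw [loc_take l hk.le]
    have := Nat.find_min hex hk
    omega

/-- the configurations with a trap that starts half way up -/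
def Bad (i r : ℕ) (ω : Cfg D) : Prop :=
  ∃ b ∈ Box D (i + 1) r, b 0 = (((i + 1) / 2 : ℕ) : ℤ) ∧ ω (edge b (bck D)) = true ∧
    NTrap ω b (i + 1 - (i + 1) / 2) (i / 2 + 1)

theorem esc_top (hgeo : GEO2Stmt) {lam : ℝ} {ω : Cfg D} {i r : ℕ}
    (hb : ¬ Bad i r ω) {l : List (Step D)} (hl : l ∈ RetSet D i) (hW : W lam ω 0 l ≠ 0) {T : ℕ}
    (h1 : H l T = i) : Esc ω (Box D (i + 1) r) (loc l T) i := by
  have hop := (W_ne_zero_iff lam ω l 0).1 hW
  simp only [zero_add] at hop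
  by_contra hne
  have h3 : Esc ω (Box D (i + 1) r) (loc l T) (-1) := by
    refine esc D ω _ _ _ (l.drop T) ?_ fun k hk => ?_
    · have e1 : loc l T + pos (l.drop T) = pos l := by
        rw [← pos_take, ← pos_append, List.take_append_drop]
      rw [e1, mem_Box]
      have := hl.1
      rw [lev] at this
      omega
    · have e1 : T + k < l.length := by rw [List.length_drop] at hk; omega
      rw [← loc_drop, List.getElem_drop]
      refine ⟨hop _ e1, ?_⟩
      have e2 := (hl.2.1 _ e1).1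
      have e3 := (vec_bounds l[T + k] 0).1
      rw [H] at e2
      rw [expo]; omega
  rw [H] at h1
  obtain ⟨h4, b, h5, h6, h7⟩ := hgeo D ω _ _ _ i (((i + 1) / 2 : ℕ) : ℤ) h3 hne
    (by omega) (by omega)
  have h8 := Geo.up_eq h5
  refine hb ⟨b, h4 h5, h6, h7, ?_, fun z hz => ?_, loc l T, ?_, ?_⟩
  · rw [h6, h8]
    exact (Finset.finite_toSet _).subset h4
  · rw [h6, h8] at hz
    have := (mem_Box.1 (h4 hz)).2.1
    omega
  · rw [h6, h8]
    exact self_mem_Up _ _ _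
  · omega

theorem quenched (hgeo : GEO2Stmt) {lam : ℝ} (hlam : 0 ≤ lam)
    {ω : Cfg D} {i r : ℕ} (hb : ¬ Bad i r ω) : SS (RB D i r) (W lam ω 0) ≤
      ENNReal.ofReal (((Box D (i + 1) r).card : ℝ) ^ 3 * exp (-lam * (i + 1))) := by
  refine SS_le_of_prefix lam ω
    (P := {u | Rec u ∧ lev u = i ∧ Esc ω (Box D (i + 1) r) (pos u) i}) ?_ ?_ ?_
  · rintro u hu l hl ⟨t, rfl⟩
    by_contra hne
    have h1 : u.length < (u ++ t).length := by
      rcases t with _ | ⟨s, t⟩
      · simp at hne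
      · simp
    have h2 := hl.1 _ h1
    rw [H_append_left t le_rfl, H_length, hu.2.1, hl.2.1] at h2
    omega
  · intro l hl hW
    obtain ⟨k, hk, h1⟩ := hl.1.2.2
    obtain ⟨T, h2, h3, h4⟩ := exists_first_hit (H l) (fun j => (H_step l j).2) (c := i)
      (by simp) h1.ge
    have h5 : (l.take T).length = T := by rw [List.length_take]; omega
    refine ⟨l.take T, ⟨fun j hj => ?_, h3, ?_⟩, List.take_prefix _ _⟩
    · rw [h5] at hj
      rw [H_take l hj.le, lev_take, h3]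
      exact h4 j hj
    · exact esc_top hgeo hb hl.1 hW h3
  · rintro u ⟨-, h1, h2⟩
    refine le_trans (SS_mono (fun t ht => ?_) fun _ _ => le_rfl)
      ((exit_le lam ω (Box D (i + 1) r) (pos u) (c := ENNReal.ofReal
        (((Box D (i + 1) r).card : ℝ) ^ 2 * exp (-lam * (i + 1)))) fun y hy => ?_).trans
        (le_of_eq ?_))
    · obtain ⟨⟨h3, h4, -⟩, h5⟩ := ht
      rcases List.eq_nil_or_concat t with rfl | ⟨t, s, rfl⟩
      · rw [List.append_nil, h1] at h3; omega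
      rw [List.concat_eq_append] at h3 h4 h5 ⊢
      have h6 : ∀ k ≤ t.length, loc (u ++ (t ++ [s])) (u.length + k) = pos u + loc t k :=
        fun k hk => by rw [loc_append_right, loc_append_left _ hk]
      have h7 := (h4 (u.length + t.length) (by simp)).1
      rw [H, h6 _ le_rfl, loc_length] at h7
      have h8 : (pos u + pos t) 0 + vec s 0 = -1 := by
        rw [← h3]; simp [lev, add_assoc]
      have h9 := (vec_bounds s 0).1
      obtain rfl : s = bck D := vec_zero_eq_neg_one.1 (by omega)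
      refine ⟨t, ⟨fun k hk => ?_, by omega⟩, rfl⟩
      rw [← h6 k hk]
      exact h5 _ (by simp; omega)
    · refine (res D lam hlam ω _ _ y (bck D) i h2).trans (le_of_eq ?_)
      rw [expo, hy, vec_bck_zero]
      push_cast
      congr 3
      ring
    · rw [← ENNReal.ofReal_natCast, ← ENNReal.ofReal_mul (Nat.cast_nonneg _)]
      congr 1
      ring

theorem up_shift (x : V D) (ω : Cfg D) {i : ℤ} {b z : V D} (h : z ∈ Up (shift x ω) i b) :
    z + x ∈ Up ω (i + x 0) (b + x) := by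
  induction h with
  | refl => exact self_mem_Up _ _ _
  | tail _ a ih =>
    obtain ⟨s, rfl, hs⟩ := opn_iff.1 a.1
    refine Relation.ReflTransGen.tail ih ⟨opn_iff.2 ⟨s, add_right_comm _ _ _, ?_⟩, ?_, ?_⟩
    · rwa [edge_add]
    · simpa using a.2.1
    · have := a.2.2
      simp only [Pi.add_apply] at this ⊢
      omega

theorem shift_neg (x : V D) (ω : Cfg D) : shift (-x) (shift x ω) = ω := by
  funext e
  simp [shift]

theorem ntrap_shift (x : V D) (ω : Cfg D) {b : V D} {n h : ℕ} (H : NTrap (shift x ω) b n h) :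
    NTrap ω (b + x) n h := by
  have k : ∀ z ∈ Up ω ((b + x) 0) (b + x), z + -x ∈ Up (shift x ω) (b 0) b := fun z hz => by
    have := up_shift (-x) (shift x ω) (i := (b + x) 0) (b := b + x) (z := z)
      (by rwa [shift_neg])
    simpa using this
  obtain ⟨h1, h2, z, h3, h4⟩ := H
  refine ⟨(h1.image fun z => z + x).subset fun z hz => ⟨_, k z hz, by simp⟩, fun z hz => ?_,
    z + x, up_shift x ω h3, ?_⟩
  · have := h2 _ (k z hz)
    simp only [Pi.add_apply, Pi.neg_apply] at this ⊢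
    omega
  · simp only [Pi.add_apply]
    omega

/-- the configuration seen by the walk -/
noncomputable def cf (S : Finset (V D)) (x : V D) (ω : Cfg D) : Cfg D :=
  Function.update (clo S ω) (edge x (bck D)) true

theorem measurable_cf (S : Finset (V D)) (x : V D) : Measurable (cf S x) :=
  measurable_update_left.comp (measurable_clo S)

theorem bad_sub {S : Finset (V D)} {x : V D} (hx : x ∉ S) {i r : ℕ} {ω : Cfg D}
    (h : Bad i r (shift x (cf S x ω))) : ∃ b ∈ Box D (i + 1) r, b 0 = (((i + 1) / 2 : ℕ) : ℤ) ∧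
      b + x ∉ S ∧ NTrap (clo S ω) (b + x) (i + 1 - (i + 1) / 2) (i / 2 + 1) := by
  obtain ⟨b, h1, h2, h3, h4⟩ := h
  refine ⟨b, h1, h2, fun hS => ?_, ?_⟩
  · have e1 : cf S x ω (edge (b + x) (bck D)) = true := by rwa [edge_add]
    by_cases e2 : edge (b + x) (bck D) = edge x (bck D)
    · rcases edge_eq_iff.1 e2 with e3 | e3
      · exact hx (e3.1 ▸ hS)
      · simpa [rev, bck] using e3.2
    · rw [cf, Function.update_of_ne e2, clo_of_mem _ (edge_mem_near.2 (Or.inl hS))] at e1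
      exact Bool.false_ne_true e1
  · have e1 := ntrap_shift x _ h4
    have e2 : x 0 ≤ (b + x) 0 := by
      simp only [Pi.add_apply]
      omega
    unfold NTrap cf at e1
    rwa [Up_update_bck _ e2] at e1

theorem annealed (hgeo : GEO2Stmt) {p lam : ℝ} (h0 : 0 ≤ p) (h1 : p ≤ 1) (hlam : 0 ≤ lam)
    {S : Finset (V D)} {x : V D} (hx : x ∉ S) (i r : ℕ) {c : ℝ}
    (hc : ∀ b : V D, b 0 = x 0 + (((i + 1) / 2 : ℕ) : ℤ) → b ∉ S →
      perc D p {ω | NTrap (clo S ω) b (i + 1 - (i + 1) / 2) (i / 2 + 1)} ≤ ENNReal.ofReal c) :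
    SS (RB D i r) (wk S p lam x) ≤
      ENNReal.ofReal (((Box D (i + 1) r).card : ℝ) ^ 3 * exp (-lam * (i + 1))) +
        ENNReal.ofReal ((Box D (i + 1) r).card * c) := by
  classical
  have := perc_prob D h0 h1
  have e0 : SS (RB D i r) (wk S p lam x) =
      ∫⁻ ω, SS (RB D i r) (W lam (cf S x ω) x) ∂perc D p :=
    (lintegral_SS _ _ fun l => (measurable_W lam x l).comp (measurable_cf S x)).symm
  rw [e0]
  refine le_trans (lintegral_mono (g := fun ω => ENNReal.ofReal (((Box D (i + 1) r).card : ℝ) ^ 3 *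
    exp (-lam * (i + 1))) + {ω | Bad i r (shift x (cf S x ω))}.indicator 1 ω) fun ω => ?_) ?_
  · by_cases hb : Bad i r (shift x (cf S x ω))
    · refine le_trans (kraft lam _ ((antich_ret i).mono fun l hl => hl.1) x) ?_
      dsimp only
      rw [Set.indicator_of_mem (by exact hb)]
      exact le_add_self
    · refine le_trans (le_of_eq (SS_congr fun l _ => ?_))
        ((quenched hgeo hlam hb).trans le_self_add)
      rw [W_shift, zero_add]
  · rw [lintegral_add_left measurable_const, lintegral_const, measure_univ, mul_one]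
    refine add_le_add le_rfl ((lintegral_indicator_one_le _).trans ?_)
    refine le_trans (measure_mono (t := ⋃ b ∈ (Box D (i + 1) r).filter
      (fun b => b 0 = (((i + 1) / 2 : ℕ) : ℤ) ∧ b + x ∉ S),
        {ω | NTrap (clo S ω) (b + x) (i + 1 - (i + 1) / 2) (i / 2 + 1)}) fun ω h => ?_)
      ((measure_biUnion_finset_le _ _).trans ?_)
    · obtain ⟨b, h2, h3, h4, h5⟩ := bad_sub hx h
      exact Set.mem_biUnion (Finset.mem_coe.2 (Finset.mem_filter.2 ⟨h2, h3, h4⟩)) h5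
    · refine (Finset.sum_le_card_nsmul _ _ _ fun b hb => hc (b + x) ?_
        (Finset.mem_filter.1 hb).2.2).trans ?_
      · rw [Pi.add_apply, (Finset.mem_filter.1 hb).2.1, add_comm]
      · rw [nsmul_eq_mul, ENNReal.ofReal_mul (Nat.cast_nonneg _), ENNReal.ofReal_natCast]
        exact mul_le_mul' (Nat.cast_le.2 (Finset.card_filter_le _ _)) le_rfl

theorem poly_le (D : ℕ) {y : ℝ} (hy : (6 : ℝ) ^ D * 8 ^ (D + 2) * (D + 2).factorial ≤ y) :
    6 ^ D * y ^ (D + 1) ≤ exp (y / 8) := by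
  have h0 : (0 : ℝ) < 6 ^ D * 8 ^ (D + 2) * (D + 2).factorial := by positivity
  have hy0 : 0 < y := h0.trans_le hy
  refine le_trans ?_ (Real.pow_div_factorial_le_exp (y / 8) (by positivity) (D + 2))
  rw [le_div_iff₀ (by positivity), div_pow, le_div_iff₀ (by positivity), pow_succ y (D + 1)]
  calc 6 ^ D * y ^ (D + 1) * ((D + 2).factorial : ℝ) * 8 ^ (D + 2)
      = y ^ (D + 1) * (6 ^ D * 8 ^ (D + 2) * (D + 2).factorial) := by ring
    _ ≤ _ := mul_le_mul_of_nonneg_left hy (by positivity)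

/-- choice of the width of the box -/
theorem width (D : ℕ) {φ δ y : ℝ} (m κ : ℕ) (hδ : 0 ≤ δ) (hδ1 : δ ≤ 1 / 2) (hδ2 : 16 * D * δ ≤ 1)
    (h1 : φ ≤ 1) (h2 : 1 - φ ≤ δ) (hm : (m : ℝ) ≤ y) (hy1 : 1 ≤ y)
    (hy : (6 : ℝ) ^ D * 8 ^ (D + 2) * (D + 2).factorial ≤ y) :
    ∃ r : ℕ, (1 - φ ^ m) ^ (r + 1 - (1 + κ)) ≤ exp (-y) ∧
      ((m * (2 * r + 1) ^ D : ℕ) : ℝ) ≤ exp (y / 4) * exp (D * κ) := by
  have hφ : 1 / 2 ≤ φ := by linarith
  obtain ⟨s, hs⟩ : ∃ s : ℝ, s = φ ^ m := ⟨_, rfl⟩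
  have hs0 : 0 < s := by rw [hs]; positivity
  have hs1 : s ≤ 1 := hs ▸ pow_le_one₀ (by linarith) h1
  obtain ⟨E, hE⟩ : ∃ E : ℝ, E = exp (2 * δ * y) := ⟨_, rfl⟩
  have hE1 : 1 ≤ E * s := by
    refine (exp_le_pow hφ h1 m).trans ?_
    rw [hs, hE]
    refine mul_le_mul_of_nonneg_right (exp_le_exp.2 ?_) (by positivity)
    have := mul_le_mul h2 hm (Nat.cast_nonneg m) hδ
    linarith
  have hE2 : y / s ≤ y * E := by
    rw [div_le_iff₀ hs0]
    nlinarith
  have hE3 : 1 ≤ y / s := by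
    rw [le_div_iff₀ hs0]
    linarith
  refine ⟨κ + ⌈y / s⌉₊, ?_, ?_⟩
  · rw [show κ + ⌈y / s⌉₊ + 1 - (1 + κ) = ⌈y / s⌉₊ by omega, ← hs]
    refine (pow_le_pow_left₀ (by linarith) (one_sub_le_exp_neg s) _).trans ?_
    rw [← exp_nat_mul]
    refine exp_le_exp.2 ?_
    have := Nat.le_ceil (y / s)
    rw [div_le_iff₀ hs0] at this
    linarith
  · have e1 : ((2 * (κ + ⌈y / s⌉₊) + 1 : ℕ) : ℝ) ≤ 6 * (y * E) * exp κ := by
      have e2 := (Nat.ceil_lt_add_one (by positivity : 0 ≤ y / s)).le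
      have e3 := add_one_le_exp (κ : ℝ)
      have e4 : (0 : ℝ) ≤ κ := Nat.cast_nonneg κ
      push_cast
      nlinarith [mul_le_mul_of_nonneg_left e3 (by linarith : 0 ≤ 6 * (y * E)),
        mul_le_mul_of_nonneg_left (hE3.trans hE2) e4]
    rw [Nat.cast_mul, Nat.cast_pow]
    refine (mul_le_mul hm (pow_le_pow_left₀ (Nat.cast_nonneg _) e1 D) (by positivity)
      (by linarith)).trans ?_
    have e2 : E ^ D ≤ exp (y / 8) := by
      rw [hE, ← exp_nat_mul]
      refine exp_le_exp.2 ?_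
      nlinarith [mul_le_mul_of_nonneg_right hδ2 (by linarith : 0 ≤ y)]
    have e3 : exp (y / 4) = exp (y / 8) * exp (y / 8) := by
      rw [← exp_add]
      congr 1
      ring
    calc y * (6 * (y * E) * exp κ) ^ D = 6 ^ D * y ^ (D + 1) * E ^ D * exp (D * κ) := by
          rw [exp_nat_mul]
          ring
      _ ≤ _ := by
          rw [e3]
          refine mul_le_mul_of_nonneg_right (mul_le_mul (poly_le D hy) e2 ?_ (by positivity))
            (by positivity)
          rw [hE]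
          positivity

/-- the trap bound in exponential form -/
theorem trap_le {C q μ : ℝ} {D κ κ' i : ℕ} (hD : 2 ≤ D) (hC : 1 ≤ C) (hq0 : 0 ≤ q)
    (hμ : 0 ≤ μ) (hq : q ≤ exp (-μ / 2)) (hCμ : C ≤ exp (μ / 2)) (hκ : κ' ≤ κ) :
    C ^ (1 + κ') * q ^ (D * (i / 2 + 1 - κ')) ≤
      C * exp (3 / 2 * (μ * κ)) * exp (-(μ * (i + 1)) / 2) := by
  have e1 : C ^ (1 + κ') ≤ C * exp (1 / 2 * (μ * κ)) := by
    refine (pow_le_pow_right₀ hC (Nat.add_le_add_left hκ 1)).trans ?_
    rw [pow_add, pow_one]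
    refine mul_le_mul_of_nonneg_left ((pow_le_pow_left₀ (by linarith) hCμ κ).trans (le_of_eq ?_))
      (by linarith)
    rw [← exp_nat_mul]
    congr 1
    ring
  have e2 : q ^ (D * (i / 2 + 1 - κ')) ≤ exp (μ * κ) * exp (-(μ * (i + 1)) / 2) := by
    refine (pow_le_pow_left₀ hq0 hq _).trans ?_
    rw [← exp_nat_mul, ← exp_add]
    refine exp_le_exp.2 ?_
    have e3 : i + 1 ≤ D * (i / 2 + 1 - κ') + 2 * κ := by
      have := Nat.mul_le_mul_right (i / 2 + 1 - κ') hD
      omega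
    have e4 : (i : ℝ) + 1 ≤ ((D * (i / 2 + 1 - κ') : ℕ) : ℝ) + 2 * κ := by exact_mod_cast e3
    nlinarith [mul_le_mul_of_nonneg_left e4 hμ]
  refine (mul_le_mul e1 e2 (by positivity) (by positivity)).trans (le_of_eq ?_)
  rw [show 3 / 2 * (μ * κ) = 1 / 2 * (μ * κ) + μ * κ by ring, exp_add]
  ring

end KretM

open RetM KretM in
theorem kret (hgeo : GEO2Stmt) (hfac : KFACStmt) (hlat : KLATStmt) (htrap : KTRAPStmt) :
    KRETStmt := by
  intro D hD
  obtain ⟨C, hC, htrap⟩ := htrap D hD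
  have hD' : (2 : ℝ) ≤ D := by exact_mod_cast hD
  obtain ⟨F, hF⟩ : ∃ F : ℝ, F = 6 ^ D * 8 ^ (D + 2) * (D + 2).factorial := ⟨_, rfl⟩
  have hF0 : 0 ≤ F := by rw [hF]; positivity
  have hDD : 0 ≤ (D : ℝ) * (2 * D + 2) := by positivity
  refine ⟨2, 24 * C + 48 * D + 16 * (D * (2 * D + 2)) + F, by norm_num, by linarith,
    fun p lam μ S u k h0 ⟨h1, h2, h3, h4⟩ x hx i => ?_⟩
  have hμ : 0 ≤ μ := by linarith
  have hm1 : exp (-μ) * (μ + 1) ≤ 1 := by
    have := mul_le_mul_of_nonneg_left (add_one_le_exp μ) (exp_pos (-μ)).le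
    rwa [← exp_add, neg_add_cancel, exp_zero] at this
  have hm0 := exp_pos (-μ)
  have hp0 : 0 ≤ p := by nlinarith
  have hCμ : C ≤ exp (μ / 2) := by linarith [add_one_le_exp (μ / 2)]
  have hq : C * (1 - p) ≤ exp (-μ / 2) := by
    refine (mul_le_mul hCμ h2 (by linarith) (by positivity)).trans (le_of_eq ?_)
    rw [← exp_add]
    congr 1
    ring
  have hq2 : exp (-μ / 2) ≤ 1 / 2 := by
    have e1 := mul_le_mul_of_nonneg_left (add_one_le_exp (μ / 2)) (exp_pos (-μ / 2)).le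
    rw [← exp_add, show -μ / 2 + μ / 2 = 0 by ring, exp_zero] at e1
    nlinarith [exp_pos (-μ / 2)]
  have hi : (0 : ℝ) ≤ i := Nat.cast_nonneg i
  obtain ⟨y, hy⟩ : ∃ y : ℝ, y = μ * (i + 1) := ⟨_, rfl⟩
  have hy1 : μ ≤ y := by rw [hy]; nlinarith
  obtain ⟨κ, hκ⟩ : ∃ κ, κ = ks k (x 0) (i + 1) := ⟨_, rfl⟩
  have hκ0 : (0 : ℝ) ≤ κ := Nat.cast_nonneg κ
  obtain ⟨f0, f1, f2⟩ := phi_bounds (D := D) hp0 h1 hμ h2 h3
  have hδ2 : 16 * D * ((2 * D + 2) * exp (-μ)) ≤ 1 := by nlinarith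
  obtain ⟨r, e1, e2⟩ := width D (y := y) (i + 1) κ (by positivity) (by nlinarith) hδ2 f1 f2
    (by rw [hy]; push_cast; nlinarith) (by linarith) (by rw [← hF]; linarith)
  rw [← card_Box] at e2
  have hl := hlat D (by omega) p lam hp0 h1 S u k h4 x hx i (r + 1)
  rw [← hκ] at hl ⊢
  have hb := annealed hgeo hp0 h1 (hμ.trans h3) hx i r
    (c := C * exp (3 / 2 * (μ * κ)) * exp (-y / 2)) fun b e3 e4 =>
      ((htrap p h1 (hq.trans hq2) S u k h4 b _ _).1 e4).trans (ENNReal.ofReal_le_ofReal (by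
        rw [hy]
        refine trap_le hD hC (mul_nonneg (by linarith) (by linarith)) hμ hq hCμ ?_
        rw [hκ]
        refine ks_mono k (by omega) ?_
        push_cast [Nat.cast_sub (show (i + 1) / 2 ≤ i + 1 by omega)]
        omega))
  rw [RetK, SS_split _ (RB D i r)]
  refine (add_le_add ((SS_mono Set.inter_subset_right fun _ _ => le_rfl).trans hb)
    (((hfac D p lam hp0 h1 S x).2.2.2.2.2.2.1 _ _ ((antich_ret i).mono Set.sdiff_subset)
      fun l hl => split_pre hl).trans hl)).trans ?_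
  rw [← ENNReal.ofReal_add (by positivity) (by positivity),
    ← ENNReal.ofReal_add (by positivity) (by
      have := pow_le_one₀ (n := i + 1) f0 f1
      have : 0 ≤ 1 - (p * exp lam / Zf D lam) ^ (i + 1) := by linarith
      positivity)]
  refine ENNReal.ofReal_le_ofReal ?_
  have g0 : y / 8 ≤ exp (y / 8) := by linarith [add_one_le_exp (y / 8)]
  have g1 : (D : ℝ) * κ ≤ μ * κ / 48 := by
    have := mul_le_mul_of_nonneg_right (show 48 * (D : ℝ) ≤ μ by linarith) hκ0
    linarith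
  have g2 : 0 ≤ μ * κ := by positivity
  obtain ⟨G, hG⟩ : ∃ G : ℝ, G = exp (-μ * ((i + 1) / 8 - 2 * κ)) := ⟨_, rfl⟩
  have g3 : ∀ t c : ℝ, 3 * c ≤ y / 8 → t ≤ -(y / 4) + 2 * (μ * κ) → c * exp t ≤ G / 3 := by
    intro t c a b
    have e3 : exp (y / 8) * exp t ≤ G := by
      rw [hG, ← exp_add]
      refine exp_le_exp.2 ?_
      rw [hy] at b ⊢
      linarith
    nlinarith [mul_le_mul_of_nonneg_right (a.trans g0) (exp_pos t).le]
  rw [← hG]
  have t1 : ((Box D (i + 1) r).card : ℝ) ^ 3 * exp (-lam * (i + 1)) ≤ G / 3 := by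
    have e4 : exp (-lam * (i + 1)) ≤ exp (-y) := exp_le_exp.2 (by rw [hy]; nlinarith)
    refine (mul_le_mul (pow_le_pow_left₀ (Nat.cast_nonneg _) e2 3) e4 (by positivity)
      (by positivity)).trans ?_
    rw [← exp_add, ← exp_nat_mul, ← exp_add]
    refine le_trans (le_of_eq (one_mul _).symm) (g3 _ 1 (by linarith) ?_)
    push_cast
    linarith
  have t2 : ((Box D (i + 1) r).card : ℝ) * (C * exp (3 / 2 * (μ * κ)) * exp (-y / 2)) ≤ G / 3 := by
    refine (mul_le_mul_of_nonneg_right e2 (by positivity)).trans ?_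
    rw [mul_assoc C, mul_left_comm, ← exp_add, ← exp_add, ← exp_add]
    exact g3 _ C (by linarith) (by linarith)
  have t3 : 2 * (D : ℝ) * (1 - (p * exp lam / Zf D lam) ^ (i + 1)) ^ (r + 1 - (1 + κ)) ≤
      G / 3 :=
    (mul_le_mul_of_nonneg_left e1 (by positivity)).trans (g3 _ _ (by linarith) (by linarith))
  linarith

end Pool.Agent.MP_8c549f_pr

end MrgPart0

-- ======== part 1: formerly Pool.Agent.MP_8c549f_pr.B9
section MrgPart1

/-!
The blocks of a piece that end at a given site: tameness, comparison of the counted steps with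
the mass, rationality.
-/

set_option autoImplicit false

namespace Pool.Agent.MP_8c549f_pr

open MeasureTheory Filter Topology Real
open scoped ENNReal NNReal

variable {D : ℕ}

namespace PeM

open PieceA

open Classical in
/-- the reward of the automaton of the pieces, kept only when the last step arrives at `y` -/
noncomputable def ry (m r : ℕ) (y : V D) (z : St D) (s : Step D) : ℝ≥0 :=
  if z.1 + vec s = y then rw m r z s else 0

open Classical in
/-- the charge of a step -/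
noncomputable def ch (c : V D → Step D → Prop) (z : St D) (s : Step D) : ℝ≥0 :=
  if c z.1 s then 1 else 0

theorem ch_le (c : V D → Step D → Prop) (z : St D) (s : Step D) : ch c z s ≤ 1 := by
  unfold ch
  split_ifs <;> simp

theorem cnt_eq (c : V D → Step D → Prop) (l : List (Step D)) : ∀ z : St D,
    cnt dl (ch c) z l = (nst c z.1 l : ℝ≥0∞) := by
  induction l with
  | nil => intro z; simp [cnt, nst]
  | cons s l ih =>
    intro z
    have e : (dl z s).1 = z.1 + vec s := rfl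
    rw [cnt, ih, nst, e, ch]
    split_ifs <;> simp

open Classical in
theorem aw_ry (S : Finset (St D)) (P : St D → Step D → ℝ) (m r : ℕ) (y : V D) (z : St D)
    (l : List (Step D)) : aw dl S P (ry m r y) z l =
      if z.1 + pos l = y then aw dl S P (rw m r) z l else 0 := by
  rcases List.eq_nil_or_concat' l with rfl | ⟨l, s, rfl⟩
  · simp [aw]
  have e : z.1 + pos (l ++ [s]) = (l.foldl dl z).1 + vec s := by
    rw [foldl_fst]; simp [add_assoc]
  rw [aw_snoc, aw_snoc, ry, e]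
  split_ifs <;> simp

theorem aw_ind {lam : ℝ} {ω : Cfg D} {m r : ℕ} {S : Finset (St D)} (y : V D)
    (h : ∀ l, aw dl S (PP lam ω) (rw m r) (z0 D) l = {l | Piece m r l}.indicator (W lam ω 0) l)
    (l : List (Step D)) : aw dl S (PP lam ω) (ry m r y) (z0 D) l =
      {l | Piece m r l ∧ pos l = y}.indicator (W lam ω 0) l := by
  have e0 : (z0 D).1 = 0 := rfl
  rw [aw_ry, h, e0, zero_add]
  by_cases a : Piece m r l <;> by_cases b : pos l = y <;> simp [a, b]

theorem CU_eq {lam : ℝ} {ω : Cfg D} {m r : ℕ} {S : Finset (St D)} (y : V D)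
    (h : ∀ l, aw dl S (PP lam ω) (rw m r) (z0 D) l = {l | Piece m r l}.indicator (W lam ω 0) l) :
    CU dl S (PP lam ω) (ry m r y) (z0 D) = U1y lam ω m r y := tsum_congr (aw_ind y h)

theorem CT_eq {lam : ℝ} {ω : Cfg D} {m r : ℕ} {S : Finset (St D)} (c : V D → Step D → Prop)
    (y : V D)
    (h : ∀ l, aw dl S (PP lam ω) (rw m r) (z0 D) l = {l | Piece m r l}.indicator (W lam ω 0) l) :
    CT dl S (PP lam ω) (ch c) (ry m r y) (z0 D) = C1y lam ω c m r y := by
  refine tsum_congr fun l => ?_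
  have e0 : (z0 D).1 = 0 := rfl
  rw [aw_ind y h, cnt_eq, e0]
  by_cases hl : l ∈ {l : List (Step D) | Piece m r l ∧ pos l = y} <;> simp [hl]

/-- a state from which the automaton can accept sits at a site with an escape route -/
theorem esc_of_CU (lam : ℝ) (ω : Cfg D) (m r : ℕ) (y : V D) (z : St D)
    (hU : CU dl (SB D m r) (PP lam ω) (ry m r y) z ≠ 0) : Esc ω (Box D m r) z.1 0 := by
  obtain ⟨l, hl⟩ : ∃ l, aw dl (SB D m r) (PP lam ω) (rw m r) z l ≠ 0 := by
    by_contra hc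
    push Not at hc
    refine hU (ENNReal.tsum_eq_zero.2 fun l => ?_)
    rw [aw_ry, hc, ite_self]
  rcases List.eq_nil_or_concat' l with rfl | ⟨l, t, rfl⟩
  · exact absurd rfl hl
  rw [aw_snoc, cw_eq] at hl
  obtain ⟨a1, a2⟩ := mul_ne_zero_iff.1 hl
  obtain ⟨a2, a3⟩ := mul_ne_zero_iff.1 a2
  have b1 : ∀ i ≤ l.length, (l.take i).foldl dl z ∈ SB D m r := by
    by_contra hc
    exact a1 (if_neg hc)
  rw [if_pos b1] at a1
  have b3 : Acc m r (l.foldl dl z) t := by
    by_contra hc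
    exact a3 (by rw [rw, if_neg hc]; rfl)
  set x := z.1 with hx
  have b2 : ∀ i ≤ l.length, x + loc l i ∈ Box D m r := fun i hi => by
    have := (mem_SB.1 (b1 i hi)).1
    rwa [foldl_fst] at this
  obtain ⟨-, rfl, b4, -⟩ := b3
  rw [foldl_fst, ← hx] at b4
  have hW : W lam ω x (l ++ [fwd D]) ≠ 0 := by
    rw [W_append, W_single]
    rw [PP, foldl_fst] at a2
    exact mul_ne_zero a1 a2
  have hend : (x + pos (l ++ [fwd D])) 0 = m := by
    rw [← b4]; simp [add_assoc]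
  have hlev : ∀ i ≤ l.length + 1, 0 ≤ (x + loc (l ++ [fwd D]) i) 0 := by
    intro i hi
    rcases hi.eq_or_lt with rfl | hi
    · rw [loc_of_le (by simp), hend]; positivity
    · rw [loc_append_left _ (by omega)]
      exact (mem_Box.1 (b2 i (by omega))).1
  refine esc D ω _ x 0 (l ++ [fwd D]) (fun h => ?_) fun i hi =>
    ⟨(W_ne_zero_iff lam ω _ x).1 hW i hi, ?_⟩
  · have := (mem_Box.1 h).2.1
    omega
  · rw [expo_eq, add_assoc, ← loc_succ hi]
    have hi' : i < l.length + 1 := by simpa using hi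
    exact add_nonneg (hlev i hi'.le) (hlev (i + 1) hi')

theorem tame (hC : CH4Stmt) (ω : Cfg D) (c : V D → Step D → Prop) (m r : ℕ) (y : V D) :
    Tame (10 * NN D m r) (fun x => C1y x ω c m r y) ∧
      Tame (10 * NN D m r) (fun x => U1y x ω m r y) := by
  have hk : ∀ (z : St D) (s : Step D), |((vec s 0 : ℤ) : ℝ)| ≤ 1 := by
    intro z s
    have h := vec_bounds s 0
    have h1 : (-1 : ℝ) ≤ vec s 0 := by exact_mod_cast h.1
    have h2 : (vec s 0 : ℝ) ≤ 1 := by exact_mod_cast h.2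
    exact abs_le.2 ⟨h1, h2⟩
  have h := hC D (St D) dl (SB D m r) (fun z s => ω (edge z.1 s))
    (fun _ s => ((vec s 0 : ℤ) : ℝ)) (ch c) (ry m r y) (fun x => PP x ω) hk
    (fun x z s => rfl) (z0 D)
  have h1 : ((SB D m r).card : ℝ) ≤ NN D m r := by exact_mod_cast card_SB m r
  have h2 : (1 : ℝ) ≤ NN D m r := by exact_mod_cast one_le_NN m r
  have h3 : (0 : ℝ) ≤ (SB D m r).card := Nat.cast_nonneg _
  refine ⟨(h.2.mono (by linarith) (by linarith)).congr fun x => CT_eq c y (aw_eq' x ω m r),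
    (h.1.mono (by linarith) (by linarith)).congr fun x => CU_eq y (aw_eq' x ω m r)⟩

theorem bound (lam : ℝ) (hlam : 0 ≤ lam) (ω : Cfg D) (c : V D → Step D → Prop) (m r : ℕ)
    (y : V D) (j : ℕ) (hG : GoodC ω (Box D m r) c j) : C1y lam ω c m r y ≤
      ENNReal.ofReal ((6 * D + 6) * (NN D m r : ℝ) ^ 3 * exp (lam * j)) * U1y lam ω m r y := by
  have h1 : ((SB D m r).card : ℝ) ≤ NN D m r := by exact_mod_cast card_SB m r
  have h2 : (1 : ℝ) ≤ NN D m r := by exact_mod_cast one_le_NN m r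
  have h3 : ((Box D m r).card : ℝ) ≤ NN D m r := by exact_mod_cast card_Box_le m r
  have h4 : 1 ≤ exp (lam * j) := one_le_exp (by positivity)
  have h := ch2 D (St D) dl (SB D m r) (PP lam ω) (ch c) (ry m r y)
    (ENNReal.ofReal ((NN D m r : ℝ) ^ 2 * exp (lam * j))) (fun z s => pr_nonneg _ _ _ _)
    (fun z => sum_pr_le_one _ _ _) (ch_le c) ?_ (z0 D) 0
  · have e1 : ∀ l : List (Step D), (if 0 < l.length then
        cnt dl (ch c) (z0 D) l * aw dl (SB D m r) (PP lam ω) (ry m r y) (z0 D) l else 0) =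
        cnt dl (ch c) (z0 D) l * aw dl (SB D m r) (PP lam ω) (ry m r y) (z0 D) l := by
      intro l
      rcases l with _ | ⟨s, l⟩
      · simp [aw]
      · simp
    have e2 : ∀ l : List (Step D), (if 0 < l.length then
        aw dl (SB D m r) (PP lam ω) (ry m r y) (z0 D) l else 0) =
        aw dl (SB D m r) (PP lam ω) (ry m r y) (z0 D) l := by
      intro l
      rcases l with _ | ⟨s, l⟩
      · simp [aw]
      · simp
    simp only [e1, e2] at h
    rw [← CT_eq c y (aw_eq' lam ω m r), ← CU_eq y (aw_eq' lam ω m r)]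
    refine h.trans (mul_le_mul' ?_ le_rfl)
    have e3 : ((0 : ℕ) : ℝ≥0∞) + (SB D m r).card * (2 * D + 2) *
        (2 + ENNReal.ofReal ((NN D m r : ℝ) ^ 2 * exp (lam * j))) =
        ENNReal.ofReal ((SB D m r).card * (2 * D + 2) *
          (2 + (NN D m r : ℝ) ^ 2 * exp (lam * j))) := by
      have hX : 0 ≤ (NN D m r : ℝ) ^ 2 * exp (lam * j) := by positivity
      generalize (NN D m r : ℝ) ^ 2 * exp (lam * j) = X at hX
      rw [ENNReal.ofReal_mul (by positivity),
        ENNReal.ofReal_mul (by positivity), ENNReal.ofReal_add (by positivity) (by positivity),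
        ENNReal.ofReal_add (by positivity) hX, ENNReal.ofReal_mul (by positivity)]
      simp
    rw [e3]
    refine ENNReal.ofReal_le_ofReal ?_
    have h5 : 1 ≤ (NN D m r : ℝ) ^ 2 * exp (lam * j) := one_le_mul_of_one_le_of_one_le
      (one_le_pow₀ h2) h4
    calc ((SB D m r).card : ℝ) * (2 * D + 2) * (2 + (NN D m r : ℝ) ^ 2 * exp (lam * j))
        ≤ NN D m r * (2 * D + 2) * (3 * ((NN D m r : ℝ) ^ 2 * exp (lam * j))) := by
          gcongr
          linarith
      _ = _ := by ring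
  · intro z hz s hc hU
    by_cases ho : ω (edge z.1 s) = true
    swap
    · simp [pr, ho]
    have hc' : c z.1 s := by
      by_contra hn
      exact hc (by rw [ch, if_neg hn])
    have hesc : Esc ω (Box D m r) (z.1 + vec s) 0 := esc_of_CU lam ω m r y (dl z s) hU
    have hesc' := hG z.1 (mem_SB.1 hz).1 s hc' ho hesc
    refine le_trans (mul_le_mul' (CG_le lam ω (fun z hz => (mem_SB.1 hz).1) _ _) le_rfl)
      ((res D lam hlam ω _ (z.1 + vec s) z.1 s _ hesc').trans (ENNReal.ofReal_le_ofReal ?_))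
    rw [sub_sub_cancel, Int.cast_natCast]
    gcongr

theorem ratio (ω : Cfg D) (hω : ω (edge 0 (bck D)) = true) (c : V D → Step D → Prop) (m r : ℕ)
    (y : V D) : (∀ lam, 0 ≤ lam → C1y lam ω c m r y ≠ ∞) ∧
      IsRat (fun x => (C1y x ω c m r y).toReal) ∧ IsRat (fun x => (U1y x ω m r y).toReal) := by
  classical
  set J : V D → Prop := fun x => ∃ l, x + pos l ∉ Box D m r ∧ W 0 ω x l ≠ 0 with hJ
  have hJ' : ∀ lam l, W lam ω 0 l ≠ 0 → J (pos l) := by
    intro lam l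
    induction l using List.reverseRecOn with
    | nil =>
      intro _
      refine ⟨[bck D], fun h => ?_, ?_⟩
      · simpa using (mem_Box.1 h).1
      · rw [W_single]
        simpa using pr_pos 0 hω
    | append_singleton l s ih =>
      intro h
      rw [W_append, W_single, zero_add] at h
      obtain ⟨a1, a2⟩ := mul_ne_zero_iff.1 h
      obtain ⟨u, b1, b2⟩ := ih a1
      have ho : ω (edge (pos l) s) = true :=
        open_of_pr_ne (lam := lam) fun h => a2 (by rw [h]; simp)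
      have e : pos (l ++ [s]) = pos l + vec s := by simp
      refine ⟨rev s :: u, by simpa [add_assoc] using b1, ?_⟩
      rw [W_cons, e, vec_rev, add_neg_cancel_right]
      refine mul_ne_zero ?_ b2
      simpa using pr_pos 0 (x := pos l + vec s) (s := rev s) (by rw [edge_rev]; exact ho)
  have h := ch3 D (St D) dl ((SB D m r).filter fun z => J z.1) (fun lam => PP lam ω)
    (ch c) (ry m r y) (fun z s => isRat_pr ω z.1 s) (fun lam _ z s => pr_nonneg _ _ _ _)
    (fun lam _ z => sum_pr_le_one _ _ _) ?_ (z0 D)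
  · simp only [fun lam => CU_eq y (aw_eq lam ω m r J (hJ' lam)),
      fun lam => CT_eq c y (aw_eq lam ω m r J (hJ' lam))] at h
    exact ⟨fun lam hl => (h.1 lam hl).2, h.2.2, h.2.1⟩
  · intro lam hlam z hz
    obtain ⟨hz1, l, b1, b2⟩ := Finset.mem_filter.1 hz
    have hB := (mem_SB.1 hz1).1
    have ho := (W_ne_zero_iff 0 ω l z.1).1 b2
    have hesc : Esc ω (Box D m r) z.1 (2 * z.1 0 - 2 * l.length - 1) := by
      refine esc D ω _ _ _ l b1 fun i hi => ⟨ho i hi, ?_⟩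
      have c1 := (abs_loc_le l 0 i).1
      have c2 := (vec_bounds l[i] 0).1
      simp only [expo, Pi.add_apply]
      omega
    have hl : 0 < l.length := by
      rcases l with _ | ⟨s, l⟩
      · exact absurd hB (by simpa using b1)
      · simp
    have ho' := ho 0 hl
    rw [loc_zero, add_zero] at ho'
    refine ne_top_of_le_ne_top ?_
      (CG_le lam ω (fun z hz => (mem_SB.1 (Finset.mem_filter.1 hz).1).1) z z)
    rw [← mul_one (Gb _ _ _ _ _), ← sum_ofReal_pr_eq_one lam ho', Finset.mul_sum]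
    exact ENNReal.sum_ne_top.2 fun s _ =>
      ne_top_of_le_ne_top ENNReal.ofReal_ne_top (res D lam hlam ω _ _ _ s _ hesc)

end PeM

theorem pe (hC : CH4Stmt) : PEStmt := fun _ ω c m r y =>
  ⟨(PeM.tame hC ω c m r y).1, (PeM.tame hC ω c m r y).2,
    fun lam hlam j hG => PeM.bound lam hlam ω c m r y j hG, fun hω => PeM.ratio ω hω c m r y⟩

end Pool.Agent.MP_8c549f_pr

/-!
The returns below the starting level, of given height and width, are the language of a finite
automaton.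
-/

set_option autoImplicit false

namespace Pool.Agent.MP_8c549f_pr

open MeasureTheory Filter Topology Real
open scoped ENNReal NNReal

variable {D : ℕ}

namespace RqM

open PieceA

/-- the accepting transitions -/
def Acr (i r : ℕ) (z : St D) (s : Step D) : Prop :=
  s = bck D ∧ z.1 0 = 0 ∧ z.2.1 = i ∧ z.2.2.2.2 = r

open Classical in
noncomputable def rwr (i r : ℕ) (z : St D) (s : Step D) : ℝ≥0 := if Acr i r z s then 1 else 0

theorem rad_bck (x : V D) : rad (x + vec (bck D)) = rad x := by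
  simp [rad, vec_bck]

theorem ret_iff (i r : ℕ) (l : List (Step D)) (s : Step D) :
    (l ++ [s] ∈ RetSet D i ∧ ext (l ++ [s]) = r) ↔
      (∀ k ≤ l.length, (l.take k).foldl dl (z0 D) ∈ SB D (i + 1) r) ∧
        Acr i r (l.foldl dl (z0 D)) s := by
  obtain ⟨h1, h2, ⟨k0, hk0, h3⟩, -, -, -, h7⟩ := inv_st l
  have hl : (l ++ [s]).length = l.length + 1 := by simp
  have hlev : lev (l ++ [s]) = lev l + vec s 0 := by rw [← H_last, ← hl, H_length]
  have hr : rad (pos l) ≤ ext l := by simpa using rad_le_ext l le_rfl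
  unfold RetSet Acr
  rw [Set.mem_ofPred_eq, hl, h1, h7, hlev, ext_snoc]
  constructor
  · rintro ⟨⟨a1, a2, k1, hk1, a3⟩, a5⟩
    have hH : ∀ k ≤ l.length, 0 ≤ H l k ∧ H l k ≤ i := by
      intro k hk
      have := a2 k (by omega)
      rwa [H_append_left _ hk] at this
    have h0 := (hH _ le_rfl).1
    rw [H_length] at h0
    have hs : s = bck D := by
      have := (vec_bounds s 0).1
      exact vec_zero_eq_neg_one.1 (by omega)
    subst hs
    rw [vec_bck_zero] at a1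
    rw [rad_bck, max_eq_left hr] at a5
    rw [H_append_left _ (by omega)] at a3
    refine ⟨fun k hk => ?_, rfl, by unfold lev at a1; omega, ?_, a5⟩
    · obtain ⟨g1, -, ⟨j, hj, g3⟩, -, -, g6, g7⟩ := inv_st (l.take k)
      have hli : (l.take k).length = k := by simp [hk]
      have b1 := hH k hk
      have b2 := hH j (by omega)
      rw [mem_SB, g1, ← g3, g7, H_take l (by omega), pos_take, mem_Box]
      refine ⟨⟨b1.1, ?_, a5 ▸ rad_le_ext l hk⟩, ⟨b2.1, by push_cast; omega⟩, ?_,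
        a5 ▸ ext_take l k⟩
      · have : loc l k 0 = H l k := rfl
        rw [this]; push_cast; omega
      · by_cases hq : ((l.take k).foldl dl (z0 D)).2.2.2.1 = 0
        · rw [hq]
          exact ⟨le_rfl, by push_cast; omega⟩
        · obtain ⟨t, c1, c2⟩ := g6 hq
          have := c1.1.2.1
          rw [← c2, H_take l (by omega)]
          have b3 := hH t (by omega)
          push_cast; omega
    · have b1 := h2 k1 (by omega)
      have b2 := (hH k0 hk0).2
      omega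
  · rintro ⟨a1, rfl, a2, a3, a4⟩
    refine ⟨⟨by rw [vec_bck_zero]; unfold lev; omega, fun k hk => ?_, k0, by omega, ?_⟩, ?_⟩
    · have hk' : k ≤ l.length := by omega
      have := (mem_SB.1 (a1 k hk')).1
      rw [(inv_st _).1, mem_Box] at this
      rw [H_append_left _ hk']
      exact ⟨this.1, a3 ▸ h2 k hk'⟩
    · rw [H_append_left _ hk0, h3, a3]
    · rw [rad_bck, max_eq_left hr, a4]

open Classical in
theorem aw_eq (lam : ℝ) (ω : Cfg D) (i r : ℕ) (J : V D → Prop)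
    (hJ : ∀ l, W lam ω 0 l ≠ 0 → J (pos l)) (l : List (Step D)) :
    aw dl ((SB D (i + 1) r).filter fun z => J z.1) (PP lam ω) (rwr i r) (z0 D) l =
      {l | l ∈ RetSet D i ∧ ext l = r}.indicator (W lam ω 0) l := by
  rcases List.eq_nil_or_concat' l with rfl | ⟨l, s, rfl⟩
  · rw [Set.indicator_of_notMem]
    · rfl
    · intro h
      simpa using h.1.1
  rw [aw_snoc, cw_eq]
  have e0 : (z0 D).1 = 0 := rfl
  by_cases hp : l ++ [s] ∈ RetSet D i ∧ ext (l ++ [s]) = r
  · rw [Set.indicator_of_mem (by exact hp), W_append, W_single]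
    obtain ⟨h1, h2⟩ := (ret_iff i r l s).1 hp
    rw [rwr, if_pos h2, ENNReal.coe_one, mul_one, PP, foldl_fst, e0]
    by_cases hW : W lam ω 0 l = 0
    · rw [hW, ite_self]
    · rw [if_pos]
      intro k hk
      refine Finset.mem_filter.2 ⟨h1 k hk, ?_⟩
      rw [foldl_fst, e0, zero_add]
      refine hJ _ fun h => hW ?_
      rw [← List.take_append_drop k l, W_append, h, zero_mul]
  · rw [Set.indicator_of_notMem (by exact hp), rwr]
    split_ifs with h1 h2
    · exact absurd ((ret_iff i r l s).2 ⟨fun k hk => (Finset.mem_filter.1 (h1 k hk)).1, h2⟩) hp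
    · simp
    · simp
    · simp

open Classical in
theorem CU_eq (lam : ℝ) (ω : Cfg D) (i r : ℕ) (J : V D → Prop)
    (hJ : ∀ l, W lam ω 0 l ≠ 0 → J (pos l)) :
    CU dl ((SB D (i + 1) r).filter fun z => J z.1) (PP lam ω) (rwr i r) (z0 D) =
      Rq lam ω 0 i r := tsum_congr (aw_eq lam ω i r J hJ)

theorem CU_eq' (lam : ℝ) (ω : Cfg D) (i r : ℕ) :
    CU dl (SB D (i + 1) r) (PP lam ω) (rwr i r) (z0 D) = Rq lam ω 0 i r := by
  have := CU_eq lam ω i r (fun _ => True) fun _ _ => trivial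
  simpa only [Finset.filter_true] using this

theorem Rq_shift (lam : ℝ) (ω : Cfg D) (y : V D) (i r : ℕ) :
    Rq lam ω y i r = Rq lam (shift y ω) 0 i r := by
  unfold Rq
  refine SS_congr fun l _ => ?_
  rw [W_shift, zero_add]

theorem tame_zero (hC : CH4Stmt) (ω : Cfg D) (i r : ℕ) :
    Tame (10 * NN D (i + 1) r) fun x => Rq x ω 0 i r := by
  have h := (hC D (St D) dl (SB D (i + 1) r)
    (fun z s => ω (edge z.1 s)) (fun _ s => (vec s 0 : ℝ)) (fun _ _ => 1) (rwr i r)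
    (fun x => PP x ω) (fun _ s => ?_) (fun _ _ _ => rfl) (z0 D)).1
  · refine (h.congr fun x => CU_eq' x ω i r).mono (by positivity) ?_
    have h2 : ((SB D (i + 1) r).card : ℝ) ≤ NN D (i + 1) r := by exact_mod_cast card_SB _ _
    have h3 : (0 : ℝ) ≤ NN D (i + 1) r := Nat.cast_nonneg _
    linarith
  · have h := vec_bounds s 0
    have h1 : (-1 : ℝ) ≤ vec s 0 := by exact_mod_cast h.1
    have h2 : (vec s 0 : ℝ) ≤ 1 := by exact_mod_cast h.2
    exact abs_le.2 ⟨h1, h2⟩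

theorem rat_zero (ω : Cfg D) (hω : ω (edge 0 (bck D)) = true) (i r : ℕ) :
    IsRat fun x => (Rq x ω 0 i r).toReal := by
  classical
  set J : V D → Prop := fun x => ∃ l, x + pos l ∉ Box D (i + 1) r ∧ W 0 ω x l ≠ 0 with hJ
  have hJ' : ∀ lam l, W lam ω 0 l ≠ 0 → J (pos l) := by
    intro lam l
    induction l using List.reverseRecOn with
    | nil =>
      intro _
      refine ⟨[bck D], fun h => ?_, ?_⟩
      · simpa using (mem_Box.1 h).1
      · rw [W_single]
        simpa using pr_pos 0 hω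
    | append_singleton l s ih =>
      intro h
      rw [W_append, W_single, zero_add] at h
      obtain ⟨a1, a2⟩ := mul_ne_zero_iff.1 h
      obtain ⟨u, b1, b2⟩ := ih a1
      have ho : ω (edge (pos l) s) = true :=
        open_of_pr_ne (lam := lam) fun h => a2 (by rw [h]; simp)
      have e : pos (l ++ [s]) = pos l + vec s := by simp
      refine ⟨rev s :: u, by simpa [add_assoc] using b1, ?_⟩
      rw [W_cons, e, vec_rev, add_neg_cancel_right]
      refine mul_ne_zero ?_ b2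
      simpa using pr_pos 0 (x := pos l + vec s) (s := rev s) (by rw [edge_rev]; exact ho)
  have h := ch3 D (St D) dl ((SB D (i + 1) r).filter fun z => J z.1) (fun lam => PP lam ω)
    (fun _ _ => 1) (rwr i r) (fun z s => isRat_pr ω z.1 s) (fun lam _ z s => pr_nonneg _ _ _ _)
    (fun lam _ z => sum_pr_le_one _ _ _) ?_ (z0 D)
  · exact h.2.1.congr fun lam _ => by rw [CU_eq lam ω i r J (hJ' lam)]
  · intro lam hlam y hy
    obtain ⟨hy1, l, b1, b2⟩ := Finset.mem_filter.1 hy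
    have hB := (mem_SB.1 hy1).1
    have ho := (W_ne_zero_iff 0 ω l y.1).1 b2
    have hesc : Esc ω (Box D (i + 1) r) y.1 (2 * y.1 0 - 2 * l.length - 1) := by
      refine esc D ω _ _ _ l b1 fun k hk => ⟨ho k hk, ?_⟩
      have c1 := (abs_loc_le l 0 k).1
      have c2 := (vec_bounds l[k] 0).1
      simp only [expo, Pi.add_apply]
      omega
    have hl : 0 < l.length := by
      rcases l with _ | ⟨s, l⟩
      · exact absurd hB (by simpa using b1)
      · simp
    have ho' := ho 0 hl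
    rw [loc_zero, add_zero] at ho'
    refine ne_top_of_le_ne_top ?_
      (CG_le lam ω (fun z hz => (mem_SB.1 (Finset.mem_filter.1 hz).1).1) y y)
    rw [← mul_one (Gb _ _ _ _ _), ← sum_ofReal_pr_eq_one lam ho', Finset.mul_sum]
    exact ENNReal.sum_ne_top.2 fun s _ =>
      ne_top_of_le_ne_top ENNReal.ofReal_ne_top (res D lam hlam ω _ _ _ s _ hesc)

end RqM

theorem rq (hC : CH4Stmt) : RQStmt := by
  intro D ω y i r
  refine ⟨(RqM.tame_zero hC (shift y ω) i r).congr fun x => (RqM.Rq_shift x ω y i r).symm,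
    fun lam => kraft lam ω ((RetM.antich_ret i).mono fun l hl => hl.1) y, fun h => ?_⟩
  refine (RqM.rat_zero (shift y ω) ?_ i r).congr fun x _ => by rw [← RqM.Rq_shift]
  have e := edge_add y 0 (bck D)
  rw [zero_add] at e
  rw [e] at h
  exact h

end Pool.Agent.MP_8c549f_pr

/-!
Pieces with counted steps: sums over the end point of the block.
-/

set_option autoImplicit false

namespace Pool.Agent.MP_8c549f_pr

open MeasureTheory Filter Topology Real
open scoped ENNReal NNReal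

namespace PcM

variable {D : ℕ}

theorem C1_eq (lam : ℝ) (ω : Cfg D) (c : V D → Step D → Prop) (m r : ℕ) :
    C1 lam ω c m r = ∑' y, C1y lam ω c m r y := SS_fiber _ pos _

theorem Uq_eq (lam : ℝ) (ω : Cfg D) (m r : ℕ) : Uq lam ω m r = ∑' y, U1y lam ω m r y :=
  SS_fiber _ pos _

theorem C2_eq (lam : ℝ) (ω : Cfg D) (c : V D → Step D → Prop) (m r i r' : ℕ) :
    C2 lam ω c m r i r' = ∑' y, C1y lam ω c m r y * Rq lam ω y i r' := by
  rw [C2, SS_fiber _ pos]
  refine tsum_congr fun y => ?_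
  rw [C1y, mul_comm, ← SS_mul_left]
  exact SS_congr fun l hl => by rw [hl.2, mul_comm]

theorem U2_eq (lam : ℝ) (ω : Cfg D) (m r i r' : ℕ) :
    U2 lam ω m r i r' = ∑' y, U1y lam ω m r y * Rq lam ω y i r' := by
  rw [U2, SS_fiber _ pos]
  refine tsum_congr fun y => ?_
  rw [U1y, mul_comm, ← SS_mul_left]
  exact SS_congr fun l hl => by rw [hl.2, mul_comm]

theorem SS_zero {A : Set (List (Step D))} {f : List (Step D) → ℝ≥0∞} (h : ∀ l ∈ A, f l = 0) :
    SS A f = 0 := by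
  refine le_antisymm ((SS_mono' (B := ∅) fun l hl h0 => h0 (h l hl)).trans_eq (SS_empty f)) zero_le

theorem rad_pos_le {m r : ℕ} {l : List (Step D)} (h : Piece m r l) : rad (pos l) ≤ r := by
  have := PieceB.rad_le_ext l (le_refl l.length)
  rwa [loc_of_le le_rfl, h.2.2] at this

theorem pos_mem {m r : ℕ} {l : List (Step D)} (h : Piece m r l) : pos l ∈ Box D (m + 1) r := by
  have e : pos l 0 = m := h.2.1
  exact mem_Box.2 ⟨by omega, by push_cast; omega, rad_pos_le h⟩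

/-- the last step of a block is a forward step -/
theorem open_bck {lam : ℝ} {ω : Cfg D} {l : List (Step D)} (h : Block l) (hW : W lam ω 0 l ≠ 0) :
    ω (edge (pos l) (bck D)) = true := by
  obtain ⟨h5, -, h6, -⟩ := h.2.1
  have h7 : l.length - 1 < l.length := by omega
  have h8 := H_succ h7
  have h9 := loc_succ h7
  have h10 := (W_ne_zero_iff lam ω l 0).1 hW _ h7
  rw [show l.length - 1 + 1 = l.length by omega] at h8 h9
  rw [vec_zero_eq_one.mp (show vec l[l.length - 1] 0 = 1 by omega)] at h9 h10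
  rw [loc_of_le le_rfl, vec_fwd_e0] at h9
  rw [h9, edge_fwd_eq]
  rwa [zero_add] at h10

theorem rad_add (x y : V D) : rad (x + y) ≤ rad x + rad y := by
  refine Finset.sup_le fun j _ => ?_
  have a : (x j.succ).natAbs ≤ rad x :=
    Finset.le_sup (f := fun j : Fin D => (x j.succ).natAbs) (Finset.mem_univ j)
  have b : (y j.succ).natAbs ≤ rad y :=
    Finset.le_sup (f := fun j : Fin D => (y j.succ).natAbs) (Finset.mem_univ j)
  rw [Pi.add_apply]
  omega

theorem Box_mono {m r m' r' : ℕ} (hm : m ≤ m') (hr : r ≤ r') {x : V D} (h : x ∈ Box D m r) :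
    x ∈ Box D m' r' := by
  obtain ⟨a, b, c⟩ := mem_Box.1 h
  exact mem_Box.2 ⟨a, by omega, c.trans hr⟩

theorem near_Box {m r i r' : ℕ} {ω ω' : Cfg D}
    (h : ∀ e ∈ near (Box D (m + i + 1) (r + r')), ω e = ω' e) :
    ∀ e ∈ (near (Box D m r) : Set (Edge D)), ω e = ω' e := by
  intro e he
  obtain ⟨x, hx, s, rfl⟩ := mem_near.1 (Finset.mem_coe.1 he)
  exact h _ (mem_near.2 ⟨x, Box_mono (by omega) (by omega) hx, s, rfl⟩)

theorem Rq_congr (lam : ℝ) {m r i r' : ℕ} {ω ω' : Cfg D}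
    (h : ∀ e ∈ near (Box D (m + i + 1) (r + r')), ω e = ω' e) {l : List (Step D)}
    (hl : Piece m r l) : Rq lam ω (pos l) i r' = Rq lam ω' (pos l) i r' := by
  refine SS_congr fun u hu => W_congr lam u _ fun k hk s => h _ (mem_near.2 ⟨_, ?_, s, rfl⟩)
  have e : pos l 0 = m := hl.2.1
  obtain ⟨a, b⟩ := hu.1.2.1 k hk
  have c := PieceB.rad_le_ext u hk.le
  unfold H at a b
  refine mem_Box.2 ⟨?_, ?_, (rad_add _ _).trans (add_le_add (rad_pos_le hl) (c.trans_eq hu.2))⟩
  · rw [Pi.add_apply]; omega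
  · rw [Pi.add_apply]; push_cast; omega

theorem nst_eq {m r : ℕ} {c c' : V D → Step D → Prop} (h : ∀ x ∈ Box D m r, ∀ s, c x s ↔ c' x s)
    {l : List (Step D)} (hl : Piece m r l) : nst c 0 l = nst c' 0 l :=
  nst_congr fun i hi => h _ (by rw [zero_add]; exact PieceB.loc_mem hl hi) _

theorem goodC_congr {B : Finset (V D)} {ω ω' : Cfg D} {c c' : V D → Step D → Prop}
    (hω : ∀ e ∈ (near B : Set (Edge D)), ω e = ω' e) (hc : ∀ x ∈ B, ∀ s, c' x s → c x s) {j : ℕ}
    (h : GoodC ω B c j) : GoodC ω' B c' j :=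
  fun x hx s h1 h2 h3 => PieceB.esc_congr hω (h x hx s (hc x hx s h1)
    ((hω _ (Finset.mem_coe.mpr (mem_near.mpr ⟨_, hx, _, rfl⟩))).trans h2)
    (PieceB.esc_congr (fun e he => (hω e he).symm) h3))

theorem goodC_allOpen (m r : ℕ) (c : V D → Step D → Prop) : GoodC (allOpen D) (Box D m r) c 0 := by
  intro x hx s _ _ _
  have h1 := mem_Box.mp hx
  have h0 := vec_bounds s 0
  refine esc D _ _ (x + vec s) _ (List.replicate (m + 1) (fwd D)) (fun h => ?_) fun i hi => ⟨rfl, ?_⟩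
  · have h2 := (mem_Box.mp h).2.1
    have h3 := PieceB.lev_replicate (D := D) (m + 1)
    rw [Pi.add_apply, Pi.add_apply] at h2
    unfold lev at h3
    push_cast at h3
    omega
  · have h3 : loc (List.replicate (m + 1) (fwd D)) i 0 = (min i (m + 1) : ℕ) := by
      rw [← PieceB.lev_replicate (D := D), ← List.take_replicate]
      rfl
    rw [List.getElem_replicate]
    unfold expo
    rw [Pi.add_apply, Pi.add_apply, h3, vec_fwd_zero]
    push_cast
    omega

/-- a sum over the end points is a finite sum -/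
theorem rat_tsum {m r : ℕ} {F : ℝ → List (Step D) → ℝ≥0∞} {G : ℝ → V D → ℝ≥0∞}
    (hG : ∀ lam y, G lam y ≠ ∞)
    (hF : ∀ lam, 0 ≤ lam → ∀ y, SS {l | Piece m r l ∧ pos l = y} (F lam) ≠ ∞)
    (h : ∀ y, IsRat fun x => (SS {l | Piece m r l ∧ pos l = y} (F x) * G x y).toReal) :
    (∀ lam, 0 ≤ lam → ∑' y, SS {l | Piece m r l ∧ pos l = y} (F lam) * G lam y ≠ ∞) ∧
    IsRat fun x => (∑' y, SS {l | Piece m r l ∧ pos l = y} (F x) * G x y).toReal := by
  have e : ∀ x, ∑' y, SS {l | Piece m r l ∧ pos l = y} (F x) * G x y =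
      ∑ y ∈ Box D (m + 1) r, SS {l | Piece m r l ∧ pos l = y} (F x) * G x y := fun x =>
    tsum_eq_sum fun y hy => by
      rw [SS_zero fun l hl => ?_, zero_mul]
      exact absurd (hl.2 ▸ pos_mem hl.1) hy
  simp only [e]
  refine ⟨fun lam hl => ENNReal.sum_ne_top.2 fun y _ => ENNReal.mul_ne_top (hF lam hl y) (hG lam y),
    (isRat_sum (Box D (m + 1) r) fun y _ => h y).congr fun x hx => ?_⟩
  rw [ENNReal.toReal_sum fun y _ => ENNReal.mul_ne_top (hF x hx y) (hG x y)]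

theorem rat_mul (hR : RQStmt) {ω : Cfg D} {m r : ℕ} (i r' : ℕ) {a : List (Step D) → ℝ≥0∞} {y : V D}
    (h : IsRat fun x => (SS {l | Piece m r l ∧ pos l = y} fun l => a l * W x ω 0 l).toReal) :
    IsRat fun x =>
      (SS {l | Piece m r l ∧ pos l = y} (fun l => a l * W x ω 0 l) * Rq x ω y i r').toReal := by
  by_cases hy : ω (edge y (bck D)) = true
  · exact (h.mul ((hR D ω y i r').2.2 hy)).congr fun x _ => ENNReal.toReal_mul.symm
  · refine (isRat_const 0).congr fun x _ => ?_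
    rw [SS_zero fun l hl => ?_, zero_mul, ENNReal.toReal_zero]
    rw [show W x ω 0 l = 0 from by_contra fun h0 => hy (hl.2 ▸ open_bck hl.1.1 h0), mul_zero]

end PcM

open PcM

theorem pt (hE : PEStmt) (hR : RQStmt) : PTStmt := by
  intro D ω c m r i r'
  have k : ∀ a b : ℕ, (0 : ℝ) ≤ 10 * NN D a b := fun a b => by positivity
  simp only [C1_eq, Uq_eq, C2_eq, U2_eq, mul_add]
  exact ⟨tame_tsum fun y => (hE D ω c m r y).1, tame_tsum fun y => (hE D ω c m r y).2.1,
    tame_tsum fun y => (hE D ω c m r y).1.mul (hR D ω y i r').1 (k _ _) (k _ _),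
    tame_tsum fun y => (hE D ω c m r y).2.1.mul (hR D ω y i r').1 (k _ _) (k _ _)⟩

theorem pb (hE : PEStmt) (_ : RQStmt) : PBStmt := by
  intro D lam hlam ω c m r i r' j hj
  simp only [C1_eq, Uq_eq, C2_eq, U2_eq, ← ENNReal.tsum_mul_left]
  refine ⟨ENNReal.tsum_le_tsum fun y => (hE D ω c m r y).2.2.1 lam hlam j hj,
    ENNReal.tsum_le_tsum fun y => ?_⟩
  rw [← mul_assoc]
  exact mul_le_mul' ((hE D ω c m r y).2.2.1 lam hlam j hj) le_rfl

theorem prt (hE : PEStmt) (hR : RQStmt) : PRStmt := by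
  intro D ω h0 c m r i r'
  have hq : ∀ lam y, Rq lam ω y i r' ≠ ∞ := fun lam y =>
    ne_top_of_le_ne_top ENNReal.one_ne_top ((hR D ω y i r').2.1 lam)
  have hC : ∀ lam, 0 ≤ lam → ∀ y, C1y lam ω c m r y ≠ ∞ := fun lam hl y =>
    ((hE D ω c m r y).2.2.2 h0).1 lam hl
  have eU : ∀ lam y, U1y lam ω m r y =
      SS {l | Piece m r l ∧ pos l = y} fun l => 1 * W lam ω 0 l := fun lam y =>
    SS_congr fun l _ => (one_mul _).symm
  have hU : ∀ lam y, U1y lam ω m r y ≠ ∞ := fun lam y =>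
    ne_top_of_le_ne_top ENNReal.one_ne_top
      (kraft lam ω ((PieceB.antich_piece m r).mono fun l hl => hl.1) 0)
  have a := rat_tsum (G := fun _ _ => 1) (fun _ _ => ENNReal.one_ne_top) hC fun y =>
    ((hE D ω c m r y).2.2.2 h0).2.1.congr fun x _ => by rw [mul_one]; rfl
  have b := rat_tsum hq hC fun y => rat_mul hR i r' ((hE D ω c m r y).2.2.2 h0).2.1
  have d := rat_tsum hq (fun lam _ y => eU lam y ▸ hU lam y) fun y => rat_mul hR i r'
    (((hE D ω c m r y).2.2.2 h0).2.2.congr fun x _ => by rw [eU])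
  simp only [mul_one] at a
  simp only [C1_eq, C2_eq, U2_eq, eU]
  exact ⟨a.1, a.2, b.2, d.2⟩

theorem pd (hR : RQStmt) : PDStmt := by
  intro D m r i r' lam
  refine ⟨fun ω ω' c c' hω hc => ?_, fun ω c => ?_⟩
  · have hω' := near_Box hω
    exact ⟨SS_congr fun l hl => by rw [nst_eq hc hl, PieceB.W_eq lam hω' hl],
      SS_congr fun l hl => by rw [nst_eq hc hl, PieceB.W_eq lam hω' hl, Rq_congr lam hω hl],
      SS_congr fun l hl => by rw [PieceB.W_eq lam hω' hl, Rq_congr lam hω hl],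
      fun j => ⟨goodC_congr hω' fun x hx s => (hc x hx s).2,
        goodC_congr (fun e he => (hω' e he).symm) fun x hx s => (hc x hx s).1⟩⟩
  · refine ⟨SS_mono le_rfl fun l _ => mul_le_of_le_one_right' ((hR D ω _ i r').2.1 lam),
      SS_mono le_rfl fun l _ => mul_le_of_le_one_right' ((hR D ω _ i r').2.1 lam), ?_,
      fun x hx s _ _ h => PieceB.esc_mono h ?_, goodC_allOpen m r c,
      fun j h x hx s h1 h2 h3 => PieceB.esc_mono (h x hx s h1 h2 h3) (by push_cast; omega),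
      fun h => SS_zero fun l hl => ?_⟩
    · rw [Uq, ← SS_mul_left]
      refine SS_mono le_rfl fun l hl => mul_le_mul_left ?_ _
      have := lev_le_length l
      rw [hl.2.1] at this
      rw [nst_true]
      exact_mod_cast this
    · have h1 := (mem_Box.mp hx).2.1
      have h2 := (vec_bounds s 0).2
      unfold expo
      push_cast
      omega
    · rw [(nst_eq_zero_iff c l 0).2 fun k hk => h _ (by rw [zero_add]; exact PieceB.loc_mem hl hk) _,
        Nat.cast_zero, zero_mul]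

end Pool.Agent.MP_8c549f_pr

/-!
Measurability of the objects of the second part, and the escape probability.
-/

set_option autoImplicit false

namespace Pool.Agent.MP_8c549f_pr

open MeasureTheory Filter Topology Real
open scoped ENNReal NNReal

variable {D : ℕ}

namespace MeasM

/-- chains of a given length -/
def Chn {α : Type} (r : α → α → Prop) (x : α) : ℕ → α → Prop
  | 0, y => y = x
  | n + 1, y => ∃ z, Chn r x n z ∧ r z y

theorem rtg_iff {α : Type} (r : α → α → Prop) (x y : α) :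
    Relation.ReflTransGen r x y ↔ ∃ n, Chn r x n y := by
  constructor
  · intro h
    induction h with
    | refl => exact ⟨0, rfl⟩
    | tail _ h ih =>
      obtain ⟨n, hn⟩ := ih
      exact ⟨n + 1, _, hn, h⟩
  · rintro ⟨n, hn⟩
    induction n generalizing y with
    | zero => exact hn ▸ Relation.ReflTransGen.refl
    | succ n ih =>
      obtain ⟨z, h1, h2⟩ := hn
      exact (ih z h1).tail h2

theorem meas_rtg {Ω α : Type} [MeasurableSpace Ω] [Countable α] {r : Ω → α → α → Prop}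
    (h : ∀ u v, Measurable fun ω => r ω u v) (x y : α) :
    Measurable fun ω => Relation.ReflTransGen (r ω) x y := by
  simp only [rtg_iff]
  refine Measurable.exists fun n => ?_
  induction n generalizing y with
  | zero => exact measurable_const
  | succ n ih => exact Measurable.exists fun z => (ih z).and (h z y)

theorem meas_finite {Ω α : Type} [MeasurableSpace Ω] [Countable α] {A : Ω → Set α}
    (h : ∀ y, Measurable fun ω => y ∈ A ω) : Measurable fun ω => (A ω).Finite := by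
  have e : ∀ ω, (A ω).Finite ↔ ∃ T : Finset α, ∀ y, y ∈ A ω → y ∈ T := fun ω =>
    ⟨fun hf => ⟨hf.toFinset, fun y hy => hf.mem_toFinset.2 hy⟩,
      fun ⟨T, hT⟩ => T.finite_toSet.subset hT⟩
  simp only [e]
  exact Measurable.exists fun T => Measurable.forall fun y => (h y).imp measurable_const

theorem meas_open (e : Edge D) : Measurable fun ω : Cfg D => ω e = true :=
  (measurable_of_countable fun b : Bool => b = true).comp (measurable_pi_apply e)

theorem meas_opn (u v : V D) : Measurable fun ω : Cfg D => Opn ω u v :=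
  Measurable.exists fun _ =>
    (measurable_const.and (meas_open _)).or (measurable_const.and (meas_open _))

theorem meas_up (i : ℤ) (x y : V D) : Measurable fun ω : Cfg D => y ∈ Up ω i x :=
  meas_rtg (r := fun ω u v => Opn ω u v ∧ i ≤ u 0 ∧ i ≤ v 0)
    (fun u v => (meas_opn u v).and measurable_const) x y

theorem meas_bush (u y : V D) : Measurable fun ω : Cfg D => y ∈ Bush ω u := meas_up _ _ _

theorem meas_root (u : V D) : Measurable fun ω : Cfg D => Root ω u :=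
  (meas_open _).and ((meas_finite (meas_bush u)).and (Measurable.forall fun z =>
    (meas_bush u z).imp (measurable_const.imp ((meas_open _).imp measurable_const))))

theorem meas_und (u : V D) : Measurable fun ω : Cfg D => Und ω u :=
  Measurable.exists fun u' => measurable_const.and ((meas_root u').and (meas_bush u' u))

theorem meas_inB (u x : V D) (s : Step D) : Measurable fun ω : Cfg D => InB ω u x s :=
  (meas_bush u x).or measurable_const

theorem meas_reg (x : V D) (s : Step D) : Measurable fun ω : Cfg D => Reg ω x s :=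
  (Measurable.exists fun u => measurable_const.and ((meas_root u).and (meas_inB u x s))).not

theorem meas_pih (g : ℤ → ℝ≥0∞) (u : V D) : Measurable fun ω : Cfg D => pih g ω u := by
  classical
  refine measurable_const.add (Measurable.tsum fun z => ?_)
  simp only [Set.indicator_apply]
  exact Measurable.ite (meas_bush u z).setOf (Finset.measurable_fun_sum _ fun s _ =>
    Measurable.ite (meas_open _).setOf measurable_const measurable_const) measurable_const

theorem meas_SSW (lam : ℝ) (x : V D) (A : Set (List (Step D))) :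
    Measurable fun ω : Cfg D => SS A (W lam ω x) := measurable_SS (measurable_W lam x)

theorem meas_qr (lam : ℝ) (x : V D) : Measurable fun ω : Cfg D => qr lam ω x :=
  Measurable.iInf fun _ => meas_SSW lam x _

theorem meas_Rq (lam : ℝ) (x : V D) (i r : ℕ) : Measurable fun ω : Cfg D => Rq lam ω x i r :=
  meas_SSW lam x _

theorem meas_Zq (lam : ℝ) (u : V D) : Measurable fun ω : Cfg D => Zq lam ω u :=
  Finset.measurable_fun_sum _ fun _ _ =>
    Measurable.ite (meas_open _).setOf measurable_const measurable_const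

theorem meas_nst {c : Cfg D → V D → Step D → Prop} (hc : ∀ x s, MeasurableSet {ω | c ω x s})
    (l : List (Step D)) : ∀ x : V D, Measurable fun ω => (nst (c ω) x l : ℝ≥0∞) := by
  induction l with
  | nil => intro x; exact measurable_const (a := ((0 : ℕ) : ℝ≥0∞))
  | cons s l ih =>
    intro x
    simp only [nst_cons, Nat.cast_add, Nat.cast_ite]
    exact (Measurable.ite (hc x s) measurable_const measurable_const).add (ih _)

theorem meas_CE (lam : ℝ) {c : Cfg D → V D → Step D → Prop}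
    (hc : ∀ x s, MeasurableSet {ω | c ω x s}) : Measurable fun ω => CE lam ω (c ω) :=
  measurable_SS fun l => ((meas_nst hc l 0).mul (measurable_W lam 0 l)).mul (meas_qr lam _)

theorem meas_esc (B : Finset (V D)) (x : V D) (t : ℤ) :
    Measurable fun ω : Cfg D => Esc ω B x t :=
  Measurable.exists fun _ => measurable_const.and (measurable_const.and
    (Measurable.forall fun _ => Measurable.forall fun _ =>
      measurable_const.and ((meas_open _).and measurable_const)))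

theorem meas_goodC {c : Cfg D → V D → Step D → Prop} (hc : ∀ x s, MeasurableSet {ω | c ω x s})
    (B : Finset (V D)) (j : ℕ) : Measurable fun ω => GoodC ω B (c ω) j :=
  Measurable.forall fun x => measurable_const.imp (Measurable.forall fun s =>
    (measurableSet_setOfPred.1 (hc x s)).imp ((meas_open _).imp
      ((meas_esc B _ _).imp (meas_esc B _ _))))

theorem antich_reach (n : ℕ) : Antich (ReachSet D n) :=
  (RecM.antich_rec (n : ℤ)).mono fun _ hl => ⟨hl.1, hl.2.1⟩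

theorem reach_init {n m : ℕ} (h : n ≤ m) {l : List (Step D)} (hl : l ∈ ReachSet D m) :
    ∃ u ∈ ReachSet D n, u <+: l := by
  obtain ⟨t, ht, h1, h2⟩ := exists_first_hit (H l) (fun i => (H_step l i).2) (c := n)
    (by simp) (n := l.length) (by rw [H_length, hl.2.1]; exact_mod_cast h)
  have e : (l.take t).length = t := by simp [ht]
  refine ⟨l.take t, ⟨fun i hi => ?_, by rw [lev_take, h1], fun i hi => ?_⟩, List.take_prefix _ _⟩
  · rw [e] at hi
    rw [H_take l hi.le, lev_take, h1]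
    exact h2 i hi
  · rw [e] at hi
    rw [H_take l hi]
    exact hl.2.2 i (hi.trans ht)

theorem reach_anti (lam : ℝ) (ω : Cfg D) (x : V D) :
    Antitone fun n => SS (ReachSet D n) (W lam ω x) := fun _ m h =>
  cover_q lam ω x (antich_reach m) fun _ hl _ => reach_init h hl

theorem qr_le_one (lam : ℝ) (ω : Cfg D) (x : V D) : qr lam ω x ≤ 1 :=
  (iInf_le _ 0).trans (kraft lam ω (antich_reach 0) x)

/-- the mean of the weight of `l` times the escape probability from its end -/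
theorem lint_W_qr {p : ℝ} (lam : ℝ) (h0 : 0 ≤ p) (h1 : p ≤ 1) (l : List (Step D)) :
    ∫⁻ ω, W lam (plus ω) 0 l * qr lam (plus ω) (pos l) ∂perc D p =
      ⨅ n : ℕ, SS (ReachSet D n) fun t => wb true p lam (l ++ t) := by
  have := perc_prob D h0 h1
  have e : ∀ ω : Cfg D, W lam (plus ω) 0 l * qr lam (plus ω) (pos l) =
      ⨅ n : ℕ, W lam (plus ω) 0 l * SS (ReachSet D n) (W lam (plus ω) (pos l)) := fun ω =>
    ENNReal.mul_iInf fun h => absurd h (W_ne_top _ _ _ _)
  simp only [e]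
  rw [lintegral_iInf]
  · refine iInf_congr fun n => ?_
    unfold wb
    rw [← lintegral_SS _ _ fun t => measurable_W_cfg true lam (l ++ t)]
    refine lintegral_congr fun ω => ?_
    simp only [cfg_true, W_append, zero_add, SS_mul_left]
  · exact fun n => (measurable_W_cfg true lam l).mul
      ((meas_SSW lam (pos l) _).comp measurable_plus)
  · exact fun n m h ω => mul_le_mul_right (reach_anti lam _ _ h) _
  · refine ne_top_of_le_ne_top ENNReal.one_ne_top ((lintegral_mono fun ω => ?_).trans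
      (lintegral_one.trans measure_univ).le)
    exact mul_le_one' (W_le_one _ _ _ _) (kraft lam _ (antich_reach 0) _)

theorem q1_eq {p : ℝ} (lam : ℝ) (h0 : 0 ≤ p) (h1 : p ≤ 1) :
    q1 D p lam = ⨅ n : ℕ, SS (ReachSet D n) (wb true p lam) := by
  have := lint_W_qr (D := D) lam h0 h1 []
  simpa [q1] using this

theorem block_qr {p : ℝ} (lam : ℝ) (h0 : 0 ≤ p) (h1 : p ≤ 1) {l : List (Step D)} (hl : Block l) :
    ∫⁻ ω, W lam (plus ω) 0 l * qr lam (plus ω) (pos l) ∂perc D p =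
      wb true p lam l * q1 D p lam := by
  rw [lint_W_qr lam h0 h1, q1_eq lam h0 h1, ENNReal.mul_iInf fun h =>
    absurd h (ne_top_of_le_ne_top ENNReal.one_ne_top (wb_le_one true h0 h1 lam l))]
  refine iInf_congr fun n => ?_
  rw [← SS_mul_left]
  exact SS_congr fun t ht => fa D p lam h0 h1 true l t hl.2.1 fun i hi => ht.2.2 i hi.le

theorem sum_block {p : ℝ} (lam : ℝ) (h0 : 0 ≤ p) (h1 : p ≤ 1) (k : List (Step D) → ℝ≥0∞) :
    SS {l | Block l} (fun l => k l * wb true p lam l) * q1 D p lam =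
      ∫⁻ ω, SS {l | Block l}
        (fun l => k l * W lam (plus ω) 0 l * qr lam (plus ω) (pos l)) ∂perc D p := by
  have hm : ∀ l : List (Step D),
      Measurable fun ω : Cfg D => W lam (plus ω) 0 l * qr lam (plus ω) (pos l) := fun l =>
    (measurable_W_cfg true lam l).mul ((meas_qr lam _).comp measurable_plus)
  simp only [mul_assoc]
  rw [lintegral_SS _ _ (f := fun ω l => k l * (W lam (plus ω) 0 l * qr lam (plus ω) (pos l)))
    fun l => (hm l).const_mul _, ← RecM.SS_mul_right]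
  refine SS_congr fun l hl => ?_
  rw [lintegral_const_mul _ (hm l), block_qr lam h0 h1 hl, mul_assoc]

theorem sum_Rq (lam : ℝ) (ω : Cfg D) (x : V D) :
    ∑' q : ℕ × ℕ, Rq lam ω x q.1 q.2 = ∑' i, SS (RetSet D i) (W lam ω x) := by
  rw [ENNReal.tsum_prod (f := fun i r => Rq lam ω x i r)]
  exact tsum_congr fun i => (SS_fiber _ ext _).symm

end MeasM

open MeasM

theorem meas : MEASStmt := by
  intro D lam
  refine ⟨fun i x y => (meas_up i x y).setOf,
    fun u => ⟨(meas_root u).setOf, (meas_und u).setOf⟩,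
    fun u x s => ⟨(meas_reg x s).setOf, (meas_inB u x s).setOf⟩, meas_pih,
    fun x i r => ⟨meas_qr lam x, meas_Rq lam x i r⟩, fun u => ⟨meas_Zq lam u, ?_⟩, ?_,
    fun m r i r' => ⟨meas_SSW lam 0 _, ?_⟩, fun c hc => ⟨meas_CE lam hc, fun m r i r' j =>
      ⟨?_, ?_, (meas_goodC hc _ j).setOf⟩⟩⟩
  · exact (measurable_const.div (meas_Zq lam u)).ennreal_ofReal.mul
      (meas_CE lam (c := fun _ x _ => x = u) fun _ _ => MeasurableSet.const _)
  · exact measurable_SS fun l =>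
      (measurable_const.mul (measurable_W lam 0 l)).mul (meas_qr lam _)
  · exact measurable_SS fun l => (measurable_W lam 0 l).mul (meas_Rq lam _ i r')
  · exact measurable_SS fun l => (meas_nst hc l 0).mul (measurable_W lam 0 l)
  · exact measurable_SS fun l =>
      ((meas_nst hc l 0).mul (measurable_W lam 0 l)).mul (meas_Rq lam _ i r')

theorem qrs (_hM : MEASStmt) : QRStmt := by
  intro D p lam h0 h1
  have := perc_prob D h0 h1
  refine ⟨?_, sum_block lam h0 h1 _, ?_, fun hN => ?_⟩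
  · rw [AA, sum_block lam h0 h1]
    simp only [AT, CE, nst_true]
  · exact (lintegral_mono fun ω => qr_le_one lam _ 0).trans (lintegral_one.trans measure_univ).le
  · have e : ∑' i, Ret D p lam i =
        ∫⁻ ω, ∑' i, SS (RetSet D i) (W lam (plus ω) 0) ∂perc D p := by
      rw [lintegral_tsum (f := fun i ω => SS (RetSet D i) (W lam (plus ω) 0)) fun i =>
        ((meas_SSW lam 0 _).comp measurable_plus).aemeasurable]
      exact tsum_congr fun i => SS_wb true p lam _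
    rw [e, q1, ← lintegral_add_left (f := fun ω => qr lam (plus ω) 0)
      ((meas_qr lam 0).comp measurable_plus)]
    refine (lintegral_one.trans measure_univ).ge.trans (lintegral_mono_ae ?_)
    filter_upwards [hN] with ω h
    rw [← sum_Rq]
    exact (h.1 0 (plus_bck ω)).ge

end Pool.Agent.MP_8c549f_pr

end MrgPart1

-- marker of a merged file
example : 731051 + 698344 = 731051 + 698344 := rfl
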