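import Pool.Agent.MP_8c549f_pr.Base2
import Pool.Agent.MP_8c549f_pr.B11
import Pool.Agent.MP_8c549f_pr.B4
import Pool.Agent.MP_8c549f_pr.B8
import Pool.Agent.MP_8c549f_pr.B12
import Pool.Agent.MP_8c549f_pr.B9

-- ======== part 0: formerly Pool.Agent.MP_8c549f_pr.B3
section MrgPart0

/-!
Cutting a filled bush at the first narrow level above a bad scale.
-/

set_option autoImplicit false

namespace Pool.Agent.MP_8c549f_pr

open Finset Relation

namespace CutM

variable {D : ℕ}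

/-- the sites of `S` at level `i` -/
def sl (S : Finset (V D)) (i : ℤ) : Finset (V D) := S.filter fun x => x 0 = i

/-- sites at level `i` with no site of `S` above them -/
def up (S : Finset (V D)) (i : ℤ) : Finset (V D) := (sl S i).filter fun x => x + e0 D ∉ S

/-- sites at level `i + 1` with no site of `S` below them -/
def dn (S : Finset (V D)) (i : ℤ) : Finset (V D) := (sl S (i + 1)).filter fun x => x - e0 D ∉ S

/-- lateral boundary edges at level `i` -/
noncomputable def lat (S : Finset (V D)) (i : ℤ) : Finset (Edge D) :=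
  (bdry (e0 D) S).filter fun e => e.2 ≠ 0 ∧ e.1 0 = i

theorem mem_sl {S : Finset (V D)} {i : ℤ} {x : V D} : x ∈ sl S i ↔ x ∈ S ∧ x 0 = i := mem_filter

theorem mem_shell {S : Finset (V D)} {f : Edge D} :
    f ∈ shell S ↔ ¬ (f.1 ∈ S ↔ f.1 + Pi.single f.2 1 ∈ S) := by
  unfold shell
  rw [mem_filter, mem_near']
  tauto

theorem bdl_eq (S : Finset (V D)) (i : ℤ) :
    bdl S i = ((shell S).filter fun f => f.1 0 = i).card := by
  unfold bdl shell
  rw [filter_filter]
  exact congrArg card (filter_congr fun f _ => and_comm)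

theorem shell_step {S : Finset (V D)} {f : Edge D} (h : f ∈ shell S) :
    ∃ x ∈ S, ∃ s, x + vec s ∉ S ∧ f = edge x s := by
  rw [mem_shell] at h
  by_cases a : f.1 ∈ S
  · exact ⟨f.1, a, (f.2, true), by simpa [a] using h, by simp⟩
  · exact ⟨f.1 + Pi.single f.2 1, by simpa [a] using h, (f.2, false), by simpa using a, by simp⟩

theorem bdry_sub (S : Finset (V D)) : bdry (e0 D) S ⊆ (shell S).erase (edge 0 (fwd D)) := by
  intro f hf
  obtain ⟨-, h1, h2⟩ := mem_filter.1 hf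
  refine mem_erase.2 ⟨fun k => ?_, mem_shell.2 h2⟩
  rw [k] at h1
  simp [fwd] at h1

/-- three disjoint families of boundary edges at the level `i` -/
theorem three_le (S : Finset (V D)) (i : ℤ) :
    (lat S i).card + (up S i).card + (dn S i).card ≤ bdl S i := by
  classical
  let A : Finset (Edge D) := (up S i).image fun x => (x, 0)
  let B : Finset (Edge D) := (dn S i).image fun x => (x - e0 D, 0)
  have hA : A.card = (up S i).card := card_image_of_injective _ fun x y h => (Prod.mk.inj h).1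
  have hB : B.card = (dn S i).card :=
    card_image_of_injective _ fun x y h => sub_left_injective (Prod.mk.inj h).1
  have mA : ∀ f ∈ A, f.2 = 0 ∧ f.1 ∈ S ∧ f.1 + e0 D ∉ S ∧ f.1 0 = i := fun f hf => by
    obtain ⟨x, hx, rfl⟩ := mem_image.1 hf
    obtain ⟨h1, h2⟩ := mem_filter.1 hx
    exact ⟨rfl, (mem_sl.1 h1).1, h2, (mem_sl.1 h1).2⟩
  have mB : ∀ f ∈ B, f.2 = 0 ∧ f.1 ∉ S ∧ f.1 + e0 D ∈ S ∧ f.1 0 = i := fun f hf => by
    obtain ⟨x, hx, rfl⟩ := mem_image.1 hf
    obtain ⟨h1, h2⟩ := mem_filter.1 hx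
    refine ⟨rfl, h2, by simpa using (mem_sl.1 h1).1, ?_⟩
    simp [(mem_sl.1 h1).2]
  have d1 : Disjoint (lat S i) A :=
    disjoint_left.2 fun f a b => (mem_filter.1 a).2.1 (mA f b).1
  have d2 : Disjoint (lat S i ∪ A) B := disjoint_left.2 fun f a b => by
    rcases mem_union.1 a with a | a
    exacts [(mem_filter.1 a).2.1 (mB f b).1, (mB f b).2.1 (mA f a).2.1]
  rw [← hA, ← hB, ← card_union_of_disjoint d1, ← card_union_of_disjoint d2, bdl_eq]
  refine card_le_card fun f hf => ?_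
  rw [mem_filter, mem_shell]
  rcases mem_union.1 hf with a | a
  · rcases mem_union.1 a with a | a
    · exact ⟨(mem_filter.1 (mem_filter.1 a).1).2.2, (mem_filter.1 a).2.2⟩
    · obtain ⟨h1, h2, h3, h4⟩ := mA f a
      rw [h1]
      exact ⟨fun k => h3 (k.1 h2), h4⟩
  · obtain ⟨h1, h2, h3, h4⟩ := mB f a
    rw [h1]
    exact ⟨fun k => h2 (k.2 h3), h4⟩

theorem sl_succ_le (S : Finset (V D)) (i : ℤ) :
    (sl S (i + 1)).card ≤ (sl S i).card + (dn S i).card := by
  classical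
  have : sl S (i + 1) ⊆ (sl S i).image (fun x => x + e0 D) ∪ dn S i := fun x hx => by
    by_cases a : x - e0 D ∈ S
    · refine mem_union_left _ (mem_image.2 ⟨x - e0 D, mem_sl.2 ⟨a, ?_⟩, by simp⟩)
      simp [(mem_sl.1 hx).2]
    · exact mem_union_right _ (mem_filter.2 ⟨hx, a⟩)
  exact (card_le_card this).trans ((card_union_le _ _).trans
    (Nat.add_le_add_right card_image_le _))

section shape

variable {S : Finset (V D)}

theorem lev_le (h : Shape (e0 D) S) {x : V D} (hx : x ∈ S) :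
    1 ≤ x 0 ∧ x 0 ≤ ht (e0 D) S := by
  have a := h.2.1 x hx
  have b := Iso.lt_ht (b := e0 D) hx
  simp only [e0_zero] at a b
  omega

theorem occ_iff (h : Shape (e0 D) S) {i : ℤ} : Occ S i ↔ 1 ≤ i ∧ i ≤ ht (e0 D) S := by
  constructor
  · rintro ⟨x, hx, rfl⟩
    exact lev_le h hx
  · rintro ⟨a, b⟩
    exact Iso.occupied h (by simpa using a) (by simp only [e0_zero]; omega)

theorem ht_pos (h : Shape (e0 D) S) : 1 ≤ ht (e0 D) S := by
  have := (lev_le h h.1).2
  simp only [e0_zero] at this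
  omega

theorem sl_pos (h : Shape (e0 D) S) {i : ℤ} (a : 1 ≤ i) (b : i ≤ ht (e0 D) S) :
    1 ≤ (sl S i).card := by
  obtain ⟨x, hx, k⟩ := (occ_iff h).2 ⟨a, b⟩
  exact card_pos.2 ⟨x, mem_sl.2 ⟨hx, k⟩⟩

theorem lat_ge (h : Shape (e0 D) S) {i : ℤ} (a : 1 ≤ i) (b : i ≤ ht (e0 D) S) :
    2 * D ≤ (lat S i).card :=
  iso0 D (e0 D) S i (by simpa using a) ((occ_iff h).2 ⟨a, b⟩)

theorem lat_ge2 (hI : ISO2Stmt) {i : ℤ} (a : 1 ≤ i) (b : 2 ≤ (sl S i).card) :
    4 * D ≤ (lat S i).card + 2 := by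
  obtain ⟨x, hx, y, hy, k⟩ := one_lt_card.1 b
  obtain ⟨x1, rfl⟩ := mem_sl.1 hx
  exact hI D (e0 D) S x y x1 (mem_sl.1 hy).1 k (mem_sl.1 hy).2.symm (by simpa using a)

theorem dn_zero (h : Shape (e0 D) S) : dn S 0 = sl S 1 := by
  unfold dn
  rw [zero_add]
  refine filter_true_of_mem fun x hx k => ?_
  have := (lev_le h k).1
  simp [(mem_sl.1 hx).2] at this

theorem up_top (h : Shape (e0 D) S) : up S (ht (e0 D) S) = sl S (ht (e0 D) S) := by
  refine filter_true_of_mem fun x hx k => ?_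
  have := (lev_le h k).2
  simp [(mem_sl.1 hx).2] at this

theorem exc_zero (h : Shape (e0 D) S) : exc S 0 + 1 = bdl S 0 ∧ (sl S 1).card ≤ exc S 0 + 1 := by
  have a := three_le S 0
  have b := sl_pos h le_rfl (by exact_mod_cast ht_pos h)
  have c : ¬ Occ S 0 := fun k => by simpa using ((occ_iff h).1 k).1
  rw [dn_zero h] at a
  unfold exc
  simp only [c, if_false, false_and, if_true]
  omega

theorem exc_mid (h : Shape (e0 D) S) {i : ℤ} (a : 1 ≤ i) (b : i < ht (e0 D) S) :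
    exc S i + 2 * D = bdl S i := by
  have c := three_le S i
  have d := lat_ge h a b.le
  have o1 : Occ S i := (occ_iff h).2 ⟨a, b.le⟩
  have o2 : Occ S (i + 1) := (occ_iff h).2 ⟨by omega, by omega⟩
  have o3 : i ≠ 0 := by omega
  unfold exc
  simp only [o1, o2, o3, if_true, not_true, and_false, if_false]
  omega

theorem exc_top (h : Shape (e0 D) S) :
    exc S (ht (e0 D) S) + 2 * D + 1 = bdl S (ht (e0 D) S) := by
  have p : (1 : ℤ) ≤ ht (e0 D) S := by exact_mod_cast ht_pos h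
  have c := three_le S (ht (e0 D) S)
  have d := lat_ge h p le_rfl
  have b := sl_pos h p le_rfl
  have o1 : Occ S (ht (e0 D) S) := (occ_iff h).2 ⟨p, le_rfl⟩
  have o2 : ¬ Occ S (ht (e0 D) S + 1) := fun k => by simpa using ((occ_iff h).1 k).2
  have o3 : (ht (e0 D) S : ℤ) ≠ 0 := by omega
  rw [up_top h] at c
  unfold exc
  simp only [o1, o2, o3, if_true, not_false_iff, and_true, if_false]
  omega

theorem shell_lev (h : Shape (e0 D) S) {f : Edge D} (hf : f ∈ shell S) :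
    0 ≤ f.1 0 ∧ f.1 0 ≤ ht (e0 D) S := by
  obtain ⟨x, hx, s, -, rfl⟩ := shell_step hf
  have a := lev_le h hx
  have b := vec_bounds s 0
  rw [edge_lev]
  simp only [Pi.add_apply]
  omega

theorem exc_high (h : Shape (e0 D) S) {i : ℤ} (b : ht (e0 D) S < i) : exc S i = 0 := by
  have : bdl S i = 0 := by
    rw [bdl_eq, card_eq_zero]
    exact filter_false_of_mem fun f hf k => by have := (shell_lev h hf).2; omega
  unfold exc
  omega

theorem ks_succ (k : ℤ → ℕ) (n : ℕ) : ks k 0 (n + 1) = ks k 0 n + k n := by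
  simp [ks, sum_range_succ]

theorem ks_le (k : ℤ → ℕ) {n m : ℕ} (h : n ≤ m) : ks k 0 n ≤ ks k 0 m :=
  ks_mono k le_rfl (by omega)

theorem ks_high (h : Shape (e0 D) S) (n : ℕ) :
    ks (exc S) 0 n ≤ ks (exc S) 0 (min n (ht (e0 D) S + 1)) := by
  induction n with
  | zero => simp
  | succ n ih =>
    by_cases a : n ≤ ht (e0 D) S
    · rw [min_eq_left (by omega)]
    · rw [ks_succ, exc_high h (by omega), min_eq_right (by omega)]
      rwa [min_eq_right (by omega)] at ih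

theorem sum_bdl (h : Shape (e0 D) S) (n : ℕ) (hn : n + 1 ≤ ht (e0 D) S) :
    ∑ i ∈ range (n + 1), bdl S i = 2 * D * n + ks (exc S) 0 (n + 1) + 1 := by
  induction n with
  | zero => simp [ks, ← (exc_zero h).1]
  | succ n ih =>
    rw [sum_range_succ, ih (by omega), ks_succ _ (n + 1),
      ← exc_mid h (i := ((n + 1 : ℕ) : ℤ)) (by omega) (by omega)]
    ring

/-- the size of the whole edge boundary -/
theorem card_shell (h : Shape (e0 D) S) : (shell S).card =
    2 * D * ht (e0 D) S + ks (exc S) 0 (ht (e0 D) S + 1) + 2 := by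
  have a : (shell S).card = ∑ i ∈ range (ht (e0 D) S + 1), bdl S i := by
    rw [card_eq_sum_card_fiberwise (f := fun f : Edge D => (f.1 0).toNat)
      (t := range (ht (e0 D) S + 1)) fun f hf => by
        have := shell_lev h hf
        simp only [coe_range, Set.mem_Iio]
        omega]
    refine sum_congr rfl fun i _ => ?_
    rw [bdl_eq]
    exact congrArg card (filter_congr fun f hf => by have := shell_lev h hf; omega)
  obtain ⟨n, hn⟩ : ∃ n, ht (e0 D) S = n + 1 := ⟨ht (e0 D) S - 1, by have := ht_pos h; omega⟩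
  have b := exc_top h
  rw [a, sum_range_succ, ← b, ks_succ, hn, sum_bdl h n hn.ge]
  ring

theorem sl_le (h : Shape (e0 D) S) (n : ℕ) (hn : n + 1 ≤ ht (e0 D) S) :
    (sl S ((n : ℤ) + 1)).card ≤ ks (exc S) 0 (n + 1) + 1 := by
  induction n with
  | zero => simpa [ks] using (exc_zero h).2
  | succ n ih =>
    have a := ih (by omega)
    have b := sl_succ_le S ((n : ℤ) + 1)
    have c := three_le S ((n : ℤ) + 1)
    have d := lat_ge h (i := (n : ℤ) + 1) (by omega) (by omega)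
    have e := exc_mid h (i := (n : ℤ) + 1) (by omega) (by omega)
    rw [ks_succ]
    push_cast
    omega

theorem card_le (h : Shape (e0 D) S) :
    S.card ≤ ht (e0 D) S * (ks (exc S) 0 (ht (e0 D) S + 1) + 1) := by
  rw [card_eq_sum_card_fiberwise (f := fun x : V D => (x 0 - 1).toNat)
    (t := range (ht (e0 D) S)) fun x hx => by
      have := lev_le h hx
      simp only [coe_range, Set.mem_Iio]
      omega]
  refine (sum_le_card_nsmul _ _ (ks (exc S) 0 (ht (e0 D) S + 1) + 1) fun n hn => ?_).trans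
    (by simp)
  have a := mem_range.1 hn
  have b := ks_le (exc S) (show n + 1 ≤ ht (e0 D) S + 1 by omega)
  refine le_trans (card_le_card fun x hx => ?_) ((sl_le h n a).trans (by omega))
  obtain ⟨x1, x2⟩ := mem_filter.1 hx
  have := lev_le h x1
  exact mem_sl.2 ⟨x1, by omega⟩

/-- a level that is not narrow has positive excess -/
theorem exc_pos (hI : ISO2Stmt) (hD : 2 ≤ D) (h : Shape (e0 D) S) {i : ℤ} (a : 1 ≤ i)
    (b : i < ht (e0 D) S) (hn : ¬ ((sl S i).card = 1 ∧ (sl S (i + 1)).card = 1)) :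
    1 ≤ exc S i := by
  have c := three_le S i
  have d := lat_ge h a b.le
  have e := exc_mid h a b
  have f := sl_succ_le S i
  have g1 := sl_pos h a b.le
  have g2 := sl_pos h (i := i + 1) (by omega) (by omega)
  by_cases k : 2 ≤ (sl S i).card
  · have := lat_ge2 hI a k
    omega
  · omega

theorem exc_two (hI : ISO2Stmt) (h : Shape (e0 D) S) (k : 2 ≤ (sl S (ht (e0 D) S)).card) :
    2 * D ≤ exc S (ht (e0 D) S) + 1 := by
  have c := three_le S (ht (e0 D) S)
  have d := lat_ge2 hI (by exact_mod_cast ht_pos h) k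
  have e := exc_top h
  rw [up_top h] at c
  omega

theorem gap_le (k : ℤ → ℕ) (a : ℕ) : ∀ n, a ≤ n → (∀ i : ℕ, a ≤ i → i < n → 1 ≤ k i) →
    n + ks k 0 a ≤ a + ks k 0 n := by
  intro n hn
  induction n, hn using Nat.le_induction with
  | base => simp
  | succ n hn ih =>
    intro h
    have := ih fun i b c => h i b (by omega)
    have := h n hn (by omega)
    rw [ks_succ]
    omega

/-! ### the part below a narrow level -/

/-- the sites of `S` up to the level `n` -/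
def below (S : Finset (V D)) (n : ℕ) : Finset (V D) := S.filter fun x => x 0 ≤ n

theorem mem_low {n : ℕ} {x : V D} : x ∈ below S n ↔ x ∈ S ∧ x 0 ≤ n := mem_filter

theorem climb (h : Shape (e0 D) S) (n : ℕ) (k : ℕ) : ∀ x : V D, x ∉ below S n →
    (ht (e0 D) S : ℤ) < x 0 + k →
      ∃ y, y ∉ S ∧ ReflTransGen (fun u v => Adj u v ∧ u ∉ below S n ∧ v ∉ below S n) x y := by
  induction k with
  | zero =>
    intro x _ a
    exact ⟨x, fun b => by have := (lev_le h b).2; omega, ReflTransGen.refl⟩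
  | succ k ih =>
    intro x hx a
    by_cases b : x ∈ S
    · have c : x + vec (fwd D) ∉ below S n := fun c => hx (mem_low.2 ⟨b, by
        have := (mem_low.1 c).2
        simp only [Pi.add_apply, vec_fwd_zero] at this
        omega⟩)
      obtain ⟨y, y1, y2⟩ := ih _ c (by simp only [Pi.add_apply, vec_fwd_zero]; omega)
      exact ⟨y, y1, y2.head ⟨⟨_, rfl⟩, hx, c⟩⟩
    · exact ⟨x, b, ReflTransGen.refl⟩

theorem shape_low (h : Shape (e0 D) S) {n : ℕ} (hn : 1 ≤ n) {u : V D}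
    (hu : ∀ x ∈ S, x 0 = n → x = u) : Shape (e0 D) (below S n) := by
  have he : e0 D ∈ below S n := mem_low.2 ⟨h.1, by simpa using hn⟩
  refine ⟨he, fun x hx => h.2.1 x (mem_low.1 hx).1, fun x hx => ?_, fun x hx y hy => ?_⟩
  · have key : ∀ z, ReflTransGen (fun a b => Adj a b ∧ b ∈ S) (e0 D) z → z ∈ S →
        (z 0 ≤ n → ReflTransGen (fun a b => Adj a b ∧ b ∈ below S n) (e0 D) z) ∧
        (n ≤ z 0 → ReflTransGen (fun a b => Adj a b ∧ b ∈ below S n) (e0 D) u) := by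
      intro z hz
      induction hz with
      | refl =>
        refine fun _ => ⟨fun _ => ReflTransGen.refl, fun a => ?_⟩
        rw [← hu _ h.1 (le_antisymm (mem_low.1 he).2 a)]
      | @tail a b hab hb ih =>
        intro hb'
        have ha : a ∈ S := by
          rcases hab.cases_tail with k | ⟨_, -, k⟩
          exacts [k ▸ h.1, k.2]
        obtain ⟨i1, i2⟩ := ih ha
        obtain ⟨⟨s, rfl⟩, -⟩ := hb
        have v := vec_bounds s 0
        have first : (a + vec s) 0 ≤ n →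
            ReflTransGen (fun a b => Adj a b ∧ b ∈ below S n) (e0 D) (a + vec s) := fun c => by
          by_cases d : a 0 ≤ n
          · exact (i1 d).tail ⟨⟨s, rfl⟩, mem_low.2 ⟨hb', c⟩⟩
          · rw [hu _ hb' (by simp only [Pi.add_apply] at c ⊢; omega)]
            exact i2 (by omega)
        refine ⟨first, fun c => ?_⟩
        by_cases d : (n : ℤ) ≤ a 0
        · exact i2 d
        · have e : (a + vec s) 0 = n := by simp only [Pi.add_apply] at c ⊢; omega
          rw [← hu _ hb' e]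
          exact first e.le
    exact (key x (h.2.2.1 x (mem_low.1 hx).1) (mem_low.1 hx).1).1 (mem_low.1 hx).2
  · obtain ⟨x', x1, x2⟩ := climb h n ((ht (e0 D) S : ℤ) - x 0 + 1).toNat x hx (by omega)
    obtain ⟨y', y1, y2⟩ := climb h n ((ht (e0 D) S : ℤ) - y 0 + 1).toNat y hy (by omega)
    have m := Geo.rmono (r' := fun a b => Adj a b ∧ b ∉ below S n) (h.2.2.2 x' x1 y' y1)
      fun a b k => ⟨k.1, fun c => k.2 (mem_low.1 c).1⟩
    have y3 := Geo.rsymm y2 fun a b k => ⟨k.1.symm, k.2.2, k.2.1⟩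
    exact ((Geo.rmono x2 fun a b k => ⟨k.1, k.2.2⟩).trans m).trans
      (Geo.rmono y3 fun a b k => ⟨k.1, k.2.2⟩)

theorem ht_low {n : ℕ} (h : Shape (e0 D) (below S n)) {u : V D} (hu : u ∈ S) (hu' : u 0 = n) :
    ht (e0 D) (below S n) = n := by
  have a := (lev_le h (mem_low.2 ⟨hu, hu'.le⟩)).2
  obtain ⟨x, hx, k⟩ := Iso.exists_top h
  have := (mem_low.1 hx).2
  simp only [e0_zero] at k
  omega

theorem exc_low {n : ℕ} {i : ℤ} (hi : i < n) : exc (below S n) i = exc S i := by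
  have o : ∀ j : ℤ, j ≤ n → (Occ (below S n) j ↔ Occ S j) := fun j hj =>
    ⟨fun ⟨x, a, b⟩ => ⟨x, (mem_low.1 a).1, b⟩, fun ⟨x, a, b⟩ => ⟨x, mem_low.2 ⟨a, by omega⟩, b⟩⟩
  have b : bdl (below S n) i = bdl S i := by
    rw [bdl_eq, bdl_eq]
    refine congrArg card ?_
    ext f
    rw [mem_filter, mem_filter, mem_shell, mem_shell]
    refine and_congr_left fun k => ?_
    have v := (vec_bounds ((f.2, true) : Step D) 0).2
    rw [vec_true] at v
    have c : (f.1 + Pi.single f.2 1 : V D) 0 ≤ n := by simp only [Pi.add_apply]; omega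
    rw [mem_low, mem_low, and_iff_left c, and_iff_left (by omega)]
  unfold exc
  rw [b, o i hi.le, o (i + 1) (by omega)]

theorem ks_low (n : ℕ) : ks (exc S) 0 n ≤ ks (exc (below S n)) 0 (n + 1) := by
  refine le_trans (le_of_eq (sum_congr rfl fun i hi => ?_)) (ks_le _ (Nat.le_succ n))
  exact (exc_low (by have := mem_range.1 hi; omega)).symm

end shape

/-! ### the configuration -/

section root

variable {ω : Cfg D} {S : Finset (V D)}

theorem closed_of (h : RootS ω 0 S) {x : V D} {s : Step D} (hx : x ∈ S) (hs : x + vec s ∉ S)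
    (hf : edge x s ≠ edge 0 (fwd D)) : ω (edge x s) = false := by
  by_contra k
  obtain ⟨rfl, rfl⟩ := h.1.exit (h.2.2.2 x hx s hs) (by simpa using k) fun c => hs (h.2.2.1 c)
  exact hf (edge_fwd_eq 0)

theorem root_narrow (hD : 2 ≤ D) (h : RootS ω 0 S) {n : ℕ} (hn : 1 ≤ n) {u w : V D}
    (hu : ∀ x ∈ S, x 0 = n → x = u) (hw : w ∈ S) (hw0 : w 0 = n + 1)
    (hw' : ∀ x ∈ S, x 0 = n + 1 → x = w) :
    Root ω u ∧ Bush ω 0 ⊆ (below S n : Set (V D)) ∪ Bush ω u ∧ Bush ω u ⊆ Bush ω 0 := by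
  have step : ∀ y ∈ Bush ω 0, ∀ s, ω (edge y s) = true → (0 : V D) 0 + 1 ≤ (y + vec s) 0 →
      y + vec s ∈ Bush ω 0 := fun y hy s a b => Up_step (by simp) hy a b
  have wB : w ∈ Bush ω 0 := by
    refine h.2.2.2 w hw ((⟨0, by omega⟩ : Fin D).succ, true) fun k => ?_
    have := hw' _ k (by simp only [Pi.add_apply, vec_side_zero]; omega)
    exact vec_ne_zero _ (add_eq_left.1 this)
  obtain ⟨y, y0, s, y1, y2, y3, y4⟩ : ∃ y : V D, y 0 ≤ n ∧ ∃ s, y ∈ Bush ω 0 ∧
      ω (edge y s) = true ∧ y + vec s ∈ Bush ω 0 ∧ ¬ (y + vec s) 0 ≤ n := by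
    by_contra k
    push Not at k
    have : Bush ω 0 ⊆ {z | z 0 ≤ n} := Up_subset (by simpa using hn)
      fun y hy s a b _ d => k y hy s a b (step y a s b d)
    have := this wB
    simp only [Set.mem_ofPred_eq] at this
    omega
  have v := vec_bounds s 0
  simp only [Pi.add_apply] at y4
  have s1 : s = fwd D := vec_zero_eq_one.1 (by omega)
  subst s1
  have yu : y = u := hu y (h.2.2.1 y1) (by omega)
  subst yu
  have yl : y 0 = n := by omega
  rw [vec_fwd_e0] at y3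
  have yw : y + e0 D = w := hw' _ (h.2.2.1 y3) (by simp [yl])
  have sub : Bush ω y ⊆ Bush ω 0 := Up_subset y3 fun z hz s _ b _ d =>
    step z hz s b (by simp only [Pi.zero_apply]; omega)
  refine ⟨⟨y2, h.1.2.1.subset sub, fun z hz a _ => ?_⟩, ?_, sub⟩
  · rw [yw]
    exact hw' z (h.2.2.1 (sub hz)) (by omega)
  · refine Up_subset (Or.inl (mem_coe.2 (mem_low.2 ⟨h.2.1.1, by simpa using hn⟩)))
      fun z hz s a b _ d => ?_
    have m : z + vec s ∈ S := h.2.2.1 (step z a s b d)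
    by_cases c : (z + vec s) 0 ≤ n
    · exact Or.inl (mem_coe.2 (mem_low.2 ⟨m, c⟩))
    · refine Or.inr ?_
      rcases hz with hz | hz
      · have z0 := (mem_low.1 (mem_coe.1 hz)).2
        have v := vec_bounds s 0
        rw [hw' _ m (by simp only [Pi.add_apply] at c ⊢; omega), ← yw]
        exact self_mem_Up _ _ _
      · exact Up_step (by simp) hz b (by omega)

end root

end CutM

open CutM

theorem cuts (hI : ISO2Stmt) : CUTStmt := by
  intro D hD Q ν hQ ω S h hν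
  have hS : Shape (e0 D) S := by simpa using h.2.1
  obtain ⟨n₀, hn₀⟩ : ∃ n₀, n₀ + Q * ν < Q * ks (exc S) 0 n₀ := by
    unfold NuLe at hν
    push Not at hν
    exact hν
  obtain ⟨a, ha1, ha2⟩ : ∃ a, a ≤ ht (e0 D) S + 1 ∧ a + Q * ν < Q * ks (exc S) 0 a := by
    refine ⟨min n₀ (ht (e0 D) S + 1), min_le_right _ _, ?_⟩
    have := Nat.mul_le_mul_left Q (ks_high hS n₀)
    omega
  have ha3 : ν + 1 ≤ ks (exc S) 0 a := Nat.lt_of_mul_lt_mul_left (a := Q) (by omega)
  have ha4 : 1 ≤ a := by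
    rcases Nat.eq_zero_or_pos a with rfl | k
    · simp [ks] at ha3
    · exact k
  have bound : ∀ n e : ℕ, ks (exc S) 0 a ≤ e → n ≤ a + e → n ≤ (Q + 2) * e := fun n e b c => by
    have := Nat.mul_le_mul_left Q b
    nlinarith
  have gen : ∀ T : Finset (V D), Shape (e0 D) T →
      (bdry (e0 D) T).card ≤ 2 * D * ht (e0 D) T + ks (exc T) 0 (ht (e0 D) T + 1) + 1 := by
    intro T hT
    have b := card_le_card (bdry_sub T)
    have m : edge 0 (fwd D) ∈ shell T := mem_shell.2 fun k => by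
      have := (lev_le hT (k.2 (by simpa [fwd, e0] using hT.1))).1
      simp [fwd] at this
    rw [card_erase_of_mem m, card_shell hT] at b
    omega
  by_cases hc : ∃ n : ℕ, a ≤ n ∧ n < ht (e0 D) S ∧ (sl S n).card = 1 ∧ (sl S (n + 1)).card = 1
  · classical
    obtain ⟨n, ⟨c1, c2, c3, c4⟩, hmin⟩ : ∃ n : ℕ, (a ≤ n ∧ n < ht (e0 D) S ∧
        (sl S n).card = 1 ∧ (sl S (n + 1)).card = 1) ∧ ∀ i : ℕ, i < n → ¬ (a ≤ i ∧
          i < ht (e0 D) S ∧ (sl S i).card = 1 ∧ (sl S (i + 1)).card = 1) :=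
      ⟨Nat.find hc, Nat.find_spec hc, fun i hi => Nat.find_min hc hi⟩
    obtain ⟨u, hu⟩ := card_eq_one.1 c3
    obtain ⟨w, hw⟩ := card_eq_one.1 c4
    have u1 := mem_sl.1 (hu ▸ mem_singleton_self u : u ∈ sl S n)
    have w1 := mem_sl.1 (hw ▸ mem_singleton_self w : w ∈ sl S (n + 1))
    have u2 : ∀ x ∈ S, x 0 = n → x = u := fun x b c => mem_singleton.1 (hu ▸ mem_sl.2 ⟨b, c⟩)
    have w2 : ∀ x ∈ S, x 0 = n + 1 → x = w := fun x b c => mem_singleton.1 (hw ▸ mem_sl.2 ⟨b, c⟩)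
    have hn : 1 ≤ n := by omega
    have hT := shape_low hS hn u2
    have hh := ht_low hT u1.1 u1.2
    obtain ⟨r1, r2, r3⟩ := root_narrow hD h hn u2 w1.1 w1.2 w2
    have g1 := gap_le (exc S) a n c1 fun i b c =>
      exc_pos hI hD hS (by omega) (by omega) fun k => hmin i c ⟨b, by omega, k⟩
    have g2 := ks_low (S := S) n
    have g3 := ks_le (exc S) c1
    have g4 := card_le hT
    have g5 := gen _ hT
    have g6 := card_shell hT
    rw [hh] at g4 g5 g6
    refine ⟨below S n, n, ks (exc (below S n)) 0 (n + 1), hT, by omega, hn,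
      bound _ _ (by omega) (by omega), fun x hx => (mem_low.1 hx).2, g4, g5, Or.inl
      ⟨u, mem_low.2 ⟨u1.1, u1.2.le⟩, u1.2, r1, r2, r3, fun x hx => u2 x (mem_low.1 hx).1,
        fun f hf => ?_, ?_⟩⟩
    · obtain ⟨f1, f2⟩ := mem_erase.1 hf
      obtain ⟨f2, f3⟩ := mem_erase.1 f2
      obtain ⟨x, hx, s, hs, rfl⟩ := shell_step f3
      obtain ⟨x1, x2⟩ := mem_low.1 hx
      refine closed_of h x1 (fun k => f1 ?_) f2
      have b : ¬ (x + vec s) 0 ≤ n := fun c => hs (mem_low.2 ⟨k, c⟩)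
      have v := vec_bounds s 0
      simp only [Pi.add_apply] at b
      rw [u2 x x1 (by omega), vec_zero_eq_one.1 (show vec s 0 = 1 by omega)]
    · have b1 := pred_card_le_card_erase (s := shell (below S n)) (a := edge 0 (fwd D))
      have b2 := pred_card_le_card_erase (s := (shell (below S n)).erase (edge 0 (fwd D)))
        (a := edge u (fwd D))
      omega
  · have g0 := ht_pos hS
    have g3 := ks_le (exc S) ha1
    have g1 : ht (e0 D) S ≤ a + ks (exc S) 0 (ht (e0 D) S + 1) := by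
      by_cases c : a ≤ ht (e0 D) S
      · have := gap_le (exc S) a _ c fun i b c =>
          exc_pos hI hD hS (by omega) (by omega) fun k => hc ⟨i, b, c, k⟩
        have := ks_le (exc S) (Nat.le_add_right (ht (e0 D) S) 1)
        omega
      · omega
    have g6 := card_shell hS
    refine ⟨S, ht (e0 D) S, ks (exc S) 0 (ht (e0 D) S + 1), hS, by omega, g0, bound _ _ g3 g1,
      fun x hx => (lev_le hS hx).2, card_le hS, gen S hS, Or.inr ⟨h.2.2.1, fun f hf => ?_, ?_, ?_⟩⟩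
    · obtain ⟨f2, f3⟩ := mem_erase.1 hf
      obtain ⟨x, hx, s, hs, rfl⟩ := shell_step f3
      exact closed_of h hx hs f2
    · have b1 := pred_card_le_card_erase (s := shell S) (a := edge 0 (fwd D))
      omega
    · by_cases c : 2 ≤ (sl S (ht (e0 D) S)).card
      · have := exc_two hI hS c
        rw [ks_succ]
        exact Or.inr (by omega)
      · exact Or.inl fun x hx y hy b d =>
          card_le_one.1 (by omega) x (mem_sl.2 ⟨hx, b⟩) y (mem_sl.2 ⟨hy, d⟩)

end Pool.Agent.MP_8c549f_pr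

/-!
The profile of a shape.
-/

set_option autoImplicit false

namespace Pool.Agent.MP_8c549f_pr

open Finset

namespace ProfM

variable {D : ℕ}

/-- the edges counted by `bdl` -/
noncomputable def bs (S : Finset (V D)) (i : ℤ) : Finset (Edge D) :=
  (near S).filter fun e => e.1 0 = i ∧ ¬ (e.1 ∈ S ↔ e.1 + Pi.single e.2 1 ∈ S)

theorem bdl_eq (S : Finset (V D)) (i : ℤ) : bdl S i = (bs S i).card := rfl

theorem mem_bs {S : Finset (V D)} {i : ℤ} {e : Edge D} :
    e ∈ bs S i ↔ e.1 0 = i ∧ ¬ (e.1 ∈ S ↔ e.1 + Pi.single e.2 1 ∈ S) := by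
  rw [bs, mem_filter, mem_near']
  tauto

theorem e0_zero : e0 D 0 = 1 := by simp [e0]

theorem bdl_split (S : Finset (V D)) (i : ℤ) :
    ((bs S i).filter fun e => e.2 = 0).card + ((bs S i).filter fun e => ¬ e.2 = 0).card =
      bdl S i := card_filter_add_card_filter_not _

theorem lat_le (b : V D) (S : Finset (V D)) (i : ℤ) :
    ((bdry b S).filter fun e => e.2 ≠ 0 ∧ e.1 0 = i).card ≤
      ((bs S i).filter fun e => ¬ e.2 = 0).card :=
  card_le_card fun e he => by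
    obtain ⟨h1, h2, h3⟩ := mem_filter.1 he
    exact mem_filter.2 ⟨mem_bs.2 ⟨h3, (mem_filter.1 h1).2.2⟩, h2⟩

theorem bdl_tr (u : V D) (S : Finset (V D)) (i : ℤ) : bdl (tr u S) i ≤ bdl S (i - u 0) := by
  rw [bdl_eq, bdl_eq]
  refine card_le_card_of_injOn (fun e => (e.1 - u, e.2)) (fun e he => ?_) fun e _ e' _ h => ?_
  · obtain ⟨h1, h2⟩ := mem_bs.1 (mem_coe.1 he)
    rw [mem_tr, mem_tr, add_sub_right_comm] at h2
    exact mem_coe.2 (mem_bs.2 ⟨by simp [h1], h2⟩)
  · simp only [Prod.mk.injEq, sub_left_inj] at h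
    exact Prod.ext h.1 h.2

theorem exc_le (S : Finset (V D)) (i : ℤ) : exc S i ≤ bdl S i := by
  unfold exc
  omega

theorem ks_le (S : Finset (V D)) (n : ℕ) : ks (exc S) 0 n ≤ (near S).card := by
  have h := sum_card_fiberwise_eq_card_filter (near S) (range n) fun e : Edge D => (e.1 0).toNat
  refine le_trans (sum_le_sum fun i _ => (exc_le S _).trans (card_le_card fun e he => ?_))
    (h.le.trans (card_filter_le _ _))
  obtain ⟨h1, h2, -⟩ := mem_filter.1 he
  exact mem_filter.2 ⟨h1, by omega⟩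

variable {S : Finset (V D)}

theorem one_le (h : Shape (e0 D) S) {x : V D} (hx : x ∈ S) : 1 ≤ x 0 :=
  e0_zero (D := D) ▸ h.2.1 x hx

theorem not_occ (h : Shape (e0 D) S) {i : ℤ} (hi : i ≤ 0) : ¬ Occ S i := by
  rintro ⟨x, hx, k⟩
  have := one_le h hx
  omega

theorem exc_neg (h : Shape (e0 D) S) {i : ℤ} (hi : i < 0) : exc S i = 0 := by
  refine Nat.le_zero.1 ((exc_le S i).trans (le_of_eq ?_))
  rw [bdl_eq, card_eq_zero, eq_empty_iff_forall_notMem]
  intro e he
  obtain ⟨h1, h2⟩ := mem_bs.1 he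
  refine h2 ⟨fun k => ?_, fun k => ?_⟩
  · have := one_le h k
    omega
  · have h3 := one_le h k
    have h4 := (vec_bounds ((e.2, true) : Step D) 0).2
    rw [vec_true] at h4
    simp only [Pi.add_apply] at h3
    omega

theorem bdl_le (h : Shape (e0 D) S) (i : ℤ) : bdl S i ≤ 2 * D + 1 + exc S i := by
  unfold exc
  by_cases c : i = 0
  · have := not_occ h c.le
    simp only [this, false_and, if_false, if_pos c]
    omega
  · simp only [if_neg c]
    split_ifs <;> omega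

theorem exc_pos (hI : ISO2Stmt) (hD : 2 ≤ D) (h : Shape (e0 D) S) {x y : V D} (hx : x ∈ S)
    (hy : y ∈ S) (hxy : x ≠ y) (h0 : x 0 = y 0) : exc S (x 0) ≠ 0 := by
  have h1 := hI D x S x y hx hy hxy h0 le_rfl
  have h2 := lat_le x S (x 0)
  have h3 := bdl_split S (x 0)
  have h4 := bdl_le h (x 0)
  omega

theorem vert_le (u : V D) {F : Finset (V D)} {i : ℤ}
    (hF : ∀ x ∈ F, x - u + e0 D ∈ S ∧ x - u ∉ S ∧ x 0 = i) :
    F.card ≤ ((bs S (i - u 0)).filter fun e => e.2 = 0).card := by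
  refine card_le_card_of_injOn (fun x => (x - u, 0)) (fun x hx => ?_) fun x _ y _ k => ?_
  · obtain ⟨h1, h2, h3⟩ := hF x (mem_coe.1 hx)
    exact mem_coe.2 (mem_filter.2 ⟨mem_bs.2 ⟨by simp [h3], fun k => h2 (k.2 h1)⟩, rfl⟩)
  · simpa using k

theorem foot_le (h : Shape (e0 D) S) (u : V D) (i : ℤ) :
    (((tr u S).image fun y => y - e0 D).filter fun x => x ∉ tr u S ∧ x 0 = i ∧ x ≠ u).card ≤
      exc S (i - u 0) := by
  set F := ((tr u S).image fun y => y - e0 D).filter fun x => x ∉ tr u S ∧ x 0 = i ∧ x ≠ u with hF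
  have key : ∀ x ∈ F, (x - u + e0 D ∈ S ∧ x - u ∉ S ∧ x 0 = i) ∧ x ≠ u := fun x hx => by
    obtain ⟨h1, h2, h3, h4⟩ := mem_filter.1 hx
    obtain ⟨y, hy, rfl⟩ := mem_image.1 h1
    rw [mem_tr] at hy h2
    exact ⟨⟨by rwa [sub_right_comm, sub_add_cancel], h2, h3⟩, h4⟩
  rcases F.eq_empty_or_nonempty with c | ⟨z, hz⟩
  · simp [c]
  have up : Occ S (i - u 0 + 1) := ⟨_, (key z hz).1.1, by
    simp only [Pi.add_apply, Pi.sub_apply, e0_zero, (key z hz).1.2.2]⟩
  have h3 := bdl_split S (i - u 0)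
  unfold exc
  by_cases c : i - u 0 = 0
  · have h1 := not_occ h c.le
    have h2 : (insert u F).card ≤ ((bs S (i - u 0)).filter fun e => e.2 = 0).card :=
      vert_le u fun x hx => by
        rcases mem_insert.1 hx with rfl | hx
        · refine ⟨by simpa using h.1, fun k => ?_, by omega⟩
          have := one_le h k
          simp at this
        · exact (key x hx).1
    rw [card_insert_of_notMem fun k => (key u k).2 rfl] at h2
    simp only [h1, false_and, if_false, if_pos c]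
    omega
  · have h2 := vert_le u fun x hx => (key x hx).1
    simp only [if_neg c, up, not_true_eq_false, and_false, if_false]
    split_ifs with o
    · obtain ⟨x, hx, k⟩ := o
      have h4 := iso0 D x S (i - u 0) k.le ⟨x, hx, k⟩
      have h5 := lat_le x S (i - u 0)
      omega
    · omega

theorem ks_shift (h : Shape (e0 D) S) {a : ℤ} (ha : 0 ≤ a) (n : ℕ) :
    ks (fun i => exc S (i - a)) 0 n ≤ ks (exc S) 0 n := by
  obtain ⟨d, rfl⟩ := Int.eq_ofNat_of_zero_le ha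
  have e : ∀ m, ks (fun i => exc S (i - d)) 0 m = ks (exc S) (-d) m := fun m =>
    sum_congr rfl fun i _ => congrArg (exc S) (by ring)
  have z : ks (exc S) (-d) d = 0 := sum_eq_zero fun i hi => exc_neg h (by
    have := mem_range.1 hi
    omega)
  rw [e]
  rcases le_total n d with c | c
  · exact ((ks_mono _ le_rfl (by omega)).trans z.le).trans (Nat.zero_le _)
  · obtain ⟨m, rfl⟩ := Nat.exists_eq_add_of_le c
    rw [ks_add, z, zero_add]
    exact ks_mono _ (by omega) (by push_cast; omega)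

end ProfM

open ProfM

theorem prof (hI : ISO2Stmt) : PROFStmt := by
  refine fun D hD => ⟨fun u => ⟨by simp, fun i => ?_, by simp, by simp⟩,
    fun S h => ⟨fun Q _ => ⟨(near S).card, fun n => ?_⟩, fun u =>
      ⟨⟨fun x hx => ?_, fun i => (bdl_tr u S i).trans (bdl_le h _), fun x hx y hy h0 k => ?_,
        foot_le h u⟩, ?_, fun hu => ⟨fun k => ?_, fun Q ν hν n => ?_⟩⟩⟩⟩
  · simp [bdl]
  · exact (Nat.mul_le_mul_left Q (ks_le S n)).trans (Nat.le_add_left _ _)
  · have := one_le h (mem_tr.1 hx)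
    simp only [Pi.sub_apply] at this
    omega
  · by_contra c
    exact exc_pos hI hD h (mem_tr.1 hx) (mem_tr.1 hy) (fun e => c (sub_left_injective e))
      (by simp [h0]) k
  · refine edge_mem_near.2 (Or.inr (mem_tr.2 ?_))
    rw [vec_fwd_e0, add_sub_cancel_left]
    exact h.1
  · have := one_le h (mem_tr.1 k)
    simp only [Pi.sub_apply, Pi.zero_apply] at this
    omega
  · exact (Nat.mul_le_mul_left Q (ks_shift h hu n)).trans (hν n)

end Pool.Agent.MP_8c549f_pr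

/-!
Geometry of the steps without a good escape route: wide traps.
-/

set_option autoImplicit false

namespace Pool.Agent.MP_8c549f_pr

open Relation

namespace WgeoM

variable {D : ℕ}

theorem esc_iff {ω : Cfg D} {B : Finset (V D)} {x : V D} {t : ℤ} :
    Esc ω B x t ↔ ∃ y ∉ B, ReflTransGen (Geo.R ω t) x y :=
  ⟨fun ⟨l, _, h2, h3⟩ => ⟨_, h2, Geo.of_list l x fun i hi => (h3 i hi).2⟩,
    fun ⟨_, h1, h2⟩ => Geo.esc_of h2 h1⟩

theorem esc_anti {ω : Cfg D} {B : Finset (V D)} {x : V D} {t t' : ℤ} (h : Esc ω B x t)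
    (ht : t' ≤ t) : Esc ω B x t' := by
  obtain ⟨l, h1, h2, h3⟩ := h
  exact ⟨l, h1, h2, fun i hi => ⟨(h3 i hi).1, (h3 i hi).2.1, ht.trans (h3 i hi).2.2⟩⟩

theorem esc_head {ω : Cfg D} {B : Finset (V D)} {x : V D} {s : Step D} {t : ℤ}
    (hs : ω (edge x s) = true) (ht : t ≤ expo x s) (h : Esc ω B (x + vec s) t) : Esc ω B x t := by
  obtain ⟨y, h1, h2⟩ := esc_iff.1 h
  exact esc_iff.2 ⟨y, h1, h2.head ⟨s, rfl, hs, ht⟩⟩

theorem esc_back {ω : Cfg D} {B : Finset (V D)} {x : V D} {s : Step D} {t : ℤ}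
    (hs : ω (edge x s) = true) (ht : t ≤ expo x s) (h : Esc ω B x t) :
    Esc ω B (x + vec s) t := by
  refine esc_head (s := rev s) (by simpa using hs) (by simpa using ht) ?_
  simpa using h

theorem up_le {ω : Cfg D} {i i' : ℤ} (z : V D) (h : i ≤ i') : Up ω i' z ⊆ Up ω i z :=
  Up_mono z h fun _ _ h => h

/-- a site `z` that escapes, but not through exponents `≥ t`: either a wide trap, or a root whose
bush contains `z` -/
theorem wide (hG : GEO2Stmt) {ω : Cfg D} {m r : ℕ} {z : V D} {t i : ℤ}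
    (h0 : Esc ω (Box D m r) z 0) (h1 : ¬ Esc ω (Box D m r) z t) (hi : 1 ≤ i) (ht : t ≤ 2 * i)
    (hz : i ≤ z 0) (hr : ∀ u, 0 ≤ u 0 → Root ω u → z ∉ Bush ω u) :
    ∃ b ∈ Box D m r, b 0 = i ∧ Up ω (b 0) b = Up ω i z ∧
      ∃ n h : ℕ, b 0 + n = m ∧ b 0 + h = z 0 + 1 ∧ WTrap ω b n h := by
  obtain ⟨hS, b, hb, hb0, -⟩ := hG D ω _ z 0 t i h0 h1 hz ht
  have hU : Up ω (b 0) b = Up ω i z := by rw [hb0]; exact Geo.up_eq hb
  have hB := mem_Box.1 (Finset.mem_coe.1 (hS hb))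
  have hfin : (Up ω i z).Finite := (Box D m r).finite_toSet.subset hS
  refine ⟨b, hS hb, hb0, hU, (m - i).toNat, (z 0 - i + 1).toNat, by omega, by omega, ?_, ?_, ?_⟩
  · rwa [hU]
  · intro y hy
    rw [hU] at hy
    have := mem_Box.1 (Finset.mem_coe.1 (hS hy))
    omega
  · intro k hk
    rw [hU]
    obtain ⟨-, c, hc, hc0, hco⟩ := hG D ω _ z 0 t (i + k) h0 h1 (by omega) (by omega)
    have hle : Up ω (i + k) z ⊆ Up ω i z := up_le z (by omega)
    by_contra hn
    push Not at hn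
    have e1 : c - e0 D + e0 D = c := sub_add_cancel _ _
    have e2 : (c - e0 D) 0 + 1 = i + k := by simp [hc0]
    have e3 : Bush ω (c - e0 D) = Up ω (i + k) z := by
      rw [Bush, e1, e2]; exact Geo.up_eq hc
    refine hr (c - e0 D) (by omega) ⟨?_, ?_, fun y hy hy0 _ => ?_⟩ ?_
    · rw [← edge_fwd_eq, e1]; exact hco
    · rw [e3]; exact hfin.subset hle
    · rw [e1]
      rw [e3] at hy
      by_contra hne
      exact hn y (hle hy) c (hle hc) hne (by omega) (by omega)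
    · rw [e3]; exact self_mem_Up _ _ _

theorem one_le_t {ω : Cfg D} {B : Finset (V D)} {x : V D} {t : ℤ} (h0 : Esc ω B x 0)
    (h1 : ¬ Esc ω B x t) : 1 ≤ t := by
  by_contra h
  exact h1 (esc_anti h0 (by omega))

theorem partA (hG : GEO2Stmt) {ω : Cfg D} {m r j : ℕ}
    (h : ¬ GoodC ω (Box D m r) (Reg ω) j) : ∃ b ∈ Box D m r, Trap ω b (j + 1) ∧
      ∃ n h : ℕ, b 0 + n = m ∧ j + 1 ≤ 2 * h ∧ WTrap ω b n h := by
  unfold GoodC at h
  push Not at h
  obtain ⟨x, -, s, hc, hs, h0, h1⟩ := h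
  have ht := one_le_t h0 h1
  have hx0 : Esc ω (Box D m r) x 0 := esc_head hs (by omega) h0
  have hx1 : ¬ Esc ω (Box D m r) x (expo x s - j) := fun h => h1 (esc_back hs (by omega) h)
  have hrx : ∀ u, 0 ≤ u 0 → Root ω u → x ∉ Bush ω u := fun u a b c => hc ⟨u, a, b, Or.inl c⟩
  rcases step_cases s with rfl | rfl | ⟨k, g, rfl⟩
  · have h2 : expo x (fwd D) = 2 * (x + vec (fwd D)) 0 - 1 := by simp [expo]; ring
    obtain ⟨b, hb, h3, h4, n, h, h5, h6, h7⟩ := wide hG (i := (expo x (fwd D) - j + 1) / 2) h0 h1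
      (by omega) (by omega) (by omega) fun u a c d =>
        hc ⟨u, a, c, Or.inr (c.entry (hrx u a c) hs d)⟩
    exact ⟨b, hb, ⟨h7.1, h4 ▸ ⟨_, self_mem_Up _ _ _, Or.inl (by push_cast; omega)⟩⟩, n, h, h5,
      by omega, h7⟩
  · have h2 : expo x (bck D) = 2 * x 0 - 1 := by simp [expo]; ring
    obtain ⟨b, hb, h3, h4, n, h, h5, h6, h7⟩ := wide hG (i := (expo x (bck D) - j + 1) / 2) hx0 hx1
      (by omega) (by omega) (by omega) hrx
    exact ⟨b, hb, ⟨h7.1, h4 ▸ ⟨_, self_mem_Up _ _ _, Or.inl (by push_cast; omega)⟩⟩, n, h, h5,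
      by omega, h7⟩
  · have h2 : expo x (k.succ, g) = 2 * x 0 := by simp [expo, vec_side_zero]
    obtain ⟨b, hb, h3, h4, n, h, h5, h6, h7⟩ :=
      wide hG (i := (expo x (k.succ, g) - j + 1) / 2) hx0 hx1 (by omega) (by omega) (by omega) hrx
    have h8 : (x + vec (k.succ, g)) 0 = x 0 := by simp [vec_side_zero]
    have h9 : x + vec (k.succ, g) ∈ Up ω ((expo x (k.succ, g) - j + 1) / 2) x :=
      Up_step (by omega) (self_mem_Up _ _ _) hs (by omega)
    refine ⟨b, hb, ⟨h7.1, h4 ▸ ?_⟩, n, h, h5, by omega, h7⟩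
    cases g
    · exact ⟨_, h9, Or.inr ⟨k, by
        simp only [vec_false, neg_add_cancel_right]; exact self_mem_Up _ _ _,
        by push_cast; omega⟩⟩
    · exact ⟨x, self_mem_Up _ _ _, Or.inr ⟨k, by simpa using h9, by push_cast; omega⟩⟩

theorem partB (hG : GEO2Stmt) {ω : Cfg D} {m r j : ℕ} {u : V D}
    (hf : ω (edge u (fwd D)) = false) (hu : ¬ Und ω u)
    (h : ¬ GoodC ω (Box D m r) (fun x _ => x = u) j) : ∃ b ∈ Box D m r,
      ∃ n h : ℕ, b 0 + n = m ∧ j + 1 ≤ 2 * h ∧ b 0 + h ≤ u 0 + 1 ∧ WTrap ω b n h := by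
  unfold GoodC at h
  push Not at h
  obtain ⟨x, -, s, rfl, hs, h0, h1⟩ := h
  have ht := one_le_t h0 h1
  have hx0 : Esc ω (Box D m r) x 0 := esc_head hs (by omega) h0
  have hx1 : ¬ Esc ω (Box D m r) x (expo x s - j) := fun h => h1 (esc_back hs (by omega) h)
  have hne : s ≠ fwd D := fun e => by rw [e, hf] at hs; exact Bool.false_ne_true hs
  have h2 : vec s 0 ≠ 1 := fun e => hne (vec_zero_eq_one.1 e)
  have h3 := vec_bounds s 0
  have h4 : expo x s = 2 * x 0 + vec s 0 := rfl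
  obtain ⟨b, hb, h5, -, n, h, h6, h7, h8⟩ := wide hG (i := (expo x s - j + 1) / 2) hx0 hx1
    (by omega) (by omega) (by omega) fun v a c d => hu ⟨v, a, c, d⟩
  exact ⟨b, hb, n, h, h6, by omega, h7.le, h8⟩

theorem partC {ω : Cfg D} {m r : ℕ} {u : V D} (hf : ω (edge u (fwd D)) = false) (hu : ¬ Und ω u)
    {lam : ℝ} (h : C1 lam ω (fun x _ => x = u) m r ≠ 0) (x : ℝ) : 1 ≤ Zq x ω u := by
  by_cases hl : ∃ (k : Fin D) (g : Bool), ω (edge u (k.succ, g)) = true
  · obtain ⟨k, g, hk⟩ := hl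
    exact (wt_side x k g).symm.trans_le (wt_le_Zq x hk)
  exfalso
  have honly : ∀ s, ω (edge u s) = true → s = bck D := fun s hs => by
    rcases step_cases s with rfl | rfl | ⟨k, g, rfl⟩
    · rw [hf] at hs; exact absurd hs Bool.false_ne_true
    · rfl
    · exact absurd ⟨k, g, hs⟩ hl
  apply h
  rw [C1, SS, ENNReal.tsum_eq_zero]
  intro l
  by_cases hp : l ∈ {l : List (Step D) | Piece m r l}
  swap
  · exact Set.indicator_of_notMem hp _
  rw [Set.indicator_of_mem hp]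
  by_contra hne
  have hn : nst (fun x _ => x = u) 0 l ≠ 0 := fun e => hne (by simp [e])
  have hW : W lam ω 0 l ≠ 0 := fun e => hne (by simp [e])
  rw [Ne, nst_eq_zero_iff] at hn
  push Not at hn
  obtain ⟨i, hi, e⟩ := hn
  have ho := (W_ne_zero_iff lam ω l 0).1 hW i hi
  rw [e] at ho
  have hb := honly _ ho
  have hH : 0 ≤ H l (i + 1) := hp.1.1 (i + 1) hi
  rw [H_succ hi, hb, vec_bck_zero, H] at hH
  have e' : loc l i 0 = u 0 := by rw [← e, zero_add]
  have e1 : u - e0 D + e0 D = u := sub_add_cancel _ _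
  have e2 : (u - e0 D) 0 + 1 = u 0 := by simp
  have e3 : Bush ω (u - e0 D) ⊆ {u} := by
    rw [Bush, e1, e2]
    refine Up_subset rfl fun y hy s _ hs _ hl => ?_
    rw [Set.mem_singleton_iff] at hy
    subst hy
    rw [honly s hs] at hl
    simp only [Pi.add_apply, vec_bck_zero] at hl
    omega
  refine hu ⟨u - e0 D, by omega, ⟨?_, (Set.finite_singleton u).subset e3, fun y hy _ _ => ?_⟩, ?_⟩
  · rw [← edge_fwd_eq, e1, ← hb]; exact ho
  · rw [e1]; exact e3 hy
  · rw [Bush, e1]; exact self_mem_Up _ _ _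

end WgeoM

theorem wgeo (hG : GEO2Stmt) : WGEOStmt := fun _ _ _ _ _ =>
  ⟨WgeoM.partA hG, fun _ _ hf hu =>
    ⟨WgeoM.partB hG hf hu, fun _ h x => WgeoM.partC hf hu h x⟩⟩

end Pool.Agent.MP_8c549f_pr

end MrgPart0

-- ======== part 1: formerly Pool.Agent.MP_8c549f_pr.FinalB
section MrgPart1

-- ======== part 0: formerly Pool.Agent.MP_8c549f_pr.B10
section MrgPart0

/-!
The regular steps: comparison with the full lattice in the critical window.
-/

set_option autoImplicit false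

namespace Pool.Agent.MP_8c549f_pr

open MeasureTheory Filter Topology Real
open scoped ENNReal NNReal

namespace RegaM

variable {D : ℕ}

/-- a step that is not regular starts in a trap or just below a trap -/
theorem trap_of_not_reg {ω : Cfg D} {x : V D} {s : Step D} (h : ¬ Reg ω x s) :
    Trap ω x 1 ∨ Trap ω (x + e0 D) 1 := by
  obtain ⟨u, -, hR, hI⟩ := not_not.1 h
  have idx : ∀ b : V D, Idx (Up ω (b 0) b) b 1 := fun b =>
    ⟨b, self_mem_Up _ _ _, Or.inl (by simp)⟩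
  rcases hI with hx | ⟨rfl, -⟩
  · refine Or.inl ⟨hR.2.1.subset ?_, idx x⟩
    have e : Up ω (u 0 + 1) x = Bush ω u := Geo.up_eq hx
    rw [← e]
    exact Up_mono x (Bush_level hx) fun _ _ k => k
  · refine Or.inr ⟨?_, idx _⟩
    have e : (x + e0 D) 0 = x 0 + 1 := by simp
    rw [e]
    exact hR.2.1

/-- the edges of `E` are open and the steps from `B` are regular -/
def Opn2 (E : Finset (Edge D)) (B : Finset (V D)) : Set (Cfg D) :=
  {ω | (∀ e ∈ E, ω e = true) ∧ ∀ x ∈ B, ∀ s, Reg (plus ω) x s}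

theorem meas_Opn2 (hM : MEASStmt) (E : Finset (Edge D)) (B : Finset (V D)) :
    MeasurableSet (Opn2 E B) := by
  have e : Opn2 E B = (⋂ e ∈ E, {ω : Cfg D | ω e = true}) ∩
      ⋂ x ∈ B, ⋂ s, plus ⁻¹' {ω : Cfg D | Reg ω x s} := by
    ext ω
    simp [Opn2]
  rw [e]
  refine (Finset.measurableSet_biInter _ fun e _ => ?_).inter
    (Finset.measurableSet_biInter _ fun x _ => MeasurableSet.iInter fun s =>
      measurable_plus ((hM D 0).2.2.1 0 x s).1)
  exact measurableSet_eq_fun (measurable_pi_apply e) measurable_const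

theorem prob_Opn2 (hD : 1 ≤ D) : ∃ C e₀ : ℝ, 0 ≤ C ∧ 0 < e₀ ∧ ∀ p, 1 - e₀ ≤ p → p ≤ 1 →
    ∀ (E : Finset (Edge D)) (m r : ℕ), perc D p (Opn2 E (Box D m r))ᶜ ≤
      ENNReal.ofReal ((E.card + C * (Box D m r).card) * (1 - p)) := by
  obtain ⟨C, e₀, hC, he, H⟩ := trapS D hD 1 one_pos
  refine ⟨2 * (C * exp 1), min 1 e₀, by positivity, by positivity, fun p hp p1 E m r => ?_⟩
  have p0 : 0 ≤ p := by linarith [min_le_left 1 e₀]
  have q0 : 0 ≤ 1 - p := by linarith
  have t : ∀ b : V D, perc D p {ω | Trap ω b 1} ≤ ENNReal.ofReal (C * exp 1 * (1 - p)) := by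
    intro b
    refine (H p (by linarith [min_le_right 1 e₀]) p1 b 1 le_rfl).trans
      (ENNReal.ofReal_le_ofReal ?_)
    simp only [Nat.cast_one, mul_one]
    refine mul_le_mul_of_nonneg_left ?_ (by positivity)
    exact (pow_le_pow_of_le_one q0 (by linarith) (by omega)).trans_eq (pow_one _)
  have sub : (Opn2 E (Box D m r))ᶜ ⊆ (⋃ e ∈ E, {ω : Cfg D | ω e = false}) ∪
      ⋃ x ∈ Box D m r, ({ω | Trap ω x 1} ∪ {ω | Trap ω (x + e0 D) 1}) := by
    intro ω hω
    by_cases a : ∀ e ∈ E, ω e = true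
    · have b : ¬ ∀ x ∈ Box D m r, ∀ s, Reg (plus ω) x s := fun b => hω ⟨a, b⟩
      simp only [not_forall] at b
      obtain ⟨x, hx, s, hs⟩ := b
      have x0 := (mem_Box.1 hx).1
      refine Or.inr (Set.mem_biUnion hx ?_)
      rcases trap_of_not_reg hs with k | k
      · exact Or.inl ((plusTrap D ω x 1 x0).1 k)
      · exact Or.inr ((plusTrap D ω _ 1 (by simp; omega)).1 k)
    · simp only [not_forall] at a
      obtain ⟨e, he, k⟩ := a
      exact Or.inl (Set.mem_biUnion he (by simpa using k))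
  refine (measure_mono sub).trans ((measure_union_le _ _).trans ?_)
  have b1 : perc D p (⋃ e ∈ E, {ω : Cfg D | ω e = false}) ≤ ENNReal.ofReal (E.card * (1 - p)) := by
    refine (measure_biUnion_finset_le _ _).trans ?_
    simp only [perc_edge p0 p1, Finset.sum_const, nsmul_eq_mul]
    rw [ENNReal.ofReal_mul (Nat.cast_nonneg _), ENNReal.ofReal_natCast]
  have b2 : perc D p (⋃ x ∈ Box D m r, ({ω | Trap ω x 1} ∪ {ω | Trap ω (x + e0 D) 1})) ≤
      ENNReal.ofReal ((Box D m r).card * (2 * (C * exp 1 * (1 - p)))) := by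
    refine (measure_biUnion_finset_le _ _).trans ((Finset.sum_le_card_nsmul _ _
      (ENNReal.ofReal (2 * (C * exp 1 * (1 - p)))) fun x _ => ?_).trans ?_)
    · refine (measure_union_le _ _).trans ((add_le_add (t _) (t _)).trans ?_)
      rw [← ENNReal.ofReal_add (by positivity) (by positivity), two_mul]
    · rw [nsmul_eq_mul, ENNReal.ofReal_mul (Nat.cast_nonneg _), ENNReal.ofReal_natCast]
  refine (add_le_add b1 b2).trans ?_
  rw [← ENNReal.ofReal_add (by positivity) (by positivity)]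
  exact ENNReal.ofReal_le_ofReal (le_of_eq (by ring))

theorem ofReal_K {K : ℝ} {N : ℕ} (h0 : 0 ≤ K) (h : K ≤ 10 * N) :
    ENNReal.ofReal (K ^ 2) ≤ ((100 : ℕ) : ℝ≥0∞) * (N : ℝ≥0∞) ^ 2 := by
  rw [← Nat.cast_pow, ← Nat.cast_mul, ← ENNReal.ofReal_natCast]
  refine ENNReal.ofReal_le_ofReal ((pow_le_pow_left₀ h0 h 2).trans_eq ?_)
  push_cast
  ring

theorem ofReal_N {n N : ℕ} (h : n ≤ N) :
    ENNReal.ofReal ((6 * D + 6) * (n : ℝ) ^ 3) ≤ ((6 * D + 6 : ℕ) : ℝ≥0∞) * (N : ℝ≥0∞) ^ 3 := by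
  rw [← Nat.cast_pow (α := ℝ≥0∞), ← Nat.cast_mul (α := ℝ≥0∞), ← ENNReal.ofReal_natCast]
  refine ENNReal.ofReal_le_ofReal ?_
  have : (n : ℝ) ≤ N := by exact_mod_cast h
  push_cast
  gcongr

theorem exists_bd {ι : Type} (I : Finset ι) (f : ι → ℝ) : ∃ C : ℝ, 0 ≤ C ∧ ∀ q ∈ I, f q ≤ C :=
  ⟨∑ q ∈ I, |f q|, Finset.sum_nonneg fun _ _ => abs_nonneg _, fun _ hq =>
    (le_abs_self _).trans (Finset.single_le_sum (f := fun q => |f q|) (fun _ _ => abs_nonneg _) hq)⟩

/-- the properties shared by the two families of counted pieces -/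
structure Fam (D : ℕ) (ι : Type) [DecidableEq ι] (m r : ι → ℕ) (E : ι → Finset (Edge D))
    (N : ι → ℕ) (K : ι → ℝ) (Φ : ι → ℝ → Cfg D → (V D → Step D → Prop) → ℝ≥0∞)
    (Ψ : ι → ℝ → Cfg D → ℝ≥0∞) : Prop where
  one_le : ∀ q, 1 ≤ K q
  le_N : ∀ q, K q ≤ 10 * N q
  NN_le : ∀ q, NN D (m q) (r q) ≤ N q
  tame : ∀ q ω c, Tame (K q) fun x => Φ q x ω c
  meas : ∀ q x, Measurable fun ω => Φ q x (plus ω) (Reg (plus ω))
  measG : ∀ q, MeasurableSet {ω | GoodC (plus ω) (Box D (m q) (r q)) (Reg (plus ω)) 0}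
  dep : ∀ q (ω : Cfg D) (c : V D → Step D → Prop), (∀ e ∈ E q, ω e = true) →
    (∀ y ∈ Box D (m q) (r q), ∀ s, c y s) → GoodC ω (Box D (m q) (r q)) c 0 ∧
      ∀ x, Φ q x ω c = Φ q x (allOpen D) fun _ _ => True
  bound : ∀ q x, 0 ≤ x → ∀ ω c, GoodC ω (Box D (m q) (r q)) c 0 →
    Φ q x ω c ≤ ENNReal.ofReal ((6 * D + 6) * (NN D (m q) (r q) : ℝ) ^ 3) * Ψ q x ω
  ctl : ∀ q, ∃ C : ℝ, 0 ≤ C ∧ ∀ ω : Cfg D, ω (edge 0 (bck D)) = true → ∀ α β : ℝ, 0 ≤ α →
    ∀ c, GoodC ω (Box D (m q) (r q)) c 0 → (∀ x, 0 ≤ x → Φ q x ω c ≤ ENNReal.ofReal C) ∧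
      Ctl (fun x => (Φ q x ω c).toReal) α β (C * exp (-α))
  tail : ∃ (I : Finset ι) (μ₁ : ℝ), ∀ p lam μ, μ₁ ≤ μ → p ≤ 1 → 1 - p ≤ exp (-μ) → μ ≤ lam →
    ∑' q, (if q ∈ I then 0 else (N q : ℝ≥0∞) ^ 5 * ∫⁻ ω, Ψ q lam (plus ω) ∂perc D p) ≤
      ENNReal.ofReal (exp (-((D : ℝ) + 1) * μ))
  ts : ∀ ζ : ℝ, 0 < ζ → ∃ e₀ : ℝ, 0 < e₀ ∧ ∀ p lam, 1 - e₀ ≤ p → p < 1 →
    1 / 2 ≤ (1 - p) ^ D * exp lam → (1 - p) ^ D * exp lam ≤ 2 →
      ∑' q, (N q : ℝ≥0∞) ^ 2 *
        ∫⁻ ω in {ω | ¬ GoodC (plus ω) (Box D (m q) (r q)) (Reg (plus ω)) 0},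
          Φ q lam (plus ω) (Reg (plus ω)) ∂perc D p ≤ ENNReal.ofReal (ζ * exp (-lam))

variable {ι : Type} [DecidableEq ι] {m r : ι → ℕ} {E : ι → Finset (Edge D)} {N : ι → ℕ}
  {K : ι → ℝ} {Φ : ι → ℝ → Cfg D → (V D → Step D → Prop) → ℝ≥0∞} {Ψ : ι → ℝ → Cfg D → ℝ≥0∞}

/-- the good event -/
def Gd (D m r : ℕ) : Set (Cfg D) := {ω | GoodC (plus ω) (Box D m r) (Reg (plus ω)) 0}

theorem rem_le (h : Fam D ι m r E N K Φ Ψ) (I : Finset ι) (p : ℝ) {x : ℝ} (hx : 0 ≤ x) (q : ι) :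
    ENNReal.ofReal (K q ^ 2) * ∫⁻ ω in (if q ∈ I then (Gd D (m q) (r q))ᶜ else Set.univ),
      Φ q x (plus ω) (Reg (plus ω)) ∂perc D p ≤
    ((100 * (6 * D + 6) : ℕ) : ℝ≥0∞) *
      (if q ∈ I then 0 else (N q : ℝ≥0∞) ^ 5 * ∫⁻ ω, Ψ q x (plus ω) ∂perc D p) +
    ((100 : ℕ) : ℝ≥0∞) * ((N q : ℝ≥0∞) ^ 2 *
      ∫⁻ ω in {ω | ¬ GoodC (plus ω) (Box D (m q) (r q)) (Reg (plus ω)) 0},
        Φ q x (plus ω) (Reg (plus ω)) ∂perc D p) := by
  have e1 := ofReal_K (zero_le_one.trans (h.one_le q)) (h.le_N q)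
  have b2 : ∫⁻ ω in Gd D (m q) (r q), Φ q x (plus ω) (Reg (plus ω)) ∂perc D p ≤
      ((6 * D + 6 : ℕ) : ℝ≥0∞) * (N q : ℝ≥0∞) ^ 3 * ∫⁻ ω, Ψ q x (plus ω) ∂perc D p := by
    rw [← lintegral_const_mul' _ _ (by finiteness)]
    exact le_trans (setLIntegral_mono' (h.measG q) fun ω hω =>
      (h.bound q x hx _ _ hω).trans (mul_le_mul' (ofReal_N (h.NN_le q)) le_rfl))
      (setLIntegral_le_lintegral _ _)
  by_cases hq : q ∈ I
  · rw [if_pos hq, if_pos hq, mul_zero, zero_add, ← mul_assoc]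
    exact mul_le_mul' e1 le_rfl
  · rw [if_neg hq, if_neg hq, Measure.restrict_univ, ← lintegral_add_compl _ (h.measG q), mul_add]
    refine add_le_add ((mul_le_mul' e1 b2).trans (le_of_eq ?_))
      ((mul_le_mul' e1 le_rfl).trans (le_of_eq ?_))
    · push_cast; ring
    · rw [mul_assoc]; rfl

theorem ref_le (h : Fam D ι m r E N K Φ Ψ) (I : Finset ι) {x : ℝ} (hx : 0 ≤ x) (q : ι) :
    (if q ∈ I then 0 else ENNReal.ofReal (K q ^ 2) * Φ q x (allOpen D) fun _ _ => True) ≤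
    ((100 * (6 * D + 6) : ℕ) : ℝ≥0∞) *
      (if q ∈ I then 0 else (N q : ℝ≥0∞) ^ 5 * ∫⁻ ω, Ψ q x (plus ω) ∂perc D 1) := by
  have e1 := ofReal_K (zero_le_one.trans (h.one_le q)) (h.le_N q)
  have g := (h.dep q (allOpen D) (fun _ _ => True) (fun _ _ => rfl) fun _ _ _ => trivial).1
  split_ifs
  · exact zero_le
  · rw [lintegral_perc_one, plus_allOpen]
    refine (mul_le_mul' e1 ((h.bound q x hx _ _ g).trans
      (mul_le_mul' (ofReal_N (h.NN_le q)) le_rfl))).trans (le_of_eq ?_)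
    push_cast; ring

theorem core [Countable ι] (hA : ABSStmt) (hM : MEASStmt) (hD : 2 ≤ D)
    (h : Fam D ι m r E N K Φ Ψ) {ζ : ℝ} (hζ : 0 < ζ) : ∃ e₀ : ℝ, 0 < e₀ ∧
      ∀ p α β, 1 - e₀ ≤ p → Win D p α β →
        (∀ x ∈ Set.Icc α β, ∑' q, ∫⁻ ω, Φ q x (plus ω) (Reg (plus ω)) ∂perc D p ≠ ∞ ∧
          ∑' q, Φ q x (allOpen D) (fun _ _ => True) ≠ ∞ ∧
          |(∑' q, ∫⁻ ω, Φ q x (plus ω) (Reg (plus ω)) ∂perc D p).toReal -
            (∑' q, Φ q x (allOpen D) fun _ _ => True).toReal| ≤ ζ) ∧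
        Ctl (fun x => (∑' q, ∫⁻ ω, Φ q x (plus ω) (Reg (plus ω)) ∂perc D p).toReal -
          (∑' q, Φ q x (allOpen D) fun _ _ => True).toReal) α β (ζ * exp (-α)) := by
  obtain ⟨I, μ₁, HT⟩ := h.tail
  obtain ⟨e1, he1, HS⟩ := h.ts (ζ / 3200) (by positivity)
  obtain ⟨e2, he2, HW⟩ := win_mu hD (max μ₁ 0)
  obtain ⟨C₀, e3, hC₀, he3, HO⟩ := prob_Opn2 (D := D) (by omega)
  choose Cq hCq H6 using h.ctl
  obtain ⟨C, C0, lc⟩ := exists_bd I Cq
  obtain ⟨Θ, Θ0, lΘ⟩ := exists_bd I fun q => ((E q).card : ℝ) + C₀ * (Box D (m q) (r q)).card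
  have n0 : (0 : ℝ) ≤ I.card := Nat.cast_nonneg _
  obtain ⟨L, hL⟩ : ∃ L : ℝ, L = 4 * I.card * C * Θ + 6400 * (6 * D + 6) := ⟨_, rfl⟩
  have L0 : 0 < L := by rw [hL]; positivity
  refine ⟨min (min e1 e2) (min e3 (ζ / L)), by positivity, fun p α β hp hW => ?_⟩
  have q1 : 1 - e1 ≤ p := le_trans (by gcongr; exact (min_le_left _ _).trans (min_le_left _ _)) hp
  have q2 : 1 - e2 ≤ p := le_trans (by gcongr; exact (min_le_left _ _).trans (min_le_right _ _)) hp
  have q3 : 1 - e3 ≤ p := le_trans (by gcongr; exact (min_le_right _ _).trans (min_le_left _ _)) hp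
  have q4 : 1 - ζ / L ≤ p :=
    le_trans (by gcongr; exact (min_le_right _ _).trans (min_le_right _ _)) hp
  have p1 : p < 1 := hW.1
  have ε0 : 0 ≤ 1 - p := by linarith
  have q5 : (1 - p) * L ≤ ζ := (le_div_iff₀ L0).1 (by linarith)
  rw [hL] at q5
  have mu : ∀ x ∈ Set.Icc α β, ∃ μ, μ₁ ≤ μ ∧ 1 - p = exp (-μ) ∧ 0 ≤ p ∧ μ ≤ x ∧ 0 ≤ x ∧
      exp (-((D : ℝ) + 1) * μ) ≤ 2 * (1 - p) * exp (-α) := fun x hx => by
    obtain ⟨μ, a1, a2, a3, a4, -, a6⟩ := HW p x q2 p1 (hW.mem hx).1 (hW.mem hx).2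
    refine ⟨μ, (le_max_left _ _).trans a1, a2, by linarith, a4,
      ((le_max_right _ _).trans a1).trans a4, ?_⟩
    have a7 : exp (-x) ≤ exp (-α) := exp_le_exp.2 (by linarith [hx.1])
    rw [show -((D : ℝ) + 1) * μ = -μ + -(D * μ) by ring, exp_add, ← a2]
    nlinarith [mul_le_mul_of_nonneg_left a6 ε0, mul_le_mul_of_nonneg_left a7 ε0]
  obtain ⟨-, -, -, p0, -, α0, -⟩ := mu α ⟨le_rfl, hW.2.1⟩
  have := perc_prob D p0 p1.le
  have x1 : exp (-α) ≤ 1 := exp_le_one_iff.2 (by linarith)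
  have x0 := exp_pos (-α)
  have hD0 : (0 : ℝ) ≤ D := Nat.cast_nonneg D
  have t1 : (100 * (6 * D + 6) : ℝ) * (2 * (1 - p) * exp (-α)) ≤ ζ / 32 * exp (-α) := by
    have : (1 - p) * (6400 * (6 * D + 6)) ≤ ζ := le_trans (mul_le_mul_of_nonneg_left
      (le_add_of_nonneg_left (by positivity)) ε0) q5
    nlinarith [mul_le_mul_of_nonneg_right this x0.le]
  have t2 : 2 * I.card * C * (Θ * (1 - p)) ≤ ζ / 2 := by
    have : (1 - p) * (4 * I.card * C * Θ) ≤ ζ := le_trans (mul_le_mul_of_nonneg_left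
      (le_add_of_nonneg_right (by positivity)) ε0) q5
    linarith
  have tl : ∀ p' x μ, μ₁ ≤ μ → p' ≤ 1 → 1 - p' ≤ exp (-μ) → μ ≤ x →
      exp (-((D : ℝ) + 1) * μ) ≤ 2 * (1 - p) * exp (-α) →
      ((100 * (6 * D + 6) : ℕ) : ℝ≥0∞) * ∑' q,
        (if q ∈ I then 0 else (N q : ℝ≥0∞) ^ 5 * ∫⁻ ω, Ψ q x (plus ω) ∂perc D p') ≤
        ENNReal.ofReal (ζ / 32 * exp (-α)) := fun p' x μ a1 a2 a3 a4 a5 => by
    refine (mul_le_mul' le_rfl (HT p' x μ a1 a2 a3 a4)).trans ?_
    rw [← ENNReal.ofReal_natCast, ← ENNReal.ofReal_mul (by positivity)]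
    refine ENNReal.ofReal_le_ofReal (le_trans ?_ t1)
    push_cast
    exact mul_le_mul_of_nonneg_left a5 (by positivity)
  have gA := fun q =>
    (h.dep q (allOpen D) (fun _ _ => True) (fun _ _ => rfl) fun _ _ _ => trivial).1
  obtain ⟨k1, k2, -⟩ := hA D ι (perc D p) (fun q x ω => Φ q x (plus ω) (Reg (plus ω)))
    (fun q x => Φ q x (allOpen D) fun _ _ => True) K I (fun q => Opn2 (E q) (Box D (m q) (r q)))
    (fun q => Gd D (m q) (r q)) α β C (C * exp (-α)) (ζ / 16 * exp (-α)) (Θ * (1 - p)) C0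
    (by positivity) (by positivity) (by positivity) h.one_le (fun q ω => h.tame q _ _)
    (fun q => h.tame q _ _) h.meas (fun q => ⟨meas_Opn2 hM _ _, h.measG q⟩)
    (fun q hq => by
      have d := fun ω (hω : ω ∈ Opn2 (E q) (Box D (m q) (r q))) =>
        h.dep q (plus ω) (Reg (plus ω)) (fun e he => plus_of_open (hω.1 e he)) hω.2
      have le := ENNReal.ofReal_le_ofReal (lc q hq)
      have le' := mul_le_mul_of_nonneg_right (lc q hq) x0.le
      refine ⟨(HO p q3 p1.le _ _ _).trans (ENNReal.ofReal_le_ofReal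
        (mul_le_mul_of_nonneg_right (lΘ q hq) ε0)), fun ω hω => (d ω hω).1,
        fun ω hω => (d ω hω).2, fun ω hω => ?_, ?_⟩
      · have := H6 q (plus ω) (plus_bck ω) α β α0 _ hω
        exact ⟨fun x hx => (this.1 x (α0.trans hx.1)).trans le, this.2.mono le'⟩
      · have := H6 q (allOpen D) rfl α β α0 _ (gA q)
        exact ⟨fun x hx => (this.1 x (α0.trans hx.1)).trans le, this.2.mono le'⟩)
    (fun x hx => by
      obtain ⟨μ, a1, a2, -, a4, a5, a6⟩ := mu x hx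
      refine (ENNReal.tsum_le_tsum fun q => rem_le h I p a5 q).trans ?_
      rw [ENNReal.tsum_add, ENNReal.tsum_mul_left, ENNReal.tsum_mul_left]
      refine (add_le_add (tl p x μ a1 p1.le a2.le a4 a6)
        (mul_le_mul' le_rfl (HS p x q1 p1 (hW.mem hx).1 (hW.mem hx).2))).trans ?_
      rw [← ENNReal.ofReal_natCast, ← ENNReal.ofReal_mul (by positivity),
        ← ENNReal.ofReal_add (by positivity) (by positivity)]
      refine ENNReal.ofReal_le_ofReal ?_
      have a7 : exp (-x) ≤ exp (-α) := exp_le_exp.2 (by linarith [hx.1])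
      push_cast
      nlinarith [mul_le_mul_of_nonneg_left a7 hζ.le])
    (fun x hx => by
      obtain ⟨μ, a1, -, -, a4, a5, a6⟩ := mu x hx
      refine (ENNReal.tsum_le_tsum fun q => ref_le h I a5 q).trans ?_
      rw [ENNReal.tsum_mul_left]
      refine (tl 1 x μ a1 le_rfl (by simpa using (exp_pos _).le) a4 a6).trans
        (ENNReal.ofReal_le_ofReal ?_)
      nlinarith [mul_pos hζ x0])
  refine ⟨fun x hx => ⟨(k1 x hx).1, (k1 x hx).2.1, (k1 x hx).2.2.2.trans ?_⟩, k2.mono ?_⟩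
  · nlinarith [mul_le_mul_of_nonneg_left x1 hζ.le]
  · nlinarith [mul_le_mul_of_nonneg_right t2 x0.le]

/-- the tails of the two arrays for the walk without closed set -/
theorem tails (hP : PROFStmt) (hK : KPTStmt) (hM : KMOMStmt) (hD : 2 ≤ D) :
    ∃ (R : ℕ) (μ₁ : ℝ), ∀ p lam μ, μ₁ ≤ μ → p ≤ 1 → 1 - p ≤ exp (-μ) → μ ≤ lam →
      ∑' q : ℕ × ℕ, (if R < q.1 ∨ R < q.2 then (NN D q.1 q.2 : ℝ≥0∞) ^ 5 *
        ∫⁻ ω, Uq lam (plus ω) q.1 q.2 ∂perc D p else 0) ≤
          ENNReal.ofReal (exp (-((D : ℝ) + 1) * μ)) ∧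
      ∑' q : (ℕ × ℕ) × ℕ × ℕ, (if R < q.1.1 ∨ R < q.1.2 ∨ R < q.2.1 ∨ R < q.2.2 then
        ((NN D q.1.1 q.1.2 * NN D (q.2.1 + 1) q.2.2 : ℕ) : ℝ≥0∞) ^ 5 *
          ∫⁻ ω, U2 lam (plus ω) q.1.1 q.1.2 q.2.1 q.2.2 ∂perc D p else 0) ≤
        ENNReal.ofReal (exp (-((D : ℝ) + 1) * μ)) := by
  obtain ⟨Q, A, μ₀, hQ, hA, -, H⟩ := hK D hD
  obtain ⟨R, C, μ₁, -, H'⟩ := hM D Q 5 A 1 1 (D + 1) (by omega) (by omega) hA one_pos le_rfl le_rfl
  refine ⟨R, max μ₀ μ₁, fun p lam μ a1 a2 a3 a4 => ?_⟩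
  have pt := (H p lam μ ∅ 0 (fun _ => 0) 0 ((le_max_left _ _).trans a1)
    ⟨a2, a3, a4, (hP D hD).1 0⟩ (Finset.notMem_empty _) fun n => by simp [ks]).1
  obtain ⟨b1, b2⟩ := (H' p lam μ 0 _ _ ((le_max_right _ _).trans a1) a2 a3 a4 pt).2.2 rfl
  simp only [g1, g2, clo_empty, ENNReal.rpow_one, ← Nat.cast_mul, ← Nat.cast_pow,
    ENNReal.ofReal_natCast] at b1 b2
  simp only [← Nat.cast_pow]
  exact ⟨b1, b2⟩

theorem fam1 (hM : MEASStmt) (hT : PTStmt) (hB : PBStmt) (hPD : PDStmt) (h6 : P6Stmt)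
    (hP : PROFStmt) (hK : KPTStmt) (hKM : KMOMStmt) (hS : TS2Stmt) (hD : 2 ≤ D) :
    Fam D (ℕ × ℕ) (fun q => q.1) (fun q => q.2) (fun q => near (Box D (q.1 + 0 + 1) (q.2 + 0)))
      (fun q => NN D q.1 q.2) (fun q => 10 * NN D q.1 q.2) (fun q x ω c => C1 x ω c q.1 q.2)
      (fun q x ω => Uq x ω q.1 q.2) where
  one_le q := by
    have : (2 : ℝ) ≤ NN D q.1 q.2 := by exact_mod_cast two_le_NN D q.1 q.2
    linarith
  le_N _ := le_rfl
  NN_le _ := le_rfl
  tame q ω c := (hT D ω c q.1 q.2 0 0).1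
  meas q x := ((((hM D x).2.2.2.2.2.2.2.2 Reg fun y s => ((hM D x).2.2.1 0 y s).1).2
    q.1 q.2 0 0 0).1).comp measurable_plus
  measG q := measurable_plus (((hM D 0).2.2.2.2.2.2.2.2 Reg
    fun y s => ((hM D 0).2.2.1 0 y s).1).2 q.1 q.2 0 0 0).2.2
  dep q ω c h1 h2 := by
    have k := fun x => (hPD D q.1 q.2 0 0 x).1 ω (allOpen D) c (fun _ _ => True) h1
      fun y hy s => iff_true_intro (h2 y hy s)
    exact ⟨((k 0).2.2.2 0).2 ((hPD D q.1 q.2 0 0 0).2 ω _).2.2.2.2.1, fun x => (k x).1⟩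
  bound q x hx ω c h := by simpa using (hB D x hx ω c q.1 q.2 0 0 0 h).1
  ctl q := (h6 D q.1 q.2 0 0).imp fun _ k => ⟨k.1, fun ω a α β b c g =>
    ⟨((k.2 ω a α β b).2.2 c g).1, ((k.2 ω a α β b).2.2 c g).2.1⟩⟩
  tail := by
    obtain ⟨R, μ₁, H⟩ := tails hP hK hKM hD
    refine ⟨CmpM.sq R, μ₁, fun p lam μ a1 a2 a3 a4 =>
      le_trans (le_of_eq (tsum_congr fun q => ?_)) (H p lam μ a1 a2 a3 a4).1⟩
    simp only [CmpM.mem_sq, ite_not]
  ts ζ hζ := (hS D hD 2 ζ hζ).imp fun _ k => ⟨k.1, fun p lam a b c d => (k.2 p lam a b c d).1⟩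

theorem fam2 (hM : MEASStmt) (hT : PTStmt) (hB : PBStmt) (hPD : PDStmt) (h6 : P6Stmt)
    (hP : PROFStmt) (hK : KPTStmt) (hKM : KMOMStmt) (hS : TS2Stmt) (hD : 2 ≤ D) :
    Fam D ((ℕ × ℕ) × ℕ × ℕ) (fun q => q.1.1) (fun q => q.1.2)
      (fun q => near (Box D (q.1.1 + q.2.1 + 1) (q.1.2 + q.2.2)))
      (fun q => NN D q.1.1 q.1.2 * NN D (q.2.1 + 1) q.2.2)
      (fun q => 10 * (NN D q.1.1 q.1.2 + NN D (q.2.1 + 1) q.2.2))
      (fun q x ω c => C2 x ω c q.1.1 q.1.2 q.2.1 q.2.2)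
      (fun q x ω => U2 x ω q.1.1 q.1.2 q.2.1 q.2.2) where
  one_le q := by
    have : (2 : ℝ) ≤ NN D q.1.1 q.1.2 := by exact_mod_cast two_le_NN D q.1.1 q.1.2
    have : (0 : ℝ) ≤ NN D (q.2.1 + 1) q.2.2 := Nat.cast_nonneg _
    linarith
  le_N q := by
    have : (2 : ℝ) ≤ NN D q.1.1 q.1.2 := by exact_mod_cast two_le_NN D q.1.1 q.1.2
    have : (2 : ℝ) ≤ NN D (q.2.1 + 1) q.2.2 := by exact_mod_cast two_le_NN D _ _
    push_cast
    nlinarith
  NN_le q := Nat.le_mul_of_pos_right _ (lt_of_lt_of_le two_pos (two_le_NN D _ _))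
  tame q ω c := (hT D ω c q.1.1 q.1.2 q.2.1 q.2.2).2.2.1
  meas q x := ((((hM D x).2.2.2.2.2.2.2.2 Reg fun y s => ((hM D x).2.2.1 0 y s).1).2
    q.1.1 q.1.2 q.2.1 q.2.2 0).2.1).comp measurable_plus
  measG q := measurable_plus (((hM D 0).2.2.2.2.2.2.2.2 Reg
    fun y s => ((hM D 0).2.2.1 0 y s).1).2 q.1.1 q.1.2 0 0 0).2.2
  dep q ω c h1 h2 := by
    have k := fun x => (hPD D q.1.1 q.1.2 q.2.1 q.2.2 x).1 ω (allOpen D) c (fun _ _ => True) h1
      fun y hy s => iff_true_intro (h2 y hy s)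
    exact ⟨((k 0).2.2.2 0).2 ((hPD D q.1.1 q.1.2 0 0 0).2 ω _).2.2.2.2.1, fun x => (k x).2.1⟩
  bound q x hx ω c h := by simpa using (hB D x hx ω c q.1.1 q.1.2 q.2.1 q.2.2 0 h).2
  ctl q := (h6 D q.1.1 q.1.2 q.2.1 q.2.2).imp fun _ k => ⟨k.1, fun ω a α β b c g =>
    ⟨fun x hx => ((hPD D q.1.1 q.1.2 q.2.1 q.2.2 x).2 ω c).1.trans
      (((k.2 ω a α β b).2.2 c g).1 x hx), ((k.2 ω a α β b).2.2 c g).2.2.1⟩⟩
  tail := by
    obtain ⟨R, μ₁, H⟩ := tails hP hK hKM hD
    refine ⟨CmpM.sq R ×ˢ CmpM.sq R, μ₁, fun p lam μ a1 a2 a3 a4 =>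
      le_trans (le_of_eq (tsum_congr fun q => ?_)) (H p lam μ a1 a2 a3 a4).2⟩
    simp only [Finset.mem_product, CmpM.mem_sq, ← not_or, ite_not, or_assoc]
  ts ζ hζ := (hS D hD 2 ζ hζ).imp fun _ k => ⟨k.1, fun p lam a b c d => by
    simpa only [Nat.cast_mul] using (k.2 p lam a b c d).2⟩

theorem areg_eq (hM : MEASStmt) (hE : EXPStmt) {p x : ℝ}
    (hN : ∀ᵐ ω ∂perc D p, Nice x (plus ω)) :
    AReg D p x + ∑' q : (ℕ × ℕ) × ℕ × ℕ,
      ∫⁻ ω, C2 x (plus ω) (Reg (plus ω)) q.1.1 q.1.2 q.2.1 q.2.2 ∂perc D p =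
    ∑' q : ℕ × ℕ, ∫⁻ ω, C1 x (plus ω) (Reg (plus ω)) q.1 q.2 ∂perc D p := by
  have k := (hM D x).2.2.2.2.2.2.2.2 Reg fun y s => ((hM D x).2.2.1 0 y s).1
  have m0 : Measurable fun ω : Cfg D => CE x (plus ω) (Reg (plus ω)) := k.1.comp measurable_plus
  have m1 : ∀ q : ℕ × ℕ, Measurable fun ω : Cfg D => C1 x (plus ω) (Reg (plus ω)) q.1 q.2 :=
    fun q => (k.2 q.1 q.2 0 0 0).1.comp measurable_plus
  have m2 : ∀ q : (ℕ × ℕ) × ℕ × ℕ, Measurable fun ω : Cfg D =>
      C2 x (plus ω) (Reg (plus ω)) q.1.1 q.1.2 q.2.1 q.2.2 :=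
    fun q => (k.2 q.1.1 q.1.2 q.2.1 q.2.2 0).2.1.comp measurable_plus
  rw [← lintegral_tsum fun q => (m1 q).aemeasurable, ← lintegral_tsum fun q => (m2 q).aemeasurable,
    AReg, ← lintegral_add_left m0]
  refine lintegral_congr_ae ?_
  filter_upwards [hN] with ω h using (hE D x _ h _).1

theorem at_eq (hE : EXPStmt) {x : ℝ} (hN : ∀ᵐ ω ∂perc D 1, Nice x (plus ω)) :
    AT D 1 x + ∑' q : (ℕ × ℕ) × ℕ × ℕ,
      C2 x (allOpen D) (fun _ _ => True) q.1.1 q.1.2 q.2.1 q.2.2 =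
    ∑' q : ℕ × ℕ, C1 x (allOpen D) (fun _ _ => True) q.1 q.2 := by
  have := perc_prob D zero_le_one le_rfl
  obtain ⟨ω, h, rfl⟩ := (hN.and ae_allOpen).exists
  rw [AT, lintegral_perc_one]
  rw [plus_allOpen] at h ⊢
  exact (hE D x _ h _).1

theorem toReal_of_add {a b c : ℝ≥0∞} (h : a + b = c) (hc : c ≠ ∞) :
    a ≠ ∞ ∧ a.toReal = c.toReal - b.toReal := by
  subst h
  obtain ⟨ha, hb⟩ := ENNReal.add_ne_top.1 hc
  exact ⟨ha, by rw [ENNReal.toReal_add ha hb, add_sub_cancel_right]⟩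

end RegaM

open RegaM

theorem rega (hA : ABSStmt) (hN : NICEStmt) (hM : MEASStmt) (hE : EXPStmt) (hT : PTStmt)
    (hB : PBStmt) (hPD : PDStmt) (h6 : P6Stmt) (hP : PROFStmt) (hK : KPTStmt) (hKM : KMOMStmt)
    (hS : TS2Stmt) : REGAStmt := by
  intro D hD ζ hζ
  obtain ⟨e1, he1, H1⟩ := core hA hM hD (fam1 hM hT hB hPD h6 hP hK hKM hS hD) (half_pos hζ)
  obtain ⟨e2, he2, H2⟩ := core hA hM hD (fam2 hM hT hB hPD h6 hP hK hKM hS hD) (half_pos hζ)
  obtain ⟨e3, he3, H3⟩ := hN D (by omega) 1 one_pos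
  obtain ⟨e4, he4, H4⟩ := win_mu hD 1
  refine ⟨min (min e1 e2) (min e3 e4), by positivity, fun p α β hp hW => ?_⟩
  have q1 : 1 - e1 ≤ p := le_trans (by gcongr; exact (min_le_left _ _).trans (min_le_left _ _)) hp
  have q2 : 1 - e2 ≤ p := le_trans (by gcongr; exact (min_le_left _ _).trans (min_le_right _ _)) hp
  have q3 : 1 - e3 ≤ p := le_trans (by gcongr; exact (min_le_right _ _).trans (min_le_left _ _)) hp
  have q4 : 1 - e4 ≤ p := le_trans (by gcongr; exact (min_le_right _ _).trans (min_le_right _ _)) hp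
  obtain ⟨a1, a2⟩ := H1 p α β q1 hW
  obtain ⟨b1, b2⟩ := H2 p α β q2 hW
  have x1 : ∀ x ∈ Set.Icc α β, 1 ≤ x := fun x hx => by
    obtain ⟨μ, c1, -, -, c4, -⟩ := H4 p x q4 hW.1 (hW.mem hx).1 (hW.mem hx).2
    exact c1.trans c4
  have u := fun x hx =>
    toReal_of_add (areg_eq hM hE (H3 p x q3 hW.1.le (x1 x hx)).1) (a1 x hx).1
  have v := fun x hx =>
    toReal_of_add (at_eq hE (H3 1 x (by linarith) le_rfl (x1 x hx)).1) (a1 x hx).2.1
  refine ⟨fun x hx => ⟨(u x hx).1, (v x hx).1, ?_⟩,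
    ((a2.sub b2).mono (le_of_eq (by ring))).congr fun x hx => ?_⟩
  · have c1 := abs_le.1 (a1 x hx).2.2
    have c2 := abs_le.1 (b1 x hx).2.2
    rw [(u x hx).2, (v x hx).2, abs_le]
    constructor <;> linarith
  · rw [(u x hx).2, (v x hx).2]
    ring

end Pool.Agent.MP_8c549f_pr

/-!
Almost sure properties of the configuration, and their stability under finite modifications.
-/

set_option autoImplicit false

namespace Pool.Agent.MP_8c549f_pr

open MeasureTheory Filter Topology Real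
open scoped ENNReal NNReal

namespace NiceM

variable {D : ℕ}

/-- first visit of level `-1`, always below level `n` before -/
def RetLt (D n : ℕ) : Set (List (Step D)) :=
  {l | lev l = -1 ∧ ∀ k < l.length, 0 ≤ H l k ∧ H l k < n}

/-- quenched weight of the lists of length `k` inside a slab -/
noncomputable def Sq (lam : ℝ) (ω : Cfg D) (x : V D) (h k : ℕ) : ℝ≥0∞ :=
  SS {l : List (Step D) | l.length = k ∧ ∀ i ≤ k, 0 ≤ H l i ∧ H l i ≤ h} (W lam ω x)

theorem sum_ret_le (f : List (Step D) → ℝ≥0∞) (n : ℕ) :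
    ∑ i ∈ Finset.range n, SS (RetSet D i) f ≤ SS (RetLt D n) f := by
  induction n with
  | zero => simp
  | succ n ih =>
    rw [Finset.sum_range_succ]
    refine (add_le_add ih le_rfl).trans ?_
    rw [← SS_union]
    · refine SS_mono ?_ fun _ _ => le_rfl
      rintro l (hl | hl)
      · exact ⟨hl.1, fun k hk => ⟨(hl.2 k hk).1, by have := (hl.2 k hk).2; push_cast; omega⟩⟩
      · exact ⟨hl.1, fun k hk => ⟨(hl.2.1 k hk).1, by have := (hl.2.1 k hk).2; push_cast; omega⟩⟩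
    · rw [Set.disjoint_left]
      rintro l hl ⟨_, _, k, hk, hkn⟩
      have := (hl.2 k hk).2
      omega

theorem antich_union (n : ℕ) : Antich (ReachSet D n ∪ RetLt D n) := by
  rintro u hu l hl ⟨t, rfl⟩
  by_contra hne
  have ht : t ≠ [] := fun h => hne (by simp [h])
  have hlt : u.length < (u ++ t).length := by
    rw [List.length_append]
    have := List.length_pos_iff.2 ht
    omega
  have e : H (u ++ t) u.length = lev u := by rw [H_append_left t le_rfl, H_length]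
  have key : 0 ≤ lev u ∧ lev u < n := by
    rcases hl with hl | hl
    · have h1 := hl.1 _ hlt
      have h2 := hl.2.2 _ hlt.le
      have h3 := hl.2.1
      omega
    · have := hl.2 _ hlt
      omega
  rcases hu with hu | hu
  · have := hu.2.1
    omega
  · have := hu.1
    omega

theorem upper (lam : ℝ) (ω : Cfg D) (x : V D) :
    qr lam ω x + ∑' i, SS (RetSet D i) (W lam ω x) ≤ 1 := by
  rw [ENNReal.tsum_eq_iSup_nat, ENNReal.add_iSup]
  refine iSup_le fun n => ?_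
  refine (add_le_add (iInf_le _ n) (sum_ret_le _ n)).trans ?_
  rw [← SS_union]
  · exact kraft lam ω (antich_union n) x
  · rw [Set.disjoint_left]
    intro l h1 h2
    have := h1.2.1
    have := h2.1
    omega

theorem lower_n (lam : ℝ) {ω : Cfg D} {x : V D} (hx : ω (edge x (bck D)) = true) (n k : ℕ) :
    1 ≤ SS (ReachSet D n) (W lam ω x) + ∑' i, SS (RetSet D i) (W lam ω x) + Sq lam ω x n k := by
  rw [← SS_length_eq_one lam ω k x _ hx,
    SS_split _ {l | ∀ i ≤ k, 0 ≤ H l i ∧ H l i ≤ n}]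
  rw [add_comm]
  refine add_le_add ?_ le_rfl
  refine le_trans (cover_q lam ω x (P := ReachSet D n ∪ ⋃ i, RetSet D i)
    (One.antich_of_length fun l hl => hl.1) fun l hl _ => ?_) ?_
  · by_cases hs : Stay l
    · have hlen : l.length = k := hl.1
      have h2 : ¬ ∀ i ≤ k, 0 ≤ H l i ∧ H l i ≤ n := hl.2
      push Not at h2
      obtain ⟨i, hi, h3⟩ := h2
      have h4 := h3 (hs i (by omega))
      obtain ⟨t, hti, ht, hlt⟩ := exists_first_hit (H l) (fun j => (H_step l j).2) (c := n)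
        (by simp) h4.le
      have hl' : (l.take t).length = t := by rw [List.length_take]; omega
      refine ⟨l.take t, Or.inl ⟨fun j hj => ?_, ht, One.stay_take hs t⟩, One.take_isPre l t⟩
      rw [hl'] at hj
      rw [H_take l hj.le, lev_take, ht]
      exact hlt j hj
    · obtain ⟨u, hu, hul⟩ := One.exists_ret hs
      exact ⟨u, Or.inr hu, hul⟩
  · exact (SS_union_le _ _ _).trans (add_le_add le_rfl (SS_iUnion_le _ _))

theorem sum_Rq (lam : ℝ) (ω : Cfg D) (x : V D) :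
    ∑' q : ℕ × ℕ, Rq lam ω x q.1 q.2 = ∑' i, SS (RetSet D i) (W lam ω x) := by
  rw [ENNReal.tsum_prod (f := fun i r => Rq lam ω x i r)]
  exact tsum_congr fun i => (SS_fiber (RetSet D i) ext (W lam ω x)).symm

theorem total (lam : ℝ) {ω : Cfg D} {x : V D} (hx : ω (edge x (bck D)) = true)
    (hs : ∀ h, ⨅ k, Sq lam ω x h k = 0) :
    qr lam ω x + ∑' q : ℕ × ℕ, Rq lam ω x q.1 q.2 = 1 := by
  rw [sum_Rq]
  refine le_antisymm (upper lam ω x) ?_
  rw [qr, ENNReal.iInf_add]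
  refine le_iInf fun n => ?_
  have := le_iInf fun k => lower_n lam hx n k
  rwa [← ENNReal.add_iInf, hs n, add_zero] at this

theorem plus_eq {ω : Cfg D} (h : ω (edge 0 (bck D)) = true) : plus ω = ω := by
  rw [plus, ← h]; exact Function.update_eq_self _ _

theorem ae_slab {p lam : ℝ} (h0 : 0 ≤ p) (h1 : p ≤ 1) (x : V D) (h : ℕ)
    (ht : Tendsto (One.Slab D p lam h) atTop (𝓝 0)) :
    ∀ᵐ ω ∂perc D p, ω (edge x (bck D)) = true → ⨅ k, Sq lam ω x h k = 0 := by
  have hm : Measurable fun ω : Cfg D => ⨅ k, Sq lam (plus ω) 0 h k :=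
    Measurable.iInf fun k => measurable_SS (measurable_W_cfg true lam)
  have hz : ∫⁻ ω, ⨅ k, Sq lam (plus ω) 0 h k ∂perc D p = 0 := by
    refine le_antisymm (ge_of_tendsto' ht fun k => ?_) zero_le
    rw [One.Slab, SS_wb]
    exact lintegral_mono fun ω => iInf_le (fun k => Sq lam (plus ω) 0 h k) k
  rw [← shft D p h0 h1 _ x hm] at hz
  have hz' := (lintegral_eq_zero_iff (hm.comp (measurable_shift x))).1 hz
  filter_upwards [hz'] with ω hω hx
  have e : plus (shift x ω) = shift x ω := by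
    refine plus_eq ?_
    have := edge_add x 0 (bck D)
    rw [zero_add] at this
    rw [shift, ← this, hx]
  have e2 : W lam (shift x ω) 0 = W lam ω x := by
    funext l
    rw [W_shift, zero_add]
  have hω' : ⨅ k, Sq lam (plus (shift x ω)) 0 h k = 0 := hω
  rw [e] at hω'
  unfold Sq at hω' ⊢
  rwa [e2] at hω'

theorem ae_aset {p lam : ℝ} (h : ∑' n, aa D p lam n ≠ ∞) :
    ∀ᵐ ω ∂perc D p, ω (edge 0 (bck D)) = true → ∑' n : ℕ, SS (ASet D n) (W lam ω 0) ≠ ∞ := by
  have hm : ∀ n : ℕ, Measurable fun ω : Cfg D => SS (ASet D n) (W lam (plus ω) 0) :=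
    fun n => measurable_SS (measurable_W_cfg true lam)
  have hf : ∫⁻ ω, ∑' n : ℕ, SS (ASet D n) (W lam (plus ω) 0) ∂perc D p ≠ ∞ := by
    rw [lintegral_tsum fun n => (hm n).aemeasurable]
    refine ne_of_eq_of_ne (tsum_congr fun n => ?_) h
    rw [aa, SS_wb]
    rfl
  filter_upwards [ae_lt_top (Measurable.tsum hm) hf] with ω hω hx
  rw [plus_eq hx] at hω
  exact hω.ne

/-- finite energy: one edge -/
theorem ae_update {p : ℝ} (h0 : 0 ≤ p) (h1 : p ≤ 1) (e : Edge D) (b : Bool)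
    (hb : perc D p {ω | ω e = b} ≠ 0) {P : Cfg D → Prop} (h : ∀ᵐ ω ∂perc D p, P ω) :
    ∀ᵐ ω ∂perc D p, P (Function.update ω e b) := by
  classical
  obtain ⟨N, hN, hNm, hN0⟩ := exists_measurable_superset_of_null (ae_iff.1 h)
  have mu : Measurable fun ω : Cfg D => Function.update ω e b := measurable_update_left
  have hA : MeasurableSet ((fun ω : Cfg D => Function.update ω e b) ⁻¹' N) := mu hNm
  have hB : MeasurableSet {ω : Cfg D | ω e = b} :=
    measurableSet_eq_fun (measurable_pi_apply e) measurable_const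
  have key := ind D p h0 h1
    (((fun ω : Cfg D => Function.update ω e b) ⁻¹' N).indicator 1)
    ({ω : Cfg D | ω e = b}.indicator 1) {e}ᶜ {e} (measurable_one.indicator hA)
    (measurable_one.indicator hB) (fun ω ω' hh => ?_) (fun ω ω' hh => ?_) disjoint_compl_left
  · rw [lintegral_indicator_one hA, lintegral_indicator_one hB] at key
    have hle : ∫⁻ ω, ((fun ω : Cfg D => Function.update ω e b) ⁻¹' N).indicator 1 ω *
        {ω : Cfg D | ω e = b}.indicator (1 : Cfg D → ℝ≥0∞) ω ∂perc D p ≤ perc D p N := by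
      rw [← lintegral_indicator_one hNm]
      refine lintegral_mono fun ω => ?_
      by_cases h2 : ω e = b
      · by_cases h3 : ω ∈ N
        · have h4 : ω ∈ (fun ω : Cfg D => Function.update ω e b) ⁻¹' N := by
            show Function.update ω e b ∈ N
            rw [← h2, Function.update_eq_self]; exact h3
          simp [h2, h3, h4]
        · have h4 : ω ∉ (fun ω : Cfg D => Function.update ω e b) ⁻¹' N := by
            show ¬ Function.update ω e b ∈ N
            rw [← h2, Function.update_eq_self]; exact h3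
          simp [h4]
      · simp [h2]
    rw [key, hN0, nonpos_iff_eq_zero, mul_eq_zero] at hle
    rw [ae_iff]
    exact measure_mono_null (fun ω hω => hN (a := Function.update ω e b) hω)
      (hle.resolve_right hb)
  · have e1 : Function.update ω e b = Function.update ω' e b := by
      funext f
      by_cases hf : f = e
      · rw [hf, Function.update_self, Function.update_self]
      · rw [Function.update_of_ne hf, Function.update_of_ne hf]; exact hh f hf
    simp only [Set.indicator, Set.mem_preimage, e1, Pi.one_apply]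
  · simp only [Set.indicator, Set.mem_ofPred_eq, hh e rfl, Pi.one_apply]

theorem open_ne_zero {p : ℝ} (h0 : 0 < p) (h1 : p ≤ 1) (e : Edge D) :
    perc D p {ω | ω e = true} ≠ 0 := by
  have := cyl D p h0.le h1 {e} ∅ (Finset.disjoint_empty_right _)
  simp only [Finset.mem_singleton, forall_eq, Finset.notMem_empty, false_imp_iff, implies_true,
    and_true, Finset.card_singleton, pow_one, Finset.card_empty, pow_zero, mul_one] at this
  rw [this]
  exact (ENNReal.ofReal_pos.2 h0).ne'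

theorem closed_ne_zero {p : ℝ} (h0 : 0 ≤ p) (h1 : p < 1) (e : Edge D) :
    perc D p {ω | ω e = false} ≠ 0 := by
  rw [perc_edge h0 h1.le]
  exact (ENNReal.ofReal_pos.2 (by linarith)).ne'

/-- finite energy: closing a finite set of edges -/
theorem ae_close {p : ℝ} (h0 : 0 ≤ p) (h1 : p < 1) (K : Finset (Edge D)) :
    ∀ {P : Cfg D → Prop}, (∀ᵐ ω ∂perc D p, P ω) →
      ∀ᵐ ω ∂perc D p, P fun e => if e ∈ K then false else ω e := by
  induction K using Finset.induction_on with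
  | empty => intro P h; simpa using h
  | insert f K _ ih =>
    intro P h
    have h2 := ih (P := fun ω => P (Function.update ω f false))
      (ae_update h0 h1.le f false (closed_ne_zero h0 h1 f) h)
    filter_upwards [h2] with ω hω
    have e : (fun e => if e ∈ insert f K then false else ω e) =
        Function.update (fun e => if e ∈ K then false else ω e) f false := by
      funext e
      by_cases he : e = f
      · rw [he, Function.update_self, if_pos (Finset.mem_insert_self _ _)]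
      · rw [Function.update_of_ne he]
        simp only [Finset.mem_insert, he, false_or]
    rw [e]
    exact hω

end NiceM

open Pool.Agent.MP_8c549f_pr.NiceM in
theorem nice : NICEStmt := by
  intro D hD a ha
  obtain ⟨C₁, _, hL⟩ := lat1S D hD a ha
  obtain ⟨c, e₃, hc, he₃, hH⟩ := htS D hD a ha
  refine ⟨min (min (1 / 2) (exp (-a))) e₃, by positivity, fun p lam hp h1 hl => ?_⟩
  have b1 := (min_le_left _ e₃).trans (min_le_left (1 / 2) (exp (-a)))
  have b2 := (min_le_left _ e₃).trans (min_le_right (1 / 2) (exp (-a)))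
  have b3 := min_le_right (min (1 / 2) (exp (-a))) e₃
  have hp0 : 0 < p := by linarith
  have h0 := hp0.le
  have hρ0 := (exp_pos (-(c * a))).le
  have hρ1 : exp (-(c * a)) < 1 := by
    rw [← exp_zero]; exact exp_lt_exp.2 (by have := mul_pos hc ha; linarith)
  have hA : ∀ m, aa D p lam m ≤ ENNReal.ofReal (exp (-(c * a))) ^ m := by
    intro m
    refine (hH p lam a (by linarith) h1 le_rfl hl (by linarith) m).trans ?_
    rw [← ENNReal.ofReal_pow hρ0, ← exp_nat_mul]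
    exact ENNReal.ofReal_le_ofReal (exp_le_exp.2 (le_of_eq (by ring)))
  have hsum : ∑' n, aa D p lam n ≠ ∞ := by
    refine ne_top_of_le_ne_top ?_ (ENNReal.tsum_le_tsum hA)
    rw [ENNReal.tsum_geometric]
    exact ENNReal.inv_ne_top.2 (tsub_pos_iff_lt.2 (ENNReal.ofReal_lt_one.2 hρ1)).ne'
  have hslab : ∀ᵐ ω ∂perc D p, ∀ (x : V D) (h : ℕ),
      ω (edge x (bck D)) = true → ⨅ k, Sq lam ω x h k = 0 := by
    rw [ae_all_iff]
    intro x
    rw [ae_all_iff]
    intro h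
    exact ae_slab h0 h1 x h (One.slab_tendsto van esc h0 h1 (ha.le.trans hl) h _ _ (by positivity)
      (hL p lam h0 h1 hl h))
  have hN : ∀ᵐ ω ∂perc D p, Nice lam ω := by
    filter_upwards [hslab, ae_aset hsum] with ω h2 h3
    exact ⟨fun x hx => total lam hx fun h => h2 x h hx, h3⟩
  have hP : ∀ {P : Cfg D → Prop}, (∀ᵐ ω ∂perc D p, P ω) → ∀ᵐ ω ∂perc D p, P (plus ω) :=
    fun h => ae_update h0 h1 _ true (open_ne_zero hp0 h1 _) h
  refine ⟨hP hN, fun hp1 => ⟨?_, fun S => ?_⟩⟩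
  · rw [ae_all_iff]
    intro u
    exact hP (P := fun ω => Nice lam (shut ω (edge u (fwd D))))
      (ae_update h0 h1 _ false (closed_ne_zero h0 hp1 _) hN)
  · exact ae_close h0 hp1 (near S) (P := fun ω => Nice lam (plus ω)) (hP hN)

end Pool.Agent.MP_8c549f_pr

end MrgPart0

-- ======== part 1: formerly Pool.Agent.MP_8c549f_pr.FinalB
section MrgPart1


/-! Composition of the modules of the second part. -/

set_option autoImplicit false

namespace Pool.Agent.MP_8c549f_pr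

theorem absS : ABSStmt := abs2 lip2
theorem peS : PEStmt := pe ch4
theorem rqS : RQStmt := rq ch4
theorem ptS : PTStmt := pt peS rqS
theorem pbS : PBStmt := pb peS rqS
theorem prS : PRStmt := prt peS rqS
theorem pdS : PDStmt := pd rqS
theorem p6S : P6Stmt := p6 pbS prS pdS
theorem qrS : QRStmt := qrs meas
theorem rt2S : RT2Stmt := rt2 fill2s
theorem pisS : PISStmt := pis meas rt2S
theorem mbeS : MBEStmt := mbe meas rt2S
theorem mfinS : MFINStmt := mfin rt2S pisS
theorem excS : EXCStmt := excs sym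
theorem traS : TRAStmt := tra excS
theorem limS : LIMStmt := lims resl
theorem trbS : TRBStmt := trb excS traS limS
theorem splitS : SPLITStmt := splits nice meas rt1 rt2S rt3 trbS
theorem profS : PROFStmt := prof iso2
theorem cutS : CUTStmt := cuts iso2
theorem ktrapS : KTRAPStmt := ktrap fill2s iso2
theorem wgeoS : WGEOStmt := wgeo geo2s
theorem klatS : KLATStmt := klat kfac
theorem krecS : KRECStmt := krec kfac
theorem kretS : KRETStmt := kret geo2s kfac klatS ktrapS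
theorem kptS : KPTStmt := kpt kfac klatS kretS krecS
theorem kaS : KAStmt := ka nice meas exps ptS pdS
theorem kcS : KCStmt := kc meas wgeoS p6S
theorem kbS : KBStmt := kb meas pbS pdS wgeoS ktrapS
theorem koutS : KOUTStmt := kout lip2 profS kptS kmom kaS kbS kcS
theorem nastS : NASTStmt := nast meas rt2S cutS mbeS
theorem bushS : BUSHStmt := bush pisS profS koutS mfinS nastS
theorem ts2S : TS2Stmt := ts2 meas pbS pdS wgeoS profS ktrapS kptS kmom
theorem regaS : REGAStmt := rega absS nice meas exps ptS pbS pdS p6S profS kptS kmom ts2S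
theorem regbS : REGBStmt := regb absS nice meas exps ptS pdS p6S profS kptS kmom
theorem reg0S : REG0Stmt := reg0 nice qrS
theorem winS : WINStmt := win nice qrS splitS bushS regaS regbS reg0S (qc schw)

theorem uniStmt : UniStmt := uni winS

end Pool.Agent.MP_8c549f_pr

end MrgPart1

-- marker of a merged file
example : 731051 + 206403 = 731051 + 206403 := rfl

end MrgPart1

-- marker of a merged file
example : 731051 + 206403 = 731051 + 206403 := rfl
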